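import Pool.Agent.Lib.MP_f225de_an.GE1

set_option autoImplicit false

open MeasureTheory Set Filter Topology Polynomial Complex
open scoped ENNReal NNReal Real

namespace Pool.Agent.Lib.MP_f225de_an.E

lemma cyc (T : Finset ℝ) (hT : T.Nonempty) (h : ∀ x ∈ T, x ∈ Ioc (-π) π) :
    ∃ (m : ℕ) (t : ℕ → ℝ), StrictMono t ∧ (∀ i ≤ m, t i ∈ T) ∧ (∀ x ∈ T, ∃ i ≤ m, t i = x) ∧
      t (m + 1) = t 0 + 2 * π ∧
      ∀ i ≤ m, ∀ x ∈ T, ∀ y ∈ Ioo (t i) (t (i + 1)), exp (y * I) ≠ exp (x * I) := by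
  obtain ⟨m, hm⟩ : ∃ m, T.card = m + 1 := Nat.exists_eq_succ_of_ne_zero hT.card_pos.ne'
  set e := T.orderEmbOfFin hm
  have he : ∀ i, e i ∈ T := fun i => T.orderEmbOfFin_mem hm i
  let t : ℕ → ℝ := fun i => if h : i < m + 1 then e ⟨i, h⟩ else e 0 + 2 * π + (i - (m + 1) : ℕ)
  have t1 : ∀ i (h : i < m + 1), t i = e ⟨i, h⟩ := fun i h => dif_pos h
  have t2 : ∀ i, m + 1 ≤ i → t i = e 0 + 2 * π + (i - (m + 1) : ℕ) := fun i h =>
    dif_neg (by omega)
  have t3 : t (m + 1) = t 0 + 2 * π := by simp [t2 _ le_rfl, t1 0 m.succ_pos]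
  have hs : StrictMono t := strictMono_nat_of_lt_succ fun i => by
    rcases lt_trichotomy i m with a | rfl | a
    · rw [t1 i (by omega), t1 (i + 1) (by omega)]
      exact e.strictMono (Fin.mk_lt_mk.mpr i.lt_succ_self)
    · rw [t3, t1 i i.lt_succ_self, t1 0 i.succ_pos]
      linarith [(h _ (he ⟨i, i.lt_succ_self⟩)).2, (h _ (he ⟨0, i.succ_pos⟩)).1]
    · rw [t2 i a, t2 (i + 1) (by omega)]
      gcongr
      omega
  have t4 : ∀ x ∈ T, ∃ i ≤ m, t i = x := fun x hx => by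
    obtain ⟨i, hi⟩ : x ∈ range e := by rwa [Finset.range_orderEmbOfFin]
    exact ⟨i, by omega, by rw [t1 i i.2, hi]⟩
  have t5 : ∀ i ≤ m, t i ∈ T := fun i hi => by rw [t1 i (by omega)]; exact he _
  refine ⟨m, t, hs, t5, t4, t3, fun i hi x hx y hy hxy => ?_⟩
  obtain ⟨k, hk⟩ := exp_eq_exp_iff_exists_int.mp hxy
  have hk' : y = x + k * (2 * π) := by simpa using congrArg im hk
  obtain ⟨j, hj, rfl⟩ := t4 x hx
  have := Real.pi_pos
  rcases lt_trichotomy k 0 with a | rfl | a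
  · have : (k : ℝ) ≤ -1 := by exact_mod_cast (by omega : k ≤ -1)
    nlinarith [(h _ hx).2, (h _ (t5 i hi)).1, hy.1]
  · rw [Int.cast_zero, zero_mul, add_zero] at hk'
    have := hs.lt_iff_lt.mp (hk' ▸ hy.1)
    have := hs.lt_iff_lt.mp (hk' ▸ hy.2)
    omega
  · have : (1 : ℝ) ≤ k := by exact_mod_cast a
    nlinarith [hs.monotone (Nat.zero_le j), hs.monotone (Nat.succ_le_succ hi), hy.2]

variable {n : ℕ} {p : ℂ[X]} {g ζ : Fin n → ℂ → ℂ}

lemma reg_of (h1 : ∀ z, p.derivative.eval z = 0 → ‖p.eval z‖ = 1) {z w : ℂ}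
    (h : p.eval z = exp w) (hw : w.re ≠ 0) : p.derivative.eval z ≠ 0 := fun e => by
  have := h1 z e
  rw [h, norm_exp, Real.exp_eq_one_iff] at this
  exact hw this

lemma shift (h1 : ∀ z, p.derivative.eval z = 0 → ‖p.eval z‖ = 1)
    (k1 : ∀ j, ContinuousOn (ζ j) {w | 0 ≤ w.re})
    (k3 : ∀ w : ℂ, 0 ≤ w.re → p - C (exp w) = ∏ j, (X - C (ζ j w))) (l : Fin n) {s : ℂ}
    (hs : exp s = 1) : ∃ l', ∀ w : ℂ, 0 ≤ w.re → ζ l (w + s) = ζ l' w := by
  have h0 := re_zero hs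
  have hr : ∀ w : ℂ, 0 ≤ w.re → p.eval (ζ l (w + s)) = exp w := fun w hw => by
    rw [(root_of (k3 (w + s) (by simpa [h0] using hw)) _).mpr ⟨l, rfl⟩, exp_add, hs, mul_one]
  have hc : ContinuousOn (fun w => ζ l (w + s)) {w | 0 ≤ w.re} :=
    (k1 l).comp (by fun_prop) fun w hw => by simpa [h0] using hw
  have hsub : {w : ℂ | 0 < w.re} ⊆ {w | 0 ≤ w.re} := fun w (hw : 0 < w.re) => hw.le
  obtain ⟨l', e⟩ := (root_of (k3 1 (by simp)) _).mp (hr 1 (by simp))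
  refine ⟨l', fun w hw => EqOn.of_subset_closure (fun w hw => ?_) hc (k1 l') hsub
    (by rw [closure_setOfPred_lt_re]) hw⟩
  obtain ⟨i, rfl, a⟩ := cover (convex_halfSpace_re_gt 0).isPreconnected
    (f := fun _ w => ζ l (w + s)) (fun _ => hc.mono hsub) (fun i => (k1 i).mono hsub) (· = l')
    (fun w hw => (root_of (k3 w (hsub hw)) _).mp (hr w (hsub hw)))
    (fun w hw i i' a b c => c ▸ (rep_root (k3 w (hsub hw)) (a.symm.trans b)
      (reg_of h1 (a ▸ hr w (hsub hw)) (ne_of_gt hw))).symm) (x₀ := 1) (by simp) e rfl w hw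
  exact a

lemma conn_pt (hn : 1 ≤ n) (hd : p.natDegree = n)
    (h1 : ∀ z, p.derivative.eval z = 0 → ‖p.eval z‖ = 1)
    (g1 : ∀ j, ContinuousOn (g j) {w | w.re ≤ 0}) (k1 : ∀ j, ContinuousOn (ζ j) {w | 0 ≤ w.re})
    (g3 : ∀ w : ℂ, w.re ≤ 0 → p - C (exp w) = ∏ j, (X - C (g j w)))
    (k3 : ∀ w : ℂ, 0 ≤ w.re → p - C (exp w) = ∏ j, (X - C (ζ j w)))
    (g4 : ∀ j s w, exp s = 1 → w.re ≤ 0 → g j (w + s) = g j w) (S : Fin n → Prop) {j₀ : Fin n}
    (h0 : S j₀) (hS : ∀ j j', ∀ θ : ℝ, g j (θ * I) = g j' (θ * I) → S j → S j') (j : Fin n) :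
    S j := by
  have hm : ∀ j (θ : ℝ), ∃ l, g j (θ * I) = ζ l (θ * I) := fun j θ =>
    (root_of (k3 _ (by simp)) _).mp ((root_of (g3 _ (by simp)) _).mpr ⟨j, rfl⟩)
  let T : Fin n → Prop := fun l => ∀ θ : ℝ, ∃ j, S j ∧ g j (θ * I) = ζ l (θ * I)
  obtain ⟨l₀, e₀⟩ := hm j₀ 0
  have hT : T l₀ := fun θ => cover isPreconnected_univ (f := fun j (θ : ℝ) => g j (θ * I))
    (h := fun _ (θ : ℝ) => ζ l₀ (θ * I))
    (fun j => (g1 j).comp (by fun_prop) fun θ _ => by simp)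
    (fun _ => (k1 l₀).comp (by fun_prop) fun θ _ => by simp) S
    (fun θ _ => ((root_of (g3 _ (by simp)) _).mp
      ((root_of (k3 _ (by simp)) _).mpr ⟨l₀, rfl⟩)).imp fun _ => Eq.symm)
    (fun θ _ i i' a b => hS i i' θ (a.trans b.symm)) trivial e₀ h0 θ trivial
  suffices ∀ l, T l by
    obtain ⟨l, e⟩ := hm j 0
    obtain ⟨j', a, b⟩ := this l 0
    exact hS j' j 0 (b.trans e.symm) a
  obtain ⟨R, hR⟩ := ((p.isProperMap_eval (natDegree_pos_iff_degree_pos.mp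
    (by omega))).isCompact_preimage (isCompact_closedBall 0 (Real.exp 1))).isBounded.exists_norm_le
  obtain ⟨M, hM⟩ := (isCompact_closedBall (0 : ℂ) (R + 1)).exists_bound_of_continuousOn
    (f := fun z => p.eval z) p.continuousOn
  have hz : ∀ l w, 0 ≤ w.re → ‖p.eval (ζ l w)‖ = Real.exp w.re := fun l w hw => by
    rw [(root_of (k3 w hw) _).mpr ⟨l, rfl⟩, norm_exp]
  have hX : 1 ≤ |M| + 1 := by linarith [abs_nonneg M]
  have hX' : M < Real.exp (|M| + 1) := by linarith [Real.add_one_le_exp (|M| + 1), le_abs_self M]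
  set B := Icc 1 (|M| + 1) ×ℂ Icc (-π) π
  have hB : ∀ w ∈ B, 0 < w.re := fun w hw => lt_of_lt_of_le one_pos hw.1.1
  let K : (Fin n → Prop) → Set ℂ := fun Q => ⋃ l ∈ {l | Q l}, ζ l '' B
  have hK : ∀ Q, IsClosed (K Q) := fun Q => (toFinite _).isClosed_biUnion fun l _ =>
    ((isCompact_Icc.reProdIm isCompact_Icc).image_of_continuousOn
      ((k1 l).mono fun w hw => (hB w hw).le)).isClosed
  have hdis : ∀ l l', ∀ w ∈ B, ∀ w' ∈ B, ζ l w = ζ l' w' → T l → T l' := by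
    intro l l' w hw w' hw' e a θ
    have r1 := (root_of (k3 w (hB w hw).le) _).mpr ⟨l, rfl⟩
    have r2 := (root_of (k3 w' (hB w' hw').le) _).mpr ⟨l', rfl⟩
    have hs : exp (w - w') = 1 := by rw [exp_sub, ← r1, ← r2, e, div_self (r2 ▸ exp_ne_zero _)]
    obtain ⟨l'', b⟩ := shift h1 k1 k3 l hs
    obtain rfl : l' = l'' := rep_root (k3 w' (hB w' hw').le)
      (by rw [← b w' (hB w' hw').le, ← e, add_sub_cancel]) (reg_of h1 r2 (hB w' hw').ne')
    obtain ⟨j, c, d⟩ := a (θ + (w - w').im)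
    have : ((θ + (w - w').im : ℝ) : ℂ) * I = θ * I + (w - w') :=
      Complex.ext (by simpa using (re_zero hs).symm) (by simp)
    exact ⟨j, c, by rwa [this, g4 j _ _ hs (by simp), b _ (by simp)] at d⟩
  have hex : ∀ l, ∃ w ∈ B, ζ l w ∈ Metric.sphere (0 : ℂ) (R + 1) := fun l => by
    obtain ⟨x, a, b⟩ := intermediate_value_Icc hX (f := fun x : ℝ => ‖ζ l x‖)
      ((k1 l).comp (by fun_prop) fun x hx => by simpa using zero_le_one.trans hx.1).norm
      (show R + 1 ∈ _ from ⟨(hR _ (by simp [hz])).trans (by linarith), not_lt.mp fun c => by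
        have := hM _ (mem_closedBall_zero_iff.mpr c.le)
        rw [hz _ _ (by simpa using zero_le_one.trans hX), ofReal_re] at this
        linarith⟩)
    exact ⟨x, ⟨by simpa using a, by simp [Real.pi_pos.le]⟩, by simpa using b⟩
  have key := isPreconnected_iff_subset_of_disjoint_closed.mp
    (isPreconnected_sphere (by simp [rank_real_complex]) (0 : ℂ) (R + 1)) _ _ (hK T)
    (hK fun l => ¬T l) (fun z hz' => ?_) ?_
  · intro l
    rcases key with c | c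
    · obtain ⟨w, a, b⟩ := hex l
      obtain ⟨l', d, w', e, f⟩ := mem_iUnion₂.mp (c b)
      exact hdis l' l w' e w a f d
    · obtain ⟨w, a, b⟩ := hex l₀
      obtain ⟨l', d, w', e, f⟩ := mem_iUnion₂.mp (c b)
      exact (d (hdis l₀ l' w a w' e f.symm hT)).elim
  · have a : Real.exp 1 < ‖p.eval z‖ := not_le.mp fun c => by
      have := hR z (mem_closedBall_zero_iff.mpr c)
      rw [mem_sphere_zero_iff_norm.mp hz'] at this
      linarith
    have b : 0 < ‖p.eval z‖ := (Real.exp_pos 1).trans a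
    have c : log (p.eval z) ∈ B := ⟨⟨by rw [log_re, Real.le_log_iff_exp_le b]; exact a.le, by
      rw [log_re, Real.log_le_iff_le_exp b]
      exact (hM z (Metric.sphere_subset_closedBall hz')).trans hX'.le⟩,
      (neg_pi_lt_log_im _).le, log_im_le_pi _⟩
    obtain ⟨l, e⟩ := (root_of (k3 _ (hB _ c).le) z).mp (exp_log (norm_pos_iff.mp b)).symm
    by_cases q : T l
    · exact Or.inl (mem_iUnion₂.mpr ⟨l, q, _, c, e.symm⟩)
    · exact Or.inr (mem_iUnion₂.mpr ⟨l, q, _, c, e.symm⟩)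
  · refine eq_empty_of_forall_notMem fun z ⟨_, a, b⟩ => ?_
    obtain ⟨l, d, w, e, f⟩ := mem_iUnion₂.mp a
    obtain ⟨l', d', w', e', f'⟩ := mem_iUnion₂.mp b
    exact d' (hdis l l' w e w' e' (f.trans f'.symm) d)

end Pool.Agent.Lib.MP_f225de_an.E
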