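import Pool.Agent.Lib.MP_f225de_an.GE0
import Pool.Agent.Lib.MP_f225de_an.GE2

set_option autoImplicit false

open MeasureTheory Set Filter Topology Polynomial Complex
open scoped ENNReal NNReal Real ComplexConjugate

namespace Pool.Agent.Lib.MP_f225de_an.E

/-- identity or conjugation -/
noncomputable def kp (b : Bool) : ℂ →+* ℂ := if b then RingHom.id ℂ else starRingEnd ℂ

lemma kp_kp (b : Bool) (z : ℂ) : kp b (kp b z) = z := by cases b <;> simp [kp]
lemma kp_exp (b : Bool) (z : ℂ) : exp (kp b z) = kp b (exp z) := by cases b <;> simp [kp]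
lemma kp_re (b : Bool) (z : ℂ) : (kp b z).re = z.re := by cases b <;> simp [kp]
lemma kp_norm (b : Bool) (z : ℂ) : ‖kp b z‖ = ‖z‖ := by cases b <;> simp [kp]
lemma kp_real (b : Bool) (x : ℝ) : kp b x = x := by cases b <;> simp [kp]
lemma kp_cont (b : Bool) : Continuous (kp b) := by
  cases b
  exacts [continuous_conj, continuous_id]

/-- logarithm on the closed upper half plane -/
noncomputable def Lg (u : ℂ) : ℂ := log (-I * u) + π / 2 * I

lemma exp_Lg {u : ℂ} (hu : u ≠ 0) : exp (Lg u) = u := by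
  rw [Lg, exp_add, exp_log (by simpa using hu), exp_pi_div_two_mul_I]
  linear_combination -u * I_mul_I

lemma Lg_polar {ρ y : ℝ} (h : 0 < ρ) (hy : y ∈ Icc 0 π) :
    Lg (ρ * exp (y * I)) = Real.log ρ + y * I := by
  have : -I * (ρ * exp (y * I)) = ρ * exp (y * I - π / 2 * I) := by
    rw [exp_sub, exp_pi_div_two_mul_I, div_I]; ring
  rw [Lg, this, log_ofReal_mul h (exp_ne_zero _), log_exp]
  · ring
  all_goals simp; linarith [hy.1, hy.2, Real.pi_pos]

lemma Lg_cont {ρ y : ℝ} (h : 0 < ρ) (hy : y ∈ Icc 0 π) : ContinuousAt Lg (ρ * exp (y * I)) := by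
  refine (ContinuousAt.clog (by fun_prop) ?_).add continuousAt_const
  have e := Real.sin_sq_add_cos_sq y
  rcases (Real.sin_nonneg_of_mem_Icc hy).lt_or_eq with a | a
  · left; simpa [exp_ofReal_mul_I_im] using mul_pos h a
  · right
    simpa [exp_ofReal_mul_I_re, h.ne'] using fun c => by simp [← a, c] at e

/-- the glued branch in the logarithmic variable -/
noncomputable def Yf (g ζ : ℂ → ℂ) (w : ℂ) : ℂ := if w.re ≤ 0 then g w else ζ w

lemma Yf_cont {g ζ : ℂ → ℂ} (g1 : ContinuousOn g {w | w.re ≤ 0})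
    (k1 : ContinuousOn ζ {w | 0 ≤ w.re}) {w : ℂ} (h : w.re = 0 → g w = ζ w) :
    ContinuousAt (Yf g ζ) w := by
  rw [← continuousWithinAt_univ, ← union_compl_self {w : ℂ | w.re ≤ 0}]
  refine ContinuousWithinAt.union ?_ ?_
  · by_cases a : w.re ≤ 0
    · exact (g1 w a).congr (fun y hy => if_pos hy) (if_pos a)
    · exact continuousWithinAt_of_notMem_closure
        (by rwa [(isClosed_le continuous_re continuous_const).closure_eq])
  · by_cases a : 0 ≤ w.re
    · refine ((k1 w a).mono fun y hy => (not_le.mp hy).le).congr (fun y hy => if_neg hy) ?_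
      split_ifs with b
      exacts [h (le_antisymm b a), rfl]
    · exact continuousWithinAt_of_notMem_closure fun c => a (closure_minimal
        (fun y hy => (not_le.mp hy).le) (isClosed_le continuous_const continuous_re) c)

/-- the branch on a half sector -/
noncomputable def Zf (b : Bool) (g ζ : ℂ → ℂ) (o : ℂ) (θ : ℝ) (u : ℂ) : ℂ :=
  kp b (if u = 0 then o else Yf g ζ (kp b (Lg u) + θ * I))

/-- the normalised polynomial of a half sector -/
noncomputable def qf (b : Bool) (p : ℂ[X]) (θ : ℝ) : ℂ[X] := (C (exp (-(θ * I))) * p).map (kp b)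

lemma Zf_polar (b : Bool) (g ζ : ℂ → ℂ) (o : ℂ) (θ : ℝ) {ρ y : ℝ} (h : 0 < ρ) (hy : y ∈ Icc 0 π) :
    Zf b g ζ o θ (ρ * exp (y * I)) = kp b (Yf g ζ (Real.log ρ + (kp b (y * I) + θ * I))) := by
  rw [Zf, if_neg (by simp [h.ne']), Lg_polar h hy, map_add, kp_real, add_assoc]

lemma Zf_real (b : Bool) (g ζ : ℂ → ℂ) (o : ℂ) (θ : ℝ) {ρ : ℝ} (h : 0 < ρ) :
    Zf b g ζ o θ ρ = kp b (Yf g ζ (Real.log ρ + θ * I)) := by
  simpa using Zf_polar b g ζ o θ h ⟨le_rfl, Real.pi_pos.le⟩

lemma qf_eval (b : Bool) (p : ℂ[X]) (θ : ℝ) (z : ℂ) :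
    (qf b p θ).eval (kp b z) = kp b (exp (-(θ * I)) * p.eval z) := by simp [qf]

lemma qf_der (b : Bool) (p : ℂ[X]) (θ : ℝ) : (qf b p θ).derivative = qf b p.derivative θ := by
  simp [qf, derivative_map]

lemma Zf_an {p : ℂ[X]} (h1 : ∀ z, p.derivative.eval z = 0 → ‖p.eval z‖ = 1) {g ζ z : ℂ → ℂ}
    (g1 : ContinuousOn g {w | w.re ≤ 0}) (k1 : ContinuousOn ζ {w | 0 ≤ w.re})
    (g3 : ∀ w : ℂ, w.re ≤ 0 → p.eval (g w) = exp w) (k3 : ∀ w : ℂ, 0 ≤ w.re → p.eval (ζ w) = exp w)
    (z1 : ContinuousAt z 0) (z2 : p.eval (z 0) = 0) (z3 : ∀ w, w.re < 0 → g w = z (exp w))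
    (b : Bool) {θ σ : ℝ} (hσ : σ ≤ π) (h0 : g (θ * I) = ζ (θ * I))
    (h : ∀ y ∈ Ioc 0 σ, g (kp b (y * I) + θ * I) = ζ (kp b (y * I) + θ * I) ∧
      p.derivative.eval (g (kp b (y * I) + θ * I)) ≠ 0) :
    (∀ u, (qf b p θ).eval (Zf b g ζ (z 0) θ u) = u) ∧ ContinuousAt (Zf b g ζ (z 0) θ) 1 ∧
      ∀ u ∈ Sec σ, u ≠ 1 → AnalyticAt ℂ (Zf b g ζ (z 0) θ) u := by
  have hY : ∀ w, p.eval (Yf g ζ w) = exp w := fun w => by
    unfold Yf
    split_ifs with a
    exacts [g3 w a, k3 w (not_le.mp a).le]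
  have he : ∀ u, (qf b p θ).eval (Zf b g ζ (z 0) θ u) = u := fun u => by
    rw [Zf, qf_eval]
    split_ifs with a
    · simp [z2, a]
    · rw [hY, ← exp_add, add_comm, add_neg_cancel_right, kp_exp, kp_kp, exp_Lg a]
  have hc : ∀ ρ y : ℝ, 0 < ρ → y ∈ Icc 0 π →
      (ρ = 1 → g (kp b (y * I) + θ * I) = ζ (kp b (y * I) + θ * I)) →
      ContinuousAt (Zf b g ζ (z 0) θ) (ρ * exp (y * I)) := fun ρ y a c d => by
    refine (kp_cont b).continuousAt.comp (ContinuousAt.congr (f := fun u =>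
      Yf g ζ (kp b (Lg u) + θ * I)) (ContinuousAt.comp (Yf_cont g1 k1 fun e => ?_)
        (((kp_cont b).continuousAt.comp (Lg_cont a c)).add continuousAt_const)) ?_)
    · simp only [Lg_polar a c] at e ⊢
      obtain rfl : ρ = 1 := Real.eq_one_of_pos_of_log_eq_zero a (by
        rw [add_re, kp_re] at e; simpa only [add_re, ofReal_re, re_ofReal_mul, I_re, mul_zero,
          add_zero] using e)
      simpa using d rfl
    · filter_upwards [isOpen_ne.mem_nhds (show ρ * exp (y * I) ≠ 0 by simp [a.ne'])] with u hu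
      rw [if_neg hu]
  refine ⟨he, by simpa using hc 1 0 one_pos ⟨le_rfl, Real.pi_pos.le⟩ fun _ => by simpa using h0, ?_⟩
  rintro _ ⟨ρ, y, a, c, rfl⟩ d
  have c' : y ∈ Icc 0 π := ⟨c.1, c.2.trans hσ⟩
  have hy : ρ = 1 → y ∈ Ioc 0 σ := fun e => ⟨c.1.lt_of_ne fun f => d (by simp [e, ← f]), c.2⟩
  rcases a.eq_or_lt with rfl | a
  · rw [ofReal_zero, zero_mul]
    refine an_of ((kp_cont b).continuousAt.comp (ContinuousAt.congr
      (f := fun u => z (kp b u * exp (θ * I))) (ContinuousAt.comp (by simpa using z1)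
        ((kp_cont b).continuousAt.mul continuousAt_const)) ?_)) he ?_
    · filter_upwards [Metric.ball_mem_nhds 0 one_pos] with u hu
      split_ifs with e
      · simp [e]
      · have : (kp b (Lg u) + θ * I).re < 0 := by
          have := congrArg norm (exp_Lg e)
          rw [norm_exp] at this
          simpa [kp_re, ← Real.exp_lt_one_iff, this] using hu
        rw [Yf, if_pos this.le, z3 _ this, exp_add, kp_exp, exp_Lg e]
    · rw [qf_der, Zf, if_pos rfl, qf_eval, _root_.map_ne_zero]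
      refine mul_ne_zero (exp_ne_zero _) fun e => ?_
      simpa [z2] using h1 _ e
  · refine an_of (hc ρ y a c' fun e => (h y (hy e)).1) he ?_
    rw [qf_der, Zf_polar b g ζ _ θ a c', qf_eval, _root_.map_ne_zero]
    refine mul_ne_zero (exp_ne_zero _) ?_
    by_cases e : ρ = 1
    · rw [e, Real.log_one, ofReal_zero, zero_add, Yf, if_pos (by simp [-map_mul, kp_re])]
      exact (h y (hy e)).2
    · exact reg_of h1 (hY _) (by
        simpa [-map_mul, kp_re] using Real.log_ne_zero_of_pos_of_ne_one a e)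

/-- involution built from a permutation of arcs -/
def iv {E : Type} (f : E ≃ E) (h : E × Bool) : E × Bool :=
  if h.2 then (f.symm h.1, false) else (f h.1, true)

lemma iv_inv {E : Type} (f : E ≃ E) : Function.Involutive (iv f) := by
  rintro ⟨e, _ | _⟩ <;> simp [iv]

lemma iv_sg {E : Type} (f : E ≃ E) (h : E × Bool) : (iv f h).2 = !h.2 := by
  obtain ⟨e, _ | _⟩ := h <;> simp [iv]

lemma iv_ind {E : Type} (f : E ≃ E) {R : E × Bool → E × Bool → Prop}
    (h1 : ∀ e, R (e, false) (f e, true)) (h2 : ∀ a b, R a b → R b a) (h : E × Bool) :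
    R h (iv f h) := by
  obtain ⟨e, _ | _⟩ := h
  · exact h1 e
  · simpa [iv] using h2 _ _ (h1 (f.symm e))

lemma rot_ind {m : ℕ} {Q : Fin (m + 1) → Prop} (h : ∀ u, Q u → Q (finRotate _ u)) {i : Fin (m + 1)}
    (hi : Q i) (i' : Fin (m + 1)) : Q i' := by
  have : ∀ k, (i : ℕ) ≤ k → Q (Fin.ofNat _ k) := fun k hk => by
    induction k, hk using Nat.le_induction with
    | base => simpa using hi
    | succ k _ ih =>
      convert h _ ih using 1
      ext
      simp [Fin.val_add]
  convert this (i' + (m + 1) * i) (by nlinarith) using 1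
  ext
  simp [Nat.mod_eq_of_lt i'.2]

lemma rot_conn {m : ℕ} {Q B : Fin (m + 1) → Prop} (hB : ∀ u v, B u → B v → u = v)
    (h : ∀ u, ¬B u → (Q u ↔ Q (finRotate _ u))) {i i' : Fin (m + 1)} (hi : Q i) : Q i' := by
  by_contra hi'
  obtain ⟨u, a, b⟩ : ∃ u, Q u ∧ ¬Q (finRotate _ u) := by
    by_contra! c
    exact hi' (rot_ind c hi i')
  obtain ⟨v, c, d⟩ : ∃ v, ¬Q v ∧ Q (finRotate _ v) := by
    by_contra! c
    exact rot_ind (Q := fun u => ¬Q u) c hi' i hi
  exact c (hB u v (by_contra fun e => b ((h u e).mp a)) (by_contra fun e => c ((h v e).mpr d)) ▸ a)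

lemma crit_prod {n : ℕ} (hn : 1 ≤ n) {p : ℂ[X]} (hp : p.Monic) (hd : p.natDegree = n)
    {a : Fin (n - 1) → ℂ} (ha : ∀ k, p.derivative.eval (a k) = 0) (hi : Function.Injective a) :
    (∀ z, p.derivative.eval z = 0 → ∃ k, z = a k) ∧
      ∀ k, p.derivative.derivative.eval (a k) ≠ 0 := by
  have h0 : (n : ℂ) ≠ 0 := by exact_mod_cast (by omega : n ≠ 0)
  have h1 : (C (n : ℂ)⁻¹ * p.derivative).natDegree = n - 1 := by
    rw [natDegree_C_mul (inv_ne_zero h0), natDegree_derivative, hd]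
  have h2 : (C (n : ℂ)⁻¹ * p.derivative).Monic := by
    rw [Monic, leadingCoeff, h1, coeff_C_mul, coeff_derivative, Nat.sub_add_cancel hn,
      ← Nat.cast_add_one, Nat.sub_add_cancel hn, ← hd, hp.coeff_natDegree, hd, one_mul,
      inv_mul_cancel₀ h0]
  have h3 := eq_prod h2 h1 a hi fun k => by simp [ha k]
  refine ⟨fun z hz => (root_of (u := 0) (by simpa using h3) z).mp (by simp [hz]), fun k e => ?_⟩
  have := prod_der_root a k
  rw [← h3, derivative_C_mul, eval_C_mul, e, mul_zero, eq_comm, Finset.prod_eq_zero_iff] at this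
  obtain ⟨l, b, c⟩ := this
  exact Finset.ne_of_mem_erase b (hi (sub_eq_zero.mp c)).symm

lemma card_two {n : ℕ} {p : ℂ[X]} {a : ℂ} {r : Fin n → ℂ}
    (h : p - C (p.eval a) = ∏ j, (X - C (r j))) (h1 : p.derivative.eval a = 0)
    (h2 : p.derivative.derivative.eval a ≠ 0) :
    (Finset.univ.filter fun j => r j = a).card = 2 := by
  have h0 : p - C (p.eval a) ≠ 0 := h ▸ (monic_prod_of_monic _ _ fun j _ => monic_X_sub_C _).ne_zero
  have e : (p - C (p.eval a)).roots = Finset.univ.val.map r := by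
    rw [h, ← roots_multiset_prod_X_sub_C (Finset.univ.val.map r), Multiset.map_map]
    rfl
  have e2 : (Finset.univ.filter fun j => r j = a).card = (p - C (p.eval a)).rootMultiplicity a := by
    rw [← count_roots, e, Multiset.count_map]
    simp only [eq_comm (a := a)]
    rfl
  have l1 := (one_lt_rootMultiplicity_iff_isRoot h0 (t := a)).mpr ⟨by simp, by simpa using h1⟩
  have l2 : ¬ 2 < (p - C (p.eval a)).rootMultiplicity a := fun c => h2 (by
    simpa using (lt_rootMultiplicity_iff_isRoot_iterate_derivative h0).mp c 2 le_rfl)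
  omega

lemma lint_split (f : ℝ → ℝ≥0∞) (t : ℕ → ℝ) (k : ℕ) :
    ∫⁻ x in Ioc (t 0) (t k), f x ≤ ∑ i ∈ Finset.range k,
      ((∫⁻ y in Ioo 0 ((t (i + 1) - t i) / 2), f (y + t i)) +
        ∫⁻ y in Ioo 0 ((t (i + 1) - t i) / 2), f (t (i + 1) - y)) := by
  induction k with
  | zero => simp
  | succ k ih =>
    rw [Finset.sum_range_succ]
    refine (lintegral_mono_set Ioc_subset_Ioc_union_Ioc).trans ((lintegral_union_le _ _ _).trans
      (add_le_add ih ((lintegral_mono_set (Ioc_subset_Ioc_union_Ioc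
        (b := (t (k + 1) + t k) / 2))).trans ((lintegral_union_le _ _ _).trans
          (add_le_add (le_of_eq ?_) (le_of_eq ?_))))))
    · rw [← restrict_Ioo_eq_restrict_Ioc, ← (measurePreserving_add_right volume
        (t k)).setLIntegral_comp_preimage_emb (measurableEmbedding_addRight _)]
      congr 2
      ext y
      simp only [mem_preimage, mem_Ioo]
      constructor <;> exact fun h => ⟨by linarith [h.1], by linarith [h.2]⟩
    · rw [← restrict_Ioo_eq_restrict_Ioc, ← (Measure.measurePreserving_sub_left volume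
        (t (k + 1))).setLIntegral_comp_preimage_emb (measurableEmbedding_subLeft _)]
      congr 2
      ext y
      simp only [mem_preimage, mem_Ioo]
      constructor <;> exact fun h => ⟨by linarith [h.2], by linarith [h.1]⟩

end Pool.Agent.Lib.MP_f225de_an.E
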