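import Pool.Agent.Lib.MP_f225de_an.E0

set_option autoImplicit false

open MeasureTheory Set Filter Topology Polynomial Complex
open scoped ENNReal NNReal Real ComplexConjugate

namespace Pool.Agent.Lib.MP_f225de_an.E

/-- closed sector of opening `s` -/
def Sec (s : ℝ) : Set ℂ := {u | ∃ ρ θ : ℝ, 0 ≤ ρ ∧ θ ∈ Icc 0 s ∧ u = ρ * exp (θ * I)}

/-- decomposition of the plane of the polynomial into half sectors -/
structure Geo (n : ℕ) (p : ℂ[X]) where
  H : Type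
  [fin : Fintype H]
  [dec : DecidableEq H]
  σ : H → ℝ
  q : H → ℂ[X]
  Z : H → ℂ → ℂ
  sg : H → Bool
  nd : H → Fin (n - 1)
  pt : H → Fin n
  rad : H → H
  slit : H → H
  bis : H → H
  rad_inv : Function.Involutive rad
  slit_inv : Function.Involutive slit
  bis_inv : Function.Involutive bis
  sg_rad : ∀ h, sg (rad h) = !sg h
  sg_slit : ∀ h, sg (slit h) = !sg h
  sg_bis : ∀ h, sg (bis h) = !sg h
  nd_rad : ∀ h, nd (rad h) = nd h
  nd_slit : ∀ h, nd (slit h) = nd h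
  pt_rad : ∀ h, pt (rad h) = pt h
  pt_bis : ∀ h, pt (bis h) = pt h
  σ_bis : ∀ h, σ (bis h) = σ h
  σ_pos : ∀ h, 0 < σ h
  σ_le : ∀ h, σ h ≤ π
  q_deg : ∀ h, (q h).natDegree = n
  q_lc : ∀ h, ‖(q h).leadingCoeff‖ = 1
  q_Z : ∀ h u, (q h).eval (Z h u) = u
  an : ∀ h, ∀ u ∈ Sec (σ h), u ≠ 1 → AnalyticAt ℂ (Z h) u
  cont : ∀ h, ContinuousAt (Z h) 1
  crit : ∀ h z, (q h).derivative.eval z = 0 →
    ‖(q h).eval z‖ = 1 ∧ ((q h).eval z = 1 → z = Z h 1)
  q_der : ∀ h, (q h).derivative.eval (Z h 1) = 0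
  q_der2 : ∀ h, (q h).derivative.derivative.eval (Z h 1) ≠ 0
  rad_eq : ∀ h, ∀ x : ℝ, 0 ≤ x → x ≤ 1 → Z (rad h) x = conj (Z h x)
  slit_eq : ∀ h, ∀ x : ℝ, 1 < x → Z (slit h) x = conj (Z h x)
  bis_eq : ∀ h, ∀ ρ : ℝ, 0 ≤ ρ → Z (bis h) (ρ * exp (σ h * I)) = conj (Z h (ρ * exp (σ h * I)))
  len : Len p ≤ ∑ h, ∫⁻ θ in Ioo 0 (σ h), ‖(q h).derivative.eval (Z h (exp (θ * I)))‖ₑ⁻¹
  sum_pt : ∀ j, ∑ h with pt h = j, σ h = 2 * π
  card_nd : ∀ k, (Finset.univ.filter fun h => nd h = k).card = 4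
  conn : ∀ L : H → Prop, (∀ h h', L h → L h' → pt h = pt h' → h' = h ∨ h' = bis h) →
    ∀ S : Fin (n - 1) → Prop, (∀ h, ¬L h → S (nd h) → S (nd (bis h))) → ∀ k k', S k → S k'

attribute [instance] Geo.fin Geo.dec

lemma an_conj {f : ℂ → ℂ} {c u : ℂ} (h : AnalyticAt ℂ f (c * conj u)) :
    AnalyticAt ℂ (fun u => conj (f (c * conj u))) u := by
  have h1 : AnalyticAt ℂ (fun v => f (c * v)) (conj u) := h.comp (f := fun v => c * v) (by fun_prop)
  rw [analyticAt_iff_eventually_differentiableAt] at h1 ⊢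
  filter_upwards [continuous_conj.continuousAt.eventually h1] with v hv
  simpa [Function.comp_def] using hv.conj_conj

lemma germ {f g : ℂ → ℂ} {c : ℂ} (hc : c ≠ 0) {x : ℝ} (hf : AnalyticAt ℂ f (x * c))
    (hg : AnalyticAt ℂ g (x * c)) (h : ∀ᶠ y : ℝ in 𝓝[>] x, f (y * c) = g (y * c)) :
    f =ᶠ[𝓝 (x * c)] g := by
  refine (hf.frequently_eq_iff_eventually_eq hg).mp
    (Tendsto.frequently (f := fun y : ℝ => y * c) (l₁ := 𝓝[>] x) ?_ h.frequently)
  refine tendsto_nhdsWithin_iff.mpr ⟨Tendsto.mono_left (Continuous.tendsto (by fun_prop) x)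
    nhdsWithin_le_nhds, eventually_mem_nhdsWithin.mono fun y hy e => ?_⟩
  exact (ne_of_gt hy) (by exact_mod_cast mul_right_cancel₀ hc e)

namespace Geo

variable {n : ℕ} {p : ℂ[X]} (G : Geo n p)

lemma mem_real (h : G.H) {x : ℝ} (hx : 0 ≤ x) : (x : ℂ) ∈ Sec (G.σ h) :=
  ⟨x, 0, hx, ⟨le_rfl, (G.σ_pos h).le⟩, by simp⟩

lemma der_mul (h : G.H) {u : ℂ} (hu : u ∈ Sec (G.σ h)) (h1 : u ≠ 1) :
    (G.q h).derivative.eval (G.Z h u) * deriv (G.Z h) u = 1 := by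
  have := ((G.q h).hasDerivAt _).comp u (G.an h u hu h1).differentiableAt.hasDerivAt
  exact this.unique ((hasDerivAt_id u).congr_of_eventuallyEq (.of_forall (G.q_Z h)))

lemma der_ne (h : G.H) {u : ℂ} (hu : u ∈ Sec (G.σ h)) (h1 : u ≠ 1) : deriv (G.Z h) u ≠ 0 :=
  right_ne_zero_of_mul_eq_one (G.der_mul h hu h1)

theorem len_le : Len p ≤ ∑ h, ∫⁻ θ in Ioo 0 (G.σ h), ‖deriv (G.Z h) (exp (θ * I))‖ₑ := by
  refine G.len.trans (Finset.sum_le_sum fun h _ => setLIntegral_mono' measurableSet_Ioo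
    fun θ hθ => le_of_eq ?_)
  have := G.der_mul h (u := exp (θ * I)) ⟨1, θ, zero_le_one, Ioo_subset_Icc_self hθ, by simp⟩
    fun e => by
      have := congrArg im e
      rw [exp_ofReal_mul_I_im, one_im] at this
      exact (Real.sin_pos_of_pos_of_lt_pi hθ.1 (hθ.2.trans_le (G.σ_le h))).ne' this
  rw [eq_inv_of_mul_eq_one_right this, enorm_inv (left_ne_zero_of_mul_eq_one this)]

theorem rad_germ (h : G.H) {x : ℝ} (h0 : 0 ≤ x) (h1 : x < 1) :
    G.Z (G.rad h) =ᶠ[𝓝 (x : ℂ)] fun u => conj (G.Z h (conj u)) := by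
  have e : (x : ℂ) ≠ 1 := by exact_mod_cast h1.ne
  simpa using germ one_ne_zero (x := x) (g := fun u => conj (G.Z h (1 * conj u)))
    (by simpa using G.an _ _ (G.mem_real _ h0) e)
    (an_conj (by simpa using G.an _ _ (G.mem_real _ h0) e))
    (mem_of_superset (Ioo_mem_nhdsGT h1) fun y hy => by
      simpa using G.rad_eq h y (h0.trans hy.1.le) hy.2.le)

theorem slit_germ (h : G.H) {x : ℝ} (h1 : 1 < x) :
    G.Z (G.slit h) =ᶠ[𝓝 (x : ℂ)] fun u => conj (G.Z h (conj u)) := by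
  have e : (x : ℂ) ≠ 1 := by exact_mod_cast h1.ne'
  have h0 := zero_le_one.trans h1.le
  simpa using germ one_ne_zero (x := x) (g := fun u => conj (G.Z h (1 * conj u)))
    (by simpa using G.an _ _ (G.mem_real _ h0) e)
    (an_conj (by simpa using G.an _ _ (G.mem_real _ h0) e))
    (eventually_mem_nhdsWithin.mono fun y hy => by simpa using G.slit_eq h y (h1.trans hy))

lemma an_bis (h : G.H) {ρ : ℝ} (h0 : 0 ≤ ρ) : AnalyticAt ℂ (G.Z h) (ρ * exp (G.σ h * I)) := by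
  refine G.an _ _ ⟨ρ, _, h0, ⟨(G.σ_pos h).le, le_rfl⟩, rfl⟩ fun e => ?_
  have e1 : ρ = 1 := by simpa [abs_of_nonneg h0] using congrArg norm e
  have e2 := congrArg re e
  rw [e1, ofReal_one, one_mul, exp_ofReal_mul_I_re, one_re] at e2
  have := G.σ_pos h
  have := G.σ_le h
  have := Real.pi_pos
  have := (Real.cos_eq_one_iff_of_lt_of_lt (by linarith) (by linarith)).mp e2
  linarith

theorem bis_germ (h : G.H) {ρ : ℝ} (h0 : 0 ≤ ρ) :
    G.Z (G.bis h) =ᶠ[𝓝 (ρ * exp (G.σ h * I))]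
      fun u => conj (G.Z h (exp (2 * G.σ h * I) * conj u)) := by
  have e : ∀ y : ℝ, exp (2 * G.σ h * I) * conj (y * exp (G.σ h * I)) = y * exp (G.σ h * I) :=
    fun y => by
      rw [map_mul, ← exp_conj, conj_ofReal, mul_left_comm, ← exp_add]
      simp only [map_mul, conj_ofReal, conj_I]
      ring_nf
  exact germ (exp_ne_zero _) (G.σ_bis h ▸ G.an_bis (G.bis h) h0)
    (an_conj (by rw [e]; exact G.an_bis h h0))
    (eventually_mem_nhdsWithin.mono fun y hy => by rw [e]; exact G.bis_eq h y (h0.trans (le_of_lt hy)))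

end Geo

end Pool.Agent.Lib.MP_f225de_an.E
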