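import Pool.Agent.Lib.MP_f225de_an.MA2
import Pool.Agent.Lib.MP_f225de_an.GE0

set_option autoImplicit false

open MeasureTheory Set Filter Topology Complex Polynomial Bornology
open scoped Real ComplexConjugate

namespace Pool.Agent.Lib.MP_f225de_an.MA

open E

variable {n : ℕ} {p : ℂ[X]} (G : Geo n p)

lemma Z_top (h : G.H) : Tendsto (G.Z h) (cobounded ℂ) (cobounded ℂ) := by
  rw [← tendsto_norm_atTop_iff_cobounded, tendsto_atTop]
  intro R
  obtain ⟨M, hM⟩ := (isCompact_closedBall (0 : ℂ) R).exists_bound_of_continuousOn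
    (G.q h).continuous.continuousOn
  filter_upwards [(tendsto_norm_cobounded_atTop (E := ℂ)).eventually_gt_atTop M] with u hu
  by_contra! h1
  have := hM (G.Z h u) (mem_closedBall_zero_iff.2 h1.le)
  rw [G.q_Z] at this
  linarith

lemma q_one (h : G.H) : (X - C (G.Z h 1)) ^ 2 ∣ G.q h - C 1 := by
  by_cases h0 : G.q h - C 1 = 0
  · rw [h0]; exact dvd_zero _
  · refine (le_rootMultiplicity_iff h0).1 ((one_lt_rootMultiplicity_iff_isRoot h0).2 ⟨?_, ?_⟩)
    · simp [G.q_Z]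
    · simpa using G.q_der h

theorem ratb (h : G.H) (A : ℂ[X]) (k : ℕ) (hd : A.natDegree ≤ k * (n - 1))
    (hA : (X - C (G.Z h 1)) ^ k ∣ A) :
    ∃ c, ∀ u ∈ Sec (G.σ h), u ≠ 1 → ‖A.eval (G.Z h u)‖ * ‖deriv (G.Z h) u‖ ^ k ≤ c := by
  obtain ⟨B, hB⟩ := hA
  obtain ⟨m, hm⟩ := dvd_iff_isRoot.2 (G.q_der h)
  have hm0 : m.eval (G.Z h 1) ≠ 0 := by
    have := G.q_der2 h
    rw [hm] at this
    simpa [derivative_mul] using this
  have hq : (G.q h).derivative ≠ 0 := fun e => G.q_der2 h (by simp [e])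
  have hZ : ∀ u ∈ Sec (G.σ h), u ≠ 1 → ‖deriv (G.Z h) u‖ =
      ‖(G.q h).derivative.eval (G.Z h u)‖⁻¹ := fun u hu h1 => by
    rw [eq_inv_of_mul_eq_one_right (G.der_mul h hu h1), norm_inv]
  have hne : ∀ u ∈ Sec (G.σ h), u ≠ 1 → (G.q h).derivative.eval (G.Z h u) ≠ 0 :=
    fun u hu h1 => left_ne_zero_of_mul_eq_one (G.der_mul h hu h1)
  obtain ⟨c1, h1⟩ := (isBigO_cobounded_of_degree_le (P := A) (Q := (G.q h).derivative ^ k)
    (degree_le_natDegree.trans (by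
      rw [degree_eq_natDegree (pow_ne_zero k hq), natDegree_pow, natDegree_derivative, G.q_deg]
      exact_mod_cast hd))).bound
  obtain ⟨R, -, hR⟩ := (hasBasis_cobounded_norm.eventually_iff).1 ((Z_top G h).eventually h1)
  let K : Set ℂ := pl '' (Icc 0 R ×ˢ Icc 0 (G.σ h))
  have hK : ∀ u ∈ K, u ∈ Sec (G.σ h) := fun u ⟨x, hx, e⟩ => ⟨x.1, x.2, hx.1.1, hx.2, e.symm⟩
  have hc : ∀ u ∈ K, ContinuousAt (G.Z h) u := fun u hu => by
    by_cases e : u = 1
    · exact e ▸ G.cont h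
    · exact (G.an h u (hK u hu) e).continuousAt
  have hm1 : ∀ u ∈ K, m.eval (G.Z h u) ≠ 0 := fun u hu => by
    by_cases e : u = 1
    · exact e ▸ hm0
    · have := hne u (hK u hu) e
      rw [hm, eval_mul] at this
      exact right_ne_zero_of_mul this
  obtain ⟨c2, h2⟩ := ((isCompact_Icc.prod isCompact_Icc).image pl_cont).exists_bound_of_continuousOn
    (s := K) (f := fun u => B.eval (G.Z h u) / m.eval (G.Z h u) ^ k) fun u hu =>
      ((B.continuousAt.comp (hc u hu)).div ((m.continuousAt.comp (hc u hu)).pow k)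
        (pow_ne_zero k (hm1 u hu))).continuousWithinAt
  refine ⟨max c1 c2, fun u hu e => ?_⟩
  have h3 := norm_pos_iff.2 (hne u hu e)
  rw [hZ u hu e, inv_pow, ← div_eq_mul_inv]
  rcases le_total R ‖u‖ with h4 | h4
  · refine le_max_of_le_left ((div_le_iff₀ (by positivity)).2 ?_)
    simpa using hR h4
  · obtain ⟨ρ, θ, h5, h6, h7⟩ := id hu
    have h8 : u ∈ K := ⟨(ρ, θ), ⟨⟨h5, by simpa [h7, abs_of_nonneg h5] using h4⟩, h6⟩, h7.symm⟩
    refine le_max_of_le_right (le_of_eq_of_le ?_ (h2 u h8))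
    rw [hm, eval_mul, norm_mul] at h3
    have h9 := (pos_of_mul_pos_left h3 (norm_nonneg _)).ne'
    rw [hB, hm]
    simp only [eval_mul, eval_pow, norm_mul, norm_pow, norm_div, mul_pow]
    field_simp

lemma der2 (h : G.H) {u : ℂ} (hu : u ∈ Sec (G.σ h)) (h1 : u ≠ 1) :
    deriv (deriv (G.Z h)) u / deriv (G.Z h) u =
      -((G.q h).derivative.derivative.eval (G.Z h u) * deriv (G.Z h) u ^ 2) := by
  have ha := G.an h u hu h1
  have e : (fun v => (G.q h).derivative.eval (G.Z h v) * deriv (G.Z h) v) =ᶠ[𝓝 u] fun _ => 1 := by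
    filter_upwards [ha.eventually_analyticAt] with v hv
    exact (((G.q h).hasDerivAt _).comp v hv.differentiableAt.hasDerivAt).unique
      ((hasDerivAt_id v).congr_of_eventuallyEq (.of_forall (G.q_Z h)))
  have e1 := ((((G.q h).derivative.hasDerivAt _).comp u ha.differentiableAt.hasDerivAt).mul
    ha.deriv.differentiableAt.hasDerivAt).unique ((hasDerivAt_const u 1).congr_of_eventuallyEq e)
  have e2 := G.der_mul h hu h1
  rw [div_eq_iff (G.der_ne h hu h1)]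
  simp only [Function.comp] at e1
  linear_combination deriv (G.Z h) u * e1 - deriv (deriv (G.Z h)) u * e2

theorem est1 (hn : 2 ≤ n) (h : G.H) :
    ∃ c, ∀ u ∈ Sec (G.σ h), u ≠ 1 → ‖u - 1‖ * ‖deriv (G.Z h) u‖ ^ 2 ≤ c := by
  simpa [G.q_Z] using ratb G h (G.q h - C 1) 2 (by rw [natDegree_sub_C, G.q_deg]; omega) (q_one G h)

theorem est2 (hn : 2 ≤ n) (h : G.H) : ∃ c, ∀ u ∈ Sec (G.σ h), u ≠ 1 →
    ‖u - 1‖ * ‖deriv (deriv (G.Z h)) u / deriv (G.Z h) u‖ ≤ c := by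
  obtain ⟨c, hc⟩ := ratb G h ((G.q h - C 1) * (G.q h).derivative.derivative) 2
    (natDegree_mul_le.trans (by
      rw [natDegree_sub_C, natDegree_derivative, natDegree_derivative, G.q_deg]; omega))
    ((q_one G h).mul_right _)
  exact ⟨c, fun u hu h1 => by simpa [der2 G h hu h1, G.q_Z, mul_assoc] using hc u hu h1⟩

theorem est3 (hn : 2 ≤ n) (h : G.H) :
    ∃ c, ∀ u ∈ Sec (G.σ h), u ≠ 1 → ‖u - 1‖ ^ (n - 1) * ‖deriv (G.Z h) u‖ ^ n ≤ c := by
  obtain ⟨c, hc⟩ := ratb G h ((G.q h - C 1) ^ (n - 1)) n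
    (by rw [natDegree_pow, natDegree_sub_C, G.q_deg, mul_comm])
    ((pow_dvd_pow _ (by omega : n ≤ 2 * (n - 1))).trans
      (by rw [pow_mul]; exact pow_dvd_pow_of_dvd (q_one G h) _))
  refine ⟨c, fun u hu h1 => le_of_eq_of_le ?_ (hc u hu h1)⟩
  rw [eval_pow, eval_sub, eval_C, G.q_Z, norm_pow]

/-- the weighted modulus of the derivative -/
noncomputable def WW (n : ℕ) (Z : ℂ → ℂ) (u : ℂ) : ℝ := ‖u - 1‖ ^ (1 - 1 / n : ℝ) * ‖deriv Z u‖

/-- its logarithmic gradient -/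
noncomputable def VV (n : ℕ) (Z : ℂ → ℂ) (u : ℂ) : ℂ :=
  (1 - 1 / n : ℝ) / (u - 1) + deriv (deriv Z) u / deriv Z u

/-- what the certificate needs of a weight and its logarithmic gradient -/
structure WV (σ η c : ℝ) (W : ℂ → ℝ) (V : ℂ → ℂ) : Prop where
  gr : ∀ u ∈ Sec σ, u ≠ 1 → Gr W (W u * V u) u
  hol : ∀ u ∈ Sec σ, u ≠ 1 → DifferentiableAt ℂ V u
  b0 : ∀ u, 0 ≤ W u
  b1 : ∀ u ∈ Sec σ, W u ≤ c
  b2 : ∀ u ∈ Sec σ, W u ≤ c * ‖u - 1‖ ^ η
  b3 : ∀ u ∈ Sec σ, ‖u - 1‖ * ‖V u‖ ≤ c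
  mW : Measurable W
  mV : Measurable V

theorem wv (hn : 3 ≤ n) (h : G.H) :
    ∃ c, WV (G.σ h) (1 / 2 - 1 / n) c (WW n (G.Z h)) (VV n (G.Z h)) := by
  obtain ⟨c1, h1⟩ := est1 G (by omega) h
  obtain ⟨c2, h2⟩ := est2 G (by omega) h
  obtain ⟨c3, h3⟩ := est3 G (by omega) h
  have hn' : (3 : ℝ) ≤ n := by exact_mod_cast hn
  have hγ : (1 : ℝ) / n ≤ 1 / 3 := by gcongr
  have hγ0 : (0 : ℝ) < 1 / n := by positivity
  have W1 : WW n (G.Z h) 1 = 0 := by
    rw [WW, sub_self, norm_zero, Real.zero_rpow (by linarith), zero_mul]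
  have b0 : ∀ u, 0 ≤ WW n (G.Z h) u := fun u => by unfold WW; positivity
  refine ⟨|c1| + |c2| + |c3| + 1, fun u hu e => ?_, fun u hu e => ?_, b0, fun u hu => ?_,
    fun u hu => ?_, fun u hu => ?_, ?_, ?_⟩
  · have e0 := sub_ne_zero.2 e
    have e1 := norm_pos_iff.2 e0
    refine ((Gr.comp (F := fun v => ‖v - 1‖) (Real.hasDerivAt_rpow_const (p := 1 - 1 / n)
      (Or.inl e1.ne')) (Gr.norm ((hasDerivAt_id' u).sub_const 1) e0)).mul
      (Gr.norm (G.an h u hu e).deriv.differentiableAt.hasDerivAt (G.der_ne h hu e))).congr ?_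
    have e2 : (‖u - 1‖ : ℂ) ≠ 0 := by exact_mod_cast e1.ne'
    rw [WW, VV, Real.rpow_sub_one e1.ne']
    push_cast
    field_simp
    ring
  · have e0 := sub_ne_zero.2 e
    have ha := (G.an h u hu e).deriv
    exact (by fun_prop (disch := exact e0) : DifferentiableAt ℂ
      (fun v => ((1 - 1 / n : ℝ) : ℂ) / (v - 1)) u).add
      (ha.deriv.differentiableAt.div ha.differentiableAt (G.der_ne h hu e))
  · by_cases e : u = 1
    · rw [e, W1]; positivity
    by_contra! h4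
    have h5 : WW n (G.Z h) u ^ n ≤ c3 := by
      refine le_of_eq_of_le ?_ (h3 u hu e)
      rw [WW, mul_pow, ← Real.rpow_natCast, ← Real.rpow_mul (norm_nonneg _), ← Real.rpow_natCast,
        ← Real.rpow_natCast, Nat.cast_sub (by omega)]
      congr 2
      push_cast
      field_simp
    have := le_self_pow₀ (a := WW n (G.Z h) u)
      (by linarith [abs_nonneg c1, abs_nonneg c2, abs_nonneg c3]) (by omega : n ≠ 0)
    linarith [abs_nonneg c1, abs_nonneg c2, le_abs_self c3]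
  · by_cases e : u = 1
    · rw [e, W1]; positivity
    have e1 := norm_pos_iff.2 (sub_ne_zero.2 e)
    have h5 : (‖u - 1‖ ^ (1 / 2 : ℝ) * ‖deriv (G.Z h) u‖) ^ 2 ≤ c1 := by
      rw [mul_pow, ← Real.sqrt_eq_rpow, Real.sq_sqrt e1.le]; exact h1 u hu e
    rw [WW, show (1 - 1 / n : ℝ) = 1 / 2 + (1 / 2 - 1 / n) by ring, Real.rpow_add e1, mul_right_comm]
    gcongr
    nlinarith [abs_nonneg c1, abs_nonneg c2, abs_nonneg c3, le_abs_self c1]
  · by_cases e : u = 1
    · rw [e, sub_self, norm_zero, zero_mul]; positivity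
    have e1 := norm_pos_iff.2 (sub_ne_zero.2 e)
    refine (mul_le_mul_of_nonneg_left (norm_add_le _ _) e1.le).trans ?_
    rw [mul_add, norm_div, norm_real, Real.norm_of_nonneg (by linarith), mul_div_cancel₀ _ e1.ne']
    linarith [h2 u hu e, abs_nonneg c1, abs_nonneg c3, le_abs_self c2]
  · unfold WW
    exact ((measurable_id.sub_const 1).norm.pow_const _).mul (measurable_deriv _).norm
  · unfold VV
    exact (measurable_const.div (measurable_id.sub_const 1)).add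
      ((measurable_deriv _).div (measurable_deriv _))

end Pool.Agent.Lib.MP_f225de_an.MA
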