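import Pool.Agent.Lib.MP_f225de_an.C8

set_option autoImplicit false

open MeasureTheory Set Filter Topology Complex
open scoped ENNReal NNReal Real

namespace Pool.Agent.Lib.MP_f225de_an.Cubic

/-- the three petals -/
noncomputable def pet (k : Fin 3) (x : ℝ) : ℂ :=
  om ^ (k : ℕ) * ((2 : ℝ) ^ (1 / 3 : ℝ) : ℝ) * (1 - x * I) ^ (((-(1 / 3) : ℝ)) : ℂ)

lemma lin_slit (x : ℝ) : 1 - x * I ∈ slitPlane := Or.inl (by simp)

lemma two_cube : ((2 : ℝ) ^ (1 / 3 : ℝ)) ^ 3 = 2 := by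
  rw [← Real.rpow_natCast, ← Real.rpow_mul (by norm_num)]
  norm_num

lemma pet_cube (k : Fin 3) (x : ℝ) : pet k x ^ 3 = 2 / (1 - x * I) := by
  unfold pet
  rw [mul_pow, mul_pow, om_pow_cube, ← ofReal_pow, two_cube, ← cpow_mul_nat]
  norm_num
  rw [cpow_neg_one, div_eq_mul_inv]

lemma pet_inj {j k : Fin 3} {x y : ℝ} (h : pet j x = pet k y) : j = k ∧ x = y := by
  have h1 : x = y := by
    have h2 : 2 / (1 - x * I) = 2 / (1 - y * I) := by rw [← pet_cube j, h, pet_cube]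
    rw [div_eq_div_iff (slitPlane_ne_zero (lin_slit x)) (slitPlane_ne_zero (lin_slit y))] at h2
    have := congrArg im h2
    simpa using this.symm
  subst h1
  refine ⟨om_inj ?_, rfl⟩
  unfold pet at h
  have h2 : (1 - x * I) ^ (((-(1 / 3) : ℝ)) : ℂ) ≠ 0 := by
    rw [Ne, cpow_eq_zero_iff]
    exact fun h => slitPlane_ne_zero (lin_slit x) h.1
  have h3 : (((2 : ℝ) ^ (1 / 3 : ℝ) : ℝ) : ℂ) ≠ 0 := by
    rw [ofReal_ne_zero]
    positivity
  exact mul_right_cancel₀ h3 (mul_right_cancel₀ h2 h)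

lemma pet_deriv (k : Fin 3) (x : ℝ) : HasDerivAt (pet k)
    (om ^ (k : ℕ) * ((2 : ℝ) ^ (1 / 3 : ℝ) : ℝ) *
      ((1 - x * I) ^ (((-(4 / 3) : ℝ)) : ℂ) * (I / 3))) x := by
  have h1 : HasDerivAt (fun z : ℂ => 1 - z * I) (-I) x := by
    simpa using ((hasDerivAt_id (x : ℂ)).mul_const I).const_sub 1
  have h2 := (h1.cpow_const (c := ((-(1 / 3) : ℝ) : ℂ)) (lin_slit x)).comp_ofReal
  refine (h2.const_mul _).congr_deriv ?_
  rw [show (((-(1 / 3) : ℝ)) : ℂ) - 1 = ((-(4 / 3) : ℝ) : ℂ) by push_cast; ring]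
  push_cast
  ring

theorem LL_le : LL ≤ Measure.hausdorffMeasure (1 : ℝ) {z : ℂ | ‖z ^ 3 - 1‖ = 1} := by
  have hinj : ∀ k, Function.Injective (pet k) := fun k x y h => (pet_inj h).2
  have hc : ∀ k, Continuous (pet k) := fun k =>
    continuous_iff_continuousAt.mpr fun x => (pet_deriv k x).continuousAt
  have hn : ∀ (k : Fin 3) (x : ℝ), ‖om ^ (k : ℕ) * ((2 : ℝ) ^ (1 / 3 : ℝ) : ℝ) *
      ((1 - x * I) ^ (((-(4 / 3) : ℝ)) : ℂ) * (I / 3))‖ =
      (2 : ℝ) ^ (1 / 3 : ℝ) / 3 * (1 + x ^ 2) ^ (-(2 / 3) : ℝ) := by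
    intro k x
    have h1 : ‖1 - x * I‖ = (1 + x ^ 2) ^ (1 / 2 : ℝ) := by
      rw [← Real.sqrt_eq_rpow, ← Real.sqrt_sq (norm_nonneg _), Complex.sq_norm, normSq_apply]
      congr 1
      simp
      ring
    rw [norm_mul, norm_mul, norm_mul, norm_pow, norm_om, norm_cpow_real, h1,
      ← Real.rpow_mul (by positivity), norm_real, Real.norm_of_nonneg (by positivity), norm_div,
      norm_I]
    norm_num
    ring
  have h1 : ∀ k, ENNReal.ofReal ((2 : ℝ) ^ (1 / 3 : ℝ) / 3) * KK ≤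
      Measure.hausdorffMeasure (1 : ℝ) (range (pet k)) := by
    intro k
    refine le_trans (le_of_eq ?_) (le_length _ _ (pet_deriv k) (fun x => ?_) (hinj k))
    · unfold KK
      rw [← lintegral_const_mul' _ _ ENNReal.ofReal_ne_top]
      congr 1
      ext x
      rw [← ofReal_norm, hn, ENNReal.ofReal_mul (by positivity)]
    · rw [← norm_pos_iff, hn]
      positivity
  have hsub : (⋃ k, range (pet k)) ⊆ {z : ℂ | ‖z ^ 3 - 1‖ = 1} := by
    rintro _ ⟨_, ⟨k, rfl⟩, x, rfl⟩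
    have h0 := slitPlane_ne_zero (lin_slit x)
    show ‖pet k x ^ 3 - 1‖ = 1
    rw [pet_cube, div_sub_one h0, norm_div, div_eq_one_iff_eq (norm_ne_zero_iff.mpr h0),
      ← norm_conj]
    congr 1
    simp only [map_sub, map_mul, conj_ofReal, conj_I, map_one, map_ofNat]
    ring
  refine le_trans ?_ (measure_mono hsub)
  rw [measure_iUnion, tsum_fintype]
  · refine le_trans (le_of_eq ?_) (Finset.sum_le_sum fun k _ => h1 k)
    unfold LL
    rw [Finset.sum_const, Finset.card_univ, Fintype.card_fin, nsmul_eq_mul, ← mul_assoc,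
      ENNReal.ofReal_div_of_pos (by norm_num), ENNReal.ofReal_ofNat, Nat.cast_ofNat,
      ENNReal.mul_div_cancel (by norm_num) (by norm_num)]
  · intro j k hjk
    rw [Function.onFun, Set.disjoint_left]
    rintro _ ⟨x, rfl⟩ ⟨y, h⟩
    exact hjk (pet_inj h).1.symm
  · intro k
    rw [← image_univ]
    exact MeasurableSet.univ.image_of_continuousOn_injOn (hc k).continuousOn (hinj k).injOn

/-- reduction to the depressed cubic -/
lemma depress (p : Polynomial ℂ) (hp : p.Monic) (hd : p.natDegree = 3) :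
    ∃ a b : ℂ, ‖b - 2 * a ^ 3‖ ≤ ‖b + 2 * a ^ 3‖ ∧ p.discr = -27 * (b ^ 2 - 4 * a ^ 6) ∧
      Measure.hausdorffMeasure (1 : ℝ) {z : ℂ | ‖p.eval z‖ = 1} ≤ II a b := by
  have h3 : p.coeff 3 = 1 := hd ▸ hp.coeff_natDegree
  have he : ∀ z, p.eval z = z ^ 3 + p.coeff 2 * z ^ 2 + p.coeff 1 * z + p.coeff 0 := fun z => by
    rw [Polynomial.eval_eq_sum_range, hd]
    simp [Finset.sum_range_succ, h3]
    ring
  set b := 2 * p.coeff 2 ^ 3 / 27 - p.coeff 2 * p.coeff 1 / 3 + p.coeff 0 with hb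
  obtain ⟨a, ha, hab⟩ : ∃ a : ℂ, a ^ 2 = p.coeff 2 ^ 2 / 9 - p.coeff 1 / 3 ∧
      ‖b - 2 * a ^ 3‖ ≤ ‖b + 2 * a ^ 3‖ := by
    obtain ⟨a, ha⟩ := IsAlgClosed.exists_pow_nat_eq (p.coeff 2 ^ 2 / 9 - p.coeff 1 / 3) two_pos
    rcases le_total ‖b - 2 * a ^ 3‖ ‖b + 2 * a ^ 3‖ with h | h
    · exact ⟨a, ha, h⟩
    · refine ⟨-a, by rw [← ha]; ring, ?_⟩
      rwa [show b - 2 * (-a) ^ 3 = b + 2 * a ^ 3 by ring,
        show b + 2 * (-a) ^ 3 = b - 2 * a ^ 3 by ring]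
  refine ⟨a, b, hab, ?_, ?_⟩
  · rw [Polynomial.discr_of_degree_eq_three
      (by rw [Polynomial.degree_eq_natDegree hp.ne_zero, hd]; rfl), h3, show a ^ 6 = (a ^ 2) ^ 3 by ring, ha, hb]
    ring
  · refine le_trans (le_of_eq ?_) (length_le_II a b)
    rw [← (IsometryEquiv.addRight (p.coeff 2 / 3)).hausdorffMeasure_preimage 1
      {z : ℂ | ‖z ^ 3 - 3 * a ^ 2 * z + b‖ = 1}]
    congr 1
    ext z
    simp only [mem_ofPred_eq, mem_preimage, IsometryEquiv.addRight_apply, he, ha, hb]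
    congr! 2
    ring

theorem cubic (p : Polynomial ℂ) (hp : p.Monic) (hd : p.natDegree = 3) :
    Measure.hausdorffMeasure (1 : ℝ) {z : ℂ | ‖p.eval z‖ = 1} ≤
      Measure.hausdorffMeasure (1 : ℝ) {z : ℂ | ‖z ^ 3 - 1‖ = 1} := by
  obtain ⟨a, b, h1, -, h2⟩ := depress p hp hd
  exact h2.trans ((II_le h1).trans LL_le)

theorem cubic_discr (p : Polynomial ℂ) (hp : p.Monic) (hd : p.natDegree = 3) :
    ENNReal.ofReal (‖p.discr / 27‖ ^ (1 / 6 : ℝ)) *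
      Measure.hausdorffMeasure (1 : ℝ) {z : ℂ | ‖p.eval z‖ = 1} ≤
      Measure.hausdorffMeasure (1 : ℝ) {z : ℂ | ‖z ^ 3 - 1‖ = 1} := by
  obtain ⟨a, b, -, h1, h2⟩ := depress p hp hd
  rw [h1, show -27 * (b ^ 2 - 4 * a ^ 6) / 27 = -(b ^ 2 - 4 * a ^ 6) by ring, norm_neg]
  by_cases h : b ^ 2 - 4 * a ^ 6 = 0
  · simp [h]
  · exact (mul_le_mul_right h2 _).trans ((II_le_disc a b h).trans LL_le)

end Pool.Agent.Lib.MP_f225de_an.Cubic
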