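import Pool.Agent.Lib.MP_f225de_an.E2

set_option autoImplicit false

open MeasureTheory Set Filter Topology Polynomial
open scoped ENNReal NNReal Real

namespace Pool.Agent.Lib.MP_f225de_an.E

lemma window (g : ℂ → ℝ≥0∞) (t : ℝ) :
    ∫⁻ θ in Ioc t (t + 2 * π), g (Complex.exp (θ * Complex.I)) =
      ∫⁻ θ in Ioc (0 : ℝ) (2 * π), g (Complex.exp (θ * Complex.I)) := by
  have : Fact (0 < 2 * π) := ⟨by positivity⟩
  have hp : Function.Periodic (fun θ : ℝ => g (Complex.exp (θ * Complex.I))) (2 * π) := fun θ => by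
    simp [add_mul, Complex.exp_add]
  have h1 := AddCircle.lintegral_preimage (2 * π) t hp.lift
  have h2 := AddCircle.lintegral_preimage (2 * π) 0 hp.lift
  rw [zero_add] at h2
  exact h1.trans h2.symm

/-- rotation invariance -/
lemma rotate (g : ℂ → ℝ≥0∞) {c : ℂ} (hc : ‖c‖ = 1) :
    ∫⁻ θ in Ioc (0 : ℝ) (2 * π), g (c * Complex.exp (θ * Complex.I)) =
      ∫⁻ θ in Ioc (0 : ℝ) (2 * π), g (Complex.exp (θ * Complex.I)) := by
  have h2 := Complex.norm_mul_exp_arg_mul_I c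
  rw [hc, Complex.ofReal_one, one_mul] at h2
  rw [← window g c.arg, ← lintegral_indicator measurableSet_Ioc,
    ← lintegral_indicator measurableSet_Ioc]
  refine Eq.trans ?_ (lintegral_add_left_eq_self _ c.arg)
  congr 1
  funext θ
  simp only [indicator, mem_Ioc, lt_add_iff_pos_right, add_le_add_iff_left]
  congr 2
  rw [Complex.ofReal_add, add_mul, Complex.exp_add, h2]

lemma J_one {α : ℝ} (h0 : 0 ≤ α) (h1 : α < 1) :
    ∫⁻ θ in Ioc (0 : ℝ) (2 * π), ‖Complex.exp (θ * Complex.I) - 1‖ₑ ^ (-α) ≠ ∞ := by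
  rw [← window (fun u => ‖u - 1‖ₑ ^ (-α)) (-π)]
  have hi : IntegrableOn (fun x : ℝ => (2 / π * |x|) ^ (-α)) (Metric.ball 0 4) :=
    integrableOn_ball_of_norm_le_rpow (C := (2 / π) ^ (-α)) (α := α) (by simp) (by simpa using h1)
      (ae_of_all _ fun x => by
        rw [Real.norm_of_nonneg (by positivity), Real.mul_rpow (by positivity) (abs_nonneg _),
          Real.norm_eq_abs]) (Measurable.aestronglyMeasurable (by fun_prop))
  have hs : Ioc (-π) (-π + 2 * π) ⊆ Metric.ball 0 4 := fun x hx => by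
    rw [mem_ball_zero_iff, Real.norm_eq_abs, abs_lt]
    constructor <;> linarith [hx.1, hx.2, Real.pi_lt_four]
  refine ne_top_of_le_ne_top (hi.mono_set hs).2.ne (lintegral_mono_ae ?_)
  have : ∀ᵐ x : ℝ, x ≠ 0 := by simp [ae_iff]
  filter_upwards [ae_restrict_mem measurableSet_Ioc, ae_restrict_of_ae this] with x hx hx0
  have hp : 0 < 2 / π * |x| := by positivity
  have h3 : 2 / π * |x| ≤ ‖Complex.exp (x * Complex.I) - 1‖ := by
    rw [mul_comm _ Complex.I, Complex.norm_exp_I_mul_ofReal_sub_one, norm_mul, Real.norm_eq_abs,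
      Real.norm_eq_abs, abs_two]
    have := Real.mul_abs_le_abs_sin (x := x / 2) (by
      rw [abs_le]; constructor <;> linarith [hx.1, hx.2])
    rw [abs_div, abs_two] at this
    linarith
  rw [Real.enorm_eq_ofReal (by positivity), ← ENNReal.ofReal_rpow_of_pos hp, ← ofReal_norm,
    ENNReal.rpow_neg, ENNReal.rpow_neg]
  gcongr

lemma J_all {α : ℝ} (h0 : 0 ≤ α) (h1 : α < 1) : ∃ J : ℝ≥0∞, J ≠ ∞ ∧ ∀ c : ℂ,
    ∫⁻ θ in Ioc (0 : ℝ) (2 * π), ‖Complex.exp (θ * Complex.I) - c‖ₑ ^ (-α) ≤ J := by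
  refine ⟨_, ENNReal.mul_ne_top (ENNReal.rpow_ne_top_of_nonneg h0 ENNReal.ofNat_ne_top)
    (J_one h0 h1) (a := 2 ^ α), fun c => ?_⟩
  set d := Complex.exp (c.arg * Complex.I) with hd
  have hd1 : ‖d‖ = 1 := by simp [hd]
  rw [← rotate (fun u => ‖u - c‖ₑ ^ (-α)) hd1,
    ← lintegral_const_mul' _ _ (ENNReal.rpow_ne_top_of_nonneg h0 ENNReal.ofNat_ne_top)]
  refine lintegral_mono fun θ => ?_
  set u := Complex.exp (θ * Complex.I)
  have hu : ‖u‖ = 1 := by simp [u]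
  have hc : c = d * ‖c‖ := by rw [mul_comm, hd, Complex.norm_mul_exp_arg_mul_I]
  have h3 : ‖u - 1‖ ≤ 2 * ‖d * u - c‖ := by
    have e1 : ‖d * u - c‖ = ‖u - ‖c‖‖ := by
      conv_lhs => rw [hc, ← mul_sub, norm_mul, hd1, one_mul]
    have e2 : ‖((‖c‖ : ℝ) : ℂ) - 1‖ ≤ ‖u - ‖c‖‖ := by
      have := abs_norm_sub_norm_le u ‖c‖
      rw [hu, Complex.norm_real, norm_norm, abs_sub_comm] at this
      rwa [← Complex.ofReal_one, ← Complex.ofReal_sub, Complex.norm_real, Real.norm_eq_abs]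
    have := norm_add_le (u - ‖c‖) (((‖c‖ : ℝ) : ℂ) - 1)
    rw [sub_add_sub_cancel] at this
    linarith
  have h4 : ‖u - 1‖ₑ ≤ 2 * ‖d * u - c‖ₑ := by
    rw [← ofReal_norm, ← ofReal_norm, ← ENNReal.ofReal_ofNat, ← ENNReal.ofReal_mul zero_le_two]
    exact ENNReal.ofReal_le_ofReal h3
  have h5 := ENNReal.rpow_le_rpow h4 h0
  rw [ENNReal.mul_rpow_of_nonneg _ _ h0] at h5
  have h6 : (2 : ℝ≥0∞) ^ α ≠ 0 := by simp
  have h7 : (2 : ℝ≥0∞) ^ α ≠ ∞ := ENNReal.rpow_ne_top_of_nonneg h0 ENNReal.ofNat_ne_top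
  show ‖d * u - c‖ₑ ^ (-α) ≤ 2 ^ α * ‖u - 1‖ₑ ^ (-α)
  rw [ENNReal.rpow_neg, ENNReal.rpow_neg, ← ENNReal.inv_mul_le_iff h6 h7,
    ← ENNReal.mul_inv (Or.inl h6) (Or.inl h7)]
  exact ENNReal.inv_le_inv.mpr h5

/-- the critical points of a monic polynomial, with multiplicity -/
lemma exists_crit {N : ℕ} {p : ℂ[X]} (hp : p.Monic) (hd : p.natDegree = N + 1) :
    ∃ a : Fin N → ℂ, ∀ z, p.derivative.eval z = (N + 1) * ∏ k, (z - a k) := by
  have h0 : ((N : ℂ) + 1) ≠ 0 := by exact_mod_cast N.succ_ne_zero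
  have h1 : (C ((N : ℂ) + 1)⁻¹ * p.derivative).natDegree = N := by
    rw [natDegree_C_mul (inv_ne_zero h0), natDegree_derivative, hd]; rfl
  have h2 : (C ((N : ℂ) + 1)⁻¹ * p.derivative).Monic := by
    rw [Monic, leadingCoeff, h1, coeff_C_mul, coeff_derivative, ← hd, hp.coeff_natDegree]
    field_simp
  obtain ⟨a, ha⟩ := exists_prod h2 h1
  refine ⟨a, fun z => ?_⟩
  have := congrArg (eval z) ha
  simp only [eval_mul, eval_C, eval_prod, eval_sub, eval_X] at this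
  rw [← this]
  field_simp

lemma near {N : ℕ} (hN : 1 ≤ N) {p : ℂ[X]} {a : Fin N → ℂ}
    (ha : ∀ z, p.derivative.eval z = (N + 1) * ∏ k, (z - a k)) (z : ℂ) :
    ∃ k, ‖p.eval z - p.eval (a k)‖ ^ N ≤ 2 ^ (N * N) * ‖p.derivative.eval z‖ ^ (N + 1) ∧
      ∀ l, ‖p.eval z - p.eval (a k)‖ ^ (N - 1) * ‖z - a l‖ ≤
        2 ^ (N * N) * ‖p.derivative.eval z‖ ^ N := by
  have : Nonempty (Fin N) := ⟨⟨0, hN⟩⟩
  obtain ⟨k, hk⟩ := Finite.exists_min fun k => ‖z - a k‖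
  set ρ := ‖z - a k‖ with hρ
  set P := ‖p.derivative.eval z‖ with hP
  have hρ0 : 0 ≤ ρ := norm_nonneg _
  have hP0 : 0 ≤ P := norm_nonneg _
  have h1 : ‖p.eval (a k) - p.eval z‖ ≤ 2 ^ N * P * ‖a k - z‖ := by
    refine Convex.norm_image_sub_le_of_norm_hasDerivWithin_le (f' := fun w => p.derivative.eval w)
      (fun w _ => (p.hasDerivAt w).hasDerivWithinAt) (fun w hw => ?_) (convex_closedBall z ρ)
      (Metric.mem_closedBall_self hρ0) (by rw [mem_closedBall_iff_norm, norm_sub_rev])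
    rw [hP, ha, ha, norm_mul, norm_mul, norm_prod, norm_prod, mul_left_comm]
    gcongr
    rw [show (2 : ℝ) ^ N = ∏ _k : Fin N, 2 by simp, ← Finset.prod_mul_distrib]
    refine Finset.prod_le_prod (fun _ _ => norm_nonneg _) fun l _ => ?_
    have := norm_add_le (w - z) (z - a l)
    rw [sub_add_sub_cancel] at this
    linarith [mem_closedBall_iff_norm.mp hw, hk l]
  rw [norm_sub_rev, norm_sub_rev (a k), ← hρ] at h1
  have h2 : ∀ l, ρ ^ (N - 1) * ‖z - a l‖ ≤ P := fun l => by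
    rw [hP, ha, norm_mul, norm_prod, ← Finset.prod_erase_mul _ _ (Finset.mem_univ l)]
    have e1 : ρ ^ (N - 1) ≤ ∏ x ∈ Finset.univ.erase l, ‖z - a x‖ := by
      rw [show ρ ^ (N - 1) = ∏ _x ∈ Finset.univ.erase l, ρ by simp]
      exact Finset.prod_le_prod (fun _ _ => hρ0) fun x _ => hk x
    have e2 : 1 ≤ ‖(N : ℂ) + 1‖ := by
      rw [← Nat.cast_succ, Complex.norm_natCast]; exact_mod_cast N.succ_pos
    exact (mul_le_mul_of_nonneg_right e1 (norm_nonneg _)).trans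
      (le_mul_of_one_le_left (by positivity) e2)
  obtain ⟨M, rfl⟩ : ∃ M, N = M + 1 := ⟨N - 1, by omega⟩
  simp only [Nat.add_sub_cancel] at h2 ⊢
  refine ⟨k, ?_, fun l => ?_⟩
  · calc _ ≤ (2 ^ (M + 1) * P * ρ) ^ (M + 1) := by gcongr
      _ = 2 ^ ((M + 1) * (M + 1)) * (P ^ (M + 1) * (ρ ^ M * ρ)) := by rw [pow_mul]; ring
      _ ≤ 2 ^ ((M + 1) * (M + 1)) * (P ^ (M + 1) * P) := by gcongr; exact h2 k
      _ = _ := by ring
  · calc _ ≤ (2 ^ (M + 1) * P * ρ) ^ M * ‖z - a l‖ := by gcongr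
      _ = 2 ^ ((M + 1) * M) * (P ^ M * (ρ ^ M * ‖z - a l‖)) := by rw [pow_mul]; ring
      _ ≤ 2 ^ ((M + 1) * (M + 1)) * (P ^ M * P) := by
        gcongr
        · exact one_le_two
        · omega
        · exact h2 l
      _ = _ := by ring

end Pool.Agent.Lib.MP_f225de_an.E
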