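import Pool.Agent.Lib.MP_f225de_an.E3
import Pool.Agent.Lib.MP_f225de_an.E4
import Pool.Agent.Lib.MP_f225de_an.C9

set_option autoImplicit false

open MeasureTheory Set Filter Topology Polynomial
open scoped ENNReal NNReal Real

namespace Pool.Agent.Lib.MP_f225de_an.E

lemma BB_eq (n : ℕ) {c : ℂ} (hc : ‖c‖ = 1) (t : ℝ) : BB n = ∫⁻ θ in Ioc t (t + 2 * π),
    ENNReal.ofReal (‖Complex.exp (θ * Complex.I) - c‖ ^ ((1 : ℝ) / n - 1)) := by
  rw [window (fun u => ENNReal.ofReal (‖u - c‖ ^ ((1 : ℝ) / n - 1))),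
    ← rotate (fun u => ENNReal.ofReal (‖u - c‖ ^ ((1 : ℝ) / n - 1))) hc]
  simp only [← mul_sub_one, norm_mul, hc, one_mul, BB]

lemma star_slit (x : ℝ) :
    1 + Complex.exp ((2 * Real.arctan x : ℝ) * Complex.I) ∈ Complex.slitPlane := by
  left
  rw [Complex.add_re, Complex.exp_ofReal_mul_I_re, Real.cos_two_mul, Complex.one_re]
  nlinarith [Real.cos_arctan_pos x]

theorem star_le {n : ℕ} (hn : 1 ≤ n) :
    BB n ≤ Measure.hausdorffMeasure (1 : ℝ) {z : ℂ | ‖z ^ n - 1‖ = 1} := by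
  have hn0 : n ≠ 0 := by omega
  have hn1 : (0 : ℝ) < n := by exact_mod_cast hn
  have hω := Complex.isPrimitiveRoot_exp n hn0
  set ω := Complex.exp (2 * π * Complex.I / n)
  have hω1 : ‖ω‖ = 1 := hω.norm'_eq_one hn0
  set u : ℝ → ℂ := fun x => Complex.exp ((2 * Real.arctan x : ℝ) * Complex.I) with hu
  set γ : Fin n → ℝ → ℂ := fun k x => ω ^ (k : ℕ) * (1 + u x) ^ (((1 : ℝ) / n : ℝ) : ℂ) with hγ
  have h0 : ∀ x, 1 + u x ≠ 0 := fun x => Complex.slitPlane_ne_zero (star_slit x)
  have hpow : ∀ k x, γ k x ^ n = 1 + u x := fun k x => by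
    simp only [hγ]
    rw [mul_pow, ← pow_mul, mul_comm (k : ℕ), pow_mul, hω.pow_eq_one, one_pow, one_mul,
      ← Complex.cpow_mul_nat]
    push_cast
    rw [one_div_mul_cancel (by exact_mod_cast hn0), Complex.cpow_one]
  have hinj : ∀ {j k x y}, γ j x = γ k y → j = k ∧ x = y := fun {j k x y} h => by
    have h1 : u x = u y := add_left_cancel (by rw [← hpow j, h, hpow])
    have h2 : x = y := by
      have a : ∀ t, Complex.arg (u t) = 2 * Real.arctan t := fun t => by
        simp only [hu]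
        rw [Complex.exp_mul_I]
        exact Complex.arg_cos_add_sin_mul_I
          ⟨by linarith [Real.neg_pi_div_two_lt_arctan t], by linarith [Real.arctan_lt_pi_div_two t]⟩
      have := a x
      rw [h1, a y] at this
      exact Real.arctan_injective (by linarith)
    subst h2
    refine ⟨Fin.ext (hω.pow_inj j.2 k.2 (mul_right_cancel₀ ?_ h)), rfl⟩
    simp [h0 x]
  have hθ : ∀ x, HasDerivAt (fun x => 2 * Real.arctan x) (2 * (1 / (1 + x ^ 2))) x := fun x =>
    (Real.hasDerivAt_arctan x).const_mul 2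
  have hd : ∀ k x, HasDerivAt (γ k) (ω ^ (k : ℕ) * ((2 * (1 / (1 + x ^ 2)) : ℝ) •
      ((((1 : ℝ) / n : ℝ) : ℂ) * (1 + u x) ^ ((((1 : ℝ) / n : ℝ) : ℂ) - 1) *
        (u x * Complex.I)))) x := fun k x =>
    (HasDerivAt.scomp x ((((exp_der _).const_add 1).cpow_const (star_slit x)).comp_ofReal)
      (hθ x)).const_mul _
  have hc : ∀ k, Continuous (γ k) := fun k =>
    continuous_iff_continuousAt.mpr fun x => (hd k x).continuousAt
  have hnorm : ∀ (k : Fin n) (x : ℝ), ‖ω ^ (k : ℕ) * ((2 * (1 / (1 + x ^ 2)) : ℝ) •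
      ((((1 : ℝ) / n : ℝ) : ℂ) * (1 + u x) ^ ((((1 : ℝ) / n : ℝ) : ℂ) - 1) * (u x * Complex.I)))‖ =
      1 / n * (|2 * (1 / (1 + x ^ 2))| * ‖u x - -1‖ ^ ((1 : ℝ) / n - 1)) := fun k x => by
    rw [norm_mul, norm_pow, hω1, norm_smul, Real.norm_eq_abs, norm_mul, norm_mul,
      ← Complex.ofReal_one,
      ← Complex.ofReal_sub, Complex.norm_cpow_real, Complex.norm_real, Complex.ofReal_one,
      sub_neg_eq_add, add_comm (u x), Real.norm_of_nonneg (by positivity : (0 : ℝ) ≤ 1 / n)]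
    rw [norm_mul (u x), Complex.norm_I, show ‖u x‖ = 1 from
      Complex.norm_exp_ofReal_mul_I _]
    ring
  have him : (fun x => 2 * Real.arctan x) '' univ = Ioo (-π) (-π + 2 * π) := by
    ext t
    constructor
    · rintro ⟨x, -, rfl⟩
      exact ⟨by linarith [Real.neg_pi_div_two_lt_arctan x],
        by linarith [Real.arctan_lt_pi_div_two x]⟩
    · intro h
      refine ⟨Real.tan (t / 2), trivial, ?_⟩
      show 2 * Real.arctan _ = t
      rw [Real.arctan_tan (by linarith [h.1]) (by linarith [h.2])]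
      ring
  have h1 : ∀ k, ENNReal.ofReal (1 / n) * BB n ≤
      Measure.hausdorffMeasure (1 : ℝ) (range (γ k)) := by
    intro k
    refine le_trans (le_of_eq ?_)
      (Cubic.le_length _ _ (hd k) (fun x => ?_) fun x y h => (hinj h).2)
    · rw [BB_eq n (c := -1) (by simp) (-π), ← restrict_Ioo_eq_restrict_Ioc, ← him,
        lintegral_image_eq_lintegral_abs_deriv_mul MeasurableSet.univ
          (fun x _ => (hθ x).hasDerivWithinAt) (fun x _ y _ h =>
            Real.arctan_injective (mul_left_cancel₀ two_ne_zero h)),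
        Measure.restrict_univ, ← lintegral_const_mul' _ _ ENNReal.ofReal_ne_top]
      congr 1
      ext x
      rw [← ofReal_norm, hnorm, ENNReal.ofReal_mul (by positivity),
        ENNReal.ofReal_mul (abs_nonneg _)]
    · rw [← norm_pos_iff, hnorm]
      have : 0 < ‖u x - -1‖ := by rw [sub_neg_eq_add, add_comm]; exact norm_pos_iff.mpr (h0 x)
      positivity
  have hsub : (⋃ k, range (γ k)) ⊆ {z : ℂ | ‖z ^ n - 1‖ = 1} := by
    rintro _ ⟨_, ⟨k, rfl⟩, x, rfl⟩
    show ‖γ k x ^ n - 1‖ = 1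
    rw [hpow, add_sub_cancel_left]
    exact Complex.norm_exp_ofReal_mul_I _
  refine le_trans ?_ (measure_mono hsub)
  rw [measure_iUnion, tsum_fintype]
  · refine le_trans (le_of_eq ?_) (Finset.sum_le_sum fun k _ => h1 k)
    rw [Finset.sum_const, Finset.card_univ, Fintype.card_fin, nsmul_eq_mul, ← mul_assoc,
      ← ENNReal.ofReal_natCast, ← ENNReal.ofReal_mul hn1.le, mul_one_div_cancel hn1.ne',
      ENNReal.ofReal_one, one_mul]
  · intro j k hjk
    rw [Function.onFun, Set.disjoint_left]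
    rintro _ ⟨x, rfl⟩ ⟨y, h⟩
    exact hjk (hinj h).1.symm
  · intro k
    rw [← image_univ]
    exact MeasurableSet.univ.image_of_continuousOn_injOn (hc k).continuousOn
      fun x _ y _ h => (hinj h).2

lemma len_one {p : ℂ[X]} (hp : p.Monic) (hd : p.natDegree = 1) : Len p ≤ BB 1 := by
  refine lintegral_mono fun θ => le_of_eq ?_
  have hm := sub_monic le_rfl hp hd (Complex.exp (θ * Complex.I))
  obtain ⟨r, hr⟩ := exists_prod hm.1 hm.2
  show ff _ = _
  rw [hr, ff_prod]
  simp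

lemma core_two : Core 2 := by
  intro p hp hd a ha h1 _
  obtain ⟨b, hb⟩ := exists_crit (N := 1) hp hd
  rw [BB_eq 2 (h1 ⟨0, by norm_num⟩) 0, zero_add]
  replace ha := ha ⟨0, by norm_num⟩
  generalize a ⟨0, by norm_num⟩ = α at ha ⊢
  have hα : α = b 0 := by
    have := ha
    rw [hb, Fin.prod_univ_one, mul_eq_zero] at this
    exact sub_eq_zero.mp (this.resolve_left (by norm_num))
  have hq : ∀ z, p.eval z - p.eval α = (z - α) ^ 2 := fun z => by
    have e := fun z => PP_eval (fun i : Fin 2 => p.coeff i) z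
    have e' := PP_der (fun i : Fin 2 => p.coeff i) α
    rw [PP_self hp hd] at e e'
    rw [ha] at e'
    simp [Fin.sum_univ_two] at e e'
    rw [e, e]
    linear_combination (α - z) * e'
  have hfin : ∀ᵐ θ : ℝ, Complex.exp (θ * Complex.I) ≠ p.eval α := by
    have : {θ : ℝ | Complex.exp (θ * Complex.I) = p.eval α}.Countable := by
      apply ((Complex.countable_preimage_exp (s := {p.eval α})).mpr
        (countable_singleton _)).preimage_of_injOn (f := fun θ : ℝ => (θ : ℂ) * Complex.I)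
      intro x _ y _ h
      exact_mod_cast mul_right_cancel₀ Complex.I_ne_zero h
    simpa [ae_iff] using this.measure_zero volume
  refine lintegral_mono_ae (ae_restrict_of_ae ?_)
  filter_upwards [hfin] with θ hθ
  set u := Complex.exp (θ * Complex.I)
  have hm := sub_monic one_le_two hp hd u
  obtain ⟨r, hr⟩ := exists_prod hm.1 hm.2
  have hpos : 0 < ‖u - p.eval α‖ := norm_pos_iff.mpr (sub_ne_zero.mpr hθ)
  have key : ∀ j, ‖(p - C u).derivative.eval (r j)‖ₑ⁻¹ =
      ENNReal.ofReal (‖u - p.eval α‖ ^ ((1 : ℝ) / (2 : ℕ) - 1) / 2) := fun j => by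
    have h2 := congrArg (eval (r j)) hr
    rw [eval_prod, Finset.prod_eq_zero (Finset.mem_univ j) (by simp), eval_sub, eval_C,
      sub_eq_zero] at h2
    have h3 : ‖r j - α‖ = ‖u - p.eval α‖ ^ ((1 : ℝ) / 2) := by
      rw [← h2, hq, norm_pow, ← Real.sqrt_eq_rpow, Real.sqrt_sq (norm_nonneg _)]
    have h4 : 0 < ‖u - p.eval α‖ ^ ((1 : ℝ) / 2) := by positivity
    rw [derivative_sub, derivative_C, sub_zero, hb, Fin.prod_univ_one, ← hα, ← ofReal_norm,
      norm_mul, h3, show ‖((1 : ℕ) : ℂ) + 1‖ = 2 by norm_num,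
      ← ENNReal.ofReal_inv_of_pos (by positivity),
      show (1 : ℝ) / (2 : ℕ) - 1 = -(1 / 2) by norm_num, Real.rpow_neg hpos.le]
    congr 1
    field_simp
  rw [hr, ff_prod, ← hr, Fin.sum_univ_two, key, key, ← ENNReal.ofReal_add (by positivity)
    (by positivity), add_halves]

/-- the reduction statement -/
def Red : Prop := ∀ n, 2 ≤ n → Core n → ∀ p : ℂ[X], p.Monic → p.natDegree = n → Len p ≤ BB n

theorem assemble (red : Red) (core : ∀ n, 4 ≤ n → Core n) :
    ∀ n : ℕ, 1 ≤ n → ∀ p : ℂ[X], p.Monic → p.natDegree = n →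
      Measure.hausdorffMeasure (1 : ℝ) {z : ℂ | ‖p.eval z‖ = 1} ≤
        Measure.hausdorffMeasure (1 : ℝ) {z : ℂ | ‖z ^ n - 1‖ = 1} := by
  intro n hn p hp hd
  by_cases h3 : n = 3
  · subst h3; exact Cubic.cubic p hp hd
  refine (haus_le hn hp hd).trans (le_trans ?_ (star_le hn))
  by_cases h1 : n = 1
  · subst h1; exact len_one hp hd
  by_cases h2 : n = 2
  · subst h2; exact red 2 le_rfl core_two p hp hd
  exact red n (by omega) (core n (by omega)) p hp hd

end Pool.Agent.Lib.MP_f225de_an.E
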