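import Pool.Agent.Lib.MP_f225de_an.Sk1
import Pool.Agent.Lib.MP_f225de_an.GE0
import Pool.Agent.Lib.MP_f225de_an.E6

set_option autoImplicit false

open MeasureTheory Set Filter Topology Polynomial
open scoped ENNReal NNReal Real

namespace Pool.Agent.Lib.MP_f225de_an.Sk

open E

variable {n : ℕ} {p : ℂ[X]}

/-- the combinatorial data of a decomposition -/
def cmb (G : Geo n p) : Cmb n where
  H := G.H
  fin := G.fin
  dec := G.dec
  sig := G.σ
  nd := G.nd
  pt := G.pt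
  bis := G.bis
  bis_inv := G.bis_inv
  bis_ne := fun h e => by simpa [e] using G.sg_bis h
  rad := G.rad
  rad_inv := G.rad_inv
  rad_ne := fun h e => by simpa [e] using G.sg_rad h
  nd_rad := G.nd_rad
  pt_rad := G.pt_rad
  sig_bis := G.σ_bis
  pt_bis := G.pt_bis
  sig_pos := G.σ_pos
  sig_le := G.σ_le
  sum_sig := G.sum_pt
  card_nd := G.card_nd
  conn := fun L hL S ⟨k, hk⟩ hS => eq_univ_of_forall fun k' => G.conn L hL (· ∈ S) hS k k' hk

/-- area density of a half sector at level `y` -/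
noncomputable def aa (G : Geo n p) (h : G.H) (y : ℝ) : ℝ :=
  ∫ ψ in Arc (G.σ h) (Real.exp y),
    ‖(Real.exp y : ℂ) * deriv (G.Z h) (1 + Real.exp y * Complex.exp (ψ * Complex.I))‖ ^ 2

/-- existence of the decomposition -/
def GeoSt (n : ℕ) : Prop :=
  ∀ p : ℂ[X], p.Monic → p.natDegree = n → ∀ a : Fin (n - 1) → ℂ,
    (∀ k, p.derivative.eval (a k) = 0) → (∀ k, ‖p.eval (a k)‖ = 1) →
    Function.Injective (fun k => p.eval (a k)) → Nonempty (Geo n p)

/-- the area statement -/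
def AreaSt (n : ℕ) : Prop := ∀ (p : ℂ[X]) (G : Geo n p), Area (cmb G) (aa G)

/-- the certificate statement -/
def CertSt (n : ℕ) (η : ℝ → ℝ → ℝ) : Prop :=
  ∀ (p : ℂ[X]) (G : Geo n p), ENNReal.ofReal (2 * π) * Len p ≤
    BB n * ∑ h, ∫⁻ y, cost n (η (G.σ h) y) (aa G h y) y

/-- the conclusion of the level argument -/
def LevSt (n : ℕ) (η : ℝ → ℝ → ℝ) : Prop :=
  ∀ (c : Cmb n) (a : c.H → ℝ → ℝ), Area c a →
    ∑ h, ∫⁻ y, cost n (η (c.sig h) y) (a h y) y ≤ ENNReal.ofReal (2 * π)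

theorem lev_of {η : ℝ → ℝ → ℝ} (hη : ∀ s y, 0 ≤ η s y) (hm : ∀ s, Measurable (η s))
    (hN : NSt n η) : LevSt n η := fun c a ha => bell c η hη hm hN a ha

theorem core_of {η : ℝ → ℝ → ℝ} (hG : GeoSt n) (hA : AreaSt n) (hC : CertSt n η)
    (hL : LevSt n η) : Core n := by
  intro p hp hd a h1 h2 h3
  obtain ⟨G⟩ := hG p hp hd a h1 h2 h3
  have h4 := (hC p G).trans (mul_le_mul_right (hL (cmb G) (aa G) (hA p G)) _)
  rw [mul_comm (BB n)] at h4
  have hp := Real.pi_pos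
  exact (ENNReal.mul_le_mul_iff_right (by simp [hp]) ENNReal.ofReal_ne_top).mp h4

end Pool.Agent.Lib.MP_f225de_an.Sk
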