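import Pool.Agent.Lib.MP_f225de_an.Iso
import Pool.Agent.Lib.MP_f225de_an.GE3
import Pool.Agent.Lib.MP_f225de_an.MA3
import Pool.Agent.Lib.MP_f225de_an.Sk3

set_option autoImplicit false

open MeasureTheory Set Filter Topology Polynomial Complex
open scoped ENNReal NNReal Real ComplexConjugate

namespace Pool.Agent.Lib.MP_f225de_an.AR

open E

lemma arc_sec {σ r ψ : ℝ} (h0 : 0 < σ) (hr : 0 < r) (hψ : ψ ∈ Icc 0 π)
    (h : r * Real.sin (ψ - σ) ≤ Real.sin σ) :
    (1 + r * exp (ψ * I)) ∈ Sec σ ∧ (1 + r * exp (ψ * I) : ℂ) ≠ 1 := by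
  refine ⟨?_, by simp [hr.ne']⟩
  set u : ℂ := 1 + r * exp (ψ * I) with hu
  have h1 : 0 ≤ u.im := by
    simpa [hu, exp_ofReal_mul_I_im] using mul_nonneg hr.le (Real.sin_nonneg_of_mem_Icc hψ)
  refine ⟨‖u‖, arg u, norm_nonneg _, ⟨arg_nonneg_iff.mpr h1, not_lt.mp fun c => ?_⟩,
    (norm_mul_exp_arg_mul_I u).symm⟩
  have h2 : 0 < ‖u‖ := norm_pos_iff.mpr fun e => by
    rw [e, arg_zero] at c
    linarith
  have h3 := mul_pos h2 (Real.sin_pos_of_pos_of_lt_pi (sub_pos.mpr c) (by linarith [arg_le_pi u]))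
  rw [Real.sin_sub, mul_sub, ← mul_assoc, ← mul_assoc, norm_mul_sin_arg, norm_mul_cos_arg] at h3
  simp [hu, exp_ofReal_mul_I_im, exp_ofReal_mul_I_re] at h3
  rw [Real.sin_sub] at h
  linarith

/-- end of the outer level arc -/
noncomputable def f1 (σ r : ℝ) : ℝ := min π (σ + Real.arcsin (Real.sin σ / r))

/-- start of the inner level arc -/
noncomputable def f2 (σ r : ℝ) : ℝ := min π (σ + π - Real.arcsin (Real.sin σ / r))

lemma f_ord {σ r : ℝ} (h0 : 0 < σ) (h1 : σ ≤ π) (hr : 0 < r) :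
    0 ≤ f1 σ r ∧ f1 σ r ≤ f2 σ r ∧ f2 σ r ≤ π := by
  have := Real.arcsin_nonneg.mpr (div_nonneg (Real.sin_nonneg_of_mem_Icc ⟨h0.le, h1⟩) hr.le)
  exact ⟨le_min Real.pi_pos.le (by linarith),
    min_le_min le_rfl (by linarith [Real.arcsin_le_pi_div_two (Real.sin σ / r)]), min_le_left _ _⟩

lemma arc_in {σ r ψ : ℝ} (h0 : 0 < σ) (h1 : σ ≤ π) (hr : 0 < r)
    (h : ψ ∈ Ioo 0 (f1 σ r) ∪ Ioo (f2 σ r) π) : ψ ∈ Sk.Arc σ r := by
  have a := Real.arcsin_le_pi_div_two (Real.sin σ / r)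
  have b := Real.sin_nonneg_of_mem_Icc ⟨h0.le, h1⟩
  obtain ⟨c, d, e⟩ := f_ord h0 h1 hr
  have hπ := Real.pi_pos
  refine ⟨h.elim (fun h => ⟨h.1, by linarith [h.2]⟩) fun h => ⟨?_, h.2⟩, ?_⟩
  · linarith [h.1]
  rw [← lt_div_iff₀' hr]
  rcases h with h | h
  · have := (lt_min_iff.mp h.2).2
    rcases lt_or_ge (ψ - σ) 0 with f | f
    · exact (Real.sin_neg_of_neg_of_neg_pi_lt f (by linarith [h.1])).trans_le (by positivity)
    · exact (Real.lt_arcsin_iff_sin_lt' ⟨by linarith, by linarith⟩).mp (by linarith)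
  · have := (min_lt_iff.mp h.1).resolve_left h.2.not_gt
    rw [← Real.sin_pi_sub]
    exact (Real.lt_arcsin_iff_sin_lt' ⟨by linarith [h.2], by linarith⟩).mp (by linarith)

lemma arc_out {σ r ψ : ℝ} (h0 : 0 < σ) (h1 : σ ≤ π) (hr : 0 < r)
    (h : ψ ∈ Ioo (f1 σ r) (f2 σ r)) : Real.sin σ < r * Real.sin (ψ - σ) := by
  have a := Real.arcsin_nonneg.mpr (div_nonneg (Real.sin_nonneg_of_mem_Icc ⟨h0.le, h1⟩) hr.le)
  have b := lt_min_iff.mp h.2
  have c := (min_lt_iff.mp h.1).resolve_left b.1.not_gt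
  have hπ := Real.pi_pos
  rw [← div_lt_iff₀' hr]
  rcases le_total (ψ - σ) (π / 2) with f | f
  · exact (Real.arcsin_lt_iff_lt_sin' ⟨by linarith, f⟩).mp (by linarith)
  · rw [← Real.sin_pi_sub (ψ - σ)]
    exact (Real.arcsin_lt_iff_lt_sin' ⟨by linarith, by linarith⟩).mp (by linarith)

lemma ae_ne2 (a b : ℝ) : ∀ᵐ ψ : ℝ, ψ ≠ a ∧ ψ ≠ b := (Measure.ae_ne _ a).and (Measure.ae_ne _ b)

lemma arc_ae {σ r : ℝ} (h0 : 0 < σ) (h1 : σ ≤ π) (hr : 0 < r) :
    Sk.Arc σ r =ᵐ[volume] (Ioo 0 (f1 σ r) ∪ Ioo (f2 σ r) π : Set ℝ) := by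
  filter_upwards [ae_ne2 (f1 σ r) (f2 σ r)] with ψ h
  refine propext ⟨fun a => ?_, arc_in h0 h1 hr⟩
  rcases lt_or_gt_of_ne h.1 with b | b
  · exact .inl ⟨a.1.1, b⟩
  · exact .inr ⟨(lt_or_gt_of_ne h.2).resolve_left fun c =>
      (arc_out h0 h1 hr ⟨b, c⟩).not_gt a.2, a.1.2⟩

lemma arc_meas (σ r : ℝ) : MeasurableSet (Sk.Arc σ r) :=
  measurableSet_Ioo.inter (measurableSet_lt (f := fun ψ => r * Real.sin (ψ - σ)) (by fun_prop)
    measurable_const)

lemma piece_cont {E : Type} [TopologicalSpace E] {σ r a b : ℝ} (h0 : 0 < σ) (hr : 0 < r)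
    (hab : a ≤ b) (h : Ioo a b ⊆ Sk.Arc σ r) {g : ℂ → E}
    (hg : ∀ u ∈ Sec σ, u ≠ 1 → ContinuousAt g u) :
    ContinuousOn (fun ψ : ℝ => g (1 + r * exp (ψ * I))) (Icc a b) := by
  rcases hab.eq_or_lt with rfl | hab
  · simp
  have : Icc a b ⊆ {ψ | ψ ∈ Icc 0 π ∧ r * Real.sin (ψ - σ) ≤ Real.sin σ} := by
    rw [← closure_Ioo hab.ne]
    exact closure_minimal (fun ψ hψ => ⟨Ioo_subset_Icc_self (h hψ).1, (h hψ).2.le⟩)
      (isClosed_Icc.inter (isClosed_le (f := fun ψ => r * Real.sin (ψ - σ)) (by fun_prop)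
        continuous_const))
  intro ψ hψ
  have := arc_sec h0 hr (this hψ).1 (this hψ).2
  exact ((hg _ this.1 this.2).comp (f := fun ψ : ℝ => 1 + r * exp (ψ * I))
    (by fun_prop)).continuousWithinAt

lemma arc_int {σ r : ℝ} (h0 : 0 < σ) (h1 : σ ≤ π) (hr : 0 < r) {g : ℂ → ℝ}
    (hg : ∀ u ∈ Sec σ, u ≠ 1 → ContinuousAt g u) :
    ∫ ψ in Sk.Arc σ r, g (1 + r * exp (ψ * I)) = (∫ ψ in (0 : ℝ)..f1 σ r, g (1 + r * exp (ψ * I))) +
      ∫ ψ in f2 σ r..π, g (1 + r * exp (ψ * I)) := by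
  obtain ⟨a, b, c⟩ := f_ord h0 h1 hr
  rw [setIntegral_congr_set (arc_ae h0 h1 hr), setIntegral_union
    (Ioo_disjoint_Ioo.mpr ((min_le_left _ _).trans (b.trans (le_max_right _ _)))) measurableSet_Ioo
    ((piece_cont h0 hr a (fun _ h => arc_in h0 h1 hr (.inl h)) hg).integrableOn_Icc.mono_set
      Ioo_subset_Icc_self)
    ((piece_cont h0 hr c (fun _ h => arc_in h0 h1 hr (.inr h)) hg).integrableOn_Icc.mono_set
      Ioo_subset_Icc_self), intervalIntegral.integral_of_le a, intervalIntegral.integral_of_le c,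
    integral_Ioc_eq_integral_Ioo, integral_Ioc_eq_integral_Ioo]

lemma arc_vol {σ r : ℝ} (h0 : 0 < σ) (h1 : σ ≤ π) (hr : 0 < r) :
    (volume (Sk.Arc σ r)).toReal = f1 σ r + (π - f2 σ r) := by
  simpa [Measure.real] using arc_int h0 h1 hr (g := fun _ => 1) fun _ _ _ => continuousAt_const

lemma box_bd {σ : ℝ} (h0 : 0 < σ) {g : ℂ → ℝ} (hg : ∀ u ∈ Sec σ, u ≠ 1 → ContinuousAt g u)
    (a b : ℝ) : ∃ C, ∀ y ∈ Icc a b, ∀ ψ ∈ Sk.Arc σ (Real.exp y),
      ‖g (1 + Real.exp y * exp (ψ * I))‖ ≤ C := by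
  obtain ⟨C, hC⟩ := ((isCompact_Icc (a := a) (b := b)).prod (isCompact_Icc (a := 0)
    (b := π))).inter_right (isClosed_le (f := fun p => Real.exp p.1 * Real.sin (p.2 - σ))
      (g := fun _ => Real.sin σ) (by fun_prop) continuous_const) |>.exists_bound_of_continuousOn
    (f := fun p => g (1 + Real.exp p.1 * exp (p.2 * I))) fun p hp => by
      have := arc_sec h0 (Real.exp_pos p.1) hp.1.2 hp.2
      exact ((hg _ this.1 this.2).comp (f := fun p : ℝ × ℝ => 1 + Real.exp p.1 * exp (p.2 * I))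
        (by fun_prop)).continuousWithinAt
  exact ⟨C, fun y hy ψ h => hC (y, ψ) ⟨⟨hy, Ioo_subset_Icc_self h.1⟩, h.2.le⟩⟩

lemma lev_cont {σ : ℝ} (h0 : 0 < σ) (h1 : σ ≤ π) {g : ℂ → ℝ}
    (hg : ∀ u ∈ Sec σ, u ≠ 1 → ContinuousAt g u) :
    Continuous fun y => ∫ ψ in Sk.Arc σ (Real.exp y), g (1 + Real.exp y * exp (ψ * I)) := by
  refine continuous_iff_continuousAt.mpr fun y₀ => ?_
  obtain ⟨C, hC⟩ := box_bd h0 hg (y₀ - 1) (y₀ + 1)
  have hs := fun y ψ (h : ψ ∈ Sk.Arc σ (Real.exp y)) =>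
    arc_sec h0 (Real.exp_pos y) (Ioo_subset_Icc_self h.1) h.2.le
  simp only [← integral_indicator (arc_meas _ _)]
  refine continuousAt_of_dominated (bound := (Ioo 0 π).indicator fun _ => |C|)
    (.of_forall fun y => (aestronglyMeasurable_indicator_iff (arc_meas _ _)).mpr
      (ContinuousOn.aestronglyMeasurable (fun ψ h => ((hg _ (hs y ψ h).1 (hs y ψ h).2).comp
        (f := fun ψ : ℝ => 1 + Real.exp y * exp (ψ * I)) (by fun_prop)).continuousWithinAt)
        (arc_meas _ _))) ?_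
    ((integrable_indicator_iff measurableSet_Ioo).mpr (integrableOn_const (by simp))) ?_
  · filter_upwards [Icc_mem_nhds (sub_one_lt y₀) (lt_add_one y₀)] with y hy
    refine .of_forall fun ψ => ?_
    by_cases h : ψ ∈ Sk.Arc σ (Real.exp y)
    · rw [indicator_of_mem h, indicator_of_mem h.1]
      exact (hC y hy ψ h).trans (le_abs_self C)
    · rw [indicator_of_notMem h, norm_zero]
      exact indicator_nonneg (fun _ _ => abs_nonneg C) _
  · filter_upwards [ae_ne2 (f1 σ (Real.exp y₀)) (f2 σ (Real.exp y₀))] with ψ h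
    have hc : ContinuousAt (fun y => Real.exp y * Real.sin (ψ - σ)) y₀ := by fun_prop
    by_cases a : ψ ∈ Sk.Arc σ (Real.exp y₀)
    · refine ((hg _ (hs _ ψ a).1 (hs _ ψ a).2).comp
        (f := fun y : ℝ => 1 + Real.exp y * exp (ψ * I)) (by fun_prop)).congr ?_
      filter_upwards [hc.eventually_lt continuousAt_const a.2] with y hy
      rw [indicator_of_mem (show ψ ∈ Sk.Arc σ _ from ⟨a.1, hy⟩)]
      rfl
    · refine (continuousAt_const (y := (0 : ℝ))).congr ?_
      by_cases b : ψ ∈ Ioo 0 π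
      · have := arc_out h0 h1 (Real.exp_pos y₀) (ψ := ψ)
          ⟨(lt_or_gt_of_ne h.1).resolve_left fun c => a (arc_in h0 h1 (Real.exp_pos _) (.inl ⟨b.1, c⟩)),
          (lt_or_gt_of_ne h.2).resolve_right fun c => a (arc_in h0 h1 (Real.exp_pos _) (.inr ⟨c, b.2⟩))⟩
        filter_upwards [continuousAt_const.eventually_lt hc this] with y hy
        exact (indicator_of_notMem (fun c : ψ ∈ Sk.Arc σ _ => hy.not_gt c.2) _).symm
      · exact .of_forall fun y => (indicator_of_notMem (fun c : ψ ∈ Sk.Arc σ _ => b c.1) _).symm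

lemma mirror {l L Q : ℝ} {s e : ℂ} (hl : 0 < l) (h : E.Arc l (s, e, L, Q)) :
    E.Arc l (conj e, conj s, L, Q) := by
  refine ⟨h.1, fun o τ h0 h1 => ?_⟩
  have key : ∀ t z, cal l (conj o) (2 * π * l - t) z = -cal l o t (conj z) := fun t z => by
    rw [cal, cal, show (2 * π * l - t) / (2 * l) = π - t / (2 * l) by field_simp, Real.cos_pi_sub,
      Real.sin_pi_sub, ← normSq_conj, map_sub, conj_conj]
    simp
    ring
  have := h.2 (conj o) (2 * π * l - (τ + L)) (sub_pos.mpr h1) (by simp only; linarith)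
  simp only at this ⊢
  rw [show 2 * π * l - (τ + L) + L = 2 * π * l - τ by ring, key, key] at this
  linarith

theorem wirt {ι : Type} (s : Finset ι) (S T : ι → ℂ) (L P Q : ι → ℝ)
    (h : ∀ l, 0 < l → ∀ i ∈ s, E.Arc l (S i, T i, L i, l * P i - Q i)) (hP : 0 ≤ ∑ i ∈ s, P i)
    (hb : ∀ f : ℂ → ℤ, ∑ i ∈ s, (f (S i) - f (T i)) = 0) :
    2 * π * ∑ i ∈ s, Q i ≤ (∑ i ∈ s, L i) * ∑ i ∈ s, P i := by
  classical
  have hL : 0 ≤ ∑ i ∈ s, L i := Finset.sum_nonneg fun i hi => (h 1 one_pos i hi).1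
  have hπ := Real.pi_pos
  have hm : s.val.map S = s.val.map T := Multiset.ext.mpr fun z => by
    have := hb fun w => if z = w then 1 else 0
    rw [Finset.sum_sub_distrib, Finset.sum_boole, Finset.sum_boole, sub_eq_zero] at this
    rw [Multiset.count_map, Multiset.count_map]
    exact_mod_cast this
  have key : ∀ l, (∑ i ∈ s, L i) / (2 * π) < l → ∑ i ∈ s, Q i ≤ l * ∑ i ∈ s, P i := fun l hl => by
    have l0 : 0 < l := lt_of_le_of_lt (by positivity) hl
    have := arc_sum (l := l) _ (s.val.map fun i => (S i, T i, L i, l * P i - Q i)) rfl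
      (fun x hx => ?_) (by simpa using hm) ?_
    · rw [Multiset.map_map, ← Finset.sum_eq_multiset_sum] at this
      rwa [← sub_nonneg, Finset.mul_sum, ← Finset.sum_sub_distrib]
    · obtain ⟨i, hi, rfl⟩ := Multiset.mem_map.mp hx
      exact h l l0 i hi
    · rw [Multiset.map_map, ← Finset.sum_eq_multiset_sum]
      rw [div_lt_iff₀ (by positivity)] at hl
      simp only [Function.comp]
      linarith
  generalize ∑ i ∈ s, P i = P at *
  generalize ∑ i ∈ s, Q i = A at *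
  generalize ∑ i ∈ s, L i = L at *
  refine le_of_forall_pos_le_add fun ε hε => ?_
  have h3 := key (L / (2 * π) + ε / (2 * π * (P + 1))) (lt_add_of_pos_right _ (by positivity))
  have h4 : 2 * π * ((L / (2 * π) + ε / (2 * π * (P + 1))) * P) = L * P + ε * (P / (P + 1)) := by
    field_simp
  have h5 : P / (P + 1) ≤ 1 := div_le_one_of_le₀ (by linarith) (by linarith)
  nlinarith

lemma dbr {a b : ℝ → ℝ} (ha : Continuous a) (hb : Continuous b) {s t : ℝ} (hst : s < t)
    (h : ∀ θ θ' : ℝ → ℝ, Continuous θ' → (∀ y, HasDerivAt θ (θ' y) y) →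
      (∀ y ∉ Ioo s t, θ y = 0 ∧ θ' y = 0) → ∫ y in s..t, (2 * θ y * a y + θ' y * b y) = 0) :
    b t - b s = 2 * ∫ y in s..t, a y := by
  let A : ℝ → ℝ := fun y => ∫ x in s..y, a x
  have hA : ∀ y, HasDerivAt A (a y) y := fun y => (ha.integral_hasStrictDerivAt s y).hasDerivAt
  have cA : Continuous A := continuous_iff_continuousAt.mpr fun y => (hA y).continuousAt
  let w : ℝ → ℝ := fun y => max 0 ((y - s) * (t - y))
  have cw : Continuous w := by fun_prop
  have w0 : ∀ y ∉ Ioo s t, w y = 0 := fun y hy => max_eq_left (by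
    rcases not_and_or.mp hy with c | c <;> nlinarith [not_lt.mp c])
  have w1 : ∀ y ∈ Ioo s t, 0 < w y := fun y hy =>
    lt_max_of_lt_right (mul_pos (sub_pos.mpr hy.1) (sub_pos.mpr hy.2))
  have wp := intervalIntegral.intervalIntegral_pos_of_pos_on (cw.intervalIntegrable s t) w1 hst
  obtain ⟨c, hc⟩ : ∃ c, ∫ y in s..t, w y * (b y - 2 * A y - c) = 0 := by
    refine ⟨(∫ y in s..t, w y * (b y - 2 * A y)) / ∫ y in s..t, w y, ?_⟩
    simp only [mul_sub (w _) (b _ - _)]
    rw [intervalIntegral.integral_sub (Continuous.intervalIntegrable (by fun_prop) _ _)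
      (Continuous.intervalIntegrable (by fun_prop) _ _), intervalIntegral.integral_mul_const,
      mul_div_cancel₀ _ wp.ne', sub_self]
  let θ' : ℝ → ℝ := fun y => w y * (b y - 2 * A y - c)
  have cθ : Continuous θ' := by fun_prop
  let θ : ℝ → ℝ := fun y => ∫ x in s..y, θ' x
  have hθ : ∀ y, HasDerivAt θ (θ' y) y := fun y => (cθ.integral_hasStrictDerivAt s y).hasDerivAt
  have c2 : Continuous θ := continuous_iff_continuousAt.mpr fun y => (hθ y).continuousAt
  have z0 : ∀ u v, (∀ x ∈ uIcc u v, x ∉ Ioo s t) → ∫ x in u..v, θ' x = 0 := fun u v h => by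
    rw [intervalIntegral.integral_congr (g := fun _ => 0) fun x hx => by simp [θ', w0 x (h x hx)]]
    simp
  have h1 := h θ θ' cθ hθ fun y hy => ⟨?_, by simp [θ', w0 y hy]⟩
  · have h2 := intervalIntegral.integral_eq_sub_of_hasDerivAt (a := s) (b := t)
      (fun y _ => (hθ y).mul (hA y)) (Continuous.intervalIntegrable (by fun_prop) _ _)
    have h3 : ∫ y in s..t, w y * (b y - 2 * A y - c) ^ 2 = 0 := by
      rw [intervalIntegral.integral_congr (g := fun y => (2 * θ y * a y + θ' y * b y) -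
        2 * (θ' y * A y + θ y * a y) - c * θ' y) fun y _ => by simp only [θ']; ring,
        intervalIntegral.integral_sub (Continuous.intervalIntegrable (by fun_prop) _ _)
          (Continuous.intervalIntegrable (by fun_prop) _ _),
        intervalIntegral.integral_sub (Continuous.intervalIntegrable (by fun_prop) _ _)
          (Continuous.intervalIntegrable (by fun_prop) _ _), intervalIntegral.integral_const_mul,
        intervalIntegral.integral_const_mul, h1, h2, hc]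
      simp [θ, θ', hc]
    have h4 : EqOn (fun y => b y - 2 * A y) (fun _ => c) (Ioo s t) := fun y hy => by
      by_contra e
      refine (intervalIntegral.integral_pos (f := fun y => w y * (b y - 2 * A y - c) ^ 2) hst
        (Continuous.continuousOn (by fun_prop)) (fun x _ => mul_nonneg (le_max_left _ _) (sq_nonneg _)) ⟨y, Ioo_subset_Icc_self hy,
          mul_pos (w1 y hy) (sq_pos_of_ne_zero (sub_ne_zero.mpr e))⟩).ne' h3
    have h5 := h4.closure (by fun_prop) continuous_const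
    rw [closure_Ioo hst.ne] at h5
    have := h5 (left_mem_Icc.mpr hst.le)
    have := h5 (right_mem_Icc.mpr hst.le)
    simp only [A, intervalIntegral.integral_same] at *
    linarith
  · rcases not_and_or.mp hy with c | c
    · exact z0 _ _ fun x hx d => by
        rw [uIcc_of_ge (not_lt.mp c)] at hx
        exact d.1.not_ge hx.2
    · have := z0 t y fun x hx d => by
        rw [uIcc_of_le (not_lt.mp c)] at hx
        exact d.2.not_ge hx.1
      simp only [θ]
      rw [← intervalIntegral.integral_add_adjacent_intervals (cθ.intervalIntegrable s t)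
        (cθ.intervalIntegrable t y), this, add_zero, hc]

end Pool.Agent.Lib.MP_f225de_an.AR
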