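import Pool.Agent.Lib.MP_f225de_an.AR1

set_option autoImplicit false

open MeasureTheory Set Filter Topology Polynomial Complex
open scoped ENNReal NNReal Real ComplexConjugate

namespace Pool.Agent.Lib.MP_f225de_an.AR

open E

lemma logpolar (f : ℂ → ℝ) : ∫ u, f u = ∫ p in (univ : Set ℝ) ×ˢ Ioo (-π) π,
    Real.exp p.1 ^ 2 * f (1 + Real.exp p.1 * exp (p.2 * I)) := by
  rw [← integral_add_left_eq_self f 1, ← Complex.integral_comp_polarCoord_symm]
  let e : ℝ × ℝ → ℝ × ℝ := fun p => (Real.exp p.1, p.2)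
  let e' : ℝ × ℝ → ℝ × ℝ →L[ℝ] ℝ × ℝ := fun p =>
    (Matrix.toLin (.finTwoProd ℝ) (.finTwoProd ℝ) !![Real.exp p.1, 0; 0, 1]).toContinuousLinearMap
  have h1 : polarCoord.target = e '' ((univ : Set ℝ) ×ˢ Ioo (-π) π) := by
    ext ⟨r, t⟩
    simp only [polarCoord_target, mem_prod, mem_Ioi, mem_image, mem_univ, true_and, e, Prod.ext_iff]
    exact ⟨fun h => ⟨(Real.log r, t), h.2, Real.exp_log h.1, rfl⟩,
      fun ⟨p, h, h2, h3⟩ => ⟨h2 ▸ Real.exp_pos _, h3 ▸ h⟩⟩
  have h2 : ∀ p, HasFDerivAt e (e' p) p := fun p => by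
    have := ((Real.hasDerivAt_exp p.1).comp_hasFDerivAt p (hasFDerivAt_fst (𝕜 := ℝ))).prodMk
      (hasFDerivAt_snd (𝕜 := ℝ) (p := p))
    exact this.congr_fderiv (by ext <;> simp [e', Matrix.toLin_finTwoProd_apply])
  rw [h1, integral_image_eq_integral_abs_det_fderiv_smul volume
    (MeasurableSet.univ.prod measurableSet_Ioo) (fun p _ => (h2 p).hasFDerivWithinAt)
    (fun p _ q _ h => Prod.ext (Real.exp_injective (Prod.ext_iff.1 h).1)
      (by simpa [e] using (Prod.ext_iff.1 h).2))]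
  refine integral_congr_ae (.of_forall fun p => ?_)
  have h3 : (e' p).det = Real.exp p.1 := by
    simp [e', ContinuousLinearMap.det, LinearMap.det_toLin, Matrix.det_fin_two_of]
  have h4 : Complex.polarCoord.symm (e p) = Real.exp p.1 * exp (p.2 * I) := by
    simp [e, Complex.polarCoord_symm_apply, Complex.exp_mul_I]
  simp only [h3, h4, abs_of_pos (Real.exp_pos _), sq, mul_assoc, smul_eq_mul, e]

lemma norm_pt (y ψ : ℝ) : ‖(1 + Real.exp y * exp (ψ * I) : ℂ) - 1‖ = Real.exp y := by simp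

lemma conv {σ s t R : ℝ} (h0 : 0 < σ) (h1 : σ ≤ π) (hst : s ≤ t) (hR : 1 + Real.exp t ≤ R)
    {D : ℂ → ℝ} (hD : ∀ u ∈ Sec σ, u ≠ 1 → ContinuousAt D u)
    (hz : ∀ u, u ≠ 1 → Real.log ‖u - 1‖ ∉ Ioo s t → D u = 0) :
    ∫ p in Ioo 0 R ×ˢ Ioo 0 σ, p.1 * D (MA.pl p) = ∫ y in s..t, ∫ ψ in Sk.Arc σ (Real.exp y),
      Real.exp y ^ 2 * D (1 + Real.exp y * exp (ψ * I)) := by
  let F := {u : ℂ | 0 < u.im ∧ u.im * Real.cos σ < u.re * Real.sin σ}.indicator D
  have hπ := Real.pi_pos
  trans ∫ u, F u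
  · rw [← Complex.integral_comp_polarCoord_symm, polarCoord_target,
      setIntegral_eq_of_subset_of_forall_sdiff_eq_zero (measurableSet_Ioi.prod measurableSet_Ioo)
        (s := Ioo 0 R ×ˢ Ioo 0 σ)
        (prod_mono Ioo_subset_Ioi_self (Ioo_subset_Ioo (by linarith : -π ≤ 0) h1)) fun p hp => ?_]
    · refine setIntegral_congr_fun (measurableSet_Ioo.prod measurableSet_Ioo) fun p hp => ?_
      have a := Real.sin_pos_of_pos_of_lt_pi hp.2.1 (hp.2.2.trans_le h1)
      have b := Real.sin_pos_of_pos_of_lt_pi (sub_pos.mpr hp.2.2) (by linarith [hp.2.1])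
      rw [Real.sin_sub] at b
      simp only [F, smul_eq_mul]
      rw [indicator_of_mem, MA.pl, Complex.polarCoord_symm_apply, exp_mul_I]
      · simp
      · simp [cos_ofReal_re, sin_ofReal_re]
        constructor <;> nlinarith [hp.1.1]
    · simp only [F, smul_eq_mul, mul_eq_zero, indicator_apply_eq_zero]
      refine .inr fun h => ?_
      have a : 0 < p.1 := hp.1.1
      simp [cos_ofReal_re, sin_ofReal_re, a] at h
      have b : 0 < p.2 := not_le.mp fun c =>
        (Real.sin_nonpos_of_nonpos_of_neg_pi_le c hp.1.2.1.le).not_gt h.1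
      have c : p.2 < σ := not_le.mp fun c => by
        have := Real.sin_nonneg_of_nonneg_of_le_pi (sub_nonneg.mpr c) (by linarith [hp.1.2.2])
        rw [Real.sin_sub] at this
        nlinarith [h.2]
      have d : R ≤ p.1 := not_lt.mp fun d => hp.2 ⟨⟨a, d⟩, b, c⟩
      have e := norm_sub_norm_le (Complex.polarCoord.symm p) 1
      rw [Complex.norm_polarCoord_symm, abs_of_pos a, norm_one] at e
      have f := Real.exp_pos t
      exact hz _ (fun g => by simp [g] at e; linarith) fun g => by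
        have := (Real.log_lt_iff_lt_exp (by linarith)).mp g.2
        linarith
  · let Ω : Set (ℝ × ℝ) := {p | p.1 ∈ Ioo s t ∧ p.2 ∈ Sk.Arc σ (Real.exp p.1)}
    let k : ℝ × ℝ → ℝ := fun p => Real.exp p.1 ^ 2 * D (1 + Real.exp p.1 * exp (p.2 * I))
    have hΩ : MeasurableSet Ω := (measurable_fst measurableSet_Ioo).inter
      ((measurable_snd measurableSet_Ioo).inter (measurableSet_lt
        (f := fun p : ℝ × ℝ => Real.exp p.1 * Real.sin (p.2 - σ)) (by fun_prop) measurable_const))
    obtain ⟨C, hC⟩ := box_bd h0 hD s t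
    have hk : IntegrableOn k Ω := .of_bound
      ((measure_mono (t := Icc s t ×ˢ Icc 0 π) fun p hp => ⟨Ioo_subset_Icc_self hp.1,
        Ioo_subset_Icc_self hp.2.1⟩).trans_lt (isCompact_Icc.prod isCompact_Icc).measure_lt_top)
      (ContinuousOn.aestronglyMeasurable (fun p hp => ?_) hΩ) (Real.exp t ^ 2 * C)
      ((ae_restrict_mem hΩ).mono fun p hp => ?_)
    · rw [logpolar, setIntegral_eq_of_subset_of_forall_sdiff_eq_zero
        (MeasurableSet.univ.prod measurableSet_Ioo) (s := Ω)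
        (fun p hp => ⟨trivial, by linarith [hp.2.1.1], hp.2.1.2⟩) fun p hp => ?_,
        setIntegral_congr_fun hΩ (g := k) fun p hp => ?_, ← integral_indicator hΩ,
        Measure.volume_eq_prod, integral_prod _ ((integrable_indicator_iff hΩ).mpr hk),
        intervalIntegral.integral_of_le hst, integral_Ioc_eq_integral_Ioo,
        ← integral_indicator measurableSet_Ioo]
      · refine integral_congr_ae (.of_forall fun y => ?_)
        by_cases a : y ∈ Ioo s t
        · simp only [indicator_of_mem a, ← integral_indicator (arc_meas _ _)]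
          congr 1
          ext ψ
          by_cases b : ψ ∈ Sk.Arc σ (Real.exp y)
          · rw [indicator_of_mem b, indicator_of_mem (show (y, ψ) ∈ Ω from ⟨a, b⟩)]
          · rw [indicator_of_notMem b, indicator_of_notMem fun c : (y, ψ) ∈ Ω => b c.2]
        · simp only [indicator_of_notMem a, indicator_of_notMem fun c : (y, _) ∈ Ω => a c.1,
            integral_zero]
      · have a := Real.sin_pos_of_mem_Ioo hp.2.1
        have b := hp.2.2
        rw [Real.sin_sub] at b
        simp only [F, k]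
        rw [indicator_of_mem]
        simp [exp_ofReal_mul_I_re, exp_ofReal_mul_I_im, -ofReal_exp, Real.exp_pos, a]
        linarith
      · simp only [F, mul_eq_zero, indicator_apply_eq_zero]
        refine .inr fun h => hz _ (by simp) fun g => hp.2 ⟨by rwa [norm_pt, Real.log_exp] at g, ?_⟩
        simp [exp_ofReal_mul_I_re, exp_ofReal_mul_I_im, -ofReal_exp, Real.exp_pos] at h
        exact ⟨⟨not_le.mp fun c => (Real.sin_nonpos_of_nonpos_of_neg_pi_le c hp.1.2.1.le).not_gt h.1,
          hp.1.2.2⟩, by rw [Real.sin_sub]; linarith [h.2]⟩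
    · have := arc_sec h0 (Real.exp_pos _) (Ioo_subset_Icc_self hp.2.1) hp.2.2.le
      exact (ContinuousAt.mul (by fun_prop) ((hD _ this.1 this.2).comp
        (f := fun p : ℝ × ℝ => 1 + Real.exp p.1 * exp (p.2 * I)) (by fun_prop))).continuousWithinAt
    · rw [norm_mul, norm_pow, Real.norm_of_nonneg (Real.exp_pos _).le]
      have := hC _ (Ioo_subset_Icc_self hp.1) _ hp.2
      gcongr
      exact hp.1.2.le

lemma inv_sum {H R : Type} [Ring R] [IsDomain R] [CharZero R] {s : Finset H} {T : H → R}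
    {ι : H → H} (h1 : Function.Involutive ι) (h2 : ∀ h ∈ s, T h ≠ 0 → ι h ∈ s ∧ T (ι h) = -T h) :
    ∑ h ∈ s, T h = 0 := by
  classical
  rw [← Finset.sum_filter_ne_zero]
  refine Finset.sum_involution (fun h _ => ι h) (fun h a => ?_) (fun h a b c => b ?_)
    (fun h a => ?_) fun h _ => h1 h
  all_goals obtain ⟨a, a'⟩ := Finset.mem_filter.mp a; obtain ⟨d, e⟩ := h2 h a a'
  · rw [e, add_neg_cancel]
  · rwa [c, CharZero.eq_neg_self_iff] at e
  · exact Finset.mem_filter.mpr ⟨d, e ▸ neg_ne_zero.mpr a'⟩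

lemma on_bis {σ r x : ℝ} (h : r * Real.sin x = Real.sin σ) :
    (1 + r * exp ((σ + x : ℝ) * I) : ℂ) = (Real.cos σ + r * Real.cos x : ℝ) * exp (σ * I) := by
  have := Real.sin_sq_add_cos_sq σ
  apply Complex.ext <;> simp only [add_re, add_im, re_ofReal_mul, im_ofReal_mul, one_re, one_im,
    exp_ofReal_mul_I_re, exp_ofReal_mul_I_im, Real.cos_add, Real.sin_add]
  · linear_combination -this - Real.sin σ * h
  · linear_combination Real.cos σ * h

lemma f_small {σ r : ℝ} (h0 : 0 < σ) (h1 : σ ≤ π) (hr : 0 < r) (h2 : r ≤ 1) :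
    f1 σ r = f2 σ r ∨ (σ ≤ π / 2 ∧ Real.sin σ ≤ r) ∧
      (∃ ρ : ℝ, 0 ≤ ρ ∧ (1 + r * exp (f1 σ r * I) : ℂ) = ρ * exp (σ * I)) ∧
      ∃ ρ : ℝ, 0 ≤ ρ ∧ (1 + r * exp (f2 σ r * I) : ℂ) = ρ * exp (σ * I) := by
  have a := Real.sin_nonneg_of_mem_Icc ⟨h0.le, h1⟩
  have b := Real.arcsin_le_arcsin (le_div_self a hr h2)
  have hπ := Real.pi_pos
  rcases le_total σ (π / 2) with c | c
  · rcases le_total (Real.sin σ) r with d | d
    · rw [Real.arcsin_sin (by linarith) c] at b
      have e : r * Real.sin (Real.arcsin (Real.sin σ / r)) = Real.sin σ := by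
        rw [Real.sin_arcsin (neg_one_lt_zero.le.trans (by positivity)) ((div_le_one hr).mpr d),
          mul_div_cancel₀ _ hr.ne']
      have f := Real.cos_nonneg_of_mem_Icc ⟨by linarith, c⟩
      have g := Real.cos_arcsin_nonneg (Real.sin σ / r)
      refine .inr ⟨⟨c, d⟩, ⟨_, add_nonneg f (mul_nonneg hr.le g), ?_⟩,
        Real.cos σ + r * Real.cos (π - Real.arcsin (Real.sin σ / r)), ?_, ?_⟩
      · rw [f1, min_eq_right (by linarith [Real.arcsin_le_pi_div_two (Real.sin σ / r)]), on_bis e]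
      · rw [Real.cos_pi_sub, mul_neg, ← sub_eq_add_neg, sub_nonneg]
        have := Real.sin_sq_add_cos_sq σ
        have := Real.sin_sq_add_cos_sq (Real.arcsin (Real.sin σ / r))
        have := congrArg (· ^ 2) e
        generalize Real.arcsin (Real.sin σ / r) = al at *
        exact le_of_sq_le_sq (by nlinarith [mul_pos hr hr]) f
      · rw [f2, min_eq_right (by linarith), add_sub_assoc, on_bis (by rwa [Real.sin_pi_sub])]
    · left
      rw [f1, f2, Real.arcsin_of_one_le ((one_le_div hr).mpr d)]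
      congr 1
      ring
  · rw [← Real.sin_pi_sub σ, Real.arcsin_sin (by linarith) (by linarith), Real.sin_pi_sub] at b
    obtain ⟨-, d, e⟩ := f_ord h0 h1 hr
    have : f1 σ r = π := min_eq_left (by linarith)
    exact .inl (by linarith)

lemma f_large {σ r : ℝ} (h0 : 0 < σ) (h1 : σ ≤ π) (h2 : 1 ≤ r) :
    f2 σ r = π ∧ ∃ ρ : ℝ, 0 ≤ ρ ∧ (1 + r * exp (f1 σ r * I) : ℂ) = ρ * exp (σ * I) := by
  have a := Real.sin_nonneg_of_mem_Icc ⟨h0.le, h1⟩
  have b := Real.arcsin_le_arcsin (div_le_self a h2)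
  have c := Real.arcsin_le_pi_div_two (Real.sin σ / r)
  have hπ := Real.pi_pos
  have hr := one_pos.trans_le h2
  have d : Real.arcsin (Real.sin σ / r) ≤ σ ∧ Real.arcsin (Real.sin σ / r) ≤ π - σ := by
    rcases le_total σ (π / 2) with c | c
    · rw [Real.arcsin_sin (by linarith) c] at b
      constructor <;> linarith
    · rw [← Real.sin_pi_sub σ, Real.arcsin_sin (by linarith) (by linarith), Real.sin_pi_sub] at b
      constructor <;> linarith
  have e : r * Real.sin (Real.arcsin (Real.sin σ / r)) = Real.sin σ := by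
    rw [Real.sin_arcsin (neg_one_lt_zero.le.trans (by positivity))
      ((div_le_one hr).mpr ((Real.sin_le_one σ).trans h2)), mul_div_cancel₀ _ hr.ne']
  refine ⟨min_eq_left (by linarith [d.1]), _, ?_, by
    rw [f1, min_eq_right (by linarith [d.2]), on_bis e]⟩
  have := Real.sin_sq_add_cos_sq σ
  have := congrArg (r ^ 2 * ·) (Real.sin_sq_add_cos_sq (Real.arcsin (Real.sin σ / r)))
  have g := Real.cos_arcsin_nonneg (Real.sin σ / r)
  have := congrArg (· ^ 2) e
  generalize Real.arcsin (Real.sin σ / r) = al at *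
  have := abs_le_of_sq_le_sq' (a := Real.cos σ) (b := r * Real.cos al) (by nlinarith) (by positivity)
  linarith [this.1]

end Pool.Agent.Lib.MP_f225de_an.AR
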