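import Pool.Agent.Lib.MP_f225de_an.AR2

set_option autoImplicit false

open MeasureTheory Set Filter Topology Polynomial Complex
open scoped ENNReal NNReal Real ComplexConjugate

namespace Pool.Agent.Lib.MP_f225de_an.AR

open E

/-- area density -/
noncomputable def az (Z : ℂ → ℂ) (u : ℂ) : ℝ := ‖(u - 1) * deriv Z u‖ ^ 2

/-- flux density -/
noncomputable def bz (Z : ℂ → ℂ) (u : ℂ) : ℝ := (conj (Z u) * ((u - 1) * deriv Z u)).re

lemma az_cont {Z : ℂ → ℂ} {u : ℂ} (h : AnalyticAt ℂ Z u) : ContinuousAt (az Z) u :=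
  ((continuousAt_id.sub continuousAt_const).mul h.deriv.continuousAt).norm.pow 2

lemma bz_cont {Z : ℂ → ℂ} {u : ℂ} (h : AnalyticAt ℂ Z u) : ContinuousAt (bz Z) u :=
  continuous_re.continuousAt.comp ((continuous_conj.continuousAt.comp h.continuousAt).mul
    ((continuousAt_id.sub continuousAt_const).mul h.deriv.continuousAt))

lemma piece_arc {σ r a b l : ℝ} (h0 : 0 < σ) (hr : 0 < r) (hl : 0 < l) (hab : a ≤ b)
    (h : Ioo a b ⊆ Sk.Arc σ r) {Z : ℂ → ℂ} (hZ : ∀ u ∈ Sec σ, u ≠ 1 → AnalyticAt ℂ Z u) (c : Bool) :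
    E.Arc l (kp c (Z (1 + r * exp ((if c then a else b : ℝ) * I))),
      kp c (Z (1 + r * exp ((if c then b else a : ℝ) * I))), b - a,
      l * (∫ ψ in a..b, az Z (1 + r * exp (ψ * I))) - ∫ ψ in a..b, bz Z (1 + r * exp (ψ * I))) := by
  have c1 := piece_cont h0 hr hab h fun u hu e => az_cont (hZ u hu e)
  have c2 := piece_cont h0 hr hab h fun u hu e => bz_cont (hZ u hu e)
  have e : (fun ψ : ℝ => l * ‖deriv Z (1 + r * exp (ψ * I)) * (r * (exp (ψ * I) * I))‖ ^ 2 -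
      (conj (Z (1 + r * exp (ψ * I))) * (deriv Z (1 + r * exp (ψ * I)) * (r * (exp (ψ * I) * I)))).im) =
      fun ψ : ℝ => l * az Z (1 + r * exp (ψ * I)) - bz Z (1 + r * exp (ψ * I)) := by
    ext ψ
    simp only [az, bz, add_sub_cancel_left, ← mul_assoc, mul_I_im, norm_mul, norm_I]
    ring_nf
  have := arc_of hl hab (γ := fun ψ => Z (1 + r * exp (ψ * I)))
    (γ' := fun ψ => deriv Z (1 + r * exp (ψ * I)) * (r * (exp (ψ * I) * I)))
    (piece_cont h0 hr hab h fun u hu e => (hZ u hu e).continuousAt) (fun ψ hψ => ?_)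
    (e ▸ ((continuousOn_const.mul c1).sub c2).integrableOn_Icc)
  · rw [e, intervalIntegral.integral_sub ((c1.intervalIntegrable_of_Icc hab).const_mul l)
      (c2.intervalIntegrable_of_Icc hab), intervalIntegral.integral_const_mul] at this
    cases c
    · exact mirror hl this
    · exact this
  · have a := arc_sec h0 hr (Ioo_subset_Icc_self (h hψ).1) (h hψ).2.le
    have b : HasDerivAt (fun z : ℂ => 1 + r * exp (z * I)) (r * (exp (ψ * I) * I)) ψ := by
      simpa using (((hasDerivAt_id (ψ : ℂ)).mul_const I).cexp.const_mul (r : ℂ)).const_add 1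
    exact ((hZ _ a.1 a.2).differentiableAt.hasDerivAt.comp (ψ : ℂ) b).comp_ofReal

lemma kp_not (b : Bool) (z : ℂ) : kp (!b) (conj z) = kp b z := by cases b <;> simp [kp]

variable {n : ℕ} {p : ℂ[X]} (G : Geo n p)

/-- flux through the level arcs -/
noncomputable def bb (h : G.H) (y : ℝ) : ℝ :=
  ∫ ψ in Sk.Arc (G.σ h) (Real.exp y), bz (G.Z h) (1 + Real.exp y * exp (ψ * I))

lemma aa_eq (h : G.H) (y : ℝ) : Sk.aa G h y =
    ∫ ψ in Sk.Arc (G.σ h) (Real.exp y), az (G.Z h) (1 + Real.exp y * exp (ψ * I)) := by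
  simp [Sk.aa, az, -ofReal_exp]

/-- a family of half sectors closed at level `y` -/
def Cl (s : Finset G.H) (y : ℝ) : Prop :=
  ∀ h ∈ s, G.rad h ∈ s ∧ G.slit h ∈ s ∧ (Sk.touch (G.σ h) y → G.bis h ∈ s)

lemma bd_sum {s : Finset G.H} {y r : ℝ} (hC : Cl G s y) (hr : Real.exp y = r) (f : ℂ → ℤ)
    {T : (ℝ → ℝ) → G.H → ℤ} (hT : ∀ x h, T x h =
      (if G.sg h then 1 else -1) * f (kp (G.sg h) (G.Z h (1 + r * exp (x (G.σ h) * I))))) :
    ∑ h ∈ s, (T (fun _ => 0) h + (T (f2 · r) h - T (f1 · r) h - T (fun _ => π) h)) = 0 := by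
  have r0 : 0 < r := hr ▸ Real.exp_pos y
  have tw : ∀ {x : ℝ → ℝ} {h h' : G.H}, G.sg h' = !G.sg h →
      G.Z h' (1 + r * exp (x (G.σ h') * I)) = conj (G.Z h (1 + r * exp (x (G.σ h) * I))) →
      T x h' = -T x h := fun e1 e2 => by
    rw [hT, hT, e1, e2, kp_not]
    cases G.sg _ <;> simp
  have tb : ∀ (x : ℝ → ℝ) (h : G.H), (∃ ρ : ℝ, 0 ≤ ρ ∧ (1 + r * exp (x (G.σ h) * I) : ℂ) =
      ρ * exp (G.σ h * I)) → T x (G.bis h) = -T x h :=
    fun x h ⟨ρ, e1, e2⟩ => tw (G.sg_bis h) (by rw [G.σ_bis, e2, G.bis_eq h ρ e1])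
  rw [Finset.sum_add_distrib, inv_sum G.slit_inv fun h hh _ => ⟨(hC h hh).2.1, tw (G.sg_slit h) (by
    simpa using G.slit_eq h (1 + r) (by linarith))⟩, zero_add]
  rcases le_total r 1 with c | c
  · rw [Finset.sum_sub_distrib, inv_sum G.bis_inv fun h hh e => ?_,
      inv_sum G.rad_inv fun h hh _ => ⟨(hC h hh).1, tw (G.sg_rad h) (by
        simpa [sub_eq_add_neg] using G.rad_eq h (1 - r) (by linarith) (by linarith))⟩, sub_zero]
    obtain ⟨d1, d2, d3⟩ := (f_small (G.σ_pos h) (G.σ_le h) r0 c).resolve_left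
      fun d => e (by rw [hT, hT, d, sub_self])
    refine ⟨(hC h hh).2.2 (.inl (hr ▸ d1)), ?_⟩
    rw [tb (f1 · r) h d2, tb (f2 · r) h d3]
    ring
  · have d := fun h => f_large (G.σ_pos h) (G.σ_le h) c
    have e : ∀ h, T (f2 · r) h = T (fun _ => π) h := fun h => by rw [hT, hT, (d h).1]
    refine inv_sum G.bis_inv fun h hh _ => ⟨(hC h hh).2.2
      (.inr (Real.one_le_exp_iff.mp (hr ▸ c))), ?_⟩
    rw [tb (f1 · r) h (d h).2, e, e]
    ring

theorem level {s : Finset G.H} {y : ℝ} (hC : Cl G s y) :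
    ∑ h ∈ s, bb G h y ≤ (∑ h ∈ s, Sk.lam (G.σ h) y) * ∑ h ∈ s, Sk.aa G h y := by
  obtain ⟨r, hr⟩ : ∃ r, Real.exp y = r := ⟨_, rfl⟩
  have r0 : 0 < r := hr ▸ Real.exp_pos y
  let a : G.H × Bool → ℝ := fun i => if i.2 then 0 else f2 (G.σ i.1) r
  let b : G.H × Bool → ℝ := fun i => if i.2 then f1 (G.σ i.1) r else π
  have o := fun h => f_ord (G.σ_pos h) (G.σ_le h) r0
  have hab : ∀ i, a i ≤ b i := fun ⟨h, c⟩ => by
    cases c
    exacts [(o h).2.2, (o h).1]
  have := wirt (s ×ˢ Finset.univ) _ _ _ _ _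
    (fun l hl i _ => piece_arc (G.σ_pos i.1) r0 hl (hab i) (fun ψ hψ => arc_in (G.σ_pos _)
      (G.σ_le _) r0 (by obtain ⟨h, _ | _⟩ := i; exacts [.inr hψ, .inl hψ])) (G.an _) (G.sg i.1))
    (Finset.sum_nonneg fun i _ => intervalIntegral.integral_nonneg (hab i) fun _ _ => sq_nonneg _)
    fun f => ?_
  · simp only [Finset.sum_product, Fintype.sum_bool, a, b, if_true, Bool.false_eq_true, if_false,
      sub_zero, ← arc_vol (G.σ_pos _) (G.σ_le _) r0,
      ← arc_int (G.σ_pos _) (G.σ_le _) r0 fun u hu e => az_cont (G.an _ u hu e),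
      ← arc_int (G.σ_pos _) (G.σ_le _) r0 fun u hu e => bz_cont (G.an _ u hu e)] at this
    simp only [aa_eq, bb, Sk.lam, hr, ← Finset.sum_div]
    rwa [div_mul_eq_mul_div, le_div_iff₀' (by positivity)]
  rw [Finset.sum_product, ← bd_sum G hC hr f fun _ _ => rfl]
  refine Finset.sum_congr rfl fun h _ => ?_
  simp only [Fintype.sum_bool, a, b]
  cases G.sg h <;> simp <;> ring

end Pool.Agent.Lib.MP_f225de_an.AR
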