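import Pool.Agent.Lib.MP_f225de_an.AR3

set_option autoImplicit false

open MeasureTheory Set Filter Topology Polynomial Complex
open scoped ENNReal NNReal Real ComplexConjugate

namespace Pool.Agent.Lib.MP_f225de_an.AR

open E

lemma flip {f g : ℂ → ℂ} {φ x : ℝ} (a : ℝ) (hg : AnalyticAt ℂ g (x * exp (φ * I)))
    (h : f =ᶠ[𝓝 (x * exp (φ * I))] fun v => conj (g (exp (2 * φ * I) * conj v))) :
    (exp (φ * I) * (a * (conj (f (x * exp (φ * I))) * deriv f (x * exp (φ * I))))).im =
      -(exp (φ * I) * (a * (conj (g (x * exp (φ * I))) * deriv g (x * exp (φ * I))))).im := by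
  rw [show 2 * φ * I = φ * I + φ * I by ring, exp_add] at h
  have he : exp (φ * I) * conj (exp (φ * I)) = 1 := by rw [mul_conj', norm_exp_ofReal_mul_I]; simp
  generalize exp (φ * I) = e at *
  have hu : e * e * conj (x * e) = x * e := by
    rw [map_mul, conj_ofReal]
    linear_combination x * e * he
  have := (((hu.symm ▸ hg.differentiableAt.hasDerivAt :
    HasDerivAt g (deriv g (x * e)) (e * e * conj (x * e))).comp (conj (x * e))
      ((hasDerivAt_id _).const_mul (e * e))).conj_conj)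
  rw [conj_conj] at this
  rw [h.deriv_eq, h.eq_of_nhds, hu, (show HasDerivAt (fun v => conj (g (e * e * conj v))) _ _ from
    this).deriv, ← conj_im]
  congr 1
  simp only [map_mul, conj_conj, conj_ofReal, mul_one]
  linear_combination a * g (x * e) * conj (deriv g (x * e)) * conj e * he

lemma touch_of {σ ρ y : ℝ} (h1 : σ ≤ π) (hρ : 0 ≤ ρ)
    (h : ‖(ρ * exp (σ * I) - 1 : ℂ)‖ < Real.exp y) : Sk.touch σ y := by
  rcases le_or_gt 0 y with c | c
  · exact .inr c
  have a := (abs_re_le_norm _).trans_lt (h.trans (Real.exp_lt_one_iff.mpr c))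
  have b := abs_im_le_norm ((ρ * exp (σ * I) - 1) * exp ((-σ : ℝ) * I))
  rw [norm_mul, norm_exp_ofReal_mul_I, sub_mul, mul_assoc, ← exp_add, ← add_mul, ← ofReal_add] at b
  simp [exp_ofReal_mul_I_re] at a
  simp [exp_ofReal_mul_I_im, -ofReal_neg] at b
  refine .inl ⟨not_lt.mp fun d => ?_, (le_abs_self _).trans (b.trans h.le)⟩
  have := mul_nonpos_of_nonneg_of_nonpos hρ (Real.cos_nonpos_of_pi_div_two_le_of_le d.le
    (by linarith [Real.pi_pos]))
  linarith [(abs_lt.mp a).1]

lemma rect_cont {E : Type} [TopologicalSpace E] [Zero E] {σ δ R : ℝ} (hδ : 0 < δ) {g : ℂ → E}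
    (hg : ∀ u ∈ Sec σ, u ≠ 1 → ContinuousAt g u) (hz : ∀ u, ‖u - 1‖ < δ → g u = 0) :
    ContinuousOn (fun p => g (MA.pl p)) (Icc 0 R ×ˢ Icc 0 σ) := fun p hp => by
  refine (ContinuousAt.comp ?_ MA.pl_cont.continuousAt).continuousWithinAt
  by_cases e : MA.pl p = 1
  · exact e ▸ continuousAt_const.congr (mem_of_superset (Metric.ball_mem_nhds 1 hδ)
      fun u hu => (hz u (mem_ball_iff_norm.mp hu)).symm)
  · exact hg _ ⟨p.1, p.2, hp.1.1, hp.2, rfl⟩ e

lemma arc_intg {σ r : ℝ} (h0 : 0 < σ) (h1 : σ ≤ π) (hr : 0 < r) {g : ℂ → ℝ}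
    (hg : ∀ u ∈ Sec σ, u ≠ 1 → ContinuousAt g u) :
    IntegrableOn (fun ψ : ℝ => g (1 + r * exp (ψ * I))) (Sk.Arc σ r) := by
  obtain ⟨a, -, c⟩ := f_ord h0 h1 hr
  exact (((piece_cont h0 hr a (fun _ h => arc_in h0 h1 hr (.inl h)) hg).integrableOn_Icc.mono_set
    Ioo_subset_Icc_self).union ((piece_cont h0 hr c (fun _ h => arc_in h0 h1 hr (.inr h))
      hg).integrableOn_Icc.mono_set Ioo_subset_Icc_self)).congr_set_ae (arc_ae h0 h1 hr)

variable {n : ℕ} {p : ℂ[X]} (G : Geo n p)

lemma der_one (h : G.H) : deriv (G.Z h) 1 = 0 := by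
  by_contra e
  simpa [G.q_der] using (((G.q h).hasDerivAt _).comp 1
    (differentiableAt_of_deriv_ne_zero e).hasDerivAt).unique
    ((hasDerivAt_id 1).congr_of_eventuallyEq (.of_forall (G.q_Z h)))

/-- the cut off area field -/
noncomputable def JJ (θ : ℝ → ℝ) (Z : ℂ → ℂ) (u : ℂ) : ℂ :=
  θ (Real.log ‖u - 1‖) * (conj (Z u) * deriv Z u)

lemma cell {s t : ℝ} (hst : s ≤ t) {θ θ' : ℝ → ℝ} (c : Continuous θ')
    (d : ∀ y, HasDerivAt θ (θ' y) y) (z : ∀ y ∉ Ioo s t, θ y = 0 ∧ θ' y = 0) (h : G.H) :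
    ContinuousOn (fun p => JJ θ (G.Z h) (MA.pl p)) (Icc 0 (1 + Real.exp t) ×ˢ Icc 0 (G.σ h)) ∧
    ∫ y in s..t, (2 * θ y * Sk.aa G h y + θ' y * bb G h y) =
      (∫ x in (0 : ℝ)..1 + Real.exp t, (exp ((0 : ℝ) * I) * JJ θ (G.Z h) (MA.pl (x, 0))).im) -
      ∫ x in (0 : ℝ)..1 + Real.exp t, (exp (G.σ h * I) * JJ θ (G.Z h) (MA.pl (x, G.σ h))).im := by
  let D : ℂ → ℝ := fun u => (2 * θ (Real.log ‖u - 1‖) * az (G.Z h) u +
    θ' (Real.log ‖u - 1‖) * bz (G.Z h) u) / ‖u - 1‖ ^ 2
  have c0 : Continuous θ := continuous_iff_continuousAt.mpr fun y => (d y).continuousAt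
  have cl : ∀ u : ℂ, u ≠ 1 → ContinuousAt (fun u => Real.log ‖u - 1‖) u := fun u e =>
    ContinuousAt.log (by fun_prop) (by simpa [sub_eq_zero])
  have cD : ∀ u ∈ Sec (G.σ h), u ≠ 1 → ContinuousAt D u := fun u hu e =>
    (((continuousAt_const.mul (c0.continuousAt.comp (cl u e))).mul (az_cont (G.an h u hu e))).add
      ((c.continuousAt.comp (cl u e)).mul (bz_cont (G.an h u hu e)))).div (by fun_prop)
      (by simpa [sub_eq_zero])
  have zs : ∀ u : ℂ, ‖u - 1‖ < Real.exp s → u ≠ 1 → Real.log ‖u - 1‖ ∉ Ioo s t := fun u hu e a =>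
    a.1.not_gt ((Real.log_lt_iff_lt_exp (by simpa [sub_eq_zero])).mpr hu)
  have cJ : ContinuousOn (fun p => JJ θ (G.Z h) (MA.pl p))
      (Icc 0 (1 + Real.exp t) ×ˢ Icc 0 (G.σ h)) := rect_cont (Real.exp_pos s) (fun u hu e =>
      (continuous_ofReal.continuousAt.comp (c0.continuousAt.comp (cl u e))).mul
      ((continuous_conj.continuousAt.comp (G.an h u hu e).continuousAt).mul
        (G.an h u hu e).deriv.continuousAt)) fun u hu => by
      by_cases e : u = 1
      · simp [JJ, e, der_one]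
      · simp [JJ, z _ (zs u hu e)]
  have := MA.pdiv (D := D) (by positivity) (G.σ_pos h).le cJ (fun p hp => ?_)
    ((continuous_fst.continuousOn.mul (rect_cont (Real.exp_pos s) cD fun u hu => ?_)).integrableOn_compact
      (isCompact_Icc.prod isCompact_Icc) |>.mono_set (prod_mono Ioo_subset_Icc_self Ioo_subset_Icc_self))
  · rw [conv (G.σ_pos h) (G.σ_le h) hst le_rfl cD fun u _ hu => by simp [D, z _ hu],
      intervalIntegral.integral_congr (g := fun _ => 0) (a := 0) (b := G.σ h) fun y _ => ?_,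
      intervalIntegral.integral_zero, add_zero,
      intervalIntegral.integral_congr (g := fun _ => 0) (a := 0) (b := G.σ h)
        fun y _ => by simp [MA.pl], intervalIntegral.integral_zero, sub_zero] at this
    · refine ⟨cJ, Eq.trans (intervalIntegral.integral_congr fun y _ => ?_) this⟩
      have a := fun g => arc_intg (g := g) (G.σ_pos h) (G.σ_le h) (Real.exp_pos y)
      simp only [D, norm_pt, Real.log_exp, mul_div_cancel₀ _ (pow_pos (Real.exp_pos y) 2).ne']
      rw [integral_add ((a _ fun u hu e => az_cont (G.an h u hu e)).const_mul _)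
        ((a _ fun u hu e => bz_cont (G.an h u hu e)).const_mul _), integral_const_mul,
        integral_const_mul, aa_eq, bb]
    · have a := norm_sub_norm_le (MA.pl (1 + Real.exp t, y)) 1
      rw [MA.norm_pl, abs_of_pos (by positivity), norm_one, add_sub_cancel_left] at a
      simp [JJ, z _ fun b => b.2.not_ge ((Real.le_log_iff_exp_le
        ((Real.exp_pos t).trans_le a)).mpr a)]
  · have e : MA.pl p ≠ 1 := fun e => by
      have := congrArg im e
      simp only [MA.pl, im_ofReal_mul, exp_ofReal_mul_I_im, one_im] at this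
      exact (mul_pos hp.1.1 (Real.sin_pos_of_pos_of_lt_pi hp.2.1
        (hp.2.2.trans_le (G.σ_le h)))).ne' this
    have e0 := sub_ne_zero.mpr e
    have e2 := MA.Dv.smul (MA.Gr.comp (d _) (MA.Gr.log ((hasDerivAt_id' (MA.pl p)).sub_const 1) e0))
      (MA.Dv.area (G.an h (MA.pl p) ⟨p.1, p.2, hp.1.1.le, Ioo_subset_Icc_self hp.2, rfl⟩ e))
    refine e2.congr ?_
    have e1 := norm_ne_zero_iff.mpr e0
    simp only [D, az, bz, norm_mul, mul_pow]
    generalize MA.pl p - 1 = w at *
    rw [one_div, inv_def, mul_assoc, re_ofReal_mul, mul_right_comm, re_mul_ofReal, ← map_mul, conj_re,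
      ← Complex.sq_norm, mul_left_comm w]
    field_simp
  · by_cases e : u = 1
    · simp [D, e]
    · simp [D, z _ (zs u hu e)]

theorem green {S : Finset G.H} {s t : ℝ} (hst : s < t) (hC : Cl G S t) :
    ∑ h ∈ S, bb G h t - ∑ h ∈ S, bb G h s = 2 * ∫ y in s..t, ∑ h ∈ S, Sk.aa G h y := by
  have ca : ∀ h, Continuous (Sk.aa G h) := fun h => funext (aa_eq G h) ▸
    lev_cont (G.σ_pos h) (G.σ_le h) fun u hu e => az_cont (G.an h u hu e)
  have cb : ∀ h, Continuous (bb G h) := fun h =>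
    lev_cont (G.σ_pos h) (G.σ_le h) fun u hu e => bz_cont (G.an h u hu e)
  refine dbr (b := fun y => ∑ h ∈ S, bb G h y) (by fun_prop) (by fun_prop) hst
    fun θ θ' c d z => ?_
  have c0 : Continuous θ := continuous_iff_continuousAt.mpr fun y => (d y).continuousAt
  have hc := cell G hst.le c d z
  have R0 : 0 ≤ 1 + Real.exp t := by positivity
  have ii : ∀ h, ∀ φ ∈ Icc 0 (G.σ h), IntervalIntegrable (fun x =>
      (exp (φ * I) * JJ θ (G.Z h) (MA.pl (x, φ))).im) volume 0 (1 + Real.exp t) := fun h φ hφ =>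
    (continuous_im.comp_continuousOn (continuousOn_const.mul ((hc h).1.comp
      (f := fun x => (x, φ)) (by fun_prop) fun x hx => ⟨hx, hφ⟩))).intervalIntegrable_of_Icc R0
  simp only [Finset.mul_sum, ← Finset.sum_add_distrib]
  rw [intervalIntegral.integral_finsetSum fun h _ => Continuous.intervalIntegrable (by fun_prop) _ _,
    Finset.sum_congr rfl fun h _ => (hc h).2, Finset.sum_sub_distrib,
    ← intervalIntegral.integral_finsetSum fun h _ => ii h 0 ⟨le_rfl, (G.σ_pos h).le⟩,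
    ← intervalIntegral.integral_finsetSum fun h _ => ii h _ ⟨(G.σ_pos h).le, le_rfl⟩,
    intervalIntegral.integral_congr (g := fun _ => 0) fun x hx => ?_, intervalIntegral.integral_zero,
    intervalIntegral.integral_congr (g := fun _ => 0) fun x hx => ?_, intervalIntegral.integral_zero,
    sub_zero]
  all_goals replace hx := (uIcc_of_le R0 ▸ hx).1
  · refine inv_sum G.bis_inv fun h hh e => ⟨(hC h hh).2.2 (touch_of (G.σ_le h) hx ?_), ?_⟩
    · refine not_le.mp fun a => e ?_
      simp [JJ, MA.pl, z _ fun b => b.2.not_ge ((Real.le_log_iff_exp_le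
        ((Real.exp_pos t).trans_le a)).mpr a)]
    · rw [G.σ_bis]
      exact flip _ (G.an_bis h hx) (G.bis_germ h hx)
  · have a : ∀ h, x ≠ 1 → AnalyticAt ℂ (G.Z h) (x * exp ((0 : ℝ) * I)) := fun h e => by
      simpa using G.an h x (G.mem_real h hx) (by exact_mod_cast e)
    rcases lt_trichotomy x 1 with b | rfl | b
    · exact inv_sum G.rad_inv fun h hh _ => ⟨(hC h hh).1,
        flip _ (a h b.ne) (by simpa using G.rad_germ h hx b)⟩
    · simp [JJ, MA.pl, der_one]
    · exact inv_sum G.slit_inv fun h hh _ => ⟨(hC h hh).2.1,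
        flip _ (a h b.ne') (by simpa using G.slit_germ h b)⟩

end Pool.Agent.Lib.MP_f225de_an.AR
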