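import Pool.Agent.Lib.MP_f225de_an.GE3

set_option autoImplicit false

open MeasureTheory Set Filter Topology Polynomial Complex
open scoped ENNReal NNReal Real ComplexConjugate

namespace Pool.Agent.Lib.MP_f225de_an.E

theorem geo {n : ℕ} (hn : 2 ≤ n) {p : ℂ[X]} (hp : p.Monic) (hd : p.natDegree = n)
    {a : Fin (n - 1) → ℂ} (ha : ∀ k, p.derivative.eval (a k) = 0) (h1 : ∀ k, ‖p.eval (a k)‖ = 1)
    (hi : Function.Injective fun k => p.eval (a k)) : Nonempty (Geo n p) := by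
  classical
  have hn1 : 1 ≤ n := by omega
  obtain ⟨c1, c2⟩ := crit_prod hn1 hp hd ha fun k l e => hi (congrArg p.eval e)
  have h2 : ∀ z, p.derivative.eval z = 0 → ‖p.eval z‖ = 1 := fun z hz => by
    obtain ⟨k, rfl⟩ := c1 z hz
    exact h1 k
  obtain ⟨g, ζ, g1, k1, g3, k3, g4, z, z1, z3⟩ := sides hn1 hp hd h2
  have g5 : ∀ j (w : ℂ), w.re ≤ 0 → p.eval (g j w) = exp w := fun j w hw =>
    (root_of (g3 w hw) _).mpr ⟨j, rfl⟩
  have k5 : ∀ j (w : ℂ), 0 ≤ w.re → p.eval (ζ j w) = exp w := fun j w hw =>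
    (root_of (k3 w hw) _).mpr ⟨j, rfl⟩
  have per : ∀ j (w w' : ℂ), w.re ≤ 0 → exp w' = exp w → g j w' = g j w := fun j w w' hw e => by
    simpa using g4 j (w' - w) w (by rw [exp_sub, e, div_self (exp_ne_zero _)]) hw
  have cg : ∀ j, Continuous fun y : ℝ => g j (y * I) := fun j =>
    (g1 j).comp_continuous (by fun_prop) fun y => by simp
  have cz : ∀ j, Continuous fun y : ℝ => ζ j (y * I) := fun j =>
    (k1 j).comp_continuous (by fun_prop) fun y => by simp
  obtain ⟨θ, hθ, hθ'⟩ : ∃ θ : Fin (n - 1) → ℝ, (∀ k, exp (θ k * I) = p.eval (a k)) ∧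
      ∀ k, θ k ∈ Ioc (-π) π := ⟨fun k => arg (p.eval (a k)), fun k => by
    simpa [h1 k] using norm_mul_exp_arg_mul_I (p.eval (a k)), fun k => arg_mem_Ioc _⟩
  have hθi : ∀ k l, exp (θ k * I) = exp (θ l * I) → k = l := fun k l e =>
    hi ((hθ k).symm.trans (e.trans (hθ l)))
  have adj : ∀ j (y : ℝ), p.derivative.eval (g j (y * I)) = 0 → ∃ k, g j (y * I) = a k ∧
      g j (θ k * I) = a k ∧ exp (y * I) = exp (θ k * I) := fun j y h => by
    obtain ⟨k, e⟩ := c1 _ h
    have := g5 j (y * I) (by simp)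
    rw [e, ← hθ] at this
    exact ⟨k, e, (per j _ _ (by simp) this).trans e, this.symm⟩
  let T : Fin n → Finset ℝ := fun j => (Finset.univ.filter fun k => g j (θ k * I) = a k).image θ
  have hT : ∀ j x, x ∈ T j ↔ ∃ k, g j (θ k * I) = a k ∧ θ k = x := by simp [T]
  have hne : ∀ j, (T j).Nonempty := fun j => by
    by_contra c
    have : Nontrivial (Fin n) := Fin.nontrivial_iff_two_le.mpr hn
    obtain ⟨j', e⟩ := exists_ne j
    refine e (conn_pt hn1 hd h2 g1 k1 g3 k3 g4 (· = j) (j₀ := j) rfl (fun i i' y b d => ?_) j')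
    subst d
    refine (rep_root (g3 _ (by simp)) b fun f => ?_).symm
    obtain ⟨k, -, f1, -⟩ := adj i y f
    exact c ⟨_, (hT _ _).mpr ⟨k, f1, rfl⟩⟩
  choose m t t1 t2 t3 t4 t5 using fun j => cyc (T j) (hne j) fun x hx => by
    obtain ⟨k, -, rfl⟩ := (hT j x).mp hx
    exact hθ' k
  let E := Σ j, Fin (m j + 1)
  let ts : E → ℝ := fun e => t e.1 e.2
  let te : E → ℝ := fun e => t e.1 (e.2 + 1)
  have hlt : ∀ e, ts e < te e := fun e => t1 e.1 (Nat.lt_succ_self _)
  choose ns n1 n2 using fun e : E => (hT e.1 (ts e)).mp (t2 e.1 e.2 (Nat.le_of_lt_succ e.2.2))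
  have nex : ∀ j k, g j (θ k * I) = a k → ∃ i, ns ⟨j, i⟩ = k := fun j k h => by
    obtain ⟨i, b, c⟩ := t3 j _ ((hT j _).mpr ⟨k, h, rfl⟩)
    exact ⟨⟨i, Nat.lt_succ_of_le b⟩, hθi _ _ (by rw [n2, ← c])⟩
  have ninj : ∀ j i i', ns ⟨j, i⟩ = ns ⟨j, i'⟩ → i = i' := fun j i i' h =>
    Fin.ext ((t1 j).injective ((n2 ⟨j, i⟩).symm.trans (h ▸ n2 ⟨j, i'⟩)))
  let nx : E ≃ E := Equiv.sigmaCongrRight fun j => finRotate (m j + 1)
  have hte : ∀ e, exp (te e * I) = exp (ts (nx e) * I) := by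
    rintro ⟨j, i, hi⟩
    show exp (t j (i + 1) * I) = exp (t j (finRotate _ ⟨i, hi⟩) * I)
    rcases (Nat.le_of_lt_succ hi).lt_or_eq with b | rfl
    · rw [finRotate_of_lt b]
    · rw [finRotate_last', t4]
      simp [add_mul, exp_add]
  have reg : ∀ e, ∀ y ∈ Ioo (ts e) (te e), p.derivative.eval (g e.1 (y * I)) ≠ 0 :=
    fun e y hy h => by
      obtain ⟨k, -, b, c⟩ := adj _ _ h
      exact t5 e.1 e.2 (Nat.le_of_lt_succ e.2.2) _ ((hT _ _).mpr ⟨k, b, rfl⟩) y hy c
  have hm : ∀ j (y : ℝ), ∃ l, g j (y * I) = ζ l (y * I) := fun j y =>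
    (root_of (k3 _ (by simp)) _).mp (g5 j _ (by simp))
  have hl : ∀ e, ∃ l, ∀ y ∈ Icc (ts e) (te e), g e.1 (y * I) = ζ l (y * I) := fun e => by
    obtain ⟨x, hx⟩ := nonempty_Ioo.mpr (hlt e)
    obtain ⟨l, b⟩ := hm e.1 x
    refine ⟨l, EqOn.of_subset_closure (fun y hy => ?_) (cg _).continuousOn (cz _).continuousOn
      Ioo_subset_Icc_self (closure_Ioo (hlt e).ne).ge⟩
    obtain ⟨i, rfl, c⟩ := cover isPreconnected_Ioo (fun _ => (cg e.1).continuousOn)
      (fun i => (cz i).continuousOn) (· = l) (fun y _ => hm e.1 y)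
      (fun y hy i i' c d f => f ▸ (rep_root (k3 _ (by simp)) (c.symm.trans d)
        (c ▸ reg e y hy)).symm) hx b rfl y hy
    exact c
  choose l hl using hl
  have hsl : ∀ e, ∃ e', ns (nx e') = ns e ∧
      ∀ w : ℂ, 0 ≤ w.re → ζ (l e') (w + te e' * I) = ζ (l e) (w + ts e * I) := fun e => by
    obtain ⟨j, hj⟩ := frequently_exists.mp (Eventually.frequently (f := 𝓝[<] ts e)
      (.of_forall fun y : ℝ => (root_of (g3 (y * I) (by simp)) _).mp (k5 (l e) _ (by simp))))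
    have b : ζ (l e) (ts e * I) = g j (ts e * I) := tendsto_nhds_unique_of_frequently_eq
      (((cz _).tendsto _).mono_left nhdsWithin_le_nhds)
      (((cg _).tendsto _).mono_left nhdsWithin_le_nhds) hj
    rw [← hl e _ (left_mem_Icc.mpr (hlt e).le), ← n2, n1] at b
    obtain ⟨i, c⟩ := nex j _ b.symm
    obtain ⟨e', d⟩ := nx.surjective ⟨j, i⟩
    obtain rfl : e'.1 = j := congrArg Sigma.fst d
    have f : exp (((te e' - ts e : ℝ) : ℂ) * I) = 1 := by
      rw [ofReal_sub, sub_mul, exp_sub, hte, d, ← n2, c, n2, div_self (exp_ne_zero _)]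
    obtain ⟨l', f'⟩ := shift h2 k1 k3 (l e') f
    obtain ⟨y, y1, y2⟩ := (hj.and_eventually (Ioo_mem_nhdsLT
      (show ts e - (te e' - ts e') < ts e by linarith [hlt e']))).exists
    have y3 : y + (te e' - ts e) ∈ Ioo (ts e') (te e') := ⟨by linarith [y2.1], by linarith [y2.2]⟩
    have y4 := hl e' _ (Ioo_subset_Icc_self y3)
    have y5 := reg e' _ y3
    rw [ofReal_add, add_mul, g4 _ _ _ f (by simp), ← y1] at y4 y5
    rw [f' _ (by simp)] at y4
    refine ⟨e', d ▸ c, fun w hw => ?_⟩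
    rw [rep_root (k3 _ (by simp)) y4 y5, ← f' _ (by simpa using hw)]
    congr 1
    push_cast
    ring
  choose sl s1 s2 using hsl
  have sinj : Function.Injective sl := by
    rintro ⟨j, i⟩ ⟨j', i'⟩ h
    have b : ns ⟨j, i⟩ = ns ⟨j', i'⟩ := by rw [← s1, h, s1]
    have c : ts ⟨j, i⟩ = ts ⟨j', i'⟩ := by rw [← n2, b, n2]
    have d := (s2 ⟨j, i⟩ 1 (by simp)).symm
    rw [h, s2 _ 1 (by simp), c] at d
    have f := rep_root (k3 _ (by simp)) d (reg_of h2 (k5 _ _ (by simp)) (by simp))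
    obtain ⟨y, y1, y2⟩ := exists_between (lt_min (c ▸ hlt ⟨j, i⟩) (hlt ⟨j', i'⟩))
    rw [lt_min_iff] at y2
    obtain rfl : j = j' := rep_root (g3 (y * I) (by simp))
      ((hl ⟨j, i⟩ y ⟨c ▸ y1.le, y2.1.le⟩).trans (f ▸ (hl ⟨j', i'⟩ y ⟨y1.le, y2.2.le⟩).symm))
      (reg ⟨j, i⟩ y ⟨c ▸ y1, y2.1⟩)
    rw [ninj _ _ _ b]
  let sq : E ≃ E := (Equiv.ofBijective sl (Finite.injective_iff_bijective.mp sinj)).symm
  have hsq : ∀ e, sl (sq e) = e := fun e => Equiv.ofBijective_apply_symm_apply _ _ e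
  let σ : E × Bool → ℝ := fun h => (te h.1 - ts h.1) / 2
  let ang : E × Bool → ℝ := fun h => if h.2 then ts h.1 else te h.1
  let nd : E × Bool → Fin (n - 1) := fun h => if h.2 then ns h.1 else ns (nx h.1)
  let Z : E × Bool → ℂ → ℂ := fun h => Zf h.2 (g h.1.1) (ζ (l h.1)) (z h.1.1 0) (ang h)
  have σ0 : ∀ h, 0 < σ h := fun h => half_pos (sub_pos.mpr (hlt _))
  have σ1 : ∀ h, σ h ≤ π := fun h => by
    have := (t1 h.1.1).monotone (Nat.succ_le_of_lt h.1.2.2)
    have := (t1 h.1.1).monotone (Nat.zero_le h.1.2)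
    simp only [σ, te, ts]
    linarith [t4 h.1.1]
  have a1 : ∀ h, exp (ang h * I) = exp (θ (nd h) * I) := by
    rintro ⟨e, _ | _⟩ <;> simp [ang, nd, n2, hte]
  have a2 : ∀ h, g h.1.1 (ang h * I) = a (nd h) := fun h => by
    rw [per _ _ _ (by simp) (a1 h)]
    obtain ⟨e, _ | _⟩ := h
    exacts [n1 (nx e), n1 e]
  have a3 : ∀ h, Z h 1 = kp h.2 (a (nd h)) := fun h => by
    have := Zf_real h.2 (g h.1.1) (ζ (l h.1)) (z h.1.1 0) (ang h) one_pos
    rwa [ofReal_one, Real.log_one, ofReal_zero, zero_add, Yf, if_pos (by simp), a2] at this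
  have a4 : ∀ h : E × Bool, ∀ y : ℝ, kp h.2 (y * I) + ang h * I =
      ((if h.2 then y + ts h.1 else te h.1 - y : ℝ) : ℂ) * I := by
    rintro ⟨e, _ | _⟩ y <;> simp [kp, ang] <;> ring
  have a5 : ∀ h : E × Bool, ∀ y ∈ Ioc 0 (σ h),
      (if h.2 then y + ts h.1 else te h.1 - y : ℝ) ∈ Ioo (ts h.1) (te h.1) := by
    rintro ⟨e, _ | _⟩ y ⟨b, c⟩ <;> simp only [σ] at c <;> simp <;> constructor <;> linarith
  have hZ := fun h : E × Bool => Zf_an h2 (g1 h.1.1) (k1 (l h.1)) (g5 _) (k5 _) (z1 _).1 (z1 _).2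
    (z3 _) h.2 (θ := ang h) (σ1 h) (hl _ _ (by
      obtain ⟨e, _ | _⟩ := h <;> simp [ang, (hlt e).le])) fun y hy => by
      rw [a4]
      exact ⟨hl _ _ (Ioo_subset_Icc_self (a5 h y hy)), reg _ _ (a5 h y hy)⟩
  have sy : ∀ (x : ℂ) (u v : E × Bool), Z v x = conj (Z u x) → Z u x = conj (Z v x) :=
    fun x u v h => by simp [h]
  have hb : ∀ h : E × Bool, (iv (Equiv.refl E) h).1 = h.1 := by rintro ⟨e, _ | _⟩ <;> rfl
  refine ⟨{
    H := E × Bool, σ := σ, q := fun h => qf h.2 p (ang h), Z := Z, sg := Prod.snd, nd := nd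
    pt := fun h => h.1.1, rad := iv nx, slit := iv sq, bis := iv (Equiv.refl E)
    rad_inv := iv_inv _, slit_inv := iv_inv _, bis_inv := iv_inv _
    sg_rad := iv_sg _, sg_slit := iv_sg _, sg_bis := iv_sg _
    nd_rad := iv_ind (R := fun u v => nd v = nd u) _ (fun e => rfl) fun _ _ => Eq.symm
    nd_slit := iv_ind (R := fun u v => nd v = nd u) _
      (fun e => by simpa [nd, hsq] using (s1 (sq e)).symm) fun _ _ => Eq.symm
    pt_rad := iv_ind (R := fun u v : E × Bool => v.1.1 = u.1.1) _ (fun e => rfl) fun _ _ => Eq.symm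
    pt_bis := fun h => by rw [hb]
    σ_bis := fun h => by simp only [σ, hb]
    σ_pos := σ0, σ_le := σ1
    q_deg := fun h => by rw [qf, natDegree_map, natDegree_C_mul (exp_ne_zero _), hd]
    q_lc := fun h => by
      rw [qf, leadingCoeff_map, kp_norm, leadingCoeff_mul, hp.leadingCoeff, leadingCoeff_C]
      simp [norm_exp]
    q_Z := fun h => (hZ h).1, an := fun h => (hZ h).2.2, cont := fun h => (hZ h).2.1
    crit := fun h x hx => ?_
    q_der := fun h => by rw [a3, qf_der, qf_eval, ha, mul_zero, map_zero]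
    q_der2 := fun h => by
      rw [a3, qf_der, qf_der, qf_eval, _root_.map_ne_zero]
      exact mul_ne_zero (exp_ne_zero _) (c2 _)
    rad_eq := fun h x x0 x1 => iv_ind (R := fun u v => Z v x = conj (Z u x)) _ (fun e => ?_)
      (sy x) h
    slit_eq := fun h x x1 => iv_ind (R := fun u v => Z v x = conj (Z u x)) _ (fun e => ?_)
      (sy x) h
    bis_eq := fun h ρ h0 => ?_
    len := ?_, sum_pt := fun j => ?_, card_nd := fun k => ?_, conn := fun L hL S hS => ?_ }⟩
  · rw [← kp_kp h.2 x, qf_der, qf_eval, map_eq_zero, mul_eq_zero] at hx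
    obtain ⟨k, e⟩ := c1 _ (hx.resolve_left (exp_ne_zero _))
    rw [← kp_kp h.2 x, qf_eval, e, kp_norm, norm_mul, h1, a3, map_eq_one_iff _ (kp _).injective]
    refine ⟨by simp [norm_exp], fun b => ?_⟩
    rw [exp_neg, a1, ← hθ, inv_mul_eq_one₀ (exp_ne_zero _)] at b
    rw [hθi _ _ b]
  · rcases x0.eq_or_lt with rfl | x0
    · simp [Z, Zf, kp]
      rfl
    · have := Real.log_nonpos x0.le x1
      simp only [Z, Zf_real _ _ _ _ _ x0, Yf, ang, kp]
      simp [this]
      exact (per _ _ _ (by simpa) (by rw [exp_add, exp_add, hte])).symm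
  · have := Real.log_pos x1
    simp only [Z, Zf_real _ _ _ _ _ (one_pos.trans x1), Yf, ang, kp]
    simp [this.not_ge]
    simpa [hsq] using (s2 (sq e) (Real.log x) (by simpa using this.le)).symm
  · have key : ∀ e : E, ∀ s : ℝ, s = σ (e, true) →
        Z (e, true) (ρ * exp (s * I)) = conj (Z (e, false) (ρ * exp (s * I))) := fun e s hs => by
      rcases h0.eq_or_lt with rfl | h0
      · simp [Z, Zf, kp]
      · have c : s ∈ Icc 0 π := hs ▸ ⟨(σ0 _).le, σ1 _⟩
        simp only [Z, Zf_polar _ _ _ _ _ h0 c, a4 (e, true), a4 (e, false)]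
        simp only [kp, if_true, Bool.false_eq_true, if_false, RingHom.id_apply, conj_conj]
        rw [show s + ts e = te e - s by rw [hs]; simp only [σ]; ring]
    obtain ⟨e, _ | _⟩ := h
    exacts [key e _ rfl, sy _ _ _ (key e _ rfl)]
  · let f : Fin n → ℝ → ℝ≥0∞ := fun j y => ‖p.derivative.eval (g j (y * I))‖ₑ⁻¹
    have e1 : Len p = ∑ j, ∫⁻ y in Ioc 0 (2 * π), f j y := by
      rw [← lintegral_finsetSum _ (f := f) fun j _ =>
        (p.derivative.continuous.comp (cg j)).measurable.enorm.inv]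
      refine lintegral_congr fun y => ?_
      rw [g3 _ (by simp), ff_prod, ← g3 _ (by simp)]
      simp [f]
    have e2 : ∀ h : E × Bool, ∫⁻ y in Ioo 0 (σ h),
        ‖(qf h.2 p (ang h)).derivative.eval (Z h (exp (y * I)))‖ₑ⁻¹ =
        ∫⁻ y in Ioo 0 (σ h), f h.1.1 (if h.2 then y + ts h.1 else te h.1 - y) := fun h =>
      setLIntegral_congr_fun measurableSet_Ioo fun y hy => by
        have := Zf_polar h.2 (g h.1.1) (ζ (l h.1)) (z h.1.1 0) (ang h) one_pos
          (⟨hy.1.le, hy.2.le.trans (σ1 h)⟩ : y ∈ Icc 0 π)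
        rw [ofReal_one, one_mul, Real.log_one, ofReal_zero, zero_add, a4, Yf,
          if_pos (by simp)] at this
        simp only [Z, f, this, qf_der, qf_eval, ← ofReal_norm, kp_norm, norm_mul, norm_exp]
        simp
    simp only [e2]
    rw [e1, Fintype.sum_prod_type, Fintype.sum_sigma]
    refine Finset.sum_le_sum fun j _ => ?_
    have e3 : ∀ y : ℝ, f j y = ‖p.derivative.eval (g j (log (exp (y * I))))‖ₑ⁻¹ := fun y => by
      rw [per j (y * I) _ (by simp) (exp_log (exp_ne_zero _))]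
    have := window (fun u => ‖p.derivative.eval (g j (log u))‖ₑ⁻¹) (t j 0)
    simp only [← e3] at this
    rw [← this, ← t4]
    refine (lint_split _ _ _).trans (le_of_eq ?_)
    rw [Finset.sum_range]
    simp [σ, ts, te]
  · rw [Finset.sum_filter, Fintype.sum_prod_type, Fintype.sum_sigma, Finset.sum_eq_single j
      (fun i _ b => by simp [b]) (by simp)]
    have := Finset.sum_range_sub (t j) (m j + 1)
    rw [Finset.sum_range, t4, add_sub_cancel_left] at this
    rw [← this]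
    simp [σ, ts, te, mul_div_cancel₀]
  · have e1 : ∑ e, (if ns e = k then 1 else 0) = 2 := by
      rw [← Finset.card_filter, ← card_two (hθ k ▸ g3 (θ k * I) (by simp)) (ha k) (c2 k)]
      refine Finset.card_bij (fun e _ => e.1) (fun e he => ?_) ?_ fun j hj => ?_
      · simpa [← (Finset.mem_filter.mp he).2] using n1 e
      · rintro ⟨j, i⟩ b ⟨j', i'⟩ c (rfl : j = j')
        rw [ninj _ _ _ ((Finset.mem_filter.mp b).2.trans (Finset.mem_filter.mp c).2.symm)]
      · obtain ⟨i, b⟩ := nex j k (Finset.mem_filter.mp hj).2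
        exact ⟨⟨j, i⟩, by simpa using b, rfl⟩
    rw [Finset.card_filter, Fintype.sum_prod_type]
    simp only [Fintype.sum_bool, nd, if_true, Bool.false_eq_true, if_false, Finset.sum_add_distrib]
    rw [nx.sum_comp fun e => if ns e = k then 1 else 0, e1]
  · have e1 : ∀ j i i', S (ns ⟨j, i⟩) → S (ns ⟨j, i'⟩) := fun j i i' => rot_conn
      (Q := fun i => S (ns ⟨j, i⟩)) (B := fun i => L (⟨j, i⟩, true) ∨ L (⟨j, i⟩, false))
      (fun u v b c => by
        have : ∀ x y, L (⟨j, u⟩, x) → L (⟨j, v⟩, y) → u = v := fun x y b c => by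
          refine sigma_mk_injective (β := fun j => Fin (m j + 1)) (i := j) ?_
          rcases hL _ _ b c rfl with d | d
          · exact (congrArg Prod.fst d).symm
          · exact ((congrArg Prod.fst d).trans (hb _)).symm
        rcases b with b | b <;> rcases c with c | c <;> exact this _ _ b c)
      fun u b => ⟨hS _ fun c => b (.inl c), hS (⟨j, u⟩, false) fun c => b (.inr c)⟩
    have e2 : ∀ k, ∃ e, ns e = k := fun k => by
      obtain ⟨j, b⟩ := (root_of (g3 (θ k * I) (by simp)) _).mp (hθ k).symm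
      exact ⟨_, (nex j k b.symm).choose_spec⟩
    intro k k' b
    obtain ⟨⟨j, i⟩, rfl⟩ := e2 k
    obtain ⟨⟨j', i'⟩, rfl⟩ := e2 k'
    refine conn_pt hn1 hd h2 g1 k1 g3 k3 g4 (fun j => ∀ i, S (ns ⟨j, i⟩)) (fun i' => e1 _ _ _ b)
      (fun u v y c d => ?_) j' i'
    by_cases f : p.derivative.eval (g u (y * I)) = 0
    · obtain ⟨k, f0, f1, f2⟩ := adj u y f
      obtain ⟨i1, rfl⟩ := nex u k f1
      obtain ⟨i2, f3⟩ := nex v _ ((per v _ _ (by simp) f2.symm).trans (c.symm.trans f0))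
      exact fun i' => e1 _ _ _ (f3 ▸ d i1)
    · exact rep_root (g3 _ (by simp)) c f ▸ d

end Pool.Agent.Lib.MP_f225de_an.E
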