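import Pool.Agent.Lib.MP_f225de_an.AR4
import Pool.Agent.Lib.MP_f225de_an.GE4

set_option autoImplicit false

open MeasureTheory Set Filter Topology Polynomial Complex Bornology Asymptotics
open scoped ENNReal NNReal Real ComplexConjugate

namespace Pool.Agent.Lib.MP_f225de_an.AR

open E

lemma lev_bd {σ y C : ℝ} (h0 : 0 < σ) {g : ℂ → ℝ}
    (hC : ∀ u ∈ Sec σ, u ≠ 1 → ‖u - 1‖ = Real.exp y → ‖g u‖ ≤ C) :
    ‖∫ ψ in Sk.Arc σ (Real.exp y), g (1 + Real.exp y * exp (ψ * I))‖ ≤ C * (2 * π * Sk.lam σ y) := by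
  rw [Sk.lam, mul_div_cancel₀ _ (by positivity)]
  refine norm_setIntegral_le_of_norm_le_const
    ((measure_mono fun _ h => h.1).trans_lt measure_Ioo_lt_top) fun ψ h => ?_
  have := arc_sec h0 (Real.exp_pos y) (Ioo_subset_Icc_self h.1) h.2.le
  exact hC _ this.1 this.2 (norm_pt y ψ)

lemma lam_le {σ : ℝ} (h0 : 0 < σ) (h1 : σ ≤ π) (y : ℝ) : 2 * π * Sk.lam σ y ≤ π := by
  rw [Sk.lam, mul_div_cancel₀ _ (by positivity), arc_vol h0 h1 (Real.exp_pos y)]
  linarith [(f_ord h0 h1 (Real.exp_pos y)).2.1]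

lemma lam_top {σ : ℝ} (h0 : 0 < σ) (h1 : σ ≤ π) {κ : ℝ} (hκ : 1 < κ) :
    ∀ᶠ y in atTop, 2 * π * Sk.lam σ y ≤ κ * σ := by
  have := (Real.continuous_arcsin.tendsto' 0 0 Real.arcsin_zero).comp
    (Real.tendsto_exp_atTop.const_div_atTop (Real.sin σ))
  filter_upwards [this.eventually_le_const (mul_pos (sub_pos.mpr hκ) h0), eventually_ge_atTop 0]
    with y a b
  rw [Sk.lam, mul_div_cancel₀ _ (by positivity), arc_vol h0 h1 (Real.exp_pos y),
    (f_large h0 h1 (Real.one_le_exp b)).1, sub_self, add_zero]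
  exact (min_le_right _ _).trans (by simp only [Function.comp] at a; linarith)

variable {n : ℕ} {p : ℂ[X]} (G : Geo n p)

lemma aa_cont (h : G.H) : Continuous (Sk.aa G h) := funext (aa_eq G h) ▸
  lev_cont (G.σ_pos h) (G.σ_le h) fun u hu e => az_cont (G.an h u hu e)

lemma az_le (hn : 2 ≤ n) (h : G.H) :
    ∃ c, 0 ≤ c ∧ ∀ u ∈ Sec (G.σ h), u ≠ 1 → az (G.Z h) u ≤ c * ‖u - 1‖ := by
  obtain ⟨c, hc⟩ := MA.est1 G hn h
  refine ⟨|c|, abs_nonneg c, fun u hu e => ?_⟩
  rw [az, norm_mul, mul_pow, sq ‖u - 1‖, mul_assoc, mul_comm]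
  exact mul_le_mul_of_nonneg_right ((hc u hu e).trans (le_abs_self c)) (norm_nonneg _)

lemma aa_int (hn : 2 ≤ n) (h : G.H) (y : ℝ) : IntegrableOn (Sk.aa G h) (Iic y) := by
  obtain ⟨c, c0, hc⟩ := az_le G hn h
  refine (((integrableOn_exp_Iic y).const_mul c).mul_const π).mono'
    (aa_cont G h).aestronglyMeasurable (.of_forall fun t => ?_)
  rw [aa_eq]
  exact (lev_bd (G.σ_pos h) fun u hu e a => (Real.norm_of_nonneg (sq_nonneg _)).trans_le
    (a ▸ hc u hu e)).trans (mul_le_mul_of_nonneg_left (lam_le (G.σ_pos h) (G.σ_le h) t)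
      (by positivity))

lemma bb_bot (hn : 2 ≤ n) (h : G.H) : Tendsto (bb G h) atBot (𝓝 0) := by
  obtain ⟨c, c0, hc⟩ := az_le G hn h
  obtain ⟨δ, δ0, hδ⟩ := Metric.eventually_nhds_iff.mp
    ((G.cont h).norm.eventually_lt_const (lt_add_one _))
  refine squeeze_zero_norm' (a := fun y => (‖G.Z h 1‖ + 1) * √(c * Real.exp y) * π) ?_ ?_
  · filter_upwards [Real.tendsto_exp_atBot.eventually_lt_const δ0] with y hy
    refine (lev_bd (G.σ_pos h) (g := bz (G.Z h)) fun u hu e a => (abs_re_le_norm _).trans ?_).trans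
      (mul_le_mul_of_nonneg_left (lam_le (G.σ_pos h) (G.σ_le h) y)
        (by positivity : 0 ≤ (‖G.Z h 1‖ + 1) * √(c * Real.exp y)))
    rw [norm_mul, RCLike.norm_conj]
    exact mul_le_mul (hδ (by rwa [dist_eq_norm, a])).le (Real.le_sqrt_of_sq_le (a ▸ hc u hu e))
      (norm_nonneg _) (by positivity)
  · simpa using (((Real.tendsto_exp_atBot.const_mul c).sqrt).const_mul (‖G.Z h 1‖ + 1)).mul_const π

theorem iso (hn : 2 ≤ n) {S : Finset G.H} {t : ℝ} (hC : Cl G S t) :
    2 * ∑ h ∈ S, ∫ y in Iic t, Sk.aa G h y ≤ (∑ h ∈ S, Sk.lam (G.σ h) t) * ∑ h ∈ S, Sk.aa G h t := by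
  refine le_of_eq_of_le (tendsto_nhds_unique_of_eventuallyEq
    ((tendsto_finsetSum S fun h _ =>
      intervalIntegral_tendsto_integral_Iic t (aa_int G hn h t) tendsto_id).const_mul 2)
    (f := fun s => 2 * ∑ h ∈ S, ∫ y in s..t, Sk.aa G h y) (l := atBot)
    (by simpa using (tendsto_finsetSum S fun h _ => bb_bot G hn h).const_sub (∑ h ∈ S, bb G h t))
    ((eventually_lt_atBot t).mono fun s hs => ?_)) (level G hC)
  rw [green G hs hC, intervalIntegral.integral_finsetSum fun h _ =>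
    (aa_cont G h).intervalIntegrable _ _]

lemma far (hn : 2 ≤ n) (h : G.H) {κ : ℝ} (hκ : 1 < κ) :
    ∀ᶠ y in atTop, Sk.aa G h y ≤ (κ / n) ^ 2 * Real.exp (2 * y / n) * (2 * π * Sk.lam (G.σ h) y) := by
  have n0 : (0 : ℝ) < n := by positivity
  have e1 := isEquivalent_cobounded_leading_monomial (P := G.q h - C 1)
  have e2 := isEquivalent_cobounded_leading_monomial (P := (G.q h).derivative)
  rw [leadingCoeff_sub_of_degree_lt (degree_C_le.trans_lt (natDegree_pos_iff_degree_pos.mp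
    (by rw [G.q_deg]; omega))), natDegree_sub_C, G.q_deg] at e1
  rw [leadingCoeff_derivative, natDegree_derivative, G.q_deg] at e2
  have e3 : (fun z => n ^ n * (G.q h).leadingCoeff * (G.q h - C 1).eval z ^ (n - 1)) ~[cobounded ℂ]
      fun z => (G.q h).derivative.eval z ^ n := by
    refine (IsEquivalent.refl.mul (e1.pow (n - 1))).trans (.symm ((e2.pow n).congr_right
      (.of_forall fun z => ?_)))
    obtain ⟨m, rfl⟩ : ∃ m, n = m + 1 := ⟨n - 1, by omega⟩
    simp only [Pi.pow_apply, Pi.mul_apply, add_tsub_cancel_right]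
    ring
  obtain ⟨R, -, hR⟩ := hasBasis_cobounded_norm.eventually_iff.mp ((MA.Z_top G h).eventually
    (e3.isLittleO.def (sub_pos.mpr (one_lt_pow₀ hκ (by omega : n ≠ 0)))))
  filter_upwards [Real.tendsto_exp_atTop.eventually_ge_atTop (R + 1)] with y hy
  rw [aa_eq]
  refine (le_abs_self _).trans (lev_bd (G.σ_pos h) fun u hu e a => ?_)
  have b := hR (x := u) (by
    have := norm_sub_le u 1
    rw [norm_one] at this
    simp only [mem_ofPred_eq]
    linarith)
  have c := congrArg norm (G.der_mul h hu e)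
  have d := norm_sub_norm_le _ _ |>.trans b
  simp only [eval_sub, eval_C, G.q_Z, norm_mul, norm_pow, a, G.q_lc, norm_natCast, norm_one] at c d
  rw [show 2 * y / n = (2 : ℕ) * (y / n) by push_cast; ring, Real.exp_nat_mul, ← mul_pow, az,
    Real.norm_of_nonneg (sq_nonneg _), norm_mul, a]
  refine pow_le_pow_left₀ (by positivity) (le_of_pow_le_pow_left₀ (by omega : n ≠ 0)
    (by positivity) ?_) 2
  rw [mul_pow, mul_pow, ← Real.exp_nat_mul (y / n), mul_div_cancel₀ _ n0.ne', div_pow,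
    div_mul_eq_mul_div, le_div_iff₀ (by positivity), ← mul_pow_sub_one (by omega : n ≠ 0)]
  have f := mul_le_mul_of_nonneg_right d (show 0 ≤ Real.exp y * ‖deriv (G.Z h) u‖ ^ n by positivity)
  have g := congrArg (κ ^ n * Real.exp y * · ^ n) c
  simp only [mul_pow, one_pow] at g
  linarith

theorem area (hn : 2 ≤ n) : Sk.AreaSt n := fun p G => by
  refine ⟨aa_cont G, fun h y => integral_nonneg fun _ => sq_nonneg _, aa_int G hn,
    fun C y hC => iso G hn fun h hh => ?_, fun ε hε => ?_⟩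
  · have m : ∀ h, h ∈ (Sk.cmb G).cells C ↔ G.nd h ∈ C :=
      fun h => Finset.mem_filter.trans (and_iff_right (Finset.mem_univ _))
    have := (m h).mp hh
    exact ⟨(m _).mpr (by rwa [G.nd_rad]), (m _).mpr (by rwa [G.nd_slit]),
      fun a => (m _).mpr (hC h this a)⟩
  · change ∀ᶠ y in atTop, ∑ h : G.H, ∫ t in Iic y, Sk.aa G h t ≤ _
    have n0 : (0 : ℝ) < n := by positivity
    obtain ⟨κ, k1, k2⟩ : ∃ κ : ℝ, 1 < κ ∧ κ ^ 4 = 1 + ε :=
      ⟨(1 + ε) ^ ((4 : ℕ)⁻¹ : ℝ), Real.one_lt_rpow (by linarith) (by positivity),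
        Real.rpow_inv_natCast_pow (by positivity) four_ne_zero⟩
    have hs : ∑ h, G.σ h = n * (2 * π) := by
      rw [← Finset.sum_fiberwise _ G.pt]
      simp [G.sum_pt]
    filter_upwards [eventually_all.mpr fun h => far G hn h k1,
      eventually_all.mpr fun h => lam_top (G.σ_pos h) (G.σ_le h) k1] with y a b
    have c := iso G hn (S := Finset.univ) (t := y) fun h _ => by simp
    have d := Finset.sum_le_sum (s := Finset.univ) fun h _ => a h
    have e := Finset.sum_le_sum (s := Finset.univ) fun h _ => b h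
    simp only [← Finset.mul_sum, hs] at d e
    have f : 0 ≤ ∑ h, Sk.lam (G.σ h) y := Finset.sum_nonneg fun h _ => by
      rw [Sk.lam]; positivity
    generalize ∑ h, Sk.lam (G.σ h) y = L at *
    have g : L ≤ κ * n := le_of_mul_le_mul_left (by linarith) Real.two_pi_pos
    calc _ ≤ L * ((κ / n) ^ 2 * Real.exp (2 * y / n) * (2 * π * L)) / 2 := by
          linarith [mul_le_mul_of_nonneg_left d f]
      _ ≤ κ * n * ((κ / n) ^ 2 * Real.exp (2 * y / n) * (2 * π * (κ * n))) / 2 := by gcongr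
      _ = _ := by rw [← k2]; field_simp

theorem geoSt (hn : 2 ≤ n) : Sk.GeoSt n := fun _ hp hd _ => geo hn hp hd

end Pool.Agent.Lib.MP_f225de_an.AR
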