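import Mathlib

set_option autoImplicit false

namespace Pool.Agent.Lib.MP_f225de_an.Bx

/-- the scale of the fixed point numbers -/
noncomputable def SS : ℝ := 2 ^ 64

lemma SS_pos : 0 < SS := by unfold SS; positivity

/-- scalar operations of a straight line program -/
class Sc (α : Type) where
  nt : ℕ → α
  cst : ℕ → α
  sc : ℕ → α → α
  sz : ℤ → α → α
  ml : ℕ → α → α
  mz : ℤ → α → α
  dv : α → ℕ → α

noncomputable instance : Sc ℝ where
  nt n := n
  cst k := k / SS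
  sc k x := k / SS * x
  sz k x := k / SS * x
  ml n x := n * x
  mz n x := n * x
  dv x n := x / n

/-- affine form `a + b t₁ + c t₂ + d t₃ ± e` in fixed point; each coefficient is a difference -/
structure AF where
  a : ℕ
  A : ℕ
  b : ℕ
  B : ℕ
  c : ℕ
  C : ℕ
  d : ℕ
  D : ℕ
  e : ℕ

/-- absolute value of a difference -/
def ab (p n : ℕ) : ℕ := (p.sub n).add (n.sub p)

/-- shift by the scale -/
def sh (n : ℕ) : ℕ := n.shiftRight (nat_lit 64)

/-- sum of four products, shifted -/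
def q4 (a b c d e f g h : ℕ) : ℕ :=
  (((a.mul b).add (c.mul d)).add ((e.mul f).add (g.mul h))).shiftRight (nat_lit 64)

namespace AF

/-- radius without the first symbol -/
def rd (x : AF) : ℕ := ((ab x.c x.C).add (ab x.d x.D)).add x.e

/-- radius -/
def rad (x : AF) : ℕ := (ab x.b x.B).add x.rd

/-- modulus of the centre -/
def md (x : AF) : ℕ := ab x.a x.A

/-- positive part of the upper end -/
def hi (x : AF) : ℕ := (x.a.add x.rad).sub x.A

/-- positive part of the lower end -/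
def lo (x : AF) : ℕ := x.a.sub (x.A.add x.rad)

/-- negation -/
def neg (x : AF) : AF := ⟨x.A, x.a, x.B, x.b, x.C, x.c, x.D, x.d, x.e⟩

/-- sum -/
def add (x y : AF) : AF := ⟨x.a.add y.a, x.A.add y.A, x.b.add y.b, x.B.add y.B, x.c.add y.c,
  x.C.add y.C, x.d.add y.d, x.D.add y.D, x.e.add y.e⟩

/-- difference -/
def sub (x y : AF) : AF := ⟨x.a.add y.A, x.A.add y.a, x.b.add y.B, x.B.add y.b, x.c.add y.C,
  x.C.add y.c, x.d.add y.D, x.D.add y.d, x.e.add y.e⟩

/-- product -/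
def mul (x y : AF) : AF := ⟨sh ((x.a.mul y.a).add (x.A.mul y.A)), sh ((x.a.mul y.A).add (x.A.mul y.a)),
  q4 x.a y.b x.A y.B y.a x.b y.A x.B, q4 x.a y.B x.A y.b y.a x.B y.A x.b,
  q4 x.a y.c x.A y.C y.a x.c y.A x.C, q4 x.a y.C x.A y.c y.a x.C y.A x.c,
  q4 x.a y.d x.A y.D y.a x.d y.A x.D, q4 x.a y.D x.A y.d y.a x.D y.A x.d,
  (sh (((x.md.mul y.e).add (y.md.mul x.e)).add (x.rad.mul y.rad))).add (nat_lit 5)⟩

/-- product with `k / 2^64` -/
def sc (k : ℕ) (x : AF) : AF := ⟨sh (k.mul x.a), sh (k.mul x.A), sh (k.mul x.b), sh (k.mul x.B),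
  sh (k.mul x.c), sh (k.mul x.C), sh (k.mul x.d), sh (k.mul x.D), (sh (k.mul x.e)).add (nat_lit 5)⟩

/-- product with a natural number -/
def ml (n : ℕ) (x : AF) : AF := ⟨n.mul x.a, n.mul x.A, n.mul x.b, n.mul x.B, n.mul x.c, n.mul x.C,
  n.mul x.d, n.mul x.D, n.mul x.e⟩

instance : Add AF := ⟨add⟩

instance : Sub AF := ⟨sub⟩

instance : Mul AF := ⟨mul⟩

instance : Sc AF where
  nt n := ⟨n.shiftLeft (nat_lit 64), 0, 0, 0, 0, 0, 0, 0, 0⟩
  cst k := ⟨k, 0, 0, 0, 0, 0, 0, 0, 0⟩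
  sc := sc
  sz k x := match k with
    | .ofNat k => sc k x
    | .negSucc k => (sc k.succ x).neg
  ml := ml
  mz k x := match k with
    | .ofNat k => ml k x
    | .negSucc k => (ml k.succ x).neg
  dv x n := ⟨x.a.div n, x.A.div n, x.b.div n, x.B.div n, x.c.div n, x.C.div n, x.d.div n,
    x.D.div n, (x.e.div n).add (nat_lit 5)⟩

/-- reciprocal of a positive form -/
def inv (x : AF) : AF :=
  let i : ℕ := Nat.div 340282366920938463463374607431768211456 (x.a.sub x.A)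
  let p : AF := sc i x
  let w : AF := Sc.nt 1 - p
  let h : ℕ := (w.md + w.rad) * (w.md + w.rad) / (2 * x.lo) + 1
  (⟨2 * i + h, 0, 0, 0, 0, 0, 0, 0, h⟩ : AF) - sc i p

end AF

/-- values of the noise symbols -/
structure Ns where
  u : ℝ
  v : ℝ
  w : ℝ
  hu : |u| ≤ 1
  hv : |v| ≤ 1
  hw : |w| ≤ 1

/-- value of the affine part -/
noncomputable def lin (t : Ns) (x : AF) : ℝ :=
  (x.a - x.A) + (x.b - x.B) * t.u + (x.c - x.C) * t.v + (x.d - x.D) * t.w

/-- the real number `x` lies in the form `X` -/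
def mem (t : Ns) (x : ℝ) (X : AF) : Prop := |SS * x - lin t X| ≤ X.e

variable {t : Ns} {x y : ℝ} {X Y : AF}

lemma c_add (a b : ℕ) : ((Nat.add a b : ℕ) : ℝ) = a + b := Nat.cast_add a b

lemma c_mul (a b : ℕ) : ((Nat.mul a b : ℕ) : ℝ) = a * b := Nat.cast_mul a b

lemma c_five : ((nat_lit 5 : ℕ) : ℝ) = 5 := by norm_num

lemma c_sub (a b : ℕ) : ((Nat.sub a b : ℕ) : ℝ) = max ((a : ℝ) - b) 0 := by
  rcases le_total a b with h | h
  · rw [show Nat.sub a b = 0 from Nat.sub_eq_zero_of_le h, max_eq_right (by simpa using h)]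
    simp
  · rw [max_eq_left (by simpa using h)]
    exact Nat.cast_sub h

lemma c_ab (p n : ℕ) : (ab p n : ℝ) = |(p : ℝ) - n| := by
  rw [ab, c_add, c_sub, c_sub]
  rcases le_total (p : ℝ) n with h | h
  · rw [max_eq_right (by linarith), max_eq_left (by linarith), abs_of_nonpos (by linarith)]; ring
  · rw [max_eq_left (by linarith), max_eq_right (by linarith), abs_of_nonneg (by linarith)]; ring

lemma abs4 (t : Ns) (a b c d : ℝ) : |a + b * t.u + c * t.v + d * t.w| ≤ |a| + |b| + |c| + |d| := by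
  have := mul_le_of_le_one_right (abs_nonneg b) t.hu
  have := mul_le_of_le_one_right (abs_nonneg c) t.hv
  have := mul_le_of_le_one_right (abs_nonneg d) t.hw
  have h := (abs_add_le _ (d * t.w)).trans (add_le_add_left (abs_add_three a (b * t.u) (c * t.v)) _)
  rw [abs_mul, abs_mul, abs_mul] at h
  linarith

lemma mem.rd (h : mem t x X) : |SS * x - (X.a - X.A) - (X.b - X.B) * t.u| ≤ X.rd := by
  have h1 := abs4 t 0 0 (X.c - X.C) (X.d - X.D)
  have h2 := (abs_add_le _ _).trans (add_le_add h h1)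
  simp only [AF.rd, c_add, c_ab]
  refine le_of_eq_of_le (congrArg _ ?_) (h2.trans_eq ?_)
  · unfold lin; ring
  · simp only [abs_zero]; ring

lemma mem.rad (h : mem t x X) : |SS * x - (X.a - X.A)| ≤ X.rad := by
  have h1 := abs4 t 0 (X.b - X.B) 0 0
  have h2 := (abs_add_le _ _).trans (add_le_add h.rd h1)
  simp only [AF.rad, c_add, c_ab]
  refine le_of_eq_of_le (congrArg _ ?_) (h2.trans_eq ?_)
  · ring
  · simp only [abs_zero]; ring

lemma mem.hi (h : mem t x X) : SS * x ≤ X.hi := by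
  have := (abs_le.1 h.rad).2
  rw [AF.hi, c_sub, c_add]
  exact le_max_of_le_left (by linarith)

lemma mem.lo (h : mem t x X) (h0 : 0 < X.lo) : X.lo ≤ SS * x := by
  have := (abs_le.1 h.rad).1
  have h1 : (0 : ℝ) < X.lo := by exact_mod_cast h0
  rw [AF.lo, c_sub, c_add] at *
  rcases le_total ((X.a : ℝ) - (X.A + X.rad)) 0 with e | e
  · rw [max_eq_right e] at h1; exact absurd h1 (lt_irrefl _)
  · rw [max_eq_left e]; linarith

lemma mem.nonneg (h : mem t x X) (h0 : X.neg.hi = 0) : 0 ≤ x := by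
  have := (abs_le.1 h.rad).1
  have h1 : X.A + X.neg.rad ≤ X.a := Nat.le_of_sub_eq_zero h0
  have h2 : (X.neg.rad : ℝ) = X.rad := by
    simp only [AF.rad, AF.rd, AF.neg, c_add, c_ab, abs_sub_comm]
  have h3 : (X.A : ℝ) + X.neg.rad ≤ X.a := by exact_mod_cast h1
  exact nonneg_of_mul_nonneg_right (by linarith : 0 ≤ SS * x) SS_pos |> id

lemma mem.neg (h : mem t x X) : mem t (-x) X.neg := by
  unfold mem at *
  rw [← abs_neg] at h
  refine le_of_eq_of_le (congrArg _ ?_) h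
  simp only [lin, AF.neg]
  ring

lemma mem.add (h : mem t x X) (k : mem t y Y) : mem t (x + y) (X + Y) := by
  have := (abs_add_le _ _).trans (add_le_add h k)
  show |_ - lin t (X.add Y)| ≤ (X.add Y).e
  simp only [lin, AF.add, c_add] at *
  exact le_of_eq_of_le (congrArg _ (by ring)) this

lemma mem.sub (h : mem t x X) (k : mem t y Y) : mem t (x - y) (X - Y) := by
  have := (abs_sub _ _).trans (add_le_add h k)
  show |_ - lin t (X.sub Y)| ≤ (X.sub Y).e
  simp only [lin, AF.sub, c_add] at *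
  exact le_of_eq_of_le (congrArg _ (by ring)) this

lemma div_err (k : ℕ) {n : ℕ} (hn : 0 < n) :
    0 ≤ (k : ℝ) / n - (k / n : ℕ) ∧ (k : ℝ) / n - (k / n : ℕ) ≤ 1 := by
  have h0 : (0 : ℝ) < n := by exact_mod_cast hn
  have h1 : (k : ℝ) < (k / n : ℕ) * n + n := by exact_mod_cast Nat.lt_div_mul_add hn
  refine ⟨sub_nonneg.2 Nat.cast_div_le, ?_⟩
  rw [sub_le_iff_le_add', div_le_iff₀ h0]
  linarith

lemma div_err2 (p q : ℕ) {n : ℕ} (hn : 0 < n) :
    |((p : ℝ) - q) / n - ((p / n : ℕ) - (q / n : ℕ))| ≤ 1 := by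
  have := div_err p hn
  have := div_err q hn
  rw [sub_div, abs_le]
  constructor <;> linarith

/-- rounding of an exact form divided by `n` -/
lemma round {z : ℝ} {n : ℕ} (hn : 0 < n) (h : |z * n - lin t X| ≤ X.e) :
    |z - lin t (Sc.dv X n)| ≤ (Sc.dv X n).e := by
  have h0 : (0 : ℝ) < n := by exact_mod_cast hn
  have h1 := (abs4 t _ _ _ _).trans (add_le_add (add_le_add_three (div_err2 X.a X.A hn)
    (div_err2 X.b X.B hn) (div_err2 X.c X.C hn)) (div_err2 X.d X.D hn))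
  have h2 := (div_err X.e hn).2
  have h3 := div_le_div_of_nonneg_right h h0.le
  rw [← abs_of_pos h0, ← abs_div, abs_of_pos h0] at h3
  have h4 := (abs_add_le _ _).trans (add_le_add h3 h1)
  show |z - (((X.a / n : ℕ) - (X.A / n : ℕ)) + ((X.b / n : ℕ) - (X.B / n : ℕ)) * t.u +
    ((X.c / n : ℕ) - (X.C / n : ℕ)) * t.v + ((X.d / n : ℕ) - (X.D / n : ℕ)) * t.w)| ≤
      ((X.e / n).add (nat_lit 5) : ℕ)
  rw [c_add, c_five]
  refine le_of_eq_of_le (congrArg _ ?_) (h4.trans (by linarith))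
  unfold lin
  field_simp
  ring

lemma round64 {z : ℝ} (X : AF) (h : |z * SS - lin t X| ≤ X.e) :
    |z - lin t ⟨sh X.a, sh X.A, sh X.b, sh X.B, sh X.c, sh X.C, sh X.d, sh X.D, 0⟩| ≤
      ((sh X.e).add (nat_lit 5) : ℕ) := by
  have s : ∀ k : ℕ, sh k = k.div (2 ^ 64) := fun k => Nat.shiftRight_eq_div_pow k 64
  simp only [s]
  exact round (n := 2 ^ 64) (by positivity) (by rwa [Nat.cast_pow, Nat.cast_ofNat])

lemma mem.mul (h : mem t x X) (k : mem t y Y) : mem t (x * y) (X * Y) := by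
  refine round64 ⟨_, _, _, _, _, _, _, _, _⟩ ?_
  have h1 := mul_le_mul_of_nonneg_left k (abs_nonneg ((X.a : ℝ) - X.A))
  have h2 := mul_le_mul_of_nonneg_left h (abs_nonneg ((Y.a : ℝ) - Y.A))
  have h3 := mul_le_mul h.rad k.rad (abs_nonneg _) (Nat.cast_nonneg _)
  rw [← abs_mul] at h1 h2 h3
  have h4 := (abs_add_three _ _ _).trans (add_le_add_three h1 h2 h3)
  simp only [lin, AF.md, c_add, c_mul, c_ab] at h4 ⊢
  exact le_of_eq_of_le (congrArg _ (by ring)) h4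

lemma mem.cst (t : Ns) (k : ℕ) : mem t (Sc.cst k) (Sc.cst k) := by
  show |SS * ((k : ℝ) / SS) - lin t ⟨k, 0, 0, 0, 0, 0, 0, 0, 0⟩| ≤ (0 : ℕ)
  rw [mul_div_cancel₀ _ SS_pos.ne']
  simp [lin]

lemma mem.nt (t : Ns) (n : ℕ) : mem t (Sc.nt n) (Sc.nt n) := by
  show |SS * (n : ℝ) - lin t ⟨n.shiftLeft 64, 0, 0, 0, 0, 0, 0, 0, 0⟩| ≤ (0 : ℕ)
  rw [show n.shiftLeft 64 = n * 2 ^ 64 from Nat.shiftLeft_eq n 64]
  simp only [lin, SS]
  push_cast
  norm_num [mul_comm]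

lemma mem.sc (k : ℕ) (h : mem t x X) : mem t (Sc.sc k x) (Sc.sc k X) := by
  refine round64 ⟨_, _, _, _, _, _, _, _, _⟩ ?_
  have h1 := mul_le_mul_of_nonneg_left h (abs_nonneg (k : ℝ))
  rw [← abs_mul, Nat.abs_cast] at h1
  simp only [lin, c_mul] at h1 ⊢
  refine le_of_eq_of_le (congrArg _ ?_) h1
  show SS * (k / SS * x) * SS - _ = _
  have := SS_pos.ne'
  field_simp

lemma mem.sz (k : ℤ) (h : mem t x X) : mem t (Sc.sz k x) (Sc.sz k X) := by
  rcases k with k | k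
  · exact h.sc k
  · have := (h.sc k.succ).neg
    rwa [show -Sc.sc k.succ x = Sc.sz (Int.negSucc k) x by
      show -((k.succ : ℕ) / SS * x) = (Int.negSucc k : ℤ) / SS * x
      push_cast
      ring] at this

lemma mem.ml (n : ℕ) (h : mem t x X) : mem t (Sc.ml n x) (Sc.ml n X) := by
  have h1 := mul_le_mul_of_nonneg_left h (abs_nonneg (n : ℝ))
  rw [← abs_mul, Nat.abs_cast] at h1
  show |SS * (n * x) - lin t ⟨n.mul X.a, n.mul X.A, n.mul X.b, n.mul X.B, n.mul X.c, n.mul X.C,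
    n.mul X.d, n.mul X.D, 0⟩| ≤ (n.mul X.e : ℕ)
  simp only [lin, c_mul] at h1 ⊢
  exact le_of_eq_of_le (congrArg _ (by ring)) h1

lemma mem.mz (k : ℤ) (h : mem t x X) : mem t (Sc.mz k x) (Sc.mz k X) := by
  rcases k with k | k
  · exact h.ml k
  · have := (h.ml k.succ).neg
    rwa [show -Sc.ml k.succ x = Sc.mz (Int.negSucc k) x by
      show -((k.succ : ℕ) * x) = (Int.negSucc k : ℤ) * x
      push_cast
      ring] at this

lemma mem.dv (h : mem t x X) {n : ℕ} (hn : 0 < n) : mem t (Sc.dv x n) (Sc.dv X n) := by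
  refine round hn (le_of_eq_of_le (congrArg _ ?_) h)
  have : (n : ℝ) ≠ 0 := by positivity
  show SS * (x / n) * n - _ = _
  field_simp

lemma mem.inv (h : mem t x X) (h0 : 0 < X.lo) : mem t x⁻¹ X.inv := by
  unfold AF.inv
  extract_lets i p w k
  have hp : mem t (Sc.sc i x) p := h.sc i
  have hw : mem t (Sc.nt 1 - Sc.sc i x) w := (mem.nt t 1).sub hp
  have l0 : (0 : ℝ) < X.lo := by exact_mod_cast h0
  have S := SS_pos
  have x0 : 0 < x := pos_of_mul_pos_right (l0.trans_le (h.lo h0)) S.le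
  have e : x⁻¹ = (2 * (i / SS) + (1 - i / SS * x) ^ 2 / x) - Sc.sc i (Sc.sc i x) := by
    show _ = _ - i / SS * (i / SS * x)
    field_simp
    ring
  rw [e]
  refine mem.sub ?_ (hp.sc i)
  have h1 : |SS * (1 - i / SS * x)| ≤ (w.md + w.rad : ℕ) := by
    have a := hw.rad
    have b := abs_add_le (SS * (1 - i / SS * x) - (w.a - w.A)) (w.a - w.A)
    rw [sub_add_cancel] at b
    have : (Sc.nt 1 - Sc.sc i x : ℝ) = 1 - i / SS * x := by show ((1 : ℕ) : ℝ) - _ = _; simp; rfl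
    rw [this] at a
    rw [Nat.cast_add, AF.md, c_ab]
    linarith
  have h2 : SS * ((1 - i / SS * x) ^ 2 / x) ≤ 2 * k := by
    have a := pow_le_pow_left₀ (abs_nonneg _) h1 2
    rw [sq_abs] at a
    have b := (div_err ((w.md + w.rad) * (w.md + w.rad)) (show 0 < 2 * X.lo by omega)).2
    rw [sub_le_iff_le_add', div_le_iff₀ (by positivity), ← Nat.cast_succ, Nat.cast_mul, ← sq,
      Nat.cast_mul, Nat.cast_ofNat] at b
    rw [← mul_div_assoc, div_le_iff₀ x0]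
    have k0 : (0 : ℝ) ≤ k := Nat.cast_nonneg k
    change _ ≤ (k : ℝ) * _ at b
    refine le_of_mul_le_mul_left ?_ S
    nlinarith [mul_le_mul_of_nonneg_left (h.lo h0) k0]
  have h3 : 0 ≤ SS * ((1 - i / SS * x) ^ 2 / x) := mul_nonneg S.le (div_nonneg (sq_nonneg _) x0.le)
  have h4 : SS * (2 * (i / SS)) = 2 * i := by field_simp
  simp only [mem, lin]
  push_cast
  rw [mul_add, h4, abs_le]
  constructor <;> linarith

/-- a real number with an affine form that contains it -/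
def Pr (t : Ns) : Type := {p : ℝ × AF // mem t p.1 p.2}

instance : Add (Pr t) := ⟨fun x y => ⟨(x.1.1 + y.1.1, x.1.2 + y.1.2), x.2.add y.2⟩⟩

instance : Sub (Pr t) := ⟨fun x y => ⟨(x.1.1 - y.1.1, x.1.2 - y.1.2), x.2.sub y.2⟩⟩

instance : Mul (Pr t) := ⟨fun x y => ⟨(x.1.1 * y.1.1, x.1.2 * y.1.2), x.2.mul y.2⟩⟩

lemma mem.dv' (h : mem t x X) (n : ℕ) : mem t (Sc.dv x n) (Sc.dv X n) := by
  rcases n.eq_zero_or_pos with rfl | hn
  · show |SS * (x / (0 : ℕ)) - lin t ⟨X.a / 0, X.A / 0, X.b / 0, X.B / 0, X.c / 0, X.C / 0,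
      X.d / 0, X.D / 0, 0⟩| ≤ _
    simp [lin]
  · exact h.dv hn

noncomputable instance : Sc (Pr t) where
  nt n := ⟨(Sc.nt n, Sc.nt n), mem.nt t n⟩
  cst k := ⟨(Sc.cst k, Sc.cst k), mem.cst t k⟩
  sc k x := ⟨(Sc.sc k x.1.1, Sc.sc k x.1.2), x.2.sc k⟩
  sz k x := ⟨(Sc.sz k x.1.1, Sc.sz k x.1.2), x.2.sz k⟩
  ml n x := ⟨(Sc.ml n x.1.1, Sc.ml n x.1.2), x.2.ml n⟩
  mz n x := ⟨(Sc.mz n x.1.1, Sc.mz n x.1.2), x.2.mz n⟩
  dv x n := ⟨(Sc.dv x.1.1 n, Sc.dv x.1.2 n), x.2.dv' n⟩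

/-- packing -/
def mem.pr (h : mem t x X) : Pr t := ⟨(x, X), h⟩

lemma ex_sym {l h : ℕ} (h1 : l ≤ SS * x) (h2 : SS * x ≤ h) :
    ∃ u : ℝ, |u| ≤ 1 ∧ SS * x = ((l + h) / 2 : ℕ) + ((h - l) / 2 + 1 : ℕ) * u := by
  have h3 : l ≤ h := by exact_mod_cast h1.trans h2
  have b0 : (0 : ℝ) < ((h - l) / 2 + 1 : ℕ) := by positivity
  have a1 : (((l + h) / 2 : ℕ) : ℝ) ≤ l + ((h - l) / 2 + 1 : ℕ) := by
    exact_mod_cast (by omega : (l + h) / 2 ≤ l + ((h - l) / 2 + 1))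
  have a2 : (h : ℝ) ≤ ((l + h) / 2 : ℕ) + ((h - l) / 2 + 1 : ℕ) := by
    exact_mod_cast (by omega : h ≤ (l + h) / 2 + ((h - l) / 2 + 1))
  refine ⟨(SS * x - ((l + h) / 2 : ℕ)) / ((h - l) / 2 + 1 : ℕ), ?_, by field_simp; ring⟩
  rw [abs_div, abs_of_pos b0, div_le_one b0, abs_le]
  constructor <;> linarith

end Pool.Agent.Lib.MP_f225de_an.Bx
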