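import Pool.Agent.Lib.MP_f225de_an.MD3

set_option autoImplicit false

open MeasureTheory Set Filter Topology
open scoped Real

namespace Pool.Agent.Lib.MP_f225de_an.Bx

open MA

variable {n : ℕ} {r c ct be s : ℝ}

/-- the quadratic in the denominator of the flux -/
noncomputable def DG (r ct be s : ℝ) : ℝ := r ^ 2 + 2 * r * ct * s + (1 - r * be) * s ^ 2

/-- the logarithm in the flux -/
noncomputable def LG (r ct be s : ℝ) : ℝ := Real.log (r + s) - Real.log (DG r ct be s) / 2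

/-- the flux formula with a general quadratic -/
noncomputable def bG (n : ℕ) (r ct be : ℝ) : ℝ :=
  ∫ s, ((1 - 1 / n) * LG r ct be s - r / (r + s) + (1 - s) * r ^ 2 / DG r ct be s) ∂mu n

/-- the quadratic is positive -/
def Ps (r ct be : ℝ) : Prop := ∀ s ∈ Icc (0 : ℝ) 1, 0 < DG r ct be s

lemma DG_cont : ContinuousOn (DG r ct be) (Icc 0 1) := by unfold DG; fun_prop

lemma LG_cont (hr : 0 < r) (hp : Ps r ct be) : ContinuousOn (LG r ct be) (Icc 0 1) :=
  (ContinuousOn.log (by fun_prop) fun s hs => (add_pos_of_pos_of_nonneg hr hs.1).ne').sub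
    ((DG_cont.log fun s hs => (hp s hs).ne').div_const 2)

lemma dv_cont (hp : Ps r ct be) {f : ℝ → ℝ} (hf : ContinuousOn f (Icc 0 1)) :
    ContinuousOn (fun s => f s / DG r ct be s) (Icc 0 1) :=
  hf.div DG_cont fun s hs => (hp s hs).ne'

lemma old_cont (hr : 0 < r) (hp : Ps r ct be) : ContinuousOn (fun s =>
    (1 - 1 / n) * LG r ct be s - r / (r + s) + (1 - s) * r ^ 2 / DG r ct be s) (Icc 0 1) :=
  ((continuousOn_const.mul (LG_cont hr hp)).sub (a_cont hr)).add (dv_cont hp (by fun_prop))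

theorem bG_new (hn : 2 ≤ n) (hr : 0 < r) (hp : Ps r ct be) : bG n r ct be =
    ∫ s, ((1 - 2 * (1 / n) + (1 + 1 / n) / 2 * s) * LG r ct be s - r * (s / (r + s)) -
      ct * ((1 - s) * r * s / DG r ct be s)) ∂mu n := by
  have c0 := LG_cont hr hp
  have c1 : ContinuousOn (fun s => 1 / (r + s) - (2 * r * ct + (1 - r * be) * (2 * s)) /
      DG r ct be s / 2) (Icc 0 1) := (ContinuousOn.div (by fun_prop) (by fun_prop)
    fun s hs => (add_pos_of_pos_of_nonneg hr hs.1).ne').sub ((dv_cont hp (by fun_prop)).div_const 2)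
  have h := null hn c0 c1 fun s hs => (((hasDerivAt_id' s).const_add r).log
    (add_pos hr hs.1).ne').sub ((HasDerivAt.log (f := DG r ct be) ((((((hasDerivAt_id' s).const_mul
      _).const_add _).add (((hasDerivAt_id' s).pow 2).const_mul _))).congr_deriv
      (by simp)) (hp s (Ioo_subset_Icc_self hs)).ne').div_const 2)
  have := mu_lin hn (old_cont (n := n) hr hp) (g := fun s => s * (1 - s) * (1 / (r + s) -
    (2 * r * ct + (1 - r * be) * (2 * s)) / DG r ct be s / 2) + (1 / n - (1 + 1 / n) / 2 * s) *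
      LG r ct be s) (by fun_prop) 1 (-1)
  rw [h, mul_zero, add_zero, one_mul] at this
  refine this.symm.trans (mu_congr fun s hs => ?_)
  have h1 := (add_pos hr hs.1).ne'
  have h2 := (hp s (Ioo_subset_Icc_self hs)).ne'
  have h4 : (n : ℝ) ≠ 0 := by positivity
  field_simp
  unfold DG
  ring

theorem interp (hn : 2 ≤ n) (hr : 0 < r) (hc : c ^ 2 < 1) {a1 b1 a2 b2 l : ℝ} (p1 : Ps r a1 b1)
    (p2 : Ps r a2 b2) (l0 : 0 ≤ l) (l1 : l ≤ 1)
    (h : ∀ s ∈ Ioo (0 : ℝ) 1, l * DG r a1 b1 s + (1 - l) * DG r a2 b2 s ≤ DD r c s) :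
    beta n r c ≤ l * bG n r a1 b1 + (1 - l) * bG n r a2 b2 := by
  rw [beta_old hn hr hc, bG, bG, ← mu_lin hn (old_cont hr p1) (old_cont hr p2)]
  refine mu_mono hn (((continuousOn_const.mul (LL_cont hr hc)).sub (a_cont hr)).add
    (Continuous.div (by fun_prop) (DD_cont r c) fun s => (DD_pos hr hc s).ne').continuousOn)
    ((continuousOn_const.mul (old_cont hr p1)).add (continuousOn_const.mul (old_cont hr p2)))
    fun s hs => ?_
  have d1 := p1 s (Ioo_subset_Icc_self hs)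
  have d2 := p2 s (Ioo_subset_Icc_self hs)
  have d := DD_pos hr hc s
  have k := h s hs
  simp only [LL, LG]
  generalize DG r a1 b1 s = x at *
  generalize DG r a2 b2 s = y at *
  generalize DD r c s = z at *
  have e1 : l * Real.log x + (1 - l) * Real.log y ≤ Real.log z := by
    have u := Real.log_le_sub_one_of_pos (div_pos d1 d)
    have v := Real.log_le_sub_one_of_pos (div_pos d2 d)
    rw [Real.log_div d1.ne' d.ne'] at u
    rw [Real.log_div d2.ne' d.ne'] at v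
    have w : l * (x / z) + (1 - l) * (y / z) ≤ 1 := by
      rw [← mul_div_assoc, ← mul_div_assoc, ← add_div, div_le_one d]; exact k
    nlinarith
  have e2 : z⁻¹ ≤ l * x⁻¹ + (1 - l) * y⁻¹ := by
    have u : ∀ x : ℝ, 0 < x → 2 * z⁻¹ - z⁻¹ ^ 2 * x ≤ x⁻¹ := fun x hx => by
      rw [inv_eq_one_div x, le_div_iff₀ hx]
      nlinarith [sq_nonneg (1 - z⁻¹ * x)]
    have w := mul_le_mul_of_nonneg_left k (sq_nonneg z⁻¹)
    have : z⁻¹ ^ 2 * z = z⁻¹ := by field_simp
    nlinarith [u x d1, u y d2]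
  have e3 := mul_le_mul_of_nonneg_left e2 (mul_pos (sub_pos.2 hs.2) (pow_pos hr 2)).le
  have e4 := mul_le_mul_of_nonneg_left e1 (show (0 : ℝ) ≤ 1 - 1 / n by linarith [(gam_bd hn).2])
  simp only [div_eq_mul_inv] at *
  linarith

theorem interp_out (hn : 2 ≤ n) (hr : 0 < r) (hc : c ^ 2 < 1) {c1 c2 l : ℝ} (p1 : Ps r c1 0)
    (p2 : Ps r c2 0) (l0 : 0 ≤ l) (l1 : l ≤ 1) (h : l * c1 + (1 - l) * c2 ≤ c) :
    beta n r c ≤ l * bG n r c1 0 + (1 - l) * bG n r c2 0 :=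
  interp hn hr hc p1 p2 l0 l1 fun s hs => by
    have h1 := mul_le_mul_of_nonneg_left h (mul_pos hr hs.1).le
    unfold DG DD
    split_ifs with e
    · nlinarith [mul_nonneg (mul_pos (mul_pos hr hs.1) (show 0 < 2 - s by linarith [hs.2])).le
        (neg_nonneg.2 e)]
    · nlinarith

theorem interp_in (hn : 2 ≤ n) (hr : 0 < r) (hc : c ^ 2 < 1) {c1 c2 l : ℝ}
    (p1 : Ps r (-(r + c1)) (-(r + 2 * c1))) (p2 : Ps r (-(r + c2)) (-(r + 2 * c2))) (l0 : 0 ≤ l)
    (l1 : l ≤ 1) (h : c ≤ l * c1 + (1 - l) * c2) :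
    beta n r c ≤ l * bG n r (-(r + c1)) (-(r + 2 * c1)) +
      (1 - l) * bG n r (-(r + c2)) (-(r + 2 * c2)) :=
  interp hn hr hc p1 p2 l0 l1 fun s hs => by
    have h1 := mul_le_mul_of_nonneg_left h (mul_pos (mul_pos hr hs.1) (sub_pos.2 hs.2)).le
    unfold DG DD
    split_ifs with e
    · nlinarith
    · nlinarith [mul_nonneg (mul_pos (mul_pos hr hs.1) (show 0 < 2 - s by linarith [hs.2])).le
        (not_le.1 e).le]

/-- `f` has mean `v K` -/
def HM (n : ℕ) (r : ℝ) (f : ℝ → ℝ) (v : ℝ) : Prop :=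
  ContinuousOn f (Icc 0 1) ∧ ∫ s, f s ∂mu n = v * Kf n r

variable {f g : ℝ → ℝ} {u v : ℝ}

lemma HM.lin (hn : 2 ≤ n) (h : HM n r f u) (k : HM n r g v) (a b : ℝ) :
    HM n r (fun s => a * f s + b * g s) (a * u + b * v) :=
  ⟨(continuousOn_const.mul h.1).add (continuousOn_const.mul k.1), by
    rw [mu_lin hn h.1 k.1, h.2, k.2]; ring⟩

lemma HM.of (h : HM n r f u) (e : ∀ s ∈ Icc (0 : ℝ) 1, g s = f s) (e' : v = u) : HM n r g v :=
  ⟨h.1.congr e, by rw [mu_congr fun s hs => e s (Ioo_subset_Icc_self hs), h.2, e']⟩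

lemma HM.lin3 (hn : 2 ≤ n) {f3 : ℝ → ℝ} {w : ℝ} (h : HM n r f u) (k : HM n r g v)
    (l : HM n r f3 w) (a b c : ℝ) :
    HM n r (fun s => a * f s + b * g s + c * f3 s) (a * u + b * v + c * w) :=
  ((h.lin hn k a b).lin hn l 1 c).of (fun _ _ => by ring) (by ring)

/-- the variable of the first majorant -/
noncomputable def XG (r ct be s : ℝ) : ℝ := Wf r s * (2 * (1 - ct) + be * s)

lemma DG_X (hr : 0 < r) (hs : 0 ≤ s) : DG r ct be s = (r + s) ^ 2 * (1 - XG r ct be s) := by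
  have := (add_pos_of_pos_of_nonneg hr hs).ne'
  unfold DG XG Wf
  field_simp
  ring

lemma Ps_X (hr : 0 < r) {Y : ℝ} (hX : ∀ s ∈ Icc (0 : ℝ) 1, XG r ct be s ≤ Y) (hY : Y < 1) :
    Ps r ct be := fun s hs => by
  rw [DG_X hr hs.1]
  exact mul_pos (pow_pos (add_pos_of_pos_of_nonneg hr hs.1) 2) (by linarith [hX s hs])

lemma wt_pos (hn : 2 ≤ n) (hs : 0 ≤ s) : (0 : ℝ) ≤ 1 - 2 * (1 / n) + (1 + 1 / n) / 2 * s := by
  have g := gam_bd hn
  nlinarith [g.1, g.2]

theorem bG_X (hn : 2 ≤ n) (hr : 0 < r) {Y q0 q1 q2 t0 t1 t2 L1 L2 L3 T0 T1 T2 R : ℝ}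
    (hX : ∀ s ∈ Icc (0 : ℝ) 1, 0 ≤ XG r ct be s ∧ XG r ct be s ≤ Y) (hY : Y < 1)
    (hq : ∀ X, 0 ≤ X → X ≤ Y → -Real.log (1 - X) ≤ X * (q0 + q1 * X + q2 * X ^ 2))
    (ht : ∀ X, X ≤ Y → ct * (t0 + t1 * X + t2 * X ^ 2) ≤ ct * (1 - X)⁻¹)
    (l1 : HM n r (fun s => (1 - 2 * (1 / n) + (1 + 1 / n) / 2 * s) * XG r ct be s) L1)
    (l2 : HM n r (fun s => (1 - 2 * (1 / n) + (1 + 1 / n) / 2 * s) * XG r ct be s ^ 2) L2)
    (l3 : HM n r (fun s => (1 - 2 * (1 / n) + (1 + 1 / n) / 2 * s) * XG r ct be s ^ 3) L3)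
    (k0 : HM n r (fun s => (1 - s) * Wf r s) T0)
    (k1 : HM n r (fun s => (1 - s) * Wf r s * XG r ct be s) T1)
    (k2 : HM n r (fun s => (1 - s) * Wf r s * XG r ct be s ^ 2) T2)
    (k : HM n r (fun s => r * (s / (r + s))) R) :
    bG n r ct be ≤ ((q0 * L1 + q1 * L2 + q2 * L3) / 2 - R - ct * (t0 * T0 + t1 * T1 + t2 * T2)) *
      Kf n r := by
  have hp := Ps_X hr (fun s hs => (hX s hs).2) hY
  have H := (l1.lin3 hn l2 l3 q0 q1 q2).lin3 hn k (k0.lin3 hn k1 k2 t0 t1 t2) (1 / 2) (-1) (-ct)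
  rw [bG_new hn hr hp]
  refine (mu_mono hn (((ContinuousOn.mul (by fun_prop) (LG_cont hr hp)).sub k.1).sub
    (continuousOn_const.mul (dv_cont hp (by fun_prop)))) H.1 fun s hs => ?_).trans_eq
    (H.2.trans (by ring))
  have hs' := Ioo_subset_Icc_self hs
  have h0 := hs.1
  have x1 : 0 < 1 - XG r ct be s := by linarith [(hX s hs').2]
  have e1 : LG r ct be s = -Real.log (1 - XG r ct be s) / 2 := by
    rw [LG, DG_X hr h0.le, Real.log_mul (by positivity) x1.ne', Real.log_pow]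
    push_cast
    ring
  have e2 : (1 - s) * r * s / DG r ct be s = (1 - s) * Wf r s * (1 - XG r ct be s)⁻¹ := by
    rw [DG_X hr h0.le, ← div_div, div_eq_mul_inv]
    simp only [Wf]
    ring
  simp only [Pi.sub_apply, Pi.mul_apply]
  rw [e1, e2]
  have a := mul_le_mul_of_nonneg_left (hq _ (hX s hs').1 (hX s hs').2) (wt_pos hn h0.le)
  have b := mul_le_mul_of_nonneg_left (ht _ (hX s hs').2)
    (mul_pos (sub_pos.2 hs.2) (W_pos hr h0)).le
  linarith

theorem bG_S (hn : 2 ≤ n) (hr : 0 < r) {p q Y V a b t0 t1 t2 L1 L2 B1 B2 T0 T1 T2 R : ℝ}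
    (hp : p * r = -2 * ct) (hq : q * r ^ 2 = r * be - 1) (p0 : 0 ≤ p)
    (hZ : ∀ s ∈ Icc (0 : ℝ) 1, p * s + q * s ^ 2 ≤ Y) (hY : Y < 1) (hV : (1 + r)⁻¹ ≤ V)
    (ha : ∀ X, X ≤ Y → -Real.log (1 - X) ≤ X + a * X ^ 2)
    (hb : ∀ X, X ≤ V → -Real.log (1 - X) ≤ X + b * X ^ 2)
    (ht : ∀ X, X ≤ Y → (1 - X)⁻¹ ≤ t0 + t1 * X + t2 * X ^ 2)
    (l1 : HM n r (fun s => (1 - 2 * (1 / n) + (1 + 1 / n) / 2 * s) * (p * s + q * s ^ 2)) L1)
    (l2 : HM n r (fun s => (1 - 2 * (1 / n) + (1 + 1 / n) / 2 * s) * (p * s + q * s ^ 2) ^ 2) L2)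
    (b1 : HM n r (fun s => (1 - 2 * (1 / n) + (1 + 1 / n) / 2 * s) * (s / (r + s))) B1)
    (b2 : HM n r (fun s => (1 - 2 * (1 / n) + (1 + 1 / n) / 2 * s) * (s / (r + s)) ^ 2) B2)
    (k0 : HM n r (fun s => (1 - s) * s) T0)
    (k1 : HM n r (fun s => (1 - s) * s * (p * s + q * s ^ 2)) T1)
    (k2 : HM n r (fun s => (1 - s) * s * (p * s + q * s ^ 2) ^ 2) T2)
    (k : HM n r (fun s => r * (s / (r + s))) R) :
    Ps r ct be ∧ bG n r ct be ≤ ((L1 + a * L2 + p * (t0 * T0 + t1 * T1 + t2 * T2)) / 2 +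
      (B1 + b * B2) - R) * Kf n r := by
  have eD : ∀ s, DG r ct be s = r ^ 2 * (1 - (p * s + q * s ^ 2)) := fun s => by
    unfold DG
    linear_combination r * s * hp + s ^ 2 * hq
  have hP : Ps r ct be := fun s hs => by
    rw [eD]
    exact mul_pos (pow_pos hr 2) (by linarith [hZ s hs])
  have H := (l1.lin3 hn l2 (k0.lin3 hn k1 k2 t0 t1 t2) 1 a p).lin3 hn (b1.lin hn b2 1 b) k
    (1 / 2) 1 (-1)
  rw [bG_new hn hr hP]
  refine ⟨hP, (mu_mono hn (((ContinuousOn.mul (by fun_prop) (LG_cont hr hP)).sub k.1).sub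
    (continuousOn_const.mul (dv_cont hP (by fun_prop)))) H.1 fun s hs => ?_).trans_eq
    (H.2.trans (by ring))⟩
  have hs' := Ioo_subset_Icc_self hs
  have h0 := hs.1
  have x1 : 0 < 1 - (p * s + q * s ^ 2) := by linarith [hZ s hs']
  have e0 : 1 - s / (r + s) = r / (r + s) := by field_simp; ring
  have e1 : LG r ct be s = -Real.log (1 - s / (r + s)) - Real.log (1 - (p * s + q * s ^ 2)) / 2 := by
    rw [LG, eD, Real.log_mul (by positivity) x1.ne', Real.log_pow, e0,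
      Real.log_div hr.ne' (by positivity)]
    push_cast
    ring
  have e2 : ct * ((1 - s) * r * s / DG r ct be s) =
      -(p / 2 * ((1 - s) * s)) * (1 - (p * s + q * s ^ 2))⁻¹ := by
    rw [eD, show ct = -(p * r) / 2 by linarith]
    field_simp
  have e3 : s / (r + s) ≤ V := le_trans (by
    rw [inv_eq_one_div, div_le_div_iff₀ (by positivity) (by positivity)]
    nlinarith [hs.2]) hV
  simp only [Pi.sub_apply, Pi.mul_apply]
  rw [e1, e2]
  have a1 := mul_le_mul_of_nonneg_left (ha _ (hZ s hs')) (wt_pos hn h0.le)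
  have a2 := mul_le_mul_of_nonneg_left (hb _ e3) (wt_pos hn h0.le)
  have a3 := mul_le_mul_of_nonneg_left (ht _ (hZ s hs'))
    (mul_nonneg p0 (mul_pos (sub_pos.2 hs.2) h0).le)
  linarith

lemma radau {a b c Y : ℝ} (h1 : a ≤ b) (h2 : b ≤ c) (h3 : c < 1) (hY : Y < 1)
    {k : ℝ} (hk : k * ((1 - a) * (1 - b) * (1 - c)) = 1) {F : ℝ → ℝ}
    (hF : F = fun X => X * (1 + k * (a * b * c) + k * (1 - a - b - c) / 2 * X + k / 3 * X ^ 2) +
      Real.log (1 - X)) (hb : 0 ≤ F b) (hy : 0 ≤ F Y) {X : ℝ} (x0 : 0 ≤ X) (x1 : X ≤ Y) :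
    0 ≤ F X := by
  have k0 : 0 < k := pos_of_mul_pos_left (hk ▸ zero_lt_one)
    (mul_pos (mul_pos (by linarith) (by linarith)) (by linarith)).le
  have d : ∀ X < 1, HasDerivAt F (k * ((a - X) * (b - X) * (c - X)) / (1 - X)) X := fun X hX => by
    have i := hasDerivAt_id' X
    have e : 1 - X ≠ 0 := by linarith
    rw [hF]
    refine ((i.mul (((i.const_mul _).const_add _).add ((i.pow 2).const_mul _))).add
      ((i.const_sub 1).log e)).congr_deriv ?_
    simp only [Pi.add_apply, Pi.pow_apply]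
    field_simp
    linear_combination (6 * X) * hk
  have up : ∀ u v, u ≤ v → v < 1 → (∀ X ∈ Ioo u v, 0 ≤ (a - X) * (b - X) * (c - X)) → F u ≤ F v :=
    fun u v h hv s => monotoneOn_of_hasDerivWithinAt_nonneg (convex_Icc u v)
      (fun X hX => (d X (hX.2.trans_lt hv)).continuousAt.continuousWithinAt)
      (fun X hX => (d X ((interior_subset hX).2.trans_lt hv)).hasDerivWithinAt)
      (fun X hX => by
        rw [interior_Icc] at hX
        exact div_nonneg (mul_nonneg k0.le (s X hX)) (by linarith [hX.2]))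
      (left_mem_Icc.2 h) (right_mem_Icc.2 h) h
  have dn : ∀ u v, u ≤ v → v < 1 → (∀ X ∈ Ioo u v, (a - X) * (b - X) * (c - X) ≤ 0) → F v ≤ F u :=
    fun u v h hv s => antitoneOn_of_hasDerivWithinAt_nonpos (convex_Icc u v)
      (fun X hX => (d X (hX.2.trans_lt hv)).continuousAt.continuousWithinAt)
      (fun X hX => (d X ((interior_subset hX).2.trans_lt hv)).hasDerivWithinAt)
      (fun X hX => by
        rw [interior_Icc] at hX
        exact div_nonpos_of_nonpos_of_nonneg (mul_nonpos_of_nonneg_of_nonpos k0.le (s X hX))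
          (by linarith [hX.2]))
      (left_mem_Icc.2 h) (right_mem_Icc.2 h) h
  rcases le_total X a with e | e
  · refine le_of_eq_of_le (by simp [hF]) (up 0 X x0 (by linarith) fun Z hZ => ?_)
    exact mul_nonneg (mul_nonneg (by linarith [hZ.2]) (by linarith [hZ.2])) (by linarith [hZ.2])
  rcases le_total X b with e' | e'
  · refine hb.trans (dn X b e' (by linarith) fun Z hZ => ?_)
    exact mul_nonpos_of_nonpos_of_nonneg (mul_nonpos_of_nonpos_of_nonneg (by linarith [hZ.1])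
      (by linarith [hZ.2])) (by linarith [hZ.2])
  rcases le_total X c with e'' | e''
  · refine hb.trans (up b X e' (by linarith) fun Z hZ => ?_)
    exact mul_nonneg (mul_nonneg_of_nonpos_of_nonpos (by linarith [hZ.1]) (by linarith [hZ.1]))
      (by linarith [hZ.2])
  · refine hy.trans (dn X Y x1 hY fun Z hZ => ?_)
    exact mul_nonpos_of_nonneg_of_nonpos (mul_nonneg_of_nonpos_of_nonpos (by linarith [hZ.1])
      (by linarith [hZ.1])) (by linarith [hZ.1])

end Pool.Agent.Lib.MP_f225de_an.Bx
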