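import Pool.Agent.Lib.MP_f225de_an.BX0
import Pool.Agent.Lib.MP_f225de_an.BX1

set_option autoImplicit false

open MeasureTheory Set

namespace Pool.Agent.Lib.MP_f225de_an.Bx

open MA Sc

section programs

variable {α : Type} [Add α] [Sub α] [Mul α] [Sc α]

/-- one step of the moment recursion -/
def yk (k : ℕ) (g u B : α) : α := dv (ml (2 * k) u + B + g * (ml 2 u - B)) (2 * k + 2)

/-- weight `2 (1 - 2 g) a + (1 + g) b` -/
def nn (g a b : α) : α := ml 2 a + b + g * (b - ml 4 a)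

/-- weight `2 r a + (2 - r) b` -/
def sa (r a b : α) : α := ml 2 b + r * (ml 2 a - b)

/-- normalised moments of `W^j s^k` -/
structure Mm (α : Type) where
  s : α
  a0 : α
  a1 : α
  a2 : α
  b0 : α
  b1 : α
  b2 : α
  b3 : α
  e2 : α
  e3 : α
  e4 : α

/-- the moments from the mean `s` -/
def mo (g r s T : α) : Mm α :=
  let y1 := yk 1 g (nt 1) s
  let u2 := T * y1
  let B3 := s - (y1 - u2)
  let y2 := yk 2 g u2 B3
  let u3 := T * y2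
  let v3 := y2 - u3
  let B4 := B3 - v3
  let y3 := yk 3 g u3 B4
  let u4 := T * y3
  let v4 := y3 - u4
  let B5 := B4 - v4
  let y4 := yk 4 g u4 B5
  let u5 := T * y4
  let v5 := y4 - u5
  let B6 := B5 - v5
  let rr := r * r
  let er := r + g * r
  let R2 := ml 2 er - s * (er + ml 2 (r - g))
  let R4 := R2 - er * (B3 + B4)
  ⟨s, u2 - u3, v3, r * B4, u3 + u5 - ml 2 u4, v4 - v5, r * v5, rr * B6, R2, r * R4,
    rr * (R4 - er * (B5 + B6))⟩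

/-- six numbers -/
structure Sx (α : Type) where
  a1 : α
  a2 : α
  a3 : α
  b0 : α
  b1 : α
  b2 : α

/-- data of a row for the outer form -/
def po (g : α) (M : Mm α) : Sx α :=
  ⟨ml 64 (nn g (nt 1) M.s), ml 8 (nn g M.a0 M.a1), nn g M.b0 M.b1, ml 64 (nt 1 - M.s),
    ml 8 (M.a0 - M.a1), M.b0 - M.b1⟩

/-- data of a node for the outer form -/
def qo (a : ℕ) (P : Sx α) : Sx α :=
  ⟨ml a P.a1, ml (a * a) P.a2, ml (a * a * a) P.a3, P.b0, ml a P.b1, ml (a * a) P.b2⟩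

/-- coefficients of polynomials in the node index -/
structure Pn (α : Type) where
  p10 : α
  p11 : α
  p20 : α
  p21 : α
  p22 : α
  p30 : α
  p31 : α
  p32 : α
  p33 : α
  q0 : α
  q10 : α
  q11 : α
  q20 : α
  q21 : α
  q22 : α

/-- data of a row for the inner form -/
def pn (g r : α) (M : Mm α) : Pn α :=
  let m := nt 2 - ml 4 g
  let n10 := nn g (nt 1) M.s
  let n11 := m * M.s + M.e2
  let n20 := nn g M.a0 M.a1
  let n21 := nn g M.a1 M.a2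
  let n22 := m * M.a2 + M.e3
  let n30 := nn g M.b0 M.b1
  let n31 := nn g M.b1 M.b2
  let n32 := nn g M.b2 M.b3
  let n33 := m * M.b3 + M.e4
  let a0 := sa r n20 n21
  let a1 := sa r n21 n22
  let b0 := sa r n30 n31
  let b1 := sa r n31 n32
  let b2 := sa r n32 n33
  let c0 := sa r b0 b1
  let c1 := sa r b1 b2
  let d0 := M.a0 - M.a1
  let d1 := M.a1 - M.a2
  let f0 := M.b0 - M.b1
  let f1 := M.b1 - M.b2
  let f2 := M.b2 - M.b3
  let e0 := sa r f0 f1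
  let e1 := sa r f1 f2
  ⟨ml 512 (sa r n10 n11), ml 64 (n10 - n11), ml 512 (sa r a0 a1), ml 128 (a0 - a1),
    ml 8 (n20 + n22 - ml 2 n21), ml 512 (sa r c0 c1), ml 192 (c0 - c1),
    ml 24 (b0 + b2 - ml 2 b1), n30 - n33 + ml 3 (n32 - n31), ml 64 (nt 1 - M.s),
    ml 64 (sa r d0 d1), ml 8 (d0 - d1), ml 64 (sa r e0 e1), ml 16 (e0 - e1), f0 + f2 - ml 2 f1⟩

/-- data of a node for the inner form -/
def qn (j : ℕ) (P : Pn α) : Sx α :=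
  ⟨P.p10 + ml j P.p11, P.p20 + ml j (P.p21 + ml j P.p22),
    P.p30 + ml j (P.p31 + ml j (P.p32 + ml j P.p33)), P.q0, P.q10 + ml j P.q11,
    P.q20 + ml j (P.q21 + ml j P.q22)⟩

/-- logarithmic part of the first majorant -/
def vl (q0 : ℕ) (q1 : ℤ) (q2 : ℕ) (Q : Sx α) (s : α) : α :=
  ml q0 Q.a1 + mz q1 Q.a2 + ml q2 Q.a3 - s

/-- rational part of the first majorant -/
def vt (t0 : ℕ) (t1 : ℤ) (t2 : ℕ) (Q : Sx α) : α :=
  dv (ml t0 Q.b0 + mz t1 Q.b1 + ml t2 Q.b2) 2048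

/-- constants of the degree -/
structure Cs (α : Type) where
  m1 : α
  m2 : α
  m3 : α
  m4 : α
  e1 : α
  e2 : α
  e3 : α
  e4 : α
  e5 : α

/-- the constants from the reciprocals `i k` of `2 k + 1 + g` -/
def cs (g : α) (i : ℕ → α) : Cs α :=
  let s1 := ml 2 (i 0)
  let s2 := s1 * (nt 2 - ml 4 (i 1))
  let s3 := s2 * (nt 2 - ml 6 (i 2))
  let s4 := s3 * (nt 2 - ml 8 (i 3))
  let s5 := s4 * (nt 2 - ml 10 (i 4))
  let s6 := s5 * (nt 2 - ml 12 (i 5))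
  ⟨dv (nn g s1 s2) 2, dv (nn g s2 s3) 2, nn g s3 s4, dv (nn g s4 s5) 2, s1 - s2, s2 - s3, s3 - s4,
    ml 2 (s4 - s5), s5 - s6⟩

/-- `2 g / K` -/
def gk (g r s x : α) : α := nt 2 + ml 2 g + r + g * r + (ml 2 (g * x) + g - nt 1) * s

/-- the part of the second majorant that does not depend on the node -/
def hk (b : ℕ) (g s x : α) : α :=
  let z := (x - g * x) * s
  ml 4 (nt 2 - g + z - ml 2 s) + sc b (nt 2 + ml 2 (g + z) - ml 3 s - g * s)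

/-- the second majorant -/
def vs (a t0 : ℕ) (t1 : ℤ) (t2 : ℕ) (C : Cs α) (G H p q : α) : α :=
  G * (p * (C.m1 + sc t0 C.e1 + p * (sc a C.m2 + sz t1 C.e2 + p * sc t2 C.e3)) +
    q * (C.m2 + p * (sc a C.m3 + sz t1 C.e3 + p * sc t2 C.e4) +
      q * (sc a C.m4 + p * sc t2 C.e5))) + H

end programs

variable {n : ℕ} {r : ℝ}

@[simp] lemma nt_re (k : ℕ) : (nt k : ℝ) = k := rfl

@[simp] lemma ml_re (k : ℕ) (x : ℝ) : ml k x = k * x := rfl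

@[simp] lemma mz_re (k : ℤ) (x : ℝ) : mz k x = k * x := rfl

@[simp] lemma sc_re (k : ℕ) (x : ℝ) : sc k x = k / SS * x := rfl

@[simp] lemma sz_re (k : ℤ) (x : ℝ) : sz k x = k / SS * x := rfl

@[simp] lemma dv_re (k : ℕ) (x : ℝ) : dv x k = x / k := rfl

lemma HM.b (hn : 2 ≤ n) (hr : 0 < r) (k : ℕ) :
    HM n r (fun s => (s / (r + s)) ^ k) (bm n k r / Kf n r) :=
  ⟨(b_cont hr).pow k, (div_mul_cancel₀ _ (K_pos hn hr).ne').symm⟩

lemma HM.s (hn : 2 ≤ n) (hr : 0 < r) (k : ℕ) : HM n r (fun s => s ^ k) (sm n k / Kf n r) :=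
  ⟨by fun_prop, (div_mul_cancel₀ _ (K_pos hn hr).ne').symm⟩

lemma HM.bp (hn : 2 ≤ n) (hr : 0 < r) (c0 c1 c2 c3 c4 c5 c6 : ℝ) {f : ℝ → ℝ} {v : ℝ}
    (e : ∀ s b : ℝ, s * (1 - b) = r * b → Wf r s = b * (1 - b) → s / (r + s) = b → f s =
      c0 * s + c1 * b + c2 * b ^ 2 + c3 * b ^ 3 + c4 * b ^ 4 + c5 * b ^ 5 + c6 * b ^ 6)
    (e' : v = c0 * (sm n 1 / Kf n r) + c1 * (bm n 1 r / Kf n r) + c2 * (bm n 2 r / Kf n r) +
      c3 * (bm n 3 r / Kf n r) + c4 * (bm n 4 r / Kf n r) + c5 * (bm n 5 r / Kf n r) +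
      c6 * (bm n 6 r / Kf n r)) : HM n r f v :=
  (((HM.s hn hr 1).lin3 hn (HM.b hn hr 1) (HM.b hn hr 2) c0 c1 c2).lin3 hn
    ((HM.b hn hr 3).lin hn (HM.b hn hr 4) c3 c4) ((HM.b hn hr 5).lin hn (HM.b hn hr 6) c5 c6)
    1 1 1).of (fun s hs => by
      have := (add_pos_of_pos_of_nonneg hr hs.1).ne'
      rw [e s (s / (r + s)) (by field_simp; ring) (by unfold Wf; field_simp; ring) rfl]
      ring) (by rw [e']; ring)

lemma g_K (hn : 2 ≤ n) (hr : 0 < r) : (1 + 1 / n) / 2 * (sm n 1 / Kf n r) =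
    1 + r + (1 / n - (1 - 1 / n) / 2 * r) * (bm n 1 r / Kf n r) := by
  have h1 := sm_rec hn 0
  have h2 := K_ode hn hr
  have h3 := bm_one hn hr
  have k := (K_pos hn hr).ne'
  rw [sm_zero hn] at h1
  simp only [Nat.cast_zero, zero_add] at h1
  generalize (1 / n : ℝ) = g at *
  field_simp
  linear_combination 2 * h1 - 2 * h2 - (2 * g - (1 - g) * r) * h3

lemma b12 (hn : 2 ≤ n) (hr : 0 < r) : bm n 1 r / Kf n r = 1 + bm n 2 r / Kf n r := by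
  have k := (K_pos hn hr).ne'
  field_simp
  linear_combination -K_bm hn hr

lemma s_b (hn : 2 ≤ n) (hr : 0 < r) : Ms n r / Kf n r = r * (bm n 2 r / Kf n r) := by
  rw [Ms_bm hn hr, mul_div_assoc]

lemma yk_eq (hn : 2 ≤ n) (hr : 0 < r) (k : ℕ) {u B : ℝ}
    (hu : u = bm n k r / Kf n r - bm n (k + 1) r / Kf n r)
    (hB : B = r * (bm n (k + 1) r / Kf n r)) : yk k (1 / n : ℝ) u B =
      (1 + r) * (bm n (k + 1) r / Kf n r - bm n (k + 2) r / Kf n r) := by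
  have h := bm_rec hn hr k
  have k0 := (K_pos hn hr).ne'
  simp only [yk, dv_re, ml_re, hu, hB]
  push_cast
  generalize (1 / n : ℝ) = g at *
  field_simp
  linear_combination 2 * h

/-- meaning of the moments -/
structure MOK (n : ℕ) (r : ℝ) (M : Mm ℝ) : Prop where
  w : HM n r (fun s => Wf r s) 1
  s : HM n r (fun s => Wf r s * s) M.s
  a0 : HM n r (fun s => Wf r s ^ 2) M.a0
  a1 : HM n r (fun s => Wf r s ^ 2 * s) M.a1
  a2 : HM n r (fun s => Wf r s ^ 2 * s ^ 2) M.a2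
  b0 : HM n r (fun s => Wf r s ^ 3) M.b0
  b1 : HM n r (fun s => Wf r s ^ 3 * s) M.b1
  b2 : HM n r (fun s => Wf r s ^ 3 * s ^ 2) M.b2
  b3 : HM n r (fun s => Wf r s ^ 3 * s ^ 3) M.b3
  e2 : HM n r (fun s => (1 + 1 / n) * (Wf r s * s ^ 2)) M.e2
  e3 : HM n r (fun s => (1 + 1 / n) * (Wf r s ^ 2 * s ^ 3)) M.e3
  e4 : HM n r (fun s => (1 + 1 / n) * (Wf r s ^ 3 * s ^ 4)) M.e4
  R : HM n r (fun s => r * (s / (r + s))) (r + M.s)

theorem mo_ok (hn : 2 ≤ n) (hr : 0 < r) :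
    MOK n r (mo (1 / n) r (Ms n r / Kf n r) (1 + r)⁻¹) := by
  have r1 : 1 + r ≠ 0 := by positivity
  have h0 := g_K hn hr
  have h1 := b12 hn hr
  have T : ∀ x, (1 + r)⁻¹ * ((1 + r) * x) = x := fun x => inv_mul_cancel_left₀ r1 x
  unfold mo
  extract_lets y1 u2 B3 y2 u3 v3 B4 y3 u4 v4 B5 y4 u5 v5 B6 rr er R2 R4
  have hy1 : y1 = _ := yk_eq hn hr 1 (by rw [h1]; simp) (s_b hn hr)
  have hu2 : u2 = _ := (congrArg _ hy1).trans (T _)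
  have hB3 : B3 = r * (bm n 3 r / Kf n r) := by simp only [B3]; rw [hu2, hy1, s_b hn hr]; ring
  have hy2 : y2 = _ := yk_eq hn hr 2 hu2 hB3
  have hu3 : u3 = _ := (congrArg _ hy2).trans (T _)
  have hB4 : B4 = r * (bm n 4 r / Kf n r) := by simp only [B4, v3]; rw [hu3, hy2, hB3]; ring
  have hy3 : y3 = _ := yk_eq hn hr 3 hu3 hB4
  have hu4 : u4 = _ := (congrArg _ hy3).trans (T _)
  have hB5 : B5 = r * (bm n 5 r / Kf n r) := by simp only [B5, v4]; rw [hu4, hy3, hB4]; ring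
  have hy4 : y4 = _ := yk_eq hn hr 4 hu4 hB5
  have hu5 : u5 = _ := (congrArg _ hy4).trans (T _)
  have hB6 : B6 = r * (bm n 6 r / Kf n r) := by simp only [B6, v5]; rw [hu5, hy4, hB5]; ring
  have hR2 : R2 = (1 + 1 / n) * r * (sm n 1 / Kf n r - r * (bm n 1 r / Kf n r) -
      r * (bm n 2 r / Kf n r)) := by
    simp only [R2, er, ml_re, s_b hn hr]
    linear_combination -2 * r * h0 - (r * (2 / n - (1 - 1 / n) * r) - (1 + 1 / n) * r ^ 2) * h1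
  refine ⟨.bp hn hr 0 1 (-1) 0 0 0 0 (fun s b h e d => ?_) (by rw [h1]; ring),
    .bp hn hr 0 0 r 0 0 0 0 (fun s b h e d => ?_) (by rw [s_b hn hr]; ring),
    .bp hn hr 0 0 1 (-2) 1 0 0 (fun s b h e d => ?_) (by simp only [hu2, hu3]; ring),
    .bp hn hr 0 0 0 r (-r) 0 0 (fun s b h e d => ?_) (by simp only [v3]; rw [hu3, hy2]; ring),
    .bp hn hr 0 0 0 0 (r ^ 2) 0 0 (fun s b h e d => ?_) (by simp only [hB4]; ring),
    .bp hn hr 0 0 0 1 (-3) 3 (-1) (fun s b h e d => ?_)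
      (by simp only [hu3, hu4, hu5, ml_re]; ring),
    .bp hn hr 0 0 0 0 r (-2 * r) r (fun s b h e d => ?_)
      (by simp only [v4, v5]; rw [hu4, hu5, hy3, hy4]; ring),
    .bp hn hr 0 0 0 0 0 (r ^ 2) (-r ^ 2) (fun s b h e d => ?_)
      (by simp only [v5]; rw [hu5, hy4]; ring),
    .bp hn hr 0 0 0 0 0 0 (r ^ 3) (fun s b h e d => ?_) (by simp only [hB6, rr]; ring),
    .bp hn hr ((1 + 1 / n) * r) (-(1 + 1 / n) * r ^ 2) (-(1 + 1 / n) * r ^ 2) 0 0 0 0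
      (fun s b h e d => ?_) (by simp only [hR2]; ring),
    .bp hn hr ((1 + 1 / n) * r ^ 2) (-(1 + 1 / n) * r ^ 3) (-(1 + 1 / n) * r ^ 3)
      (-(1 + 1 / n) * r ^ 3) (-(1 + 1 / n) * r ^ 3) 0 0
      (fun s b h e d => ?_) (by simp only [R4, er, hR2, hB3, hB4]; ring),
    .bp hn hr ((1 + 1 / n) * r ^ 3) (-(1 + 1 / n) * r ^ 4) (-(1 + 1 / n) * r ^ 4)
      (-(1 + 1 / n) * r ^ 4) (-(1 + 1 / n) * r ^ 4) (-(1 + 1 / n) * r ^ 4) (-(1 + 1 / n) * r ^ 4)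
      (fun s b h e d => ?_) (by simp only [R4, er, rr, hR2, hB3, hB4, hB5, hB6]; ring),
    .bp hn hr 0 r 0 0 0 0 0 (fun s b h e d => ?_) (by simp only [h1, s_b hn hr]; ring)⟩
  all_goals
    have h2 := congrArg (· ^ 2) h
    have h3 := congrArg (· ^ 3) h
    simp only [e, d] at h2 h3 ⊢
  · ring
  · linear_combination b * h
  · ring
  · linear_combination b ^ 2 * (1 - b) * h
  · linear_combination b ^ 2 * h2
  · ring
  · linear_combination b ^ 3 * (1 - b) ^ 2 * h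
  · linear_combination b ^ 3 * (1 - b) * h2
  · linear_combination b ^ 3 * h3
  · linear_combination (1 + 1 / n) * (b * s - r * (1 + b)) * h
  · linear_combination (1 + 1 / n) * (b ^ 2 * s * h2 - r ^ 2 * (1 + b + b ^ 2 + b ^ 3) * h)
  · linear_combination (1 + 1 / n) * (b ^ 3 * s * h3 -
      r ^ 3 * (1 + b + b ^ 2 + b ^ 3 + b ^ 4 + b ^ 5) * h)
  · ring

lemma HM.lin5 (hn : 2 ≤ n) {f1 f2 f3 f4 f5 : ℝ → ℝ} {v1 v2 v3 v4 v5 : ℝ} (h1 : HM n r f1 v1)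
    (h2 : HM n r f2 v2) (h3 : HM n r f3 v3) (h4 : HM n r f4 v4) (h5 : HM n r f5 v5)
    (a b c d e : ℝ) : HM n r (fun s => a * f1 s + b * f2 s + c * f3 s + d * f4 s + e * f5 s)
      (a * v1 + b * v2 + c * v3 + d * v4 + e * v5) :=
  ((h1.lin3 hn h2 h3 a b c).lin3 hn h4 h5 1 d e).of (fun _ _ => by ring) (by ring)

/-- meaning of the six numbers -/
structure SOK (n : ℕ) (r ct be : ℝ) (Q : Sx ℝ) : Prop where
  a1 : HM n r (fun s => (1 - 2 * (1 / n) + (1 + 1 / n) / 2 * s) * XG r ct be s) (Q.a1 / 1024)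
  a2 : HM n r (fun s => (1 - 2 * (1 / n) + (1 + 1 / n) / 2 * s) * XG r ct be s ^ 2) (Q.a2 / 1024)
  a3 : HM n r (fun s => (1 - 2 * (1 / n) + (1 + 1 / n) / 2 * s) * XG r ct be s ^ 3) (Q.a3 / 1024)
  b0 : HM n r (fun s => (1 - s) * Wf r s) (Q.b0 / 64)
  b1 : HM n r (fun s => (1 - s) * Wf r s * XG r ct be s) (Q.b1 / 64)
  b2 : HM n r (fun s => (1 - s) * Wf r s * XG r ct be s ^ 2) (Q.b2 / 64)

lemma MOK.sok (hn : 2 ≤ n) {M : Mm ℝ} (h : MOK n r M) {ct be : ℝ} {Q : Sx ℝ} (a m e : ℝ)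
    (ha : a = 2 * (1 - ct)) (hm : m = 1 - 2 * (1 / n)) (he : e = (1 + 1 / n) / 2)
    (a1 : Q.a1 / 1024 = m * a + (m * be + e * a) * M.s + be / 2 * M.e2)
    (a2 : Q.a2 / 1024 = m * a ^ 2 * M.a0 + (2 * m * a * be + e * a ^ 2) * M.a1 +
      (m * be ^ 2 + 2 * e * a * be) * M.a2 + be ^ 2 / 2 * M.e3)
    (a3 : Q.a3 / 1024 = m * a ^ 3 * M.b0 + (3 * m * a ^ 2 * be + e * a ^ 3) * M.b1 +
      (3 * m * a * be ^ 2 + 3 * e * a ^ 2 * be) * M.b2 + (m * be ^ 3 + 3 * e * a * be ^ 2) * M.b3 +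
      be ^ 3 / 2 * M.e4)
    (b0 : Q.b0 / 64 = 1 - M.s) (b1 : Q.b1 / 64 = a * M.a0 + (be - a) * M.a1 - be * M.a2)
    (b2 : Q.b2 / 64 = a ^ 2 * M.b0 + (2 * a * be - a ^ 2) * M.b1 + (be ^ 2 - 2 * a * be) * M.b2 -
      be ^ 2 * M.b3) : SOK n r ct be Q := by
  refine ⟨(h.w.lin3 hn h.s h.e2 (m * a) _ _).of (fun s _ => ?_) (a1.trans (by rw [mul_one])),
    (h.a0.lin5 hn h.a1 h.a2 h.e3 h.e3 _ _ _ _ 0).of (fun s _ => ?_)
      (a2.trans ((add_zero _).symm.trans (congrArg _ (zero_mul _).symm))),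
    (h.b0.lin5 hn h.b1 h.b2 h.b3 h.e4 _ _ _ _ _).of (fun s _ => ?_) a3,
    (h.w.lin hn h.s 1 (-1)).of (fun s _ => ?_) (b0.trans (by ring)),
    (h.a0.lin3 hn h.a1 h.a2 a (be - a) (-be)).of (fun s _ => ?_) (b1.trans (by ring)),
    (h.b0.lin5 hn h.b1 h.b2 h.b3 h.b3 (a ^ 2) (2 * a * be - a ^ 2) (be ^ 2 - 2 * a * be) (-be ^ 2)
      0).of (fun s _ => ?_) (b2.trans (by ring))⟩
  all_goals
    subst ha hm he
    try unfold XG
    ring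

theorem qo_ok (hn : 2 ≤ n) {M : Mm ℝ} (h : MOK n r M) (a : ℕ) {c : ℝ} (hc : c = 1 - a / 16) :
    SOK n r c 0 (qo a (po (1 / n) M)) := by
  refine h.sok hn _ _ _ rfl rfl rfl ?_ ?_ ?_ ?_ ?_ ?_ <;>
    simp only [qo, po, nn, ml_re, nt_re, hc] <;> push_cast <;> ring

theorem qn_ok (hn : 2 ≤ n) {M : Mm ℝ} (h : MOK n r M) (j : ℕ) {c : ℝ} (hc : c = j / 16 - 1) :
    SOK n r (-(r + c)) (-(r + 2 * c)) (qn j (pn (1 / n) r M)) := by
  refine h.sok hn _ _ _ rfl rfl rfl ?_ ?_ ?_ ?_ ?_ ?_ <;>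
    simp only [qn, pn, nn, sa, ml_re, nt_re, hc] <;> push_cast <;> ring

theorem vx_ok (hn : 2 ≤ n) (hr : 0 < r) {M : Mm ℝ} (h : MOK n r M) {ct be Y : ℝ} {Q : Sx ℝ}
    (hQ : SOK n r ct be Q) {q0 q2 t0 t2 : ℕ} {q1 t1 : ℤ}
    (hX : ∀ s ∈ Icc (0 : ℝ) 1, 0 ≤ XG r ct be s ∧ XG r ct be s ≤ Y) (hY : Y < 1)
    (hq : ∀ X, 0 ≤ X → X ≤ Y →
      -Real.log (1 - X) ≤ X * (q0 / 2 ^ 24 + q1 / 2 ^ 24 * X + q2 / 2 ^ 24 * X ^ 2))
    (ht : ∀ X, X ≤ Y → ct * (t0 / 2 ^ 36 + t1 / 2 ^ 36 * X + t2 / 2 ^ 36 * X ^ 2) ≤ ct * (1 - X)⁻¹) :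
    Ps r ct be ∧ bG n r ct be ≤ ((vl q0 q1 q2 Q (ml 34359738368 M.s) +
      -16 * ct * vt t0 t1 t2 Q) / 2 ^ 35 - r) * Kf n r :=
  ⟨Ps_X hr (fun s hs => (hX s hs).2) hY, (bG_X hn hr hX hY hq ht hQ.a1 hQ.a2 hQ.a3 hQ.b0 hQ.b1 hQ.b2
    h.R).trans_eq (by simp only [vl, vt, ml_re, mz_re, dv_re]; push_cast; ring)⟩

lemma gk_eq (hn : 2 ≤ n) (hr : 0 < r) :
    gk (1 / n : ℝ) r (Ms n r / Kf n r) r⁻¹ = 2 * (1 / n) / Kf n r := by
  have h1 := sm_rec hn 0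
  have h2 := g_K hn hr
  rw [sm_zero hn] at h1
  rw [b12 hn hr] at h2
  have : r * r⁻¹ = 1 := mul_inv_cancel₀ hr.ne'
  simp only [gk, ml_re, nt_re, s_b hn hr, Nat.cast_zero, zero_add] at h1 ⊢
  push_cast
  linear_combination -2 * h2 + 2 / Kf n r * h1 + 2 * (1 / n) * (bm n 2 r / Kf n r) * this

theorem vs_ok (hn : 2 ≤ n) (hr : 0 < r) {ct be p q Y V : ℝ} {a b t0 t2 : ℕ} {t1 : ℤ}
    (hp : p * r = -2 * ct) (hq : q * r ^ 2 = r * be - 1) (p0 : 0 ≤ p)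
    (hZ : ∀ s ∈ Icc (0 : ℝ) 1, p * s + q * s ^ 2 ≤ Y) (hY : Y < 1) (hV : (1 + r)⁻¹ ≤ V)
    (ha : ∀ X, X ≤ Y → -Real.log (1 - X) ≤ X + a / SS * X ^ 2)
    (hb : ∀ X, X ≤ V → -Real.log (1 - X) ≤ X + b / SS / 2 * X ^ 2)
    (ht : ∀ X, X ≤ Y → (1 - X)⁻¹ ≤ t0 / SS + t1 / SS * X + t2 / SS * X ^ 2) :
    Ps r ct be ∧ bG n r ct be ≤ (vs a t0 t1 t2
      (cs (1 / n : ℝ) fun k => (nt (2 * k + 1) + 1 / n : ℝ)⁻¹)
      (gk (1 / n : ℝ) r (Ms n r / Kf n r) r⁻¹) (hk b (1 / n : ℝ) (Ms n r / Kf n r) r⁻¹) p q / 4 - r) *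
      Kf n r := by
  have M := mo_ok hn hr
  have g0 := (gam_bd hn).1
  have S := HM.s hn hr
  have x : r * r⁻¹ = 1 := mul_inv_cancel₀ hr.ne'
  have k0 := (K_pos hn hr).ne'
  have st : ∀ k : ℕ, sm n (k + 1) / Kf n r = sm n k / Kf n r *
      (2 - (2 * k + 2) * (nt (2 * k + 1) + 1 / n : ℝ)⁻¹) := fun k => by
    have h := sm_rec hn k
    rw [nt_re]
    push_cast
    generalize (1 / n : ℝ) = g at *
    have : (2 * k + 1 + g : ℝ) ≠ 0 := by positivity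
    field_simp
    linear_combination 2 * h
  have G := gk_eq hn hr
  have h1 : sm n 1 / Kf n r = gk (1 / n : ℝ) r (Ms n r / Kf n r) r⁻¹ / 2 *
      (2 * (nt (2 * 0 + 1) + 1 / n : ℝ)⁻¹) := by
    rw [G, st 0, sm_zero hn, nt_re]
    generalize (1 / n : ℝ) = g at *
    push_cast
    field_simp
    ring
  have h0 : (1 + 1 / n) / 2 * (sm n 1 / Kf n r) = gk (1 / n : ℝ) r (Ms n r / Kf n r) r⁻¹ / 2 := by
    rw [G, ← mul_div_assoc, show (1 + 1 / n) / 2 * sm n 1 = 1 / n by simpa [sm_zero hn] using sm_rec hn 0]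
    ring
  have m : ∃ m e : ℝ, m = 1 - 2 * (1 / n) ∧ e = (1 + 1 / n) / 2 := ⟨_, _, rfl, rfl⟩
  obtain ⟨m, e, hm, he⟩ := m
  have b1 := (M.R.lin hn (S 1) (m * r⁻¹ - e) e).of
    (g := fun s => (1 - 2 * (1 / n) + (1 + 1 / n) / 2 * s) * (s / (r + s)))
    (v := 2 - 1 / n + (r⁻¹ - 1 / n * r⁻¹ - 1) * (Ms n r / Kf n r)) (fun s hs => by
      have := (add_pos_of_pos_of_nonneg hr hs.1).ne'
      rw [← hm, ← he]
      field_simp
      ring) (by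
      simp only [gk, mo, ml_re, nt_re] at h0 ⊢
      push_cast at h0
      rw [hm, he]
      linear_combination -h0 - (1 - 2 * (1 / n)) * x)
  have b2 := (M.s.lin hn M.e2 (m * r⁻¹) (r⁻¹ / 2)).of
    (g := fun s => (1 - 2 * (1 / n) + (1 + 1 / n) / 2 * s) * (s / (r + s)) ^ 2)
    (v := 1 + 1 / n + (r⁻¹ - 1 / n * r⁻¹ - (3 + 1 / n) / 2) * (Ms n r / Kf n r)) (fun s hs => by
      have := (add_pos_of_pos_of_nonneg hr hs.1).ne'
      rw [hm]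
      unfold Wf
      field_simp) (by
      simp only [mo, ml_re]
      push_cast
      rw [hm]
      linear_combination -(1 + 1 / n - (3 + 1 / n) / 2 * (Ms n r / Kf n r)) * x)
  have H := bG_S hn hr hp hq p0 hZ hY hV ha hb ht
    (((S 1).lin3 hn (S 2) (S 3) (p * m) (p * e + q * m) (q * e)).of
      (fun _ _ => by rw [hm, he]; ring) rfl)
    (((S 2).lin5 hn (S 3) (S 4) (S 5) (S 5) (p ^ 2 * m) (p ^ 2 * e + 2 * p * q * m)
      (2 * p * q * e + q ^ 2 * m) (q ^ 2 * e) 0).of (fun _ _ => by rw [hm, he]; ring) rfl) b1 b2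
    (((S 1).lin hn (S 2) 1 (-1)).of (fun _ _ => by ring) rfl)
    (((S 2).lin3 hn (S 3) (S 4) p (q - p) (-q)).of (fun _ _ => by ring) rfl)
    (((S 3).lin5 hn (S 4) (S 5) (S 6) (S 6) (p ^ 2) (2 * p * q - p ^ 2) (q ^ 2 - 2 * p * q) (-q ^ 2)
      0).of (fun _ _ => by ring) rfl) M.R
  refine ⟨H.1, H.2.trans_eq (congrArg (· * _) ?_)⟩
  rw [st 5, st 4, st 3, st 2, st 1, h1, hm, he]
  simp only [vs, cs, hk, nn, mo, ml_re, sc_re, sz_re, dv_re]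
  generalize gk (1 / n : ℝ) r (Ms n r / Kf n r) r⁻¹ = G
  simp only [nt_re (2 : ℕ)]
  push_cast
  ring

end Pool.Agent.Lib.MP_f225de_an.Bx
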