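import Pool.Agent.Lib.MP_f225de_an.BX2
import Pool.Agent.Lib.MP_f225de_an.BX3

set_option autoImplicit false

open Set

namespace Pool.Agent.Lib.MP_f225de_an.Bx

open MA Sc

section programs

variable {α β : Type} [Add α] [Sub α] [Mul α] [Sc α] [Add β] [Sub β] [Mul β] [Sc β]

/-- first majorant, outer form -/
def vo (q0 : ℕ) (q1 : ℤ) (q2 t0 : ℕ) (t1 : ℤ) (t2 a : ℕ) (h : ℤ) (P : Sx α) (z : α) : α :=
  vl q0 q1 q2 (qo a P) z + mz h (vt t0 t1 t2 (qo a P))

/-- first majorant, inner form -/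
def vi (q0 : ℕ) (q1 : ℤ) (q2 t0 : ℕ) (t1 : ℤ) (t2 j : ℕ) (P : Pn α) (z y : α) : α :=
  vl q0 q1 q2 (qn j P) z + (y + nt j) * vt t0 t1 t2 (qn j P)

/-- maps that commute with the operations -/
structure Hom (f : α → β) : Prop where
  add : ∀ x y, f (x + y) = f x + f y
  sub : ∀ x y, f (x - y) = f x - f y
  mul : ∀ x y, f (x * y) = f x * f y
  nt : ∀ k, f (nt k) = nt k
  ml : ∀ k x, f (ml k x) = ml k (f x)
  mz : ∀ k x, f (mz k x) = mz k (f x)
  sc : ∀ k x, f (sc k x) = sc k (f x)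
  sz : ∀ k x, f (sz k x) = sz k (f x)
  dv : ∀ x k, f (dv x k) = dv (f x) k

variable {f : α → β} (h : Hom f) (q0 q2 t0 t2 a : ℕ) (q1 t1 k : ℤ) (g r s T z y : α)

include h

lemma Hom.vo : f (vo q0 q1 q2 t0 t1 t2 a k (po g (mo g r s T)) z) =
    vo q0 q1 q2 t0 t1 t2 a k (po (f g) (mo (f g) (f r) (f s) (f T))) (f z) := by
  simp only [Bx.vo, vl, vt, qo, po, mo, nn, yk, h.add, h.sub, h.mul, h.nt, h.ml, h.mz, h.dv]

lemma Hom.vi : f (vi q0 q1 q2 t0 t1 t2 a (pn g r (mo g r s T)) z y) =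
    vi q0 q1 q2 t0 t1 t2 a (pn (f g) (f r) (mo (f g) (f r) (f s) (f T))) (f z) (f y) := by
  simp only [Bx.vi, vl, vt, qn, pn, mo, nn, sa, yk, h.add, h.sub, h.mul, h.nt, h.ml, h.mz, h.dv]

lemma Hom.vs (i : ℕ → α) : f (vs a t0 t1 t2 (cs g i) (gk g r s T) (hk q0 g s T) z y) =
    vs a t0 t1 t2 (cs (f g) fun k => f (i k)) (gk (f g) (f r) (f s) (f T))
      (hk q0 (f g) (f s) (f T)) (f z) (f y) := by
  simp only [Bx.vs, cs, gk, hk, nn, h.add, h.sub, h.mul, h.nt, h.ml, h.sc, h.sz, h.dv]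

end programs

variable {t : Ns} {n : ℕ} {x p q r ct be : ℝ} {X P Q : AF}

lemma hre : Hom fun x : Pr t => x.1.1 := ⟨fun _ _ => rfl, fun _ _ => rfl, fun _ _ => rfl,
  fun _ => rfl, fun _ _ => rfl, fun _ _ => rfl, fun _ _ => rfl, fun _ _ => rfl, fun _ _ => rfl⟩

lemma haf : Hom fun x : Pr t => x.1.2 := ⟨fun _ _ => rfl, fun _ _ => rfl, fun _ _ => rfl,
  fun _ => rfl, fun _ _ => rfl, fun _ _ => rfl, fun _ _ => rfl, fun _ _ => rfl, fun _ _ => rfl⟩

lemma Pr.mem {p : Pr t} (h1 : p.1.1 = x) (h2 : p.1.2 = X) : mem t x X := h1 ▸ h2 ▸ p.2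

/-- comparison of a form with the values `L`, `R` at the two ends of a row -/
def fin (M : ℕ) (X : AF) (L R : ℕ) : Bool :=
  let z := (X.a.add X.rd).add (M.shiftLeft 14)
  (z.add X.B).ble ((X.A.add X.b).add (L.mul M)) && (z.add X.b).ble ((X.A.add X.B).add (R.mul M))

/-- the bound that is stored at a node -/
def Bd (n : ℕ) (r u ct be : ℝ) (L R : ℕ) : Prop := Ps r ct be ∧
  bG n r ct be ≤ ((((1 - u) * L + (1 + u) * R) / 2 - 16384) / 4096 - r) * Kf n r

lemma fin_ok (hn : 2 ≤ n) (hr : 0 < r) {M L R : ℕ} {m : ℝ} (h : mem t x X) (m0 : 0 < m)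
    (hm : SS * m = 4096 * M) (e : fin M X L R = true)
    (b : Ps r ct be ∧ bG n r ct be ≤ (x / m - r) * Kf n r) : Bd n r t.u ct be L R := by
  refine ⟨b.1, b.2.trans (mul_le_mul_of_nonneg_right (sub_le_sub_right ?_ _) (K_pos hn hr).le)⟩
  simp only [fin, Bool.and_eq_true, Nat.ble_eq, show M.shiftLeft 14 = M * 2 ^ 14 from
    Nat.shiftLeft_eq M 14, ← Nat.cast_le (α := ℝ), c_add, c_mul] at e
  push_cast at e
  have u := abs_le.1 t.hu
  have a := mul_le_mul_of_nonneg_left e.1 (sub_nonneg.2 u.2)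
  have b := mul_le_mul_of_nonneg_left e.2 (show 0 ≤ 1 + t.u by linarith)
  have c := (abs_le.1 h.rd).2
  rw [div_le_iff₀ m0]
  refine le_of_mul_le_mul_left ?_ SS_pos
  rw [mul_comm _ m, ← mul_assoc, hm]
  linarith

lemma idx (s : ℕ) {m : ℕ} {y : ℝ} (h : 64 * y * 2 ^ s ≤ m) :
    y ≤ ((m.shiftRight s).succ : ℕ) / 64 := by
  have := (div_err m (show 0 < 2 ^ s by positivity)).2
  rw [sub_le_iff_le_add', div_le_iff₀ (by positivity)] at this
  rw [show m.shiftRight s = m / 2 ^ s from Nat.shiftRight_eq_div_pow m s, le_div_iff₀ (by norm_num)]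
  push_cast at *
  exact le_of_mul_le_mul_right (by linarith) (show (0 : ℝ) < 2 ^ s by positivity)

/-- bound of `p s + q s ^ 2` on the unit interval -/
def zb (P Q : AF) : ℕ := cond ((P + Q + Q).neg.hi.beq 0) (P + Q).hi
  (cond (Q.neg.lo.beq 0) (P.hi.add Q.hi) ((P.hi.mul P.hi).div (Q.neg.lo.shiftLeft 2)).succ)

lemma zb_ok (hp : mem t p P) (hq : mem t q Q) (p0 : 0 ≤ p) {s : ℝ} (hs : s ∈ Icc (0 : ℝ) 1) :
    SS * (p * s + q * s ^ 2) ≤ zb P Q := by
  have S := SS_pos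
  have s0 := hs.1
  have s1 := sub_nonneg.2 hs.2
  unfold zb
  rcases e : (P + Q + Q).neg.hi.beq 0 with _ | _
  · rcases e' : Q.neg.lo.beq 0 with _ | _
    · have l := Nat.pos_of_ne_zero (Nat.ne_of_beq_eq_false e')
      have a := hq.neg.lo l
      have b := (div_err (P.hi * P.hi) (show 0 < Q.neg.lo * 2 ^ 2 by positivity)).2
      have l' : (0 : ℝ) < Q.neg.lo := by exact_mod_cast l
      rw [sub_le_iff_le_add', div_le_iff₀ (by positivity)] at b
      rw [cond_false, cond_false, show Q.neg.lo.shiftLeft 2 = _ from Nat.shiftLeft_eq _ 2]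
      change _ ≤ ((P.hi * P.hi / (Q.neg.lo * 2 ^ 2) + 1 : ℕ) : ℝ)
      push_cast at b ⊢
      refine le_of_mul_le_mul_right (le_trans ?_ b) (by positivity)
      nlinarith [mul_self_le_mul_self (mul_nonneg S.le p0) hp.hi, sq_nonneg (SS * p - 2 * Q.neg.lo * s),
        mul_nonneg (mul_nonneg l'.le (sq_nonneg s)) (sub_nonneg.2 a)]
    · rw [cond_false, cond_true, c_add]
      nlinarith [hp.hi, hq.hi, mul_nonneg (mul_nonneg S.le p0) s1, mul_nonneg (sq_nonneg s)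
        (sub_nonneg.2 hq.hi), mul_nonneg (Q.hi.cast_nonneg (α := ℝ))
        (show 0 ≤ 1 - s ^ 2 by nlinarith)]
  · have := ((hp.add hq).add hq).nonneg (Nat.eq_of_beq_eq_true e)
    refine le_trans (mul_le_mul_of_nonneg_left ?_ S.le) (hp.add hq).hi
    nlinarith [mul_nonneg s1 (mul_nonneg s1 p0), mul_nonneg s1 (mul_nonneg (show 0 ≤ 1 + s by
      linarith) this)]

/-- check of a node by the second majorant -/
def nS (C : Cs AF) (G H P Q : AF) (L R : ℕ) : Bool :=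
  let k := ((zb P Q).shiftRight 58).succ
  let e := rc k
  k.ble 56 && fin 18014398509481984 (vs ((fl e 144).shiftLeft 40) ((fl e 192).shiftLeft 28)
    (fz e 240 * 268435456) ((fl e 288).shiftLeft 28) C G H P Q) L R

/-- check of an outer node by the first majorant -/
def nO (P : Sx AF) (z : AF) (om j L R : ℕ) : Bool :=
  let a := Nat.sub 32 j
  let k := ((a.mul om).shiftRight 61).succ
  let e := rc k
  let b := j.ble 16
  k.ble 56 && fin 154742504910672534362390528 (vo (fl e 0) (fz e 48) (fl e 96)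
    (fl e (cond b 192 336)) (cond b (fz e 240) (fl e 384)) (cond b (fl e 288) 0) a
    (Int.subNatNat 16 j) P z) L R

/-- check of an inner node by the first majorant -/
def nI (P : Pn AF) (z y : AF) (y1 y2 r1 r2 j L R : ℕ) : Bool :=
  let m := y1.add (j.mul y2)
  let J := j.shiftLeft 64
  let k := ((m.add ((r2.add J).sub m)).shiftRight 63).succ
  let e := rc k
  let b := Nat.ble 295147905179352825856 (r1.add J)
  k.ble 56 && (b || (r2.add J).ble 295147905179352825856) && fin 154742504910672534362390528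
    (vi (fl e 0) (fz e 48) (fl e 96) (fl e (cond b 192 336)) (cond b (fz e 240) (fl e 384))
      (cond b (fl e 288) 0) j P z y) L R

lemma sel {k : ℕ} (h : k < 57) {b : Bool} (h1 : b = true → ct ≤ 0) (h2 : b = false → 0 ≤ ct)
    (X : ℝ) (hX : X ≤ k / 64) : ct * (fl (rc k) (cond b 192 336) / 2 ^ 36 +
      (cond b (fz (rc k) 240) (fl (rc k) 384) : ℤ) / 2 ^ 36 * X +
      (cond b (fl (rc k) 288) 0 : ℕ) / 2 ^ 36 * X ^ 2) ≤ ct * (1 - X)⁻¹ := by
  cases b
  · exact mul_le_mul_of_nonneg_left (by simpa using (ent_ok h).l X hX) (h2 rfl)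
  · exact mul_le_mul_of_nonpos_left ((ent_ok h).u X hX) (h1 rfl)

lemma shl (a k : ℕ) : ((a.shiftLeft k : ℕ) : ℝ) = a * 2 ^ k := by
  rw [show a.shiftLeft k = _ from Nat.shiftLeft_eq a k]
  push_cast
  rfl

lemma W_bd (hr : 0 < r) {s : ℝ} (hs : s ∈ Icc (0 : ℝ) 1) : 0 ≤ Wf r s ∧ Wf r s ≤ 1 / 4 ∧
    Wf r s * s ≤ (1 + r)⁻¹ - (1 + r)⁻¹ * (1 + r)⁻¹ ∧
    (1 ≤ r → Wf r s ≤ (1 + r)⁻¹ - (1 + r)⁻¹ * (1 + r)⁻¹) := by
  have s0 := hs.1
  have s1 := sub_nonneg.2 hs.2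
  have e : (1 + r)⁻¹ - (1 + r)⁻¹ * (1 + r)⁻¹ = r / (1 + r) ^ 2 := by field_simp; ring
  unfold Wf
  rw [e, div_mul_eq_mul_div, div_le_div_iff₀ (by positivity) (by positivity),
    div_le_div_iff₀ (by positivity) (by positivity), div_le_div_iff₀ (by positivity) (by positivity)]
  refine ⟨by positivity, by nlinarith [sq_nonneg (r - s)], ?_, fun h => ?_⟩
  · nlinarith [mul_nonneg (mul_nonneg (mul_pos hr hr).le s1) (show 0 ≤ r + 2 * s + r * s by positivity)]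
  · nlinarith [mul_nonneg (mul_nonneg hr.le s1) (show 0 ≤ r ^ 2 - s by nlinarith)]

lemma lo_mono {a b : ℕ} (h : a ≤ b) (G : AF) : (nt a + G).lo ≤ (nt b + G).lo := by
  have e : ∀ a b : ℕ, a ≤ b → (cst a + G).lo ≤ (cst b + G).lo := fun a b h =>
    Nat.sub_le_sub_right (Nat.add_le_add_right h G.a) (Nat.add (Nat.add 0 G.A) (cst 0 + G).rad)
  refine e (a.shiftLeft (nat_lit 64)) (b.shiftLeft (nat_lit 64)) ?_
  rw [← Nat.cast_le (α := ℝ), shl, shl]
  gcongr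

variable {G R S T U : AF} {j L V : ℕ}

theorem nO_ok (hn : 2 ≤ n) (hr : 0 < r) (hg : mem t (1 / n) G) (hR : mem t r R)
    (hs : mem t (Ms n r / Kf n r) S) (hT : mem t (1 + r)⁻¹ T) {om : ℕ}
    (ho : ∀ s ∈ Icc (0 : ℝ) 1, SS * Wf r s ≤ om) (hj : j ≤ 32)
    (e : nO (po G (mo G R S T)) (ml 34359738368 S) om j L V = true) :
    Bd n r t.u (j / 16 - 1) 0 L V := by
  simp only [nO, Bool.and_eq_true, Nat.ble_eq] at e
  have k := Nat.lt_succ_of_le e.1
  have a : ((Nat.sub 32 j : ℕ) : ℝ) = 32 - j := by simpa using Nat.cast_sub (R := ℝ) hj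
  refine fin_ok hn hr (Pr.mem (hre.vo _ _ _ _ _ _ _ _ hg.pr hR.pr hs.pr hT.pr (hs.ml _).pr)
    (haf.vo ..)) (show 0 < 2 ^ 35 by positivity) (by norm_num [SS]) e.2 ?_
  have := vx_ok hn hr (mo_ok hn hr) (qo_ok hn (mo_ok hn hr) (Nat.sub 32 j) (c := j / 16 - 1)
    (by rw [a]; ring)) (fun s hs => ⟨?_, idx 61 ?_⟩) (ent_ok k).y (ent_ok k).q
    (sel k (b := j.ble 16) (fun h => ?_) fun h => ?_)
  · rwa [show -16 * ((j : ℝ) / 16 - 1) = (Int.subNatNat 16 j : ℤ) by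
      rw [Int.subNatNat_eq_coe]; push_cast; ring] at this
  · have : (j : ℝ) ≤ 32 := by exact_mod_cast hj
    exact mul_nonneg (W_bd hr hs).1 (by linarith)
  · have := mul_le_mul_of_nonneg_left (ho s hs) (Nat.sub 32 j).cast_nonneg
    rw [c_mul]
    rw [a, SS] at *
    unfold XG
    linarith
  · have : (j : ℝ) ≤ 16 := by exact_mod_cast Nat.le_of_ble_eq_true h
    linarith
  · have : (16 : ℝ) ≤ j := by exact_mod_cast (Nat.not_le.1 (Nat.not_le_of_not_ble_eq_true (Bool.eq_false_iff.1 h))).le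
    linarith

theorem nI_ok (hn : 2 ≤ n) (hr : 0 < r) (hg : mem t (1 / n) G) (hR : mem t r R)
    (hs : mem t (Ms n r / Kf n r) S) (hT : mem t (1 + r)⁻¹ T) {r1 r2 : ℕ} (h0 : r ≤ 2)
    (h1 : r1 ≤ 16 * (SS * r)) (h2 : 16 * (SS * r) ≤ r2)
    (e : nI (pn G R (mo G R S T)) (ml 34359738368 S) (ml 16 R - nt 16)
      (ml 16 R + ml 32 ((nt 2 - R) * (T - T * T))).hi (nt 1 - ml 4 (T - T * T)).hi r1 r2 j L V = true) :
    Bd n r t.u (-(r + (j / 16 - 1))) (-(r + 2 * (j / 16 - 1))) L V := by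
  simp only [nI, Bool.and_eq_true, Bool.or_eq_true, Nat.ble_eq] at e
  have k := Nat.lt_succ_of_le e.1.1
  have S0 := SS_pos
  have j0 : (0 : ℝ) ≤ j := j.cast_nonneg
  refine fin_ok hn hr (Pr.mem (hre.vi _ _ _ _ _ _ _ hg.pr hR.pr hs.pr hT.pr (hs.ml _).pr
    ((hR.ml 16).sub (mem.nt t 16)).pr) (haf.vi ..)) (show 0 < 2 ^ 35 by positivity)
    (by norm_num [SS]) e.2 ?_
  have := vx_ok hn hr (mo_ok hn hr) (qn_ok hn (mo_ok hn hr) j (c := j / 16 - 1) rfl)
    (fun s hs => ⟨?_, idx 63 ?_⟩) (ent_ok k).y (ent_ok k).q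
    (sel k (b := Nat.ble 295147905179352825856 (r1.add (j.shiftLeft 64))) (fun h => ?_) fun h => ?_)
  · rwa [show -16 * -(r + (j / 16 - 1)) = ml 16 r - nt 16 + nt j by
      simp only [ml_re, nt_re]; push_cast; ring] at this
  · refine mul_nonneg (W_bd hr hs).1 ?_
    nlinarith [mul_nonneg j0 (sub_nonneg.2 hs.2), mul_nonneg (sub_nonneg.2 h0) hs.1]
  · have w := W_bd hr hs
    have tT := hT.sub (hT.mul hT)
    have y1 := ((hR.ml 16).add ((((mem.nt t 2).sub hR).mul tT).ml 32)).hi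
    have y2 := mul_le_mul_of_nonneg_left ((mem.nt t 1).sub (tT.ml 4)).hi j0
    have a := mul_le_mul_of_nonneg_left w.2.1 (show 0 ≤ 16 * r + j by positivity)
    rw [c_add, c_sub, c_add, c_add, c_mul, shl, ← sub_le_iff_le_add', le_max_iff]
    simp only [ml_re, nt_re, SS, XG] at *
    push_cast at *
    rcases le_total (16 * r + 2 * j) 32 with b | b
    · exact .inr (by nlinarith [mul_le_mul_of_nonneg_left w.2.2.1 (sub_nonneg.2 b)])
    · exact .inl (by nlinarith [mul_nonneg (mul_nonneg w.1 hs.1) (sub_nonneg.2 b)])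
  · have := (Nat.cast_le (α := ℝ)).2 (Nat.le_of_ble_eq_true h)
    rw [c_add, shl] at this
    rw [SS] at h1
    push_cast at this
    linarith
  · have := (Nat.cast_le (α := ℝ)).2 (e.1.2.resolve_left (Nat.not_le_of_not_ble_eq_true (Bool.eq_false_iff.1 h)))
    rw [c_add, shl] at this
    rw [SS] at h2
    push_cast at this
    linarith

theorem nS_ok (hn : 2 ≤ n) (hr : 0 < r) (hg : mem t (1 / n) G) (hR : mem t r R)
    (hs : mem t (Ms n r / Kf n r) S) (hT : mem t (1 + r)⁻¹ T) (hU : mem t r⁻¹ U)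
    (g0 : 0 < (nt 1 + G).lo) (kb : (T.hi.shiftRight 58).succ ≤ 56) (hP : mem t p P) (hQ : mem t q Q)
    (hp : p * r = -2 * ct) (hq : q * r ^ 2 = r * be - 1) (p0 : 0 ≤ p)
    (e : nS (cs G fun k => (nt (2 * k + 1) + G).inv) (gk G R S U)
      (hk ((fl (rc (T.hi.shiftRight 58).succ) 144).shiftLeft 41) G S U) P Q L V = true) :
    Bd n r t.u ct be L V := by
  simp only [nS, Bool.and_eq_true, Nat.ble_eq] at e
  have k := ent_ok (Nat.lt_succ_of_le e.1)
  have i : ∀ k : ℕ, mem t (nt (2 * k + 1) + 1 / n)⁻¹ (nt (2 * k + 1) + G).inv := fun k =>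
    ((mem.nt t _).add hg).inv (g0.trans_le (lo_mono (Nat.le_add_left 1 (2 * k)) G))
  refine fin_ok hn hr (Pr.mem (hre.vs _ _ _ _ _ hg.pr hR.pr hs.pr hU.pr hP.pr hQ.pr fun k => (i k).pr)
    (haf.vs ..)) four_pos (by norm_num [SS]) e.2 (vs_ok hn hr hp hq p0 (fun s hs => idx 58 ?_) k.y
      (idx 58 ?_) (fun X hX => (k.a X hX).trans_eq ?_)
      (fun X hX => ((ent_ok (Nat.lt_succ_of_le kb)).a X hX).trans_eq ?_)
      fun X hX => (k.u X hX).trans_eq ?_)
  · have := zb_ok hP hQ p0 hs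
    rw [SS] at this
    show 64 * (p * s + q * s ^ 2) * _ ≤ _
    linarith
  · have := hT.hi
    rw [SS] at this
    linarith
  all_goals
    simp only [shl, SS]
    push_cast
    ring

end Pool.Agent.Lib.MP_f225de_an.Bx
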