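import Mathlib.Analysis.Real.Pi.Bounds

set_option autoImplicit false

open scoped Real

namespace Pool.Agent.Lib.MP_f225de_an

/-- An interval in fixed point arithmetic with scale `2^64` and bias `2^96`: the two fields are
upper bounds of `2^96 - 2^64 x` and of `2^96 + 2^64 x`. -/
structure Iv where
  l : ℕ
  h : ℕ

namespace Iv

/-- `n` is a biased upper bound of `x` -/
def U (x : ℝ) (n : ℕ) : Prop := 2 ^ 96 + 2 ^ 64 * x ≤ n

/-- `x` lies in the interval `I` -/
def mem (x : ℝ) (I : Iv) : Prop := U (-x) I.l ∧ U x I.h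

/-- positive part of a biased number -/
@[irreducible] def pp (n : ℕ) : ℕ := Nat.sub n (nat_lit 79228162514264337593543950336)

/-- negative part of a biased number -/
@[irreducible] def nm (n : ℕ) : ℕ := Nat.sub (nat_lit 79228162514264337593543950336) n

/-- maximum -/
@[irreducible] def mx (a b : ℕ) : ℕ := Nat.add a (Nat.sub b a)

/-- minimum -/
@[irreducible] def mn (a b : ℕ) : ℕ := Nat.sub a (Nat.sub a b)

variable {x y z : ℝ} {a b c d m n k p q : ℕ} {I J : Iv}

lemma sub_ge (a b : ℕ) : (a : ℝ) - b ≤ (Nat.sub a b : ℕ) := by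
  rw [sub_le_iff_le_add]
  exact_mod_cast (le_tsub_add : a ≤ a - b + b)

lemma add_eq (a b : ℕ) : ((Nat.add a b : ℕ) : ℝ) = a + b := Nat.cast_add a b

lemma mul_eq (a b : ℕ) : ((Nat.mul a b : ℕ) : ℝ) = a * b := Nat.cast_mul a b

lemma succ_eq (a : ℕ) : ((Nat.succ a : ℕ) : ℝ) = a + 1 := Nat.cast_succ a

lemma B_eq : ((nat_lit 79228162514264337593543950336 : ℕ) : ℝ) = 2 ^ 96 := by norm_num

lemma S_eq : ((nat_lit 18446744073709551616 : ℕ) : ℝ) = 2 ^ 64 := by norm_num

lemma BS_eq : ((nat_lit 1461501637330902918203684832734729763729642094592 : ℕ) : ℝ) =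
    2 ^ 64 * (2 ^ 96 + 1) := by norm_num

lemma div_ge (hm : 0 < m) (h : m * (z + 1) ≤ n) : z ≤ (Nat.div n m : ℕ) := by
  have h1 : (n : ℝ) < (n / m : ℕ) * m + m := by exact_mod_cast Nat.lt_div_mul_add hm
  have h2 : (0 : ℝ) < m := by exact_mod_cast hm
  refine le_of_mul_le_mul_left ?_ h2
  change _ ≤ _ * ((n / m : ℕ) : ℝ)
  linarith

lemma div_le (n m : ℕ) : ((Nat.div n m : ℕ) : ℝ) ≤ n / m := Nat.cast_div_le

lemma shr_ge (h : 2 ^ 64 * (z + 1) ≤ n) : z ≤ (Nat.shiftRight n (nat_lit 64) : ℕ) := by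
  rw [show Nat.shiftRight n (nat_lit 64) = Nat.div n (2 ^ 64) from Nat.shiftRight_eq_div_pow n 64]
  exact div_ge (by norm_num) (by exact_mod_cast h)

lemma shl_eq (n : ℕ) : ((Nat.shiftLeft n (nat_lit 64) : ℕ) : ℝ) = 2 ^ 64 * n := by
  rw [show Nat.shiftLeft n (nat_lit 64) = n * 2 ^ 64 from Nat.shiftLeft_eq n 64]
  push_cast
  ring

lemma mx_eq (a b : ℕ) : mx a b = max a b := by
  unfold mx
  change a + (b - a) = _
  omega

lemma mn_eq (a b : ℕ) : mn a b = min a b := by
  unfold mn
  change a - (a - b) = _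
  omega

lemma U.mono (h : U x a) (hy : y ≤ x) (hb : a ≤ b) : U y b := by
  have : (a : ℝ) ≤ b := by exact_mod_cast hb
  unfold U at *
  linarith

lemma U.min (h : U x a) (h' : U x b) : U x (mn a b) := by
  rw [mn_eq]
  rcases le_total a b with e | e
  · rwa [min_eq_left e]
  · rwa [min_eq_right e]

lemma U.maxl (h : U x a) (b : ℕ) : U x (mx a b) := h.mono le_rfl (mx_eq a b ▸ le_max_left a b)

lemma U.maxr (h : U x b) (a : ℕ) : U x (mx a b) := h.mono le_rfl (mx_eq a b ▸ le_max_right a b)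

lemma U.le_pp (h : U x n) : 2 ^ 64 * x ≤ pp n := by
  have := sub_ge n (nat_lit 79228162514264337593543950336)
  rw [B_eq] at this
  unfold U at h
  unfold pp
  linarith

lemma U.nm_zero (h : U x n) (hx : 0 ≤ x) : nm n = 0 := by
  unfold nm
  refine Nat.sub_eq_zero_of_le ?_
  rw [← Nat.cast_le (α := ℝ), B_eq]
  unfold U at h
  linarith

lemma U.nm_le (h : U (-x) n) (hx : 0 ≤ x) : nm n ≤ 2 ^ 64 * x := by
  rcases le_total n (nat_lit 79228162514264337593543950336) with e | e
  · rw [nm, show Nat.sub _ n = _ - n from rfl, Nat.cast_sub e, B_eq]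
    unfold U at h
    linarith
  · rw [nm, show Nat.sub _ n = 0 from Nat.sub_eq_zero_of_le e, Nat.cast_zero]
    positivity

lemma U.pos (h : U (-x) n) (hn : 0 < nm n) : 0 < x ∧ nm n ≤ 2 ^ 64 * x := by
  have e : n ≤ nat_lit 79228162514264337593543950336 := (Nat.lt_of_sub_pos (by rwa [nm] at hn)).le
  have h1 : (0 : ℝ) < nm n := by exact_mod_cast hn
  rw [nm, show Nat.sub _ n = _ - n from rfl, Nat.cast_sub e, B_eq] at *
  unfold U at h
  exact ⟨by linarith, by linarith⟩

lemma U.parts (h : U x n) : 2 ^ 64 * x ≤ pp n - nm n := by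
  rcases le_total 0 x with e | e
  · rw [h.nm_zero e, Nat.cast_zero, sub_zero]
    exact h.le_pp
  · have := U.nm_le (x := -x) (by rwa [neg_neg]) (neg_nonneg.2 e)
    linarith [(pp n).cast_nonneg (α := ℝ)]

lemma mem.neg' (h : mem x I) : U (- -x) I.h := by rw [neg_neg]; exact h.2

lemma mem.congr (h : mem x I) (e : x = y) : mem y I := e ▸ h

/-- negation -/
def neg (I : Iv) : Iv := ⟨I.h, I.l⟩

theorem mem.neg (h : mem x I) : mem (-x) (neg I) := ⟨h.neg', h.1⟩

/-- biased sum -/
@[irreducible] def ad (a b : ℕ) : ℕ :=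
  Nat.sub (Nat.add a b) (nat_lit 79228162514264337593543950336)

lemma U.ad (h : U x a) (h' : U y b) : U (x + y) (ad a b) := by
  have := sub_ge (Nat.add a b) (nat_lit 79228162514264337593543950336)
  rw [add_eq, B_eq] at this
  unfold U Iv.ad at *
  linarith

/-- sum -/
@[irreducible] def add (I J : Iv) : Iv :=
  ⟨Nat.sub (Nat.add I.l J.l) (nat_lit 79228162514264337593543950336),
    Nat.sub (Nat.add I.h J.h) (nat_lit 79228162514264337593543950336)⟩

/-- difference -/
@[irreducible] def sub (I J : Iv) : Iv :=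
  ⟨Nat.sub (Nat.add I.l J.h) (nat_lit 79228162514264337593543950336),
    Nat.sub (Nat.add I.h J.l) (nat_lit 79228162514264337593543950336)⟩

theorem mem.add (h : mem x I) (h' : mem y J) : mem (x + y) (add I J) := by
  have : mem (x + y) ⟨ad I.l J.l, ad I.h J.h⟩ := ⟨neg_add x y ▸ h.1.ad h'.1, h.2.ad h'.2⟩
  delta ad at this
  delta Iv.add
  exact this

theorem mem.sub (h : mem x I) (h' : mem y J) : mem (x - y) (sub I J) := by
  have : mem (x - y) ⟨ad I.l J.h, ad I.h J.l⟩ :=
    ⟨(h.1.ad h'.2).mono (by linarith) le_rfl, (h.2.ad h'.1).mono (by linarith) le_rfl⟩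
  delta ad at this
  delta Iv.sub
  exact this

/-- biased value of `(u - w) / 2^128` -/
@[irreducible] def fn (u w : ℕ) : ℕ := Nat.shiftRight
  (Nat.sub (Nat.add u (nat_lit 1461501637330902918203684832734729763729642094592)) w) (nat_lit 64)

lemma U_fn (h : 2 ^ 64 * x * (2 ^ 64 * y) ≤ a - b) : U (x * y) (fn a b) := by
  unfold fn
  refine shr_ge (le_trans ?_ (sub_ge _ _))
  rw [add_eq, BS_eq]
  linarith

/-- upper bound of a product from the parts of the end points -/
@[irreducible] def pr (ap am bp bm cp cm dp dm : ℕ) : ℕ :=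
  fn (mx (Nat.mul bp dp) (Nat.mul am cm)) (Nat.add (Nat.mul ap dm) (Nat.mul bm cp))

lemma U_pr (h1 : U (-x) a) (h2 : U x b) (h3 : U (-y) c) (h4 : U y d) : U (x * y)
    (pr (nm a) (pp a) (pp b) (nm b) (nm c) (pp c) (pp d) (nm d)) := by
  unfold pr
  refine U_fn ?_
  rw [mx_eq, add_eq, mul_eq, mul_eq, Nat.cast_max, mul_eq, mul_eq]
  have m1 := le_max_left ((pp b : ℝ) * pp d) (pp a * pp c)
  have m2 := le_max_right ((pp b : ℝ) * pp d) (pp a * pp c)
  have m3 : (0 : ℝ) ≤ pp b * pp d := by positivity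
  rcases le_total 0 x with e | e <;> rcases le_total 0 y with f | f
  · have := mul_le_mul h2.le_pp h4.le_pp (by positivity) (by positivity)
    rw [h2.nm_zero e, h4.nm_zero f, Nat.cast_zero]
    linarith
  · have := mul_le_mul (h1.nm_le e) (U.nm_le (x := -y) (by rwa [neg_neg]) (neg_nonneg.2 f))
      (by positivity) (by positivity)
    rw [h2.nm_zero e, Nat.cast_zero]
    linarith
  · have := mul_le_mul (h3.nm_le f) (U.nm_le (x := -x) (by rwa [neg_neg]) (neg_nonneg.2 e))
      (by positivity) (by positivity)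
    rw [h1.nm_zero (neg_nonneg.2 e), Nat.cast_zero]
    linarith
  · have := mul_le_mul h1.le_pp h3.le_pp (mul_nonneg (by positivity) (neg_nonneg.2 f))
      (by positivity)
    rw [h1.nm_zero (neg_nonneg.2 e), h3.nm_zero (neg_nonneg.2 f), Nat.cast_zero]
    linarith

/-- product from the parts of the end points -/
@[irreducible] def mul8 (ap am bp bm cp cm dp dm : ℕ) : Iv :=
  ⟨Nat.shiftRight (Nat.sub (Nat.add (Nat.add (Nat.mul bp cm) (Nat.sub (Nat.mul am dp) (Nat.mul bp cm)))
      (nat_lit 1461501637330902918203684832734729763729642094592))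
      (Nat.add (Nat.mul ap cp) (Nat.mul bm dm))) (nat_lit 64),
    Nat.shiftRight (Nat.sub (Nat.add (Nat.add (Nat.mul bp dp) (Nat.sub (Nat.mul am cm) (Nat.mul bp dp)))
      (nat_lit 1461501637330902918203684832734729763729642094592))
      (Nat.add (Nat.mul ap dm) (Nat.mul bm cp))) (nat_lit 64)⟩

/-- product -/
@[irreducible] def mul (I J : Iv) : Iv := mul8
  (Nat.sub (nat_lit 79228162514264337593543950336) I.l)
  (Nat.sub I.l (nat_lit 79228162514264337593543950336))
  (Nat.sub I.h (nat_lit 79228162514264337593543950336))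
  (Nat.sub (nat_lit 79228162514264337593543950336) I.h)
  (Nat.sub (nat_lit 79228162514264337593543950336) J.l)
  (Nat.sub J.l (nat_lit 79228162514264337593543950336))
  (Nat.sub J.h (nat_lit 79228162514264337593543950336))
  (Nat.sub (nat_lit 79228162514264337593543950336) J.h)

theorem mem.mul (h : mem x I) (h' : mem y J) : mem (x * y) (mul I J) := by
  have : mem (x * y) ⟨_, _⟩ := ⟨mul_neg x y ▸ U_pr h.1 h.2 h'.neg' h'.1, U_pr h.1 h.2 h'.1 h'.2⟩
  revert this
  delta pr fn mx pp nm Iv.mul mul8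
  exact id

/-- product with a nonnegative first factor -/
@[irreducible] def mulL (I J : Iv) : Iv :=
  ⟨Nat.shiftRight (Nat.sub (Nat.add
      (Nat.mul (Nat.sub I.h (nat_lit 79228162514264337593543950336))
        (Nat.sub J.l (nat_lit 79228162514264337593543950336)))
      (nat_lit 1461501637330902918203684832734729763729642094592))
      (Nat.mul (Nat.sub (nat_lit 79228162514264337593543950336) I.l)
        (Nat.sub (nat_lit 79228162514264337593543950336) J.l))) (nat_lit 64),
    Nat.shiftRight (Nat.sub (Nat.add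
      (Nat.mul (Nat.sub I.h (nat_lit 79228162514264337593543950336))
        (Nat.sub J.h (nat_lit 79228162514264337593543950336)))
      (nat_lit 1461501637330902918203684832734729763729642094592))
      (Nat.mul (Nat.sub (nat_lit 79228162514264337593543950336) I.l)
        (Nat.sub (nat_lit 79228162514264337593543950336) J.h))) (nat_lit 64)⟩

lemma U_prL (hx : 0 ≤ x) (h1 : U (-x) a) (h2 : U x b) (h4 : U y d) :
    U (x * y) (fn (Nat.mul (pp b) (pp d)) (Nat.mul (nm a) (nm d))) := by
  refine U_fn ?_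
  rw [mul_eq, mul_eq]
  rcases le_total 0 y with f | f
  · rw [h4.nm_zero f, Nat.cast_zero, mul_zero, sub_zero]
    exact mul_le_mul h2.le_pp h4.le_pp (by positivity) (by positivity)
  · have := mul_le_mul (h1.nm_le hx) (U.nm_le (x := -y) (by rwa [neg_neg]) (neg_nonneg.2 f))
      (by positivity) (by positivity)
    have m3 : (0 : ℝ) ≤ pp b * pp d := by positivity
    linarith

theorem mem.mulL (hx : 0 ≤ x) (h : mem x I) (h' : mem y J) : mem (x * y) (mulL I J) := by
  have : mem (x * y) ⟨_, _⟩ := ⟨mul_neg x y ▸ U_prL hx h.1 h.2 h'.1, U_prL hx h.1 h.2 h'.2⟩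
  revert this
  delta fn pp nm Iv.mulL
  exact id

/-- biased value of `u / 2^128` -/
@[irreducible] def fu (u : ℕ) : ℕ := Nat.shiftRight
  (Nat.add u (nat_lit 1461501637330902918203684832734729763729642094592)) (nat_lit 64)

/-- biased value of `-w / 2^128` -/
@[irreducible] def fd (w : ℕ) : ℕ := Nat.shiftRight
  (Nat.sub (nat_lit 1461501637330902918203684832734729763729642094592) w) (nat_lit 64)

lemma U_fu (h : 2 ^ 64 * x * (2 ^ 64 * y) ≤ a) : U (x * y) (fu a) := by
  unfold fu
  refine shr_ge ?_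
  rw [add_eq, BS_eq]
  linarith

lemma U_fd (h : b ≤ 2 ^ 64 * x * (2 ^ 64 * y)) : U (-(x * y)) (fd b) := by
  unfold fd
  refine shr_ge (le_trans ?_ (sub_ge _ _))
  rw [BS_eq]
  linarith

/-- product of nonnegative factors -/
@[irreducible] def mulP (I J : Iv) : Iv :=
  ⟨Nat.shiftRight (Nat.sub (nat_lit 1461501637330902918203684832734729763729642094592)
      (Nat.mul (Nat.sub (nat_lit 79228162514264337593543950336) I.l)
        (Nat.sub (nat_lit 79228162514264337593543950336) J.l))) (nat_lit 64),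
    Nat.shiftRight (Nat.add
      (Nat.mul (Nat.sub I.h (nat_lit 79228162514264337593543950336))
        (Nat.sub J.h (nat_lit 79228162514264337593543950336)))
      (nat_lit 1461501637330902918203684832734729763729642094592)) (nat_lit 64)⟩

theorem mem.mulP (hx : 0 ≤ x) (hy : 0 ≤ y) (h : mem x I) (h' : mem y J) :
    mem (x * y) (mulP I J) := by
  have : mem (x * y) ⟨_, _⟩ := ⟨U_fd (mul_eq _ _ ▸ mul_le_mul (h.1.nm_le hx) (h'.1.nm_le hy)
    (by positivity) (by positivity)),
    U_fu (mul_eq _ _ ▸ mul_le_mul h.2.le_pp h'.2.le_pp (by positivity) (by positivity))⟩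
  revert this
  delta fd fu pp nm Iv.mulP
  exact id

/-- absolute value -/
def abs (I : Iv) : Iv :=
  ⟨mn (mn I.l I.h) (nat_lit 79228162514264337593543950336), mx I.l I.h⟩

lemma U_zero (hx : x ≤ 0) : U x (nat_lit 79228162514264337593543950336) := by
  unfold U
  rw [B_eq]
  linarith

theorem mem.abs (h : mem x I) : mem |x| (abs I) :=
  ⟨((h.1.mono (neg_le_neg (le_abs_self x)) le_rfl).min (h.2.mono (neg_abs_le x) le_rfl)).min
    (U_zero (neg_nonpos.2 (abs_nonneg x))), by
    rcases abs_choice x with e | e <;> rw [e]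
    exacts [h.2.maxr _, h.1.maxl _]⟩

/-- square of a natural number -/
def s2 (a : ℕ) : ℕ := Nat.mul a a

/-- square -/
def sq (I : Iv) : Iv := ⟨fd (s2 (nm (mn I.l I.h))), fu (s2 (pp (mx I.l I.h)))⟩

theorem mem.sq (h : mem x I) : mem (x ^ 2) (sq I) := by
  have h0 := abs_nonneg x
  have h1 := ((h.1.mono (neg_le_neg (le_abs_self x)) le_rfl).min
    (h.2.mono (neg_abs_le x) le_rfl)).nm_le h0
  have h2 := h.abs.2.le_pp
  rw [← sq_abs, pow_two]
  exact ⟨U_fd (mul_eq _ _ ▸ mul_le_mul h1 h1 (by positivity) (by positivity)),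
    U_fu (mul_eq _ _ ▸ mul_le_mul h2 h2 (by positivity) (by positivity))⟩

/-- square of a nonnegative number -/
def sqP (I : Iv) : Iv := mulP I I

theorem mem.sqP (hx : 0 ≤ x) (h : mem x I) : mem (x ^ 2) (sqP I) := pow_two x ▸ h.mulP hx hx h

/-- pointwise maximum -/
def imax (I J : Iv) : Iv := ⟨mn I.l J.l, mx I.h J.h⟩

/-- pointwise minimum -/
def imin (I J : Iv) : Iv := ⟨mx I.l J.l, mn I.h J.h⟩

/-- intersection -/
def meet (I J : Iv) : Iv := ⟨mn I.l J.l, mn I.h J.h⟩

/-- convex hull -/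
def hull (I J : Iv) : Iv := ⟨mx I.l J.l, mx I.h J.h⟩

/-- lower end of `I`, upper end of `J` -/
def span (I J : Iv) : Iv := ⟨I.l, J.h⟩

theorem mem.imax (h : mem x I) (h' : mem y J) : mem (max x y) (imax I J) :=
  ⟨(h.1.mono (neg_le_neg (le_max_left x y)) le_rfl).min
    (h'.1.mono (neg_le_neg (le_max_right x y)) le_rfl), by
    rcases max_choice x y with e | e <;> rw [e]
    exacts [h.2.maxl _, h'.2.maxr _]⟩

theorem mem.imin (h : mem x I) (h' : mem y J) : mem (min x y) (imin I J) :=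
  (h.neg.imax h'.neg).neg.congr (by rw [max_neg_neg, neg_neg])

theorem mem.meet (h : mem x I) (h' : mem x J) : mem x (meet I J) := ⟨h.1.min h'.1, h.2.min h'.2⟩

theorem mem.hull_left (h : mem x I) (J : Iv) : mem x (hull I J) := ⟨h.1.maxl _, h.2.maxl _⟩

theorem mem.hull_right (h : mem x J) (I : Iv) : mem x (hull I J) := ⟨h.1.maxr _, h.2.maxr _⟩

theorem mem.span (h : mem x I) (h' : mem y J) (h1 : x ≤ z) (h2 : z ≤ y) : mem z (span I J) :=
  ⟨h.1.mono (neg_le_neg h1) le_rfl, h'.2.mono h2 le_rfl⟩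

/-- biased product with `p / q` -/
@[irreducible] def sc (p q n : ℕ) : ℕ := Nat.div (Nat.sub (Nat.add (Nat.mul p n)
  (Nat.mul q (nat_lit 79228162514264337593543950337)))
  (Nat.mul p (nat_lit 79228162514264337593543950336))) q

lemma U.sc (h : U x n) (p : ℕ) (hq : 0 < q) : U (p / q * x) (sc p q n) := by
  unfold Iv.sc
  refine div_ge hq (le_trans ?_ (sub_ge _ _))
  have h1 := mul_le_mul_of_nonneg_left h (p.cast_nonneg (α := ℝ))
  have h2 : (q : ℝ) * (p / q) = p := mul_div_cancel₀ _ (by positivity)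
  rw [add_eq, mul_eq, mul_eq, mul_eq, B_eq,
    show ((nat_lit 79228162514264337593543950337 : ℕ) : ℝ) = 2 ^ 96 + 1 by norm_num]
  linear_combination h1 + 2 ^ 64 * x * h2

/-- product with `p / q` -/
def mulQ (p q : ℕ) (I : Iv) : Iv := ⟨sc p q I.l, sc p q I.h⟩

theorem mem.mulQ (h : mem x I) (p : ℕ) (hq : 0 < q) : mem (p / q * x) (mulQ p q I) :=
  ⟨mul_neg (p / q : ℝ) x ▸ h.1.sc p hq, h.2.sc p hq⟩

/-- biased product with `p` -/
@[irreducible] def sn (p n : ℕ) : ℕ :=
  Nat.sub (Nat.add (Nat.mul p n) (nat_lit 79228162514264337593543950336))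
  (Nat.mul p (nat_lit 79228162514264337593543950336))

lemma U.sn (h : U x n) (p : ℕ) : U (p * x) (sn p n) := by
  unfold Iv.sn
  refine le_trans ?_ (sub_ge _ _)
  have h1 := mul_le_mul_of_nonneg_left h (p.cast_nonneg (α := ℝ))
  rw [add_eq, mul_eq, mul_eq, B_eq]
  linarith

/-- product with a natural number -/
def mulN (p : ℕ) (I : Iv) : Iv := ⟨sn p I.l, sn p I.h⟩

theorem mem.mulN (h : mem x I) (p : ℕ) : mem (p * x) (mulN p I) :=
  ⟨mul_neg (p : ℝ) x ▸ h.1.sn p, h.2.sn p⟩

/-- the interval with the scaled end points `a / 2^64` and `b / 2^64` -/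
def ofS (a b : ℕ) : Iv :=
  ⟨nm a, Nat.add b (nat_lit 79228162514264337593543950336)⟩

theorem mem_ofS (h1 : a ≤ 2 ^ 64 * x) (h2 : 2 ^ 64 * x ≤ b) : mem x (ofS a b) := by
  unfold ofS nm
  refine ⟨le_trans ?_ (sub_ge _ _), ?_⟩
  · rw [B_eq]
    linarith
  · rw [U, add_eq, B_eq]
    linarith

/-- the natural number `k` -/
def ofN (k : ℕ) : Iv := ofS (Nat.shiftLeft k (nat_lit 64)) (Nat.shiftLeft k (nat_lit 64))

theorem mem_ofN (k : ℕ) : mem k (ofN k) := mem_ofS (shl_eq k).le (shl_eq k).ge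

/-- the number `p / q` -/
def ofQ (p q : ℕ) : Iv := ofS (Nat.div (Nat.shiftLeft p (nat_lit 64)) q)
  (Nat.div (Nat.add (Nat.shiftLeft p (nat_lit 64)) (Nat.pred q)) q)

theorem mem_ofQ (p : ℕ) (hq : 0 < q) : mem (p / q) (ofQ p q) := by
  refine mem_ofS ((div_le _ _).trans_eq (by rw [shl_eq, mul_div_assoc])) ?_
  have h1 := Nat.lt_div_mul_add (a := Nat.add (Nat.shiftLeft p (nat_lit 64)) (Nat.pred q)) hq
  have h2 : Nat.shiftLeft p (nat_lit 64) ≤
      Nat.div (Nat.add (Nat.shiftLeft p (nat_lit 64)) (Nat.pred q)) q * q := by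
    generalize Nat.shiftLeft p (nat_lit 64) = u at *
    change u + (q - 1) < (u + (q - 1)) / q * q + q at h1
    change u ≤ (u + (q - 1)) / q * q
    omega
  rw [← mul_div_assoc, div_le_iff₀ (by positivity), ← shl_eq]
  exact_mod_cast h2

/-- zero -/
def zero : Iv :=
  ⟨nat_lit 79228162514264337593543950336, nat_lit 79228162514264337593543950336⟩

/-- one -/
def one : Iv := ⟨nat_lit 79228162495817593519834398720, nat_lit 79228162532711081667253501952⟩

/-- the number `π` -/
def pi : Iv := ⟨nat_lit 79228162456312181928926967597, nat_lit 79228162572216493258160933076⟩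

theorem mem_zero : mem 0 zero := by norm_num [mem, U, zero]

theorem mem_one : mem 1 one := by norm_num [mem, U, one]

theorem mem_pi : mem π pi := by
  have := Real.pi_gt_d20
  have := Real.pi_lt_d20
  norm_num [mem, U, pi]
  constructor <;> linarith

/-- the real number with the biased code `n` -/
noncomputable def val (n : ℕ) : ℝ := (n - 2 ^ 96) / 2 ^ 64

lemma U_iff : U x n ↔ x ≤ val n := by
  rw [U, val, le_div_iff₀ (by positivity)]
  constructor <;> intro h <;> linarith

theorem mem_iff : mem x I ↔ -val I.l ≤ x ∧ x ≤ val I.h := by rw [mem, U_iff, U_iff, neg_le]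

/-- the point `val n` -/
def pt (n : ℕ) : Iv := ⟨Nat.sub (nat_lit 158456325028528675187087900672) n, n⟩

theorem mem_pt (n : ℕ) : mem (val n) (pt n) := by
  refine ⟨le_trans (le_of_eq ?_) (sub_ge _ _), U_iff.2 le_rfl⟩
  rw [val]
  norm_num
  ring

/-- the interval `[val a, val b]` -/
def box (a b : ℕ) : Iv := ⟨Nat.sub (nat_lit 158456325028528675187087900672) a, b⟩

theorem mem_box (h1 : val a ≤ x) (h2 : x ≤ val b) : mem x (box a b) :=
  (mem_pt a).span (mem_pt b) h1 h2

/-- test of `x ≤ y` -/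
def le (I J : Iv) : Bool := Nat.ble (Nat.add I.h J.l) (nat_lit 158456325028528675187087900672)

/-- test of `x < y` -/
def lt (I J : Iv) : Bool := Nat.ble (Nat.add I.h J.l) (nat_lit 158456325028528675187087900671)

/-- test of `0 ≤ x` -/
def nonneg (I : Iv) : Bool := Nat.ble I.l (nat_lit 79228162514264337593543950336)

/-- test of `0 < x` -/
def pos (I : Iv) : Bool := Nat.ble I.l (nat_lit 79228162514264337593543950335)

/-- test of `x ≤ 0` -/
def nonpos (I : Iv) : Bool := Nat.ble I.h (nat_lit 79228162514264337593543950336)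

theorem mem.le (h : mem x I) (h' : mem y J) (e : le I J = true) : x ≤ y := by
  have := (Nat.cast_le (α := ℝ)).2 (Nat.le_of_ble_eq_true e)
  rw [add_eq] at this
  norm_num [mem, U] at *
  linarith [h.2, h'.1]

theorem mem.lt (h : mem x I) (h' : mem y J) (e : lt I J = true) : x < y := by
  have := (Nat.cast_le (α := ℝ)).2 (Nat.le_of_ble_eq_true e)
  rw [add_eq] at this
  norm_num [mem, U] at *
  linarith [h.2, h'.1]

theorem mem.nonneg (h : mem x I) (e : nonneg I = true) : 0 ≤ x := by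
  have := (Nat.cast_le (α := ℝ)).2 (Nat.le_of_ble_eq_true e)
  have h1 : _ ≤ _ := h.1
  rw [B_eq] at this
  linarith

theorem mem.nonpos (h : mem x I) (e : nonpos I = true) : x ≤ 0 := neg_nonneg.1 (h.neg.nonneg e)

lemma nm_pos (e : pos I = true) : 0 < nm I.l := by
  have := Nat.le_of_ble_eq_true e
  unfold nm
  exact Nat.sub_pos_of_lt (Nat.lt_succ_of_le this)

theorem mem.pos (h : mem x I) (e : pos I = true) : 0 < x := (h.1.pos (nm_pos e)).1

/-- raise the lower end to `c / 2^64` -/
def raise (c : ℕ) (I : Iv) : Iv := ⟨mn I.l (nm c), I.h⟩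

theorem mem.raise (h : mem x I) (hc : c ≤ 2 ^ 64 * x) : mem x (raise c I) :=
  ⟨h.1.min (mem_ofS (b := pp I.h) hc h.2.le_pp).1, h.2⟩

theorem pos_raise (hc : 0 < c) (I : Iv) : pos (raise c I) = true := by
  refine Nat.ble_eq_true_of_le (((mn_eq _ _).trans_le (min_le_right _ _)).trans ?_)
  delta nm
  change 79228162514264337593543950336 - c ≤ 79228162514264337593543950335
  omega

lemma quo_le (hc : 0 < c) (h1 : 2 ^ 64 * x ≤ a) (h2 : c ≤ 2 ^ 64 * y) :
    2 ^ 64 * (x / y) ≤ (Nat.div (Nat.shiftLeft a (nat_lit 64)) c : ℕ) + 1 := by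
  have h3 : (0 : ℝ) < c := by exact_mod_cast hc
  have hy : 0 < y := by linarith
  refine sub_le_iff_le_add.1 (div_ge hc ?_)
  rw [shl_eq, sub_add_cancel, ← mul_div_assoc, ← mul_div_assoc, div_le_iff₀ hy]
  rcases le_total 0 x with e | e
  · linarith [mul_le_mul h2 h1 (by positivity) (by positivity)]
  · have h4 : (0 : ℝ) ≤ a * y := by positivity
    linarith [mul_nonpos_of_nonneg_of_nonpos h3.le e]

lemma le_quo (hy : 0 < y) (h1 : a ≤ 2 ^ 64 * x) (h2 : 2 ^ 64 * y ≤ d) :
    (Nat.div (Nat.shiftLeft a (nat_lit 64)) d : ℕ) ≤ 2 ^ 64 * (x / y) := by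
  have h0 := shl_eq a
  generalize Nat.shiftLeft a (nat_lit 64) = u at *
  refine le_trans (div_le u d) ?_
  have h3 : (0 : ℝ) < d := by linarith
  have h4 := mul_le_mul h1 h2 (by positivity) (le_trans (Nat.cast_nonneg a) h1)
  rw [h0, ← mul_div_assoc, div_le_div_iff₀ h3 hy]
  linarith

/-- biased upper bound of a quotient -/
@[irreducible] def dv (n c d : ℕ) : ℕ := Nat.sub (Nat.add
  (Nat.div (Nat.shiftLeft (Nat.sub n (nat_lit 79228162514264337593543950336)) (nat_lit 64)) c)
  (nat_lit 79228162514264337593543950337))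
  (Nat.div (Nat.shiftLeft (Nat.sub (nat_lit 79228162514264337593543950336) n) (nat_lit 64)) d)

lemma B1_eq : ((nat_lit 79228162514264337593543950337 : ℕ) : ℝ) = 2 ^ 96 + 1 := by norm_num

lemma U.dv (h : U x n) (hc : 0 < c) (h2 : c ≤ 2 ^ 64 * y) (h3 : 2 ^ 64 * y ≤ d) :
    U (x / y) (dv n c d) := by
  have h0 : (0 : ℝ) < c := by exact_mod_cast hc
  have hy : 0 < y := by linarith
  have e1 := quo_le hc h.le_pp h2
  have : 2 ^ 64 * (x / y) ≤ (Nat.div (Nat.shiftLeft (pp n) (nat_lit 64)) c : ℕ) + 1 -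
      (Nat.div (Nat.shiftLeft (nm n) (nat_lit 64)) d : ℕ) := by
    rcases le_total 0 x with e | e
    · rw [h.nm_zero e, show Nat.div (Nat.shiftLeft 0 (nat_lit 64)) d = 0 from Nat.zero_div d]
      push_cast
      linarith
    · have := le_quo hy (U.nm_le (x := -x) (by rwa [neg_neg]) (neg_nonneg.2 e)) h3
      rw [neg_div] at this
      linarith [(Nat.div (Nat.shiftLeft (pp n) (nat_lit 64)) c).cast_nonneg (α := ℝ)]
  delta pp nm at this
  delta Iv.dv
  refine le_trans ?_ (sub_ge _ _)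
  rw [add_eq, B1_eq]
  linarith

/-- quotient by a positive number -/
def div (I J : Iv) : Iv := ⟨dv I.l (nm J.l) (pp J.h), dv I.h (nm J.l) (pp J.h)⟩

theorem mem.div (h : mem x I) (h' : mem y J) (e : Iv.pos J = true) : mem (x / y) (div I J) :=
  have := (h'.1.pos (nm_pos e)).2
  ⟨neg_div y x ▸ h.1.dv (nm_pos e) this h'.2.le_pp, h.2.dv (nm_pos e) this h'.2.le_pp⟩

/-- quotient of a nonnegative by a positive number -/
@[irreducible] def divP (I J : Iv) : Iv :=
  ⟨Nat.sub (nat_lit 79228162514264337593543950336) (Nat.div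
      (Nat.shiftLeft (Nat.sub (nat_lit 79228162514264337593543950336) I.l) (nat_lit 64))
      (Nat.sub J.h (nat_lit 79228162514264337593543950336))),
    Nat.add (Nat.div
      (Nat.shiftLeft (Nat.sub I.h (nat_lit 79228162514264337593543950336)) (nat_lit 64))
      (Nat.sub (nat_lit 79228162514264337593543950336) J.l))
      (nat_lit 79228162514264337593543950337)⟩

theorem mem.divP (hx : 0 ≤ x) (h : mem x I) (h' : mem y J) (e : Iv.pos J = true) :
    mem (x / y) (divP I J) := by
  have h1 := h'.1.pos (nm_pos e)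
  have h2 := quo_le (nm_pos e) h.2.le_pp h1.2
  have h3 := le_quo h1.1 (h.1.nm_le hx) h'.2.le_pp
  revert h2 h3
  delta pp nm Iv.divP
  intro h2 h3
  refine ⟨le_trans ?_ (sub_ge _ _), ?_⟩
  · rw [B_eq] at *
    linarith
  · rw [U, add_eq, B1_eq]
    linarith

/-- inverse of a positive number -/
@[irreducible] def inv (J : Iv) : Iv :=
  ⟨Nat.sub (nat_lit 79228162514264337593543950336)
      (Nat.div (nat_lit 340282366920938463463374607431768211456)
      (Nat.sub J.h (nat_lit 79228162514264337593543950336))),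
    Nat.add (Nat.div (nat_lit 340282366920938463463374607431768211456)
      (Nat.sub (nat_lit 79228162514264337593543950336) J.l))
      (nat_lit 79228162514264337593543950337)⟩

theorem mem.inv (h : mem y J) (e : Iv.pos J = true) : mem y⁻¹ (inv J) := by
  have := mem_one.divP zero_le_one h e
  rw [← inv_eq_one_div] at this
  revert this
  delta Iv.divP Iv.inv
  exact id

/-- one Newton step for the square root -/
@[irreducible] def nw1 (n g : ℕ) : ℕ :=
  Nat.succ (Nat.shiftRight (Nat.add g (Nat.div n g)) (nat_lit 1))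

/-- `k + 1` Newton steps for the square root -/
def nw (n g k : ℕ) : ℕ := nw1 n (Nat.rec (Nat.succ g) (fun _ a => nw1 n a) k)

lemma nw1_pos (n g : ℕ) : 0 < nw1 n g := by
  unfold nw1
  exact Nat.succ_pos _

lemma nw_ge (n g k : ℕ) : √n ≤ nw n g k := by
  have : ∀ g, 0 < g → √n ≤ nw1 n g := fun g hg => by
    have h0 : (0 : ℝ) < g := by exact_mod_cast hg
    have h1 := div_ge (z := n / g - 1) (n := n) hg
      (by rw [sub_add_cancel, mul_div_cancel₀ _ h0.ne'])
    have h2 : √n ≤ (g + n / g) / 2 := by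
      rw [le_div_iff₀ two_pos, ← sub_le_iff_le_add', le_div_iff₀ h0]
      nlinarith [sq_nonneg (√n - g), Real.sq_sqrt (n.cast_nonneg (α := ℝ))]
    have h3 : g + Nat.div n g + 1 ≤ 2 * nw1 n g := by
      unfold nw1
      rw [show Nat.shiftRight (Nat.add g (Nat.div n g)) (nat_lit 1) = (g + Nat.div n g) / 2 ^ 1 from
        Nat.shiftRight_eq_div_pow _ 1]
      omega
    have h4 := (Nat.cast_le (α := ℝ)).2 h3
    push_cast at h4
    linarith
  refine this _ ?_
  cases k
  exacts [Nat.succ_pos g, nw1_pos _ _]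

/-- square root from the scaled end points -/
def sqrt2 (g k a b : ℕ) : Iv := ofS (Nat.div a (nw a g k)) (nw b g k)

/-- square root by `k + 1` Newton steps from the guess `g / 2^64` -/
def sqrt (g k : ℕ) (I : Iv) : Iv :=
  sqrt2 g k (Nat.shiftLeft (nm I.l) (nat_lit 64)) (Nat.shiftLeft (pp I.h) (nat_lit 64))

theorem mem.sqrt (hx : 0 ≤ x) (h : mem x I) (g k : ℕ) : mem √x (sqrt g k I) := by
  have e : 2 ^ 64 * √x = √(2 ^ 64 * (2 ^ 64 * x)) := by
    rw [← mul_assoc, Real.sqrt_mul (by positivity), Real.sqrt_mul_self (by positivity)]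
  refine mem_ofS ((div_le _ _).trans ?_) ?_ <;> rw [e]
  · refine le_trans ?_ (Real.sqrt_le_sqrt (((shl_eq _).trans_le
      (mul_le_mul_of_nonneg_left (h.1.nm_le hx) (by positivity)))))
    refine div_le_of_le_mul₀ (by positivity) (by positivity) ?_
    exact (Real.mul_self_sqrt (by positivity)).ge.trans
      (mul_le_mul_of_nonneg_left (nw_ge _ g k) (by positivity))
  · exact (Real.sqrt_le_sqrt ((mul_le_mul_of_nonneg_left h.2.le_pp (by positivity)).trans_eq
      (shl_eq _).symm)).trans (nw_ge _ g k)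

/-- evaluate `n` before passing it to `f` -/
def forceN {α : Type} (n : ℕ) (f : ℕ → α) : α :=
  Nat.casesOn n (f (nat_lit 0)) fun m => f (Nat.succ m)

/-- evaluate `I` before passing it to `f` -/
def force {α : Type} (I : Iv) (f : Iv → α) : α :=
  forceN I.l fun a => forceN I.h fun b => f ⟨a, b⟩

theorem forceN_eq {α : Type} (n : ℕ) (f : ℕ → α) : forceN n f = f n := by cases n <;> rfl

theorem force_eq {α : Type} (I : Iv) (f : Iv → α) : force I f = f I := by
  rw [force, forceN_eq, forceN_eq]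

end Iv

end Pool.Agent.Lib.MP_f225de_an
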