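import Pool.Agent.Lib.MP_f225de_an.PF1

set_option autoImplicit false

open MeasureTheory Set Filter Topology
open scoped Real

namespace Pool.Agent.Lib.MP_f225de_an.MA

variable {n : ℕ} {r c s : ℝ}

/-- moments of `s/(r+s)` -/
noncomputable def bm (n k : ℕ) (r : ℝ) : ℝ := ∫ s, (s / (r + s)) ^ k ∂mu n

/-- the integrand of `Kf` -/
noncomputable def Wf (r s : ℝ) : ℝ := s * r / (r + s) ^ 2

/-- mean of `s W` -/
noncomputable def Ms (n : ℕ) (r : ℝ) : ℝ := ∫ s, s * Wf r s ∂mu n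

/-- mean of `4 W^2` -/
noncomputable def Mz (n : ℕ) (r : ℝ) : ℝ := ∫ s, 4 * Wf r s ^ 2 ∂mu n

/-- mean of `4 s W^2` -/
noncomputable def Msz (n : ℕ) (r : ℝ) : ℝ := ∫ s, s * (4 * Wf r s ^ 2) ∂mu n

lemma b_cont (hr : 0 < r) : ContinuousOn (fun s => s / (r + s)) (Icc 0 1) :=
  ContinuousOn.div (by fun_prop) (by fun_prop) fun _ hs => (add_pos_of_pos_of_nonneg hr hs.1).ne'

lemma W_cont (hr : 0 < r) : ContinuousOn (Wf r) (Icc 0 1) :=
  ContinuousOn.div (by fun_prop) (by fun_prop)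
    fun _ hs => (pow_pos (add_pos_of_pos_of_nonneg hr hs.1) 2).ne'

lemma bm_int (hn : 2 ≤ n) (hr : 0 < r) (k : ℕ) : Integrable (fun s => (s / (r + s)) ^ k) (mu n) :=
  int_cont hn ((b_cont hr).pow k)

lemma mu_lin (hn : 2 ≤ n) {f g : ℝ → ℝ} (hf : ContinuousOn f (Icc 0 1))
    (hg : ContinuousOn g (Icc 0 1)) (a b : ℝ) :
    ∫ s, (a * f s + b * g s) ∂mu n = a * ∫ s, f s ∂mu n + b * ∫ s, g s ∂mu n := by
  rw [integral_add ((int_cont hn hf).const_mul a) ((int_cont hn hg).const_mul b),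
    integral_const_mul, integral_const_mul]

lemma mu_lin4 (hn : 2 ≤ n) {f g h k : ℝ → ℝ} (hf : ContinuousOn f (Icc 0 1))
    (hg : ContinuousOn g (Icc 0 1)) (hh : ContinuousOn h (Icc 0 1))
    (hk : ContinuousOn k (Icc 0 1)) (a b c d : ℝ) :
    ∫ s, (a * f s + b * g s + (c * h s + d * k s)) ∂mu n = a * ∫ s, f s ∂mu n +
      b * ∫ s, g s ∂mu n + (c * ∫ s, h s ∂mu n + d * ∫ s, k s ∂mu n) := by
  rw [integral_add (int_cont hn (by fun_prop)) (int_cont hn (by fun_prop)), mu_lin hn hf hg,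
    mu_lin hn hh hk]

lemma bm_zero (hn : 2 ≤ n) (r : ℝ) : bm n 0 r = 1 := by simpa [bm] using mu_const hn 1

lemma bm_one (hn : 2 ≤ n) (hr : 0 < r) : bm n 1 r = 1 - Pf n r := by
  have := mu_lin hn (a_cont hr) ((b_cont hr).pow 1) 1 1
  rw [mu_congr (g := fun _ => 1) fun s hs => by
    have := (add_pos hr hs.1).ne'
    simp only [Pi.pow_apply]
    field_simp, mu_const hn] at this
  simp only [Pi.pow_apply] at this
  rw [bm, Pf]
  linarith

theorem bm_rec (hn : 2 ≤ n) (hr : 0 < r) (k : ℕ) : (k + 1) * (1 + r) * bm n (k + 2) r =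
    (k * (2 + r) + 1 + 1 / n + (1 + 1 / n) / 2 * r) * bm n (k + 1) r - (k + 1 / n) * bm n k r := by
  have c1 := a_cont hr
  have c2 := b_cont hr
  have h := null hn (g := fun s => r / (r + s) * (s / (r + s)) ^ k)
    (g' := fun s => -(r / (r + s) / (r + s)) * (s / (r + s)) ^ k +
      r / (r + s) * (k * (s / (r + s)) ^ (k - 1) * (r / (r + s) / (r + s)))) (by fun_prop)
    (by
      have : ContinuousOn (fun s => r / (r + s) / (r + s)) (Icc 0 1) :=
        c1.div (by fun_prop) fun _ hs => (add_pos_of_pos_of_nonneg hr hs.1).ne'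
      fun_prop) fun s hs => by
      have e := (add_pos hr hs.1).ne'
      have d := (hasDerivAt_id' s).const_add r
      exact (((hasDerivAt_const s r).div d e).mul (((hasDerivAt_id' s).div d e).pow k)).congr_deriv
        (by simp only [Pi.div_apply, Pi.pow_apply]; field_simp; ring)
  have h2 := mu_lin4 hn (c2.pow (k + 2)) (c2.pow (k + 1)) (c2.pow k) c1 ((k + 1) * (1 + r))
    (-(k * (2 + r) + 1 + 1 / n + (1 + 1 / n) / 2 * r)) (k + 1 / n) 0
  rw [mu_congr (g := _) fun s hs => ?_, h] at h2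
  · simp only [Pi.pow_apply] at h2
    simp only [bm]
    linarith
  have := (add_pos hr hs.1).ne'
  simp only [Pi.pow_apply]
  cases k
  · simp only [pow_succ]
    field_simp
    ring
  · simp only [pow_succ, add_tsub_cancel_right]
    generalize (s / (r + s)) ^ _ = w
    field_simp
    ring

lemma bm_lin (hn : 2 ≤ n) (hr : 0 < r) (a b c d : ℝ) {f : ℝ → ℝ} (h : ∀ s ∈ Ioo (0 : ℝ) 1, f s =
    a * (s / (r + s)) ^ 1 + b * (s / (r + s)) ^ 2 + (c * (s / (r + s)) ^ 3 + d * (s / (r + s)) ^ 4)) :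
    ∫ s, f s ∂mu n = a * bm n 1 r + b * bm n 2 r + (c * bm n 3 r + d * bm n 4 r) :=
  (mu_congr h).trans (mu_lin4 hn ((b_cont hr).pow 1) ((b_cont hr).pow 2) ((b_cont hr).pow 3)
    ((b_cont hr).pow 4) a b c d)

theorem K_bm (hn : 2 ≤ n) (hr : 0 < r) : Kf n r = bm n 1 r - bm n 2 r :=
  (bm_lin hn hr 1 (-1) 0 0 fun s hs => by
    have := (add_pos hr hs.1).ne'; field_simp; ring).trans (by ring)

theorem Ms_bm (hn : 2 ≤ n) (hr : 0 < r) : Ms n r = r * bm n 2 r :=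
  (bm_lin hn hr 0 r 0 0 fun s hs => by
    have := (add_pos hr hs.1).ne'; unfold Wf; field_simp; ring).trans (by ring)

theorem Mz_bm (hn : 2 ≤ n) (hr : 0 < r) : Mz n r = 4 * (bm n 2 r - 2 * bm n 3 r + bm n 4 r) :=
  (bm_lin hn hr 0 4 (-8) 4 fun s hs => by
    have := (add_pos hr hs.1).ne'; unfold Wf; field_simp; ring).trans (by ring)

theorem Msz_bm (hn : 2 ≤ n) (hr : 0 < r) : Msz n r = 4 * r * (bm n 3 r - bm n 4 r) :=
  (bm_lin hn hr 0 0 (4 * r) (-(4 * r)) fun s hs => by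
    have := (add_pos hr hs.1).ne'; unfold Wf; field_simp; ring).trans (by ring)

lemma W_lin (hn : 2 ≤ n) (hr : 0 < r) (a b c d : ℝ) :
    ∫ s, (a * Wf r s + b * (s * Wf r s) + (c * (4 * Wf r s ^ 2) + d * (s * (4 * Wf r s ^ 2)))) ∂mu n
      = a * Kf n r + b * Ms n r + (c * Mz n r + d * Msz n r) :=
  have := W_cont hr
  mu_lin4 hn this (by fun_prop) (by fun_prop) (by fun_prop) a b c d

lemma chord_log {X Y a : ℝ} (h0 : 0 ≤ X) (h1 : X ≤ Y) (h2 : Y < 1)
    (h : -Real.log (1 - Y) ≤ Y + a * Y ^ 2) : -Real.log (1 - X) ≤ X + a * X ^ 2 := by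
  rcases (h0.trans h1).eq_or_lt with e | e
  · obtain rfl : X = 0 := le_antisymm (e ▸ h1) h0
    simp
  have f := fun (Z : ℝ) (a : 0 ≤ Z) (b : Z < 1) => (hasSum_nat_add_iff' 1).2
    (Real.hasSum_pow_div_log_of_abs_lt_one (x := Z) (abs_lt.2 ⟨by linarith, b⟩))
  have := hasSum_le (fun i => ?_) ((f X h0 (h1.trans_lt h2)).mul_left (Y ^ 2))
    ((f Y e.le h2).mul_left (X ^ 2))
  · simp only [Finset.sum_range_one, zero_add, pow_one, Nat.cast_zero, div_one] at this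
    refine le_of_mul_le_mul_left ?_ (pow_pos e 2)
    nlinarith [mul_le_mul_of_nonneg_left h (sq_nonneg X)]
  · have := mul_le_mul_of_nonneg_left (pow_le_pow_left₀ h0 h1 i) (by positivity : 0 ≤ X ^ 2 * Y ^ 2)
    rw [← mul_div_assoc, ← mul_div_assoc]
    exact div_le_div_of_nonneg_right (by simp only [pow_succ] at this ⊢; linarith) (by positivity)

lemma log_cert {Y t : ℝ} (N : ℕ) (h2 : Y < 1) (ht : 0 ≤ t)
    (h : 1 ≤ (1 - Y) * ∑ i ∈ Finset.range N, t ^ i / i.factorial) : -Real.log (1 - Y) ≤ t := by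
  rw [← Real.log_inv, Real.log_le_iff_le_exp (by simpa using h2), inv_le_iff_one_le_mul₀' (by linarith)]
  exact h.trans (mul_le_mul_of_nonneg_left (Real.sum_le_exp_of_nonneg ht N) (by linarith))

/-- outer form of `DD` -/
noncomputable def Do (r c s : ℝ) : ℝ := r ^ 2 + s ^ 2 + 2 * r * s * c

/-- outer form of `LL` -/
noncomputable def LO (r c s : ℝ) : ℝ := Real.log (r + s) - Real.log (Do r c s) / 2

/-- logarithmic part of the flux -/
noncomputable def LI (n : ℕ) (r c : ℝ) : ℝ :=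
  ∫ s, (1 - 2 / n + (1 + 1 / n) / 2 * s) * LO r c s ∂mu n

/-- rational part of the flux -/
noncomputable def TT (n : ℕ) (r c : ℝ) : ℝ := ∫ s, (1 - s) * r * s / Do r c s ∂mu n

/-- outer form of `beta` -/
noncomputable def betaO (n : ℕ) (r c : ℝ) : ℝ := LI n r c - r * Kf n r - Ms n r - c * TT n r c

lemma Do_pos (hr : 0 < r) (hc : c ^ 2 < 1) (s : ℝ) : 0 < Do r c s := by
  unfold Do
  nlinarith [sq_nonneg (s + r * c), mul_pos (pow_pos hr 2) (sub_pos.2 hc)]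

lemma Do_cont (r c : ℝ) : Continuous (Do r c) := by unfold Do; fun_prop

lemma LO_cont (hr : 0 < r) (hc : c ^ 2 < 1) : ContinuousOn (LO r c) (Icc 0 1) :=
  (ContinuousOn.log (by fun_prop) fun s hs => (add_pos_of_pos_of_nonneg hr hs.1).ne').sub
    (((Do_cont r c).log fun s => (Do_pos hr hc s).ne').div_const 2).continuousOn

lemma T_cont (hr : 0 < r) (hc : c ^ 2 < 1) :
    ContinuousOn (fun s => (1 - s) * r * s / Do r c s) (Icc 0 1) :=
  (Continuous.div (by fun_prop) (Do_cont r c) fun s => (Do_pos hr hc s).ne').continuousOn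

lemma betaO_eq (hn : 2 ≤ n) (hr : 0 < r) (hc : c ^ 2 < 1) : betaO n r c =
    ∫ s, ((1 - 2 / n + (1 + 1 / n) / 2 * s) * LO r c s - r * s / (r + s) -
      c * ((1 - s) * r * s / Do r c s)) ∂mu n := by
  have c1 := LO_cont hr hc
  have c2 := W_cont hr
  have := mu_lin4 hn (f := fun s => (1 - 2 / n + (1 + 1 / n) / 2 * s) * LO r c s) (by fun_prop) c2
    (h := fun s => s * Wf r s) (by fun_prop) (T_cont hr hc) 1 (-r) (-1) (-c)
  rw [mu_congr (g := _) fun s hs => ?_] at this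
  · rw [this, betaO, LI, Kf, Ms, TT]
    simp only [Wf]
    ring
  have := (add_pos hr hs.1).ne'
  unfold Wf
  generalize (1 - s) * r * s / Do r c s = w
  field_simp
  ring

theorem beta_out (hn : 2 ≤ n) (hr : 0 < r) (hc : c ^ 2 < 1) (h : 0 ≤ r + 2 * c) :
    beta n r c = betaO n r c := by
  have e : ∀ s, DD r c s = Do r c s := fun s => by
    unfold DD Do
    split_ifs with h'
    · obtain rfl : r = -2 * c := by linarith
      ring
    · rfl
  rw [betaO_eq hn hr hc, beta]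
  simp only [bI, LL, LO, e, cc, max_eq_left (show -(r + c) ≤ c by linarith), mul_div_assoc,
    mul_assoc]

lemma Do_eq (hr : 0 < r) (hs : 0 < s) : Do r c s = (r + s) ^ 2 * (1 - 2 * (1 - c) * Wf r s) := by
  unfold Do Wf
  field_simp
  ring

lemma W_pos (hr : 0 < r) (hs : 0 < s) : 0 < Wf r s := by unfold Wf; positivity

lemma X_le (hr : 0 < r) (hc : c ≤ 1) {Y : ℝ} (h : (1 - c) / 2 ≤ Y) :
    ∀ s ∈ Ioo (0 : ℝ) 1, 2 * (1 - c) * Wf r s ≤ Y := fun s hs => by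
  have : Wf r s ≤ 1 / 4 := by
    have := hs.1
    rw [Wf, div_le_iff₀ (by positivity)]
    nlinarith [sq_nonneg (r - s)]
  nlinarith

lemma X_le' (hr : 1 ≤ r) (hc : c ≤ 1) {Y : ℝ} (h : 2 * (1 - c) * r ≤ Y * (1 + r) ^ 2) :
    ∀ s ∈ Ioo (0 : ℝ) 1, 2 * (1 - c) * Wf r s ≤ Y := fun s hs => by
  have : Wf r s * (1 + r) ^ 2 ≤ r := by
    have := hs.1
    rw [Wf, div_mul_eq_mul_div, div_le_iff₀ (by positivity)]
    nlinarith [mul_nonneg (mul_nonneg (zero_le_one.trans hr) (sub_pos.2 hs.2).le)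
      (show 0 ≤ r ^ 2 - s by nlinarith [hs.2])]
  refine le_of_mul_le_mul_right (a := (1 + r) ^ 2) ?_ (by positivity)
  nlinarith

theorem LI_le (hn : 2 ≤ n) (hr : 0 < r) (hc : c ^ 2 < 1) {Y a : ℝ}
    (hX : ∀ s ∈ Ioo (0 : ℝ) 1, 2 * (1 - c) * Wf r s ≤ Y) (hY : Y < 1)
    (ha : -Real.log (1 - Y) ≤ Y + a * Y ^ 2) :
    LI n r c ≤ (1 - c) * ((1 - 2 / n) * (Kf n r + a * (1 - c) / 2 * Mz n r) +
      (1 + 1 / n) / 2 * (Ms n r + a * (1 - c) / 2 * Msz n r)) := by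
  have c1 := LO_cont hr hc
  have c2 := W_cont hr
  have g := gam_bd hn
  refine (mu_mono hn (by fun_prop) (by fun_prop) fun s hs => ?_).trans_eq ((W_lin hn hr
    ((1 - c) * (1 - 2 / n)) ((1 - c) * ((1 + 1 / n) / 2)) ((1 - c) * (1 - 2 / n) * (a * (1 - c) / 2))
    ((1 - c) * ((1 + 1 / n) / 2) * (a * (1 - c) / 2))).trans (by ring))
  have h0 := hs.1
  have h1 := chord_log (mul_nonneg (by nlinarith) (W_pos hr h0).le) (hX s hs) hY ha
  have h2 : LO r c s = -Real.log (1 - 2 * (1 - c) * Wf r s) / 2 := by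
    rw [LO, Do_eq hr h0, Real.log_mul (by positivity) (by linarith [hX s hs]), Real.log_pow]
    push_cast
    ring
  have h3 : (0 : ℝ) ≤ 1 - 2 / n + (1 + 1 / n) / 2 * s := by
    have : (2 : ℝ) / n = 2 * (1 / n) := by ring
    nlinarith [g.1, g.2]
  rw [h2]
  linarith [mul_le_mul_of_nonneg_left h1 h3]

lemma T_eq (hr : 0 < r) (hs : 0 < s) :
    (1 - s) * r * s / Do r c s = (1 - s) * Wf r s * (1 - 2 * (1 - c) * Wf r s)⁻¹ := by
  rw [Do_eq hr hs, ← div_div, div_eq_mul_inv]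
  simp only [Wf]
  ring

theorem TT_le (hn : 2 ≤ n) (hr : 0 < r) (hc : c ^ 2 < 1) {Y : ℝ}
    (hX : ∀ s ∈ Ioo (0 : ℝ) 1, 2 * (1 - c) * Wf r s ≤ Y) (hY : Y < 1) :
    TT n r c ≤ Kf n r - Ms n r + (1 - c) / (2 * (1 - Y)) * (Mz n r - Msz n r) := by
  have c2 := W_cont hr
  refine (mu_mono hn (T_cont hr hc) (by fun_prop) fun s hs => ?_).trans_eq ((W_lin hn hr
    1 (-1) ((1 - c) / (2 * (1 - Y))) (-((1 - c) / (2 * (1 - Y))))).trans (by ring))
  have h1 := hX s hs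
  have h2 := W_pos hr hs.1
  have h3 : 0 ≤ 2 * (1 - c) * Wf r s := mul_nonneg (by nlinarith) h2.le
  have h4 : ∀ X, 0 ≤ X → X ≤ Y → (1 - X)⁻¹ ≤ 1 + X / (1 - Y) := fun X a b => by
    have := div_le_div_of_nonneg_left a (sub_pos.2 hY) (sub_le_sub_left b 1)
    have e : (1 - X)⁻¹ = 1 + X / (1 - X) := by
      have : 1 - X ≠ 0 := by linarith
      field_simp
      ring
    linarith
  rw [T_eq hr hs.1]
  refine (mul_le_mul_of_nonneg_left (h4 _ h3 h1) (mul_pos (sub_pos.2 hs.2) h2).le).trans_eq ?_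
  have := (sub_pos.2 hY).ne'
  field_simp
  ring

theorem TT_ge (hn : 2 ≤ n) (hr : 0 < r) (hc : c ^ 2 < 1) (f : ℝ) :
    (2 * f - f ^ 2) * (Kf n r - Ms n r) + f ^ 2 * (1 - c) / 2 * (Mz n r - Msz n r) ≤ TT n r c := by
  have c2 := W_cont hr
  refine le_of_eq_of_le (Eq.trans (by ring) (W_lin hn hr (2 * f - f ^ 2) (-(2 * f - f ^ 2))
    (f ^ 2 * (1 - c) / 2) (-(f ^ 2 * (1 - c) / 2))).symm)
    (mu_mono hn (by fun_prop) (T_cont hr hc) fun s hs => ?_)
  have h1 : 0 < 1 - 2 * (1 - c) * Wf r s :=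
    pos_of_mul_pos_right ((Do_pos hr hc s).trans_eq (Do_eq hr hs.1)) (sq_nonneg (r + s))
  have h4 : ∀ y : ℝ, 0 < y → 2 * f - f ^ 2 * y ≤ y⁻¹ := fun y a => by
    rw [inv_eq_one_div, le_div_iff₀ a]
    nlinarith [sq_nonneg (1 - f * y)]
  rw [T_eq hr hs.1]
  linarith [mul_le_mul_of_nonneg_left (h4 _ h1) (mul_pos (sub_pos.2 hs.2) (W_pos hr hs.1)).le]

theorem TT_le' (hn : 2 ≤ n) (hr : 0 < r) (hc : c ^ 2 < 1) {A B : ℝ} (hA : 0 < A) (hB : 0 < B)
    (hA' : A ≤ r ^ 2 - 1 / 4) (hB' : B ≤ 3 / 4 + 2 * r * c + r ^ 2) : TT n r c ≤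
    r * ((sm n 1 - 2 * sm n 2 + sm n 3) / A + (sm n 2 - sm n 3) / B) := by
  refine (mu_mono hn (T_cont hr hc) (by fun_prop) fun s hs => ?_).trans_eq ((mu_lin4 hn
    (f := (· ^ 1)) (g := (· ^ 2)) (h := (· ^ 3)) (k := (· ^ 0)) (by fun_prop) (by fun_prop)
    (by fun_prop) (by fun_prop) (r / A) (r / B - 2 * r / A) (r / A - r / B) 0).trans
    (by simp only [sm]; ring))
  have h0 := hs.1
  have h1 := sub_pos.2 hs.2
  have h2 : (1 - s) * A + s * B ≤ Do r c s := by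
    unfold Do
    nlinarith [mul_le_mul_of_nonneg_left hA' h1.le, mul_le_mul_of_nonneg_left hB' h0.le,
      sq_nonneg (s - 1 / 2)]
  have h3 : 1 / ((1 - s) * A + s * B) ≤ (1 - s) / A + s / B := by
    rw [div_add_div _ _ hA.ne' hB.ne', div_le_div_iff₀ (by positivity) (by positivity)]
    nlinarith [mul_nonneg (mul_pos h0 h1).le (sq_nonneg (A - B))]
  have h4 := mul_le_mul_of_nonneg_left ((one_div_le_one_div_of_le (by positivity) h2).trans h3)
    (by positivity : 0 ≤ (1 - s) * r * s)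
  rw [mul_one_div] at h4
  exact h4.trans_eq (by ring)

theorem beta_in (hn : 2 ≤ n) (hr : 0 < r) (hc : c ^ 2 < 1) (h : r + 2 * c ≤ 0) {ρ : ℝ} (h0 : 0 < ρ)
    (hρ : ρ ^ 2 = 1 + 2 * r * c + r ^ 2) : (-(r + c) / ρ) ^ 2 < 1 ∧
    beta n r c ≤ betaO n (r / ρ) (-(r + c) / ρ) +
      (1 - ρ) * ((1 - 2 / n) / 2 * (bm n 1 r + bm n 1 (r / ρ) / ρ) + (1 + 1 / n) / 4 *
        (sm n 1 - r * bm n 1 r + (sm n 1 - r / ρ * bm n 1 (r / ρ)) / ρ)) +
      r / ρ * bm n 1 (r / ρ) - r * bm n 1 r := by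
  have hc' : (-(r + c) / ρ) ^ 2 < 1 := by
    rw [div_pow, div_lt_one (by positivity)]
    linarith
  have hr' := div_pos hr h0
  have h1 : ρ ≤ 1 := by nlinarith [mul_nonneg hr.le (neg_nonneg.2 h)]
  have c1 := LO_cont hr' hc'
  have c2 := T_cont hr' hc'
  have c3 := b_cont hr
  have c4 := b_cont hr'
  have c5 : ContinuousOn (fun s => (1 - 2 / n + (1 + 1 / n) / 2 * s) * LO (r / ρ) (-(r + c) / ρ) s -
      r / ρ * s / (r / ρ + s) - -(r + c) / ρ * ((1 - s) * (r / ρ) * s / Do (r / ρ) (-(r + c) / ρ) s))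
      (Icc 0 1) := by
    simp only [mul_div_assoc (r / ρ)]
    fun_prop
  refine ⟨hc', (mu_mono hn (bI_cont hr hc) (by fun_prop) fun s hs => ?_).trans_eq ((mu_lin4 hn c5
    (g := (· ^ 1)) (by fun_prop) (c3.pow 1) (c4.pow 1) 1 ((1 - ρ) * ((1 + 1 / n) / 4) * (1 + 1 / ρ))
    ((1 - ρ) * ((1 - 2 / n) / 2 - (1 + 1 / n) / 4 * r) - r)
    ((1 - ρ) * ((1 - 2 / n) / 2 - (1 + 1 / n) / 4 * (r / ρ)) / ρ + r / ρ)).trans ?_)⟩
  · have s0 := hs.1
    have e1 : DD r c s = ρ ^ 2 * Do (r / ρ) (-(r + c) / ρ) s := by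
      rw [DD, if_pos h, Do]
      field_simp
      linear_combination -s ^ 2 * hρ
    have e2 : r / ρ + s = (r + ρ * s) / ρ := by field_simp
    have d := Do_pos hr' hc' s
    have e3 : LL r c s = LO (r / ρ) (-(r + c) / ρ) s + Real.log ((r + s) / (r + ρ * s)) := by
      rw [LL, LO, e1, e2, Real.log_mul (by positivity) d.ne', Real.log_pow,
        Real.log_div (by positivity) h0.ne', Real.log_div (by positivity) (by positivity)]
      push_cast
      ring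
    have z0 : 0 < (r + s) / (r + ρ * s) := by positivity
    have z1 := Real.self_le_sinh_iff.2 (Real.log_nonneg ((one_le_div (by positivity)).2
      (show r + ρ * s ≤ r + s by nlinarith)))
    rw [Real.sinh_log z0] at z1
    have h3 : (0 : ℝ) ≤ 1 - 2 / n + (1 + 1 / n) / 2 * s := by
      have : (2 : ℝ) / n = 2 * (1 / n) := by ring
      nlinarith [(gam_bd hn).1, (gam_bd hn).2]
    have h4 := mul_le_mul_of_nonneg_left z1 h3
    simp only [bI, cc, max_eq_right (show c ≤ -(r + c) by linarith), e3, e1, Pi.pow_apply]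
    rw [e2]
    refine le_of_sub_nonneg (le_of_le_of_eq (sub_nonneg.2 h4) ?_)
    generalize (1 : ℝ) - 2 / n = m
    generalize (1 : ℝ) + 1 / n = e
    field_simp
    ring
  · rw [← betaO_eq hn hr' hc']
    simp only [sm, bm, Pi.pow_apply]
    ring

end Pool.Agent.Lib.MP_f225de_an.MA
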