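import Pool.Agent.Lib.MP_f225de_an.NU1
import Pool.Agent.Lib.MP_f225de_an.MD3
import Pool.Agent.Lib.MP_f225de_an.IV1

set_option autoImplicit false

open MeasureTheory Set
open scoped Real

namespace Pool.Agent.Lib.MP_f225de_an.Nu

open MA Sk Iv

/-- the degrees covered by one run of the checker -/
structure Run where
  four : Bool
  n0 : ℕ
  g : Iv

/-- the degree `n` belongs to the run -/
def Run.ok (R : Run) (n : ℕ) : Prop :=
  (R.four = true ↔ n = 4) ∧ 4 ≤ R.n0 ∧ R.n0 ≤ n ∧ mem (1 / n) R.g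

/-- result of a table lookup -/
structure Lk where
  s : Iv
  P : Iv
  k : Iv
  cb : Iv
  F : Iv

/-- the table is correct in degree `n` -/
def LkOK (n : ℕ) (F : ℝ → ℝ) (look : Iv → Lk) : Prop := ∀ I r, 0 < r → mem r I →
  mem (Ms n r / Kf n r) (look I).s ∧ mem (Pf n r) (look I).P ∧ mem (n * r * Kf n r) (look I).k ∧
  mem (cor (π / 2) (Real.log r)) (look I).cb ∧ mem (F (Real.log r)) (look I).F

/-- the requirements on `F` -/
def FOK (n : ℕ) (F : ℝ → ℝ) : Prop := Continuous F ∧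
  (∀ y, 19 / 5 ≤ F y ∧ ((n : ℝ) - 1) * (F y - 4) ≤ n - 2 ∧ (n = 4 → F y ≤ 107 / 25)) ∧
  ∃ (F1 : ℝ → ℝ) (X : Finset ℝ), ∀ y, y ∉ X → HasDerivAt F (F1 y) y ∧
    2 * ay n y ≤ F1 y + ((2 - ay n y) / 2 + (2 * ay n y - 2) / n) * F y

/-- a number with a validity flag; `v` is a code in the sense of `Iv.val` -/
structure Res where
  ok : Bool
  v : ℕ

/-- specification of the ray evaluator: any box -/
def RaySpec (n : ℕ) (ev : Iv → Iv → Res) : Prop := ∀ I J r c, 0 < r → -1 < c → c < 1 → mem r I →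
  mem c J → (ev I J).ok = true → beta n r c ≤ val (ev I J).v * Kf n r

/-- specification of the outer evaluator -/
def OutSpec (n : ℕ) (ev : Iv → Iv → Res) : Prop := ∀ I J r c, 0 < r → -1 < c → c < 1 →
  0 ≤ r + 2 * c → mem r I → mem c J → (ev I J).ok = true →
  beta n r c ≤ (val (ev I J).v - r) * Kf n r

/-- result of the cost evaluator -/
structure PhR where
  ok : Bool
  v : Iv
  u : Iv

/-- specification of the cost evaluator -/
def PhSpec (n : ℕ) (ev : Iv → Iv → Iv → PhR) : Prop := ∀ B I J b r c, 0 ≤ b → 0 < r → -1 < c →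
  c < 1 → mem b B → mem r I → mem c J → (ev B I J).ok = true →
  ph n b r c ≤ val (ev B I J).v.h ∧ b + b ^ 2 / (4 * mm r c) ≤ val (ev B I J).u.h

/-- enclosures of the geometry of an outer cell -/
structure Geo where
  lam : Iv
  r : Iv
  ss : Iv
  st : Iv
  ct : Iv
  pa : Iv
  sa : Iv
  ca : Iv
  dp : Iv
  sn : Iv
  cs : Iv

/-- the point `(σ, a)` with the scale `l` lies in the cell -/
def Geo.ok (G : Geo) (l σ a : ℝ) : Prop := 0 < l ∧ 0 < σ ∧ 0 < a ∧ σ + a < π ∧ mem l G.lam ∧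
  mem (rt σ a) G.r ∧ mem (Real.sin σ / l) G.ss ∧ mem (Real.sin a / l) G.st ∧ mem (Real.cos a) G.ct ∧
  ∃ p, 0 ≤ p ∧ p ≤ σ + a ∧ mem p G.pa ∧ mem (Real.sin p) G.sa ∧ mem (Real.cos p) G.ca ∧
    mem (σ + a - p) G.dp ∧ ∀ ψ ∈ Icc p (σ + a), mem (Real.sin ψ) G.sn ∧ mem (Real.cos ψ) G.cs

/-- result of the gain evaluator (codes) -/
structure GnR where
  ok : Bool
  c1 : ℕ
  c2 : ℕ
  g1 : ℕ
  g2 : ℕ

/-- specification of the gain evaluator; `b` is the code of a bound of `beta / K + r` -/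
def GainSpec (n : ℕ) (ev : Geo → ℕ → GnR) : Prop := ∀ G b, (ev G b).ok = true →
  0 ≤ val (ev G b).c1 ∧ 0 ≤ val (ev G b).c2 ∧ 0 ≤ val (ev G b).g1 ∧ val (ev G b).g2 ≤ 0 ∧
  ∀ l σ a, G.ok l σ a → 0 ≤ rt σ a + 2 * Real.cos (σ + a) →
    beta n (rt σ a) (Real.cos (σ + a)) ≤ (val b - rt σ a) * Kf n (rt σ a) →
    l * val (ev G b).g1 ≤ 1 / 4 ∧ GainOK n σ a (l * val (ev G b).c1) (l * val (ev G b).c2)
      (l * val (ev G b).g1) (l * val (ev G b).g2)

/-- specification of the enclosure of `α` from enclosures of `r` and of `Ms / K` -/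
def AlSpec (n : ℕ) (ev : Iv → Iv → Iv) : Prop := ∀ I J r, 0 < r → mem r I →
  mem (Ms n r / Kf n r) J → mem (ar n r) (ev I J)

/-- codes of the constants of a profile `min a (b + d / (r + h))` -/
structure Pr where
  a : ℕ
  b : ℕ
  d : ℕ
  h : ℕ

/-- the profile -/
noncomputable def Pr.f (p : Pr) (r : ℝ) : ℝ := min (val p.a) (val p.b + val p.d / (r + val p.h))

/-- signs of the constants -/
def Pr.ok (p : Pr) : Prop := 0 ≤ val p.a ∧ 0 ≤ val p.b ∧ 0 ≤ val p.d ∧ 0 < val p.h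

/-- the bound `Tb` -/
noncomputable def TbF (p : Pr) (y : ℝ) : ℝ := p.f (Real.exp y)

/-- the subadditive potential `Sh` -/
noncomputable def ShF (n : ℕ) (p q : Pr) (s y : ℝ) : ℝ :=
  min (s * p.f (Real.exp y)) (q.f (Real.exp y)) / n

/-- statement (G): assembly -/
def GlobSt (n : ℕ) : Prop := ∀ F (t p q : Pr), FOK n F → t.ok → val t.a ≤ 2 → p.ok → q.ok →
  (∀ σ ∈ Ioo 0 π, Nonempty (Cell n F (TbF t) (ShF n p q) σ)) → Nonempty (Glob n)

end Pool.Agent.Lib.MP_f225de_an.Nu
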