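import Pool.Agent.Lib.MP_f225de_an.BX4
import Pool.Agent.Lib.MP_f225de_an.NU2

set_option autoImplicit false

open Set MeasureTheory

namespace Pool.Agent.Lib.MP_f225de_an.Bx

open MA Sc Nu

/-- a row of the table: `r` in `[r, r + 2 h] / 2^64`, bounds of the mean, index ranges, values -/
structure Row where
  r : ℕ
  h : ℕ
  sl : ℕ
  sh : ℕ
  jo : ℕ
  js : ℕ
  ji : ℕ
  oL : ℕ
  oR : ℕ
  iL : ℕ
  iR : ℕ

/-- entry of a packed array -/
def en (a j : ℕ) : ℕ := (a.shiftRight (j.shiftLeft 4)).land 65535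

/-- bounded quantifier -/
def allB (f : ℕ → Bool) (n : ℕ) : Bool := Nat.rec true (fun i b => f i && b) n

lemma allB_ok {f : ℕ → Bool} {n : ℕ} (h : allB f n = true) : ∀ i < n, f i = true := by
  induction n with
  | zero => exact fun _ h => absurd h (Nat.not_lt_zero _)
  | succ n ih =>
    replace h : (f n && allB f n) = true := h
    rw [Bool.and_eq_true] at h
    exact Nat.forall_lt_succ_right.2 ⟨ih h.2, h.1⟩

/-- the form of the parameter -/
def gA (g : Iv) : AF :=
  ⟨(Iv.nm g.l + Iv.pp g.h) / 2, 0, 0, 0, 0, 0, (Iv.pp g.h - Iv.nm g.l) / 2 + 1, 0, 0⟩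

/-- the forms of the constants -/
def cA (G : AF) : Cs AF := cs G fun k => (nt (2 * k + 1) + G).inv

/-- check of a row -/
def chkRow (G : AF) (C : Cs AF) (w : Row) : Bool :=
  let r : AF := ⟨w.r + w.h, 0, w.h, 0, 0, 0, 0, 0, 0⟩
  let s : AF := ⟨(w.sl + w.sh) / 2, 0, 0, 0, (w.sh - w.sl) / 2 + 1, 0, 0, 0, 0⟩
  let T := (nt 1 + r).inv
  let x := r.inv
  let M := mo G r s T
  let z := ml 34359738368 s
  let big := Nat.ble 18446744073709551616 w.r
  let om := cond big (T - T * T).hi 4611686018427387904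
  let P := po G M
  let K := gk G r s x
  let kb := (T.hi.shiftRight 58).succ
  let H := hk ((fl (rc kb) 144).shiftLeft 41) G s x
  let ok := big && Nat.blt 0 r.lo && Nat.blt 0 (nt 1 + G).lo && kb.ble 56
  let q := (x * x).neg
  let y := nt 1 - x
  let p0 := ml 16 y
  let q0 := ml 8 (y * y)
  let N := pn G r M
  let r1 := 16 * w.r
  let r2 := 16 * (w.r + 2 * w.h)
  let y0 := ml 16 r - nt 16
  let y1 := (ml 16 r + ml 32 ((nt 2 - r) * (T - T * T))).hi
  let y2 := (nt 1 - ml 4 (T - T * T)).hi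
  Nat.blt 0 w.h && Nat.blt 0 (nt 1 + r).lo &&
  allB (fun j => j.blt w.jo || cond (j.blt w.js)
    (ok && j.ble 16 && nS C K H (dv (ml (16 - j) x) 8) q (en w.oL j) (en w.oR j))
    (nO P z om j (en w.oL j) (en w.oR j))) 33 &&
  allB (fun j => cond big
    (ok && nS C K H (dv (p0 + ml j x) 8) (dv (q0 + ml j x) 8).neg (en w.iL j) (en w.iR j))
    (r2.ble 590295810358705651712 && nI N z y0 y1 y2 r1 r2 j (en w.iL j) (en w.iR j))) w.ji

variable {n : ℕ} {r c u : ℝ} {g : Iv} {w : Row}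

/-- meaning of a row at a radius -/
def RowOK (n : ℕ) (w : Row) (r u : ℝ) : Prop := 0 < w.h ∧ SS * r = w.r + w.h + w.h * u ∧
  (∀ j, w.jo ≤ j → j ≤ 32 → Bd n r u (j / 16 - 1) 0 (en w.oL j) (en w.oR j)) ∧
  ∀ j < w.ji, Bd n r u (-(r + (j / 16 - 1))) (-(r + 2 * (j / 16 - 1))) (en w.iL j) (en w.iR j)

lemma le_cond {b : Bool} {x : ℝ} {a c : ℕ} (h1 : b = true → x ≤ a) (h2 : x ≤ c) :
    x ≤ (cond b a c : ℕ) := by
  cases b
  exacts [h2, h1 rfl]

theorem row_ok (hn : 2 ≤ n) (hg : Iv.mem (1 / n) g) (hr : 0 < r) (h1 : w.r ≤ SS * r)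
    (h2 : SS * r ≤ w.r + 2 * w.h) (h3 : w.sl ≤ SS * (Ms n r / Kf n r))
    (h4 : SS * (Ms n r / Kf n r) ≤ w.sh) (e : chkRow (gA g) (cA (gA g)) w = true) :
    ∃ u, RowOK n w r u := by
  unfold chkRow at e
  extract_lets R S T X M z big om P K kb H ok q y p0 q0 N r1 r2 y0 y1 y2 at e
  simp only [Bool.and_eq_true, Nat.blt_eq] at e
  obtain ⟨⟨⟨e1, e2⟩, e3⟩, e4⟩ := e
  have h0 : (0 : ℝ) < w.h := by exact_mod_cast e1
  obtain ⟨v, hv, ev⟩ := ex_sym h3 h4
  obtain ⟨a, ha, ea⟩ := ex_sym (hg.1.nm_le (gam_bd hn).1.le) hg.2.le_pp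
  have eu : SS * r = w.r + w.h + w.h * ((SS * r - w.r - w.h) / w.h) := by field_simp; ring
  let t : Ns := ⟨(SS * r - w.r - w.h) / w.h, v, a, by
    rw [abs_div, abs_of_pos h0, div_le_one h0, abs_le]
    constructor <;> linarith, hv, ha⟩
  have mR : mem t r R := by
    simp only [mem, lin, R, t]
    push_cast
    rw [abs_nonpos_iff]
    linarith
  have mS : mem t (Ms n r / Kf n r) S := by simp [mem, lin, S, t, ev]
  have mG : mem t (1 / n) (gA g) := by
    simp only [mem, lin, gA, t, ea]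
    simp
  have mT : mem t (1 + r)⁻¹ T := by simpa using ((mem.nt t 1).add mR).inv e2
  have hb : big = true → 1 ≤ r := fun b => by
    have := (Nat.cast_le (α := ℝ)).2 (Nat.le_of_ble_eq_true b)
    rw [SS] at h1
    push_cast at this
    linarith
  have x1 : r⁻¹ * r = 1 := inv_mul_cancel₀ hr.ne'
  have x0 := inv_pos.2 hr
  have hS : ok = true → 1 ≤ r ∧ mem t r⁻¹ X ∧ 0 < (nt 1 + gA g).lo ∧ kb ≤ 56 := fun b => by
    simp only [ok, Bool.and_eq_true, Nat.blt_eq, Nat.ble_eq] at b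
    exact ⟨hb b.1.1.1, mR.inv b.1.1.2, b.1.2, b.2⟩
  refine ⟨t.u, e1, eu, fun j j0 j1 => ?_, fun j hj => ?_⟩
  · have := allB_ok e3 j (Nat.lt_succ_of_le j1)
    rw [Bool.or_eq_true, Nat.blt_eq, or_iff_right (Nat.not_lt.2 j0)] at this
    cases b : j.blt w.js <;> rw [b] at this
    · rw [cond_false] at this
      refine nO_ok hn hr mG mR mS mT (fun s hs => ?_) j1 this
      have W := W_bd hr hs
      refine le_cond (fun b => (mul_le_mul_of_nonneg_left (W.2.2.2 (hb b)) SS_pos.le).trans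
        (mT.sub (mT.mul mT)).hi) ?_
      rw [SS]
      push_cast
      linarith [W.2.1]
    · rw [cond_true, Bool.and_eq_true, Bool.and_eq_true, Nat.ble_eq] at this
      obtain ⟨-, a, b, c⟩ := hS this.1.1
      refine nS_ok hn hr mG mR mS mT a b c ((a.ml _).dv' 8) (a.mul a).neg ?_ ?_ ?_ this.2
      · rw [dv_re, ml_re, Nat.cast_sub this.1.2]
        push_cast
        linear_combination (16 - j) / 8 * x1
      · linear_combination -(r⁻¹ * r + 1) * x1
      · rw [dv_re, ml_re]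
        positivity
  · have := allB_ok e4 j hj
    cases b : big <;> rw [b] at this
    · rw [cond_false, Bool.and_eq_true, Nat.ble_eq, ← Nat.cast_le (α := ℝ)] at this
      refine nI_ok hn hr mG mR mS mT ?_ ?_ ?_ this.2
      · have := this.1
        rw [SS] at h2
        simp only [r2] at this
        push_cast at this
        linarith
      all_goals
        simp only [r1, r2]
        push_cast
        linarith
    · rw [cond_true, Bool.and_eq_true] at this
      obtain ⟨d, a, b, c⟩ := hS this.1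
      have y := (mem.nt t 1).sub a
      refine nS_ok hn hr mG mR mS mT a b c (((y.ml 16).add (a.ml j)).dv' 8)
        ((((y.mul y).ml 8).add (a.ml j)).dv' 8).neg ?_ ?_ ?_ this.2 <;>
        simp only [dv_re, ml_re, nt_re] <;> push_cast
      · linear_combination (j / 8 - 2) * x1
      · linear_combination ((2 - j / 8) * r - (r⁻¹ * r + 1)) * x1
      · have := sub_nonneg.2 (inv_le_one_of_one_le₀ d)
        positivity

theorem ip_out (hn : 2 ≤ n) (hr : 0 < r) (hc : c ^ 2 < 1) {c1 c2 l : ℝ} (p1 : Ps r c1 0)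
    (p2 : Ps r c2 0) (l0 : 0 ≤ l) (l1 : l ≤ 1) (h : l * c1 + (1 - l) * c2 ≤ max c (-r / 2)) :
    beta n r c ≤ l * bG n r c1 0 + (1 - l) * bG n r c2 0 :=
  interp hn hr hc p1 p2 l0 l1 fun s hs => by
    have h1 := mul_le_mul_of_nonneg_left h (mul_pos hr hs.1).le
    unfold DG DD
    split_ifs with e
    · rw [max_eq_right (by linarith)] at h1
      nlinarith [mul_nonneg (mul_pos (mul_pos hr hs.1) (sub_pos.2 hs.2)).le (neg_nonneg.2 e)]
    · rw [max_eq_left (by linarith)] at h1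
      nlinarith

/-- maximum -/
def mx (a b : ℕ) : ℕ := a.add (b.sub a)

lemma mx_eq (a b : ℕ) : mx a b = max a b := by
  change a + (b - a) = _
  omega

/-- interpolation between two nodes -/
def ip (a j m : ℕ) : ℕ :=
  (((nat_lit 1152921504606846976).sub m).mul (en a j)).add (m.mul (en a j.succ))

/-- code of the value at the radius `x` -/
def cd (w : Row) (L R x y : ℕ) : ℕ :=
  ((((((w.r.add (w.h.shiftLeft 1)).sub x).mul L).add ((x.sub w.r).mul R)).div
    (w.h.shiftLeft 9)).add (nat_lit 79228162440477361298705743873)).sub y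

/-- code of the bound on a piece of a row -/
def lv (ray : Bool) (w : Row) (a b C lo hi : ℕ) : ℕ :=
  let j := C.shiftRight 60
  let m := C.mod (nat_lit 1152921504606846976)
  let L := ip a j m
  let R := ip b j m
  mx (cd w L R lo (cond ray lo 0)) (cd w L R hi (cond ray hi 0))

lemma cd_ge (h0 : 0 < w.h) {L R x y : ℕ} (h1 : w.r ≤ x) (h2 : x ≤ w.r + 2 * w.h) :
    ((w.r + 2 * w.h - x) * L + (x - w.r) * R) / (w.h * 2 ^ 9) + (2 ^ 96 - 2 ^ 66) - (y : ℝ) ≤
      cd w L R x y := by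
  have s : ∀ k, w.h.shiftLeft k = w.h * 2 ^ k := Nat.shiftLeft_eq w.h
  have := (div_err ((w.r + w.h * 2 ^ 1 - x) * L + (x - w.r) * R) (show 0 < w.h * 2 ^ 9 by positivity)).2
  rw [cd, s, s]
  refine le_trans ?_ (Iv.sub_ge _ _)
  rw [c_add, show ((nat_lit 79228162440477361298705743873 : ℕ) : ℝ) = 2 ^ 96 - 2 ^ 66 + 1 by norm_num]
  rw [Nat.cast_add, Nat.cast_mul, Nat.cast_mul, Nat.cast_sub h1, Nat.cast_sub (by omega)] at this
  change _ ≤ ((((w.r + w.h * 2 ^ 1 - x) * L + (x - w.r) * R) / (w.h * 2 ^ 9) : ℕ) : ℝ) + _ - _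
  generalize (_ / _ : ℕ) = z at *
  push_cast at this
  rw [mul_comm (2 : ℝ)]
  norm_num at this ⊢
  linarith

lemma cond_re (b : Bool) (x : ℕ) : ((cond b x 0 : ℕ) : ℝ) = cond b 1 0 * x := by cases b <;> simp

theorem lv_ok (hn : 2 ≤ n) (hr : 0 < r) {ray : Bool} {a b C lo hi : ℕ} {c1 b1 c2 b2 : ℝ}
    (h0 : 0 < w.h) (hu : SS * r = w.r + w.h + w.h * u) (l1 : w.r ≤ lo) (l2 : lo ≤ SS * r)
    (l3 : SS * r ≤ hi) (l4 : hi ≤ w.r + 2 * w.h)
    (d1 : Bd n r u c1 b1 (en a (C.shiftRight 60)) (en b (C.shiftRight 60)))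
    (d2 : Bd n r u c2 b2 (en a (C.shiftRight 60).succ) (en b (C.shiftRight 60).succ))
    (h : ∀ l : ℝ, 0 ≤ l → l ≤ 1 → 2 ^ 60 * (C.shiftRight 60 + (1 - l)) = C →
      beta n r c ≤ l * bG n r c1 b1 + (1 - l) * bG n r c2 b2) :
    beta n r c ≤ (Iv.val (lv ray w a b C lo hi) - cond ray 0 r) * Kf n r := by
  have e0 : C.shiftRight 60 = C / 2 ^ 60 := Nat.shiftRight_eq_div_pow C 60
  have e1 : C.mod (nat_lit 1152921504606846976) = C % 2 ^ 60 := rfl
  have m1 : C % 2 ^ 60 ≤ 2 ^ 60 := (Nat.mod_lt _ (by positivity)).le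
  have m2 := congrArg (Nat.cast (R := ℝ)) (Nat.div_add_mod C (2 ^ 60))
  have lh : lo ≤ hi := by exact_mod_cast l2.trans l3
  have i : ∀ a j, (ip a j (C % 2 ^ 60) : ℝ) = (2 ^ 60 - (C % 2 ^ 60 : ℕ)) * en a j +
      (C % 2 ^ 60 : ℕ) * en a j.succ := fun a j => by
    rw [ip, c_add, c_mul, c_mul, show Nat.sub (nat_lit 1152921504606846976) (C % 2 ^ 60) =
      2 ^ 60 - C % 2 ^ 60 from rfl, Nat.cast_sub m1]
    norm_num
  simp only [lv, e1, mx_eq]
  have a1 := cd_ge (L := ip a (C.shiftRight 60) (C % 2 ^ 60)) (R := ip b (C.shiftRight 60) (C % 2 ^ 60))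
    (y := cond ray lo 0) h0 l1 (lh.trans l4)
  have a2 := cd_ge (L := ip a (C.shiftRight 60) (C % 2 ^ 60)) (R := ip b (C.shiftRight 60) (C % 2 ^ 60))
    (y := cond ray hi 0) h0 (l1.trans lh) l4
  rw [← e0] at m2
  rw [← Nat.cast_le (α := ℝ)] at m1
  push_cast at m1 m2
  generalize cd w _ _ lo _ = x at *
  generalize cd w _ _ hi _ = y at *
  rw [i, i, cond_re] at a1 a2
  generalize C % 2 ^ 60 = m at *
  have m0 : (0 : ℝ) ≤ m := m.cast_nonneg
  have l0 : (0 : ℝ) ≤ 1 - m / 2 ^ 60 := by linarith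
  refine (h _ l0 (by linarith) (by linarith)).trans ((add_le_add (mul_le_mul_of_nonneg_left d1.2 l0)
    (mul_le_mul_of_nonneg_left d2.2 (by linarith))).trans ?_)
  rw [← mul_assoc, ← mul_assoc, ← add_mul]
  refine mul_le_mul_of_nonneg_right ?_ (K_pos hn hr).le
  have h1 : (0 : ℝ) < w.h := by exact_mod_cast h0
  have hx : (x : ℝ) ≤ max x y := by exact_mod_cast le_max_left x y
  have hy : (y : ℝ) ≤ max x y := by exact_mod_cast le_max_right x y
  rw [le_sub_iff_add_le, ← Iv.U_iff, Iv.U, show cond ray 0 r = r - cond ray 1 0 * r by cases ray <;> simp]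
  have key : ∀ L R A : ℝ, A = (R - L) / (w.h * 2 ^ 9) - cond ray 1 0 →
      ((w.r + 2 * w.h - lo) * L + (lo - w.r) * R) / (w.h * 2 ^ 9) + (2 ^ 96 - 2 ^ 66) -
        cond ray 1 0 * lo ≤ (x : ℝ) →
      ((w.r + 2 * w.h - hi) * L + (hi - w.r) * R) / (w.h * 2 ^ 9) + (2 ^ 96 - 2 ^ 66) -
        cond ray 1 0 * hi ≤ (y : ℝ) →
      ((1 - u) * L + (1 + u) * R) / 2 ^ 9 + (2 ^ 96 - 2 ^ 66) - cond ray 1 0 * (SS * r) ≤
        (max x y : ℕ) := fun L R A hA a1 a2 => by
    have f : ∀ z : ℝ, ((w.r + 2 * w.h - z) * L + (z - w.r) * R) / (w.h * 2 ^ 9) - cond ray 1 0 * z =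
        ((1 - u) * L + (1 + u) * R) / 2 ^ 9 - cond ray 1 0 * (SS * r) + A * (z - SS * r) :=
      fun z => by
        rw [hA, hu]
        field_simp
        ring
    rcases le_total 0 A with e | e
    · linarith [f hi, mul_nonneg e (sub_nonneg.2 l3)]
    · linarith [f lo, mul_nonneg_of_nonpos_of_nonpos e (sub_nonpos.2 l2)]
  have := key _ _ _ rfl a1 a2
  rw [SS] at this
  linarith

/-- the bound on a piece of a row -/
def lq (ray : Bool) (cl ch : ℕ) (w : Row) (lo hi : ℕ) : Res :=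
  cond (ray && (hi.add (ch.shiftLeft 1)).ble (nat_lit 36893488147419103232))
    ⟨(ch.shiftRight 60).succ.blt w.ji, lv ray w w.iL w.iR ch lo hi⟩
    (let C := mx cl (((nat_lit 36893488147419103232).sub hi).shiftRight 1)
    ⟨w.jo.ble (C.shiftRight 60), lv ray w w.oL w.oR C lo hi⟩)

lemma cond_ind {α : Type} {p : α → Prop} {a b : α} (c : Bool) (h1 : p a) (h2 : p b) :
    p (cond c a b) := by cases c <;> assumption

theorem lq_ok (hn : 2 ≤ n) (hr : 0 < r) (c0 : -1 < c) (c1 : c < 1) {ray : Bool} {cl ch lo hi : ℕ}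
    (h : RowOK n w r u) (l1 : w.r ≤ lo) (l2 : lo ≤ SS * r) (l3 : SS * r ≤ hi)
    (l4 : hi ≤ w.r + 2 * w.h) (h1 : cl ≤ SS * (c + 1)) (h2 : SS * (c + 1) ≤ ch) :
    (lq ray cl ch w lo hi).ok = true →
      beta n r c ≤ (Iv.val (lq ray cl ch w lo hi).v - cond ray 0 r) * Kf n r := by
  have hc : c ^ 2 < 1 := by nlinarith
  rw [lq]
  refine cond_ind (p := fun e : Res => e.ok = true → beta n r c ≤ (Iv.val e.v - cond ray 0 r) * Kf n r)
    _ (fun e => ?_) fun e => ?_
  · have e : (ch.shiftRight 60).succ < w.ji := Nat.blt_eq.mp e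
    have d1 := h.2.2.2 _ ((Nat.lt_succ_self _).trans e)
    have d2 := h.2.2.2 _ e
    refine lv_ok hn hr h.1 h.2.1 l1 l2 l3 l4 d1 d2 fun l a b f => interp_in hn hr hc d1.1 d2.1 a b ?_
    rw [SS] at h2
    push_cast
    linarith
  · have e := Nat.le_of_ble_eq_true e
    have k : (mx cl (((nat_lit 36893488147419103232).sub hi).shiftRight 1) : ℝ) ≤
        2 ^ 64 * (max c (-r / 2) + 1) := by
      rw [SS] at h1 l3
      rw [mx_eq, Nat.cast_max, show Nat.shiftRight _ 1 = _ from Nat.shiftRight_eq_div_pow _ 1]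
      refine max_le (by linarith [le_max_left c (-r / 2)]) (Nat.cast_div_le.trans ?_)
      rw [c_sub, div_le_iff₀ (by positivity)]
      refine max_le ?_ ?_ <;> norm_num <;> linarith [le_max_left c (-r / 2), le_max_right c (-r / 2)]
    generalize mx cl _ = C at *
    have j : C.shiftRight 60 < 32 := by
      rw [show C.shiftRight 60 = _ from Nat.shiftRight_eq_div_pow C 60, Nat.div_lt_iff_lt_mul
        (by positivity), ← Nat.cast_lt (α := ℝ)]
      have : max c (-r / 2) < 1 := max_lt c1 (by linarith)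
      push_cast
      linarith
    have d1 := h.2.2.1 _ e j.le
    have d2 := h.2.2.1 _ (e.trans (Nat.le_succ _)) j
    refine lv_ok hn hr h.1 h.2.1 l1 l2 l3 l4 d1 d2 fun l a b f => ip_out hn hr hc d1.1 d2.1 a b ?_
    push_cast
    linarith

/-- search tree of rows -/
inductive Tr
  | lf (w : Row)
  | nd (k : ℕ) (a b : Tr)

/-- join of two results -/
def jn (a b : Res) : Res := ⟨a.ok && b.ok, mx a.v b.v⟩

/-- the bound on a box -/
noncomputable def qr (ray : Bool) (cl ch : ℕ) (T : Tr) : ℕ → ℕ → Res :=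
  Tr.rec (lq ray cl ch) (fun k _ _ f g lo hi =>
    Bool.rec (Bool.rec (jn (f lo k) (g k hi)) (g lo hi) (k.ble lo)) (f lo hi) (hi.ble k)) T

/-- check of all rows -/
noncomputable def chk (p : Row → Bool) (T : Tr) : ℕ → ℕ → Bool :=
  Tr.rec (fun w lo hi => w.r.ble lo && hi.ble (w.r + 2 * w.h) && p w)
    (fun k _ _ f g lo hi => f lo k && g k hi) T

theorem chk_nd {p : Row → Bool} {k lo hi : ℕ} {a b : Tr} (h1 : chk p a lo k = true)
    (h2 : chk p b k hi = true) : chk p (.nd k a b) lo hi = true := by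
  change (chk p a lo k && chk p b k hi) = true
  rw [h1, h2]
  rfl

/-- comparison of the bounds of the mean with a table -/
def lk (look : Iv → Lk) (w : Row) : Bool :=
  w.sl.ble (Iv.nm (look (Iv.ofS w.r (w.r + 2 * w.h))).s.l) &&
  (Iv.pp (look (Iv.ofS w.r (w.r + 2 * w.h))).s.h).ble w.sh

variable {F : ℝ → ℝ} {look : Iv → Lk}

theorem qr_ok (hn : 2 ≤ n) (hg : Iv.mem (1 / n) g) (hL : LkOK n F look) (hr : 0 < r) (c0 : -1 < c)
    (c1 : c < 1) {ray : Bool} {cl ch : ℕ} (h1 : cl ≤ SS * (c + 1)) (h2 : SS * (c + 1) ≤ ch) (T : Tr) :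
    ∀ a b lo hi : ℕ, chk (chkRow (gA g) (cA (gA g))) T a b = true → chk (lk look) T a b = true →
      a ≤ lo → lo ≤ SS * r → SS * r ≤ hi → hi ≤ b → (qr ray cl ch T lo hi).ok = true →
      beta n r c ≤ (Iv.val (qr ray cl ch T lo hi).v - cond ray 0 r) * Kf n r := by
  induction T with
  | lf w =>
    intro a b lo hi e1 e2 l1 l2 l3 l4
    replace e1 : (w.r.ble a && b.ble (w.r + 2 * w.h) && chkRow (gA g) (cA (gA g)) w) = true := e1
    replace e2 : (w.r.ble a && b.ble (w.r + 2 * w.h) && lk look w) = true := e2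
    simp only [lk, Bool.and_eq_true, Nat.ble_eq] at e1 e2
    have a1 : (w.r : ℝ) ≤ SS * r := le_trans (by exact_mod_cast e1.1.1.trans l1) l2
    have a2 : SS * r ≤ (w.r + 2 * w.h : ℕ) := l3.trans (by exact_mod_cast l4.trans e1.1.2)
    have m := (hL _ r hr (Iv.mem_ofS a1 a2)).1
    have s0 : 0 ≤ Ms n r / Kf n r := div_nonneg (integral_nonneg_of_ae ((mu_ae n).mono fun s hs =>
      (mul_pos hs.1 (W_pos hr hs.1)).le)) (K_pos hn hr).le
    obtain ⟨u, hu⟩ := row_ok hn hg hr a1 (by exact_mod_cast a2)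
      (le_trans (by exact_mod_cast e2.2.1) (m.1.nm_le s0))
      (m.2.le_pp.trans (by exact_mod_cast e2.2.2)) e1.2
    exact lq_ok hn hr c0 c1 hu (e1.1.1.trans l1) l2 l3 (l4.trans e1.1.2) h1 h2
  | nd k L R iL iR =>
    intro a b lo hi e1 e2 l1 l2 l3 l4
    replace e1 : (chk _ L a k && chk _ R k b) = true := e1
    replace e2 : (chk _ L a k && chk _ R k b) = true := e2
    rw [Bool.and_eq_true] at e1 e2
    rw [show qr ray cl ch (.nd k L R) lo hi = cond (hi.ble k) (qr ray cl ch L lo hi) (cond (k.ble lo)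
      (qr ray cl ch R lo hi) (jn (qr ray cl ch L lo k) (qr ray cl ch R k hi))) by
        cases e : hi.ble k <;> cases e' : k.ble lo <;> simp only [qr, e, e', cond_true, cond_false]]
    cases e : hi.ble k
    · cases e' : k.ble lo
      · simp only [cond_false, jn, Bool.and_eq_true, mx_eq]
        intro o
        have m : ∀ {x y : ℕ}, x ≤ y → (Iv.val x - cond ray 0 r) * Kf n r ≤
            (Iv.val y - cond ray 0 r) * Kf n r := fun h => mul_le_mul_of_nonneg_right (sub_le_sub_right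
          (Iv.U_iff.1 ((Iv.U_iff.2 le_rfl).mono le_rfl h)) _) (K_pos hn hr).le
        rcases le_total (SS * r) k with f | f
        · exact (iL a k lo k e1.1 e2.1 l1 l2 f le_rfl o.1).trans (m (le_max_left _ _))
        · exact (iR k b k hi e1.2 e2.2 le_rfl f l3 l4 o.2).trans (m (le_max_right _ _))
      · exact iR k b lo hi e1.2 e2.2 (Nat.le_of_ble_eq_true e') l2 l3 l4
    · exact iL a k lo hi e1.1 e2.1 l1 l2 l3 (Nat.le_of_ble_eq_true e)

/-- attach a test -/
def wi (b : Bool) (e : Res) : Res := ⟨b && e.ok, e.v⟩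

/-- the evaluator given by a table -/
noncomputable def ev (ray : Bool) (T : Tr) (I J : Iv) : Res :=
  wi ((Iv.pp I.h).ble (nat_lit 9444732965739290427392))
    (qr ray ((nat_lit 79228162532711081667253501952).sub J.l)
      (J.h.sub (nat_lit 79228162495817593519834398720)) T (Iv.nm I.l) (Iv.pp I.h))

/-- the ray evaluator -/
noncomputable def evRay (T : Tr) : Iv → Iv → Res := ev true T

/-- the outer evaluator -/
noncomputable def evOut (T : Tr) : Iv → Iv → Res := ev false T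

/-- the table is correct for a run -/
def TOK (R : Run) (look : Iv → Lk) (T : Tr) : Prop :=
  chk (chkRow (gA R.g) (cA (gA R.g))) T 0 9444732965739290427392 = true ∧
  chk (lk look) T 0 9444732965739290427392 = true

variable {R : Run} {T : Tr}

theorem ev_ok (h : R.ok n) (hL : LkOK n F look) (hT : TOK R look T) (ray : Bool) {I J : Iv}
    (hr : 0 < r) (c0 : -1 < c) (c1 : c < 1) (hI : Iv.mem r I) (hJ : Iv.mem c J)
    (e : (ev ray T I J).ok = true) :
    beta n r c ≤ (Iv.val (ev ray T I J).v - cond ray 0 r) * Kf n r := by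
  rw [ev, wi] at e ⊢
  rw [Bool.and_eq_true, Nat.ble_eq] at e
  refine qr_ok (by have := h.2.1.trans h.2.2.1; omega) h.2.2.2 hL hr c0 c1 ?_ ?_ T _ _ _ _ hT.1 hT.2
    (Nat.zero_le _) (hI.1.nm_le hr.le) hI.2.le_pp e.1 e.2
  · have := hJ.1
    rw [c_sub, SS]
    refine max_le ?_ (mul_nonneg (by positivity) (by linarith))
    norm_num [Iv.U] at this ⊢
    linarith
  · have := hJ.2
    refine le_trans ?_ (Iv.sub_ge _ _)
    norm_num [Iv.U, SS] at this ⊢
    linarith

theorem raySpec (h : R.ok n) (hL : LkOK n F look) (hT : TOK R look T) : RaySpec n (evRay T) :=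
  fun _ _ _ _ hr c0 c1 hI hJ e => by simpa [evRay] using ev_ok h hL hT true hr c0 c1 hI hJ e

theorem outSpec (h : R.ok n) (hL : LkOK n F look) (hT : TOK R look T) : OutSpec n (evOut T) :=
  fun _ _ _ _ hr c0 c1 _ hI hJ e => ev_ok h hL hT false hr c0 c1 hI hJ e

/-- `qr` by structural recursion -/
def qrC (ray : Bool) (cl ch : ℕ) : Tr → ℕ → ℕ → Res
  | .lf w, lo, hi => lq ray cl ch w lo hi
  | .nd k a b, lo, hi => if hi.ble k then qrC ray cl ch a lo hi else
      if k.ble lo then qrC ray cl ch b lo hi else jn (qrC ray cl ch a lo k) (qrC ray cl ch b k hi)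

/-- `ev` by structural recursion -/
def evC (ray : Bool) (T : Tr) (I J : Iv) : Res :=
  wi ((Iv.pp I.h).ble (nat_lit 9444732965739290427392))
    (qrC ray ((nat_lit 79228162532711081667253501952).sub J.l)
      (J.h.sub (nat_lit 79228162495817593519834398720)) T (Iv.nm I.l) (Iv.pp I.h))

end Pool.Agent.Lib.MP_f225de_an.Bx
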