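import Mathlib

set_option autoImplicit false

open MeasureTheory Set Filter Topology
open scoped ENNReal NNReal Pointwise

namespace Pool.Agent.Lib.MP_f225de_an.Cubic

section part
variable {F : Type*} [NormedAddCommGroup F] [NormedSpace ℝ F]

/-- at accumulation points the derivative obeys every Lipschitz type bound -/
lemma ae_deriv_close (γ γ' : ℝ → F) (t : Set ℝ) (ht : MeasurableSet t)
    (h : ∀ x ∈ t, HasDerivWithinAt γ (γ' x) t x) (v : F) (c : ℝ)
    (hv : ∀ x ∈ t, ∀ y ∈ t, ‖γ x - γ y - (x - y) • v‖ ≤ c * |x - y|) :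
    ∀ᵐ x ∂(volume.restrict t), ‖γ' x - v‖ ≤ c := by
  have h0 : volume {x ∈ t | 𝓝[t ∩ Ioi x] x = ⊥} = 0 :=
    (countable_setOfPred_isolated_right_within (s := t)).measure_zero _
  rw [ae_restrict_iff' ht]
  filter_upwards [measure_eq_zero_iff_ae_notMem.mp h0] with x hx hxt
  have hne : (𝓝[t ∩ Ioi x] x).NeBot := ⟨fun hb => hx ⟨hxt, hb⟩⟩
  have h1 : HasDerivWithinAt γ (γ' x) (t ∩ Ioi x) x := (h x hxt).mono inter_subset_left
  rw [hasDerivWithinAt_iff_tendsto_slope' (by simp)] at h1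
  have h2 : Tendsto (fun y => ‖slope γ x y - v‖) (𝓝[t ∩ Ioi x] x) (𝓝 ‖γ' x - v‖) :=
    (h1.sub_const v).norm
  refine le_of_tendsto h2 ?_
  filter_upwards [self_mem_nhdsWithin] with y hy
  have hyx : 0 < y - x := sub_pos.mpr hy.2
  have h3 := hv y hy.1 x hxt
  have e : slope γ x y - v = (y - x)⁻¹ • (γ y - γ x - (y - x) • v) := by
    rw [slope_def_module, smul_sub _ (γ y - γ x), smul_smul, inv_mul_cancel₀ hyx.ne', one_smul]
  rw [e, norm_smul, Real.norm_eq_abs, abs_inv, inv_mul_le_iff₀ (abs_pos.mpr hyx.ne')]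
  linarith

lemma exists_part [SecondCountableTopology F] (γ γ' : ℝ → F) (s : Set ℝ) (hs : MeasurableSet s)
    (h : ∀ x ∈ s, HasDerivWithinAt γ (γ' x) s x) (r : F → ℝ≥0) (hr : ∀ v, r v ≠ 0) :
    ∃ (t : ℕ → Set ℝ) (v : ℕ → F), Pairwise (Function.onFun Disjoint t) ∧
      (∀ n, MeasurableSet (t n)) ∧ (⋃ n, t n) = s ∧
      (∀ n, ∀ x ∈ t n, ∀ y ∈ t n, ‖γ x - γ y - (x - y) • v n‖ ≤ r (v n) * |x - y|) ∧
      (∀ n, ∀ᵐ x ∂(volume.restrict (t n)), ‖γ' x - v n‖ ≤ r (v n)) ∧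
      (∀ n, (t n).Nonempty → ∃ y ∈ s, v n = γ' y) := by
  obtain ⟨t, A, hd, hm, hc, ha, hy⟩ :=
    exists_partition_approximatesLinearOn_of_hasFDerivWithinAt γ s
      (fun x => ContinuousLinearMap.toSpanSingleton ℝ (γ' x))
      (fun x hx => (h x hx).hasFDerivWithinAt) (fun A => r (A 1)) (fun A => hr _)
  have key : ∀ n, ∀ x ∈ s ∩ t n, ∀ y ∈ s ∩ t n,
      ‖γ x - γ y - (x - y) • A n 1‖ ≤ r (A n 1) * |x - y| := by
    intro n x hx y hy
    have := ha n x hx y hy
    rwa [show A n (x - y) = (x - y) • A n 1 by rw [← map_smul]; simp, Real.norm_eq_abs] at this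
  refine ⟨fun n => s ∩ t n, fun n => A n 1, ?_, fun n => hs.inter (hm n), ?_, key, ?_, ?_⟩
  · intro i j hij
    exact (hd hij).mono inter_subset_right inter_subset_right
  · rw [← inter_iUnion]
    exact inter_eq_left.mpr hc
  · intro n
    exact ae_deriv_close γ γ' _ (hs.inter (hm n))
      (fun x hx => (h x hx.1).mono inter_subset_left) _ _ (key n)
  · rintro n ⟨x, hx⟩
    obtain ⟨y, hys, e⟩ := hy ⟨x, hx.1⟩ n
    exact ⟨y, hys, by simp [e]⟩

end part

/-- upper bound for the length of a differentiable curve -/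
theorem length_le (γ γ' : ℝ → ℂ) (s : Set ℝ) (hs : MeasurableSet s) (hfin : volume s ≠ ∞)
    (h : ∀ x ∈ s, HasDerivWithinAt γ (γ' x) s x) :
    Measure.hausdorffMeasure (1 : ℝ) (γ '' s) ≤ ∫⁻ x in s, ‖γ' x‖ₑ := by
  have key : ∀ ε : ℝ≥0, ε ≠ 0 →
      Measure.hausdorffMeasure (1 : ℝ) (γ '' s) ≤ (∫⁻ x in s, ‖γ' x‖ₑ) + 2 * ε * volume s := by
    intro ε hε
    obtain ⟨t, v, hd, hm, hu, ha, hb, -⟩ := exists_part γ γ' s hs h (fun _ => ε) (fun _ => hε)
    have h1 : ∀ n, Measure.hausdorffMeasure (1 : ℝ) (γ '' t n) ≤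
        ∫⁻ x in t n, (‖γ' x‖ₑ + 2 * ε) := by
      intro n
      have hl : LipschitzOnWith (‖v n‖₊ + ε) γ (t n) := by
        apply LipschitzOnWith.of_dist_le_mul
        intro x hx y hy
        have h2 := ha n x hx y hy
        have h3 := norm_add_le (γ x - γ y - (x - y) • v n) ((x - y) • v n)
        rw [sub_add_cancel, norm_smul, Real.norm_eq_abs] at h3
        rw [dist_eq_norm, Real.dist_eq]
        push_cast
        nlinarith
      have h2 := hl.hausdorffMeasure_image_le (d := 1) zero_le_one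
      rw [hausdorffMeasure_real, ENNReal.rpow_one] at h2
      refine h2.trans ?_
      rw [← setLIntegral_const]
      apply lintegral_mono_ae
      filter_upwards [hb n] with x hx
      have h3 : ‖v n‖₊ + ε ≤ ‖γ' x‖₊ + 2 * ε := by
        rw [← NNReal.coe_le_coe]
        push_cast
        have := norm_sub_norm_le (v n) (γ' x)
        rw [norm_sub_rev] at this
        linarith
      rw [enorm_eq_nnnorm]
      exact_mod_cast h3
    calc Measure.hausdorffMeasure (1 : ℝ) (γ '' s)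
        = Measure.hausdorffMeasure (1 : ℝ) (⋃ n, γ '' t n) := by rw [← image_iUnion, hu]
      _ ≤ ∑' n, Measure.hausdorffMeasure (1 : ℝ) (γ '' t n) := measure_iUnion_le _
      _ ≤ ∑' n, ∫⁻ x in t n, (‖γ' x‖ₑ + 2 * ε) := ENNReal.tsum_le_tsum h1
      _ = ∫⁻ x in s, (‖γ' x‖ₑ + 2 * ε) := by rw [← lintegral_iUnion hm hd, hu]
      _ = _ := by rw [lintegral_add_right _ measurable_const, setLIntegral_const]
  have hlim : Tendsto (fun ε : ℝ≥0 => (∫⁻ x in s, ‖γ' x‖ₑ) + 2 * ε * volume s) (𝓝[>] 0)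
      (𝓝 ((∫⁻ x in s, ‖γ' x‖ₑ) + 2 * (0 : ℝ≥0) * volume s)) := by
    apply Tendsto.mono_left _ nhdsWithin_le_nhds
    apply Tendsto.const_add
    apply ENNReal.Tendsto.mul_const _ (Or.inr hfin)
    exact ENNReal.Tendsto.const_mul (ENNReal.tendsto_coe.mpr tendsto_id) (Or.inr (by simp))
  simp only [ENNReal.coe_zero, mul_zero, zero_mul, add_zero] at hlim
  apply ge_of_tendsto hlim
  filter_upwards [self_mem_nhdsWithin] with ε hε
  exact key ε (ne_of_gt hε)

/-- lower bound for the length of an injective curve with non-vanishing derivative -/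
theorem le_length (γ γ' : ℝ → ℂ) (h : ∀ x, HasDerivAt γ (γ' x) x) (h0 : ∀ x, γ' x ≠ 0)
    (hinj : Function.Injective γ) :
    ∫⁻ x, ‖γ' x‖ₑ ≤ Measure.hausdorffMeasure (1 : ℝ) (range γ) := by
  have hc : Continuous γ := continuous_iff_continuousAt.mpr fun x => (h x).continuousAt
  have key : ∀ ε : ℝ≥0, ε ≠ 0 → ε < 1 →
      ((1 - ε : ℝ≥0) : ℝ≥0∞) * ∫⁻ x, ‖γ' x‖ₑ ≤
        ((1 + ε : ℝ≥0) : ℝ≥0∞) * Measure.hausdorffMeasure (1 : ℝ) (range γ) := by
    intro ε hε hε1
    classical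
    obtain ⟨t, v, hd, hm, hu, ha, hb, hy⟩ := exists_part γ γ' univ MeasurableSet.univ
      (fun x _ => (h x).hasDerivWithinAt) (fun v => if v = 0 then 1 else ε * ‖v‖₊)
      (fun v => by split_ifs with hv <;> simp [*])
    have h1 : ∀ n, ((1 - ε : ℝ≥0) : ℝ≥0∞) * ∫⁻ x in t n, ‖γ' x‖ₑ ≤
        ((1 + ε : ℝ≥0) : ℝ≥0∞) * Measure.hausdorffMeasure (1 : ℝ) (γ '' t n) := by
      intro n
      rcases (t n).eq_empty_or_nonempty with he | he
      · simp [he]
      obtain ⟨y, -, hy⟩ := hy n he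
      have hv : v n ≠ 0 := hy ▸ h0 y
      have ha' := ha n
      have hb' := hb n
      simp only [hv, if_false] at ha' hb'
      have h2 : ∫⁻ x in t n, ‖γ' x‖ₑ ≤ ((1 + ε) * ‖v n‖₊ : ℝ≥0) * volume (t n) := by
        rw [← setLIntegral_const]
        apply lintegral_mono_ae
        filter_upwards [hb'] with x hx
        rw [enorm_eq_nnnorm, ENNReal.coe_le_coe, ← NNReal.coe_le_coe]
        push_cast at hx ⊢
        have := norm_sub_norm_le (γ' x) (v n)
        linarith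
      set K : ℝ≥0 := (1 - ε) * ‖v n‖₊ with hK
      have hKc : (K : ℝ) = (1 - ε) * ‖v n‖ := by
        rw [hK, NNReal.coe_mul, NNReal.coe_sub hε1.le]
        simp
      have hl : LipschitzOnWith 1 (fun z => K * Function.invFun γ z) (γ '' t n) := by
        apply LipschitzOnWith.of_dist_le_mul
        rintro _ ⟨x, hx, rfl⟩ _ ⟨y, hy, rfl⟩
        rw [Function.leftInverse_invFun hinj, Function.leftInverse_invFun hinj, Real.dist_eq,
          dist_eq_norm, ← mul_sub, abs_mul, NNReal.abs_eq, hKc]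
        have h2 := ha' x hx y hy
        have h3 := norm_sub_le (γ x - γ y) (γ x - γ y - (x - y) • v n)
        rw [sub_sub_cancel, norm_smul, Real.norm_eq_abs] at h3
        push_cast at h2 ⊢
        nlinarith
      have h3 := hl.hausdorffMeasure_image_le (d := 1) zero_le_one
      rw [hausdorffMeasure_real, image_image] at h3
      simp only [Function.leftInverse_invFun hinj _, ENNReal.coe_one, ENNReal.one_rpow,
        one_mul] at h3
      have h4 : volume ((fun x : ℝ => (K : ℝ) * x) '' t n) = K * volume (t n) := by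
        have : (fun x : ℝ => (K : ℝ) * x) '' t n = (K : ℝ) • t n := by
          ext y; simp [Set.mem_smul_set]
        rw [this, Measure.addHaar_smul]
        simp
      rw [h4] at h3
      calc ((1 - ε : ℝ≥0) : ℝ≥0∞) * ∫⁻ x in t n, ‖γ' x‖ₑ
          ≤ ((1 - ε : ℝ≥0) : ℝ≥0∞) * (((1 + ε) * ‖v n‖₊ : ℝ≥0) * volume (t n)) := by gcongr
        _ = ((1 + ε : ℝ≥0) : ℝ≥0∞) * (K * volume (t n)) := by
          rw [hK, ENNReal.coe_mul, ENNReal.coe_mul]
          ring
        _ ≤ _ := by gcongr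
    have hmeas : ∀ n, MeasurableSet (γ '' t n) := fun n =>
      (hm n).image_of_continuousOn_injOn hc.continuousOn hinj.injOn
    have hdis : Pairwise (Function.onFun Disjoint fun n => γ '' t n) := fun i j hij =>
      (disjoint_image_iff hinj).mpr (hd hij)
    calc ((1 - ε : ℝ≥0) : ℝ≥0∞) * ∫⁻ x, ‖γ' x‖ₑ
        = ∑' n, ((1 - ε : ℝ≥0) : ℝ≥0∞) * ∫⁻ x in t n, ‖γ' x‖ₑ := by
          rw [ENNReal.tsum_mul_left, ← lintegral_iUnion hm hd, hu, Measure.restrict_univ]
      _ ≤ ∑' n, ((1 + ε : ℝ≥0) : ℝ≥0∞) * Measure.hausdorffMeasure (1 : ℝ) (γ '' t n) :=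
          ENNReal.tsum_le_tsum h1
      _ = _ := by
          rw [ENNReal.tsum_mul_left, ← measure_iUnion hdis hmeas, ← image_iUnion, hu, image_univ]
  have l1 : Tendsto (fun ε : ℝ≥0 => ((1 - ε : ℝ≥0) : ℝ≥0∞) * ∫⁻ x, ‖γ' x‖ₑ) (𝓝[>] 0)
      (𝓝 (((1 - 0 : ℝ≥0) : ℝ≥0∞) * ∫⁻ x, ‖γ' x‖ₑ)) := by
    apply Tendsto.mono_left _ nhdsWithin_le_nhds
    apply ENNReal.Tendsto.mul_const _ (Or.inl (by simp))
    exact ENNReal.tendsto_coe.mpr (tendsto_const_nhds.sub tendsto_id)
  have l2 : Tendsto (fun ε : ℝ≥0 => ((1 + ε : ℝ≥0) : ℝ≥0∞) *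
      Measure.hausdorffMeasure (1 : ℝ) (range γ)) (𝓝[>] 0)
      (𝓝 (((1 + 0 : ℝ≥0) : ℝ≥0∞) * Measure.hausdorffMeasure (1 : ℝ) (range γ))) := by
    apply Tendsto.mono_left _ nhdsWithin_le_nhds
    apply ENNReal.Tendsto.mul_const _ (Or.inl (by simp))
    exact ENNReal.tendsto_coe.mpr (tendsto_const_nhds.add tendsto_id)
  simp only [tsub_zero, add_zero, ENNReal.coe_one, one_mul] at l1 l2
  apply le_of_tendsto_of_tendsto l1 l2
  filter_upwards [self_mem_nhdsWithin, mem_nhdsWithin_of_mem_nhds (Iio_mem_nhds zero_lt_one)]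
    with ε hε hε1
  exact key ε (ne_of_gt hε) hε1

/-- one-dimensional area inequality with bounded multiplicity -/
theorem area_mult {ι : Type} [Countable ι] (f : ι → ℝ → ℝ) (s : ι → Set ℝ)
    (hs : ∀ i, MeasurableSet (s i)) (hf : ∀ i, ∀ x ∈ s i, DifferentiableAt ℝ (f i) x)
    (g : ℝ → ℝ≥0∞) (hg : Measurable g) (N : ℕ)
    (hN : ∀ᵐ y : ℝ, {p : ι × ℝ | p.2 ∈ s p.1 ∧ f p.1 p.2 = y}.encard ≤ N) :
    ∑' i, ∫⁻ x in s i, ENNReal.ofReal |deriv (f i) x| * g (f i x) ≤ N * ∫⁻ y, g y := by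
  classical
  have hs' : ∀ i, MeasurableSet (s i ∩ {x | deriv (f i) x ≠ 0}) := fun i =>
    (hs i).inter ((measurable_deriv (f i)) (measurableSet_singleton 0)).compl
  have hp := fun i => exists_part (f i) (deriv (f i)) _ (hs' i)
    (fun x hx => (hf i x hx.1).hasDerivAt.hasDerivWithinAt)
    (fun v => if v = 0 then 1 else ‖v‖₊ / 2) (fun v => by split_ifs with hv <;> simp [*])
  choose t v hd hm hu ha _ hy using hp
  have hsub : ∀ i n, t i n ⊆ s i := fun i n x hx => by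
    have : x ∈ ⋃ n, t i n := mem_iUnion.mpr ⟨n, hx⟩
    rw [hu] at this
    exact this.1
  have hinj : ∀ i n, InjOn (f i) (t i n) := by
    intro i n x hx y hy' e
    obtain ⟨z, hz, hv⟩ := hy i n ⟨x, hx⟩
    have hv0 : v i n ≠ 0 := hv ▸ hz.2
    have h1 := ha i n x hx y hy'
    simp only [hv0, if_false] at h1
    rw [e, sub_self, zero_sub, norm_neg, norm_smul, Real.norm_eq_abs] at h1
    push_cast at h1
    have h2 : 0 < ‖v i n‖ := norm_pos_iff.mpr hv0
    have h3 : |x - y| ≤ 0 := by nlinarith [abs_nonneg (x - y)]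
    exact sub_eq_zero.mp (abs_nonpos_iff.mp h3)
  have hder : ∀ i n, ∀ x ∈ t i n, HasDerivWithinAt (f i) (deriv (f i) x) (t i n) x :=
    fun i n x hx => (hf i x (hsub i n hx)).hasDerivAt.hasDerivWithinAt
  have hmi : ∀ i n, MeasurableSet (f i '' t i n) := fun i n =>
    (hm i n).image_of_continuousOn_injOn
      (fun x hx => (hder i n x hx).continuousWithinAt) (hinj i n)
  have h1 : ∀ i, ∫⁻ x in s i, ENNReal.ofReal |deriv (f i) x| * g (f i x) =
      ∑' n, ∫⁻ y, (f i '' t i n).indicator g y := by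
    intro i
    rw [← lintegral_inter_add_sdiff _ (s i) ((measurable_deriv (f i))
      (measurableSet_singleton 0)).compl]
    have h0 : ∫⁻ x in s i \ (deriv (f i) ⁻¹' {0})ᶜ,
        ENNReal.ofReal |deriv (f i) x| * g (f i x) = 0 := by
      apply setLIntegral_eq_zero ((hs i).diff ((measurable_deriv (f i))
        (measurableSet_singleton 0)).compl)
      intro x hx
      have : deriv (f i) x = 0 := by simpa using hx.2
      simp [this]
    rw [h0, add_zero]
    have e : s i ∩ (deriv (f i) ⁻¹' {0})ᶜ = ⋃ n, t i n := (hu i).symm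
    rw [e, lintegral_iUnion (hm i) (hd i)]
    congr 1
    ext n
    rw [lintegral_indicator (hmi i n),
      lintegral_image_eq_lintegral_abs_deriv_mul (hm i n) (hder i n) (hinj i n)]
  simp_rw [h1]
  rw [← ENNReal.tsum_prod (f := fun i n => ∫⁻ y, (f i '' t i n).indicator g y),
    ← lintegral_tsum (f := fun (p : ι × ℕ) y => (f p.1 '' t p.1 p.2).indicator g y)
      (fun p => (hg.indicator (hmi p.1 p.2)).aemeasurable),
    ← lintegral_const_mul _ hg]
  apply lintegral_mono_ae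
  filter_upwards [hN] with y hy
  have h2 : {p : ι × ℕ | y ∈ f p.1 '' t p.1 p.2}.encard ≤ N := by
    refine le_trans ?_ hy
    have hx : ∀ p : ι × ℕ, ∃ x : ℝ, y ∈ f p.1 '' t p.1 p.2 → x ∈ t p.1 p.2 ∧ f p.1 x = y := by
      intro p
      by_cases hp : y ∈ f p.1 '' t p.1 p.2
      · obtain ⟨x, hx⟩ := hp
        exact ⟨x, fun _ => hx⟩
      · exact ⟨0, fun h => absurd h hp⟩
    choose x hx using hx
    apply encard_le_encard_of_injOn (f := fun p => (p.1, x p))
    · intro p hp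
      exact ⟨hsub _ _ (hx p hp).1, (hx p hp).2⟩
    · rintro ⟨i, n⟩ hp ⟨j, m⟩ hq e
      simp only [Prod.mk.injEq] at e
      obtain ⟨rfl, e⟩ := e
      by_contra hne
      have hnm : n ≠ m := fun h => hne (by rw [h])
      exact Set.disjoint_left.mp (hd i hnm) (hx _ hp).1 (e ▸ (hx _ hq).1)
  have h3 : ∑' p : ι × ℕ, (f p.1 '' t p.1 p.2).indicator g y =
      ∑' _ : {p : ι × ℕ | y ∈ f p.1 '' t p.1 p.2}, g y := by
    rw [tsum_subtype {p : ι × ℕ | y ∈ f p.1 '' t p.1 p.2} (fun _ => g y)]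
    congr 1
  rw [h3, ENNReal.tsum_set_const]
  gcongr
  exact_mod_cast h2

/-- the derivative of a function vanishing on a set vanishes almost everywhere on it -/
theorem ae_deriv_zero (f f' : ℝ → ℝ) (s : Set ℝ) (hs : MeasurableSet s)
    (h : ∀ x ∈ s, HasDerivAt f (f' x) x) (h0 : ∀ x ∈ s, f x = 0) :
    ∀ᵐ x ∂(volume.restrict s), f' x = 0 := by
  have := ae_deriv_close f f' s hs (fun x hx => (h x hx).hasDerivWithinAt) 0 0
    (fun x hx y hy => by simp [h0 x hx, h0 y hy])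
  filter_upwards [this] with x hx
  simpa using hx

end Pool.Agent.Lib.MP_f225de_an.Cubic
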