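import Pool.Agent.Lib.MP_f225de_an.C1

set_option autoImplicit false

open MeasureTheory Set Filter Topology Polynomial
open scoped ENNReal NNReal

namespace Pool.Agent.Lib.MP_f225de_an.Cubic

/-- leading coefficient of the cubic form along the chord -/
noncomputable def aa (R S : ℂ) : ℝ := R.im * (R.im ^ 2 + S.im ^ 2)
/-- second coefficient of the cubic form along the chord -/
noncomputable def bb (R S : ℂ) : ℝ := 3 * R.re * R.im ^ 2 + R.re * S.im ^ 2 + 2 * R.im * S.re * S.im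
/-- slope of the third intersection point of the chord through a point and its conjugate -/
noncomputable def xx (R S : ℂ) : ℝ :=
  (aa R S * S.re - bb R S * S.im) / (aa R S * R.re - bb R S * R.im)

lemma abel_id (R1 R2 S1 S2 w1 w2 d1 d2 e1 e2 a b a' b' : ℝ)
    (h1 : R1 ^ 3 - 3 * R1 * R2 ^ 2 + R1 * S1 ^ 2 - R1 * S2 ^ 2 - 2 * R2 * S1 * S2 = 1)
    (h2 : 3 * R1 ^ 2 * R2 - R2 ^ 3 + R2 * S1 ^ 2 - R2 * S2 ^ 2 + 2 * R1 * S1 * S2 = 0)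
    (hd1 : d1 = 2 / 3 * (R2 * S2 * w1 + R2 * S1 * w2 + R1 * S2 * w2 - R1 * S1 * w1))
    (hd2 : d2 = 2 / 3 * (R2 * S2 * w2 - R2 * S1 * w1 - R1 * S2 * w1 - R1 * S1 * w2))
    (he1 : e1 = 1 / 3 * (S1 ^ 2 * w1 - S2 ^ 2 * w1 - 2 * S1 * S2 * w2) +
      (R1 ^ 2 * w1 - R2 ^ 2 * w1 - 2 * R1 * R2 * w2))
    (he2 : e2 = 1 / 3 * (S1 ^ 2 * w2 - S2 ^ 2 * w2 + 2 * S1 * S2 * w1) +
      (R1 ^ 2 * w2 - R2 ^ 2 * w2 + 2 * R1 * R2 * w1))
    (ha : a = R2 * (R2 ^ 2 + S2 ^ 2)) (hb : b = 3 * R1 * R2 ^ 2 + R1 * S2 ^ 2 + 2 * R2 * S1 * S2)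
    (ha' : a' = 3 * R2 ^ 2 * d2 + S2 ^ 2 * d2 + 2 * R2 * S2 * e2)
    (hb' : b' = 3 * d1 * R2 ^ 2 + 6 * R1 * R2 * d2 + d1 * S2 ^ 2 + 2 * R1 * S2 * e2 +
      2 * d2 * S1 * S2 + 2 * R2 * e1 * S2 + 2 * R2 * S1 * e2) :
    (a' * S1 + a * e1 - (b' * S2 + b * e2)) * (a * R1 - b * R2) -
      (a * S1 - b * S2) * (a' * R1 + a * d1 - (b' * R2 + b * d2)) = -2 * w1 * a ^ 2 := by
  subst ha' hb' ha hb hd1 hd2 he1 he2
  linear_combination ((-1/32)*R2*S2^2*w2 + (1/32)*R2*S1^2*w2 + (-9/32)*R2^2*S2^4*w1 + 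
      (1/16)*R2^2*S1*S2^3*w2 + (-19/16)*R2^2*S1^2*S2^2*w1 + (-1/16)*R2^2*S1^3*S2*w2 + 
      (-17/32)*R2^2*S1^4*w1 + (-1/32)*R2^3*w2 + (-11/32)*R2^4*S2^2*w1 + 
      (1/16)*R2^4*S1*S2*w2 + (-45/32)*R2^4*S1^2*w1 + (-1/16)*R2^6*w1 + (1/16)*R1*S1*S2*w2 + 
      (5/32)*R1*R2*S2^4*w2 + (-29/8)*R1*R2*S1*S2^3*w1 + (-3/16)*R1*R2*S1^2*S2^2*w2 + 
      (-7/8)*R1*R2*S1^3*S2*w1 + (-3/32)*R1*R2*S1^4*w2 + (23/32)*R1*R2^3*S2^2*w2 + 
      (-65/16)*R1*R2^3*S1*S2*w1 + (-15/32)*R1*R2^3*S1^2*w2 + (9/16)*R1*R2^5*w2 + 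
      (-5/16)*R1^2*S1*S2^3*w2 + (3/8)*R1^2*S1^2*S2^2*w1 + (-3/16)*R1^2*S1^3*S2*w2 + 
      (3/32)*R1^2*R2*w2 + (-195/32)*R1^2*R2^2*S2^2*w1 + (-21/16)*R1^2*R2^2*S1*S2*w2 + 
      (-21/32)*R1^2*R2^2*S1^2*w1 + (-27/4)*R1^2*R2^4*w1 + (-17/32)*R1^3*R2*S2^2*w2 + 
      (39/16)*R1^3*R2*S1*S2*w1 + (-7/32)*R1^3*R2*S1^2*w2 + (-7/4)*R1^3*R2^3*w2 + 
      (1/8)*R1^4*S1*S2*w2 + (45/16)*R1^4*R2^2*w1 + (3/16)*R1^5*R2*w2) * h1 +
      ((1/32)*w2 + (-55/32)*R2*S2^2*w1 + (-17/32)*R2*S1^2*w1 + (-37/48)*R2^2*S1*S2^3*w1 + 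
      (13/24)*R2^2*S1^2*S2^2*w2 + (-17/16)*R2^2*S1^3*S2*w1 + (-31/16)*R2^3*w1 + 
      (-29/24)*R2^4*S1*S2*w1 + (2/3)*R2^4*S1^2*w2 + (-1/8)*R1*S2^2*w2 + (3/16)*R1*S1*S2*w1 + 
      (-1/8)*R1*S1^2*w2 + (-37/96)*R1*R2*S2^4*w1 + (23/24)*R1*R2*S1*S2^3*w2 + 
      (25/16)*R1*R2*S1^2*S2^2*w1 + (-1/8)*R1*R2*S1^3*S2*w2 + (17/32)*R1*R2*S1^4*w1 + 
      (-15/32)*R1*R2^2*w2 + (-169/96)*R1*R2^3*S2^2*w1 + (1/48)*R1*R2^3*S1*S2*w2 + 
      (11/32)*R1*R2^3*S1^2*w1 + (-29/16)*R1*R2^5*w1 + (-5/32)*R1^2*S2^4*w2 + 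
      (3/16)*R1^2*S1*S2^3*w1 + (1/16)*R1^2*S1^2*S2^2*w2 + (-3/16)*R1^2*S1^3*S2*w1 + 
      (3/32)*R1^2*S1^4*w2 + (15/16)*R1^2*R2*w1 + (31/32)*R1^2*R2^2*S2^2*w2 + 
      (39/16)*R1^2*R2^2*S1*S2*w1 + (9/32)*R1^2*R2^2*S1^2*w2 + (5/16)*R1^2*R2^4*w2 + 
      (1/32)*R1^3*w2 + (85/32)*R1^3*R2*S2^2*w1 + (3/16)*R1^3*R2*S1*S2*w2 + 
      (-13/32)*R1^3*R2*S1^2*w1 + (19/4)*R1^3*R2^3*w1 + (7/32)*R1^4*S2^2*w2 + 
      (-3/16)*R1^4*S1*S2*w1 + (1/32)*R1^4*S1^2*w2 + (3/4)*R1^4*R2^2*w2 + 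
      (-15/16)*R1^5*R2*w1 + (-1/16)*R1^6*w2) * h2

lemma curve_re {R S : ℂ} (h : R * (R ^ 2 + S ^ 2) = 1) :
    R.re ^ 3 - 3 * R.re * R.im ^ 2 + R.re * S.re ^ 2 - R.re * S.im ^ 2 -
      2 * R.im * S.re * S.im = 1 := by
  have := congrArg Complex.re h
  simp [pow_two] at this
  linear_combination this

lemma curve_im {R S : ℂ} (h : R * (R ^ 2 + S ^ 2) = 1) :
    3 * R.re ^ 2 * R.im - R.im ^ 3 + R.im * S.re ^ 2 - R.im * S.im ^ 2 +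
      2 * R.re * S.re * S.im = 0 := by
  have := congrArg Complex.im h
  simp [pow_two] at this
  linear_combination this

lemma aa_ne {R : ℂ} (S : ℂ) (h : R.im ≠ 0) : aa R S ≠ 0 := by
  unfold aa
  positivity

/-- the third point lies on the real curve -/
lemma third {R S : ℂ} (h : R * (R ^ 2 + S ^ 2) = 1) (hR : R.im ≠ 0) :
    ∃ q : ℝ, 0 < q ∧ aa R S * R.re - bb R S * R.im = aa R S * q ∧
      q ^ 3 * (1 + xx R S ^ 2) = 1 ∧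
      S.re - xx R S * q = S.im / R.im * (R.re - q) := by
  have ha := aa_ne S hR
  have h1 := curve_re h
  have h2 := curve_im h
  set t := -bb R S / aa R S with ht
  have e : aa R S * t + bb R S = 0 := by rw [ht]; field_simp; ring
  have hc : (R.re + t * R.im) * ((R.re + t * R.im) ^ 2 + (S.re + t * S.im) ^ 2) = 1 := by
    unfold aa bb at e
    linear_combination (t ^ 2 + 1) * e + t * h2 + h1
  have hq : 0 < R.re + t * R.im := by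
    by_contra hn
    have := mul_nonpos_of_nonpos_of_nonneg (not_lt.mp hn)
      (add_nonneg (sq_nonneg (R.re + t * R.im)) (sq_nonneg (S.re + t * S.im)))
    linarith
  have e1 : aa R S * R.re - bb R S * R.im = aa R S * (R.re + t * R.im) := by
    linear_combination (-R.im) * e
  have e2 : aa R S * S.re - bb R S * S.im = aa R S * (S.re + t * S.im) := by
    linear_combination (-S.im) * e
  have hx : xx R S * (R.re + t * R.im) = S.re + t * S.im := by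
    unfold xx
    rw [e1, e2]
    field_simp
  refine ⟨_, hq, e1, ?_, ?_⟩
  · linear_combination hc + (R.re + t * R.im) *
      (xx R S * (R.re + t * R.im) + (S.re + t * S.im)) * hx
  · rw [hx]
    field_simp
    ring

lemma q_eq {q x : ℝ} (hq : 0 < q) (h : q ^ 3 * (1 + x ^ 2) = 1) :
    q = (1 + x ^ 2) ^ (-(1 / 3) : ℝ) := by
  have h1 : 1 + x ^ 2 = q ^ (-3 : ℝ) := by
    rw [Real.rpow_neg hq.le, show (3 : ℝ) = (3 : ℕ) by norm_num, Real.rpow_natCast]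
    field_simp
    linarith
  rw [h1, ← Real.rpow_mul hq.le]
  norm_num

lemma q_sq {q x : ℝ} (hq : 0 < q) (h : q ^ 3 * (1 + x ^ 2) = 1) :
    q ^ 2 = (1 + x ^ 2) ^ (-(2 / 3) : ℝ) := by
  rw [q_eq hq h, ← Real.rpow_natCast, ← Real.rpow_mul (by positivity)]
  norm_num

lemma tangent_R {R S R' S' : ℂ} (h : R * (R ^ 2 + S ^ 2) = 1)
    (ht : (3 * R ^ 2 + S ^ 2) * R' + 2 * R * S * S' = 0) :
    R' = -(2 / 3) * (R * S * (R * S' - S * R')) := by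
  linear_combination (-R') * h + (R / 3) * ht

lemma tangent_S {R S R' S' : ℂ} (h : R * (R ^ 2 + S ^ 2) = 1)
    (ht : (3 * R ^ 2 + S ^ 2) * R' + 2 * R * S * S' = 0) :
    S' = (1 / 3) * ((3 * R * R + S * S) * (R * S' - S * R')) := by
  linear_combination (-S') * h + (S / 3) * ht

/-- the differential form of the addition theorem -/
theorem abel {R S : ℝ → ℂ} {R' S' : ℂ} {θ : ℝ} (hR : HasDerivAt R R' θ) (hS : HasDerivAt S S' θ)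
    (h : R θ * (R θ ^ 2 + S θ ^ 2) = 1)
    (ht : (3 * R θ ^ 2 + S θ ^ 2) * R' + 2 * R θ * S θ * S' = 0) (him : (R θ).im ≠ 0) :
    ∃ x', HasDerivAt (fun t => xx (R t) (S t)) x' θ ∧
      x' * (1 + xx (R θ) (S θ) ^ 2) ^ (-(2 / 3) : ℝ) = -2 * (R θ * S' - S θ * R').re := by
  have r1 : HasDerivAt (fun t => (R t).re) R'.re θ :=
    Complex.reCLM.hasFDerivAt.comp_hasDerivAt θ hR
  have r2 : HasDerivAt (fun t => (R t).im) R'.im θ :=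
    Complex.imCLM.hasFDerivAt.comp_hasDerivAt θ hR
  have s1 : HasDerivAt (fun t => (S t).re) S'.re θ :=
    Complex.reCLM.hasFDerivAt.comp_hasDerivAt θ hS
  have s2 : HasDerivAt (fun t => (S t).im) S'.im θ :=
    Complex.imCLM.hasFDerivAt.comp_hasDerivAt θ hS
  have da : HasDerivAt (fun t => aa (R t) (S t)) (3 * (R θ).im ^ 2 * R'.im + (S θ).im ^ 2 * R'.im
      + 2 * (R θ).im * (S θ).im * S'.im) θ := by
    unfold aa
    refine (r2.fun_mul ((r2.fun_pow 2).fun_add (s2.fun_pow 2))).congr_deriv ?_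
    push_cast
    ring
  have db : HasDerivAt (fun t => bb (R t) (S t)) (3 * R'.re * (R θ).im ^ 2 +
      6 * (R θ).re * (R θ).im * R'.im + R'.re * (S θ).im ^ 2 + 2 * (R θ).re * (S θ).im * S'.im +
      2 * R'.im * (S θ).re * (S θ).im + 2 * (R θ).im * S'.re * (S θ).im +
      2 * (R θ).im * (S θ).re * S'.im) θ := by
    unfold bb
    refine ((((r1.const_mul 3).fun_mul (r2.fun_pow 2)).fun_add
      (r1.fun_mul (s2.fun_pow 2))).fun_add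
      (((r2.const_mul 2).fun_mul s1).fun_mul s2)).congr_deriv ?_
    push_cast
    ring
  obtain ⟨q, hq, e1, e2, -⟩ := third h him
  have ha := aa_ne (S θ) him
  have hden : aa (R θ) (S θ) * (R θ).re - bb (R θ) (S θ) * (R θ).im ≠ 0 := by
    rw [e1]; exact mul_ne_zero ha hq.ne'
  have dx := ((da.fun_mul s1).fun_sub (db.fun_mul s2)).fun_div
    ((da.fun_mul r1).fun_sub (db.fun_mul r2)) hden
  refine ⟨_, dx, ?_⟩
  have t1 := tangent_R h ht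
  have t2 := tangent_S h ht
  set w := R θ * S' - S θ * R'
  have key := abel_id (R θ).re (R θ).im (S θ).re (S θ).im w.re w.im R'.re R'.im S'.re S'.im
    (aa (R θ) (S θ)) (bb (R θ) (S θ)) _ _ (curve_re h) (curve_im h)
    (by rw [t1]; simp; ring) (by rw [t1]; simp; ring) (by rw [t2]; simp; ring)
    (by rw [t2]; simp; ring) rfl rfl rfl rfl
  rw [key, ← q_sq hq e2, e1]
  field_simp

lemma roots_le (P : ℝ[X]) (hP : P ≠ 0) (n : ℕ) (hn : P.natDegree ≤ n) :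
    {x | P.eval x = 0}.encard ≤ n := by
  classical
  have : {x | P.eval x = 0} = (P.roots.toFinset : Set ℝ) := by
    ext x
    simp [hP]
  rw [this, encard_coe_eq_coe_finsetCard]
  exact_mod_cast (Multiset.toFinset_card_le _).trans ((card_roots' P).trans hn)

end Pool.Agent.Lib.MP_f225de_an.Cubic
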