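import Pool.Agent.Lib.MP_f225de_an.C2

set_option autoImplicit false

open MeasureTheory Set Filter Topology Polynomial
open scoped ENNReal NNReal

namespace Pool.Agent.Lib.MP_f225de_an.Cubic

/-- the equations satisfied by a non-real point on a real line through a real point -/
lemma leaf_eqs (q r : ℝ) (hq : q * (q ^ 2 + r ^ 2) = 1) (l u R S : ℂ) (m : ℝ)
    (h : R * (R ^ 2 + S ^ 2) = 1) (hl : ‖l * R + u * S‖ = 1) (him : R.im ≠ 0)
    (h1 : S.re - r = m * (R.re - q)) (h2 : S.im = m * R.im) :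
    2 * (1 + m ^ 2) * (R.re - q) = -(3 * q + q * m ^ 2 + 2 * r * m) ∧
    (1 + m ^ 2) * ((R.re - q) ^ 2 + R.im ^ 2) = 3 * q ^ 2 + r ^ 2 + 2 * q * r * m ∧
    (1 + m ^ 2) * ((l.re * q + u.re * r) ^ 2 + (l.im * q + u.im * r) ^ 2 - 1) -
      (3 * q + q * m ^ 2 + 2 * r * m) * ((l.re * q + u.re * r) * (l.re + u.re * m) +
        (l.im * q + u.im * r) * (l.im + u.im * m)) +
      (3 * q ^ 2 + r ^ 2 + 2 * q * r * m) * ((l.re + u.re * m) ^ 2 + (l.im + u.im * m) ^ 2) =
      2 * (1 + m ^ 2) * R.im * ((l.re * u.im - l.im * u.re) * (q * m - r)) := by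
  have c1 := curve_re h
  have c2 := curve_im h
  have hn : (l * R + u * S).re ^ 2 + (l * R + u * S).im ^ 2 = 1 := by
    have := Complex.sq_norm (l * R + u * S)
    rw [hl, Complex.normSq_apply] at this
    linarith
  simp only [Complex.add_re, Complex.mul_re, Complex.add_im, Complex.mul_im] at hn
  obtain ⟨σ, hσ⟩ : ∃ σ, R.re = q + σ := ⟨R.re - q, by ring⟩
  have h1' : S.re = r + m * σ := by rw [hσ] at h1; linarith
  rw [h1', h2, hσ] at c1 c2 hn
  rw [hσ]
  set τ := R.im
  have hpos : 0 < σ ^ 2 + τ ^ 2 := by positivity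
  have e1 : 2 * (1 + m ^ 2) * σ = -(3 * q + q * m ^ 2 + 2 * r * m) := by
    apply mul_left_cancel₀ him
    apply mul_left_cancel₀ hpos.ne'
    linear_combination σ * c2 - τ * (c1 - hq)
  have e2 : (1 + m ^ 2) * (σ ^ 2 + τ ^ 2) = 3 * q ^ 2 + r ^ 2 + 2 * q * r * m := by
    apply mul_left_cancel₀ him
    linear_combination (-1) * c2 + 2 * σ * τ * e1
  refine ⟨by linear_combination e1, by linear_combination e2, ?_⟩
  linear_combination (1 + m ^ 2) * hn - ((l.re * q + u.re * r) * (l.re + u.re * m) +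
        (l.im * q + u.im * r) * (l.im + u.im * m)) * e1 -
      ((l.re + u.re * m) ^ 2 + (l.im + u.im * m) ^ 2) * e2

/-- a leaf meets the level curve in at most six points -/
theorem count_six (q r : ℝ) (hq : q * (q ^ 2 + r ^ 2) = 1) (l u : ℂ) (hl : ‖l * q + u * r‖ ≠ 1) :
    {P : ℂ × ℂ | P.1 * (P.1 ^ 2 + P.2 ^ 2) = 1 ∧ ‖l * P.1 + u * P.2‖ = 1 ∧ P.1.im ≠ 0 ∧
      P.2.re - r = P.2.im / P.1.im * (P.1.re - q)}.encard ≤ (6 : ℕ) := by
  set T := {P : ℂ × ℂ | P.1 * (P.1 ^ 2 + P.2 ^ 2) = 1 ∧ ‖l * P.1 + u * P.2‖ = 1 ∧ P.1.im ≠ 0 ∧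
      P.2.re - r = P.2.im / P.1.im * (P.1.re - q)} with hT
  have hq0 : q ≠ 0 := by
    rintro rfl
    simp at hq
  have hN : (l.re * q + u.re * r) ^ 2 + (l.im * q + u.im * r) ^ 2 - 1 ≠ 0 := by
    intro h
    apply hl
    rw [← sq_eq_sq₀ (norm_nonneg _) zero_le_one, Complex.sq_norm, Complex.normSq_apply]
    simp
    linarith
  have hm : ∀ P ∈ T, P.2.im = P.2.im / P.1.im * P.1.im := fun P hP =>
    (div_mul_cancel₀ _ hP.2.2.1).symm
  have key := fun P (hP : P ∈ T) => leaf_eqs q r hq l u P.1 P.2 (P.2.im / P.1.im) hP.1 hP.2.1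
    hP.2.2.1 hP.2.2.2 (hm P hP)
  have hdet : ∀ P ∈ T, ∀ P' ∈ T, P.2.im / P.1.im = P'.2.im / P'.1.im → P.1.im = P'.1.im →
      P = P' := by
    intro P hP P' hP' e e'
    have k1 := (key P hP).1
    have k2 := (key P' hP').1
    rw [← e] at k2
    have hre : P.1.re = P'.1.re := by
      have : 2 * (1 + (P.2.im / P.1.im) ^ 2) ≠ 0 := by positivity
      apply mul_left_cancel₀ this
      linear_combination k1 - k2
    refine Prod.ext (Complex.ext hre e') (Complex.ext ?_ ?_)
    · have k3 := hP.2.2.2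
      have k4 := hP'.2.2.2
      rw [← e, ← hre] at k4
      linarith
    · rw [hm P hP, hm P' hP', ← e, e']
  let A : ℝ[X] := 1 + X ^ 2
  let B : ℝ[X] := C (3 * q) + C q * X ^ 2 + C (2 * r) * X
  let D : ℝ[X] := C (3 * q ^ 2 + r ^ 2) + C (2 * q * r) * X
  let G : ℝ[X] := A * C ((l.re * q + u.re * r) ^ 2 + (l.im * q + u.im * r) ^ 2 - 1) -
      B * (C (l.re * q + u.re * r) * (C l.re + C u.re * X) +
        C (l.im * q + u.im * r) * (C l.im + C u.im * X)) +
      D * ((C l.re + C u.re * X) ^ 2 + (C l.im + C u.im * X) ^ 2)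
  let F : ℝ[X] := C (l.re * u.im - l.im * u.re) * (C q * X - C r)
  have hG0 : G.eval (r / q) ≠ 0 := by
    have : G.eval (r / q) * q ^ 3 = (l.re * q + u.re * r) ^ 2 + (l.im * q + u.im * r) ^ 2 - 1 := by
      simp only [G, A, B, D, eval_add, eval_sub, eval_mul, eval_pow, eval_C, eval_X, eval_one]
      field_simp
      linear_combination ((l.re * q + u.re * r) ^ 2 + (l.im * q + u.im * r) ^ 2 - 1) * hq
    intro h
    rw [h, zero_mul] at this
    exact hN this.symm
  have hF0 : F.eval (r / q) = 0 := by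
    simp only [F, eval_sub, eval_mul, eval_C, eval_X]
    field_simp
    ring
  have hGF : ∀ P ∈ T, G.eval (P.2.im / P.1.im) =
      2 * (1 + (P.2.im / P.1.im) ^ 2) * P.1.im * F.eval (P.2.im / P.1.im) := by
    intro P hP
    simp only [G, A, B, D, F, eval_add, eval_sub, eval_mul, eval_pow, eval_C, eval_X, eval_one]
    linear_combination (key P hP).2.2
  by_cases hη : l.re * u.im - l.im * u.re = 0
  · have hG : G ≠ 0 := fun h => hG0 (by rw [h, eval_zero])
    have hdeg : G.natDegree ≤ 3 := by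
      simp only [G, A, B, D]
      compute_degree
    have h3 := roots_le G hG 3 hdeg
    have h4 : T.encard ≤ ({x | G.eval x = 0} ×ˢ (univ : Set Bool)).encard := by
      apply encard_le_encard_of_injOn (f := fun P => (P.2.im / P.1.im, decide (0 < P.1.im)))
      · intro P hP
        refine ⟨?_, mem_univ _⟩
        have := hGF P hP
        simp only [F, hη, map_zero, zero_mul, eval_zero, mul_zero] at this
        exact this
      · intro P hP P' hP' e
        simp only [Prod.mk.injEq, decide_eq_decide] at e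
        apply hdet P hP P' hP' e.1
        have k1 := (key P hP).1
        have k2 := (key P' hP').1
        have k3 := (key P hP).2.1
        have k4 := (key P' hP').2.1
        rw [← e.1] at k2 k4
        have hpos : 1 + (P.2.im / P.1.im) ^ 2 ≠ 0 := by positivity
        have hre : P.1.re = P'.1.re := by
          apply mul_left_cancel₀ (mul_ne_zero two_ne_zero hpos)
          linear_combination k1 - k2
        have hsq : P.1.im ^ 2 = P'.1.im ^ 2 := by
          apply mul_left_cancel₀ hpos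
          rw [← hre] at k4
          linear_combination k3 - k4
        rcases sq_eq_sq_iff_eq_or_eq_neg.mp hsq with h | h
        · exact h
        · exfalso
          have := hP.2.2.1
          rcases lt_or_gt_of_ne this with h5 | h5
          · have : 0 < P'.1.im := by linarith
            linarith [e.2.mpr this]
          · linarith [e.2.mp h5]
    refine h4.trans ?_
    rw [encard_prod, encard_univ]
    simp only [ENat.card_eq_coe_fintype_card, Fintype.card_bool]
    calc _ ≤ ((3 : ℕ) : ℕ∞) * ((2 : ℕ) : ℕ∞) := by gcongr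
      _ = _ := by norm_num
  · have hH0 : (G ^ 2 - (4 * A * D - B ^ 2) * F ^ 2).eval (r / q) ≠ 0 := by
      simp only [eval_sub, eval_mul, eval_pow, hF0]
      simpa using hG0
    have hH : G ^ 2 - (4 * A * D - B ^ 2) * F ^ 2 ≠ 0 := fun h => hH0 (by rw [h, eval_zero])
    have hdeg : (G ^ 2 - (4 * A * D - B ^ 2) * F ^ 2).natDegree ≤ 6 := by
      simp only [G, A, B, D, F]
      compute_degree
    refine le_trans ?_ (roots_le _ hH 6 hdeg)
    apply encard_le_encard_of_injOn (f := fun P => P.2.im / P.1.im)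
    · intro P hP
      have k1 := (key P hP).1
      have k3 := (key P hP).2.1
      have e : (4 * A * D - B ^ 2).eval (P.2.im / P.1.im) =
          (2 * (1 + (P.2.im / P.1.im) ^ 2) * P.1.im) ^ 2 := by
        simp only [A, B, D, eval_add, eval_sub, eval_mul, eval_pow, eval_C, eval_X, eval_one,
          eval_ofNat]
        linear_combination (-4 * (1 + (P.2.im / P.1.im) ^ 2)) * k3 +
          (2 * (1 + (P.2.im / P.1.im) ^ 2) * (P.1.re - q) -
            (3 * q + q * (P.2.im / P.1.im) ^ 2 + 2 * r * (P.2.im / P.1.im))) * k1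
      show eval _ _ = 0
      rw [eval_sub, eval_pow, eval_mul, eval_pow, e, hGF P hP]
      ring
    · intro P hP P' hP' e
      simp only at e
      apply hdet P hP P' hP' e
      have k1 := hGF P hP
      have k2 := hGF P' hP'
      rw [← e] at k2
      have hF : F.eval (P.2.im / P.1.im) ≠ 0 := by
        intro h
        rw [h, mul_zero] at k1
        simp only [F, eval_sub, eval_mul, eval_C, eval_X] at h
        have h5 : P.2.im / P.1.im = r / q := by
          rw [eq_div_iff hq0]
          have := (mul_eq_zero.mp h).resolve_left hη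
          linarith
        exact hG0 (h5 ▸ k1)
      have hpos : 2 * (1 + (P.2.im / P.1.im) ^ 2) ≠ 0 := by positivity
      apply mul_left_cancel₀ hpos
      apply mul_right_cancel₀ hF
      linear_combination k2 - k1

lemma finite_bad (A B M : ℝ) : {x : ℝ | (A + B * x + M * x ^ 2) ^ 3 = (1 + x ^ 2) ^ 2}.Finite := by
  let H : ℝ[X] := (C A + C B * X + C M * X ^ 2) ^ 3 - (1 + X ^ 2) ^ 2
  have he : ∀ x, H.eval x = (A + B * x + M * x ^ 2) ^ 3 - (1 + x ^ 2) ^ 2 := fun x => by simp [H]
  have hH : H ≠ 0 := by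
    intro h
    have h0 : ∀ x : ℝ, (A + B * x + M * x ^ 2) ^ 3 - (1 + x ^ 2) ^ 2 = 0 := fun x => by
      rw [← he, h, eval_zero]
    have h1 : M ^ 3 = 0 := by
      linear_combination (h0 (-3) - 6 * h0 (-2) + 15 * h0 (-1) - 20 * h0 0 + 15 * h0 1 - 6 * h0 2
        + h0 3) / 720
    have h2 : M = 0 := pow_eq_zero_iff (by norm_num) |>.mp h1
    subst h2
    have : (24 : ℝ) = 0 := by
      linear_combination -(h0 (-2) - 4 * h0 (-1) + 6 * h0 0 - 4 * h0 1 + h0 2)
    norm_num at this
  refine (finite_setOfPred_isRoot hH).subset fun x hx => ?_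
  show H.eval x = 0
  rw [he, sub_eq_zero]
  exact hx

/-- only finitely many real points of the curve lie on the level curve -/
lemma finite_real (l u : ℂ) :
    {x : ℝ | ∃ q : ℝ, q ^ 3 * (1 + x ^ 2) = 1 ∧ ‖l * q + u * (x * q : ℝ)‖ = 1}.Finite := by
  refine (finite_bad (l.re ^ 2 + l.im ^ 2) (2 * (l.re * u.re + l.im * u.im))
    (u.re ^ 2 + u.im ^ 2)).subset ?_
  rintro x ⟨q, h1, h2⟩
  have hn : (l * q + u * (x * q : ℝ)).re ^ 2 + (l * q + u * (x * q : ℝ)).im ^ 2 = 1 := by
    have := Complex.sq_norm (l * q + u * (x * q : ℝ))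
    rw [h2, Complex.normSq_apply] at this
    linarith
  simp only [Complex.add_re, Complex.mul_re, Complex.add_im, Complex.mul_im, Complex.ofReal_re,
    Complex.ofReal_im] at hn
  have hq : q ≠ 0 := by
    rintro rfl
    simp at h1
  set Q := l.re ^ 2 + l.im ^ 2 + 2 * (l.re * u.re + l.im * u.im) * x + (u.re ^ 2 + u.im ^ 2) * x ^ 2
    with hQ
  have h3 : q ^ 2 * Q = 1 := by
    rw [hQ]
    linear_combination hn
  show Q ^ 3 = (1 + x ^ 2) ^ 2
  apply mul_left_cancel₀ (pow_ne_zero 6 hq)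
  linear_combination ((q ^ 2 * Q) ^ 2 + q ^ 2 * Q + 1) * h3 - (q ^ 3 * (1 + x ^ 2) + 1) * h1

end Pool.Agent.Lib.MP_f225de_an.Cubic
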