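import Pool.Agent.Lib.MP_f225de_an.C3

set_option autoImplicit false

open MeasureTheory Set Filter Topology
open scoped ENNReal NNReal

namespace Pool.Agent.Lib.MP_f225de_an.Cubic

/-- the real period of the cubic curve -/
noncomputable def KK : ℝ≥0∞ := ∫⁻ x : ℝ, ENNReal.ofReal ((1 + x ^ 2) ^ (-(2 / 3) : ℝ))

lemma cube_det {q q' x : ℝ} (h : q ^ 3 * (1 + x ^ 2) = 1) (h' : q' ^ 3 * (1 + x ^ 2) = 1) :
    q = q' := by
  have : q ^ 3 = q' ^ 3 := by
    apply mul_right_cancel₀ (show 1 + x ^ 2 ≠ 0 by positivity)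
    rw [h, h']
  exact (Odd.pow_inj (by decide)).mp this

lemma real_pt {R S : ℂ} (h : R * (R ^ 2 + S ^ 2) = 1) (h1 : R.im = 0) (h2 : S.im = 0) :
    R.re ≠ 0 ∧ R.re ^ 3 * (1 + (S.re / R.re) ^ 2) = 1 ∧ R = R.re ∧ S = (S.re / R.re * R.re : ℝ) := by
  have c := curve_re h
  rw [h1, h2] at c
  have h0 : R.re ≠ 0 := by
    intro h0
    rw [h0] at c
    norm_num at c
  refine ⟨h0, ?_, Complex.ext (by simp) (by simp [h1]), Complex.ext ?_ ?_⟩
  · field_simp
    linear_combination c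
  · rw [Complex.ofReal_re, div_mul_cancel₀ _ h0]
  · rw [Complex.ofReal_im, h2]

/-- Crofton type inequality on the cubic curve -/
theorem crofton {ι : Type} [Countable ι] (l u : ℂ) (R S R' S' : ι → ℝ → ℂ) (s : Set ℝ)
    (hs : MeasurableSet s)
    (hR : ∀ i, ∀ θ ∈ s, HasDerivAt (R i) (R' i θ) θ) (hS : ∀ i, ∀ θ ∈ s, HasDerivAt (S i) (S' i θ) θ)
    (hc : ∀ i, ∀ θ ∈ s, R i θ * (R i θ ^ 2 + S i θ ^ 2) = 1)
    (ht : ∀ i, ∀ θ ∈ s, (3 * R i θ ^ 2 + S i θ ^ 2) * R' i θ + 2 * R i θ * S i θ * S' i θ = 0)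
    (hl : ∀ i, ∀ θ ∈ s, ‖l * R i θ + u * S i θ‖ = 1)
    (hinj : ∀ i j, ∀ θ ∈ s, ∀ φ ∈ s, R i θ = R j φ → S i θ = S j φ → i = j ∧ θ = φ) :
    ∑' i, ∫⁻ θ in s, ENNReal.ofReal (2 * |(R i θ * S' i θ - S i θ * R' i θ).re|) ≤ 6 * KK := by
  have hopen : ∀ i, ∃ U : Set ℝ, IsOpen U ∧ ∀ θ ∈ s, θ ∈ U ↔ (R i θ).im ≠ 0 := by
    intro i
    have hcont : ContinuousOn (fun θ => (R i θ).im) s := fun θ hθ =>
      (Complex.continuous_im.continuousAt.comp (hR i θ hθ).continuousAt).continuousWithinAt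
    obtain ⟨U, hU, e⟩ := continuousOn_iff'.mp hcont {0}ᶜ isOpen_compl_singleton
    refine ⟨U, hU, fun θ hθ => ⟨fun h => ?_, fun h => ?_⟩⟩
    · have : θ ∈ U ∩ s := ⟨h, hθ⟩
      rw [← e] at this
      exact this.1
    · have : θ ∈ (fun θ => (R i θ).im) ⁻¹' {0}ᶜ ∩ s := ⟨h, hθ⟩
      rw [e] at this
      exact this.1
  choose U hU hUs using hopen
  have hg : Measurable fun x : ℝ => ENNReal.ofReal ((1 + x ^ 2) ^ (-(2 / 3) : ℝ)) := by
    fun_prop
  have hab := fun i θ (hθ : θ ∈ s ∩ U i) => abel (hR i θ hθ.1) (hS i θ hθ.1) (hc i θ hθ.1)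
    (ht i θ hθ.1) ((hUs i θ hθ.1).mp hθ.2)
  have main := area_mult (fun i θ => xx (R i θ) (S i θ)) (fun i => s ∩ U i)
    (fun i => hs.inter (hU i).measurableSet)
    (fun i θ hθ => by obtain ⟨x', h, -⟩ := hab i θ hθ; exact h.differentiableAt) _ hg 6 (by
      filter_upwards [measure_eq_zero_iff_ae_notMem.mp
        ((finite_real l u).countable.measure_zero volume)] with x hx
      set q : ℝ := (1 + x ^ 2) ^ (-(1 / 3) : ℝ) with hqd
      have hq3 : q ^ 3 * (1 + x ^ 2) = 1 := by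
        rw [hqd, ← Real.rpow_natCast, ← Real.rpow_mul (by positivity)]
        norm_num
        rw [Real.rpow_neg_one]
        field_simp
      have hq : q * (q ^ 2 + (x * q) ^ 2) = 1 := by linear_combination hq3
      refine le_trans ?_ (count_six q (x * q) hq l u (fun h => hx ⟨q, hq3, h⟩))
      apply encard_le_encard_of_injOn (f := fun p : ι × ℝ => (R p.1 p.2, S p.1 p.2))
      · rintro ⟨i, θ⟩ ⟨hθ, e⟩
        have him := (hUs i θ hθ.1).mp hθ.2
        refine ⟨hc i θ hθ.1, hl i θ hθ.1, him, ?_⟩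
        obtain ⟨q', -, -, e2, e3⟩ := third (hc i θ hθ.1) him
        simp only at e
        rw [e] at e2 e3
        rw [cube_det hq3 e2]
        exact e3
      · rintro ⟨i, θ⟩ ⟨hθ, -⟩ ⟨j, φ⟩ ⟨hφ, -⟩ e
        simp only [Prod.mk.injEq] at e ⊢
        exact hinj i j θ hθ.1 φ hφ.1 e.1 e.2)
  refine le_trans (le_of_eq ?_) main
  congr 1
  ext i
  rw [← lintegral_inter_add_sdiff _ s (hU i).measurableSet]
  have h0 : ∫⁻ θ in s \ U i,
      ENNReal.ofReal (2 * |(R i θ * S' i θ - S i θ * R' i θ).re|) = 0 := by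
    have hm : MeasurableSet (s \ U i) := hs.diff (hU i).measurableSet
    have him : ∀ θ ∈ s \ U i, (R i θ).im = 0 := fun θ hθ => by
      by_contra h
      exact hθ.2 ((hUs i θ hθ.1).mpr h)
    have h1 := ae_deriv_zero (fun θ => (R i θ).im) (fun θ => (R' i θ).im) _ hm
      (fun θ hθ => Complex.imCLM.hasFDerivAt.comp_hasDerivAt θ (hR i θ hθ.1)) him
    have h2 : {θ | θ ∈ s \ U i ∧ (S i θ).im = 0}.Finite := by
      apply Finite.of_finite_image (f := fun θ => (S i θ).re / (R i θ).re)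
      · refine (finite_real l u).subset ?_
        rintro _ ⟨θ, ⟨hθ, h⟩, rfl⟩
        obtain ⟨-, e1, e2, e3⟩ := real_pt (hc i θ hθ.1) (him θ hθ) h
        refine ⟨_, e1, ?_⟩
        rw [← e2, ← e3]
        exact hl i θ hθ.1
      · rintro θ ⟨hθ, h⟩ φ ⟨hφ, h'⟩ e
        simp only at e
        obtain ⟨-, e1, e2, e3⟩ := real_pt (hc i θ hθ.1) (him θ hθ) h
        obtain ⟨-, f1, f2, f3⟩ := real_pt (hc i φ hφ.1) (him φ hφ) h'
        rw [← e] at f1 f3
        have := cube_det e1 f1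
        refine (hinj i i θ hθ.1 φ hφ.1 ?_ ?_).2
        · rw [e2, f2, this]
        · rw [e3, f3, this]
    rw [← lintegral_zero (μ := volume.restrict (s \ U i))]
    apply lintegral_congr_ae
    filter_upwards [h1, ae_restrict_mem hm, ae_restrict_of_ae
      (measure_eq_zero_iff_ae_notMem.mp (h2.countable.measure_zero volume))] with θ h3 hθ h4
    have h5 : (S i θ).im ≠ 0 := fun h => h4 ⟨hθ, h⟩
    have c1 := curve_re (hc i θ hθ.1)
    have c2 := curve_im (hc i θ hθ.1)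
    have t1 := tangent_R (hc i θ hθ.1) (ht i θ hθ.1)
    set w := R i θ * S' i θ - S i θ * R' i θ
    have t2 := congrArg Complex.im t1
    rw [h3] at t2
    simp [him θ hθ] at t2 c1 c2
    have hr : (R i θ).re ≠ 0 := by
      intro h
      rw [h] at c1
      norm_num at c1
    have hs0 : (S i θ).re = 0 := by tauto
    rw [hs0] at t2
    have : w.re = 0 := by simpa [hr, h5] using t2
    simp [this]
  rw [h0, add_zero]
  apply setLIntegral_congr_fun (hs.inter (hU i).measurableSet)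
  intro θ hθ
  obtain ⟨x', h, e⟩ := hab i θ hθ
  simp only
  rw [h.deriv, ← ENNReal.ofReal_mul (abs_nonneg _)]
  congr 1
  have hp : 0 ≤ (1 + xx (R i θ) (S i θ) ^ 2) ^ (-(2 / 3) : ℝ) := by positivity
  rw [← abs_of_nonneg hp, ← abs_mul, e, abs_mul]
  norm_num

lemma polygon (w ω : ℂ) (hω : ω ^ 2 + ω + 1 = 0) :
    √3 * ‖w‖ ≤ |w.re| + |(w * ω).re| + |(w * ω ^ 2).re| := by
  have h1 := congrArg Complex.re hω
  have h2 := congrArg Complex.im hω
  simp [pow_two] at h1 h2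
  have h3 : ω.re = -1 / 2 := by
    by_contra h
    have h4 : ω.im = 0 := by
      have : ω.im * (2 * ω.re + 1) = 0 := by linarith
      rcases mul_eq_zero.mp this with h5 | h5
      · exact h5
      · exact absurd (by linarith) h
    rw [h4] at h1
    nlinarith [sq_nonneg (2 * ω.re + 1)]
  have h4 : ω.im ^ 2 = 3 / 4 := by rw [h3] at h1; linarith
  have e1 : (w * ω).re = -w.re / 2 - w.im * ω.im := by simp [h3]; ring
  have e2 : (w * ω ^ 2).re = -w.re / 2 + w.im * ω.im := by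
    rw [show ω ^ 2 = -ω - 1 by linear_combination hω]
    simp [h3]
    ring
  rw [e1, e2]
  apply le_of_pow_le_pow_left₀ two_ne_zero (by positivity)
  rw [mul_pow, Real.sq_sqrt (by norm_num), Complex.sq_norm, Complex.normSq_apply]
  set a := w.re
  set b := -a / 2 - w.im * ω.im with hb
  set c := -a / 2 + w.im * ω.im with hc
  have k1 := neg_abs_le (a * b)
  have k2 := neg_abs_le (b * c)
  have k3 := neg_abs_le (a * c)
  rw [abs_mul] at k1 k2 k3
  have k4 : 3 * (a * a + w.im * w.im) = a ^ 2 + b ^ 2 + c ^ 2 - 2 * (a * b + b * c + a * c) := by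
    rw [hb, hc]
    linear_combination (-4 * w.im ^ 2) * h4
  rw [k4]
  nlinarith [sq_abs a, sq_abs b, sq_abs c]

end Pool.Agent.Lib.MP_f225de_an.Cubic
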