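import Pool.Agent.Lib.MP_f225de_an.C4

set_option autoImplicit false

open MeasureTheory Set Filter Topology Complex
open scoped ENNReal NNReal Real

namespace Pool.Agent.Lib.MP_f225de_an.Cubic

/-- primitive cube root of unity -/
noncomputable def om : ℂ := ⟨-1 / 2, √3 / 2⟩

lemma om_eq : om ^ 2 + om + 1 = 0 := by
  have h : √3 * √3 = 3 := Real.mul_self_sqrt (by norm_num)
  apply Complex.ext <;> simp [om, pow_two]
  · linarith
  · ring

lemma om_cube : om ^ 3 = 1 := by linear_combination (om - 1) * om_eq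

lemma om_pow_cube (j : ℕ) : (om ^ j) ^ 3 = 1 := by
  rw [← pow_mul, mul_comm, pow_mul, om_cube, one_pow]

lemma norm_om : ‖om‖ = 1 := by
  have := congrArg norm om_cube
  rw [norm_pow, norm_one] at this
  exact (pow_eq_one_iff_of_nonneg (norm_nonneg _) (by norm_num)).mp this

lemma om_inj {j k : Fin 3} (h : om ^ (j : ℕ) = om ^ (k : ℕ)) : j = k := by
  have h1 : om ≠ 1 := by
    intro h
    have := om_eq
    rw [h] at this
    norm_num at this
  have h2 : om ^ 2 ≠ 1 := fun h => h1 (by linear_combination om_cube - om * h)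
  have h3 : om ^ 2 ≠ om := fun h => h1 (by linear_combination om ^ 2 * h - om * om_cube + om_cube)
  fin_cases j <;> fin_cases k <;> simp_all [eq_comm]

/-- half sum of the two square roots -/
noncomputable def TT (a b v : ℂ) : ℂ :=
  ((1 - (b - 2 * a ^ 3) / v ^ 3) ^ (2⁻¹ : ℂ) + (1 - (b + 2 * a ^ 3) / v ^ 3) ^ (2⁻¹ : ℂ)) / 2

/-- Cardano radical -/
noncomputable def AA (a b v : ℂ) : ℂ := v * TT a b v ^ (2 / 3 : ℂ)

/-- the three solutions of `z ^ 3 - 3 a ^ 2 z + b = v ^ 3` -/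
noncomputable def zz (a b v : ℂ) (j : Fin 3) : ℂ :=
  om ^ (j : ℕ) * AA a b v + (om ^ (j : ℕ)) ^ 2 * (a ^ 2 / AA a b v)

/-- the principal branches are holomorphic -/
def Good (a b v : ℂ) : Prop :=
  v ≠ 0 ∧ 1 - (b - 2 * a ^ 3) / v ^ 3 ∈ slitPlane ∧ 1 - (b + 2 * a ^ 3) / v ^ 3 ∈ slitPlane

lemma re_half_pos {x : ℂ} (hx : x ∈ slitPlane) : 0 < (x ^ (2⁻¹ : ℂ)).re := by
  rw [cpow_inv_two_re, Real.sqrt_pos]
  have h1 := Complex.abs_re_le_norm x
  rcases hx with h | h
  · linarith [norm_nonneg x]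
  · have := Complex.abs_re_lt_norm.mpr h
    linarith [neg_abs_le x.re]

lemma TT_slit {a b v : ℂ} (h : Good a b v) : TT a b v ∈ slitPlane := by
  left
  unfold TT
  have h1 := re_half_pos h.2.1
  have h2 := re_half_pos h.2.2
  rw [div_ofNat_re, add_re]
  positivity

lemma AA_ne {a b v : ℂ} (h : Good a b v) : AA a b v ≠ 0 := by
  unfold AA
  refine mul_ne_zero h.1 ?_
  rw [Ne, cpow_eq_zero_iff]
  exact fun h' => slitPlane_ne_zero (TT_slit h) h'.1

lemma AA_cube {a b v : ℂ} (h : Good a b v) :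
    AA a b v ^ 3 + (a ^ 2 / AA a b v) ^ 3 = v ^ 3 - b := by
  have h0 := AA_ne h
  have hv := h.1
  have h1 : AA a b v ^ 3 = v ^ 3 * TT a b v ^ 2 := by
    unfold AA
    rw [mul_pow, ← cpow_mul_nat]
    norm_num
  have h2 := cpow_ofNat_inv_pow (1 - (b - 2 * a ^ 3) / v ^ 3) 2
  have h3 := cpow_ofNat_inv_pow (1 - (b + 2 * a ^ 3) / v ^ 3) 2
  unfold TT at h1
  set s := (1 - (b - 2 * a ^ 3) / v ^ 3) ^ (2⁻¹ : ℂ)
  set t := (1 - (b + 2 * a ^ 3) / v ^ 3) ^ (2⁻¹ : ℂ)
  have h4 : v ^ 3 * s ^ 2 = v ^ 3 - (b - 2 * a ^ 3) := by rw [h2]; field_simp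
  have h5 : v ^ 3 * t ^ 2 = v ^ 3 - (b + 2 * a ^ 3) := by rw [h3]; field_simp
  have h6 : AA a b v ^ 3 = (v ^ 3 - b + v ^ 3 * s * t) / 2 := by
    linear_combination h1 + h4 / 4 + h5 / 4
  have h7 : AA a b v ^ 3 * (v ^ 3 - b - AA a b v ^ 3) = a ^ 6 := by
    rw [h6]
    linear_combination (-(v ^ 3 * t ^ 2) / 4) * h4 - (v ^ 3 - (b - 2 * a ^ 3)) / 4 * h5
  field_simp
  linear_combination -h7

lemma zz_prod {a b v : ℂ} (h : Good a b v) (z : ℂ) :
    z ^ 3 - 3 * a ^ 2 * z + b - v ^ 3 =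
      (z - zz a b v 0) * (z - zz a b v 1) * (z - zz a b v 2) := by
  have h1 := AA_cube h
  have h2 : AA a b v * (a ^ 2 / AA a b v) = a ^ 2 := mul_div_cancel₀ _ (AA_ne h)
  unfold zz
  set A := AA a b v
  set B := a ^ 2 / A
  have e1 : om ^ 2 = -om - 1 := by linear_combination om_eq
  have e2 : (om ^ 2) ^ 2 = om := by linear_combination om * om_cube
  simp only [Fin.val_zero, Fin.val_one, Fin.val_two, pow_zero, pow_one, e2]
  rw [e1]
  linear_combination h1 + 3 * z * h2 +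
    ((z - A - B) * (A - B) ^ 2) * om_eq

lemma zz_eq {a b v : ℂ} (h : Good a b v) (j : Fin 3) :
    zz a b v j ^ 3 - 3 * a ^ 2 * zz a b v j + b = v ^ 3 := by
  rw [← sub_eq_zero, zz_prod h]
  fin_cases j <;> simp

lemma crit_ne {a b v z : ℂ} (h : Good a b v) (hz : z ^ 3 - 3 * a ^ 2 * z + b = v ^ 3) :
    3 * (z ^ 2 - a ^ 2) ≠ 0 := by
  intro h0
  have hv := h.1
  have h1 : (z - a) * (z + a) = 0 := by linear_combination h0 / 3
  rcases mul_eq_zero.mp h1 with h2 | h2
  · apply slitPlane_ne_zero h.2.1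
    have : z = a := by linear_combination h2
    subst this
    field_simp
    linear_combination -hz
  · apply slitPlane_ne_zero h.2.2
    have : a = -z := by linear_combination h2
    subst this
    field_simp
    linear_combination -hz

lemma zz_inj {a b v : ℂ} (h : Good a b v) {j k : Fin 3} (e : zz a b v j = zz a b v k) : j = k := by
  by_contra hne
  have h1 := zz_prod h
  have key : ∀ x y : ℂ, (∀ z, z ^ 3 - 3 * a ^ 2 * z + b - v ^ 3 = (z - x) * (z - x) * (z - y)) →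
      False := by
    intro x y hh
    apply crit_ne h (z := x) (by linear_combination hh x)
    linear_combination (hh (x + 1) - hh (x - 1)) / 2
  fin_cases j <;> fin_cases k <;> simp only [Fin.zero_eta, Fin.mk_one, Fin.reduceFinMk,
    not_true_eq_false] at hne e
  · exact key (zz a b v 0) (zz a b v 2) fun z => by rw [h1, ← e]
  · exact key (zz a b v 0) (zz a b v 1) fun z => by rw [h1, ← e]; ring
  · exact key (zz a b v 0) (zz a b v 2) fun z => by rw [h1, e]
  · exact key (zz a b v 1) (zz a b v 0) fun z => by rw [h1, ← e]; ring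
  · exact key (zz a b v 0) (zz a b v 1) fun z => by rw [h1, e]; ring
  · exact key (zz a b v 1) (zz a b v 0) fun z => by rw [h1, e]; ring

lemma zz_diff {a b v : ℂ → ℂ} {x : ℂ} (ha : DifferentiableAt ℂ a x) (hb : DifferentiableAt ℂ b x)
    (hv : DifferentiableAt ℂ v x) (h : Good (a x) (b x) (v x)) (j : Fin 3) :
    DifferentiableAt ℂ (fun y => zz (a y) (b y) (v y) j) x := by
  have h3 : v x ^ 3 ≠ 0 := pow_ne_zero 3 h.1
  have d1 : DifferentiableAt ℂ (fun y => (1 - (b y - 2 * a y ^ 3) / v y ^ 3) ^ (2⁻¹ : ℂ)) x :=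
    DifferentiableAt.cpow_const (by fun_prop (disch := assumption)) h.2.1
  have d2 : DifferentiableAt ℂ (fun y => (1 - (b y + 2 * a y ^ 3) / v y ^ 3) ^ (2⁻¹ : ℂ)) x :=
    DifferentiableAt.cpow_const (by fun_prop (disch := assumption)) h.2.2
  have d3 : DifferentiableAt ℂ (fun y => TT (a y) (b y) (v y)) x := (d1.add d2).div_const 2
  have d4 : DifferentiableAt ℂ (fun y => AA (a y) (b y) (v y)) x :=
    hv.mul (d3.cpow_const (TT_slit h))
  have h0 := AA_ne h
  unfold zz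
  fun_prop (disch := assumption)

/-- cube root of the point of the unit circle -/
noncomputable def vv (θ : ℂ) : ℂ := exp (θ / 3 * I)

lemma vv_ne (θ : ℂ) : vv θ ≠ 0 := exp_ne_zero _

lemma vv_cube (θ : ℂ) : vv θ ^ 3 = exp (θ * I) := by
  unfold vv
  rw [← exp_nat_mul]
  congr 1
  push_cast
  ring

lemma norm_vv (θ : ℝ) : ‖vv θ‖ = 1 := by
  unfold vv
  rw [show (θ : ℂ) / 3 = ((θ / 3 : ℝ) : ℂ) by push_cast; ring, norm_exp_ofReal_mul_I]

lemma vv_deriv (θ : ℂ) : HasDerivAt vv (vv θ * (I / 3)) θ := by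
  unfold vv
  refine (((hasDerivAt_id θ).div_const 3).mul_const I).cexp.congr_deriv ?_
  simp only [id]
  ring

lemma good_open (a b : ℂ) : IsOpen {θ : ℂ | Good a b (vv θ)} := by
  have hc : Continuous vv := continuous_iff_continuousAt.mpr fun θ => (vv_deriv θ).continuousAt
  have h1 : ∀ c : ℂ, Continuous fun θ => 1 - c / vv θ ^ 3 := fun c =>
    continuous_const.sub (continuous_const.div (hc.pow 3) fun θ => pow_ne_zero 3 (vv_ne θ))
  have : {θ : ℂ | Good a b (vv θ)} = (fun θ => 1 - (b - 2 * a ^ 3) / vv θ ^ 3) ⁻¹' slitPlane ∩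
      (fun θ => 1 - (b + 2 * a ^ 3) / vv θ ^ 3) ⁻¹' slitPlane := by
    ext θ
    simp [Good, vv_ne]
  rw [this]
  exact (isOpen_slitPlane.preimage (h1 _)).inter (isOpen_slitPlane.preimage (h1 _))

lemma zz_deriv {a b : ℂ} {θ : ℂ} (h : Good a b (vv θ)) (j : Fin 3) :
    HasDerivAt (fun t => zz a b (vv t) j)
      (I * vv θ ^ 3 * (3 * (zz a b (vv θ) j ^ 2 - a ^ 2))⁻¹) θ := by
  have d := (zz_diff (a := fun _ => a) (b := fun _ => b) (v := vv) (x := θ) (by fun_prop)
    (by fun_prop) (vv_deriv θ).differentiableAt h j).hasDerivAt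
  refine d.congr_deriv ?_
  have d1 := ((d.fun_pow 3).fun_sub (d.const_mul (3 * a ^ 2))).add_const b
  have d2 := (vv_deriv θ).fun_pow 3
  have e : (fun t => zz a b (vv t) j ^ 3 - 3 * a ^ 2 * zz a b (vv t) j + b) =ᶠ[𝓝 θ]
      fun t => vv t ^ 3 := by
    filter_upwards [(good_open a b).mem_nhds h] with t ht
    exact zz_eq ht j
  have := (d1.congr_of_eventuallyEq e.symm).unique d2
  have h0 := crit_ne h (zz_eq h j)
  rw [eq_mul_inv_iff_mul_eq₀ h0]
  push_cast at this
  linear_combination this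

lemma bad_countable (c : ℂ) : {θ : ℝ | 1 - c / vv θ ^ 3 ∉ slitPlane}.Countable := by
  have h1 : ((fun θ : ℝ => (θ : ℂ) * I) ⁻¹' (exp ⁻¹' {c / ‖c‖})).Countable := by
    apply Countable.preimage (countable_singleton _).preimage_cexp
    intro x y h
    simpa using h
  refine h1.mono fun θ hθ => ?_
  simp only [mem_ofPred_eq, vv_cube, mem_slitPlane_iff, not_or, not_lt, not_not] at hθ
  simp only [mem_preimage, mem_singleton_iff]
  set w := c / exp (θ * I) with hw
  have h2 : 1 ≤ w.re := by simpa using hθ.1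
  have h3 : w.im = 0 := by simpa using hθ.2
  have h4 : w = w.re := Complex.ext (by simp) (by simp [h3])
  have h5 : c = w * exp (θ * I) := by rw [hw, div_mul_cancel₀ _ (exp_ne_zero _)]
  have h6 : ‖c‖ = w.re := by
    rw [h5, norm_mul, norm_exp_ofReal_mul_I, mul_one, h4, norm_real, ofReal_re,
      Real.norm_of_nonneg (by linarith)]
  rw [h6, ← h4, eq_div_iff (by rw [h4]; exact_mod_cast (by linarith : w.re ≠ 0)), h5, mul_comm]

lemma bad_countable' (a b : ℂ) : {θ : ℝ | ¬ Good a b (vv θ)}.Countable := by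
  refine ((bad_countable (b - 2 * a ^ 3)).union (bad_countable (b + 2 * a ^ 3))).mono ?_
  intro θ hθ
  by_contra hc
  simp only [mem_union, mem_ofPred_eq, not_or, not_not] at hc
  exact hθ ⟨vv_ne _, hc.1, hc.2⟩

end Pool.Agent.Lib.MP_f225de_an.Cubic
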