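import Pool.Agent.Lib.MP_f225de_an.C5

set_option autoImplicit false

open MeasureTheory Set Filter Topology Complex
open scoped ENNReal NNReal Real

namespace Pool.Agent.Lib.MP_f225de_an.Cubic

/-- reciprocal of the derivative at a solution -/
noncomputable def hh (a b : ℂ) (θ : ℝ) (j : Fin 3) : ℂ := (3 * (zz a b (vv θ) j ^ 2 - a ^ 2))⁻¹

/-- the length integral -/
noncomputable def II (a b : ℂ) : ℝ≥0∞ := ∫⁻ θ in Ioc (-π) π, ∑ j, ‖hh a b θ j‖ₑ

lemma hh_meas {X : Type} [MeasurableSpace X] {a b : X → ℂ} {θ : X → ℝ} (ha : Measurable a)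
    (hb : Measurable b) (hθ : Measurable θ) (j : Fin 3) :
    Measurable fun x => hh (a x) (b x) (θ x) j := by
  unfold hh zz AA TT vv
  fun_prop

/-- good parameters -/
def gs (a b : ℂ) : Set ℝ := Ioc (-π) π ∩ {θ : ℝ | Good a b (vv θ)}

lemma gs_meas (a b : ℂ) : MeasurableSet (gs a b) :=
  measurableSet_Ioc.inter ((good_open a b).preimage continuous_ofReal).measurableSet

lemma II_eq (a b : ℂ) : II a b = ∑ j, ∫⁻ θ in gs a b, ‖hh a b θ j‖ₑ := by
  unfold II
  rw [← lintegral_finsetSum _ fun j _ =>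
    (hh_meas measurable_const measurable_const measurable_id' j).enorm]
  apply setLIntegral_congr
  symm
  apply inter_ae_eq_left_of_ae_eq_univ
  rw [ae_eq_univ]
  exact (bad_countable' a b).measure_zero _

lemma zz_deriv' {a b : ℂ} {θ : ℝ} (h : Good a b (vv θ)) (j : Fin 3) :
    HasDerivAt (fun t : ℝ => zz a b (vv t) j) (I * vv θ ^ 3 * hh a b θ j) θ :=
  (zz_deriv h j).comp_ofReal

lemma fibre_finite (a b u : ℂ) : {z : ℂ | z ^ 3 - 3 * a ^ 2 * z + b = u}.Finite := by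
  let P : Polynomial ℂ := Polynomial.X ^ 3 - Polynomial.C (3 * a ^ 2) * Polynomial.X +
    Polynomial.C (b - u)
  have he : ∀ z, P.eval z = z ^ 3 - 3 * a ^ 2 * z + b - u := fun z => by simp [P]; ring
  have hP : P ≠ 0 := by
    intro h
    have h0 : ∀ z : ℂ, z ^ 3 - 3 * a ^ 2 * z + b - u = 0 := fun z => by
      rw [← he, h, Polynomial.eval_zero]
    have : (6 : ℂ) = 0 := by linear_combination h0 3 - 3 * h0 2 + 3 * h0 1 - h0 0
    norm_num at this
  refine (Polynomial.finite_setOfPred_isRoot hP).subset fun z hz => ?_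
  show P.eval z = 0
  rw [he, sub_eq_zero]
  exact hz

theorem length_le_II (a b : ℂ) :
    Measure.hausdorffMeasure (1 : ℝ) {z : ℂ | ‖z ^ 3 - 3 * a ^ 2 * z + b‖ = 1} ≤ II a b := by
  have hsub : {z : ℂ | ‖z ^ 3 - 3 * a ^ 2 * z + b‖ = 1} ⊆
      (⋃ j : Fin 3, (fun t : ℝ => zz a b (vv t) j) '' gs a b) ∪
        ⋃ θ ∈ {θ : ℝ | ¬ Good a b (vv θ)}, {z : ℂ | z ^ 3 - 3 * a ^ 2 * z + b = vv θ ^ 3} := by
    intro z hz
    set θ := arg (z ^ 3 - 3 * a ^ 2 * z + b) with hθ
    have e : z ^ 3 - 3 * a ^ 2 * z + b = vv θ ^ 3 := by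
      have := norm_mul_exp_arg_mul_I (z ^ 3 - 3 * a ^ 2 * z + b)
      rw [hz, ofReal_one, one_mul] at this
      rw [vv_cube, this]
    by_cases hg : Good a b (vv θ)
    · left
      have h1 := zz_prod hg z
      rw [e, sub_self] at h1
      have h2 : θ ∈ gs a b := ⟨arg_mem_Ioc _, hg⟩
      rw [mem_iUnion]
      rcases mul_eq_zero.mp h1.symm with h | h
      · rcases mul_eq_zero.mp h with h | h
        · exact ⟨0, θ, h2, (sub_eq_zero.mp h).symm⟩
        · exact ⟨1, θ, h2, (sub_eq_zero.mp h).symm⟩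
      · exact ⟨2, θ, h2, (sub_eq_zero.mp h).symm⟩
    · right
      exact mem_biUnion (x := θ) hg e
  refine (measure_mono hsub).trans ((measure_union_le _ _).trans ?_)
  have := Measure.nullSingletonClass_hausdorff ℂ (d := 1) zero_lt_one
  rw [((bad_countable' a b).biUnion fun θ _ => (fibre_finite a b _).countable).measure_zero,
    add_zero, II_eq]
  refine (measure_iUnion_le _).trans ?_
  rw [tsum_fintype]
  apply Finset.sum_le_sum
  intro j _
  refine (length_le _ (fun θ => I * vv θ ^ 3 * hh a b θ j) _ (gs_meas a b)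
    (ne_top_of_le_ne_top measure_Ioc_lt_top.ne (measure_mono inter_subset_left))
    (fun θ hθ => (zz_deriv' hθ.2 j).hasDerivWithinAt)).trans (le_of_eq ?_)
  congr 1
  ext θ
  rw [← ofReal_norm, ← ofReal_norm, norm_mul, norm_mul, norm_pow, norm_vv]
  simp

theorem II_le_aux (a b α₁ α₀ β₁ β₀ : ℂ)
    (hp : ∀ z, (α₁ * z + α₀) * ((α₁ * z + α₀) ^ 2 + (β₁ * z + β₀) ^ 2) = z ^ 3 - 3 * a ^ 2 * z + b)
    (hW : α₀ * β₁ - β₀ * α₁ ≠ 0) :
    ENNReal.ofReal (2 * (√3 * ‖α₀ * β₁ - β₀ * α₁‖)) * II a b ≤ 6 * KK := by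
  set W := α₀ * β₁ - β₀ * α₁ with hWd
  have hp' : ∀ z, (3 * (α₁ * z + α₀) ^ 2 + (β₁ * z + β₀) ^ 2) * α₁ +
      2 * (α₁ * z + α₀) * (β₁ * z + β₀) * β₁ = 3 * (z ^ 2 - a ^ 2) := fun z => by
    linear_combination (8 * (hp (z + 1) - hp (z - 1)) - (hp (z + 2) - hp (z - 2))) / 12
  let y : Fin 3 → ℝ → ℂ := fun k θ => om ^ (k : ℕ) * vv θ
  have hy0 : ∀ k θ, y k θ ≠ 0 := fun k θ => mul_ne_zero (pow_ne_zero _ fun h => by
    have := norm_om; rw [h] at this; simp at this) (vv_ne _)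
  have hy3 : ∀ k θ, y k θ ^ 3 = vv θ ^ 3 := fun k θ => by
    simp only [y]
    rw [mul_pow, om_pow_cube, one_mul]
  have hyn : ∀ k θ, ‖y k θ‖ = 1 := fun k θ => by
    simp only [y]
    rw [norm_mul, norm_pow, norm_om, norm_vv]
    simp
  have hyd : ∀ k θ, HasDerivAt (y k) (y k θ * (I / 3)) θ := fun k θ =>
    ((vv_deriv θ).comp_ofReal.const_mul (om ^ (k : ℕ))).congr_deriv (by simp only [y]; ring)
  have hd : ∀ (c₁ c₀ : ℂ) (i : Fin 3 × Fin 3), ∀ θ ∈ gs a b,
      HasDerivAt (fun t : ℝ => (c₁ * zz a b (vv t) i.1 + c₀) / y i.2 t)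
        (c₁ * (I * vv θ ^ 3 * hh a b θ i.1) / y i.2 θ -
          (c₁ * zz a b (vv θ) i.1 + c₀) / y i.2 θ * (I / 3)) θ := by
    intro c₁ c₀ i θ hθ
    refine ((((zz_deriv' hθ.2 i.1).const_mul c₁).add_const c₀).fun_div (hyd i.2 θ)
      (hy0 _ _)).congr_deriv ?_
    have := hy0 i.2 θ
    field_simp
  have hc : ∀ (i : Fin 3 × Fin 3), ∀ θ ∈ gs a b, (α₁ * zz a b (vv θ) i.1 + α₀) / y i.2 θ *
      (((α₁ * zz a b (vv θ) i.1 + α₀) / y i.2 θ) ^ 2 +
        ((β₁ * zz a b (vv θ) i.1 + β₀) / y i.2 θ) ^ 2) = 1 := by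
    intro i θ hθ
    have := hy0 i.2 θ
    field_simp
    rw [hy3, ← zz_eq hθ.2 i.1, ← hp]
    ring
  have hl : ∀ (i : Fin 3 × Fin 3) (θ : ℝ), β₁ / W * ((α₁ * zz a b (vv θ) i.1 + α₀) / y i.2 θ) +
      -α₁ / W * ((β₁ * zz a b (vv θ) i.1 + β₀) / y i.2 θ) = (y i.2 θ)⁻¹ := by
    intro i θ
    have := hy0 i.2 θ
    field_simp
    rw [hWd]
    ring
  have main := crofton (β₁ / W) (-α₁ / W)
    (fun (i : Fin 3 × Fin 3) (t : ℝ) => (α₁ * zz a b (vv t) i.1 + α₀) / y i.2 t)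
    (fun (i : Fin 3 × Fin 3) (t : ℝ) => (β₁ * zz a b (vv t) i.1 + β₀) / y i.2 t) _ _ (gs a b)
    (gs_meas a b) (hd α₁ α₀) (hd β₁ β₀) hc
    (by
      intro i θ hθ
      have h1 := hy0 i.2 θ
      have h2 := hc i θ hθ
      have h3 := hp' (zz a b (vv θ) i.1)
      have h4 : hh a b θ i.1 * (3 * (zz a b (vv θ) i.1 ^ 2 - a ^ 2)) = 1 :=
        inv_mul_cancel₀ (crit_ne hθ.2 (zz_eq hθ.2 i.1))
      rw [← hy3 i.2 θ]
      have h5 : (y i.2 θ)⁻¹ * y i.2 θ = 1 := inv_mul_cancel₀ h1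
      simp only [div_eq_mul_inv] at h2 ⊢
      set η := (y i.2 θ)⁻¹
      linear_combination (-I) * h2 + (I * y i.2 θ ^ 3 * η ^ 3 * hh a b θ i.1) * h3 +
        (I * y i.2 θ ^ 3 * η ^ 3) * h4 +
        I * ((η * y i.2 θ) ^ 2 + η * y i.2 θ + 1) * h5)
    (by
      intro i θ _
      rw [hl, norm_inv, hyn, inv_one])
    (by
      rintro ⟨j, k⟩ ⟨j', k'⟩ θ hθ φ hφ e1 e2
      simp only at e1 e2
      have h1 := hl (j, k) θ
      have h2 := hl (j', k') φ
      simp only at h1 h2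
      rw [e1, e2, h2, inv_inj] at h1
      have h3 : θ = φ := by
        have h4 : vv φ ^ 3 = vv θ ^ 3 := by rw [← hy3 k' φ, h1, hy3]
        rw [vv_cube, vv_cube] at h4
        have := exp_inj_of_neg_pi_lt_of_le_pi (by simpa using hφ.1.1) (by simpa using hφ.1.2)
          (by simpa using hθ.1.1) (by simpa using hθ.1.2) h4
        simpa using this.symm
      subst h3
      have h4 : k' = k := om_inj (mul_right_cancel₀ (vv_ne _) h1)
      subst h4
      have h5 := hy0 k' θ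
      rw [div_left_inj' h5] at e1 e2
      have h6 : j = j' := by
        apply zz_inj hθ.2
        apply mul_left_cancel₀ hW
        rw [hWd]
        linear_combination (-β₀) * e1 + α₀ * e2
      simp [h6])
  refine le_trans ?_ main
  rw [tsum_fintype, Fintype.sum_prod_type, II_eq, Finset.mul_sum]
  apply Finset.sum_le_sum
  intro j _
  have hm : ∀ k : Fin 3, Measurable fun θ : ℝ =>
      ENNReal.ofReal (2 * |(W * (I * vv θ * hh a b θ j) * om ^ (k : ℕ)).re|) := by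
    intro k
    have h1 : Measurable fun θ : ℝ => hh a b θ j :=
      hh_meas measurable_const measurable_const measurable_id' j
    have h2 : Measurable fun θ : ℝ => vv θ := by
      unfold vv
      fun_prop
    exact ((continuous_abs.measurable.comp (measurable_re.comp ((((h2.const_mul I).mul
      h1).const_mul W).mul_const _))).const_mul 2).ennreal_ofReal
  calc ENNReal.ofReal (2 * (√3 * ‖W‖)) * ∫⁻ θ in gs a b, ‖hh a b θ j‖ₑ
      = ∫⁻ θ in gs a b, ENNReal.ofReal (2 * (√3 * ‖W‖)) * ‖hh a b θ j‖ₑ :=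
        (lintegral_const_mul' _ _ ENNReal.ofReal_ne_top).symm
    _ ≤ ∫⁻ θ in gs a b, ∑ k : Fin 3,
          ENNReal.ofReal (2 * |(W * (I * vv θ * hh a b θ j) * om ^ (k : ℕ)).re|) := by
        apply lintegral_mono
        intro θ
        simp only
        rw [← ENNReal.ofReal_sum_of_nonneg (fun _ _ => by positivity), ← ofReal_norm,
          ← ENNReal.ofReal_mul (by positivity)]
        apply ENNReal.ofReal_le_ofReal
        have h1 := polygon (W * (I * vv θ * hh a b θ j)) om om_eq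
        rw [norm_mul, norm_mul, norm_mul, norm_vv, norm_I] at h1
        simp only [Fin.sum_univ_three, Fin.val_zero, Fin.val_one, Fin.val_two, pow_zero, pow_one,
          mul_one] at h1 ⊢
        linarith
    _ = ∑ k : Fin 3, ∫⁻ θ in gs a b,
          ENNReal.ofReal (2 * |(W * (I * vv θ * hh a b θ j) * om ^ (k : ℕ)).re|) :=
        lintegral_finsetSum _ fun k _ => hm k
    _ = _ := by
        congr 1
        ext k
        congr 1
        ext θ
        congr 4
        have h1 := hy0 k θ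
        have h2 := om_pow_cube k
        have h3 := vv_ne θ
        field_simp
        simp only [y, hWd]
        linear_combination ((α₀ * β₁ - β₀ * α₁) * 3 * vv θ ^ 3 * hh a b θ j) * h2

end Pool.Agent.Lib.MP_f225de_an.Cubic
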