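import Pool.Agent.Lib.MP_f225de_an.C6

set_option autoImplicit false

open MeasureTheory Set Filter Topology Complex
open scoped ENNReal NNReal Real

namespace Pool.Agent.Lib.MP_f225de_an.Cubic

/-- the extremal length -/
noncomputable def LL : ℝ≥0∞ := ENNReal.ofReal ((2 : ℝ) ^ (1 / 3 : ℝ)) * KK

theorem II_le_disc (a b : ℂ) (h : b ^ 2 - 4 * a ^ 6 ≠ 0) :
    ENNReal.ofReal (‖b ^ 2 - 4 * a ^ 6‖ ^ (1 / 6 : ℝ)) * II a b ≤ LL := by
  obtain ⟨s, hs⟩ := IsAlgClosed.exists_pow_nat_eq (b ^ 2 - 4 * a ^ 6) two_pos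
  have hs0 : s ≠ 0 := by
    rintro rfl
    exact h (by rw [← hs]; ring)
  obtain ⟨δ, hδ, hT⟩ : ∃ δ : ℂ, δ ^ 2 = b ^ 2 - 4 * a ^ 6 ∧ (δ - b) / 2 ≠ 0 := by
    by_cases h1 : (s - b) / 2 = 0
    · refine ⟨-s, by rw [← hs]; ring, fun h2 => hs0 ?_⟩
      linear_combination h1 - h2
    · exact ⟨s, hs, h1⟩
  have hδ0 : δ ≠ 0 := by
    rintro rfl
    exact h (by rw [← hδ]; ring)
  obtain ⟨A, hA⟩ := IsAlgClosed.exists_pow_nat_eq ((δ - b) / 2) three_pos
  have hA0 : A ≠ 0 := by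
    rintro rfl
    exact hT (by rw [← hA]; ring)
  set B := a ^ 2 / A with hB
  have hAB : A * B = a ^ 2 := mul_div_cancel₀ _ hA0
  have hB3 : B ^ 3 = (-δ - b) / 2 := by
    apply mul_left_cancel₀ hT
    linear_combination (-B ^ 3) * hA + ((A * B) ^ 2 + A * B * a ^ 2 + a ^ 4) * hAB + hδ / 4
  obtain ⟨κ, hκ⟩ := IsAlgClosed.exists_pow_nat_eq (4 * δ) three_pos
  have hκ0 : κ ≠ 0 := by
    rintro rfl
    exact hδ0 (by linear_combination -hκ / 4)
  have h3 : ((√3 : ℝ) : ℂ) ^ 2 = 3 := by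
    rw [← ofReal_pow, Real.sq_sqrt (by norm_num)]
    norm_num
  have hδ' : δ = A ^ 3 - B ^ 3 := by linear_combination hB3 - hA
  have hb' : b = -(A ^ 3 + B ^ 3) := by linear_combination hB3 + hA
  have hW : (B ^ 2 - A ^ 2) / κ * (√3 * (A + B) / κ) - √3 * (A ^ 2 + B ^ 2) / κ * ((A - B) / κ) =
      -(√3 / 2 * κ) := by
    field_simp
    rw [hκ, hδ']
    ring
  have main := II_le_aux a b ((A - B) / κ) ((B ^ 2 - A ^ 2) / κ) (√3 * (A + B) / κ)
    (√3 * (A ^ 2 + B ^ 2) / κ) (by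
      intro z
      field_simp
      rw [hκ, h3, hδ', hb', ← hAB]
      ring) (by
      rw [hW]
      have : ((√3 : ℝ) : ℂ) ≠ 0 := by
        intro h0
        rw [h0] at h3
        norm_num at h3
      exact neg_ne_zero.mpr (mul_ne_zero (div_ne_zero this two_ne_zero) hκ0))
  rw [hW] at main
  have hn : 2 * (√3 * ‖-((√3 : ℝ) / 2 * κ)‖) = 3 * ‖κ‖ := by
    rw [norm_neg, norm_mul, norm_div, norm_real, Real.norm_of_nonneg (Real.sqrt_nonneg _)]
    have : √3 * √3 = 3 := Real.mul_self_sqrt (by norm_num)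
    simp only [norm_ofNat]
    linear_combination ‖κ‖ * this
  rw [hn] at main
  have h2 : ((2 : ℝ) ^ (1 / 3 : ℝ)) ^ 3 = 2 := by
    rw [← Real.rpow_natCast, ← Real.rpow_mul (by norm_num)]
    norm_num
  have hk : ‖b ^ 2 - 4 * a ^ 6‖ ^ (1 / 6 : ℝ) = (2 : ℝ) ^ (1 / 3 : ℝ) / 6 * (3 * ‖κ‖) := by
    have e1 : ‖κ‖ ^ 3 = 4 * ‖δ‖ := by rw [← norm_pow, hκ, norm_mul]; simp
    have e2 : ‖b ^ 2 - 4 * a ^ 6‖ = ((2 : ℝ) ^ (1 / 3 : ℝ) / 6 * (3 * ‖κ‖)) ^ 6 := by
      rw [← hδ, norm_pow]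
      have : ((2 : ℝ) ^ (1 / 3 : ℝ) / 6 * (3 * ‖κ‖)) ^ 6 =
          ((((2 : ℝ) ^ (1 / 3 : ℝ)) ^ 3) * ‖κ‖ ^ 3 / 8) ^ 2 := by ring
      rw [this, h2, e1]
      ring
    rw [e2, ← Real.rpow_natCast, ← Real.rpow_mul (by positivity)]
    norm_num
  rw [hk, ENNReal.ofReal_mul (by positivity), mul_assoc]
  refine (mul_le_mul_right main _).trans (le_of_eq ?_)
  unfold LL
  rw [← mul_assoc, ENNReal.ofReal_div_of_pos (by norm_num), ENNReal.ofReal_ofNat,
    ENNReal.div_mul_cancel (by norm_num) (by norm_num)]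

lemma mean_value (f : ℂ → ℂ) (hf : ∀ z ∈ Metric.closedBall (0 : ℂ) 1, DifferentiableAt ℂ f z) :
    ENNReal.ofReal (2 * π) * ‖f 0‖ₑ ≤ ∫⁻ φ in Ioc 0 (2 * π), ‖f (circleMap 0 1 φ)‖ₑ := by
  have h1 : Real.circleAverage f 0 1 = f 0 :=
    circleAverage_of_differentiable_on_off_countable (s := ∅) countable_empty
      (fun z hz => (hf z (by simpa using hz)).continuousAt.continuousWithinAt)
      (fun z hz => hf z (Metric.ball_subset_closedBall (by simpa using hz.1)))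
  have hpi : 0 < 2 * π := by positivity
  rw [← h1, Real.circleAverage_def, intervalIntegral.integral_of_le hpi.le, enorm_smul,
    ← mul_assoc, ← ofReal_norm, ← ENNReal.ofReal_mul hpi.le, Real.norm_of_nonneg (by positivity),
    mul_inv_cancel₀ hpi.ne', ENNReal.ofReal_one, one_mul]
  exact enorm_integral_le_lintegral_enorm _

/-- sub-mean value property of the length integral in holomorphic families -/
theorem II_le_of_family (a b : ℂ → ℂ)
    (ha : ∀ z ∈ Metric.closedBall (0 : ℂ) 1, DifferentiableAt ℂ a z)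
    (hb : ∀ z ∈ Metric.closedBall (0 : ℂ) 1, DifferentiableAt ℂ b z)
    (hg : ∀ᵐ θ : ℝ, ∀ z ∈ Metric.closedBall (0 : ℂ) 1, Good (a z) (b z) (vv θ))
    (M : ℝ≥0∞) (hM : ∀ z : ℂ, ‖z‖ = 1 → II (a z) (b z) ≤ M) : II (a 0) (b 0) ≤ M := by
  have hpi : 0 < 2 * π := by positivity
  have hcm : ∀ φ, circleMap 0 1 φ ∈ Metric.closedBall (0 : ℂ) 1 := fun φ =>
    circleMap_mem_closedBall 0 zero_le_one φ
  have ca : Continuous fun φ => a (circleMap 0 1 φ) := continuous_iff_continuousAt.mpr fun φ =>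
    (ha _ (hcm φ)).continuousAt.comp (continuous_circleMap 0 1).continuousAt
  have cb : Continuous fun φ => b (circleMap 0 1 φ) := continuous_iff_continuousAt.mpr fun φ =>
    (hb _ (hcm φ)).continuousAt.comp (continuous_circleMap 0 1).continuousAt
  have hm : ∀ j, Measurable fun p : ℝ × ℝ =>
      ‖hh (a (circleMap 0 1 p.2)) (b (circleMap 0 1 p.2)) p.1 j‖ₑ := fun j =>
    (hh_meas (a := fun p : ℝ × ℝ => a (circleMap 0 1 p.2))
      (b := fun p : ℝ × ℝ => b (circleMap 0 1 p.2)) (ca.measurable.comp measurable_snd)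
      (cb.measurable.comp measurable_snd) measurable_fst j).enorm
  rw [← ENNReal.mul_le_mul_iff_right (a := ENNReal.ofReal (2 * π)) (by simpa using Real.pi_pos)
    ENNReal.ofReal_ne_top]
  calc ENNReal.ofReal (2 * π) * II (a 0) (b 0)
      = ∫⁻ θ in Ioc (-π) π, ENNReal.ofReal (2 * π) * ∑ j, ‖hh (a 0) (b 0) θ j‖ₑ :=
        (lintegral_const_mul' _ _ ENNReal.ofReal_ne_top).symm
    _ ≤ ∫⁻ θ in Ioc (-π) π, ∫⁻ φ in Ioc 0 (2 * π),
          ∑ j, ‖hh (a (circleMap 0 1 φ)) (b (circleMap 0 1 φ)) θ j‖ₑ := by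
        apply lintegral_mono_ae
        filter_upwards [ae_restrict_of_ae hg] with θ hθ
        rw [Finset.mul_sum, lintegral_finsetSum
          (f := fun j φ => ‖hh (a (circleMap 0 1 φ)) (b (circleMap 0 1 φ)) θ j‖ₑ) _ fun j _ =>
          (hh_meas ca.measurable cb.measurable measurable_const j).enorm]
        apply Finset.sum_le_sum
        intro j _
        apply mean_value (fun z => hh (a z) (b z) θ j)
        intro z hz
        have d := zz_diff (v := fun _ => vv θ) (ha z hz) (hb z hz) (by fun_prop) (hθ z hz) j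
        exact (((d.pow 2).sub ((ha z hz).pow 2)).const_mul 3).inv
          (crit_ne (hθ z hz) (zz_eq (hθ z hz) j))
    _ = ∫⁻ φ in Ioc 0 (2 * π), II (a (circleMap 0 1 φ)) (b (circleMap 0 1 φ)) :=
        lintegral_lintegral_swap (f := fun θ φ =>
          ∑ j, ‖hh (a (circleMap 0 1 φ)) (b (circleMap 0 1 φ)) θ j‖ₑ)
          (Finset.measurable_sum _ fun j _ => hm j).aemeasurable
    _ ≤ ∫⁻ _ in Ioc 0 (2 * π), M := lintegral_mono fun φ => hM _ (by simp)
    _ = _ := by rw [setLIntegral_const, Real.volume_Ioc, sub_zero, mul_comm]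

end Pool.Agent.Lib.MP_f225de_an.Cubic
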