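import Pool.Agent.Lib.MP_f225de_an.C7

set_option autoImplicit false

open MeasureTheory Set Filter Topology Complex
open scoped ENNReal NNReal Real ComplexConjugate

namespace Pool.Agent.Lib.MP_f225de_an.Cubic

/-- disc automorphism -/
noncomputable def mob (c z : ℂ) : ℂ := (z + c) / (1 + conj c * z)

lemma mob_den {c z : ℂ} (hc : ‖c‖ < 1) (hz : ‖z‖ ≤ 1) : 1 + conj c * z ≠ 0 := by
  apply slitPlane_ne_zero
  apply mem_slitPlane_of_norm_lt_one
  rw [norm_mul, norm_conj]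
  nlinarith [norm_nonneg c, norm_nonneg z]

lemma mob_sq (c z : ℂ) :
    ‖1 + conj c * z‖ ^ 2 - ‖z + c‖ ^ 2 = (1 - ‖c‖ ^ 2) * (1 - ‖z‖ ^ 2) := by
  simp only [Complex.sq_norm, normSq_apply, add_re, add_im, mul_re, mul_im, conj_re, conj_im,
    one_re, one_im]
  ring

lemma mob_le {c z : ℂ} (hc : ‖c‖ < 1) (hz : ‖z‖ ≤ 1) : ‖mob c z‖ ≤ 1 := by
  unfold mob
  rw [norm_div, div_le_one (norm_pos_iff.mpr (mob_den hc hz))]
  apply le_of_pow_le_pow_left₀ two_ne_zero (norm_nonneg _)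
  have h1 := mob_sq c z
  have h2 : 0 ≤ 1 - ‖c‖ ^ 2 := by nlinarith [norm_nonneg c]
  have h3 : 0 ≤ 1 - ‖z‖ ^ 2 := by nlinarith [norm_nonneg z]
  nlinarith [mul_nonneg h2 h3]

lemma mob_eq {c z : ℂ} (hc : ‖c‖ < 1) (hz : ‖z‖ = 1) : ‖mob c z‖ = 1 := by
  unfold mob
  rw [norm_div, div_eq_one_iff_eq (norm_ne_zero_iff.mpr (mob_den hc hz.le)),
    ← sq_eq_sq₀ (norm_nonneg _) (norm_nonneg _)]
  have h1 := mob_sq c z
  rw [hz] at h1
  linarith

lemma mob_diff {c z : ℂ} (hc : ‖c‖ < 1) (hz : ‖z‖ ≤ 1) : DifferentiableAt ℂ (mob c) z := by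
  have := mob_den hc hz
  unfold mob
  fun_prop (disch := assumption)

lemma mob_zero (c : ℂ) : mob c 0 = c := by simp [mob]

lemma one_sub_slit {c d : ℂ} (h : ‖c‖ < ‖d‖) : 1 - c / d ∈ slitPlane := by
  rw [sub_eq_add_neg]
  apply mem_slitPlane_of_norm_lt_one
  rw [norm_neg, norm_div, div_lt_one ((norm_nonneg c).trans_lt h)]
  exact h

lemma small_slit {c : ℂ} (h : ‖c‖ < 1) (θ : ℝ) : 1 - c / vv θ ^ 3 ∈ slitPlane :=
  one_sub_slit (by rwa [norm_pow, norm_vv, one_pow])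

/-- the bound at level `ρ` -/
noncomputable def MM (ρ : ℝ) : ℝ≥0∞ := LL / ENNReal.ofReal (ρ ^ (1 / 3 : ℝ))

lemma le_MM {a b : ℂ} {ρ : ℝ} (hρ : 0 < ρ) (h : ρ ^ 2 ≤ ‖b - 2 * a ^ 3‖ * ‖b + 2 * a ^ 3‖) :
    II a b ≤ MM ρ := by
  rw [← norm_mul, show (b - 2 * a ^ 3) * (b + 2 * a ^ 3) = b ^ 2 - 4 * a ^ 6 by ring] at h
  have h0 : b ^ 2 - 4 * a ^ 6 ≠ 0 := norm_pos_iff.mp (lt_of_lt_of_le (by positivity) h)
  unfold MM
  rw [ENNReal.le_div_iff_mul_le (Or.inl (by simp; positivity)) (Or.inl ENNReal.ofReal_ne_top),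
    mul_comm]
  refine le_trans ?_ (II_le_disc a b h0)
  gcongr
  calc ρ ^ (1 / 3 : ℝ) = (ρ ^ 2) ^ (1 / 6 : ℝ) := by
        rw [← Real.rpow_natCast, ← Real.rpow_mul hρ.le]
        norm_num
    _ ≤ _ := by gcongr

lemma lim_MM {J : ℝ≥0∞} {x m : ℝ} (hx : x < m) (hm : 0 < m)
    (h : ∀ ρ, x < ρ → ρ < m → J ≤ MM ρ) : J ≤ MM m := by
  have h1 : Tendsto MM (𝓝[<] m) (𝓝 (MM m)) := by
    apply Tendsto.mono_left _ nhdsWithin_le_nhds
    apply ENNReal.Tendsto.const_div _ (Or.inl ENNReal.ofReal_ne_top)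
    exact ENNReal.tendsto_ofReal (Real.continuousAt_rpow_const m _ (Or.inl hm.ne'))
  apply ge_of_tendsto h1
  filter_upwards [Ioo_mem_nhdsLT hx] with ρ hρ
  exact h ρ hρ.1 hρ.2

lemma step_one {a b : ℂ} {ρ : ℝ} (h1 : ‖b - 2 * a ^ 3‖ < ρ) (h2 : ρ < 1)
    (h3 : ρ < ‖b + 2 * a ^ 3‖) : II a b ≤ MM ρ := by
  set c₁ := b - 2 * a ^ 3 with hc₁
  set c₂ := b + 2 * a ^ 3 with hc₂
  have hρ : 0 < ρ := (norm_nonneg _).trans_lt h1
  have hρ' : (ρ : ℂ) ≠ 0 := by exact_mod_cast hρ.ne'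
  have hc : ‖c₁ / ρ‖ < 1 := by
    rw [norm_div, norm_real, Real.norm_of_nonneg hρ.le, div_lt_one hρ]
    exact h1
  let c : ℂ → ℂ := fun z => ρ * mob (c₁ / ρ) z
  have hcn : ∀ z, ‖c z‖ = ρ * ‖mob (c₁ / ρ) z‖ := fun z => by
    simp only [c]
    rw [norm_mul, norm_real, Real.norm_of_nonneg hρ.le]
  have hcl : ∀ z, ‖z‖ ≤ 1 → ‖c z‖ ≤ ρ := fun z hz => by
    rw [hcn]
    exact mul_le_of_le_one_right hρ.le (mob_le hc hz)
  have hc0 : c 0 = c₁ := by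
    simp only [c]
    rw [mob_zero, mul_div_cancel₀ _ hρ']
  have hcd : ∀ z, ‖z‖ ≤ 1 → DifferentiableAt ℂ c z := fun z hz => (mob_diff hc hz).const_mul _
  have h20 : c₂ ≠ 0 := norm_pos_iff.mp (hρ.trans h3)
  have hs0 : 1 - c₁ / c₂ ≠ 0 := slitPlane_ne_zero (one_sub_slit (h1.trans h3))
  have hs1 : (1 - c₁ / c₂) ^ (3⁻¹ : ℂ) ≠ 0 := by
    rw [Ne, cpow_eq_zero_iff]
    exact fun h => hs0 h.1
  let a' : ℂ → ℂ := fun z => a * (1 - c z / c₂) ^ (3⁻¹ : ℂ) / (1 - c₁ / c₂) ^ (3⁻¹ : ℂ)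
  let b' : ℂ → ℂ := fun z => (c z + c₂) / 2
  have ha3 : ∀ z, a' z ^ 3 = (c₂ - c z) / 4 := fun z => by
    simp only [a']
    rw [div_pow, mul_pow, cpow_ofNat_inv_pow, cpow_ofNat_inv_pow, div_eq_iff hs0]
    field_simp
    rw [hc₁, hc₂]
    ring
  have e1 : ∀ z, b' z - 2 * a' z ^ 3 = c z := fun z => by rw [ha3]; simp only [b']; ring
  have e2 : ∀ z, b' z + 2 * a' z ^ 3 = c₂ := fun z => by rw [ha3]; simp only [b']; ring
  have ha0 : a' 0 = a := by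
    simp only [a']
    rw [hc0, mul_div_cancel_right₀ _ hs1]
  have hb0 : b' 0 = b := by
    simp only [b']
    rw [hc0, hc₁, hc₂]
    ring
  rw [← ha0, ← hb0]
  apply II_le_of_family a' b'
  · intro z hz
    have hz' : ‖z‖ ≤ 1 := by simpa using hz
    exact ((DifferentiableAt.cpow_const (((hcd z hz').div_const c₂).const_sub 1)
      (one_sub_slit ((hcl z hz').trans_lt h3))).const_mul a).div_const _
  · intro z hz
    exact ((hcd z (by simpa using hz)).add_const c₂).div_const 2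
  · filter_upwards [measure_eq_zero_iff_ae_notMem.mp ((bad_countable c₂).measure_zero volume)]
      with θ hθ z hz
    refine ⟨vv_ne _, ?_, ?_⟩
    · rw [e1]
      exact small_slit ((hcl z (by simpa using hz)).trans_lt h2) θ
    · rw [e2]
      simpa using hθ
  · intro z hz
    apply le_MM hρ
    rw [e1, e2, hcn, mob_eq hc hz]
    nlinarith

lemma step_two {a b : ℂ} {m : ℝ} (hm : 0 < m) (h1 : m ≤ 1)
    (h2 : m ≤ ‖b + 2 * a ^ 3‖) : II a b ≤ MM m := by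
  rcases le_or_gt m ‖b - 2 * a ^ 3‖ with h3 | h3
  · apply le_MM hm
    nlinarith
  · exact lim_MM h3 hm fun ρ h4 h5 => step_one h4 (h5.trans_le h1) (h5.trans_le h2)

lemma step_three {a b : ℂ} {ρ : ℝ} (h : ‖b - 2 * a ^ 3‖ ≤ ‖b + 2 * a ^ 3‖)
    (h1 : ‖b + 2 * a ^ 3‖ < ρ) (h2 : ρ < 1) : II a b ≤ MM ρ := by
  have hρ : 0 < ρ := (norm_nonneg _).trans_lt h1
  by_cases h0 : b + 2 * a ^ 3 = 0
  · have h3 : b - 2 * a ^ 3 = 0 := by
      rw [h0, norm_zero] at h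
      exact norm_le_zero_iff.mp h
    have hb : b = 0 := by linear_combination (h0 + h3) / 2
    have ha : a = 0 := pow_eq_zero_iff (n := 3) (by norm_num) |>.mp
      (by linear_combination (h0 - h3) / 4)
    have hn : ∀ z : ℂ, ‖(ρ : ℂ) * z‖ = ρ * ‖z‖ := fun z => by
      rw [norm_mul, norm_real, Real.norm_of_nonneg hρ.le]
    have := II_le_of_family (fun _ => 0) (fun z => ρ * z) (fun z _ => by fun_prop)
      (fun z _ => by fun_prop) (Eventually.of_forall fun θ z hz => by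
        have hz' : ‖z‖ ≤ 1 := by simpa using hz
        have : ‖(ρ : ℂ) * z‖ < 1 := by rw [hn]; nlinarith [norm_nonneg z]
        refine ⟨vv_ne _, ?_, ?_⟩ <;> simpa using small_slit this θ) (MM ρ) (fun z hz => by
        apply le_MM hρ
        simp only [ne_eq, OfNat.ofNat_ne_zero, not_false_eq_true, zero_pow, mul_zero, sub_zero,
          add_zero, hn, hz]
        nlinarith)
    simpa [ha, hb] using this
  · have hp : 0 < ‖b + 2 * a ^ 3‖ := norm_pos_iff.mpr h0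
    obtain ⟨R, hR0, hR⟩ : ∃ R : ℝ, 0 < R ∧ R ^ 3 * ‖b + 2 * a ^ 3‖ = ρ := by
      refine ⟨(ρ / ‖b + 2 * a ^ 3‖) ^ ((3 : ℕ)⁻¹ : ℝ), by positivity, ?_⟩
      rw [Real.rpow_inv_natCast_pow (by positivity) (by norm_num)]
      field_simp
    have hR1 : 1 < R := by
      by_contra hc
      have := pow_le_one₀ (n := 3) hR0.le (not_lt.mp hc)
      nlinarith
    have hR' : (R : ℂ) ≠ 0 := by exact_mod_cast hR0.ne'
    have hc : ‖(1 / R : ℂ)‖ < 1 := by
      rw [norm_div, norm_one, norm_real, Real.norm_of_nonneg hR0.le, div_lt_one hR0]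
      exact hR1
    let μ : ℂ → ℂ := fun z => R * mob (1 / R) z
    have hn : ∀ z, ‖μ z‖ = R * ‖mob (1 / R) z‖ := fun z => by
      simp only [μ]
      rw [norm_mul, norm_real, Real.norm_of_nonneg hR0.le]
    have hd : ∀ z ∈ Metric.closedBall (0 : ℂ) 1, DifferentiableAt ℂ μ z := fun z hz =>
      (mob_diff hc (by simpa using hz)).const_mul _
    have h00 : μ 0 = 1 := by
      simp only [μ]
      rw [mob_zero, mul_one_div_cancel hR']
    have e1 : ∀ z, ‖μ z ^ 3 * b - 2 * (μ z * a) ^ 3‖ = ‖μ z‖ ^ 3 * ‖b - 2 * a ^ 3‖ := fun z => by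
      rw [← norm_pow, ← norm_mul]
      congr 1
      ring
    have e2 : ∀ z, ‖μ z ^ 3 * b + 2 * (μ z * a) ^ 3‖ = ‖μ z‖ ^ 3 * ‖b + 2 * a ^ 3‖ := fun z => by
      rw [← norm_pow, ← norm_mul]
      congr 1
      ring
    have e3 : ∀ z, ‖μ z ^ 3 * b - 2 * (μ z * a) ^ 3‖ ≤ ‖μ z ^ 3 * b + 2 * (μ z * a) ^ 3‖ :=
      fun z => by
        rw [e1, e2]
        gcongr
    have := II_le_of_family (fun z => μ z * a) (fun z => μ z ^ 3 * b)
      (fun z hz => (hd z hz).mul_const a) (fun z hz => ((hd z hz).pow 3).mul_const b)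
      (Eventually.of_forall fun θ z hz => by
        have h4 : ‖μ z‖ ≤ R := by
          rw [hn]
          exact mul_le_of_le_one_right hR0.le (mob_le hc (by simpa using hz))
        have h5 : ‖μ z ^ 3 * b + 2 * (μ z * a) ^ 3‖ < 1 := by
          rw [e2]
          refine lt_of_le_of_lt ?_ h2
          rw [← hR]
          gcongr
        exact ⟨vv_ne _, small_slit ((e3 z).trans_lt h5) θ, small_slit h5 θ⟩) (MM ρ)
      (fun z hz => step_two hρ h2.le (by rw [e2, hn, mob_eq hc hz, mul_one, hR]))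
    simpa [h00] using this

theorem II_le {a b : ℂ} (h : ‖b - 2 * a ^ 3‖ ≤ ‖b + 2 * a ^ 3‖) : II a b ≤ LL := by
  have : MM 1 = LL := by simp [MM]
  rw [← this]
  rcases le_or_gt 1 ‖b + 2 * a ^ 3‖ with h1 | h1
  · exact step_two one_pos le_rfl h1
  · exact lim_MM h1 one_pos fun ρ h2 h3 => step_three h h2 h3

end Pool.Agent.Lib.MP_f225de_an.Cubic
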