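import Pool.Agent.Lib.MP_f225de_an.IV1
import Mathlib.Analysis.SpecialFunctions.Trigonometric.Bounds
import Mathlib.Analysis.SpecialFunctions.Trigonometric.Inverse
import Mathlib.Analysis.SpecialFunctions.Log.Deriv

set_option autoImplicit false

open scoped Real

namespace Pool.Agent.Lib.MP_f225de_an.Iv

variable {x y z : ℝ} {a b k u yl yh : ℕ} {I J : Iv}

/-- remainders of the Taylor series of the cosine and the sine -/
noncomputable def gk : ℕ → ℝ → ℝ
  | 0, x => Real.cos x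
  | 1, x => Real.sin x
  | k + 2, x => x ^ k / k.factorial - gk k x

lemma gk_der : ∀ (k : ℕ) (x : ℝ), HasDerivAt (gk (k + 1)) (gk k x) x
  | 0, x => Real.hasDerivAt_sin x
  | 1, x => ((Real.hasDerivAt_cos x).const_sub 1).congr_of_eventuallyEq
      (.of_forall fun y => by simp [gk]) |>.congr_deriv (neg_neg _)
  | k + 2, x => (((hasDerivAt_pow (k + 1) x).div_const (k + 1).factorial).sub
      (gk_der k x)).congr_deriv (by
      rw [gk, Nat.factorial_succ, Nat.cast_mul, mul_div_mul_left _ _ (by positivity)]; rfl)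

lemma gk_zero : ∀ k : ℕ, gk (k + 1) 0 = 0
  | 0 => Real.sin_zero
  | 1 => by simp [gk]
  | k + 2 => by rw [gk, gk_zero k]; simp

lemma gk_neg : ∀ (k : ℕ) (x : ℝ), gk k (-x) = (-1) ^ k * gk k x
  | 0, x => by simp [gk]
  | 1, x => by simp [gk]
  | k + 2, x => by rw [gk, gk, gk_neg k, neg_pow]; ring

lemma gk_nonneg : ∀ (k : ℕ) (x : ℝ), 0 ≤ x → 0 ≤ gk (k + 2) x
  | 0, x, _ => by simpa [gk] using Real.cos_le_one x
  | k + 1, x, hx => (gk_zero (k + 2)).ge.trans (monotoneOn_of_deriv_nonneg (convex_Ici 0)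
      (fun y _ => (gk_der (k + 2) y).continuousAt.continuousWithinAt)
      (fun y _ => (gk_der (k + 2) y).differentiableAt.differentiableWithinAt)
      (fun y hy => (gk_der (k + 2) y).deriv ▸ gk_nonneg k y (interior_subset hy))
      Set.self_mem_Ici hx hx)

/-- remainder divided by its leading term -/
noncomputable def rh (k : ℕ) (x : ℝ) : ℝ := if x = 0 then 1 else gk k x * k.factorial / x ^ k

lemma rh_rec (k : ℕ) (x : ℝ) : rh k x = 1 - x ^ 2 / ((k + 1) * (k + 2)) * rh (k + 2) x := by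
  unfold rh
  split_ifs with h
  · simp [h]
  · rw [gk, Nat.factorial_succ, Nat.factorial_succ]
    push_cast
    field_simp
    ring

lemma rh_nonneg (k : ℕ) (x : ℝ) : 0 ≤ rh (k + 2) x := by
  wlog hx : 0 ≤ x
  · have e := this k (-x) (by linarith)
    unfold rh at *
    simp only [neg_eq_zero, gk_neg, neg_pow x, mul_assoc] at e
    rwa [mul_div_mul_left _ _ (by positivity)] at e
  have := gk_nonneg k x hx
  unfold rh
  positivity

lemma rh_le (k : ℕ) (x : ℝ) : rh k x ≤ 1 := by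
  have := rh_nonneg k x
  rw [rh_rec]
  exact sub_le_self _ (by positivity)

theorem cos_rh (x : ℝ) : Real.cos x = rh 0 x := by
  unfold rh
  split_ifs with h <;> simp [gk, h]

theorem sin_rh (x : ℝ) : Real.sin x = x * rh 1 x := by
  unfold rh
  split_ifs with h
  · simp [h]
  · simp only [gk]
    field_simp
    simp

theorem cos_rh2 (x : ℝ) : 1 - Real.cos x = x ^ 2 / 2 * rh 2 x := by
  rw [cos_rh, rh_rec]
  norm_num

theorem sin_rh3 (x : ℝ) : x - Real.sin x = x ^ 3 / 6 * rh 3 x := by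
  rw [sin_rh, rh_rec]
  norm_num
  ring

/-- integer part of `y u / (2^64 (k+1) (k+2))` -/
@[irreducible] def tq (y u k : ℕ) : ℕ := Nat.div (Nat.mul y u)
  (Nat.shiftLeft (Nat.mul (Nat.succ k) (Nat.succ (Nat.succ k))) (nat_lit 64))

lemma tq_den (k : ℕ) : ((Nat.shiftLeft (Nat.mul (Nat.succ k) (Nat.succ (Nat.succ k)))
    (nat_lit 64) : ℕ) : ℝ) = 2 ^ 64 * ((k + 1) * (k + 2)) := by
  rw [shl_eq, mul_eq, succ_eq, succ_eq, succ_eq]
  ring

lemma tq_le (h1 : yl ≤ 2 ^ 64 * y) (h2 : u ≤ 2 ^ 64 * z) :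
    tq yl u k ≤ 2 ^ 64 * (y / ((k + 1) * (k + 2)) * z) := by
  delta tq
  refine le_trans (div_le _ _) ?_
  have := mul_le_mul h1 h2 (by positivity) (le_trans (Nat.cast_nonneg _) h1)
  rw [tq_den, mul_eq, div_le_iff₀ (by positivity)]
  refine this.trans_eq ?_
  field_simp

lemma le_tq (h1 : 2 ^ 64 * y ≤ yh) (h2 : 2 ^ 64 * z ≤ u) (hz : 0 ≤ z) :
    2 ^ 64 * (y / ((k + 1) * (k + 2)) * z) ≤ tq yh u k + 1 := by
  delta tq
  refine sub_le_iff_le_add.1 (div_ge ?_ ?_)
  · rw [← Nat.cast_pos (α := ℝ), tq_den]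
    positivity
  have := mul_le_mul h1 h2 (by positivity) (Nat.cast_nonneg _)
  rw [tq_den, mul_eq, sub_add_cancel]
  refine le_trans (le_of_eq ?_) this
  field_simp

lemma sub_le (h : a - b ≤ z) (hz : 0 ≤ z) : (Nat.sub a b : ℕ) ≤ z := by
  rcases le_total a b with e | e
  · rwa [show Nat.sub a b = 0 from Nat.sub_eq_zero_of_le e, Nat.cast_zero]
  · rwa [show Nat.sub a b = a - b from rfl, Nat.cast_sub e]

/-- lower bound of `rh k` from an upper bound `u` of `rh (k+2)` -/
@[irreducible] def dn (yh u k : ℕ) : ℕ := Nat.sub (nat_lit 18446744073709551615) (tq yh u k)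

lemma dn_le (h1 : 2 ^ 64 * x ^ 2 ≤ yh) (h2 : 2 ^ 64 * rh (k + 2 + 2) x ≤ u) :
    dn yh u (k + 2) ≤ 2 ^ 64 * rh (k + 2) x := by
  have h3 := le_tq (k := k + 2) h1 h2 (rh_nonneg _ x)
  have h4 := rh_nonneg k x
  delta dn
  refine sub_le ?_ (by positivity)
  rw [rh_rec, show ((nat_lit 18446744073709551615 : ℕ) : ℝ) = 2 ^ 64 - 1 by norm_num]
  linarith

/-- upper bound of `rh k` with `2 N` terms -/
@[irreducible] def up (yl yh N : ℕ) : ℕ → ℕ :=
  Nat.rec (fun _ => nat_lit 18446744073709551616) (fun _ f k => Nat.sub (nat_lit 18446744073709551616)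
    (tq yl (dn yh (f (Nat.add k (nat_lit 4))) (Nat.add k (nat_lit 2))) k)) N

lemma le_up (h0 : yl ≤ 2 ^ 64 * x ^ 2) (h1 : 2 ^ 64 * x ^ 2 ≤ yh) (N : ℕ) :
    ∀ k, 2 ^ 64 * rh k x ≤ up yl yh N k := by
  delta up
  induction N with
  | zero => exact fun k => le_trans (by linarith [rh_le k x]) S_eq.ge
  | succ N ih =>
    intro k
    have := tq_le (k := k) h0 (dn_le h1 (ih (k + 4)))
    refine le_trans ?_ (sub_ge _ _)
    rw [rh_rec, S_eq]
    exact le_trans (by linarith) (sub_le_sub_left this _)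

/-- enclosure of `rh k x` from scaled bounds of `x^2` -/
@[irreducible] def rhoS (k N yl yh : ℕ) : Iv :=
  ⟨Nat.add (tq yh (up yl yh N (Nat.add k (nat_lit 2))) k) (nat_lit 79228162495817593519834398721),
    Nat.sub (nat_lit 79228162532711081667253501952)
      (tq yl (dn yh (up yl yh N (Nat.add k (nat_lit 4))) (Nat.add k (nat_lit 2))) k)⟩

lemma mem_rhoS (h0 : yl ≤ 2 ^ 64 * x ^ 2) (h1 : 2 ^ 64 * x ^ 2 ≤ yh) (k N : ℕ) :
    mem (rh k x) (rhoS k N yl yh) := by
  have h2 := le_tq (k := k) h1 (le_up h0 h1 N (k + 2)) (rh_nonneg k x)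
  have h3 := tq_le (k := k) h0 (dn_le h1 (le_up h0 h1 N (k + 4)))
  delta rhoS
  refine ⟨?_, le_trans ?_ (sub_ge _ _)⟩
  · rw [U, add_eq, rh_rec, show ((nat_lit 79228162495817593519834398721 : ℕ) : ℝ) =
      2 ^ 96 - 2 ^ 64 + 1 by norm_num]
    exact le_trans (by linarith) (add_le_add_left h2 (2 ^ 96 - 2 ^ 64)) |>.trans_eq (by ring)
  · rw [rh_rec, show ((nat_lit 79228162532711081667253501952 : ℕ) : ℝ) = 2 ^ 96 + 2 ^ 64 by norm_num]
    exact le_trans (by linarith) (sub_le_sub_left h3 _)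

/-- enclosure of `rh k x` from an enclosure of `x^2` -/
def rho2 (k N : ℕ) (Y : Iv) : Iv := rhoS k N (nm Y.l) (pp Y.h)

theorem mem.rho2 (h : mem (x ^ 2) I) (k N : ℕ) : mem (rh k x) (rho2 k N I) :=
  mem_rhoS (h.1.nm_le (sq_nonneg x)) h.2.le_pp k N

/-- enclosure of `rh k x` -/
def rho (k N : ℕ) (I : Iv) : Iv := Iv.rho2 k N (sq I)

theorem mem.rho (h : mem x I) (k N : ℕ) : mem (rh k x) (rho k N I) := h.sq.rho2 k N

/-- enclosure of `rh k` at a point from the scaled square -/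
def rhoQ (k N y : ℕ) : Iv := rhoS k N y (Nat.succ y)

/-- enclosure of `rh k (a / 2^64)` -/
def rhoP (k N a : ℕ) : Iv := rhoQ k N (Nat.shiftRight (Nat.mul a a) (nat_lit 64))

theorem mem_rhoP (k N a : ℕ) : mem (rh k (a / 2 ^ 64)) (rhoP k N a) := by
  have e : 2 ^ 64 * (a / 2 ^ 64 : ℝ) ^ 2 = (Nat.mul a a : ℕ) / (2 ^ 64 : ℕ) := by
    rw [mul_eq]
    push_cast
    ring
  refine mem_rhoS ?_ ?_ k N
  · rw [e, show Nat.shiftRight (Nat.mul a a) (nat_lit 64) = Nat.div _ (2 ^ 64) from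
      Nat.shiftRight_eq_div_pow _ 64]
    exact div_le _ _
  · rw [succ_eq]
    refine sub_le_iff_le_add.1 (shr_ge (le_of_eq ?_))
    rw [mul_eq]
    ring

/-- the number `π / 2` -/
def hpi : Iv := ⟨nat_lit 79228162485288259761235458967, nat_lit 79228162543240415425852441706⟩

theorem mem_hpi : mem (π / 2) hpi := by
  have := Real.pi_gt_d20
  have := Real.pi_lt_d20
  norm_num [mem, U, hpi]
  constructor <;> linarith

/-- range of the cosine on a part of `[0, π]` -/
def cos (N : ℕ) (I : Iv) : Iv :=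
  ⟨Nat.succ (rhoP (nat_lit 0) N (mn (pp I.h) (nat_lit 57952155664616982739))).l,
    (rhoP (nat_lit 0) N (nm I.l)).h⟩

theorem mem.cos (h : mem x I) (h0 : 0 ≤ x) (h1 : x ≤ π) (N : ℕ) : mem (Real.cos x) (cos N I) := by
  refine ⟨?_, (mem_rhoP 0 N (nm I.l)).2.mono ?_ le_rfl⟩
  · have h2 : _ ≤ _ := (mem_rhoP 0 N (mn (pp I.h) (nat_lit 57952155664616982739))).1
    have h3 := Real.pi_gt_d20
    have h4 := Real.pi_lt_d20
    have h5 := h.2.le_pp
    rw [← cos_rh] at h2
    rw [U, Iv.cos, succ_eq]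
    generalize hq : mn (pp I.h) (nat_lit 57952155664616982739) = q at *
    rw [mn_eq] at hq
    have h6 : (q : ℝ) ≤ 57952155664616982739 := by exact_mod_cast hq ▸ min_le_right _ _
    have h7 : 2 ^ 64 * x ≤ q + 1 := by
      rcases min_choice (pp I.h) (nat_lit 57952155664616982739) with e | e <;> rw [← hq, e]
      · linarith
      · norm_num
        linarith
    rcases le_total x (q / 2 ^ 64) with e | e
    · have := Real.cos_le_cos_of_nonneg_of_le_pi h0 (by linarith) e
      exact le_trans (by linarith) (add_le_add_left h2 1)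
    · have := (abs_le.1 ((Real.abs_cos_sub_cos_le x (q / 2 ^ 64)).trans_eq
        (abs_of_nonneg (sub_nonneg.2 e)))).1
      exact le_trans (by linarith) (add_le_add_left h2 1)
  · have := h.1.nm_le h0
    rw [← cos_rh]
    exact Real.cos_le_cos_of_nonneg_of_le_pi (by positivity) h1 (by linarith)

/-- range of the sine on a part of `[0, π]` -/
def sin (N : ℕ) (I : Iv) : Iv := Iv.cos N (abs (sub hpi I))

theorem mem.sin (h : mem x I) (h0 : 0 ≤ x) (h1 : x ≤ π) (N : ℕ) : mem (Real.sin x) (sin N I) :=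
  ((mem_hpi.sub h).abs.cos (abs_nonneg _) (abs_le.2 ⟨by linarith, by linarith⟩) N).congr
    (by rw [Real.cos_abs, Real.cos_pi_div_two_sub])

/-- the sine of a nonnegative number, accurate near zero -/
def sin0 (N : ℕ) (I : Iv) : Iv := mulL I (Iv.rho (nat_lit 1) N I)

theorem mem.sin0 (h : mem x I) (h0 : 0 ≤ x) (N : ℕ) : mem (Real.sin x) (sin0 N I) :=
  (h.mulL h0 (h.rho 1 N)).congr (sin_rh x).symm

/-- the sine of `a / 2^64` -/
def sinP (N a : ℕ) : Iv := mulL (ofS a a) (rhoP (nat_lit 1) N a)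

lemma mem_ofS_self (a : ℕ) : mem (a / 2 ^ 64) (ofS a a) :=
  mem_ofS (by linarith) (by linarith)

theorem mem_sinP (N a : ℕ) : mem (Real.sin (a / 2 ^ 64)) (sinP N a) :=
  ((mem_ofS_self a).mulL (by positivity) (mem_rhoP 1 N a)).congr (sin_rh _).symm

/-- enclosure `[a, b] / 2^64` of the inverse sine; an end that fails its test is replaced -/
def asin (N a b : ℕ) (I : Iv) : Iv :=
  ⟨cond (Nat.ble a (nat_lit 28976077832308491369) && le (sinP N a) I) (nm a) hpi.h,
    cond (le I (sinP N b)) (ofS b b).h hpi.h⟩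

theorem mem.asin (h : mem x I) (N a b : ℕ) : mem (Real.arcsin x) (asin N a b I) := by
  constructor
  · rw [Iv.asin, Bool.cond_eq_ite]
    split_ifs with e
    · rw [Bool.and_eq_true] at e
      have h1 := (Nat.cast_le (α := ℝ)).2 (Nat.le_of_ble_eq_true e.1)
      have h2 := Real.pi_gt_d20
      have h3 : (0 : ℝ) ≤ a / 2 ^ 64 := by positivity
      rw [show ((nat_lit 28976077832308491369 : ℕ) : ℝ) = 28976077832308491369 by norm_num] at h1
      refine (mem_ofS_self a).1.mono (neg_le_neg ?_) le_rfl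
      exact (Real.arcsin_sin (by linarith) (by linarith)).ge.trans
        (Real.arcsin_le_arcsin ((mem_sinP N a).le h e.2))
    · exact mem_hpi.2.mono (neg_le.2 (Real.neg_pi_div_two_le_arcsin x)) le_rfl
  · rw [Iv.asin, Bool.cond_eq_ite, Bool.cond_eq_ite]
    split_ifs with e
    all_goals first
      | exact mem_hpi.2.mono (Real.arcsin_le_pi_div_two x) le_rfl
      | refine (mem_ofS_self b).2.mono ?_ le_rfl
        rcases le_total (b / 2 ^ 64 : ℝ) (π / 2) with f | f
        · exact (Real.arcsin_le_arcsin (h.le (mem_sinP N b) (by assumption))).trans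
            (Real.arcsin_sin (le_trans (by linarith [Real.pi_pos]) (by positivity : (0 : ℝ) ≤ _)) f).le
        · exact (Real.arcsin_le_pi_div_two x).trans f

end Pool.Agent.Lib.MP_f225de_an.Iv
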