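import Pool.Agent.Lib.MP_f225de_an.MD3

set_option autoImplicit false

open MeasureTheory Set Filter Topology
open scoped Real

namespace Pool.Agent.Lib.MP_f225de_an.MA

variable {n : ℕ} {r c c1 s : ℝ}

lemma q_cont (hr : 0 < r) {D : ℝ → ℝ} (hD : Continuous D) (h : ∀ s, 0 < D s) (a : ℝ) :
    ContinuousOn (fun s => a * (Real.log (r + s) - Real.log (D s) / 2) - r / (r + s) +
      (1 - s) * r ^ 2 / D s) (Icc 0 1) :=
  ((continuousOn_const.mul ((ContinuousOn.log (by fun_prop) fun s hs =>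
    (add_pos_of_pos_of_nonneg hr hs.1).ne').sub ((hD.log fun s => (h s).ne').div_const
      2).continuousOn)).sub (a_cont hr)).add
    (Continuous.div (by fun_prop) hD fun s => (h s).ne').continuousOn

theorem betaO_old (hn : 2 ≤ n) (hr : 0 < r) (hc : c ^ 2 < 1) : betaO n r c =
    ∫ s, ((1 - 1 / n) * LO r c s - r / (r + s) + (1 - s) * r ^ 2 / Do r c s) ∂mu n := by
  have c0 := LO_cont hr hc
  have c1 : ContinuousOn (fun s => 1 / (r + s) - (2 * s + 2 * r * c) / Do r c s / 2) (Icc 0 1) :=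
    (ContinuousOn.div (by fun_prop) (by fun_prop)
      fun s hs => (add_pos_of_pos_of_nonneg hr hs.1).ne').sub ((Continuous.div (by fun_prop)
        (Do_cont r c) fun s => (Do_pos hr hc s).ne').div_const 2).continuousOn
  have h := null hn c0 c1 fun s hs => (((hasDerivAt_id' s).const_add r).log
    (add_pos hr hs.1).ne').sub ((HasDerivAt.log (f := Do r c) (((((hasDerivAt_id' s).pow
      2).const_add _).add (((hasDerivAt_id' s).const_mul _).mul_const c)).congr_deriv
      (by simp)) (Do_pos hr hc s).ne').div_const 2)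
  have c2 := q_cont hr (Do_cont r c) (Do_pos hr hc) (1 - 1 / n)
  have := mu_lin hn c2 (g := fun s => s * (1 - s) * (1 / (r + s) - (2 * s + 2 * r * c) /
    Do r c s / 2) + (1 / n - (1 + 1 / n) / 2 * s) * LO r c s) (by fun_prop) 1 (-1)
  rw [h, mul_zero, add_zero, one_mul] at this
  rw [betaO_eq hn hr hc]
  refine (mu_congr fun s hs => ?_).trans this
  have h1 := (add_pos hr hs.1).ne'
  have h2 := (Do_pos hr hc s).ne'
  have h3 : s * (1 - s) * (2 * s + 2 * r * c) / 2 + c * (1 - s) * r * s + (1 - s) * r ^ 2 =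
      (1 - s) * Do r c s := by unfold Do; ring
  have h4 : (n : ℝ) ≠ 0 := by positivity
  rw [← LO]
  field_simp
  linear_combination (-2 * n * (r + s)) * h3

lemma q_anti (hn : 2 ≤ n) (hr : 0 < r) {D E : ℝ → ℝ} (hD : Continuous D) (hE : Continuous E)
    (d : ∀ s, 0 < D s) (e : ∀ s, 0 < E s) (h : ∀ s ∈ Ioo (0 : ℝ) 1, E s ≤ D s) :
    ∫ s, ((1 - 1 / n) * (Real.log (r + s) - Real.log (D s) / 2) - r / (r + s) +
      (1 - s) * r ^ 2 / D s) ∂mu n ≤ ∫ s, ((1 - 1 / n) * (Real.log (r + s) - Real.log (E s) / 2) -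
      r / (r + s) + (1 - s) * r ^ 2 / E s) ∂mu n :=
  mu_mono hn (q_cont hr hD d _) (q_cont hr hE e _) fun s hs => by
    have := Real.log_le_log (e s) (h s hs)
    have := div_le_div_of_nonneg_left (mul_pos (sub_pos.2 hs.2) (pow_pos hr 2)).le (e s) (h s hs)
    nlinarith [(gam_bd hn).2]

theorem betaO_anti (hn : 2 ≤ n) (hr : 0 < r) (h1 : -1 < c1) (h2 : c1 ≤ c) (h3 : c < 1) :
    betaO n r c ≤ betaO n r c1 := by
  have a : c ^ 2 < 1 := by nlinarith
  have b : c1 ^ 2 < 1 := by nlinarith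
  rw [betaO_old hn hr a, betaO_old hn hr b]
  exact q_anti hn hr (Do_cont r c) (Do_cont r c1) (Do_pos hr a) (Do_pos hr b) fun s hs => by
    unfold Do
    nlinarith [mul_pos hr hs.1]

theorem beta_out_le (hn : 2 ≤ n) (hr : 0 < r) (h : 0 ≤ r + 2 * c) (h1 : -1 < c1) (h2 : c1 ≤ c)
    (h3 : c < 1) : beta n r c ≤ betaO n r c1 :=
  (beta_out hn hr (by nlinarith) h).trans_le (betaO_anti hn hr h1 h2 h3)

theorem beta_in_le (hn : 2 ≤ n) (hr : 0 < r) (h1 : -1 < c) (h2 : c ≤ c1) (h : r + 2 * c1 ≤ 0) :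
    beta n r c ≤ beta n r c1 := by
  have a : c ^ 2 < 1 := by nlinarith
  have b : c1 ^ 2 < 1 := by nlinarith
  rw [beta_old hn hr a, beta_old hn hr b]
  exact q_anti hn hr (DD_cont r c) (DD_cont r c1) (DD_pos hr a) (DD_pos hr b) fun s hs => by
    rw [DD, DD, if_pos h, if_pos (by linarith)]
    nlinarith [mul_pos hr (mul_pos hs.1 (sub_pos.2 hs.2))]

/-- a box touching the circle: both sides are bounded by one outer value -/
theorem beta_le_T (hn : 2 ≤ n) (hr : 0 < r) (h0 : -1 < c) (h3 : c < 1) (h1 : -1 < c1)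
    (h2 : r + 2 * c1 ≤ 0) (h4 : c1 ≤ c ∨ r + 2 * c ≤ 0) : beta n r c ≤ betaO n r c1 := by
  rcases le_total 0 (r + 2 * c) with h | h
  · exact beta_out_le hn hr h h1 (h4.elim id fun _ => by linarith) h3
  · exact (beta_in_le hn hr h0 (c1 := -r / 2) (by linarith) (by linarith)).trans
      (beta_out_le hn hr (by linarith) h1 (by linarith) (by linarith))

lemma LO_le (hr : 0 < r) (hc : c ^ 2 < 1) (hs : 0 < s) :
    LO r c s ≤ (1 - c) * (r * s / Do r c s) * (1 - (1 - c) * Wf r s) := by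
  have d := Do_pos hr hc s
  have e := Do_eq (c := c) hr hs
  have z0 : 0 < (r + s) ^ 2 / Do r c s := by positivity
  have z1 := Real.self_le_sinh_iff.2 (Real.log_nonneg ((one_le_div d).2 (show _ ≤ (r + s) ^ 2 by
    unfold Do; nlinarith [mul_pos hr hs, mul_pos (mul_pos hr hs) (show 0 < 1 - c by nlinarith)])))
  rw [Real.sinh_log z0, Real.log_div (by positivity) d.ne', Real.log_pow] at z1
  refine le_trans (b := ((r + s) ^ 2 / Do r c s - ((r + s) ^ 2 / Do r c s)⁻¹) / 4)
    (by rw [LO]; push_cast at z1; linarith) (le_of_eq ?_)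
  unfold Wf
  field_simp
  unfold Do
  ring

theorem betaO_tail (hn : 2 ≤ n) (hr : 0 < r) (h0 : -1 < c) (h1 : c < 1)
    (h : 1 / 2 ≤ c ∨ 9 / 2 ≤ r) : betaO n r c ≤ 0 := by
  have key : ∀ c : ℝ, c ^ 2 < 1 → (∀ s ∈ Ioo (0 : ℝ) 1, (1 + s / 2) * ((1 - c) *
      (1 - (1 - c) * Wf r s)) - c * (1 - s) ≤ Do r c s / (r + s)) → betaO n r c ≤ 0 := by
    intro c hc H
    have c1 := LO_cont hr hc
    have c2 := T_cont hr hc
    have c3 := b_cont hr
    rw [betaO_eq hn hr hc, ← mu_const hn 0]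
    refine mu_mono hn (by simp only [mul_div_assoc r]; fun_prop) continuousOn_const fun s hs => ?_
    have s0 := hs.1
    have d := Do_pos hr hc s
    have g := gam_bd hn
    have e : (2 : ℝ) / n = 2 * (1 / n) := by ring
    have a1 : (0 : ℝ) ≤ 1 - 2 / n + (1 + 1 / n) / 2 * s := by nlinarith
    have a2 : 1 - 2 / n + (1 + 1 / n) / 2 * s ≤ 1 + s / 2 := by nlinarith [hs.2]
    have a3 : 0 ≤ (1 - c) * (r * s / Do r c s) * (1 - (1 - c) * Wf r s) := by
      have := X_le hr (c := c) (by nlinarith) le_rfl s hs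
      exact mul_nonneg (mul_nonneg (by nlinarith) (by positivity)) (by nlinarith)
    have a4 := mul_le_mul_of_nonneg_left (H s hs) (by positivity : 0 ≤ r * s / Do r c s)
    have a5 : r * s / Do r c s * (Do r c s / (r + s)) = r * s / (r + s) := by field_simp
    have a6 := (mul_le_mul_of_nonneg_left (LO_le hr hc s0) a1).trans
      (mul_le_mul_of_nonneg_right a2 a3)
    rw [mul_assoc (1 - s), mul_div_assoc (1 - s)]
    linarith
  rcases h with h | h
  · refine (betaO_anti hn hr (by norm_num) h h1).trans (key _ (by norm_num) fun s hs => ?_)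
    have := W_pos hr hs.1
    have := hs.1
    refine le_trans (b := 3 / 4 * s) (by nlinarith) ?_
    rw [le_div_iff₀ (by positivity), Do]
    nlinarith
  · refine key c (by nlinarith) fun s hs => ?_
    have s0 := hs.1
    have s1 := hs.2
    have w0 := W_pos hr s0
    have w1 : Wf r s ≤ 1 / 4 := by linarith [X_le hr (c := 0) zero_le_one le_rfl s hs]
    have e : Do r c s / (r + s) = r + s - 2 * (1 - c) * ((r + s) * Wf r s) := by
      rw [Do_eq hr s0]; field_simp
    have f : 3 + 4 * ((r + s) * Wf r s) - (4 + 2 * s) * Wf r s ≤ r + s := by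
      rw [← sub_nonneg, show r + s - (3 + 4 * ((r + s) * Wf r s) - (4 + 2 * s) * Wf r s) =
        ((r + s) ^ 3 - 3 * (r + s) ^ 2 - (4 * r + 2 * s - 4) * s * r) / (r + s) ^ 2 by
          unfold Wf; field_simp; ring]
      obtain ⟨x, rfl⟩ : ∃ x, r = 9 / 2 + x := ⟨r - 9 / 2, by ring⟩
      have : 0 ≤ x := by linarith
      refine div_nonneg ?_ (sq_nonneg _)
      nlinarith [mul_nonneg this s0.le, mul_nonneg this (sub_pos.2 s1).le, pow_nonneg this 3,
        mul_nonneg (sq_nonneg x) (sub_pos.2 s1).le, mul_nonneg this (sq_nonneg s), pow_pos s0 3]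
    have t : 0 ≤ 2 - s / 2 + 2 * ((r + s) * Wf r s) - (3 - c) * ((1 + s / 2) * Wf r s) := by
      nlinarith [mul_pos (add_pos hr s0) w0, mul_le_mul (show 3 - c ≤ 4 by linarith)
        (mul_le_mul (show 1 + s / 2 ≤ 3 / 2 by linarith) w1 w0.le (by norm_num)) (by positivity)
        (by norm_num)]
    rw [e]
    nlinarith [mul_nonneg (show 0 ≤ 1 + c by linarith) t]

theorem beta_tail (hn : 2 ≤ n) (hr : 0 < r) (h0 : -1 < c) (h1 : c < 1) (ho : 0 ≤ r + 2 * c)
    (h : 1 / 2 ≤ c ∨ 9 / 2 ≤ r) : beta n r c ≤ 0 :=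
  (beta_out hn hr (by nlinarith) ho).trans_le (betaO_tail hn hr h0 h1 h)

end Pool.Agent.Lib.MP_f225de_an.MA
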