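import Pool.Agent.Lib.MP_f225de_an.PF2
import Pool.Agent.Lib.MP_f225de_an.MD3

set_option autoImplicit false

open MeasureTheory Set Filter Topology
open scoped Real

namespace Pool.Agent.Lib.MP_f225de_an.MA

variable {n : ℕ} {r t : ℝ}

/-- the tabulated function -/
noncomputable def Uf (n : ℕ) (r : ℝ) : ℝ := n * r * (1 - Pf n r) / Pf n r

lemma U_nonneg (hn : 2 ≤ n) (hr : 0 < r) : 0 ≤ Uf n r :=
  div_nonneg (mul_nonneg (by positivity) (sub_nonneg.mpr (P_le hn hr))) (P_pos hn hr).le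

lemma P_U (hn : 2 ≤ n) (hr : 0 < r) : Pf n r = r / (r + 1 / n * Uf n r) := by
  have := P_pos hn hr
  have := U_nonneg hn hr
  rw [eq_div_iff (by positivity), Uf]
  field_simp
  ring

lemma mean_s (hn : 2 ≤ n) (hr : 0 < r) (m : ℝ) :
    ∫ s, (s - m) * (r / (r + s)) ∂mu n = r * (1 - Pf n r) - m * Pf n r := by
  have := mu_lin hn (f := fun _ => 1) continuousOn_const (a_cont hr) r (-(r + m))
  rw [mu_const hn, ← Pf] at this
  refine (mu_congr fun s hs => ?_).trans (this.trans (by ring))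
  have := (add_pos hr hs.1).ne'
  field_simp
  ring

theorem U_mono (hn : 2 ≤ n) (hr : 0 < r) (h : r ≤ t) : Uf n r ≤ Uf n t := by
  have ht := hr.trans_le h
  have p := P_pos hn hr
  obtain ⟨m, hm⟩ : ∃ m, m = r * (1 - Pf n r) / Pf n r := ⟨_, rfl⟩
  have m0 : 0 ≤ m := hm ▸ div_nonneg (mul_nonneg hr.le (sub_nonneg.mpr (P_le hn hr))) p.le
  have := mu_mono hn (f := fun s => t * (r + m) / (r * (t + m)) * ((s - m) * (r / (r + s))))
    (g := fun s => (s - m) * (t / (t + s))) (by have := a_cont hr; fun_prop)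
    (by have := a_cont ht; fun_prop) fun s hs => by
      have := hs.1
      rw [← sub_nonneg]
      convert (by have := sub_nonneg.mpr h; positivity :
        0 ≤ t * (t - r) * (s - m) ^ 2 / ((t + s) * (r + s) * (t + m))) using 1
      field_simp
      ring
  rw [integral_const_mul, mean_s hn hr, mean_s hn ht, hm, div_mul_cancel₀ _ p.ne', sub_self, mul_zero,
    sub_nonneg, ← le_div_iff₀ (P_pos hn ht)] at this
  rw [Uf, Uf, mul_assoc, mul_assoc, mul_div_assoc (n : ℝ), mul_div_assoc (n : ℝ)]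
  exact mul_le_mul_of_nonneg_left this n.cast_nonneg

/-- decomposition used for all bounds on `U` -/
lemma mx_cheb (hn : 2 ≤ n) (hr : 0 < r) (k : ℕ) :
    n * (mx n k 1 r - mx n (k + 1) 1 r) ≤ mx n k 1 r / (k + (1 + 1 / n) / 2) := by
  have n0 : (0 : ℝ) < n := by positivity
  obtain ⟨m, hm⟩ : ∃ m : ℝ, m = 1 / n / (k + (1 + 1 / n) / 2) := ⟨_, rfl⟩
  have m0 : 0 < m := by rw [hm]; positivity
  have c : ∀ j : ℕ, ContinuousOn (fun s => (1 - s) ^ j * (r / (r + s)) ^ 1) (Icc 0 1) := fun j =>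
    ContinuousOn.mul (by fun_prop) ((a_cont hr).pow 1)
  have := mu_mono hn
    (f := fun s => (1 - m) * ((1 - s) ^ k * (r / (r + s)) ^ 1) + -1 * ((1 - s) ^ (k + 1) * (r / (r + s)) ^ 1))
    (g := fun s => r / (r + m) * (1 - m) * (1 - s) ^ k + -(r / (r + m)) * (1 - s) ^ (k + 1))
    ((continuousOn_const.mul (c _)).add (continuousOn_const.mul (c _))) (by fun_prop) fun s hs => by
      have := hs.1
      have := pow_nonneg (sub_pos.mpr hs.2).le k
      rw [← sub_nonneg]
      convert (by positivity : 0 ≤ (1 - s) ^ k * r * (s - m) ^ 2 / ((r + s) * (r + m))) using 1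
      field_simp
      ring
  rw [mu_lin hn (c _) (c _), mu_lin hn (by fun_prop) (by fun_prop), ← mx, ← mx, ← xm, ← xm] at this
  have e : xm n (k + 1) = (1 - m) * xm n k := by
    have := xm_rec hn k
    rw [hm]
    field_simp at this ⊢
    linear_combination this
  have e2 : mx n k 1 r / (k + (1 + 1 / n) / 2) = n * (m * mx n k 1 r) := by
    rw [hm]
    field_simp
  rw [e2]
  exact mul_le_mul_of_nonneg_left (by rw [e] at this; linarith) n0.le

lemma U_mx (hn : 2 ≤ n) (hr : 0 < r) : Uf n r * Pf n r = n * (mx n 0 1 r - mx n 1 1 r) := by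
  have := mx_step hn hr 0
  rw [mx_P, xm_zero hn] at *
  rw [Uf, div_mul_cancel₀ _ (P_pos hn hr).ne']
  linear_combination (-n : ℝ) * this

theorem U_le (hn : 2 ≤ n) (hr : 0 < r) : Uf n r ≤ 1 / ((1 + 1 / n) / 2) := by
  have := mx_cheb hn hr 0
  rw [← U_mx hn hr, mx_P, Nat.cast_zero, zero_add, ← one_div_mul_eq_div] at this
  exact le_of_mul_le_mul_right this (P_pos hn hr)

/-- first normalised moment -/
noncomputable def v1 (g u : ℝ) : ℝ := 1 + (1 - g) / 2 * u

/-- second normalised moment -/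
noncomputable def v2 (g τ u : ℝ) : ℝ := 1 / 2 + ((3 - g) / 2 * τ - g * (1 - τ)) / 2 * v1 g u

/-- third normalised moment -/
noncomputable def v3 (g τ u : ℝ) : ℝ :=
  (1 - g * (1 - τ) * v1 g u) / 3 + ((5 - g) / 2 * τ - g * (1 - τ)) / 3 * v2 g τ u

theorem K_U (hn : 2 ≤ n) (hr : 0 < r) :
    n * Kf n r = Pf n r * ((1 - r / (1 + r)) * v1 (1 / n) (Uf n r)) := by
  have := P_pos hn hr
  rw [K_eq hn hr, v1, Uf]
  field_simp
  ring

theorem M_U (hn : 2 ≤ n) (hr : 0 < r) :
    n * Ms n r = Pf n r * (Uf n r - r / (1 + r) * v1 (1 / n) (Uf n r)) ∧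
    n * Mz n r = Pf n r * (4 * (1 - r / (1 + r)) *
      (v2 (1 / n) (r / (1 + r)) (Uf n r) - v3 (1 / n) (r / (1 + r)) (Uf n r))) ∧
    n * Msz n r = Pf n r * (4 * (r / (1 + r)) * (v1 (1 / n) (Uf n r) -
      2 * v2 (1 / n) (r / (1 + r)) (Uf n r) + v3 (1 / n) (r / (1 + r)) (Uf n r))) := by
  have := P_pos hn hr
  have h2 := bm_rec hn hr 0
  have h3 := bm_rec hn hr 1
  have h4 := bm_rec hn hr 2
  rw [mul_comm, ← eq_div_iff (by positivity)] at h2 h3 h4
  norm_num only [bm_zero hn, bm_one hn hr, Nat.cast_ofNat, Nat.cast_one, Nat.cast_zero] at h2 h3 h4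
  rw [Ms_bm hn hr, Mz_bm hn hr, Msz_bm hn hr, h4, h3, h2, v3, v2, v1, Uf]
  refine ⟨?_, ?_, ?_⟩ <;> field_simp <;> ring

theorem rK_mono (hn : 2 ≤ n) (hr : 0 < r) (h : r ≤ t) : r * Kf n r ≤ t * Kf n t := by
  have ht := hr.trans_le h
  rw [Kf, Kf, ← integral_const_mul, ← integral_const_mul]
  refine mu_mono hn (continuousOn_const.mul (W_cont hr)) (continuousOn_const.mul (W_cont ht))
    fun s hs => ?_
  have := hs.1
  have e : ∀ x : ℝ, x * (s * x / (x + s) ^ 2) = s * (x / (x + s)) ^ 2 := fun x => by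
    rw [div_pow]
    ring
  rw [e, e]
  gcongr s * ?_ ^ 2
  rw [div_le_div_iff₀ (by positivity) (by positivity)]
  nlinarith

theorem K_div_anti (hn : 2 ≤ n) (hr : 0 < r) (h : r ≤ t) : r * Kf n t ≤ t * Kf n r := by
  have ht := hr.trans_le h
  rw [Kf, Kf, ← integral_const_mul, ← integral_const_mul]
  refine mu_mono hn (continuousOn_const.mul (W_cont ht)) (continuousOn_const.mul (W_cont hr))
    fun s hs => ?_
  have := hs.1
  rw [← mul_div_assoc, ← mul_div_assoc, show r * (s * t) = t * (s * r) by ring]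
  gcongr

/-- concavity of `P` -/
theorem P_tan (hn : 2 ≤ n) (hr : 0 < r) (ht : 0 < t) : Pf n t ≤ Pf n r + Kf n r * (t / r - 1) := by
  have := mu_lin hn (a_cont hr) (W_cont hr) 1 (t / r - 1)
  rw [one_mul, mul_comm (t / r - 1)] at this
  refine (mu_mono hn (a_cont ht) (by have := a_cont hr; have := W_cont hr; fun_prop)
    fun s hs => ?_).trans_eq this
  have := hs.1
  rw [← sub_nonneg, Wf]
  convert (by positivity : 0 ≤ s * (t - r) ^ 2 / ((r + s) ^ 2 * (t + s))) using 1
  field_simp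
  ring

theorem P_ratio (hn : 2 ≤ n) (hr : 0 < r) (h : r ≤ t) {a : ℝ} (ha : n * Kf n r ≤ a * Pf n r) :
    Pf n t ≤ Pf n r * (1 + 1 / n * a * (t / r - 1)) := by
  have n0 : (0 : ℝ) < n := by positivity
  have := mul_le_mul_of_nonneg_right ((le_div_iff₀' n0).mpr ha)
    (sub_nonneg.mpr ((one_le_div hr).mpr h))
  exact (P_tan hn hr (hr.trans_le h)).trans ((add_le_add_right this _).trans_eq (by ring))

theorem K_dy (hn : 2 ≤ n) (y : ℝ) : HasDerivAt (fun y => Kf n (Real.exp y))
    (((1 + 1 / n - (1 - 1 / n) / 2 * Real.exp y) * Kf n (Real.exp y) - 1 / n * Pf n (Real.exp y)) /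
      (1 + Real.exp y)) y := by
  have E := Real.hasDerivAt_exp y
  have := (((P_der hn y).const_mul (1 / n : ℝ)).add ((E.const_mul ((1 - 1 / n) / 2 : ℝ)).mul
    ((P_der hn y).const_sub 1))).div (E.const_add 1) (by positivity)
  refine (this.congr_deriv ?_).congr_of_eventuallyEq (.of_forall fun x => K_eq hn (Real.exp_pos x))
  simp only [Pi.add_apply, Pi.mul_apply]
  have := K_ode hn (Real.exp_pos y)
  rw [div_eq_div_iff (by positivity) (by positivity)]
  linear_combination (-(1 + Real.exp y)) * this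

lemma al_84 (hn : 4 ≤ n) (hr : 0 < r) : (1 + 1 / n - 1 / 3) * Kf n r ≤ 1 / n * Pf n r := by
  have p := P_pos (by omega : 2 ≤ n) hr
  have k := K_pos (by omega : 2 ≤ n) hr
  obtain rfl | h : n = 4 ∨ 5 ≤ n := by omega
  · have := al_four hr
    push_cast
    linarith
  · have a := al_le hn hr
    have h5 : (5 : ℝ) ≤ n := by exact_mod_cast h
    have : (1 : ℝ) / n ≤ 1 / 5 := by gcongr
    rw [one_div_mul_eq_div, le_div_iff₀' (by positivity)]
    nlinarith [mul_pos (show (0 : ℝ) < n by linarith) k]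

theorem K_third (hn : 4 ≤ n) (hr : 0 < r) (h : r ≤ t) : Kf n t ≤ Kf n r * (t / r) ^ (1 / 3 : ℝ) := by
  have h2 : 2 ≤ n := by omega
  have ht := hr.trans_le h
  have D := fun y => (K_dy h2 y).mul (((hasDerivAt_id' y).const_mul (-(1 / 3))).exp)
  have := antitone_of_hasDerivAt_nonpos D (fun y => ?_) (Real.log_le_log hr h)
  · simp only [Pi.mul_apply, Real.exp_log hr, Real.exp_log ht] at this
    rw [Real.rpow_def_of_pos (by positivity), Real.log_div ht.ne' hr.ne',
      show (Real.log t - Real.log r) * (1 / 3) = -(1 / 3) * Real.log r - -(1 / 3) * Real.log t by ring,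
      Real.exp_sub, ← mul_div_assoc, le_div_iff₀ (Real.exp_pos _)]
    exact this
  · have a := al_84 hn (Real.exp_pos y)
    have b := mul_pos (Real.exp_pos y) (K_pos h2 (Real.exp_pos y))
    have c := gam_bd h2
    beta_reduce
    rw [Pi.zero_apply, mul_one, mul_comm (Real.exp _) (-_), ← mul_assoc, ← add_mul]
    refine mul_nonpos_of_nonpos_of_nonneg ?_ (Real.exp_pos _).le
    rw [mul_neg, add_neg_le_iff_le_add, zero_add, div_le_iff₀ (by positivity)]
    nlinarith

theorem K_anti (hn : 4 ≤ n) (hr : 3 / 5 ≤ r) (h : r ≤ t) : Kf n t ≤ Kf n r := by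
  have h2 : 2 ≤ n := by omega
  have r0 : 0 < r := by linarith
  have := antitoneOn_of_hasDerivWithinAt_nonpos (convex_Ici (Real.log r)) (K_cont h2).continuousOn
    (fun y _ => (K_dy h2 y).hasDerivWithinAt) (fun y hy => ?_) self_mem_Ici
    (Real.log_le_log r0 h) (Real.log_le_log r0 h)
  · simpa only [Real.exp_log r0, Real.exp_log (r0.trans_le h)] using this
  have a := hr.trans ((Real.log_le_iff_le_exp r0).mp (interior_subset hy))
  refine div_nonpos_of_nonpos_of_nonneg ?_ (by positivity)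
  generalize Real.exp y = x at a
  have x0 : 0 < x := by linarith
  have k := K_U h2 x0
  have p := P_pos h2 x0
  have n0 : (0 : ℝ) < n := by positivity
  rw [sub_nonpos, one_div_mul_eq_div, le_div_iff₀' n0, mul_left_comm, k, mul_left_comm]
  refine mul_le_of_le_one_right p.le ?_
  rw [v1, show 1 - x / (1 + x) = 1 / (1 + x) by field_simp; ring, one_div_mul_eq_div,
    ← mul_div_assoc, div_le_one (by positivity)]
  have u := U_le h2 x0
  have u0 := U_nonneg h2 x0
  obtain rfl | h : n = 4 ∨ 5 ≤ n := by omega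
  · rcases le_total x (5 / 8) with b | b
    · have := P_lo (n := 4) (p := 5) (q := 8) (by norm_num) (by norm_num) (by norm_num) 20 1000
      have h : (1740 : ℝ) ≤ plo 4 5 8 20 0 1000 0 := by
        exact_mod_cast (by decide +kernel : 1740 ≤ plo 4 5 8 20 0 1000 0)
      have c := (U_mono h2 x0 b).trans (show Uf 4 (5 / 8) ≤ 5 / 4 by
        rw [Uf, div_le_iff₀ (P_pos h2 (by norm_num))]
        push_cast at this ⊢
        linarith)
      push_cast
      nlinarith
    · push_cast at u ⊢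
      nlinarith
  · have h5 : (5 : ℝ) ≤ n := by exact_mod_cast h
    have g1 : (1 : ℝ) / n ≤ 1 / 5 := by gcongr
    have g0 : (0 : ℝ) < 1 / n := by positivity
    generalize (1 : ℝ) / n = g at *
    rw [le_div_iff₀ (by positivity)] at u
    have b : 1 + (1 - g) / 2 * Uf n x ≤ 2 / (1 + g) := by
      rw [le_div_iff₀ (by positivity)]
      nlinarith
    rcases le_total (1 + g - (1 - g) / 2 * x) 0 with c | c
    · exact (mul_nonpos_of_nonpos_of_nonneg c (by nlinarith)).trans (by positivity)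
    · refine (mul_le_mul_of_nonneg_left b c).trans ?_
      rw [← mul_div_assoc, div_le_iff₀ (by positivity)]
      nlinarith

theorem K_ratio (hn : 4 ≤ n) (hr : 0 < r) (h : r ≤ t) :
    Kf n t ≤ Kf n r * max 1 ((min t (3 / 5) / r) ^ (1 / 3 : ℝ)) := by
  have k := (K_pos (by omega : 2 ≤ n) hr).le
  rcases le_total r (3 / 5) with a | a
  · refine le_trans ?_ ((K_third hn hr (le_min h a)).trans
      (mul_le_mul_of_nonneg_left (le_max_right _ _) k))
    rcases le_total t (3 / 5) with b | b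
    · rw [min_eq_left b]
    · rw [min_eq_right b]
      exact K_anti hn le_rfl b
  · exact (K_anti hn a h).trans (le_mul_of_one_le_right k (le_max_left _ _))

end Pool.Agent.Lib.MP_f225de_an.MA
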