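import Pool.Agent.Lib.MP_f225de_an.NU3
import Pool.Agent.Lib.MP_f225de_an.IV2
import Pool.Agent.Lib.MP_f225de_an.MD5
import Pool.Agent.Lib.MP_f225de_an.PF3

set_option autoImplicit false

open Set
open scoped Real

namespace Pool.Agent.Lib.MP_f225de_an.Nu

open MA Sk Iv

variable {n : ℕ} {F : ℝ → ℝ} {E : Ev} {x : ℝ} {I : Iv}

/-- the code of zero -/
def cz : ℕ := nat_lit 79228162514264337593543950336

lemma val_cz : val cz = 0 := by norm_num [val, cz]

lemma val_mono {a b : ℕ} (h : a ≤ b) : val a ≤ val b := by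
  have : (a : ℝ) ≤ b := by exact_mod_cast h
  unfold val
  gcongr

lemma mem_le (h : mem x I) : x ≤ val I.h := (mem_iff.1 h).2

/-- the code of a nonnegative upper bound -/
def ub (I : Iv) : ℕ := mx I.h cz

lemma ub_nonneg (I : Iv) : 0 ≤ val (ub I) :=
  val_cz.ge.trans (val_mono (by rw [ub, mx_eq]; exact le_max_right _ _))

lemma le_ub (h : mem x I) : x ≤ val (ub I) :=
  (mem_le h).trans (val_mono (by rw [ub, mx_eq]; exact le_max_left _ _))

/-- backward loop in continuation form -/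
def loop {α : Type} (step : ℕ → α → (α → Bool) → Bool) (fin : α → Bool) (N : ℕ) : α → Bool :=
  Nat.rec fin (fun j ih s => step j s ih) N

theorem loop_ok {α : Type} {step : ℕ → α → (α → Bool) → Bool} {fin : α → Bool}
    {R : ℕ → α → α → Prop} (h : ∀ j s k, step j s k = true → ∃ t, R j s t ∧ k t = true) :
    ∀ N s, loop step fin N s = true →
      ∃ st : ℕ → α, st N = s ∧ (∀ j < N, R j (st (j + 1)) (st j)) ∧ fin (st 0) = true
  | 0, s, e => ⟨fun _ => s, rfl, fun _ h => absurd h (Nat.not_lt_zero _), e⟩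
  | N + 1, s, e => by
    obtain ⟨t, a, b⟩ := h N s _ e
    obtain ⟨st, c, d, f⟩ := loop_ok h N t b
    refine ⟨Function.update st (N + 1) s, by simp, fun j hj => ?_, by simpa using f⟩
    rw [Function.update_of_ne (by omega : j ≠ N + 1)]
    rcases Nat.lt_succ_iff_lt_or_eq.1 hj with l | rfl
    · rw [Function.update_of_ne (by omega)]
      exact d j l
    · rwa [Function.update_self, c]

/-- bounds for the rays of a cell (codes) -/
structure Rc where
  ok : Bool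
  b : ℕ
  v : ℕ
  u : ℕ

/-- rays with positive amplitude -/
def rayP (ok : Bool) (b : ℕ) (p : PhR) : Rc := ⟨ok && p.ok, b, ub p.v, ub p.u⟩

/-- rays with the flux bound `b` -/
def rayB (E : Ev) (r c : Iv) (ok : Bool) (b : ℕ) : Rc :=
  bif Nat.ble b cz then ⟨ok, cz, cz, cz⟩ else rayP ok b (E.ph (pt b) r c)

/-- rays from the result of the evaluator -/
def rayR (E : Ev) (r c : Iv) (e : Res) : Rc := forceN e.v (rayB E r c e.ok)

/-- the rays of a box -/
def rayC (E : Ev) (r c : Iv) : Rc := rayR E r c (E.ray r c)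

/-- what `Rc` certifies at a point -/
def RcOK (n : ℕ) (b v u : ℕ) (r c : ℝ) : Prop := beta n r c ≤ val b * Kf n r ∧
  ph n (val b) r c ≤ val v ∧ val b + val b ^ 2 / (4 * mm r c) ≤ val u

lemma Run.ok.four {R : Run} (h : R.ok n) : 4 ≤ n := h.2.1.trans h.2.2.1

theorem rayC_ok (h : E.ok n F) {r c : Iv} (e : (rayC E r c).ok = true) :
    0 ≤ val (rayC E r c).b ∧ 0 ≤ val (rayC E r c).v ∧ 0 ≤ val (rayC E r c).u ∧
    ∀ x y, 0 < x → -1 < y → y < 1 → mem x r → mem y c →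
      RcOK n (rayC E r c).b (rayC E r c).v (rayC E r c).u x y := by
  have n2 : 2 ≤ n := by have := h.R.four; omega
  rw [rayC, rayR, forceN_eq, rayB] at e ⊢
  cases hb : Nat.ble (E.ray r c).v cz <;> simp only [hb, cond_true, cond_false] at e ⊢
  · simp only [rayP, Bool.and_eq_true] at e ⊢
    have b0 : 0 ≤ val (E.ray r c).v := val_cz.ge.trans (val_mono (le_of_not_ge fun l => by
      rw [Nat.ble_eq_true_of_le l] at hb; exact absurd hb (by simp)))
    refine ⟨b0, ub_nonneg _, ub_nonneg _, fun x y x0 y0 y1 hx hy => ?_⟩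
    obtain ⟨a, b⟩ := h.ph _ r c _ x y b0 x0 y0 y1 (mem_pt _) hx hy e.2
    exact ⟨h.ray r c x y x0 y0 y1 hx hy e.1,
      a.trans (val_mono (by rw [ub, mx_eq]; exact le_max_left _ _)),
      b.trans (val_mono (by rw [ub, mx_eq]; exact le_max_left _ _))⟩
  · refine ⟨val_cz.ge, val_cz.ge, val_cz.ge, fun x y x0 y0 y1 hx hy => ⟨?_, ?_, ?_⟩⟩
    · exact (h.ray r c x y x0 y0 y1 hx hy e).trans (mul_le_mul_of_nonneg_right
        (val_mono (Nat.le_of_ble_eq_true hb)) (K_pos n2 x0).le)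
    · simp [val_cz, ph]
    · simp [val_cz]

/-- result of an outer cell (codes) -/
structure Oc where
  ok : Bool
  b : ℕ
  v : ℕ
  u : ℕ
  c1 : ℕ
  c2 : ℕ
  g1 : ℕ
  g2 : ℕ

/-- a cell of rays -/
def ocR (R : Rc) : Oc := ⟨R.ok, R.b, R.v, R.u, cz, cz, cz, cz⟩

/-- a cell with gain -/
def ocG (G : Geo) (ok : Bool) (g : GnR) : Oc :=
  forceN g.g1 fun g1 => forceN g.g2 fun g2 =>
    ⟨ok && g.ok && nonneg (add G.r (mulN (nat_lit 2) G.cs)), cz, cz, cz, g.c1, g.c2, g1, g2⟩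

/-- a cell with gain from the result of the evaluator -/
def ocE (E : Ev) (G : Geo) (e : Res) : Oc := forceN e.v fun b => ocG G e.ok (E.gain G b)

/-- an outer cell -/
def oc (E : Ev) (G : Geo) (ray : Bool) : Oc :=
  bif ray then ocR (rayC E G.r G.cs) else ocE E G (E.out G.r G.cs)

lemma Geo.ok.pt {G : Geo} {l σ a : ℝ} (h : G.ok l σ a) : 0 < rt σ a ∧ -1 < Real.cos (σ + a) ∧
    Real.cos (σ + a) < 1 ∧ mem (rt σ a) G.r ∧ mem (Real.cos (σ + a)) G.cs := by
  obtain ⟨-, s0, a0, h1, -, hr, -, -, -, p, -, p1, -, -, -, -, hp⟩ := h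
  have := abs_lt.1 ((sq_lt_one_iff_abs_lt_one _).1 (cos_sq_lt (ψ := σ + a) ⟨by linarith, h1⟩))
  exact ⟨div_pos (Real.sin_pos_of_pos_of_lt_pi s0 (by linarith))
    (Real.sin_pos_of_pos_of_lt_pi a0 (by linarith)), this.1, this.2, hr, (hp _ ⟨p1, le_rfl⟩).2⟩

theorem oc_ray (h : E.ok n F) {G : Geo} (e : (oc E G true).ok = true) :
    0 ≤ val (oc E G true).b ∧ 0 ≤ val (oc E G true).v ∧ 0 ≤ val (oc E G true).u ∧
    (oc E G true).g1 = cz ∧ (oc E G true).g2 = cz ∧ ∀ l σ a, G.ok l σ a →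
      RcOK n (oc E G true).b (oc E G true).v (oc E G true).u (rt σ a) (Real.cos (σ + a)) := by
  obtain ⟨a, b, c, d⟩ := rayC_ok h (r := G.r) (c := G.cs) e
  refine ⟨a, b, c, rfl, rfl, fun l σ x hx => ?_⟩
  obtain ⟨p1, p2, p3, p4, p5⟩ := hx.pt
  exact d _ _ p1 p2 p3 p4 p5

theorem oc_gain (h : E.ok n F) {G : Geo} (e : (oc E G false).ok = true) :
    0 ≤ val (oc E G false).c1 ∧ 0 ≤ val (oc E G false).c2 ∧ 0 ≤ val (oc E G false).g1 ∧
    val (oc E G false).g2 ≤ 0 ∧ (oc E G false).v = cz ∧ (oc E G false).u = cz ∧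
    ∀ l σ a, G.ok l σ a → l * val (oc E G false).g1 ≤ 1 / 4 ∧
      GainOK n σ a (l * val (oc E G false).c1) (l * val (oc E G false).c2)
        (l * val (oc E G false).g1) (l * val (oc E G false).g2) := by
  simp only [oc, cond_false, ocE, ocG, forceN_eq, Bool.and_eq_true] at e ⊢
  obtain ⟨a, b, c, d, f⟩ := h.gain G _ e.1.2
  refine ⟨a, b, c, d, trivial, trivial, fun l σ x hx => ?_⟩
  obtain ⟨p1, p2, p3, p4, p5⟩ := hx.pt
  have o := (p4.add (p5.mulN 2)).nonneg e.2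
  exact f l σ x hx o (h.out _ _ _ _ p1 p2 p3 o p4 p5 e.1.1)

/-- a level cell from the table entry -/
def lvK (E : Ev) (r : Iv) (k : Lk) : Lv := force (E.al r k.s) fun a => ⟨r, a, k⟩

/-- a level cell -/
def lvl (E : Ev) (r : Iv) : Lv := lvK E r (E.look r)

theorem lvl_ok (h : E.ok n F) (x0 : 0 < x) (hx : mem x I) : (lvl E I).ok n F x := by
  obtain ⟨a, b, c, d, e⟩ := h.look I x x0 hx
  rw [lvl, lvK, force_eq]
  exact ⟨x0, hx, h.al _ _ _ x0 hx a, b, c, d, e⟩

lemma K_ar (hn : 2 ≤ n) (hr : 0 < x) : Kf n x = ar n x * Pf n x / n := by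
  have := (P_pos hn hr).ne'
  have : (n : ℝ) ≠ 0 := by positivity
  rw [ar]
  field_simp

lemma ar_pos (hn : 2 ≤ n) (hr : 0 < x) : 0 < ar n x :=
  div_pos (mul_pos (by positivity) (K_pos hn hr)) (P_pos hn hr)

/-- the zero field on the unbounded cell -/
theorem gain_tail (hn : 2 ≤ n) {σ a : ℝ} (s0 : 0 < σ) (a0 : 0 < a) (h1 : σ + a < π)
    (ho : 0 ≤ rt σ a + 2 * Real.cos (σ + a))
    (h : 1 / 2 ≤ Real.cos (σ + a) ∨ 9 / 2 ≤ rt σ a) : GainOK n σ a 0 0 0 0 := by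
  have c := abs_lt.1 ((sq_lt_one_iff_abs_lt_one _).1 (cos_sq_lt (ψ := σ + a) ⟨by linarith, h1⟩))
  have sa := Real.sin_pos_of_pos_of_lt_pi a0 (by linarith)
  have := beta_tail hn (div_pos (Real.sin_pos_of_pos_of_lt_pi s0 (by linarith)) sa) c.1 c.2 ho h
  refine ⟨ho, ?_, fun ψ _ => by simp [XX], by simp [G1, M1], by simp [G1, G2, M1, M2]⟩
  simpa [rt] using mul_nonpos_of_nonpos_of_nonneg this sa.le

lemma Pr.f_anti {p : Pr} (h : p.ok) {r t : ℝ} (r0 : 0 < r) (e : r ≤ t) : p.f t ≤ p.f r :=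
  min_le_min_left _ (add_le_add_right (div_le_div_of_nonneg_left h.2.2.1
    (add_pos r0 h.2.2.2) (by linarith)) _)

lemma ShF_anti {p q : Pr} (hp : p.ok) (hq : q.ok) {s y z : ℝ} (s0 : 0 ≤ s) (e : y ≤ z) :
    ShF n p q s z ≤ ShF n p q s y :=
  div_le_div_of_nonneg_right (min_le_min
    (mul_le_mul_of_nonneg_left (Pr.f_anti hp (Real.exp_pos y) (Real.exp_le_exp.2 e)) s0)
    (Pr.f_anti hq (Real.exp_pos y) (Real.exp_le_exp.2 e))) n.cast_nonneg

/-- telescoping of a backward accumulation -/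
lemma sum_back {N : ℕ} {w A : ℕ → ℝ} (h : ∀ j < N, w j + A (j + 1) ≤ A j) :
    ∑ j ∈ Finset.range N, w j + A N ≤ A 0 := by
  induction N with
  | zero => simp
  | succ N ih =>
    have := ih fun j hj => h j (by omega)
    rw [Finset.sum_range_succ]
    linarith [h N N.lt_succ_self]

end Pool.Agent.Lib.MP_f225de_an.Nu
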