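import Pool.Agent.Lib.MP_f225de_an.CK1

set_option autoImplicit false

open Set
open scoped Real

namespace Pool.Agent.Lib.MP_f225de_an.Nu

open MA Sk Iv

/-- geometry of a cell of an obtuse angle -/
structure GB where
  ok : Bool
  G : Geo
  dx : Iv

/-- denominator of `rB` -/
def denB (x t : Iv) : Iv := mulL t (Iv.rho (nat_lit 1) (nat_lit 3) (mulP x t))

/-- enclosure of `sin x / sin (x t)` from its denominator -/
def rB (x d : Iv) : Iv := divP (Iv.rho (nat_lit 1) (nat_lit 3) x) d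

/-- assembly of `GB` -/
def geoB2 (w ss q st ct x d0 d1 : Iv) (d : ℕ) : GB :=
  force (raise (nat_lit 18446744073709551616) (span (rB (pt w.h) d0) (rB x d1))) fun r =>
  force (neg (Iv.cos (nat_lit 3) q)) fun cs =>
    ⟨pos d0 && pos d1 && lt (pt w.h) pi && le (pt q.h) pi, ⟨w, r, ss, st, ct, sub pi (pt q.h),
      sin0 (nat_lit 3) (pt q.h), neg (Iv.cos (nat_lit 3) (pt q.h)), sub (pt q.h) q,
      Iv.sin (nat_lit 3) q, cs⟩, mulP (ofS d d) (divP ct ss)⟩

/-- geometry for `π - σ` in `w` and `a / (π - σ)` between `ta` and `tb` -/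
def geoB (w ss : Iv) (ta tb : ℕ) : GB :=
  force (mulP w (ofS ta tb)) fun a => force (mulP w (sub one (ofS ta tb))) fun q =>
    geoB2 w ss q (mulL (ofS ta tb) (Iv.rho (nat_lit 1) (nat_lit 3) a)) (Iv.cos (nat_lit 3) a)
      (ofS (nm w.l) (nm w.l)) (denB (pt w.h) (ofS tb tb)) (denB (ofS (nm w.l) (nm w.l)) (ofS ta ta))
      (Nat.sub tb ta)

lemma mono_der {f f1 : ℝ → ℝ} {x y : ℝ} (h : x ≤ y) (hf : ∀ z ∈ Icc x y, HasDerivAt f (f1 z) z)
    (h0 : ∀ z ∈ Icc x y, 0 ≤ f1 z) : f x ≤ f y :=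
  monotoneOn_of_deriv_nonneg (convex_Icc x y)
    (fun z hz => (hf z hz).continuousAt.continuousWithinAt)
    (fun z hz => (hf z (interior_subset hz)).differentiableAt.differentiableWithinAt)
    (fun z hz => (hf z (interior_subset hz)).deriv ▸ h0 z (interior_subset hz))
    (left_mem_Icc.2 h) (right_mem_Icc.2 h) h

lemma sin_ratio {t x y : ℝ} (t0 : 0 < t) (t1 : t ≤ 1) (x0 : 0 < x) (h : x ≤ y) (y1 : y < π) :
    Real.sin (x * t) / Real.sin x ≤ Real.sin (y * t) / Real.sin y := by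
  have s := Real.hasDerivAt_sin
  have c := Real.hasDerivAt_cos
  have m := fun z : ℝ => (hasDerivAt_id' z).mul_const t
  refine mono_der (f := fun z => Real.sin (z * t) / Real.sin z) h (fun z hz => (m z).sin.div (s z)
    (Real.sin_pos_of_pos_of_lt_pi (x0.trans_le hz.1) (hz.2.trans_lt y1)).ne') fun z hz =>
    div_nonneg ?_ (sq_nonneg _)
  have := mono_der (f := fun u => Real.cos (u * t) * (1 * t) * Real.sin u -
      Real.sin (u * t) * Real.cos u) (f1 := fun u => (1 - t ^ 2) * (Real.sin (u * t) * Real.sin u))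
    (x0.le.trans hz.1) (fun u _ => ((((m u).cos.mul_const _).mul (s u)).sub
      ((m u).sin.mul (c u))).congr_deriv (by ring)) fun u hu => by
      have u1 : u < π := (hu.2.trans hz.2).trans_lt y1
      exact mul_nonneg (by nlinarith) (mul_nonneg (Real.sin_nonneg_of_nonneg_of_le_pi
        (mul_nonneg hu.1 t0.le) (by nlinarith [hu.1])) (Real.sin_nonneg_of_nonneg_of_le_pi hu.1 u1.le))
  simpa using this

lemma a0_B {σ : ℝ} (h : π / 2 < σ) : a0 σ = π - σ := min_eq_right (by linarith)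

lemma tl_B {σ : ℝ} (h : π / 2 < σ) : tl σ = 1 := if_neg h.not_ge

lemma a0_A {σ : ℝ} (h : σ ≤ π / 2) : a0 σ = π / 2 := min_eq_left (by linarith)

lemma tl_A {σ : ℝ} (h : σ ≤ π / 2) : tl σ = Real.sin σ := if_pos h

lemma xt_A {σ : ℝ} (h : σ ≤ π / 2) (a : ℝ) : xt σ a = Real.sin a := by simp [xt, a0_A h]

lemma rh_pos {x : ℝ} (h0 : 0 < x) (h1 : x < π) : 0 < rh 1 x :=
  (pos_iff_pos_of_mul_pos (sin_rh x ▸ Real.sin_pos_of_pos_of_lt_pi h0 h1)).1 h0

lemma node_lt {a b : ℕ} (h : a < b) {w : ℝ} (h0 : 0 < w) :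
    w * (a / 2 ^ 64 : ℝ) < w * (b / 2 ^ 64 : ℝ) :=
  mul_lt_mul_of_pos_left (div_lt_div_of_pos_right (Nat.cast_lt.2 h) (by positivity)) h0

lemma mem_node {a b : ℕ} {w x : ℝ} (h0 : 0 < w)
    (h : x ∈ Icc (w * (a / 2 ^ 64 : ℝ)) (w * (b / 2 ^ 64 : ℝ))) : mem (x / w) (ofS a b) := mem_ofS
  (by rw [← div_le_iff₀' (by positivity), le_div_iff₀' h0]; exact h.1)
  (by rw [← le_div_iff₀' (by positivity), div_le_iff₀' h0]; exact h.2)

lemma node_le {b : ℕ} (h : (b : ℝ) ≤ 2 ^ 64) {w : ℝ} (h0 : 0 ≤ w) : w * (b / 2 ^ 64 : ℝ) ≤ w :=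
  mul_le_of_le_one_right h0 (div_le_one_of_le₀ h (by positivity))

lemma sin_mono {x y : ℝ} (h0 : 0 ≤ x) (h : x ≤ y) (h1 : y ≤ π / 2) : Real.sin x ≤ Real.sin y :=
  Real.sin_le_sin_of_le_of_le_pi_div_two (by linarith [Real.pi_pos]) h1 h

lemma rh_ratio {t x y : ℝ} (t0 : 0 < t) (t1 : t ≤ 1) (x0 : 0 ≤ x) (h : x ≤ y) (y0 : 0 < y)
    (y1 : y < π) : rh 1 y / (t * rh 1 (y * t)) ≤ rh 1 x / (t * rh 1 (x * t)) := by
  have e : ∀ z, 0 < z → rh 1 z / (t * rh 1 (z * t)) = (Real.sin (z * t) / Real.sin z)⁻¹ :=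
    fun z z0 => by
      rw [sin_rh, sin_rh z, inv_div, mul_assoc, mul_div_mul_left _ _ z0.ne']
  have sy := Real.sin_pos_of_pos_of_lt_pi y0 y1
  rw [e y y0]
  rcases x0.eq_or_lt with rfl | x0
  · have := strictConcaveOn_sin_Icc.concaveOn.2 ⟨y0.le, y1.le⟩ ⟨le_rfl, Real.pi_pos.le⟩ t0.le
      (sub_nonneg.2 t1) (add_sub_cancel t 1)
    simp only [smul_eq_mul, Real.sin_zero, mul_zero, add_zero] at this
    simp only [rh, zero_mul, if_true, mul_one, one_div]
    exact inv_anti₀ t0 ((le_div_iff₀ sy).2 (mul_comm t y ▸ this))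
  · rw [e x x0]
    exact inv_anti₀ (div_pos (Real.sin_pos_of_pos_of_lt_pi (by positivity) (by nlinarith))
      (Real.sin_pos_of_pos_of_lt_pi x0 (by linarith))) (sin_ratio t0 t1 x0 h y1)

lemma mem_rB {x t : ℝ} {X T : Iv} (x0 : 0 ≤ x) (x1 : x < π) (t0 : 0 ≤ t) (hx : mem x X)
    (ht : mem t T) (e : pos (denB X T) = true) :
    0 < t ∧ mem (rh 1 x / (t * rh 1 (x * t))) (rB X (denB X T)) := by
  have d := ht.mulL t0 ((hx.mulP x0 t0 ht).rho 1 3)
  refine ⟨t0.lt_of_ne fun z => by simpa [← z] using d.pos e, (hx.rho 1 3).divP ?_ d e⟩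
  rcases x0.eq_or_lt with rfl | x0
  · simp [rh]
  · exact (rh_pos x0 x1).le

theorem geoB_ok {w ss : Iv} {ta tb : ℕ} (e : (geoB w ss ta tb).ok = true) (h : ta < tb)
    (h1 : (tb : ℝ) ≤ 2 ^ 64) {σ : ℝ} (s0 : π / 2 < σ) (s1 : σ < π) (hw : mem (π - σ) w)
    (hs : mem (rh 1 (π - σ)) ss) (ps : pos ss = true) :
    mem ((xt σ ((π - σ) * (tb / 2 ^ 64)) - xt σ ((π - σ) * (ta / 2 ^ 64))) / tl σ)
      (geoB w ss ta tb).dx ∧
    ∀ a ∈ Icc ((π - σ) * (ta / 2 ^ 64)) ((π - σ) * (tb / 2 ^ 64)), 0 < a → σ + a < π →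
      (geoB w ss ta tb).G.ok (π - σ) σ a := by
  simp only [geoB, geoB2, force_eq, Bool.and_eq_true] at e ⊢
  have w0 : 0 < π - σ := by linarith
  have p0 := Real.pi_pos
  have hl : (ta : ℝ) < tb := by exact_mod_cast h
  have key : ∀ a ∈ Icc ((π - σ) * (ta / 2 ^ 64)) ((π - σ) * (tb / 2 ^ 64)),
      0 ≤ a ∧ a ≤ π - σ ∧ mem (a / (π - σ)) (ofS ta tb) ∧ mem a (mulP w (ofS ta tb)) := by
    intro a ha
    have a0 : 0 ≤ a := le_trans (by positivity) ha.1
    have t := mem_node w0 ha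
    exact ⟨a0, ha.2.trans (node_le h1 w0.le), t,
      (hw.mulP w0.le (by positivity) t).congr (mul_div_cancel₀ _ w0.ne')⟩
  have sw : Real.sin σ = (π - σ) * rh 1 (π - σ) := by rw [← sin_rh, Real.sin_pi_sub]
  have rp := rh_pos w0 (by linarith)
  constructor
  · obtain ⟨ξ, hξ, e1⟩ := exists_hasDerivAt_eq_slope Real.sin Real.cos
      (node_lt h w0)
      Real.continuous_sin.continuousOn fun x _ => Real.hasDerivAt_sin x
    obtain ⟨k1, k2, -, k4⟩ := key ξ (Ioo_subset_Icc_self hξ)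
    have c0 : 0 ≤ Real.cos ξ := Real.cos_nonneg_of_neg_pi_div_two_le_of_le (by linarith) (by linarith)
    refine ((mem_ofS_self (Nat.sub tb ta)).mulP (by positivity) (by positivity)
      ((k4.cos k1 (by linarith) 3).divP c0 hs ps)).congr ?_
    have : (tb : ℝ) - ta ≠ 0 := by linarith
    rw [tl_B s0, xt, xt, a0_B s0, e1, sin_rh (π - σ), show Nat.sub tb ta = tb - ta from rfl,
      Nat.cast_sub h.le]
    field_simp
  · intro a ha a0 a1
    obtain ⟨k1, k2, k3, k4⟩ := key a ha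
    have sa := Real.sin_pos_of_pos_of_lt_pi a0 (by linarith)
    have st : mem (Real.sin a / (π - σ)) (mulL (ofS ta tb) (Iv.rho 1 3 (mulP w (ofS ta tb)))) :=
      (k3.mulL (by positivity) (k4.rho 1 3)).congr (by rw [sin_rh]; ring)
    have q : mem (π - (σ + a)) (mulP w (sub one (ofS ta tb))) := (hw.mulP w0.le
      (sub_nonneg.2 (div_le_one_of_le₀ k2 w0.le)) (mem_one.sub k3)).congr (by field_simp; ring)
    have q1 := mem_le q
    generalize mulP w (sub one (ofS ta tb)) = Q at *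
    have q2 := (mem_pt Q.h).le mem_pi e.2
    have u1 := (mem_pt w.h).lt mem_pi e.1.2
    have u2 := mem_le hw
    have u3 : (nm w.l : ℝ) / 2 ^ 64 ≤ π - σ := (div_le_iff₀' (by positivity)).2 (hw.1.nm_le w0.le)
    obtain ⟨b0, v0⟩ := mem_rB (w0.le.trans u2) u1 (by positivity) (mem_pt w.h) (mem_ofS_self tb)
      e.1.1.1
    obtain ⟨b1, v1⟩ := mem_rB (by positivity) (by linarith) (by positivity) (mem_ofS_self (nm w.l))
      (mem_ofS_self ta) e.1.1.2
    have b2 : (tb : ℝ) / 2 ^ 64 ≤ 1 := div_le_one_of_le₀ h1 (by positivity)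
    have b3 : (ta : ℝ) / 2 ^ 64 ≤ 1 := div_le_one_of_le₀ (by linarith) (by positivity)
    have er : ∀ t : ℝ, rh 1 (π - σ) / (t * rh 1 ((π - σ) * t)) = rt σ ((π - σ) * t) := fun t => by
      rw [rt, sw, sin_rh ((π - σ) * t), mul_assoc, mul_div_mul_left _ _ w0.ne']
    have ss0 : 0 ≤ Real.sin σ := by rw [sw]; positivity
    refine ⟨w0, by linarith, a0, a1, hw, ?_, hs.congr (by rw [sw]; field_simp), st,
      k4.cos k1 (by linarith) 3, π - val Q.h, by linarith, by linarith, mem_pi.sub (mem_pt _),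
      ((mem_pt _).sin0 (by linarith) 3).congr (Real.sin_pi_sub _).symm,
      ((mem_pt _).cos (by linarith) q2 3).neg.congr (Real.cos_pi_sub _).symm,
      ((mem_pt _).sub q).congr (by ring), fun ψ hψ => ?_⟩
    · refine (v0.span v1 ((rh_ratio b0 b2 w0.le u2 (w0.trans_le u2) u1).trans ((er _).trans_le
        (div_le_div_of_nonneg_left ss0 sa (sin_mono k1 ha.2 (by linarith [node_le h1 w0.le])))))
        (le_trans (div_le_div_of_nonneg_left ss0 (Real.sin_pos_of_pos_of_lt_pi (by positivity)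
          (by linarith [ha.1])) (sin_mono (by positivity) ha.1 (by linarith))) ((er _).ge.trans
          (rh_ratio b1 b3 (by positivity) u3 w0 (by linarith))))).raise ?_
      have : Real.sin a ≤ Real.sin σ := Real.sin_pi_sub σ ▸ sin_mono k1 k2 (by linarith)
      rw [S_eq]
      exact le_mul_of_one_le_right (by positivity) ((one_le_div sa).2 this)
    · have : mem (π - ψ) Q := ⟨q.1.mono (by linarith [hψ.2]) le_rfl, U_iff.2 (by linarith [hψ.1])⟩
      exact ⟨(this.sin (by linarith [hψ.2]) (by linarith [hψ.1]) 3).congr (Real.sin_pi_sub _),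
        (this.cos (by linarith [hψ.2]) (by linarith [hψ.1]) 3).neg.congr
          (by rw [Real.cos_pi_sub, neg_neg])⟩

/-- geometry of a cell of an acute angle -/
structure GA where
  ok : Bool
  G : Geo
  th : Iv
  x0 : Iv
  x1 : Iv
  cx : Iv
  ri : Iv
  ci : Iv
  dx : Iv
  sk : Bool

/-- enclosure of `sin (π / 2 * t / 2^64)` -/
def xs (t : ℕ) : Iv := sin0 (nat_lit 3) (mulP hpi (ofS t t))

lemma mem_xs (t : ℕ) : mem (Real.sin (π / 2 * (t / 2 ^ 64))) (xs t) :=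
  (mem_hpi.mulP (by positivity) (by positivity) (mem_ofS_self t)).sin0 (by positivity) 3

lemma pos_span (I J : Iv) : pos (span I J) = pos I := rfl

/-- assembly of `GA` -/
def geoA2 (sg s th a x0 x1 f p y : Iv) : GA :=
  force (divP s (span x1 x0)) fun r => force (Iv.cos (nat_lit 4) f) fun cs =>
    ⟨pos x1 && nonneg f && pos y, ⟨one, r, s, span x1 x0, Iv.cos (nat_lit 3) a, p,
      Iv.sin (nat_lit 3) p, Iv.cos (nat_lit 4) p, sub f p, Iv.sin (nat_lit 3) f, cs⟩,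
      th, x0, x1, inv y, imin r one, neg (Iv.cos (nat_lit 3) (sub a sg)), divP (sub x0 x1) s,
      le a sg⟩

/-- geometry for `σ` in `sg` and `a / (π / 2)` between `ta` and `tb` -/
def geoA (sg s : Iv) (ta tb : ℕ) : GA :=
  force (mulP hpi (ofS ta tb)) fun a => force (xs tb) fun x0 => force (xs ta) fun x1 =>
  force (add sg a) fun f => force (mulL hpi (Iv.rho (nat_lit 1) (nat_lit 3) a)) fun y =>
    geoA2 sg s (ofS ta tb) a x0 x1 f (neg (pt f.l)) y

lemma cx_eq {a : ℝ} (h0 : 0 < a) : (π / 2 * rh 1 a)⁻¹ = 2 / π * a / Real.sin a := by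
  rw [sin_rh]
  field_simp

theorem geoA_ok {sg s : Iv} {ta tb : ℕ} (e : (geoA sg s ta tb).ok = true) (h : ta < tb)
    (h1 : (tb : ℝ) ≤ 2 ^ 64) {σ : ℝ} (s0 : 0 < σ) (s1 : σ ≤ π / 2) (hw : mem σ sg)
    (hs : mem (Real.sin σ) s) :
    (geoA sg s ta tb).x0 = xs tb ∧ (geoA sg s ta tb).x1 = xs ta ∧ pos (xs ta) = true ∧
    (pos s = true → mem ((Real.sin (π / 2 * (tb / 2 ^ 64)) - Real.sin (π / 2 * (ta / 2 ^ 64))) /
      Real.sin σ) (geoA sg s ta tb).dx) ∧
    ∀ a ∈ Icc (π / 2 * (ta / 2 ^ 64 : ℝ)) (π / 2 * (tb / 2 ^ 64)),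
      mem (rt σ a) (geoA sg s ta tb).G.r ∧ mem (2 / π * a) (geoA sg s ta tb).th ∧
      mem (2 / π * a / Real.sin a) (geoA sg s ta tb).cx ∧
      (σ + a < π → (geoA sg s ta tb).G.ok 1 σ a) ∧ ((geoA sg s ta tb).sk = true → a ≤ σ) ∧
      (σ < a → mem (rt σ a) (geoA sg s ta tb).ri ∧ mem (-Real.cos (a - σ)) (geoA sg s ta tb).ci) := by
  simp only [geoA, geoA2, force_eq, Bool.and_eq_true] at e ⊢
  have p0 := Real.pi_pos
  have hl : (ta : ℝ) < tb := by exact_mod_cast h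
  have b1 := node_le h1 Real.pi_div_two_pos.le
  have x1 := (mem_xs ta).pos e.1.1
  have ss := Real.sin_pos_of_pos_of_lt_pi s0 (by linarith)
  refine ⟨trivial, trivial, e.1.1, fun ps => ((mem_xs tb).sub (mem_xs ta)).divP (sub_nonneg.2
    (sin_mono (by positivity) (node_lt h Real.pi_div_two_pos).le b1)) hs ps, fun a ha => ?_⟩
  have a0' : 0 ≤ a := le_trans (by positivity) ha.1
  have a1 := ha.2.trans b1
  have m1 := sin_mono (by positivity) ha.1 a1
  have a0 : 0 < a := a0'.lt_of_ne fun z => by rw [← z, Real.sin_zero] at m1; linarith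
  have t : mem (2 / π * a) (ofS ta tb) :=
    (mem_node Real.pi_div_two_pos ha).congr (by field_simp)
  have k4 : mem a (mulP hpi (ofS ta tb)) :=
    (mem_hpi.mulP (by positivity) (by positivity) t).congr (by field_simp)
  have st := (mem_xs ta).span (mem_xs tb) m1 (sin_mono a0' ha.2 b1)
  have r : mem (rt σ a) (divP s (span (xs ta) (xs tb))) := hs.divP ss.le st ((pos_span _ _).trans e.1.1)
  refine ⟨r, t, ((mem_hpi.mulL (by positivity) (k4.rho 1 3)).inv e.2).congr (cx_eq a0),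
    fun a2 => ?_, k4.le hw, fun a2 => ⟨(r.imin mem_one).congr (min_eq_left (div_le_one_of_le₀
      (sin_mono s0.le a2.le a1) (by linarith))),
      ((k4.sub hw).cos (by linarith) (by linarith) 3).neg⟩⟩
  have f := hw.add k4
  have f1 := (mem_iff.1 f).1
  generalize add sg (mulP hpi (ofS ta tb)) = Q at *
  have p := (mem_pt Q.l).neg
  have f0 : 0 ≤ -val Q.l := neg_nonneg.2 ((val_mono (Nat.le_of_ble_eq_true e.1.2)).trans val_cz.le)
  refine ⟨one_pos, s0, a0, a2, mem_one, r, hs.congr (div_one _).symm, st.congr (div_one _).symm,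
    k4.cos a0' (by linarith) 3, -val Q.l, f0, f1, p, p.sin f0 (by linarith) 3,
    p.cos f0 (by linarith) 4, f.sub p, fun ψ hψ => ?_⟩
  have : mem ψ Q := ⟨U_iff.2 (neg_le.1 hψ.1), f.2.mono hψ.2 le_rfl⟩
  exact ⟨this.sin (f0.trans hψ.1) (by linarith [hψ.2]) 3, this.cos (f0.trans hψ.1)
    (by linarith [hψ.2]) 4⟩

end Pool.Agent.Lib.MP_f225de_an.Nu
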