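import Pool.Agent.Lib.MP_f225de_an.CK2

set_option autoImplicit false

open Set
open scoped Real

namespace Pool.Agent.Lib.MP_f225de_an.Nu

open MA Sk Iv

variable {n : ℕ} {F : ℝ → ℝ} {E : Ev}

/-- scaled values on the bounded cells -/
noncomputable def gv (l : ℝ) (N : ℕ) (f : ℕ → ℕ) (j : ℕ) : ℝ := if j < N then l * val (f j) else 0

/-- the nodes -/
noncomputable def nd (E : Ev) (w : ℝ) (N j : ℕ) : ℝ :=
  if j ≤ N then w * (E.th j / 2 ^ 64 : ℝ) else 0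

lemma nd_eq {w : ℝ} {N j : ℕ} (h : j ≤ N) : nd E w N j = w * (E.th j / 2 ^ 64 : ℝ) := if_pos h

lemma nd_end (w : ℝ) (N : ℕ) : nd E w N (N + 1) = 0 := if_neg (by omega)

lemma th_anti {N : ℕ} (h : ∀ j < N, E.th (j + 1) < E.th j) {i j : ℕ} (e : i ≤ j) (hj : j ≤ N) :
    E.th j ≤ E.th i := by
  induction j, e using Nat.le_induction with
  | base => exact le_rfl
  | succ j _ ih => exact (h j hj).le.trans (ih (by omega))

lemma th_le (h : E.ok n F) {N : ℕ} (ha : ∀ j < N, E.th (j + 1) < E.th j) {j : ℕ} (hj : j ≤ N) :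
    (E.th j : ℝ) ≤ 2 ^ 64 := by
  exact_mod_cast (th_anti ha (Nat.zero_le j) hj).trans h.th.le

lemma nd_ok (h : E.ok n F) {w : ℝ} (w0 : 0 < w) {N : ℕ} (ha : ∀ j < N, E.th (j + 1) < E.th j)
    (hN : 0 < E.th N) {j : ℕ} (hj : j ≤ N) :
    0 < nd E w N j ∧ nd E w N (j + 1) < nd E w N j ∧ nd E w N j ≤ w ∧ 0 ≤ nd E w N (j + 1) := by
  have p : ∀ i ≤ N, 0 < nd E w N i := fun i hi => by
    have : (0 : ℝ) < E.th i := by exact_mod_cast hN.trans_le (th_anti ha hi le_rfl)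
    rw [nd_eq hi]
    positivity
  refine ⟨p j hj, ?_, (nd_eq hj).trans_le (node_le (th_le h ha hj) w0.le), ?_⟩ <;>
    rcases hj.lt_or_eq with l | rfl
  · rw [nd_eq hj, nd_eq l]
    exact node_lt (ha j l) w0
  · exact (nd_end w j).trans_lt (p j hj)
  · exact (p _ l).le
  · exact (nd_end w j).ge

lemma nd_zero (h : E.ok n F) (w : ℝ) (N : ℕ) : nd E w N 0 = w := by
  rw [nd_eq (Nat.zero_le N), h.th]
  norm_num

lemma nd_sub {w : ℝ} {N j : ℕ} (hj : j < N) (h : E.th (j + 1) < E.th j) :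
    nd E w N j - nd E w N (j + 1) = w * ((Nat.sub (E.th j) (E.th (j + 1)) : ℕ) / 2 ^ 64 : ℝ) := by
  rw [nd_eq hj.le, nd_eq hj, show Nat.sub (E.th j) (E.th (j + 1)) = E.th j - E.th (j + 1) from rfl,
    Nat.cast_sub h.le]
  ring

lemma blt_false {j k : ℕ} (h : k ≤ j) : Nat.blt j k = false := by
  rw [← Bool.not_eq_true, Nat.blt_eq]
  omega

lemma blt_true {j k : ℕ} (h : j < k) : Nat.blt j k = true := by rwa [Nat.blt_eq]

theorem gain_part (h : E.ok n F) {l σ : ℝ} {N j0 : ℕ} {τ : ℕ → ℝ} {G : ℕ → Geo} {O : ℕ → Oc}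
    (l0 : 0 ≤ l) (hO : ∀ j, O j = oc E (G j) (Nat.blt j j0))
    (hG : ∀ j < N, ∀ a ∈ Icc (τ (j + 1)) (τ j), 0 < a → σ + a < π → (G j).ok l σ a)
    (ht : ∀ j < N, 0 < τ (j + 1) ∧ τ (j + 1) ≤ τ j ∧ σ + τ (j + 1) < π)
    (ok : ∀ j < N, (O j).ok = true)
    (tail : ∀ a ∈ Icc (τ (N + 1)) (τ N), 0 < a → σ + a < π → GainOK n σ a 0 0 0 0) :
    ∀ j, j0 ≤ j → j ≤ N → 0 ≤ gv l N (fun j => (O j).c1) j ∧ 0 ≤ gv l N (fun j => (O j).c2) j ∧
      0 ≤ gv l N (fun j => (O j).g1) j ∧ gv l N (fun j => (O j).g1) j ≤ 1 / 4 ∧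
      gv l N (fun j => (O j).g2) j ≤ 0 ∧ ∀ a ∈ Icc (τ (j + 1)) (τ j), 0 < a → σ + a < π →
        GainOK n σ a (gv l N (fun j => (O j).c1) j) (gv l N (fun j => (O j).c2) j)
          (gv l N (fun j => (O j).g1) j) (gv l N (fun j => (O j).g2) j) := by
  intro j h0 h1
  rcases h1.lt_or_eq with hj | rfl
  · have e := ok j hj
    simp only [gv, if_pos hj]
    rw [hO, blt_false h0] at e ⊢
    obtain ⟨a, b, c, d, -, -, f⟩ := oc_gain h e
    obtain ⟨t1, t2, t3⟩ := ht j hj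
    exact ⟨mul_nonneg l0 a, mul_nonneg l0 b, mul_nonneg l0 c,
      (f _ _ _ (hG j hj _ ⟨le_rfl, t2⟩ t1 t3)).1, mul_nonpos_of_nonneg_of_nonpos l0 d,
      fun x hx x0 x1 => (f _ _ _ (hG j hj x hx x0 x1)).2⟩
  · simp only [gv, lt_irrefl, if_false]
    exact ⟨le_rfl, le_rfl, le_rfl, by norm_num, le_rfl, tail⟩

/-- node values of the long potential -/
noncomputable def Lf (n : ℕ) (l c : ℝ) (N : ℕ) (H : ℕ → ℕ) (j : ℕ) : ℝ :=
  lv n l c (val (H (min j N)))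

theorem L_part (h : E.ok n F) {K : CtL} {σ l c : ℝ} {N j1 : ℕ} {τ g1 g2 : ℕ → ℝ} {H : ℕ → ℕ}
    (hK : K.ok σ l) (c0 : 0 ≤ c) (ok : (E.ll K).ok = true) (hN : H N = (E.ll K).v)
    (fr : ∀ j < N, j < j1 → H j = H (j + 1))
    (st : ∀ j < N, j1 ≤ j → ∀ a ∈ Icc (τ (j + 1)) (τ j), 0 < a →
      LOK n (TbF E.t) (ShF n E.p E.q) σ a (l * c / n) (g1 j) (g2 j)
        (lv n l c (val (H (j + 1))) + (lv n l c (val (H j)) - lv n l c (val (H (j + 1)))) /
          (xt σ (τ j) - xt σ (τ (j + 1))) * (xt σ a - xt σ (τ (j + 1))))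
        ((lv n l c (val (H j)) - lv n l c (val (H (j + 1)))) / (xt σ (τ j) - xt σ (τ (j + 1)))))
    (fin : c ≤ val (H 0)) (z1 : g1 N = 0) (z2 : g2 N = 0)
    (ht : ∀ j ≤ N, 0 < τ j ∧ τ (j + 1) ≤ τ j ∧ xt σ (τ (j + 1)) < xt σ (τ j)) :
    (∀ j ≤ j1, Lf n l c N H j = 0) ∧
    (∀ y, (j1 ≤ N → Real.exp y ≤ rt σ (τ j1)) → l * c / n ≤ ShF n E.p E.q (π - σ) y) ∧
    ∀ j, j1 ≤ j → j ≤ N → ∀ a ∈ Icc (τ (j + 1)) (τ j), 0 < a →
      LOK n (TbF E.t) (ShF n E.p E.q) σ a (l * c / n) (g1 j) (g2 j)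
        (itp σ τ (Lf n l c N H) j a) (slp σ τ (Lf n l c N H) j) := by
  obtain ⟨l1, l2⟩ := h.ll K ok
  have l0 := hK.2.2.1.le
  have n0 : (0 : ℝ) ≤ n := n.cast_nonneg
  have e0 : ∀ j ≤ N, j ≤ j1 → H j = H 0 := fun j => by
    induction j with
    | zero => exact fun _ _ => rfl
    | succ j ih => exact fun a b => (fr j a b).symm.trans (ih (by omega) (by omega))
  have A : ∀ j ≤ j1, Lf n l c N H j = 0 := fun j hj => by
    rw [Lf, e0 _ (min_le_right _ _) ((min_le_left _ _).trans hj), lv, min_eq_left fin]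
    simp
  have B : ∀ j, j1 ≤ j → j ≤ N → ∀ a ∈ Icc (τ (j + 1)) (τ j), 0 < a →
      LOK n (TbF E.t) (ShF n E.p E.q) σ a (l * c / n) (g1 j) (g2 j)
        (itp σ τ (Lf n l c N H) j a) (slp σ τ (Lf n l c N H) j) := fun j h0 h1 a ha a0 => by
    rcases h1.lt_or_eq with hj | rfl
    · simp only [itp, slp, Lf, min_eq_left h1, min_eq_left (Nat.succ_le_of_lt hj)]
      exact st j hj h0 a ha a0
    · have e : l * c / n + lv n l c (val (H j)) = l * min c (val (H j)) / n := by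
        rw [lv]
        ring
      simp only [LOK, itp, slp, Lf, min_self, min_eq_right (Nat.le_succ j), sub_self, zero_div,
        zero_mul, add_zero, z1, z2, e]
      rw [hN]
      exact ⟨by simp [RL], div_nonneg (mul_nonneg l0 (le_min c0 l1)) n0,
        (div_le_div_of_nonneg_right (mul_le_mul_of_nonneg_left (min_le_right _ _) l0) n0).trans
          (l2 _ _ _ hK)⟩
  refine ⟨A, fun y hy => ?_, B⟩
  rcases le_or_gt j1 N with e | e
  · obtain ⟨t1, t2, t3⟩ := ht j1 e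
    have := (B j1 le_rfl e _ ⟨t2, le_rfl⟩ t1).2.2
    rw [itp, slp, div_mul_cancel₀ _ (sub_pos.2 t3).ne', add_sub_cancel, A j1 le_rfl, add_zero] at this
    exact this.trans (ShF_anti h.p h.q (sub_nonneg.2 hK.2.1.le)
      ((Real.le_log_iff_exp_le ((Real.exp_pos y).trans_le (hy e))).2 (hy e)))
  · refine le_trans ?_ (l2 _ _ y hK)
    rw [← hN, e0 N le_rfl e.le]
    exact div_le_div_of_nonneg_right (mul_le_mul_of_nonneg_left fin l0) n0

/-- accumulate the product of `d` and `x` -/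
def acm (s : ℕ) (d x : Iv) : ℕ := (add (pt s) (mulL d x)).h

lemma le_acm {s : ℕ} {d x : ℝ} {D X : Iv} (d0 : 0 ≤ d) (hd : mem d D) (hx : mem x X) :
    d * x + val s ≤ val (acm s D X) :=
  (add_comm _ _).trans_le (mem_le ((mem_pt s).add (hd.mulL d0 hx)))

lemma cz_le {a : ℕ} (h : Nat.ble cz a = true) : 0 ≤ val a :=
  val_cz.ge.trans (val_mono (Nat.le_of_ble_eq_true h))

lemma le_cz {a : ℕ} (h : Nat.ble a cz = true) : val a ≤ 0 :=
  (val_mono (Nat.le_of_ble_eq_true h)).trans val_cz.le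

/-- the constant of the condition `cap` -/
def capI (four : Bool) : Iv := bif four then ofN (nat_lit 3) else ofQ (nat_lit 3) (nat_lit 4)

lemma cap_ok {R : Run} (h : R.ok n) : ∃ k : ℝ, 0 ≤ k ∧ mem k (capI R.four) ∧
    (if n = 4 then 12 else 3 / 4 * (n : ℝ)) = k * n := by
  cases e : R.four
  · exact ⟨3 / 4, by norm_num, (mem_ofQ 3 (q := 4) (by norm_num)).congr (by norm_num),
      if_neg fun f => by simpa [e] using h.1.2 f⟩
  · exact ⟨3, by norm_num, (mem_ofN 3).congr (by norm_num), by rw [h.1.1 e]; norm_num⟩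

lemma ray_cost {b v u : ℕ} {r c A : ℝ} (h : RcOK n b v u r c) (hn : 2 ≤ n) (r0 : 0 < r)
    (hA : ar n r * Pf n r * val v ≤ A) : RayOK n r c (val b) (A / n) (val u) := by
  refine ⟨h.1, (mul_le_mul_of_nonneg_left h.2.1 (K_pos hn r0).le).trans ?_, fun _ => h.2.2⟩
  rw [K_ar hn r0, div_mul_eq_mul_div]
  exact div_le_div_of_nonneg_right hA n.cast_nonneg

end Pool.Agent.Lib.MP_f225de_an.Nu
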