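import Pool.Agent.Lib.MP_f225de_an.CK3

set_option autoImplicit false

open Set
open scoped Real

namespace Pool.Agent.Lib.MP_f225de_an.Nu

open MA Sk Iv

variable {n : ℕ} {F : ℝ → ℝ} {E : Ev}

/-- state of the loop for an obtuse angle (codes) -/
structure SB where
  acc : ℕ
  su : ℕ
  H : ℕ

/-- cost of the rays of a cell -/
def wB (V : Lv) (v : ℕ) : ℕ := ub (mulP (mulP V.al V.lk.P) (pt v))

/-- step on a cell of rays -/
def rayB1 (D : Iv) (V : Lv) (O : Oc) (s : SB) (k : SB → Bool) : Bool :=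
  forceN (acm s.acc D (pt (wB V O.v))) fun acc => forceN (acm s.su D (pt O.u)) fun su =>
    O.ok && k ⟨acc, su, s.H⟩

/-- step on a cell with gain -/
def gainB2 (e : Res) (s : SB) (k : SB → Bool) : Bool :=
  forceN e.v fun H => e.ok && k ⟨s.acc, s.su, H⟩

/-- step on a cell with gain -/
def gainB1 (E : Ev) (K : CtL) (dx : Iv) (V : Lv) (O : Oc) (s : SB) (k : SB → Bool) : Bool :=
  O.ok && Nat.ble cz s.H && gainB2 (E.lc K V dx O.g1 O.g2 s.H) s k

/-- step on a cell -/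
def cellB (E : Ev) (K : CtL) (ray : Bool) (d : ℕ) (B : GB) (s : SB) (k : SB → Bool) : Bool :=
  B.ok && bif ray then rayB1 (ofS d d) (lvl E B.G.r) (oc E B.G true) s k
    else gainB1 E K B.dx (lvl E B.G.r) (oc E B.G false) s k

/-- step of the loop -/
def stepB (E : Ev) (K : CtL) (ss : Iv) (j0 j : ℕ) (s : SB) (k : SB → Bool) : Bool :=
  forceN (E.th (Nat.succ j)) fun ta => forceN (E.th j) fun tb => Nat.blt ta tb &&
    cellB E K (Nat.blt j j0) (Nat.sub tb ta) (geoB K.lam ss ta tb) s k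

/-- final checks -/
def finB (E : Ev) (w : Iv) (ch : ℕ) (s : SB) : Bool :=
  le (pt s.acc) (mulL (mulN (nat_lit 2) pi) (pt ch)) &&
    (!E.R.four || le (mulL w (pt s.su)) hpi) && Nat.ble ch s.H

/-- the check with all constants evaluated -/
def runB2 (E : Ev) (K : CtL) (ss : Iv) (N j0 ch tN : ℕ) (e : Res) : Bool :=
  pos ss && Nat.blt (nat_lit 0) j0 && Nat.ble j0 N && Nat.blt (nat_lit 0) tN &&
    le (mulQ (nat_lit 9) (nat_lit 2) (ofS tN tN)) ss && e.ok && Nat.ble cz ch &&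
    le (mulP (capI E.R.four) (mulP K.lam (pt ch))) (E.look one).P &&
    forceN e.v fun H => loop (stepB E K ss j0) (finB E K.lam ch) N ⟨cz, cz, H⟩

/-- the check for `π - σ` between `wa / 2^64` and `wb / 2^64` -/
def runB (E : Ev) (wa wb N j0 ch : ℕ) : Bool :=
  force (ofS wa wb) fun w => force (Iv.rho (nat_lit 1) (nat_lit 3) w) fun ss =>
  force (inv (pt w.h)) fun il => pos (pt w.h) &&
    runB2 E ⟨w, il, one⟩ ss N j0 ch (E.th N) (E.ll ⟨w, il, one⟩)

/-- geometry of the cell `j` -/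
def gB (E : Ev) (K : CtL) (ss : Iv) (j : ℕ) : GB := geoB K.lam ss (E.th (j + 1)) (E.th j)

/-- outer data of the cell `j` -/
def oB (E : Ev) (K : CtL) (ss : Iv) (j0 j : ℕ) : Oc := oc E (gB E K ss j).G (Nat.blt j j0)

/-- what a step guarantees -/
def RB1 (E : Ev) (K : CtL) (ss : Iv) (j0 j : ℕ) (s t : SB) : Prop :=
  E.th (j + 1) < E.th j ∧ (gB E K ss j).ok = true ∧ (oB E K ss j0 j).ok = true ∧
  (j < j0 → t.acc = acm s.acc (ofS (Nat.sub (E.th j) (E.th (j + 1))) (Nat.sub (E.th j) (E.th (j + 1))))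
      (pt (wB (lvl E (gB E K ss j).G.r) (oB E K ss j0 j).v)) ∧
    t.su = acm s.su (ofS (Nat.sub (E.th j) (E.th (j + 1))) (Nat.sub (E.th j) (E.th (j + 1))))
      (pt (oB E K ss j0 j).u) ∧ t.H = s.H) ∧
  (j0 ≤ j → t.acc = s.acc ∧ t.su = s.su ∧ 0 ≤ val s.H ∧
    (E.lc K (lvl E (gB E K ss j).G.r) (gB E K ss j).dx (oB E K ss j0 j).g1
      (oB E K ss j0 j).g2 s.H).ok = true ∧
    t.H = (E.lc K (lvl E (gB E K ss j).G.r) (gB E K ss j).dx (oB E K ss j0 j).g1
      (oB E K ss j0 j).g2 s.H).v)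

lemma stepB_ok (K : CtL) (ss : Iv) (j0 j : ℕ) (s : SB) (k : SB → Bool)
    (e : stepB E K ss j0 j s k = true) : ∃ t, RB1 E K ss j0 j s t ∧ k t = true := by
  simp only [stepB, forceN_eq, cellB, Bool.and_eq_true, Nat.blt_eq] at e
  obtain ⟨a, b, c⟩ := e
  unfold RB1 oB
  rcases lt_or_ge j j0 with l | l
  · rw [blt_true l] at c ⊢
    simp only [cond_true, rayB1, forceN_eq, Bool.and_eq_true] at c
    refine ⟨_, ?_, c.2⟩
    exact ⟨a, b, c.1, fun _ => ⟨rfl, rfl, rfl⟩, fun f => absurd l f.not_gt⟩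
  · rw [blt_false l] at c ⊢
    simp only [cond_false, gainB1, gainB2, forceN_eq, Bool.and_eq_true] at c
    refine ⟨_, ?_, c.2.2⟩
    exact ⟨a, b, c.1.1, fun f => absurd f l.not_gt, fun _ => ⟨rfl, rfl, cz_le c.1.2, c.2.1, rfl⟩⟩

lemma const_back {α : Type} {A : ℕ → α} {j0 N : ℕ} (h0 : j0 ≤ N)
    (h : ∀ j, j0 ≤ j → j < N → A j = A (j + 1)) : A j0 = A N := by
  induction N, h0 using Nat.le_induction with
  | base => rfl
  | succ N e ih => exact (ih fun j a b => h j a (by omega)).trans (h N e N.lt_succ_self)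

lemma sum_scale {N : ℕ} {w : ℝ} {d x D : ℕ → ℝ} (h : ∀ j < N, D j = w * d j) :
    ∑ j ∈ Finset.range N, D j * x j = w * ∑ j ∈ Finset.range N, d j * x j := by
  rw [Finset.mul_sum]
  exact Finset.sum_congr rfl fun j hj => by rw [h j (Finset.mem_range.1 hj), mul_assoc]

theorem runB2_ok (h : E.ok n F) {K : CtL} {ss : Iv} {N j0 ch : ℕ}
    (e : runB2 E K ss N j0 ch (E.th N) (E.ll K) = true) {σ : ℝ} (s0 : π / 2 < σ)
    (hK : K.ok σ (π - σ)) (hs : mem (rh 1 (π - σ)) ss) :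
    Nonempty (Cell n F (TbF E.t) (ShF n E.p E.q) σ) := by
  simp only [runB2, forceN_eq, Bool.and_eq_true, Nat.blt_eq, Nat.ble_eq] at e
  obtain ⟨⟨⟨⟨⟨⟨⟨⟨ps, j0p⟩, j0N⟩, tN⟩, tl9⟩, lo⟩, c0⟩, cap⟩, e⟩ := e
  obtain ⟨st, s1, R, f⟩ := loop_ok (stepB_ok K ss j0) N _ e
  simp only [finB, Bool.and_eq_true, Bool.or_eq_true, Bool.not_eq_true', Nat.ble_eq] at f
  obtain ⟨⟨f1, f2⟩, f3⟩ := f
  have n2 : 2 ≤ n := by have := h.R.four; omega
  have n0 : (0 : ℝ) < n := by positivity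
  have p0 := Real.pi_pos
  have w0 := hK.2.2.1
  have hw := hK.2.2.2.1
  have s1' := hK.2.1
  have c0 : 0 ≤ val ch := val_cz.ge.trans (val_mono c0)
  have ha : ∀ j < N, E.th (j + 1) < E.th j := fun j hj => (R j hj).1
  have nk := fun j (hj : j ≤ N) => nd_ok h w0 ha tN hj
  have geo := fun j (hj : j < N) => geoB_ok (R j hj).2.1 (ha j hj) (th_le h ha hj.le) s0 s1' hw hs ps
  have hG : ∀ j < N, ∀ a ∈ Icc (nd E (π - σ) N (j + 1)) (nd E (π - σ) N j), 0 < a → σ + a < π →
      (gB E K ss j).G.ok (π - σ) σ a := fun j hj => by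
    rw [nd_eq hj, nd_eq hj.le]
    exact (geo j hj).2
  have sσ : Real.sin σ = (π - σ) * rh 1 (π - σ) := by rw [← sin_rh, Real.sin_pi_sub]
  have r1 : ∀ a, 0 < a → a ≤ π - σ → 1 ≤ rt σ a := fun a a0 a1 =>
    (one_le_div (Real.sin_pos_of_pos_of_lt_pi a0 (by linarith))).2
      (Real.sin_pi_sub σ ▸ sin_mono a0.le a1 (by linarith))
  have gn := gain_part h (O := oB E K ss j0) w0.le (fun _ => rfl) hG
    (fun j hj => ⟨(nk _ hj).1, (nk j hj.le).2.1.le, by linarith [(nk j hj.le).2.1, (nk j hj.le).2.2.1]⟩)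
    (fun j hj => (R j hj).2.2.1) fun a x a0 a1 => by
      have t := ((mem_ofS_self (E.th N)).mulQ 9 (q := 2) two_pos).le hs tl9
      have sa := Real.sin_pos_of_pos_of_lt_pi a0 (by linarith)
      have : 9 / 2 ≤ rt σ a := by
        rw [rt, le_div_iff₀ sa, sσ]
        have x2 := x.2
        rw [nd_eq le_rfl] at x2
        push_cast at t
        nlinarith [Real.sin_le a0.le, mul_le_mul_of_nonneg_left t w0.le]
      exact gain_tail n2 (by linarith) a0 a1 (by linarith [Real.neg_one_le_cos (σ + a)]) (.inr this)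
  have ry : ∀ j < j0, _ := fun j hj => oc_ray h (G := (gB E K ss j).G)
    (by simpa only [oB, blt_true hj] using (R j (hj.trans_le j0N)).2.2.1)
  have oe : ∀ j < j0, oB E K ss j0 j = oc E (gB E K ss j).G true := fun j hj => by
    rw [oB, blt_true hj]
  have xs : ∀ j ≤ N, xt σ (nd E (π - σ) N (j + 1)) < xt σ (nd E (π - σ) N j) := fun j hj => by
    obtain ⟨a, b, c, d⟩ := nk j hj
    rw [xt, xt, a0_B s0]
    exact div_lt_div_of_pos_right (Real.sin_lt_sin_of_lt_of_le_pi_div_two (by linarith)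
      (by linarith) b) (Real.sin_pos_of_pos_of_lt_pi w0 (by linarith))
  have LP := L_part h (N := N) (j1 := j0) (τ := nd E (π - σ) N) (H := fun j => (st j).H)
    (g1 := gv (π - σ) N fun j => (oB E K ss j0 j).g1)
    (g2 := gv (π - σ) N fun j => (oB E K ss j0 j).g2) hK c0 lo (by rw [s1])
    (fun j hj l => ((R j hj).2.2.2.1 l).2.2) (fun j hj l a x a0 => by
      obtain ⟨-, -, u1, u2, u3⟩ := (R j hj).2.2.2.2 l
      have o := (R j hj).2.2.1
      rw [oB, blt_false l] at o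
      obtain ⟨-, -, v1, v2, -⟩ := oc_gain h o
      obtain ⟨-, -, -, v3, -⟩ := gn j l hj.le
      have a1 : a < π - σ := x.2.trans_lt ((nk j hj.le).2.2.1.lt_of_ne fun z => by
        have := (nk 0 (Nat.zero_le N)).2.1
        have t := th_anti ha (show 1 ≤ j by omega) hj.le
        have t2 : (E.th j : ℝ) ≤ E.th 1 := by exact_mod_cast t
        rw [nd_zero h, nd_eq (show 0 + 1 ≤ N by omega)] at this
        rw [nd_eq hj.le] at z
        have := mul_le_mul_of_nonneg_left (div_le_div_of_nonneg_right t2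
          (by positivity : (0 : ℝ) ≤ 2 ^ 64)) w0.le
        linarith)
      have g := (hG j hj a x a0 (by linarith)).pt
      have sn := fun {y z : ℝ} (a : 0 ≤ y) (b : y ≤ z) (c : z ≤ π - σ) =>
        div_le_div_of_nonneg_right (sin_mono a b (by linarith))
          (Real.sin_pos_of_pos_of_lt_pi w0 (by linarith)).le
      simp only [gv, if_pos hj] at v3 ⊢
      rw [u3]
      refine (h.lc K _ _ _ _ _ u2 u1 (by rwa [oB, blt_false l]) (by rwa [oB, blt_false l])).2 σ _ _ a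
        _ _ hK c0 v3 a0 (a1.le.trans (a0_B s0).ge) (lvl_ok h g.1 g.2.2.2.1) ?_ ?_ ?_ (xs j hj.le)
      · rw [nd_eq hj, nd_eq hj.le]
        exact (geo j hj).1
      · rw [xt, xt, a0_B s0]
        exact sn (nk j hj.le).2.2.2 x.1 a1.le
      · rw [xt, xt, a0_B s0]
        exact sn a0.le x.2 (nk j hj.le).2.2.1)
    (val_mono f3) (if_neg (lt_irrefl N)) (if_neg (lt_irrefl N))
    fun j hj => ⟨(nk j hj).1, (nk j hj).2.1.le, xs j hj⟩
  have dl := fun j (hj : j < j0) => nd_sub (w := π - σ) (hj.trans_le j0N) (ha j (hj.trans_le j0N))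
  refine ⟨{
    N := N, M := 0, j0 := j0, j1 := j0, τ := nd E (π - σ) N, η := fun _ => π / 2
    bo := fun j => val (oB E K ss j0 j).b
    vo := fun j => val (wB (lvl E (gB E K ss j).G.r) (oB E K ss j0 j).v) / n
    uo := fun j => val (oB E K ss j0 j).u
    bi := 0, vi := 0, ui := 0, T := 0, TG := 0
    c1 := gv (π - σ) N fun j => (oB E K ss j0 j).c1
    c2 := gv (π - σ) N fun j => (oB E K ss j0 j).c2
    g1 := gv (π - σ) N fun j => (oB E K ss j0 j).g1
    g2 := gv (π - σ) N fun j => (oB E K ss j0 j).g2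
    L := Lf n (π - σ) (val ch) N fun j => (st j).H
    C := (π - σ) * val ch / n, S0 := 0
    τ_zero := (nd_zero h _ N).trans (a0_B s0).symm
    τ_anti := fun j hj => (nk j hj).2.1
    τ_end := nd_end _ N
    η_zero := rfl
    η_anti := fun _ _ => le_rfl
    η_end := s0.le
    j_le := ⟨j0p, le_rfl, j0N, by omega⟩
    out := fun j hj => ?_
    inn := fun _ f => absurd f (Nat.not_lt_zero _)
    cost := ?_
    sup := fun n4 => ?_
    gain := gn
    cap := ?_
    T_ok := fun f => absurd s0 f.not_gt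
    L_ok := fun _ => ⟨fun _ => r1 _ (nk j0 j0N).1 (nk j0 j0N).2.2.1,
      fun _ => r1 _ (nk j0 j0N).1 (nk j0 j0N).2.2.1, LP⟩ }⟩
  · obtain ⟨a, b, c, d, f, g⟩ := ry j hj
    have jN := hj.trans_le j0N
    simp only [gv, if_pos jN, oe j hj, d, f, val_cz, mul_zero]
    refine ⟨a, div_nonneg (ub_nonneg _) n0.le, c, trivial, trivial, fun x hx x1 => ?_⟩
    have G := hG j jN x hx ((nk _ jN).1.trans_le hx.1) x1
    have V := lvl_ok h G.pt.1 G.pt.2.2.2.1
    have a0 := (ar_pos n2 V.1).le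
    have P0 := (P_pos n2 V.1).le
    exact ray_cost (g _ _ _ G) n2 V.1 (le_ub ((V.2.2.1.mulP a0 P0 V.2.2.2.1).mulP
      (mul_nonneg a0 P0) b (mem_pt _)))
  · have A := sum_back (N := j0) (A := fun j => val (st j).acc) fun j hj => by
      rw [((R j (hj.trans_le j0N)).2.2.2.1 hj).1]
      exact le_acm (by positivity) (mem_ofS_self _) (mem_pt _)
    have B := const_back (A := fun j => (st j).acc) j0N fun j a b => ((R j b).2.2.2.2 a).1
    have := (mem_pt _).le ((mem_pi.mulN 2).mulL (by positivity) (mem_pt ch)) f1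
    simp only [B, s1, val_cz] at A
    simp only [Finset.range_zero, Finset.sum_empty, add_zero, ← mul_div_assoc, ← Finset.sum_div]
    rw [sum_scale dl]
    push_cast at this
    exact div_le_div_of_nonneg_right (by nlinarith) n0.le
  · have A := sum_back (N := j0) (A := fun j => val (st j).su) fun j hj => by
      rw [((R j (hj.trans_le j0N)).2.2.2.1 hj).2.1]
      exact le_acm (by positivity) (mem_ofS_self _) (mem_pt _)
    have B := const_back (A := fun j => (st j).su) j0N fun j a b => ((R j b).2.2.2.2 a).2.1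
    have := (hw.mulL w0.le (mem_pt _)).le mem_hpi (f2.resolve_left (by simp [h.R.1.2 n4]))
    simp only [B, s1, val_cz] at A
    simp only [Finset.range_zero, Finset.sum_empty, add_zero]
    rw [sum_scale dl]
    nlinarith
  · obtain ⟨k, k0, k1, k2⟩ := cap_ok h.R
    have := (k1.mulP k0 (mul_nonneg w0.le c0) (hw.mulP w0.le c0 (mem_pt ch))).le
      (h.look one 1 one_pos mem_one).2.1 cap
    rw [k2, tl_B s0]
    exact le_of_eq_of_le (by field_simp) this

/-- the obtuse angles with `π - σ` between `a / 2^64` and `b / 2^64` are covered -/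
def CovB (E : Ev) (a b : ℕ) : Prop := ∀ n F, E.ok n F → ∀ σ, π / 2 < σ → σ < π →
  a ≤ 2 ^ 64 * (π - σ) → 2 ^ 64 * (π - σ) ≤ b → Nonempty (Cell n F (TbF E.t) (ShF n E.p E.q) σ)

theorem runB_ok {wa wb N j0 ch : ℕ} (e : runB E wa wb N j0 ch = true) : CovB E wa wb := by
  intro n F h σ s0 s1 a b
  simp only [runB, force_eq, Bool.and_eq_true] at e
  have hw := mem_ofS a b
  have w0 : 0 < π - σ := sub_pos.2 s1
  have p := (mem_pt _).pos e.1
  exact runB2_ok h e.2 s0 ⟨by linarith [Real.pi_pos], s1, w0, hw,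
    ⟨_, (mem_pt _).inv e.1, inv_nonneg.2 p.le, (mul_inv_le_iff₀ p).2 (by simpa using mem_le hw)⟩,
    mem_one.congr (div_self w0.ne').symm⟩ (hw.rho 1 3)

theorem CovB.trans {a b c : ℕ} (h : CovB E a b) (h' : CovB E b c) : CovB E a c :=
  fun n F e σ s0 s1 x y => (le_total (2 ^ 64 * (π - σ)) (b : ℝ)).elim (h n F e σ s0 s1 x)
    fun z => h' n F e σ s0 s1 z y

end Pool.Agent.Lib.MP_f225de_an.Nu
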