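import Pool.Agent.Lib.MP_f225de_an.CK4

set_option autoImplicit false

open Set
open scoped Real

namespace Pool.Agent.Lib.MP_f225de_an.Nu

open MA Sk Iv

variable {n : ℕ} {F : ℝ → ℝ} {E : Ev}

lemma rt_pos {σ a : ℝ} (s0 : 0 < σ) (s1 : σ ≤ π / 2) (a0 : 0 < a) (a1 : a ≤ π / 2) : 0 < rt σ a :=
  div_pos (Real.sin_pos_of_pos_of_lt_pi s0 (by linarith [Real.pi_pos]))
    (Real.sin_pos_of_pos_of_lt_pi a0 (by linarith [Real.pi_pos]))

lemma rt_anti {σ a b : ℝ} (s0 : 0 < σ) (s1 : σ ≤ π / 2) (a0 : 0 < a) (e : a ≤ b) (b1 : b ≤ π / 2) :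
    rt σ b ≤ rt σ a :=
  div_le_div_of_nonneg_left (Real.sin_pos_of_pos_of_lt_pi s0 (by linarith [Real.pi_pos])).le
    (Real.sin_pos_of_pos_of_lt_pi a0 (by linarith [Real.pi_pos])) (sin_mono a0.le e b1)

lemma cos_in {σ a : ℝ} (s0 : 0 < σ) (h : σ < a) (a1 : a ≤ π / 2) :
    -1 < -Real.cos (a - σ) ∧ -Real.cos (a - σ) < 1 := by
  have := abs_lt.1 ((sq_lt_one_iff_abs_lt_one _).1
    (cos_sq_lt (ψ := a - σ) ⟨by linarith, by linarith [Real.pi_pos]⟩))
  exact ⟨by linarith [this.2], by linarith [this.1]⟩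

/-- bounds for the inner rays below the last node (codes) -/
structure Lo where
  ok : Bool
  b : ℕ
  v : ℕ
  u : ℕ

/-- the two inner cells next to the boundary ray -/
def lfA2 (E : Ev) (ok : Bool) (e : Res) (I : Iv) (R : Rc) : Lo :=
  ⟨ok && e.ok && Nat.ble e.v cz && R.ok, R.b, wB (lvl E I) R.v, R.u⟩

/-- the two inner cells next to the boundary ray -/
def lfA1 (E : Ev) (sg tau ro I : Iv) : Lo :=
  lfA2 E (le (mulN (nat_lit 3) sg) tau && pos ro)
    (E.ray (span zero (inv ro)) (neg (Iv.cos (nat_lit 3) (span zero tau)))) I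
    (rayC E I (neg (Iv.cos (nat_lit 3) (span zero (mulN (nat_lit 2) sg)))))

/-- the inner rays below the last node -/
def lfA (E : Ev) (lf : Bool) (sg tau : Iv) : Lo :=
  bif lf then lfA1 E sg tau
    (mulN (nat_lit 3) (Iv.rho (nat_lit 1) (nat_lit 3) (mulN (nat_lit 3) sg)))
    (span (ofQ (nat_lit 1) (nat_lit 3)) one)
  else ⟨le tau sg, cz, cz, cz⟩

theorem lfA_ok (h : E.ok n F) {lf : Bool} {sg tau : Iv} (e : (lfA E lf sg tau).ok = true) {σ τ : ℝ}
    (s0 : 0 < σ) (s1 : σ ≤ π / 2) (hw : mem σ sg) (ht : mem τ tau) (t1 : τ ≤ π / 2) :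
    0 ≤ val (lfA E lf sg tau).b ∧ 0 ≤ val (lfA E lf sg tau).v ∧ 0 ≤ val (lfA E lf sg tau).u ∧
    ∃ e1 e2, e1 ≤ τ ∧ e2 ≤ e1 ∧ e2 ≤ σ ∧ e1 - e2 ≤ 2 * σ ∧
      (∀ a ∈ Icc e1 τ, σ < a → RayOK n (rt σ a) (-Real.cos (a - σ)) 0 0 0) ∧
      ∀ a ∈ Icc e2 e1, σ < a → RayOK n (rt σ a) (-Real.cos (a - σ)) (val (lfA E lf sg tau).b)
        (val (lfA E lf sg tau).v / n) (val (lfA E lf sg tau).u) := by
  have n2 : 2 ≤ n := by have := h.R.four; omega
  have p0 := Real.pi_pos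
  cases lf
  · simp only [lfA, cond_false] at e ⊢
    have := ht.le hw e
    exact ⟨val_cz.ge, val_cz.ge, val_cz.ge, τ, τ, le_rfl, le_rfl, this, by linarith,
      fun a x y => absurd (x.2.trans this) y.not_ge, fun a x y => absurd (x.2.trans this) y.not_ge⟩
  simp only [lfA, cond_true, lfA1, lfA2, Bool.and_eq_true] at e ⊢
  obtain ⟨⟨⟨⟨e1, e2⟩, e3⟩, e4⟩, e5⟩ := e
  obtain ⟨b0, v0, u0, R⟩ := rayC_ok h e5
  have l3 : 3 * σ ≤ τ := by simpa using (hw.mulN 3).le ht e1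
  have ss := Real.sin_pos_of_pos_of_lt_pi s0 (by linarith)
  refine ⟨b0, ub_nonneg _, u0, 3 * σ, σ, l3, by linarith, le_rfl, by linarith, fun a x y => ?_,
    fun a x y => ?_⟩
  · have a1 := x.2.trans t1
    have r0 := rt_pos s0 s1 (s0.trans y) a1
    have c := cos_in s0 y a1
    have ro := ((hw.mulN 3).rho 1 3).mulN 3
    have rp := ro.pos e2
    have m := sin_mono (by linarith) x.1 a1
    rw [sin_rh] at m
    push_cast at ro rp
    have := h.ray _ _ _ _ r0 c.1 c.2 (mem_zero.span (ro.inv e2) r0.le (by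
        rw [rt, ← one_div, div_le_div_iff₀ (by nlinarith) rp]
        nlinarith [Real.sin_le s0.le]))
      ((mem_zero.span ht (z := a - σ) (by linarith) (by linarith [x.2])).cos (by linarith)
        (by linarith) 3).neg e3
    exact ⟨this.trans (mul_le_mul_of_nonneg_right (le_cz e4) (K_pos n2 r0).le), by simp [ph],
      fun _ => by simp⟩
  · have a1 := x.2.trans (l3.trans t1)
    have r0 := rt_pos s0 s1 (s0.trans y) a1
    have sa := Real.sin_pos_of_pos_of_lt_pi (s0.trans y) (by linarith)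
    have c := cos_in s0 y a1
    have hr : mem (rt σ a) (span (ofQ 1 3) one) := (mem_ofQ 1 (q := 3) (by norm_num)).span mem_one (by
      have m := sin_mono (s0.trans y).le x.2 (l3.trans t1)
      rw [Real.sin_three_mul] at m
      rw [rt, le_div_iff₀ sa]
      push_cast
      nlinarith [pow_pos ss 3]) (div_le_one_of_le₀ (sin_mono s0.le y.le a1) sa.le)
    have V := lvl_ok h r0 hr
    have a0 := (ar_pos n2 r0).le
    have P0 := (P_pos n2 r0).le
    exact ray_cost (R _ _ r0 c.1 c.2 hr ((mem_zero.span (hw.mulN 2) (z := a - σ) (by linarith)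
      (by push_cast; linarith [x.2])).cos (by linarith) (by linarith) 3).neg) n2 r0
      (le_ub ((V.2.2.1.mulP a0 P0 V.2.2.2.1).mulP (mul_nonneg a0 P0) v0 (mem_pt _)))

/-- inner rays of a cell -/
def inA (E : Ev) (A : GA) : Rc := bif A.sk then ⟨true, cz, cz, cz⟩ else rayC E A.ri A.ci

theorem inA_ok (h : E.ok n F) {A : GA} (e : (inA E A).ok = true) :
    0 ≤ val (inA E A).b ∧ 0 ≤ val (inA E A).v ∧ 0 ≤ val (inA E A).u ∧
    ∀ x y, A.sk = false → 0 < x → -1 < y → y < 1 → mem x A.ri → mem y A.ci →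
      RcOK n (inA E A).b (inA E A).v (inA E A).u x y := by
  unfold inA at e ⊢
  cases hs : A.sk <;> simp only [hs, cond_true, cond_false] at e ⊢
  · obtain ⟨a, b, c, d⟩ := rayC_ok h e
    exact ⟨a, b, c, fun x y _ => d x y⟩
  · exact ⟨val_cz.ge, val_cz.ge, val_cz.ge, fun _ _ f => absurd f (by simp)⟩

/-- the quotient of `p2` by `P (sin σ)` -/
def q2A (p2 : ℕ) (Ps : Iv) : Iv := bif Nat.ble p2 cz then zero else divP (pt p2) Ps

lemma q2A_ok {p2 : ℕ} {Ps : Iv} (e : (Nat.ble p2 cz || pos Ps) = true) {P : ℝ} (hP : mem P Ps) :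
    ∃ q, mem q (q2A p2 Ps) ∧ val p2 ≤ q * P := by
  unfold q2A
  cases hb : Nat.ble p2 cz <;> simp only [hb, cond_true, cond_false, Bool.false_or] at e ⊢
  · exact ⟨_, (mem_pt p2).divP (val_cz.ge.trans (val_mono (le_of_not_ge fun l => by
      rw [Nat.ble_eq_true_of_le l] at hb; exact absurd hb (by simp)))) hP e,
      (div_mul_cancel₀ _ (hP.pos e).ne').ge⟩
  · exact ⟨0, mem_zero, by simpa using le_cz hb⟩

lemma q1A_ok (h : E.ok n F) {σ : ℝ} (s0 : 0 < σ) (s1 : σ ≤ π / 2) {ro s : Iv} (hr : mem (rh 1 σ) ro)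
    (hs : mem (Real.sin σ) s) (e1 : pos ro = true) (e2 : pos (E.look (pt s.h)).P = true) :
    ∃ q, 0 ≤ q ∧ mem q (divP (mulP (inv ro) (pt s.h)) (E.look (pt s.h)).P) ∧
      σ ≤ q * Pf n (Real.sin σ) := by
  have n2 : 2 ≤ n := by have := h.R.four; omega
  have ss := Real.sin_pos_of_pos_of_lt_pi s0 (by linarith [Real.pi_pos])
  have t := mem_le hs
  have t0 := ss.trans_le t
  have rp := hr.pos e1
  have P := P_pos n2 t0
  have d := P_div_anti n2 ss t
  refine ⟨_, by positivity, ((hr.inv e1).mulP (by positivity) t0.le (mem_pt _)).divP (by positivity)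
    (h.look _ _ t0 (mem_pt _)).2.1 e2, ?_⟩
  rw [div_mul_eq_mul_div, le_div_iff₀ P, mul_assoc, le_inv_mul_iff₀ rp]
  nth_rw 1 [sin_rh] at d
  linarith

/-- one step of the accumulation of the cost in units of `P` -/
def accA (g D x0 x1 : Iv) (al vo vi acc : ℕ) : ℕ :=
  (mulP (add one (mulP (mulP g (pt al)) (sub (divP x0 x1) one)))
    (pt (ub (add (pt acc) (mulP D (mulP (pt al) (add (pt vo) (pt vi)))))))).h

lemma accA_ok (h : E.ok n F) {D x0 x1 : Iv} {al vo vi acc : ℕ} {d s X0 X1 : ℝ} (d0 : 0 ≤ d)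
    (hd : mem d D) (h0 : mem X0 x0) (h1 : mem X1 x1) (e : pos x1 = true) (l : X1 ≤ X0) (s0 : 0 < s)
    (ha : ar n (s / X0) ≤ val al) (v1 : 0 ≤ val vo) (v2 : 0 ≤ val vi) :
    d * (val al * (val vo + val vi)) * Pf n (s / X1) + val acc * Pf n (s / X1) ≤
      val (accA E.R.g D x0 x1 al vo vi acc) * Pf n (s / X0) := by
  have n2 : 2 ≤ n := by have := h.R.four; omega
  have p1 := h1.pos e
  have p0 := p1.trans_le l
  have r0 := div_pos s0 p0
  have P0 := P_pos n2 r0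
  have a0 := (ar_pos n2 r0).le.trans ha
  have q : 0 ≤ X0 / X1 - 1 := sub_nonneg.2 ((one_le_div p1).2 l)
  have t := P_ratio n2 r0 (div_le_div_of_nonneg_left s0.le p1 l) ((div_le_iff₀ P0).1 ha)
  rw [show s / X1 / (s / X0) = X0 / X1 by field_simp] at t
  have u := le_ub ((mem_pt acc).add (hd.mulP d0 (by positivity) ((mem_pt al).mulP a0 (by positivity)
    ((mem_pt vo).add (mem_pt vi)))))
  have u0 := ub_nonneg (add (pt acc) (mulP D (mulP (pt al) (add (pt vo) (pt vi)))))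
  have w := mem_le ((mem_one.add ((h.R.2.2.2.mulP (by positivity) a0 (mem_pt al)).mulP (by positivity) q
    ((h0.divP p0.le h1 e).sub mem_one))).mulP (by positivity) u0 (mem_pt _))
  have P1 := (P_pos n2 (div_pos s0 p1)).le
  calc _ ≤ _ * Pf n (s / X1) := by
        rw [← add_mul, add_comm]
        exact mul_le_mul_of_nonneg_right u P1
    _ ≤ _ := mul_le_mul_of_nonneg_left t u0
    _ ≤ _ := by
        rw [mul_left_comm, mul_comm, mul_comm (val _)]
        exact mul_le_mul_of_nonneg_right w P0.le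

lemma sum_A {N j0 : ℕ} (h0 : j0 ≤ N) {τ η vo vi : ℕ → ℝ} (hη : ∀ i ≤ N, η i = τ i)
    (z : ∀ j, j0 ≤ j → j < N → vo j = 0) (zN : vi N = 0) :
    ∑ j ∈ Finset.range j0, (τ j - τ (j + 1)) * vo j +
      ∑ i ∈ Finset.range (N + 2), (η i - η (i + 1)) * vi i =
    ∑ j ∈ Finset.range N, (τ j - τ (j + 1)) * (vo j + vi j) + (η (N + 1) - η (N + 2)) * vi (N + 1) := by
  rw [Finset.sum_range_succ, Finset.sum_range_succ, zN, mul_zero, add_zero, ← add_assoc,
    Finset.sum_subset (Finset.range_mono h0) fun j a b => by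
      rw [z j (by simpa using b) (by simpa using a), mul_zero], ← Finset.sum_add_distrib]
  congr 1
  refine Finset.sum_congr rfl fun j hj => ?_
  have := Finset.mem_range.1 hj
  rw [hη j this.le, hη _ this, mul_add]

end Pool.Agent.Lib.MP_f225de_an.Nu
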