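import Pool.Agent.Lib.MP_f225de_an.CK5

set_option autoImplicit false

open Set
open scoped Real

namespace Pool.Agent.Lib.MP_f225de_an.Nu

open MA Sk Iv

variable {n : ℕ} {F : ℝ → ℝ} {E : Ev}

/-- state of the loop for an acute angle (codes) -/
structure SA where
  T : ℕ
  acc : ℕ
  su : ℕ
  H : ℕ

/-- constants of the loop for an acute angle -/
structure XA where
  K : CtA
  L : CtL
  s : Iv
  j0 : ℕ
  j1 : ℕ
  ul : Bool

/-- step of the capacity -/
def hA (E : Ev) (L : CtL) (go : Bool) (V : Lv) (dx : Iv) (g1 g2 H : ℕ) : Res :=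
  bif go then E.lc L V dx g1 g2 H else ⟨true, H⟩

/-- end of a step -/
def cellA3 (ok : Bool) (t : TR) (e : Res) (acc su : ℕ) (k : SA → Bool) : Bool :=
  forceN t.T fun T => forceN e.v fun H => forceN acc fun acc => forceN su fun su =>
    ok && t.ok && e.ok && k ⟨T, acc, su, H⟩

/-- step from the data of the cell -/
def cellA2 (E : Ev) (X : XA) (go o1 : Bool) (D : Iv) (A : GA) (V : Lv) (O : Oc) (R : Rc) (s : SA)
    (k : SA → Bool) : Bool :=
  forceN (ub V.al) fun al => forceN O.v fun vo => forceN R.v fun vi =>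
    cellA3 (A.ok && O.ok && R.ok && Nat.ble cz s.T && Nat.ble cz s.H && (!o1 || le one A.G.r) &&
      (!go || pos X.s)) (E.tc X.K V A.th A.cx A.x0 A.x1 O.g1 O.g2 s.T) (hA E X.L go V A.dx O.g1 O.g2 s.H)
      (accA E.R.g D A.x0 A.x1 al vo vi s.acc) (acm s.su D (add (pt O.u) (pt R.u))) k

/-- step from the geometry of the cell -/
def cellA (E : Ev) (X : XA) (j d : ℕ) (A : GA) (s : SA) (k : SA → Bool) : Bool :=
  cellA2 E X (Nat.ble X.j1 j) (X.ul && (Nat.ble X.j1 j || E.R.four && Nat.ble X.j0 j)) (ofS d d) A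
    (lvl E A.G.r) (oc E A.G (Nat.blt j X.j0)) (inA E A) s k

/-- step of the loop -/
def stepA (E : Ev) (X : XA) (j : ℕ) (s : SA) (k : SA → Bool) : Bool :=
  forceN (E.th (Nat.succ j)) fun ta => forceN (E.th j) fun tb => Nat.blt ta tb &&
    cellA E X j (Nat.sub tb ta) (geoA X.K.sg X.s ta tb) s k

/-- final checks -/
def finA (E : Ev) (X : XA) (q1 : Iv) (ch W u : ℕ) (s : SA) : Bool :=
  le (add (mulL hpi (pt s.acc)) (mulP (mulN (nat_lit 2) q1) (pt W)))
    (mulL (mulN (nat_lit 2) pi) (pt ch)) &&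
  (!E.R.four || le (add (mulL hpi (pt s.su)) (mulP (mulN (nat_lit 2) X.K.sg) (pt u))) hpi) &&
  (!X.ul || le (mulP (pt ch) X.K.Ps) (pt s.H))

/-- the check with the results on the unbounded cell -/
def runA4 (E : Ev) (X : XA) (q1 : Iv) (N ch : ℕ) (t e : Res) (l : Lo) : Bool :=
  t.ok && (!X.ul || e.ok) && l.ok && forceN t.v fun T => forceN e.v fun H =>
    loop (stepA E X) (finA E X q1 ch l.v l.u) N ⟨T, cz, cz, H⟩

/-- the check with the geometry of the unbounded cell -/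
def runA3 (E : Ev) (X : XA) (q1 : Iv) (N ch : ℕ) (lf : Bool) (tau xN rN y : Iv) : Bool :=
  pos xN && pos y && (le (ofQ (nat_lit 1) (nat_lit 2))
    (Iv.cos (nat_lit 4) (add X.K.sg (span zero tau))) || le (ofQ (nat_lit 9) (nat_lit 2)) rN) &&
  (!(X.ul && (Nat.ble X.j1 N || E.R.four)) || le one rN) &&
  runA4 E X q1 N ch (E.tl X.K (lvl E rN) (inv y) xN) (E.ll X.L) (lfA E lf X.K.sg tau)

/-- the check with the constants of the angle -/
def runA2 (E : Ev) (X : XA) (q1 : Iv) (N ch : ℕ) (lf : Bool) : Bool :=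
  Nat.blt (nat_lit 0) X.j0 && Nat.ble X.j0 X.j1 && Nat.ble X.j0 N && Nat.ble X.j1 (Nat.succ N) &&
  Nat.ble cz ch && le (mulP (capI E.R.four) (pt ch)) one &&
  (X.ul || lt (mulP X.K.sg (sub one E.R.g)) (mulL pi E.R.g)) &&
  forceN (E.th N) fun tN => force (mulP hpi (ofS tN tN)) fun tau => force (xs tN) fun xN =>
    force (divP X.s xN) fun rN =>
    force (mulL hpi (Iv.rho (nat_lit 1) (nat_lit 3) (span zero tau))) fun y =>
      Nat.blt (nat_lit 0) tN && runA3 E X q1 N ch lf tau xN rN y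

/-- the check for `σ` between `sa / 2^64` and `sb / 2^64` -/
def runA (E : Ev) (sa sb N j0 j1 ch p1 p2 : ℕ) (ul lf : Bool) : Bool :=
  force (ofS sa sb) fun sg => force (Iv.rho (nat_lit 1) (nat_lit 3) sg) fun ro =>
  force (meet (Iv.sin (nat_lit 3) sg) (mulL sg ro)) fun s => force (E.look s).P fun Ps =>
  force (E.look (pt s.h)).P fun Pt => force (divP (mulP (inv ro) (pt s.h)) Pt) fun q1 =>
  forceN (ub (mulN (nat_lit 2) (add (pt ch) (add (mulP q1 (pt p1)) (q2A p2 Ps))))) fun H =>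
  force (sub pi sg) fun om =>
    pos ro && pos Pt && Nat.ble cz p1 && (Nat.ble p2 cz || pos Ps) &&
      runA2 E ⟨⟨sg, Ps, H, p1, p2⟩, ⟨one, one, om⟩, s, j0, j1, ul⟩ q1 N ch lf

/-- geometry of the cell `j` -/
def gA (E : Ev) (X : XA) (j : ℕ) : GA := geoA X.K.sg X.s (E.th (j + 1)) (E.th j)

/-- outer data of the cell `j` -/
def oA (E : Ev) (X : XA) (j : ℕ) : Oc := oc E (gA E X j).G (Nat.blt j X.j0)

/-- step of `T` on the cell `j` -/
def tA (E : Ev) (X : XA) (j T : ℕ) : TR :=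
  E.tc X.K (lvl E (gA E X j).G.r) (gA E X j).th (gA E X j).cx (gA E X j).x0 (gA E X j).x1
    (oA E X j).g1 (oA E X j).g2 T

/-- width of the cell `j` -/
def wdA (E : Ev) (j : ℕ) : Iv :=
  ofS (Nat.sub (E.th j) (E.th (j + 1))) (Nat.sub (E.th j) (E.th (j + 1)))

/-- what a step guarantees -/
structure RA1 (E : Ev) (X : XA) (j : ℕ) (s t : SA) : Prop where
  th : E.th (j + 1) < E.th j
  g : (gA E X j).ok = true
  o : (oA E X j).ok = true
  i : (inA E (gA E X j)).ok = true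
  T0 : 0 ≤ val s.T
  H0 : 0 ≤ val s.H
  one : X.ul = true → X.j1 ≤ j ∨ (E.R.four = true ∧ X.j0 ≤ j) → le one (gA E X j).G.r = true
  tk : (tA E X j s.T).ok = true
  T : t.T = (tA E X j s.T).T
  fr : j < X.j1 → t.H = s.H
  go : X.j1 ≤ j → pos X.s = true ∧ (E.lc X.L (lvl E (gA E X j).G.r) (gA E X j).dx (oA E X j).g1
    (oA E X j).g2 s.H).ok = true ∧ t.H = (E.lc X.L (lvl E (gA E X j).G.r) (gA E X j).dx
    (oA E X j).g1 (oA E X j).g2 s.H).v
  acc : t.acc = accA E.R.g (wdA E j) (gA E X j).x0 (gA E X j).x1 (ub (lvl E (gA E X j).G.r).al)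
    (oA E X j).v (inA E (gA E X j)).v s.acc
  su : t.su = acm s.su (wdA E j) (add (pt (oA E X j).u) (pt (inA E (gA E X j)).u))

lemma stepA_ok (X : XA) (j : ℕ) (s : SA) (k : SA → Bool) (e : stepA E X j s k = true) :
    ∃ t, RA1 E X j s t ∧ k t = true := by
  simp only [stepA, forceN_eq, cellA, cellA2, cellA3, Bool.and_eq_true, Nat.blt_eq,
    Bool.or_eq_true, Bool.not_eq_true'] at e
  obtain ⟨a, ⟨⟨⟨⟨⟨⟨⟨⟨b1, b2⟩, b3⟩, b4⟩, b5⟩, b6⟩, b7⟩, c⟩, d⟩, f⟩ := e
  refine ⟨_, ?_, f⟩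
  refine ⟨a, b1, b2, b3, cz_le b4, cz_le b5, fun u v => b6.resolve_left ?_, c, rfl, fun l => ?_,
    fun l => ?_, rfl, rfl⟩
  · rcases v with v | v <;> simp [u, v]
  · simp only [hA, show Nat.ble X.j1 j = false by rw [← Bool.not_eq_true, Nat.ble_eq]; omega,
      cond_false]
  · simp only [hA, Nat.ble_eq_true_of_le l, cond_true] at d b7 ⊢
    exact ⟨b7.resolve_left (by simp), d, rfl⟩

end Pool.Agent.Lib.MP_f225de_an.Nu
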