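import Pool.Agent.Lib.MP_f225de_an.CK6

set_option autoImplicit false

open Set
open scoped Real

namespace Pool.Agent.Lib.MP_f225de_an.Nu

open MA Sk Iv

variable {n : ℕ} {F : ℝ → ℝ} {E : Ev}

/-- a sequence continued by two values -/
def ex2 (N : ℕ) (f : ℕ → ℝ) (x y : ℝ) (i : ℕ) : ℝ := if i < N then f i else if i = N then x else y

lemma ex2_lt {N i : ℕ} {f : ℕ → ℝ} {x y : ℝ} (h : i < N) : ex2 N f x y i = f i := if_pos h

lemma ex2_eq (N : ℕ) (f : ℕ → ℝ) (x y : ℝ) : ex2 N f x y N = x := by simp [ex2]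

lemma ex2_succ (N : ℕ) (f : ℕ → ℝ) (x y : ℝ) : ex2 N f x y (N + 1) = y := by simp [ex2]

lemma sum_vi (N : ℕ) (d a x y P : ℕ → ℝ) (m z w : ℝ) :
    ∑ j ∈ Finset.range N, d j * (a j * x j * P j / m + ex2 N (fun j => a j * y j * P j / m) z w j) =
      (∑ j ∈ Finset.range N, d j * (a j * (x j + y j)) * P j) / m := by
  rw [Finset.sum_div]
  exact Finset.sum_congr rfl fun j hj => by rw [ex2_lt (Finset.mem_range.1 hj)]; ring

lemma sum_ui (N : ℕ) (d x y : ℕ → ℝ) (z w : ℝ) :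
    ∑ j ∈ Finset.range N, d j * (x j + ex2 N y z w j) = ∑ j ∈ Finset.range N, d j * (x j + y j) :=
  Finset.sum_congr rfl fun j hj => by rw [ex2_lt (Finset.mem_range.1 hj)]

lemma fin_le {S a P W d q c : ℝ} (A : S ≤ a * P) (m : d ≤ 2 * (q * P)) (W0 : 0 ≤ W) (P0 : 0 ≤ P)
    (h : π / 2 * a + 2 * q * W ≤ c) : π / 2 * S + d * W ≤ c * P := by
  nlinarith [mul_le_mul_of_nonneg_right m W0, mul_le_mul_of_nonneg_right h P0,
    mul_le_mul_of_nonneg_left A Real.pi_div_two_pos.le]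

theorem runA2_ok (h : E.ok n F) {X : XA} {q1 : Iv} {N ch : ℕ} {lf : Bool}
    (e : runA2 E X q1 N ch lf = true) {σ q : ℝ}
    (hK : 0 ≤ val ch → X.K.ok n σ (1 * (val ch * Pf n (Real.sin σ)) / n)) (hL : X.L.ok σ 1)
    (hs : mem (Real.sin σ) X.s) (q0 : 0 ≤ q) (hq : mem q q1) (sq : σ ≤ q * Pf n (Real.sin σ)) :
    Nonempty (Cell n F (TbF E.t) (ShF n E.p E.q) σ) := by
  simp only [runA2, runA3, runA4, forceN_eq, force_eq, Bool.and_eq_true, Nat.blt_eq, Nat.ble_eq,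
    Bool.or_eq_true, Bool.not_eq_true'] at e
  obtain ⟨⟨⟨⟨⟨⟨⟨j0p, j01⟩, j0N⟩, j1N⟩, c0⟩, cap⟩, nl⟩, tN, ⟨⟨⟨px, py⟩, tail⟩, oN⟩, ⟨⟨tk, lo⟩, lk⟩, e⟩ := e
  obtain ⟨st, sN, R, f⟩ := loop_ok (stepA_ok X) N _ e
  simp only [finA, Bool.and_eq_true, Bool.or_eq_true, Bool.not_eq_true'] at f
  obtain ⟨⟨f1, f2⟩, f3⟩ := f
  have n2 : 2 ≤ n := by have := h.R.four; omega
  have n0 : (0 : ℝ) < n := by positivity
  have p0 := Real.pi_pos
  have w0 := Real.pi_div_two_pos
  have c0 : 0 ≤ val ch := val_cz.ge.trans (val_mono c0)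
  have hK := hK c0
  obtain ⟨s0, s1, hw, hP, -⟩ := id hK
  have ss := Real.sin_pos_of_pos_of_lt_pi s0 (by linarith)
  have P0 := P_pos n2 ss
  have ha : ∀ j < N, E.th (j + 1) < E.th j := fun j hj => (R j hj).th
  have nk := fun j (hj : j ≤ N) => nd_ok h w0 ha tN hj
  have geo := fun j (hj : j < N) => geoA_ok (R j hj).g (ha j hj) (th_le h ha hj.le) s0 s1 hw hs
  have gx : ∀ j < N, mem (Real.sin (nd E (π / 2) N j)) (gA E X j).x0 ∧
      mem (Real.sin (nd E (π / 2) N (j + 1))) (gA E X j).x1 ∧ pos (gA E X j).x1 = true := fun j hj => by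
    rw [nd_eq hj, nd_eq hj.le, gA, (geo j hj).1, (geo j hj).2.1]
    exact ⟨mem_xs _, mem_xs _, (geo j hj).2.2.1⟩
  have ga : ∀ j < N, ∀ a ∈ Icc (nd E (π / 2) N (j + 1)) (nd E (π / 2) N j),
      mem (rt σ a) (gA E X j).G.r ∧ mem (2 / π * a) (gA E X j).th ∧
      mem (2 / π * a / Real.sin a) (gA E X j).cx ∧ (σ + a < π → (gA E X j).G.ok 1 σ a) ∧
      ((gA E X j).sk = true → a ≤ σ) ∧ (σ < a → mem (rt σ a) (gA E X j).ri ∧
        mem (-Real.cos (a - σ)) (gA E X j).ci) := fun j hj => by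
    rw [nd_eq hj, nd_eq hj.le]
    exact (geo j hj).2.2.2.2
  have gv' : ∀ j < N, ∀ a ∈ Icc (nd E (π / 2) N (j + 1)) (nd E (π / 2) N j), 0 < a ∧ a ≤ π / 2 ∧
      (lvl E (gA E X j).G.r).ok n F (rt σ a) ∧ Real.sin (nd E (π / 2) N (j + 1)) ≤ Real.sin a ∧
      Real.sin a ≤ Real.sin (nd E (π / 2) N j) := fun j hj a x => by
    have a0 := (nk _ hj).1.trans_le x.1
    have a1 := x.2.trans (nk j hj.le).2.2.1
    exact ⟨a0, a1, lvl_ok h (rt_pos s0 s1 a0 a1) (ga j hj a x).1, sin_mono (nk _ hj).1.le x.1 a1,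
      sin_mono a0.le x.2 (nk j hj.le).2.2.1⟩
  have xl : ∀ j ≤ N, Real.sin (nd E (π / 2) N (j + 1)) < Real.sin (nd E (π / 2) N j) := fun j hj => by
    obtain ⟨a, b, c, d⟩ := nk j hj
    exact Real.sin_lt_sin_of_lt_of_le_pi_div_two (by linarith) c b
  obtain ⟨b0, -, b1, -⟩ := nk N le_rfl
  have hx : mem (Real.sin (nd E (π / 2) N N)) (xs (E.th N)) := by
    rw [nd_eq le_rfl]
    exact mem_xs _
  have ht : mem (nd E (π / 2) N N) (mulP hpi (ofS (E.th N) (E.th N))) := by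
    rw [nd_eq le_rfl]
    exact mem_hpi.mulP w0.le (by positivity) (mem_ofS_self _)
  have hr : mem (rt σ (nd E (π / 2) N N)) (divP X.s (xs (E.th N))) := hs.divP ss.le hx px
  have gn := gain_part h (O := oA E X) zero_le_one (fun _ => rfl)
    (fun j hj a x _ => (ga j hj a x).2.2.2.1)
    (fun j hj => ⟨(nk _ hj).1, (nk j hj.le).2.1.le, by linarith [(nk j hj.le).2.1, (nk j hj.le).2.2.1]⟩)
    (fun j hj => (R j hj).o) fun a x a0 a1 => by
      have r0 := rt_pos s0 s1 a0 (x.2.trans b1)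
      rcases tail with t | t
      · have := (mem_ofQ 1 (q := 2) two_pos).le ((hw.add (mem_zero.span ht a0.le x.2)).cos
          (by linarith) a1.le 4) t
        push_cast at this
        exact gain_tail n2 s0 a0 a1 (by linarith) (.inl this)
      · have := ((mem_ofQ 9 (q := 2) two_pos).le hr t).trans (rt_anti s0 s1 a0 x.2 b1)
        push_cast at this
        exact gain_tail n2 s0 a0 a1 (by linarith [Real.neg_one_le_cos (σ + a)]) (.inr this)
  have oe : ∀ j < X.j0, oA E X j = oc E (gA E X j).G true := fun j hj => by rw [oA, blt_true hj]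
  have of : ∀ j, X.j0 ≤ j → oA E X j = oc E (gA E X j).G false := fun j hj => by rw [oA, blt_false hj]
  have ry := fun j (hj : j < X.j0) => oc_ray h (oe j hj ▸ (R j (hj.trans_le j0N)).o)
  have gg := fun j (hj : j < N) (l : X.j0 ≤ j) => oc_gain h (of j l ▸ (R j hj).o)
  have o0 : ∀ j < N, 0 ≤ val (oA E X j).v ∧ 0 ≤ val (oA E X j).u ∧ 0 ≤ val (oA E X j).g1 :=
    fun j hj => by
    rcases lt_or_ge j X.j0 with l | l
    · obtain ⟨-, a, b, c, -⟩ := ry j l
      rw [oe j l, c]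
      exact ⟨a, b, val_cz.ge⟩
    · obtain ⟨-, -, a, -, b, c, -⟩ := gg j hj l
      rw [of j l, b, c]
      exact ⟨val_cz.ge, val_cz.ge, a⟩
  have cst : ∀ j < N, ∀ a ∈ Icc (nd E (π / 2) N (j + 1)) (nd E (π / 2) N j), ∀ v, 0 ≤ v →
      ar n (rt σ a) * Pf n (rt σ a) * v ≤ val (ub (lvl E (gA E X j).G.r).al) * v *
        Pf n (rt σ (nd E (π / 2) N (j + 1))) := fun j hj a x v v0 => by
    obtain ⟨a0, a1, V, -⟩ := gv' j hj a x
    rw [mul_right_comm]
    exact mul_le_mul (mul_le_mul_of_nonneg_right (le_ub V.2.2.1) v0)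
      (P_mono n2 V.1 (rt_anti s0 s1 (nk _ hj).1 x.1 a1)) (P_pos n2 V.1).le (mul_nonneg (ub_nonneg _) v0)
  have Pn : ∀ j < N, 0 ≤ Pf n (rt σ (nd E (π / 2) N (j + 1))) := fun j hj =>
    (P_pos n2 (rt_pos s0 s1 (nk _ hj).1 (nk _ hj).2.2.1)).le
  obtain ⟨l1, l2, l3, e1, e2, m1, m2, m3, m4, m5, m6⟩ := lfA_ok h lk s0 s1 hw ht b1
  generalize lfA E lf X.K.sg (mulP hpi (ofS (E.th N) (E.th N))) = Q at *
  have dl := fun j (hj : j < N) => nd_sub (w := π / 2) hj (ha j hj)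
  have hη : ∀ i ≤ N, ex2 (N + 1) (nd E (π / 2) N) e1 e2 i = nd E (π / 2) N i := fun i hi =>
    ex2_lt (by omega)
  refine ⟨{
    N := N, M := N + 2, j0 := X.j0, j1 := X.j1, τ := nd E (π / 2) N
    η := ex2 (N + 1) (nd E (π / 2) N) e1 e2
    bo := fun j => val (oA E X j).b
    vo := fun j => val (ub (lvl E (gA E X j).G.r).al) * val (oA E X j).v *
      Pf n (rt σ (nd E (π / 2) N (j + 1))) / n
    uo := fun j => val (oA E X j).u
    bi := ex2 N (fun j => val (inA E (gA E X j)).b) 0 (val Q.b)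
    vi := ex2 N (fun j => val (ub (lvl E (gA E X j).G.r).al) * val (inA E (gA E X j)).v *
      Pf n (rt σ (nd E (π / 2) N (j + 1))) / n) 0 (val Q.v / n)
    ui := ex2 N (fun j => val (inA E (gA E X j)).u) 0 (val Q.u)
    c1 := gv 1 N fun j => (oA E X j).c1
    c2 := gv 1 N fun j => (oA E X j).c2
    g1 := gv 1 N fun j => (oA E X j).g1
    g2 := gv 1 N fun j => (oA E X j).g2
    T := fun j => if j ≤ N then val (st j).T else 0
    TG := gv 1 N fun j => (tA E X j (st (j + 1)).T).tg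
    L := Lf n 1 (val ch * Pf n (Real.sin σ)) N fun j => (st j).H
    C := 1 * (val ch * Pf n (Real.sin σ)) / n, S0 := X.K.S0 n σ
    τ_zero := (nd_zero h _ N).trans (a0_A s1).symm
    τ_anti := fun j hj => (nk j hj).2.1
    τ_end := nd_end _ N
    η_zero := (hη 0 (Nat.zero_le N)).trans (nd_zero h _ N)
    η_anti := fun i hi => ?_
    η_end := (ex2_succ _ _ _ _).trans_le m3
    j_le := ⟨j0p, j01, j0N, j1N⟩
    out := fun j hj => ?_
    inn := fun i hi => ?_
    cost := ?_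
    sup := fun n4 => ?_
    gain := gn
    cap := ?_
    T_ok := fun _ j hj => ?_
    L_ok := fun hσ => ?_ }⟩
  · rcases lt_trichotomy i N with l | rfl | l
    · rw [hη _ l, hη _ l.le]
      exact (nk i l.le).2.1.le
    · rwa [ex2_eq, hη _ le_rfl]
    · rwa [show i = N + 1 by omega, ex2_succ, ex2_eq]
  · obtain ⟨a, b, c, d, f, g⟩ := ry j hj
    have jN := hj.trans_le j0N
    simp only [gv, if_pos jN, oe j hj, d, f, val_cz, mul_zero]
    exact ⟨a, div_nonneg (mul_nonneg (mul_nonneg (ub_nonneg _) b) (Pn j jN)) n0.le, c, trivial,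
      trivial, fun x hx x1 => ray_cost (g _ _ _ ((ga j jN x hx).2.2.2.1 x1)) n2
        (gv' j jN x hx).2.2.1.1 (cst j jN x hx _ b)⟩
  · rcases lt_trichotomy i N with l | rfl | l
    · obtain ⟨a, b, c, d⟩ := inA_ok h (R i l).i
      simp only [ex2_lt l, hη _ l, hη _ l.le]
      refine ⟨a, div_nonneg (mul_nonneg (mul_nonneg (ub_nonneg _) b) (Pn i l)) n0.le, c,
        fun x hx x1 => ?_⟩
      obtain ⟨-, -, -, -, u, v⟩ := ga i l x hx
      obtain ⟨-, a1, V, -⟩ := gv' i l x hx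
      have y := cos_in s0 x1 a1
      exact ray_cost (d _ _ (Bool.eq_false_iff.2 fun z => (u z).not_gt x1) V.1 y.1 y.2 (v x1).1
        (v x1).2) n2 V.1 (cst i l x hx _ b)
    · simp only [ex2_eq, hη _ le_rfl]
      exact ⟨le_rfl, le_rfl, le_rfl, m5⟩
    · simp only [show i = N + 1 by omega, ex2_succ, ex2_eq]
      exact ⟨l1, div_nonneg l2 n0.le, l3, m6⟩
  · have A := sum_back (N := N) (A := fun j => val (st j).acc * Pf n (rt σ (nd E (π / 2) N j)))
      fun j hj => by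
        obtain ⟨u, v, w⟩ := gx j hj
        rw [(R j hj).acc]
        exact accA_ok h (by positivity) (mem_ofS_self _) u v w (xl j hj.le).le ss
          (le_ub (gv' j hj _ ⟨(nk j hj.le).2.1.le, le_rfl⟩).2.2.1.2.2.1) (o0 j hj).1
          (inA_ok h (R j hj).i).2.1
    have := ((mem_hpi.mulL w0.le (mem_pt _)).add ((hq.mulN 2).mulP (by positivity) l2 (mem_pt _))).le
      ((mem_pi.mulN 2).mulL (by positivity) (mem_pt ch)) f1
    simp only [sN, val_cz, zero_mul, add_zero, nd_zero h, rt, Real.sin_pi_div_two, div_one] at A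
    rw [sum_A j0N hη (fun j a b => by rw [of j a, (gg j b a).2.2.2.2.1, val_cz]; simp) (ex2_eq ..),
      ex2_eq, ex2_succ, ex2_succ, sum_scale dl, sum_vi, ← mul_div_assoc, ← mul_div_assoc,
      ← mul_div_assoc, ← add_div]
    push_cast at this
    simp only [rt]
    exact div_le_div_of_nonneg_right ((fin_le A (m4.trans (mul_le_mul_of_nonneg_left sq zero_le_two))
      l2 P0.le this).trans_eq (by ring)) n0.le
  · have A := sum_back (N := N) (A := fun j => val (st j).su) fun j hj => by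
      rw [(R j hj).su]
      exact le_acm (by positivity) (mem_ofS_self _) ((mem_pt _).add (mem_pt _))
    have := ((mem_hpi.mulL w0.le (mem_pt _)).add ((hw.mulN 2).mulP (by positivity) l3 (mem_pt _))).le
      mem_hpi (f2.resolve_left (by simp [h.R.1.2 n4]))
    simp only [sN, val_cz, add_zero] at A
    rw [sum_A j0N hη (fun j a b => by rw [of j a, (gg j b a).2.2.2.2.2.1, val_cz]) (ex2_eq ..),
      ex2_eq, ex2_succ, ex2_succ, sum_scale dl, sum_ui]
    push_cast at this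
    exact (fin_le (A.trans_eq (mul_one _).symm) (m4.trans_eq (by ring)) l3 zero_le_one this).trans_eq
      (mul_one _)
  · obtain ⟨k, k0, k1, k2⟩ := cap_ok h.R
    have := (k1.mulP k0 c0 (mem_pt ch)).le mem_one cap
    rw [k2, tl_A s1]
    exact le_of_eq_of_le (by field_simp) (mul_le_of_le_one_left P0.le this)
  · rcases hj.lt_or_eq with l | rfl
    · obtain ⟨-, t1, t2, t3⟩ := h.tc _ _ _ _ _ _ _ _ _ (R j l).tk (R j l).T0 (o0 j l).2.2
      obtain ⟨u, v, -⟩ := gx j l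
      simp only [gv, if_pos l, one_mul, itp, slp, xt_A s1, if_pos hj,
        if_pos (Nat.succ_le_of_lt l), (R j l).T]
      refine ⟨t1, t2, fun a x a0 => ?_⟩
      obtain ⟨-, a1, V, y1, y2⟩ := gv' j l a x
      simpa only [one_mul, tA] using t3 σ _ a _ _ hK a0 a1 V (ga j l a x).2.1 (ga j l a x).2.2.1 u v
        (Real.sin_nonneg_of_nonneg_of_le_pi (nk _ l).1.le (by linarith [(nk _ l).2.2.1])) y1 y2
        (xl j hj)
    · simp only [gv, lt_irrefl, if_false, itp, slp, xt_A s1, le_refl, if_true, nd_end, sN,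
        Nat.not_succ_le_self, Real.sin_zero, sub_zero, zero_add]
      refine ⟨trivial, by positivity, fun a x a0 => (h.tl _ _ _ _ tk).2 σ _ a _ hK a0 x.2 b1
        (lvl_ok h (rt_pos s0 s1 b0 b1) hr) ?_ hx⟩
      exact ((mem_hpi.mulL w0.le ((mem_zero.span ht a0.le x.2).rho 1 3)).inv py).congr (cx_eq a0)
  · have ul : X.ul = true := nl.resolve_right fun z => by
      have g1 : 1 / (n : ℝ) ≤ 1 := div_le_one_of_le₀ (by exact_mod_cast (by omega : 1 ≤ n)) n0.le
      have := (hw.mulP s0.le (sub_nonneg.2 g1) (mem_one.sub h.R.2.2.2)).lt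
        (mem_pi.mulL p0.le h.R.2.2.2) z
      have n1 : (0 : ℝ) < n - 1 := sub_pos.2 (by exact_mod_cast (by omega : 1 < n))
      rw [div_le_iff₀ n1] at hσ
      rw [one_sub_div n0.ne', ← mul_div_assoc, mul_one_div, div_lt_div_iff_of_pos_right n0] at this
      linarith
    have one : ∀ j ≤ N, X.j1 ≤ j ∨ (E.R.four = true ∧ X.j0 ≤ j) → 1 ≤ rt σ (nd E (π / 2) N j) :=
      fun j hj z => by
      rcases hj.lt_or_eq with l | rfl
      · exact mem_one.le (ga j l _ ⟨(nk j hj).2.1.le, le_rfl⟩).1 ((R j l).one ul z)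
      · exact mem_one.le hr (oN.resolve_left (by rcases z with z | z <;> simp [ul, z]))
    refine ⟨fun n4 => one _ j0N (.inr ⟨h.R.1.2 n4, le_rfl⟩), fun l => one _ l (.inl le_rfl),
      L_part h hL (mul_nonneg c0 P0.le) (lo.resolve_left (by simp [ul])) (by rw [sN])
      (fun j hj l => (R j hj).fr l) (fun j hj l a x a0 => ?_)
      (((mem_pt ch).mulP c0 P0.le hP).le (mem_pt _) (f3.resolve_left (by simp [ul])))
      (if_neg (lt_irrefl N)) (if_neg (lt_irrefl N))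
      fun j hj => ⟨(nk j hj).1, (nk j hj).2.1.le, by simpa only [xt_A s1] using xl j hj⟩⟩
    obtain ⟨u1, u2, u3⟩ := (R j hj).go l
    obtain ⟨-, a1, V, y1, y2⟩ := gv' j hj a x
    obtain ⟨-, -, -, v3, v4, -⟩ := gn j (j01.trans l) hj.le
    simp only [gv, if_pos hj] at v3 v4 ⊢
    rw [u3]
    refine (h.lc _ _ _ _ _ _ u2 (R j hj).H0 (o0 j hj).2.2 (by simpa using v4)).2 σ _ _ a _ _ hL
      (mul_nonneg c0 P0.le) v3 a0 (a1.trans (a0_A s1).ge) V ?_ (by simpa only [xt_A s1] using y1)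
      (by simpa only [xt_A s1] using y2) (by simpa only [xt_A s1] using xl j hj.le)
    rw [xt_A s1, xt_A s1, tl_A s1, nd_eq hj, nd_eq hj.le]
    exact (geo j hj).2.2.2.1 u1

/-- the angles between `a / 2^64` and `b / 2^64` are covered -/
def CovA (E : Ev) (a b : ℕ) : Prop := ∀ n F, E.ok n F → ∀ σ, 0 < σ → σ ≤ π / 2 →
  a ≤ 2 ^ 64 * σ → 2 ^ 64 * σ ≤ b → Nonempty (Cell n F (TbF E.t) (ShF n E.p E.q) σ)

theorem runA_ok {sa sb N j0 j1 ch p1 p2 : ℕ} {ul lf : Bool}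
    (e : runA E sa sb N j0 j1 ch p1 p2 ul lf = true) : CovA E sa sb := by
  intro n F h σ s0 s1 a b
  simp only [runA, force_eq, forceN_eq, Bool.and_eq_true] at e
  obtain ⟨⟨⟨⟨e1, e2⟩, e3⟩, e4⟩, e⟩ := e
  have n2 : 2 ≤ n := by have := h.R.four; omega
  have n0 : (0 : ℝ) < n := by positivity
  have p0 := Real.pi_pos
  have hw := mem_ofS a b
  have hr := hw.rho 1 3
  have hs := (hw.sin s0.le (by linarith) 3).meet ((hw.mulL s0.le hr).congr (sin_rh σ).symm)
  have ss := Real.sin_pos_of_pos_of_lt_pi s0 (by linarith)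
  have hP := (h.look _ _ ss hs).2.1
  have P0 := (P_pos n2 ss).le
  obtain ⟨q, q0, hq, sq⟩ := q1A_ok h s0 s1 hr hs e1 e2
  obtain ⟨r, r1, r2⟩ := q2A_ok e4 hP
  have u := le_ub (((mem_pt ch).add ((hq.mulP q0 (cz_le e3) (mem_pt p1)).add r1)).mulN 2)
  refine runA2_ok h e (fun _ => ⟨s0, s1, hw, hP, ?_, ub_nonneg _⟩) ⟨s0, by linarith, one_pos, mem_one,
    ⟨1, mem_one, zero_le_one, by simp⟩, (mem_pi.sub hw).congr (div_one _).symm⟩ hs q0 hq sq
  refine le_trans ?_ (mul_le_mul_of_nonneg_right u P0)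
  rw [CtA.S0, ← add_div, mul_assoc, mul_div_cancel₀ _ n0.ne']
  push_cast
  nlinarith [mul_le_mul_of_nonneg_right sq (cz_le e3)]

theorem CovA.trans {a b c : ℕ} (h : CovA E a b) (h' : CovA E b c) : CovA E a c :=
  fun n F e σ s0 s1 x y => (le_total (2 ^ 64 * σ) (b : ℝ)).elim (h n F e σ s0 s1 x)
    fun z => h' n F e σ s0 s1 z y

/-- all angles are covered -/
theorem cov_all {a b : ℕ} (hA : CovA E 0 a) (hB : CovB E 0 b)
    (ha : 28976077832308491370 ≤ a) (hb : 28976077832308491370 ≤ b) (h : E.ok n F) :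
    ∀ σ ∈ Ioo 0 π, Nonempty (Cell n F (TbF E.t) (ShF n E.p E.q) σ) := fun σ x => by
  have p := Real.pi_lt_d20
  have ha : (28976077832308491370 : ℝ) ≤ a := by exact_mod_cast ha
  have hb : (28976077832308491370 : ℝ) ≤ b := by exact_mod_cast hb
  rcases le_or_gt σ (π / 2) with l | l
  · exact hA n F h σ x.1 l (by have := x.1; push_cast; positivity) (by linarith)
  · exact hB n F h σ l x.2 (by have := sub_pos.2 x.2; push_cast; positivity) (by linarith)

end Pool.Agent.Lib.MP_f225de_an.Nu
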