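import Pool.Agent.Lib.MP_f225de_an.N0

set_option autoImplicit false

open Set
open scoped Real

namespace Pool.Agent.Lib.MP_f225de_an.Sk

/-- the data for the weighted version in degree four; `al = 4 K / P` -/
structure Data4 (k1 k2 : ℝ → ℝ → ℝ) extends Base 4 where
  al : ℝ → ℝ
  Tb : ℝ → ℝ
  x1 : ℝ → ℝ → ℝ
  x2 : ℝ → ℝ → ℝ
  z1 : ℝ → ℝ → ℝ
  z2 : ℝ → ℝ → ℝ
  al_eq : ∀ y, al y = 4 * K y / P y
  al_le : ∀ y, al y ≤ 11 / 10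
  cap : a0 + 2 * l0 ≤ 1
  F_bd : ∀ y < 0, 19 / 5 ≤ F y ∧ F y ≤ 107 / 25
  Tb_bd : ∀ y, 0 ≤ Tb y ∧ Tb y ≤ 2
  B_le : ∀ s ∈ Ioc 0 (π / 2), ∀ y > Real.log (Real.sin s), 8 * B s y ≤ Tb y * P y
  L_pos : ∀ s ∈ Icc (π / 3) π, ∀ y, 0 ≤ L s y
  x_bd : ∀ s ∈ Ioc 0 (π / 2), ∀ y, k1 s y ≤ K y * (lam s y + x1 s y) ∧
    k2 s y ≤ K y ^ 2 * (lam s y + x2 s y) ∧ -(1 / 4) ≤ x1 s y ∧ (y < 0 → x1 s y ≤ 1 / 2) ∧
      (y < Real.log (Real.sin s) → 0 ≤ x1 s y ∧ x1 s y ≤ 1 / 4)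
  z_bd : ∀ s ∈ Icc (π / 3) π, ∀ y, k1 s y ≤ K y * (lam s y + z1 s y) ∧
    k2 s y ≤ K y ^ 2 * (lam s y + z2 s y) ∧ -(1 / 4) ≤ z1 s y ∧
      (y < 0 → 0 ≤ z1 s y ∧ z1 s y ≤ 1 / 4)
  x_meas : ∀ s ∈ Ioc 0 (π / 2), Measurable (x1 s) ∧ ∀ y, y ∉ X s → ContinuousAt (x1 s) y
  z_meas : ∀ s ∈ Icc (π / 3) π, Measurable (z1 s) ∧ ∀ y, y ∉ X s → ContinuousAt (z1 s) y
  A_der : ∀ s ∈ Ioc 0 (π / 2), ∀ y < Real.log (Real.sin s), y ∉ X s →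
    HasDerivAt (A s) (A1 s y) y ∧
      K y * (al y * x2 s y + (2 - al y) * (207 / 100) * x1 s y) / 2 ≤ A1 s y
  B_der : ∀ s ∈ Ioc 0 (π / 2), ∀ y > Real.log (Real.sin s), y ∉ X s →
    HasDerivAt (B s) (B1 s y) y ∧
      (P y - G s y / 2) * cor s y / (4 + cor s y) + K y * (al y * x2 s y +
        (2 - al y - 2 * cor s y / (4 + cor s y)) *
          max (207 / 100 * x1 s y) ((2 - Tb y / 8) * x1 s y)) / 2 +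
        2 * P y * cor (π / 2) y / ((4 + cor s y) * (4 + cor s y + cor (π / 2) y)) *
          max 0 (-(al y * x1 s y) - 3 / 7 * cor s y) ≤ -B1 s y
  L_der : ∀ s ∈ Icc (π / 3) π, ∀ y, y ∉ X s → HasDerivAt (L s) (L1 s y) y ∧
    K y * (al y * z2 s y + max ((2 - al y) * (207 / 100) * z1 s y)
      ((2 - al y - 4 * cor (π / 2) y / (4 + 2 * cor (π / 2) y)) * (2 - Tb y / 8) * z1 s y)) / 2
        ≤ L1 s y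

end Pool.Agent.Lib.MP_f225de_an.Sk
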