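import Mathlib

set_option autoImplicit false

open MeasureTheory Set Filter Topology Polynomial
open scoped ENNReal NNReal Real

namespace Pool.Agent.Lib.MP_f225de_an.E

/-- sum of `1 / |q'|` over the roots of `q` -/
noncomputable def ff (q : ℂ[X]) : ℝ≥0∞ := (q.roots.map fun z => ‖q.derivative.eval z‖ₑ⁻¹).sum

/-- the length integral of the lemniscate -/
noncomputable def Len (p : ℂ[X]) : ℝ≥0∞ :=
  ∫⁻ θ in Ioc (0 : ℝ) (2 * π), ff (p - C (Complex.exp (θ * Complex.I)))

/-- the length integral of the star -/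
noncomputable def BB (n : ℕ) : ℝ≥0∞ :=
  ∫⁻ θ in Ioc (0 : ℝ) (2 * π),
    ENNReal.ofReal (‖Complex.exp (θ * Complex.I) - 1‖ ^ ((1 : ℝ) / n - 1))

/-- the inequality for simple critical points with distinct values on the unit circle -/
def Core (n : ℕ) : Prop :=
  ∀ p : ℂ[X], p.Monic → p.natDegree = n → ∀ a : Fin (n - 1) → ℂ,
    (∀ k, p.derivative.eval (a k) = 0) → (∀ k, ‖p.eval (a k)‖ = 1) →
    Function.Injective (fun k => p.eval (a k)) → Len p ≤ BB n

/-- monic polynomial with given lower coefficients -/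
noncomputable def PP {n : ℕ} (e : Fin n → ℂ) : ℂ[X] := X ^ n + ∑ i, C (e i) * X ^ (i : ℕ)

lemma low_degree {n : ℕ} (e : Fin n → ℂ) : (∑ i, C (e i) * X ^ (i : ℕ) : ℂ[X]).degree < n :=
  degree_sum_fin_lt e

lemma PP_monic {n : ℕ} (e : Fin n → ℂ) : (PP e).Monic := monic_X_pow_add (low_degree e)

lemma PP_deg {n : ℕ} (e : Fin n → ℂ) : (PP e).natDegree = n := by
  apply natDegree_eq_of_degree_eq_some
  unfold PP
  rw [degree_add_eq_left_of_degree_lt (by rw [degree_X_pow]; exact low_degree e), degree_X_pow]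

lemma PP_eval {n : ℕ} (e : Fin n → ℂ) (z : ℂ) :
    (PP e).eval z = z ^ n + ∑ i, e i * z ^ (i : ℕ) := by
  simp [PP, eval_finsetSum]

lemma PP_der {n : ℕ} (e : Fin n → ℂ) (z : ℂ) :
    (PP e).derivative.eval z = n * z ^ (n - 1) + ∑ i, e i * ((i : ℕ) * z ^ ((i : ℕ) - 1)) := by
  simp [PP, eval_finsetSum, derivative_X_pow]

lemma PP_coeff {n : ℕ} (e : Fin n → ℂ) (i : Fin n) : (PP e).coeff i = e i := by
  have : (i : ℕ) ≠ n := i.2.ne
  simp [PP, coeff_X_pow, this, Fin.val_inj]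

lemma PP_self {n : ℕ} {p : ℂ[X]} (hp : p.Monic) (hd : p.natDegree = n) :
    PP (fun i : Fin n => p.coeff i) = p := by
  subst hd
  conv_rhs => rw [hp.as_sum]
  rw [PP, Finset.sum_range fun i => C (p.coeff i) * X ^ i]

lemma sub_monic {n : ℕ} (hn : 1 ≤ n) {p : ℂ[X]} (hp : p.Monic) (hd : p.natDegree = n) (w : ℂ) :
    (p - C w).Monic ∧ (p - C w).natDegree = n := by
  refine ⟨hp.sub_of_left (degree_C_le.trans_lt ?_), by rw [natDegree_sub_C, hd]⟩
  rw [degree_eq_natDegree hp.ne_zero, hd]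
  exact_mod_cast hn

lemma exists_prod {n : ℕ} {q : ℂ[X]} (hq : q.Monic) (hd : q.natDegree = n) :
    ∃ r : Fin n → ℂ, q = ∏ j, (X - C (r j)) := by
  have hs := IsAlgClosed.splits q
  have hc : q.roots.card = n := by rw [← hd]; exact (splits_iff_card_roots.mp hs)
  have hl : q.roots.toList.length = n := by simpa using hc
  refine ⟨fun j => q.roots.toList.get (j.cast hl.symm), ?_⟩
  conv_lhs => rw [hs.eq_prod_roots_of_monic hq, ← Multiset.coe_toList q.roots]
  rw [Multiset.map_coe, Multiset.prod_coe, ← List.prod_ofFn]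
  congr 1
  apply List.ext_getElem <;> simp [hl]

lemma eq_prod {n : ℕ} {q : ℂ[X]} (hq : q.Monic) (hd : q.natDegree = n) (r : Fin n → ℂ)
    (hr : Function.Injective r) (h0 : ∀ j, q.eval (r j) = 0) : q = ∏ j, (X - C (r j)) := by
  have hm : (∏ j, (X - C (r j)) : ℂ[X]).Monic := monic_prod_of_monic _ _ fun j _ => monic_X_sub_C _
  apply eq_of_monic_of_dvd_of_natDegree_le hm hq
  · exact Finset.prod_dvd_of_coprime
      (fun i _ j _ h => pairwise_coprime_X_sub_C hr h) fun j _ => dvd_iff_isRoot.mpr (h0 j)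
  · rw [hd, natDegree_finsetProd_X_sub_C_eq_card]; simp

lemma prod_der {n : ℕ} (r : Fin n → ℂ) (z : ℂ) :
    (∏ j, (X - C (r j)) : ℂ[X]).derivative.eval z =
      ∑ j, ∏ k ∈ Finset.univ.erase j, (z - r k) := by
  rw [derivative_prod_finset]
  simp [eval_finsetSum, eval_prod]

lemma prod_der_root {n : ℕ} (r : Fin n → ℂ) (j : Fin n) :
    (∏ j, (X - C (r j)) : ℂ[X]).derivative.eval (r j) =
      ∏ k ∈ Finset.univ.erase j, (r j - r k) := by
  rw [prod_der, Finset.sum_eq_single j (fun i _ h => ?_) (by simp)]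
  exact Finset.prod_eq_zero (i := j) (by simpa using h.symm) (sub_self _)

lemma ff_prod {n : ℕ} (r : Fin n → ℂ) :
    ff (∏ j, (X - C (r j))) = ∑ j, ‖(∏ j, (X - C (r j)) : ℂ[X]).derivative.eval (r j)‖ₑ⁻¹ := by
  unfold ff
  have : (∏ j, (X - C (r j)) : ℂ[X]).roots = Finset.univ.val.map r := by
    rw [← roots_multiset_prod_X_sub_C (Finset.univ.val.map r), Multiset.map_map]
    rfl
  rw [this, Multiset.map_map]
  rfl

end Pool.Agent.Lib.MP_f225de_an.E
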