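import Pool.Agent.Lib.MP_f225de_an.E0

set_option autoImplicit false

open MeasureTheory Set Filter Topology Polynomial
open scoped ENNReal NNReal Real

namespace Pool.Agent.Lib.MP_f225de_an.E

/-- the universal family -/
noncomputable def Un (n : ℕ) (x : (Fin n → ℂ) × ℂ) : (Fin n → ℂ) × ℂ := (x.1, (PP x.1).eval x.2)

lemma ev_cd (n : ℕ) : ContDiff ℂ 1 fun x : (Fin n → ℂ) × ℂ => (PP x.1).eval x.2 := by
  simp only [PP_eval]
  fun_prop

lemma Un_cd (n : ℕ) : ContDiff ℂ 1 (Un n) := contDiff_fst.prodMk (ev_cd n)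

lemma root_bound {n : ℕ} (hn : 1 ≤ n) (e : Fin n → ℂ) (z : ℂ) :
    ‖z‖ ≤ 1 + n * ‖e‖ + ‖(PP e).eval z‖ := by
  by_contra! h
  have h0 : 0 ≤ (n : ℝ) * ‖e‖ := by positivity
  have h1 : 1 ≤ ‖z‖ := by linarith [norm_nonneg ((PP e).eval z)]
  have h2 : ‖∑ i, e i * z ^ (i : ℕ)‖ ≤ n * ‖e‖ * ‖z‖ ^ (n - 1) := by
    refine (norm_sum_le _ _).trans ?_
    refine (Finset.sum_le_card_nsmul _ _ (‖e‖ * ‖z‖ ^ (n - 1)) fun i _ => ?_).trans (by
      simp [mul_assoc])
    rw [norm_mul, norm_pow]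
    exact mul_le_mul (norm_le_pi_norm e i) (pow_le_pow_right₀ h1 (by omega)) (by positivity)
      (norm_nonneg _)
  have h3 : ‖z‖ * ‖z‖ ^ (n - 1) ≤ ‖(PP e).eval z‖ + n * ‖e‖ * ‖z‖ ^ (n - 1) := by
    rw [← pow_succ', Nat.sub_add_cancel hn, ← norm_pow]
    have : z ^ n = (PP e).eval z - ∑ i, e i * z ^ (i : ℕ) := by rw [PP_eval]; ring
    rw [this]
    exact (norm_sub_le _ _).trans (by linarith)
  have h4 : 1 ≤ ‖z‖ ^ (n - 1) := one_le_pow₀ h1
  nlinarith [norm_nonneg ((PP e).eval z)]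

lemma Un_closed {n : ℕ} (hn : 1 ≤ n) : IsClosedMap (Un n) := by
  apply IsProperMap.isClosedMap
  rw [isProperMap_iff_isCompact_preimage]
  refine ⟨(Un_cd n).continuous, fun K hK => ?_⟩
  obtain ⟨R, hR⟩ := hK.isBounded.exists_norm_le
  apply Metric.isCompact_of_isClosed_isBounded (hK.isClosed.preimage (Un_cd n).continuous)
  rw [isBounded_iff_forall_norm_le]
  refine ⟨1 + n * R + R, fun x hx => ?_⟩
  have h1 : ‖x.1‖ ≤ R := (norm_fst_le (Un n x)).trans (hR _ hx)
  have h2 : ‖(PP x.1).eval x.2‖ ≤ R := (norm_snd_le (Un n x)).trans (hR _ hx)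
  have h3 := root_bound hn x.1 x.2
  have h4 : (n : ℝ) * ‖x.1‖ ≤ n * R := by gcongr
  have h5 : 0 ≤ (n : ℝ) * ‖x.1‖ := by positivity
  rw [Prod.norm_def, max_le_iff]
  constructor <;> linarith

lemma equiv_of_inj {Y : Type} [NormedAddCommGroup Y] [NormedSpace ℂ Y] [FiniteDimensional ℂ Y]
    (D : Y →L[ℂ] Y) (hi : Function.Injective D) : ∃ L : Y ≃L[ℂ] Y, (L : Y →L[ℂ] Y) = D :=
  ⟨(LinearEquiv.ofInjectiveEndo D.toLinearMap hi).toContinuousLinearEquiv, by ext; rfl⟩

lemma Un_equiv {n : ℕ} (x : (Fin n → ℂ) × ℂ) (hx : (PP x.1).derivative.eval x.2 ≠ 0) :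
    ∃ L : ((Fin n → ℂ) × ℂ) ≃L[ℂ] ((Fin n → ℂ) × ℂ),
      HasStrictFDerivAt (Un n) (L : ((Fin n → ℂ) × ℂ) →L[ℂ] ((Fin n → ℂ) × ℂ)) x := by
  have h := ((Un_cd n).contDiffAt (x := x)).hasStrictFDerivAt one_ne_zero
  set D := fderiv ℂ (Un n) x with hD
  have hi : Function.Injective D := by
    rw [injective_iff_map_eq_zero]
    rintro ⟨v, w⟩ hv
    have h1 : (D (v, w)).1 = v := by
      have := (h.hasFDerivAt.fst).unique (hasFDerivAt_fst (𝕜 := ℂ) (p := x))
      simpa using congrArg (fun L => L (v, w)) this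
    have hv0 : v = 0 := by rw [← h1, hv]; rfl
    subst hv0
    have h2 : HasDerivAt (fun t : ℂ => (x.1, x.2 + t * w)) ((0, w) : (Fin n → ℂ) × ℂ) 0 :=
      (hasDerivAt_const _ _).prodMk (by simpa using ((hasDerivAt_id (0 : ℂ)).mul_const w).const_add x.2)
    have h3 := (h.hasFDerivAt.comp_hasDerivAt_of_eq 0 h2 (by simp)).hasFDerivAt.snd.hasDerivAt
    have h4 : HasDerivAt (fun t : ℂ => (PP x.1).eval (x.2 + t * w))
        ((PP x.1).derivative.eval x.2 * w) 0 :=
      ((PP x.1).hasDerivAt x.2).comp_of_eq 0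
        (by simpa using ((hasDerivAt_id (0 : ℂ)).mul_const w).const_add x.2) (by simp)
    have h5 := h4.unique h3
    simp [hv, hx] at h5
    simp [h5]
  obtain ⟨L, hL⟩ := equiv_of_inj D hi
  exact ⟨L, hL ▸ h⟩

lemma Un_cov {n : ℕ} (hn : 1 ≤ n) : IsCoveringMapOn (Un n)
    {y | ∀ z, (PP y.1).eval z = y.2 → (PP y.1).derivative.eval z ≠ 0} := by
  refine (Un_closed hn).isCoveringMapOn_of_isLocalHomeomorphOn (fun y _ => ?_) fun x hx => ?_
  · have h0 : PP y.1 - C y.2 ≠ 0 := (sub_monic hn (PP_monic _) (PP_deg _) _).1.ne_zero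
    apply ((PP y.1 - C y.2).roots.toFinset.finite_toSet.image fun z => (y.1, z)).subset
    rintro ⟨e, z⟩ hx
    obtain ⟨rfl, h2⟩ := Prod.ext_iff.mp (show Un n (e, z) = y from hx)
    exact ⟨z, by simpa [h0, sub_eq_zero, Un] using h2, rfl⟩
  · obtain ⟨L, hL⟩ := Un_equiv x (hx x.2 rfl)
    exact ⟨_, hL.mem_toOpenPartialHomeomorph_source, by simp⟩

/-- a continuous simple root of a holomorphic family is holomorphic -/
lemma root_diff {n : ℕ} {e : ℂ → Fin n → ℂ} {w z : ℂ → ℂ} {s : ℂ} (he : DifferentiableAt ℂ e s)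
    (hw : DifferentiableAt ℂ w s) (hz : ContinuousAt z s)
    (h : ∀ᶠ t in 𝓝 s, (PP (e t)).eval (z t) = w t)
    (h0 : (PP (e s)).derivative.eval (z s) ≠ 0) : DifferentiableAt ℂ z s := by
  obtain ⟨L, hL⟩ := Un_equiv (e s, z s) h0
  have h1 : Un n (e s, z s) = (e s, w s) := Prod.ext rfl h.self_of_nhds
  have h2 := hL.to_localInverse.hasFDerivAt.differentiableAt
  rw [h1] at h2
  have h3 := (h2.comp s (he.prodMk hw)).snd
  apply h3.congr_of_eventuallyEq
  filter_upwards [h, (he.continuousAt.prodMk hz).eventually hL.eventually_left_inverse] with t a b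
  have : Un n (e t, z t) = (e t, w t) := Prod.ext rfl a
  rw [this] at b
  simp [b]

/-- holomorphic root branches over a convex open set -/
theorem branches {n : ℕ} (hn : 1 ≤ n) {A : Set ℂ} (hA : IsOpen A) (hc : Convex ℝ A)
    {e : ℂ → Fin n → ℂ} {w : ℂ → ℂ} (he : DifferentiableOn ℂ e A) (hw : DifferentiableOn ℂ w A)
    (hs : ∀ s ∈ A, ∀ z, (PP (e s)).eval z = w s → (PP (e s)).derivative.eval z ≠ 0) :
    ∃ z : Fin n → ℂ → ℂ, (∀ j, DifferentiableOn ℂ (z j) A) ∧
      (∀ s ∈ A, Function.Injective fun j => z j s) ∧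
      ∀ s ∈ A, PP (e s) - C (w s) = ∏ j, (X - C (z j s)) := by
  classical
  rcases A.eq_empty_or_nonempty with rfl | ⟨s0, h0⟩
  · exact ⟨0, fun _ => differentiableOn_empty, by simp, by simp⟩
  have := hc.contractibleSpace ⟨s0, h0⟩
  have := hA.locallyPathConnectedSpace
  have hm := fun s => sub_monic hn (PP_monic (e s)) (PP_deg _) (w s)
  obtain ⟨r, hr⟩ := exists_prod (hm s0).1 (hm s0).2
  have hr0 : ∀ j, (PP (e s0)).eval (r j) = w s0 := fun j => by
    have := congrArg (eval (r j)) hr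
    rw [eval_prod, Finset.prod_eq_zero (Finset.mem_univ j) (by simp)] at this
    simpa [sub_eq_zero] using this
  have hri : Function.Injective r := fun i j hij => by
    by_contra hne
    apply hs s0 h0 (r i) (hr0 i)
    have := prod_der_root r i
    rw [← hr, Finset.prod_eq_zero (i := j) (by simpa using Ne.symm hne) (by simp [hij])] at this
    simpa using this
  let f : C(A, (Fin n → ℂ) × ℂ) := ⟨fun s => (e s, w s),
    (he.continuousOn.prodMk hw.continuousOn).domRestrict⟩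
  have ex := fun (a : A) (x : (Fin n → ℂ) × ℂ) (hx : Un n x = f a) =>
    (Un_cov hn).existsUnique_continuousMap_lifts f (a₀ := a) hx fun a => hs a a.2
  choose F hF using fun j => (ex ⟨s0, h0⟩ (e s0, r j) (Prod.ext rfl (hr0 j))).exists
  have h1 : ∀ j (a : A), (F j a).1 = e a := fun j a => congrArg Prod.fst (congrFun (hF j).2 a)
  have h2 : ∀ j (a : A), (PP (e a)).eval (F j a).2 = w a := fun j a => by
    rw [← h1 j a]; exact congrArg Prod.snd (congrFun (hF j).2 a)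
  have h3 : ∀ a : A, Function.Injective fun j => (F j a).2 := fun a i j hij => by
    have hij' : F i a = F j a := Prod.ext ((h1 i a).trans (h1 j a).symm) hij
    have := (ex a (F j a) (congrFun (hF j).2 a)).unique ⟨hij', (hF i).2⟩ ⟨rfl, (hF j).2⟩
    apply hri
    have h4 := (hF i).1
    rw [this, (hF j).1] at h4
    exact (congrArg Prod.snd h4).symm
  let z : Fin n → ℂ → ℂ := fun j s => if h : s ∈ A then (F j ⟨s, h⟩).2 else 0
  have hz : ∀ j s (h : s ∈ A), z j s = (F j ⟨s, h⟩).2 := fun j s h => dif_pos h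
  refine ⟨z, fun j s h => DifferentiableAt.differentiableWithinAt ?_, fun s h => ?_, fun s h => ?_⟩
  · have hn' := hA.mem_nhds h
    refine root_diff (he.differentiableAt hn') (hw.differentiableAt hn') ?_ ?_ (hs s h _ ?_)
    · apply ContinuousOn.continuousAt _ hn'
      rw [continuousOn_iff_continuous_domRestrict]
      convert (F j).continuous.snd with a
      exact hz j a a.2
    · filter_upwards [hn'] with t ht
      rw [hz j t ht]; exact h2 j ⟨t, ht⟩
    · rw [hz j s h]; exact h2 j ⟨s, h⟩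
  · simp only [hz _ s h]; exact h3 ⟨s, h⟩
  · simp only [hz _ s h]
    exact eq_prod (hm s).1 (hm s).2 _ (h3 ⟨s, h⟩) fun j => by simp [h2 j ⟨s, h⟩]

end Pool.Agent.Lib.MP_f225de_an.E
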