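import Pool.Agent.Lib.MP_f225de_an.E1

set_option autoImplicit false

open MeasureTheory Set Filter Topology Polynomial
open scoped ENNReal NNReal Real

namespace Pool.Agent.Lib.MP_f225de_an.E

lemma coeff_cont {n : ℕ} (s : Finset (Fin n)) (i : ℕ) :
    Continuous fun r : Fin n → ℂ => (∏ j ∈ s, (X - C (r j)) : ℂ[X]).coeff i := by
  induction s using Finset.induction_on generalizing i with
  | empty => simpa using continuous_const
  | insert a s ha ih =>
    simp only [Finset.prod_insert ha, coeff_mul]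
    refine continuous_finsetSum _ fun x _ => Continuous.mul ?_ (ih _)
    simp only [coeff_sub, coeff_C]
    split_ifs <;> fun_prop

/-- Vieta map -/
noncomputable def Vi (n : ℕ) (r : Fin n → ℂ) : Fin n → ℂ :=
  fun i => (∏ j, (X - C (r j)) : ℂ[X]).coeff i

lemma PP_Vi {n : ℕ} (r : Fin n → ℂ) : PP (Vi n r) = ∏ j, (X - C (r j)) :=
  PP_self (monic_prod_of_monic _ _ fun j _ => monic_X_sub_C _)
    (by rw [natDegree_finsetProd_X_sub_C_eq_card]; simp)

lemma Vi_cont (n : ℕ) : Continuous (Vi n) := continuous_pi fun i => coeff_cont _ i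

lemma Vi_quot {n : ℕ} (hn : 1 ≤ n) : IsQuotientMap (Vi n) := by
  refine IsClosedMap.isQuotientMap ?_ (Vi_cont n) fun e => ?_
  · apply IsProperMap.isClosedMap
    rw [isProperMap_iff_isCompact_preimage]
    refine ⟨Vi_cont n, fun K hK => ?_⟩
    obtain ⟨R, hR⟩ := hK.isBounded.exists_pos_norm_le
    apply Metric.isCompact_of_isClosed_isBounded (hK.isClosed.preimage (Vi_cont n))
    rw [isBounded_iff_forall_norm_le]
    refine ⟨1 + n * R, fun r hr => ?_⟩
    have h0 := hR.1
    rw [pi_norm_le_iff_of_nonneg (by positivity)]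
    intro j
    have h := root_bound hn (Vi n r) (r j)
    rw [PP_Vi, eval_prod, Finset.prod_eq_zero (Finset.mem_univ j) (by simp), norm_zero] at h
    have : (n : ℝ) * ‖Vi n r‖ ≤ n * R := by gcongr; exact hR.2 _ hr
    linarith
  · obtain ⟨r, hr⟩ := exists_prod (PP_monic e) (PP_deg e)
    exact ⟨r, funext fun i => by rw [Vi, ← hr, PP_coeff]⟩

theorem ff_cont {n : ℕ} (hn : 1 ≤ n) : Continuous fun e : Fin n → ℂ => ff (PP e) := by
  rw [(Vi_quot hn).continuous_iff]
  have : (fun e : Fin n → ℂ => ff (PP e)) ∘ Vi n =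
      fun r => ∑ j, ‖∏ k ∈ Finset.univ.erase j, (r j - r k)‖ₑ⁻¹ := by
    funext r
    simp only [Function.comp, PP_Vi, ff_prod, prod_der_root]
  rw [this]
  fun_prop

theorem ff_cont2 {n : ℕ} (hn : 1 ≤ n) :
    Continuous fun x : (Fin n → ℂ) × ℂ => ff (PP x.1 - C x.2) := by
  have : ∀ x : (Fin n → ℂ) × ℂ, PP x.1 - C x.2 =
      PP fun i => x.1 i - if (i : ℕ) = 0 then x.2 else 0 := fun x => by
    have hm := sub_monic hn (PP_monic x.1) (PP_deg _) x.2
    rw [← PP_self hm.1 hm.2]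
    simp only [coeff_sub, PP_coeff, coeff_C]
  simp only [this]
  refine (ff_cont hn).comp (continuous_pi fun i => ?_)
  split_ifs <;> fun_prop

lemma ff_meas {n : ℕ} (hn : 1 ≤ n) {p : ℂ[X]} (hp : p.Monic) (hd : p.natDegree = n) :
    Continuous fun θ : ℝ => ff (p - C (Complex.exp (θ * Complex.I))) := by
  rw [← PP_self hp hd]
  exact (ff_cont2 hn).comp (f := fun θ : ℝ => ((fun i : Fin n => p.coeff i),
    Complex.exp (θ * Complex.I))) (by fun_prop)

/-- lower semicontinuity of the length -/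
theorem Len_lsc {n : ℕ} (hn : 1 ≤ n) {ι : Type} {l : Filter ι} [l.IsCountablyGenerated] [l.NeBot]
    {e : ι → Fin n → ℂ} {e0 : Fin n → ℂ} (he : Tendsto e l (𝓝 e0)) {B : ℝ≥0∞}
    (hB : ∀ᶠ i in l, Len (PP (e i)) ≤ B) : Len (PP e0) ≤ B := by
  obtain ⟨u, hu⟩ := l.exists_seq_tendsto
  have h1 : ∀ θ : ℝ, ff (PP e0 - C (Complex.exp (θ * Complex.I))) =
      liminf (fun k => ff (PP (e (u k)) - C (Complex.exp (θ * Complex.I)))) atTop := fun θ =>
    (((ff_cont2 hn).tendsto (e0, _)).comp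
      ((he.comp hu).prodMk_nhds tendsto_const_nhds)).liminf_eq.symm
  unfold Len
  simp only [h1]
  refine (lintegral_liminf_le fun k => (ff_meas hn (PP_monic _) (PP_deg _)).measurable).trans ?_
  exact liminf_le_of_frequently_le' (hu.eventually hB).frequently

/-- on a set with root branches, `ff` is the sum of the moduli of the derivatives -/
lemma ff_branch {n : ℕ} {p : ℂ[X]} {w : ℂ → ℂ} {z : Fin n → ℂ → ℂ} {s w' : ℂ}
    (hw : HasDerivAt w w' s) (hw0 : ‖w'‖ = 1) (hz : ∀ j, DifferentiableAt ℂ (z j) s)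
    (h : ∀ᶠ t in 𝓝 s, p - C (w t) = ∏ j, (X - C (z j t))) :
    ff (p - C (w s)) = ∑ j, ‖deriv (z j) s‖ₑ := by
  rw [h.self_of_nhds, ff_prod, ← h.self_of_nhds]
  refine Finset.sum_congr rfl fun j _ => ?_
  have h1 : (fun t => p.eval (z j t)) =ᶠ[𝓝 s] w := by
    filter_upwards [h] with t ht
    have := congrArg (eval (z j t)) ht
    rw [eval_prod, Finset.prod_eq_zero (Finset.mem_univ j) (by simp)] at this
    simpa [sub_eq_zero] using this
  have h2 := (((p.hasDerivAt (z j s)).comp s (hz j).hasDerivAt).congr_of_eventuallyEq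
    h1.symm).unique hw
  have h3 : ‖p.derivative.eval (z j s)‖ₑ * ‖deriv (z j) s‖ₑ = 1 := by
    rw [← enorm_mul, h2, ← ofReal_norm, hw0, ENNReal.ofReal_one]
  simp only [derivative_sub, derivative_C, sub_zero]
  exact (ENNReal.eq_inv_of_mul_eq_one_left (by rwa [mul_comm])).symm

end Pool.Agent.Lib.MP_f225de_an.E
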