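import Pool.Agent.Lib.MP_f225de_an.E2
import Pool.Agent.Lib.MP_f225de_an.C1

set_option autoImplicit false

open MeasureTheory Set Filter Topology Polynomial
open scoped ENNReal NNReal Real

namespace Pool.Agent.Lib.MP_f225de_an.E

lemma der_ne {n : ℕ} (hn : 1 ≤ n) {p : ℂ[X]} (hd : p.natDegree = n) : p.derivative ≠ 0 := fun h => by
  have := derivative_eq_zero.mp h
  omega

lemma crit_fin {n : ℕ} (hn : 1 ≤ n) {p : ℂ[X]} (hd : p.natDegree = n) :
    (p.eval '' {z | p.derivative.eval z = 0}).Finite := by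
  apply Finite.image
  apply p.derivative.roots.toFinset.finite_toSet.subset
  intro z hz
  simpa [der_ne hn hd] using hz

lemma fib_fin {n : ℕ} (hn : 1 ≤ n) {p : ℂ[X]} (hp : p.Monic) (hd : p.natDegree = n) (w : ℂ) :
    {z | p.eval z = w}.Finite := by
  apply (p - C w).roots.toFinset.finite_toSet.subset
  intro z hz
  simpa [(sub_monic hn hp hd w).1.ne_zero, sub_eq_zero] using hz

lemma exp_der (s : ℂ) : HasDerivAt (fun s : ℂ => Complex.exp (s * Complex.I))
    (Complex.exp (s * Complex.I) * Complex.I) s := by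
  simpa using ((hasDerivAt_id s).mul_const Complex.I).cexp

lemma loc_len {n : ℕ} (hn : 1 ≤ n) {p : ℂ[X]} (hp : p.Monic) (hd : p.natDegree = n) (θ₀ : ℝ) :
    ∃ U : Set ℝ, MeasurableSet U ∧
      (Complex.exp (θ₀ * Complex.I) ∉ p.eval '' {z | p.derivative.eval z = 0} → U ∈ 𝓝 θ₀) ∧
      ∀ J ⊆ U, MeasurableSet J → volume J ≠ ∞ →
        Measure.hausdorffMeasure (1 : ℝ) {z | ∃ θ ∈ J, p.eval z = Complex.exp (θ * Complex.I)} ≤
          ∫⁻ θ in J, ff (p - C (Complex.exp (θ * Complex.I))) := by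
  by_cases h : Complex.exp (θ₀ * Complex.I) ∈ p.eval '' {z | p.derivative.eval z = 0}
  · exact ⟨∅, MeasurableSet.empty, fun h' => (h' h).elim, fun J hJ _ _ => by
      simp [subset_empty_iff.mp hJ]⟩
  have ho : IsOpen ((fun s : ℂ => Complex.exp (s * Complex.I)) ⁻¹'
      (p.eval '' {z | p.derivative.eval z = 0})ᶜ) :=
    (crit_fin hn hd).isClosed.isOpen_compl.preimage (by fun_prop)
  obtain ⟨ρ, hρ, hb⟩ := Metric.isOpen_iff.mp ho θ₀ h
  obtain ⟨z, hz, -, hz2⟩ := branches hn Metric.isOpen_ball (convex_ball (θ₀ : ℂ) ρ)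
    (e := fun _ (i : Fin n) => p.coeff i) (w := fun s => Complex.exp (s * Complex.I))
    (by fun_prop) (by fun_prop) (fun s hs z h1 h2 => by
      rw [PP_self hp hd] at h1 h2
      exact hb hs ⟨z, h2, h1⟩)
  simp only [PP_self hp hd] at hz2
  have hm : ∀ θ ∈ Metric.ball θ₀ ρ, (θ : ℂ) ∈ Metric.ball (θ₀ : ℂ) ρ := fun θ hθ => by
    rwa [Metric.mem_ball, Complex.dist_eq, ← Complex.ofReal_sub, Complex.norm_real, ← dist_eq_norm]
  refine ⟨Metric.ball θ₀ ρ, measurableSet_ball, fun _ => Metric.ball_mem_nhds _ hρ,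
    fun J hJ hJm hJv => ?_⟩
  have hd' : ∀ j, ∀ θ ∈ J, DifferentiableAt ℂ (z j) θ := fun j θ hθ =>
    (hz j).differentiableAt (Metric.isOpen_ball.mem_nhds (hm θ (hJ hθ)))
  calc _ ≤ Measure.hausdorffMeasure (1 : ℝ) (⋃ j, (fun θ : ℝ => z j θ) '' J) := by
        apply measure_mono
        rintro x ⟨θ, hθ, hx⟩
        have := congrArg (eval x) (hz2 θ (hm θ (hJ hθ)))
        rw [eval_sub, hx, eval_C, sub_self, eval_prod, eq_comm, Finset.prod_eq_zero_iff] at this
        obtain ⟨j, -, hj⟩ := this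
        exact mem_iUnion.mpr ⟨j, θ, hθ, by simpa [sub_eq_zero, eq_comm] using hj⟩
    _ ≤ ∑ j, ∫⁻ θ in J, ‖deriv (z j) (θ : ℝ)‖ₑ :=
        (measure_iUnion_fintype_le _ _).trans (Finset.sum_le_sum fun j _ =>
          Cubic.length_le _ _ J hJm hJv fun θ hθ =>
            (hd' j θ hθ).hasDerivAt.comp_ofReal.hasDerivWithinAt)
    _ = _ := by
        rw [← lintegral_finsetSum (f := fun j (θ : ℝ) => ‖deriv (z j) θ‖ₑ) _ fun j _ =>
          ((measurable_deriv (z j)).comp Complex.measurable_ofReal).enorm]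
        refine setLIntegral_congr_fun hJm fun θ hθ => (ff_branch (exp_der θ) (by simp)
          (fun j => hd' j θ hθ) ?_).symm
        filter_upwards [Metric.isOpen_ball.mem_nhds (hm θ (hJ hθ))] with t ht using hz2 t ht

theorem haus_le {n : ℕ} (hn : 1 ≤ n) {p : ℂ[X]} (hp : p.Monic) (hd : p.natDegree = n) :
    Measure.hausdorffMeasure (1 : ℝ) {z : ℂ | ‖p.eval z‖ = 1} ≤ Len p := by
  choose U hU using loc_len hn hp hd
  set K := p.eval '' {z | p.derivative.eval z = 0} with hK
  obtain ⟨t, -, ht, hc⟩ := TopologicalSpace.countable_cover_nhdsWithin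
    (s := {θ : ℝ | Complex.exp (θ * Complex.I) ∉ K}) (f := U)
    fun θ hθ => mem_nhdsWithin_of_mem_nhds ((hU θ).2.1 hθ)
  obtain ⟨u, hu⟩ := (ht.insert 0).exists_eq_range (insert_nonempty _ _)
  set J : ℕ → Set ℝ := fun k => disjointed (fun k => U (u k)) k ∩ Ioc 0 (2 * π) with hJ
  have hJm : ∀ k, MeasurableSet (J k) := fun k =>
    (MeasurableSet.disjointed (fun k => (hU (u k)).1) k).inter measurableSet_Ioc
  have h0 : Measure.hausdorffMeasure (1 : ℝ) (p.eval ⁻¹' K) = 0 := by
    have := Measure.nullSingletonClass_hausdorff ℂ one_pos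
    exact ((crit_fin hn hd).preimage' fun w _ => fib_fin hn hp hd w).measure_zero _
  calc _ ≤ Measure.hausdorffMeasure (1 : ℝ) (p.eval ⁻¹' K ∪
          ⋃ k, {z | ∃ θ ∈ J k, p.eval z = Complex.exp (θ * Complex.I)}) := by
        apply measure_mono
        intro z hz
        by_cases h : p.eval z ∈ K
        · exact Or.inl h
        right
        have hpi : 0 < 2 * π := by positivity
        set θ := toIocMod hpi 0 (Complex.arg (p.eval z)) with hθ
        have h1 : p.eval z = Complex.exp (θ * Complex.I) := by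
          have h2 := Complex.norm_mul_exp_arg_mul_I (p.eval z)
          rw [show ‖p.eval z‖ = 1 from hz, Complex.ofReal_one, one_mul] at h2
          have h3 : Complex.arg (p.eval z) = θ + toIocDiv hpi 0 (Complex.arg (p.eval z)) * (2 * π) := by
            rw [← zsmul_eq_mul]; exact (toIocMod_add_toIocDiv_zsmul hpi 0 _).symm
          rw [← h2, Complex.exp_eq_exp_iff_exists_int]
          refine ⟨toIocDiv hpi 0 (Complex.arg (p.eval z)), ?_⟩
          conv_lhs => rw [h3]
          push_cast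
          ring
        obtain ⟨x, hx, hx2⟩ := mem_iUnion₂.mp (hc (show Complex.exp (θ * Complex.I) ∉ K from h1 ▸ h))
        obtain ⟨k, rfl⟩ : x ∈ range u := hu ▸ mem_insert_of_mem _ hx
        have h4 : θ ∈ ⋃ k, U (u k) := mem_iUnion.mpr ⟨k, hx2⟩
        rw [← iUnion_disjointed] at h4
        obtain ⟨k', hk'⟩ := mem_iUnion.mp h4
        exact mem_iUnion.mpr ⟨k', θ, ⟨hk', by simpa using toIocMod_mem_Ioc hpi 0 _⟩, h1⟩
    _ ≤ ∑' k, ∫⁻ θ in J k, ff (p - C (Complex.exp (θ * Complex.I))) := by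
        refine (measure_union_le _ _).trans ?_
        rw [h0, zero_add]
        exact (measure_iUnion_le _).trans (ENNReal.tsum_le_tsum fun k => (hU (u k)).2.2 _
          (inter_subset_left.trans (disjointed_subset _ k)) (hJm k)
          (ne_top_of_le_ne_top measure_Ioc_lt_top.ne (measure_mono inter_subset_right)))
    _ ≤ _ := by
        rw [← lintegral_iUnion hJm fun i j h =>
          (disjoint_disjointed _ h).mono inter_subset_left inter_subset_left]
        exact lintegral_mono_set (iUnion_subset fun k => inter_subset_right)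

end Pool.Agent.Lib.MP_f225de_an.E
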