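import Pool.Agent.Lib.MP_f225de_an.E4

set_option autoImplicit false

open MeasureTheory Set Filter Topology Polynomial
open scoped ENNReal NNReal Real

namespace Pool.Agent.Lib.MP_f225de_an.E

lemma inv_le {x y : ℂ} {K : ℝ} (hK : 0 < K) {m k : ℕ} (hk : 1 ≤ k) (h : ‖x‖ ^ m ≤ K * ‖y‖ ^ k) :
    ‖y‖ₑ⁻¹ ≤ ENNReal.ofReal (K ^ ((1 : ℝ) / k)) * ‖x‖ₑ ^ (-((m : ℝ) / k)) := by
  have hk0 : (0 : ℝ) < k := by exact_mod_cast hk
  have h1 : ‖x‖ ^ ((m : ℝ) / k) ≤ K ^ ((1 : ℝ) / k) * ‖y‖ := by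
    have := Real.rpow_le_rpow (by positivity) h (z := (1 : ℝ) / k) (by positivity)
    rwa [Real.mul_rpow hK.le (by positivity), ← Real.rpow_natCast, ← Real.rpow_natCast,
      ← Real.rpow_mul (norm_nonneg _), ← Real.rpow_mul (norm_nonneg _), mul_one_div_cancel hk0.ne',
      Real.rpow_one, mul_one_div] at this
  have h2 := ENNReal.ofReal_le_ofReal h1
  rw [ENNReal.ofReal_mul (by positivity), ← ENNReal.ofReal_rpow_of_nonneg (norm_nonneg _)
    (by positivity), ofReal_norm, ofReal_norm] at h2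
  have h6 : ENNReal.ofReal (K ^ ((1 : ℝ) / k)) ≠ 0 := by simpa using Real.rpow_pos_of_pos hK _
  rw [ENNReal.rpow_neg, ← ENNReal.inv_mul_le_iff h6 ENNReal.ofReal_ne_top,
    ← ENNReal.mul_inv (Or.inl h6) (Or.inl ENNReal.ofReal_ne_top)]
  exact ENNReal.inv_le_inv.mpr h2

lemma ff_le {N : ℕ} (hN : 1 ≤ N) {p : ℂ[X]} (hp : p.Monic) (hd : p.natDegree = N + 1)
    {c : Fin N → ℂ} {K : ℝ≥0∞} {α : ℝ}
    (h : ∀ z, ∃ k, ‖p.derivative.eval z‖ₑ⁻¹ ≤ K * ‖p.eval z - c k‖ₑ ^ (-α)) (u : ℂ) :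
    ∃ k, ff (p - C u) ≤ (N + 1 : ℕ) * K * ‖u - c k‖ₑ ^ (-α) := by
  have : Nonempty (Fin N) := ⟨⟨0, hN⟩⟩
  obtain ⟨k, hk⟩ := Finite.exists_max fun k => ‖u - c k‖ₑ ^ (-α)
  have hm := sub_monic (by omega) hp hd u
  obtain ⟨r, hr⟩ := exists_prod hm.1 hm.2
  refine ⟨k, ?_⟩
  rw [hr, ff_prod, ← hr, mul_assoc]
  refine (Finset.sum_le_card_nsmul _ _ (K * ‖u - c k‖ₑ ^ (-α)) fun j _ => ?_).trans (by simp)
  obtain ⟨l, hl⟩ := h (r j)
  have h1 := congrArg (eval (r j)) hr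
  rw [eval_prod, Finset.prod_eq_zero (Finset.mem_univ j) (by simp), eval_sub, eval_C,
    sub_eq_zero] at h1
  rw [h1] at hl
  simp only [derivative_sub, derivative_C, sub_zero]
  exact hl.trans (mul_le_mul_right (hk l) _)

lemma int_le {N : ℕ} {f : ℝ → ℝ≥0∞} {c : Fin N → ℂ} {K J : ℝ≥0∞} (hK : K ≠ ∞) {α : ℝ}
    (h : ∀ θ : ℝ, ∃ k, f θ ≤ K * ‖Complex.exp (θ * Complex.I) - c k‖ₑ ^ (-α))
    (hJ : ∀ k, ∫⁻ θ in Ioc (0 : ℝ) (2 * π), ‖Complex.exp (θ * Complex.I) - c k‖ₑ ^ (-α) ≤ J) :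
    ∫⁻ θ in Ioc (0 : ℝ) (2 * π), f θ ≤ K * (N * J) := by
  calc _ ≤ ∫⁻ θ in Ioc (0 : ℝ) (2 * π),
        K * ∑ k, ‖Complex.exp (θ * Complex.I) - c k‖ₑ ^ (-α) := lintegral_mono fun θ => by
        obtain ⟨k, hk⟩ := h θ
        exact hk.trans (mul_le_mul_right (Finset.single_le_sum
          (f := fun k => ‖Complex.exp (θ * Complex.I) - c k‖ₑ ^ (-α)) (fun _ _ => zero_le)
          (Finset.mem_univ k)) _)
    _ ≤ _ := by
        rw [lintegral_const_mul' _ _ hK, lintegral_finsetSum _ fun k _ => by fun_prop]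
        exact mul_le_mul_right ((Finset.sum_le_card_nsmul _ _ J fun k _ => hJ k).trans (by simp)) _

lemma ff_le1 {N : ℕ} (hN : 1 ≤ N) : ∃ K : ℝ≥0∞, K ≠ ∞ ∧ ∀ p : ℂ[X], p.Monic →
    p.natDegree = N + 1 → ∀ a : Fin N → ℂ,
    (∀ z, p.derivative.eval z = (N + 1) * ∏ k, (z - a k)) →
    ∀ u, ∃ k, ff (p - C u) ≤ K * ‖u - p.eval (a k)‖ₑ ^ (-((N : ℝ) / (N + 1 : ℕ))) :=
  ⟨_, ENNReal.mul_ne_top (ENNReal.natCast_ne_top _) ENNReal.ofReal_ne_top,
    fun _ hp hd _ ha => ff_le hN hp hd fun z =>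
      (near hN ha z).imp fun _ hk => inv_le (by positivity) (by omega) hk.1⟩

/-- uniform integrability -/
lemma tail {N : ℕ} (hN : 1 ≤ N) {ε : ℝ≥0∞} (hε : ε ≠ 0) : ∃ M : ℝ≥0∞, M ≠ ∞ ∧ ∀ p : ℂ[X],
    p.Monic → p.natDegree = N + 1 → Len p ≤
      (∫⁻ θ in Ioc (0 : ℝ) (2 * π), min (ff (p - C (Complex.exp (θ * Complex.I)))) M) + ε := by
  obtain ⟨K, hK, h⟩ := ff_le1 hN
  have hN0 : (0 : ℝ) < N := by exact_mod_cast hN
  set η : ℝ := 1 / (2 * N) with hη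
  have hη0 : 0 < η := by positivity
  obtain ⟨J, hJ, hJ2⟩ := J_all (α := (N : ℝ) / (N + 1 : ℕ) * (1 + η)) (by positivity) (by
    rw [hη]; push_cast; field_simp; linarith)
  have hKq : K ^ (1 + η) ≠ ∞ := ENNReal.rpow_ne_top_of_nonneg (by positivity) hK
  set A := K ^ (1 + η) * (N * J) with hA
  have hA' : A ≠ ∞ := ENNReal.mul_ne_top hKq (ENNReal.mul_ne_top (ENNReal.natCast_ne_top _) hJ)
  obtain ⟨δ, hδ, hδ2⟩ := ENNReal.exists_nnreal_pos_mul_lt hA' hε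
  have hδ0 : (δ : ℝ≥0∞) ≠ 0 := by simpa using hδ.ne'
  refine ⟨(δ : ℝ≥0∞) ^ (-η⁻¹), by simp [hδ.ne'], fun p hp hd => ?_⟩
  obtain ⟨a, ha⟩ := exists_crit hp hd
  have hm := (ff_meas (by omega) hp hd).measurable
  calc _ ≤ ∫⁻ θ in Ioc (0 : ℝ) (2 * π), (min (ff (p - C (Complex.exp (θ * Complex.I))))
        ((δ : ℝ≥0∞) ^ (-η⁻¹)) + δ * ff (p - C (Complex.exp (θ * Complex.I))) ^ (1 + η)) := by
        refine lintegral_mono fun θ => ?_
        generalize ff (p - C (Complex.exp (θ * Complex.I))) = x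
        rcases le_total x ((δ : ℝ≥0∞) ^ (-η⁻¹)) with h1 | h1
        · rw [min_eq_left h1]; exact le_self_add
        · refine le_add_left ?_
          have h2 := ENNReal.rpow_le_rpow h1 hη0.le
          rw [← ENNReal.rpow_mul, neg_mul, inv_mul_cancel₀ hη0.ne', ENNReal.rpow_neg_one] at h2
          rw [ENNReal.rpow_add_of_nonneg _ _ zero_le_one hη0.le, ENNReal.rpow_one, mul_left_comm]
          apply le_mul_of_one_le_right'
          rw [← ENNReal.mul_inv_cancel hδ0 ENNReal.coe_ne_top]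
          exact mul_le_mul_right h2 _
    _ ≤ _ := by
        rw [lintegral_add_left (hm.min measurable_const),
          lintegral_const_mul' _ _ ENNReal.coe_ne_top]
        refine add_le_add_right (le_trans (mul_le_mul_right ?_ _) hδ2.le) _
        refine int_le (c := fun k => p.eval (a k)) hKq (fun θ =>
          (h p hp hd a ha (Complex.exp (θ * Complex.I))).imp fun k hk => ?_) fun k => hJ2 _
        refine (ENNReal.rpow_le_rpow hk (by positivity)).trans (le_of_eq ?_)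
        rw [ENNReal.mul_rpow_of_nonneg _ _ (by positivity), ← ENNReal.rpow_mul, neg_mul]

theorem Len_bdd {N : ℕ} (hN : 1 ≤ N) : ∃ L : ℝ≥0∞, L ≠ ∞ ∧ ∀ p : ℂ[X],
    p.Monic → p.natDegree = N + 1 → Len p ≤ L := by
  obtain ⟨M, hM, h⟩ := tail hN one_ne_zero
  refine ⟨M * volume (Ioc (0 : ℝ) (2 * π)) + 1, ENNReal.add_ne_top.mpr
    ⟨ENNReal.mul_ne_top hM measure_Ioc_lt_top.ne, ENNReal.one_ne_top⟩, fun p hp hd =>
    (h p hp hd).trans (add_le_add_left ?_ _)⟩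
  rw [← setLIntegral_const]
  exact lintegral_mono fun θ => min_le_right _ _

theorem Len_cont {N : ℕ} (hN : 1 ≤ N) : Continuous fun e : Fin (N + 1) → ℂ => Len (PP e) := by
  have hT : ∀ M : ℝ≥0∞, M ≠ ∞ → ∀ e0 : Fin (N + 1) → ℂ, Tendsto (fun e : Fin (N + 1) → ℂ =>
      ∫⁻ θ in Ioc (0 : ℝ) (2 * π), min (ff (PP e - C (Complex.exp (θ * Complex.I)))) M) (𝓝 e0)
      (𝓝 (∫⁻ θ in Ioc (0 : ℝ) (2 * π), min (ff (PP e0 - C (Complex.exp (θ * Complex.I)))) M)) :=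
    fun M hM e0 => tendsto_lintegral_filter_of_dominated_convergence (fun _ => M)
      (.of_forall fun e =>
        (ff_meas (by omega) (PP_monic e) (PP_deg e)).measurable.min measurable_const)
      (.of_forall fun e => ae_of_all _ fun θ => min_le_right _ _)
      (by rw [setLIntegral_const]; exact ENNReal.mul_ne_top hM measure_Ioc_lt_top.ne)
      (ae_of_all _ fun θ => (((ff_cont2 (by omega)).tendsto (e0, _)).comp
        (tendsto_id.prodMk_nhds tendsto_const_nhds)).min tendsto_const_nhds)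
  have hL : ∀ (M : ℝ≥0∞) (e : Fin (N + 1) → ℂ),
      ∫⁻ θ in Ioc (0 : ℝ) (2 * π), min (ff (PP e - C (Complex.exp (θ * Complex.I)))) M ≤
        Len (PP e) := fun M e => lintegral_mono fun θ => min_le_left _ _
  refine continuous_iff_continuousAt.mpr fun e0 => tendsto_order.2 ⟨fun B hB => ?_, fun B hB => ?_⟩
  · obtain ⟨ε, hε, h1⟩ := ENNReal.lt_iff_exists_add_pos_lt.mp hB
    obtain ⟨M, hM, h⟩ := tail hN (ε := ε) (by simpa using hε.ne')
    have := lt_of_add_lt_add_right (h1.trans_le (h _ (PP_monic e0) (PP_deg e0)))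
    filter_upwards [(hT M hM e0).eventually (lt_mem_nhds this)] with e he using he.trans_le (hL M e)
  · obtain ⟨ε, hε, h1⟩ := ENNReal.lt_iff_exists_add_pos_lt.mp hB
    obtain ⟨ε', hε', h2⟩ := ENNReal.lt_iff_exists_add_pos_lt.mp h1
    obtain ⟨M, hM, h⟩ := tail hN (ε := ε') (by simpa using hε'.ne')
    have h3 : Len (PP e0) < Len (PP e0) + ε :=
      ENNReal.lt_add_right (hB.trans_le le_top).ne (by simpa using hε.ne')
    filter_upwards [(hT M hM e0).eventually (gt_mem_nhds ((hL M e0).trans_lt h3))] with e he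
    exact ((h _ (PP_monic e) (PP_deg e)).trans (add_le_add_left he.le _)).trans_lt h2

/-- decay at infinity -/
theorem decay {N : ℕ} (hN : 1 ≤ N) {β : ℝ≥0∞} (hβ : β ≠ 0) : ∃ R : ℝ, ∀ p : ℂ[X], p.Monic →
    p.natDegree = N + 1 → ∀ a : Fin N → ℂ,
    (∀ z, p.derivative.eval z = (N + 1) * ∏ k, (z - a k)) → β ≤ Len p →
    (∀ k l, ‖a k - a l‖ ≤ R) ∧ ∃ k, ‖p.eval (a k)‖ ≤ R := by
  have hN0 : (0 : ℝ) < N := by exact_mod_cast hN
  obtain ⟨K, hK, h⟩ := ff_le1 hN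
  obtain ⟨J, hJ, hJ2⟩ := J_all (α := ((N - 1 : ℕ) : ℝ) / N) (by positivity) (by
    rw [div_lt_one hN0]; exact_mod_cast Nat.sub_lt hN one_pos)
  have t1 : Tendsto (fun R : ℝ => (N + 1 : ℕ) *
      ENNReal.ofReal ((2 ^ (N * N) / (R / 2)) ^ ((1 : ℝ) / N)) * (N * J)) atTop (𝓝 0) := by
    have a1 : Tendsto (fun R : ℝ => ((2 : ℝ) ^ (N * N) / (R / 2)) ^ ((1 : ℝ) / N)) atTop (𝓝 0) :=
      (tendsto_const_nhds.div_atTop (tendsto_id.atTop_div_const two_pos)).rpow_const_nhds_zero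
        (by positivity)
    have a2 := ENNReal.Tendsto.mul_const (b := N * J) (ENNReal.Tendsto.const_mul
      (a := (N + 1 : ℕ)) (ENNReal.tendsto_ofReal a1) (Or.inr (ENNReal.natCast_ne_top _)))
      (Or.inr (ENNReal.mul_ne_top (ENNReal.natCast_ne_top _) hJ))
    simpa using a2
  have t2 : Tendsto (fun R : ℝ => K * (N * (ENNReal.ofReal ((R - 1) ^ (-((N : ℝ) / (N + 1 : ℕ)))) *
      volume (Ioc (0 : ℝ) (2 * π))))) atTop (𝓝 0) := by
    have a1 : Tendsto (fun R : ℝ => (R - 1) ^ (-((N : ℝ) / (N + 1 : ℕ)))) atTop (𝓝 0) :=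
      (tendsto_rpow_neg_atTop (by positivity)).comp (tendsto_atTop_add_const_right _ _ tendsto_id)
    have a2 := ENNReal.Tendsto.const_mul (a := K) (ENNReal.Tendsto.const_mul (a := N)
      (ENNReal.Tendsto.mul_const (b := volume (Ioc (0 : ℝ) (2 * π))) (ENNReal.tendsto_ofReal a1)
        (Or.inr measure_Ioc_lt_top.ne)) (Or.inr (ENNReal.natCast_ne_top _))) (Or.inr hK)
    simpa using a2
  obtain ⟨R, hR1, hR2, hR⟩ := ((t1.eventually (gt_mem_nhds hβ.bot_lt)).and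
    ((t2.eventually (gt_mem_nhds hβ.bot_lt)).and (eventually_gt_atTop 1))).exists
  refine ⟨R, fun p hp hd a ha hL => ⟨fun k l => ?_, ?_⟩⟩
  · by_contra! hc
    refine (hL.trans (int_le (c := fun k => p.eval (a k)) (ENNReal.mul_ne_top (ENNReal.natCast_ne_top _) ENNReal.ofReal_ne_top)
      (fun θ => ff_le hN hp hd (fun z => (near hN ha z).imp fun m hm =>
        inv_le (by positivity) hN ?_) _) fun k => hJ2 _)).not_gt hR1
    have h1 : ∃ j, R / 2 ≤ ‖z - a j‖ := by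
      by_contra! h2
      have := norm_sub_le (z - a l) (z - a k)
      rw [sub_sub_sub_cancel_left] at this
      linarith [h2 k, h2 l]
    obtain ⟨j, hj⟩ := h1
    rw [div_mul_eq_mul_div, le_div_iff₀ (by positivity)]
    exact (mul_le_mul_of_nonneg_left hj (by positivity)).trans (hm.2 j)
  · by_contra! hc
    refine (hL.trans (int_le (c := fun k => p.eval (a k)) hK (fun θ => h p hp hd a ha _) fun k => ?_)).not_gt hR2
    rw [← setLIntegral_const]
    refine lintegral_mono fun θ => ?_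
    have h1 : R - 1 ≤ ‖Complex.exp (θ * Complex.I) - p.eval (a k)‖ := by
      have := norm_sub_norm_le (p.eval (a k)) (Complex.exp (θ * Complex.I))
      rw [Complex.norm_exp_ofReal_mul_I, norm_sub_rev] at this
      linarith [hc k]
    show _ ≤ ENNReal.ofReal _
    rw [← ENNReal.ofReal_rpow_of_pos (by linarith), ← ofReal_norm, ENNReal.rpow_neg,
      ENNReal.rpow_neg]
    gcongr

end Pool.Agent.Lib.MP_f225de_an.E
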