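import Pool.Agent.Lib.MP_f225de_an.E1

set_option autoImplicit false

open MeasureTheory Set Filter Topology Polynomial
open scoped ENNReal NNReal Real

namespace Pool.Agent.Lib.MP_f225de_an.EH

open Pool.Agent.Lib.MP_f225de_an.E

/-- lower order part -/
noncomputable def low {n : ℕ} (v : Fin n → ℂ) : ℂ[X] := ∑ i, C (v i) * X ^ (i : ℕ)

lemma PP_line {n : ℕ} (e v : Fin n → ℂ) (t : ℂ) : PP (e + t • v) = PP e + C t * low v := by
  simp only [PP, low, Pi.add_apply, Pi.smul_apply, smul_eq_mul, C_add, C_mul, add_mul,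
    Finset.sum_add_distrib, Finset.mul_sum, mul_assoc, add_assoc]

lemma low_coeff {n : ℕ} (v : Fin n → ℂ) (i : Fin n) : (low v).coeff i = v i := by
  simp [low, coeff_X_pow, Fin.val_inj]

lemma line_deriv (p q : ℂ[X]) (a w : ℂ) :
    HasDerivAt (fun t : ℂ => (p + C t * q).eval (a + t * w))
      (p.derivative.eval a * w + q.eval a) 0 := by
  have h0 : HasDerivAt (fun t : ℂ => a + t * w) w 0 := by
    simpa using ((hasDerivAt_id (0 : ℂ)).mul_const w).const_add a
  have h1 := (p.hasDerivAt a).comp_of_eq 0 h0 (by simp)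
  have h2 := (q.hasDerivAt a).comp_of_eq 0 h0 (by simp)
  have h3 := h1.add ((hasDerivAt_id (0 : ℂ)).mul h2)
  refine (h3.congr_deriv (by simp)).congr_of_eventuallyEq (Eventually.of_forall fun t => ?_)
  simp

lemma der_eq_prod {m : ℕ} (e : Fin (m + 1) → ℂ) (a : Fin m → ℂ) (ha : Function.Injective a)
    (h0 : ∀ k, (PP e).derivative.eval (a k) = 0) :
    (PP e).derivative = C ((m : ℂ) + 1) * ∏ k, (X - C (a k)) := by
  have hm : ((m : ℂ) + 1) ≠ 0 := by exact_mod_cast Nat.succ_ne_zero m
  have hd : (PP e).derivative.natDegree = m := by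
    rw [natDegree_derivative, PP_deg]; rfl
  have hl : (PP e).derivative.leadingCoeff = (m : ℂ) + 1 := by
    rw [leadingCoeff, hd, coeff_derivative]
    have := (PP_monic e).coeff_natDegree
    rw [PP_deg] at this
    rw [this, one_mul]
  have h1 : (C ((m : ℂ) + 1)⁻¹ * (PP e).derivative).Monic :=
    monic_C_mul_of_mul_leadingCoeff_eq_one (by rw [hl, inv_mul_cancel₀ hm])
  rw [← eq_prod h1 (by rw [natDegree_C_mul (inv_ne_zero hm), hd]) a ha (by simp [h0]),
    ← mul_assoc, ← C_mul, mul_inv_cancel₀ hm, C_1, one_mul]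

/-- the square system -/
noncomputable def Th (m : ℕ) (x : (Fin (m + 1) → ℂ) × (Fin m → ℂ)) :
    (Fin (m + 1) → ℂ) × (Fin m → ℂ) :=
  (Fin.snoc (α := fun _ => ℂ) (fun k => (PP x.1).eval (x.2 k)) (x.1 (Fin.last m)),
    fun k => (PP x.1).derivative.eval (x.2 k))

lemma Th_cd (m : ℕ) : ContDiff ℂ 1 (Th m) := by
  refine ContDiff.prodMk (contDiff_pi.2 fun j => ?_) (contDiff_pi.2 fun k => ?_)
  · refine Fin.lastCases ?_ (fun k => ?_) j
    · simp only [Fin.snoc_last]; fun_prop
    · simp only [Fin.snoc_castSucc, PP_eval]; fun_prop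
  · simp only [PP_der]; fun_prop

lemma Th_inj {m : ℕ} (e : Fin (m + 1) → ℂ) (a : Fin m → ℂ) (ha : Function.Injective a)
    (h0 : ∀ k, (PP e).derivative.eval (a k) = 0) :
    Function.Injective (fderiv ℂ (Th m) (e, a)) := by
  rw [injective_iff_map_eq_zero]
  rintro ⟨v, w⟩ hv
  have hD := (((Th_cd m).differentiable one_ne_zero) (e, a)).hasFDerivAt
  have hl : HasDerivAt (fun t : ℂ => (e + t • v, a + t • w)) (v, w) 0 := by
    refine HasDerivAt.prodMk ?_ ?_
    · simpa using ((hasDerivAt_id (0 : ℂ)).smul_const v).const_add e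
    · simpa using ((hasDerivAt_id (0 : ℂ)).smul_const w).const_add a
  have h1 := hD.comp_hasDerivAt_of_eq 0 hl (by simp)
  rw [hv] at h1
  have h2 := hasDerivAt_pi.1 h1.hasFDerivAt.fst.hasDerivAt
  have h3 := hasDerivAt_pi.1 h1.hasFDerivAt.snd.hasDerivAt
  have hlast : v (Fin.last m) = 0 := by
    have h4 := h2 (Fin.last m)
    simp only [Function.comp, Th, Fin.snoc_last] at h4
    have h5 : HasDerivAt (fun t : ℂ => (e + t • v) (Fin.last m)) (v (Fin.last m)) 0 := by
      simpa using ((hasDerivAt_id (0 : ℂ)).mul_const (v (Fin.last m))).const_add (e (Fin.last m))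
    simpa using h5.unique h4
  have hq : ∀ k, (low v).eval (a k) = 0 := fun k => by
    have h4 := h2 k.castSucc
    simp only [Function.comp, Th, Fin.snoc_castSucc, PP_line, Pi.add_apply, Pi.smul_apply,
      smul_eq_mul] at h4
    simpa [h0 k] using (line_deriv (PP e) (low v) (a k) (w k)).unique h4
  have hq0 : low v = 0 := by
    have hdeg : (low v).degree < m := by
      rw [degree_lt_iff_coeff_zero]
      intro j hj
      rcases hj.eq_or_lt with h | h
      · have := low_coeff v (Fin.last m)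
        rw [Fin.val_last, hlast] at this
        rw [← h, this]
      · exact coeff_eq_zero_of_degree_lt ((low_degree v).trans_le (by exact_mod_cast h))
    exact eq_zero_of_degree_lt_of_eval_index_eq_zero Finset.univ (ha.injOn) (by simpa using hdeg)
      fun k _ => hq k
  have hv0 : v = 0 := funext fun i => by rw [← low_coeff v i, hq0]; simp
  subst hv0
  refine Prod.ext rfl (funext fun k => ?_)
  have h4 := h3 k
  simp only [Function.comp, Th, smul_zero, add_zero, Pi.add_apply, Pi.smul_apply,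
    smul_eq_mul] at h4
  have h5 := (line_deriv (PP e).derivative 0 (a k) (w k))
  simp only [mul_zero, add_zero, eval_zero] at h5
  have h6 := h5.unique h4
  have hm : ((m : ℂ) + 1) ≠ 0 := by exact_mod_cast Nat.succ_ne_zero m
  rw [der_eq_prod e a ha h0, derivative_C_mul, eval_mul, eval_C, prod_der_root] at h6
  have h7 : ∏ j ∈ Finset.univ.erase k, (a k - a j) ≠ 0 :=
    Finset.prod_ne_zero_iff.2 fun j hj => sub_ne_zero.2 fun h => (Finset.ne_of_mem_erase hj) (ha h).symm
  simpa [hm, h7] using h6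

/-- a holomorphic family moving exactly one critical value -/
theorem family {m : ℕ} (e : Fin (m + 1) → ℂ) (a : Fin m → ℂ) (ha : Function.Injective a)
    (h0 : ∀ k, (PP e).derivative.eval (a k) = 0) (i : Fin m) :
    ∃ (E : ℂ → Fin (m + 1) → ℂ) (A : ℂ → Fin m → ℂ), E 0 = e ∧ A 0 = a ∧
      ∀ᶠ t in 𝓝 (0 : ℂ), DifferentiableAt ℂ E t ∧ E t (Fin.last m) = e (Fin.last m) ∧
        (∀ k, (PP (E t)).derivative.eval (A t k) = 0) ∧
        ∀ k, (PP (E t)).eval (A t k) = (PP e).eval (a k) + if k = i then t else 0 := by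
  obtain ⟨L, hL⟩ := equiv_of_inj _ (Th_inj e a ha h0)
  have hc : ContDiffAt ℂ 1 (Th m) (e, a) := (Th_cd m).contDiffAt
  have hD : HasFDerivAt (Th m) (L : _ →L[ℂ] _) (e, a) := by
    rw [hL]; exact (hc.differentiableAt one_ne_zero).hasFDerivAt
  let d : (Fin (m + 1) → ℂ) × (Fin m → ℂ) := (Pi.single i.castSucc 1, 0)
  let y : ℂ → (Fin (m + 1) → ℂ) × (Fin m → ℂ) := fun t => Th m (e, a) + t • d
  have hy : Differentiable ℂ y := by unfold y; fun_prop
  have hy0 : Tendsto y (𝓝 0) (𝓝 (Th m (e, a))) := by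
    simpa [y] using hy.continuous.tendsto 0
  let G := hc.localInverse hD one_ne_zero
  have hG0 : G (y 0) = (e, a) := by
    simpa [y] using hc.localInverse_apply_image hD one_ne_zero
  refine ⟨fun t => (G (y t)).1, fun t => (G (y t)).2, by simp only [hG0], by simp only [hG0], ?_⟩
  filter_upwards [hy0.eventually ((hc.to_localInverse hD one_ne_zero).eventually (by simp)),
    hy0.eventually (hc.hasStrictFDerivAt' hD one_ne_zero).eventually_right_inverse] with t h1 h2
  have h3 : Th m (G (y t)) = y t := h2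
  refine ⟨((h1.differentiableAt one_ne_zero).comp t (hy t)).fst, ?_, fun k => ?_, fun k => ?_⟩
  · have := congrFun (congrArg Prod.fst h3) (Fin.last m)
    simpa [Th, y, d, Pi.single_apply, (Fin.castSucc_lt_last i).ne'] using this
  · have := congrFun (congrArg Prod.snd h3) k
    simpa [Th, y, d, h0 k] using this
  · have := congrFun (congrArg Prod.fst h3) k.castSucc
    simpa [Th, y, d, Pi.single_apply] using this

end Pool.Agent.Lib.MP_f225de_an.EH
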