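import Pool.Agent.Lib.MP_f225de_an.E2

set_option autoImplicit false

open MeasureTheory Set Filter Topology Polynomial Metric
open scoped ENNReal NNReal Real

namespace Pool.Agent.Lib.MP_f225de_an.EH

open Pool.Agent.Lib.MP_f225de_an.E

lemma mean_val {f : ℂ → ℂ} {r ρ : ℝ} (hρ : 0 < ρ) (hr : ρ < r)
    (hf : DifferentiableOn ℂ f (ball 0 r)) :
    ENNReal.ofReal (2 * π) * ‖f 0‖ₑ ≤ ∫⁻ φ in Ioc 0 (2 * π), ‖f (circleMap 0 ρ φ)‖ₑ := by
  have hs : closedBall (0 : ℂ) |ρ| ⊆ ball 0 r := by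
    rw [abs_of_pos hρ]; exact closedBall_subset_ball hr
  have h1 : Real.circleAverage f 0 ρ = f 0 :=
    circleAverage_of_differentiable_on_off_countable (s := ∅) countable_empty
      (hf.continuousOn.mono hs)
      (fun z hz => hf.differentiableAt (isOpen_ball.mem_nhds (hs (ball_subset_closedBall hz.1))))
  have hpi : 0 < 2 * π := by positivity
  rw [← h1, Real.circleAverage_def, intervalIntegral.integral_of_le hpi.le, enorm_smul,
    ← mul_assoc, ← ofReal_norm, ← ENNReal.ofReal_mul hpi.le, Real.norm_of_nonneg (by positivity),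
    mul_inv_cancel₀ hpi.ne', ENNReal.ofReal_one, one_mul]
  exact enorm_integral_le_lintegral_enorm _

/-- sub-mean value property of the weighted length in a holomorphic family -/
theorem submean {n : ℕ} (hn : 1 ≤ n) {E : ℂ → Fin n → ℂ} {g : ℂ → ℂ} {r ρ : ℝ} (hρ : 0 < ρ)
    (hr : ρ < r) (hE : DifferentiableOn ℂ E (ball 0 r)) (hg : DifferentiableOn ℂ g (ball 0 r))
    (hs : ∀ᵐ θ : ℝ, ∀ t ∈ ball (0 : ℂ) r, ∀ z,
      (PP (E t)).eval z = Complex.exp (θ * Complex.I) → (PP (E t)).derivative.eval z ≠ 0)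
    (M : ℝ≥0∞) (hM : ∀ t : ℂ, ‖t‖ = ρ → Len (PP (E t)) * ‖g t‖ₑ ≤ M) :
    Len (PP (E 0)) * ‖g 0‖ₑ ≤ M := by
  have hpi : 0 < 2 * π := by positivity
  have hcm : ∀ φ, circleMap 0 ρ φ ∈ ball (0 : ℂ) r := fun φ => by
    simpa [abs_of_pos hρ] using hr
  have h0 : (0 : ℂ) ∈ ball (0 : ℂ) r := mem_ball_self (hρ.trans hr)
  have cE : Continuous fun φ => E (circleMap 0 ρ φ) :=
    hE.continuousOn.comp_continuous (continuous_circleMap _ _) hcm
  have cg : Continuous fun φ => g (circleMap 0 ρ φ) :=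
    hg.continuousOn.comp_continuous (continuous_circleMap _ _) hcm
  let F : ℝ → ℂ → ℝ≥0∞ := fun θ t => ff (PP (E t) - C (Complex.exp (θ * Complex.I))) * ‖g t‖ₑ
  have key : ∀ᵐ θ : ℝ, ENNReal.ofReal (2 * π) * F θ 0 ≤
      ∫⁻ φ in Ioc 0 (2 * π), F θ (circleMap 0 ρ φ) := by
    filter_upwards [hs] with θ hθ
    obtain ⟨z, hz, -, hp⟩ := branches hn isOpen_ball (convex_ball (0 : ℂ) r) hE
      (differentiableOn_const (Complex.exp (θ * Complex.I))) hθ
    have hne : ∀ j, ∀ t ∈ ball (0 : ℂ) r, (PP (E t)).derivative.eval (z j t) ≠ 0 := fun j t ht => by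
      apply hθ t ht
      have := congrArg (eval (z j t)) (hp t ht)
      rw [eval_prod, Finset.prod_eq_zero (Finset.mem_univ j) (by simp)] at this
      simpa [sub_eq_zero] using this
    let h : Fin n → ℂ → ℂ := fun j t => ((PP (E t)).derivative.eval (z j t))⁻¹ * g t
    have hh : ∀ j, DifferentiableOn ℂ (h j) (ball 0 r) := fun j => by
      refine DifferentiableOn.mul (DifferentiableOn.inv ?_ (hne j)) hg
      simp only [PP_der]
      have h1 := hz j
      have h2 := fun i => differentiableOn_pi.1 hE i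
      fun_prop
    have hF : ∀ t ∈ ball (0 : ℂ) r, F θ t = ∑ j, ‖h j t‖ₑ := fun t ht => by
      simp only [F, h]
      rw [hp t ht, ff_prod, ← hp t ht, Finset.sum_mul]
      refine Finset.sum_congr rfl fun j _ => ?_
      rw [enorm_mul, enorm_inv (hne j t ht)]
      simp
    simp only [hF _ h0, hF _ (hcm _)]
    rw [Finset.mul_sum, lintegral_finsetSum]
    · exact Finset.sum_le_sum fun j _ => mean_val hρ hr (hh j)
    · exact fun j _ =>
        ((hh j).continuousOn.comp_continuous (continuous_circleMap _ _) hcm).enorm.measurable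
  have hm : Measurable (Function.uncurry fun (θ φ : ℝ) => F θ (circleMap 0 ρ φ)) := by
    refine Measurable.mul (Continuous.measurable ?_) (cg.comp continuous_snd).enorm.measurable
    exact (ff_cont2 hn).comp (f := fun x : ℝ × ℝ => (E (circleMap 0 ρ x.2),
      Complex.exp (x.1 * Complex.I))) ((cE.comp continuous_snd).prodMk (by fun_prop))
  have hL : ∀ t, Len (PP (E t)) * ‖g t‖ₑ = ∫⁻ θ in Ioc 0 (2 * π), F θ t := fun t => by
    rw [Len, lintegral_mul_const' _ _ enorm_ne_top]
  have h1 : ENNReal.ofReal (2 * π) * (Len (PP (E 0)) * ‖g 0‖ₑ) ≤ ENNReal.ofReal (2 * π) * M := by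
    rw [hL, ← lintegral_const_mul' _ _ ENNReal.ofReal_ne_top]
    refine (lintegral_mono_ae (ae_restrict_of_ae key)).trans ?_
    rw [lintegral_lintegral_swap hm.aemeasurable]
    refine (lintegral_mono fun φ => (hL _).symm.trans_le
      (hM _ (by simp [abs_of_pos hρ]))).trans ?_
    simp [mul_comm]
  exact (ENNReal.mul_le_mul_iff_right (by simpa using Real.pi_pos) ENNReal.ofReal_ne_top).1 h1

end Pool.Agent.Lib.MP_f225de_an.EH
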