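import Pool.Agent.Lib.MP_f225de_an.EH1
import Pool.Agent.Lib.MP_f225de_an.EH2

set_option autoImplicit false

open MeasureTheory Set Filter Topology Polynomial Metric
open scoped ENNReal NNReal Real ComplexConjugate

namespace Pool.Agent.Lib.MP_f225de_an.EH

open Pool.Agent.Lib.MP_f225de_an.E

/-- the penalty factor -/
noncomputable def Ps {m : ℕ} (c : Fin m → ℂ) : ℝ :=
  (∏ j, ∏ k ∈ Finset.univ.erase j, ‖c j - c k‖ / (max 1 ‖c j‖ * max 1 ‖c k‖)) *
    ∏ k, (1 + ‖c k‖ ^ 2) / max 1 ‖c k‖ ^ 3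

lemma Ps_nonneg {m : ℕ} (c : Fin m → ℂ) : 0 ≤ Ps c := by unfold Ps; positivity

lemma Ps_cont (m : ℕ) : Continuous (Ps (m := m)) := by
  unfold Ps
  refine Continuous.mul (continuous_finsetProd _ fun j _ => continuous_finsetProd _ fun k _ =>
    Continuous.div (by fun_prop) (by fun_prop) fun c => by positivity)
    (continuous_finsetProd _ fun k _ =>
      Continuous.div (by fun_prop) (by fun_prop) fun c => by positivity)

lemma Ps_pos {m : ℕ} {c : Fin m → ℂ} : 0 < Ps c ↔ Function.Injective c := by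
  constructor
  · intro h j k hjk
    by_contra hne
    apply h.ne'
    unfold Ps
    rw [Finset.prod_eq_zero (Finset.mem_univ j)
      (Finset.prod_eq_zero (i := k) (by simpa using Ne.symm hne) (by simp [hjk])), zero_mul]
  · intro h
    unfold Ps
    refine mul_pos (Finset.prod_pos fun j _ => Finset.prod_pos fun k hk => div_pos ?_
      (by positivity)) (Finset.prod_pos fun k _ => by positivity)
    exact norm_pos_iff.2 (sub_ne_zero.2 fun e => Finset.ne_of_mem_erase hk (h e).symm)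

lemma Ps_le {m : ℕ} (c : Fin m → ℂ) (i : Fin m) :
    Ps c ≤ (2 ^ m) ^ m * 2 ^ m / max 1 ‖c i‖ := by
  have h1 : ∀ j, ∏ k ∈ Finset.univ.erase j, ‖c j - c k‖ / (max 1 ‖c j‖ * max 1 ‖c k‖) ≤
      (2 : ℝ) ^ m := fun j => by
    refine (Finset.prod_le_prod (g := fun _ => (2 : ℝ)) (fun k _ => by positivity)
      fun k _ => ?_).trans ((Finset.prod_const _).trans_le
      (pow_le_pow_right₀ one_le_two (by simp)))
    rw [div_le_iff₀ (by positivity)]
    have a1 := le_max_left 1 ‖c j‖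
    have a2 := le_max_right 1 ‖c j‖
    have a3 := le_max_left 1 ‖c k‖
    have a4 := le_max_right 1 ‖c k‖
    nlinarith [norm_sub_le (c j) (c k)]
  have h2 : ∀ k, (1 + ‖c k‖ ^ 2) / max 1 ‖c k‖ ^ 3 ≤ 2 / max 1 ‖c k‖ := fun k => by
    have a1 := le_max_left 1 ‖c k‖
    have a2 := le_max_right 1 ‖c k‖
    rw [div_le_div_iff₀ (by positivity) (by positivity)]
    have a3 : ‖c k‖ ^ 2 ≤ max 1 ‖c k‖ ^ 2 := by gcongr
    have a4 : 1 ≤ max 1 ‖c k‖ ^ 2 := one_le_pow₀ a1
    nlinarith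
  unfold Ps
  rw [mul_div_assoc]
  refine mul_le_mul ?_ ?_ (by positivity) (by positivity)
  · simpa using Finset.prod_le_prod (s := Finset.univ) (g := fun _ => (2 : ℝ) ^ m)
      (fun j _ => by positivity) fun j _ => h1 j
  · refine (Finset.prod_le_prod (fun k _ => by positivity) fun k _ => h2 k).trans ?_
    rw [Finset.prod_div_distrib]
    simp only [Finset.prod_const, Finset.card_univ, Fintype.card_fin]
    gcongr
    rw [← Finset.mul_prod_erase _ _ (Finset.mem_univ i)]
    exact le_mul_of_one_le_right (by positivity)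
      (Finset.one_le_prod fun k _ => le_max_left _ _)

lemma lagr (a c : ℂ) :
    (1 + ‖c‖ ^ 2) * (1 + ‖a‖ ^ 2) = ‖1 + conj a * c‖ ^ 2 + ‖c - a‖ ^ 2 := by
  simp only [Complex.sq_norm, Complex.normSq_apply, Complex.add_re, Complex.add_im, Complex.mul_re,
    Complex.mul_im, Complex.conj_re, Complex.conj_im, Complex.one_re, Complex.one_im,
    Complex.sub_re, Complex.sub_im]
  ring

/-- a holomorphic minorant of the penalty along a moving value, with a strict gap -/
lemma Ps_hol {m : ℕ} (c : Fin m → ℂ) (i : Fin m) (hi : ‖c i‖ ≠ 1) :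
    ∃ (H : ℂ → ℂ) (β : ℝ), 0 < β ∧ ‖H 0‖ = Ps c ∧ ∀ᶠ t in 𝓝 (0 : ℂ), DifferentiableAt ℂ H t ∧
      (1 + β * ‖t‖ ^ 2) * ‖H t‖ ≤ Ps fun k => c k + if k = i then t else 0 := by
  let u : Fin m → ℂ → ℂ := fun k t => c k + if k = i then t else 0
  have hu : ∀ k, Differentiable ℂ (u k) := fun k => by
    unfold u; split_ifs <;> fun_prop
  have hu0 : ∀ k, u k 0 = c k := fun k => by simp [u]
  let d : Fin m → ℂ → ℂ := fun k t => if ‖c k‖ ≤ 1 then 1 else u k t
  have hd : ∀ k, Differentiable ℂ (d k) := fun k => by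
    unfold d; split_ifs
    · fun_prop
    · exact hu k
  have hdn : ∀ᶠ t in 𝓝 (0 : ℂ), ∀ k, ‖d k t‖ = max 1 ‖u k t‖ := by
    refine eventually_all.2 fun k => ?_
    have hc : Tendsto (fun t => ‖u k t‖) (𝓝 0) (𝓝 ‖c k‖) := by
      simpa [hu0] using ((hu k).continuous.tendsto 0).norm
    rcases lt_trichotomy ‖c k‖ 1 with h | h | h
    · filter_upwards [hc.eventually (gt_mem_nhds h)] with t ht
      simp [d, h.le, ht.le]
    · have hk : k ≠ i := fun e => hi (e ▸ h)
      simp [d, u, h, hk]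
    · filter_upwards [hc.eventually (lt_mem_nhds h)] with t ht
      simp [d, h.not_ge, ht.le]
  let q : Fin m → ℂ → ℂ := fun k t => (1 + conj (c k) * u k t) ^ 2 / ((1 + ‖c k‖ ^ 2 : ℝ) : ℂ)
  have hq : ∀ k t, ‖q k t‖ * (1 + ‖c k‖ ^ 2) + ‖u k t - c k‖ ^ 2 =
      (1 + ‖u k t‖ ^ 2) * (1 + ‖c k‖ ^ 2) := fun k t => by
    rw [lagr]
    simp only [q, norm_div, norm_pow, Complex.norm_real]
    rw [Real.norm_of_nonneg (by positivity), div_mul_cancel₀ _ (by positivity)]
  let H : ℂ → ℂ := fun t => (∏ j, ∏ k ∈ Finset.univ.erase j, (u j t - u k t) / (d j t * d k t)) *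
    ∏ k, q k t / d k t ^ 3
  have hH : ∀ t, (∀ k, ‖d k t‖ = max 1 ‖u k t‖) → ‖H t‖ =
      (∏ j, ∏ k ∈ Finset.univ.erase j, ‖u j t - u k t‖ / (max 1 ‖u j t‖ * max 1 ‖u k t‖)) *
        ∏ k, ‖q k t‖ / max 1 ‖u k t‖ ^ 3 := fun t ht => by
    simp only [H, norm_mul, norm_prod, norm_div, norm_pow, ht]
  set Q := (1 + (‖c i‖ + 1) ^ 2) * (1 + ‖c i‖ ^ 2) with hQ
  have hQ0 : 0 < Q := by positivity
  refine ⟨H, 1 / Q, by positivity, ?_, ?_⟩
  · rw [hH 0 hdn.self_of_nhds, Ps]
    simp only [hu0]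
    congr 1
    refine Finset.prod_congr rfl fun k _ => ?_
    have := hq k 0
    rw [hu0, sub_self, norm_zero, zero_pow two_ne_zero, add_zero] at this
    rw [mul_right_cancel₀ (by positivity) this]
  · filter_upwards [hdn, ball_mem_nhds (0 : ℂ) one_pos] with t ht ht1
    have hd0 : ∀ k, d k t ≠ 0 := fun k => norm_pos_iff.1 (by rw [ht]; positivity)
    constructor
    · refine DifferentiableAt.mul (DifferentiableAt.fun_finsetProd fun j _ =>
        DifferentiableAt.fun_finsetProd fun k _ => ((hu j t).sub (hu k t)).div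
          ((hd j t).mul (hd k t)) (mul_ne_zero (hd0 j) (hd0 k)))
        (DifferentiableAt.fun_finsetProd fun k _ => DifferentiableAt.div ?_ ((hd k t).pow 3)
          (pow_ne_zero 3 (hd0 k)))
      have := hu k t
      unfold q
      fun_prop
    · rw [hH t ht, Ps, mul_left_comm]
      refine mul_le_mul_of_nonneg_left ?_ (by positivity)
      rw [← Finset.mul_prod_erase _ _ (Finset.mem_univ i),
        ← Finset.mul_prod_erase _ _ (Finset.mem_univ i), ← mul_assoc, ← mul_div_assoc]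
      refine mul_le_mul (div_le_div_of_nonneg_right ?_ (by positivity))
        (Finset.prod_le_prod (fun k _ => by positivity) fun k _ =>
          div_le_div_of_nonneg_right ?_ (by positivity)) (by positivity) (by positivity)
      · have h1 := hq i t
        have h2 : u i t - c i = t := by simp [u]
        have h3 : ‖u i t‖ ≤ ‖c i‖ + 1 := by
          have : ‖t‖ < 1 := by simpa using ht1
          simp only [u, if_true]
          linarith [norm_add_le (c i) t]
        have h4 : ‖u i t‖ ^ 2 ≤ (‖c i‖ + 1) ^ 2 := by gcongr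
        rw [h2] at h1
        have h5 : ‖q i t‖ * (1 + ‖c i‖ ^ 2) ≤ Q := by nlinarith [sq_nonneg ‖t‖, sq_nonneg ‖c i‖]
        have h6 : 1 / Q * (‖q i t‖ * (1 + ‖c i‖ ^ 2)) ≤ 1 := by
          rw [one_div, inv_mul_le_iff₀ hQ0]; linarith
        refine le_of_mul_le_mul_right ?_ (show 0 < 1 + ‖c i‖ ^ 2 by positivity)
        show _ ≤ (1 + ‖u i t‖ ^ 2) * _
        nlinarith [sq_nonneg ‖t‖]
      · refine le_of_mul_le_mul_right ?_ (show 0 < 1 + ‖c k‖ ^ 2 by positivity)
        show _ ≤ (1 + ‖u k t‖ ^ 2) * _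
        nlinarith [hq k t, sq_nonneg ‖u k t - c k‖]

end Pool.Agent.Lib.MP_f225de_an.EH
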