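import Pool.Agent.Lib.MP_f225de_an.EH3

set_option autoImplicit false

open MeasureTheory Set Filter Topology Polynomial Metric
open scoped ENNReal NNReal Real

namespace Pool.Agent.Lib.MP_f225de_an.EH

open Pool.Agent.Lib.MP_f225de_an.E

/-- polynomials with a list of critical points and a fixed second coefficient -/
def XX (m : ℕ) (s : ℂ) : Set ((Fin (m + 1) → ℂ) × (Fin m → ℂ)) :=
  {x | x.1 (Fin.last m) = s ∧ ∀ z, (PP x.1).derivative.eval z = (m + 1) * ∏ k, (z - x.2 k)}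

/-- critical values -/
noncomputable def cv {m : ℕ} (x : (Fin (m + 1) → ℂ) × (Fin m → ℂ)) : Fin m → ℂ :=
  fun k => (PP x.1).eval (x.2 k)

/-- penalised length -/
noncomputable def WW {m : ℕ} (ε : ℝ) (x : (Fin (m + 1) → ℂ) × (Fin m → ℂ)) : ℝ≥0∞ :=
  Len (PP x.1) * ENNReal.ofReal (Ps (cv x) ^ ε)

lemma XX_crit {m : ℕ} {s : ℂ} {x : (Fin (m + 1) → ℂ) × (Fin m → ℂ)} (hx : x ∈ XX m s) (k : Fin m) :
    (PP x.1).derivative.eval (x.2 k) = 0 := by
  rw [hx.2, Finset.prod_eq_zero (Finset.mem_univ k) (sub_self _), mul_zero]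

theorem loc {m : ℕ} {s : ℂ} {ε : ℝ} (hε : 0 < ε) {x : (Fin (m + 1) → ℂ) × (Fin m → ℂ)}
    (hx : x ∈ XX m s) (hc : Function.Injective (cv x)) (hmax : ∀ y ∈ XX m s, WW ε y ≤ WW ε x)
    (h0 : Len (PP x.1) ≠ 0) (h1 : Len (PP x.1) ≠ ∞) (i : Fin m) : ‖cv x i‖ = 1 := by
  by_contra hi
  obtain ⟨e, a⟩ := x
  have ha : Function.Injective a := fun j k h => hc (by simp [cv, h])
  obtain ⟨E, A, hE0, -, hE⟩ := family e a ha (XX_crit hx) i
  set c := cv (e, a) with hcd
  obtain ⟨H, β, hβ, hH0, hH⟩ := Ps_hol c i hi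
  have hP : 0 < Ps c := Ps_pos.2 hc
  have hH1 : H 0 ≠ 0 := norm_pos_iff.1 (hH0 ▸ hP)
  let u : ℂ → Fin m → ℂ := fun t k => c k + if k = i then t else 0
  have hu : Tendsto u (𝓝 0) (𝓝 c) := by
    have : Continuous u := continuous_pi fun k => by unfold u; split_ifs <;> fun_prop
    simpa [u] using this.tendsto 0
  have e1 : ∀ᶠ t in 𝓝 (0 : ℂ), 0 < Ps (u t) :=
    (((Ps_cont m).tendsto c).comp hu).eventually (lt_mem_nhds hP)
  have e2 : ∀ᶠ t in 𝓝 (0 : ℂ), ‖u t i‖ ≠ 1 :=
    (tendsto_pi_nhds.1 hu i).norm.eventually_ne hi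
  have e3 : ∀ᶠ t in 𝓝 (0 : ℂ), H t / H 0 ∈ Complex.slitPlane := by
    apply (hH.self_of_nhds.1.continuousAt.div_const (H 0)).eventually
      (Complex.isOpen_slitPlane.mem_nhds _)
    simp [div_self hH1]
  obtain ⟨r, hr, hb⟩ := Metric.eventually_nhds_iff_ball.1 (hE.and (hH.and (e1.and (e2.and e3))))
  have hX : ∀ t ∈ ball (0 : ℂ) r, (E t, A t) ∈ XX m s ∧ cv (E t, A t) = u t := fun t ht => by
    obtain ⟨⟨-, a2, a3, a4⟩, -, a5, -⟩ := hb t ht
    have hcv : cv (E t, A t) = u t := funext a4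
    refine ⟨⟨a2.trans hx.1, fun z => ?_⟩, hcv⟩
    have hA : Function.Injective (A t) := fun j k h =>
      Ps_pos.1 a5 (by rw [← hcv]; simp [cv, h])
    rw [der_eq_prod _ _ hA a3]
    simp [eval_prod]
  set κ := (1 + β * (r / 2) ^ 2)⁻¹ ^ ε with hκ
  have hκ1 : κ < 1 := Real.rpow_lt_one (by positivity)
    (inv_lt_one_of_one_lt₀ (by have : 0 < β * (r / 2) ^ 2 := by positivity
                               linarith)) hε
  have key := submean (n := m + 1) (by omega) (E := E) (g := fun t => (H t / H 0) ^ (ε : ℂ))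
    (half_pos hr) (half_lt_self hr) (fun t ht => (hb t ht).1.1.differentiableWithinAt)
    (fun t ht => (((hb t ht).2.1.1.div_const _).cpow_const
      (hb t ht).2.2.2.2).differentiableWithinAt) ?_ (Len (PP e) * ENNReal.ofReal κ) ?_
  · rw [hE0, div_self hH1, Complex.one_cpow, enorm_one] at key
    have := (ENNReal.mul_le_mul_iff_right h0 h1).1 key
    exact absurd (ENNReal.ofReal_lt_one.2 hκ1) this.not_gt
  · have hz := ((finite_range c).countable.preimage_circleMap 0 one_ne_zero).measure_zero volume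
    filter_upwards [measure_eq_zero_iff_ae_notMem.1 hz] with θ hθ t ht z hz1 hz2
    rw [(hX t ht).1.2, mul_eq_zero, Finset.prod_eq_zero_iff] at hz2
    rcases hz2 with h | ⟨k, -, hk⟩
    · exact (Nat.succ_ne_zero m) (by exact_mod_cast h)
    · have h2 : u t k = Complex.exp (θ * Complex.I) := by
        rw [← hz1, ← (hX t ht).2, sub_eq_zero.1 hk]; rfl
      by_cases hk' : k = i
      · apply (hb t ht).2.2.2.1
        rw [← hk', h2]; simp
      · exact hθ ⟨k, by simpa [u, hk', circleMap] using h2⟩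
  · intro t ht
    have htb : t ∈ ball (0 : ℂ) r := by simpa [ht] using hr
    have h2 : ‖(H t / H 0) ^ (ε : ℂ)‖ₑ ≤
        ENNReal.ofReal (Ps (u t) ^ ε) * ENNReal.ofReal (κ / Ps c ^ ε) := by
      rw [← ofReal_norm, ← ENNReal.ofReal_mul (Real.rpow_nonneg (Ps_nonneg _) _),
        Complex.norm_cpow_real, hκ, ← Real.div_rpow (by positivity) hP.le,
        ← Real.mul_rpow (Ps_nonneg _) (by positivity), norm_div, hH0]
      apply ENNReal.ofReal_le_ofReal
      refine Real.rpow_le_rpow (by positivity) ?_ hε.le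
      have h3 := (hb t htb).2.1.2
      rw [ht] at h3
      rw [← mul_div_assoc]
      refine div_le_div_of_nonneg_right ?_ hP.le
      rw [← div_eq_mul_inv, le_div_iff₀' (by positivity)]
      exact h3
    have h4 := hmax _ (hX t htb).1
    rw [WW, WW, (hX t htb).2] at h4
    refine (mul_le_mul_right h2 _).trans ?_
    rw [← mul_assoc]
    refine (mul_le_mul_left h4 _).trans_eq ?_
    rw [mul_assoc, ← ENNReal.ofReal_mul (Real.rpow_nonneg (Ps_nonneg _) _),
      mul_div_cancel₀ _ (Real.rpow_pos_of_pos hP ε).ne']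

end Pool.Agent.Lib.MP_f225de_an.EH
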