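import Pool.Agent.Lib.MP_f225de_an.EH4
import Pool.Agent.Lib.MP_f225de_an.E5

set_option autoImplicit false

open MeasureTheory Set Filter Topology Polynomial Metric
open scoped ENNReal NNReal Real

namespace Pool.Agent.Lib.MP_f225de_an.EH

open Pool.Agent.Lib.MP_f225de_an.E

lemma coeff_diff {n : ℕ} (s : Finset (Fin n)) (i : ℕ) :
    Differentiable ℂ fun r : Fin n → ℂ => (∏ j ∈ s, (X - C (r j)) : ℂ[X]).coeff i := by
  induction s using Finset.induction_on generalizing i with
  | empty => simp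
  | insert a s ha ih =>
    simp only [Finset.prod_insert ha, coeff_mul]
    refine Differentiable.fun_sum fun x _ => Differentiable.mul ?_ (ih _)
    simp only [coeff_sub, coeff_C]
    split_ifs <;> fun_prop

/-- coefficients from the critical points and the constant term -/
noncomputable def Ga {m : ℕ} (a : Fin m → ℂ) (w : ℂ) : Fin (m + 1) → ℂ :=
  Fin.cons w fun i => (m + 1) * (∏ j, (X - C (a j)) : ℂ[X]).coeff i / ((i : ℕ) + 1)

lemma Ga_diff (m : ℕ) : Differentiable ℂ fun x : (Fin m → ℂ) × ℂ => Ga x.1 x.2 := by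
  refine differentiable_pi.2 fun i => Fin.cases ?_ (fun i => ?_) i
  · simp [Ga]
  · simp only [Ga, Fin.cons_succ]
    simp only [div_eq_mul_inv]
    exact (((coeff_diff (n := m) Finset.univ i).comp
      (differentiable_fst (𝕜 := ℂ) (F := ℂ))).const_mul _).mul_const _

lemma uniq {p q : ℂ[X]} (h : p.derivative = q.derivative) (h0 : p.coeff 0 = q.coeff 0) : p = q := by
  ext i
  rcases i with _ | i
  · exact h0
  · have := congrArg (fun r => r.coeff i) h
    simp only [coeff_derivative] at this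
    exact mul_right_cancel₀ (by exact_mod_cast i.succ_ne_zero) this

lemma Ga_der {m : ℕ} (a : Fin m → ℂ) (w : ℂ) :
    (PP (Ga a w)).derivative = C ((m : ℂ) + 1) * ∏ j, (X - C (a j)) := by
  have hm : (∏ j, (X - C (a j)) : ℂ[X]).Monic := monic_prod_of_monic _ _ fun j _ => monic_X_sub_C _
  have hd : (∏ j, (X - C (a j)) : ℂ[X]).natDegree = m := by
    rw [natDegree_finsetProd_X_sub_C_eq_card]; simp
  ext i
  rw [coeff_derivative, coeff_C_mul]
  rcases lt_trichotomy i m with h | h | h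
  · have := PP_coeff (Ga a w) (Fin.succ ⟨i, h⟩)
    simp only [Fin.val_succ, Ga, Fin.cons_succ] at this
    rw [Ga, this, div_mul_cancel₀ _ (by exact_mod_cast i.succ_ne_zero)]
  · have h1 := (PP_monic (Ga a w)).coeff_natDegree
    have h2 := hm.coeff_natDegree
    rw [PP_deg] at h1
    rw [hd] at h2
    rw [h, h1, h2, mul_comm]
  · rw [coeff_eq_zero_of_natDegree_lt (by rw [PP_deg]; omega),
      coeff_eq_zero_of_natDegree_lt (by rw [hd]; omega)]
    simp

lemma Ga_zero {m : ℕ} (a : Fin m → ℂ) (w : ℂ) : (PP (Ga a w)).coeff 0 = w :=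
  PP_coeff (Ga a w) 0

lemma XX_der {m : ℕ} {s : ℂ} {x : (Fin (m + 1) → ℂ) × (Fin m → ℂ)} (hx : x ∈ XX m s) :
    (PP x.1).derivative = C ((m : ℂ) + 1) * ∏ j, (X - C (x.2 j)) :=
  Polynomial.funext fun z => by rw [hx.2]; simp [eval_prod]

lemma XX_Ga {m : ℕ} {s : ℂ} {x : (Fin (m + 1) → ℂ) × (Fin m → ℂ)} (hx : x ∈ XX m s) :
    Ga x.2 (x.1 0) = x.1 := funext fun i => by
  rw [← PP_coeff (Ga x.2 (x.1 0)) i, ← PP_coeff x.1 i,
    uniq ((Ga_der _ _).trans (XX_der hx).symm) ((Ga_zero _ _).trans (PP_coeff x.1 0).symm)]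

lemma Ga_mem {m : ℕ} (a : Fin m → ℂ) (w : ℂ) : (Ga a w, a) ∈ XX m (Ga a w (Fin.last m)) :=
  ⟨rfl, fun z => by simp [Ga_der, eval_prod]⟩

lemma XX_closed (m : ℕ) (s : ℂ) : IsClosed (XX m s) := by
  refine IsClosed.inter (isClosed_eq (by fun_prop) continuous_const) ?_
  show IsClosed {x : (Fin (m + 1) → ℂ) × (Fin m → ℂ) | ∀ z, _}
  rw [ofPred_forall]
  refine isClosed_iInter fun z => isClosed_eq ?_ (by fun_prop)
  simp only [PP_der]
  fun_prop

lemma cv_cont (m : ℕ) : Continuous (cv (m := m)) := by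
  unfold cv
  simp only [PP_eval]
  fun_prop

lemma XX_compact {m : ℕ} (hm : 1 ≤ m) (s : ℂ) {β : ℝ≥0∞} (hβ : β ≠ 0) :
    IsCompact (XX m s ∩ {x | β ≤ Len (PP x.1)}) := by
  obtain ⟨R, hR⟩ := decay hm hβ
  let G : Fin m → (Fin m → ℂ) × ℂ → (Fin (m + 1) → ℂ) × (Fin m → ℂ) := fun k y =>
    (Ga y.1 (y.2 - cv (Ga y.1 0, y.1) k), y.1)
  have hG : ∀ k, Continuous (G k) := fun k => by
    have h1 := (Ga_diff m).continuous
    refine (h1.comp (continuous_fst.prodMk (continuous_snd.sub ((continuous_apply k).comp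
      ((cv_cont m).comp ((h1.comp (continuous_fst.prodMk continuous_const)).prodMk
        continuous_fst)))))).prodMk continuous_fst
  refine (isCompact_iUnion fun k => (isCompact_closedBall 0 (|R| + ‖s‖)).image (hG k)).of_isClosed_subset
    ((XX_closed m s).inter (isClosed_le continuous_const ((Len_cont hm).comp continuous_fst))) ?_
  rintro ⟨e, a⟩ ⟨hx, hl⟩
  obtain ⟨h1, k, h2⟩ := hR _ (PP_monic e) (PP_deg e) a hx.2 hl
  have hm0 : (0 : ℝ) < m := by exact_mod_cast hm
  refine mem_iUnion.2 ⟨k, (a, (PP e).eval (a k)), ?_, Prod.ext ?_ rfl⟩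
  · rw [mem_closedBall_zero_iff, Prod.norm_def, max_le_iff]
    refine ⟨(pi_norm_le_iff_of_nonneg (by positivity)).2 fun j => ?_,
      by linarith [le_abs_self R, norm_nonneg s]⟩
    have h3 := congrArg (fun r => r.coeff (m - 1)) (XX_der hx)
    have h4 := prod_X_sub_C_coeff_card_pred Finset.univ a (by simp; omega)
    have h5 := PP_coeff e (Fin.last m)
    simp only [Finset.card_univ, Fintype.card_fin, Fin.val_last] at h4 h5
    simp only [coeff_derivative, coeff_C_mul, h4, Nat.sub_add_cancel hm, h5] at h3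
    have h6 : ((m - 1 : ℕ) : ℂ) + 1 = m := by exact_mod_cast Nat.sub_add_cancel hm
    have h7 : e (Fin.last m) = s := hx.1
    rw [h6, h7] at h3
    have h8 : (m + 1) * ‖∑ l, a l‖ = ‖s‖ * m := by
      have := congrArg norm h3
      rw [norm_mul, norm_mul, norm_neg] at this
      rw [Complex.norm_natCast] at this
      rw [this]; congr 1
      exact_mod_cast (Complex.norm_natCast (m + 1)).symm
    have h9 : (m : ℂ) * a j = ∑ l, (a j - a l) + ∑ l, a l := by simp [Finset.sum_sub_distrib]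
    have h10 : (m : ℝ) * ‖a j‖ ≤ m * |R| + ‖∑ l, a l‖ := by
      have := congrArg norm h9
      rw [norm_mul, Complex.norm_natCast] at this
      rw [this]
      refine (norm_add_le _ _).trans (add_le_add_left ((norm_sum_le _ _).trans ?_) _)
      simpa using Finset.sum_le_card_nsmul Finset.univ _ |R| fun l _ => (h1 j l).trans (le_abs_self R)
    refine le_of_mul_le_mul_left (h10.trans ?_) hm0
    nlinarith [norm_nonneg (∑ l, a l)]
  · have h3 : PP e = PP (Ga a 0) + C (e 0) :=
      uniq (by rw [XX_der hx]; simp [Ga_der]) (by simpa [Ga_zero] using PP_coeff e 0)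
    have h4 : (PP e).eval (a k) - cv (Ga a 0, a) k = e 0 := by rw [h3]; simp [cv]
    simp only [G, h4]
    exact XX_Ga hx

end Pool.Agent.Lib.MP_f225de_an.EH
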