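import Pool.Agent.Lib.MP_f225de_an.EH5

set_option autoImplicit false

open MeasureTheory Set Filter Topology Polynomial Metric
open scoped ENNReal NNReal Real

namespace Pool.Agent.Lib.MP_f225de_an.EH

open Pool.Agent.Lib.MP_f225de_an.E

lemma eps_bound {m : ℕ} (hm : 1 ≤ m) {B : ℝ≥0∞}
    (h : ∀ s, ∀ x ∈ XX m s, Function.Injective (cv x) → (∀ k, ‖cv x k‖ = 1) → Len (PP x.1) ≤ B)
    {s : ℂ} {ε : ℝ} (hε : 0 < ε) {x : (Fin (m + 1) → ℂ) × (Fin m → ℂ)} (hx : x ∈ XX m s) :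
    WW ε x ≤ B * ENNReal.ofReal (((2 ^ m) ^ m * 2 ^ m) ^ ε) := by
  set K := ENNReal.ofReal ((((2 : ℝ) ^ m) ^ m * 2 ^ m) ^ ε) with hK
  have hK0 : K ≠ 0 := (ENNReal.ofReal_pos.2 (by positivity)).ne'
  have hK1 : K ≠ ∞ := ENNReal.ofReal_ne_top
  have hW : ∀ y : (Fin (m + 1) → ℂ) × (Fin m → ℂ), WW ε y ≤ Len (PP y.1) * K := fun y =>
    mul_le_mul_right (ENNReal.ofReal_le_ofReal (Real.rpow_le_rpow (Ps_nonneg _)
      ((Ps_le _ ⟨0, hm⟩).trans (div_le_self (by positivity) (le_max_left _ _))) hε.le)) _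
  obtain ⟨L, hL, hL2⟩ := Len_bdd hm
  have hfin : ∀ e : Fin (m + 1) → ℂ, Len (PP e) ≠ ∞ := fun e =>
    ne_top_of_le_ne_top hL (hL2 _ (PP_monic e) (PP_deg e))
  by_cases h0 : WW ε x = 0
  · simp [h0]
  have hβ : WW ε x / K ≠ 0 := ENNReal.div_ne_zero.2 ⟨h0, hK1⟩
  have hxS : x ∈ XX m s ∩ {y | WW ε x / K ≤ Len (PP y.1)} := ⟨hx, ENNReal.div_le_of_le_mul (hW x)⟩
  have hc : Continuous (WW (m := m) ε) :=
    ((Len_cont hm).comp continuous_fst).ennreal_mul (ENNReal.continuous_ofReal.comp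
      (((Ps_cont m).comp (cv_cont m)).rpow_const fun _ => Or.inr hε.le))
      (fun _ => Or.inr ENNReal.ofReal_ne_top) fun y => Or.inr (hfin _)
  obtain ⟨y, hy, hmax⟩ := (XX_compact hm s hβ).exists_isMaxOn ⟨x, hxS⟩ hc.continuousOn
  have hxy : WW ε x ≤ WW ε y := hmax hxS
  have hy0 := mul_ne_zero_iff.1 (show WW ε y ≠ 0 from fun e => h0 (le_zero_iff.1 (e ▸ hxy)))
  have hinj : Function.Injective (cv y) := Ps_pos.1 ((Ps_nonneg _).lt_of_ne' fun e => hy0.2 (by
    rw [e, Real.zero_rpow hε.ne', ENNReal.ofReal_zero]))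
  refine hxy.trans ((hW y).trans (mul_le_mul_left (h s y hy.1 hinj
    (loc hε hy.1 hinj (fun z hz => ?_) hy0.1 (hfin _))) _))
  by_cases hz2 : WW ε x / K ≤ Len (PP z.1)
  · exact hmax ⟨hz, hz2⟩
  · refine (hW z).trans (le_trans ?_ hxy)
    exact (mul_le_mul_left (not_le.1 hz2).le _).trans_eq (ENNReal.div_mul_cancel hK0 hK1)

lemma inj_bound {m : ℕ} (hm : 1 ≤ m) {B : ℝ≥0∞}
    (h : ∀ s, ∀ x ∈ XX m s, Function.Injective (cv x) → (∀ k, ‖cv x k‖ = 1) → Len (PP x.1) ≤ B)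
    {s : ℂ} {x : (Fin (m + 1) → ℂ) × (Fin m → ℂ)} (hx : x ∈ XX m s)
    (hc : Function.Injective (cv x)) : Len (PP x.1) ≤ B := by
  have lim : ∀ (a : ℝ≥0∞) (P : ℝ), 0 < P →
      Tendsto (fun ε : ℝ => a * ENNReal.ofReal (P ^ ε)) (𝓝[>] 0) (𝓝 a) := fun a P hP => by
    have h1 : Tendsto (fun ε : ℝ => ENNReal.ofReal (P ^ ε)) (𝓝[>] 0) (𝓝 1) := by
      have := ENNReal.tendsto_ofReal ((Real.continuousAt_const_rpow (b := 0) hP.ne').tendsto)
      simpa using this.mono_left nhdsWithin_le_nhds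
    simpa using ENNReal.Tendsto.const_mul (a := a) h1 (Or.inl one_ne_zero)
  refine le_of_tendsto_of_tendsto (lim _ _ (Ps_pos.2 hc))
    (lim B ((2 ^ m) ^ m * 2 ^ m) (by positivity)) ?_
  filter_upwards [self_mem_nhdsWithin] with ε hε using eps_bound hm h hε hx

lemma generic {m : ℕ} (hm : 1 ≤ m) (a : Fin m → ℂ) (w : ℂ) : ∃ b : Fin m → ℂ,
    ∀ᶠ t : ℂ in 𝓝[≠] 0, Function.Injective (cv (Ga (a + t • b) w, a + t • b)) := by
  have hζ := Complex.isPrimitiveRoot_exp m (by omega)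
  set ζ := Complex.exp (2 * π * Complex.I / m)
  let z : Fin m → ℂ := fun k => ζ ^ (k : ℕ)
  refine ⟨z - a, ?_⟩
  let c : ℂ → Fin m → ℂ := fun t => cv (Ga (a + t • (z - a)) w, a + t • (z - a))
  have hc : ∀ k, Differentiable ℂ fun t => c t k := fun k => by
    have h1 : Differentiable ℂ fun t : ℂ => Ga (a + t • (z - a)) w :=
      (Ga_diff m).comp (f := fun t : ℂ => (a + t • (z - a), w)) (by fun_prop)
    have h2 := differentiable_pi.1 h1
    simp only [c, cv, PP_eval]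
    fun_prop
  have hc1 : ∀ k, c 1 k = w - m * z k := fun k => by
    have h1 : PP (Ga z w) = X ^ (m + 1) - C ((m : ℂ) + 1) * X + C w := by
      refine uniq ?_ (by simp [Ga_zero])
      rw [Ga_der, Fin.prod_univ_eq_prod_range (fun k => (X - C (ζ ^ k) : ℂ[X])) m]
      have := X_pow_sub_C_eq_prod hζ (α := 1) (by omega) (one_pow m)
      simp only [mul_one] at this
      rw [← this]
      simp [mul_sub]
    have h2 : z k ^ m = 1 := by
      simp only [z]; rw [← pow_mul, mul_comm, pow_mul, hζ.pow_eq_one, one_pow]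
    simp only [c, cv, one_smul, add_sub_cancel, h1]
    simp [pow_succ, h2]
    ring
  have key : ∀ j k, j ≠ k → ∀ᶠ t : ℂ in 𝓝[≠] 0, c t j ≠ c t k := fun j k hjk => by
    have ha : AnalyticOnNhd ℂ (fun t => c t j - c t k) univ := fun t _ =>
      ((hc j).sub (hc k)).analyticAt t
    by_contra hn
    have h1 := ha.eqOn_zero_of_preconnected_of_frequently_eq_zero isPreconnected_univ (mem_univ 0)
      ((not_eventually.1 hn).mono fun t ht => sub_eq_zero.2 (not_not.1 ht)) (mem_univ 1)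
    simp only [hc1, Pi.zero_apply] at h1
    have hm0 : (m : ℂ) ≠ 0 := by exact_mod_cast (by omega : m ≠ 0)
    exact hjk (Fin.ext (hζ.pow_inj j.2 k.2 (mul_left_cancel₀ hm0 (by linear_combination -h1))))
  have := eventually_all.2 fun j => eventually_all.2 fun k => eventually_imp_distrib_left.2 (key j k)
  filter_upwards [this] with t ht j k hjk
  by_contra hne
  exact ht j k hne hjk

/-- the reduction to simple critical points with distinct values on the unit circle -/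
theorem red (n : ℕ) (hn : 2 ≤ n) (h : Core n) (p : ℂ[X]) (hp : p.Monic) (hd : p.natDegree = n) :
    Len p ≤ BB n := by
  obtain ⟨m, rfl⟩ : ∃ m, n = m + 1 := ⟨n - 1, by omega⟩
  have hm : 1 ≤ m := by omega
  obtain ⟨a, ha⟩ := exists_crit hp hd
  set e : Fin (m + 1) → ℂ := fun i => p.coeff i with he
  have hpe : PP e = p := PP_self hp hd
  have hx : (e, a) ∈ XX m (e (Fin.last m)) := ⟨rfl, by simpa [hpe] using ha⟩
  obtain ⟨b, hb⟩ := generic hm a (e 0)
  have hB : ∀ s, ∀ x ∈ XX m s, Function.Injective (cv x) → (∀ k, ‖cv x k‖ = 1) →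
      Len (PP x.1) ≤ BB (m + 1) := fun s x hx h1 h2 =>
    h (PP x.1) (PP_monic _) (PP_deg _) x.2 (XX_crit hx) h2 h1
  rw [← hpe]
  refine Len_lsc (l := 𝓝[≠] (0 : ℂ)) (by omega) (e := fun t => Ga (a + t • b) (e 0)) ?_ ?_
  · have h1 : Continuous fun t : ℂ => Ga (a + t • b) (e 0) :=
      (Ga_diff m).continuous.comp (f := fun t : ℂ => (a + t • b, e 0)) (by fun_prop)
    have h2 : Ga a (e 0) = e := XX_Ga hx
    simpa [h2] using (h1.tendsto 0).mono_left nhdsWithin_le_nhds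
  · filter_upwards [hb] with t ht
    exact inj_bound (x := (Ga (a + t • b) (e 0), a + t • b)) hm hB (Ga_mem _ _) ht

end Pool.Agent.Lib.MP_f225de_an.EH
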