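import Pool.Agent.Lib.MP_f225de_an.NT2

set_option autoImplicit false

open MeasureTheory Set
open scoped Real

namespace Pool.Agent.Lib.MP_f225de_an.Nu

open MA Sk Iv

variable {n : ℕ}

/-- candidate slope -/
def tsl (x0 x1 w dx : Iv) (ga A : ℕ) : ℕ :=
  Nat.add (mx (mx (add (pt A) (div w x1)).h
    (div (add w (mulL x0 (pt A))) (sub x0 (mulP (pt ga) dx))).h)
    (nat_lit 79228162514264337593543950336)) (nat_lit 17179869184)

/-- check of the slope `m` and the new value `T` -/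
def tck (x0 x1 w : Iv) (T1 ga A D m T : ℕ) : Bool :=
  force (sub (pt m) (pt A)) fun e => Nat.ble T1 T && (le w (mulL x1 e) &&
    le (add (mulP (pt ga) (pt T)) (pt D)) (mulL x0 e))

/-- the new value of `T` for the inequality `ga T + A x + D ≤ m x` -/
def tfin (x0 x1 : Iv) (T1 ga A D : ℕ) : Res :=
  force (add (mulP (pt ga) (pt T1)) (pt D)) fun w => force (sub x0 x1) fun dx =>
    forceN (tsl x0 x1 w dx ga A) fun m => forceN (add (pt T1) (mulL dx (pt m))).h fun T =>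
      ⟨tck x0 x1 w T1 ga A D m T, T⟩

lemma tfin_ok {x0 x1 : Iv} {T1 ga A D : ℕ} (h : (tfin x0 x1 T1 ga A D).ok = true)
    (h0 : 0 ≤ val T1) : val T1 ≤ val (tfin x0 x1 T1 ga A D).v ∧ ∀ X0 X1 x γ, mem X0 x0 →
      mem X1 x1 → 0 ≤ X1 → X1 ≤ x → x ≤ X0 → X1 < X0 → 0 ≤ γ → γ ≤ val ga →
      γ * (val T1 + (val (tfin x0 x1 T1 ga A D).v - val T1) / (X0 - X1) * (x - X1)) +
        (val A * x + val D) ≤ (val (tfin x0 x1 T1 ga A D).v - val T1) / (X0 - X1) * x := by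
  rw [tfin, force_eq, force_eq, forceN_eq, forceN_eq] at h ⊢
  generalize tsl _ _ _ _ _ _ = m at *
  generalize hT : (add (pt T1) _).h = T at *
  change tck _ _ _ _ _ _ _ _ _ = true at h
  change _ ≤ val T ∧ ∀ X0 X1 x γ, _ → _ → _ → _ → _ → _ → _ → _ →
    γ * (_ + (val T - _) / _ * _) + _ ≤ (val T - _) / _ * x
  rw [tck, force_eq, Bool.and_eq_true, Bool.and_eq_true] at h
  obtain ⟨a, b, c⟩ := h
  have a := val_ble a
  refine ⟨a, fun X0 X1 x γ m0 m1 p1 p2 p3 p4 p5 p6 => ?_⟩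
  have d := sub_pos.2 p4
  have g0 := p5.trans p6
  have e := (mem_pt m).sub (mem_pt A)
  have b := (((mem_pt ga).mulP g0 h0 (mem_pt T1)).add (mem_pt D)).le (m1.mulL p1 e) b
  have c := (((mem_pt ga).mulP g0 (h0.trans a) (mem_pt T)).add (mem_pt D)).le
    (m0.mulL (by linarith) e) c
  have f := hi_ge ((mem_pt T1).add ((m0.sub m1).mulL d.le (mem_pt m)))
  rw [hT] at f
  have M0 : 0 ≤ (val T - val T1) / (X0 - X1) := div_nonneg (sub_nonneg.2 a) d.le
  have M1 : val m ≤ (val T - val T1) / (X0 - X1) := by rw [le_div_iff₀ d]; linarith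
  have M2 := div_mul_cancel₀ (val T - val T1) d.ne'
  generalize (val T - val T1) / (X0 - X1) = M at *
  have q := mul_le_mul_of_nonneg_right p6 (add_nonneg h0 (mul_nonneg M0 (sub_nonneg.2 p2)))
  have q1 : 0 ≤ M * X1 - (val ga * val T1 + val A * X1 + val D) := by
    linarith [mul_le_mul_of_nonneg_left M1 p1]
  have q0 : 0 ≤ M * X0 - (val ga * (val T1 + M * (X0 - X1)) + val A * X0 + val D) := by
    rw [M2, add_sub_cancel]
    linarith [mul_le_mul_of_nonneg_left M1 (by linarith : 0 ≤ X0)]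
  have q2 : 0 ≤ M * x - (val ga * (val T1 + M * (x - X1)) + val A * x + val D) := by
    refine le_of_mul_le_mul_left ?_ d
    linarith [mul_nonneg q1 (sub_nonneg.2 p3), mul_nonneg q0 (sub_nonneg.2 p2)]
  linarith

/-- the slope step from the bounds `Z` of `RB` -/
def tc2 (R : Run) (V : Lv) (cx x0 x1 : Iv) (T1 : ℕ) (Z : Iv × Iv) : Res :=
  forceN (mulP R.g V.al).h fun ga => forceN (mulL cx Z.1).h fun A => forceN Z.2.h fun D =>
    tfin x0 x1 T1 ga A D

/-- the room test -/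
def room (R : Run) (K : CtA) (V : Lv) (tb : Iv) (T : ℕ) : Bool :=
  force (add (mulP (pt K.H) (rhoI K.Ps V.lk.P)) (pt T)) fun u =>
    le u (t0I R V.lk.F) && cond R.four (le u tb) true

/-- all tests -/
def tc3 (R : Run) (K : CtA) (V : Lv) (tb : Iv) (tg : ℕ) (S : Res) : TR :=
  ⟨Nat.ble (nat_lit 79228162514264337593543950336) tg && (le (pt tg) (ofN (Nat.mul R.n0 R.n0)) &&
    (S.ok && room R K V tb S.v)), S.v, tg⟩

lemma tc3_ok (R : Run) (K : CtA) (V : Lv) (tb : Iv) (tg : ℕ) (S : Res) : (tc3 R K V tb tg S).ok =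
    (Nat.ble (nat_lit 79228162514264337593543950336) tg && (le (pt tg) (ofN (Nat.mul R.n0 R.n0)) &&
      (S.ok && room R K V tb S.v))) := by rw [tc3]

lemma tc3_T (R : Run) (K : CtA) (V : Lv) (tb : Iv) (tg : ℕ) (S : Res) :
    (tc3 R K V tb tg S).T = S.v := rfl

lemma tc3_tg (R : Run) (K : CtA) (V : Lv) (tb : Iv) (tg : ℕ) (S : Res) :
    (tc3 R K V tb tg S).tg = tg := rfl

/-- step of `T` with the enclosure `tb` of the bound -/
def tc4 (R : Run) (K : CtA) (V : Lv) (c cx x0 x1 tb : Iv) (g1 g2 T1 tg : ℕ) : TR :=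
  tc3 R K V tb tg (tc2 R V cx x0 x1 T1
    (cond R.four (rb4 V.al c V.lk.cb tb tg g1 g2) (rbN R.g V.al c tg g1 g2)))

/-- step of `T` -/
def tcEv (R : Run) (t p q : Pr) (K : CtA) (V : Lv) (c cx x0 x1 : Iv) (g1 g2 T1 : ℕ) : TR :=
  forceN (tgE K (p.ev V.r) (q.ev V.r) V.lk.P T1) fun tg =>
    tc4 R K V c cx x0 x1 (t.ev V.r) g1 g2 T1 tg

variable {R : Run} {F : ℝ → ℝ} {t p q : Pr} {K : CtA} {V : Lv} {σ C a r : ℝ}

lemma sin_le_rt (hK : K.ok n σ C) (a0 : 0 < a) (a1 : a ≤ π / 2) :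
    0 < Real.sin a ∧ 0 < Real.sin σ ∧ Real.sin σ ≤ rt σ a := by
  have s := Real.sin_pos_of_pos_of_lt_pi a0 (by linarith [Real.pi_pos])
  have u := Real.sin_pos_of_pos_of_lt_pi hK.1 (by linarith [Real.pi_pos, hK.2.1])
  exact ⟨s, u, le_div_self u.le s (Real.sin_le_one a)⟩

lemma use_le (hn : 4 ≤ n) (hK : K.ok n σ C) (hP : mem (Pf n r) V.lk.P) (s0 : 0 < Real.sin σ)
    (s1 : Real.sin σ ≤ r) (T : ℕ) : ∃ u, mem u (add (mulP (pt K.H) (rhoI K.Ps V.lk.P)) (pt T)) ∧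
      ∀ s x z, r ≤ s → x ≤ val T → u ≤ z →
        2 * n * (C + K.S0 n σ) + Pf n s * x ≤ z * Pf n s := by
  have n2 : 2 ≤ n := by omega
  obtain ⟨-, -, -, b, c, d⟩ := hK
  obtain ⟨ρ, e0, e1, e2⟩ := rhoI_ok b hP (P_pos n2 s0).le (P_mono n2 s0 s1)
  refine ⟨_, ((mem_pt _).mulP d e0 e1).add (mem_pt T), fun s x z f1 f2 f3 => ?_⟩
  have r0 := s0.trans_le s1
  have g0 := (P_pos n2 (r0.trans_le f1)).le
  linarith [mul_le_mul_of_nonneg_left (e2.trans (mul_le_mul_of_nonneg_left (P_mono n2 r0 f1) e0)) d,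
    mul_le_mul_of_nonneg_left f2 g0, mul_le_mul_of_nonneg_left f3 g0]

lemma sh_eq (n0 : (0 : ℝ) < n) (r0 : 0 < r) : 2 * n * ShF n p q σ (Real.log r) - 2 * n * K.S0 n σ =
    2 * (min (σ * p.f r) (q.f r) - (σ * val K.p1 + val K.p2)) := by
  rw [ShF, CtA.S0, Real.exp_log r0]
  field_simp

theorem tSpec (hR : R.ok n) (ht : t.ok) (ht2 : val t.a ≤ 2) (hp : p.ok) (hq : q.ok) :
    TSpec n F t p q (tcEv R t p q) := by
  intro K V c cx x0 x1 g1 g2 T1 h H0 h1
  have n4 := hR.four_le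
  have n0 : (0 : ℝ) < n := by positivity
  rw [tcEv, forceN_eq, tc4, tc2, forceN_eq, forceN_eq, forceN_eq] at h ⊢
  generalize hg : tgE _ _ _ _ _ = tg at *
  generalize hZ : cond R.four (rb4 _ _ _ _ _ _ _) _ = Z at *
  have k := @tfin_ok x0 x1 T1 (mulP R.g V.al).h (mulL cx Z.1).h Z.2.h
  generalize tfin _ _ _ _ _ _ = S at *
  rw [tc3_ok, Bool.and_eq_true, Bool.and_eq_true, Bool.and_eq_true, room, force_eq, Bool.and_eq_true] at h
  obtain ⟨a, b, s, e, f⟩ := h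
  obtain ⟨k1, k2⟩ := k s H0
  have a := val_B0 ▸ val_ble a
  have b : val tg ≤ n ^ 2 := ((mem_pt tg).le (mem_ofN _) b).trans (by
    rw [mul_eq, pow_two]
    exact_mod_cast Nat.mul_self_le_mul_self hR.2.2.1)
  rw [tc3_T, tc3_tg]
  refine ⟨k1, a, b, fun σ C x X0 X1 hK a0 a1 hV hc hcx m0 m1 p1 p2 p3 p4 => ?_⟩
  obtain ⟨r0, hr, hal, hP, -, hcb, hF⟩ := hV
  obtain ⟨s1, s2, s3⟩ := sin_le_rt hK a0 a1
  obtain ⟨b0, b1⟩ := ar_bd n4 r0
  obtain ⟨e0, e1⟩ := cb_bd (Real.log (rt σ x))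
  have tb : t.f (rt σ x) ≤ 2 := (min_le_left _ _).trans ht2
  have c0 : 0 ≤ 2 / π * x := by positivity
  have d := sub_pos.2 p4
  have M0 : 0 ≤ (val S.v - val T1) / (X0 - X1) := div_nonneg (sub_nonneg.2 k1) d.le
  have t1 := mul_nonneg M0 (sub_nonneg.2 p2)
  have t2 := mul_le_mul_of_nonneg_left (sub_le_sub_right p3 X1) M0
  rw [div_mul_cancel₀ _ d.ne'] at t2
  obtain ⟨u, hu, hu'⟩ := use_le n4 hK hP s2 s3 S.v
  refine ⟨?_, ?_, ?_, fun h4 => ?_⟩
  · obtain ⟨v, w, hv, hw, z⟩ : Bd Z (2 / π * x) (RB n (ar n (rt σ x)) (2 / π * x)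
        (cor (π / 2) (Real.log (rt σ x))) (t.f (rt σ x)) (val tg) (val g1) (val g2)) :=
      hZ ▸ hR.cond (fun Z => Bd Z _ _)
        (fun e => rb4_ok e hal hc hcb (Pr.mem_ev ht r0.le hr) b0.le c0 e0 tb h1 b)
        fun e => rbN_ok e (by omega) hR.2.2.2 hal hc b0.le b1 c0 h1 a b
    have y1 := mul_le_mul_of_nonneg_right (hi_ge (hcx.mulL (by positivity) hv)) s1.le
    rw [mul_right_comm, div_mul_cancel₀ _ s1.ne'] at y1
    have y2 := k2 X0 X1 _ _ m0 m1 p1 p2 p3 p4 (by positivity)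
      (hi_ge (hR.2.2.2.mulP (by positivity) b0.le hal))
    rw [one_div_mul_eq_div] at y2
    rw [TbF, Real.exp_log r0]
    linarith [hi_ge hw]
  · have P0 := P_pos (by omega : 2 ≤ n) r0
    have y := tgE_ok (T1 := T1) hK.1.le hK.2.2.1 (Pr.mem_ev hp r0.le hr) (Pr.mem_ev hq r0.le hr) hP
      P0 (hg ▸ a)
    rw [hg] at y
    linarith [sh_eq (p := p) (q := q) (K := K) (σ := σ) n0 r0, mul_nonneg P0.le t1]
  · obtain ⟨z, hz, hz'⟩ := t0I_ok hR hF
    exact hu' _ _ _ le_rfl (by linarith) ((hu.le hz e).trans hz')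
  · rw [hR.1.2 h4, Bool.cond_true] at f
    rw [TbF, Real.exp_log r0]
    exact hu' _ _ _ le_rfl (by linarith) (hu.le (Pr.mem_ev ht r0.le hr) f)

/-- tests of the first step -/
def tlk (R : Run) (t p q : Pr) (K : CtA) (V : Lv) (v : ℕ) : Bool :=
  Nat.ble (nat_lit 79228162514264337593543950336) v &&
    ((force (sub (p.ev V.r) (pt K.p1)) fun d => exZ K d || nonpos (exI K d (q.ev V.r))) &&
    force (add (mulP (pt K.H) (rhoI K.Ps V.lk.P)) (pt v)) fun u => cond R.four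
      (le u (ofQ (nat_lit 79) (nat_lit 50)) && le u (pt (mn t.a t.b)))
      (le (add u (ofN (nat_lit 3))) (ofN R.n0)))

/-- first step of `T` -/
def tlEv (R : Run) (t p q : Pr) (K : CtA) (V : Lv) (cx x0 : Iv) : Res :=
  forceN (divP (mulN (nat_lit 2) (mulP cx x0))
    (raise (nat_lit 1) (sub one (mulQ (nat_lit 11) (nat_lit 10) R.g)))).h fun v =>
    ⟨tlk R t p q K V v, v⟩

lemma RB_zero {al c cb tb : ℝ} (n0 : 0 < n) (a1 : al ≤ 2) (c0 : 0 ≤ c) :
    RB n al c cb tb 0 0 0 ≤ 2 * c := by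
  have m : (0 : ℝ) < n := by positivity
  unfold RB
  split_ifs
  · rw [max_eq_left (by linarith)]
    have : (16 - 0) * c / (2 * (4 + c)) ≤ 2 * c := by
      rw [div_le_iff₀ (by positivity)]
      nlinarith
    linarith
  · rw [min_eq_left (by positivity)]
    have : (2 - al) * (n ^ 2 - 0) * (c - al * 0) / (n * (n + (c - al * 0))) ≤ (2 - al) * c := by
      rw [mul_zero, sub_zero, sub_zero, div_le_iff₀ (by positivity)]
      nlinarith [mul_nonneg (mul_nonneg (sub_nonneg.2 a1) (mul_self_nonneg c)) m.le]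
    linarith

theorem tlSpec (hR : R.ok n) (hF : FOK n F) (ht : t.ok) (hp : p.ok) (hq : q.ok) :
    TLSpec n F t p q (tlEv R t p q) := by
  intro K V cx x0 h
  have n4 := hR.four_le
  have n5 : (4 : ℝ) ≤ n := by exact_mod_cast n4
  have n0 : (0 : ℝ) < n := by positivity
  rw [tlEv, forceN_eq] at h ⊢
  generalize hv : (divP _ _).h = v at *
  change tlk _ _ _ _ _ _ _ = true at h
  rw [tlk, Bool.and_eq_true, Bool.and_eq_true, force_eq, force_eq, Bool.or_eq_true] at h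
  obtain ⟨a, b, c⟩ := h
  have a := val_B0 ▸ val_ble a
  change 0 ≤ val v ∧ ∀ σ C a b, _ → _ → _ → _ → _ → _ → _ →
    TOK _ _ _ _ _ _ _ _ _ _ _ (val v / _ * _) (val v / _)
  refine ⟨a, fun σ C x y hK x0 xy y1 hV hcx hy => ?_⟩
  obtain ⟨r0, hr, -, hP, -⟩ := hV
  obtain ⟨s1, s2, s3⟩ := sin_le_rt hK x0 (xy.trans y1)
  obtain ⟨s4, -, s5⟩ := sin_le_rt hK (x0.trans_le xy) y1
  have s6 : Real.sin x ≤ Real.sin y :=
    Real.sin_le_sin_of_le_of_le_pi_div_two (by linarith [Real.pi_pos]) y1 xy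
  have s7 : rt σ y ≤ rt σ x := div_le_div_of_nonneg_left s2.le s1 s6
  have r1 := r0.trans_le s7
  obtain ⟨b0, b1⟩ := ar_bd n4 r1
  have t1 : 0 ≤ val v / Real.sin y * Real.sin x := by positivity
  have t2 : val v / Real.sin y * Real.sin x ≤ val v :=
    (mul_le_mul_of_nonneg_left s6 (by positivity)).trans_eq (div_mul_cancel₀ _ s4.ne')
  obtain ⟨u, hu, hu'⟩ := use_le n4 hK hP s2 s5 v
  have g1 : (1 / n : ℝ) ≤ 1 / 4 := one_div_le_one_div_of_le (by norm_num) n5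
  obtain ⟨-, f2, f3⟩ := hF.2.1 (Real.log (rt σ x))
  refine ⟨?_, ?_, ?_, fun h4 => ?_⟩
  · have q : (0 : ℝ) < 1 - (nat_lit 11 : ℕ) / (nat_lit 10 : ℕ) * (1 / n) := by
      norm_num at g1 ⊢; linarith
    have y0 := hi_ge (((hcx.mulP (by positivity) s4.le hy).mulN (nat_lit 2)).divP (by positivity)
      ((mem_one.sub (hR.2.2.2.mulQ (nat_lit 11) (q := nat_lit 10) (by norm_num))).raise
        (c := nat_lit 1) (by norm_num at g1 ⊢; linarith)) (pos_raise Nat.one_pos _))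
    rw [hv, div_le_iff₀ q] at y0
    have y2 := mul_le_mul_of_nonneg_right y0 (div_pos s1 s4).le
    have y3 : ((nat_lit 2 : ℕ) : ℝ) * (2 / π * x / Real.sin x * Real.sin y) *
        (Real.sin x / Real.sin y) = 2 * (2 / π * x) := by
      norm_num
      field_simp
    have y4 := mul_le_mul_of_nonneg_right (div_le_div_of_nonneg_right b1 n0.le) t1
    have y5 := RB_zero (n := n) (cb := cor (π / 2) (Real.log (rt σ x)))
      (tb := TbF t (Real.log (rt σ x))) (by omega) (by linarith : ar n (rt σ x) ≤ 2)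
      (by positivity : 0 ≤ 2 / π * x)
    rw [y3] at y2
    norm_num at y2
    have y6 : val v * (1 - 11 / 10 * (n : ℝ)⁻¹) * (Real.sin x / Real.sin y) =
        val v / Real.sin y * Real.sin x - 11 / 10 / n * (val v / Real.sin y * Real.sin x) := by ring
    linarith
  · have d := (Pr.mem_ev hp r0.le hr).sub (mem_pt K.p1)
    have y0 : min (σ * p.f (rt σ y)) (q.f (rt σ y)) - (σ * val K.p1 + val K.p2) ≤ 0 :=
      b.elim (exZ_ok hK.1.le d) (exI_ok hK.1.le hK.2.2.1 d (Pr.mem_ev hq r0.le hr)).nonpos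
    linarith [sh_eq (p := p) (q := q) (K := K) (σ := σ) n0 r1,
      mul_nonneg (P_pos (by omega : 2 ≤ n) r1).le t1, min_le_min
        (mul_le_mul_of_nonneg_left (Pr.anti1 hp r0.le s7) hK.1.le) (Pr.anti1 hq r0.le s7)]
  · refine hu' _ _ _ s7 t2 ?_
    rw [T0, le_div_iff₀ (by linarith)]
    revert c
    refine hR.cond (fun b => b = true → _) (fun e c => ?_) fun _ c => ?_
    · rw [Bool.and_eq_true] at c
      have := hu.le (mem_ofQ _ (by norm_num)) c.1
      have := f3 e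
      rw [e]
      norm_num at *
      linarith
    · have y := (hu.add (mem_N (nat_lit 3) (x := 3) rfl)).le (mem_ofN _) c
      have n1 : (R.n0 : ℝ) ≤ n := by exact_mod_cast hR.2.2.1
      nlinarith
  · rw [hR.1.2 h4, Bool.cond_true, Bool.and_eq_true] at c
    exact hu' _ _ _ s7 t2 ((hu.le (mem_pt _) c.2).trans (Pr.inf_le ht (Real.exp_pos _).le))

end Pool.Agent.Lib.MP_f225de_an.Nu
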