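import Pool.Agent.Lib.MP_f225de_an.NV1

set_option autoImplicit false

open Set
open scoped Real

namespace Pool.Agent.Lib.MP_f225de_an.Nu

open MA Sk Iv

lemma G1_der (a b x : ℝ) : HasDerivAt (G1 a b) (XX a b x) x :=
  ((((hasDerivAt_id' x).const_mul _).add ((Real.hasDerivAt_sin x).const_mul _)).add
    (((Real.hasDerivAt_cos x).const_sub 1).const_mul _)).congr_deriv (by unfold XX; ring)

lemma G2_der (a b x : ℝ) : HasDerivAt (G2 a b) (XX a b x ^ 2) x := by
  have s := Real.hasDerivAt_sin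
  have c := Real.hasDerivAt_cos
  have i := hasDerivAt_id' (𝕜 := ℝ)
  refine (((((((i x).const_mul _).add ((((i x).add ((s x).mul (c x))).const_mul _).div_const
    2)).add ((((i x).sub ((s x).mul (c x))).const_mul _).div_const 2)).add
    ((s x).const_mul _)).add (((c x).const_sub 1).const_mul _)).add
    (((s x).pow 2).const_mul _)).congr_deriv ?_
  unfold XX
  simp only [Nat.cast_ofNat, Nat.add_one_sub_one, pow_one]
  linear_combination ((a * b / 2 - b) ^ 2 + ((a ^ 2 - b ^ 2) / 4 - a) ^ 2) / 2 *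
    -Real.sin_sq_add_cos_sq x

lemma step_le {f f1 : ℝ → ℝ} {p q M : ℝ} (hpq : p ≤ q) (hf : ∀ x, HasDerivAt f (f1 x) x)
    (h : ∀ x ∈ Icc p q, f1 x ≤ M) : f q ≤ f p + (q - p) * M := by
  have := (convex_Icc p q).image_sub_le_mul_sub_of_deriv_le
    (fun x _ => (hf x).continuousAt.continuousWithinAt)
    (fun x _ => (hf x).differentiableAt.differentiableWithinAt)
    (fun x hx => (hf x).deriv ▸ h x (interior_subset hx)) p (left_mem_Icc.2 hpq) q
    (right_mem_Icc.2 hpq) hpq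
  linarith

lemma cos_pos' {x : ℝ} (h0 : 0 ≤ x) (h : x < π) : 0 < 1 + Real.cos x := by
  have := Real.cos_lt_cos_of_nonneg_of_le_pi h0 le_rfl h
  rw [Real.cos_pi] at this
  linarith

lemma tan_sq {x : ℝ} (h : 0 < 1 + Real.cos x) :
    (Real.sin x / (1 + Real.cos x)) ^ 2 = 2 / (1 + Real.cos x) - 1 := by
  field_simp
  linear_combination Real.sin_sq_add_cos_sq x

lemma XX_ge {a b t q x : ℝ} (a0 : 0 ≤ a) (hq : q < π) (hx : x ∈ Icc 0 q)
    (h : (b * (1 - 1 / 2 * a)) ^ 2 ≤ (1 - a * (1 - 1 / 2 * a)) * (1 + a + 1 / 2 * (b * b)) ∨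
      (Real.sin q / (1 + Real.cos q) ≤ t ∧ 0 ≤ 1 - a * (1 - 1 / 2 * a) -
        t * (b * (1 - 1 / 2 * a) + b * (1 - 1 / 2 * a) - (1 + a + 1 / 2 * (b * b)) * t) ∧
        (1 + a + 1 / 2 * (b * b)) * t ≤ b * (1 - 1 / 2 * a))) : -1 ≤ XX a b x := by
  have d0 := cos_pos' hx.1 (hx.2.trans_lt hq)
  have d1 := cos_pos' (hx.1.trans hx.2) hq
  have q2 : 0 < 1 + a + 1 / 2 * (b * b) := by nlinarith [mul_self_nonneg b]
  have hu : Real.sin x / (1 + Real.cos x) ≤ Real.sin q / (1 + Real.cos q) := by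
    refine (abs_le_of_sq_le_sq' ?_ (div_nonneg
      (Real.sin_nonneg_of_nonneg_of_le_pi (hx.1.trans hx.2) hq.le) d1.le)).2
    rw [tan_sq d0, tan_sq d1]
    have := Real.cos_le_cos_of_nonneg_of_le_pi hx.1 hq.le hx.2
    gcongr
  have e : XX a b x + 1 = (1 + Real.cos x) / 2 * (1 - a * (1 - 1 / 2 * a) -
      2 * (b * (1 - 1 / 2 * a)) * (Real.sin x / (1 + Real.cos x)) +
      (1 + a + 1 / 2 * (b * b)) * (Real.sin x / (1 + Real.cos x)) ^ 2) := by
    rw [tan_sq d0, XX]
    field_simp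
    ring
  generalize Real.sin x / (1 + Real.cos x) = u at *
  generalize 1 + a + 1 / 2 * (b * b) = Q2 at *
  generalize b * (1 - 1 / 2 * a) = Q1 at *
  generalize 1 - a * (1 - 1 / 2 * a) = Q0 at *
  have : 0 ≤ Q0 - 2 * Q1 * u + Q2 * u ^ 2 := by
    rcases h with h | ⟨h1, h2, h3⟩
    · refine le_of_mul_le_mul_left ?_ q2
      nlinarith [sq_nonneg (Q2 * u - Q1)]
    · have h4 := sub_nonneg.2 (hu.trans h1)
      nlinarith [mul_nonneg h4 (sub_nonneg.2 h3), mul_nonneg (mul_nonneg h4 h4) q2.le]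
  have := mul_nonneg (half_pos d0).le this
  linarith

/-- the number `1/(2π)` -/
def qP : Iv := ⟨nat_lit 79228162511328447090261949110, nat_lit 79228162517200228096825951563⟩

/-- the number `2` -/
def qTwo : Iv := ⟨nat_lit 79228162477370849446124847104, nat_lit 79228162551157825740963053568⟩

lemma mem_qP : mem (1 / (2 * π)) qP := by
  have h1 := Real.pi_gt_d20
  have h2 := Real.pi_lt_d20
  have h3 := one_div_le_one_div_of_le (by positivity) (mul_le_mul_of_nonneg_left h2.le zero_le_two)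
  have h4 := one_div_le_one_div_of_le (by positivity) (mul_le_mul_of_nonneg_left h1.le zero_le_two)
  generalize 1 / (2 * π) = x at *
  norm_num [mem, U, qP] at *
  constructor <;> linarith

lemma mem_qTwo : mem 2 qTwo := by norm_num [mem, U, qTwo]

/-- code of the lower end -/
def glo (I : Iv) : ℕ := Nat.sub (nat_lit 158456325028528675187087900672) I.l

lemma val_glo {x : ℝ} {I : Iv} (h : mem x I) (h0 : 0 < glo I) : val (glo I) ≤ x := by
  refine le_trans (le_of_eq ?_) (mem_iff.1 h).1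
  rw [glo, show Nat.sub _ I.l = _ - I.l from rfl, val, val,
    Nat.cast_sub (Nat.lt_of_sub_pos h0).le]
  norm_num
  ring

lemma gval_mono {a b : ℕ} (h : a ≤ b) : val a ≤ val b := by
  have : (a : ℝ) ≤ b := by exact_mod_cast h
  unfold val
  gcongr

lemma gval_B : val (nat_lit 79228162514264337593543950336) = 0 := by norm_num [val]

/-- code of the scaled number `c / 2^64` -/
def cd (c : ℕ) : ℕ := Nat.add c (nat_lit 79228162514264337593543950336)

lemma val_cd (c : ℕ) : 0 ≤ val (cd c) := gval_B.ge.trans (gval_mono (Nat.le_add_left _ c))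

/-- test of `-1 ≤ XX` from the coefficients of the quadratic -/
def gX3 (okT : Bool) (T Q0 Q1 Q2 : Iv) : Bool := le (sq Q1) (mulP Q0 Q2) ||
  (okT && shr (mulP Q2 T) fun W => nonneg (sub Q0 (mulL T (sub (add Q1 Q1) W))) && le W Q1)

/-- test of `-1 ≤ XX` -/
def gX (okT : Bool) (T A B : Iv) : Bool := shr (sub one (mulP qH A)) fun E =>
  shr (sub one (mulL A E)) fun Q0 => shr (mulL B E) fun Q1 =>
    shr (add (add one A) (mulP qH (mulP B B))) fun Q2 => gX3 okT T Q0 Q1 Q2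

lemma gX_ok {okT : Bool} {T A B : Iv} {a b t q : ℝ} (a0 : 0 ≤ a) (b0 : 0 ≤ b) (q0 : 0 ≤ q)
    (hq : q < π) (ha : mem a A) (hb : mem b B) (ht : mem t T)
    (h : okT = true → Real.sin q / (1 + Real.cos q) ≤ t) (ok : gX okT T A B = true) :
    ∀ x ∈ Icc 0 q, -1 ≤ XX a b x := by
  intro x hx
  have hE := mem_one.sub (mem_qH.mulP (by norm_num) a0 ha)
  have h0 := mem_one.sub (ha.mulL a0 hE)
  have h1 := hb.mulL b0 hE
  have h2 := (mem_one.add ha).add (mem_qH.mulP (by norm_num) (by positivity) (hb.mulP b0 b0 hb))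
  rw [gX, shr_eq, shr_eq, shr_eq, shr_eq, gX3, shr_eq, Bool.or_eq_true,
    Bool.and_eq_true, Bool.and_eq_true] at ok
  refine XX_ge (t := t) a0 hq hx (ok.imp (h1.sq.le (h0.mulP (by nlinarith [sq_nonneg (1 - a)])
    (by positivity) h2)) fun ⟨e1, e2, e3⟩ => ?_)
  have t0 : 0 ≤ t := le_trans (div_nonneg (Real.sin_nonneg_of_nonneg_of_le_pi q0 hq.le)
    (cos_pos' q0 hq).le) (h e1)
  have hW := h2.mulP (by positivity) t0 ht
  exact ⟨h e1, (h0.sub (ht.mulL t0 ((h1.add h1).sub hW))).nonneg e2, hW.le h1 e3⟩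

/-- upper bound of `XX / l` on the cell -/
def gM (G : Geo) (C1 C2 P1 P2 P3 : Iv) : Iv := imax zero (pt (sub
  (mulP G.lam (add (add (mulP P1 (add one G.cs)) (mulP P3 G.sn)) (mulP P2 (sub one G.cs))))
  (add (mulL C1 G.cs) (mulP C2 G.sn))).h)

/-- `G1 / l` at the left end -/
def gG1 (G : Geo) (C1 C2 P1 P2 P3 O : Iv) : Iv := sub
  (mulP G.lam (add (add (mulP P1 (add G.pa G.sa)) (mulP P3 O)) (mulP P2 (sub G.pa G.sa))))
  (add (mulP C1 G.sa) (mulP C2 O))

/-- `M2` at the left end -/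
def gM2 (G : Geo) (U V W O SC : Iv) : Iv := add (add
  (mulL U (add (mulP U G.pa) (mulL qTwo (add (mulL G.sa V) (mulL O W)))))
  (mulL qH (add (mulL (sq V) (add G.pa SC)) (mulL (sq W) (sub G.pa SC)))))
  (mul (mulL G.sa V) (mulL G.sa W))

/-- final tests -/
def gOut (ok : Bool) (L : Iv) (c1 c2 g1 g2 : ℕ) : GnR :=
  ⟨ok && Nat.ble (nat_lit 79228162514264337593543950336) g1 && le (mulP L (pt g1)) qQ &&
    Nat.ble g2 (nat_lit 79228162514264337593543950336), c1, c2, g1, g2⟩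

/-- values of the gains -/
def gFin3 (G : Geo) (ok : Bool) (c1 c2 cap : ℕ) (M A Q : Iv) : GnR :=
  forceN (mn (glo (mulL qP (neg (add A (mulP G.dp M))))) cap) fun g1 =>
    forceN (mulL qP (add (add (add A A) (mulL G.lam Q))
      (mulP G.dp (mulP M (add qTwo (mulP G.lam M)))))).h fun g2 => gOut ok G.lam c1 c2 g1 g2

/-- values of the gains -/
def gFin2 (G : Geo) (ok : Bool) (c1 c2 cap : ℕ) (C1 C2 P1 P2 P3 O : Iv) : GnR :=
  shr (gM G C1 C2 P1 P2 P3) fun M => shr (gG1 G C1 C2 P1 P2 P3 O).h fun A =>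
    shr (mulP G.lam (add P1 P2)) fun U => shr (sub (mulL G.lam (sub P1 P2)) C1) fun V =>
      shr (sub (mulP G.lam P3) C2) fun W => shr (mulL G.sa G.ca) fun SC =>
        gFin3 G ok c1 c2 cap M (pt A) (gM2 G U V W O SC)

/-- tests and values for given constants of the field -/
def gFin (G : Geo) (N T : Iv) (okT : Bool) (c1 c2 cap : ℕ) : GnR :=
  shr (pt c1) fun C1 => shr (pt c2) fun C2 => shr (mulP qQ (mulP C1 C1)) fun P1 =>
    shr (mulP qQ (mulP C2 C2)) fun P2 => shr (mulP qH (mulP C1 C2)) fun P3 =>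
      shr (sub one G.ca) fun O => gFin2 G
        (le (mulL (add (mulP C1 G.sn) (mulP C2 (sub one G.cs))) G.ct) N &&
          gX okT T (mulP G.lam C1) (mulP G.lam C2)) c1 c2 cap C1 C2 P1 P2 P3 O

lemma gain_real {n : ℕ} {l σ a b c1 c2 g1 g2 p M A : ℝ} (hn : 2 ≤ n) (l0 : 0 < l) (s0 : 0 < σ)
    (a0 : 0 < a) (hs : σ + a < π) (hp : p ≤ σ + a) (p0 : 0 ≤ p)
    (h0 : 0 ≤ rt σ a + 2 * Real.cos (σ + a))
    (hb : beta n (rt σ a) (Real.cos (σ + a)) ≤ (b - rt σ a) * Kf n (rt σ a))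
    (hA : (c1 * Real.sin (σ + a) + c2 * (1 - Real.cos (σ + a))) * Real.cos a ≤
      Real.sin σ / l - Real.sin a / l * b)
    (hX : ∀ x ∈ Icc 0 (σ + a), -1 ≤ XX (l * c1) (l * c2) x)
    (hM : ∀ x ∈ Icc p (σ + a), XX (l * c1) (l * c2) x ≤ l * M)
    (h1 : G1 (l * c1) (l * c2) p ≤ l * A) (h2 : g1 ≤ 1 / (2 * π) * -(A + (σ + a - p) * M))
    {Q : ℝ} (h3 : G2 (l * c1) (l * c2) p = l * (l * Q))
    (h4 : 1 / (2 * π) * (A + A + l * Q + (σ + a - p) * (M * (2 + l * M))) ≤ g2) :
    GainOK n σ a (l * c1) (l * c2) (l * g1) (l * g2) := by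
  have sa := Real.sin_pos_of_pos_of_lt_pi a0 (by linarith)
  have ss := Real.sin_pos_of_pos_of_lt_pi s0 (by linarith)
  have K0 := K_pos (r := rt σ a) hn (div_pos ss sa)
  have pi0 : 0 < 2 * π := by positivity
  rw [one_div, ← div_eq_inv_mul] at h2 h4
  rw [le_div_iff₀ pi0] at h2
  rw [div_le_iff₀ pi0] at h4
  refine ⟨h0, ?_, hX, ?_, ?_⟩
  · have e : rt σ a * Real.sin a = Real.sin σ := div_mul_cancel₀ _ sa.ne'
    have h5 := mul_le_mul_of_nonneg_left hA l0.le
    rw [show l * (Real.sin σ / l - Real.sin a / l * b) = Real.sin σ - Real.sin a * b by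
      field_simp] at h5
    have h6 := mul_le_mul_of_nonneg_left (h5.trans_eq (congrArg (· - _) e.symm)) K0.le
    have h7 := mul_le_mul_of_nonneg_right hb sa.le
    linarith
  · have := step_le hp (G1_der (l * c1) (l * c2)) hM
    nlinarith [mul_le_mul_of_nonneg_left h2 l0.le]
  · have := step_le (M := l * M * (2 + l * M)) hp (fun x => ((G1_der (l * c1) (l * c2) x).const_mul
      2).add (G2_der (l * c1) (l * c2) x)) fun x hx => by
        have h5 := hX x ⟨p0.trans hx.1, hx.2⟩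
        have h6 := hM x hx
        nlinarith
    simp only [Pi.add_apply] at this
    nlinarith [mul_le_mul_of_nonneg_left h4 l0.le]

/-- what a result has to satisfy -/
def GnR.good (n : ℕ) (G : Geo) (b : ℕ) (R : GnR) : Prop := R.ok = true →
  0 ≤ val R.c1 ∧ 0 ≤ val R.c2 ∧ 0 ≤ val R.g1 ∧ val R.g2 ≤ 0 ∧
  ∀ l σ a, G.ok l σ a → 0 ≤ rt σ a + 2 * Real.cos (σ + a) →
    beta n (rt σ a) (Real.cos (σ + a)) ≤ (val b - rt σ a) * Kf n (rt σ a) →
    l * val R.g1 ≤ 1 / 4 ∧ GainOK n σ a (l * val R.c1) (l * val R.c2) (l * val R.g1) (l * val R.g2)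

lemma gFin_ok {n : ℕ} (hn : 2 ≤ n) {G : Geo} {N : Iv} {okT : Bool} {b t c1 c2 : ℕ} (cap : ℕ)
    (u1 : 0 ≤ val c1) (u2 : 0 ≤ val c2)
    (hN : ∀ l σ a, G.ok l σ a → mem (Real.sin σ / l - Real.sin a / l * val b) N)
    (hT : ∀ l σ a, G.ok l σ a → okT = true →
      Real.sin (σ + a) / (1 + Real.cos (σ + a)) ≤ val t) :
    (gFin G N (pt t) okT c1 c2 cap).good n G b := by
  simp only [gFin, gFin2, gFin3, shr_eq, forceN_eq, gOut, GnR.good, Bool.and_eq_true]
  rintro ⟨⟨⟨⟨e1, e2⟩, e3⟩, e4⟩, e5⟩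
  have e3' := Nat.le_of_ble_eq_true e3
  have g0 := gval_B.ge.trans (gval_mono e3')
  refine ⟨u1, u2, g0, (gval_mono (Nat.le_of_ble_eq_true e5)).trans_eq gval_B,
    fun l σ a ok h0 hb => ?_⟩
  have k1 := hN l σ a ok
  have k2 := hT l σ a ok
  obtain ⟨l0, s0, a0, hs, ml, -, -, -, mc, p, p0, hp, m1, m2, m3, m4, m5⟩ := ok
  have C1 := mem_pt c1
  have C2 := mem_pt c2
  have P1 := mem_qQ.mulP (by norm_num) (by positivity) (C1.mulP u1 u1 C1)
  have P2 := mem_qQ.mulP (by norm_num) (by positivity) (C2.mulP u2 u2 C2)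
  have P3 := mem_qH.mulP (by norm_num) (by positivity) (C1.mulP u1 u2 C2)
  have O := mem_one.sub m3
  have sp := Real.sin_nonneg_of_nonneg_of_le_pi p0 (by linarith)
  have op := sub_nonneg.2 (Real.cos_le_one p)
  have ps := sub_nonneg.2 (Real.sin_le p0)
  have dp := sub_nonneg.2 hp
  have mM := mem_zero.imax (mem_pt (sub (mulP G.lam (add (add (mulP (mulP qQ (mulP (pt c1) (pt c1)))
    (add one G.cs)) (mulP (mulP qH (mulP (pt c1) (pt c2))) G.sn)) (mulP (mulP qQ (mulP (pt c2)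
    (pt c2))) (sub one G.cs)))) (add (mulL (pt c1) G.cs) (mulP (pt c2) G.sn))).h)
  have M0 := le_max_left 0 (val (sub (mulP G.lam (add (add (mulP (mulP qQ (mulP (pt c1) (pt c1)))
    (add one G.cs)) (mulP (mulP qH (mulP (pt c1) (pt c2))) G.sn)) (mulP (mulP qQ (mulP (pt c2)
    (pt c2))) (sub one G.cs)))) (add (mulL (pt c1) G.cs) (mulP (pt c2) G.sn))).h)
  have mA := (mem_iff.1 ((ml.mulP l0.le (by positivity) (((P1.mulP (by positivity) (by positivity)
    (m1.add m2)).add (P3.mulP (by positivity) op O)).add (P2.mulP (by positivity) ps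
    (m1.sub m2)))).sub ((C1.mulP u1 sp m2).add (C2.mulP u2 op O)))).2
  have U := ml.mulP l0.le (by positivity) (P1.add P2)
  have V := (ml.mulL l0.le (P1.sub P2)).sub C1
  have W := (ml.mulP l0.le (by positivity) P3).sub C2
  have SC := m2.mulL sp m3
  have mQ := ((U.mulL (by positivity) ((U.mulP (by positivity) p0 m1).add (mem_qTwo.mulL zero_le_two
    ((m2.mulL sp V).add (O.mulL op W))))).add (mem_qH.mulL (by norm_num) ((V.sq.mulL (sq_nonneg _)
    (m1.add SC)).add (W.sq.mulL (sq_nonneg _) (m1.sub SC))))).add ((m2.mulL sp V).mul (m2.mulL sp W))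
  have e := m5 _ (right_mem_Icc.2 hp)
  have sq := Real.sin_nonneg_of_nonneg_of_le_pi (p0.trans hp) hs.le
  have oq := sub_nonneg.2 (Real.cos_le_one (σ + a))
  refine ⟨(ml.mulP l0.le g0 (mem_pt _)).le mem_qQ e4, gain_real hn l0 s0 a0 hs hp p0 h0 hb
    ((((C1.mulP u1 sq e.1).add (C2.mulP u2 oq (mem_one.sub e.2))).mulL (by positivity) mc).le k1 e1)
    (gX_ok (by positivity) (by positivity) (by positivity) hs (ml.mulP l0.le u1 C1)
      (ml.mulP l0.le u2 C2) (mem_pt t) k2 e2) (fun x hx => ?_)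
    (le_trans (le_of_eq ?_) (mul_le_mul_of_nonneg_left mA l0.le))
    ((gval_mono ((mn_eq _ _).trans_le (min_le_left _ _))).trans (val_glo (mem_qP.mulL (by positivity)
      ((mem_pt _).add (m4.mulP dp M0 mM)).neg) ((Nat.succ_pos _).trans_le
        (e3'.trans ((mn_eq _ _).trans_le (min_le_left _ _)))))) ?_
    (mem_iff.1 (mem_qP.mulL (by positivity) ((((mem_pt _).add (mem_pt _)).add
      (ml.mulL l0.le mQ)).add (m4.mulP dp (by positivity) (mM.mulP M0 (by positivity)
      (mem_qTwo.add (ml.mulP l0.le M0 mM))))))).2⟩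
  · have f := m5 x hx
    have sx := Real.sin_nonneg_of_nonneg_of_le_pi (p0.trans hx.1) (hx.2.trans hs.le)
    have ox := sub_nonneg.2 (Real.cos_le_one x)
    have cx := (cos_pos' (p0.trans hx.1) (hx.2.trans_lt hs)).le
    have := (mem_iff.1 ((ml.mulP l0.le (by positivity) (((P1.mulP (by positivity) cx
      (mem_one.add f.2)).add (P3.mulP (by positivity) sx f.1)).add (P2.mulP (by positivity) ox
      (mem_one.sub f.2)))).sub ((C1.mulL u1 f.2).add (C2.mulP u2 sx f.1)))).2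
    refine le_trans (le_of_eq ?_) (mul_le_mul_of_nonneg_left (this.trans (le_max_right 0 _)) l0.le)
    unfold XX
    ring
  · unfold G1 M1
    ring
  · unfold G2 M2
    ring

/-- share of the first constant (a rule, not used in proofs) -/
def hF (u : ℕ) : ℕ := cond (Nat.ble u (nat_lit 10145709240540253388)) (nat_lit 0)
  (Nat.sub (Nat.sub (nat_lit 37114849076303617851) (Nat.shiftRight u (nat_lit 1)))
    (Nat.div (nat_lit 340282366920938463463374607431768211456) u))

/-- choice of the constants from the available amount `av` -/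
def gPick (G : Geo) (N : Iv) (okT : Bool) (t av : ℕ) : GnR :=
  shr (Nat.div (Nat.mul av (pp G.lam.h)) (Nat.succ (Nat.shiftLeft (pp t) (nat_lit 1)))) fun u =>
    shr (Nat.div (Nat.shiftLeft av (nat_lit 64)) (mx u (nat_lit 18446744073709551616))) fun v =>
      shr (hF (mn u (nat_lit 18446744073709551616))) fun f =>
        shr (cd (Nat.div (Nat.mul f v) (Nat.succ (pp G.sn.h)))) fun c1 =>
          shr (cd (Nat.div (Nat.mul (Nat.sub (nat_lit 18446744073709551616) f) v)
            (Nat.succ (pp (sub one G.cs).h)))) fun c2 => gFin G N (pt t) okT c1 c2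
              (cd (Nat.div (nat_lit 85070590462584015637614250361238847488) (Nat.succ (pp G.lam.h))))

/-- validity of the enclosure of the tangent of the half angle -/
def gTok (G : Geo) : Bool := cond (nonneg G.cs) (pos (add one G.cs)) (pos G.sn)

/-- enclosure of the tangent of the half angle -/
def gT (G : Geo) : Iv :=
  cond (nonneg G.cs) (divP G.sn (add one G.cs)) (divP (sub one G.cs) G.sn)

/-- room for the field -/
def gN (G : Geo) (b : ℕ) : Iv :=
  meet (sub G.ss (mulL G.st (pt b))) (mulL G.st (sub G.r (pt b)))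

/-- fall back to the zero field -/
def gAlt (N : Iv) (R : GnR) : GnR := cond R.ok R ⟨nonneg N, nat_lit 79228162514264337593543950336,
  nat_lit 79228162514264337593543950336, nat_lit 79228162514264337593543950336,
  nat_lit 79228162514264337593543950336⟩

/-- the gain evaluator -/
def gainEv (G : Geo) (b : ℕ) : GnR := shr (gN G b) fun N =>
  shr (cond (gTok G) (gT G).h (nat_lit 158456325028528675187087900672)) fun t =>
    shr (Nat.div (Nat.mul (nm N.l) (nat_lit 18446742974197923840)) (Nat.succ (pp G.ct.h)))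
      fun av => gAlt N (gPick G N (gTok G) t av)

lemma mem_gN {G : Geo} {l σ a : ℝ} (b : ℕ) (h : G.ok l σ a) :
    mem (Real.sin σ / l - Real.sin a / l * val b) (gN G b) := by
  obtain ⟨l0, s0, a0, hs, -, mr, m1, m2, -⟩ := h
  have sa := Real.sin_pos_of_pos_of_lt_pi a0 (by linarith)
  refine (m1.sub (m2.mulL (by positivity) (mem_pt b))).meet
    ((m2.mulL (by positivity) (mr.sub (mem_pt b))).congr ?_)
  unfold rt
  field_simp

lemma cond_two {α β : Type} {P : α → β → Prop} {b : Bool} {x y : α} {u v : β} (h1 : P x u)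
    (h2 : P y v) : P (cond b x y) (cond b u v) := by
  cases b
  exacts [h2, h1]

lemma mem_gT {G : Geo} {l σ a : ℝ} (h : G.ok l σ a) :
    gTok G = true → mem (Real.sin (σ + a) / (1 + Real.cos (σ + a))) (gT G) := by
  obtain ⟨l0, s0, a0, hs, -, -, -, -, -, p, p0, hp, -, -, -, -, m5⟩ := h
  have e := m5 _ (right_mem_Icc.2 hp)
  have sq := Real.sin_pos_of_pos_of_lt_pi (add_pos s0 a0) hs
  have cq := cos_pos' (add_pos s0 a0).le hs
  refine cond_two (P := fun k I => k = true → mem (Real.sin (σ + a) / (1 + Real.cos (σ + a))) I)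
    (e.1.divP sq.le (mem_one.add e.2)) fun ok =>
    ((mem_one.sub e.2).divP (sub_nonneg.2 (Real.cos_le_one _)) e.1 ok).congr ?_
  field_simp
  linear_combination -Real.sin_sq_add_cos_sq (σ + a)

lemma zero_good {n : ℕ} (hn : 2 ≤ n) {G : Geo} {b z : ℕ} {k : Bool} (hz : val z = 0)
    (hk : ∀ l σ a, G.ok l σ a → k = true → 0 ≤ Real.sin σ / l - Real.sin a / l * val b) :
    GnR.good n G b ⟨k, z, z, z, z⟩ := by
  refine fun ok => ⟨hz.ge, hz.ge, hz.ge, hz.le, fun l σ a hG h0 hb => ?_⟩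
  have k := hk l σ a hG ok
  obtain ⟨l0, s0, a0, hs, -⟩ := hG
  simp only [hz]
  exact ⟨by norm_num, gain_real (p := σ + a) (M := 0) (A := 0) (Q := 0) hn l0 s0 a0 hs le_rfl
    (by positivity) h0 hb (by simpa using k) (by simp [XX]) (by simp [XX]) (by simp [G1, M1])
    (by simp) (by simp [G2, M2]) (by simp)⟩

lemma gAlt_ok {n : ℕ} (hn : 2 ≤ n) {G : Geo} {b : ℕ} {R : GnR} (h : R.good n G b) :
    (gAlt (gN G b) R).good n G b :=
  cond_ind (P := GnR.good n G b) (fun _ => h) fun _ =>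
    zero_good hn gval_B fun _ _ _ hG => (mem_gN b hG).nonneg

/-- the gain evaluator is correct -/
theorem gainSpec {n : ℕ} (hn : 2 ≤ n) : GainSpec n gainEv := by
  intro G b
  change (gainEv G b).good n G b
  rw [gainEv, shr_eq, shr_eq, shr_eq]
  refine gAlt_ok hn ?_
  rw [gPick, shr_eq, shr_eq, shr_eq, shr_eq, shr_eq]
  refine gFin_ok hn _ (val_cd _) (val_cd _) (fun l σ a => mem_gN b) fun l σ a h ok => ?_
  rw [ok]
  exact (mem_iff.1 (mem_gT h ok)).2

end Pool.Agent.Lib.MP_f225de_an.Nu
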