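import Pool.Agent.Lib.MP_f225de_an.TB3

set_option autoImplicit false

namespace Pool.Agent.Lib.MP_f225de_an.Tb

open Nu Iv

variable {n m : ℕ} {R : Run}

theorem run_ok (h0 : R.n0 ≤ n) (h1 : n ≤ m) (e : (Nat.ble 4 R.n0 &&
    cond R.four (Nat.ble m 4) (Nat.ble 5 R.n0) && Nat.ble (ofQ 1 m).l R.g.l &&
    Nat.ble (ofQ 1 R.n0).h R.g.h) = true) : R.ok n := by
  simp only [Bool.and_eq_true, Nat.ble_eq] at e
  obtain ⟨⟨⟨e1, e2⟩, e3⟩, e4⟩ := e
  refine ⟨?_, e1, h0, (mem_ofQ 1 (by omega)).1.mono (neg_le_neg ?_) e3,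
    (mem_ofQ 1 (by omega)).2.mono ?_ e4⟩
  · revert e2
    cases R.four <;> simp only [cond, Nat.ble_eq] <;> intro e2
    · exact iff_of_false Bool.false_ne_true (by omega)
    · exact iff_of_true trivial (by omega)
  · rw [Nat.cast_one]
    exact one_div_le_one_div_of_le (Nat.cast_pos.2 (by omega)) (Nat.cast_le.2 h1)
  · rw [Nat.cast_one]
    exact one_div_le_one_div_of_le (Nat.cast_pos.2 (by omega)) (Nat.cast_le.2 h0)

theorem run_ok' (h0 : R.n0 ≤ n) (e : (!R.four && Nat.ble 5 R.n0 && Nat.ble zero.l R.g.l &&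
    Nat.ble (ofQ 1 R.n0).h R.g.h) = true) : R.ok n := by
  simp only [Bool.and_eq_true, Nat.ble_eq, Bool.not_eq_true'] at e
  obtain ⟨⟨⟨e1, e2⟩, e3⟩, e4⟩ := e
  refine ⟨iff_of_false (by simp [e1]) (by omega), by omega, h0,
    mem_zero.1.mono (neg_le_neg (by positivity)) e3, (mem_ofQ 1 (by omega)).2.mono ?_ e4⟩
  rw [Nat.cast_one]
  exact one_div_le_one_div_of_le (Nat.cast_pos.2 (by omega)) (Nat.cast_le.2 h0)

/-- `Tr.low` by structural recursion -/
def lowC (x : ℕ) : Tr → Nd → Nd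
  | .leaf, a => a
  | .node l k d r, a => bif Nat.ble k x then lowC x r d else lowC x l a

/-- `Tr.up` by structural recursion -/
def upC (x : ℕ) : Tr → Nd → Nd
  | .leaf, a => a
  | .node l k d r, a => bif Nat.ble x k then upC x l d else upC x r a

/-- `look` by structural recursion -/
def lookC (D : Tab) (I : Iv) : Lk :=
  mkLk (lowC (nm I.l) D.T (dflt D.fm)) (upC (pp I.h) D.T (dflt D.fm)) I

end Pool.Agent.Lib.MP_f225de_an.Tb
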