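import Pool.Agent.Lib.MP_f225de_an.CK7
import Pool.Agent.Lib.MP_f225de_an.NT3
import Pool.Agent.Lib.MP_f225de_an.NV2
import Pool.Agent.Lib.MP_f225de_an.TB4

set_option autoImplicit false

open Set
open scoped Real

namespace Pool.Agent.Lib.MP_f225de_an.Nu

open Iv Tb

variable {n : ℕ} {F : ℝ → ℝ}

/-- nodes packed in fields of 32 bits -/
def thP (pk j : ℕ) : ℕ := Nat.shiftLeft (Nat.land (Nat.shiftRight pk (Nat.mul (nat_lit 32) j))
  (nat_lit 4294967295)) (nat_lit 33)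

/-- the evaluators of a run -/
noncomputable def mkE (R : Run) (D : Tab) (ray out : Iv → Iv → Res) (t p q : Pr) (pk : ℕ) : Ev :=
  ⟨R, t, p, q, thP pk, look D, alI R, ray, out, phEv R.four, gainEv, tcEv R t p q, tlEv R t p q,
    lcEv R t p q, llEv p q⟩

/-- signs of the constants of a profile -/
def Pr.chk (p : Pr) : Bool :=
  Nat.ble cz p.a && Nat.ble cz p.b && Nat.ble cz p.d && Nat.blt cz p.h

lemma Pr.chk_ok {p : Pr} (e : p.chk = true) : p.ok := by
  simp only [Pr.chk, Bool.and_eq_true, Nat.blt_eq] at e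
  refine ⟨cz_le e.1.1.1, cz_le e.1.1.2, cz_le e.1.2, ?_⟩
  have : ((cz : ℕ) : ℝ) < p.h := by exact_mod_cast e.2
  rw [← val_cz]
  unfold val
  gcongr

/-- the conditions on the constants of a run -/
def cstOK (t p q : Pr) : Bool := t.chk && p.chk && q.chk &&
  Nat.ble t.a (nat_lit 79228162551157825740963053568)

variable {R : Run} {D : Tab} {ray out : Iv → Iv → Res} {t p q : Pr} {pk pk' a b : ℕ}

lemma cstOK_ok (e : cstOK t p q = true) : t.ok ∧ p.ok ∧ q.ok ∧ val t.a ≤ 2 := by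
  simp only [cstOK, Bool.and_eq_true, Nat.ble_eq] at e
  exact ⟨Pr.chk_ok e.1.1.1, Pr.chk_ok e.1.1.2, Pr.chk_ok e.1.2,
    (val_mono e.2).trans_eq (by norm_num [val])⟩

theorem mkE_ok (hR : R.ok n) (hD : LkOK n F (look D) ∧ FOK n F) (h1 : RaySpec n ray)
    (h2 : OutSpec n out) (e : cstOK t p q = true) (e0 : thP pk 0 = 2 ^ 64) :
    (mkE R D ray out t p q pk).ok n F := by
  obtain ⟨ht, hp, hq, h⟩ := cstOK_ok e
  constructor <;> dsimp only [mkE]
  exacts [hR, hp, hq, e0, hD.1, alSpec hR, h1, h2, phSpec hR.1,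
    gainSpec (by have := hR.four; omega), tSpec hR ht h hp hq, tlSpec hR hD.2 ht hp hq,
    lSpec hR ht h hp hq, llSpec hp hq]

lemma mkE_re (h : (mkE R D ray out t p q pk).ok n F) (e0 : thP pk' 0 = 2 ^ 64) :
    (mkE R D ray out t p q pk').ok n F :=
  ⟨h.R, h.p, h.q, e0, h.look, h.al, h.ray, h.out, h.ph, h.gain, h.tc, h.tl, h.lc, h.ll⟩

theorem CovA.re (h : CovA (mkE R D ray out t p q pk') a b) (e0 : thP pk' 0 = 2 ^ 64) :
    CovA (mkE R D ray out t p q pk) a b := fun n F e => h n F (mkE_re e e0)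

theorem CovB.re (h : CovB (mkE R D ray out t p q pk') a b) (e0 : thP pk' 0 = 2 ^ 64) :
    CovB (mkE R D ray out t p q pk) a b := fun n F e => h n F (mkE_re e e0)

end Pool.Agent.Lib.MP_f225de_an.Nu
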