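import Mathlib

set_option autoImplicit false

namespace Pool.Agent.Lib.MP_f225de_an.Sk

lemma key3 {a F T N g α β x e mx q : ℝ} (ha : 9 / 10 ≤ a) (hF : 19 / 5 ≤ F ∧ F ≤ 107 / 25)
    (hg : g ≤ T) (hT0 : 0 ≤ T) (hT : T ≤ 8 - 3 / 2 * F) (hN : 0 ≤ N ∧ N ≤ 1)
    (hα : 0 ≤ α ∧ α ≤ 1 / 2) (hβ : 33 / 40 * α - 3 / 200 ≤ β ∧ β ≤ 4 / 5 * α) (hβ0 : 0 ≤ β)
    (hx : -(11 / 40) ≤ x ∧ x ≤ 11 / 20) (he : 0 ≤ e ∧ e ≤ 33 / 40)
    (hm : 207 / 100 * x ≤ mx ∧ 2 * x ≤ mx) (hq : q = 8 + F / 2 - T + N) :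
    0 ≤ a * (q - 3 / 2 * F) / 12 + (16 - g) * β / 4 - α * q / 3 + (a - β) * mx
      - (a - α) * x * (1 + q / 9) + e * (207 / 100 * a - (a - α) * (1 + q / 9)) := by
  obtain ⟨δ, d0, d1, d2⟩ : ∃ δ, 0 ≤ δ ∧ 1 + q / 9 - 207 / 100 ≤ δ ∧
      (δ = 0 ∨ δ = 1 + q / 9 - 207 / 100) :=
    ⟨max 0 _, le_max_left _ _, le_max_right _ _, max_choice _ _⟩
  have d3 : δ ≤ 17 / 100 := by rcases d2 with h | h <;> linarith
  have a2 : 0 ≤ 1 - 2 * α := by linarith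
  have a3 := mul_nonneg d0 a2
  have a4 := mul_nonneg hα.1 (sub_nonneg.2 d3)
  have a5 := mul_nonneg (by linarith : 0 ≤ 9 / 10 - α) (sub_nonneg.2 d1)
  have hC : 0 ≤ (q - 3 / 2 * F) / 12 + mx - x * (1 + q / 9) + e * (207 / 100 - (1 + q / 9)) := by
    have h1 : -(33 / 40 * δ) ≤ e * (207 / 100 - (1 + q / 9)) := by
      linarith [mul_nonneg he.1 (sub_nonneg.2 d1), mul_nonneg d0 (sub_nonneg.2 he.2)]
    have h2 : -(11 / 20 * δ) - 43 / 1000 ≤ mx - x * (1 + q / 9) := by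
      rcases le_total 0 x with h | h
      · linarith [mul_nonneg h (sub_nonneg.2 d1), mul_nonneg d0 (sub_nonneg.2 hx.2)]
      · linarith [mul_nonneg (neg_nonneg.2 h) (by linarith : 0 ≤ q / 9 - 1 + 39 / 250)]
    rcases d2 with h | h <;> linarith
  have hE : -(33 / 40 * (9 / 10) * (δ * (1 - 2 * α))) ≤
      e * (207 / 100 * (9 / 10) - (9 / 10 - α) * (1 + q / 9)) := by
    have : -(9 / 10 * (δ * (1 - 2 * α))) ≤ 207 / 100 * (9 / 10) - (9 / 10 - α) * (1 + q / 9) := by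
      linarith
    linarith [mul_le_mul_of_nonneg_left this he.1, mul_nonneg a3 (sub_nonneg.2 he.2)]
  have hX : -(11 / 20 * (9 / 10) * (δ * (1 - 2 * α))) - 48 / 1000 * (1 - 2 * α)
      + 11 / 20 * (α * (2 / 5 * (1 + q / 9) - 201 / 200)) ≤
      (9 / 10 - β) * mx - (9 / 10 - α) * x * (1 + q / 9) := by
    have b1 := mul_nonneg hα.1 (by linarith : 0 ≤ 201 / 200 - 2 / 5 * (1 + q / 9))
    rcases le_total 0 x with h | h
    · have b2 := mul_le_mul_of_nonneg_left hm.1 (by linarith : 0 ≤ 9 / 10 - β)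
      have : -(9 / 10 * (δ * (1 - 2 * α))) ≤
        (9 / 10 - β) * (207 / 100) - (9 / 10 - α) * (1 + q / 9) := by linarith
      linarith [mul_le_mul_of_nonneg_left this h, mul_nonneg a3 (sub_nonneg.2 hx.2)]
    · have b2 := mul_le_mul_of_nonneg_left hm.2 (by linarith : 0 ≤ 9 / 10 - β)
      have b3 := mul_nonneg a2 (by linarith : 0 ≤ 9 / 10 * (1 + q / 9) - 183 / 100 + 171 / 1000)
      have : -(171 / 1000 * (1 - 2 * α)) + 2 * (α * (2 / 5 * (1 + q / 9) - 201 / 200)) ≤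
        (9 / 10 - α) * (1 + q / 9) - 2 * (9 / 10 - β) := by linarith
      linarith [mul_le_mul_of_nonneg_left this (neg_nonneg.2 h),
        mul_nonneg a2 (sub_nonneg.2 hx.1), mul_nonneg b1 (sub_nonneg.2 hx.1)]
  have h1 := mul_le_mul_of_nonneg_right (by linarith : 16 - T ≤ 16 - g) hβ0
  have h2 := mul_le_mul_of_nonneg_left hβ.1 (by linarith : 0 ≤ 16 - T)
  have h3 := mul_nonneg a2 (by rcases d2 with h | h <;> linarith : 0 ≤ 3 / 40 * (q - 3 / 2 * F)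
    - 3 / 800 * (16 - T) - 99 / 80 * δ - 48 / 1000)
  have h4 := mul_nonneg hα.1 (by linarith : 0 ≤ 3 / 40 * (q - 3 / 2 * F) + 159 / 1600 * (16 - T)
    - q / 6 + 11 / 40 * (2 / 5 * (1 + q / 9) - 201 / 200))
  have h5 := mul_nonneg (sub_nonneg.2 ha) hC
  linarith

lemma ab_bd {c : ℝ} (h0 : 0 ≤ c) (h1 : c ≤ 1) :
    33 / 40 * (2 * c / (3 + c)) - 3 / 200 ≤ 2 * c / (4 + c) ∧
      2 * c / (4 + c) ≤ 4 / 5 * (2 * c / (3 + c)) := by
  constructor
  · rw [sub_le_iff_le_add, ← mul_div_assoc, div_add' _ _ _ (by positivity),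
      div_le_div_iff₀ (by positivity) (by positivity)]
    nlinarith [sq_nonneg (c - 3 / 4)]
  · rw [← mul_div_assoc, div_le_div_iff₀ (by positivity) (by positivity)]
    nlinarith

lemma half4 {a c C cb q g Tb x mx pn : ℝ} (ha : 9 / 10 ≤ a) (hc : 0 ≤ c ∧ c ≤ 1)
    (ho : c ≤ C ∧ C ≤ c + cb) (hq : 16 - 2 * Tb ≤ q ∧ q ≤ 16 - g) (hg : 0 ≤ g) (hT : Tb ≤ 2)
    (hm : 207 / 100 * x ≤ mx ∧ (2 - Tb / 8) * x ≤ mx) (hp : 0 ≤ pn ∧ -x - 3 / 7 * c ≤ pn) :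
    q * c / (4 * (4 + C)) + (a - 2 * C / (4 + C)) * (x / 2) * (1 + q / 4 ^ 2) ≤
      (16 - g) * c / (4 * (4 + c)) + (a - 2 * c / (4 + c)) * mx / 2
        + 8 * cb / ((4 + c) * (4 + c + cb)) * pn := by
  obtain ⟨c0, c1⟩ := hc
  obtain ⟨o, rfl⟩ : ∃ o, C = c + o := ⟨C - c, by ring⟩
  have o0 : 0 ≤ o := by linarith
  have o1 : o ≤ cb := by linarith
  have j0 : 0 ≤ o / ((4 + c) * (4 + c + o)) := by positivity
  have j1 : o / ((4 + c) * (4 + c + o)) ≤ cb / ((4 + c) * (4 + c + cb)) := by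
    have := o0.trans o1
    rw [div_le_div_iff₀ (by positivity) (by positivity)]
    nlinarith [mul_nonneg (sub_nonneg.2 o1) (sq_nonneg (4 + c))]
  have b0 : 0 ≤ a - 2 * c / (4 + c) := by
    have : 2 * c / (4 + c) ≤ 9 / 10 := (div_le_iff₀ (by positivity)).2 (by linarith)
    linarith
  have e1 : q * c / (4 * (4 + (c + o))) = q * c / (4 * (4 + c))
      - q * c / 4 * (o / ((4 + c) * (4 + c + o))) := by field_simp; ring
  have e2 : 2 * (c + o) / (4 + (c + o)) = 2 * c / (4 + c) + 8 * (o / ((4 + c) * (4 + c + o))) := by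
    field_simp; ring
  have h1 : q * c / (4 * (4 + c)) ≤ (16 - g) * c / (4 * (4 + c)) := by gcongr; exact hq.2
  rw [e1, e2, mul_div_assoc 8 cb]
  generalize o / ((4 + c) * (4 + c + o)) = j at *
  generalize cb / ((4 + c) * (4 + c + cb)) = J at *
  have h2 := mul_le_mul_of_nonneg_right j1 hp.1
  have h3 : x * (1 + q / 16) ≤ mx := by
    rcases le_total 0 x with h | h
    · linarith [mul_nonneg h (by linarith : 0 ≤ 16 - q)]
    · linarith [mul_nonneg (neg_nonneg.2 h) (sub_nonneg.2 hq.1)]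
  have h4 := mul_le_mul_of_nonneg_left h3 b0
  have h5 : 0 ≤ q * c / 4 + 4 * (1 + q / 16) * x + 8 * pn := by
    linarith [mul_le_mul_of_nonneg_left hp.2 (by linarith : 0 ≤ 1 + q / 16),
      mul_nonneg hp.1 (by linarith : 0 ≤ 16 - q), mul_nonneg c0 (by linarith : 0 ≤ q - 12)]
  linarith [mul_nonneg j0 h5]

lemma stepV_alg {n d F F1 p K al c t SB SU V E1 E2 l k1 k2 q : ℝ} (hn : n = 4) (hp : 0 < p)
    (hK : 0 < K) (ha : al = 4 * K / p) (hd : 0 < d) (hc : 0 ≤ c) (hA : 0 < 2 - al - 2 * c / (d + c))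
    (he : 0 < d + al * E1 / 2) (hq : q = (d - 1) * F + (d - 2) * t - n * SB / p + n * SU / p)
    (hq0 : 0 ≤ q) (hl : l ≤ d + c) (h1 : k1 ≤ K * (d + c + E1)) (h2 : k2 ≤ K ^ 2 * (d + c + E2))
    (h : al * d + al ^ 2 * E2 / 2 + (2 - al - 2 * c / (d + c)) * (al * E1 / 2) * (1 + q / d ^ 2) ≤
      F1 * (4 - d) / 2 + al / 4 * (n * SB / p - n * SU / p) + 4 * V / p
        + ((2 - al - 2 * c / (d + c)) / d + (al - 1) / 2) * q) :
    0 ≤ (2 - al - 2 * c / (d + c)) / (d + al * E1 / 2) ∧ ∃ v, 0 < v ∧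
      (2 - al - 2 * c / (d + c)) / (d + al * E1 / 2) * (l + k1 / v) ≤ 2 ∧ k2 + v * k1 ≤
      2 * (((2 * p * K * F + p ^ 2 * F1) * (d - 1) / n ^ 2
      + (K / n * ((d - 2) * t * p / n - SB + SU)
      + p / n * ((d - 2) * (-((n - 1) * F1) / (n - 2) * p + t * K) / n + V)))
      + ((2 - al - 2 * c / (d + c)) / (d + al * E1 / 2) - 2 / n)
        * (p ^ 2 * F * (d - 1) / n ^ 2 + p / n * ((d - 2) * t * p / n - SB + SU))) := by
  subst hn
  have a0 : 0 < al := by rw [ha]; positivity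
  obtain ⟨A, hA'⟩ : ∃ A, A = 2 - al - 2 * c / (d + c) := ⟨_, rfl⟩
  have e0 : (d + c) * A = 2 * d - al * (d + c) := by rw [hA']; field_simp; ring
  rw [← hA'] at hA h ⊢
  have hv : 0 < K * A / al := by positivity
  refine ⟨by positivity, _, hv, ?_, ?_⟩
  · refine (mul_le_mul_of_nonneg_left (add_le_add hl (div_le_div_of_nonneg_right h1 hv.le))
      (by positivity)).trans_eq ?_
    rw [div_mul_eq_mul_div, div_eq_iff he.ne']
    field_simp
    linarith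
  · have h3 : A / d - A * (al * E1 / 2) / d ^ 2 ≤ A / (d + al * E1 / 2) := by
      rw [le_div_iff₀ he]
      have : 0 ≤ A * (al * E1 / 2) ^ 2 / d ^ 2 := by positivity
      refine sub_nonneg.1 (this.trans_eq ?_)
      field_simp
      ring
    have h4 := add_nonneg (mul_nonneg (sub_nonneg.2 h3) hq0) (sub_nonneg.2 h)
    refine (add_le_add h2 (mul_le_mul_of_nonneg_left h1 hv.le)).trans (sub_nonneg.1
      ((mul_nonneg (by positivity : 0 ≤ p ^ 2 / 8) h4).trans_eq ?_))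
    obtain rfl : K = al * p / 4 := by rw [ha]; field_simp
    generalize A / (d + al * E1 / 2) = w
    rw [hq]
    linear_combination (norm := (field_simp; ring)) (p ^ 2 / 16 * al) * e0

end Pool.Agent.Lib.MP_f225de_an.Sk
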