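import Pool.Agent.Lib.MP_f225de_an.Sk0

set_option autoImplicit false

open MeasureTheory Set
open scoped Real

namespace Pool.Agent.Lib.MP_f225de_an.Sk

/-- area density of a half sector of angle `s` with speed `u` on the level arcs -/
noncomputable def sq2 (s y : ℝ) (u : ℝ → ℝ) : ℝ := ∫ ψ in Arc s (Real.exp y), u ψ ^ 2

/-- length of the level arcs -/
noncomputable def ell (s y : ℝ) (u : ℝ → ℝ) : ℝ := ∫ ψ in Arc s (Real.exp y), u ψ

end Pool.Agent.Lib.MP_f225de_an.Sk
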