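import Pool.Agent.Lib.MP_f225de_an.Sk3
import Pool.Agent.Lib.MP_f225de_an.SkD

set_option autoImplicit false

open MeasureTheory Set Filter Topology Polynomial
open scoped ENNReal NNReal Real

namespace Pool.Agent.Lib.MP_f225de_an.Sk

open E

variable {n : ℕ}

/-- level data on the half sectors, with the isoperimetric inequality -/
structure AreaW (c : Cmb n) (u : c.H → ℝ → ℝ → ℝ) : Prop where
  meas : ∀ h y, Measurable (u h y)
  nonneg : ∀ h y ψ, 0 ≤ u h y ψ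
  sq : ∀ h y, IntegrableOn (fun ψ => u h y ψ ^ 2) (Arc (c.sig h) (Real.exp y))
  cont : ∀ h, Continuous fun y => sq2 (c.sig h) y (u h y)
  int : ∀ h y, IntegrableOn (fun t => sq2 (c.sig h) t (u h t)) (Iic y)
  iso : ∀ C y, c.Closed C y →
    4 * π * ∑ h ∈ c.cells C, ∫ t in Iic y, sq2 (c.sig h) t (u h t) ≤
      (∑ h ∈ c.cells C, ell (c.sig h) y (u h y)) ^ 2
  fin : ∀ ε > 0, ∀ᶠ y in atTop,
    ∑ h, ∫ t in Iic y, sq2 (c.sig h) t (u h t) ≤ π * (1 + ε) * Real.exp (2 * y / n)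

/-- a density `k s y ψ` on the level arcs with bounds for its first and second moment -/
structure Ker (k : ℝ → ℝ → ℝ → ℝ) (κ η : ℝ → ℝ → ℝ) : Prop where
  meas : ∀ s ∈ Ioc 0 π, ∀ y, Measurable (k s y)
  nonneg : ∀ s ∈ Ioc 0 π, ∀ y ψ, 0 ≤ k s y ψ
  sq : ∀ s ∈ Ioc 0 π, ∀ y, IntegrableOn (fun ψ => k s y ψ ^ 2) (Arc s (Real.exp y))
  one : ∀ s ∈ Ioc 0 π, ∀ y, ell s y (k s y) ≤ 2 * π * κ s y
  two : ∀ s ∈ Ioc 0 π, ∀ y, sq2 s y (k s y) ≤ 2 * π * η s y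

/-- the cost of a half sector at level `y` -/
noncomputable def costW (n : ℕ) (s y : ℝ) (k u : ℝ → ℝ) : ℝ≥0∞ :=
  ∫⁻ ψ in Arc s (Real.exp y), ENNReal.ofReal (Real.exp (-y / n) * k ψ * u ψ)

/-- the weighted differential inequality at level `y` -/
def Cmb.StepW (c : Cmb n) (κ η : ℝ → ℝ → ℝ) (C : Finset (Fin (n - 1))) (y q q1 w1 : ℝ) : Prop :=
  c.Closed C y ∧ 0 ≤ w1 + 2 / n ∧ ∃ v : ℝ, 0 < v ∧
    (w1 + 2 / n) * (c.lamC C y + c.etaC κ C y / v) ≤ 2 ∧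
    c.etaC η C y + v * c.etaC κ C y ≤ 2 * (q1 + w1 * q)

/-- the rules of `Sys` for an arbitrary one step predicate -/
structure SysG (St : Finset (Fin (n - 1)) → ℝ → ℝ → ℝ → ℝ → Prop)
    (S : Finset (Fin (n - 1)) → ℝ → ℝ → Prop) : Prop where
  mono : ∀ C y q q', q ≤ q' → S C y q → S C y q'
  union : ∀ C D y q q', Disjoint C D → S C y q → S D y q' → S (C ∪ D) y (q + q')
  step : ∀ C (a b : ℝ) (Q Q1 W W1 : ℝ → ℝ), a ≤ b → ContinuousOn Q (Icc a b) →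
    ContinuousOn W (Icc a b) →
    (∀ y ∈ Ioo a b, HasDerivAt Q (Q1 y) y ∧ HasDerivAt W (W1 y) y ∧
      St C y (Q y) (Q1 y) (W1 y)) → S C a (Q a) → S C b (Q b)
  start : ∀ C (b : ℝ) (Q Q1 W W1 : ℝ → ℝ), ContinuousOn Q (Iic b) → ContinuousOn W (Iic b) →
    (∀ y < b, 0 ≤ Q y ∧ HasDerivAt Q (Q1 y) y ∧ HasDerivAt W (W1 y) y ∧
      St C y (Q y) (Q1 y) (W1 y)) → S C b (Q b)

/-- the weighted numerical statement on merge trees -/
def NStW (n : ℕ) (κ η : ℝ → ℝ → ℝ) : Prop :=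
  ∀ (c : Cmb n) (S : Finset (Fin (n - 1)) → ℝ → ℝ → Prop), SysG (c.StepW κ η) S →
    ∀ y, 0 ≤ y → S Finset.univ y 1

/-- speed on the level arcs of a half sector -/
noncomputable def uu {p : ℂ[X]} (G : Geo n p) (h : G.H) (y ψ : ℝ) : ℝ :=
  ‖(Real.exp y : ℂ) * deriv (G.Z h) (1 + Real.exp y * Complex.exp (ψ * Complex.I))‖

/-- the area statement with the isoperimetric inequality -/
def AreaWSt (n : ℕ) : Prop := ∀ (p : ℂ[X]) (G : Geo n p), AreaW (cmb G) (uu G)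

/-- the certificate statement without Cauchy-Schwarz -/
def CertW (n : ℕ) (k : ℝ → ℝ → ℝ → ℝ) : Prop :=
  ∀ (p : ℂ[X]) (G : Geo n p), ENNReal.ofReal (2 * π) * Len p ≤
    BB n * ∑ h, ∫⁻ y, costW n (G.σ h) y (k (G.σ h) y) (uu G h y)

end Pool.Agent.Lib.MP_f225de_an.Sk
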