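import Pool.Agent.Lib.MP_f225de_an.N5
import Pool.Agent.Lib.MP_f225de_an.N8a
import Pool.Agent.Lib.MP_f225de_an.D4
import Pool.Agent.Lib.MP_f225de_an.SkW0

set_option autoImplicit false

open Finset Real

namespace Pool.Agent.Lib.MP_f225de_an.Sk

lemma cor_top_le (s y : ℝ) : cor s y ≤ cor (π / 2) y :=
  mul_le_mul_of_nonneg_left (arcsin_le_arcsin (div_le_div_of_nonneg_right
    ((sin_le_one s).trans sin_pi_div_two.ge) (exp_pos y).le)) (by positivity)

lemma prim {f : ℝ → ℝ} {C : ℝ} (hm : Measurable f) (hb : ∀ y, |f y| ≤ C) :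
    (Continuous fun z => ∫ t in (0 : ℝ)..z, f t) ∧
      ∀ y, ContinuousAt f y → HasDerivAt (fun z => ∫ t in (0 : ℝ)..z, f t) (f y) y := by
  have hi : ∀ a b, IntervalIntegrable f MeasureTheory.volume a b := fun a b =>
    (intervalIntegrable_const (c := C)).mono_fun' hm.aestronglyMeasurable (.of_forall hb)
  exact ⟨intervalIntegral.continuous_primitive hi 0, fun y =>
    intervalIntegral.integral_hasDerivAt_right (hi 0 y)
      hm.stronglyMeasurable.stronglyMeasurableAtFilter⟩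

/-- the weighted numerical statement in degree four -/
theorem nst4 {k1 k2 : ℝ → ℝ → ℝ} (D : Data4 k1 k2) : NStW 4 k1 k2 := by
  intro c S hS y hy
  have n4 : ((4 : ℕ) : ℝ) = 4 := Nat.cast_ofNat
  have hL : ∀ h, c.Lg h → c.sig h ∈ Set.Icc (π / 3) π := fun h e => by
    have := c.lg_mem (by omega) e
    rwa [n4, show (4 : ℝ) - 1 = 3 by norm_num] at this
  have hal : Continuous D.al := funext D.al_eq ▸ (continuous_const.mul D.K_cont).div
    (Cmb.P_cont D.toBase) fun y => (D.P_pos y).ne'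
  have a0 : ∀ y, 0 < D.al y := fun y => D.al_eq y ▸ div_pos (mul_pos four_pos (D.K_pos y)) (D.P_pos y)
  have hc := fun (h : c.H) y => cor_nonneg (c.sig_mem h) y
  obtain ⟨u1, u2, hx, hm, hu, hv⟩ : ∃ u1 u2 : c.H → ℝ → ℝ, (∀ h y, k1 (c.sig h) y ≤ D.K y *
      (lam (c.sig h) y + u1 h y) ∧ k2 (c.sig h) y ≤ D.K y ^ 2 * (lam (c.sig h) y + u2 h y) ∧
      -(1 / 4) ≤ u1 h y) ∧ (∀ h, Measurable (u1 h) ∧ ∀ y, y ∉ D.X (c.sig h) → ContinuousAt (u1 h) y)
      ∧ (∀ h, ¬ c.Lg h → D.x1 (c.sig h) = u1 h ∧ D.x2 (c.sig h) = u2 h) ∧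
      ∀ h, c.Lg h → D.z1 (c.sig h) = u1 h ∧ D.z2 (c.sig h) = u2 h := by
    refine ⟨fun h => if c.Lg h then D.z1 (c.sig h) else D.x1 (c.sig h),
      fun h => if c.Lg h then D.z2 (c.sig h) else D.x2 (c.sig h), fun h y => ?_, fun h => ?_,
      fun h e => ⟨(if_neg e).symm, (if_neg e).symm⟩, fun h e => ⟨(if_pos e).symm, (if_pos e).symm⟩⟩
    all_goals beta_reduce; split_ifs with e
    exacts [(D.z_bd _ (hL h e) y).imp_right (.imp_right And.left),
      (D.x_bd _ (c.sh_le e) y).imp_right (.imp_right And.left), D.z_meas _ (hL h e),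
      D.x_meas _ (c.sh_le e)]
  have hden : ∀ (C : Finset (Fin (4 - 1))) y,
      (1 : ℝ) ≤ C.card + 1 + D.al y * (∑ h ∈ c.cells C, u1 h y) / 2 := fun C y => by
    have := card_nsmul_le_sum (c.cells C) (fun h => u1 h y) _ fun h _ => (hx h y).2.2
    rw [c.card_cells, nsmul_eq_mul] at this
    push_cast at this
    nlinarith [mul_le_mul_of_nonneg_left this (a0 y).le, D.al_le y, C.card.cast_nonneg (α := ℝ)]
  refine c.levels D.toBase le_rfl hS.mono hS.union hS.step hS.start (w := fun M C y =>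
    (2 - D.al y - 2 * (∑ h ∈ M, cor (c.sig h) y / 2) / (C.card + 1 + ∑ h ∈ M, cor (c.sig h) y / 2))
      / (C.card + 1 + D.al y * (∑ h ∈ c.cells C, u1 h y) / 2) - 2 / (4 : ℕ))
    (fun M C _ => ?_) (fun y hy k => ?_) hy
  · have h0 : ∀ y, 0 ≤ ∑ h ∈ M, cor (c.sig h) y / 2 := fun y =>
      sum_nonneg fun h _ => div_nonneg (hc h y) two_pos.le
    have h1 : Continuous fun y => 2 - D.al y - 2 * (∑ h ∈ M, cor (c.sig h) y / 2) /
        (C.card + 1 + ∑ h ∈ M, cor (c.sig h) y / 2) := by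
      have := continuous_finsetSum M fun h _ => (cor_cont (c.sig h)).div_const 2
      exact (continuous_const.sub hal).sub ((continuous_const.mul this).div
        (continuous_const.add this) fun y => by have := h0 y; positivity)
    refine (prim (C := 2 + 2 / (4 : ℕ)) ((h1.measurable.div (measurable_const.add
      ((hal.measurable.mul (Finset.measurable_sum _ fun h _ => (hm h).1)).div_const _))).sub
      measurable_const) fun y => (abs_sub _ _).trans (add_le_add ?_ (abs_of_nonneg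
        (by positivity)).le)).imp_right fun e y hy => e y ((h1.continuousAt.div
        (continuousAt_const.add ((hal.continuousAt.mul (tendsto_finsetSum _ fun h _ =>
          (hm h).2 y fun e => hy (mem_union_right _ (mem_biUnion.2
            ⟨h, mem_univ _, mem_insert_of_mem e⟩)))).div_const _))
        (one_pos.trans_le (hden C y)).ne').sub continuousAt_const)
    have := h0 y
    have h2 : 2 * (∑ h ∈ M, cor (c.sig h) y / 2) / (C.card + 1 + ∑ h ∈ M, cor (c.sig h) y / 2) ≤ 2 :=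
      (div_le_iff₀ (by positivity)).2 (by linarith [C.card.cast_nonneg (α := ℝ)])
    have h3 : 0 ≤ 2 * (∑ h ∈ M, cor (c.sig h) y / 2) /
      (C.card + 1 + ∑ h ∈ M, cor (c.sig h) y / 2) := by positivity
    exact ((abs_div _ _).trans_le (div_le_self (abs_nonneg _) ((hden C y).trans (le_abs_self _)))).trans
      (abs_le.2 ⟨by linarith [D.al_le y], by linarith [a0 y]⟩)
  simp only [Cmb.lev, mem_union, mem_biUnion, mem_univ, true_and, mem_insert, not_or,
    not_exists] at hy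
  have hp := D.P_pos y
  have hK := D.K_pos y
  have ha := D.al_le y
  have ha0 := a0 y
  have hT := D.Tb_bd y
  have hk1 : 0 < (c.cls y k).card := card_pos.2 ⟨k, c.mem_cls y k⟩
  have hk2 : (c.cls y k).card ≤ 4 - 1 := by simpa using card_le_univ (c.cls y k)
  have hlam := c.lamC_le (by omega) y k
  have hcard := c.card_mg y k
  have hsplit := card_filter_add_card_filter_not (s := c.cells (c.cls y k)) (c.Mg y)
  rw [c.card_cells] at hsplit
  obtain ⟨V, v1, v2, v3⟩ := c.cls_V D.toBase le_rfl y k rfl rfl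
  have hF := (D.F_der y hy.1).2
  rw [n4, ← D.al_eq] at hF
  have hM : ∀ h ∈ (c.cells (c.cls y k)).filter (c.Mg y), c.sig h ∈ Set.Ioc 0 (π / 2) ∧
      log (sin (c.sig h)) < y := fun h hh =>
    ⟨c.sh_le (mem_filter.1 hh).2.1, lt_of_le_of_ne (mem_filter.1 hh).2.2 (Ne.symm (hy.2 h).1)⟩
  obtain ⟨W, hO⟩ : ∃ W : c.H → ℝ, ∀ h ∈ (c.cells (c.cls y k)).filter (fun h => ¬ c.Mg y h),
      HasDerivAt (c.op D.toBase h) (if c.Lg h then D.L1 (c.sig h) y else D.A1 (c.sig h) y) y ∧
      (D.K y * (D.al y * u2 h y + W h) / 2 ≤ if c.Lg h then D.L1 (c.sig h) y else D.A1 (c.sig h) y)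
      ∧ (2 - D.al y) * (207 / 100) * u1 h y ≤ W h ∧ 0 ≤ c.op D.toBase h y ∧
      (y < 0 → 0 ≤ u1 h y ∧ u1 h y ≤ 1 / 4) ∧ (c.Lg h → (2 - D.al y - 4 * cor (π / 2) y /
        (4 + 2 * cor (π / 2) y)) * (2 - D.Tb y / 8) * u1 h y ≤ W h) := by
    refine ⟨fun h => if c.Lg h then max ((2 - D.al y) * (207 / 100) * u1 h y) ((2 - D.al y - 4 *
      cor (π / 2) y / (4 + 2 * cor (π / 2) y)) * (2 - D.Tb y / 8) * u1 h y)
      else (2 - D.al y) * (207 / 100) * u1 h y, fun h hh => ?_⟩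
    unfold Cmb.op
    beta_reduce
    split_ifs with e
    · rw [← (hv h e).1, ← (hv h e).2]
      exact ⟨(D.L_der _ (hL h e) y (hy.2 h).2).1, (D.L_der _ (hL h e) y (hy.2 h).2).2,
        le_max_left _ _, D.L_pos _ (hL h e) y, (D.z_bd _ (hL h e) y).2.2.2,
        fun _ => le_max_right _ _⟩
    · have l := not_le.1 fun e' => (mem_filter.1 hh).2 ⟨e, e'⟩
      rw [← (hu h e).1, ← (hu h e).2]
      exact ⟨(D.A_der _ (c.sh_le e) y l (hy.2 h).2).1, (D.A_der _ (c.sh_le e) y l (hy.2 h).2).2,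
        le_rfl, (D.A_bd _ (c.sh_le e) y l.le).1, fun _ => (D.x_bd _ (c.sh_le e) y).2.2.2.2 l,
        fun l => (e l).elim⟩
  obtain ⟨r, hr⟩ : ∃ r : c.H → ℝ, ∀ h, r h = (16 - 2 * (4 : ℕ) * D.G (c.sig h) y / D.P y) *
      cor (c.sig h) y / (4 * (4 + cor (c.sig h) y)) + (2 - D.al y - 2 * cor (c.sig h) y /
      (4 + cor (c.sig h) y)) * (D.al y * max (207 / 100 * u1 h y) ((2 - D.Tb y / 8) * u1 h y)) / 2
      + 8 * cor (π / 2) y / ((4 + cor (c.sig h) y) * (4 + cor (c.sig h) y + cor (π / 2) y)) *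
        max 0 (-(D.al y * u1 h y) - 3 / 7 * cor (c.sig h) y) := ⟨_, fun _ => rfl⟩
  have hcb : 0 ≤ cor (π / 2) y := cor_nonneg ⟨by positivity, by linarith [pi_pos]⟩ y
  have hB : ∀ h ∈ (c.cells (c.cls y k)).filter (c.Mg y),
      HasDerivAt (D.B (c.sig h)) (D.B1 (c.sig h) y) y ∧
      D.al y ^ 2 / 2 * u2 h y + r h ≤ -(4 / D.P y) * D.B1 (c.sig h) y := fun h hh => by
    have h1 := D.B_der _ (hM h hh).1 y (hM h hh).2 (hy.2 h).2
    rw [(hu h (mem_filter.1 hh).2.1).1, (hu h (mem_filter.1 hh).2.1).2] at h1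
    refine ⟨h1.1, le_of_eq_of_le ?_ ((mul_le_mul_of_nonneg_left h1.2
      (by positivity : 0 ≤ 4 / D.P y)).trans_eq (by ring))⟩
    have := hc h y
    rw [hr, n4]
    generalize max 0 _ = a, max (207 / 100 * u1 h y) _ = b
    rw [D.al_eq]
    field_simp
    ring
  have hG : ∀ h ∈ (c.cells (c.cls y k)).filter (c.Mg y), 0 ≤ 2 * (4 : ℕ) * D.G (c.sig h) y / D.P y :=
    fun h hh => by have := (D.B_bd _ (hM h hh).1 y (hM h hh).2.le).1; positivity
  have hmx : ∀ h, 207 / 100 * (D.al y * u1 h y) ≤ D.al y * max (207 / 100 * u1 h y)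
      ((2 - D.Tb y / 8) * u1 h y) ∧ (2 - D.Tb y / 8) * (D.al y * u1 h y) ≤
      D.al y * max (207 / 100 * u1 h y) ((2 - D.Tb y / 8) * u1 h y) := fun h =>
    ⟨(mul_left_comm _ _ _).trans_le (mul_le_mul_of_nonneg_left (le_max_left _ _) ha0.le),
      (mul_left_comm _ _ _).trans_le (mul_le_mul_of_nonneg_left (le_max_right _ _) ha0.le)⟩
  refine ⟨_, c.pot_der D.toBase le_rfl hy.1 k (fun h hh => (hB h hh).1) fun h hh => (hO h hh).1, ?_⟩
  simp only [c.sum_pot D.toBase le_rfl, Cmb.StepW, Cmb.etaC, sub_add_cancel]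
  have hb := sum_le_card_nsmul _ _ _ fun h hh => D.B_le _ (hM h hh).1 y (hM h hh).2
  have hU := div_nonneg (mul_nonneg (Nat.cast_nonneg (α := ℝ) 4)
    (sum_nonneg fun h hh => (hO h hh).2.2.2.1)) hp.le
  have h1 := sum_le_sum fun h hh => mul_le_mul_of_nonneg_left (hO h hh).2.1
    (by positivity : 0 ≤ 4 / D.P y)
  have h2 := sum_le_sum fun h hh => (hB h hh).2
  have h3 := sum_le_sum fun h hh => (hO h hh).2.2.1
  have h4 := sum_nonneg (s := (c.cells (c.cls y k)).filter (c.Mg y))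
    fun h _ => div_nonneg (hc h y) two_pos.le
  have h5 := sum_le_card_nsmul ((c.cells (c.cls y k)).filter (c.Mg y)) _ _
    fun h _ => div_le_div_of_nonneg_right (cor_le (c.sig h) y) two_pos.le
  have h6 := fun e => card_nsmul_le_sum _ _ _ fun h hh => ((hO h hh).2.2.2.2.1 e).1
  have h7 := fun e => sum_le_card_nsmul _ _ _ fun h hh => ((hO h hh).2.2.2.2.1 e).2
  have hE : ∀ f : c.H → ℝ, ∑ h ∈ c.cells (c.cls y k), f h = _ := fun f =>
    (sum_filter_add_sum_filter_not _ (c.Mg y) f).symm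
  have e1 : ∀ a b, 4 / D.P y * (D.K y * (D.al y * a + b) / 2) = D.al y ^ 2 / 2 * a + D.al y / 2 * b :=
    fun a b => by rw [D.al_eq]; ring
  have hM2 : (((c.cells (c.cls y k)).filter (c.Mg y)).card : ℝ) + 2 = 2 * (c.cls y k).card := by
    exact_mod_cast hcard
  have hN : (((c.cells (c.cls y k)).filter fun h => ¬ c.Mg y h).card : ℝ)
      = 2 * ((c.cls y k).card + 1) := by exact_mod_cast (by omega)
  have hk3 : ((c.cls y k).card : ℝ) ≤ 3 := by exact_mod_cast hk2
  simp only [e1, sum_add_distrib, ← mul_sum, nsmul_eq_mul, hN, mul_zero] at h1 h2 h3 h6 h7 hb h5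
  have hT0 : T0 4 (D.F y) = 8 - 3 / 2 * D.F y := by rw [T0, n4]; ring
  have hb' : (4 : ℕ) * (∑ h ∈ (c.cells (c.cls y k)).filter (c.Mg y), D.B (c.sig h) y) / D.P y ≤
      ((c.cls y k).card - 1) * D.Tb y := by
    rw [div_le_iff₀ hp, n4, eq_sub_of_add_eq hM2] at *
    linarith
  obtain ⟨q, hq⟩ : ∃ q, q = ((c.cls y k).card + 1 - 1) * D.F y + ((c.cls y k).card + 1 - 2) *
    T0 4 (D.F y) - (4 : ℕ) * (∑ h ∈ (c.cells (c.cls y k)).filter (c.Mg y), D.B (c.sig h) y) / D.P y
    + (4 : ℕ) * (∑ h ∈ (c.cells (c.cls y k)).filter (fun h => ¬ c.Mg y h), c.op D.toBase h y)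
      / D.P y := ⟨_, rfl⟩
  obtain ⟨C, hC⟩ : ∃ C, C = ∑ g ∈ (c.cells (c.cls y k)).filter (c.Mg y), cor (c.sig g) y / 2 :=
    ⟨_, rfl⟩
  rw [← hC] at h4 h5 hlam ⊢
  refine ⟨c.cls_closed y k, stepV_alg (E2 := ∑ h ∈ c.cells (c.cls y k), u2 h y) n4 hp hK
    (D.al_eq y) (by positivity) h4 ?_ (one_pos.trans_le (hden _ y)) hq ?_ hlam ?_ ?_ ?_⟩
  · rw [sub_pos, div_lt_iff₀ (by positivity)]
    linarith [mul_le_mul_of_nonneg_right (by linarith : 9 / 10 ≤ 2 - D.al y)
      (by positivity : 0 ≤ (c.cls y k).card + 1 + C)]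
  · by_cases e : (c.cls y k).card + 1 = 4
    · rw [show ((c.cls y k).card : ℝ) = 3 by exact_mod_cast (by omega)] at hq hb'
      linarith
    · linarith [(v2 e).1, mul_nonneg (c.cls y k).card.cast_nonneg (D.F_pos y)]
  · refine (sum_le_sum fun h _ => (hx h y).1).trans ?_
    rw [← mul_sum, sum_add_distrib]
    exact mul_le_mul_of_nonneg_left (add_le_add_left hlam _) hK.le
  · refine (sum_le_sum fun h _ => (hx h y).2.1).trans ?_
    rw [← mul_sum, sum_add_distrib]
    exact mul_le_mul_of_nonneg_left (add_le_add_left hlam _) (by positivity)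
  rw [hE fun h => u2 h y, hE fun h => u1 h y, mul_div_right_comm 4 _ (D.P y)]
  rw [hT0] at hq v1
  beta_reduce
  have h8 := mul_le_mul_of_nonneg_left h3 ha0.le
  obtain e | e | e : (c.cls y k).card = 1 ∨ (c.cls y k).card = 2 ∨ (c.cls y k).card = 3 := by omega
  · have y0 := c.neg_of (y := y) (k := k) (by omega)
    have v2 := (v2 (by omega)).1
    have h6 := mul_nonneg ha0.le (h6 y0)
    have h7 := mul_le_mul ha (h7 y0) (nonneg_of_mul_nonneg_right h6 ha0) (by norm_num)
    simp only [card_eq_zero.1 (by omega : ((c.cells (c.cls y k)).filter (c.Mg y)).card = 0),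
      sum_empty, e, hC, Nat.cast_one, mul_zero, zero_div, zero_add, sub_zero] at hq v1 h7 h2 ⊢
    have b1 := mul_nonneg (mul_nonneg (by linarith : 0 ≤ 2 - D.al y) h6)
      (sub_nonneg.2 (D.F_bd y y0).2)
    have b2 := mul_nonneg (mul_nonneg (by linarith : 0 ≤ 2 - D.al y) hU) (sub_nonneg.2 h7)
    have b3 := mul_nonneg (by linarith : 0 ≤ 2 - D.al y) hU
    rw [hq]
    linarith
  · have y0 := c.neg_of (y := y) (k := k) (by omega)
    obtain ⟨h, hh⟩ := card_pos.1 (by omega : 0 < ((c.cells (c.cls y k)).filter (c.Mg y)).card)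
    have l := (mem_filter.1 hh).2.1
    have hs : ∀ f : c.H → ℝ, ∑ g ∈ (c.cells (c.cls y k)).filter (c.Mg y), f g = f h + f (c.bis h) :=
      fun f => by
        rw [← sum_pair (c.bis_ne h).symm, eq_of_subset_of_card_le (insert_subset hh
          (singleton_subset_iff.2 (c.bis_mem hh))) (by rw [card_pair (c.bis_ne h).symm]; omega)]
    have b0 : u1 (c.bis h) = u1 h := by
      rw [← (hu h l).1, ← (hu _ (mt c.lg_bis.1 l)).1, c.sig_bis]
    replace v2 := v2 (by omega)
    replace v3 := v3 h hh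
    have h6 := mul_nonneg ha0.le (h6 y0)
    have h7 := mul_le_mul ha (h7 y0) (nonneg_of_mul_nonneg_right h6 ha0) (by norm_num)
    have b1 := (D.x_bd _ (c.sh_le l) y).2.2.2.1 y0
    have b2 := hc h y
    have b3 := cor_le (c.sig h) y
    have b4 := mul_nonneg (by positivity : 0 ≤ 8 * cor (π / 2) y / ((4 + cor (c.sig h) y) *
      (4 + cor (c.sig h) y + cor (π / 2) y))) (le_max_left 0 (-(D.al y * u1 h y)
        - 3 / 7 * cor (c.sig h) y))
    rw [(hu h l).1] at b1
    rw [if_neg (by omega)] at v3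
    rw [hs r, hr, hr, c.sig_bis, b0] at h2
    rw [hs fun h => u1 h y, hC, hs fun h => cor (c.sig h) y / 2, c.sig_bis, b0, add_halves]
    rw [e] at v1 v2 hq h7 ⊢
    generalize (4 : ℕ) * (∑ h ∈ (c.cells (c.cls y k)).filter (c.Mg y), D.B (c.sig h) y) / D.P y = T
      at *
    generalize (4 : ℕ) * (∑ h ∈ (c.cells (c.cls y k)).filter (fun h => ¬ c.Mg y h),
      c.op D.toBase h y) / D.P y = U at *
    push_cast at v1 v2 hq h7 ⊢
    have := key3 (a := 2 - D.al y) (α := 2 * cor (c.sig h) y / (3 + cor (c.sig h) y))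
      (β := 2 * cor (c.sig h) y / (4 + cor (c.sig h) y)) (x := D.al y * u1 h y) (q := q)
      (e := D.al y * (∑ h ∈ (c.cells (c.cls y k)).filter (fun h => ¬ c.Mg y h), u1 h y) / 2)
      (by linarith) (D.F_bd y y0) v3 ((hG h hh).trans v3) (by linarith)
      ⟨v2.1, by linarith [D.cap]⟩
      ⟨by positivity, (div_le_iff₀ (by positivity)).2 (by linarith)⟩ (ab_bd b2 b3) (by positivity)
      ⟨by linarith [mul_le_mul_of_nonneg_left (hx h y).2.2 ha0.le],
        by linarith [mul_le_mul_of_nonneg_left b1 ha0.le]⟩ ⟨by linarith, by linarith⟩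
      ⟨(hmx h).1, by
        rcases le_total 0 (D.al y * u1 h y) with l | l
        · linarith [(hmx h).1]
        · linarith [(hmx h).2, mul_nonneg hT.1 (neg_nonneg.2 l)]⟩ (by linarith)
    rw [show ∀ a, a * cor (c.sig h) y / (4 * (4 + cor (c.sig h) y)) =
      a * (2 * cor (c.sig h) y / (4 + cor (c.sig h) y)) / 8 from fun a => by field_simp; ring] at h2
    rw [show (2 : ℝ) + 1 = 3 by norm_num]
    rw [hq] at this ⊢
    linarith
  · have e' : (c.cls y k).card + 1 = 4 := by omega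
    have e3 : ((c.cls y k).card : ℝ) = 3 := by exact_mod_cast e
    simp only [if_pos e'] at v3
    rw [e3] at hq hb' hM2
    have b0 : ∀ s ⊆ (c.cells (c.cls y k)).filter (c.Mg y), ∑ g ∈ s, cor (c.sig g) y / 2 ≤
        s.card * (cor (π / 2) y / 2) := fun s _ => nsmul_eq_mul (α := ℝ) _ _ ▸ sum_le_card_nsmul _ _ _
      fun h _ => div_le_div_of_nonneg_right (cor_top_le _ y) two_pos.le
    have b1 := sum_le_sum (f := fun h => q / (2 * (4 + C)) * (cor (c.sig h) y / 2) + (2 - D.al y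
      - 2 * C / (4 + C)) * (1 + q / 4 ^ 2) * D.al y / 2 * u1 h y) (g := r) fun h hh => le_of_eq_of_le
      (by field_simp; ring) <| hr h ▸ half4 (q := q) (C := C) (by linarith : 9 / 10 ≤ 2 - D.al y)
      ⟨hc h y, cor_le _ y⟩ (by
        have l : {h, c.bis h} ⊆ (c.cells (c.cls y k)).filter (c.Mg y) :=
          insert_subset hh (singleton_subset_iff.2 (c.bis_mem hh))
        have := b0 _ (sdiff_subset (t := {h, c.bis h}))
        rw [card_sdiff_of_subset l, card_pair (c.bis_ne h).symm, show ((c.cells (c.cls y k)).filter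
          (c.Mg y)).card - 2 = 2 by omega] at this
        rw [hC, ← sum_sdiff l, sum_pair (c.bis_ne h).symm, c.sig_bis, add_halves]
        exact ⟨le_add_of_nonneg_left (sum_nonneg fun g _ => div_nonneg (hc g y) two_pos.le),
          by push_cast at this; linarith⟩) ⟨by linarith, by linarith [v3 h hh]⟩ (hG h hh) hT.2
      (hmx h) ⟨le_max_left 0 _, le_max_right _ _⟩
    have b2 := b0 _ Subset.rfl
    rw [eq_sub_of_add_eq hM2, ← hC] at b2
    have b3 : 2 * C / (4 + C) ≤ 4 * cor (π / 2) y / (4 + 2 * cor (π / 2) y) := by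
      rw [div_le_div_iff₀ (by positivity) (by positivity)]
      linarith
    have b4 : 4 * cor (π / 2) y / (4 + 2 * cor (π / 2) y) ≤ 9 / 10 :=
      (div_le_iff₀ (by positivity)).2 (by linarith [cor_le (π / 2) y])
    have b5 : 0 ≤ 2 * C / (4 + C) := by positivity
    have b6 : q ≤ 16 := by
      obtain ⟨h, hh⟩ := card_pos.1 (by omega : 0 < ((c.cells (c.cls y k)).filter (c.Mg y)).card)
      linarith [v3 h hh, hG h hh]
    have b7 := sum_le_sum (f := fun h => (2 - D.al y - 2 * C / (4 + C)) * (1 + q / 4 ^ 2) * u1 h y)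
      fun h hh => by
        rcases le_total 0 (u1 h y) with l | l
        · exact (mul_le_mul_of_nonneg_right (mul_le_mul (by linarith) (by linarith) (by linarith)
            (by linarith)) l).trans (hO h hh).2.2.1
        · refine (mul_le_mul_of_nonpos_right (mul_le_mul (by linarith) (by linarith) (by linarith)
            (by linarith)) l).trans ((hO h hh).2.2.2.2.2 (by_contra fun l => ?_))
          have : h ∈ (c.cells (c.cls y k)).filter (c.Mg y) := by
            simpa [c.mg_univ (by omega) e'] using l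
          exact (mem_filter.1 hh).2 (mem_filter.1 this).2
    simp only [sum_add_distrib, ← mul_sum, ← hC] at b1 b7
    rw [show q / (2 * (4 + C)) * C = 2 * C / (4 + C) * q / 4 by field_simp; ring] at b1
    rw [e3, show (3 : ℝ) + 1 = 4 by norm_num]
    linarith [mul_le_mul_of_nonneg_left b7 ha0.le, congrArg (D.al y * ·) hq]

end Pool.Agent.Lib.MP_f225de_an.Sk
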