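import Pool.Agent.Lib.MP_f225de_an.NC1

set_option autoImplicit false

open MeasureTheory Set Filter Topology
open scoped Real

namespace Pool.Agent.Lib.MP_f225de_an.Nu

open MA Sk

variable {n : ℕ} {F Tb : ℝ → ℝ} {Sh : ℝ → ℝ → ℝ} {σ r t ψ : ℝ}

namespace Part

variable (D : Part σ)

/-- sines of the nodes -/
noncomputable def W (i : ℕ) : ℝ := Real.sin (D.τ i)

/-- index of the cell of the level `r` -/
noncomputable def ix (r : ℝ) : ℕ := if 0 < r then idx D.W (D.N - 1) (Real.sin σ / r) else 0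

lemma τ_anti {i j : ℕ} (h : i ≤ j) (hj : j ≤ D.N) : D.τ j ≤ D.τ i := by
  induction j, h using Nat.le_induction with
  | base => exact le_rfl
  | succ j _ ih => exact (D.anti j hj).le.trans (ih (by omega))

lemma τ_mem {i : ℕ} (h : i ≤ D.N) : D.τ i ∈ Icc (-(π / 2)) (π / 2) ∧ 0 ≤ D.τ i :=
  have a : 0 ≤ D.τ i := D.τ_N ▸ D.τ_anti h le_rfl
  ⟨⟨by linarith [Real.pi_pos], (D.τ_anti i.zero_le h).trans (D.τ_zero ▸ min_le_left _ _)⟩, a⟩

lemma W_lt {i : ℕ} (h : i < D.N) : D.W (i + 1) < D.W i :=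
  Real.strictMonoOn_sin (D.τ_mem h).1 (D.τ_mem h.le).1 (D.anti i h)

lemma W_anti {i j : ℕ} (h : i ≤ j) (hj : j ≤ D.N) : D.W j ≤ D.W i :=
  Real.monotoneOn_sin (D.τ_mem hj).1 (D.τ_mem (h.trans hj)).1 (D.τ_anti h hj)

lemma W_pos {i : ℕ} (h : i < D.N) : 0 < D.W i :=
  lt_of_le_of_lt (by simpa [W, D.τ_N] using D.W_anti h le_rfl) (D.W_lt h)

lemma W_zero : tl σ * D.W 0 = Real.sin σ := by
  rw [W, D.τ_zero, tl]
  split_ifs with h
  · rw [min_eq_left (by linarith), Real.sin_pi_div_two, mul_one]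
  · rw [min_eq_right (by linarith), Real.sin_pi_sub, one_mul]

lemma ix_lt (r : ℝ) : D.ix r < D.N := by
  have := (idx_spec D.W (Real.sin σ / r) (D.N - 1)).1
  have := D.N_pos
  unfold ix
  split_ifs <;> omega

lemma ix_meas : Measurable D.ix :=
  Measurable.ite measurableSet_Ioi ((idx_meas _ _).comp (by fun_prop)) measurable_const

lemma ix_spec (hσ : σ ∈ Ioo 0 π) (hr : 0 < r) : D.W (D.ix r + 1) ≤ Real.sin σ / r ∧
    (D.ix r = 0 ∨ Real.sin σ / r < D.W (D.ix r)) := by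
  obtain ⟨-, a, b⟩ := idx_spec D.W (Real.sin σ / r) (D.N - 1)
  rw [ix, if_pos hr]
  refine ⟨b.elim (fun e => ?_) id, a⟩
  rw [e, Nat.sub_add_cancel D.N_pos, W, D.τ_N, Real.sin_zero]
  exact (div_pos (Real.sin_pos_of_pos_of_lt_pi hσ.1 hσ.2) hr).le

lemma ix_low (hσ : σ ∈ Ioo 0 π) {j : ℕ} (h0 : 0 < j) (h : r * D.W j ≤ Real.sin σ) : D.ix r < j := by
  rcases le_or_gt r 0 with e | e
  · rwa [ix, if_neg e.not_gt]
  refine (D.ix_spec hσ e).2.elim (·.symm ▸ h0) fun a => lt_of_not_ge fun b => ?_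
  exact (a.trans_le (D.W_anti b (D.ix_lt r).le)).not_ge ((le_div_iff₀' e).2 h)

lemma ix_high (hσ : σ ∈ Ioo 0 π) {j : ℕ} (hj : j ≤ D.N) (hr : 0 < r) (h : Real.sin σ < r * D.W j) :
    j ≤ D.ix r := le_of_not_gt fun b =>
  ((D.W_anti b hj).trans (D.ix_spec hσ hr).1).not_gt ((div_lt_iff₀' hr).2 h)

lemma cell (hσ : σ ∈ Ioo 0 π) (hr : 0 < r) (h0 : 0 ≤ t) (h1 : t ≤ min (π / 2) (π - σ))
    (e : r * Real.sin t = Real.sin σ) : t ∈ Icc (D.τ (D.ix r + 1)) (D.τ (D.ix r)) := by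
  obtain ⟨a, b⟩ := D.ix_spec hσ hr
  have m : t ∈ Icc (-(π / 2)) (π / 2) := ⟨by linarith [Real.pi_pos], h1.trans (min_le_left _ _)⟩
  rw [← e, mul_div_cancel_left₀ _ hr.ne'] at a b
  exact ⟨(Real.strictMonoOn_sin.le_iff_le (D.τ_mem (D.ix_lt r)).1 m).1 a, b.elim
    (fun c => by rwa [c, D.τ_zero]) fun c =>
    ((Real.strictMonoOn_sin.lt_iff_lt m (D.τ_mem (D.ix_lt r).le).1).1 c).le⟩

lemma lev (hσ : σ ∈ Ioo 0 π) (hr : tl σ ≤ r) : 0 < r ∧
    r * Real.sin (Real.arcsin (Real.sin σ / r)) = Real.sin σ ∧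
    Real.arcsin (Real.sin σ / r) ∈ Icc (D.τ (D.ix r + 1)) (D.τ (D.ix r)) := by
  have s0 := Real.sin_pos_of_pos_of_lt_pi hσ.1 hσ.2
  have r0 := (s0.trans_le (tl_ge σ)).trans_le hr
  have e : r * Real.sin (Real.arcsin (Real.sin σ / r)) = Real.sin σ := by
    rw [Real.sin_arcsin (by linarith [div_pos s0 r0]) ((div_le_one r0).2 ((tl_ge σ).trans hr)),
      mul_div_cancel₀ _ r0.ne']
  refine ⟨r0, e, D.cell hσ r0 (Real.arcsin_nonneg.2 (by positivity)) ?_ e⟩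
  rw [← D.τ_zero, ← Real.arcsin_sin (D.τ_mem D.N.zero_le).1.1 (D.τ_mem D.N.zero_le).1.2]
  refine Real.arcsin_le_arcsin ?_
  rw [div_le_iff₀' r0, ← D.W_zero]
  exact mul_le_mul_of_nonneg_right hr (D.W_pos D.N_pos).le

lemma dir_out (hσ : σ ∈ Ioo 0 π) (hψ : ψ ∈ Ioo σ π) (h : ψ < σ + π / 2) :
    rb σ ψ * Real.sin (ψ - σ) = Real.sin σ ∧
    ψ - σ ∈ Icc (D.τ (D.ix (rb σ ψ) + 1)) (D.τ (D.ix (rb σ ψ))) :=
  have e : rb σ ψ * Real.sin (ψ - σ) = Real.sin σ := div_mul_cancel₀ _ (sinb hσ hψ).ne'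
  ⟨e, D.cell hσ (rb_pos hσ hψ) (by linarith [hψ.1]) (le_min (by linarith) (by linarith [hψ.2])) e⟩

end Part

lemma rt_eq (hσ : σ ∈ Ioo 0 π) (h : r * Real.sin t = Real.sin σ) : rt σ t = r := by
  have := (Real.sin_pos_of_pos_of_lt_pi hσ.1 hσ.2).ne'
  rw [rt, ← h, mul_div_cancel_right₀ _ (right_ne_zero_of_mul (h ▸ this))]

lemma RL_le {al cb tb g1 g2 : ℝ} (a0 : 0 ≤ al) (a1 : al ≤ 11 / 10) (c0 : 0 ≤ cb)
    (c1 : cb ≤ 1) (t : tb ≤ 2) (h0 : 0 ≤ g1) (h1 : g1 ≤ 1 / 4) (h2 : g2 ≤ 0) :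
    RL n al cb tb g1 g2 ≤ 0 := by
  have := mul_nonpos_of_nonneg_of_nonpos a0 h2
  unfold RL
  split_ifs
  · have d : 4 * cb / (4 + 2 * cb) ≤ 2 / 3 := by rw [div_le_iff₀ (by positivity)]; linarith
    have := mul_nonneg (mul_nonneg (by linarith : 0 ≤ 2 - al - 4 * cb / (4 + 2 * cb))
      (by linarith : 0 ≤ 2 - tb / 8)) h0
    linarith
  · nlinarith [mul_nonneg (by linarith : 0 ≤ 2 - al) (mul_nonneg h0 (by linarith : 0 ≤ 1 - g1))]

namespace Cell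

variable (D : Cell n F Tb Sh σ)

/-- the partition of the levels -/
def P : Part σ := ⟨D.N + 1, D.τ, D.N.succ_pos, D.τ_zero, D.τ_end, fun i h => D.τ_anti i (by omega)⟩

/-- truncation to the cells with gain -/
def up (c : ℕ → ℝ) (j : ℕ) : ℝ := if j < D.j0 then 0 else c j

/-- the amplitude of the rays -/
noncomputable def b (ψ : ℝ) : ℝ := if ψ < σ + π / 2 then
  (if D.P.ix (rb σ ψ) < D.j0 then D.bo (D.P.ix (rb σ ψ)) else 0)
  else if ψ < π then D.bi (idx D.η (D.M - 1) (σ + π - ψ)) else 0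

lemma inner (h1 : σ + π / 2 ≤ ψ) (h2 : ψ < π) : idx D.η (D.M - 1) (σ + π - ψ) < D.M ∧ σ + π - ψ ∈
    Icc (D.η (idx D.η (D.M - 1) (σ + π - ψ) + 1)) (D.η (idx D.η (D.M - 1) (σ + π - ψ))) := by
  obtain ⟨a, b, c⟩ := idx_spec D.η (σ + π - ψ) (D.M - 1)
  have e := D.η_end
  have : D.M ≠ 0 := fun h => by rw [h, D.η_zero] at e; linarith
  refine ⟨by omega, c.elim (fun k => ?_) id, b.elim (fun k => ?_) le_of_lt⟩
  · rw [k, Nat.sub_add_cancel (by omega)]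
    linarith
  · rw [k, D.η_zero]
    linarith

lemma dir (hσ : σ ∈ Ioo 0 π) (hψ : ψ ∈ Ioo σ π) :
    (ψ < σ + π / 2 ∧ D.j0 ≤ D.P.ix (rb σ ψ) ∧ D.b ψ = 0) ∨
    (∃ i < D.j0, ψ - σ ∈ Icc (D.τ (i + 1)) (D.τ i) ∧
      RayOK n (rb σ ψ) (Real.cos ψ) (D.b ψ) (D.vo i) (D.uo i)) ∨
    ∃ i < D.M, σ + π - ψ ∈ Icc (D.η (i + 1)) (D.η i) ∧
      RayOK n (rb σ ψ) (Real.cos ψ) (D.b ψ) (D.vi i) (D.ui i) := by
  unfold b
  rw [if_pos hψ.2]
  split_ifs with h e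
  · obtain ⟨a, c⟩ := D.P.dir_out hσ hψ h
    have := (D.out _ e).2.2.2.2.2 _ c (by linarith [hψ.2])
    rw [rt_eq hσ a, add_sub_cancel] at this
    exact .inr (.inl ⟨_, e, c, this⟩)
  · exact .inl ⟨h, not_lt.1 e, rfl⟩
  · obtain ⟨a, c⟩ := D.inner (not_lt.1 h) hψ.2
    have := (D.inn _ a).2.2.2 _ c (by linarith [hψ.2])
    rw [show σ + π - ψ - σ = π - ψ by ring, Real.cos_pi_sub, neg_neg, rt,
      show σ + π - ψ = π - (ψ - σ) by ring, Real.sin_pi_sub, ← rb,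
      show π - (ψ - σ) = σ + π - ψ by ring] at this
    exact .inr (.inr ⟨_, a, c, this⟩)

lemma g_bd {j : ℕ} (h : j < D.N + 1) : 0 ≤ D.up D.c1 j ∧ 0 ≤ D.up D.c2 j ∧ 0 ≤ D.g1 j ∧
    D.g1 j ≤ 1 / 4 ∧ D.g2 j ≤ 0 := by
  unfold up
  split_ifs with e
  · obtain ⟨-, -, -, a, b, -⟩ := D.out j e
    simp [a, b]
  · obtain ⟨a, b, c, d, e, -⟩ := D.gain j (by omega) (by omega)
    exact ⟨a, b, c, d, e⟩

lemma j0_lt : D.j0 < D.P.N := by have := D.j_le; unfold P; simp only; omega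

/-- the field -/
noncomputable def fld (hσ : σ ∈ Ioo 0 π) : Fld n σ D.C (rt σ (D.τ D.j0))
    (fun r => D.g1 (D.P.ix r)) (fun r => D.g2 (D.P.ix r)) where
  b := D.b
  c1 r := D.up D.c1 (D.P.ix r)
  c2 r := D.up D.c2 (D.P.ix r)
  Bd := ∑ i ∈ Finset.range (D.N + 1), (D.up D.c1 i + D.up D.c2 i) +
    (∑ i ∈ Finset.range D.j0, D.bo i + ∑ i ∈ Finset.range D.M, D.bi i)
  b_meas := Measurable.ite measurableSet_Iio ((measurable_from_nat (f := fun i =>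
      if i < D.j0 then D.bo i else 0)).comp (D.P.ix_meas.comp (by unfold rb; fun_prop)))
      (Measurable.ite measurableSet_Iio (measurable_from_nat.comp ((idx_meas _ _).comp
        (by fun_prop))) measurable_const)
  c1_meas := (measurable_from_nat (f := D.up D.c1)).comp D.P.ix_meas
  c2_meas := (measurable_from_nat (f := D.up D.c2)).comp D.P.ix_meas
  bd x := by
    have := Finset.single_le_sum (f := fun i => D.up D.c1 i + D.up D.c2 i) (fun i hi => add_nonneg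
      (D.g_bd (Finset.mem_range.1 hi)).1 (D.g_bd (Finset.mem_range.1 hi)).2.1)
      (Finset.mem_range.2 (D.P.ix_lt x))
    obtain ⟨_, _, -⟩ := D.g_bd (D.P.ix_lt x)
    have p1 : ∀ i ∈ Finset.range D.j0, 0 ≤ D.bo i := fun i hi => (D.out i (Finset.mem_range.1 hi)).1
    have p2 : ∀ i ∈ Finset.range D.M, 0 ≤ D.bi i := fun i hi => (D.inn i (Finset.mem_range.1 hi)).1
    have := Finset.sum_nonneg p1
    have := Finset.sum_nonneg p2
    have : 0 ≤ D.b x ∧ D.b x ≤ ∑ i ∈ Finset.range D.j0, D.bo i + ∑ i ∈ Finset.range D.M, D.bi i := by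
      unfold b
      split_ifs with h e e
      · exact ⟨(D.out _ e).1, by linarith [Finset.single_le_sum p1 (Finset.mem_range.2 e)]⟩
      · exact ⟨le_rfl, by positivity⟩
      · have i := (D.inner (not_lt.1 h) e).1
        exact ⟨(D.inn _ i).1, by linarith [Finset.single_le_sum p2 (Finset.mem_range.2 i)]⟩
      · exact ⟨le_rfl, by positivity⟩
    refine ⟨?_, ?_, ?_, ?_, ?_, ?_⟩ <;> linarith [this.1, this.2]
  r1_ge :=
     (le_div_iff₀ (D.P.W_pos D.j0_lt)).2 ((mul_le_mul_of_nonneg_left (D.P.W_anti (Nat.zero_le _)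
      D.j0_lt.le) (tl_pos (Ioo_subset_Ioc_self hσ)).1.le).trans_eq D.P.W_zero)
  ray ψ hψ h := by
    rcases D.dir hσ hψ with ⟨a, b, -⟩ | ⟨_, -, -, a⟩ | ⟨_, -, -, a⟩
    · exact (b.not_gt (D.P.ix_low hσ D.j_le.1
        ((le_div_iff₀ (D.P.W_pos D.j0_lt)).1 (h.resolve_left a.not_ge)))).elim
    exacts [a.1, a.1]
  b_zero ψ hψ h e := by
    rw [b, if_pos h, if_neg (D.P.ix_high hσ D.j0_lt.le (rb_pos hσ hψ)
      ((div_lt_iff₀ (D.P.W_pos D.j0_lt)).1 e)).not_gt]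
  low r h := by
    have := D.P.ix_low hσ D.j_le.1 ((le_div_iff₀ (D.P.W_pos D.j0_lt)).1 h)
    exact ⟨if_pos this, if_pos this, (D.out _ this).2.2.2.1, (D.out _ this).2.2.2.2.1⟩
  gain r h := by
    have e := (div_lt_iff₀ (D.P.W_pos D.j0_lt)).1 h
    have s0 := Real.sin_pos_of_pos_of_lt_pi hσ.1 hσ.2
    have r0 := (div_pos s0 (D.P.W_pos D.j0_lt)).trans h
    have hr : tl σ < r := lt_of_mul_lt_mul_right (D.P.W_zero.trans_lt (e.trans_le
      (mul_le_mul_of_nonneg_left (D.P.W_anti (Nat.zero_le _) D.j0_lt.le) r0.le)))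
      (D.P.W_pos D.P.N_pos).le
    obtain ⟨-, a, c⟩ := D.P.lev hσ hr.le
    have i := D.P.ix_high hσ D.j0_lt.le r0 e
    have := (D.gain _ i (Nat.lt_succ_iff.1 (D.P.ix_lt r))).2.2.2.2.2 _ c
      (Real.arcsin_pos.2 (div_pos s0 r0)) (lt_min_iff.1 (ao_mem hσ hr).2).1
    simpa only [GainOK, rt_eq hσ a, ao, add_sub_cancel_left, up, if_neg i.not_gt] using this
  cost := (lint_cells (fun i hi => ⟨(D.τ_anti i (by have := D.j_le; omega)).le, (D.out i hi).2.1⟩)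
    (fun i hi => ⟨D.η_anti i hi, (D.inn i hi).2.1⟩) fun ψ hψ => (D.dir hσ hψ).imp
      (fun h => by simp [h.2.2, ph]) (Or.imp (fun ⟨i, a, b, c⟩ => ⟨i, a, b, c.2.1⟩)
      fun ⟨i, a, b, c⟩ => ⟨i, a, b, c.2.1⟩)).trans (ENNReal.ofReal_le_ofReal D.cost)
  sup h4 := (lint_cells (fun i hi => ⟨(D.τ_anti i (by have := D.j_le; omega)).le,
    (D.out i hi).2.2.1⟩) (fun i hi => ⟨D.η_anti i hi, (D.inn i hi).2.2.1⟩) fun ψ hψ =>
    (D.dir hσ hψ).imp (fun h => by simp [h.2.2]) (Or.imp (fun ⟨i, a, b, c⟩ => ⟨i, a, b, c.2.2 h4⟩)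
      fun ⟨i, a, b, c⟩ => ⟨i, a, b, c.2.2 h4⟩)).trans
    (ENNReal.ofReal_le_ofReal (by linarith [D.sup h4]))

end Cell

theorem cellSt (hn : 4 ≤ n) : CellSt n := by
  intro F Tb Sh hT σ hσ D
  have s0 := Real.sin_pos_of_pos_of_lt_pi hσ.1 hσ.2
  have t0 := (tl_pos (Ioo_subset_Ioc_self hσ)).1
  have hj := D.j_le
  have w0 : Real.sin (a0 σ) ≠ 0 := D.τ_zero ▸ (D.P.W_pos D.P.N_pos).ne'
  have ie : ∀ y, D.P.ix (Real.exp y) = idx D.P.W D.N (Real.sin σ / Real.exp y) :=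
    fun y => if_pos (Real.exp_pos y)
  have il : ∀ r, D.P.ix r ≤ D.N := fun r => Nat.lt_succ_iff.1 (D.P.ix_lt r)
  have cont : ∀ V, Continuous fun y => lin D.P.W V (D.P.ix (Real.exp y)) (Real.sin σ / Real.exp y) :=
    fun V => by
      simp only [ie]
      exact (lin_cont V _ fun i hi => D.P.W_lt (Nat.lt_succ_iff.2 hi)).1.comp
        (continuous_const.div Real.continuous_exp fun y => (Real.exp_pos y).ne')
  have hX : ∀ y, y ∉ (Finset.range (D.N + 1)).image (fun i => Real.log (Real.sin σ / D.P.W i)) →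
      ∀ i ≤ D.N, Real.sin σ / Real.exp y ≠ D.P.W i := fun y hy i hi e =>
    hy (Finset.mem_image.2 ⟨i, Finset.mem_range.2 (by omega), by
      rw [← e, div_div_cancel₀ s0.ne', Real.log_exp]⟩)
  have lv : ∀ y, tl σ ≤ Real.exp y → ∃ t ∈ Icc (D.τ (D.P.ix (Real.exp y) + 1))
      (D.τ (D.P.ix (Real.exp y))), 0 < t ∧ rt σ t = Real.exp y ∧ cor σ y = 2 / π * t ∧ ∀ V j,
      lin D.P.W V j (Real.sin σ / Real.exp y) = itp σ D.τ V j t ∧ (V j - V (j + 1)) *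
        (Real.sin σ / Real.exp y) / (D.P.W j - D.P.W (j + 1)) = slp σ D.τ V j * xt σ t := fun y hy => by
    obtain ⟨r0, a, c⟩ := D.P.lev hσ hy
    refine ⟨_, c, Real.arcsin_pos.2 (div_pos s0 r0), rt_eq hσ a, rfl, fun V j => ?_⟩
    rw [mul_comm, ← eq_div_iff r0.ne'] at a
    simp only [lin, itp, slp, xt, a, ← sub_div, Part.W, Cell.P]
    generalize Real.sin (D.τ j) - Real.sin (D.τ (j + 1)) = d
    rcases eq_or_ne d 0 with rfl | hd
    · simp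
    · constructor <;> field_simp
  have sh : ∀ y, σ ≤ π / 2 → Real.log (Real.sin σ) ≤ y → _ ∧ _ ∧ _ ∧ _ := fun y hs hy => by
    obtain ⟨t, a, b, c, d, e⟩ := lv y (by rwa [tl, if_pos hs, ← Real.log_le_iff_le_exp s0])
    have := (D.T_ok hs _ (il _)).2.2 t a b
    rw [TOK, c, Real.log_exp, ← d, ← (e _ _).1, show Real.sin t = xt σ t by
      rw [xt, a0, min_eq_left (by linarith), Real.sin_pi_div_two, div_one], ← (e _ _).2] at this
    exact this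
  have Cp : 0 ≤ D.C := nonneg_of_mul_nonneg_right (b := D.C) (le_trans (add_nonneg
    (Finset.sum_nonneg fun i hi => mul_nonneg (sub_pos.2 (D.τ_anti i (by
      have := Finset.mem_range.1 hi; omega))).le (D.out i (Finset.mem_range.1 hi)).2.1)
    (Finset.sum_nonneg fun i hi => mul_nonneg (sub_nonneg.2 (D.η_anti i (Finset.mem_range.1 hi)))
      (D.inn i (Finset.mem_range.1 hi)).2.1)) D.cost) (by positivity)
  have w1 : D.j1 ≤ D.N → 0 < D.P.W D.j1 := fun h => D.P.W_pos (Nat.lt_succ_iff.2 h)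
  have hi : ∀ y, π / (n - 1) ≤ σ → D.j1 ≤ D.P.ix (Real.exp y) → tl σ ≤ Real.exp y :=
    fun y hs h => le_of_not_gt fun e => (D.P.ix_low hσ one_pos ((mul_le_mul e.le
      (D.P.W_lt D.P.N_pos).le ((D.P.W_anti D.P.N_pos le_rfl).trans' (by
        simp [Part.W, D.P.τ_N])) t0.le).trans_eq D.P.W_zero)).not_ge (by omega)
  refine ⟨⟨D.C, _, D.S0, _, _,
    fun y => lin D.P.W D.T (D.P.ix (Real.exp y)) (Real.sin σ / Real.exp y),
    fun y => -((D.T (D.P.ix (Real.exp y)) - D.T (D.P.ix (Real.exp y) + 1)) *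
      (Real.sin σ / Real.exp y) / (D.P.W (D.P.ix (Real.exp y)) - D.P.W (D.P.ix (Real.exp y) + 1))),
    fun y => D.TG (D.P.ix (Real.exp y)),
    fun y => lin D.P.W D.L (D.P.ix (Real.exp y)) (Real.sin σ / Real.exp y),
    fun y => -((D.L (D.P.ix (Real.exp y)) - D.L (D.P.ix (Real.exp y) + 1)) *
      (Real.sin σ / Real.exp y) / (D.P.W (D.P.ix (Real.exp y)) - D.P.W (D.P.ix (Real.exp y) + 1))),
    (Finset.range (D.N + 1)).image fun i => Real.log (Real.sin σ / D.P.W i), Cp, ⟨D.fld hσ⟩,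
    measurable_from_nat.comp D.P.ix_meas, fun y hy => ?_, fun r => (D.g_bd (D.P.ix_lt r)).2.2,
    D.cap, fun _ => (cont _).continuousOn, fun hs y hy h => ⟨?_, ?_⟩, fun hs y hy =>
      ⟨(D.T_ok hs _ (il _)).1, (D.T_ok hs _ (il _)).2.1, (sh y hs hy).2⟩,
    fun _ => cont _, fun hs y h => ⟨?_, ?_⟩, fun hs => ?_⟩⟩
  · have c : ContinuousAt (fun y => Real.sin σ / Real.exp y) y :=
      continuousAt_const.div Real.continuous_exp.continuousAt (Real.exp_pos y).ne'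
    refine (continuousAt_const (y := D.g1 (D.P.ix (Real.exp y)))).congr
      ((c.eventually (idx_ev _ (hX y hy))).mono fun t ht => ?_)
    simp only [ie, ht]
  · simp only [ie]
    exact lin_der _ (hX y h)
  · rw [neg_neg]
    exact (sh y hs hy.le).1
  · simp only [ie]
    exact lin_der _ (hX y h)
  · obtain ⟨-, -, z, -, H⟩ := D.L_ok hs
    rcases lt_or_ge (D.P.ix (Real.exp y)) D.j1 with e | e
    · obtain ⟨-, -, g0, g1, g2⟩ := D.g_bd (D.P.ix_lt (Real.exp y))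
      rw [z _ e.le, z _ e, sub_self, zero_mul, zero_div, neg_zero]
      exact mul_nonpos_of_nonneg_of_nonpos (K_pos (by omega) (Real.exp_pos y)).le (RL_le
        (al_bd hn y).1.le (al_bd hn y).2.1 (cor_nonneg (half ⟨by positivity, le_rfl⟩) y)
        (cor_le _ y) (hT y) g0 g1 g2)
    · obtain ⟨t, a, b, c, -, f⟩ := lv y (hi y hs e)
      have := (H _ e (il _) t a b).1
      rwa [c, Real.log_exp, ← (f _ _).2] at this
  · obtain ⟨a4, a3, z, c, H⟩ := D.L_ok hs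
    have z0 : ∀ y, D.P.ix (Real.exp y) < D.j1 →
        lin D.P.W D.L (D.P.ix (Real.exp y)) (Real.sin σ / Real.exp y) = 0 := fun y e => by
      rw [lin, z _ e.le, z _ e]
      simp
    refine ⟨a4, fun y => ⟨fun e => z0 y ?_, ?_⟩⟩
    · rcases le_or_gt D.j1 D.N with k | k
      · exact D.P.ix_low hσ (by omega) ((le_div_iff₀ (w1 k)).1 (e.trans (max_le
          (div_le_div_of_nonneg_left s0.le (w1 k) (D.P.W_anti hj.2.1 hj.2.2.2)) (a3 k))))
      · exact (il _).trans_lt k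
    rcases lt_or_ge (D.P.ix (Real.exp y)) D.j1 with e | e
    · rw [z0 y e, add_zero]
      exact ⟨Cp, c y fun k => le_of_not_gt fun l => e.not_ge (D.P.ix_high hσ hj.2.2.2
        (Real.exp_pos y) ((div_lt_iff₀ (w1 k)).1 l))⟩
    · obtain ⟨t, a, b, c, -, f⟩ := lv y (hi y hs e)
      have := (H _ e (il _) t a b).2
      rwa [c, Real.log_exp, ← (f _ _).1] at this

end Pool.Agent.Lib.MP_f225de_an.Nu
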