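import Pool.Agent.Lib.MP_f225de_an.NG2
import Pool.Agent.Lib.MP_f225de_an.NC2
import Pool.Agent.Lib.MP_f225de_an.NU2
import Pool.Agent.Lib.MP_f225de_an.N8

set_option autoImplicit false

open MeasureTheory Set
open scoped Real

namespace Pool.Agent.Lib.MP_f225de_an.Nu

open MA Sk

variable {n : ℕ}

/-- the share function built from two level functions -/
noncomputable def ShG (n : ℕ) (o1 o2 : ℝ → ℝ) (s y : ℝ) : ℝ := min (s * o1 y) (o2 y) / n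

/-- what the kernel computation has to give in degree `n` -/
def CellsOK (n : ℕ) : Prop := ∃ F Tb o1 o2 : ℝ → ℝ, FOK n F ∧ (∀ y, 0 ≤ Tb y ∧ Tb y ≤ 2) ∧
  (∀ y, 0 ≤ o1 y ∧ 0 ≤ o2 y) ∧ ∀ σ ∈ Ioo 0 π, Nonempty (Cell n F Tb (ShG n o1 o2) σ)

theorem glob_of (hn : 4 ≤ n) (h : CellsOK n) : Nonempty (Glob n) := by
  obtain ⟨F, Tb, o1, o2, ⟨a, b, F1, X, c⟩, hT, ho, H⟩ := h
  refine ⟨⟨F, F1, Tb, ShG n o1 o2, X, a, b, c, hT, fun y => by simp [ShG, (ho y).2],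
    fun s hs y => div_nonneg (le_min (mul_nonneg hs (ho y).1) (ho y).2) n.cast_nonneg,
    fun s hs t ht y => ?_, fun σ hσ => (H σ hσ).elim (cellSt hn F Tb _ (fun y => (hT y).2) σ hσ)⟩⟩
  rw [ShG, ShG, ShG, ← add_div]
  refine div_le_div_of_nonneg_right ?_ n.cast_nonneg
  have := mul_nonneg hs (ho y).1
  have := mul_nonneg ht (ho y).1
  have := min_le_left ((s + t) * o1 y) (o2 y)
  have := min_le_right ((s + t) * o1 y) (o2 y)
  rcases min_cases (s * o1 y) (o2 y) with ⟨e, _⟩ | ⟨e, _⟩ <;>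
    rcases min_cases (t * o1 y) (o2 y) with ⟨f, _⟩ | ⟨f, _⟩ <;> rw [e, f] <;> linarith [(ho y).2]

theorem final_of_cells (h : ∀ n, 4 ≤ n → CellsOK n) : ∀ n : ℕ, 1 ≤ n → ∀ p : Polynomial ℂ, p.Monic →
    p.natDegree = n → Measure.hausdorffMeasure (1 : ℝ) {z : ℂ | ‖p.eval z‖ = 1} ≤
      Measure.hausdorffMeasure (1 : ℝ) {z : ℂ | ‖z ^ n - 1‖ = 1} :=
  final_of_glob (fun _ _ => nst4) fun n hn => glob_of hn (h n hn)

lemma Pr.nonneg {p : Pr} (h : p.ok) {r : ℝ} (hr : 0 ≤ r) : 0 ≤ p.f r := by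
  obtain ⟨a, b, c, d⟩ := h
  exact le_min a (by positivity)

lemma Pr.anti {p : Pr} (h : p.ok) {r t : ℝ} (hr : 0 ≤ r) (e : r ≤ t) : p.f t ≤ p.f r :=
  min_le_min_left _ (add_le_add_right (div_le_div_of_nonneg_left h.2.2.1
    (add_pos_of_nonneg_of_pos hr h.2.2.2) (by linarith)) _)

theorem globSt (hn : 4 ≤ n) : GlobSt n := fun F t p q hF ht ht2 hp hq H =>
  glob_of hn ⟨F, TbF t, fun y => p.f (Real.exp y), fun y => q.f (Real.exp y), hF,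
    fun y => ⟨Pr.nonneg ht (Real.exp_pos y).le, (min_le_left _ _).trans ht2⟩,
    fun y => ⟨Pr.nonneg hp (Real.exp_pos y).le, Pr.nonneg hq (Real.exp_pos y).le⟩, H⟩

theorem final_glob (h : ∀ n, 4 ≤ n → Nonempty (Glob n)) : ∀ n : ℕ, 1 ≤ n → ∀ p : Polynomial ℂ,
    p.Monic → p.natDegree = n → Measure.hausdorffMeasure (1 : ℝ) {z : ℂ | ‖p.eval z‖ = 1} ≤
      Measure.hausdorffMeasure (1 : ℝ) {z : ℂ | ‖z ^ n - 1‖ = 1} :=
  final_of_glob (fun _ _ => nst4) h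

end Pool.Agent.Lib.MP_f225de_an.Nu
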