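import Pool.Agent.Lib.MP_f225de_an.EV
import Pool.Agent.Lib.MP_f225de_an.NG3

set_option autoImplicit false

namespace Pool.Agent.Lib.MP_f225de_an.Nu

open Iv Tb

variable {n : ℕ} {F : ℝ → ℝ} {R : Run} {D : Tab} {ray out : Iv → Iv → Res} {t p q : Pr}
  {pk a b : ℕ}

theorem glob_mk (hA : CovA (mkE R D ray out t p q pk) 0 a)
    (hB : CovB (mkE R D ray out t p q pk) 0 b) (e : (cstOK t p q &&
      Nat.ble 28976077832308491370 a && Nat.ble 28976077832308491370 b &&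
      Nat.beq (thP pk 0) (2 ^ 64)) = true) (hR : R.ok n) (hD : LkOK n F (look D) ∧ FOK n F)
    (h1 : RaySpec n ray) (h2 : OutSpec n out) : Nonempty (Glob n) := by
  simp only [Bool.and_eq_true, Nat.ble_eq, Nat.beq_eq] at e
  obtain ⟨ht, hp, hq, h⟩ := cstOK_ok e.1.1.1
  exact globSt hR.four F t p q hD.2 ht h hp hq
    (cov_all hA hB e.1.1.2 e.1.2 (mkE_ok hR hD h1 h2 e.1.1.1 e.2))

end Pool.Agent.Lib.MP_f225de_an.Nu
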