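import Pool.Agent.Lib.MP_f225de_an.MC3
import Pool.Agent.Lib.MP_f225de_an.SkW0

set_option autoImplicit false

open MeasureTheory Set
open scoped Real

namespace Pool.Agent.Lib.MP_f225de_an.MA

open E Sk

/-- what the weighted certificate statement needs of the density `k` -/
def FluxW (n : ℕ) (k : ℝ → ℝ → ℝ → ℝ) : Prop :=
  (∀ y, ∀ ψ ∈ Arc π (Real.exp y), Kf n (Real.exp y) ≤ k π y ψ) ∧ ∀ σ ∈ Ioo 0 π, ∃ k',
    Nonempty (Flux n σ k') ∧ ∀ y, ∀ ψ ∈ Arc σ (Real.exp y), k' (Real.exp y) ψ ≤ k σ y ψ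

theorem certW {n : ℕ} (hn : 3 ≤ n) {k : ℝ → ℝ → ℝ → ℝ} (hF : FluxW n k) : CertW n k :=
    fun p G => by
  have : ∀ h, ∃ k' : ℝ → ℝ → ℝ, ((G.σ h = π ∧ k' = fun r _ => Kf n r) ∨
      (G.σ h < π ∧ Nonempty (Flux n (G.σ h) k'))) ∧ ∀ y, ∀ ψ ∈ Arc (G.σ h) (Real.exp y),
      k' (Real.exp y) ψ ≤ k (G.σ h) y ψ := fun h => by
    rcases (G.σ_le h).eq_or_lt with e | e
    · exact ⟨_, Or.inl ⟨e, rfl⟩, e ▸ hF.1⟩
    · obtain ⟨k', h1, h2⟩ := hF.2 _ ⟨G.σ_pos h, e⟩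
      exact ⟨k', Or.inr ⟨e, h1⟩, h2⟩
  choose k' h1 h2 using this
  refine (cert1 G hn k' h1).trans ?_
  gcongr with h - y
  rw [costW, ← lintegral_const_mul' _ _ ENNReal.ofReal_ne_top]
  refine setLIntegral_mono' (Arc_meas _ _) fun ψ hψ => ?_
  rw [← ENNReal.ofReal_mul (Real.exp_pos _).le, mul_assoc]
  exact ENNReal.ofReal_le_ofReal (mul_le_mul_of_nonneg_left
    (mul_le_mul_of_nonneg_right (h2 h y ψ hψ) (norm_nonneg _)) (Real.exp_pos _).le)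

end Pool.Agent.Lib.MP_f225de_an.MA
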