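import Pool.Agent.Lib.MP_f225de_an.N5
import Pool.Agent.Lib.MP_f225de_an.SkW0

set_option autoImplicit false

open Finset Real

namespace Pool.Agent.Lib.MP_f225de_an.Sk

lemma stepW_alg {n p K al d b xa xb sq x2 l k1 k2 R : ℝ} (hn : 0 < n) (hp : 0 < p) (hK : 0 < K)
    (ha : al = n * K / p) (ha2 : al < 2) (hd : 0 < b + xa) (hb : 0 < b + xa + xb) (hxa : xa ≤ 0)
    (hdd : d = b + al * xa / 2) (hl : l ≤ b) (h1 : k1 ≤ K * (b + xa + xb))
    (h2 : k2 ≤ K ^ 2 * (b + x2)) (hs : xb ^ 2 ≤ 2 * (b + xa) * sq)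
    (hR : K ^ 2 * (b + (al * x2 / 2 + (2 - al) * (xa / 2 + xb + sq))) ≤ al * R) :
    0 ≤ (2 - al) / d ∧ ∃ v, 0 < v ∧ (2 - al) / d * (l + k1 / v) ≤ 2 ∧ k2 + v * k1 ≤ 2 * R := by
  have a0 : 0 < al := by rw [ha]; positivity
  have a2 : 0 < 2 - al := by linarith
  have d0 : 0 < d := by nlinarith
  have hv : 0 < (2 - al) * K / al * ((b + xa + xb) / (b + xa)) := by positivity
  refine ⟨by positivity, _, hv, ?_, ?_⟩
  · have : k1 / ((2 - al) * K / al * ((b + xa + xb) / (b + xa))) ≤ al * (b + xa) / (2 - al) :=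
      (div_le_div_of_nonneg_right h1 hv.le).trans_eq (by field_simp)
    refine (mul_le_mul_of_nonneg_left (add_le_add hl this) (by positivity)).trans_eq ?_
    rw [div_mul_eq_mul_div, div_eq_iff d0.ne', hdd]
    field_simp
    ring
  · have h3 : (b + xa + xb) ^ 2 / (b + xa) ≤ b + xa + 2 * xb + 2 * sq := by
      rw [div_le_iff₀ hd]
      nlinarith
    have h4 := mul_le_mul_of_nonneg_left h3 (by positivity : 0 ≤ (2 - al) * K ^ 2)
    refine (add_le_add h2 (mul_le_mul_of_nonneg_left h1 hv.le)).trans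
      (le_of_mul_le_mul_left ?_ a0)
    have e : al * (K ^ 2 * (b + x2) + (2 - al) * K / al * ((b + xa + xb) / (b + xa))
        * (K * (b + xa + xb))) = al * K ^ 2 * (b + x2)
        + (2 - al) * K ^ 2 * ((b + xa + xb) ^ 2 / (b + xa)) := by field_simp
    rw [e]
    linarith

lemma step_algW {n d F F1 p K al c t SB SU Φ b z V : ℝ} (hn : 4 ≤ n) (hp : 0 < p) (hK : 0 < K)
    (ha : al = n * K / p) (hdc : 0 < d + c)
    (h : al * d ≤ F1 * (n - d) / (n - 2) + al / n * (n * SB / p - n * SU / p) + (2 - al) * Φ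
      + ((d - 1) * F + (d - 2) * t - n * SB / p + n * SU / p) * ((2 - al) / (d + c) + (2 * al - 2) / n))
    (hV : K * (b + z) + (2 * p / n - K) * Φ ≤ V) :
    K ^ 2 * (d + b + z) ≤ al * (((2 * p * K * F + p ^ 2 * F1) * (d - 1) / n ^ 2
      + (K / n * ((d - 2) * t * p / n - SB + SU)
      + p / n * ((d - 2) * (-((n - 1) * F1) / (n - 2) * p + t * K) / n + V)))
      + ((2 - al) / (d + c) - 2 / n)
        * (p ^ 2 * F * (d - 1) / n ^ 2 + p / n * ((d - 2) * t * p / n - SB + SU))) := by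
  subst ha
  exact step_alg (Ex := b + z - c) hn hp hK hdc h (by linarith) (le_of_eq (by ring))

/-- the weighted numerical statement follows from the one dimensional data -/
theorem nstW {n : ℕ} {k1 k2 : ℝ → ℝ → ℝ} (hn : 4 ≤ n) (D : DataW n k1 k2) : NStW n k1 k2 := by
  intro c S hS y hy
  have n4 : (4 : ℝ) ≤ n := by exact_mod_cast hn
  have n0 : (0 : ℝ) < n := by linarith
  have hal : Continuous D.al := funext D.al_eq ▸ (continuous_const.mul D.K_cont).div
    (Cmb.P_cont D.toBase) fun y => (D.P_pos y).ne'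
  have a0 : ∀ y, 0 < D.al y := fun y => D.al_eq y ▸ div_pos (mul_pos n0 (D.K_pos y)) (D.P_pos y)
  have hX : ∀ h, ¬ c.Lg h → ∀ y, 0 ≤ cor (c.sig h) y + D.al y * D.xa (c.sig h) y ∧
      cor (c.sig h) y + D.al y * D.xa (c.sig h) y ≤ 1 := fun h hh y => by
    have := D.xa_bd _ (c.sh_le hh) y
    constructor <;> nlinarith [D.al_lt y, a0 y, cor_le (c.sig h) y]
  refine c.levels D.toBase hn hS.mono hS.union hS.step hS.start (w := fun M m y => (2 - D.al y)
    / (m.card + 1 + ∑ h ∈ M, (cor (c.sig h) y + D.al y * D.xa (c.sig h) y) / 2) - 2 / n)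
    (fun M m hM => ?_) (fun y hy k => ?_) hy
  · have h1 : ∀ y, (1 : ℝ) ≤ m.card + 1 + ∑ h ∈ M, (cor (c.sig h) y + D.al y * D.xa (c.sig h) y) / 2 :=
      fun y => le_add_of_le_of_nonneg (by simp)
        (sum_nonneg fun h hh => div_nonneg (hX h (hM h hh) y).1 two_pos.le)
    have hm : Measurable fun y => (2 - D.al y) / (m.card + 1 + ∑ h ∈ M,
        (cor (c.sig h) y + D.al y * D.xa (c.sig h) y) / 2) - 2 / n :=
      ((measurable_const.sub hal.measurable).div (measurable_const.add (Finset.measurable_sum _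
        fun h hh => (((cor_cont _).measurable.add (hal.measurable.mul
          (D.xa_meas _ (c.sh_le (hM h hh))))).div_const _)))).sub measurable_const
    have hi : ∀ a b, IntervalIntegrable (fun y => (2 - D.al y) / (m.card + 1 + ∑ h ∈ M,
        (cor (c.sig h) y + D.al y * D.xa (c.sig h) y) / 2) - 2 / n) MeasureTheory.volume a b :=
      fun a b => (intervalIntegrable_const (c := 2 + 2 / (n : ℝ))).mono_fun'
        hm.aestronglyMeasurable (.of_forall fun y => (norm_sub_le _ _).trans (add_le_add (by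
          have := D.al_lt y
          rw [norm_of_nonneg (div_nonneg (by linarith) (by linarith [h1 y]))]
          exact (div_le_self (by linarith) (h1 y)).trans (by linarith [a0 y]))
          (norm_of_nonneg (by positivity)).le))
    refine ⟨intervalIntegral.continuous_primitive hi 0, fun y hy =>
      intervalIntegral.integral_hasDerivAt_right (hi 0 y)
        hm.stronglyMeasurable.stronglyMeasurableAtFilter ?_⟩
    refine ((continuousAt_const.sub hal.continuousAt).div (continuousAt_const.add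
      (tendsto_finsetSum _ fun h hh => (((cor_cont _).continuousAt.add (hal.continuousAt.mul
        (D.xa_cont _ (c.sh_le (hM h hh)) y fun e => hy ?_))).div_const _)))
      (one_pos.trans_le (h1 y)).ne').sub continuousAt_const
    exact mem_union_right _ (mem_biUnion.2 ⟨h, mem_univ _, mem_insert_of_mem e⟩)
  simp only [Cmb.lev, mem_union, mem_biUnion, mem_univ, true_and, mem_insert, not_or,
    not_exists] at hy
  have hp := D.P_pos y
  have hK := D.K_pos y
  have hk1 : 0 < (c.cls y k).card := card_pos.2 ⟨k, c.mem_cls y k⟩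
  have hk2 : (c.cls y k).card ≤ n - 1 := by simpa using card_le_univ (c.cls y k)
  have hlam := c.lamC_le (by omega) y k
  have hcard := c.card_mg y k
  have hsplit := card_filter_add_card_filter_not (s := c.cells (c.cls y k)) (c.Mg y)
  rw [c.card_cells] at hsplit
  have hM : ∀ h ∈ (c.cells (c.cls y k)).filter (c.Mg y), c.sig h ∈ Set.Ioc 0 (π / 2) ∧
      log (sin (c.sig h)) < y := fun h hh =>
    ⟨c.sh_le (mem_filter.1 hh).2.1, lt_of_le_of_ne (mem_filter.1 hh).2.2 (Ne.symm (hy.2 h).1)⟩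
  obtain ⟨u1, u2, hx, hu, hO⟩ : ∃ u1 u2 : c.H → ℝ, (∀ h, k1 (c.sig h) y ≤ D.K y * (lam (c.sig h) y
      + u1 h) ∧ k2 (c.sig h) y ≤ D.K y ^ 2 * (lam (c.sig h) y + u2 h) ∧ -(1 / 4) ≤ u1 h) ∧
      (∀ h, c.Mg y h → D.x1 (c.sig h) y = u1 h ∧ D.x2 (c.sig h) y = u2 h) ∧
      ∀ h ∈ (c.cells (c.cls y k)).filter (fun h => ¬ c.Mg y h),
      HasDerivAt (c.op D.toBase h) (if c.Lg h then D.L1 (c.sig h) y else D.A1 (c.sig h) y) y ∧
      D.K y * (D.al y * u2 h / 2 + (2 - D.al y) * (u1 h + u1 h ^ 2))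
        - (2 - D.al y) * D.dm * (if c.Lg h then 0 else D.A (c.sig h) y)
        ≤ if c.Lg h then D.L1 (c.sig h) y else D.A1 (c.sig h) y := by
    refine ⟨fun h => if c.Lg h then D.z1 (c.sig h) y else D.x1 (c.sig h) y,
      fun h => if c.Lg h then D.z2 (c.sig h) y else D.x2 (c.sig h) y, fun h => ?_,
      fun h e => ⟨(if_neg e.1).symm, (if_neg e.1).symm⟩, fun h hh => ?_⟩
    · beta_reduce
      split_ifs with e
      exacts [D.z_bd _ (c.lg_mem (by omega) e) y, D.x_bd _ (c.sh_le e) y]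
    unfold Cmb.op
    beta_reduce
    split_ifs with e
    · simpa using D.L_der _ (c.lg_mem (by omega) e) y (hy.2 h).2
    · exact D.A_der _ (c.sh_le e) y (not_le.1 fun e' => (mem_filter.1 hh).2 ⟨e, e'⟩) (hy.2 h).2
  have hB := fun h hh => (hu h (mem_filter.1 hh).2).1 ▸ (hu h (mem_filter.1 hh).2).2 ▸
    D.B_der _ (hM h hh).1 y (hM h hh).2 (hy.2 h).2
  have hq := fun h hh => (hu h (mem_filter.1 hh).2).1 ▸ D.sq_bd _ (hM h hh).1 y (hM h hh).2
  have hc := fun h (hh : h ∈ (c.cells (c.cls y k)).filter (c.Mg y)) => hX h (mem_filter.1 hh).2.1 y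
  have hc0 := sum_nonneg fun h hh => div_nonneg (hc h hh).1 two_pos.le
  obtain ⟨S, V, s1, s2, s3, s4, s5, s6⟩ := c.cls_at D.toBase hn y k
    (cc := fun s => cor s y + D.al y * D.xa s y) hc rfl rfl
  refine ⟨_, c.pot_der D.toBase hn hy.1 k (fun h hh => (hB h hh).1) fun h hh => (hO h hh).1, ?_⟩
  simp only [c.sum_pot D.toBase hn, Cmb.StepW, Cmb.etaC, sub_add_cancel]
  have hE : ∀ f : c.H → ℝ, ∑ h ∈ c.cells (c.cls y k), f h = _ := fun f =>
    (sum_filter_add_sum_filter_not _ (c.Mg y) f).symm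
  have hN : (((c.cells (c.cls y k)).filter fun h => ¬ c.Mg y h).card : ℝ)
      = 2 * ((c.cls y k).card + 1) := by exact_mod_cast (by omega)
  have hw : ∑ h ∈ (c.cells (c.cls y k)).filter (c.Mg y), (cor (c.sig h) y + 2 * D.xa (c.sig h) y)
      = 2 * (∑ h ∈ (c.cells (c.cls y k)).filter (c.Mg y), cor (c.sig h) y / 2
        + ∑ h ∈ (c.cells (c.cls y k)).filter (c.Mg y), D.xa (c.sig h) y) := by
    rw [sum_add_distrib, ← mul_sum, ← sum_div]
    ring
  have hw0 := hw ▸ sum_nonneg fun h hh => (D.xa_bd _ (hM h hh).1 y).1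
  refine ⟨c.cls_closed y k, stepW_alg (b := (c.cls y k).card + 1 +
      ∑ h ∈ (c.cells (c.cls y k)).filter (c.Mg y), cor (c.sig h) y / 2)
    (xa := ∑ h ∈ (c.cells (c.cls y k)).filter (c.Mg y), D.xa (c.sig h) y)
    (xb := ∑ h ∈ c.cells (c.cls y k),
      (u1 h - if c.Mg y h then D.xa (c.sig h) y else 0))
    (sq := ∑ h ∈ c.cells (c.cls y k), if c.Mg y h then D.sq (c.sig h) y else u1 h ^ 2)
    (x2 := ∑ h ∈ c.cells (c.cls y k), u2 h) n0 hp hK (D.al_eq y) (D.al_lt y)
    (by linarith [(c.cls y k).card.cast_nonneg (α := ℝ)]) ?_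
    (sum_nonpos fun h hh => (D.xa_bd _ (hM h hh).1 y).2) ?_ hlam ?_ ?_ ?_ ?_⟩
  · have := card_nsmul_le_sum (c.cells (c.cls y k)) (fun h => u1 h -
      if c.Mg y h then D.xa (c.sig h) y else 0) (-(1 / 4)) fun h _ => by
        have := (hx h).2.2
        split_ifs with e
        · linarith [(D.xa_bd _ (c.sh_le e.1) y).2]
        · linarith
    rw [c.card_cells, nsmul_eq_mul] at this
    push_cast at this
    linarith
  · simp only [add_div, sum_add_distrib, mul_div_assoc, ← mul_sum, ← sum_div]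
    ring
  · refine (sum_le_sum fun h _ => (hx h).1).trans ?_
    rw [← mul_sum, sum_add_distrib, sum_sub_distrib, ← sum_filter]
    exact mul_le_mul_of_nonneg_left (by unfold Cmb.lamC at hlam; linarith) hK.le
  · refine (sum_le_sum fun h _ => (hx h).2.1).trans ?_
    rw [← mul_sum, sum_add_distrib]
    exact mul_le_mul_of_nonneg_left (add_le_add_left hlam _) (by positivity)
  · refine (sum_sq_le_sum_mul_sum_of_sq_le_mul _ (f := fun h => if c.Mg y h then
      cor (c.sig h) y + 2 * D.xa (c.sig h) y else 1) (g := fun h => if c.Mg y h then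
      D.sq (c.sig h) y else u1 h ^ 2) (fun h hh => ?_) (fun h hh => ?_)
      fun h hh => ?_).trans_eq ?_
    · split_ifs with e
      exacts [(D.xa_bd _ (c.sh_le e.1) y).1, one_pos.le]
    · split_ifs with e
      exacts [(hq h (mem_filter.2 ⟨hh, e⟩)).1, sq_nonneg _]
    · split_ifs with e
      exacts [(hq h (mem_filter.2 ⟨hh, e⟩)).2, by simp]
    · rw [sum_ite, hw, sum_const, nsmul_eq_mul, hN]
      ring
  have hd : ((c.cls y k).card + 1 : ℝ) = 2 ∨ 3 ≤ ((c.cls y k).card + 1 : ℝ) := by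
    exact_mod_cast (by omega)
  have hdn : ((c.cls y k).card + 1 : ℝ) = n ∨ ((c.cls y k).card + 1 : ℝ) + 1 ≤ n := by
    exact_mod_cast (by omega)
  have key := cls_key n4 hd hdn (D.F_pos y) (D.F_le y) hc0 s1 rfl s2 s3 s4 s5
  refine step_algW n4 hp hK (D.al_eq y) (add_pos_of_pos_of_nonneg (by positivity) hc0)
    (cls_fin (V := V) (E := D.dm * (n * (∑ h ∈ (c.cells (c.cls y k)).filter (fun h => ¬ c.Mg y h),
      if c.Lg h then 0 else D.A (c.sig h) y) / D.P y)) (Φ := ∑ h ∈ (c.cells (c.cls y k)).filter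
      (c.Mg y), (n ^ 2 - 2 * n * D.G (c.sig h) y / D.P y) * (cor (c.sig h) y + D.al y *
      D.xa (c.sig h) y) / (2 * n * (n + (cor (c.sig h) y + D.al y * D.xa (c.sig h) y)))) n4
      (by rcases hd with h | h <;> linarith) (by rcases hdn with h | h <;> linarith) (D.al_lt y).le
      (D.al_eq y ▸ (D.F_der y hy.1).2) hc0 rfl ?_) ?_
  · rcases D.dm_bd with e | ⟨e4, e, hF2, hA⟩
    · rwa [e, zero_mul]
    by_cases e' : (c.cls y k).card + 1 = n
    · rwa [sum_eq_zero fun h hh => if_pos (by_contra fun l => ?_), mul_zero, zero_div, mul_zero]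
      have : h ∈ (c.cells (c.cls y k)).filter (c.Mg y) := by simpa [c.mg_univ (by omega) e'] using l
      exact (mem_filter.1 hh).2 (mem_filter.1 this).2
    have hy0 := c.neg_of e'
    have hA' := fun h (hh : h ∈ (c.cells (c.cls y k)).filter fun h => ¬ c.Mg y h) l =>
      hA _ (c.sh_le l) y (not_le.1 fun e' => (mem_filter.1 hh).2 ⟨l, e'⟩).le
    refine key_four (by exact_mod_cast e4) (by exact_mod_cast (by omega)) (hF2 y hy0) (D.F_le y)
      hc0 s1 rfl s2 (s3 (by exact_mod_cast (by omega))).2.2.1 ?_ (fun e3 => ?_) s5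
    · rw [e, ← mul_assoc, show (4 : ℝ) * (1 / 4) = 1 by norm_num, one_mul]
      exact s6 e'
    · have h3 : (c.cls y k).card = 2 := by exact_mod_cast (by linarith : ((c.cls y k).card : ℝ) = 2)
      have h4 := c.open_sh y k
      have h5 := sum_le_card_nsmul _ _ (D.P y / 16) fun h (hh : h ∈ ((c.cells (c.cls y k)).filter
        fun h => ¬ c.Mg y h).filter fun h => ¬ c.Lg h) => (le_div_iff₀' (by norm_num)).2
          (hA' h (mem_filter.1 hh).1 (mem_filter.1 hh).2)
      have h6 : ((((c.cells (c.cls y k)).filter fun h => ¬ c.Mg y h).filter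
        fun h => ¬ c.Lg h).card : ℝ) ≤ 2 := by exact_mod_cast (by omega)
      rw [e, sum_ite, sum_const_zero, zero_add, ← mul_div_assoc, ← mul_div_assoc, div_le_one hp,
        show (n : ℝ) = 4 by exact_mod_cast e4]
      rw [nsmul_eq_mul] at h5
      nlinarith
  · have h1 := sum_le_sum fun h hh => (hO h hh).2
    have h2 := sum_le_sum fun h hh => (hB h hh).2
    have e1 : ∀ h, (2 - D.al y) * (n * D.P y - 2 * D.G (c.sig h) y) = (2 * D.P y / n - D.K y)
        * (n ^ 2 - 2 * n * D.G (c.sig h) y / D.P y) := fun h => by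
      rw [D.al_eq]
      field_simp
    have e2 : ∀ x, (2 * D.P y / n - D.K y) * (D.dm * (n * x / D.P y)) = (2 - D.al y) * D.dm * x :=
      fun x => by
        rw [D.al_eq]
        field_simp
    rw [mul_sub _ _ (D.dm * _), e2, hE u2]
    simp only [e1, mul_assoc (2 * D.P y / n - D.K y), mul_div_assoc (2 * D.P y / n - D.K y),
      sum_add_distrib, sum_sub_distrib, sum_neg_distrib, ← mul_sum, ← sum_div] at h1 h2
    rw [sum_sub_distrib, ← sum_filter, hE u1, sum_ite, ← sum_div]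
    linarith

end Pool.Agent.Lib.MP_f225de_an.Sk
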