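import Pool.Agent.Lib.MP_f225de_an.W3
import Pool.Agent.Lib.MP_f225de_an.MC4
import Pool.Agent.Lib.MP_f225de_an.N7
import Pool.Agent.Lib.MP_f225de_an.EH6

set_option autoImplicit false

open MeasureTheory Polynomial

namespace Pool.Agent.Lib.MP_f225de_an.Sk

/-- the numerical input in degree `n` -/
def Num (n : ℕ) : Prop := ∃ k κ η, MA.FluxW n k ∧ Ker k κ η ∧ Nonempty (DataW n κ η)

theorem final (h : ∀ n, 4 ≤ n → Num n) : ∀ n : ℕ, 1 ≤ n → ∀ p : ℂ[X], p.Monic → p.natDegree = n →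
    Measure.hausdorffMeasure (1 : ℝ) {z : ℂ | ‖p.eval z‖ = 1} ≤
      Measure.hausdorffMeasure (1 : ℝ) {z : ℂ | ‖z ^ n - 1‖ = 1} :=
  E.assemble EH.red fun n hn => by
    obtain ⟨k, κ, η, a, b, ⟨D⟩⟩ := h n hn
    exact core_ofW (by omega) (MA.certW (by omega) a) b (nstW hn D)

end Pool.Agent.Lib.MP_f225de_an.Sk
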