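import Pool.Agent.Lib.MP_f225de_an.E3
import Pool.Agent.Lib.MP_f225de_an.E4

set_option autoImplicit false

open MeasureTheory Set Filter Topology Polynomial
open scoped ENNReal NNReal Real

namespace Pool.Agent.Lib.MP_f225de_an.E

lemma lim_ex {n : ℕ} (hn : 1 ≤ n) {p : ℂ[X]} (hp : p.Monic) (hd : p.natDegree = n) {U : Set ℂ}
    (hU : Convex ℝ U) {f : ℂ → ℂ} (hf : ContinuousOn f U)
    (he : ∀ w ∈ U, p.eval (f w) = Complex.exp w) {w : ℂ} (hw : w ∈ closure U) :
    ∃ b, Tendsto f (𝓝[U] w) (𝓝 b) := by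
  have := mem_closure_iff_nhdsWithin_neBot.mp hw
  have hK := (p.isProperMap_eval (natDegree_pos_iff_degree_pos.mp (by omega))).isCompact_preimage
    (isCompact_closedBall (Complex.exp w) 1)
  obtain ⟨b, -, hb⟩ := hK.exists_mapClusterPt (f := 𝓝[U] w) (u := f) (by
    rw [le_principal_iff, mem_map]
    filter_upwards [self_mem_nhdsWithin, mem_nhdsWithin_of_mem_nhds
      (Complex.continuous_exp.continuousAt.preimage_mem_nhds (Metric.closedBall_mem_nhds _ one_pos))]
      with x h1 h2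
    show p.eval (f x) ∈ Metric.closedBall _ _
    rwa [he x h1])
  refine ⟨b, Metric.tendsto_nhds.mpr fun ε hε => ?_⟩
  obtain ⟨η, ⟨h0, h1⟩, h2⟩ := (Ioo_infinite hε).exists_notMem_finite
    ((fib_fin hn hp hd (Complex.exp w)).image fun z => dist z b)
  have h3 : IsClosed (p.eval '' Metric.sphere b η) :=
    ((isCompact_sphere b η).image p.continuous).isClosed
  have h4 : Complex.exp w ∉ p.eval '' Metric.sphere b η := fun ⟨z, hz, e⟩ => h2 ⟨z, e, hz⟩
  obtain ⟨δ, hδ, h5⟩ := Metric.mem_nhds_iff.mp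
    (Complex.continuous_exp.continuousAt.preimage_mem_nhds (h3.isOpen_compl.mem_nhds h4))
  have h6 : ∀ᶠ x in 𝓝[U] w, x ∈ U ∩ Metric.ball w δ :=
    inter_mem_nhdsWithin U (Metric.ball_mem_nhds w hδ)
  have h7 := ((hU.inter (convex_ball w δ)).isPreconnected.image f
    (hf.mono inter_subset_left)).subset_left_of_subset_union (Metric.isOpen_ball (x := b) (ε := η))
    (Metric.isClosed_closedBall (x := b) (ε := η)).isOpen_compl
    (disjoint_compl_right_iff_subset.mpr Metric.ball_subset_closedBall) (by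
      rintro _ ⟨x, hx, rfl⟩
      rcases lt_trichotomy (dist (f x) b) η with h | h | h
      · exact Or.inl h
      · exact (h5 hx.2 ⟨f x, h, he x hx.1⟩).elim
      · exact Or.inr (not_le.mpr h)) (by
      obtain ⟨x, a, c⟩ := ((mapClusterPt_iff_frequently.mp hb _
        (Metric.ball_mem_nhds b h0)).and_eventually h6).exists
      exact ⟨f x, ⟨x, c, rfl⟩, a⟩)
  filter_upwards [h6] with x hx using lt_trans (h7 ⟨x, hx, rfl⟩) h1

lemma root_of {n : ℕ} {p : ℂ[X]} {u : ℂ} {r : Fin n → ℂ} (h : p - C u = ∏ j, (X - C (r j)))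
    (z : ℂ) : p.eval z = u ↔ ∃ j, z = r j := by
  have := congrArg (eval z) h
  rw [eval_sub, eval_C, eval_prod] at this
  rw [← sub_eq_zero, this, Finset.prod_eq_zero_iff]
  simp [sub_eq_zero]

lemma rep_root {n : ℕ} {p : ℂ[X]} {u : ℂ} {r : Fin n → ℂ} (h : p - C u = ∏ j, (X - C (r j)))
    {i j : Fin n} (e : r i = r j) (h0 : p.derivative.eval (r i) ≠ 0) : i = j := by
  by_contra hne
  have := prod_der_root r i
  rw [← h, Finset.prod_eq_zero (i := j) (by simpa using Ne.symm hne) (by simp [e])] at this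
  exact h0 (by simpa using this)

lemma ext_br {n : ℕ} (hn : 1 ≤ n) {p : ℂ[X]} (hp : p.Monic) (hd : p.natDegree = n) {U : Set ℂ}
    (hU : Convex ℝ U) {z : Fin n → ℂ → ℂ} (hz : ∀ j, ContinuousOn (z j) U)
    (he : ∀ w ∈ U, p - C (Complex.exp w) = ∏ j, (X - C (z j w))) :
    ∃ g : Fin n → ℂ → ℂ, (∀ j, ContinuousOn (g j) (closure U)) ∧ (∀ j, EqOn (g j) (z j) U) ∧
      ∀ w ∈ closure U, p - C (Complex.exp w) = ∏ j, (X - C (g j w)) := by
  have h1 : ∀ j, ContinuousOn (extendFrom U (z j)) (closure U) := fun j =>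
    continuousOn_extendFrom Subset.rfl fun w hw =>
      lim_ex hn hp hd hU (hz j) (fun w hw => (root_of (he w hw) _).mpr ⟨j, rfl⟩) hw
  refine ⟨fun j => extendFrom U (z j), h1, fun j => extendFrom_extends (hz j), fun w hw => ?_⟩
  refine Polynomial.funext fun x => ?_
  simp only [eval_sub, eval_C, eval_prod, eval_X]
  refine EqOn.of_subset_closure (f := fun w => p.eval x - Complex.exp w)
    (g := fun w => ∏ j, (x - extendFrom U (z j) w)) (s := U) (fun w hw => ?_) (by fun_prop)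
    (continuousOn_finsetProd _ fun j _ => continuousOn_const.sub (h1 j)) subset_closure Subset.rfl hw
  have := congrArg (eval x) (he w hw)
  simpa [eval_prod, extendFrom_extends (hz _) w hw] using this

lemma an_of {p : ℂ[X]} {f : ℂ → ℂ} {w : ℂ} (hf : ContinuousAt f w)
    (he : ∀ x, p.eval (f x) = x) (h0 : p.derivative.eval (f w) ≠ 0) :
    AnalyticAt ℂ f w := by
  have h1 : AnalyticAt ℂ (fun z => p.eval z) (f w) := p.differentiable.analyticAt _
  have h2 : deriv (fun z => p.eval z) (f w) ≠ 0 := by rwa [p.deriv]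
  have h3 := h1.analyticAt_localInverse h2
  rw [he] at h3
  refine h3.congr ?_
  filter_upwards [hf.eventually (h1.hasStrictDerivAt.eventually_left_inverse h2)] with x b
  rwa [he] at b

lemma cover {Y ι : Type} [TopologicalSpace Y] [Finite ι] {s : Set Y} (hs : IsPreconnected s)
    {f h : ι → Y → ℂ} (hf : ∀ i, ContinuousOn (f i) s) (hh : ∀ i, ContinuousOn (h i) s)
    (P : ι → Prop) (hc : ∀ x ∈ s, ∃ i, f i x = h i x)
    (hd : ∀ x ∈ s, ∀ i i', f i x = h i x → f i' x = h i' x → P i → P i') {x₀ : Y} (h0 : x₀ ∈ s)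
    {i₀ : ι} (h1 : f i₀ x₀ = h i₀ x₀) (h2 : P i₀) : ∀ x ∈ s, ∃ i, P i ∧ f i x = h i x := by
  have := isPreconnected_iff_preconnectedSpace.mp hs
  have cl : ∀ Q : ι → Prop, IsClosed {x : s | ∃ i, Q i ∧ f i x = h i x} := fun Q => by
    simp only [ofPred_exists]
    exact isClosed_iUnion_of_finite fun i => by
      by_cases q : Q i
      · simpa [q] using isClosed_eq (hf i).domRestrict (hh i).domRestrict
      · simp [q]
  have e : {x : s | ∃ i, P i ∧ f i x = h i x} = {x : s | ∃ i, ¬ P i ∧ f i x = h i x}ᶜ := by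
    ext x
    refine ⟨fun ⟨i, a, b⟩ ⟨i', a', b'⟩ => a' (hd x x.2 i i' b b' a), fun a => ?_⟩
    obtain ⟨i, b⟩ := hc x x.2
    exact ⟨i, by_contra fun q => a ⟨i, q, b⟩, b⟩
  have := IsClopen.eq_univ ⟨cl P, e ▸ (cl _).isOpen_compl⟩ ⟨⟨x₀, h0⟩, i₀, h2, h1⟩
  exact fun x hx => eq_univ_iff_forall.mp this ⟨x, hx⟩

lemma re_zero {s : ℂ} (hs : Complex.exp s = 1) : s.re = 0 := by
  simpa [Complex.norm_exp] using congrArg norm hs

/-- continuous root branches on the two closed half planes of the logarithmic variable -/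
theorem sides {n : ℕ} (hn : 1 ≤ n) {p : ℂ[X]} (hp : p.Monic) (hd : p.natDegree = n)
    (h1 : ∀ z, p.derivative.eval z = 0 → ‖p.eval z‖ = 1) :
    ∃ g ζ : Fin n → ℂ → ℂ, (∀ j, ContinuousOn (g j) {w | w.re ≤ 0}) ∧
      (∀ j, ContinuousOn (ζ j) {w | 0 ≤ w.re}) ∧
      (∀ w : ℂ, w.re ≤ 0 → p - C (Complex.exp w) = ∏ j, (X - C (g j w))) ∧
      (∀ w : ℂ, 0 ≤ w.re → p - C (Complex.exp w) = ∏ j, (X - C (ζ j w))) ∧
      (∀ j s w, Complex.exp s = 1 → w.re ≤ 0 → g j (w + s) = g j w) ∧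
      ∃ z : Fin n → ℂ → ℂ, (∀ j, ContinuousAt (z j) 0 ∧ p.eval (z j 0) = 0) ∧
        ∀ j w, w.re < 0 → g j w = z j (Complex.exp w) := by
  have hP := PP_self hp hd
  obtain ⟨z, z1, -, z2⟩ := branches hn (A := Metric.ball 0 1) Metric.isOpen_ball (convex_ball _ _)
    (e := fun _ i => p.coeff i) (w := id) (by fun_prop) (by fun_prop) fun s hs z e h => by
      rw [hP] at e h
      have := h1 z h
      rw [e] at this
      simp [show ‖s‖ = 1 from this] at hs
  obtain ⟨y, y1, -, y2⟩ := branches hn (A := {w : ℂ | 0 < w.re})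
    (isOpen_lt continuous_const Complex.continuous_re) (convex_halfSpace_re_gt 0)
    (e := fun _ i => p.coeff i) (w := Complex.exp) (by fun_prop) (by fun_prop) fun s hs z e h => by
      rw [hP] at e h
      have := h1 z h
      rw [e, Complex.norm_exp, Real.exp_eq_one_iff] at this
      exact (ne_of_gt hs) this
  rw [hP] at z2 y2
  have hm : ∀ w : ℂ, w.re < 0 → Complex.exp w ∈ Metric.ball (0 : ℂ) 1 := fun w hw => by
    simpa [Complex.norm_exp] using hw
  obtain ⟨g, g1, g2, g3⟩ := ext_br hn hp hd (convex_halfSpace_re_lt 0)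
    (z := fun j w => z j (Complex.exp w))
    (fun j => (z1 j).continuousOn.comp (by fun_prop) hm) fun w hw => z2 _ (hm w hw)
  obtain ⟨ζ, k1, -, k3⟩ := ext_br hn hp hd (convex_halfSpace_re_gt 0)
    (fun j => (y1 j).continuousOn) y2
  rw [Complex.closure_setOfPred_re_lt] at g1 g3
  rw [Complex.closure_setOfPred_lt_re] at k1 k3
  refine ⟨g, ζ, g1, k1, g3, k3, fun j s w hs hw => ?_, z, fun j =>
    ⟨(z1 j).continuousOn.continuousAt (Metric.ball_mem_nhds _ one_pos),
      (root_of (z2 0 (by simp)) _).mpr ⟨j, rfl⟩⟩, fun j w hw => g2 j hw⟩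
  have h0 := re_zero hs
  refine EqOn.of_subset_closure (f := fun w => g j (w + s)) (g := g j) (s := {w : ℂ | w.re < 0})
    (t := {w : ℂ | w.re ≤ 0}) (fun w hw => ?_) ((g1 j).comp (by fun_prop) fun w hw => ?_) (g1 j)
    (fun w (hw : w.re < 0) => hw.le) (by rw [Complex.closure_setOfPred_re_lt]) hw
  · show g j (w + s) = _
    rw [g2 j hw, g2 j (show (w + s).re < 0 by simpa [h0] using hw)]
    simp [Complex.exp_add, hs]
  · simpa [h0] using hw

end Pool.Agent.Lib.MP_f225de_an.E
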