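import Mathlib

set_option autoImplicit false

open MeasureTheory Set Filter Topology
open scoped Real

namespace Pool.Agent.Lib.MP_f225de_an.GR

/-- the point `x + i y` -/
noncomputable def cx (p : ℝ × ℝ) : ℂ := p.1 + p.2 * Complex.I

lemma cx_cd : ContDiff ℝ 1 cx :=
  (Complex.ofRealCLM.contDiff.comp contDiff_fst).add
    ((Complex.ofRealCLM.contDiff.comp contDiff_snd).mul contDiff_const)

lemma der_fst {f : ℝ × ℝ → ℝ} {p : ℝ × ℝ} (hf : DifferentiableAt ℝ f p) :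
    HasDerivAt (fun x => f (x, p.2)) (fderiv ℝ f p (1, 0)) p.1 :=
  hf.hasFDerivAt.comp_hasDerivAt_of_eq p.1
    ((hasDerivAt_id p.1).prodMk (hasDerivAt_const p.1 p.2)) rfl

lemma der_snd {f : ℝ × ℝ → ℝ} {p : ℝ × ℝ} (hf : DifferentiableAt ℝ f p) :
    HasDerivAt (fun y => f (p.1, y)) (fderiv ℝ f p (0, 1)) p.2 :=
  hf.hasFDerivAt.comp_hasDerivAt_of_eq p.2
    ((hasDerivAt_const p.2 p.1).prodMk (hasDerivAt_id p.2)) rfl

lemma norm_der {γ : ℝ → ℂ} {γ' : ℂ} {t : ℝ} (h : HasDerivAt γ γ' t) (h0 : γ t ≠ 0) :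
    HasDerivAt (fun s => ‖γ s‖) (‖γ t‖ * (γ' / γ t).re) t := by
  have hn : 0 < ‖γ t‖ := norm_pos_iff.2 h0
  have h1 := h.norm_sq.sqrt (by positivity)
  simp only [Real.sqrt_sq (norm_nonneg _)] at h1
  refine h1.congr_deriv ?_
  rw [Complex.div_re, Complex.normSq_eq_norm_sq, Complex.inner]
  simp only [Complex.mul_re, Complex.conj_re, Complex.conj_im]
  field_simp
  ring

lemma hol_fst {k : ℂ → ℂ} {p : ℝ × ℝ} (hk : DifferentiableAt ℂ k (cx p)) :
    HasDerivAt (fun x => k (cx (x, p.2))) (deriv k (cx p)) p.1 := by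
  have h1 : HasDerivAt (fun z : ℂ => k (z + p.2 * Complex.I)) (deriv k (cx p)) (p.1 : ℂ) := by
    exact (hk.hasDerivAt.comp_of_eq (p.1 : ℂ)
      ((hasDerivAt_id (p.1 : ℂ)).add_const (p.2 * Complex.I)) rfl).congr_deriv (mul_one _)
  exact h1.comp_ofReal

lemma hol_snd {k : ℂ → ℂ} {p : ℝ × ℝ} (hk : DifferentiableAt ℂ k (cx p)) :
    HasDerivAt (fun y => k (cx (p.1, y))) (deriv k (cx p) * Complex.I) p.2 := by
  have h1 : HasDerivAt (fun z : ℂ => k (p.1 + z * Complex.I)) (deriv k (cx p) * Complex.I)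
      (p.2 : ℂ) := by
    exact (hk.hasDerivAt.comp_of_eq (p.2 : ℂ) (((hasDerivAt_id (p.2 : ℂ)).mul_const
      Complex.I).const_add (p.1 : ℂ)) rfl).congr_deriv (by rw [one_mul])
  exact h1.comp_ofReal

/-- first component of the flux field -/
noncomputable def X1 (h : ℂ → ℂ) (ψ G : ℝ × ℝ → ℝ) (p : ℝ × ℝ) : ℝ :=
  ‖h (cx p)‖ * (G p - ψ p * (deriv h (cx p) / h (cx p)).re)

/-- second component of the flux field -/
noncomputable def X2 (h : ℂ → ℂ) (ψ G : ℝ × ℝ → ℝ) (p : ℝ × ℝ) : ℝ :=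
  ‖h (cx p)‖ * (G p + ψ p * (deriv h (cx p) / h (cx p)).im)

lemma an_cd {k : ℂ → ℂ} {p : ℝ × ℝ} (hk : AnalyticAt ℂ k (cx p)) :
    ContDiffAt ℝ 1 (fun q => k (cx q)) p :=
  ((hk.contDiffAt (n := 1)).restrict_scalars ℝ).comp p cx_cd.contDiffAt

/-- Green certificate inequality on a rectangle for the modulus of a holomorphic function -/
theorem green {h : ℂ → ℂ} {ψ G₁ G₂ ν : ℝ × ℝ → ℝ} {a b c d : ℝ} (hab : a ≤ b) (hcd : c ≤ d)
    (hh : ∀ p ∈ Icc a b ×ˢ Icc c d, AnalyticAt ℂ h (cx p) ∧ h (cx p) ≠ 0)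
    (hψ : ∀ p ∈ Icc a b ×ˢ Icc c d, ContDiffAt ℝ 1 ψ p)
    (h₁ : ∀ p ∈ Icc a b ×ˢ Icc c d, ContDiffAt ℝ 1 G₁ p)
    (h₂ : ∀ p ∈ Icc a b ×ˢ Icc c d, ContDiffAt ℝ 1 G₂ p)
    (hν : ContinuousOn ν (Icc a b ×ˢ Icc c d))
    (hc : ∀ p ∈ Icc a b ×ˢ Icc c d, ∀ v₁ v₂ : ℝ,
      fderiv ℝ G₁ p (1, 0) + fderiv ℝ G₂ p (0, 1) - ψ p * (v₁ ^ 2 + v₂ ^ 2) -
        (fderiv ℝ ψ p (1, 0) - G₁ p) * v₁ - (fderiv ℝ ψ p (0, 1) - G₂ p) * v₂ ≤ ν p) :
    (((∫ x in a..b, X2 h ψ G₂ (x, d)) - ∫ x in a..b, X2 h ψ G₂ (x, c)) +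
      ∫ y in c..d, X1 h ψ G₁ (b, y)) - ∫ y in c..d, X1 h ψ G₁ (a, y) ≤
      ∫ x in a..b, ∫ y in c..d, ‖h (cx (x, y))‖ * ν (x, y) := by
  set R := Icc a b ×ˢ Icc c d with hR
  let g : ℂ → ℂ := fun z => deriv h z / h z
  have hg : ∀ p ∈ R, AnalyticAt ℂ g (cx p) := fun p hp =>
    (hh p hp).1.deriv.div (hh p hp).1 (hh p hp).2
  have hF : ∀ p ∈ R, ContDiffAt ℝ 1 (fun q => ‖h (cx q)‖) p := fun p hp =>
    (an_cd (hh p hp).1).norm ℝ (hh p hp).2
  have c1 : ∀ p ∈ R, ContDiffAt ℝ 1 (X1 h ψ G₁) p := fun p hp =>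
    (hF p hp).mul ((h₁ p hp).sub ((hψ p hp).mul
      (Complex.reCLM.contDiff.contDiffAt.comp p (an_cd (hg p hp)))))
  have c2 : ∀ p ∈ R, ContDiffAt ℝ 1 (X2 h ψ G₂) p := fun p hp =>
    (hF p hp).mul ((h₂ p hp).add ((hψ p hp).mul
      (Complex.imCLM.contDiff.contDiffAt.comp p (an_cd (hg p hp)))))
  let D : ℝ × ℝ → ℝ := fun p => fderiv ℝ (X1 h ψ G₁) p (1, 0) + fderiv ℝ (X2 h ψ G₂) p (0, 1)
  have cD : ContinuousOn D R := fun p hp => ContinuousAt.continuousWithinAt <|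
    (((c1 p hp).continuousAt_fderiv one_ne_zero).clm_apply continuousAt_const).add
      (((c2 p hp).continuousAt_fderiv one_ne_zero).clm_apply continuousAt_const)
  have hD : ∀ p ∈ R, D p ≤ ‖h (cx p)‖ * ν p := fun p hp => by
    have d0 := (hh p hp).1.differentiableAt
    have d1 := (hg p hp).differentiableAt
    have dψ := (hψ p hp).differentiableAt one_ne_zero
    have e1 := (der_fst ((c1 p hp).differentiableAt one_ne_zero)).unique
      ((norm_der (hol_fst d0) (hh p hp).2).mul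
        ((der_fst ((h₁ p hp).differentiableAt one_ne_zero)).sub ((der_fst dψ).mul
          (Complex.reCLM.hasFDerivAt.comp_hasDerivAt p.1 (hol_fst d1)))))
    have e2 := (der_snd ((c2 p hp).differentiableAt one_ne_zero)).unique
      ((norm_der (hol_snd d0) (hh p hp).2).mul
        ((der_snd ((h₂ p hp).differentiableAt one_ne_zero)).add ((der_snd dψ).mul
          (Complex.imCLM.hasFDerivAt.comp_hasDerivAt p.2 (hol_snd d1)))))
    have e3 : (deriv h (cx p) * Complex.I / h (cx p)).re = -(g (cx p)).im := by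
      rw [mul_div_right_comm]; simp [g]
    have := mul_le_mul_of_nonneg_left (hc p hp (g (cx p)).re (-(g (cx p)).im))
      (norm_nonneg (h (cx p)))
    refine le_of_eq_of_le ?_ this
    simp only [D, e1, e2, Prod.mk.eta, e3, Complex.reCLM_apply, Complex.imCLM_apply,
      Complex.mul_im, Complex.I_re, Complex.I_im, g]
    ring
  have hK : IsCompact R := isCompact_Icc.prod isCompact_Icc
  have hu : uIcc a b ×ˢ uIcc c d = R := by rw [uIcc_of_le hab, uIcc_of_le hcd]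
  have hsub : Ioo (min a b) (max a b) ×ˢ Ioo (min c d) (max c d) ⊆ R := by
    rw [min_eq_left hab, max_eq_right hab, min_eq_left hcd, max_eq_right hcd]
    exact prod_mono Ioo_subset_Icc_self Ioo_subset_Icc_self
  rw [← integral2_divergence_prod_of_hasFDerivAt (X1 h ψ G₁) (X2 h ψ G₂) (fderiv ℝ (X1 h ψ G₁))
    (fderiv ℝ (X2 h ψ G₂)) a c b d
    (hu ▸ fun p hp => (c1 p hp).continuousAt.continuousWithinAt)
    (hu ▸ fun p hp => (c2 p hp).continuousAt.continuousWithinAt)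
    (fun p hp => ((c1 p (hsub hp)).differentiableAt one_ne_zero).hasFDerivAt)
    (fun p hp => ((c2 p (hsub hp)).differentiableAt one_ne_zero).hasFDerivAt)
    (hu ▸ cD.integrableOn_compact hK)]
  have cE : ContinuousOn (fun p => ‖h (cx p)‖ * ν p) R := fun p hp =>
    (hF p hp).continuousAt.continuousWithinAt.mul (hν p hp)
  have key : ∀ f : ℝ × ℝ → ℝ, ContinuousOn f R →
      ∫ x in a..b, ∫ y in c..d, f (x, y) = ∫ p in R, f p := fun f hf => by
    simp only [intervalIntegral.integral_of_le hab, intervalIntegral.integral_of_le hcd,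
      ← integral_Icc_eq_integral_Ioc]
    exact (setIntegral_prod f (hf.integrableOn_compact hK)).symm
  rw [key D cD, key _ cE]
  exact setIntegral_mono_on (cD.integrableOn_compact hK) (cE.integrableOn_compact hK)
    hK.measurableSet hD

end Pool.Agent.Lib.MP_f225de_an.GR
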