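import Pool.Agent.Lib.MP_f225de_an.GR1

set_option autoImplicit false

open MeasureTheory Set Filter Topology
open scoped Real ComplexConjugate ENNReal

namespace Pool.Agent.Lib.MP_f225de_an.GR

/-- first component of the weighted area field -/
noncomputable def Y1 (z : ℂ → ℂ) (Φ : ℝ × ℝ → ℝ) (p : ℝ × ℝ) : ℝ :=
  Φ p * (conj (z (cx p)) * deriv z (cx p)).re

/-- second component of the weighted area field -/
noncomputable def Y2 (z : ℂ → ℂ) (Φ : ℝ × ℝ → ℝ) (p : ℝ × ℝ) : ℝ :=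
  -(Φ p * (conj (z (cx p)) * deriv z (cx p)).im)

/-- weighted area identity on a rectangle -/
theorem green0 {z : ℂ → ℂ} {Φ : ℝ × ℝ → ℝ} {a b c d : ℝ} (hab : a ≤ b) (hcd : c ≤ d)
    (hz : ∀ p ∈ Icc a b ×ˢ Icc c d, AnalyticAt ℂ z (cx p))
    (hΦ : ∀ p ∈ Icc a b ×ˢ Icc c d, ContDiffAt ℝ 1 Φ p) :
    (((∫ x in a..b, Y2 z Φ (x, d)) - ∫ x in a..b, Y2 z Φ (x, c)) +
      ∫ y in c..d, Y1 z Φ (b, y)) - ∫ y in c..d, Y1 z Φ (a, y) =
      ∫ p in Icc a b ×ˢ Icc c d, (2 * Φ p * ‖deriv z (cx p)‖ ^ 2 +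
        (fderiv ℝ Φ p (1, 0) * (conj (z (cx p)) * deriv z (cx p)).re -
          fderiv ℝ Φ p (0, 1) * (conj (z (cx p)) * deriv z (cx p)).im)) := by
  set R := Icc a b ×ˢ Icc c d with hR
  have c0 : ∀ p ∈ R, ContDiffAt ℝ 1 (fun q => conj (z (cx q)) * deriv z (cx q)) p := fun p hp =>
    (Complex.conjCLE.contDiff.contDiffAt.comp p (an_cd (hz p hp))).mul (an_cd (hz p hp).deriv)
  have c1 : ∀ p ∈ R, ContDiffAt ℝ 1 (Y1 z Φ) p := fun p hp =>
    (hΦ p hp).mul (Complex.reCLM.contDiff.contDiffAt.comp p (c0 p hp))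
  have c2 : ∀ p ∈ R, ContDiffAt ℝ 1 (Y2 z Φ) p := fun p hp =>
    ((hΦ p hp).mul (Complex.imCLM.contDiff.contDiffAt.comp p (c0 p hp))).neg
  let D : ℝ × ℝ → ℝ := fun p => fderiv ℝ (Y1 z Φ) p (1, 0) + fderiv ℝ (Y2 z Φ) p (0, 1)
  have cD : ContinuousOn D R := fun p hp => ContinuousAt.continuousWithinAt <|
    (((c1 p hp).continuousAt_fderiv one_ne_zero).clm_apply continuousAt_const).add
      (((c2 p hp).continuousAt_fderiv one_ne_zero).clm_apply continuousAt_const)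
  have hK : IsCompact R := isCompact_Icc.prod isCompact_Icc
  have hu : uIcc a b ×ˢ uIcc c d = R := by rw [uIcc_of_le hab, uIcc_of_le hcd]
  have hsub : Ioo (min a b) (max a b) ×ˢ Ioo (min c d) (max c d) ⊆ R := by
    rw [min_eq_left hab, max_eq_right hab, min_eq_left hcd, max_eq_right hcd]
    exact prod_mono Ioo_subset_Icc_self Ioo_subset_Icc_self
  rw [← integral2_divergence_prod_of_hasFDerivAt (Y1 z Φ) (Y2 z Φ) (fderiv ℝ (Y1 z Φ))
    (fderiv ℝ (Y2 z Φ)) a c b d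
    (hu ▸ fun p hp => (c1 p hp).continuousAt.continuousWithinAt)
    (hu ▸ fun p hp => (c2 p hp).continuousAt.continuousWithinAt)
    (fun p hp => ((c1 p (hsub hp)).differentiableAt one_ne_zero).hasFDerivAt)
    (fun p hp => ((c2 p (hsub hp)).differentiableAt one_ne_zero).hasFDerivAt)
    (hu ▸ cD.integrableOn_compact hK)]
  simp only [intervalIntegral.integral_of_le hab, intervalIntegral.integral_of_le hcd,
    ← integral_Icc_eq_integral_Ioc]
  refine (setIntegral_prod D (cD.integrableOn_compact hK)).symm.trans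
    (setIntegral_congr_fun hK.measurableSet fun p hp => ?_)
  have d0 := (hz p hp).differentiableAt
  have d1 := (hz p hp).deriv.differentiableAt
  have dΦ := (hΦ p hp).differentiableAt one_ne_zero
  have e1 := (der_fst ((c1 p hp).differentiableAt one_ne_zero)).unique
    ((der_fst dΦ).mul (Complex.reCLM.hasFDerivAt.comp_hasDerivAt p.1
      ((hol_fst d0).star.mul (hol_fst d1))))
  have e2 := (der_snd ((c2 p hp).differentiableAt one_ne_zero)).unique
    ((der_snd dΦ).mul (Complex.imCLM.hasFDerivAt.comp_hasDerivAt p.2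
      ((hol_snd d0).star.mul (hol_snd d1)))).neg
  simp only [D, e1, e2, Complex.sq_norm, Complex.normSq_apply]
  simp
  ring

/-- logarithmic polar coordinates around a point -/
theorem logpolar (f : ℂ → ℝ≥0∞) (c : ℂ) :
    ∫⁻ u, f u = ∫⁻ p in (univ : Set ℝ) ×ˢ Ioo (-π) π,
      ENNReal.ofReal (Real.exp p.1 ^ 2) * f (c + Complex.exp (cx p)) := by
  rw [← lintegral_add_left_eq_self f c, ← Complex.lintegral_comp_polarCoord_symm]
  let e : ℝ × ℝ → ℝ × ℝ := fun p => (Real.exp p.1, p.2)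
  let e' : ℝ × ℝ → ℝ × ℝ →L[ℝ] ℝ × ℝ := fun p =>
    (Matrix.toLin (.finTwoProd ℝ) (.finTwoProd ℝ) !![Real.exp p.1, 0; 0, 1]).toContinuousLinearMap
  have h1 : polarCoord.target = e '' ((univ : Set ℝ) ×ˢ Ioo (-π) π) := by
    ext ⟨r, t⟩
    simp only [polarCoord_target, mem_prod, mem_Ioi, mem_image, mem_univ, true_and, e, Prod.ext_iff]
    exact ⟨fun h => ⟨(Real.log r, t), h.2, Real.exp_log h.1, rfl⟩,
      fun ⟨p, h, h2, h3⟩ => ⟨h2 ▸ Real.exp_pos _, h3 ▸ h⟩⟩
  have h2 : ∀ p, HasFDerivAt e (e' p) p := fun p => by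
    have := ((Real.hasDerivAt_exp p.1).comp_hasFDerivAt p (hasFDerivAt_fst (𝕜 := ℝ))).prodMk
      (hasFDerivAt_snd (𝕜 := ℝ) (p := p))
    exact this.congr_fderiv (by ext <;> simp [e', Matrix.toLin_finTwoProd_apply])
  rw [h1, lintegral_image_eq_lintegral_abs_det_fderiv_mul volume
    (MeasurableSet.univ.prod measurableSet_Ioo) (fun p _ => (h2 p).hasFDerivWithinAt)
    (fun p _ q _ h => Prod.ext (Real.exp_injective (Prod.ext_iff.1 h).1)
      (by simpa [e] using (Prod.ext_iff.1 h).2))]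
  refine lintegral_congr fun p => ?_
  have h3 : (e' p).det = Real.exp p.1 := by
    simp [e', ContinuousLinearMap.det, LinearMap.det_toLin, Matrix.det_fin_two_of]
  have h4 : Complex.polarCoord.symm (e p) = Complex.exp (cx p) := by
    simp [e, cx, Complex.polarCoord_symm_apply, Complex.exp_add, Complex.exp_mul_I]
  rw [h3, h4, abs_of_pos (Real.exp_pos _), sq, ENNReal.ofReal_mul (Real.exp_pos _).le, mul_assoc]
  rfl

end Pool.Agent.Lib.MP_f225de_an.GR
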