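import Mathlib

set_option autoImplicit false

open Real MeasureTheory
open scoped Pointwise

namespace Pool.Agent.Lib.MP_f225de_an

/-- potential -/
noncomputable def Psi (u y : ℝ) : ℝ :=
  √(u ^ 2 + y ^ 2) * arcsin (u / √(u ^ 2 + y ^ 2)) - π / 2 * u

lemma Psi_zero (u : ℝ) : Psi u 0 = 0 := by
  unfold Psi
  have h : √(u ^ 2 + 0 ^ 2) = |u| := by simp [Real.sqrt_sq_eq_abs]
  rw [h]
  rcases lt_trichotomy u 0 with hu | hu | hu
  · rw [abs_of_neg hu, div_neg, div_self hu.ne, arcsin_neg_one]; ring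
  · simp [hu]
  · rw [abs_of_pos hu, div_self hu.ne', arcsin_one]; ring

lemma key_ineq (φ : ℝ) (h1 : -(π / 2) ≤ φ) (h2 : φ ≤ π / 2) :
    φ * sin φ + cos φ ≤ π / 2 := by
  wlog h : 0 ≤ φ generalizing φ
  · have := this (-φ) (by linarith) (by linarith) (by linarith)
    simpa using this
  have h3 : cos φ ≤ π / 2 - φ := by
    rw [← Real.sin_pi_div_two_sub]
    exact Real.sin_le (by linarith)
  have h4 : φ * sin φ ≤ φ := by
    have := Real.sin_le_one φ
    nlinarith
  linarith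

lemma Psi_eq (u y : ℝ) (hy : 0 < y) :
    Psi u y = √(u ^ 2 + y ^ 2) * arctan (u / y) - π / 2 * u := by
  unfold Psi
  rw [arctan_eq_arcsin]
  have : u / y / √(1 + (u / y) ^ 2) = u / √(u ^ 2 + y ^ 2) := by
    have h : √(u ^ 2 + y ^ 2) = y * √(1 + (u / y) ^ 2) := by
      rw [← Real.sqrt_sq hy.le, ← Real.sqrt_mul (sq_nonneg y), Real.sqrt_sq hy.le]
      congr 1
      field_simp
      ring
    rw [h, div_div]
  rw [this]

lemma Psi_anti (y : ℝ) (hy : 0 ≤ y) : Antitone (fun u => Psi u y) := by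
  rcases hy.eq_or_lt with rfl | hy
  · intro a b _
    simp [Psi_zero]
  have hf : (fun u => Psi u y) = fun u => √(u ^ 2 + y ^ 2) * arctan (u / y) - π / 2 * u :=
    funext fun u => Psi_eq u y hy
  rw [hf]
  have hd : ∀ u : ℝ, HasDerivAt (fun u => √(u ^ 2 + y ^ 2) * arctan (u / y) - π / 2 * u)
      ((2 * u) / (2 * √(u ^ 2 + y ^ 2)) * arctan (u / y) +
        √(u ^ 2 + y ^ 2) * (1 / (1 + (u / y) ^ 2) * (1 / y)) - π / 2 * 1) u := by
    intro u
    have hpos : u ^ 2 + y ^ 2 ≠ 0 := by positivity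
    have h1 : HasDerivAt (fun u : ℝ => u ^ 2 + y ^ 2) (2 * u) u := by
      simpa using (hasDerivAt_pow 2 u).add_const (y ^ 2)
    have h2 := h1.sqrt hpos
    have h3 : HasDerivAt (fun u : ℝ => u / y) (1 / y) u := (hasDerivAt_id u).div_const y
    have h4 := h3.arctan
    exact (h2.mul h4).sub ((hasDerivAt_id u).const_mul (π / 2))
  refine antitone_of_deriv_nonpos (fun u => (hd u).differentiableAt) (fun u => ?_)
  rw [(hd u).deriv]
  have hR : 0 < √(u ^ 2 + y ^ 2) := Real.sqrt_pos.mpr (by positivity)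
  have hR2 : √(u ^ 2 + y ^ 2) ^ 2 = u ^ 2 + y ^ 2 := Real.sq_sqrt (by positivity)
  have hk := key_ineq (arctan (u / y)) (neg_pi_div_two_lt_arctan _).le
    (arctan_lt_pi_div_two _).le
  have h : √(u ^ 2 + y ^ 2) = y * √(1 + (u / y) ^ 2) := by
    rw [← Real.sqrt_sq hy.le, ← Real.sqrt_mul (sq_nonneg y), Real.sqrt_sq hy.le]
    congr 1
    field_simp
    ring
  have hS : 0 < √(1 + (u / y) ^ 2) := Real.sqrt_pos.mpr (by positivity)
  have hS2 : √(1 + (u / y) ^ 2) ^ 2 = 1 + (u / y) ^ 2 := Real.sq_sqrt (by positivity)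
  rw [sin_arctan, cos_arctan] at hk
  have e1 : (2 * u) / (2 * √(u ^ 2 + y ^ 2)) = u / y / √(1 + (u / y) ^ 2) := by
    rw [h]; field_simp
  have e2 : √(u ^ 2 + y ^ 2) * (1 / (1 + (u / y) ^ 2) * (1 / y)) = 1 / √(1 + (u / y) ^ 2) := by
    rw [h]
    generalize √(1 + (u / y) ^ 2) = S at hS hS2
    rw [← hS2]
    field_simp
  rw [e1, e2]
  linarith

/-- potential of a point `z` with supporting centre `c` -/
noncomputable def Phi (c : ℝ) (z : ℂ) : ℝ := π / 2 * z.re + Psi (z.re - c) z.im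

lemma Phi_mono (z : ℂ) (hz : 0 ≤ z.im) {c d : ℝ} (h : c ≤ d) : Phi c z ≤ Phi d z := by
  unfold Phi
  have := Psi_anti z.im hz (show z.re - d ≤ z.re - c by linarith)
  simp only at this
  linarith

lemma Phi_real (c : ℝ) (z : ℂ) (hz : z.im = 0) : Phi c z = π / 2 * z.re := by
  unfold Phi
  rw [hz, Psi_zero, add_zero]

lemma polar_form (c : ℝ) (z : ℂ) (hz : 0 ≤ z.im) (R : ℝ) (hR : 0 < R)
    (h : (z.re - c) ^ 2 + z.im ^ 2 = R ^ 2) :
    z = c + R * Complex.I * Complex.exp (Complex.I * (-(arcsin ((z.re - c) / R)) : ℝ)) ∧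
      Phi c z = π / 2 * c + R * arcsin ((z.re - c) / R) := by
  have h1 : |(z.re - c) / R| ≤ 1 := by
    rw [abs_div, abs_of_pos hR, div_le_one hR]
    apply abs_le_of_sq_le_sq' _ hR.le |> abs_le.mpr
    nlinarith [sq_nonneg z.im]
  have hs : sin (arcsin ((z.re - c) / R)) = (z.re - c) / R :=
    sin_arcsin (abs_le.mp h1).1 (abs_le.mp h1).2
  have hc : cos (arcsin ((z.re - c) / R)) = z.im / R := by
    rw [cos_arcsin]
    have : 1 - ((z.re - c) / R) ^ 2 = (z.im / R) ^ 2 := by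
      field_simp
      linarith
    rw [this, Real.sqrt_sq (by positivity)]
  constructor
  · rw [mul_comm Complex.I (_ : ℂ), Complex.exp_mul_I]
    apply Complex.ext
    · simp only [Complex.add_re, Complex.ofReal_re, Complex.mul_re, Complex.I_re, Complex.I_im,
        Complex.ofReal_im, Complex.mul_im, ← Complex.ofReal_cos, ← Complex.ofReal_sin,
        Complex.add_im, Real.sin_neg, Real.cos_neg, hs, hc]
      field_simp
      ring
    · simp only [Complex.add_re, Complex.ofReal_re, Complex.mul_re, Complex.I_re, Complex.I_im,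
        Complex.ofReal_im, Complex.mul_im, ← Complex.ofReal_cos, ← Complex.ofReal_sin,
        Complex.add_im, Real.sin_neg, Real.cos_neg, hs, hc]
      field_simp
      ring
  · unfold Phi Psi
    rw [h, Real.sqrt_sq hR.le]
    ring

lemma chord_le (c : ℝ) (z w : ℂ) (hz : 0 ≤ z.im) (hw : 0 ≤ w.im) (hlt : z.re < w.re)
    (h : (z.re - c) ^ 2 + z.im ^ 2 = (w.re - c) ^ 2 + w.im ^ 2) :
    ‖z - w‖ ≤ Phi c w - Phi c z := by
  set R := √((z.re - c) ^ 2 + z.im ^ 2) with hRdef
  have hR2 : (z.re - c) ^ 2 + z.im ^ 2 = R ^ 2 := (Real.sq_sqrt (by positivity)).symm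
  have hR : 0 < R := by
    apply Real.sqrt_pos.mpr
    by_contra hc
    have h0 : (z.re - c) ^ 2 + z.im ^ 2 = 0 := le_antisymm (not_lt.mp hc) (by positivity)
    have h1 : z.re - c = 0 := by nlinarith [sq_nonneg (z.re - c), sq_nonneg z.im]
    have h2 : w.re - c = 0 := by nlinarith [sq_nonneg (w.re - c), sq_nonneg w.im]
    linarith
  obtain ⟨e1, p1⟩ := polar_form c z hz R hR hR2
  obtain ⟨e2, p2⟩ := polar_form c w hw R hR (h ▸ hR2)
  rw [p1, p2]
  set a := arcsin ((z.re - c) / R)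
  set b := arcsin ((w.re - c) / R)
  have hab : a ≤ b := by
    apply Real.monotone_arcsin
    gcongr
  have : z - w = R * Complex.I * Complex.exp (Complex.I * (-b : ℝ)) *
      (Complex.exp (Complex.I * ((b - a : ℝ) : ℂ)) - 1) := by
    have e3 : Complex.exp (Complex.I * (-a : ℝ)) =
        Complex.exp (Complex.I * (-b : ℝ)) * Complex.exp (Complex.I * ((b - a : ℝ) : ℂ)) := by
      rw [← Complex.exp_add]
      congr 1
      push_cast
      ring
    calc z - w = (c + R * Complex.I * Complex.exp (Complex.I * (-a : ℝ))) -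
        (c + R * Complex.I * Complex.exp (Complex.I * (-b : ℝ))) := by rw [← e1, ← e2]
      _ = _ := by rw [e3]; ring
  rw [this, norm_mul, norm_mul, norm_mul, Complex.norm_I, Complex.norm_exp_I_mul_ofReal,
    Complex.norm_real, Real.norm_of_nonneg hR.le]
  have := Real.norm_exp_I_mul_ofReal_sub_one_le (x := b - a)
  rw [Real.norm_of_nonneg (by linarith)] at this
  nlinarith

lemma two_point_lt (c d : ℝ) (z w : ℂ) (hz : 0 ≤ z.im) (hw : 0 ≤ w.im) (hlt : z.re < w.re)
    (h1 : ‖z - c‖ ≤ ‖w - c‖) (h2 : ‖w - d‖ ≤ ‖z - d‖) :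
    ‖z - w‖ ≤ Phi d w - Phi c z := by
  have sq : ∀ (v : ℂ) (t : ℝ), ‖v - t‖ ^ 2 = (v.re - t) ^ 2 + v.im ^ 2 := by
    intro v t
    rw [Complex.sq_norm, Complex.normSq_apply]
    simp
    ring
  have h1' : (z.re - c) ^ 2 + z.im ^ 2 ≤ (w.re - c) ^ 2 + w.im ^ 2 := by
    rw [← sq, ← sq]; gcongr
  have h2' : (w.re - d) ^ 2 + w.im ^ 2 ≤ (z.re - d) ^ 2 + z.im ^ 2 := by
    rw [← sq, ← sq]; gcongr
  have hpos : 0 < w.re - z.re := by linarith
  set e := (w.re ^ 2 + w.im ^ 2 - z.re ^ 2 - z.im ^ 2) / (2 * (w.re - z.re)) with he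
  have he' : e * (2 * (w.re - z.re)) = w.re ^ 2 + w.im ^ 2 - z.re ^ 2 - z.im ^ 2 := by
    rw [he]; field_simp
  have hce : c ≤ e := by
    rw [he, le_div_iff₀ (by positivity)]; nlinarith
  have hed : e ≤ d := by
    rw [he, div_le_iff₀ (by positivity)]; nlinarith
  have := chord_le e z w hz hw hlt (by nlinarith)
  have a1 := Phi_mono z hz hce
  have a2 := Phi_mono w hw hed
  linarith

lemma two_point (c d : ℝ) (z w : ℂ) (hz : 0 ≤ z.im) (hw : 0 ≤ w.im)
    (h1 : ‖z - c‖ ≤ ‖w - c‖) (h2 : ‖w - d‖ ≤ ‖z - d‖) :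
    ‖z - w‖ ≤ |Phi c z - Phi d w| := by
  rcases lt_trichotomy z.re w.re with h | h | h
  · have := two_point_lt c d z w hz hw h h1 h2
    rw [abs_sub_comm]
    exact this.trans (le_abs_self _)
  · have sq : ∀ (v : ℂ) (t : ℝ), ‖v - t‖ ^ 2 = (v.re - t) ^ 2 + v.im ^ 2 := by
      intro v t
      rw [Complex.sq_norm, Complex.normSq_apply]
      simp
      ring
    have h1' : (z.re - c) ^ 2 + z.im ^ 2 ≤ (w.re - c) ^ 2 + w.im ^ 2 := by
      rw [← sq, ← sq]; gcongr
    have h2' : (w.re - d) ^ 2 + w.im ^ 2 ≤ (z.re - d) ^ 2 + z.im ^ 2 := by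
      rw [← sq, ← sq]; gcongr
    rw [h] at h1' h2'
    have h3 : z.im = w.im := by
      have : z.im ^ 2 = w.im ^ 2 := by linarith
      exact (pow_left_inj₀ hz hw two_ne_zero).mp this
    have : z = w := Complex.ext h h3
    rw [this, sub_self, norm_zero]
    exact abs_nonneg _
  · have := two_point_lt d c w z hw hz h h2 h1
    rw [norm_sub_rev]
    exact this.trans (le_abs_self _)

/-- A set in the closed upper half plane with supporting discs centred on the real axis
has length at most `π / 2` times the measure of the shadow `K`. -/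
theorem measure_le_of_support (S : Set ℂ) (K : Set ℝ) (c : ℂ → ℝ)
    (hS : ∀ z ∈ S, 0 ≤ z.im)
    (h1 : ∀ z ∈ S, ∀ w ∈ S, ‖z - c z‖ ≤ ‖w - c z‖)
    (h2 : ∀ z ∈ S, ∀ x : ℝ, x ∉ K → ‖z - c z‖ ≤ ‖(x : ℂ) - c z‖)
    (h3 : ∀ x : ℝ, (x : ℂ) ∈ S → x ∈ K) :
    Measure.hausdorffMeasure (1 : ℝ) S ≤ ENNReal.ofReal (π / 2) * volume K := by
  classical
  let f : ℂ → ℝ := fun z => Phi (c z) z
  have hf : ∀ z ∈ S, ∀ w ∈ S, ‖z - w‖ ≤ |f z - f w| := fun z hz w hw =>
    two_point _ _ z w (hS z hz) (hS w hw) (h1 z hz w hw) (h1 w hw z hz)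
  have hinj : Set.InjOn f S := by
    intro z hz w hw h
    have := hf z hz w hw
    rw [h, sub_self, abs_zero] at this
    exact sub_eq_zero.mp (norm_le_zero_iff.mp this)
  let g : ℝ → ℂ := Function.invFunOn f S
  have hg : ∀ z ∈ S, g (f z) = z := fun z hz => hinj.leftInvOn_invFunOn hz
  have hlip : LipschitzOnWith 1 g (f '' S) := by
    apply LipschitzOnWith.of_dist_le_mul
    rintro _ ⟨z, hz, rfl⟩ _ ⟨w, hw, rfl⟩
    rw [hg z hz, hg w hw, dist_eq_norm, Real.dist_eq]
    simpa using hf z hz w hw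
  have himg : g '' (f '' S) = S := by
    rw [Set.image_image]
    exact (Set.image_congr hg).trans (Set.image_id' S)
  have hm := hlip.hausdorffMeasure_image_le (d := 1) zero_le_one
  rw [himg, hausdorffMeasure_real] at hm
  have hsub : f '' S ⊆ (fun x => π / 2 * x) '' K := by
    rintro _ ⟨z, hz, rfl⟩
    have hpi : π / 2 ≠ 0 := by positivity
    refine ⟨f z / (π / 2), ?_, by field_simp⟩
    by_contra hK
    set x := f z / (π / 2) with hx
    have := two_point (c z) x z x (hS z hz) (by simp) (h2 z hz x hK) (by simp)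
    rw [Phi_real x x (by simp)] at this
    have e : Phi (c z) z - π / 2 * (x : ℂ).re = 0 := by
      rw [Complex.ofReal_re, hx]
      change f z - _ = 0
      field_simp
      ring
    rw [e, abs_zero] at this
    have hzx : z = x := sub_eq_zero.mp (norm_le_zero_iff.mp this)
    exact hK (h3 x (hzx ▸ hz))
  have hvol : volume ((fun x => π / 2 * x) '' K) = ENNReal.ofReal (π / 2) * volume K := by
    have : (fun x => π / 2 * x) '' K = (π / 2) • K := by
      ext y; simp [Set.mem_smul_set]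
    rw [this, Measure.addHaar_smul]
    simp only [Module.finrank_self, pow_one]
    rw [abs_of_pos (by positivity)]
  calc Measure.hausdorffMeasure (1 : ℝ) S ≤ volume (f '' S) := by simpa using hm
    _ ≤ volume ((fun x => π / 2 * x) '' K) := measure_mono hsub
    _ = _ := hvol

end Pool.Agent.Lib.MP_f225de_an
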