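import Pool.Agent.Lib.MP_f225de_an.E6

set_option autoImplicit false

open MeasureTheory Set Polynomial ProbabilityTheory
open scoped ENNReal Real

namespace Pool.Agent.Lib.MP_f225de_an.E

lemma sq_image : (fun θ : ℝ => Real.sin (θ / 4) ^ 2) '' Ioo 0 (2 * π) = Ioo 0 1 := by
  have p := Real.pi_pos
  ext x
  constructor
  · rintro ⟨θ, h, rfl⟩
    have s := Real.sin_pos_of_pos_of_lt_pi (x := θ / 4) (by linarith [h.1]) (by linarith [h.2])
    have c := Real.cos_pos_of_mem_Ioo (x := θ / 4) ⟨by linarith [h.1], by linarith [h.2]⟩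
    exact ⟨by positivity, by nlinarith [Real.sin_sq_add_cos_sq (θ / 4)]⟩
  · intro h
    have s := Real.sqrt_pos.2 h.1
    have t : √x < 1 := (Real.sqrt_lt' one_pos).2 (by simpa using h.2)
    refine ⟨4 * Real.arcsin √x, ⟨by linarith [Real.arcsin_pos.2 s],
      by linarith [Real.arcsin_lt_pi_div_two.2 t]⟩, ?_⟩
    simp only
    rw [mul_div_cancel_left₀ _ (by norm_num), Real.sin_arcsin (by linarith) t.le, Real.sq_sqrt h.1.le]

lemma BB_beta {a : ℝ} (ha : 0 < a) :
    ∫⁻ θ in Ioc (0 : ℝ) (2 * π), ENNReal.ofReal (‖Complex.exp (θ * Complex.I) - 1‖ ^ (a - 1)) =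
      ENNReal.ofReal (2 * 4 ^ (a - 1) * beta (a / 2) (a / 2)) := by
  have p := Real.pi_pos
  have b := beta_pos (half_pos ha) (half_pos ha)
  have e := lintegral_betaPDF_eq_one (half_pos ha) (half_pos ha)
  rw [lintegral_betaPDF, ← sq_image, lintegral_image_eq_lintegral_abs_deriv_mul measurableSet_Ioo
    (f := fun θ : ℝ => Real.sin (θ / 4) ^ 2)
    (f' := fun θ => Real.sin (θ / 4) * Real.cos (θ / 4) / 2) (fun θ _ =>
      ((((hasDerivAt_id θ).div_const 4).sin.pow 2).congr_deriv (by simp; ring)).hasDerivWithinAt)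
    fun x hx y hy h => by
      have := Real.injOn_sin (x₁ := x / 4) ⟨by linarith [hx.1], by linarith [hx.2]⟩ (x₂ := y / 4)
        ⟨by linarith [hy.1], by linarith [hy.2]⟩ ((pow_left_inj₀
          (Real.sin_pos_of_pos_of_lt_pi (by linarith [hx.1]) (by linarith [hx.2])).le
          (Real.sin_pos_of_pos_of_lt_pi (by linarith [hy.1]) (by linarith [hy.2])).le two_ne_zero).1 h)
      linarith] at e
  rw [← mul_one (ENNReal.ofReal (2 * _ * _)), ← e, ← lintegral_const_mul' _ _ ENNReal.ofReal_ne_top,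
    ← restrict_Ioo_eq_restrict_Ioc]
  refine setLIntegral_congr_fun measurableSet_Ioo fun θ h => ?_
  have s := Real.sin_pos_of_pos_of_lt_pi (x := θ / 4) (by linarith [h.1]) (by linarith [h.2])
  have c := Real.cos_pos_of_mem_Ioo (x := θ / 4) ⟨by linarith [h.1], by linarith [h.2]⟩
  rw [← ENNReal.ofReal_mul (abs_nonneg _), ← ENNReal.ofReal_mul (by positivity), mul_comm (θ : ℂ),
    Complex.norm_exp_I_mul_ofReal_sub_one, show θ / 2 = 2 * (θ / 4) by ring, Real.sin_two_mul,
    ← Real.cos_sq', Real.norm_of_nonneg (by positivity), abs_of_pos (by positivity),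
    ← Real.rpow_natCast, ← Real.rpow_natCast, ← Real.rpow_mul s.le, ← Real.rpow_mul c.le,
    show 2 * (2 * Real.sin (θ / 4) * Real.cos (θ / 4)) = 4 * Real.sin (θ / 4) * Real.cos (θ / 4) by ring,
    Real.mul_rpow (by positivity) c.le, Real.mul_rpow (by positivity) s.le,
    show ((2 : ℕ) : ℝ) * (a / 2 - 1) = a - 1 - 1 by push_cast; ring, Real.rpow_sub_one s.ne' (a - 1),
    Real.rpow_sub_one c.ne' (a - 1)]
  congr 1
  field_simp

lemma len_star {n : ℕ} (hn : 1 ≤ n) : Len (X ^ n - 1) = BB n := by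
  rw [BB_eq n (c := -1) (by simp) 0, zero_add]
  have hfin : ∀ᵐ θ : ℝ, Complex.exp (θ * Complex.I) ≠ -1 := by
    have : {θ : ℝ | Complex.exp (θ * Complex.I) = -1}.Countable := by
      apply ((Complex.countable_preimage_exp (s := {-1})).mpr
        (countable_singleton _)).preimage_of_injOn (f := fun θ : ℝ => (θ : ℂ) * Complex.I)
      intro x _ y _ h
      exact_mod_cast mul_right_cancel₀ Complex.I_ne_zero h
    simpa [ae_iff] using this.measure_zero volume
  refine lintegral_congr_ae (ae_restrict_of_ae ?_)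
  filter_upwards [hfin] with θ hθ
  set u := Complex.exp (θ * Complex.I)
  have n0 : (0 : ℝ) < n := by exact_mod_cast hn
  have hm := sub_monic hn (monic_X_pow_sub_C (1 : ℂ) (by omega : n ≠ 0)) natDegree_X_pow_sub_C u
  rw [C_1] at hm
  obtain ⟨r, hr⟩ := exists_prod hm.1 hm.2
  have hpos : 0 < ‖u - -1‖ := norm_pos_iff.mpr (sub_ne_zero.mpr hθ)
  have key : ∀ j, ‖(X ^ n - 1 - C u).derivative.eval (r j)‖ₑ⁻¹ =
      ENNReal.ofReal (‖u - -1‖ ^ ((1 : ℝ) / n - 1) / n) := fun j => by
    have h2 := congrArg (eval (r j)) hr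
    rw [eval_prod, Finset.prod_eq_zero (Finset.mem_univ j) (by simp)] at h2
    have h3 : ‖r j‖ ^ n = ‖u - -1‖ := by
      rw [← norm_pow]
      congr 1
      simp at h2
      linear_combination h2
    have h4 : 0 < ‖r j‖ := (norm_nonneg _).lt_of_ne fun z => by
      rw [← z, zero_pow (by omega)] at h3
      exact hpos.ne h3
    rw [← h3, ← Real.rpow_natCast, ← Real.rpow_mul h4.le, ← ofReal_norm,
      ← ENNReal.ofReal_inv_of_pos (by simp [derivative_X_pow, norm_pos_iff.1 h4]; omega)]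
    congr 1
    obtain ⟨m, rfl⟩ : ∃ m, n = m + 1 := ⟨n - 1, by omega⟩
    rw [show ((m + 1 : ℕ) : ℝ) * (1 / (m + 1 : ℕ) - 1) = -(m : ℝ) by push_cast; field_simp; ring,
      Real.rpow_neg h4.le, Real.rpow_natCast]
    simp only [derivative_sub, derivative_X_pow, derivative_one, derivative_C, sub_zero, eval_mul,
      eval_C, eval_pow, eval_X, norm_mul, norm_pow, Complex.norm_natCast, Nat.add_sub_cancel]
    field_simp
  rw [hr, ff_prod, ← hr, Finset.sum_congr rfl fun j _ => key j, Finset.sum_const, Finset.card_univ,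
    Fintype.card_fin, nsmul_eq_mul, ← ENNReal.ofReal_natCast, ← ENNReal.ofReal_mul n0.le,
    mul_div_cancel₀ _ n0.ne']

theorem star_val {n : ℕ} (hn : 1 ≤ n) :
    Measure.hausdorffMeasure (1 : ℝ) {z : ℂ | ‖z ^ n - 1‖ = 1} = ENNReal.ofReal
      (2 ^ (2 / (n : ℝ) - 1) * Real.Gamma (1 / (2 * n)) ^ 2 / Real.Gamma (1 / n)) := by
  have n0 : (0 : ℝ) < n := by exact_mod_cast hn
  have h := haus_le hn (monic_X_pow_sub_C (1 : ℂ) (by omega : n ≠ 0)) natDegree_X_pow_sub_C
  rw [C_1, len_star hn] at h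
  simp only [eval_sub, eval_pow, eval_X, eval_one] at h
  rw [le_antisymm h (star_le hn), BB, BB_beta (by positivity), beta, add_halves,
    show (4 : ℝ) = 2 ^ (2 : ℝ) by norm_num, ← Real.rpow_mul zero_le_two, div_div, mul_comm (n : ℝ),
    show 2 / (n : ℝ) - 1 = 2 * (1 / n - 1) + 1 by ring, Real.rpow_add_one two_ne_zero]
  congr 1
  ring

end Pool.Agent.Lib.MP_f225de_an.E
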