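import Mathlib

set_option autoImplicit false

open Real MeasureTheory Polynomial

namespace Pool.Agent.Lib.MP_f225de_an

/-- points of a closed set of large measure spread out at least like given numbers -/
lemma exists_spread (K : Set ℝ) (hK : IsCompact K) :
    ∃ x : ℝ → ℝ, (∀ t, 0 < t → t ≤ (volume K).toReal → x t ∈ K) ∧
      ∀ s t, 0 < s → s ≤ (volume K).toReal → 0 < t → t ≤ (volume K).toReal →
        |s - t| ≤ |x s - x t| := by
  classical
  let m : ℝ → ℝ := fun x => (volume (K ∩ Set.Iic x)).toReal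
  have hfin : ∀ x, volume (K ∩ Set.Iic x) ≠ ⊤ := fun x =>
    ((measure_mono Set.inter_subset_left).trans_lt hK.measure_lt_top).ne
  have hmono : Monotone m := fun a b hab =>
    ENNReal.toReal_mono (hfin b) (measure_mono (Set.inter_subset_inter_right _ (Set.Iic_subset_Iic.mpr hab)))
  have hlip : ∀ a b, a ≤ b → m b ≤ m a + (b - a) := by
    intro a b hab
    have h1 : K ∩ Set.Iic b ⊆ (K ∩ Set.Iic a) ∪ Set.Ioc a b := by
      rintro y ⟨hy, hy2⟩
      rcases le_or_gt y a with h | h
      · exact Or.inl ⟨hy, h⟩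
      · exact Or.inr ⟨h, hy2⟩
    have h2 := (measure_mono (μ := volume) h1).trans (measure_union_le _ _)
    rw [Real.volume_Ioc] at h2
    have h3 := ENNReal.toReal_mono (ENNReal.add_ne_top.mpr ⟨hfin a, ENNReal.ofReal_ne_top⟩) h2
    rw [ENNReal.toReal_add (hfin a) ENNReal.ofReal_ne_top,
      ENNReal.toReal_ofReal (by linarith)] at h3
    exact h3
  have hl : ∀ a b, |m a - m b| ≤ |a - b| := by
    intro a b
    wlog h : a ≤ b generalizing a b
    · rw [abs_sub_comm, abs_sub_comm a]
      exact this b a (not_le.mp h).le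
    have := hlip a b h
    have := hmono h
    rw [abs_sub_comm, abs_sub_comm a, abs_of_nonneg (by linarith), abs_of_nonneg (by linarith)]
    linarith
  have hcont : Continuous m := by
    have : LipschitzWith 1 m := LipschitzWith.of_dist_le_mul fun a b => by
      simpa [Real.dist_eq] using hl a b
    exact this.continuous
  obtain ⟨M, hM⟩ := hK.isBounded.subset_closedBall 0
  have hM' : ∀ y ∈ K, -M ≤ y ∧ y ≤ M := fun y hy => by
    have := hM hy
    rw [Metric.mem_closedBall, Real.dist_eq, sub_zero] at this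
    exact abs_le.mp this
  have hlow : ∀ a, a < -M → m a = 0 := by
    intro a ha
    have : K ∩ Set.Iic a = ∅ := by
      ext y
      simp only [Set.mem_inter_iff, Set.mem_Iic, Set.mem_empty_iff_false, iff_false, not_and, not_le]
      intro hy
      linarith [(hM' y hy).1]
    simp [m, this]
  have hhigh : m M = (volume K).toReal := by
    have : K ∩ Set.Iic M = K := Set.inter_eq_left.mpr fun y hy => (hM' y hy).2
    simp [m, this]
  have main : ∀ t, 0 < t → t ≤ (volume K).toReal → ∃ y ∈ K, m y = t := by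
    intro t ht ht2
    let A := {y | t ≤ m y}
    have hAc : IsClosed A := isClosed_le continuous_const hcont
    have hAn : A.Nonempty := ⟨M, by simp [A, hhigh, ht2]⟩
    have hAb : BddBelow A := ⟨-M, fun y hy => by
      by_contra hc
      have := hlow y (not_le.mp hc)
      have hy' : t ≤ m y := hy
      linarith⟩
    have hmem : sInf A ∈ A := hAc.csInf_mem hAn hAb
    have hlt : ∀ y, y < sInf A → m y < t := fun y hy => by
      by_contra hc
      exact absurd (csInf_le hAb (show y ∈ A from not_lt.mp hc)) (not_le.mpr hy)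
    refine ⟨sInf A, ?_, le_antisymm ?_ hmem⟩
    · by_contra hc
      obtain ⟨ε, hε, hb⟩ := Metric.isOpen_iff.mp hK.isClosed.isOpen_compl _ hc
      have h1 := hlt (sInf A - ε / 2) (by linarith)
      have : K ∩ Set.Iic (sInf A - ε / 2) = K ∩ Set.Iic (sInf A) := by
        ext y
        simp only [Set.mem_inter_iff, Set.mem_Iic]
        refine ⟨fun h => ⟨h.1, by linarith [h.2]⟩, fun h => ⟨h.1, ?_⟩⟩
        by_contra hc2
        refine hb (a := y) ?_ h.1
        rw [Metric.mem_ball, Real.dist_eq, abs_lt]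
        constructor <;> linarith [h.2, not_le.mp hc2]
      have h2 : m (sInf A - ε / 2) = m (sInf A) := by simp only [m, this]
      have h3 : t ≤ m (sInf A) := hmem
      linarith
    · apply le_of_forall_pos_le_add
      intro ε hε
      have h1 := hlt (sInf A - ε) (by linarith)
      have h2 := hlip (sInf A - ε) (sInf A) (by linarith)
      linarith
  choose! x hx1 hx2 using main
  refine ⟨x, hx1, fun s t hs hs2 ht ht2 => ?_⟩
  have := hl (x s) (x t)
  rwa [hx2 s hs hs2, hx2 t ht ht2] at this

open Polynomial.Chebyshev in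
lemma sum_inv_nodes (n : ℕ) :
    ∑ i ∈ Finset.range (n + 1),
      1 / ∏ j ∈ (Finset.range (n + 1)).erase i, |node n i - node n j| = 2 ^ (n - 1) := by
  have hdeg : (T ℝ n).degree < (Finset.range (n + 1)).card := by
    rw [Finset.card_range, degree_T]
    norm_cast
    simp
  have h := Lagrange.coeff_eq_sum (strictAntiOn_node n).injOn hdeg
  have h2 : (T ℝ n).coeff ((Finset.range (n + 1)).card - 1) = 2 ^ (n - 1) := by
    rw [Finset.card_range, Nat.add_sub_cancel]
    trans (T ℝ n).leadingCoeff
    · simp [leadingCoeff]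
    · simp
  rw [← h2, h]
  refine Finset.sum_congr rfl fun i hi => ?_
  have hi' : i ≤ n := Nat.lt_succ_iff.mp (Finset.mem_range.mp hi)
  rw [eval_T_real_node (Finset.mem_Iic.mpr hi'), ← Finset.abs_prod]
  have hpos := zero_lt_prod_node_sub_node hi'
  set P := ∏ j ∈ (Finset.range (n + 1)).erase i, (node n i - node n j)
  rcases neg_one_pow_eq_or ℝ i with h1 | h1
  · rw [h1] at hpos ⊢
    rw [abs_of_pos (by linarith)]
  · rw [h1] at hpos ⊢
    rw [abs_of_neg (by linarith), div_neg, neg_div]

lemma isCompact_real_sublevel (p : ℂ[X]) (hp : p.Monic) (hn : 1 ≤ p.natDegree) :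
    IsCompact {x : ℝ | ‖p.eval (x : ℂ)‖ ≤ 1} := by
  have hdeg : 0 < p.degree := natDegree_pos_iff_degree_pos.mp hn
  have ht := Polynomial.tendsto_norm_atTop p hdeg (l := Filter.cocompact ℝ)
    (z := fun x : ℝ => (x : ℂ)) (by simpa only [Complex.norm_real] using (tendsto_norm_cocompact_atTop (E := ℝ)))
  have hcl : IsClosed {x : ℝ | ‖p.eval (x : ℂ)‖ ≤ 1} :=
    isClosed_le (p.continuous.comp Complex.continuous_ofReal).norm continuous_const
  have := ht.eventually (Filter.eventually_gt_atTop 1)
  obtain ⟨C, hC, hC2⟩ := Filter.mem_cocompact.mp this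
  refine hC.of_isClosed_subset hcl fun x hx => ?_
  by_contra hc
  have h1 : 1 < ‖p.eval (x : ℂ)‖ := hC2 hc
  exact absurd hx (not_le.mpr h1)

open Polynomial.Chebyshev in
theorem polya (p : ℂ[X]) (hp : p.Monic) (hn : 1 ≤ p.natDegree) :
    volume {x : ℝ | ‖p.eval (x : ℂ)‖ ≤ 1} ≤
      ENNReal.ofReal (4 * (2 : ℝ) ^ (-(1 : ℝ) / p.natDegree)) := by
  set K := {x : ℝ | ‖p.eval (x : ℂ)‖ ≤ 1}
  set n := p.natDegree with hndef
  have hK : IsCompact K := isCompact_real_sublevel p hp hn
  rw [← ENNReal.ofReal_toReal hK.measure_lt_top.ne]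
  apply ENNReal.ofReal_le_ofReal
  set L := (volume K).toReal
  by_contra hc
  obtain ⟨L', h1, h2⟩ := exists_between (not_le.mp hc)
  have hL' : 0 < L' := lt_trans (by positivity) h1
  obtain ⟨x, hx1, hx2⟩ := exists_spread K hK
  let t : ℕ → ℝ := fun i => L - L' + L' / 2 * (1 + node n i)
  have ht1 : ∀ i, 0 < t i := fun i => by
    have := (node_mem_Icc (n := n) (i := i)).1
    have : 0 ≤ L' / 2 * (1 + node n i) := mul_nonneg (by positivity) (by linarith)
    simp only [t]; linarith
  have ht2 : ∀ i, t i ≤ L := fun i => by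
    have := (node_mem_Icc (n := n) (i := i)).2
    simp only [t]; nlinarith
  let v : ℕ → ℂ := fun i => (x (t i) : ℂ)
  have hv : ∀ i j, L' / 2 * |node n i - node n j| ≤ ‖v i - v j‖ := by
    intro i j
    have := hx2 (t i) (t j) (ht1 i) (ht2 i) (ht1 j) (ht2 j)
    have e : t i - t j = L' / 2 * (node n i - node n j) := by simp only [t]; ring
    rw [e, abs_mul, abs_of_pos (by positivity : 0 < L' / 2)] at this
    simp only [v]
    rw [← Complex.ofReal_sub, Complex.norm_real, Real.norm_eq_abs]
    exact this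
  have hne : ∀ i ∈ Finset.range (n + 1), ∀ j ∈ (Finset.range (n + 1)).erase i,
      0 < |node n i - node n j| := by
    intro i hi j hj
    rw [abs_pos, sub_ne_zero]
    intro h
    exact (Finset.mem_erase.mp hj).1
      ((strictAntiOn_node n).injOn (Finset.mem_coe.mpr hi)
        (Finset.mem_coe.mpr (Finset.mem_erase.mp hj).2) h).symm
  have hinj : Set.InjOn v (Finset.range (n + 1) : Finset ℕ) := by
    intro i hi j hj h
    by_contra hij
    have h3 := hne i hi j (Finset.mem_erase.mpr ⟨Ne.symm hij, hj⟩)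
    have h4 := hv i j
    rw [h, sub_self, norm_zero] at h4
    have : 0 < L' / 2 * |node n i - node n j| := by positivity
    linarith
  have hdeg : p.degree < (Finset.range (n + 1)).card := by
    rw [Finset.card_range, degree_eq_natDegree hp.ne_zero]
    norm_cast
    exact Nat.lt_succ_self _
  have h := Lagrange.coeff_eq_sum hinj hdeg
  rw [Finset.card_range, Nat.add_sub_cancel, hp.coeff_natDegree] at h
  have h5 : (1 : ℝ) ≤ ∑ i ∈ Finset.range (n + 1),
      1 / ((L' / 2) ^ n * ∏ j ∈ (Finset.range (n + 1)).erase i, |node n i - node n j|) := by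
    have h0 := congrArg norm h
    rw [norm_one] at h0
    refine h0.le.trans ((norm_sum_le _ _).trans (Finset.sum_le_sum fun i hi => ?_))
    rw [norm_div, norm_prod]
    have hcard : ((Finset.range (n + 1)).erase i).card = n := by
      rw [Finset.card_erase_of_mem hi, Finset.card_range, Nat.add_sub_cancel]
    have hprod : (L' / 2) ^ n * ∏ j ∈ (Finset.range (n + 1)).erase i, |node n i - node n j| =
        ∏ j ∈ (Finset.range (n + 1)).erase i, (L' / 2 * |node n i - node n j|) := by
      rw [Finset.prod_mul_distrib, Finset.prod_const, hcard]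
    rw [hprod]
    apply div_le_div₀ zero_le_one (hx1 (t i) (ht1 i) (ht2 i))
    · exact Finset.prod_pos fun j hj => mul_pos (by positivity) (hne i hi j hj)
    · exact Finset.prod_le_prod (fun j _ => by positivity) fun j _ => hv i j
  have h6 : ∑ i ∈ Finset.range (n + 1),
      1 / ((L' / 2) ^ n * ∏ j ∈ (Finset.range (n + 1)).erase i, |node n i - node n j|) =
      2 ^ (n - 1) / (L' / 2) ^ n := by
    rw [← sum_inv_nodes n, Finset.sum_div]
    refine Finset.sum_congr rfl fun i _ => ?_
    rw [div_div, mul_comm]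
  rw [h6, le_div_iff₀ (by positivity), one_mul] at h5
  have h7 : (4 * (2 : ℝ) ^ (-(1 : ℝ) / n) / 2) ^ n < (L' / 2) ^ n :=
    pow_lt_pow_left₀ (by linarith) (by positivity) (by omega)
  have h8 : (4 * (2 : ℝ) ^ (-(1 : ℝ) / n) / 2) ^ n = 2 ^ (n - 1) := by
    have hn' : (n : ℝ) ≠ 0 := by positivity
    rw [show 4 * (2 : ℝ) ^ (-(1 : ℝ) / n) / 2 = 2 * (2 : ℝ) ^ (-(1 : ℝ) / n) by ring, mul_pow,
      ← Real.rpow_natCast ((2 : ℝ) ^ (-(1 : ℝ) / n)), ← Real.rpow_mul (by norm_num),
      div_mul_cancel₀ _ hn', Real.rpow_neg_one]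
    obtain ⟨k, hk⟩ : ∃ k, n = k + 1 := ⟨n - 1, by omega⟩
    rw [hk, Nat.add_sub_cancel, pow_succ]
    field_simp
  linarith

end Pool.Agent.Lib.MP_f225de_an
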