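import Pool.Agent.Lib.MP_f225de_an.Geo
import Pool.Agent.Lib.MP_f225de_an.Polya

set_option autoImplicit false

open Real MeasureTheory Polynomial

namespace Pool.Agent.Lib.MP_f225de_an

lemma amgm {ι : Type*} (s : Finset ι) (f : ι → ℝ) (hf : ∀ i ∈ s, 0 ≤ f i)
    (h : 1 ≤ ∏ i ∈ s, f i) : (s.card : ℝ) ≤ ∑ i ∈ s, f i := by
  have hpos : ∀ i ∈ s, 0 < f i := by
    intro i hi
    refine (hf i hi).lt_of_ne fun h0 => ?_
    rw [Finset.prod_eq_zero hi h0.symm] at h
    linarith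
  have h1 : 0 ≤ ∑ i ∈ s, Real.log (f i) := by
    rw [← Real.log_prod (fun i hi => (hpos i hi).ne')]
    exact Real.log_nonneg h
  have h2 : ∑ i ∈ s, Real.log (f i) ≤ ∑ i ∈ s, (f i - 1) :=
    Finset.sum_le_sum fun i hi => Real.log_le_sub_one_of_pos (hpos i hi)
  rw [Finset.sum_sub_distrib] at h2
  simp only [Finset.sum_const, nsmul_eq_mul, mul_one] at h2
  linarith

/-- supporting disc with centre in the convex hull of the zeros -/
lemma exists_support {n : ℕ} (hn : 1 ≤ n) (a : Fin n → ℂ) (ha : ∀ i, (a i).im ≤ 0) (z : ℂ)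
    (hz : ∏ i, ‖z - a i‖ = 1) :
    ∃ c : ℂ, c.im ≤ 0 ∧ ∀ w : ℂ, 1 ≤ ∏ i, ‖w - a i‖ → ‖z - c‖ ≤ ‖w - c‖ := by
  have hne : ∀ i, ‖z - a i‖ ≠ 0 := by
    intro i h0
    rw [Finset.prod_eq_zero (Finset.mem_univ i) h0] at hz
    exact zero_ne_one hz
  let ω : Fin n → ℝ := fun i => 1 / ‖z - a i‖ ^ 2
  have hω : ∀ i, 0 < ω i := fun i => by
    have := (norm_nonneg (z - a i)).lt_of_ne (hne i).symm
    simp only [ω]; positivity
  let W := ∑ i, ω i
  have hW : 0 < W := Finset.sum_pos (fun i _ => hω i) ⟨⟨0, hn⟩, Finset.mem_univ _⟩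
  let X := ∑ i, ω i * (a i).re
  let Y := ∑ i, ω i * (a i).im
  have hY : Y ≤ 0 := Finset.sum_nonpos fun i _ => mul_nonpos_of_nonneg_of_nonpos (hω i).le (ha i)
  refine ⟨⟨X / W, Y / W⟩, div_nonpos_of_nonpos_of_nonneg hY hW.le, fun w hw => ?_⟩
  have sq : ∀ v u : ℂ, ‖v - u‖ ^ 2 = (v.re - u.re) ^ 2 + (v.im - u.im) ^ 2 := by
    intro v u
    rw [Complex.sq_norm, Complex.normSq_apply]
    simp
    ring
  have h1 : (n : ℝ) ≤ ∑ i, ω i * ‖w - a i‖ ^ 2 := by
    have := amgm Finset.univ (fun i => ω i * ‖w - a i‖ ^ 2)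
      (fun i _ => mul_nonneg (hω i).le (sq_nonneg _)) (by
        rw [Finset.prod_mul_distrib, Finset.prod_pow]
        simp only [ω]
        rw [Finset.prod_div_distrib, Finset.prod_pow, hz]
        simp only [Finset.prod_const_one, one_pow, div_one, one_mul]
        exact one_le_pow₀ hw)
    simpa using this
  have h2 : ∑ i, ω i * ‖z - a i‖ ^ 2 = n := by
    have : ∀ i, ω i * ‖z - a i‖ ^ 2 = 1 := fun i => by
      simp only [ω]; field_simp [hne i]
    simp [this]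
  have h3 : ∑ i, ω i * ‖w - a i‖ ^ 2 - ∑ i, ω i * ‖z - a i‖ ^ 2 =
      W * (w.re ^ 2 + w.im ^ 2 - z.re ^ 2 - z.im ^ 2) - 2 * (w.re - z.re) * X
        - 2 * (w.im - z.im) * Y := by
    simp only [W, X, Y, Finset.sum_mul, Finset.mul_sum, ← Finset.sum_sub_distrib]
    refine Finset.sum_congr rfl fun i _ => ?_
    rw [sq, sq]
    ring
  have h4 : ‖z - ⟨X / W, Y / W⟩‖ ^ 2 ≤ ‖w - ⟨X / W, Y / W⟩‖ ^ 2 := by
    rw [sq, sq]
    simp only
    have : W * (((w.re - X / W) ^ 2 + (w.im - Y / W) ^ 2) -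
        ((z.re - X / W) ^ 2 + (z.im - Y / W) ^ 2)) =
        W * (w.re ^ 2 + w.im ^ 2 - z.re ^ 2 - z.im ^ 2) - 2 * (w.re - z.re) * X
        - 2 * (w.im - z.im) * Y := by
      field_simp
      ring
    have h5 : 0 ≤ W * (((w.re - X / W) ^ 2 + (w.im - Y / W) ^ 2) -
        ((z.re - X / W) ^ 2 + (z.im - Y / W) ^ 2)) := by linarith
    have := nonneg_of_mul_nonneg_right h5 hW
    linarith
  exact (pow_le_pow_iff_left₀ (norm_nonneg _) (norm_nonneg _) two_ne_zero).mp h4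

/-- move the centre to the real axis -/
lemma exists_real_centre (z c : ℂ) (hz : 0 ≤ z.im) (hc : c.im ≤ 0) :
    ∃ d : ℝ, ∀ w : ℂ, ‖z - c‖ ≤ ‖w - c‖ → ‖z - d‖ ≤ ‖w - d‖ := by
  rcases hz.eq_or_lt with h0 | hpos
  · refine ⟨z.re, fun w _ => ?_⟩
    have : z - z.re = 0 := by
      apply Complex.ext <;> simp [← h0]
    rw [this, norm_zero]
    exact norm_nonneg _
  · set t := z.im / (z.im - c.im) with ht
    have hden : 0 < z.im - c.im := by linarith
    have ht0 : 0 ≤ t := by positivity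
    have ht1 : t ≤ 1 := by rw [ht, div_le_one hden]; linarith
    refine ⟨z.re + t * (c.re - z.re), fun w hw => ?_⟩
    have e : ((z.re + t * (c.re - z.re) : ℝ) : ℂ) = z + t * (c - z) := by
      apply Complex.ext
      · simp
      · simp only [Complex.ofReal_im, Complex.add_im, Complex.mul_im, Complex.ofReal_re,
          Complex.sub_im, zero_mul, add_zero]
        rw [ht]
        field_simp
        ring
    rw [e]
    have e1 : ‖z - (z + t * (c - z))‖ = t * ‖z - c‖ := by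
      rw [show z - (z + t * (c - z)) = t * (z - c) by ring, norm_mul, Complex.norm_real,
        Real.norm_of_nonneg ht0]
    have e2 : ‖(z + t * (c - z)) - c‖ = (1 - t) * ‖z - c‖ := by
      rw [show (z + t * (c - z)) - c = ((1 - t : ℝ) : ℂ) * (z - c) by push_cast; ring, norm_mul,
        Complex.norm_real, Real.norm_of_nonneg (by linarith)]
    have e3 : ‖w - c‖ ≤ ‖w - (z + t * (c - z))‖ + ‖(z + t * (c - z)) - c‖ := by
      have := norm_add_le (w - (z + t * (c - z))) ((z + t * (c - z)) - c)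
      rwa [sub_add_sub_cancel] at this
    rw [e1]
    rw [e2] at e3
    linarith

lemma exists_roots (p : ℂ[X]) (hp : p.Monic) :
    ∃ a : Fin p.natDegree → ℂ, (∀ i, p.IsRoot (a i)) ∧ ∀ z, p.eval z = ∏ i, (z - a i) := by
  have hs : p.Splits := IsAlgClosed.splits p
  have hcard : p.roots.card = p.natDegree := hs.natDegree_eq_card_roots.symm
  have hlen : p.roots.toList.length = p.natDegree := by rw [Multiset.length_toList, hcard]
  refine ⟨fun i => p.roots.toList.get (i.cast hlen.symm), fun i => ?_, fun z => ?_⟩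
  · apply isRoot_of_mem_roots
    rw [← Multiset.mem_toList]
    exact List.get_mem _ _
  · rw [hs.eval_eq_prod_roots_of_monic hp]
    conv_lhs => rw [← Multiset.coe_toList p.roots]
    rw [Multiset.map_coe, Multiset.prod_coe]
    rw [← Fin.prod_univ_fun_getElem]
    exact (Fintype.prod_equiv (finCongr hlen.symm) _ _ (fun i => by simp)).symm

theorem upper_half (p : ℂ[X]) (hp : p.Monic) (hn : 1 ≤ p.natDegree)
    (h : ∀ a, p.IsRoot a → a.im ≤ 0) :
    Measure.hausdorffMeasure (1 : ℝ) {z : ℂ | ‖p.eval z‖ = 1 ∧ 0 ≤ z.im} ≤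
      ENNReal.ofReal (2 * π * (2 : ℝ) ^ (-(1 : ℝ) / p.natDegree)) := by
  obtain ⟨a, ha1, ha2⟩ := exists_roots p hp
  have hnorm : ∀ z, ‖p.eval z‖ = ∏ i, ‖z - a i‖ := fun z => by rw [ha2, norm_prod]
  have main : ∀ z : ℂ, ‖p.eval z‖ = 1 ∧ 0 ≤ z.im →
      ∃ d : ℝ, ∀ w : ℂ, 1 ≤ ‖p.eval w‖ → ‖z - d‖ ≤ ‖w - d‖ := by
    intro z hz
    obtain ⟨c, hc1, hc2⟩ := exists_support hn a (fun i => h _ (ha1 i)) z (hnorm z ▸ hz.1)
    obtain ⟨d, hd⟩ := exists_real_centre z c hz.2 hc1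
    exact ⟨d, fun w hw => hd w (hc2 w (hnorm w ▸ hw))⟩
  choose! d hd using main
  have := measure_le_of_support {z : ℂ | ‖p.eval z‖ = 1 ∧ 0 ≤ z.im}
    {x : ℝ | ‖p.eval (x : ℂ)‖ ≤ 1} d (fun z hz => hz.2)
    (fun z hz w hw => hd z hz w hw.1.ge)
    (fun z hz x hx => hd z hz x (not_le.mp hx).le)
    (fun x hx => hx.1.le)
  refine this.trans ?_
  calc ENNReal.ofReal (π / 2) * volume {x : ℝ | ‖p.eval (x : ℂ)‖ ≤ 1}
      ≤ ENNReal.ofReal (π / 2) * ENNReal.ofReal (4 * (2 : ℝ) ^ (-(1 : ℝ) / p.natDegree)) := by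
        gcongr
        exact polya p hp hn
    _ = _ := by
        rw [← ENNReal.ofReal_mul (by positivity)]
        congr 1
        ring

theorem half_plane (p : ℂ[X]) (hp : p.Monic) (hn : 1 ≤ p.natDegree) (u : ℂ) (hu : u ≠ 0) (t : ℝ)
    (h : ∀ a, p.IsRoot a → (u * a).im ≤ t) :
    Measure.hausdorffMeasure (1 : ℝ) {z : ℂ | ‖p.eval z‖ = 1 ∧ t ≤ (u * z).im} ≤
      ENNReal.ofReal (2 * π * (2 : ℝ) ^ (-(1 : ℝ) / p.natDegree)) := by
  obtain ⟨a, ha1, ha2⟩ := exists_roots p hp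
  have hu' : 0 < ‖u‖ := norm_pos_iff.mpr hu
  let f : ℂ → ℂ := fun z => ((‖u‖⁻¹ : ℝ) : ℂ) * (u * z - t * Complex.I)
  have hfn : ∀ z w, ‖f z - f w‖ = ‖z - w‖ := by
    intro z w
    have : f z - f w = ((‖u‖⁻¹ : ℝ) : ℂ) * (u * (z - w)) := by simp only [f]; ring
    rw [this, norm_mul, norm_mul, Complex.norm_real, Real.norm_of_nonneg (by positivity)]
    field_simp
  have hf : Isometry f := Isometry.of_dist_eq fun z w => by rw [dist_eq_norm, dist_eq_norm, hfn]
  have him : ∀ z, (f z).im = ‖u‖⁻¹ * ((u * z).im - t) := by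
    intro z
    simp only [f, Complex.im_ofReal_mul, Complex.sub_im, Complex.I_im, mul_one]
  let q : ℂ[X] := ∏ i, (X - C (f (a i)))
  have hq : q.Monic := monic_prod_of_monic _ _ fun i _ => monic_X_sub_C _
  have hqd : q.natDegree = p.natDegree := by
    simp only [q]
    rw [natDegree_prod_of_monic _ _ fun i _ => monic_X_sub_C _]
    simp
  have hqe : ∀ z, q.eval z = ∏ i, (z - f (a i)) := fun z => by simp [q, eval_prod]
  have hqn : ∀ z, ‖q.eval (f z)‖ = ‖p.eval z‖ := fun z => by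
    rw [hqe, ha2, norm_prod, norm_prod]
    exact Finset.prod_congr rfl fun i _ => hfn _ _
  have h1 := upper_half q hq (hqd ▸ hn) (by
    intro b hb
    rw [IsRoot, hqe, Finset.prod_eq_zero_iff] at hb
    obtain ⟨i, -, hi⟩ := hb
    rw [sub_eq_zero.mp hi, him]
    exact mul_nonpos_of_nonneg_of_nonpos (by positivity) (by linarith [h _ (ha1 i)]))
  rw [hqd] at h1
  refine le_trans ?_ h1
  rw [← hf.hausdorffMeasure_image (Or.inl zero_le_one)]
  apply measure_mono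
  rintro _ ⟨z, hz, rfl⟩
  refine ⟨(hqn z).trans hz.1, ?_⟩
  rw [him]
  exact mul_nonneg (by positivity) (by linarith [hz.2])

theorem collinear_bound (p : ℂ[X]) (hp : p.Monic) (hn : 1 ≤ p.natDegree)
    (h : Collinear ℝ {a : ℂ | p.IsRoot a}) :
    Measure.hausdorffMeasure (1 : ℝ) {z : ℂ | ‖p.eval z‖ = 1} ≤
      ENNReal.ofReal (4 * π * (2 : ℝ) ^ (-(1 : ℝ) / p.natDegree)) := by
  obtain ⟨z0, v, hv⟩ := (collinear_iff_exists_forall_eq_smul_vadd _).mp h
  obtain ⟨u, hu, huv⟩ : ∃ u : ℂ, u ≠ 0 ∧ (u * v).im = 0 := by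
    by_cases h0 : v = 0
    · exact ⟨1, one_ne_zero, by simp [h0]⟩
    · exact ⟨v⁻¹, inv_ne_zero h0, by simp [h0]⟩
  have hroot : ∀ a, p.IsRoot a → (u * a).im = (u * z0).im := by
    intro a ha
    obtain ⟨r, hr⟩ := hv a ha
    rw [hr, vadd_eq_add, Complex.real_smul, mul_add, Complex.add_im, mul_left_comm,
      Complex.im_ofReal_mul, huv]
    ring
  have h1 := half_plane p hp hn u hu (u * z0).im fun a ha => (hroot a ha).le
  have h2 := half_plane p hp hn (-u) (neg_ne_zero.mpr hu) (-(u * z0).im) fun a ha => by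
    rw [neg_mul, Complex.neg_im, hroot a ha]
  have hsub : {z : ℂ | ‖p.eval z‖ = 1} ⊆ {z : ℂ | ‖p.eval z‖ = 1 ∧ (u * z0).im ≤ (u * z).im} ∪
      {z : ℂ | ‖p.eval z‖ = 1 ∧ -(u * z0).im ≤ (-u * z).im} := by
    intro z hz
    rcases le_total (u * z0).im (u * z).im with h3 | h3
    · exact Or.inl ⟨hz, h3⟩
    · refine Or.inr ⟨hz, ?_⟩
      rw [neg_mul, Complex.neg_im]
      linarith
  refine (measure_mono hsub).trans ((measure_union_le _ _).trans ((add_le_add h1 h2).trans ?_))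
  rw [← ENNReal.ofReal_add (by positivity) (by positivity)]
  apply le_of_eq
  congr 1
  ring

end Pool.Agent.Lib.MP_f225de_an
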