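import Pool.Agent.Lib.MP_f225de_an.IV2

set_option autoImplicit false

namespace Pool.Agent.Lib.MP_f225de_an.Iv

variable {x y w : ℝ} {a b k : ℕ} {I J : Iv}

/-- tail of the series of the inverse hyperbolic tangent -/
noncomputable def ath (k : ℕ) (w : ℝ) : ℝ := ∑' j : ℕ, w ^ j / (2 * j + k)

lemma ath_term (h0 : 0 ≤ w) (hk : 0 < k) (j : ℕ) : w ^ j / (2 * j + k) ≤ w ^ j / k :=
  div_le_div_of_nonneg_left (by positivity) (by positivity) (le_add_of_nonneg_left (by positivity))

lemma ath_sum (h0 : 0 ≤ w) (h1 : w < 1) (hk : 0 < k) :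
    Summable fun j : ℕ => w ^ j / (2 * j + k) :=
  .of_nonneg_of_le (fun j => by positivity) (ath_term h0 hk)
    ((summable_geometric_of_lt_one h0 h1).div_const _)

lemma ath_nonneg (h0 : 0 ≤ w) (k : ℕ) : 0 ≤ ath k w := tsum_nonneg fun j => by positivity

lemma ath_le (h0 : 0 ≤ w) (h1 : w < 1) (hk : 0 < k) : ath k w ≤ (1 - w)⁻¹ / k :=
  hasSum_le (ath_term h0 hk) (ath_sum h0 h1 hk).hasSum
    ((hasSum_geometric_of_lt_one h0 h1).div_const _)

lemma ath_rec (h0 : 0 ≤ w) (h1 : w < 1) (hk : 0 < k) : ath k w = 1 / k + w * ath (k + 2) w := by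
  rw [ath, (ath_sum h0 h1 hk).tsum_eq_zero_add, ath, ← tsum_mul_left]
  refine congrArg₂ _ (by simp) (tsum_congr fun j => ?_)
  push_cast
  rw [pow_succ, mul_comm _ w, mul_div_assoc, show 2 * ((j : ℝ) + 1) + k = 2 * j + (k + 2) by ring]

lemma log_ath (h : x ^ 2 < 1) : Real.log (1 + x) - Real.log (1 - x) = 2 * (ath 1 (x ^ 2) * x) := by
  rw [← (Real.hasSum_log_sub_log_of_abs_lt_one ((sq_lt_one_iff_abs_lt_one x).1 h)).tsum_eq, ath,
    ← tsum_mul_right, ← tsum_mul_left]
  refine tsum_congr fun j => ?_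
  rw [← pow_mul, pow_succ]
  push_cast
  ring

/-- lower bound of `ath k` with `N + 1` terms -/
@[irreducible] def atL (w N : ℕ) : ℕ → ℕ :=
  Nat.rec (fun k => Nat.div (nat_lit 18446744073709551616) k)
    (fun _ f k => Nat.add (Nat.div (nat_lit 18446744073709551616) k)
      (Nat.shiftRight (Nat.mul w (f (Nat.add k (nat_lit 2)))) (nat_lit 64))) N

/-- upper bound of `ath k` with `N` terms -/
@[irreducible] def atU (w N : ℕ) : ℕ → ℕ :=
  Nat.rec (fun k => Nat.succ (Nat.div (nat_lit 340282366920938463463374607431768211456)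
      (Nat.mul k (Nat.sub (nat_lit 18446744073709551616) w))))
    (fun _ f k => Nat.add (Nat.div (nat_lit 18446744073709551616) k) (Nat.shiftRight
      (Nat.add (Nat.mul w (f (Nat.add k (nat_lit 2)))) (nat_lit 55340232221128654848)) (nat_lit 64))) N

lemma shr_le (n : ℕ) : (Nat.shiftRight n (nat_lit 64) : ℕ) ≤ (n : ℝ) / 2 ^ 64 := by
  rw [show Nat.shiftRight n (nat_lit 64) = Nat.div n (2 ^ 64) from Nat.shiftRight_eq_div_pow n 64]
  exact (div_le _ _).trans_eq (by rw [Nat.cast_pow, Nat.cast_ofNat])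

lemma atL_le (h1 : w < 1) (ha : a ≤ 2 ^ 64 * w) (N : ℕ) :
    ∀ k, 0 < k → atL a N k ≤ 2 ^ 64 * ath k w := by
  have h0 : 0 ≤ w := by linarith [a.cast_nonneg (α := ℝ)]
  have e : ∀ k : ℕ, (Nat.div (nat_lit 18446744073709551616) k : ℕ) ≤ 2 ^ 64 * (1 / k : ℝ) :=
    fun k => (div_le _ _).trans_eq (by rw [S_eq, mul_one_div])
  delta atL
  induction N with
  | zero =>
    intro k hk
    rw [ath_rec h0 h1 hk]
    exact (e k).trans (by linarith [mul_nonneg h0 (ath_nonneg h0 (k + 2))])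
  | succ N ih =>
    intro k hk
    have := mul_le_mul ha (ih (k + 2) (by omega)) (Nat.cast_nonneg _) (by positivity)
    rw [ath_rec h0 h1 hk, mul_add]
    refine (add_eq _ _).trans_le (add_le_add (e k) ((shr_le _).trans ?_))
    rw [mul_eq, div_le_iff₀ (by positivity)]
    exact this.trans_eq (by ring)

lemma le_atU (h0 : 0 ≤ w) (hb : 2 ^ 64 * w ≤ b) (h2 : b < 2 ^ 64) (N : ℕ) :
    ∀ k, 0 < k → 2 ^ 64 * ath k w ≤ atU b N k := by
  have h3 : (b : ℝ) < 2 ^ 64 := by exact_mod_cast h2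
  have h1 : w < 1 := by linarith
  delta atU
  induction N with
  | zero =>
    intro k hk
    have e : ((Nat.mul k (Nat.sub (nat_lit 18446744073709551616) b) : ℕ) : ℝ) = k * (2 ^ 64 - b) := by
      rw [mul_eq, show Nat.sub (nat_lit 18446744073709551616) b = 2 ^ 64 - b from rfl, Nat.cast_sub h2.le]
      norm_num
    have h4 : (0 : ℝ) < k := by exact_mod_cast hk
    refine le_trans (sub_le_iff_le_add.1 (div_ge ?_ ?_)) (succ_eq _).ge
    · rw [← Nat.cast_pos (α := ℝ), e]
      exact mul_pos h4 (sub_pos.2 h3)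
    · have h5 := ath_le h0 h1 hk
      rw [le_div_iff₀ h4, inv_eq_one_div, le_div_iff₀ (sub_pos.2 h1)] at h5
      have h6 := mul_le_mul_of_nonneg_left hb (mul_nonneg (ath_nonneg h0 k) h4.le)
      rw [e, sub_add_cancel, show ((nat_lit 340282366920938463463374607431768211456 : ℕ) : ℝ) =
        2 ^ 64 * 2 ^ 64 by norm_num]
      linarith
  | succ N ih =>
    intro k hk
    have h4 := mul_le_mul hb (ih (k + 2) (by omega))
      (mul_nonneg (by positivity) (ath_nonneg h0 _)) (Nat.cast_nonneg _)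
    have h5 := div_ge (z := 2 ^ 64 * (1 / k) - 1) (n := nat_lit 18446744073709551616) hk
      (by rw [S_eq]; exact le_of_eq (by field_simp; ring))
    rw [ath_rec h0 h1 hk, mul_add]
    refine le_trans (sub_le_iff_le_add'.1 (shr_ge ?_)) (add_eq _ _).ge
    rw [add_eq, mul_eq, show ((nat_lit 55340232221128654848 : ℕ) : ℝ) = 2 ^ 64 * 3 by norm_num]
    exact le_trans (by linarith) (add_le_add_left h4 _)

/-- enclosure of `ath k` -/
def atI (k N : ℕ) (W : Iv) : Iv := ofS (atL (nm W.l) N k) (atU (pp W.h) N k)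

theorem mem.atI (h : mem w I) (h0 : 0 ≤ w) (e : Iv.lt I one = true) (hk : 0 < k) (N : ℕ) :
    mem (ath k w) (atI k N I) := by
  refine mem_ofS (atL_le (h.lt mem_one e) (h.1.nm_le h0) N k hk) (le_atU h0 h.2.le_pp ?_ N k hk)
  have : I.h + 79228162495817593519834398720 ≤ 158456325028528675187087900671 := Nat.le_of_ble_eq_true e
  delta pp
  change I.h - 79228162514264337593543950336 < _
  omega

/-- the coefficient in `-log (1 - y) = y + la y * y^2` -/
noncomputable def la (y : ℝ) : ℝ :=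
  (2 - y)⁻¹ + 2 * (y * (2 - y)⁻¹ * (2 - y)⁻¹ ^ 2 * ath 3 ((y * (2 - y)⁻¹) ^ 2))

theorem la_eq (h1 : y < 1) : -Real.log (1 - y) = y + la y * y ^ 2 := by
  have h2 : 0 < 2 - y := by linarith
  have h3 : (y * (2 - y)⁻¹) ^ 2 < 1 := by
    rw [← div_eq_mul_inv, div_pow, div_lt_one (by positivity)]
    linarith
  have h4 := log_ath h3
  rw [ath_rec (sq_nonneg _) h3 one_pos, show 1 - y * (2 - y)⁻¹ = (1 - y) * (2 * (2 - y)⁻¹) by
    field_simp; ring, show 1 + y * (2 - y)⁻¹ = 2 * (2 - y)⁻¹ by field_simp; ring,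
    Real.log_mul (sub_pos.2 h1).ne' (by positivity), sub_add_cancel_right] at h4
  rw [h4, la]
  field_simp
  ring

/-- enclosure of `1 / (2 - y)` -/
def lgD (I : Iv) : Iv := inv (raise (nat_lit 18446744073709551616) (sub (ofN (nat_lit 2)) I))

/-- the value of `la` from `D = 1 / (2 - y)` and `Z = y D` -/
def lgB (N : ℕ) (D Z : Iv) : Iv :=
  add D (mulN (nat_lit 2) (mulP (mulP Z (sqP D)) (Iv.atI (nat_lit 3) N (sqP Z))))

/-- enclosure of `la` -/
def lgA (N : ℕ) (I : Iv) : Iv := lgB N (lgD I) (mulP I (lgD I))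

/-- the test needed by `lgA` -/
def lgOk (I : Iv) : Bool := lt (sqP (mulP I (lgD I))) one

theorem mem.lgA (h : mem y I) (h0 : 0 ≤ y) (h1 : y ≤ 1) (e : lgOk I = true) (N : ℕ) :
    mem (la y) (lgA N I) := by
  have h2 : 0 ≤ (2 - y)⁻¹ := inv_nonneg.2 (by linarith)
  have hD : mem (2 - y)⁻¹ (lgD I) := (((mem_ofN 2).sub h).raise
    (by rw [S_eq]; push_cast; linarith)).inv (pos_raise (by norm_num) _)
  have hZ := h.mulP h0 h2 hD
  have h3 := mul_nonneg h0 h2
  exact hD.add (((hZ.mulP h3 (sq_nonneg _) (hD.sqP h2)).mulP (by positivity)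
    (ath_nonneg (sq_nonneg _) 3) ((hZ.sqP h3).atI (sq_nonneg _) e three_pos N)).mulN 2)

/-- enclosure of `(x - 1) / (x + 1)` -/
def lgZ (I : Iv) : Iv :=
  sub one (mulN (nat_lit 2) (inv (raise (nat_lit 18446744073709551616) (add I one))))

/-- the logarithm from `Z = (x - 1) / (x + 1)` -/
def lgL (N : ℕ) (Z : Iv) : Iv := mulN (nat_lit 2) (mulL (Iv.atI (nat_lit 1) N (sq Z)) Z)

/-- enclosure of the logarithm -/
def log (N : ℕ) (I : Iv) : Iv := lgL N (lgZ I)

/-- the test needed by `log` -/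
def logOk (I : Iv) : Bool := lt (sq (lgZ I)) one

theorem mem.log (h : mem x I) (h0 : 0 < x) (e : logOk I = true) (N : ℕ) :
    mem (Real.log x) (log N I) := by
  have hZ : mem (1 - 2 * (x + 1)⁻¹) (lgZ I) := mem_one.sub ((((h.add mem_one).raise
    (by rw [S_eq]; linarith)).inv (pos_raise (by norm_num) _)).mulN 2)
  refine (((hZ.sq.atI (sq_nonneg _) e one_pos N).mulL (ath_nonneg (sq_nonneg _) 1) hZ).mulN 2).congr ?_
  rw [Nat.cast_ofNat, ← log_ath (hZ.sq.lt mem_one e), show 1 + (1 - 2 * (x + 1)⁻¹) =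
    x * (2 * (x + 1)⁻¹) by field_simp; ring, sub_sub_cancel, Real.log_mul h0.ne' (by positivity),
    add_sub_cancel_right]

/-- Horner scheme for the exponential function -/
def exH (I : Iv) (N : ℕ) : ℕ → Iv :=
  Nat.rec (fun _ => ⟨nat_lit 79228162551157825740963053568, nat_lit 79228162551157825740963053568⟩)
    (fun _ f k => add one (mulQ (nat_lit 1) (Nat.succ k) (mul I (f (Nat.succ k))))) N

/-- enclosure of the exponential function on `[-1, 1]` -/
def exp (N : ℕ) (I : Iv) : Iv := exH I (Nat.succ N) (nat_lit 0)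

theorem mem.exp (h : mem x I) (h1 : |x| ≤ 1) (N : ℕ) : mem (Real.exp x) (exp N I) := by
  have key : ∀ N k, 0 < N + k → ∃ r, mem r (exH I N k) ∧ Real.exp x = Real.expNear k x r := by
    intro N
    induction N with
    | zero =>
      intro k hk
      obtain ⟨k, rfl⟩ : ∃ j, k = j + 1 := ⟨k - 1, by omega⟩
      have h2 := Real.exp_approx_end k (k + 1) x rfl h1
      by_cases h0 : x = 0
      · refine ⟨0, by norm_num [mem, U, exH], ?_⟩
        simp [h0, Real.expNear, Finset.sum_range_succ']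
      have h3 : 0 < |x| ^ (k + 1) / (k + 1).factorial := by positivity
      have h4 : x ^ (k + 1) / (k + 1).factorial ≠ 0 := by positivity
      refine ⟨(Real.exp x - Real.expNear (k + 1) x 0) / (x ^ (k + 1) / (k + 1).factorial), ?_, ?_⟩
      · have : |(Real.exp x - Real.expNear (k + 1) x 0) / (x ^ (k + 1) / (k + 1).factorial)| ≤ 2 := by
          rw [abs_div, abs_div, abs_pow, Nat.abs_cast, div_le_iff₀' h3]
          refine h2.trans (mul_le_mul_of_nonneg_left ?_ h3.le)
          rw [div_le_iff₀ (by positivity)]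
          push_cast
          linarith [k.cast_nonneg (α := ℝ)]
        rw [abs_le] at this
        generalize (_ / _ : ℝ) = r at this
        norm_num [mem, U, exH]
        constructor <;> linarith [this.1, this.2]
      · rw [Real.expNear, mul_div_cancel₀ _ h4, Real.expNear]
        ring
    | succ N ih =>
      intro k _
      obtain ⟨r, h2, h3⟩ := ih (k + 1) (by omega)
      refine ⟨_, mem_one.add ((h.mul h2).mulQ 1 k.succ_pos), ?_⟩
      rw [h3, Real.expNear_succ]
      push_cast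
      ring_nf
  obtain ⟨r, h2, h3⟩ := key (N + 1) 0 (by omega)
  rw [h3, Real.expNear_zero]
  exact h2

end Pool.Agent.Lib.MP_f225de_an.Iv
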