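import Mathlib

set_option autoImplicit false

open MeasureTheory Set
open scoped Real ComplexConjugate

namespace Pool.Agent.Lib.MP_f225de_an.E

/-- calibration of the isoperimetric problem -/
noncomputable def cal (l : ℝ) (o : ℂ) (τ : ℝ) (z : ℂ) : ℝ :=
  Real.cos (τ / (2 * l)) / Real.sin (τ / (2 * l)) / 2 * Complex.normSq (z - o) - (conj o * z).im

/-- abstract arc: start, end, parameter length, action -/
def Arc (l : ℝ) (x : ℂ × ℂ × ℝ × ℝ) : Prop :=
  0 ≤ x.2.2.1 ∧ ∀ (o : ℂ) (τ : ℝ), 0 < τ → τ + x.2.2.1 < 2 * π * l →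
    cal l o (τ + x.2.2.1) x.2.1 - cal l o τ x.1 ≤ x.2.2.2

lemma arc_of {l a b : ℝ} (hl : 0 < l) (hab : a ≤ b) {γ γ' : ℝ → ℂ}
    (hc : ContinuousOn γ (Icc a b)) (hd : ∀ x ∈ Ioo a b, HasDerivAt γ (γ' x) x)
    (hi : IntegrableOn (fun x => l * ‖γ' x‖ ^ 2 - (conj (γ x) * γ' x).im) (Icc a b)) :
    Arc l (γ a, γ b, b - a, ∫ x in a..b, (l * ‖γ' x‖ ^ 2 - (conj (γ x) * γ' x).im)) := by
  refine ⟨sub_nonneg.mpr hab, fun o τ h0 h1 => ?_⟩
  have hs : ∀ x ∈ Icc a b, 0 < Real.sin ((τ + (x - a)) / (2 * l)) := fun x hx => by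
    apply Real.sin_pos_of_pos_of_lt_pi (div_pos (by linarith [hx.1]) (by positivity))
    rw [div_lt_iff₀ (by positivity)]
    simp only at h1
    linarith [hx.2]
  have key := intervalIntegral.sub_le_integral_of_hasDeriv_right_of_le hab
    (g := fun x => cal l o (τ + (x - a)) (γ x))
    (g' := fun x => -(1 / (4 * l) / Real.sin ((τ + (x - a)) / (2 * l)) ^ 2) *
      Complex.normSq (γ x - o) + Real.cos ((τ + (x - a)) / (2 * l)) /
      Real.sin ((τ + (x - a)) / (2 * l)) * (conj (γ x - o) * γ' x).re - (conj o * γ' x).im)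
    ?_ (fun x hx => HasDerivAt.hasDerivWithinAt ?_) hi fun x hx => ?_
  · simpa using key
  · unfold cal
    refine ContinuousOn.sub (ContinuousOn.mul (ContinuousOn.div_const (ContinuousOn.div
      (by fun_prop) (by fun_prop) fun x hx => (hs x hx).ne') _) ?_) ?_
    · exact Complex.continuous_normSq.comp_continuousOn (hc.sub continuousOn_const)
    · exact Complex.continuous_im.comp_continuousOn (continuousOn_const.mul hc)
  · have h2 := (hs x (Ioo_subset_Icc_self hx)).ne'
    have ht : HasDerivAt (fun x : ℝ => (τ + (x - a)) / (2 * l)) (1 / (2 * l)) x :=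
      (((hasDerivAt_id x).sub_const a).const_add τ).div_const _
    have hw := (hd x hx).sub_const o
    have hre : HasDerivAt (fun x => (γ x - o).re) (γ' x).re x :=
      Complex.reCLM.hasFDerivAt.comp_hasDerivAt x hw
    have him : HasDerivAt (fun x => (γ x - o).im) (γ' x).im x :=
      Complex.imCLM.hasFDerivAt.comp_hasDerivAt x hw
    have ho : HasDerivAt (fun x => (conj o * γ x).im) (conj o * γ' x).im x :=
      Complex.imCLM.hasFDerivAt.comp_hasDerivAt x ((hd x hx).const_mul _)
    have := ((((ht.cos.div ht.sin h2).div_const 2).mul ((hre.mul hre).add (him.mul him))).sub ho)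
    refine HasDerivAt.congr_deriv (f' := _) this ?_
    have e := Real.sin_sq_add_cos_sq ((τ + (x - a)) / (2 * l))
    simp only [Complex.normSq_apply, Complex.mul_re, Complex.conj_re, Complex.conj_im,
      Pi.add_apply, Pi.mul_apply, Pi.div_apply]
    generalize Real.sin ((τ + (x - a)) / (2 * l)) = S at *
    generalize Real.cos ((τ + (x - a)) / (2 * l)) = C at *
    field_simp
    linear_combination (-4 * ((γ x - o).re ^ 2 + (γ x - o).im ^ 2)) * e
  · have h2 := (hs x (Ioo_subset_Icc_self hx)).ne'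
    have e := Real.sin_sq_add_cos_sq ((τ + (x - a)) / (2 * l))
    generalize Real.sin ((τ + (x - a)) / (2 * l)) = S at *
    generalize Real.cos ((τ + (x - a)) / (2 * l)) = C at *
    have e2 : 1 / (4 * l) / S ^ 2 = (1 + (C / S) ^ 2) / (4 * l) := by
      field_simp
      linarith
    have e3 : γ x = (γ x - o) + o := by ring
    rw [e2, Complex.sq_norm]
    conv_rhs => rw [e3]
    generalize γ x - o = w
    generalize C / S = k
    simp only [Complex.normSq_apply, Complex.mul_re, Complex.mul_im, Complex.conj_re,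
      Complex.conj_im, map_add, Complex.add_re, Complex.add_im]
    rw [← sub_nonneg]
    have : 0 ≤ ((2 * l * (γ' x).re - (k * w.re - w.im)) ^ 2 +
      (2 * l * (γ' x).im - (k * w.im + w.re)) ^ 2) / (4 * l) := by positivity
    convert this using 1
    field_simp
    ring

lemma arc_sum {l : ℝ} (N : ℕ) : ∀ m : Multiset (ℂ × ℂ × ℝ × ℝ), m.card = N →
    (∀ x ∈ m, Arc l x) → m.map (·.1) = m.map (·.2.1) → (m.map (·.2.2.1)).sum < 2 * π * l →
    0 ≤ (m.map (·.2.2.2)).sum := by
  induction N with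
  | zero => intro m hm _ _ _; simp [Multiset.card_eq_zero.mp hm]
  | succ N ih =>
    intro m hm hA hb hL
    obtain ⟨x, hx⟩ := (Multiset.card_pos_iff_exists_mem (s := m)).mp (by omega)
    obtain ⟨m, rfl⟩ := Multiset.exists_cons_of_mem hx
    have hx0 := hA x hx
    have hA' : ∀ y ∈ m, Arc l y := fun y hy => hA y (Multiset.mem_cons_of_mem hy)
    have hm' : m.card = N := by simpa using hm
    simp only [Multiset.map_cons, Multiset.sum_cons] at hb hL ⊢
    by_cases h : x.1 = x.2.1
    · have h0 : 0 ≤ (m.map (·.2.2.1)).sum := Multiset.sum_nonneg fun t ht => by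
        obtain ⟨y, hy, rfl⟩ := Multiset.mem_map.mp ht
        exact (hA' y hy).1
      have h1 := hx0.2 x.1 ((2 * π * l - x.2.2.1) / 2) (by linarith) (by linarith)
      rw [← h] at h1 hb
      have h2 := ih m hm' hA' ((Multiset.cons_inj_right _).mp hb) (by linarith [hx0.1])
      simp only [cal, sub_self, map_zero, mul_zero] at h1
      linarith
    · have : x.2.1 ∈ x.1 ::ₘ m.map (·.1) := hb ▸ Multiset.mem_cons_self _ _
      obtain ⟨y, hy, hxy⟩ := Multiset.mem_map.mp
        ((Multiset.mem_cons.mp this).resolve_left (Ne.symm h))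
      have hy0 := hA' y hy
      obtain ⟨m, rfl⟩ := Multiset.exists_cons_of_mem hy
      simp only [Multiset.map_cons, Multiset.sum_cons] at hb hL ⊢
      have := ih ((x.1, y.2.1, x.2.2.1 + y.2.2.1, x.2.2.2 + y.2.2.2) ::ₘ m) (by simpa using hm')
        (fun z hz => ?_) ?_ (by simpa [add_assoc] using hL)
      · simpa [add_assoc] using this
      · rcases Multiset.mem_cons.mp hz with rfl | hz
        · refine ⟨add_nonneg hx0.1 hy0.1, fun o τ h0 h1 => ?_⟩
          simp only at h1 ⊢
          have a1 := hx0.2 o τ h0 (by linarith [hy0.1])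
          have a2 := hy0.2 o (τ + x.2.2.1) (by linarith [hx0.1]) (by linarith)
          rw [hxy, add_assoc] at a2
          linarith
        · exact hA' z (Multiset.mem_cons_of_mem hz)
      · simp only [Multiset.map_cons]
        rw [hxy, Multiset.cons_swap] at hb
        exact (Multiset.cons_inj_right _).mp hb

/-- Wirtinger / Hurwitz inequality for a finite family of arcs without boundary -/
theorem wirtinger {ι : Type*} (s : Finset ι) (a b : ι → ℝ) (γ γ' : ι → ℝ → ℂ)
    (hab : ∀ i ∈ s, a i ≤ b i) (hc : ∀ i ∈ s, ContinuousOn (γ i) (Icc (a i) (b i)))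
    (hd : ∀ i ∈ s, ∀ x ∈ Ioo (a i) (b i), HasDerivAt (γ i) (γ' i x) x)
    (h1 : ∀ i ∈ s, IntegrableOn (fun x => ‖γ' i x‖ ^ 2) (Icc (a i) (b i)))
    (h2 : ∀ i ∈ s, IntegrableOn (fun x => (conj (γ i x) * γ' i x).im) (Icc (a i) (b i)))
    (hb : s.val.map (fun i => γ i (a i)) = s.val.map (fun i => γ i (b i))) :
    2 * π * ∑ i ∈ s, ∫ x in a i..b i, (conj (γ i x) * γ' i x).im ≤
      (∑ i ∈ s, (b i - a i)) * ∑ i ∈ s, ∫ x in a i..b i, ‖γ' i x‖ ^ 2 := by
  have hL : 0 ≤ ∑ i ∈ s, (b i - a i) := Finset.sum_nonneg fun i hi => sub_nonneg.mpr (hab i hi)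
  have hπ := Real.pi_pos
  have key : ∀ l, (∑ i ∈ s, (b i - a i)) / (2 * π) < l →
      ∑ i ∈ s, ∫ x in a i..b i, (conj (γ i x) * γ' i x).im ≤
        l * ∑ i ∈ s, ∫ x in a i..b i, ‖γ' i x‖ ^ 2 := fun l hl => by
    have l0 : 0 < l := lt_of_le_of_lt (by positivity) hl
    have := arc_sum (l := l) _ (s.val.map fun i => (γ i (a i), γ i (b i), b i - a i,
      ∫ x in a i..b i, (l * ‖γ' i x‖ ^ 2 - (conj (γ i x) * γ' i x).im))) rfl (fun x hx => ?_)
      (by simpa using hb) ?_
    · rw [Multiset.map_map, ← Finset.sum_eq_multiset_sum] at this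
      rw [← sub_nonneg, Finset.mul_sum, ← Finset.sum_sub_distrib]
      refine this.trans (le_of_eq (Finset.sum_congr rfl fun i hi => ?_))
      have i1 := (intervalIntegrable_iff_integrableOn_Icc_of_le (hab i hi)).mpr (h1 i hi)
      have i2 := (intervalIntegrable_iff_integrableOn_Icc_of_le (hab i hi)).mpr (h2 i hi)
      simp only [Function.comp]
      rw [intervalIntegral.integral_sub (i1.const_mul l) i2, intervalIntegral.integral_const_mul]
    · obtain ⟨i, hi, rfl⟩ := Multiset.mem_map.mp hx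
      exact arc_of l0 (hab i hi) (hc i hi) (hd i hi) (((h1 i hi).const_mul l).sub (h2 i hi))
    · rw [Multiset.map_map, ← Finset.sum_eq_multiset_sum]
      rw [div_lt_iff₀ (by positivity)] at hl
      simp only [Function.comp]
      linarith
  have hQ : 0 ≤ ∑ i ∈ s, ∫ x in a i..b i, ‖γ' i x‖ ^ 2 := Finset.sum_nonneg fun i hi =>
    intervalIntegral.integral_nonneg (hab i hi) fun _ _ => by positivity
  generalize ∑ i ∈ s, ∫ x in a i..b i, ‖γ' i x‖ ^ 2 = Q at *
  generalize ∑ i ∈ s, ∫ x in a i..b i, (conj (γ i x) * γ' i x).im = A at *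
  generalize ∑ i ∈ s, (b i - a i) = L at *
  refine le_of_forall_pos_le_add fun ε hε => ?_
  have h3 := key (L / (2 * π) + ε / (2 * π * (Q + 1))) (lt_add_of_pos_right _ (by positivity))
  have h4 : 2 * π * ((L / (2 * π) + ε / (2 * π * (Q + 1))) * Q) = L * Q + ε * (Q / (Q + 1)) := by
    field_simp
  have h5 : Q / (Q + 1) ≤ 1 := div_le_one_of_le₀ (by linarith) (by linarith)
  nlinarith

/-- the same for `C¹` arcs whose ends are matched by a permutation -/
theorem wirtinger' {ι : Type*} [Fintype ι] (σ : ι ≃ ι) (a b : ι → ℝ) (γ γ' : ι → ℝ → ℂ)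
    (hab : ∀ i, a i ≤ b i) (hd : ∀ i, ∀ x ∈ Icc (a i) (b i), HasDerivAt (γ i) (γ' i x) x)
    (hc : ∀ i, ContinuousOn (γ' i) (Icc (a i) (b i))) (hb : ∀ i, γ i (b i) = γ (σ i) (a (σ i))) :
    2 * π * ∑ i, ∫ x in a i..b i, (conj (γ i x) * γ' i x).im ≤
      (∑ i, (b i - a i)) * ∑ i, ∫ x in a i..b i, ‖γ' i x‖ ^ 2 := by
  have h0 : ∀ i, ContinuousOn (γ i) (Icc (a i) (b i)) := fun i x hx =>
    (hd i x hx).continuousAt.continuousWithinAt
  refine wirtinger Finset.univ a b γ γ' (fun i _ => hab i) (fun i _ => h0 i)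
    (fun i _ x hx => hd i x (Ioo_subset_Icc_self hx))
    (fun i _ => ((hc i).norm.pow 2).integrableOn_Icc)
    (fun i _ => (Complex.continuous_im.comp_continuousOn
      ((Complex.continuous_conj.comp_continuousOn (h0 i)).mul (hc i))).integrableOn_Icc) ?_
  conv_lhs => rw [← Multiset.map_univ_val_equiv σ, Multiset.map_map]
  exact Multiset.map_congr rfl fun i _ => (hb i).symm

end Pool.Agent.Lib.MP_f225de_an.E
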