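import Pool.Agent.Lib.MP_f225de_an.Iso

set_option autoImplicit false

open MeasureTheory Set
open scoped Real ComplexConjugate

namespace Pool.Agent.Lib.MP_f225de_an.E

lemma arc_ofw {l a b : ℝ} (hl : 0 < l) (hab : a ≤ b) {γ γ' : ℝ → ℂ} {R ρ : ℝ → ℝ}
    (hc : ContinuousOn γ (Icc a b)) (hd : ∀ x ∈ Ioo a b, HasDerivAt γ (γ' x) x)
    (hR : ContinuousOn R (Icc a b)) (hR' : ∀ x ∈ Ioo a b, HasDerivAt R (ρ x) x)
    (hρ : ∀ x ∈ Ioo a b, 0 < ρ x)
    (hi : IntegrableOn (fun x => l * (‖γ' x‖ ^ 2 / ρ x) - (conj (γ x) * γ' x).im) (Icc a b)) :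
    Arc l (γ a, γ b, R b - R a,
      ∫ x in a..b, (l * (‖γ' x‖ ^ 2 / ρ x) - (conj (γ x) * γ' x).im)) := by
  have hm : MonotoneOn R (Icc a b) := monotoneOn_of_hasDerivWithinAt_nonneg (f' := ρ)
    (convex_Icc a b) hR (fun x hx => (hR' x (by simpa using hx)).hasDerivWithinAt)
    fun x hx => (hρ x (by simpa using hx)).le
  have ha : a ∈ Icc a b := left_mem_Icc.mpr hab
  have hb : b ∈ Icc a b := right_mem_Icc.mpr hab
  refine ⟨sub_nonneg.mpr (hm ha hb hab), fun o τ h0 h1 => ?_⟩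
  have hs : ∀ x ∈ Icc a b, 0 < Real.sin ((τ + (R x - R a)) / (2 * l)) := fun x hx => by
    apply Real.sin_pos_of_pos_of_lt_pi (div_pos (by linarith [hm ha hx hx.1]) (by positivity))
    rw [div_lt_iff₀ (by positivity)]
    simp only at h1
    linarith [hm hx hb hx.2]
  have key := intervalIntegral.sub_le_integral_of_hasDeriv_right_of_le hab
    (g := fun x => cal l o (τ + (R x - R a)) (γ x))
    (g' := fun x => -(ρ x / (4 * l) / Real.sin ((τ + (R x - R a)) / (2 * l)) ^ 2) *
      Complex.normSq (γ x - o) + Real.cos ((τ + (R x - R a)) / (2 * l)) /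
      Real.sin ((τ + (R x - R a)) / (2 * l)) * (conj (γ x - o) * γ' x).re - (conj o * γ' x).im)
    ?_ (fun x hx => HasDerivAt.hasDerivWithinAt ?_) hi fun x hx => ?_
  · simpa using key
  · unfold cal
    have hτ : ContinuousOn (fun x => (τ + (R x - R a)) / (2 * l)) (Icc a b) := by fun_prop
    refine ContinuousOn.sub (ContinuousOn.mul (ContinuousOn.div_const (ContinuousOn.div
      (Real.continuous_cos.comp_continuousOn hτ) (Real.continuous_sin.comp_continuousOn hτ)
      fun x hx => (hs x hx).ne') _) ?_) ?_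
    · exact Complex.continuous_normSq.comp_continuousOn (hc.sub continuousOn_const)
    · exact Complex.continuous_im.comp_continuousOn (continuousOn_const.mul hc)
  · have h2 := (hs x (Ioo_subset_Icc_self hx)).ne'
    have ht : HasDerivAt (fun x : ℝ => (τ + (R x - R a)) / (2 * l)) (ρ x / (2 * l)) x :=
      (((hR' x hx).sub_const _).const_add τ).div_const _
    have hw := (hd x hx).sub_const o
    have hre : HasDerivAt (fun x => (γ x - o).re) (γ' x).re x :=
      Complex.reCLM.hasFDerivAt.comp_hasDerivAt x hw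
    have him : HasDerivAt (fun x => (γ x - o).im) (γ' x).im x :=
      Complex.imCLM.hasFDerivAt.comp_hasDerivAt x hw
    have ho : HasDerivAt (fun x => (conj o * γ x).im) (conj o * γ' x).im x :=
      Complex.imCLM.hasFDerivAt.comp_hasDerivAt x ((hd x hx).const_mul _)
    have := ((((ht.cos.div ht.sin h2).div_const 2).mul ((hre.mul hre).add (him.mul him))).sub ho)
    refine HasDerivAt.congr_deriv (f' := _) this ?_
    have e := Real.sin_sq_add_cos_sq ((τ + (R x - R a)) / (2 * l))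
    simp only [Complex.normSq_apply, Complex.mul_re, Complex.conj_re, Complex.conj_im,
      Pi.add_apply, Pi.mul_apply, Pi.div_apply]
    generalize Real.sin ((τ + (R x - R a)) / (2 * l)) = S at *
    generalize Real.cos ((τ + (R x - R a)) / (2 * l)) = C at *
    field_simp
    linear_combination (-4 * ρ x * ((γ x - o).re ^ 2 + (γ x - o).im ^ 2)) * e
  · have h2 := (hs x (Ioo_subset_Icc_self hx)).ne'
    have h3 := hρ x hx
    have e := Real.sin_sq_add_cos_sq ((τ + (R x - R a)) / (2 * l))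
    generalize Real.sin ((τ + (R x - R a)) / (2 * l)) = S at *
    generalize Real.cos ((τ + (R x - R a)) / (2 * l)) = C at *
    have e2 : ρ x / (4 * l) / S ^ 2 = ρ x * (1 + (C / S) ^ 2) / (4 * l) := by
      field_simp
      linarith
    have e3 : γ x = (γ x - o) + o := by ring
    rw [e2, Complex.sq_norm]
    conv_rhs => rw [e3]
    generalize γ x - o = w
    generalize C / S = k
    simp only [Complex.normSq_apply, Complex.mul_re, Complex.mul_im, Complex.conj_re,
      Complex.conj_im, map_add, Complex.add_re, Complex.add_im]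
    rw [← sub_nonneg]
    have : 0 ≤ ((2 * l * (γ' x).re - ρ x * (k * w.re - w.im)) ^ 2 +
      (2 * l * (γ' x).im - ρ x * (k * w.im + w.re)) ^ 2) / (4 * l * ρ x) := by positivity
    convert this using 1
    field_simp
    ring

/-- weighted Wirtinger inequality, `R i` being the clock and `ρ i` its speed -/
theorem wirtingerW {ι : Type*} (s : Finset ι) (a b : ι → ℝ) (γ γ' : ι → ℝ → ℂ) (R ρ : ι → ℝ → ℝ)
    (hab : ∀ i ∈ s, a i ≤ b i) (hc : ∀ i ∈ s, ContinuousOn (γ i) (Icc (a i) (b i)))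
    (hd : ∀ i ∈ s, ∀ x ∈ Ioo (a i) (b i), HasDerivAt (γ i) (γ' i x) x)
    (hR : ∀ i ∈ s, ContinuousOn (R i) (Icc (a i) (b i)))
    (hR' : ∀ i ∈ s, ∀ x ∈ Ioo (a i) (b i), HasDerivAt (R i) (ρ i x) x)
    (hρ : ∀ i ∈ s, ∀ x ∈ Ioo (a i) (b i), 0 < ρ i x)
    (h1 : ∀ i ∈ s, IntegrableOn (fun x => ‖γ' i x‖ ^ 2 / ρ i x) (Icc (a i) (b i)))
    (h2 : ∀ i ∈ s, IntegrableOn (fun x => (conj (γ i x) * γ' i x).im) (Icc (a i) (b i)))
    (hb : s.val.map (fun i => γ i (a i)) = s.val.map (fun i => γ i (b i))) :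
    2 * π * ∑ i ∈ s, ∫ x in a i..b i, (conj (γ i x) * γ' i x).im ≤
      (∑ i ∈ s, (R i (b i) - R i (a i))) * ∑ i ∈ s, ∫ x in a i..b i, ‖γ' i x‖ ^ 2 / ρ i x := by
  have hA := fun l (l0 : 0 < l) i hi => arc_ofw l0 (hab i hi) (hc i hi) (hd i hi) (hR i hi)
    (hR' i hi) (hρ i hi) (((h1 i hi).const_mul l).sub (h2 i hi))
  have hL : 0 ≤ ∑ i ∈ s, (R i (b i) - R i (a i)) :=
    Finset.sum_nonneg fun i hi => (hA 1 one_pos i hi).1
  have hπ := Real.pi_pos
  have key : ∀ l, (∑ i ∈ s, (R i (b i) - R i (a i))) / (2 * π) < l →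
      ∑ i ∈ s, ∫ x in a i..b i, (conj (γ i x) * γ' i x).im ≤
        l * ∑ i ∈ s, ∫ x in a i..b i, ‖γ' i x‖ ^ 2 / ρ i x := fun l hl => by
    have l0 : 0 < l := lt_of_le_of_lt (by positivity) hl
    have := arc_sum (l := l) _ (s.val.map fun i => (γ i (a i), γ i (b i), R i (b i) - R i (a i),
      ∫ x in a i..b i, (l * (‖γ' i x‖ ^ 2 / ρ i x) - (conj (γ i x) * γ' i x).im))) rfl
      (fun x hx => ?_) (by simpa using hb) ?_
    · rw [Multiset.map_map, ← Finset.sum_eq_multiset_sum] at this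
      rw [← sub_nonneg, Finset.mul_sum, ← Finset.sum_sub_distrib]
      refine this.trans (le_of_eq (Finset.sum_congr rfl fun i hi => ?_))
      have i1 := (intervalIntegrable_iff_integrableOn_Icc_of_le (hab i hi)).mpr (h1 i hi)
      have i2 := (intervalIntegrable_iff_integrableOn_Icc_of_le (hab i hi)).mpr (h2 i hi)
      simp only [Function.comp]
      rw [intervalIntegral.integral_sub (i1.const_mul l) i2, intervalIntegral.integral_const_mul]
    · obtain ⟨i, hi, rfl⟩ := Multiset.mem_map.mp hx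
      exact hA l l0 i hi
    · rw [Multiset.map_map, ← Finset.sum_eq_multiset_sum]
      rw [div_lt_iff₀ (by positivity)] at hl
      simp only [Function.comp]
      linarith
  have hQ : 0 ≤ ∑ i ∈ s, ∫ x in a i..b i, ‖γ' i x‖ ^ 2 / ρ i x := Finset.sum_nonneg fun i hi => by
    rw [intervalIntegral.integral_of_le (hab i hi), integral_Ioc_eq_integral_Ioo]
    exact setIntegral_nonneg measurableSet_Ioo fun x hx => by
      have := hρ i hi x hx
      positivity
  generalize ∑ i ∈ s, ∫ x in a i..b i, ‖γ' i x‖ ^ 2 / ρ i x = Q at *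
  generalize ∑ i ∈ s, ∫ x in a i..b i, (conj (γ i x) * γ' i x).im = A at *
  generalize ∑ i ∈ s, (R i (b i) - R i (a i)) = L at *
  refine le_of_forall_pos_le_add fun ε hε => ?_
  have h3 := key (L / (2 * π) + ε / (2 * π * (Q + 1))) (lt_add_of_pos_right _ (by positivity))
  have h4 : 2 * π * ((L / (2 * π) + ε / (2 * π * (Q + 1))) * Q) = L * Q + ε * (Q / (Q + 1)) := by
    field_simp
  have h5 : Q / (Q + 1) ≤ 1 := div_le_one_of_le₀ (by linarith) (by linarith)
  nlinarith

/-- the same for `C¹` arcs and continuous positive weights -/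
theorem wirtingerW' {ι : Type*} (s : Finset ι) (a b : ι → ℝ) (γ γ' : ι → ℝ → ℂ) (ρ : ι → ℝ → ℝ)
    (hab : ∀ i ∈ s, a i ≤ b i) (hd : ∀ i ∈ s, ∀ x ∈ Icc (a i) (b i), HasDerivAt (γ i) (γ' i x) x)
    (hc : ∀ i ∈ s, ContinuousOn (γ' i) (Icc (a i) (b i)))
    (hr : ∀ i ∈ s, ContinuousOn (ρ i) (Icc (a i) (b i)))
    (hρ : ∀ i ∈ s, ∀ x ∈ Icc (a i) (b i), 0 < ρ i x)
    (hb : s.val.map (fun i => γ i (a i)) = s.val.map (fun i => γ i (b i))) :
    2 * π * ∑ i ∈ s, ∫ x in a i..b i, (conj (γ i x) * γ' i x).im ≤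
      (∑ i ∈ s, ∫ x in a i..b i, ρ i x) * ∑ i ∈ s, ∫ x in a i..b i, ‖γ' i x‖ ^ 2 / ρ i x := by
  have h0 : ∀ i ∈ s, ContinuousOn (γ i) (Icc (a i) (b i)) := fun i hi x hx =>
    (hd i hi x hx).continuousAt.continuousWithinAt
  have := wirtingerW s a b γ γ' (fun i x => ∫ t in a i..x, ρ i t) ρ hab h0
    (fun i hi x hx => hd i hi x (Ioo_subset_Icc_self hx)) (fun i hi => ?_) (fun i hi x hx => ?_)
    (fun i hi x hx => hρ i hi x (Ioo_subset_Icc_self hx))
    (fun i hi => (((hc i hi).norm.pow 2).div (hr i hi)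
      fun x hx => (hρ i hi x hx).ne').integrableOn_Icc)
    (fun i hi => (Complex.continuous_im.comp_continuousOn
      ((Complex.continuous_conj.comp_continuousOn (h0 i hi)).mul (hc i hi))).integrableOn_Icc) hb
  · simpa using this
  · have := intervalIntegral.continuousOn_primitive_interval (a := a i) (b := b i) (f := ρ i)
      (μ := volume) (by rw [uIcc_of_le (hab i hi)]; exact (hr i hi).integrableOn_Icc)
    rwa [uIcc_of_le (hab i hi)] at this
  · have h3 := (hr i hi).mono Ioo_subset_Icc_self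
    exact intervalIntegral.integral_hasDerivAt_right
      (((hr i hi).mono (Icc_subset_Icc_right hx.2.le)).intervalIntegrable_of_Icc hx.1.le)
      (h3.stronglyMeasurableAtFilter isOpen_Ioo x hx) (h3.continuousAt (isOpen_Ioo.mem_nhds hx))

end Pool.Agent.Lib.MP_f225de_an.E
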