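import Pool.Agent.Lib.MP_f225de_an.Half

set_option autoImplicit false

open Real MeasureTheory Polynomial Set

namespace Pool.Agent.Lib.MP_f225de_an

lemma dist_le_curve (γ : ℝ → ℂ) (hγ : Continuous γ) (a b : ℝ) (hab : a ≤ b) :
    ENNReal.ofReal ‖γ b - γ a‖ ≤ Measure.hausdorffMeasure (1 : ℝ) (γ '' Ioo a b) := by
  have hl : LipschitzWith 1 (fun z : ℂ => ‖z - γ a‖) :=
    LipschitzWith.of_dist_le_mul fun x y => by
      have := abs_norm_sub_norm_le (x - γ a) (y - γ a)
      rw [sub_sub_sub_cancel_right] at this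
      simpa [Real.dist_eq, dist_eq_norm] using this
  have h1 := hl.hausdorffMeasure_image_le (d := 1) zero_le_one (γ '' Ioo a b)
  rw [hausdorffMeasure_real, image_image] at h1
  have h2 := intermediate_value_Ioo hab
    (f := fun r => ‖γ r - γ a‖) (((hγ.sub continuous_const).norm).continuousOn)
  have h3 := measure_mono (μ := volume) h2
  simp only [sub_self, norm_zero, Real.volume_Ioo, sub_zero] at h3
  simpa using h3.trans h1

/-- sign -/
def sg (b : Bool) : ℝ := if b then 1 else -1

/-- half petals -/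
noncomputable def petal (n : ℕ) (i : Fin n × Bool) (r : ℝ) : ℂ :=
  r * Complex.exp (Complex.I * (((2 * π * i.1 + sg i.2 * arccos (r ^ n / 2)) / n : ℝ) : ℂ))

lemma petal_cont (n : ℕ) (i : Fin n × Bool) : Continuous (petal n i) := by
  unfold petal
  have := Real.continuous_arccos
  fun_prop

lemma norm_petal (n : ℕ) (i : Fin n × Bool) (r : ℝ) (hr : 0 ≤ r) : ‖petal n i r‖ = r := by
  unfold petal
  rw [norm_mul, Complex.norm_exp_I_mul_ofReal, Complex.norm_real, Real.norm_of_nonneg hr, mul_one]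

lemma petal_mem (n : ℕ) (hn : 1 ≤ n) (i : Fin n × Bool) (r : ℝ) (hr : 0 ≤ r) (hr2 : r ^ n ≤ 2) :
    ‖petal n i r ^ n - 1‖ = 1 := by
  have hn' : (n : ℝ) ≠ 0 := by positivity
  have h0 : 0 ≤ r ^ n := by positivity
  set φ := arccos (r ^ n / 2) with hφ
  have hc : cos φ = r ^ n / 2 := cos_arccos (by linarith) (by linarith)
  have hcs : cos (sg i.2 * φ) = r ^ n / 2 := by
    unfold sg
    split_ifs <;> simp [hc]
  have e : petal n i r ^ n = ((r ^ n : ℝ) : ℂ) * Complex.exp (((sg i.2 * φ : ℝ) : ℂ) * Complex.I) := by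
    unfold petal
    rw [mul_pow, ← Complex.exp_nat_mul, ← hφ]
    have : (n : ℂ) * (Complex.I * (((2 * π * i.1 + sg i.2 * φ) / n : ℝ) : ℂ)) =
        ((sg i.2 * φ : ℝ) : ℂ) * Complex.I + ((i.1 : ℕ) : ℂ) * (2 * π * Complex.I) := by
      have : (n : ℂ) ≠ 0 := by exact_mod_cast hn'
      push_cast
      field_simp
      ring
    rw [this, Complex.exp_add, Complex.exp_nat_mul_two_pi_mul_I]
    push_cast
    ring
  rw [e]
  have h1 : ‖((r ^ n : ℝ) : ℂ) * Complex.exp (((sg i.2 * φ : ℝ) : ℂ) * Complex.I) - 1‖ ^ 2 = 1 := by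
    rw [Complex.sq_norm, Complex.normSq_apply]
    simp only [Complex.sub_re, Complex.sub_im, Complex.re_ofReal_mul, Complex.im_ofReal_mul,
      Complex.exp_ofReal_mul_I_re, Complex.exp_ofReal_mul_I_im, Complex.one_re, Complex.one_im,
      sub_zero]
    have := Real.sin_sq_add_cos_sq (sg i.2 * φ)
    rw [hcs] at this ⊢
    generalize r ^ n = x at *
    generalize sin (sg i.2 * φ) = s at *
    have h2 : x * s * (x * s) = x ^ 2 * s ^ 2 := by ring
    have h3 : s ^ 2 = 1 - (x / 2) ^ 2 := by linarith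
    rw [h2, h3]
    ring
  exact (pow_eq_one_iff_of_nonneg (norm_nonneg _) two_ne_zero).mp h1

lemma petal_inj (n : ℕ) (hn : 1 ≤ n) (i j : Fin n × Bool) (r : ℝ) (hr : 0 < r) (hr2 : r ^ n < 2)
    (h : petal n i r = petal n j r) : i = j := by
  have hn' : (0 : ℝ) < n := by positivity
  have h0 : 0 < r ^ n := by positivity
  unfold petal at h
  set φ := arccos (r ^ n / 2) with hφ
  have hφ1 : 0 < φ := arccos_pos.mpr (by linarith)
  have hφ2 : φ < π / 2 := arccos_lt_pi_div_two.mpr (by linarith)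
  have h1 := mul_left_cancel₀ (by exact_mod_cast hr.ne') h
  obtain ⟨m, hm⟩ := Complex.exp_eq_exp_iff_exists_int.mp h1
  have h2 : (2 * π * i.1 + sg i.2 * φ) / n = (2 * π * j.1 + sg j.2 * φ) / n + m * (2 * π) := by
    have := congrArg Complex.im hm
    simpa using this
  have h3 : 2 * π * ((i.1 : ℝ) - j.1 - m * n) = (sg j.2 - sg i.2) * φ := by
    field_simp at h2
    linarith
  have hpi := Real.pi_pos
  have h4 : |(sg j.2 - sg i.2) * φ| < 2 * π := by
    unfold sg
    rw [abs_lt]
    split_ifs <;> constructor <;> linarith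
  rw [← h3, abs_mul, abs_of_pos (by positivity : 0 < 2 * π)] at h4
  have h5 : |(i.1 : ℝ) - j.1 - m * n| < 1 := by
    by_contra hc
    have := mul_le_mul_of_nonneg_left (not_lt.mp hc) (by positivity : 0 ≤ 2 * π)
    linarith
  have h6 : ((i.1 : ℕ) : ℤ) - ((j.1 : ℕ) : ℤ) - m * n = 0 := by
    rw [← Int.abs_lt_one_iff]
    exact_mod_cast h5
  have h7 : (i.1 : ℝ) - j.1 - m * n = 0 := by exact_mod_cast h6
  rw [h7, mul_zero] at h3
  have h8 : sg j.2 = sg i.2 := by
    rcases mul_eq_zero.mp h3.symm with h | h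
    · linarith
    · linarith
  have hi := i.1.2
  have hj := j.1.2
  have hm0 : m = 0 := by
    by_contra hc
    rcases lt_or_gt_of_ne hc with hc | hc
    · have : m * n ≤ -1 * n := by gcongr; omega
      omega
    · have : 1 * (n : ℤ) ≤ m * n := by gcongr; omega
      omega
  rw [hm0] at h6
  refine Prod.ext (Fin.ext (by omega)) ?_
  unfold sg at h8
  cases hi2 : i.2 <;> cases hj2 : j.2 <;> simp [hi2, hj2] at h8 ⊢ <;> linarith

theorem lower (n : ℕ) (hn : 1 ≤ n) (R d : ℝ) (hR : 1 ≤ R) (hRn : R ^ n ≤ 2) (hd0 : 0 ≤ d)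
    (hd : ∀ i, d ≤ ‖petal n i R - petal n i 1‖) :
    ENNReal.ofReal (2 * n * (1 + d)) ≤
      Measure.hausdorffMeasure (1 : ℝ) {z : ℂ | ‖z ^ n - 1‖ = 1} := by
  have hinj : ∀ i, InjOn (petal n i) (Ioi 0) := by
    intro i r hr s hs h
    rw [← norm_petal n i r (le_of_lt hr), h, norm_petal n i s (le_of_lt hs)]
  have hmeas : ∀ i a b, 0 ≤ a → MeasurableSet (petal n i '' Ioo a b) := fun i a b ha =>
    measurableSet_Ioo.image_of_continuousOn_injOn (petal_cont n i).continuousOn
      ((hinj i).mono fun x hx => lt_of_le_of_lt ha hx.1)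
  have hlt : ∀ r ∈ Ioo 0 R, r ^ n < 2 := fun r hr =>
    (pow_lt_pow_left₀ hr.2 hr.1.le (by omega)).trans_le hRn
  have hdisj : Pairwise (Function.onFun Disjoint fun i => petal n i '' Ioo 0 R) := by
    intro i j hij
    rw [Function.onFun, Set.disjoint_left]
    rintro _ ⟨r, hr, rfl⟩ ⟨s, hs, h⟩
    have : s = r := by rw [← norm_petal n j s hs.1.le, h, norm_petal n i r hr.1.le]
    subst this
    exact hij (petal_inj n hn j i s hs.1 (hlt s hs) h).symm
  have hsub : (⋃ i, petal n i '' Ioo 0 R) ⊆ {z : ℂ | ‖z ^ n - 1‖ = 1} := by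
    rintro _ ⟨_, ⟨i, rfl⟩, r, hr, rfl⟩
    exact petal_mem n hn i r hr.1.le (hlt r hr).le
  refine le_trans ?_ (measure_mono hsub)
  rw [measure_iUnion hdisj (fun i => hmeas i 0 R le_rfl), tsum_fintype]
  have hone : ∀ i, ENNReal.ofReal (1 + d) ≤
      Measure.hausdorffMeasure (1 : ℝ) (petal n i '' Ioo 0 R) := by
    intro i
    have hd2 : Disjoint (petal n i '' Ioo 0 1) (petal n i '' Ioo 1 R) := by
      rw [Set.disjoint_left]
      rintro _ ⟨r, hr, rfl⟩ ⟨s, hs, h⟩
      have : s = r := hinj i (lt_trans one_pos hs.1) hr.1 h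
      linarith [hs.1, hr.2]
    have hs : petal n i '' Ioo 0 1 ∪ petal n i '' Ioo 1 R ⊆ petal n i '' Ioo 0 R :=
      union_subset (image_mono (Ioo_subset_Ioo_right hR))
        (image_mono (Ioo_subset_Ioo_left zero_le_one))
    refine le_trans ?_ (measure_mono hs)
    rw [measure_union hd2 (hmeas i 1 R zero_le_one), ENNReal.ofReal_add zero_le_one hd0]
    apply add_le_add
    · have := dist_le_curve _ (petal_cont n i) 0 1 zero_le_one
      have e : petal n i 0 = 0 := by simp [petal]
      rwa [e, sub_zero, norm_petal n i 1 zero_le_one] at this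
    · exact (ENNReal.ofReal_le_ofReal (hd i)).trans (dist_le_curve _ (petal_cont n i) 1 R hR)
  refine le_trans ?_ (Finset.sum_le_sum fun i _ => hone i)
  rw [Finset.sum_const, Finset.card_univ, Fintype.card_prod, Fintype.card_fin, Fintype.card_bool,
    nsmul_eq_mul, ENNReal.ofReal_mul (by positivity)]
  gcongr
  rw [show (2 * n : ℝ) = ((n * 2 : ℕ) : ℝ) by push_cast; ring, ENNReal.ofReal_natCast]

lemma petal_four (R : ℝ) (hR : R ^ 4 = 2) (i : Fin 4 × Bool) :
    ‖petal 4 i R - petal 4 i 1‖ ^ 2 = R ^ 2 - 2 * R * cos (π / 12) + 1 := by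
  have h1 : arccos (R ^ 4 / 2) = 0 := by rw [hR]; simp
  have h2 : arccos (1 ^ 4 / 2) = π / 3 := by
    rw [one_pow, ← Real.cos_pi_div_three, arccos_cos (by positivity) (by linarith [pi_pos])]
  have e : petal 4 i R - petal 4 i 1 =
      Complex.exp (Complex.I * ((2 * π * i.1 / 4 : ℝ) : ℂ)) *
        (R - Complex.exp (((sg i.2 * (π / 12) : ℝ) : ℂ) * Complex.I)) := by
    unfold petal
    rw [h1, h2, mul_sub, ← Complex.exp_add]
    congr 1
    · rw [mul_comm]
      congr 2
      push_cast
      ring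
    · rw [Complex.ofReal_one, one_mul]
      congr 1
      push_cast
      ring
  have hc : cos (sg i.2 * (π / 12)) = cos (π / 12) := by
    unfold sg
    split_ifs <;> simp
  rw [e, norm_mul, Complex.norm_exp_I_mul_ofReal, one_mul, Complex.sq_norm, Complex.normSq_apply]
  simp only [Complex.sub_re, Complex.sub_im, Complex.ofReal_re, Complex.ofReal_im,
    Complex.exp_ofReal_mul_I_re, Complex.exp_ofReal_mul_I_im]
  have := Real.sin_sq_add_cos_sq (sg i.2 * (π / 12))
  rw [hc] at this ⊢
  nlinarith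

theorem lower_final (n : ℕ) (hn : 4 ≤ n) :
    ENNReal.ofReal (4 * π * (2 : ℝ) ^ (-(1 : ℝ) / n)) <
      Measure.hausdorffMeasure (1 : ℝ) {z : ℂ | ‖z ^ n - 1‖ = 1} := by
  have hn' : (0 : ℝ) < n := by positivity
  set R := (2 : ℝ) ^ ((1 : ℝ) / n) with hRdef
  have hR1 : 1 ≤ R := Real.one_le_rpow (by norm_num) (by positivity)
  have hRn : R ^ n = 2 := by
    rw [hRdef, ← Real.rpow_natCast, ← Real.rpow_mul (by norm_num), one_div_mul_cancel hn'.ne',
      Real.rpow_one]
  have hinv : (2 : ℝ) ^ (-(1 : ℝ) / n) = R⁻¹ := by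
    rw [neg_div, Real.rpow_neg (by norm_num)]
  rw [hinv]
  have hpi := Real.pi_lt_d2
  have hpi0 := Real.pi_pos
  rcases hn.eq_or_lt with rfl | h5
  · have hlo : 1.189 < R := by
      by_contra hc
      have := pow_le_pow_left₀ (by linarith) (not_lt.mp hc) 4
      rw [hRn] at this
      norm_num at this
    have hhi : R < 1.19 := by
      by_contra hc
      have := pow_le_pow_left₀ (by norm_num) (not_lt.mp hc) 4
      rw [hRn] at this
      norm_num at this
    have hcos : cos (π / 12) ≤ 0.967 := by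
      have h1 := Real.cos_two_mul (π / 12)
      rw [show 2 * (π / 12) = π / 6 by ring, Real.cos_pi_div_six] at h1
      have h2 : √3 < 1.74 := by
        rw [Real.sqrt_lt' (by norm_num)]; norm_num
      by_contra hc
      have := not_le.mp hc
      nlinarith
    have hd : ∀ i, (0.33 : ℝ) ≤ ‖petal 4 i R - petal 4 i 1‖ := by
      intro i
      have := petal_four R hRn i
      apply le_of_pow_le_pow_left₀ two_ne_zero (norm_nonneg _)
      rw [this]
      nlinarith
    refine lt_of_lt_of_le ?_ (lower 4 (by norm_num) R 0.33 hR1 hRn.le (by norm_num) hd)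
    rw [ENNReal.ofReal_lt_ofReal_iff (by norm_num), ← div_eq_mul_inv, div_lt_iff₀ (by linarith)]
    push_cast
    nlinarith
  · have hd : ∀ i, R - 1 ≤ ‖petal n i R - petal n i 1‖ := by
      intro i
      have := norm_sub_norm_le (petal n i R) (petal n i 1)
      rwa [norm_petal n i R (by linarith), norm_petal n i 1 zero_le_one] at this
    refine lt_of_lt_of_le ?_ (lower n (by omega) R (R - 1) hR1 hRn.le (by linarith) hd)
    rw [ENNReal.ofReal_lt_ofReal_iff (by nlinarith), ← div_eq_mul_inv, div_lt_iff₀ (by linarith)]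
    have key : 2 * π < n * R ^ 2 := by
      rcases (Nat.succ_le_of_lt h5).eq_or_lt with rfl | h6
      · have hlo : 1.14 < R := by
          by_contra hc
          have := pow_le_pow_left₀ (by linarith) (not_lt.mp hc) 5
          rw [hRn] at this
          norm_num at this
        push_cast
        nlinarith
      · rcases (Nat.succ_le_of_lt h6).eq_or_lt with rfl | h7
        · have hlo : 1.1 < R := by
            by_contra hc
            have := pow_le_pow_left₀ (by linarith) (not_lt.mp hc) 6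
            rw [hRn] at this
            norm_num at this
          push_cast
          nlinarith
        · have : (7 : ℝ) ≤ n := by exact_mod_cast h7
          nlinarith
    nlinarith

end Pool.Agent.Lib.MP_f225de_an
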