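import Mathlib

set_option autoImplicit false

open MeasureTheory Set Filter Topology Complex
open scoped Real ComplexConjugate

namespace Pool.Agent.Lib.MP_f225de_an.MA

/-- the real linear form `h ↦ Re (G h)` -/
noncomputable def gl (G : ℂ) : ℂ →L[ℝ] ℝ := reCLM.comp (ContinuousLinearMap.mul ℝ ℂ G)

@[simp] lemma gl_apply (G h : ℂ) : gl G h = (G * h).re := rfl

/-- `G = F_x - i F_y` at `u` -/
def Gr (F : ℂ → ℝ) (G u : ℂ) : Prop := HasFDerivAt F (gl G) u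

/-- `D` is the divergence at `u` of the field `(Re J, - Im J)` -/
def Dv (J : ℂ → ℂ) (D : ℝ) (u : ℂ) : Prop :=
  ∃ L : ℂ →L[ℝ] ℂ, HasFDerivAt J L u ∧ (L 1).re - (L I).im = D

lemma Gr.congr {F : ℂ → ℝ} {G G' u : ℂ} (h : Gr F G u) (e : G = G') : Gr F G' u := e ▸ h

lemma Dv.congr {J : ℂ → ℂ} {D D' : ℝ} {u : ℂ} (h : Dv J D u) (e : D = D') : Dv J D' u := e ▸ h

lemma Gr.add {F F' : ℂ → ℝ} {G G' u : ℂ} (h : Gr F G u) (h' : Gr F' G' u) :
    Gr (fun v => F v + F' v) (G + G') u :=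
  (HasFDerivAt.add h h').congr_fderiv (by ext; simp [add_mul])

lemma Gr.sub {F F' : ℂ → ℝ} {G G' u : ℂ} (h : Gr F G u) (h' : Gr F' G' u) :
    Gr (fun v => F v - F' v) (G - G') u :=
  (HasFDerivAt.sub h h').congr_fderiv (by ext; simp [sub_mul])

lemma Gr.comp {F : ℂ → ℝ} {G u : ℂ} {f : ℝ → ℝ} {f' : ℝ} (hf : HasDerivAt f f' (F u))
    (h : Gr F G u) : Gr (fun v => f (F v)) (f' * G) u :=
  (hf.comp_hasFDerivAt u h).congr_fderiv (by ext; simp [mul_assoc])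

lemma Gr.mul {F F' : ℂ → ℝ} {G G' u : ℂ} (h : Gr F G u) (h' : Gr F' G' u) :
    Gr (fun v => F v * F' v) (F u * G' + F' u * G) u :=
  (HasFDerivAt.mul h h').congr_fderiv (by ext; simp [add_mul, mul_assoc])

lemma Gr.norm {k : ℂ → ℂ} {k' u : ℂ} (hk : HasDerivAt k k' u) (h0 : k u ≠ 0) :
    Gr (fun v => ‖k v‖) (‖k u‖ * (k' / k u)) u := by
  have hn : 0 < ‖k u‖ := norm_pos_iff.2 h0
  have h1 := (hk.hasFDerivAt.restrictScalars ℝ).norm_sq.sqrt (by positivity)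
  simp only [Real.sqrt_sq (norm_nonneg _)] at h1
  refine h1.congr_fderiv ?_
  ext1 v
  have : (‖k u‖ : ℂ) * (k' / k u) * v = (‖k u‖⁻¹ : ℝ) * (conj (k u) * (k' * v)) := by
    have h2 : conj (k u) = (‖k u‖ : ℂ) ^ 2 / k u := by
      rw [eq_div_iff h0, conj_mul']
    have h3 : (‖k u‖ : ℂ) ≠ 0 := by exact_mod_cast hn.ne'
    rw [h2]; push_cast; field_simp
  rw [gl_apply, this, re_ofReal_mul]
  simp [Complex.inner]
  field_simp
  ring

lemma Gr.log {k : ℂ → ℂ} {k' u : ℂ} (hk : HasDerivAt k k' u) (h0 : k u ≠ 0) :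
    Gr (fun v => Real.log ‖k v‖) (k' / k u) u := by
  have hn : ‖k u‖ ≠ 0 := norm_ne_zero_iff.2 h0
  have h3 : (‖k u‖ : ℂ) ≠ 0 := by exact_mod_cast hn
  exact (Gr.comp (F := fun v => ‖k v‖) (Real.hasDerivAt_log hn) (Gr.norm hk h0)).congr (by push_cast; field_simp)

lemma Dv.hol {k : ℂ → ℂ} {u : ℂ} (hk : DifferentiableAt ℂ k u) : Dv k 0 u :=
  ⟨_, hk.hasDerivAt.hasFDerivAt.restrictScalars ℝ, by simp⟩

lemma Dv.sub {J J' : ℂ → ℂ} {D D' : ℝ} {u : ℂ} (h : Dv J D u) (h' : Dv J' D' u) :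
    Dv (fun v => J v - J' v) (D - D') u := by
  obtain ⟨L, h1, rfl⟩ := h
  obtain ⟨L', h2, rfl⟩ := h'
  exact ⟨_, h1.sub h2, by simp; ring⟩

lemma Dv.smul {F : ℂ → ℝ} {G u : ℂ} {J : ℂ → ℂ} {D : ℝ} (h : Gr F G u) (h' : Dv J D u) :
    Dv (fun v => F v * J v) (F u * D + (G * conj (J u)).re) u := by
  obtain ⟨L, h1, rfl⟩ := h'
  exact ⟨_, (ofRealCLM.hasFDerivAt.comp u h).mul h1, by simp; ring⟩

lemma Dv.area {Z : ℂ → ℂ} {u : ℂ} (hZ : AnalyticAt ℂ Z u) :
    Dv (fun v => conj (Z v) * deriv Z v) (2 * ‖deriv Z u‖ ^ 2) u := by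
  have h1 := hZ.differentiableAt.hasDerivAt.hasFDerivAt.restrictScalars ℝ
  have h2 := hZ.deriv.differentiableAt.hasDerivAt.hasFDerivAt.restrictScalars ℝ
  refine ⟨_, (conjCLE.hasFDerivAt.comp u h1).mul h2, ?_⟩
  rw [Complex.sq_norm, normSq_apply]
  simp
  ring

/-- polar coordinates -/
noncomputable def pl (p : ℝ × ℝ) : ℂ := p.1 * exp (p.2 * I)

lemma pl_cd : ContDiff ℝ 1 pl :=
  (ofRealCLM.contDiff.comp contDiff_fst).mul
    (((ofRealCLM.contDiff.comp contDiff_snd).mul contDiff_const).cexp)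

lemma pl_cont : Continuous pl := pl_cd.continuous

lemma norm_pl (p : ℝ × ℝ) : ‖pl p‖ = |p.1| := by simp [pl]

/-- divergence theorem on a polar rectangle -/
theorem pdiv {J : ℂ → ℂ} {D : ℂ → ℝ} {a b c d : ℝ} (hab : a ≤ b) (hcd : c ≤ d)
    (hc : ContinuousOn (fun p => J (pl p)) (Icc a b ×ˢ Icc c d))
    (hd : ∀ p ∈ Ioo a b ×ˢ Ioo c d, Dv J (D (pl p)) (pl p))
    (hi : IntegrableOn (fun p => p.1 * D (pl p)) (Ioo a b ×ˢ Ioo c d)) :
    ∫ p in Ioo a b ×ˢ Ioo c d, p.1 * D (pl p) =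
      (((∫ x in a..b, (exp (c * I) * J (pl (x, c))).im) -
        ∫ x in a..b, (exp (d * I) * J (pl (x, d))).im) +
        ∫ y in c..d, (pl (b, y) * J (pl (b, y))).re) -
        ∫ y in c..d, (pl (a, y) * J (pl (a, y))).re := by
  let f : ℝ × ℝ → ℝ := fun p => (pl p * J (pl p)).re
  let g : ℝ × ℝ → ℝ := fun p => -(exp (p.2 * I) * J (pl p)).im
  have he : Continuous fun p : ℝ × ℝ => exp (p.2 * I) := by fun_prop
  have key : ∀ p ∈ Ioo a b ×ˢ Ioo c d, DifferentiableAt ℝ f p ∧ DifferentiableAt ℝ g p ∧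
      fderiv ℝ f p (1, 0) + fderiv ℝ g p (0, 1) = p.1 * D (pl p) := fun p hp => by
    obtain ⟨L, h1, h2⟩ := hd p hp
    have e0 := (((ofRealCLM.hasFDerivAt.comp p (hasFDerivAt_snd (𝕜 := ℝ) (p := p))).mul_const
      I).cexp)
    have e1 : HasFDerivAt pl _ p :=
      (ofRealCLM.hasFDerivAt.comp p (hasFDerivAt_fst (𝕜 := ℝ) (p := p))).mul e0
    have e2 : HasFDerivAt f _ p := reCLM.hasFDerivAt.comp p (e1.mul (h1.comp p e1))
    have e3 : HasFDerivAt g _ p := (imCLM.hasFDerivAt.comp p (e0.mul (h1.comp p e1))).neg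
    refine ⟨e2.differentiableAt, e3.differentiableAt, ?_⟩
    have hL : ∀ z : ℂ, L z = z.re * L 1 + z.im * L I := fun z => by
      conv_lhs => rw [← re_add_im z]
      rw [map_add, ← real_smul, ← mul_one (z.re : ℂ), ← real_smul, map_smul, map_smul]
      simp
    rw [e2.fderiv, e3.fderiv, ← h2]
    simp only [ContinuousLinearMap.comp_apply, add_apply, smul_apply, neg_apply]
    rw [hL, hL (_ + _)]
    have := Real.cos_sq_add_sin_sq p.2
    simp [pl, exp_ofReal_mul_I_re, exp_ofReal_mul_I_im, cos_ofReal_re, sin_ofReal_re]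
    linear_combination (p.1 * ((L 1).re - (L I).im)) * this
  have hm : MeasurableSet (Ioo a b ×ˢ Ioo c d) := measurableSet_Ioo.prod measurableSet_Ioo
  have hr : (volume : Measure (ℝ × ℝ)).restrict (Ioo a b ×ˢ Ioo c d) =
      volume.restrict (Icc a b ×ˢ Icc c d) :=
    Measure.restrict_congr_set (Measure.set_prod_ae_eq Ioo_ae_eq_Icc Ioo_ae_eq_Icc)
  have hi2 : IntegrableOn (fun p => fderiv ℝ f p (1, 0) + fderiv ℝ g p (0, 1))
      (Icc a b ×ˢ Icc c d) := by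
    rw [IntegrableOn, ← hr]
    exact hi.congr_fun (fun p hp => (key p hp).2.2.symm) hm
  have := integral2_divergence_prod_of_hasFDerivAt f g (fderiv ℝ f) (fderiv ℝ g) a c b d
  rw [uIcc_of_le hab, uIcc_of_le hcd, min_eq_left hab, max_eq_right hab, min_eq_left hcd,
    max_eq_right hcd] at this
  have := this (continuous_re.comp_continuousOn (pl_cont.continuousOn.mul hc))
    (continuous_im.comp_continuousOn (he.continuousOn.mul hc)).neg
    (fun p hp => (key p hp).1.hasFDerivAt) (fun p hp => (key p hp).2.1.hasFDerivAt) hi2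
  rw [intervalIntegral.integral_of_le hab, ← integral_Icc_eq_integral_Ioc] at this
  simp only [intervalIntegral.integral_of_le hcd (f := fun y =>
    fderiv ℝ f (_, y) (1, 0) + fderiv ℝ g (_, y) (0, 1)), ← integral_Icc_eq_integral_Ioc] at this
  rw [← setIntegral_congr_fun hm fun p hp => (key p hp).2.2, hr]
  refine ((setIntegral_prod _ hi2).trans this).trans ?_
  simp only [f, g, intervalIntegral.integral_neg]
  ring

end Pool.Agent.Lib.MP_f225de_an.MA
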