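import Pool.Agent.Lib.MP_f225de_an.MA1

set_option autoImplicit false

open MeasureTheory Set Filter Topology Complex
open scoped Real ComplexConjugate

namespace Pool.Agent.Lib.MP_f225de_an.MA

lemma r_ge_rho {p : ℝ × ℝ} (h : 0 ≤ p.1) : |p.1 - 1| ≤ ‖pl p - 1‖ := by
  have := abs_norm_sub_norm_le (pl p) 1
  rwa [norm_pl, abs_of_nonneg h, norm_one] at this

lemma r_ge_th {p : ℝ × ℝ} (h : 0 ≤ p.1) (h0 : 0 ≤ p.2) (h1 : p.2 ≤ π) :
    p.2 / π ≤ ‖pl p - 1‖ := by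
  have hπ := Real.pi_pos
  rcases le_total p.2 (π / 2) with h2 | h2
  · have h3 := Real.mul_le_sin h0 h2
    have h4 : ‖pl p - 1‖ = ‖(pl p - 1) * exp (-p.2 * I)‖ := by
      rw [norm_mul, ← ofReal_neg, norm_exp_ofReal_mul_I, mul_one]
    have h5 : ((pl p - 1) * exp (-p.2 * I)).im = Real.sin p.2 := by
      rw [sub_mul, pl, mul_assoc, ← exp_add, neg_mul, add_neg_cancel, ← neg_mul, ← ofReal_neg]
      simp [exp_ofReal_mul_I_im, -ofReal_neg]
    have h6 := im_le_norm ((pl p - 1) * exp (-p.2 * I))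
    have : p.2 / π ≤ 2 / π * p.2 := by
      rw [div_mul_eq_mul_div]; gcongr; linarith
    linarith
  · have h3 := Real.cos_nonpos_of_pi_div_two_le_of_le h2 (by linarith)
    have h4 := abs_re_le_norm (pl p - 1)
    have h5 : (pl p - 1).re = p.1 * Real.cos p.2 - 1 := by simp [pl, exp_ofReal_mul_I_re]
    have h6 := neg_abs_le (pl p - 1).re
    have : p.2 / π ≤ 1 := (div_le_one hπ).2 h1
    nlinarith

lemma int_abs {a : ℝ} (ha : a < 1) (c x y : ℝ) :
    IntervalIntegrable (fun t => |t - c| ^ (-a)) volume x y := by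
  have h0 : ∀ z : ℝ, 0 ≤ z → IntervalIntegrable (fun t => |t| ^ (-a)) volume 0 z := fun z hz =>
    (intervalIntegral.intervalIntegrable_rpow' (a := 0) (b := z) (r := -a) (by linarith)).congr
      fun t ht => by
        rw [uIoc_of_le hz] at ht
        simp only [abs_of_pos ht.1]
  have h1 : ∀ z : ℝ, IntervalIntegrable (fun t => |t| ^ (-a)) volume 0 z := fun z => by
    rcases le_total 0 z with hz | hz
    · exact h0 z hz
    · simpa using (IntervalIntegrable.iff_comp_neg (by simp)).1 (h0 (-z) (by linarith))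
  simpa using ((h1 (x - c)).symm.trans (h1 (y - c))).comp_sub_right c

lemma int2 {a x y σ : ℝ} (ha0 : 0 ≤ a) (ha : a < 2) (hx : 0 ≤ x) (hxy : x ≤ y) (h0 : 0 ≤ σ)
    (hσ : σ ≤ π) : IntegrableOn (fun p => ‖pl p - 1‖ ^ (-a)) (Ioo x y ×ˢ Ioo 0 σ) := by
  have hπ := Real.pi_pos
  have h1 := (intervalIntegrable_iff_integrableOn_Ioo_of_le hxy).1
    (int_abs (a := a / 2) (by linarith) 1 x y)
  have h2 := (intervalIntegrable_iff_integrableOn_Ioo_of_le h0).1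
    ((int_abs (a := a / 2) (by linarith) 0 0 σ).const_mul (π ^ (a / 2)))
  have h3 := Integrable.mul_prod h1 h2
  rw [Measure.prod_restrict] at h3
  have hm : MeasurableSet (Ioo x y ×ˢ Ioo 0 σ) := measurableSet_Ioo.prod measurableSet_Ioo
  have hne : ∀ᵐ p : ℝ × ℝ, p.1 ≠ 1 := by
    have := Measure.prod_prod (μ := (volume : Measure ℝ)) (ν := (volume : Measure ℝ)) {1} univ
    rw [ae_iff]
    simp only [measure_singleton, zero_mul] at this
    exact measure_mono_null (fun p hp => by simpa using hp) this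
  refine h3.mono' (Measurable.aestronglyMeasurable
    ((pl_cont.sub continuous_const).norm.measurable.pow_const _)) ?_
  filter_upwards [ae_restrict_mem hm, ae_restrict_of_ae hne] with p hp h
  have e1 := r_ge_rho (p := p) (hx.trans hp.1.1.le)
  have e2 := r_ge_th (p := p) (hx.trans hp.1.1.le) hp.2.1.le (hp.2.2.le.trans hσ)
  have e3 : 0 < |p.1 - 1| := abs_pos.2 (sub_ne_zero.2 h)
  have e4 : 0 < p.2 / π := div_pos hp.2.1 hπ
  have e5 : π ^ (a / 2) * |p.2 - 0| ^ (-(a / 2)) = (p.2 / π) ^ (-(a / 2)) := by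
    rw [sub_zero, abs_of_pos hp.2.1, Real.div_rpow hp.2.1.le hπ.le, Real.rpow_neg hπ.le]
    field_simp
  rw [Real.norm_of_nonneg (by positivity), e5, show -a = -(a / 2) + -(a / 2) by ring,
    Real.rpow_add (e3.trans_le e1)]
  exact mul_le_mul (Real.rpow_le_rpow_of_nonpos e3 e1 (by linarith))
    (Real.rpow_le_rpow_of_nonpos e4 e2 (by linarith)) (by positivity) (by positivity)

/-- elementary certificate -/
noncomputable def ps (s α β : ℝ) (u : ℂ) : ℝ :=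
  Real.log (‖u - 1‖ + s) - Real.log ‖α * u + β‖

/-- its gradient -/
noncomputable def gc (s α β : ℝ) (u : ℂ) : ℂ :=
  (‖u - 1‖ / (‖u - 1‖ + s) : ℝ) / (u - 1) - α / (α * u + β)

/-- its Laplacian -/
noncomputable def nu (s r : ℝ) : ℝ := s / (r * (r + s) ^ 2)

/-- the bounds on the linear factor -/
def Kb (s α β : ℝ) (u : ℂ) : Prop :=
  0 < s ∧ |α| ≤ 1 ∧ s ≤ ‖α * u + β‖ ∧ |‖u - 1‖ - s| ≤ ‖α * u + β‖ ∧
    ‖α * u + β‖ ≤ ‖u - 1‖ + s

lemma kb_out {s : ℝ} (hs : s ∈ Ioo (0 : ℝ) 1) {u : ℂ} (hu : 1 ≤ ‖u‖) : Kb s 1 (s - 1) u := by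
  have h0 : ‖(s : ℂ)‖ = s := by rw [norm_real, Real.norm_of_nonneg hs.1.le]
  have h1 : ((1 : ℝ) : ℂ) * u + (s - 1 : ℝ) = (u - 1) + s := by push_cast; ring
  refine ⟨hs.1, by simp, ?_, ?_, ?_⟩
  · have := norm_sub_norm_le u ((1 - s : ℝ) : ℂ)
    rw [norm_real, Real.norm_of_nonneg (by linarith [hs.2])] at this
    rw [show ((1 : ℝ) : ℂ) * u + (s - 1 : ℝ) = u - (1 - s : ℝ) by push_cast; ring]
    linarith
  · have := abs_norm_sub_norm_le (u - 1) (-(s : ℂ))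
    rwa [norm_neg, h0, sub_neg_eq_add, ← h1] at this
  · rw [h1]; exact (norm_add_le _ _).trans (by rw [h0])

lemma kb_in {s : ℝ} (hs : s ∈ Ioo (0 : ℝ) 1) {u : ℂ} (hu : ‖u‖ ≤ 1) : Kb s (s - 1) 1 u := by
  have hx : 0 < 1 - s := by linarith [hs.2]
  have h0 : ‖((1 - s : ℝ) : ℂ)‖ = 1 - s := by rw [norm_real, Real.norm_of_nonneg hx.le]
  have h3 : ‖(s : ℂ)‖ = s := by rw [norm_real, Real.norm_of_nonneg hs.1.le]
  have h1 : ((s - 1 : ℝ) : ℂ) * u + (1 : ℝ) = s * u - (u - 1) := by push_cast; ring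
  have h2 : ((s - 1 : ℝ) : ℂ) * u + (1 : ℝ) = s - (1 - s : ℝ) * (u - 1) := by push_cast; ring
  have h4 : ‖(s : ℂ) * u‖ ≤ s := by rw [norm_mul, h3]; nlinarith [hs.1]
  refine ⟨hs.1, by rw [abs_sub_comm, abs_of_pos hx]; linarith [hs.1], ?_, abs_le.2 ⟨?_, ?_⟩, ?_⟩
  · have := norm_sub_norm_le (1 : ℂ) ((1 - s : ℝ) * u)
    rw [norm_mul, h0, norm_one] at this
    rw [show ((s - 1 : ℝ) : ℂ) * u + (1 : ℝ) = 1 - (1 - s : ℝ) * u by push_cast; ring]
    nlinarith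
  · have := norm_sub_norm_le (s : ℂ) ((1 - s : ℝ) * (u - 1))
    rw [norm_mul, h3, h0, ← h2] at this
    nlinarith [hs.1, norm_nonneg (u - 1)]
  · have := norm_sub_norm_le (u - 1) (s * u)
    rw [norm_sub_rev (u - 1), ← h1] at this
    linarith
  · rw [h1]; exact (norm_sub_le _ _).trans (by linarith)

lemma Kb.pos {s α β : ℝ} {u : ℂ} (h : Kb s α β u) : 0 < ‖α * u + β‖ := h.1.trans_le h.2.2.1

lemma Kb.ps_le {s α β : ℝ} {u : ℂ} (h : Kb s α β u) : 0 ≤ ps s α β u ∧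
    ps s α β u ≤ (‖u - 1‖ + s - ‖α * u + β‖) / ‖α * u + β‖ := by
  have h0 := h.pos
  refine ⟨sub_nonneg.2 (Real.log_le_log h0 h.2.2.2.2), ?_⟩
  have h1 : 0 < ‖u - 1‖ + s := h0.trans_le h.2.2.2.2
  rw [ps, ← Real.log_div h1.ne' h0.ne', sub_div, div_self h0.ne']
  exact Real.log_le_sub_one_of_pos (div_pos h1 h0)

lemma Kb.ps2 {s α β : ℝ} {u : ℂ} (h : Kb s α β u) : ps s α β u ≤ 2 := by
  refine h.ps_le.2.trans ((div_le_iff₀ h.pos).2 ?_)
  linarith [(abs_le.1 h.2.2.2.1).2, h.2.2.1]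

lemma Kb.psr {s α β : ℝ} {u : ℂ} (h : Kb s α β u) : ps s α β u ≤ 2 * ‖u - 1‖ / s :=
  h.ps_le.2.trans (div_le_div₀ (by positivity) (by linarith [(abs_le.1 h.2.2.2.1).1]) h.1 h.2.2.1)

lemma Kb.gc_le {s α β : ℝ} {u : ℂ} (h : Kb s α β u) :
    ‖gc s α β u‖ ≤ 4 / (‖u - 1‖ + s) := by
  have h0 := h.pos
  have hx := h.1
  have h1 : 0 < ‖u - 1‖ + s := by positivity
  refine (norm_sub_le _ _).trans ?_
  have e1 : ‖((‖u - 1‖ / (‖u - 1‖ + s) : ℝ) : ℂ) / (u - 1)‖ ≤ 1 / (‖u - 1‖ + s) := by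
    rw [norm_div, norm_real, Real.norm_of_nonneg (by positivity), div_right_comm]
    gcongr
    exact div_self_le_one _
  have e2 : ‖(α : ℂ) / (α * u + β)‖ ≤ 3 / (‖u - 1‖ + s) := by
    rw [norm_div, norm_real, div_le_div_iff₀ h0 h1]
    nlinarith [(abs_le.1 h.2.2.2.1).2, h.2.2.1, h.2.1, Real.norm_eq_abs α]
  linarith [add_div 1 3 (‖u - 1‖ + s), show (1 : ℝ) + 3 = 4 by norm_num]

lemma nu_le {s r : ℝ} (hs : 0 < s) (hr : 0 < r) : 0 ≤ nu s r ∧ nu s r ≤ 1 / r ^ 2 := by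
  refine ⟨by unfold nu; positivity, ?_⟩
  rw [nu, div_le_div_iff₀ (by positivity) (by positivity)]
  nlinarith [mul_pos hr (mul_pos hr hs), mul_pos hr (mul_pos hs hs), pow_pos hr 3]

lemma Kb.der {s α β : ℝ} {u : ℂ} (h : Kb s α β u) (hu : u ≠ 1) :
    Gr (ps s α β) (gc s α β u) u ∧ Dv (gc s α β) (nu s ‖u - 1‖) u := by
  have h0 := norm_pos_iff.1 h.pos
  have h1 : u - 1 ≠ 0 := sub_ne_zero.2 hu
  have hr : 0 < ‖u - 1‖ := norm_pos_iff.2 h1
  have hx := h.1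
  have h2 : ‖u - 1‖ + s ≠ 0 := by positivity
  have hk : HasDerivAt (fun v : ℂ => α * v + β) α u := by
    simpa using ((hasDerivAt_id u).const_mul (α : ℂ)).add_const (β : ℂ)
  have hn := Gr.norm ((hasDerivAt_id' u).sub_const 1) h1
  constructor
  · refine ((Gr.comp (F := fun v => ‖v - 1‖) (f := fun t => Real.log (t + s))
      (((hasDerivAt_id' _).add_const _).log h2) hn).sub (Gr.log hk h0)).congr ?_
    rw [gc]; push_cast; ring
  · have e1 := Dv.smul (Gr.comp (F := fun v => ‖v - 1‖) (f := fun t => t / (t + s))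
      ((hasDerivAt_id' _).div ((hasDerivAt_id' _).add_const _) h2) hn)
      (Dv.hol (k := fun v => (v - 1)⁻¹) (by fun_prop (disch := exact h1)))
    have e2 := e1.sub (Dv.hol (k := fun v => α / (α * v + β)) (by fun_prop (disch := exact h0)))
    refine Dv.congr e2 ?_
    rw [mul_zero, zero_add, sub_zero, one_div, mul_assoc, mul_assoc, mul_conj, ← ofReal_mul,
      ← ofReal_mul, ofReal_re, normSq_eq_norm_sq, norm_inv, nu]
    field_simp
    ring

end Pool.Agent.Lib.MP_f225de_an.MA
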