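import Mathlib

set_option autoImplicit false

open MeasureTheory Set Filter Topology
open scoped ENNReal NNReal Real

namespace Pool.Agent.Lib.MP_f225de_an.Sk

/-- directions at the node `1` in which the point at distance `r` lies in the half sector
of angle `s` -/
def Arc (s r : ℝ) : Set ℝ := {ψ | ψ ∈ Ioo 0 π ∧ r * Real.sin (ψ - s) < Real.sin s}

/-- normalised angle of the level arcs at level `y = log r` -/
noncomputable def lam (s y : ℝ) : ℝ := (volume (Arc s (Real.exp y))).toReal / (2 * π)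

/-- the disc of radius `exp y` about the node reaches the bisector -/
def touch (s y : ℝ) : Prop := (s ≤ π / 2 ∧ Real.sin s ≤ Real.exp y) ∨ 0 ≤ y

/-- combinatorial data of a cactus with simple nodes -/
structure Cmb (n : ℕ) where
  H : Type
  fin : Fintype H
  dec : DecidableEq H
  sig : H → ℝ
  nd : H → Fin (n - 1)
  pt : H → Fin n
  bis : H → H
  bis_inv : Function.Involutive bis
  bis_ne : ∀ h, bis h ≠ h
  rad : H → H
  rad_inv : Function.Involutive rad
  rad_ne : ∀ h, rad h ≠ h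
  nd_rad : ∀ h, nd (rad h) = nd h
  pt_rad : ∀ h, pt (rad h) = pt h
  sig_bis : ∀ h, sig (bis h) = sig h
  pt_bis : ∀ h, pt (bis h) = pt h
  sig_pos : ∀ h, 0 < sig h
  sig_le : ∀ h, sig h ≤ π
  sum_sig : ∀ j, ∑ h ∈ Finset.univ.filter (fun h => pt h = j), sig h = 2 * π
  card_nd : ∀ k, (Finset.univ.filter (fun h => nd h = k)).card = 4
  conn : ∀ L : H → Prop, (∀ h h', L h → L h' → pt h = pt h' → h' = h ∨ h' = bis h) →
    ∀ S : Set (Fin (n - 1)), S.Nonempty → (∀ h, ¬ L h → nd h ∈ S → nd (bis h) ∈ S) → S = univ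

attribute [instance] Cmb.fin Cmb.dec

variable {n : ℕ}

/-- half sectors at the nodes of `C` -/
def Cmb.cells (c : Cmb n) (C : Finset (Fin (n - 1))) : Finset c.H :=
  Finset.univ.filter fun h => c.nd h ∈ C

/-- the cluster `C` is closed at level `y` -/
def Cmb.Closed (c : Cmb n) (C : Finset (Fin (n - 1))) (y : ℝ) : Prop :=
  ∀ h, c.nd h ∈ C → touch (c.sig h) y → c.nd (c.bis h) ∈ C

/-- total normalised angle of a cluster -/
noncomputable def Cmb.lamC (c : Cmb n) (C : Finset (Fin (n - 1))) (y : ℝ) : ℝ :=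
  ∑ h ∈ c.cells C, lam (c.sig h) y

/-- total normalised square density of a cluster -/
noncomputable def Cmb.etaC (c : Cmb n) (η : ℝ → ℝ → ℝ) (C : Finset (Fin (n - 1))) (y : ℝ) : ℝ :=
  ∑ h ∈ c.cells C, η (c.sig h) y

/-- the differential inequality at level `y`: `q1` is the derivative of the value `q`,
`w1` the derivative of the logarithm of the multiplier -/
def Cmb.Step (c : Cmb n) (η : ℝ → ℝ → ℝ) (C : Finset (Fin (n - 1))) (y q q1 w1 : ℝ) : Prop :=
  c.Closed C y ∧ 0 ≤ w1 + 2 / n ∧ ∃ m : ℝ, 0 < m ∧ (w1 + 2 / n) * c.lamC C y ≤ 2 - m ∧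
    c.etaC η C y ≤ m * (q1 + w1 * q)

/-- the rules for the statement: cluster `C` has value at most `q` at level `y` -/
structure Sys (c : Cmb n) (η : ℝ → ℝ → ℝ) (S : Finset (Fin (n - 1)) → ℝ → ℝ → Prop) : Prop where
  mono : ∀ C y q q', q ≤ q' → S C y q → S C y q'
  union : ∀ C D y q q', Disjoint C D → S C y q → S D y q' → S (C ∪ D) y (q + q')
  step : ∀ C (a b : ℝ) (Q Q1 W W1 : ℝ → ℝ), a ≤ b → ContinuousOn Q (Icc a b) →
    ContinuousOn W (Icc a b) →
    (∀ y ∈ Ioo a b, HasDerivAt Q (Q1 y) y ∧ HasDerivAt W (W1 y) y ∧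
      c.Step η C y (Q y) (Q1 y) (W1 y)) → S C a (Q a) → S C b (Q b)
  start : ∀ C (b : ℝ) (Q Q1 W W1 : ℝ → ℝ), ContinuousOn Q (Iic b) → ContinuousOn W (Iic b) →
    (∀ y < b, 0 ≤ Q y ∧ HasDerivAt Q (Q1 y) y ∧ HasDerivAt W (W1 y) y ∧
      c.Step η C y (Q y) (Q1 y) (W1 y)) → S C b (Q b)

/-- the numerical statement on merge trees -/
def NSt (n : ℕ) (η : ℝ → ℝ → ℝ) : Prop :=
  ∀ (c : Cmb n) (S : Finset (Fin (n - 1)) → ℝ → ℝ → Prop), Sys c η S →
    ∀ y, 0 ≤ y → S Finset.univ y 1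

/-- area data on the half sectors -/
structure Area (c : Cmb n) (a : c.H → ℝ → ℝ) : Prop where
  cont : ∀ h, Continuous (a h)
  nonneg : ∀ h y, 0 ≤ a h y
  int : ∀ h y, IntegrableOn (a h) (Iic y)
  iso : ∀ C y, c.Closed C y →
    2 * ∑ h ∈ c.cells C, ∫ t in Iic y, a h t ≤ c.lamC C y * ∑ h ∈ c.cells C, a h y
  fin : ∀ ε > 0, ∀ᶠ y in atTop,
    ∑ h, ∫ t in Iic y, a h t ≤ π * (1 + ε) * Real.exp (2 * y / n)

/-- the cost integrand of a half sector -/
noncomputable def cost (n : ℕ) (e a y : ℝ) : ℝ≥0∞ :=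
  ENNReal.ofReal (Real.exp (-y / n) * Real.sqrt (2 * π * e * a))

end Pool.Agent.Lib.MP_f225de_an.Sk
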