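import Pool.Agent.Lib.MP_f225de_an.MA1
import Pool.Agent.Lib.MP_f225de_an.GE0
import Pool.Agent.Lib.MP_f225de_an.Sk0

set_option autoImplicit false

open MeasureTheory Set Filter Topology Complex
open scoped Real ComplexConjugate ENNReal

namespace Pool.Agent.Lib.MP_f225de_an.MA

open E Sk

/-- open sector -/
def So (σ : ℝ) : Set ℂ := {u | 0 < u.im ∧ (u * exp (-σ * I)).im < 0}

/-- the open sector in polar coordinates at the node -/
def AR (σ : ℝ) : Set (ℝ × ℝ) := {p | 0 < p.1 ∧ p.2 ∈ Arc σ p.1}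

lemma So_meas (σ : ℝ) : MeasurableSet (So σ) :=
  (measurableSet_lt measurable_const measurable_im).inter
    (measurableSet_lt (f := fun u : ℂ => (u * exp (-σ * I)).im) (by fun_prop) measurable_const)

lemma AR_meas (σ : ℝ) : MeasurableSet (AR σ) :=
  (measurableSet_lt measurable_const measurable_fst).inter ((measurable_snd measurableSet_Ioo).inter
    (measurableSet_lt (f := fun p : ℝ × ℝ => p.1 * Real.sin (p.2 - σ)) (by fun_prop)
      measurable_const))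

lemma pl_im (p : ℝ × ℝ) : (pl p).im = p.1 * Real.sin p.2 := by simp [pl, exp_ofReal_mul_I_im]

lemma pl_re (p : ℝ × ℝ) : (pl p).re = p.1 * Real.cos p.2 := by simp [pl, exp_ofReal_mul_I_re]

lemma pl_rot (p : ℝ × ℝ) (σ : ℝ) : pl p * exp (-σ * I) = pl (p.1, p.2 - σ) := by
  rw [pl, pl, mul_assoc, ← exp_add]; push_cast; ring_nf

lemma sin_pos_iff {t : ℝ} (h : t ∈ Ioo (-π) π) : 0 < Real.sin t ↔ 0 < t :=
  ⟨fun h1 => not_le.1 fun h2 => h1.not_ge (Real.sin_nonpos_of_nonpos_of_neg_pi_le h2 h.1.le),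
    fun h1 => Real.sin_pos_of_pos_of_lt_pi h1 h.2⟩

lemma So_pl {σ : ℝ} (h0 : 0 < σ) (hσ : σ ≤ π) {p : ℝ × ℝ} (hp : p ∈ Ioi 0 ×ˢ Ioo (-π) π) :
    pl p ∈ So σ ↔ p ∈ Ioi 0 ×ˢ Ioo 0 σ := by
  have h1 : 0 < p.1 := hp.1
  have e : p.1 * Real.sin (p.2 - σ) < 0 ↔ 0 < Real.sin (σ - p.2) := by
    rw [← neg_sub, Real.sin_neg, mul_neg, neg_lt_zero, mul_pos_iff_of_pos_left h1]
  simp only [So, mem_ofPred_eq, pl_rot, pl_im, mul_pos_iff_of_pos_left h1, sin_pos_iff hp.2, e,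
    mem_prod, mem_Ioi, h1, true_and, mem_Ioo]
  refine and_congr_right fun h2 => ?_
  rw [sin_pos_iff ⟨by linarith [hp.2.2], by linarith⟩, sub_pos]

lemma So_node (σ : ℝ) {p : ℝ × ℝ} (hp : p ∈ Ioi 0 ×ˢ Ioo (-π) π) :
    1 + pl p ∈ So σ ↔ p ∈ AR σ := by
  have h1 : 0 < p.1 := hp.1
  have e : (exp (-σ * I)).im = -Real.sin σ := by
    rw [← ofReal_neg, exp_ofReal_mul_I_im, Real.sin_neg]
  simp only [So, AR, Arc, mem_ofPred_eq, add_mul, pl_rot, add_im, pl_im, one_mul, one_im, zero_add,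
    mul_pos_iff_of_pos_left h1, sin_pos_iff hp.2, e, h1, true_and, mem_Ioo, hp.2.2, and_true,
    neg_add_lt_iff_lt_add, add_zero]

lemma AR_sub (σ : ℝ) : AR σ ⊆ Ioi 0 ×ˢ Ioo (-π) π := fun _ hp =>
  ⟨hp.1, by linarith [hp.2.1.1, Real.pi_pos], hp.2.1.2⟩

lemma Q_sub {σ : ℝ} (hσ : σ ≤ π) : Ioi (0 : ℝ) ×ˢ Ioo 0 σ ⊆ Ioi 0 ×ˢ Ioo (-π) π := fun _ hp =>
  ⟨hp.1, by linarith [hp.2.1, Real.pi_pos], hp.2.2.trans_le hσ⟩

lemma pl_eq (p : ℝ × ℝ) : Complex.polarCoord.symm p = pl p := by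
  rw [Complex.polarCoord_symm_apply, pl, exp_mul_I]; push_cast; rfl

lemma So_sub {σ : ℝ} (h0 : 0 < σ) (hσ : σ ≤ π) {u : ℂ} (hu : u ∈ So σ) : u ∈ Sec σ ∧ u ≠ 1 := by
  have h1 : u ∈ Complex.polarCoord.source := Or.inr hu.1.ne'
  have h2 := Complex.polarCoord.map_source h1
  have h3 := Complex.polarCoord.left_inv h1
  rw [pl_eq] at h3
  have h4 := (So_pl h0 hσ h2).1 (h3.symm ▸ hu)
  exact ⟨⟨_, _, le_of_lt h4.1, Ioo_subset_Icc_self h4.2, h3.symm⟩,
    fun e => by simpa [e] using hu.1⟩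

section conv
variable {A : Set ℂ} {B : Set (ℝ × ℝ)} {c : ℂ} (hA : MeasurableSet A) (hB : MeasurableSet B)
  (h1 : B ⊆ Ioi 0 ×ˢ Ioo (-π) π) (h2 : ∀ p ∈ Ioi 0 ×ˢ Ioo (-π) π, c + pl p ∈ A ↔ p ∈ B)
include hA hB h1 h2

lemma lconv (f : ℂ → ℝ≥0∞) :
    ∫⁻ u in A, f u = ∫⁻ p in B, ENNReal.ofReal p.1 * f (c + pl p) := by
  rw [← lintegral_indicator hA, ← lintegral_add_left_eq_self _ c,
    ← Complex.lintegral_comp_polarCoord_symm, ← inter_eq_left.2 h1, ← setLIntegral_indicator hB]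
  refine setLIntegral_congr_fun (measurableSet_Ioi.prod measurableSet_Ioo) fun p hp => ?_
  by_cases h : p ∈ B
  · simp only [pl_eq, indicator_of_mem h, indicator_of_mem ((h2 p hp).2 h), smul_eq_mul]
  · simp only [pl_eq, indicator_of_notMem h, indicator_of_notMem (mt (h2 p hp).1 h), smul_zero]

lemma iconv (f : ℂ → ℝ) : ∫ u in A, f u = ∫ p in B, p.1 * f (c + pl p) := by
  rw [← integral_indicator hA, ← integral_add_left_eq_self _ c,
    ← Complex.integral_comp_polarCoord_symm, ← inter_eq_right.2 h1, ← setIntegral_indicator hB]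
  refine setIntegral_congr_fun (measurableSet_Ioi.prod measurableSet_Ioo) fun p hp => ?_
  by_cases h : p ∈ B
  · simp only [pl_eq, indicator_of_mem h, indicator_of_mem ((h2 p hp).2 h), smul_eq_mul]
  · simp only [pl_eq, indicator_of_notMem h, indicator_of_notMem (mt (h2 p hp).1 h), smul_zero]

lemma jconv {f : ℂ → ℝ} (hf : Measurable f) :
    IntegrableOn f A ↔ IntegrableOn (fun p => p.1 * f (c + pl p)) B := by
  have : ∫⁻ u in A, ‖f u‖ₑ = ∫⁻ p in B, ‖p.1 * f (c + pl p)‖ₑ := by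
    rw [lconv hA hB h1 h2]
    refine setLIntegral_congr_fun hB fun p hp => ?_
    simp only [enorm_mul, Real.enorm_of_nonneg (le_of_lt (h1 hp).1)]
  have m : Measurable fun p : ℝ × ℝ => p.1 * f (c + pl p) :=
    measurable_fst.mul (hf.comp (pl_cont.measurable.const_add c))
  simp only [IntegrableOn, Integrable, hf.aestronglyMeasurable, m.aestronglyMeasurable,
    HasFiniteIntegral, this]

end conv

variable {σ : ℝ}

lemma mQ (a σ : ℝ) : MeasurableSet (Ioi a ×ˢ Ioo (0 : ℝ) σ) :=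
  measurableSet_Ioi.prod measurableSet_Ioo

theorem iconv0 (h0 : 0 < σ) (hσ : σ ≤ π) (f : ℂ → ℝ) :
    ∫ u in So σ, f u = ∫ p in Ioi 0 ×ˢ Ioo 0 σ, p.1 * f (pl p) := by
  simpa using iconv (c := 0) (So_meas σ) (mQ 0 σ) (Q_sub hσ)
    (fun p hp => by simpa using So_pl h0 hσ hp) f

theorem jconv0 (h0 : 0 < σ) (hσ : σ ≤ π) {f : ℂ → ℝ} (hf : Measurable f) :
    IntegrableOn f (So σ) ↔ IntegrableOn (fun p => p.1 * f (pl p)) (Ioi 0 ×ˢ Ioo 0 σ) := by
  simpa using jconv (c := 0) (So_meas σ) (mQ 0 σ) (Q_sub hσ)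
    (fun p hp => by simpa using So_pl h0 hσ hp) hf

theorem iconv1 (f : ℂ → ℝ) : ∫ u in So σ, f u = ∫ p in AR σ, p.1 * f (1 + pl p) :=
  iconv (So_meas σ) (AR_meas σ) (AR_sub σ) (fun _ hp => So_node σ hp) f

theorem lconv1 (f : ℂ → ℝ≥0∞) :
    ∫⁻ u in So σ, f u = ∫⁻ p in AR σ, ENNReal.ofReal p.1 * f (1 + pl p) :=
  lconv (So_meas σ) (AR_meas σ) (AR_sub σ) (fun _ hp => So_node σ hp) f

theorem jconv1 {f : ℂ → ℝ} (hf : Measurable f) :
    IntegrableOn f (So σ) ↔ IntegrableOn (fun p => p.1 * f (1 + pl p)) (AR σ) :=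
  jconv (So_meas σ) (AR_meas σ) (AR_sub σ) (fun _ hp => So_node σ hp) hf

/-- dominating function on a ray -/
noncomputable def d1 (η r : ℝ) : ℝ := min (r ^ η / r) (1 / r ^ 2)

lemma d1_meas (η : ℝ) : Measurable (d1 η) := by unfold d1; fun_prop

lemma d1_nonneg (η : ℝ) {r : ℝ} (hr : 0 ≤ r) : 0 ≤ d1 η r := by unfold d1; positivity

lemma d1_int {η : ℝ} (hη : 0 < η) : IntegrableOn (d1 η) (Ioi 0) := by
  rw [← Ioc_union_Ioi_eq_Ioi zero_le_one]
  refine IntegrableOn.union ?_ ?_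
  · refine (intervalIntegral.intervalIntegrable_rpow' (a := 0) (b := 1) (r := η - 1)
      (by linarith)).1.mono' (d1_meas η).aestronglyMeasurable ?_
    filter_upwards [ae_restrict_mem measurableSet_Ioc] with r hr
    rw [Real.norm_of_nonneg (d1_nonneg η hr.1.le), Real.rpow_sub_one hr.1.ne']
    exact min_le_left _ _
  · refine (integrableOn_Ioi_rpow_of_lt (a := -2) (by norm_num) one_pos).mono'
      (d1_meas η).aestronglyMeasurable ?_
    filter_upwards [ae_restrict_mem measurableSet_Ioi] with r hr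
    have : 0 < r := one_pos.trans hr
    rw [Real.norm_of_nonneg (d1_nonneg η this.le), Real.rpow_neg this.le, Real.rpow_two, ← one_div]
    exact min_le_right _ _

lemma d2_int {η : ℝ} (hη : 0 < η) : Integrable fun u : ℂ => d1 η ‖u - 1‖ / ‖u - 1‖ := by
  refine Integrable.comp_sub_right (f := fun u : ℂ => d1 η ‖u‖ / ‖u‖) ?_ 1
  refine (integrable_fun_norm_addHaar volume (f := fun r => d1 η r / r)).2
    ((d1_int hη).congr_fun (fun r hr => ?_) measurableSet_Ioi)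
  have : r ≠ 0 := ne_of_gt hr
  simp only [finrank_real_complex, smul_eq_mul]
  field_simp
  simp

lemma le_d1 {η r x c : ℝ} (hc : 0 ≤ c) (h1 : x ≤ c * (r ^ η / r)) (h2 : x ≤ c * (1 / r ^ 2)) :
    x ≤ c * d1 η r := by
  rw [d1, mul_min_of_nonneg _ _ hc]; exact le_min h1 h2

end Pool.Agent.Lib.MP_f225de_an.MA
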