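import Pool.Agent.Lib.MP_f225de_an.MA3
import Pool.Agent.Lib.MP_f225de_an.MA4

set_option autoImplicit false

open MeasureTheory Set Filter Topology Complex
open scoped Real ComplexConjugate

namespace Pool.Agent.Lib.MP_f225de_an.MA

open E

variable {σ η c s α β : ℝ} {W : ℂ → ℝ} {V : ℂ → ℂ}

/-- the flux field of the elementary certificate -/
noncomputable def jj (W : ℂ → ℝ) (V : ℂ → ℂ) (s α β : ℝ) (u : ℂ) : ℂ :=
  W u * (gc s α β u - ps s α β u * V u)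

/-- its divergence -/
noncomputable def dd (W : ℂ → ℝ) (V : ℂ → ℂ) (s α β : ℝ) (u : ℂ) : ℝ :=
  W u * nu s ‖u - 1‖ - W u * (ps s α β u * ‖V u‖ ^ 2)

lemma WV.c0 (h : WV σ η c W V) (h0 : 0 ≤ σ) : 0 ≤ c :=
  (h.b0 0).trans (h.b1 0 ⟨0, 0, le_rfl, ⟨le_rfl, h0⟩, by simp⟩)

lemma WV.dv (h : WV σ η c W V) {u : ℂ} (hu : u ∈ Sec σ) (h1 : u ≠ 1) (hk : Kb s α β u) :
    Dv (jj W V s α β) (dd W V s α β u) u := by
  refine (Dv.smul (h.gr u hu h1) ((hk.der h1).2.sub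
    (Dv.smul (hk.der h1).1 (Dv.hol (h.hol u hu h1))))).congr ?_
  rw [dd, Complex.sq_norm, normSq_apply]
  simp
  ring

lemma WV.jj_le (h : WV σ η c W V) {u : ℂ} (hk : Kb s α β u) :
    ‖jj W V s α β u‖ ≤ W u * (‖gc s α β u‖ + ps s α β u * ‖V u‖) := by
  rw [jj, norm_mul, norm_real, Real.norm_of_nonneg (h.b0 u)]
  refine mul_le_mul_of_nonneg_left ((norm_sub_le _ _).trans (le_of_eq ?_)) (h.b0 u)
  rw [norm_mul, norm_real, Real.norm_of_nonneg hk.ps_le.1]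

lemma pl_mem {a b : ℝ} (ha : 0 ≤ a) {p : ℝ × ℝ} (hp : p ∈ Icc a b ×ˢ Icc 0 σ) : pl p ∈ Sec σ :=
  ⟨p.1, p.2, ha.trans hp.1.1, hp.2, rfl⟩

lemma WV.cont (h : WV σ η c W V) (hη : 0 < η) (h0 : 0 < σ) {a b : ℝ} (ha : 0 ≤ a)
    (hk : ∀ p ∈ Icc a b ×ˢ Icc 0 σ, Kb s α β (pl p)) :
    ContinuousOn (fun p => jj W V s α β (pl p)) (Icc a b ×ˢ Icc 0 σ) := fun p hp => by
  by_cases e : pl p = 1
  · have hc := h.c0 h0.le
    have hs := (hk p hp).1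
    have t : Tendsto (fun q => c * ‖pl q - 1‖ ^ η * ((4 + 2 * c) / s))
        (𝓝[Icc a b ×ˢ Icc 0 σ] p) (𝓝 0) := by
      refine (Continuous.tendsto' ((continuous_const.mul
        ((pl_cont.sub continuous_const).norm.rpow_const fun _ => Or.inr hη.le)).mul
        continuous_const) p 0 ?_).mono_left nhdsWithin_le_nhds
      simp [e, hη.ne']
    have b : ∀ q ∈ Icc a b ×ˢ Icc 0 σ, ‖jj W V s α β (pl q)‖ ≤
        c * ‖pl q - 1‖ ^ η * ((4 + 2 * c) / s) := fun q hq => by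
      refine (h.jj_le (hk q hq)).trans (mul_le_mul (h.b2 _ (pl_mem ha hq)) ?_
        (add_nonneg (norm_nonneg _) (mul_nonneg (hk q hq).ps_le.1 (norm_nonneg _)))
        (by positivity))
      rw [add_div]
      refine add_le_add
        ((hk q hq).gc_le.trans (by gcongr; exact le_add_of_nonneg_left (norm_nonneg _)))
        ((mul_le_mul_of_nonneg_right (hk q hq).psr (norm_nonneg _)).trans ?_)
      rw [div_mul_eq_mul_div, mul_assoc]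
      gcongr
      exact h.b3 _ (pl_mem ha hq)
    have e0 : jj W V s α β (pl p) = 0 := norm_le_zero_iff.1 (by simpa [e, hη.ne'] using b p hp)
    rw [ContinuousWithinAt, e0]
    exact squeeze_zero_norm' (eventually_mem_nhdsWithin.mono b) t
  · obtain ⟨L, hL, -⟩ := h.dv (pl_mem ha hp) e (hk p hp)
    exact (hL.continuousAt.comp pl_cont.continuousAt).continuousWithinAt

lemma pl_ne {p : ℝ × ℝ} (h0 : 0 < p.2) (h1 : p.2 ≤ π) (h : 0 ≤ p.1) : pl p ≠ 1 := fun e => by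
  have := r_ge_th h h0.le h1
  rw [e, sub_self, norm_zero] at this
  exact this.not_gt (div_pos h0 Real.pi_pos)

lemma WV.rect (h : WV σ η c W V) (hη : 0 < η) (h0 : 0 < σ) (hσ : σ ≤ π) {a b : ℝ} (ha : 0 ≤ a)
    (hab : a ≤ b) (hk : ∀ p ∈ Icc a b ×ˢ Icc 0 σ, Kb s α β (pl p))
    (hi : IntegrableOn (fun p => p.1 * dd W V s α β (pl p)) (Ioo a b ×ˢ Ioo 0 σ)) :
    ∫ p in Ioo a b ×ˢ Ioo 0 σ, p.1 * dd W V s α β (pl p) =
      (((∫ x in Ioo a b, (jj W V s α β x).im) -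
        ∫ x in Ioo a b, (exp (σ * I) * jj W V s α β (pl (x, σ))).im) +
        ∫ y in Ioo 0 σ, (pl (b, y) * jj W V s α β (pl (b, y))).re) -
        ∫ y in Ioo 0 σ, (pl (a, y) * jj W V s α β (pl (a, y))).re := by
  have := pdiv (J := jj W V s α β) (D := dd W V s α β) hab h0.le (h.cont hη h0 ha hk)
    (fun p hp => ?_) hi
  · simpa only [intervalIntegral.integral_of_le hab, intervalIntegral.integral_of_le h0.le,
      integral_Ioc_eq_integral_Ioo, ofReal_zero, zero_mul, exp_zero, one_mul,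
      show ∀ x : ℝ, pl (x, 0) = x by simp [pl]] using this
  · have hp' : p ∈ Icc a b ×ˢ Icc 0 σ := ⟨Ioo_subset_Icc_self hp.1, Ioo_subset_Icc_self hp.2⟩
    exact h.dv (pl_mem ha hp') (pl_ne hp.2.1 (hp.2.2.le.trans hσ) (ha.trans hp.1.1.le)) (hk p hp')

/-- coefficient of the linear factor -/
noncomputable def al (s : ℝ) (u : ℂ) : ℝ := if ‖u‖ ≤ 1 then s - 1 else 1

/-- constant term of the linear factor -/
noncomputable def be (s : ℝ) (u : ℂ) : ℝ := if ‖u‖ ≤ 1 then 1 else s - 1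

/-- the elementary certificate on the plane -/
noncomputable def PS (s : ℝ) (u : ℂ) : ℝ := ps s (al s u) (be s u) u

/-- its gradient -/
noncomputable def GC (s : ℝ) (u : ℂ) : ℂ := gc s (al s u) (be s u) u

lemma kb_all (hs : s ∈ Ioo (0 : ℝ) 1) (u : ℂ) : Kb s (al s u) (be s u) u := by
  unfold al be
  split_ifs with h
  exacts [kb_in hs h, kb_out hs (not_le.1 h).le]

lemma Kb.near {u : ℂ} (hk : Kb s α β u) (hu : u ≠ 1) : ‖gc s α β u‖ ≤ 4 / ‖u - 1‖ := by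
  have := norm_pos_iff.2 (sub_ne_zero.2 hu)
  exact hk.gc_le.trans (by gcongr; linarith [hk.1])

lemma Kb.ps_far {u : ℂ} (hk : Kb s α β u) (hs : s ≤ 1) (hu : u ≠ 1) :
    ps s α β u ≤ 6 / ‖u - 1‖ := by
  have := norm_pos_iff.2 (sub_ne_zero.2 hu)
  refine hk.ps_le.2.trans ((div_le_div_iff₀ hk.pos this).2 ?_)
  nlinarith [(abs_le.1 hk.2.2.2.1).2, hk.2.2.1, hk.1, hk.2.2.2.2]

lemma gc_out (hs : s ∈ Ioo (0 : ℝ) 1) {u : ℂ} (h : 1 ≤ ‖u‖) (hu : u ≠ 1) :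
    ‖gc s 1 (s - 1) u‖ ≤ 8 / ‖u - 1‖ ^ 2 := by
  have h1 := sub_ne_zero.2 hu
  have hr := norm_pos_iff.2 h1
  have hk := kb_out hs h
  have h2 := norm_pos_iff.1 hk.pos
  have h3 : 0 < ‖u - 1‖ + s := by linarith [hs.1]
  have h4 : ((‖u - 1‖ + s : ℝ) : ℂ) ≠ 0 := by exact_mod_cast h3.ne'
  have e : gc s 1 (s - 1) u = s * (‖u - 1‖ - (u - 1)) /
      ((‖u - 1‖ + s : ℝ) * (u - 1) * ((1 : ℝ) * u + (s - 1 : ℝ))) := by
    rw [gc, ofReal_div, div_div, div_sub_div _ _ (mul_ne_zero h4 h1) h2]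
    congr 1
    push_cast
    ring
  have e2 : ‖(‖u - 1‖ : ℂ) - (u - 1)‖ ≤ 2 * ‖u - 1‖ :=
    (norm_sub_le _ _).trans (by rw [norm_real, norm_norm]; linarith)
  rw [e, norm_div, norm_mul, norm_mul, norm_mul, norm_real, norm_real, Real.norm_of_nonneg hs.1.le,
    Real.norm_of_nonneg h3.le, div_le_div_iff₀ (mul_pos (mul_pos h3 hr) hk.pos) (by positivity)]
  have e3 : ‖u - 1‖ ≤ 2 * ‖((1 : ℝ) : ℂ) * u + (s - 1 : ℝ)‖ := by
    linarith [(abs_le.1 hk.2.2.2.1).2, hk.2.2.1]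
  calc s * ‖(‖u - 1‖ : ℂ) - (u - 1)‖ * ‖u - 1‖ ^ 2 ≤ 1 * (2 * ‖u - 1‖) * ‖u - 1‖ ^ 2 := by
        gcongr; exact hs.2.le
    _ = 2 * (‖u - 1‖ * ‖u - 1‖ * ‖u - 1‖) := by ring
    _ ≤ 2 * ((‖u - 1‖ + s) * ‖u - 1‖ * (2 * ‖((1 : ℝ) : ℂ) * u + (s - 1 : ℝ)‖)) := by
        gcongr; linarith [hs.1]
    _ ≤ _ := by nlinarith [mul_pos (mul_pos h3 hr) hk.pos]

lemma gc_in (hs : s ∈ Ioo (0 : ℝ) 1) {u : ℂ} (h : ‖u‖ ≤ 1) (hu : u ≠ 1) :
    ‖gc s (s - 1) 1 u‖ ≤ 8 / ‖u - 1‖ ^ 2 := by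
  have hr := norm_pos_iff.2 (sub_ne_zero.2 hu)
  refine ((kb_in hs h).near hu).trans ((div_le_div_iff₀ hr (by positivity)).2 ?_)
  nlinarith [norm_sub_le u 1, norm_one (α := ℂ)]

lemma WV.jj_d1 (h : WV σ η c W V) {u : ℂ} (hu : u ∈ Sec σ) (h1 : u ≠ 1) (hk : Kb s α β u)
    (hs : s ≤ 1) (hg : ‖gc s α β u‖ ≤ 8 / ‖u - 1‖ ^ 2) :
    ‖jj W V s α β u‖ ≤ c * (8 + 6 * c) * d1 η ‖u - 1‖ := by
  have hr := norm_pos_iff.2 (sub_ne_zero.2 h1)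
  have hc := (h.b0 u).trans (h.b1 u hu)
  have hV : ‖V u‖ ≤ c / ‖u - 1‖ := (le_div_iff₀' hr).2 (h.b3 u hu)
  have hp := hk.ps_le.1
  refine le_d1 (by positivity) ((h.jj_le hk).trans ?_) ((h.jj_le hk).trans ?_)
  · calc _ ≤ c * ‖u - 1‖ ^ η * (4 / ‖u - 1‖ + 2 * (c / ‖u - 1‖)) := by
          gcongr
          exacts [h.b2 u hu, hk.near h1, hk.ps2]
      _ ≤ c * ‖u - 1‖ ^ η * (8 / ‖u - 1‖ + 6 * (c / ‖u - 1‖)) := by gcongr <;> norm_num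
      _ = _ := by ring
  · calc _ ≤ c * (8 / ‖u - 1‖ ^ 2 + 6 / ‖u - 1‖ * (c / ‖u - 1‖)) := by
          gcongr
          exacts [h.b1 u hu, hk.ps_far hs h1]
      _ = _ := by ring

lemma WV.nu_d2 (h : WV σ η c W V) {u : ℂ} (hu : u ∈ Sec σ) (h1 : u ≠ 1)
    (hs : s ∈ Ioo (0 : ℝ) 1) : ‖W u * nu s ‖u - 1‖‖ ≤ c * (d1 η ‖u - 1‖ / ‖u - 1‖) := by
  have hr := norm_pos_iff.2 (sub_ne_zero.2 h1)
  have hc := (h.b0 u).trans (h.b1 u hu)
  have h2 := nu_le hs.1 hr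
  rw [Real.norm_of_nonneg (mul_nonneg (h.b0 u) h2.1), ← mul_div_assoc, le_div_iff₀ hr]
  refine le_d1 hc ?_ ?_
  · calc _ ≤ c * ‖u - 1‖ ^ η * (1 / ‖u - 1‖ ^ 2) * ‖u - 1‖ := by
          gcongr
          exacts [h2.1, h.b2 u hu, h2.2]
      _ = _ := by field_simp
  · have : nu s ‖u - 1‖ * ‖u - 1‖ ≤ 1 / ‖u - 1‖ ^ 2 := by
      have := hs.1
      rw [nu, div_mul_eq_mul_div, mul_comm s, mul_div_mul_left _ _ hr.ne']
      gcongr
      exacts [hs.2.le, by linarith]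
    rw [mul_assoc]
    gcongr
    exacts [mul_nonneg h2.1 hr.le, h.b1 u hu]

lemma WV.ps_d2 (h : WV σ η c W V) {u : ℂ} (hu : u ∈ Sec σ) (h1 : u ≠ 1)
    (hs : s ∈ Ioo (0 : ℝ) 1) :
    ‖W u * (PS s u * ‖V u‖ ^ 2)‖ ≤ 6 * c ^ 3 * (d1 η ‖u - 1‖ / ‖u - 1‖) := by
  have hr := norm_pos_iff.2 (sub_ne_zero.2 h1)
  have hc := (h.b0 u).trans (h.b1 u hu)
  have hV : ‖V u‖ ≤ c / ‖u - 1‖ := (le_div_iff₀' hr).2 (h.b3 u hu)
  have hk := kb_all hs u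
  have hp : 0 ≤ PS s u := hk.ps_le.1
  have := h.b0 u
  rw [Real.norm_of_nonneg (by positivity), ← mul_div_assoc, le_div_iff₀ hr]
  refine le_d1 (by positivity) ?_ ?_
  · calc _ ≤ c * ‖u - 1‖ ^ η * (6 * (c / ‖u - 1‖) ^ 2) * ‖u - 1‖ := by
          gcongr
          exacts [h.b2 u hu, hk.ps2.trans (by norm_num)]
      _ = _ := by field_simp
  · calc _ ≤ c * (6 / ‖u - 1‖ * (c / ‖u - 1‖) ^ 2) * ‖u - 1‖ := by
          gcongr
          exacts [h.b1 u hu, hk.ps_far hs.2.le h1]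
      _ = _ := by field_simp

end Pool.Agent.Lib.MP_f225de_an.MA
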