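import Pool.Agent.Lib.MP_f225de_an.MA5

set_option autoImplicit false

open MeasureTheory Set Filter Topology Complex
open scoped Real ComplexConjugate

namespace Pool.Agent.Lib.MP_f225de_an.MA

open E

variable {σ η c s : ℝ} {W : ℂ → ℝ} {V : ℂ → ℂ}

/-- the flux field on the plane -/
noncomputable def JJ (W : ℂ → ℝ) (V : ℂ → ℂ) (s : ℝ) (u : ℂ) : ℂ :=
  W u * (GC s u - PS s u * V u)

/-- Poisson kernel as a function of the chord -/
noncomputable def Pk (s b : ℝ) : ℝ := s * (2 - s) / (s ^ 2 + (1 - s) * b ^ 2)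

lemma al_meas : Measurable fun x : ℝ × ℂ => al x.1 x.2 :=
  Measurable.ite (measurableSet_le (by fun_prop) measurable_const) (by fun_prop) measurable_const

lemma be_meas : Measurable fun x : ℝ × ℂ => be x.1 x.2 :=
  Measurable.ite (measurableSet_le (by fun_prop) measurable_const) measurable_const (by fun_prop)

lemma PS_meas : Measurable fun x : ℝ × ℂ => PS x.1 x.2 := by
  have := al_meas
  have := be_meas
  unfold PS ps
  fun_prop

lemma GC_meas : Measurable fun x : ℝ × ℂ => GC x.1 x.2 := by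
  have := al_meas
  have := be_meas
  unfold GC gc
  fun_prop

lemma WV.JJ_meas (h : WV σ η c W V) : Measurable fun x : ℝ × ℂ => JJ W V x.1 x.2 := by
  have := PS_meas
  have := GC_meas
  have := h.mW
  have := h.mV
  unfold JJ
  fun_prop

lemma nu_meas : Measurable fun x : ℝ × ℂ => nu x.1 ‖x.2 - 1‖ := by unfold nu; fun_prop

lemma GC_far (hs : s ∈ Ioo (0 : ℝ) 1) {u : ℂ} (hu : u ≠ 1) : ‖GC s u‖ ≤ 8 / ‖u - 1‖ ^ 2 := by
  unfold GC al be
  split_ifs with h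
  exacts [gc_in hs h hu, gc_out hs (not_le.1 h).le hu]

lemma WV.JJ_d1 (h : WV σ η c W V) {u : ℂ} (hu : u ∈ Sec σ) (h1 : u ≠ 1) (hs : s ∈ Ioo (0 : ℝ) 1) :
    ‖JJ W V s u‖ ≤ c * (8 + 6 * c) * d1 η ‖u - 1‖ :=
  h.jj_d1 hu h1 (kb_all hs u) hs.2.le (GC_far hs h1)

lemma JJ_in {u : ℂ} (h : ‖u‖ ≤ 1) : JJ W V s u = jj W V s (s - 1) 1 u := by
  simp only [JJ, jj, GC, PS, al, be, if_pos h]

lemma JJ_out {u : ℂ} (h : 1 < ‖u‖) : JJ W V s u = jj W V s 1 (s - 1) u := by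
  simp only [JJ, jj, GC, PS, al, be, if_neg h.not_ge]

lemma jump (hs : s ∈ Ioo (0 : ℝ) 1) {u : ℂ} (hu : ‖u‖ = 1) :
    (u * jj W V s (s - 1) 1 u).re - (u * jj W V s 1 (s - 1) u).re = W u * Pk s ‖u - 1‖ := by
  have h0 : u * conj u = 1 := by rw [mul_conj', hu]; simp
  have h1 := norm_pos_iff.1 (kb_in hs hu.le).pos
  set k := ((s - 1 : ℝ) : ℂ) * u + (1 : ℝ) with hk
  have h2 : ((1 : ℝ) : ℂ) * u + (s - 1 : ℝ) = u * conj k := by
    simp only [hk, map_add, map_mul, conj_ofReal]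
    push_cast
    linear_combination (1 - s) * h0
  have h3 : ps s 1 (s - 1) u = ps s (s - 1) 1 u := by
    rw [ps, ps, h2, norm_mul, hu, one_mul, norm_conj]
  have h4 : u ≠ 0 := left_ne_zero_of_mul_eq_one h0
  have h5 : conj k ≠ 0 := by simpa using h1
  have h6 : u * jj W V s (s - 1) 1 u - u * jj W V s 1 (s - 1) u =
      W u * (conj k⁻¹ + k⁻¹ - 1) := by
    rw [jj, jj, h3, gc, gc, h2, ← hk, map_inv₀]
    field_simp
    rw [hk]
    push_cast
    ring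
  have h7 : u.re ^ 2 + u.im ^ 2 = 1 := by
    rw [← one_pow 2, ← hu, Complex.sq_norm, normSq_apply]; ring
  have h8 : normSq k = s ^ 2 + (1 - s) * ‖u - 1‖ ^ 2 := by
    rw [Complex.sq_norm, normSq_apply, normSq_apply, hk]
    simp
    linear_combination (s ^ 2 - s) * h7
  have h9 : normSq k ≠ 0 := by simpa using h1
  rw [← sub_re, h6, re_ofReal_mul, sub_re, add_re, conj_re, inv_re, Pk, ← h8]
  congr 1
  field_simp
  rw [normSq_apply, hk]
  simp
  linear_combination -(s - 1) ^ 2 * h7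

lemma bis_dom (h0 : 0 < σ) (hσ : σ ≤ π) {ρ : ℝ} (hρ : 0 ≤ ρ) :
    1 / ‖pl (ρ, σ) - 1‖ ^ 2 ≤ (2 * π / σ + 1) ^ 2 * (1 + ρ ^ 2)⁻¹ := by
  have hπ := Real.pi_pos
  have h1 := r_ge_th (p := (ρ, σ)) hρ h0.le hσ
  have h2 := (le_abs_self _).trans (r_ge_rho (p := (ρ, σ)) hρ)
  have h3 : 0 < ‖pl (ρ, σ) - 1‖ := (div_pos h0 hπ).trans_le h1
  have h4 : 1 + ρ ≤ (2 * π / σ + 1) * ‖pl (ρ, σ) - 1‖ := by
    have : 2 ≤ 2 * π / σ * ‖pl (ρ, σ) - 1‖ :=
      le_of_eq_of_le (by field_simp) (mul_le_mul_of_nonneg_left h1 (by positivity))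
    simp only at h2
    linarith
  rw [← div_eq_mul_inv, div_le_div_iff₀ (by positivity) (by positivity), ← mul_pow]
  nlinarith

lemma WV.bis_le (h : WV σ η c W V) (h0 : 0 < σ) (hσ : σ ≤ π) (hs : s ∈ Ioo (0 : ℝ) 1) {ρ : ℝ}
    (hρ : 0 ≤ ρ) : ‖(exp (σ * I) * JJ W V s (pl (ρ, σ))).im‖ ≤
      c * (8 + 6 * c) * ((2 * π / σ + 1) ^ 2 * (1 + ρ ^ 2)⁻¹) := by
  have := h.c0 h0.le
  refine (abs_im_le_norm _).trans ?_
  rw [norm_mul, norm_exp_ofReal_mul_I, one_mul]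
  refine (h.JJ_d1 (u := pl (ρ, σ)) ⟨ρ, σ, hρ, ⟨h0.le, le_rfl⟩, rfl⟩
    (pl_ne (p := (ρ, σ)) h0 hσ hρ) hs).trans ?_
  gcongr
  exact (min_le_right _ _).trans (bis_dom h0 hσ hρ)

lemma WV.int_nu (h : WV σ η c W V) (hη : 0 < η) (h0 : 0 < σ) (hσ : σ ≤ π)
    (hs : s ∈ Ioo (0 : ℝ) 1) : IntegrableOn (fun u => W u * nu s ‖u - 1‖) (So σ) :=
  (((d2_int hη).const_mul c).integrableOn).mono'
    (h.mW.mul (nu_meas.comp measurable_prodMk_left)).aestronglyMeasurable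
    ((ae_restrict_mem (So_meas σ)).mono fun _ hu =>
      h.nu_d2 (So_sub h0 hσ hu).1 (So_sub h0 hσ hu).2 hs)

lemma WV.int_ps (h : WV σ η c W V) (hη : 0 < η) (h0 : 0 < σ) (hσ : σ ≤ π)
    (hs : s ∈ Ioo (0 : ℝ) 1) : IntegrableOn (fun u => W u * (PS s u * ‖V u‖ ^ 2)) (So σ) :=
  (((d2_int hη).const_mul (6 * c ^ 3)).integrableOn).mono'
    (h.mW.mul ((PS_meas.comp measurable_prodMk_left).mul
      (h.mV.norm.pow_const 2))).aestronglyMeasurable
    ((ae_restrict_mem (So_meas σ)).mono fun _ hu =>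
      h.ps_d2 (So_sub h0 hσ hu).1 (So_sub h0 hσ hu).2 hs)

lemma WV.int_bis (h : WV σ η c W V) (h0 : 0 < σ) (hσ : σ ≤ π) (hs : s ∈ Ioo (0 : ℝ) 1) :
    IntegrableOn (fun ρ => (exp (σ * I) * JJ W V s (pl (ρ, σ))).im) (Ioi 0) :=
  ((integrable_inv_one_add_sq.const_mul _).const_mul _).integrableOn.mono'
    (measurable_im.comp (measurable_const.mul ((h.JJ_meas.comp measurable_prodMk_left).comp
      (pl_cont.measurable.comp measurable_prodMk_right)))).aestronglyMeasurable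
    ((ae_restrict_mem measurableSet_Ioi).mono fun _ hρ => h.bis_le h0 hσ hs (le_of_lt hρ))

lemma slit_zero {x : ℝ} (hx : 1 < x) : (jj W V s 1 (s - 1) x).im = 0 := by
  have e : ‖(x : ℂ) - 1‖ = x - 1 := by
    rw [← ofReal_one, ← ofReal_sub, norm_real, Real.norm_of_nonneg (by linarith)]
  have e2 : ps s 1 (s - 1) x = 0 := by
    rw [ps, e, ← ofReal_mul, ← ofReal_add, norm_real, Real.norm_eq_abs, Real.log_abs]
    ring_nf
  rw [jj, e2, gc, ofReal_zero, zero_mul, sub_zero]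
  norm_cast

theorem WV.ident (h : WV σ η c W V) (hη : 0 < η) (h0 : 0 < σ) (hσ : σ ≤ π)
    (hs : s ∈ Ioo (0 : ℝ) 1) :
    IntegrableOn (fun θ => W (pl (1, θ)) * Pk s ‖pl (1, θ) - 1‖) (Ioo 0 σ) ∧
    (∫ θ in Ioo 0 σ, W (pl (1, θ)) * Pk s ‖pl (1, θ) - 1‖) +
      ∫ u in So σ, W u * (PS s u * ‖V u‖ ^ 2) = (∫ u in So σ, W u * nu s ‖u - 1‖) +
      (∫ ρ in Ioi 0, (exp (σ * I) * JJ W V s (pl (ρ, σ))).im) -
      ∫ x in Ioo (0 : ℝ) 1, (JJ W V s x).im := by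
  have hc := h.c0 h0.le
  let D : ℂ → ℝ := fun u => W u * nu s ‖u - 1‖ - W u * (PS s u * ‖V u‖ ^ 2)
  have iD : IntegrableOn (fun p => p.1 * D (pl p)) (Ioi 0 ×ˢ Ioo 0 σ) :=
    (jconv0 h0 hσ ((h.mW.mul (nu_meas.comp measurable_prodMk_left)).sub
      (h.mW.mul ((PS_meas.comp measurable_prodMk_left).mul (h.mV.norm.pow_const 2))))).1
      ((h.int_nu hη h0 hσ hs).sub (h.int_ps hη h0 hσ hs))
  have mR : ∀ a b, MeasurableSet (Ioo a b ×ˢ Ioo (0 : ℝ) σ : Set (ℝ × ℝ)) := fun a b =>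
    measurableSet_Ioo.prod measurableSet_Ioo
  have n1 : ∀ x y : ℝ, 0 ≤ x → ‖pl (x, y)‖ = x := fun x y hx => by rw [norm_pl, abs_of_nonneg hx]
  have k1 : ∀ p ∈ Icc (0 : ℝ) 1 ×ˢ Icc 0 σ, Kb s (s - 1) 1 (pl p) := fun p hp =>
    kb_in hs ((n1 _ _ hp.1.1).trans_le hp.1.2)
  have k2 : ∀ R, ∀ p ∈ Icc (1 : ℝ) R ×ˢ Icc 0 σ, Kb s 1 (s - 1) (pl p) := fun R p hp =>
    kb_out hs (hp.1.1.trans (n1 _ _ (zero_le_one.trans hp.1.1)).ge)
  have d1 : ∀ p ∈ Ioo (0 : ℝ) 1 ×ˢ Ioo 0 σ, p.1 * D (pl p) = p.1 * dd W V s (s - 1) 1 (pl p) :=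
    fun p hp => by simp only [D, dd, PS, al, be, if_pos ((n1 _ p.2 hp.1.1.le).trans_le hp.1.2.le)]
  have d2 : ∀ R, ∀ p ∈ Ioo (1 : ℝ) R ×ˢ Ioo 0 σ,
      p.1 * D (pl p) = p.1 * dd W V s 1 (s - 1) (pl p) := fun R p hp => by
    simp only [D, dd, PS, al, be,
      if_neg (hp.1.1.trans_eq (n1 _ p.2 (zero_le_one.trans hp.1.1.le)).symm).not_ge]
  have r1 := h.rect hη h0 hσ le_rfl zero_le_one k1
    ((iD.mono_set (prod_mono Ioo_subset_Ioi_self le_rfl)).congr_fun d1 (mR _ _))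
  rw [← setIntegral_congr_fun (mR _ _) d1,
    setIntegral_congr_fun measurableSet_Ioo (g := fun x : ℝ => (JJ W V s x).im) fun x hx => by
      simp only [JJ_in (show ‖(x : ℂ)‖ ≤ 1 by simpa [abs_of_pos hx.1] using hx.2.le)],
    setIntegral_congr_fun measurableSet_Ioo
      (f := fun ρ => (exp (σ * I) * jj W V s (s - 1) 1 (pl (ρ, σ))).im)
      (g := fun ρ => (exp (σ * I) * JJ W V s (pl (ρ, σ))).im) fun x hx => by
      simp only [JJ_in ((n1 x σ hx.1.le).trans_le hx.2.le)]] at r1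
  simp only [show ∀ y, pl (0, y) = 0 by simp [pl], zero_mul, zero_re, integral_zero,
    sub_zero] at r1
  have iB := h.int_bis h0 hσ hs
  have t1 := tendsto_setIntegral_of_monotone (μ := volume) (s := fun R : ℝ => Ioo 1 R ×ˢ Ioo 0 σ)
    (f := fun p => p.1 * D (pl p)) (mR 1) (fun a b hab => prod_mono (Ioo_subset_Ioo_right hab) le_rfl)
    (iD.mono_set (iUnion_subset fun R => prod_mono (fun x hx => one_pos.trans hx.1) le_rfl))
  have t2 := tendsto_setIntegral_of_monotone (μ := volume) (s := fun R : ℝ => Ioo 1 R)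
    (fun _ => measurableSet_Ioo) (fun a b hab => Ioo_subset_Ioo_right hab)
    (iB.mono_set (iUnion_subset fun R x hx => one_pos.trans hx.1))
  rw [← iUnion_prod_const, iUnion_Ioo_right] at t1
  rw [iUnion_Ioo_right] at t2
  have t3 : Tendsto (fun R : ℝ => ∫ y in Ioo 0 σ,
      (pl (R, y) * jj W V s 1 (s - 1) (pl (R, y))).re) atTop (𝓝 0) := by
    refine squeeze_zero_norm' ((eventually_ge_atTop 2).mono fun R hR => ?_)
      (tendsto_const_nhds.div_atTop (a := 4 * (c * (8 + 6 * c)) * σ) tendsto_id)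
    refine (norm_setIntegral_le_of_norm_le_const (C := 4 * (c * (8 + 6 * c)) / R) (by simp)
      fun y hy => ?_).trans (le_of_eq (by simp [h0.le]; ring))
    have e1 : (0 : ℝ) ≤ R := by linarith
    have e2 := (le_abs_self _).trans (r_ge_rho (p := (R, y)) e1)
    rw [← JJ_out ((n1 R y e1).symm ▸ by linarith)]
    refine (abs_re_le_norm _).trans ?_
    rw [norm_mul, n1 R y e1]
    calc _ ≤ R * (c * (8 + 6 * c) * (1 / (R / 2) ^ 2)) := by
          gcongr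
          refine (h.JJ_d1 ⟨R, y, e1, Ioo_subset_Icc_self hy, rfl⟩ (pl_ne (p := (R, y)) hy.1
            (hy.2.le.trans hσ) e1) hs).trans (mul_le_mul_of_nonneg_left
            ((min_le_right _ _).trans ?_) (by positivity))
          gcongr
          exact le_trans (by linarith) e2
      _ = _ := by field_simp; ring
  have r2 := tendsto_nhds_unique_of_eventuallyEq t1 (((t2.const_sub 0).add t3).sub_const
    (∫ y in Ioo 0 σ, (pl (1, y) * jj W V s 1 (s - 1) (pl (1, y))).re))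
    ((eventually_ge_atTop 1).mono fun R hR => by
      simp only
      rw [setIntegral_congr_fun (mR _ _) (d2 R), h.rect hη h0 hσ zero_le_one hR (k2 R)
        ((iD.mono_set (prod_mono (fun x hx => one_pos.trans hx.1) le_rfl)).congr_fun (d2 R) (mR _ _)),
        setIntegral_eq_zero_of_forall_eq_zero fun x hx => slit_zero hx.1,
        setIntegral_congr_fun measurableSet_Ioo
          (g := fun ρ => (exp (σ * I) * JJ W V s (pl (ρ, σ))).im) fun x hx => by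
          simp only [JJ_out (hx.1.trans_eq (n1 x σ (zero_le_one.trans hx.1.le)).symm)]])
  have c1 : ∀ {α β a b : ℝ}, 0 ≤ a → 1 ∈ Icc a b → (∀ p ∈ Icc a b ×ˢ Icc 0 σ, Kb s α β (pl p)) →
      IntegrableOn (fun y => (pl (1, y) * jj W V s α β (pl (1, y))).re) (Ioo 0 σ) :=
    fun ha h1 hk => (continuous_re.comp_continuousOn ((pl_cont.continuousOn.mul
      (h.cont hη h0 ha hk)).comp (Continuous.prodMk_right 1).continuousOn
      fun _ hy => ⟨h1, hy⟩)).integrableOn_Icc.mono_set Ioo_subset_Icc_self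
  have i1 := c1 le_rfl ⟨zero_le_one, le_rfl⟩ k1
  have i2 := c1 zero_le_one ⟨le_rfl, le_rfl⟩ (k2 1)
  simp only [← jump (V := V) hs (n1 1 _ zero_le_one)]
  refine ⟨i1.sub i2, ?_⟩
  have s1 := setIntegral_union (μ := volume) (Ioc_disjoint_Ioi_same (a := (0 : ℝ)) (b := 1))
    measurableSet_Ioi (iB.mono_set Ioc_subset_Ioi_self) (iB.mono_set (Ioi_subset_Ioi zero_le_one))
  have s2 := setIntegral_union (μ := volume) (f := fun p => p.1 * D (pl p))
    ((Ioc_disjoint_Ioi_same (a := (0 : ℝ)) (b := 1)).set_prod_left (Ioo 0 σ) (Ioo 0 σ)) (mQ 1 σ)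
    (iD.mono_set (prod_mono Ioc_subset_Ioi_self le_rfl))
    (iD.mono_set (prod_mono (Ioi_subset_Ioi zero_le_one) le_rfl))
  rw [← union_prod, Ioc_union_Ioi_eq_Ioi zero_le_one, ← iconv0 h0 hσ, ← setIntegral_congr_set
    (μ := (volume : Measure (ℝ × ℝ)))
    (Measure.set_prod_ae_eq Ioo_ae_eq_Ioc (.rfl (f := Ioo 0 σ))), r1, r2,
    integral_sub (h.int_nu hη h0 hσ hs) (h.int_ps hη h0 hσ hs)] at s2
  rw [Ioc_union_Ioi_eq_Ioi zero_le_one, integral_Ioc_eq_integral_Ioo] at s1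
  rw [integral_sub i1 i2, s1]
  linarith

end Pool.Agent.Lib.MP_f225de_an.MA
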