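import Pool.Agent.Lib.MP_f225de_an.MC1

set_option autoImplicit false

open MeasureTheory Set Filter Topology Complex
open scoped Real ENNReal

namespace Pool.Agent.Lib.MP_f225de_an.MA

open E

variable {n : ℕ} {σ η c : ℝ} {W : ℂ → ℝ} {V : ℂ → ℂ}

lemma swp (hn : 2 ≤ n) {X : Type} [MeasureSpace X] [SFinite (volume : Measure X)] {A : Set X}
    (hA : MeasurableSet A) {f : ℝ → X → ℝ} (hm : Measurable (Function.uncurry f)) {g : X → ℝ}
    (hg : IntegrableOn g A) (hb : ∀ s ∈ Ioo (0 : ℝ) 1, ∀ x ∈ A, ‖f s x‖ ≤ g x) :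
    Integrable (fun s => ∫ x in A, f s x) (mu n) ∧ IntegrableOn (fun x => ∫ s, f s x ∂mu n) A ∧
      ∫ s, (∫ x in A, f s x) ∂mu n = ∫ x in A, ∫ s, f s x ∂mu n := by
  have := mu_prob hn
  have hi : Integrable (Function.uncurry f) ((mu n).prod (volume.restrict A)) := by
    refine (Integrable.comp_snd hg (mu n)).mono' hm.aestronglyMeasurable ?_
    filter_upwards [Measure.quasiMeasurePreserving_fst.ae (mu_ae n),
      Measure.quasiMeasurePreserving_snd.ae (ae_restrict_mem hA)] with p h1 h2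
    exact hb _ h1 _ h2
  exact ⟨hi.integral_prod_left, hi.integral_prod_right, integral_integral_swap hi⟩

lemma nu_int {r : ℝ} (hr : r ≠ 0) : ∫ s, nu s r ∂mu n = Kf n r / r ^ 2 := by
  rw [Kf, ← integral_div]
  congr 1
  ext s
  rw [nu]
  field_simp

lemma d1_sub (hη : 0 < η) : IntegrableOn (fun x => d1 η (1 - x)) (Ioo 0 1) := by
  have h1 : IntervalIntegrable (d1 η) volume 0 1 :=
    (intervalIntegrable_iff_integrableOn_Ioo_of_le zero_le_one).2
      ((d1_int hη).mono_set Ioo_subset_Ioi_self)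
  have h2 := (h1.comp_sub_left 1).symm
  rw [sub_self, sub_zero] at h2
  exact (intervalIntegrable_iff_integrableOn_Ioo_of_le zero_le_one).1 h2

theorem WV.mixed (h : WV σ η c W V) (hn : 2 ≤ n) (hη : 0 < η) (h0 : 0 < σ) (hσ : σ ≤ π) :
    IntegrableOn (fun u => W u * (Kf n ‖u - 1‖ / ‖u - 1‖ ^ 2)) (So σ) ∧
    IntegrableOn (fun u => W u * (Psi n u * ‖V u‖ ^ 2)) (So σ) ∧
    IntegrableOn (fun ρ => ∫ s, (exp (σ * I) * JJ W V s (pl (ρ, σ))).im ∂mu n) (Ioi 0) ∧
    ∃ x, 0 ≤ x ∧ ∫⁻ θ in Ioo 0 σ, ENNReal.ofReal (W (pl (1, θ))) *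
      ∫⁻ s, ENNReal.ofReal (Pk s ‖pl (1, θ) - 1‖) ∂mu n = ENNReal.ofReal x ∧
      x = (∫ u in So σ, W u * (Kf n ‖u - 1‖ / ‖u - 1‖ ^ 2)) -
        (∫ u in So σ, W u * (Psi n u * ‖V u‖ ^ 2)) +
        (∫ ρ in Ioi 0, ∫ s, (exp (σ * I) * JJ W V s (pl (ρ, σ))).im ∂mu n) -
        ∫ s, (∫ x in Ioo (0 : ℝ) 1, (JJ W V s x).im) ∂mu n := by
  have := mu_prob hn
  have mW := h.mW
  have mV := h.mV
  obtain ⟨a1, a2, a3⟩ := swp hn (So_meas σ) (f := fun s u => W u * nu s ‖u - 1‖)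
    ((mW.comp measurable_snd).mul nu_meas) ((d2_int hη).const_mul c).integrableOn
    fun s hs u hu => h.nu_d2 (So_sub h0 hσ hu).1 (So_sub h0 hσ hu).2 hs
  obtain ⟨b1, b2, b3⟩ := swp hn (So_meas σ) (f := fun s u => W u * (PS s u * ‖V u‖ ^ 2))
    ((mW.comp measurable_snd).fun_mul
      (PS_meas.fun_mul ((mV.comp measurable_snd).norm.pow_const 2)))
    ((d2_int hη).const_mul (6 * c ^ 3)).integrableOn
    fun s hs u hu => h.ps_d2 (So_sub h0 hσ hu).1 (So_sub h0 hσ hu).2 hs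
  obtain ⟨c1, c2, c3⟩ := swp hn measurableSet_Ioi
    (f := fun s ρ => (exp (σ * I) * JJ W V s (pl (ρ, σ))).im)
    (measurable_im.comp (measurable_const.mul (h.JJ_meas.comp (measurable_fst.prodMk
      (pl_cont.measurable.comp (measurable_snd.prodMk measurable_const))))))
    ((integrable_inv_one_add_sq.const_mul _).const_mul _).integrableOn
    fun s hs ρ hρ => h.bis_le h0 hσ hs (le_of_lt hρ)
  obtain ⟨e1, -, -⟩ := swp hn measurableSet_Ioo (A := Ioo (0 : ℝ) 1)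
    (f := fun s x => (JJ W V s x).im) (g := fun x => c * (8 + 6 * c) * d1 η (1 - x))
    (measurable_im.comp (h.JJ_meas.comp (measurable_fst.prodMk
      (measurable_ofReal.comp measurable_snd))))
    (Integrable.const_mul (d1_sub hη) _)
    fun s hs x hx => (abs_im_le_norm _).trans ((h.JJ_d1 ⟨x, 0, hx.1.le, ⟨le_rfl, h0.le⟩, by simp⟩
      (by exact_mod_cast hx.2.ne) hs).trans_eq (by
        rw [← ofReal_one, ← ofReal_sub, norm_real, Real.norm_eq_abs, abs_sub_comm,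
          abs_of_pos (sub_pos.2 hx.2)]))
  have f1 : ∀ u ∈ So σ, ∫ s, W u * nu s ‖u - 1‖ ∂mu n = W u * (Kf n ‖u - 1‖ / ‖u - 1‖ ^ 2) :=
    fun u hu => by
      rw [integral_const_mul, nu_int (norm_ne_zero_iff.2 (sub_ne_zero.2 (So_sub h0 hσ hu).2))]
  simp only [integral_const_mul, integral_mul_const] at b2 b3
  rw [setIntegral_congr_fun (So_meas σ) f1] at a3
  have g1 : ∀ᵐ s ∂mu n, ∫ θ in Ioo 0 σ, W (pl (1, θ)) * Pk s ‖pl (1, θ) - 1‖ =
      (∫ u in So σ, W u * nu s ‖u - 1‖) - (∫ u in So σ, W u * (PS s u * ‖V u‖ ^ 2)) +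
      (∫ ρ in Ioi 0, (exp (σ * I) * JJ W V s (pl (ρ, σ))).im) -
      ∫ x in Ioo (0 : ℝ) 1, (JJ W V s x).im :=
    (mu_ae n).mono fun s hs => by linarith [(h.ident hη h0 hσ hs).2]
  have g2 : ∀ᵐ s ∂mu n, 0 ≤ ∫ θ in Ioo 0 σ, W (pl (1, θ)) * Pk s ‖pl (1, θ) - 1‖ :=
    (mu_ae n).mono fun s hs => integral_nonneg fun θ => mul_nonneg (h.b0 _) (Pk_nonneg hs _)
  have g3 := (((a1.sub b1).add c1).sub e1).congr (EventuallyEq.symm g1)
  have mP : Measurable fun x : ℝ × ℝ => ENNReal.ofReal (Pk x.2 ‖pl (1, x.1) - 1‖) :=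
    (Pk_meas.comp (measurable_snd.prodMk ((pl_cont.measurable.comp
      (measurable_const.prodMk measurable_fst)).sub_const 1).norm)).ennreal_ofReal
  refine ⟨a2.congr_fun f1 (So_meas σ), b2, c2, _, integral_nonneg_of_ae g2, ?_, ?_⟩
  · simp only [← lintegral_const_mul' _ _ ENNReal.ofReal_ne_top]
    rw [ofReal_integral_eq_lintegral_ofReal g3 g2, lintegral_lintegral_swap
      (((mW.comp (pl_cont.measurable.comp (measurable_const.prodMk
        measurable_fst))).ennreal_ofReal.mul mP).aemeasurable)]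
    refine lintegral_congr_ae ((mu_ae n).mono fun s hs => ?_)
    simp only
    rw [ofReal_integral_eq_lintegral_ofReal (h.ident hη h0 hσ hs).1
      (ae_of_all _ fun θ => mul_nonneg (h.b0 _) (Pk_nonneg hs _))]
    simp only [ENNReal.ofReal_mul (h.b0 _)]
  · refine (integral_congr_ae g1).trans ((integral_sub ((a1.sub b1).add c1) e1).trans ?_)
    congr 1
    refine (integral_add (a1.sub b1) c1).trans ?_
    rw [c3]
    congr 1
    refine (integral_sub a1 b1).trans ?_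
    rw [a3, b3]
    rfl

end Pool.Agent.Lib.MP_f225de_an.MA
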