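import Pool.Agent.Lib.MP_f225de_an.MA5

set_option autoImplicit false

open MeasureTheory Set Filter Topology Complex
open scoped Real

namespace Pool.Agent.Lib.MP_f225de_an.MA

open Sk

/-- the Beta weight -/
noncomputable def wt (n : ℕ) (s : ℝ) : ℝ := s ^ (1 / n - 1 : ℝ) * (1 - s) ^ (-((1 + 1 / n) / 2) : ℝ)

/-- its mass -/
noncomputable def m0 (n : ℕ) : ℝ := ∫ s in Ioo 0 1, wt n s

/-- the mixing probability measure -/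
noncomputable def mu (n : ℕ) : Measure ℝ :=
  (volume.restrict (Ioo 0 1)).withDensity fun s => ENNReal.ofReal (wt n s / m0 n)

/-- the value function of the star -/
noncomputable def Pf (n : ℕ) (r : ℝ) : ℝ := ∫ s, r / (r + s) ∂mu n

/-- the radial density of the star certificate -/
noncomputable def Kf (n : ℕ) (r : ℝ) : ℝ := ∫ s, s * r / (r + s) ^ 2 ∂mu n

/-- the star certificate -/
noncomputable def Psi (n : ℕ) (u : ℂ) : ℝ := ∫ s, PS s u ∂mu n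

/-- the flux density left on the bisector -/
noncomputable def bt (n : ℕ) (σ : ℝ) (u : ℂ) : ℝ :=
  ∫ s, (exp (σ * I) * (GC s u - PS s u * ((1 - 1 / n : ℝ) / (u - 1)))).im ∂mu n

/-- distance from the node to the bisector in the direction `ψ` -/
noncomputable def rb (σ ψ : ℝ) : ℝ := Real.sin σ / Real.sin (ψ - σ)

/-- end of the outer level arc -/
noncomputable def ao (σ r : ℝ) : ℝ := σ + Real.arcsin (Real.sin σ / r)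

/-- distance from the node to the bisector -/
noncomputable def tl (σ : ℝ) : ℝ := if σ ≤ π / 2 then Real.sin σ else 1

/-- a correcting field on the half sector of angle `σ` in polar coordinates `(r, ψ)` at the node,
and the resulting density `k` -/
structure Flux (n : ℕ) (σ : ℝ) (k : ℝ → ℝ → ℝ) where
  Hy : ℝ → ℝ → ℝ
  Hy1 : ℝ → ℝ → ℝ
  Hp : ℝ → ℝ → ℝ
  Hp1 : ℝ → ℝ → ℝ
  C : ℝ
  X : ℝ → Set ℝ
  Y : ℝ → Set ℝ
  mHy : Measurable (Function.uncurry Hy)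
  mHy1 : Measurable (Function.uncurry Hy1)
  mHp : Measurable (Function.uncurry Hp)
  mHp1 : Measurable (Function.uncurry Hp1)
  mkk : Measurable (Function.uncurry k)
  cX : ∀ t, (X t).Countable
  cY : ∀ t, (Y t).Countable
  bd : ∀ r > 0, ∀ ψ ∈ Arc σ r, (1 + r) * (|Hy r ψ| + |Hy1 r ψ| + |Hp r ψ| + |Hp1 r ψ|) ≤ C
  y0 : ∀ r, ∀ ψ ≤ σ, Hy r ψ = 0 ∧ Hy1 r ψ = 0
  yc : ∀ ψ ∈ Ioo σ π, ContinuousOn (Hy · ψ) (Ioc 0 (rb σ ψ))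
  yd : ∀ ψ ∈ Ioo σ π, ∀ r ∈ Ioo 0 (rb σ ψ), r ∉ X ψ → HasDerivAt (Hy · ψ) (Hy1 r ψ / r) r
  p0 : ∀ r ≤ tl σ, ∀ ψ, Hp r ψ = 0 ∧ Hp1 r ψ = 0
  po : ∀ r > tl σ, Hp r 0 = 0 ∧ ContinuousOn (Hp r) (Icc 0 (ao σ r))
  pn : ∀ r, ∀ ψ ≥ σ + π / 2, Hp r ψ = 0 ∧ Hp1 r ψ = 0
  pd : ∀ r > tl σ, ∀ ψ ∈ Ioo 0 (ao σ r), ψ ∉ Y r → HasDerivAt (Hp r) (Hp1 r ψ) ψ
  bis : ∀ ψ ∈ Ioo σ π, rb σ ψ * bt n σ (1 + pl (rb σ ψ, ψ)) ≤
    Hy (rb σ ψ) ψ * Real.sin (ψ - σ) + Hp (rb σ ψ) ψ * Real.cos (ψ - σ)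
  main : ∀ r > 0, ∀ ψ ∈ Arc σ r, ∀ v w : ℝ, Kf n r + Hy1 r ψ + Hp1 r ψ + Hy r ψ * v + Hp r ψ * w ≤
    k r ψ + Psi n (1 + pl (r, ψ)) * (v ^ 2 + w ^ 2)

/-- what the certificate statement needs of `η` -/
def FluxSt (n : ℕ) (η : ℝ → ℝ → ℝ) : Prop :=
  (∀ y, Kf n (Real.exp y) ^ 2 * lam π y ≤ η π y) ∧ ∀ σ ∈ Ioo 0 π, ∃ k, Nonempty (Flux n σ k) ∧
    ∀ y, IntegrableOn (fun ψ => k (Real.exp y) ψ ^ 2) (Arc σ (Real.exp y)) ∧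
      ∫ ψ in Arc σ (Real.exp y), k (Real.exp y) ψ ^ 2 ≤ 2 * π * η σ y

end Pool.Agent.Lib.MP_f225de_an.MA
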