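import Pool.Agent.Lib.MP_f225de_an.MA4
import Pool.Agent.Lib.MP_f225de_an.MC0

set_option autoImplicit false

open MeasureTheory Set Filter Topology Complex
open scoped Real

namespace Pool.Agent.Lib.MP_f225de_an.MA

open E Sk

variable {σ r ψ : ℝ}

lemma mem_Sec (h0 : 0 < σ) (hr : 0 ≤ r) (hψ : ψ ∈ Icc 0 π)
    (h : r * Real.sin (ψ - σ) ≤ Real.sin σ) : 1 + pl (r, ψ) ∈ Sec σ := by
  set u := 1 + pl (r, ψ) with hu
  have h1 : 0 ≤ u.im := by
    rw [hu, add_im, one_im, zero_add, pl_im]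
    exact mul_nonneg hr (Real.sin_nonneg_of_mem_Icc hψ)
  have h2 : (u * exp (-σ * I)).im ≤ 0 := by
    rw [hu, add_mul, pl_rot, add_im, pl_im, one_mul, ← ofReal_neg, exp_ofReal_mul_I_im,
      Real.sin_neg]
    linarith
  by_cases e : u = 0
  · exact ⟨0, 0, le_rfl, ⟨le_rfl, h0.le⟩, by simp [e]⟩
  refine ⟨‖u‖, arg u, norm_nonneg _, ⟨arg_nonneg_iff.2 h1, not_lt.1 fun h3 => ?_⟩,
    (norm_mul_exp_arg_mul_I u).symm⟩
  rw [← norm_mul_exp_arg_mul_I u] at h2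
  exact h2.not_gt ((mul_pos (norm_pos_iff.2 e) (Real.sin_pos_of_pos_of_lt_pi (sub_pos.2 h3)
    (by linarith [arg_le_pi u]))).trans_eq
    ((pl_im (‖u‖, arg u - σ)).symm.trans (congrArg im (pl_rot (‖u‖, arg u) σ).symm)))

lemma node_sub (hr : 0 ≤ r) : ‖1 + pl (r, ψ) - 1‖ = r := by
  rw [add_sub_cancel_left, norm_pl, abs_of_nonneg hr]

lemma node_ne (hr : 0 < r) : 1 + pl (r, ψ) ≠ 1 := fun e => by
  have := node_sub (ψ := ψ) hr.le
  rw [e, sub_self, norm_zero] at this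
  exact hr.ne this

lemma sinb (hσ : σ ∈ Ioo 0 π) (hψ : ψ ∈ Ioo σ π) : 0 < Real.sin (ψ - σ) :=
  Real.sin_pos_of_pos_of_lt_pi (sub_pos.2 hψ.1) (by linarith [hσ.1, hψ.2])

lemma rb_pos (hσ : σ ∈ Ioo 0 π) (hψ : ψ ∈ Ioo σ π) : 0 < rb σ ψ :=
  div_pos (Real.sin_pos_of_pos_of_lt_pi hσ.1 hσ.2) (sinb hσ hψ)

lemma AR_ray (hσ : σ ∈ Ioo 0 π) (hψ : ψ ∈ Ioo σ π) : (r, ψ) ∈ AR σ ↔ r ∈ Ioo 0 (rb σ ψ) := by
  simp only [AR, Arc, mem_ofPred_eq, mem_Ioo, rb, lt_div_iff₀ (sinb hσ hψ), hσ.1.trans hψ.1, hψ.2,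
    true_and]

lemma tl_ge (σ : ℝ) : Real.sin σ ≤ tl σ := by
  unfold tl; split_ifs; exacts [le_rfl, Real.sin_le_one σ]

lemma ao_mem (hσ : σ ∈ Ioo 0 π) (hr : tl σ < r) : ao σ r ∈ Ioo σ (min π (σ + π / 2)) := by
  have h1 := Real.sin_pos_of_pos_of_lt_pi hσ.1 hσ.2
  have h2 := (tl_ge σ).trans_lt hr
  have h3 := h1.trans h2
  have h4 := Real.arcsin_lt_pi_div_two.2 ((div_lt_one h3).2 h2)
  refine ⟨lt_add_of_pos_right _ (Real.arcsin_pos.2 (div_pos h1 h3)), lt_min ?_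
    (add_lt_add_right h4 _)⟩
  unfold tl at hr
  unfold ao
  split_ifs at hr with h
  · linarith
  · have := (Real.arcsin_lt_iff_lt_sin' (x := Real.sin σ / r) (y := π - σ)
      ⟨by linarith [hσ.2, Real.pi_pos], by linarith⟩).2 (by
        rw [Real.sin_pi_sub]; exact div_lt_self h1 hr)
    linarith

lemma ao_arc (hσ : σ ∈ Ioo 0 π) (hr : tl σ < r) (hψ : 0 ≤ ψ) :
    (ψ ≤ ao σ r → r * Real.sin (ψ - σ) ≤ Real.sin σ) ∧
    (ψ < ao σ r → r * Real.sin (ψ - σ) < Real.sin σ) ∧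
    (ψ < σ + π / 2 → r * Real.sin (ψ - σ) < Real.sin σ → ψ < ao σ r) := by
  have h1 := Real.sin_pos_of_pos_of_lt_pi hσ.1 hσ.2
  have h2 := (tl_ge σ).trans_lt hr
  have h3 := h1.trans h2
  have h4 := ao_mem hσ hr
  have h5 := h4.2.trans_le (min_le_right _ _)
  have h6 : Real.sin σ / r ∈ Icc (-1 : ℝ) 1 :=
    ⟨by linarith [div_pos h1 h3], (div_le_one h3).2 h2.le⟩
  rcases le_or_gt ψ σ with h | h
  · have := mul_nonpos_of_nonneg_of_nonpos h3.le (Real.sin_nonpos_of_nonpos_of_neg_pi_le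
      (sub_nonpos.2 h) (by linarith [hσ.2]))
    exact ⟨fun _ => by linarith, fun _ => by linarith, fun _ _ => h.trans_lt h4.1⟩
  · have h7 : ∀ _ : ψ ≤ σ + π / 2, ψ - σ ∈ Icc (-(π / 2)) (π / 2) := fun _ =>
      ⟨by linarith [Real.pi_pos], by linarith⟩
    refine ⟨fun e => ?_, fun e => ?_, fun e e2 => ?_⟩
    · exact (le_div_iff₀' h3).1 ((Real.le_arcsin_iff_sin_le (h7 (e.trans h5.le)) h6).1
        (sub_le_iff_le_add'.2 e))
    · exact (lt_div_iff₀' h3).1 ((Real.lt_arcsin_iff_sin_lt (h7 (e.trans h5).le) h6).1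
        (sub_lt_iff_lt_add'.2 e))
    · exact sub_lt_iff_lt_add'.1 ((Real.lt_arcsin_iff_sin_lt (h7 e.le) h6).2
        ((lt_div_iff₀' h3).2 e2))

lemma ao_rb (hσ : σ ∈ Ioo 0 π) (hψ : ψ ∈ Ioo σ (min π (σ + π / 2))) : ao σ (rb σ ψ) = ψ := by
  have h1 := Real.sin_pos_of_pos_of_lt_pi hσ.1 hσ.2
  have h2 := lt_min_iff.1 hψ.2
  rw [ao, rb, div_div_cancel₀ h1.ne', Real.arcsin_sin (by linarith [hψ.1, Real.pi_pos])
    (by linarith [h2.2]), add_sub_cancel]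

lemma rb_image (hσ : σ ∈ Ioo 0 π) : rb σ '' Ioo σ (min π (σ + π / 2)) = Ioi (tl σ) := by
  have h1 := Real.sin_pos_of_pos_of_lt_pi hσ.1 hσ.2
  refine Subset.antisymm ?_ fun r hr => ⟨ao σ r, ao_mem hσ hr, ?_⟩
  · rintro _ ⟨ψ, hψ, rfl⟩
    have h2 := lt_min_iff.1 hψ.2
    have h3 := sinb hσ ⟨hψ.1, h2.1⟩
    have h4 : ∀ t, ψ - σ < t → t ≤ π / 2 → Real.sin (ψ - σ) < Real.sin t := fun t a b =>
      Real.sin_lt_sin_of_lt_of_le_pi_div_two (by linarith [hψ.1, Real.pi_pos]) b a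
    rw [mem_Ioi, rb, lt_div_iff₀ h3, tl]
    split_ifs with h
    · simpa [h1] using h4 (π / 2) (by linarith [h2.2]) le_rfl
    · simpa using h4 (π - σ) (by linarith [h2.1]) (by linarith)
  · have h2 := (tl_ge σ).trans_lt hr
    have h3 := h1.trans h2
    rw [rb, ao, add_sub_cancel_left, Real.sin_arcsin (by linarith [div_pos h1 h3])
      ((div_le_one h3).2 h2.le), div_div_cancel₀ h1.ne']

/-- distance from the origin of the bisector point seen in the direction `ψ` -/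
noncomputable def ro (σ ψ : ℝ) : ℝ := Real.sin ψ / Real.sin (ψ - σ)

lemma ro_pl (hσ : σ ∈ Ioo 0 π) (hψ : ψ ∈ Ioo σ π) : pl (ro σ ψ, σ) = 1 + pl (rb σ ψ, ψ) := by
  have h := (sinb hσ hψ).ne'
  refine Complex.ext ?_ ?_
  · rw [add_re, pl_re, pl_re, one_re, ro, rb]
    field_simp
    rw [Real.sin_sub]; ring
  · rw [add_im, pl_im, pl_im, one_im, ro, rb]
    ring

lemma ro_der (hσ : σ ∈ Ioo 0 π) (hψ : ψ ∈ Ioo σ π) :
    HasDerivAt (ro σ) (-(Real.sin σ / Real.sin (ψ - σ) ^ 2)) ψ := by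
  refine ((Real.hasDerivAt_sin ψ).div ((hasDerivAt_id' ψ).sub_const σ).sin
    (sinb hσ hψ).ne').congr_deriv ?_
  rw [← neg_div, Real.sin_sub, Real.cos_sub]
  congr 1
  linear_combination -Real.sin σ * Real.cos_sq_add_sin_sq ψ

lemma ro_inj (hσ : σ ∈ Ioo 0 π) : InjOn (ro σ) (Ioo σ π) :=
  (strictAntiOn_of_deriv_neg (convex_Ioo _ _)
    (fun _ h => (ro_der hσ h).continuousAt.continuousWithinAt) fun x h => by
      rw [interior_Ioo] at h
      rw [(ro_der hσ h).deriv, neg_lt_zero]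
      exact div_pos (Real.sin_pos_of_pos_of_lt_pi hσ.1 hσ.2) (pow_pos (sinb hσ h) 2)).injOn

lemma ro_image (hσ : σ ∈ Ioo 0 π) : ro σ '' Ioo σ π = Ioi 0 := by
  have h1 := Real.sin_pos_of_pos_of_lt_pi hσ.1 hσ.2
  refine Subset.antisymm ?_ fun x (hx : 0 < x) => ?_
  · rintro _ ⟨ψ, hψ, rfl⟩
    exact div_pos (Real.sin_pos_of_pos_of_lt_pi (hσ.1.trans hψ.1) hψ.2) (sinb hσ hψ)
  · set t := π / 2 - Real.arctan ((x - Real.cos σ) / Real.sin σ) with ht
    have t0 : 0 < t := sub_pos.2 (Real.arctan_lt_pi_div_two _)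
    have t1 : t < π := by linarith [Real.neg_pi_div_two_lt_arctan ((x - Real.cos σ) / Real.sin σ)]
    have t2 := Real.sin_pos_of_pos_of_lt_pi t0 t1
    have t3 : Real.cos t = (x - Real.cos σ) / Real.sin σ * Real.sin t := by
      rw [ht, Real.cos_pi_div_two_sub, Real.sin_pi_div_two_sub, Real.sin_arctan, Real.cos_arctan]
      ring
    have t4 : Real.sin (σ + t) = x * Real.sin t := by
      rw [Real.sin_add, t3]; field_simp; ring
    refine ⟨σ + t, ⟨by linarith, not_le.1 fun e => ?_⟩, by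
      rw [ro, t4, add_sub_cancel_left, mul_div_cancel_right₀ _ t2.ne']⟩
    have := Real.sin_nonneg_of_nonneg_of_le_pi (x := σ + t - π) (by linarith) (by linarith [hσ.2])
    rw [Real.sin_sub_pi, t4] at this
    linarith [mul_pos hx t2]

lemma fub1 {B : Set (ℝ × ℝ)} (hB : MeasurableSet B) {F : ℝ × ℝ → ℝ} (hF : IntegrableOn F B)
    {S : Set ℝ} (hS : MeasurableSet S) {g : ℝ → ℝ}
    (h : ∀ x, ∫ y, B.indicator F (x, y) = S.indicator g x) :
    IntegrableOn g S ∧ ∫ p in B, F p = ∫ x in S, g x := by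
  have h1 := (integrable_indicator_iff hB).2 hF
  have h2 := Integrable.integral_prod_left h1
  have h3 := integral_prod _ h1
  simp only [h] at h2 h3
  exact ⟨(integrable_indicator_iff hS).1 h2,
    (integral_indicator hB).symm.trans (h3.trans (integral_indicator hS))⟩

lemma fub2 {B : Set (ℝ × ℝ)} (hB : MeasurableSet B) {F : ℝ × ℝ → ℝ} (hF : IntegrableOn F B)
    {S : Set ℝ} (hS : MeasurableSet S) {g : ℝ → ℝ}
    (h : ∀ y, ∫ x, B.indicator F (x, y) = S.indicator g y) :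
    IntegrableOn g S ∧ ∫ p in B, F p = ∫ x in S, g x := by
  have h1 := (integrable_indicator_iff hB).2 hF
  have h2 := Integrable.integral_prod_right h1
  have h3 := integral_prod_symm _ h1
  simp only [h] at h2 h3
  exact ⟨(integrable_indicator_iff hS).1 h2,
    (integral_indicator hB).symm.trans (h3.trans (integral_indicator hS))⟩

end Pool.Agent.Lib.MP_f225de_an.MA
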