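import Pool.Agent.Lib.MP_f225de_an.MA8

set_option autoImplicit false

open MeasureTheory Set Filter Topology Complex
open scoped Real

namespace Pool.Agent.Lib.MP_f225de_an.MA

open E Sk

variable {n : ℕ} {σ η c : ℝ} {W : ℂ → ℝ} {V : ℂ → ℂ} {k : ℝ → ℝ → ℝ}

/-- logarithmic gradient in logarithmic polar coordinates at the node -/
noncomputable def zz (V : ℂ → ℂ) (p : ℝ × ℝ) : ℂ := pl p * V (1 + pl p)

/-- divergence term of one component of a field -/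
noncomputable def FF (W : ℂ → ℝ) (A B : ℝ → ℝ → ℝ) (v : ℝ × ℝ → ℝ) (p : ℝ × ℝ) : ℝ :=
  W (1 + pl p) * (A p.1 p.2 + B p.1 p.2 * v p) / p.1

lemma Gr.curve {F : ℂ → ℝ} {G u γ' : ℂ} {γ : ℝ → ℂ} {t : ℝ} (h : Gr F G u)
    (hγ : HasDerivAt γ γ' t) (e : u = γ t) : HasDerivAt (fun t => F (γ t)) (G * γ').re t :=
  HasFDerivAt.comp_hasDerivAt_of_eq t h hγ e

lemma AR_Sec (h0 : 0 < σ) {p : ℝ × ℝ} (hp : p ∈ AR σ) : 1 + pl p ∈ Sec σ :=
  mem_Sec h0 hp.1.le (Ioo_subset_Icc_self hp.2.1) hp.2.2.le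

lemma WV.zz_le (h : WV σ η c W V) (h0 : 0 < σ) {p : ℝ × ℝ} (hp : p ∈ AR σ) : ‖zz V p‖ ≤ c := by
  simpa [zz] using h.b3 _ (AR_Sec h0 hp)

lemma zz_meas (hV : Measurable V) : Measurable (zz V) :=
  pl_cont.measurable.mul (hV.comp (pl_cont.measurable.const_add 1))

lemma WV.FF_le (h : WV σ η c W V) (h0 : 0 < σ) {A B : ℝ → ℝ → ℝ} {v : ℝ × ℝ → ℝ} {C : ℝ}
    {p : ℝ × ℝ} (hp : p ∈ AR σ) (hb : (1 + p.1) * (|A p.1 p.2| + |B p.1 p.2|) ≤ C)
    (hv : |v p| ≤ c) : ‖FF W A B v p‖ ≤ c * (1 + c) * C * d1 η p.1 := by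
  have hc := h.c0 h0.le
  have hr : 0 < p.1 := hp.1
  have hW := h.b0 (1 + pl p)
  have hC : 0 ≤ C := le_trans (by positivity) hb
  have h1 : |A p.1 p.2 + B p.1 p.2 * v p| ≤ (1 + c) * (|A p.1 p.2| + |B p.1 p.2|) := by
    refine (abs_add_le _ _).trans ?_
    rw [abs_mul]
    nlinarith [abs_nonneg (A p.1 p.2), abs_nonneg (B p.1 p.2), abs_nonneg (v p)]
  have h2 := h.b2 _ (AR_Sec h0 hp)
  rw [node_sub (r := p.1) (ψ := p.2) hr.le] at h2
  have h3 : 0 ≤ |A p.1 p.2| + |B p.1 p.2| := by positivity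
  rw [FF, Real.norm_eq_abs, abs_div, abs_mul, abs_of_nonneg hW, abs_of_pos hr]
  refine le_d1 (by positivity) ?_ ?_
  · calc _ ≤ c * p.1 ^ η * ((1 + c) * C) / p.1 := by
          gcongr
          exact h1.trans (by gcongr; nlinarith)
      _ = _ := by ring
  · calc _ ≤ c * ((1 + c) * (C / p.1)) / p.1 := by
          gcongr
          exacts [h.b1 _ (AR_Sec h0 hp), h1.trans (by
            gcongr; rw [le_div_iff₀ hr]; nlinarith)]
      _ = _ := by ring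

lemma WV.FF_int (h : WV σ η c W V) (hη : 0 < η) (h0 : 0 < σ) {A B : ℝ → ℝ → ℝ} {v : ℝ × ℝ → ℝ}
    {C : ℝ} (mA : Measurable (Function.uncurry A)) (mB : Measurable (Function.uncurry B))
    (mv : Measurable v) (hb : ∀ p ∈ AR σ, (1 + p.1) * (|A p.1 p.2| + |B p.1 p.2|) ≤ C)
    (hv : ∀ p ∈ AR σ, |v p| ≤ c) : Measurable (FF W A B v) ∧ IntegrableOn (FF W A B v) (AR σ) := by
  have m : Measurable (FF W A B v) := ((h.mW.comp (pl_cont.measurable.const_add 1)).mul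
    (mA.add (mB.mul mv))).div measurable_fst
  have h1 := ((d1_int hη).const_mul (c * (1 + c) * C)).comp_fst (volume.restrict (Ioo (-π) π))
  rw [Measure.prod_restrict] at h1
  exact ⟨m, (IntegrableOn.mono_set h1 (AR_sub σ)).mono' m.aestronglyMeasurable
    ((ae_restrict_mem (AR_meas σ)).mono fun p hp => h.FF_le h0 hp (hb p hp) (hv p hp))⟩

lemma Flux.bd1 (F : Flux n σ k) : ∀ p ∈ AR σ, (1 + p.1) * (|F.Hy1 p.1 p.2| + |F.Hy p.1 p.2|) ≤ F.C :=
  fun p hp => le_trans (mul_le_mul_of_nonneg_left (by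
    linarith [abs_nonneg (F.Hp p.1 p.2), abs_nonneg (F.Hp1 p.1 p.2)]) (by linarith [hp.1]))
    (F.bd _ hp.1 _ hp.2)

lemma Flux.bd2 (F : Flux n σ k) : ∀ p ∈ AR σ, (1 + p.1) * (|F.Hp1 p.1 p.2| + |F.Hp p.1 p.2|) ≤ F.C :=
  fun p hp => le_trans (mul_le_mul_of_nonneg_left (by
    linarith [abs_nonneg (F.Hy p.1 p.2), abs_nonneg (F.Hy1 p.1 p.2)]) (by linarith [hp.1]))
    (F.bd _ hp.1 _ hp.2)

lemma WV.ray (h : WV σ η c W V) (hη : 0 < η) (hσ : σ ∈ Ioo 0 π) (F : Flux n σ k) {ψ : ℝ}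
    (hψ : ψ ∈ Ioo σ π) : ∫ r in Ioo 0 (rb σ ψ), FF W F.Hy1 F.Hy (fun p => (zz V p).re) (r, ψ) =
      W (1 + pl (rb σ ψ, ψ)) * F.Hy (rb σ ψ) ψ := by
  have hb := rb_pos hσ hψ
  have hc := h.c0 hσ.1.le
  have hv : ∀ p ∈ AR σ, |(zz V p).re| ≤ c := fun p hp =>
    (abs_re_le_norm _).trans (h.zz_le hσ.1 hp)
  have hS : ∀ r ∈ Icc 0 (rb σ ψ), 1 + pl (r, ψ) ∈ Sec σ := fun r hr =>
    mem_Sec hσ.1 hr.1 ⟨(hσ.1.trans hψ.1).le, hψ.2.le⟩ ((le_div_iff₀ (sinb hσ hψ)).1 hr.2)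
  have hd : ∀ r ∈ Ioc 0 (rb σ ψ), HasDerivAt (fun r => W (1 + pl (r, ψ)))
      (W (1 + pl (r, ψ)) * (zz V (r, ψ)).re / r) r := fun r hr => by
    refine ((h.gr _ (hS r ⟨hr.1.le, hr.2⟩) (node_ne hr.1)).curve
      (((hasDerivAt_id' r).ofReal_comp.mul_const (exp (ψ * I))).const_add 1) rfl).congr_deriv ?_
    rw [mul_assoc, re_ofReal_mul, zz, pl, mul_assoc, re_ofReal_mul, ofReal_one, one_mul,
      mul_comm (V _)]
    field_simp [hr.1.ne']
  have h0 : W (1 + pl (0, ψ)) = 0 := le_antisymm (by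
    simpa [pl, hη.ne'] using h.b2 _ (hS 0 ⟨le_rfl, hb.le⟩)) (h.b0 _)
  rw [← integral_Ioc_eq_integral_Ioo, ← intervalIntegral.integral_of_le hb.le]
  refine (integral_eq_of_hasDerivAt_off_countable_of_le (fun r => W (1 + pl (r, ψ)) * F.Hy r ψ) _
    hb.le (F.cX ψ) (fun r hr => ?_) (fun r hr => ?_) ?_).trans (by rw [h0, zero_mul, sub_zero])
  · rcases hr.1.eq_or_lt with rfl | e
    · rw [ContinuousWithinAt, h0, zero_mul]
      refine squeeze_zero_norm' (a := fun r => c * r ^ η * |F.C|) ?_ ((Continuous.tendsto'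
        ((continuous_const.mul (continuous_id.rpow_const fun _ => Or.inr hη.le)).mul
          continuous_const) 0 0 (by simp [hη.ne'])).mono_left nhdsWithin_le_nhds)
      filter_upwards [eventually_mem_nhdsWithin, nhdsWithin_le_nhds (Iio_mem_nhds hb)] with r h1 h2
      rcases h1.1.eq_or_lt with rfl | e
      · rw [h0, zero_mul, norm_zero]; positivity
      have h3 := h.b2 _ (hS r h1)
      have h4 := F.bd1 (r, ψ) ((AR_ray hσ hψ).2 ⟨e, h2⟩)
      rw [node_sub e.le] at h3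
      rw [norm_mul, Real.norm_of_nonneg (h.b0 _), Real.norm_eq_abs]
      simp only at h4
      refine mul_le_mul h3 ?_ (abs_nonneg _) (by positivity)
      nlinarith [abs_nonneg (F.Hy r ψ), abs_nonneg (F.Hy1 r ψ), le_abs_self F.C]
    · exact (hd r ⟨e, hr.2⟩).continuousAt.continuousWithinAt.mul ((F.yc ψ hψ r ⟨e, hr.2⟩).mono_of_mem_nhdsWithin
        (mem_of_superset (inter_mem_nhdsWithin _ (Ioi_mem_nhds e)) fun x hx => ⟨hx.2, hx.1.2⟩))
  · refine ((hd r ⟨hr.1.1, hr.1.2.le⟩).mul (F.yd ψ hψ r hr.1 hr.2)).congr_deriv ?_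
    simp only [FF]
    ring
  · refine (intervalIntegrable_iff_integrableOn_Ioo_of_le hb.le).2
      ((((d1_int hη).mono_set Ioo_subset_Ioi_self).const_mul (c * (1 + c) * F.C)).mono'
      (((h.FF_int hη hσ.1 F.mHy1 F.mHy (measurable_re.comp (zz_meas h.mV)) F.bd1 hv).1.comp
        measurable_prodMk_right).aestronglyMeasurable)
      ((ae_restrict_mem measurableSet_Ioo).mono fun r hr => ?_))
    have := (AR_ray hσ hψ).2 hr
    exact h.FF_le hσ.1 this (F.bd1 _ this) (hv _ this)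

lemma WV.arc (h : WV σ η c W V) (hη : 0 < η) (hσ : σ ∈ Ioo 0 π) (F : Flux n σ k) {r : ℝ}
    (hr : tl σ < r) : ∫ ψ in Ioo 0 (ao σ r), FF W F.Hp1 F.Hp (fun p => -(zz V p).im) (r, ψ) =
      W (1 + pl (r, ao σ r)) * F.Hp r (ao σ r) / r := by
  have h1 := ao_mem hσ hr
  have h2 := (hσ.1.trans h1.1).le
  have h3 := h1.2.trans_le (min_le_left _ _)
  have h4 := (Real.sin_pos_of_pos_of_lt_pi hσ.1 hσ.2).trans ((tl_ge σ).trans_lt hr)
  have hv : ∀ p ∈ AR σ, |-(zz V p).im| ≤ c := fun p hp =>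
    (abs_neg _).trans_le ((abs_im_le_norm _).trans (h.zz_le hσ.1 hp))
  have hd : ∀ ψ ∈ Icc 0 (ao σ r), HasDerivAt (fun ψ => W (1 + pl (r, ψ)))
      (W (1 + pl (r, ψ)) * -(zz V (r, ψ)).im) ψ := fun ψ hψ => by
    refine ((h.gr _ (mem_Sec hσ.1 h4.le ⟨hψ.1, hψ.2.trans h3.le⟩ ((ao_arc hσ hr hψ.1).1 hψ.2))
      (node_ne h4)).curve
      (((((hasDerivAt_id' ψ).ofReal_comp.mul_const I).cexp).const_mul (r : ℂ)).const_add
        1) rfl).congr_deriv ?_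
    rw [mul_assoc, re_ofReal_mul, zz, ofReal_one, one_mul, ← mul_assoc, ← mul_assoc,
      mul_I_re, pl, mul_assoc, mul_comm (V _)]
  rw [← integral_Ioc_eq_integral_Ioo, ← intervalIntegral.integral_of_le h2]
  refine (integral_eq_of_hasDerivAt_off_countable_of_le
    (fun ψ => W (1 + pl (r, ψ)) * F.Hp r ψ / r) _ h2
    (F.cY r) (fun ψ hψ => ((hd ψ hψ).continuousAt.continuousWithinAt.mul
      ((F.po r hr).2 ψ hψ)).div_const r) (fun ψ hψ => ?_) ?_).trans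
    (by rw [(F.po r hr).1, mul_zero, zero_div, sub_zero])
  · refine (((hd ψ (Ioo_subset_Icc_self hψ.1)).mul (F.pd r hr ψ hψ.1 hψ.2)).div_const
      r).congr_deriv ?_
    simp only [FF]
    ring
  · refine (intervalIntegrable_iff_integrableOn_Ioo_of_le h2).2
      (Integrable.mono' (integrableOn_const (C := c * (1 + c) * F.C * d1 η r) (by simp))
      (((h.FF_int hη hσ.1 F.mHp1 F.mHp (measurable_im.comp (zz_meas h.mV)).neg F.bd2 hv).1.comp
        measurable_prodMk_left).aestronglyMeasurable)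
      ((ae_restrict_mem measurableSet_Ioo).mono fun ψ hψ => ?_))
    have : (r, ψ) ∈ AR σ := ⟨h4, ⟨hψ.1, hψ.2.trans h3⟩, (ao_arc hσ hr hψ.1.le).2.1 hψ.2⟩
    exact h.FF_le hσ.1 this (F.bd2 _ this) (hv _ this)

theorem WV.flux (h : WV σ η c W V) (hη : 0 < η) (hσ : σ ∈ Ioo 0 π) (F : Flux n σ k)
    (hi : IntegrableOn (fun ρ => W (pl (ρ, σ)) * bt n σ (pl (ρ, σ))) (Ioi 0)) :
    IntegrableOn (FF W F.Hy1 F.Hy fun p => (zz V p).re) (AR σ) ∧
    IntegrableOn (FF W F.Hp1 F.Hp fun p => -(zz V p).im) (AR σ) ∧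
    ∫ ρ in Ioi 0, W (pl (ρ, σ)) * bt n σ (pl (ρ, σ)) ≤
      (∫ p in AR σ, FF W F.Hy1 F.Hy (fun p => (zz V p).re) p) +
      ∫ p in AR σ, FF W F.Hp1 F.Hp (fun p => -(zz V p).im) p := by
  have s0 := Real.sin_pos_of_pos_of_lt_pi hσ.1 hσ.2
  have i1 := (h.FF_int hη hσ.1 F.mHy1 F.mHy (measurable_re.comp (zz_meas h.mV)) F.bd1
    fun p hp => (abs_re_le_norm _).trans (h.zz_le hσ.1 hp)).2
  have i2 := (h.FF_int hη hσ.1 F.mHp1 F.mHp (measurable_im.comp (zz_meas h.mV)).neg F.bd2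
    fun p hp => (abs_neg _).trans_le ((abs_im_le_norm _).trans (h.zz_le hσ.1 hp))).2
  refine ⟨i1, i2, ?_⟩
  obtain ⟨a1, a2⟩ := fub2 (AR_meas σ) (F := FF W F.Hy1 F.Hy fun p => (zz V p).re) i1
    (S := Ioo σ π) measurableSet_Ioo (g := fun ψ => W (1 + pl (rb σ ψ, ψ)) * F.Hy (rb σ ψ) ψ)
    fun ψ => by
      by_cases hψ : ψ ∈ Ioo σ π
      · rw [indicator_of_mem hψ, ← h.ray hη hσ F hψ, ← integral_indicator measurableSet_Ioo]
        congr 1
        ext r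
        simp only [indicator, AR_ray hσ hψ]
      · rw [indicator_of_notMem hψ]
        refine integral_eq_zero_of_ae (.of_forall fun r => indicator_apply_eq_zero.2 fun hp => ?_)
        have := F.y0 r ψ (not_lt.1 fun e => hψ ⟨e, hp.2.1.2⟩)
        simp [FF, this.1, this.2]
  obtain ⟨b1, b2⟩ := fub1 (AR_meas σ) (F := FF W F.Hp1 F.Hp fun p => -(zz V p).im) i2
    (S := Ioi (tl σ)) measurableSet_Ioi
    (g := fun r => W (1 + pl (r, ao σ r)) * F.Hp r (ao σ r) / r) fun r => by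
      by_cases hr : r ∈ Ioi (tl σ)
      · rw [indicator_of_mem hr, ← h.arc hη hσ F hr, ← integral_indicator measurableSet_Ioo]
        congr 1
        ext ψ
        by_cases hψ : ψ ∈ Ioo 0 (ao σ r)
        · rw [indicator_of_mem hψ, indicator_of_mem (show (r, ψ) ∈ AR σ from
            ⟨s0.trans ((tl_ge σ).trans_lt hr), ⟨hψ.1, hψ.2.trans ((ao_mem hσ hr).2.trans_le
              (min_le_left _ _))⟩, (ao_arc hσ hr hψ.1.le).2.1 hψ.2⟩)]
        · rw [indicator_of_notMem hψ]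
          refine indicator_apply_eq_zero.2 fun hp => ?_
          have := F.pn r ψ (not_lt.1 fun e =>
            hψ ⟨hp.2.1.1, (ao_arc hσ hr hp.2.1.1.le).2.2 e hp.2.2⟩)
          simp [FF, this.1, this.2]
      · rw [indicator_of_notMem hr]
        refine integral_eq_zero_of_ae (.of_forall fun ψ => indicator_apply_eq_zero.2 fun _ => ?_)
        have := F.p0 r (not_lt.1 hr) ψ
        simp [FF, this.1, this.2]
  have hI : Ioo σ (min π (σ + π / 2)) ⊆ Ioo σ π := Ioo_subset_Ioo_right (min_le_left _ _)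
  have d1 : ∀ ψ ∈ Ioo σ (min π (σ + π / 2)), HasDerivWithinAt (rb σ)
      (-(rb σ ψ * (Real.cos (ψ - σ) / Real.sin (ψ - σ)))) (Ioo σ (min π (σ + π / 2))) ψ :=
    fun ψ hψ => (((hasDerivAt_const ψ (Real.sin σ)).div ((hasDerivAt_id' ψ).sub_const σ).sin
      (sinb hσ (hI hψ)).ne').congr_deriv (by rw [rb]; ring)).hasDerivWithinAt
  have j1 : InjOn (rb σ) (Ioo σ (min π (σ + π / 2))) := fun x hx y hy e => by
    rw [← ao_rb hσ hx, e, ao_rb hσ hy]
  let g : ℝ → ℝ := fun ψ =>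
    W (1 + pl (rb σ ψ, ψ)) * F.Hp (rb σ ψ) ψ * (Real.cos (ψ - σ) / Real.sin (ψ - σ))
  have e1 : EqOn (fun ψ => |-(rb σ ψ * (Real.cos (ψ - σ) / Real.sin (ψ - σ)))| •
      (W (1 + pl (rb σ ψ, ao σ (rb σ ψ))) * F.Hp (rb σ ψ) (ao σ (rb σ ψ)) / rb σ ψ)) g
      (Ioo σ (min π (σ + π / 2))) := fun ψ hψ => by
    have := rb_pos hσ (hI hψ)
    have := sinb hσ (hI hψ)
    have := Real.cos_pos_of_mem_Ioo (x := ψ - σ)
      ⟨by linarith [hψ.1, Real.pi_pos], by linarith [(lt_min_iff.1 hψ.2).2]⟩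
    simp only [g]
    rw [abs_neg, abs_of_pos (by positivity), ao_rb hσ hψ, smul_eq_mul]
    field_simp
  have e2 : ∀ ψ ∈ Ioo σ π \ Ioo σ (min π (σ + π / 2)), g ψ = 0 := fun ψ hψ => by
    simp [g, (F.pn (rb σ ψ) ψ (not_lt.1 fun e => hψ.2 ⟨hψ.1.1, lt_min hψ.1.2 e⟩)).1]
  rw [← rb_image hσ] at b1 b2
  rw [integral_image_eq_integral_abs_deriv_smul measurableSet_Ioo d1 j1,
    setIntegral_congr_fun measurableSet_Ioo e1,
    ← setIntegral_eq_of_subset_of_forall_sdiff_eq_zero measurableSet_Ioo hI e2] at b2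
  have b3 := (((integrableOn_image_iff_integrableOn_abs_deriv_smul measurableSet_Ioo d1 j1 _).1
    b1).congr_fun e1 measurableSet_Ioo).of_forall_sdiff_eq_zero measurableSet_Ioo e2
  have d2 := fun ψ (hψ : ψ ∈ Ioo σ π) => (ro_der hσ hψ).hasDerivWithinAt (s := Ioo σ π)
  rw [← ro_image hσ] at hi ⊢
  rw [a2, b2, ← integral_add a1 b3,
    integral_image_eq_integral_abs_deriv_smul measurableSet_Ioo d2 (ro_inj hσ)]
  refine setIntegral_mono_on ((integrableOn_image_iff_integrableOn_abs_deriv_smul measurableSet_Ioo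
    d2 (ro_inj hσ) _).1 hi) (a1.add b3) measurableSet_Ioo fun ψ hψ => ?_
  have s1 := sinb hσ hψ
  have := mul_le_mul_of_nonneg_left (F.bis ψ hψ) (div_nonneg (h.b0 (1 + pl (rb σ ψ, ψ))) s1.le)
  rw [abs_neg, abs_of_pos (by positivity), ro_pl hσ hψ, smul_eq_mul]
  refine le_of_eq_of_le ?_ (this.trans_eq ?_)
  · rw [show ∀ x, rb σ ψ * x = Real.sin σ / Real.sin (ψ - σ) * x from fun _ => rfl]
    ring
  · simp only [g]
    field_simp

end Pool.Agent.Lib.MP_f225de_an.MA
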