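import Pool.Agent.Lib.MP_f225de_an.MA6
import Pool.Agent.Lib.MP_f225de_an.MC0

set_option autoImplicit false

open MeasureTheory Set Filter Topology Complex
open scoped Real ENNReal

namespace Pool.Agent.Lib.MP_f225de_an.MA

open E

variable {n : ℕ}

lemma wt_pos {s : ℝ} (hs : s ∈ Ioo (0 : ℝ) 1) : 0 < wt n s :=
  mul_pos (Real.rpow_pos_of_pos hs.1 _) (Real.rpow_pos_of_pos (sub_pos.2 hs.2) _)

lemma wt_meas (n : ℕ) : Measurable (wt n) := by unfold wt; fun_prop

lemma gam_bd (hn : 2 ≤ n) : (0 : ℝ) < 1 / n ∧ (1 : ℝ) / n ≤ 1 / 2 := by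
  have : (2 : ℝ) ≤ n := by exact_mod_cast hn
  exact ⟨by positivity, by gcongr⟩

lemma wt_int (hn : 2 ≤ n) : IntegrableOn (wt n) (Ioo 0 1) := by
  have h := gam_bd hn
  refine ((intervalIntegrable_iff_integrableOn_Ioo_of_le zero_le_one).1
    (betaIntegral_convergent (u := (1 / n : ℝ)) (v := (1 - (1 + 1 / n) / 2 : ℝ))
      (by rw [ofReal_re]; exact h.1) (by rw [ofReal_re]; linarith)).norm).congr_fun
    (fun s hs => ?_) measurableSet_Ioo
  simp only
  rw [norm_mul, ← ofReal_one, ← ofReal_sub 1 s, norm_cpow_eq_rpow_re_of_pos hs.1,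
    norm_cpow_eq_rpow_re_of_pos (sub_pos.2 hs.2), sub_re, sub_re, ofReal_re, ofReal_re, ofReal_re,
    wt]
  congr 2
  ring

lemma m0_pos (hn : 2 ≤ n) : 0 < m0 n := by
  refine (setIntegral_pos_iff_support_of_nonneg_ae
    ((ae_restrict_mem measurableSet_Ioo).mono fun s hs => (wt_pos hs).le) (wt_int hn)).2 ?_
  rw [inter_eq_right.2 (show Ioo 0 1 ⊆ Function.support fun s => wt n s from
    fun s hs => (wt_pos hs).ne')]
  simp

lemma mu_ae (n : ℕ) : ∀ᵐ s ∂mu n, s ∈ Ioo (0 : ℝ) 1 :=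
  (withDensity_absolutelyContinuous _ _).ae_le (ae_restrict_mem measurableSet_Ioo)

lemma int_mu (hn : 2 ≤ n) (f : ℝ → ℝ) : ∫ s, f s ∂mu n = ∫ s in Ioo 0 1, wt n s / m0 n * f s := by
  rw [mu, integral_withDensity_eq_integral_toReal_smul
    ((wt_meas n).div_const _).ennreal_ofReal (by simp)]
  refine setIntegral_congr_fun measurableSet_Ioo fun s hs => ?_
  simp only [ENNReal.toReal_ofReal (div_pos (wt_pos hs) (m0_pos hn)).le, smul_eq_mul]

lemma lint_mu {f : ℝ → ℝ≥0∞} (hf : Measurable f) :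
    ∫⁻ s, f s ∂mu n = ∫⁻ s in Ioo 0 1, ENNReal.ofReal (wt n s / m0 n) * f s :=
  lintegral_withDensity_eq_lintegral_mul _ ((wt_meas n).div_const _).ennreal_ofReal hf

lemma mu_prob (hn : 2 ≤ n) : IsProbabilityMeasure (mu n) := by
  constructor
  rw [mu, withDensity_apply _ .univ, Measure.restrict_univ, ← ofReal_integral_eq_lintegral_ofReal
    ((wt_int hn).div_const _) ((ae_restrict_mem measurableSet_Ioo).mono fun s hs =>
      (div_pos (wt_pos hs) (m0_pos hn)).le), integral_div]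
  exact (congrArg _ (div_self (m0_pos hn).ne')).trans ENNReal.ofReal_one

lemma Pk_nonneg {s : ℝ} (hs : s ∈ Ioo (0 : ℝ) 1) (b : ℝ) : 0 ≤ Pk s b :=
  div_nonneg (mul_nonneg hs.1.le (by linarith [hs.2]))
    (add_nonneg (sq_nonneg _) (mul_nonneg (by linarith [hs.2]) (sq_nonneg _)))

lemma Pk_meas : Measurable fun x : ℝ × ℝ => Pk x.1 x.2 := by unfold Pk; fun_prop

lemma Pk_int {s : ℝ} (hs : s ∈ Ioo (0 : ℝ) 1) :
    ∫⁻ θ in Ioc 0 (2 * π), ENNReal.ofReal (Pk s ‖exp (θ * I) - 1‖) = ENNReal.ofReal (2 * π) := by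
  have hπ := Real.pi_pos
  have h1 : ‖((1 - s : ℝ) : ℂ)‖ = 1 - s := by
    rw [norm_real, Real.norm_of_nonneg (by linarith [hs.2])]
  have := (differentiable_const (1 : ℂ)).diffContOnCl.circleAverage_poissonKernel_smul'
    (c := 0) (R := 1) (w := (1 - s : ℝ)) (by rw [mem_ball_zero_iff, h1]; linarith [hs.1])
  have e : ∀ θ : ℝ, (‖exp (θ * I)‖ ^ 2 - ‖((1 - s : ℝ) : ℂ)‖ ^ 2) /
      ‖exp (θ * I) - (1 - s : ℝ)‖ ^ 2 = Pk s ‖exp (θ * I) - 1‖ := fun θ => by
    rw [h1, norm_exp_ofReal_mul_I, Pk, Complex.sq_norm, Complex.sq_norm, normSq_apply, normSq_apply]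
    simp only [sub_re, sub_im, exp_ofReal_mul_I_re, exp_ofReal_mul_I_im, ofReal_re, ofReal_im,
      one_re, one_im]
    congr 1
    · ring
    · linear_combination s * Real.cos_sq_add_sin_sq θ
  simp only [Real.circleAverage, circleMap, ofReal_one, one_mul, zero_add, sub_zero, e, real_smul,
    mul_one, intervalIntegral.integral_ofReal, ← ofReal_mul, ofReal_eq_one] at this
  rw [← ofReal_integral_eq_lintegral_ofReal ?_ (ae_of_all _ fun θ => Pk_nonneg hs _),
    ← intervalIntegral.integral_of_le (by positivity)]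
  · congr 1
    field_simp at this
    linarith
  · refine (Continuous.intervalIntegrable (Continuous.div continuous_const (by fun_prop)
      fun θ => ?_) _ _).1
    have := hs.1
    have := sub_pos.2 hs.2
    positivity

lemma xi_image : (fun s : ℝ => s ^ 2 / (1 - s)) '' Ioo 0 1 = Ioi 0 := by
  refine Subset.antisymm ?_ fun x (hx : 0 < x) => ?_
  · rintro _ ⟨s, hs, rfl⟩
    exact div_pos (pow_pos hs.1 2) (sub_pos.2 hs.2)
  · have h1 := Real.sq_sqrt (show 0 ≤ x ^ 2 + 4 * x by positivity)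
    have h2 : x < √(x ^ 2 + 4 * x) := Real.lt_sqrt_of_sq_lt (by linarith)
    have h3 : √(x ^ 2 + 4 * x) < x + 2 := (Real.sqrt_lt' (by positivity)).2 (by linarith)
    refine ⟨(√(x ^ 2 + 4 * x) - x) / 2, ⟨by linarith, by linarith⟩, ?_⟩
    simp only
    rw [div_eq_iff (by linarith)]
    linarith

lemma mixP (hn : 2 ≤ n) {b : ℝ} (hb : 0 < b) : ∫⁻ s, ENNReal.ofReal (Pk s b) ∂mu n =
    (∫⁻ x in Ioi (0 : ℝ), ENNReal.ofReal (x ^ ((1 / n - 1 : ℝ) / 2) / (x + 1) / m0 n)) *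
      ENNReal.ofReal (b ^ (1 / n - 1 : ℝ)) := by
  have hm := m0_pos hn
  have h1 := lintegral_image_eq_lintegral_abs_deriv_mul (f := fun s : ℝ => s ^ 2 / (1 - s))
    (f' := fun s => s * (2 - s) / (1 - s) ^ 2) (s := Ioo 0 1) measurableSet_Ioo
    (fun s hs => (((hasDerivAt_pow 2 s).div ((hasDerivAt_id' s).const_sub 1)
      (sub_pos.2 hs.2).ne').congr_deriv (by congr 1; simp; ring)).hasDerivWithinAt)
    (fun s hs t ht h => by
      have h2 := (div_eq_div_iff (sub_pos.2 hs.2).ne' (sub_pos.2 ht.2).ne').1 h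
      have h3 : (s - t) * (s + t * (1 - s)) = 0 := by linear_combination h2
      have := mul_pos ht.1 (sub_pos.2 hs.2)
      exact sub_eq_zero.1 ((mul_eq_zero.1 h3).resolve_right (by linarith [hs.1])))
    fun x => ENNReal.ofReal (x ^ ((1 / n - 1 : ℝ) / 2) / (x + b ^ 2) / m0 n)
  have h2 := lintegral_image_eq_lintegral_abs_deriv_mul (f := fun x : ℝ => b ^ 2 * x)
    (f' := fun _ => b ^ 2) (s := Ioi 0) measurableSet_Ioi
    (fun x _ => (((hasDerivAt_id' x).const_mul _).congr_deriv (mul_one _)).hasDerivWithinAt)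
    (fun s _ t _ h => mul_left_cancel₀ (by positivity) h)
    fun x => ENNReal.ofReal (x ^ ((1 / n - 1 : ℝ) / 2) / (x + b ^ 2) / m0 n)
  rw [image_mul_left_Ioi (by positivity), mul_zero, ← xi_image, h1, xi_image] at h2
  rw [lint_mu (f := fun s => ENNReal.ofReal (Pk s b))
      (Pk_meas.comp measurable_prodMk_right).ennreal_ofReal,
    ← lintegral_mul_const' _ _ ENNReal.ofReal_ne_top]
  refine (setLIntegral_congr_fun measurableSet_Ioo fun s hs => ?_).trans
    (h2.trans (setLIntegral_congr_fun measurableSet_Ioi fun x (hx : 0 < x) => ?_))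
  · have h3 := sub_pos.2 hs.2
    have h4 := hs.1
    have h5 : 0 < 2 - s := by linarith
    rw [← ENNReal.ofReal_mul (div_pos (wt_pos hs) hm).le, ← ENNReal.ofReal_mul (abs_nonneg _),
      abs_of_pos (by positivity), Real.div_rpow (by positivity) h3.le, ← Real.rpow_two s,
      ← Real.rpow_mul h4.le, Real.rpow_two, wt, Pk, mul_div_cancel₀ _ two_ne_zero,
      show -((1 + 1 / n) / 2 : ℝ) = -((1 / n - 1) / 2 + 1) by ring, Real.rpow_neg h3.le,
      Real.rpow_add_one h3.ne']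
    congr 1
    field_simp
  · rw [← ENNReal.ofReal_mul (abs_nonneg _), ← ENNReal.ofReal_mul (by positivity),
      abs_of_pos (by positivity), Real.mul_rpow (by positivity) hx.le, ← Real.rpow_two b,
      ← Real.rpow_mul hb.le, Real.rpow_two, mul_div_cancel₀ _ two_ne_zero]
    congr 1
    field_simp

theorem mix (hn : 2 ≤ n) : ∃ c : ℝ≥0∞, c * BB n = ENNReal.ofReal (2 * π) ∧ ∀ b > 0,
    ∫⁻ s, ENNReal.ofReal (Pk s b) ∂mu n = c * ENNReal.ofReal (b ^ (1 / n - 1 : ℝ)) := by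
  refine ⟨_, ?_, fun b hb => mixP hn hb⟩
  have := mu_prob hn
  rw [BB, ← lintegral_const_mul _ (by fun_prop), ← restrict_Ioo_eq_restrict_Ioc,
    setLIntegral_congr_fun measurableSet_Ioo
      (g := fun θ : ℝ => ∫⁻ s, ENNReal.ofReal (Pk s ‖exp (θ * I) - 1‖) ∂mu n) fun θ hθ => ?_,
    restrict_Ioo_eq_restrict_Ioc, lintegral_lintegral_swap (Measurable.aemeasurable
      (Pk_meas.comp (f := fun x : ℝ × ℝ => (x.2, ‖exp (x.1 * I) - 1‖))
        (by fun_prop)).ennreal_ofReal),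
    lintegral_congr_ae ((mu_ae n).mono fun s hs => Pk_int hs)]
  · simp
  · refine (mixP hn (norm_pos_iff.2 (sub_ne_zero.2 fun e => ?_))).symm
    have := congrArg re e
    rw [exp_ofReal_mul_I_re, one_re] at this
    exact hθ.1.ne' ((Real.cos_eq_one_iff_of_lt_of_lt (by linarith [hθ.1, Real.pi_pos]) hθ.2).1 this)

end Pool.Agent.Lib.MP_f225de_an.MA
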