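import Pool.Agent.Lib.MP_f225de_an.MA7
import Pool.Agent.Lib.MP_f225de_an.MA9

set_option autoImplicit false

open MeasureTheory Set Filter Topology Complex Polynomial
open scoped Real ENNReal ComplexConjugate

namespace Pool.Agent.Lib.MP_f225de_an.MA

open E Sk

variable {n : ℕ} {σ η c : ℝ} {W : ℂ → ℝ} {V : ℂ → ℂ}

lemma ofReal_int_le {X : Type} [MeasurableSpace X] {μ : Measure X} {f : X → ℝ}
    (hf : Integrable f μ) : ENNReal.ofReal (∫ x, f x ∂μ) ≤ ∫⁻ x, ENNReal.ofReal (f x) ∂μ := by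
  rw [integral_eq_lintegral_pos_part_sub_lintegral_neg_part hf]
  exact (ENNReal.ofReal_le_ofReal (sub_le_self _ ENNReal.toReal_nonneg)).trans
    ENNReal.ofReal_toReal_le

lemma ofReal_sum_le {ι : Type} (s : Finset ι) (f : ι → ℝ) :
    ENNReal.ofReal (∑ i ∈ s, f i) ≤ ∑ i ∈ s, ENNReal.ofReal (f i) :=
  Finset.le_sum_of_subadditive _ ENNReal.ofReal_zero.le (fun _ _ => ENNReal.ofReal_add_le) s f

lemma deriv_refl (f : ℂ → ℂ) (a : ℂ) :
    deriv (fun v => conj (f (a * conj v))) = fun v => conj (a * deriv f (a * conj v)) := by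
  ext v
  have := congrFun (deriv_conj_conj (f := fun w => f (a * w))) v
  simpa only [Function.comp_def, deriv_comp_mul_left, smul_eq_mul] using this

lemma refl_WV {Z Y : ℂ → ℂ} {a u : ℂ} (ha : ‖a‖ = 1) (hu : a * conj u = u)
    (h : Y =ᶠ[𝓝 u] fun v => conj (Z (a * conj v))) : WW n Y u = WW n Z u ∧
    deriv (deriv Y) u / deriv Y u = conj (a * (deriv (deriv Z) u / deriv Z u)) := by
  have h1 := h.deriv
  rw [deriv_refl] at h1
  have h2 := h1.deriv.self_of_nhds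
  rw [deriv_refl (fun w => a * deriv Z w), deriv_const_mul_field'] at h2
  have h3 := h1.self_of_nhds
  simp only [hu] at h2 h3
  have h4 : a ≠ 0 := norm_ne_zero_iff.1 (ha ▸ one_ne_zero)
  refine ⟨by rw [WW, WW, h3, norm_conj, norm_mul, ha, one_mul], ?_⟩
  rw [h2, h3, ← map_div₀, mul_div_mul_left _ _ h4, mul_div_assoc]

lemma GC_real (s x : ℝ) : (GC s x).im = 0 := by
  rw [GC, gc]
  norm_cast

lemma Psi_nonneg (n : ℕ) (u : ℂ) : 0 ≤ Psi n u :=
  integral_nonneg_of_ae ((mu_ae n).mono fun _ hs => (kb_all hs u).ps_le.1)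

lemma bt_pi (ρ : ℝ) : bt n π (pl (ρ, π)) = 0 := by
  refine integral_eq_zero_of_ae (.of_forall fun s => ?_)
  have e : pl (ρ, π) = (-ρ : ℝ) := by simp [pl]
  simp only [e, exp_pi_mul_I, neg_mul, one_mul, neg_im, sub_im, GC_real]
  norm_cast
  simp

lemma WV.half (h : WV σ η c W V) (hn : 2 ≤ n) (hη : 0 < η) (h0 : 0 < σ) (hσ : σ ≤ π)
    {k : ℝ → ℝ → ℝ} (hk : (σ = π ∧ k = fun r _ => Kf n r) ∨ (σ < π ∧ Nonempty (Flux n σ k)))
    (hi : IntegrableOn (fun ρ => W (pl (ρ, σ)) * bt n σ (pl (ρ, σ))) (Ioi 0)) :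
    ENNReal.ofReal ((∫ u in So σ, W u * (Kf n ‖u - 1‖ / ‖u - 1‖ ^ 2)) -
      (∫ u in So σ, W u * (Psi n u * ‖V u‖ ^ 2)) +
      ∫ ρ in Ioi 0, W (pl (ρ, σ)) * bt n σ (pl (ρ, σ))) ≤
      ∫⁻ p in AR σ, ENNReal.ofReal (k p.1 p.2 * (W (1 + pl p) / p.1)) := by
  obtain ⟨i1, i2, -⟩ := h.mixed hn hη h0 hσ
  have := mu_prob hn
  have mK : Measurable (Kf n) := (StronglyMeasurable.integral_prod_left
    (f := fun s r : ℝ => s * r / (r + s) ^ 2) (Measurable.stronglyMeasurable (by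
      unfold Function.uncurry; fun_prop))).measurable
  have mP : Measurable (Psi n) := (StronglyMeasurable.integral_prod_left
    (f := fun s u => PS s u) PS_meas.stronglyMeasurable).measurable
  have mW := h.mW
  have mV := h.mV
  have j1 := (jconv1 (by fun_prop)).1 i1
  have j2 := (jconv1 (by fun_prop)).1 i2
  have e1 : ∀ p ∈ AR σ, p.1 * (W (1 + pl p) * (Kf n ‖1 + pl p - 1‖ / ‖1 + pl p - 1‖ ^ 2)) =
      Kf n p.1 * (W (1 + pl p) / p.1) := fun p hp => by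
    rw [node_sub (r := p.1) (ψ := p.2) hp.1.le]
    field_simp
  rw [iconv1, iconv1]
  rcases hk with ⟨rfl, rfl⟩ | ⟨h1, ⟨F⟩⟩
  · simp only [bt_pi, mul_zero, integral_zero, add_zero]
    refine (ENNReal.ofReal_le_ofReal (sub_le_self _ (setIntegral_nonneg (AR_meas _) fun p hp =>
      mul_nonneg hp.1.le (mul_nonneg (h.b0 _) (mul_nonneg (Psi_nonneg _ _) (sq_nonneg _)))))).trans
      ((ofReal_int_le j1).trans_eq (setLIntegral_congr_fun (AR_meas _) fun p hp => ?_))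
    simp only [e1 p hp]
  · obtain ⟨a1, a2, a3⟩ := h.flux hη ⟨h0, h1⟩ F hi
    refine (ENNReal.ofReal_le_ofReal (add_le_add_right a3 _)).trans ?_
    rw [← integral_sub j1 j2, ← integral_add a1 a2]
    refine (congrArg _ (integral_add (j1.sub j2) (a1.add a2)).symm).trans_le ?_
    refine (ofReal_int_le ((j1.sub j2).add (a1.add a2))).trans
      (setLIntegral_mono' (AR_meas _) fun p hp => ENNReal.ofReal_le_ofReal ?_)
    have h2 := mul_le_mul_of_nonneg_right (F.main _ hp.1 _ hp.2 (zz V p).re (-(zz V p).im))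
      (div_nonneg (h.b0 (1 + pl p)) hp.1.le)
    have h3 : (zz V p).re ^ 2 + (-(zz V p).im) ^ 2 = p.1 ^ 2 * ‖V (1 + pl p)‖ ^ 2 := by
      rw [neg_sq, sq, sq, ← normSq_apply, normSq_eq_norm_sq, zz, norm_mul, norm_pl, mul_pow, sq_abs]
    have h4 : p.1 * (W (1 + pl p) * (Psi n (1 + pl p) * ‖V (1 + pl p)‖ ^ 2)) =
        Psi n (1 + pl p) * (p.1 ^ 2 * ‖V (1 + pl p)‖ ^ 2) * (W (1 + pl p) / p.1) := by
      field_simp [hp.1.ne']
    simp only [Pi.add_apply, Pi.sub_apply, e1 p hp, h4, FF]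
    rw [h3] at h2
    refine le_of_sub_nonneg (le_of_le_of_eq (sub_nonneg.2 h2) ?_)
    ring

variable {p : ℂ[X]} (G : Geo n p)

lemma rad_sum : ∑ h, ∫ s, (∫ x in Ioo (0 : ℝ) 1,
    (JJ (WW n (G.Z h)) (VV n (G.Z h)) s x).im) ∂mu n = 0 := by
  refine Finset.sum_ninvolution G.rad (fun h => ?_) (fun h _ e => by simpa [e] using G.sg_rad h)
    (fun _ => Finset.mem_univ _) G.rad_inv
  rw [add_eq_zero_iff_neg_eq, ← integral_neg]
  congr 1
  ext s
  rw [← integral_neg]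
  refine setIntegral_congr_fun measurableSet_Ioo fun x hx => ?_
  obtain ⟨h1, h2⟩ := refl_WV (n := n) (Z := G.Z h) (a := 1) (u := x) norm_one (by simp)
    (by simpa using G.rad_germ h hx.1.le hx.2)
  have h3 : (((1 - 1 / n : ℝ) : ℂ) / (x - 1)).im = 0 := by norm_cast
  simp only [JJ, VV, h1, h2, im_ofReal_mul, sub_im, add_im, GC_real, conj_im, h3, one_mul]
  ring

lemma bis_pt (hn : 3 ≤ n) (h : G.H) {ρ : ℝ} (hρ : 0 ≤ ρ) :
    (∫ s, (exp (G.σ h * I) * JJ (WW n (G.Z h)) (VV n (G.Z h)) s (pl (ρ, G.σ h))).im ∂mu n) +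
    ∫ s, (exp (G.σ h * I) * JJ (WW n (G.Z (G.bis h))) (VV n (G.Z (G.bis h))) s
      (pl (ρ, G.σ h))).im ∂mu n =
    2 * (WW n (G.Z h) (pl (ρ, G.σ h)) * bt n (G.σ h) (pl (ρ, G.σ h))) := by
  have := mu_prob (n := n) (by omega)
  have hi : ∀ h', G.σ h' = G.σ h → Integrable (fun s => (exp (G.σ h * I) *
      JJ (WW n (G.Z h')) (VV n (G.Z h')) s (pl (ρ, G.σ h))).im) (mu n) := fun h' e => by
    obtain ⟨c, hc⟩ := wv G hn h'
    rw [e] at hc
    exact Integrable.of_bound (measurable_im.comp (measurable_const.mul (hc.JJ_meas.comp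
      measurable_prodMk_right))).aestronglyMeasurable _
      ((mu_ae n).mono fun s hs => hc.bis_le (G.σ_pos h) (G.σ_le h) hs hρ)
  rw [← integral_add (hi h rfl) (hi _ (G.σ_bis h)), bt, ← integral_const_mul, ← integral_const_mul]
  congr 1
  ext s
  have e0 : exp (2 * G.σ h * I) = exp (G.σ h * I) * exp (G.σ h * I) := by
    rw [← exp_add]; ring_nf
  have e1 : exp (G.σ h * I) * conj (exp (G.σ h * I)) = 1 := by
    rw [mul_conj', norm_exp_ofReal_mul_I]; simp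
  obtain ⟨h1, h2⟩ := refl_WV (n := n) (Z := G.Z h) (a := exp (2 * G.σ h * I))
    (u := pl (ρ, G.σ h)) (by rw [e0, norm_mul, norm_exp_ofReal_mul_I, mul_one]) (by
      rw [e0, pl, map_mul, conj_ofReal]
      linear_combination (ρ * exp (G.σ h * I)) * e1) (G.bis_germ h hρ)
  have h3 : ∀ z : ℂ, (exp (G.σ h * I) * conj (exp (2 * G.σ h * I) * z)).im =
      -(exp (G.σ h * I) * z).im := fun z => by
    rw [e0, mul_assoc, map_mul, ← mul_assoc, e1, one_mul, conj_im]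
  simp only [JJ, VV, h1, h2, mul_left_comm (exp (G.σ h * I)), mul_sub, mul_add, im_ofReal_mul,
    sub_im, add_im, h3]
  ring

theorem cert0 (hn : 3 ≤ n) (k : G.H → ℝ → ℝ → ℝ) (hk : ∀ h, (G.σ h = π ∧ k h = fun r _ => Kf n r) ∨
    (G.σ h < π ∧ Nonempty (Flux n (G.σ h) (k h)))) :
    ENNReal.ofReal (2 * π) * Len p ≤ BB n * ∑ h, ∫⁻ q in AR (G.σ h),
      ENNReal.ofReal (k h q.1 q.2 * (q.1 ^ (-(1 / n) : ℝ) * ‖deriv (G.Z h) (1 + pl q)‖)) := by
  have hn2 : 2 ≤ n := by omega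
  have hη : (0 : ℝ) < 1 / 2 - 1 / n := by
    have : (3 : ℝ) ≤ n := by exact_mod_cast hn
    have : (1 : ℝ) / n ≤ 1 / 3 := by gcongr
    linarith
  obtain ⟨c1, h1, h2⟩ := mix hn2
  choose c hc using wv G hn
  have m := fun h => (hc h).mixed hn2 hη (G.σ_pos h) (G.σ_le h)
  choose x x0 x1 x2 using fun h => (m h).2.2.2
  have i1 := fun h => (m h).2.2.1
  have i2 := fun h => G.σ_bis h ▸ i1 (G.bis h)
  have e := fun h ρ (hρ : ρ ∈ Ioi (0 : ℝ)) => bis_pt G hn h (le_of_lt hρ)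
  have i3 := fun h => (((i1 h).add (i2 h)).congr_fun (e h) measurableSet_Ioi).const_mul (1 / 2)
  simp only [one_div, ne_eq, OfNat.ofNat_ne_zero, not_false_eq_true, inv_mul_cancel_left₀] at i3
  have s1 : ∑ h, ∫ ρ in Ioi 0, ∫ s, (exp (G.σ h * I) *
      JJ (WW n (G.Z h)) (VV n (G.Z h)) s (pl (ρ, G.σ h))).im ∂mu n =
      ∑ h, ∫ ρ in Ioi 0, WW n (G.Z h) (pl (ρ, G.σ h)) * bt n (G.σ h) (pl (ρ, G.σ h)) := by
    refine mul_left_cancel₀ two_ne_zero ?_
    rw [two_mul, Finset.mul_sum]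
    nth_rewrite 2 [← Equiv.sum_comp G.bis_inv.toPerm]
    rw [← Finset.sum_add_distrib]
    refine Finset.sum_congr rfl fun h _ => ?_
    rw [Function.Involutive.coe_toPerm, G.σ_bis, ← integral_add (i1 h) (i2 h),
      setIntegral_congr_fun measurableSet_Ioi (e h), integral_const_mul]
  rw [← h1, mul_comm c1, mul_assoc]
  gcongr
  refine (mul_le_mul_right G.len_le _).trans ?_
  rw [Finset.mul_sum, Finset.sum_congr rfl (g := fun h => ENNReal.ofReal (x h)) fun h _ => ?_,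
    ← ENNReal.ofReal_sum_of_nonneg fun h _ => x0 h, Finset.sum_congr rfl fun h _ => x2 h,
    Finset.sum_sub_distrib, rad_sum, sub_zero, Finset.sum_add_distrib, s1, ← Finset.sum_add_distrib]
  · refine (ofReal_sum_le _ _).trans (Finset.sum_le_sum fun h _ => ((hc h).half hn2 hη (G.σ_pos h)
      (G.σ_le h) (hk h) (i3 h)).trans_eq (setLIntegral_congr_fun (AR_meas _) fun q hq => ?_))
    simp only [WW]
    rw [node_sub (r := q.1) (ψ := q.2) hq.1.le, mul_div_right_comm, ← Real.rpow_sub_one hq.1.ne']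
    congr 4
    ring
  · rw [← x1, ← lintegral_const_mul _ (by fun_prop)]
    refine setLIntegral_congr_fun measurableSet_Ioo fun θ hθ => ?_
    have h3 := norm_pos_iff.2 (sub_ne_zero.2 (pl_ne (p := (1, θ)) hθ.1
      (hθ.2.le.trans (G.σ_le h)) zero_le_one))
    rw [h2 _ h3, mul_left_comm, ← ENNReal.ofReal_mul ((hc h).b0 _), WW, mul_right_comm,
      ← Real.rpow_add h3, show (1 - 1 / n + (1 / n - 1) : ℝ) = 0 by ring, Real.rpow_zero, one_mul,
      ofReal_norm]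
    simp [pl]

end Pool.Agent.Lib.MP_f225de_an.MA
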