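import Pool.Agent.Lib.MP_f225de_an.MC2
import Pool.Agent.Lib.MP_f225de_an.Sk3

set_option autoImplicit false

open MeasureTheory Set Filter Topology Complex Polynomial
open scoped Real ENNReal

namespace Pool.Agent.Lib.MP_f225de_an.MA

open E Sk

variable {n : ℕ} {σ : ℝ}

lemma Arc_meas (σ r : ℝ) : MeasurableSet (Arc σ r) :=
  measurableSet_Ioo.inter (measurableSet_lt (f := fun ψ => r * Real.sin (ψ - σ)) (by fun_prop)
    measurable_const)

lemma Arc_fin (σ r : ℝ) : volume (Arc σ r) ≠ ⊤ :=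
  ((measure_mono fun _ h => h.1).trans_lt (measure_Ioo_lt_top (a := 0) (b := π))).ne

lemma Kf_meas (hn : 2 ≤ n) : Measurable (Kf n) :=
  have := mu_prob hn
  (StronglyMeasurable.integral_prod_left (f := fun s r : ℝ => s * r / (r + s) ^ 2)
    (Measurable.stronglyMeasurable (by unfold Function.uncurry; fun_prop))).measurable

lemma ylev {f : ℝ × ℝ → ℝ≥0∞} (hf : Measurable f) : ∫⁻ q in AR σ, f q =
    ∫⁻ y, ∫⁻ ψ in Arc σ (Real.exp y), ENNReal.ofReal (Real.exp y) * f (Real.exp y, ψ) := by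
  have h1 := lintegral_image_eq_lintegral_abs_deriv_mul (s := univ) .univ
    (fun x _ => (Real.hasDerivAt_exp x).hasDerivWithinAt) Real.exp_injective.injOn
    fun r => ∫⁻ ψ in Arc σ r, f (r, ψ)
  simp only [image_univ, Real.range_exp, Measure.restrict_univ, Real.abs_exp] at h1
  simp only [lintegral_const_mul' _ _ ENNReal.ofReal_ne_top]
  rw [← h1, ← lintegral_indicator (AR_meas σ), ← lintegral_indicator measurableSet_Ioi]
  refine (lintegral_prod _ (hf.indicator (AR_meas σ)).aemeasurable).trans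
    (lintegral_congr fun r => ?_)
  by_cases hr : r ∈ Ioi (0 : ℝ)
  · rw [indicator_of_mem hr, ← lintegral_indicator (Arc_meas σ r)]
    refine lintegral_congr fun ψ => ?_
    by_cases hψ : ψ ∈ Arc σ r
    · rw [indicator_of_mem hψ, indicator_of_mem (show (r, ψ) ∈ AR σ from ⟨hr, hψ⟩)]
    · rw [indicator_of_notMem hψ, indicator_of_notMem fun h : (r, ψ) ∈ AR σ => hψ h.2]
  · rw [indicator_of_notMem hr]
    exact (lintegral_congr fun ψ => indicator_of_notMem (fun h => hr h.1) _).trans lintegral_zero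

lemma cs {μ : Measure ℝ} {f g : ℝ → ℝ} (mf : Measurable f) (mg : Measurable g)
    (hf : Integrable (fun x => f x ^ 2) μ) (hg : Integrable (fun x => g x ^ 2) μ) {A : ℝ}
    (hA : ∫ x, f x ^ 2 ∂μ ≤ A) :
    ∫⁻ x, ENNReal.ofReal (f x * g x) ∂μ ≤ ENNReal.ofReal √(A * ∫ x, g x ^ 2 ∂μ) := by
  have e : ∀ {f : ℝ → ℝ}, Integrable (fun x => f x ^ 2) μ → (∫⁻ x, ‖f x‖ₑ ^ (2 : ℝ) ∂μ) ^
      (1 / 2 : ℝ) = ENNReal.ofReal √(∫ x, f x ^ 2 ∂μ) := fun {f} hf => by
    rw [Real.sqrt_eq_rpow, ← ENNReal.ofReal_rpow_of_nonneg (integral_nonneg fun _ => sq_nonneg _)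
      (by norm_num), ofReal_integral_eq_lintegral_ofReal hf (.of_forall fun _ => sq_nonneg _)]
    congr 2
    ext x
    rw [← sq_abs, ENNReal.ofReal_pow (abs_nonneg _), ENNReal.rpow_two, Real.enorm_eq_ofReal_abs]
  have h0 : 0 ≤ A := (integral_nonneg fun _ => sq_nonneg _).trans hA
  refine (lintegral_mono fun x => ?_).trans ((ENNReal.lintegral_mul_le_Lp_mul_Lq μ
    Real.HolderConjugate.two_two mf.enorm.aemeasurable mg.enorm.aemeasurable).trans ?_)
  · rw [Pi.mul_apply, ← enorm_mul]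
    exact Real.ofReal_le_enorm _
  · rw [e hf, e hg, Real.sqrt_mul h0, ENNReal.ofReal_mul (Real.sqrt_nonneg _)]
    gcongr

variable {p : ℂ[X]} (G : Geo n p)

theorem cert1 (hn : 3 ≤ n) (k : G.H → ℝ → ℝ → ℝ) (hk : ∀ h, (G.σ h = π ∧ k h = fun r _ => Kf n r) ∨
    (G.σ h < π ∧ Nonempty (Flux n (G.σ h) (k h)))) :
    ENNReal.ofReal (2 * π) * Len p ≤ BB n * ∑ h, ∫⁻ y, ENNReal.ofReal (Real.exp (-y / n)) *
      ∫⁻ ψ in Arc (G.σ h) (Real.exp y), ENNReal.ofReal (k h (Real.exp y) ψ *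
        ‖(Real.exp y : ℂ) * deriv (G.Z h) (1 + Real.exp y * exp (ψ * I))‖) := by
  refine (cert0 G hn k hk).trans_eq ?_
  congr 2
  ext h
  have m : Measurable fun q : ℝ × ℝ => k h q.1 q.2 := by
    rcases hk h with ⟨-, e⟩ | ⟨-, ⟨F⟩⟩
    · rw [e]; exact (Kf_meas (by omega)).comp measurable_fst
    · exact F.mkk
  refine (ylev (m.mul ((measurable_fst.pow_const _).mul ((measurable_deriv _).comp
    (pl_cont.measurable.const_add 1)).norm)).ennreal_ofReal).trans (lintegral_congr fun y => ?_)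
  rw [← lintegral_const_mul' _ _ ENNReal.ofReal_ne_top]
  refine lintegral_congr fun ψ => ?_
  rw [← ENNReal.ofReal_mul (Real.exp_pos _).le, ← ENNReal.ofReal_mul (Real.exp_pos _).le, norm_mul,
    norm_real, Real.norm_of_nonneg (Real.exp_pos _).le]
  simp only [Pi.mul_apply, Function.comp, pl, ← Real.exp_mul]
  congr 1
  rw [show y * -(1 / n : ℝ) = -y / n by ring]
  ring

lemma lev_int (hn : 2 ≤ n) (h : G.H) {r : ℝ} (hr : 0 < r) : IntegrableOn
    (fun ψ : ℝ => ‖(r : ℂ) * deriv (G.Z h) (1 + r * exp (ψ * I))‖ ^ 2) (Arc (G.σ h) r) := by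
  obtain ⟨c, hc⟩ := est1 G hn h
  refine Measure.integrableOn_of_bounded (M := r * c) (Arc_fin _ _) (Measurable.aestronglyMeasurable
    ((measurable_const.mul ((measurable_deriv _).comp (by fun_prop))).norm.pow_const 2))
    ((ae_restrict_mem (Arc_meas _ _)).mono fun ψ hψ => ?_)
  have := hc _ (AR_Sec (G.σ_pos h) (p := (r, ψ)) ⟨hr, hψ⟩) (node_ne hr)
  rw [node_sub hr.le] at this
  rw [Real.norm_of_nonneg (sq_nonneg _), norm_mul, norm_real, Real.norm_of_nonneg hr.le, mul_pow,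
    sq r, mul_assoc]
  exact mul_le_mul_of_nonneg_left this hr.le

theorem cert (hn : 3 ≤ n) {η : ℝ → ℝ → ℝ} (hF : FluxSt n η) : CertSt n η := fun p G => by
  have hπ := Real.pi_pos
  have : ∀ h, ∃ k : ℝ → ℝ → ℝ, ((G.σ h = π ∧ k = fun r _ => Kf n r) ∨
      (G.σ h < π ∧ Nonempty (Flux n (G.σ h) k))) ∧ ∀ y, Measurable (k (Real.exp y)) ∧
      IntegrableOn (fun ψ => k (Real.exp y) ψ ^ 2) (Arc (G.σ h) (Real.exp y)) ∧
      ∫ ψ in Arc (G.σ h) (Real.exp y), k (Real.exp y) ψ ^ 2 ≤ 2 * π * η (G.σ h) y := fun h => by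
    rcases (G.σ_le h).eq_or_lt with e | e
    · refine ⟨_, Or.inl ⟨e, rfl⟩, fun y => ⟨measurable_const, integrableOn_const (Arc_fin _ _), ?_⟩⟩
      have := mul_le_mul_of_nonneg_left (hF.1 y) (by positivity : 0 ≤ 2 * π)
      rw [e, setIntegral_const, smul_eq_mul]
      refine le_of_eq_of_le ?_ this
      rw [lam, Measure.real]
      field_simp
    · obtain ⟨k, ⟨F⟩, h2⟩ := hF.2 _ ⟨G.σ_pos h, e⟩
      exact ⟨k, Or.inr ⟨e, ⟨F⟩⟩, fun y => ⟨F.mkk.comp measurable_prodMk_left, h2 y⟩⟩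
  choose k h1 h2 using this
  refine (cert1 G hn k h1).trans ?_
  gcongr with h - y
  rw [cost, ENNReal.ofReal_mul (Real.exp_pos _).le]
  gcongr
  exact cs (h2 h y).1 (measurable_const.mul ((measurable_deriv _).comp (by fun_prop))).norm
    (h2 h y).2.1 (lev_int G (by omega) h (Real.exp_pos y)) (h2 h y).2.2

end Pool.Agent.Lib.MP_f225de_an.MA
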