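import Pool.Agent.Lib.MP_f225de_an.MC1
import Pool.Agent.Lib.MP_f225de_an.MA8

set_option autoImplicit false

open MeasureTheory Set Filter Topology Complex
open scoped Real ComplexConjugate

namespace Pool.Agent.Lib.MP_f225de_an.MA

variable {n : ℕ} {r c s σ ψ : ℝ}

lemma int_cont (hn : 2 ≤ n) {g : ℝ → ℝ} (hg : ContinuousOn g (Icc 0 1)) : Integrable g (mu n) := by
  have := mu_prob hn
  obtain ⟨C, hC⟩ := isCompact_Icc.exists_bound_of_continuousOn hg
  exact Integrable.of_bound (((hg.mono Ioo_subset_Icc_self).aestronglyMeasurable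
    measurableSet_Ioo).mono_ac (withDensity_absolutelyContinuous _ _)) C
    ((mu_ae n).mono fun s hs => hC s (Ioo_subset_Icc_self hs))

/-- null functions of the mixing measure -/
theorem null (hn : 2 ≤ n) {g g' : ℝ → ℝ} (hg : ContinuousOn g (Icc 0 1))
    (hg' : ContinuousOn g' (Icc 0 1)) (hd : ∀ s ∈ Ioo (0 : ℝ) 1, HasDerivAt g (g' s) s) :
    ∫ s, (s * (1 - s) * g' s + (1 / n - (1 + 1 / n) / 2 * s) * g s) ∂mu n = 0 := by
  have h := gam_bd hn
  have key := intervalIntegral.integral_eq_sub_of_hasDerivAt_of_le zero_le_one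
    (f := fun s => s ^ (1 / n : ℝ) * (1 - s) ^ (1 - (1 + 1 / n) / 2 : ℝ) * g s)
    (f' := fun s => wt n s * (s * (1 - s) * g' s + (1 / n - (1 + 1 / n) / 2 * s) * g s))
    (((continuous_id.rpow_const fun _ => Or.inr h.1.le).mul ((continuous_const.sub
      continuous_id).rpow_const fun _ => Or.inr (by linarith))).continuousOn.mul hg)
    (fun s hs => ((((Real.hasDerivAt_rpow_const (Or.inl hs.1.ne')).mul
      (((hasDerivAt_id' s).const_sub 1).rpow_const (Or.inl (sub_pos.2 hs.2).ne'))).mul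
      (hd s hs)).congr_deriv ?_))
    ((intervalIntegrable_iff_integrableOn_Icc_of_le zero_le_one).2
      (((integrableOn_Icc_iff_integrableOn_Ioo).2 (wt_int hn)).mul_continuousOn
        (by fun_prop) isCompact_Icc))
  · rw [int_mu hn]
    simp only [div_mul_eq_mul_div]
    rw [integral_div, ← integral_Ioc_eq_integral_Ioo, ← intervalIntegral.integral_of_le zero_le_one]
    simp only [← div_mul_eq_mul_div]
    rw [key, Real.zero_rpow h.1.ne', sub_self, Real.zero_rpow (by linarith)]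
    simp
  · have e1 : s ^ (1 / n : ℝ) = s ^ (1 / n - 1 : ℝ) * s := by
      rw [← Real.rpow_add_one hs.1.ne', sub_add_cancel]
    have e2 : (1 - s) ^ (1 - (1 + 1 / n) / 2 : ℝ) = (1 - s) ^ (-((1 + 1 / n) / 2) : ℝ) * (1 - s) := by
      rw [← Real.rpow_add_one (sub_pos.2 hs.2).ne', neg_add_eq_sub]
    simp only [Pi.mul_apply]
    rw [show (1 - (1 + 1 / n) / 2 - 1 : ℝ) = -((1 + 1 / n) / 2) by ring, e1, e2, wt]
    ring

/-- squared modulus of the linear factor -/
noncomputable def DD (r c s : ℝ) : ℝ :=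
  if r + 2 * c ≤ 0 then s ^ 2 + (1 - s) ^ 2 * r ^ 2 - 2 * s * (1 - s) * r * c
  else r ^ 2 + s ^ 2 + 2 * r * s * c

/-- effective cosine -/
noncomputable def cc (r c : ℝ) : ℝ := max c (-(r + c))

/-- the elementary certificate in polar coordinates at the node -/
noncomputable def LL (r c s : ℝ) : ℝ := Real.log (r + s) - Real.log (DD r c s) / 2

/-- integrand of the bisector flux -/
noncomputable def bI (n : ℕ) (r c s : ℝ) : ℝ :=
  (1 - 2 / n + (1 + 1 / n) / 2 * s) * LL r c s - r * s / (r + s) -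
    cc r c * (1 - s) * r * s / DD r c s

/-- the bisector flux per unit angle seen from the node -/
noncomputable def beta (n : ℕ) (r c : ℝ) : ℝ := ∫ s, bI n r c s ∂mu n

lemma DD_pos (hr : 0 < r) (hc : c ^ 2 < 1) (s : ℝ) : 0 < DD r c s := by
  unfold DD
  split_ifs
  · rcases eq_or_ne s 1 with rfl | e
    · simp
    · have := mul_pos (mul_pos (sq_pos_of_ne_zero (sub_ne_zero.2 e.symm)) (pow_pos hr 2))
        (sub_pos.2 hc)
      nlinarith [sq_nonneg (s - (1 - s) * r * c)]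
  · nlinarith [sq_nonneg (s + r * c), mul_pos (pow_pos hr 2) (sub_pos.2 hc)]

lemma DD_cont (r c : ℝ) : Continuous (DD r c) := by
  unfold DD
  split_ifs <;> fun_prop

lemma LL_cont (hr : 0 < r) (hc : c ^ 2 < 1) : ContinuousOn (LL r c) (Icc 0 1) :=
  (ContinuousOn.log (by fun_prop) fun s hs => (add_pos_of_pos_of_nonneg hr hs.1).ne').sub
    (((DD_cont r c).log fun s => (DD_pos hr hc s).ne').div_const 2).continuousOn

lemma in_iff (hr : 0 < r) : ‖1 + pl (r, ψ)‖ ≤ 1 ↔ r + 2 * Real.cos ψ ≤ 0 := by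
  have : ‖1 + pl (r, ψ)‖ ^ 2 = 1 + r * (r + 2 * Real.cos ψ) := by
    rw [Complex.sq_norm, normSq_apply, add_re, add_im, pl_re, pl_im, one_re, one_im]
    linear_combination r ^ 2 * Real.cos_sq_add_sin_sq ψ
  rw [← sq_le_one_iff₀ (norm_nonneg _), this, add_le_iff_nonpos_right]
  exact ⟨fun h => nonpos_of_mul_nonpos_right h hr, mul_nonpos_of_nonneg_of_nonpos hr.le⟩

lemma DD_eq (hr : 0 < r) : normSq (al s (1 + pl (r, ψ)) * (1 + pl (r, ψ)) + be s (1 + pl (r, ψ))) =
    DD r (Real.cos ψ) s := by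
  simp only [al, be, DD, in_iff hr]
  split_ifs <;> simp only [normSq_apply, add_re, add_im, re_ofReal_mul, im_ofReal_mul, pl_re, pl_im,
    one_re, one_im, ofReal_re, ofReal_im]
  · linear_combination (1 - s) ^ 2 * r ^ 2 * Real.cos_sq_add_sin_sq ψ
  · linear_combination r ^ 2 * Real.cos_sq_add_sin_sq ψ

lemma PS_eq (hr : 0 < r) : PS s (1 + pl (r, ψ)) = LL r (Real.cos ψ) s := by
  rw [PS, ps, node_sub hr.le, LL, ← DD_eq hr, normSq_eq_norm_sq, Real.log_pow]
  push_cast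
  ring

lemma LL_ge (hr : 0 < r) (hc : c ^ 2 < 1) (hs : s ∈ Icc (0 : ℝ) 1) :
    s * r / (r + s) ^ 2 * (1 - cc r c) ≤ LL r c s := by
  have h1 : 0 < r + s := add_pos_of_pos_of_nonneg hr hs.1
  have h2 := Real.log_le_sub_one_of_pos (div_pos (DD_pos hr hc s) (pow_pos h1 2))
  rw [Real.log_div (DD_pos hr hc s).ne' (by positivity), Real.log_pow] at h2
  have h3 : DD r c s + 2 * (s * r * (1 - cc r c)) ≤ (r + s) ^ 2 := by
    unfold DD cc
    split_ifs with h
    · rw [max_eq_right (by linarith)]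
      nlinarith [mul_nonneg (mul_nonneg (sq_nonneg s) hr.le) (neg_nonneg.2 h)]
    · rw [max_eq_left (by linarith)]
      exact le_of_eq (by ring)
  have h4 := (div_le_one (pow_pos h1 2)).2 h3
  rw [add_div, mul_div_assoc, mul_div_right_comm] at h4
  rw [LL]
  push_cast at h2
  linarith

lemma cos_sq_lt (hψ : ψ ∈ Ioo 0 π) : Real.cos ψ ^ 2 < 1 := by
  nlinarith [Real.cos_sq_add_sin_sq ψ, Real.sin_pos_of_pos_of_lt_pi hψ.1 hψ.2]

lemma K_int (hn : 2 ≤ n) (hr : 0 < r) : Integrable (fun s => s * r / (r + s) ^ 2) (mu n) :=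
  int_cont hn (ContinuousOn.div (by fun_prop) (by fun_prop)
    fun s hs => (pow_pos (add_pos_of_pos_of_nonneg hr hs.1) 2).ne')

theorem Psi_eq (hr : 0 < r) : Psi n (1 + pl (r, ψ)) = ∫ s, LL r (Real.cos ψ) s ∂mu n := by
  simp only [Psi, PS_eq hr]

theorem Psi_ge (hn : 2 ≤ n) (hr : 0 < r) (hψ : ψ ∈ Ioo 0 π) :
    Kf n r * (1 - cc r (Real.cos ψ)) ≤ Psi n (1 + pl (r, ψ)) := by
  rw [Psi_eq hr, Kf, ← integral_mul_const]
  exact integral_mono_ae ((K_int hn hr).mul_const _) (int_cont hn (LL_cont hr (cos_sq_lt hψ)))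
    ((mu_ae n).mono fun s hs => LL_ge hr (cos_sq_lt hψ) (Ioo_subset_Icc_self hs))

lemma bt_pt (hσ : σ ∈ Ioo 0 π) (hψ : ψ ∈ Ioo σ π) (a : ℝ)
    (hr : r = rb σ ψ) : r * (exp (σ * I) * (GC s (1 + pl (r, ψ)) -
      PS s (1 + pl (r, ψ)) * (a / (1 + pl (r, ψ) - 1)))).im = Real.sin (ψ - σ) *
      (a * LL r (Real.cos ψ) s - r / (r + s) + (1 - s) * r ^ 2 / DD r (Real.cos ψ) s) := by
  have h0 : 0 < r := hr ▸ rb_pos hσ hψ
  have h1 : Real.cos (ψ - σ) * Real.sin ψ = (r + Real.cos ψ) * Real.sin (ψ - σ) := by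
    have := Real.sin_sub ψ (ψ - σ)
    rw [sub_sub_cancel] at this
    rw [add_mul, hr, rb, div_mul_cancel₀ _ (sinb hσ hψ).ne']
    linarith
  have h2 : pl (r, ψ) ≠ 0 := by simp [pl, h0.ne']
  have h3 : (r : ℂ) * exp (σ * I) = pl (1, σ - ψ) * pl (r, ψ) := by
    rw [pl, pl, mul_mul_mul_comm, ← exp_add]; push_cast; ring_nf
  have h4 := DD_pos h0 (cos_sq_lt ⟨hσ.1.trans hψ.1, hψ.2⟩) s
  have h5 : ∀ A B X : ℂ, pl (r, ψ) * (A / pl (r, ψ) - X - B * (a / pl (r, ψ))) =
      A - B * a - pl (r, ψ) * X := fun A B X => by field_simp; ring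
  rw [← im_ofReal_mul, ← mul_assoc, h3, GC, gc, node_sub h0.le, add_sub_cancel_left, mul_assoc, h5,
    PS_eq h0, div_eq_mul_inv (al _ _ : ℂ), inv_def, DD_eq h0]
  have h6 : Real.sin (σ - ψ) = -Real.sin (ψ - σ) := by rw [← Real.sin_neg, neg_sub]
  have h7 : Real.cos (σ - ψ) = Real.cos (ψ - σ) := by rw [← Real.cos_neg, neg_sub]
  simp only [mul_im, mul_re, sub_re, sub_im, add_re, add_im, ofReal_re, ofReal_im, pl_re, pl_im,
    conj_re, conj_im, one_re, one_im, h6, h7, al, be, div_eq_mul_inv]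
  split_ifs
  · linear_combination (1 - s) * s * r * (DD r (Real.cos ψ) s)⁻¹ * h1 + Real.sin (ψ - σ) *
      (1 - s) ^ 2 * r ^ 2 * (DD r (Real.cos ψ) s)⁻¹ * Real.cos_sq_add_sin_sq ψ
  · linear_combination -s * r * (DD r (Real.cos ψ) s)⁻¹ * h1 + Real.sin (ψ - σ) *
      r ^ 2 * (DD r (Real.cos ψ) s)⁻¹ * Real.cos_sq_add_sin_sq ψ

/-- derivative of `DD` -/
noncomputable def DD1 (r c s : ℝ) : ℝ :=
  if r + 2 * c ≤ 0 then 2 * s - 2 * (1 - s) * r ^ 2 - 2 * (1 - 2 * s) * r * c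
  else 2 * s + 2 * r * c

lemma DD_der (r c s : ℝ) : HasDerivAt (DD r c) (DD1 r c s) s := by
  unfold DD DD1
  have h := hasDerivAt_id' s
  split_ifs
  · exact (((h.pow 2).add (((h.const_sub 1).pow 2).mul_const _)).sub
      ((((h.const_mul 2).mul (h.const_sub 1)).mul_const r).mul_const c)).congr_deriv (by simp; ring)
  · exact (((h.pow 2).const_add _).add ((h.const_mul _).mul_const c)).congr_deriv (by simp)

lemma bI_cont (hr : 0 < r) (hc : c ^ 2 < 1) : ContinuousOn (bI n r c) (Icc 0 1) :=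
  ((ContinuousOn.mul (by fun_prop) (LL_cont hr hc)).sub (ContinuousOn.div (by fun_prop)
    (by fun_prop) fun s hs => (add_pos_of_pos_of_nonneg hr hs.1).ne')).sub
    (Continuous.div (by fun_prop) (DD_cont r c) fun s => (DD_pos hr hc s).ne').continuousOn

theorem beta_old (hn : 2 ≤ n) (hr : 0 < r) (hc : c ^ 2 < 1) : beta n r c =
    ∫ s, ((1 - 1 / n) * LL r c s - r / (r + s) + (1 - s) * r ^ 2 / DD r c s) ∂mu n := by
  have c1 : ContinuousOn (fun s => 1 / (r + s) - DD1 r c s / DD r c s / 2) (Icc 0 1) :=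
    (ContinuousOn.div (by fun_prop) (by fun_prop)
      fun s hs => (add_pos_of_pos_of_nonneg hr hs.1).ne').sub ((Continuous.div (by
        unfold DD1; split_ifs <;> fun_prop) (DD_cont r c)
        fun s => (DD_pos hr hc s).ne').div_const 2).continuousOn
  have h := null hn (LL_cont hr hc) c1 fun s hs =>
    (((hasDerivAt_id' s).const_add r).log (add_pos hr hs.1).ne').sub
      (((DD_der r c s).log (DD_pos hr hc s).ne').div_const 2)
  rw [beta, ← add_zero (∫ s, bI n r c s ∂mu n), ← h]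
  refine (integral_add (int_cont hn (bI_cont hr hc)) (int_cont hn
    ((ContinuousOn.mul (by fun_prop) c1).add (ContinuousOn.mul (by fun_prop)
      (LL_cont hr hc))))).symm.trans (integral_congr_ae ((mu_ae n).mono fun s hs => ?_))
  have h1 := (add_pos hr hs.1).ne'
  have h2 := (DD_pos hr hc s).ne'
  have h3 : s * (1 - s) * DD1 r c s / 2 + cc r c * (1 - s) * r * s + (1 - s) * r ^ 2 =
      (1 - s) * DD r c s := by
    unfold DD DD1 cc
    split_ifs with h
    · rw [max_eq_right (by linarith)]; ring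
    · rw [max_eq_left (by linarith)]; ring
  have h4 : (n : ℝ) ≠ 0 := by positivity
  simp only [bI, Pi.add_apply, Pi.mul_apply]
  field_simp
  linear_combination (-2 * n * (r + s)) * h3

theorem bt_eq (hn : 2 ≤ n) (hσ : σ ∈ Ioo 0 π) (hψ : ψ ∈ Ioo σ π) :
    rb σ ψ * bt n σ (1 + pl (rb σ ψ, ψ)) = Real.sin (ψ - σ) * beta n (rb σ ψ) (Real.cos ψ) := by
  rw [beta_old hn (rb_pos hσ hψ) (cos_sq_lt ⟨hσ.1.trans hψ.1, hψ.2⟩), bt, ← integral_const_mul,
    ← integral_const_mul]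
  exact integral_congr_ae (.of_forall fun s => bt_pt hσ hψ _ rfl)

end Pool.Agent.Lib.MP_f225de_an.MA
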