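import Pool.Agent.Lib.MP_f225de_an.MD1
import Pool.Agent.Lib.MP_f225de_an.MC4

set_option autoImplicit false

open MeasureTheory Set Filter Topology
open scoped Real

namespace Pool.Agent.Lib.MP_f225de_an.MA

open Sk

variable {n : ℕ} {σ r ψ : ℝ}

lemma Kf_pos (hn : 2 ≤ n) (hr : 0 < r) : 0 < Kf n r := by
  have := mu_prob hn
  have h : ∀ᵐ s ∂mu n, 0 < s * r / (r + s) ^ 2 :=
    (mu_ae n).mono fun s hs => by have := hs.1; positivity
  refine (integral_pos_iff_support_of_nonneg_ae (h.mono fun _ => le_of_lt) (K_int hn hr)).2 ?_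
  exact zero_lt_one.trans_eq (measure_univ.symm.trans (measure_congr (eventuallyEq_univ.2
    (mem_of_superset h fun s hs => ne_of_gt hs))).symm)

lemma cc_lt (hr : 0 < r) (hψ : ψ ∈ Ioo 0 π) : cc r (Real.cos ψ) < 1 := by
  have := abs_lt.1 ((sq_lt_one_iff_abs_lt_one _).1 (cos_sq_lt hψ))
  exact max_lt this.2 (by linarith [this.1])

/-- radial component of the field -/
noncomputable def hy (σ : ℝ) (M : ℝ → ℝ) (j : ℕ) (r ψ : ℝ) : ℝ :=
  if σ < ψ then M ψ * (r * Real.sin (ψ - σ) / Real.sin σ) ^ j else 0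

/-- amplitude of the tangential component of the field -/
noncomputable def ga (σ : ℝ) (g : ℝ → ℝ) (r ψ : ℝ) : ℝ :=
  if tl σ < r ∧ ψ < σ + π / 2 then g r else 0

/-- the resulting density -/
noncomputable def kk (n : ℕ) (σ : ℝ) (M : ℝ → ℝ) (j : ℕ) (g : ℝ → ℝ) (r ψ : ℝ) : ℝ :=
  Kf n r + j * hy σ M j r ψ - ga σ g r ψ * Real.sin ψ +
    (hy σ M j r ψ ^ 2 + (ga σ g r ψ * (1 - Real.cos ψ)) ^ 2) /
      (4 * (Kf n r * (1 - cc r (Real.cos ψ))))

lemma hy_meas {M : ℝ → ℝ} (hM : Measurable M) (j : ℕ) :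
    Measurable fun p : ℝ × ℝ => hy σ M j p.1 p.2 :=
  Measurable.ite (measurable_snd measurableSet_Ioi) (by fun_prop) measurable_const

lemma ga_meas {g : ℝ → ℝ} (hg : Measurable g) : Measurable fun p : ℝ × ℝ => ga σ g p.1 p.2 :=
  Measurable.ite ((measurable_fst measurableSet_Ioi).inter (measurable_snd measurableSet_Iio))
    (by fun_prop) measurable_const

lemma kk_meas (hn : 2 ≤ n) {M g : ℝ → ℝ} (hM : Measurable M) (hg : Measurable g) (j : ℕ) :
    Measurable fun p : ℝ × ℝ => kk n σ M j g p.1 p.2 := by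
  have := hy_meas (σ := σ) hM j
  have := ga_meas (σ := σ) hg
  have := Kf_meas hn
  unfold kk cc
  fun_prop

theorem flux_of (hn : 2 ≤ n) (hσ : σ ∈ Ioo 0 π) {M g : ℝ → ℝ} (hM : Measurable M)
    (hg : Measurable g) (j : ℕ) {C : ℝ} (bM : ∀ ψ ∈ Ioo σ π, (1 + rb σ ψ) * |M ψ| ≤ C)
    (bg : ∀ r > tl σ, (1 + r) * |g r| ≤ C)
    (ho : ∀ ψ ∈ Ioo σ π, ψ < σ + π / 2 → beta n (rb σ ψ) (Real.cos ψ) * Real.sin (ψ - σ) +
      g (rb σ ψ) * (1 - Real.cos ψ) * Real.cos (ψ - σ) ≤ M ψ * Real.sin (ψ - σ))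
    (hi : ∀ ψ ∈ Ioo σ π, σ + π / 2 ≤ ψ → beta n (rb σ ψ) (Real.cos ψ) ≤ M ψ) :
    Nonempty (Flux n σ (kk n σ M j g)) := by
  have s0 := Real.sin_pos_of_pos_of_lt_pi hσ.1 hσ.2
  have m1 := hy_meas (σ := σ) hM j
  have m2 := ga_meas (σ := σ) hg
  have hC : 0 ≤ C := le_trans (by have := (s0.trans_le (tl_ge σ)); positivity)
    (bg (tl σ + 1) (by linarith))
  have g1 : ∀ r > tl σ, ∀ ψ ∈ Icc 0 (ao σ r), ga σ g r ψ = g r := fun r hr ψ hψ =>
    if_pos ⟨hr, hψ.2.trans_lt ((ao_mem hσ hr).2.trans_le (min_le_right _ _))⟩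
  refine ⟨⟨hy σ M j, fun r ψ => j * hy σ M j r ψ, fun r ψ => -(ga σ g r ψ * (1 - Real.cos ψ)),
    fun r ψ => -(ga σ g r ψ * Real.sin ψ), (j + 4) * C, fun _ => ∅, fun _ => ∅, m1,
    m1.const_mul _, (m2.mul (by fun_prop)).neg, (m2.mul (by fun_prop)).neg, kk_meas hn hM hg j,
    fun _ => countable_empty, fun _ => countable_empty, fun r hr ψ hψ => ?_,
    fun r ψ hψ => by simp [hy, hψ], fun ψ hψ => ?_, fun ψ hψ r hr _ => ?_,
    fun r hr ψ => by simp [ga, hr.not_gt], fun r hr => ⟨by simp, ?_⟩,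
    fun r ψ hψ => by simp [ga, hψ.not_gt], fun r hr ψ hψ _ => ?_, fun ψ hψ => ?_,
    fun r hr ψ hψ v w => ?_⟩⟩
  · have a1 : (1 + r) * |hy σ M j r ψ| ≤ C := by
      unfold hy
      split_ifs with h
      · have h1 := sinb hσ ⟨h, hψ.1.2⟩
        have h2 := ((AR_ray hσ ⟨h, hψ.1.2⟩).1 (show (r, ψ) ∈ AR σ from ⟨hr, hψ⟩)).2
        rw [abs_mul, abs_of_nonneg (a := _ ^ j) (by positivity)]
        refine le_trans (mul_le_mul (by linarith) (mul_le_of_le_one_right (abs_nonneg _)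
          (pow_le_one₀ (by positivity) ((div_le_one s0).2 hψ.2.le))) (by positivity)
          (by linarith)) (bM ψ ⟨h, hψ.1.2⟩)
      · simpa using hC
    have a2 : (1 + r) * |ga σ g r ψ| ≤ C := by
      unfold ga
      split_ifs with h
      exacts [bg r h.1, by simpa using hC]
    have a3 : |1 - Real.cos ψ| ≤ 2 := abs_le.2
      ⟨by linarith [Real.cos_le_one ψ], by linarith [Real.neg_one_le_cos ψ]⟩
    have a4 := mul_le_mul a2 a3 (abs_nonneg _) hC
    have a5 := mul_le_mul a2 (Real.abs_sin_le_one ψ) (abs_nonneg _) hC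
    have a6 := mul_le_mul_of_nonneg_left a1 (Nat.cast_nonneg (α := ℝ) j)
    simp only [abs_neg, abs_mul, Nat.abs_cast]
    linarith
  · simp only [hy, if_pos hψ.1]
    fun_prop
  · simp only [hy, if_pos hψ.1]
    refine (((((hasDerivAt_id' r).mul_const _).div_const _).pow j).const_mul _).congr_deriv ?_
    rcases j with _ | j
    · simp
    · rw [eq_div_iff hr.1.ne', Nat.add_sub_cancel, pow_succ]; ring
  · exact ContinuousOn.congr (f := fun ψ => -(g r * (1 - Real.cos ψ))) (by fun_prop)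
      fun ψ hψ => by simp only [g1 r hr ψ hψ]
  · refine HasDerivAt.congr_of_eventuallyEq (f := fun ψ => -(g r * (1 - Real.cos ψ)))
      ((((Real.hasDerivAt_cos ψ).const_sub 1).const_mul _).neg.congr_deriv ?_)
      (mem_of_superset (Icc_mem_nhds hψ.1 hψ.2) fun x hx => ?_)
    · rw [g1 r hr ψ (Ioo_subset_Icc_self hψ), neg_neg]
    · simp only [mem_ofPred_eq, g1 r hr x hx]
  · have h1 := sinb hσ hψ
    rw [bt_eq hn hσ hψ, hy, if_pos hψ.1, rb, div_mul_cancel₀ _ h1.ne', div_self s0.ne', one_pow,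
      mul_one, ← rb, ga]
    rcases lt_or_ge ψ (σ + π / 2) with h | h
    · rw [if_pos ⟨(rb_image hσ).le ⟨ψ, ⟨hψ.1, lt_min hψ.2 h⟩, rfl⟩, h⟩]
      linarith [ho ψ hψ h]
    · rw [if_neg fun e => e.2.not_ge h]
      linarith [mul_le_mul_of_nonneg_left (hi ψ hψ h) h1.le]
  · have h1 := mul_pos (Kf_pos hn hr) (sub_pos.2 (cc_lt hr hψ.1))
    have h2 := mul_le_mul_of_nonneg_right (Psi_ge hn hr hψ.1) (by positivity : 0 ≤ v ^ 2 + w ^ 2)
    have h3 : ∀ a b t : ℝ, 0 < t → a * v + -b * w ≤ (a ^ 2 + b ^ 2) / (4 * t) +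
        t * (v ^ 2 + w ^ 2) := fun a b t ht => by
      rw [div_add' _ _ _ (by positivity), le_div_iff₀ (by positivity)]
      nlinarith [sq_nonneg (a - 2 * t * v), sq_nonneg (b + 2 * t * w)]
    rw [kk]
    linarith [h3 (hy σ M j r ψ) (ga σ g r ψ * (1 - Real.cos ψ)) _ h1]

end Pool.Agent.Lib.MP_f225de_an.MA
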