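import Pool.Agent.Lib.MP_f225de_an.MD3
import Pool.Agent.Lib.MP_f225de_an.MD2

set_option autoImplicit false

open MeasureTheory Set Filter Topology
open scoped Real

namespace Pool.Agent.Lib.MP_f225de_an.MA

open Sk

variable {n : ℕ} {σ r ψ : ℝ}

/-- reciprocal of `al` -/
noncomputable def io (n : ℕ) (r : ℝ) : ℝ := 1 / n * Pf n r / Kf n r

/-- logarithmic derivative of `Kf` -/
noncomputable def kap (n : ℕ) (r : ℝ) : ℝ := (1 + 1 / n - (1 - 1 / n) / 2 * r - io n r) / (1 + r)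

lemma io_mul (hn : 2 ≤ n) (hr : 0 < r) : io n r * Kf n r = 1 / n * Pf n r :=
  div_mul_cancel₀ _ (K_pos hn hr).ne'

lemma P_der' (hn : 2 ≤ n) (hr : 0 < r) : HasDerivAt (Pf n) (Kf n r / r) r := by
  have h := (P_der hn (Real.log r)).comp r (Real.hasDerivAt_log hr.ne')
  rw [Real.exp_log hr] at h
  exact h.congr_of_eventuallyEq (mem_of_superset (Ioi_mem_nhds hr) fun t ht => by
    simp only [mem_ofPred_eq, Function.comp, Real.exp_log ht])

theorem K_der (hn : 2 ≤ n) (hr : 0 < r) : HasDerivAt (Kf n) (kap n r * Kf n r / r) r := by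
  have d := P_der' hn hr
  have i := hasDerivAt_id' r
  refine HasDerivAt.congr_of_eventuallyEq ((((d.const_mul (1 / n : ℝ)).add ((i.const_mul
    ((1 - 1 / n) / 2 : ℝ)).mul (d.const_sub 1))).div (i.const_add 1) (by positivity)).congr_deriv ?_)
    (mem_of_superset (Ioi_mem_nhds hr) fun t ht => K_eq hn ht)
  have h1 := K_ode hn hr
  have h2 := io_mul hn hr
  simp only [kap, Pi.add_apply, Pi.mul_apply]
  generalize (1 : ℝ) / n = g at *
  field_simp
  linear_combination -2 * h1 + 2 * (1 + r) * h2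

lemma K_le (hn : 2 ≤ n) (hr : 0 < r) : (1 + r) * Kf n r ≤ 1 := by
  have h : r * (1 - Pf n r) ≤ 1 := by
    have := mul_le_mul_of_nonneg_left (P_ge hn hr) hr.le
    have e : r * (r / (1 + r)) = r - 1 + 1 / (1 + r) := by field_simp; ring
    have : 0 < 1 / (1 + r) := by positivity
    linarith
  have g := gam_bd hn
  rw [K_ode hn hr, mul_assoc]
  nlinarith [P_le hn hr]

lemma K1_le (hn : 2 ≤ n) (hr : 0 < r) : (1 + r) * |kap n r * Kf n r| ≤ 3 := by
  have g := gam_bd hn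
  have e : (1 + r) * (kap n r * Kf n r) =
      (1 + 1 / n - (1 - 1 / n) / 2 * r) * Kf n r - 1 / n * Pf n r := by
    rw [← io_mul hn hr, kap]
    field_simp
  rw [← abs_of_pos (by positivity : 0 < 1 + r), ← abs_mul, e, abs_le]
  have := K_le hn hr
  have := K_pos hn hr
  have := P_le hn hr
  have := P_pos hn hr
  have := mul_pos hr (K_pos hn hr)
  constructor <;> nlinarith

lemma kap_meas (hn : 2 ≤ n) : Measurable (kap n) := by
  have := Kf_meas hn
  have := mu_prob hn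
  have : Measurable (Pf n) := (StronglyMeasurable.integral_prod_right
    (f := fun r s : ℝ => r / (r + s)) (Measurable.stronglyMeasurable (by fun_prop))).measurable
  unfold kap io
  fun_prop

/-- the density of the field with a radial weight and two tangential amplitudes -/
noncomputable def k2 (n : ℕ) (σ : ℝ) (Y Y1 M : ℝ → ℝ) (j : ℕ) (g1 g2 : ℝ → ℝ) (r ψ : ℝ) : ℝ :=
  Kf n r + (j * Y r + Y1 r) * hy σ M j r ψ -
    (ga σ g1 r ψ * Real.cos ψ + ga σ g2 r ψ * Real.sin ψ) + ((Y r * hy σ M j r ψ) ^ 2 +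
      (ga σ g1 r ψ * Real.sin ψ + ga σ g2 r ψ * (1 - Real.cos ψ)) ^ 2) /
      (4 * (Kf n r * (1 - cc r (Real.cos ψ))))

theorem flux_of2 (hn : 2 ≤ n) (hσ : σ ∈ Ioo 0 π) {Y Y1 M g1 g2 : ℝ → ℝ} (mY : Measurable Y)
    (mY1 : Measurable Y1) (hM : Measurable M) (hg1 : Measurable g1) (hg2 : Measurable g2) (j : ℕ)
    (hY : ∀ r > 0, HasDerivAt Y (Y1 r / r) r) {C : ℝ}
    (bM : ∀ ψ ∈ Ioo σ π, ∀ r ∈ Ioc 0 (rb σ ψ), (1 + r) * (|Y r| + |Y1 r|) * |M ψ| ≤ C)
    (bg : ∀ r > tl σ, (1 + r) * (|g1 r| + |g2 r|) ≤ C)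
    (ho : ∀ ψ ∈ Ioo σ π, ψ < σ + π / 2 → beta n (rb σ ψ) (Real.cos ψ) * Real.sin (ψ - σ) +
      (g1 (rb σ ψ) * Real.sin ψ + g2 (rb σ ψ) * (1 - Real.cos ψ)) * Real.cos (ψ - σ) ≤
        Y (rb σ ψ) * M ψ * Real.sin (ψ - σ))
    (hi : ∀ ψ ∈ Ioo σ π, σ + π / 2 ≤ ψ → beta n (rb σ ψ) (Real.cos ψ) ≤ Y (rb σ ψ) * M ψ) :
    Nonempty (Flux n σ (k2 n σ Y Y1 M j g1 g2)) := by
  have s0 := Real.sin_pos_of_pos_of_lt_pi hσ.1 hσ.2
  have m1 := hy_meas (σ := σ) hM j
  have m2 := ga_meas (σ := σ) hg1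
  have m3 := ga_meas (σ := σ) hg2
  have m4 := Kf_meas hn
  have hC : 0 ≤ C := le_trans (by have := (s0.trans_le (tl_ge σ)); positivity)
    (bg (tl σ + 1) (by linarith))
  have e1 : ∀ g : ℝ → ℝ, ∀ r > tl σ, ∀ ψ ∈ Icc 0 (ao σ r), ga σ g r ψ = g r := fun g r hr ψ hψ =>
    if_pos ⟨hr, hψ.2.trans_lt ((ao_mem hσ hr).2.trans_le (min_le_right _ _))⟩
  refine ⟨⟨fun r ψ => Y r * hy σ M j r ψ, fun r ψ => (j * Y r + Y1 r) * hy σ M j r ψ,
    fun r ψ => -(ga σ g1 r ψ * Real.sin ψ + ga σ g2 r ψ * (1 - Real.cos ψ)),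
    fun r ψ => -(ga σ g1 r ψ * Real.cos ψ + ga σ g2 r ψ * Real.sin ψ), (j + 5) * C, fun _ => ∅,
    fun _ => ∅, by unfold Function.uncurry; fun_prop, by unfold Function.uncurry; fun_prop,
    by unfold Function.uncurry; fun_prop, by unfold Function.uncurry; fun_prop,
    by unfold Function.uncurry k2 cc; fun_prop,
    fun _ => countable_empty, fun _ => countable_empty, fun r hr ψ hψ => ?_,
    fun r ψ hψ => by simp [hy, hψ], fun ψ hψ => ?_, fun ψ hψ r hr _ => ?_,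
    fun r hr ψ => by simp [ga, hr.not_gt], fun r hr => ⟨by simp, ?_⟩,
    fun r ψ hψ => by simp [ga, hψ.not_gt], fun r hr ψ hψ _ => ?_, fun ψ hψ => ?_,
    fun r hr ψ hψ v w => ?_⟩⟩
  · have a1 : (1 + r) * (|Y r| + |Y1 r|) * |hy σ M j r ψ| ≤ C := by
      unfold hy
      split_ifs with h
      · have h1 := sinb hσ ⟨h, hψ.1.2⟩
        have h2 := ((AR_ray hσ ⟨h, hψ.1.2⟩).1 (show (r, ψ) ∈ AR σ from ⟨hr, hψ⟩)).2
        rw [abs_mul, abs_of_nonneg (a := _ ^ j) (by positivity)]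
        exact le_trans (mul_le_mul_of_nonneg_left (mul_le_of_le_one_right (abs_nonneg _)
          (pow_le_one₀ (by positivity) ((div_le_one s0).2 hψ.2.le))) (by positivity))
          (bM ψ ⟨h, hψ.1.2⟩ r ⟨hr, h2.le⟩)
      · simpa using hC
    have a2 : (1 + r) * (|ga σ g1 r ψ| + |ga σ g2 r ψ|) ≤ C := by
      unfold ga
      split_ifs with h
      exacts [bg r h.1, by simpa using hC]
    have a3 : |1 - Real.cos ψ| ≤ 2 := abs_le.2
      ⟨by linarith [Real.cos_le_one ψ], by linarith [Real.neg_one_le_cos ψ]⟩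
    have a4 : ∀ a b x y t : ℝ, |x| ≤ t → |y| ≤ t → |a * x + b * y| ≤ (|a| + |b|) * t :=
      fun a b x y t hx hy => (abs_add_le _ _).trans (by
        rw [abs_mul, abs_mul, add_mul]; gcongr)
    have a5 := a4 (ga σ g1 r ψ) (ga σ g2 r ψ) _ _ _ ((Real.abs_sin_le_one ψ).trans one_le_two) a3
    have a6 := a4 (ga σ g1 r ψ) (ga σ g2 r ψ) _ _ _ (Real.abs_cos_le_one ψ) (Real.abs_sin_le_one ψ)
    have a7 := a4 (Y r) (Y1 r) j 1 (j + 1) (by rw [Nat.abs_cast]; linarith)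
      (by rw [abs_one]; linarith [Nat.cast_nonneg (α := ℝ) j])
    rw [mul_one, mul_comm] at a7
    have a8 := mul_le_mul_of_nonneg_right a7 (abs_nonneg (hy σ M j r ψ))
    have a9 := mul_le_mul_of_nonneg_left a1 (by positivity : (0 : ℝ) ≤ j + 2)
    have b1 := mul_nonneg (abs_nonneg (Y1 r)) (abs_nonneg (hy σ M j r ψ))
    simp only [abs_neg, abs_mul]
    nlinarith
  · refine ContinuousOn.mul (fun r hr => (hY r hr.1).continuousAt.continuousWithinAt) ?_
    simp only [hy, if_pos hψ.1]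
    fun_prop
  · simp only [hy, if_pos hψ.1]
    refine ((hY r hr.1).mul (((((hasDerivAt_id' r).mul_const _).div_const _).pow j).const_mul
      _)).congr_deriv ?_
    have := hr.1.ne'
    rcases j with _ | j
    · simp only [Pi.pow_apply]; field_simp; simp; ring
    · simp only [Pi.pow_apply, Nat.add_sub_cancel, pow_succ]; field_simp; ring
  · exact ContinuousOn.congr (f := fun ψ => -(g1 r * Real.sin ψ + g2 r * (1 - Real.cos ψ)))
      (by fun_prop) fun ψ hψ => by simp only [e1 _ r hr ψ hψ]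
  · refine HasDerivAt.congr_of_eventuallyEq
      (f := fun ψ => -(g1 r * Real.sin ψ + g2 r * (1 - Real.cos ψ)))
      ((((Real.hasDerivAt_sin ψ).const_mul _).add
        (((Real.hasDerivAt_cos ψ).const_sub 1).const_mul _)).neg.congr_deriv ?_)
      (mem_of_superset (Icc_mem_nhds hψ.1 hψ.2) fun x hx => ?_)
    · simp only [e1 _ r hr ψ (Ioo_subset_Icc_self hψ), neg_neg]
    · simp only [mem_ofPred_eq, e1 _ r hr x hx]
  · have h1 := sinb hσ hψ
    rw [bt_eq hn hσ hψ, hy, if_pos hψ.1, rb, div_mul_cancel₀ _ h1.ne', div_self s0.ne', one_pow,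
      mul_one, ← rb, ga, ga]
    rcases lt_or_ge ψ (σ + π / 2) with h | h
    · have := (rb_image hσ).le ⟨ψ, ⟨hψ.1, lt_min hψ.2 h⟩, rfl⟩
      rw [if_pos ⟨this, h⟩, if_pos ⟨this, h⟩]
      linarith [ho ψ hψ h]
    · rw [if_neg fun e => e.2.not_ge h, if_neg fun e => e.2.not_ge h]
      linarith [mul_le_mul_of_nonneg_left (hi ψ hψ h) h1.le]
  · have h1 := mul_pos (K_pos hn hr) (sub_pos.2 (cc_lt hr hψ.1))
    have h2 := mul_le_mul_of_nonneg_right (Psi_ge hn hr hψ.1) (by positivity : 0 ≤ v ^ 2 + w ^ 2)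
    have h3 : ∀ a b t : ℝ, 0 < t → a * v + -b * w ≤ (a ^ 2 + b ^ 2) / (4 * t) +
        t * (v ^ 2 + w ^ 2) := fun a b t ht => by
      rw [div_add' _ _ _ (by positivity), le_div_iff₀ (by positivity)]
      nlinarith [sq_nonneg (a - 2 * t * v), sq_nonneg (b + 2 * t * w)]
    rw [k2]
    linarith [h3 (Y r * hy σ M j r ψ)
      (ga σ g1 r ψ * Real.sin ψ + ga σ g2 r ψ * (1 - Real.cos ψ)) _ h1]

/-- moments `E[a^k b]` -/
noncomputable def wm (n k : ℕ) (r : ℝ) : ℝ := mo n k r - mo n (k + 1) r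

lemma wm_zero (hn : 2 ≤ n) (r : ℝ) : wm n 0 r = 1 - Pf n r := by rw [wm, mo_zero hn, mo_one]

lemma wm_one (hn : 2 ≤ n) (hr : 0 < r) : wm n 1 r = Kf n r := (Kf_mo hn hr).symm

theorem wm_rec (hn : 2 ≤ n) (hr : 0 < r) (k : ℕ) : (k + 1) * (1 + r) * wm n (k + 1) r =
    1 / n * mo n (k + 1) r + (k + 1 - (1 + 1 / n) / 2) * r * wm n k r := by
  simp only [wm]
  linear_combination -mo_rec hn hr k

/-- second moment ratio -/
noncomputable def w2 (g r i : ℝ) : ℝ := (i - g + (2 - (1 + g) / 2) * r) / (2 * (1 + r))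

/-- third moment ratio -/
noncomputable def w3 (g r i : ℝ) : ℝ :=
  (i - g * (1 + w2 g r i) + (3 - (1 + g) / 2) * r * w2 g r i) / (3 * (1 + r))

theorem ratios (hn : 2 ≤ n) (hr : 0 < r) :
    r * bm n 1 r = (1 + r - io n r) / ((1 - 1 / n) / 2) * Kf n r ∧
    Ms n r = ((1 + r - io n r) / ((1 - 1 / n) / 2) - r) * Kf n r ∧
    Mz n r = 4 * (w2 (1 / n) r (io n r) - w3 (1 / n) r (io n r)) * Kf n r ∧
    Msz n r = 4 * r * (1 - 2 * w2 (1 / n) r (io n r) + w3 (1 / n) r (io n r)) * Kf n r := by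
  have g := gam_bd hn
  have h0 : r * bm n 1 r = (1 + r - io n r) / ((1 - 1 / n) / 2) * Kf n r := by
    rw [bm_one hn hr, div_mul_eq_mul_div, eq_div_iff (by linarith)]
    linear_combination io_mul hn hr - K_ode hn hr
  have hb : ∀ k : ℕ, ∀ a b c d e : ℝ, (∀ x : ℝ, (1 - x) ^ k = a + b * x + c * x ^ 2 + d * x ^ 3 +
      e * x ^ 4) → bm n k r = a + (b * mo n 1 r + c * mo n 2 r + (d * mo n 3 r + e * mo n 4 r)) :=
    fun k a b c d e h => by
      have c1 := a_cont hr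
      have := mu_prob hn
      rw [← mu_const hn a, mo, mo, mo, mo, ← mu_lin4 hn (by fun_prop) (by fun_prop) (by fun_prop)
        (by fun_prop), ← integral_add (integrable_const a) (int_cont hn (by fun_prop))]
      refine mu_congr fun s hs => ?_
      have := (add_pos hr hs.1).ne'
      rw [show s / (r + s) = 1 - r / (r + s) by field_simp; ring, h]
      ring
  have b2 := hb 2 1 (-2) 1 0 0 (by intro x; ring)
  have b3 := hb 3 1 (-3) 3 (-1) 0 (by intro x; ring)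
  have b4 := hb 4 1 (-4) 6 (-4) 1 (by intro x; ring)
  have k1 := Kf_mo hn hr
  have i1 := io_mul hn hr
  rw [← mo_one] at i1
  have e2 : w2 (1 / n) r (io n r) * Kf n r = mo n 2 r - mo n 3 r := by
    have := wm_rec hn hr 1
    rw [wm_one hn hr, wm] at this
    rw [w2, div_mul_eq_mul_div, div_eq_iff (by positivity)]
    push_cast at this
    linear_combination i1 - this - 1 / n * k1
  have e3 : w3 (1 / n) r (io n r) * Kf n r = mo n 3 r - mo n 4 r := by
    have := wm_rec hn hr 2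
    simp only [wm] at this
    rw [w3, div_mul_eq_mul_div, div_eq_iff (by positivity)]
    push_cast at this
    linear_combination i1 - this - 1 / n * k1 + ((3 - (1 + 1 / n) / 2) * r - 1 / n) * e2
  refine ⟨h0, ?_, ?_, ?_⟩
  · rw [Ms_bm hn hr]
    linear_combination h0 + r * K_bm hn hr
  · rw [Mz_bm hn hr, b2, b3, b4]
    linear_combination 4 * e3 - 4 * e2
  · rw [Msz_bm hn hr, b3, b4]
    linear_combination 8 * r * e2 - 4 * r * e3 - 4 * r * k1

end Pool.Agent.Lib.MP_f225de_an.MA
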