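import Pool.Agent.Lib.MP_f225de_an.MD4

set_option autoImplicit false

open MeasureTheory Set Filter Topology
open scoped Real

namespace Pool.Agent.Lib.MP_f225de_an.MA

open Sk

variable {σ r y p C : ℝ} {c : ℝ → ℝ}

/-- relative distance to the bisector on the ray `ψ` -/
noncomputable def ur (σ r ψ : ℝ) : ℝ := r * Real.sin (ψ - σ) / Real.sin σ

/-- accumulated cost of the rays up to the level `y` -/
noncomputable def Rp (σ : ℝ) (c : ℝ → ℝ) (p y : ℝ) : ℝ :=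
  ∫ ψ in Ioo σ π, c ψ * min 1 (ur σ (Real.exp y) ψ) ^ p

/-- its derivative -/
noncomputable def Rp1 (σ : ℝ) (c : ℝ → ℝ) (p y : ℝ) : ℝ :=
  ∫ ψ in Arc σ (Real.exp y) ∩ Ioi σ, p * c ψ * ur σ (Real.exp y) ψ ^ p

lemma ur_pos (hσ : σ ∈ Ioo 0 π) (hr : 0 < r) {ψ : ℝ} (hψ : ψ ∈ Ioo σ π) : 0 < ur σ r ψ :=
  div_pos (mul_pos hr (sinb hσ hψ)) (Real.sin_pos_of_pos_of_lt_pi hσ.1 hσ.2)

lemma ur_lt (hσ : σ ∈ Ioo 0 π) {ψ : ℝ} (hψ : ψ ∈ Ioo σ π) : ur σ r ψ < 1 ↔ ψ ∈ Arc σ r := by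
  rw [ur, div_lt_one (Real.sin_pos_of_pos_of_lt_pi hσ.1 hσ.2)]
  exact ⟨fun h => ⟨⟨hσ.1.trans hψ.1, hψ.2⟩, h⟩, fun h => h.2⟩

lemma ur_rb (σ r ψ : ℝ) : ur σ r ψ = r / rb σ ψ := by rw [ur, rb, div_div_eq_mul_div]

lemma ur_ae (hσ : σ ∈ Ioo 0 π) (hr : 0 < r) : ∀ᵐ ψ, ψ ∈ Ioo σ π → ur σ r ψ ≠ 1 := by
  filter_upwards [Measure.ae_ne volume (σ + Real.arcsin (Real.sin σ / r)),
    Measure.ae_ne volume (σ + π - Real.arcsin (Real.sin σ / r))] with ψ h1 h2 hψ h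
  rw [ur, div_eq_one_iff_eq (Real.sin_pos_of_pos_of_lt_pi hσ.1 hσ.2).ne'] at h
  rw [← h, mul_div_cancel_left₀ _ hr.ne'] at h1 h2
  rcases le_total (ψ - σ) (π / 2) with a | a
  · exact h1 (by rw [Real.arcsin_sin (by linarith [hψ.1, Real.pi_pos]) a]; ring)
  · exact h2 (by
      rw [← Real.sin_pi_sub, Real.arcsin_sin (by linarith [hψ.2, hσ.1, Real.pi_pos]) (by linarith)]
      ring)

lemma ur_exp (hσ : σ ∈ Ioo 0 π) {ψ : ℝ} (hψ : ψ ∈ Ioo σ π) (p y : ℝ) :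
    min 1 (ur σ (Real.exp y) ψ) ^ p = Real.exp (p * min 0 (y - Real.log (rb σ ψ))) := by
  rw [mul_comm, Real.exp_mul, Real.exp_monotone.map_min, Real.exp_zero, Real.exp_sub,
    Real.exp_log (rb_pos hσ hψ), ur_rb]

lemma min_bd (hσ : σ ∈ Ioo 0 π) (hp : 0 ≤ p) (hr : 0 < r) {ψ : ℝ} (hψ : ψ ∈ Ioo σ π) :
    min 1 (ur σ r ψ) ^ p ∈ Icc (0 : ℝ) 1 :=
  have h := le_min zero_le_one (ur_pos hσ hr hψ).le
  ⟨Real.rpow_nonneg h p, Real.rpow_le_one h (min_le_left _ _) hp⟩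

lemma bd_int {f : ℝ → ℝ} (hf : Measurable f) (hC : ∀ ψ ∈ Ioo σ π, |f ψ| ≤ C) :
    IntegrableOn f (Ioo σ π) :=
  Measure.integrableOn_of_bounded measure_Ioo_lt_top.ne hf.aestronglyMeasurable
    ((ae_restrict_mem measurableSet_Ioo).mono hC)

lemma Rp_int (hσ : σ ∈ Ioo 0 π) (hp : 0 ≤ p) (hc : Measurable c) (hC : ∀ ψ ∈ Ioo σ π, |c ψ| ≤ C)
    (hr : 0 < r) : IntegrableOn (fun ψ => c ψ * min 1 (ur σ r ψ) ^ p) (Ioo σ π) :=
  bd_int (C := C) (by unfold ur; fun_prop) fun ψ hψ => by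
    rw [abs_mul, abs_of_nonneg (min_bd hσ hp hr hψ).1]
    exact (mul_le_of_le_one_right (abs_nonneg _) (min_bd hσ hp hr hψ).2).trans (hC ψ hψ)

theorem Rp_der (hσ : σ ∈ Ioo 0 π) (hp : 0 ≤ p) (hc : Measurable c)
    (hC : ∀ ψ ∈ Ioo σ π, |c ψ| ≤ C) (y : ℝ) : HasDerivAt (Rp σ c p) (Rp1 σ c p y) y := by
  have e : Arc σ (Real.exp y) ∩ Ioi σ = Arc σ (Real.exp y) ∩ Ioo σ π :=
    Subset.antisymm (fun _ h => ⟨h.1, h.2, h.1.1.2⟩) fun _ h => ⟨h.1, h.2.1⟩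
  rw [Rp1, e, ← Measure.restrict_restrict (Arc_meas _ _), ← integral_indicator (Arc_meas _ _)]
  refine (hasDerivAt_integral_of_dominated_loc_of_lip (bound := fun _ => C * p) univ_mem
    (.of_forall fun y => (Rp_int hσ hp hc hC (Real.exp_pos y)).aestronglyMeasurable)
    (Rp_int hσ hp hc hC (Real.exp_pos y)) (Measurable.aestronglyMeasurable
      (Measurable.indicator (by unfold ur; fun_prop) (Arc_meas _ _)))
    ((ae_restrict_mem measurableSet_Ioo).mono fun ψ hψ => ?_) (integrableOn_const (by simp)) ?_).2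
  · simp only [ur_exp hσ hψ]
    refine LipschitzOnWith.of_dist_le_mul fun a _ b _ => ?_
    have key : ∀ s t : ℝ, s ≤ 0 → t ≤ 0 → Real.exp s - Real.exp t ≤ |s - t| := fun s t hs ht => by
      have h1 := Real.add_one_le_exp (t - s)
      have h2 : Real.exp s * Real.exp (t - s) = Real.exp t := by rw [← Real.exp_add, add_sub_cancel]
      nlinarith [Real.exp_pos s, Real.exp_le_one_iff.2 hs, le_abs_self (s - t), abs_nonneg (s - t)]
    have n0 : ∀ x, p * min 0 x ≤ 0 := fun x => mul_nonpos_of_nonneg_of_nonpos hp (min_le_left _ _)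
    rw [Real.dist_eq, Real.dist_eq, ← mul_sub, abs_mul, Real.coe_nnabs]
    refine le_trans ?_ (mul_le_mul_of_nonneg_right (le_abs_self _) (abs_nonneg _))
    rw [mul_assoc]
    refine mul_le_mul (hC ψ hψ) (le_trans (abs_sub_le_iff.2 ⟨key _ _ (n0 _) (n0 _),
      (key _ _ (n0 _) (n0 _)).trans_eq (abs_sub_comm _ _)⟩) ?_) (abs_nonneg _)
      ((abs_nonneg _).trans (hC ψ hψ))
    rw [← mul_sub, abs_mul, abs_of_nonneg hp]
    refine mul_le_mul_of_nonneg_left ((abs_min_sub_min_le_max _ _ _ _).trans ?_) hp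
    simp
  · filter_upwards [ae_restrict_mem measurableSet_Ioo,
      ae_restrict_of_ae (ur_ae hσ (Real.exp_pos y))] with ψ hψ h
    have hc : ContinuousAt (fun y => ur σ (Real.exp y) ψ) y := by unfold ur; fun_prop
    rcases lt_or_gt_of_ne (h hψ) with a | a
    · rw [indicator_of_mem ((ur_lt hσ hψ).1 a)]
      have u0 := ur_pos hσ (Real.exp_pos y) hψ
      refine HasDerivAt.congr_of_eventuallyEq (f := fun y => c ψ * ur σ (Real.exp y) ψ ^ p)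
        ((((((Real.hasDerivAt_exp y).mul_const _).div_const _).rpow_const
          (Or.inl u0.ne')).const_mul _).congr_deriv ?_)
        ((hc.eventually_lt continuousAt_const a).mono fun t ht => by simp only [min_eq_right ht.le])
      rw [← ur, Real.rpow_sub_one u0.ne']
      field_simp
    · rw [indicator_of_notMem fun e => ((ur_lt hσ hψ).2 e).not_gt a]
      exact (hasDerivAt_const y (c ψ)).congr_of_eventuallyEq
        ((continuousAt_const.eventually_lt hc a).mono fun t ht => by simp [min_eq_left ht.le])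

lemma Rp_bd (hσ : σ ∈ Ioo 0 π) (hp : 0 ≤ p) (hc : Measurable c) (hC : ∀ ψ ∈ Ioo σ π, |c ψ| ≤ C)
    (h0 : ∀ ψ ∈ Ioo σ π, 0 ≤ c ψ) (y : ℝ) : 0 ≤ Rp σ c p y ∧ Rp σ c p y ≤ ∫ ψ in Ioo σ π, c ψ :=
  ⟨setIntegral_nonneg measurableSet_Ioo fun ψ hψ =>
    mul_nonneg (h0 ψ hψ) (min_bd hσ hp (Real.exp_pos y) hψ).1,
  setIntegral_mono_on (Rp_int hσ hp hc hC (Real.exp_pos y)) (bd_int hc hC) measurableSet_Ioo
    fun ψ hψ => mul_le_of_le_one_right (h0 ψ hψ) (min_bd hσ hp (Real.exp_pos y) hψ).2⟩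

end Pool.Agent.Lib.MP_f225de_an.MA
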