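import Pool.Agent.Lib.MP_f225de_an.Sk0

set_option autoImplicit false

open Set
open scoped Real

namespace Pool.Agent.Lib.MP_f225de_an.Sk

/-- corner function of an arc of half angle `s` at level `y` -/
noncomputable def cor (s y : ℝ) : ℝ := 2 / π * Real.arcsin (Real.sin s / Real.exp y)

/-- potential carried by one merged arc -/
noncomputable def T0 (n : ℕ) (F : ℝ) : ℝ := ((n : ℝ) ^ 2 - (n - 1) * F) / (n - 2)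

/-- the potentials -/
structure Base (n : ℕ) where
  P : ℝ → ℝ
  K : ℝ → ℝ
  F : ℝ → ℝ
  F1 : ℝ → ℝ
  A : ℝ → ℝ → ℝ
  A1 : ℝ → ℝ → ℝ
  B : ℝ → ℝ → ℝ
  B1 : ℝ → ℝ → ℝ
  G : ℝ → ℝ → ℝ
  L : ℝ → ℝ → ℝ
  L1 : ℝ → ℝ → ℝ
  Sh : ℝ → ℝ → ℝ
  X : ℝ → Finset ℝ
  a0 : ℝ
  l0 : ℝ
  a0_l0 : 0 ≤ a0 ∧ 0 ≤ l0 ∧ (n = 4 ∨ a0 + 2 * l0 ≤ n - 1)
  P_pos : ∀ y, 0 < P y
  P_le : ∀ y, P y ≤ 1
  P_der : ∀ y, HasDerivAt P (K y) y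
  K_cont : Continuous K
  K_pos : ∀ y, 0 < K y
  F_cont : Continuous F
  F_pos : ∀ y, 0 ≤ F y
  F_le : ∀ y, ((n : ℝ) - 1) * (F y - 4) ≤ n - 2
  F_der : ∀ y, y ∉ X 0 → HasDerivAt F (F1 y) y ∧
    2 * (n * K y / P y) ≤ F1 y + ((2 - n * K y / P y) / 2 + (2 * (n * K y / P y) - 2) / n) * F y
  A_cont : ∀ s ∈ Ioc 0 (π / 2), ContinuousOn (A s) (Iic (Real.log (Real.sin s)))
  A_bd : ∀ s ∈ Ioc 0 (π / 2), ∀ y ≤ Real.log (Real.sin s), 0 ≤ A s y ∧ n * A s y ≤ a0 * P y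
  B_cont : ∀ s ∈ Ioc 0 (π / 2), ContinuousOn (B s) (Ici (Real.log (Real.sin s)))
  B_bd : ∀ s ∈ Ioc 0 (π / 2), ∀ y ≥ Real.log (Real.sin s),
    0 ≤ G s y ∧ Sh s y + G s y ≤ B s y ∧ 2 * n * B s y ≤ T0 n (F y) * P y ∧
      2 * G s y ≤ n * P y ∧ (y < 0 → 0 ≤ Sh s y)
  AB : ∀ s ∈ Ioc 0 (π / 2), ∀ y, y = Real.log (Real.sin s) →
    2 * n * (A s y + B s y) ≤ T0 n (F y) * P y
  Sh_zero : ∀ y, Sh 0 y ≤ 0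
  Sh_add : ∀ a b y, 0 < a → 0 ≤ b → a + b < π → Sh (a + b) y ≤ Sh a y + Sh b y
  L_cont : ∀ s ∈ Icc (π / (n - 1)) π, Continuous (L s)
  L_bd : ∀ s ∈ Icc (π / (n - 1)) π, ∀ y,
    (y < 0 → 0 ≤ L s y ∧ n * L s y ≤ l0 * P y) ∧ L s y ≤ Sh (π - s) y

/-- the one dimensional data from which the numerical statement follows -/
structure Data (n : ℕ) (η : ℝ → ℝ → ℝ) extends Base n where
  ex : ℝ → ℝ → ℝ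
  K_le : ∀ y, n * K y ≤ 2 * P y
  eta : ∀ s ∈ Ioc 0 π, ∀ y, η s y ≤ K y ^ 2 * (lam s y + ex s y)
  A_der : ∀ s ∈ Ioc 0 (π / 2), ∀ y < Real.log (Real.sin s), y ∉ X s →
    HasDerivAt (A s) (A1 s y) y ∧ ex s y * K y ≤ A1 s y
  B_der : ∀ s ∈ Ioc 0 (π / 2), ∀ y > Real.log (Real.sin s), y ∉ X s →
    HasDerivAt (B s) (B1 s y) y ∧
      ex s y * K y + K y * cor s y ^ 2 / (2 * (n + cor s y)) + P y * cor s y / (n + cor s y)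
        - (2 / n - K y / P y) * G s y * cor s y / (n + cor s y) ≤ -B1 s y
  L_der : ∀ s ∈ Icc (π / (n - 1)) π, ∀ y, y ∉ X s →
    HasDerivAt (L s) (L1 s y) y ∧ ex s y * K y ≤ L1 s y

/-- the data for the weighted version; `al = n K / P` -/
structure DataW (n : ℕ) (k1 k2 : ℝ → ℝ → ℝ) extends Base n where
  al : ℝ → ℝ
  x1 : ℝ → ℝ → ℝ
  x2 : ℝ → ℝ → ℝ
  z1 : ℝ → ℝ → ℝ
  z2 : ℝ → ℝ → ℝ
  xa : ℝ → ℝ → ℝ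
  sq : ℝ → ℝ → ℝ
  dm : ℝ
  al_eq : ∀ y, al y = n * K y / P y
  al_lt : ∀ y, al y < 2
  x_bd : ∀ s ∈ Ioc 0 (π / 2), ∀ y, k1 s y ≤ K y * (lam s y + x1 s y) ∧
    k2 s y ≤ K y ^ 2 * (lam s y + x2 s y) ∧ -(1 / 4) ≤ x1 s y
  z_bd : ∀ s ∈ Icc (π / (n - 1)) π, ∀ y, k1 s y ≤ K y * (lam s y + z1 s y) ∧
    k2 s y ≤ K y ^ 2 * (lam s y + z2 s y) ∧ -(1 / 4) ≤ z1 s y
  xa_meas : ∀ s ∈ Ioc 0 (π / 2), Measurable (xa s)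
  xa_bd : ∀ s ∈ Ioc 0 (π / 2), ∀ y, 0 ≤ cor s y + 2 * xa s y ∧ xa s y ≤ 0
  xa_cont : ∀ s ∈ Ioc 0 (π / 2), ∀ y, y ∉ X s → ContinuousAt (xa s) y
  sq_bd : ∀ s ∈ Ioc 0 (π / 2), ∀ y > Real.log (Real.sin s),
    0 ≤ sq s y ∧ (x1 s y - xa s y) ^ 2 ≤ (cor s y + 2 * xa s y) * sq s y
  dm_bd : dm = 0 ∨ (n = 4 ∧ dm = 1 / 4 ∧ (∀ y < 0, 2 ≤ F y) ∧
    ∀ s ∈ Ioc 0 (π / 2), ∀ y ≤ Real.log (Real.sin s), 16 * A s y ≤ P y)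
  A_der : ∀ s ∈ Ioc 0 (π / 2), ∀ y < Real.log (Real.sin s), y ∉ X s →
    HasDerivAt (A s) (A1 s y) y ∧
      K y * (al y * x2 s y / 2 + (2 - al y) * (x1 s y + x1 s y ^ 2)) - (2 - al y) * dm * A s y
        ≤ A1 s y
  B_der : ∀ s ∈ Ioc 0 (π / 2), ∀ y > Real.log (Real.sin s), y ∉ X s →
    HasDerivAt (B s) (B1 s y) y ∧
      K y * (cor s y / 2 + al y * x2 s y / 2 + (2 - al y) * (x1 s y - xa s y / 2 + sq s y))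
        + (2 - al y) * (n * P y - 2 * G s y) * (cor s y + al y * xa s y)
          / (2 * n * (n + (cor s y + al y * xa s y))) ≤ -B1 s y
  L_der : ∀ s ∈ Icc (π / (n - 1)) π, ∀ y, y ∉ X s → HasDerivAt (L s) (L1 s y) y ∧
    K y * (al y * z2 s y / 2 + (2 - al y) * (z1 s y + z1 s y ^ 2)) ≤ L1 s y

end Pool.Agent.Lib.MP_f225de_an.Sk
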