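import Mathlib

set_option autoImplicit false

namespace Pool.Agent.Lib.MP_f225de_an.Sk

lemma alg_top {e m x T U S : ℝ} (he : 1 ≤ e) (hm : 1 ≤ m) (hx : (e + m + 1) * x ≤ 1)
    (hT : T ≤ e * (e + m - (e + m + 1) * x)) (hU0 : 0 ≤ U)
    (hU : e + m = 2 ∨ U ≤ m * (e + m + 1)) (hS : S ≤ T) (hS0 : S ≤ e + m - (e + m + 1) * x) :
    0 ≤ (e + m + 2) * (m * e * (e + m + 2) * (1 - x) + (e - m) * (T - U)) - e * (e + 2) * S := by
  have hx1 : x ≤ 1 / 3 := by
    by_contra h
    nlinarith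
  rcases le_total e m with h | h
  · obtain ⟨t, ht⟩ : ∃ t, t = e + m - (e + m + 1) * x := ⟨_, rfl⟩
    rw [← ht] at hT hS0
    have ht0 : 0 ≤ t := by linarith
    have h1 : (m - e) * T ≤ (m - e) * (e * t) := mul_le_mul_of_nonneg_left hT (by linarith)
    have h2 : 0 ≤ (m - e) * U := mul_nonneg (by linarith) hU0
    have h3 : e * (e + 2) * S ≤ e * (e + 2) * t := mul_le_mul_of_nonneg_left hS0 (by positivity)
    have h4 : (e + m + 2) * (1 - x) = t + 2 - x := by rw [ht]; ring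
    have h5 : m * e * (e + m + 2) * (1 - x) = m * e * (t + 2 - x) := by rw [← h4]; ring
    rw [h5]
    have h6 : e * e * t + m * e ≤ m * e * (t + 2 - x) + (e - m) * (T - U) := by
      have : 0 ≤ m * e * (1 - x) := by
        have : 0 ≤ 1 - x := by linarith
        positivity
      nlinarith
    have h7 : (e + m + 2) * (e * e * t + m * e) ≤ (e + m + 2) * (m * e * (t + 2 - x)
      + (e - m) * (T - U)) := mul_le_mul_of_nonneg_left h6 (by positivity)
    have h8 : e * (e + 2) * t ≤ (e + m + 2) * (e * e * t) := by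
      have : (e + 2) * (e * t) ≤ ((e + m + 2) * e) * (e * t) :=
        mul_le_mul_of_nonneg_right (by nlinarith) (by positivity)
      nlinarith
    have : 0 ≤ (e + m + 2) * (m * e) := by positivity
    nlinarith
  · have h1 : (e - m) * S ≤ (e - m) * T := mul_le_mul_of_nonneg_left hS (by linarith)
    have h2 : (e - m) * U ≤ (e - m) * (m * (e + m + 1)) := hU.elim
      (fun e' => by rw [show e - m = 0 by linarith, zero_mul, zero_mul])
      fun e' => mul_le_mul_of_nonneg_left e' (by linarith)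
    have h3 : m * (m + 2) * S ≤ m * (m + 2) * (e + m - (e + m + 1) * x) :=
      mul_le_mul_of_nonneg_left hS0 (by positivity)
    have h4 : (e + m + 2) * ((e - m) * S - (e - m) * (m * (e + m + 1))) ≤
        (e + m + 2) * ((e - m) * (T - U)) := mul_le_mul_of_nonneg_left (by linarith) (by positivity)
    have hb : 0 ≤ (e + m + 2) ^ 2 * e - (m + 2) * (e + m + 1) := by
      have : (m + 2) * (e + m + 1) ≤ (e + m + 2) * (e + m + 2) :=
        mul_le_mul (by linarith) (by linarith) (by positivity) (by positivity)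
      nlinarith [sq_nonneg (e + m + 2)]
    have h5 := mul_le_mul_of_nonneg_right hx hb
    have h6 : x * ((e + m + 2) ^ 2 * e - (m + 2) * (e + m + 1)) ≤
        e * (e + m + 2) + (e + m + 2) - (m + 2) := by
      refine le_of_mul_le_mul_left ?_ (by positivity : (0 : ℝ) < e + m + 1)
      nlinarith
    have h7 := mul_le_mul_of_nonneg_left h6 (by positivity : (0 : ℝ) ≤ m)
    have h8 : 0 ≤ m * ((e + m + 2) * (m * (e + m + 1) - 1) - (m + 2) * (e + m - 1)) := by
      have := mul_le_mul (by linarith : m + 2 ≤ e + m + 2)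
        (by nlinarith : e + m - 1 ≤ m * (e + m + 1) - 1) (by linarith) (by linarith)
      exact mul_nonneg (by linarith) (by linarith)
    linarith

lemma alg_mid {e m x c T U S : ℝ} (he : e = 0 ∨ 1 ≤ e) (hm : 1 ≤ m) (hx : (e + m + 1) * x ≤ 1)
    (hF : 0 ≤ 4 + (e + m) * x) (hc0 : 0 ≤ c) (hc : c ≤ e)
    (hT : T ≤ e * (e + m - (e + m + 1) * x)) (hU0 : 0 ≤ U)
    (hU : e + m = 2 ∨ U ≤ m * (e + m + 1)) (hS : S ≤ T) (hS0 : S ≤ e + m - (e + m + 1) * x) :
    0 ≤ (e + m + 2) * (m * (e + 2 + c) * (e * (e + m + 2) * (1 - x / 2) - T)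
      - (e + m + 2) * c * (m * (e + x) - T) - (e + 2) * U * (c - m)) - c * (e + 2) ^ 2 * S := by
  have he0 : 0 ≤ e := hc0.trans hc
  have h0 : 0 ≤ (e + m + 2) * (m * (e + 2) * (e * (e + m + 2) * (1 - x / 2) - T)
      + (e + 2) * U * m) := by
    have : 0 ≤ e * (e + m + 2) * (1 - x / 2) - T := by nlinarith [mul_nonneg he0 hF]
    positivity
  rcases he with rfl | he
  · obtain rfl : c = 0 := le_antisymm hc hc0
    nlinarith
  · have h1 := mul_nonneg (by linarith : (0 : ℝ) ≤ e + 2) (alg_top he hm hx hT hU0 hU hS hS0)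
    refine le_of_mul_le_mul_left ?_ (by linarith : (0 : ℝ) < e)
    have := add_nonneg (mul_nonneg (sub_nonneg.2 hc) h0) (mul_nonneg hc0 h1)
    nlinarith

lemma cls_key {n d F c t T U S Φ : ℝ} (hn : 4 ≤ n) (hd : d = 2 ∨ 3 ≤ d)
    (hdn : d = n ∨ d + 1 ≤ n) (hF0 : 0 ≤ F) (hF : (n - 1) * (F - 4) ≤ n - 2) (hc0 : 0 ≤ c)
    (hc : c ≤ d - 2) (ht : t = (n ^ 2 - (n - 1) * F) / (n - 2)) (hT : T ≤ (d - 2) * t)
    (hlt : d + 1 ≤ n → 0 ≤ U ∧ (n = 4 ∨ U ≤ (n - d) * (n - 1)) ∧ S ≤ T ∧ S ≤ t)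
    (hSn : d = n → S ≤ T - U) (hΦ : (n ^ 2 - S) * c / (n * (n + c)) ≤ Φ) :
    0 ≤ F * (d - 2) * (n - d) / (2 * n * d) + (n - d) / (n * d) * ((d - 2) * t - T) + Φ
      - ((d - 1) * F + (d - 2) * t - T) * c / (d * (d + c)) + U * (1 / (d + c) - 1 / n) := by
  have hd2 : 2 ≤ d := by rcases hd with h | h <;> linarith
  have hdn' : d ≤ n := by rcases hdn with h | h <;> linarith
  have n0 : 0 < n := by linarith
  have n2 : 0 < n - 2 := by linarith
  have d0 : 0 < d := by linarith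
  have dc : 0 < d + c := by linarith
  have nc : 0 < n + c := by linarith
  rcases hdn with h | h
  · have := hSn h
    subst h
    have e : F * (d - 2) * (d - d) / (2 * d * d) + (d - d) / (d * d) * ((d - 2) * t - T) + Φ
        - ((d - 1) * F + (d - 2) * t - T) * c / (d * (d + c)) + U * (1 / (d + c) - 1 / d)
        = Φ - (d ^ 2 - S) * c / (d * (d + c)) + (T - U - S) * c / (d * (d + c)) := by
      rw [ht]; field_simp; ring
    rw [e]
    have : 0 ≤ (T - U - S) * c / (d * (d + c)) := by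
      have : 0 ≤ T - U - S := by linarith
      positivity
    linarith
  · obtain ⟨hU0, hU, hS, hS0⟩ := hlt h
    obtain ⟨x, hx⟩ : ∃ x, F = 4 + (n - 2) * x := ⟨(F - 4) / (n - 2), by field_simp; ring⟩
    have ht' : t = n - 2 - (n - 1) * x := by rw [ht, hx]; field_simp; ring
    have hx1 : (n - 1) * x ≤ 1 := by
      refine le_of_mul_le_mul_left ?_ n2
      rw [hx] at hF; nlinarith
    have hI := alg_mid (e := d - 2) (m := n - d) (x := x) (c := c) (T := T) (U := U) (S := S)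
      (by rcases hd with h | h; exacts [Or.inl (by linarith), Or.inr (by linarith)])
      (by linarith) (by linarith) (by rw [hx] at hF0; linarith) hc0 hc
      (by rw [ht'] at hT; linarith) hU0 (hU.imp (fun _ => by linarith) fun _ => by linarith) hS
      (by linarith)
    have hSn : 0 ≤ n ^ 2 - S := by
      have : t ≤ n ^ 2 := by
        rw [ht, div_le_iff₀ n2]; nlinarith [mul_nonneg (by linarith : 0 ≤ n - 1) hF0]
      linarith
    have h2 : (n ^ 2 - S) * c * d / (n ^ 2 * (d + c)) ≤ Φ := by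
      refine le_trans ?_ hΦ
      rw [div_le_div_iff₀ (by positivity) (by positivity)]
      have : 0 ≤ (n ^ 2 - S) * c * n * (c * (n - d)) :=
        mul_nonneg (by positivity) (mul_nonneg hc0 (by linarith))
      nlinarith
    have e : F * (d - 2) * (n - d) / (2 * n * d) + (n - d) / (n * d) * ((d - 2) * t - T) + Φ
        - ((d - 1) * F + (d - 2) * t - T) * c / (d * (d + c)) + U * (1 / (d + c) - 1 / n)
        = Φ - (n ^ 2 - S) * c * d / (n ^ 2 * (d + c)) + ((d - 2 + (n - d) + 2) * ((n - d)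
          * (d - 2 + 2 + c) * ((d - 2) * (d - 2 + (n - d) + 2) * (1 - x / 2) - T)
          - (d - 2 + (n - d) + 2) * c * ((n - d) * (d - 2 + x) - T)
          - (d - 2 + 2) * U * (c - (n - d))) - c * (d - 2 + 2) ^ 2 * S)
          / (n ^ 2 * d * (d + c)) := by
      rw [ht', hx]; field_simp; ring
    rw [e]
    have := div_nonneg hI (by positivity : 0 ≤ n ^ 2 * d * (d + c))
    linarith

lemma cls_fin {n d F F1 a c t T U V Φ E : ℝ} (hn : 4 ≤ n) (hd : 2 ≤ d) (hdn : d ≤ n) (ha : a ≤ 2)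
    (hF1 : 2 * a ≤ F1 + ((2 - a) / 2 + (2 * a - 2) / n) * F) (hc0 : 0 ≤ c)
    (ht : t = (n ^ 2 - (n - 1) * F) / (n - 2))
    (key : E ≤ F * (d - 2) * (n - d) / (2 * n * d) + (n - d) / (n * d) * ((d - 2) * t - (T - V))
      + Φ - ((d - 1) * F + (d - 2) * t - (T - V)) * c / (d * (d + c))
      + (U - V) * (1 / (d + c) - 1 / n)) :
    a * d ≤ F1 * (n - d) / (n - 2) + a / n * (T - U) + (2 - a) * (Φ - E)
      + ((d - 1) * F + (d - 2) * t - T + U) * ((2 - a) / (d + c) + (2 * a - 2) / n) := by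
  have n0 : 0 < n := by linarith
  have n2 : 0 < n - 2 := by linarith
  have d0 : 0 < d := by linarith
  have dc : 0 < d + c := by linarith
  have h1 := mul_nonneg (sub_nonneg.2 ha) (sub_nonneg.2 key)
  have h2 := mul_nonneg (div_nonneg (sub_nonneg.2 hdn) n2.le) (sub_nonneg.2 hF1)
  refine sub_nonneg.1 ((add_nonneg h1 h2).trans_eq ?_)
  rw [ht]
  field_simp
  ring

/-- the differential inequality of one class, in the units of the star -/
lemma cls_ineq {n d F F1 a c t T U V S Φ : ℝ} (hn : 4 ≤ n) (hd : d = 2 ∨ 3 ≤ d)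
    (hdn : d = n ∨ d + 1 ≤ n) (ha : a ≤ 2) (hF0 : 0 ≤ F) (hF : (n - 1) * (F - 4) ≤ n - 2)
    (hF1 : 2 * a ≤ F1 + ((2 - a) / 2 + (2 * a - 2) / n) * F) (hc0 : 0 ≤ c) (hc : c ≤ d - 2)
    (ht : t = (n ^ 2 - (n - 1) * F) / (n - 2)) (hT : T - V ≤ (d - 2) * t)
    (hlt : d + 1 ≤ n → 0 ≤ U - V ∧ (n = 4 ∨ U - V ≤ (n - d) * (n - 1)) ∧ S ≤ T - V ∧ S ≤ t)
    (hSn : d = n → S ≤ T - V - (U - V)) (hΦ : (n ^ 2 - S) * c / (n * (n + c)) ≤ Φ) :
    a * d ≤ F1 * (n - d) / (n - 2) + a / n * (T - U) + (2 - a) * Φ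
      + ((d - 1) * F + (d - 2) * t - T + U) * ((2 - a) / (d + c) + (2 * a - 2) / n) := by
  simpa using cls_fin hn (by rcases hd with h | h <;> linarith) (by rcases hdn with h | h <;> linarith)
    ha hF1 hc0 ht (cls_key hn hd hdn hF0 hF hc0 hc ht hT hlt hSn hΦ)

/-- slack of the class inequality in degree four -/
lemma key_four {n d F c t T U S Φ E : ℝ} (hn : n = 4) (hd : d = 2 ∨ d = 3) (hF0 : 2 ≤ F)
    (hF : (n - 1) * (F - 4) ≤ n - 2) (hc0 : 0 ≤ c) (hc : c ≤ d - 2)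
    (ht : t = (n ^ 2 - (n - 1) * F) / (n - 2)) (hT : T ≤ (d - 2) * t) (hS : S ≤ T)
    (hU : 4 * E ≤ U) (hE : d = 3 → 8 * E ≤ 1) (hΦ : (n ^ 2 - S) * c / (n * (n + c)) ≤ Φ) :
    E ≤ F * (d - 2) * (n - d) / (2 * n * d) + (n - d) / (n * d) * ((d - 2) * t - T) + Φ
      - ((d - 1) * F + (d - 2) * t - T) * c / (d * (d + c)) + U * (1 / (d + c) - 1 / n) := by
  subst hn
  replace hF : F ≤ 14 / 3 := by linarith
  rcases hd with rfl | rfl
  · obtain rfl : c = 0 := by linarith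
    norm_num at *
    linarith
  have hE := hE rfl
  have h1 : (16 - t) * c / (4 * (4 + c)) ≤ Φ := le_trans (div_le_div_of_nonneg_right
    (mul_le_mul_of_nonneg_right (by linarith) hc0) (by positivity)) hΦ
  have h2 : 0 ≤ (t - T) * (1 - c) / (4 * (3 + c)) :=
    div_nonneg (mul_nonneg (by linarith) (by linarith)) (by positivity)
  have h3 : 0 ≤ (U - 4 * E) * (1 - c) / (4 * (3 + c)) :=
    div_nonneg (mul_nonneg (by linarith) (by linarith)) (by positivity)
  have h4 : 0 ≤ (1 - 8 * E) * (1 + c) / (4 * (3 + c)) :=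
    div_nonneg (mul_nonneg (by linarith) (by linarith)) (by positivity)
  have h5 : 0 ≤ (F * (12 - 30 * c - 6 * c ^ 2) + 24 * (-1 + 19 * c / 4 + 7 * c ^ 2 / 4))
      / (24 * (3 + c) * (4 + c)) := by
    refine div_nonneg ?_ (by positivity)
    have := mul_nonneg (sub_nonneg.2 hF) (by positivity : 0 ≤ 54 * c + 30 * c ^ 2)
    have := mul_nonneg (sub_nonneg.2 hF0) (by nlinarith : 0 ≤ 32 - 26 * c + 14 * c ^ 2)
    linarith
  refine sub_nonneg.1 ((add_nonneg (add_nonneg (add_nonneg (add_nonneg (sub_nonneg.2 h1) h2) h3)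
    h4) h5).trans_eq ?_)
  rw [ht]
  field_simp
  ring

end Pool.Agent.Lib.MP_f225de_an.Sk
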