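import Pool.Agent.Lib.MP_f225de_an.Sk0

set_option autoImplicit false

open Finset Function
open scoped Real

namespace Pool.Agent.Lib.MP_f225de_an.Sk

lemma inv_ind {α : Type} [DecidableEq α] {b : α → α} (hb : Involutive b) (hne : ∀ x, b x ≠ x)
    {p : Finset α → Prop} (h0 : p ∅)
    (hs : ∀ s x, x ∉ s → b x ∉ s → p s → p (insert x (insert (b x) s))) (s : Finset α) :
    (∀ y ∈ s, b y ∈ s) → p s := by
  induction s using Finset.strongInduction with
  | H s ih =>
    intro h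
    rcases s.eq_empty_or_nonempty with rfl | ⟨x, hx⟩
    · exact h0
    have h1 : b x ∈ s.erase x := mem_erase.2 ⟨hne x, h x hx⟩
    have := hs ((s.erase x).erase (b x)) x (by simp) (by simp)
      (ih _ ((erase_subset _ _).trans_ssubset (erase_ssubset hx)) fun y hy => by
        simp only [mem_erase] at hy ⊢
        exact ⟨fun e => hy.2.1 (hb.injective e), fun e => hy.1 (by rw [← e, hb y]), h y hy.2.2⟩)
    rwa [insert_erase h1, insert_erase hx] at this

lemma inv_even {α : Type} [DecidableEq α] {b : α → α} (hb : Involutive b) (hne : ∀ x, b x ≠ x)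
    (s : Finset α) (h : ∀ y ∈ s, b y ∈ s) : Even s.card := by
  refine inv_ind hb hne (p := fun s => Even s.card) (by simp) (fun s x h1 h2 h3 => ?_) s h
  rw [card_insert_of_notMem (by simp [h1, (hne x).symm]), card_insert_of_notMem h2]
  exact h3.add even_two

lemma edges_ge {V H : Type} [DecidableEq V] [DecidableEq H] (W : Finset V) (E : Finset H)
    (a : H → V) {b : H → H} (hb : Involutive b) (hE : ∀ h ∈ E, b h ∈ E) (r : V)
    (hc : ∀ S : Finset V, r ∈ S → (∀ h ∈ E, a (b h) ∈ S → a h ∈ S) → W ⊆ S) :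
    2 * W.card ≤ E.card + 2 := by
  have key : ∀ k, k + 1 ≤ W.card → ∃ S : Finset V, r ∈ S ∧ S.card = k + 1 ∧
      2 * k ≤ (E.filter fun h => a h ∈ S ∧ a (b h) ∈ S).card := by
    intro k
    induction k with
    | zero => exact fun _ => ⟨{r}, by simp, by simp, by simp⟩
    | succ k ih =>
      intro hk
      obtain ⟨S, h1, h2, h3⟩ := ih (by omega)
      have : ¬ ∀ h ∈ E, a (b h) ∈ S → a h ∈ S := fun h => by
        have := card_le_card (hc S h1 h)
        omega
      push Not at this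
      obtain ⟨h, h4, h5, h6⟩ := this
      refine ⟨insert (a h) S, mem_insert_of_mem h1, by rw [card_insert_of_notMem h6, h2], ?_⟩
      have hsub : insert h (insert (b h) (E.filter fun h => a h ∈ S ∧ a (b h) ∈ S)) ⊆
          E.filter fun g => a g ∈ insert (a h) S ∧ a (b g) ∈ insert (a h) S := by
        intro g hg
        simp only [mem_insert, mem_filter] at hg ⊢
        rcases hg with rfl | rfl | hg
        · exact ⟨h4, Or.inl rfl, Or.inr h5⟩
        · exact ⟨hE h h4, Or.inr h5, Or.inl (by rw [hb h])⟩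
        · exact ⟨hg.1, Or.inr hg.2.1, Or.inr hg.2.2⟩
      have := card_le_card hsub
      rw [card_insert_of_notMem, card_insert_of_notMem] at this
      · omega
      · simp [hb h, h6]
      · simp only [mem_insert, mem_filter, h6, false_and, and_false, or_false]
        exact fun e => h6 (e ▸ h5)
  rcases Nat.eq_zero_or_pos W.card with h | h
  · omega
  obtain ⟨S, -, -, h3⟩ := key (W.card - 1) (by omega)
  have := h3.trans (card_filter_le _ _)
  omega

namespace Cmb

variable {n : ℕ} (c : Cmb n)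

lemma ex_top (j : Fin n) : ∃ g, c.pt g = j ∧ ∀ h, c.pt h = j → c.sig h ≤ c.sig g := by
  have : (univ.filter fun h => c.pt h = j).Nonempty := by
    by_contra h
    have := c.sum_sig j
    rw [not_nonempty_iff_eq_empty.1 h, sum_empty] at this
    linarith [Real.pi_pos]
  obtain ⟨g, h1, h2⟩ := exists_max_image _ c.sig this
  exact ⟨g, by simpa using h1, fun h hh => h2 h (by simpa using hh)⟩

/-- a half of a longest arc of the petal -/
noncomputable def top (j : Fin n) : c.H := (c.ex_top j).choose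

lemma pt_top (j : Fin n) : c.pt (c.top j) = j := (c.ex_top j).choose_spec.1

lemma le_top (h : c.H) : c.sig h ≤ c.sig (c.top (c.pt h)) := (c.ex_top _).choose_spec.2 h rfl

/-- the chosen longest arcs -/
def Lg (h : c.H) : Prop := h = c.top (c.pt h) ∨ h = c.bis (c.top (c.pt h))

noncomputable instance : DecidablePred c.Lg := fun _ => Classical.dec _

lemma lg_bis {h : c.H} : c.Lg (c.bis h) ↔ c.Lg h := by
  unfold Lg
  rw [c.pt_bis, c.bis_inv.injective.eq_iff, c.bis_inv.eq_iff, or_comm, eq_comm, eq_comm (a := h)]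

lemma lg_two {h g : c.H} (h1 : c.Lg h) (h2 : c.Lg g) (e : c.pt h = c.pt g) :
    g = h ∨ g = c.bis h := by
  unfold Lg at h1 h2
  rw [← e] at h2
  generalize c.top (c.pt h) = t at h1 h2
  rcases h1 with rfl | rfl <;> rcases h2 with rfl | rfl <;> simp [c.bis_inv _]

lemma lg_fib (j : Fin n) : (univ.filter fun h => c.Lg h ∧ c.pt h = j)
    = {c.top j, c.bis (c.top j)} := by
  ext h
  simp only [mem_filter, mem_univ, true_and, mem_insert, mem_singleton]
  constructor
  · rintro ⟨h1, rfl⟩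
    exact h1
  · rintro (rfl | rfl) <;> simp [Lg, c.pt_bis, c.pt_top]

lemma sum_lg (f : ℝ → ℝ) :
    ∑ h with c.Lg h, f (c.sig h) = ∑ j, 2 * f (c.sig (c.top j)) := by
  rw [← sum_fiberwise (s := univ.filter c.Lg) (g := c.pt)]
  refine sum_congr rfl fun j _ => ?_
  rw [filter_filter, c.lg_fib, sum_pair (c.bis_ne _).symm, c.sig_bis, two_mul]

lemma sum_sh (j : Fin n) :
    ∑ h with ¬ c.Lg h ∧ c.pt h = j, c.sig h = 2 * (π - c.sig (c.top j)) := by
  have := c.sum_sig j
  rw [← sum_filter_add_sum_filter_not _ c.Lg, filter_filter, filter_filter] at this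
  simp only [and_comm (a := c.pt _ = j)] at this
  rw [c.lg_fib, sum_pair (c.bis_ne _).symm, c.sig_bis] at this
  linarith

lemma pair_le {s : Finset c.H} {f : c.H → ℝ} {h : c.H} (h1 : h ∈ s) (h2 : c.bis h ∈ s)
    (hf : ∀ g ∈ s, 0 ≤ f g) : f h + f (c.bis h) ≤ ∑ g ∈ s, f g := by
  rw [← sum_pair (c.bis_ne h).symm]
  exact sum_le_sum_of_subset_of_nonneg (by simp [insert_subset_iff, h1, h2])
    fun g hg _ => hf g hg

lemma sh_le {h : c.H} (hh : ¬ c.Lg h) : c.sig h ∈ Set.Ioc 0 (π / 2) := by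
  have := c.pair_le (s := univ.filter fun g => ¬ c.Lg g ∧ c.pt g = c.pt h) (f := c.sig) (h := h)
    (by simp [hh]) (by simp [c.lg_bis, hh, c.pt_bis]) fun g _ => (c.sig_pos g).le
  rw [c.sum_sh, c.sig_bis] at this
  exact ⟨c.sig_pos h, by linarith [c.le_top h]⟩

lemma card_cells (C : Finset (Fin (n - 1))) : (c.cells C).card = 4 * C.card := by
  rw [card_eq_sum_card_fiberwise (f := c.nd) (t := C) (fun h hh => by simpa [cells] using hh),
    sum_congr rfl (g := fun _ => 4), sum_const, smul_eq_mul, mul_comm]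
  intro k hk
  rw [← c.card_nd k]
  congr 1
  ext h
  simp only [cells, mem_filter, mem_univ, true_and]
  exact ⟨fun h => h.2, fun h => ⟨h ▸ hk, h⟩⟩

lemma card_sh : (univ.filter fun h => ¬ c.Lg h).card + 2 * n = 4 * (n - 1) := by
  have h1 := c.sum_lg fun _ => 1
  have h2 := c.card_cells univ
  have h3 := card_filter_add_card_filter_not (s := univ) c.Lg
  simp only [cells, mem_univ, filter_true, card_univ, Fintype.card_fin, sum_const, nsmul_eq_mul,
    mul_one] at h1 h2 h3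
  have : (univ.filter c.Lg).card = n * 2 := by exact_mod_cast h1
  omega

/-- short arcs that are merged at level `y` -/
def Mg (y : ℝ) (h : c.H) : Prop := ¬ c.Lg h ∧ Real.log (Real.sin (c.sig h)) ≤ y

noncomputable instance (y : ℝ) : DecidablePred (c.Mg y) := fun _ => Classical.dec _

lemma mg_bis {y : ℝ} {h : c.H} : c.Mg y (c.bis h) ↔ c.Mg y h := by
  rw [Mg, Mg, c.lg_bis, c.sig_bis]

open Classical in
/-- the class of a node at level `y` -/
noncomputable def cls (y : ℝ) (k : Fin (n - 1)) : Finset (Fin (n - 1)) :=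
  univ.filter (Relation.EqvGen (fun a b => ∃ h, c.Mg y h ∧ c.nd h = a ∧ c.nd (c.bis h) = b) k)

lemma mem_cls (y : ℝ) (k : Fin (n - 1)) : k ∈ c.cls y k := by
  simp [cls, Relation.EqvGen.refl]

lemma cls_eq {y : ℝ} {k l : Fin (n - 1)} (h : l ∈ c.cls y k) : c.cls y l = c.cls y k := by
  simp only [cls, mem_filter, mem_univ, true_and] at h
  ext m
  simp only [cls, mem_filter, mem_univ, true_and]
  exact ⟨h.trans _ _ _, (h.symm _ _).trans _ _ _⟩

lemma cls_mg {y : ℝ} {k : Fin (n - 1)} {h : c.H} (h1 : c.Mg y h) (h2 : c.nd h ∈ c.cls y k) :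
    c.nd (c.bis h) ∈ c.cls y k := by
  simp only [cls, mem_filter, mem_univ, true_and] at h2 ⊢
  exact h2.trans _ _ _ (.rel _ _ ⟨h, h1, rfl, rfl⟩)

lemma cls_min {y : ℝ} {k : Fin (n - 1)} {S : Finset (Fin (n - 1))} (h1 : k ∈ S)
    (h2 : ∀ h, c.Mg y h → c.nd h ∈ S → c.nd (c.bis h) ∈ S) : c.cls y k ⊆ S := by
  intro l hl
  simp only [cls, mem_filter, mem_univ, true_and] at hl
  refine (?_ : k ∈ S ↔ l ∈ S).1 h1
  clear h1
  induction hl with
  | rel a b h =>
    obtain ⟨h, h3, rfl, rfl⟩ := h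
    exact ⟨h2 h h3, fun h4 => by simpa [c.bis_inv h] using h2 _ (c.mg_bis.2 h3) h4⟩
  | refl => rfl
  | symm _ _ _ h => exact h.symm
  | trans _ _ _ _ _ h h' => exact h.trans h'

lemma cls_mono {y z : ℝ} (h : ∀ g, c.Mg y g → c.Mg z g) (k : Fin (n - 1)) :
    c.cls y k ⊆ c.cls z k :=
  c.cls_min (c.mem_cls z k) fun g h1 h2 => c.cls_mg (h g h1) h2

lemma mg_of {y : ℝ} {h : c.H} (hh : ¬ c.Lg h) :
    c.Mg y h ↔ Real.sin (c.sig h) ≤ Real.exp y := by
  have := c.sh_le hh
  rw [Mg, Real.log_le_iff_le_exp (Real.sin_pos_of_pos_of_lt_pi this.1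
    (by linarith [this.2, Real.pi_pos])), and_iff_right hh]

lemma cls_univ {y : ℝ} (hy : 0 ≤ y) (k : Fin (n - 1)) : c.cls y k = univ := by
  have := c.conn c.Lg (fun _ _ => c.lg_two) (c.cls y k) ⟨k, c.mem_cls y k⟩ fun h h1 h2 =>
    c.cls_mg ((c.mg_of h1).2 ((Real.sin_le_one _).trans (Real.one_le_exp hy))) h2
  exact eq_univ_of_forall fun l => (this ▸ Set.mem_univ l : l ∈ (c.cls y k : Set _))

lemma lg_cls {y : ℝ} {k : Fin (n - 1)} {h : c.H} (hl : c.Lg h) (h1 : c.nd h ∈ c.cls y k)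
    (h2 : ∀ g, ¬ c.Lg g → c.pt g = c.pt h → c.Mg y g) : c.nd (c.bis h) ∈ c.cls y k := by
  by_contra h3
  have e1 := inv_even c.rad_inv c.rad_ne
    (univ.filter fun g => c.pt g = c.pt h ∧ c.nd g ∈ c.cls y k)
    (by simp [c.pt_rad, c.nd_rad])
  have e2 := inv_even c.bis_inv c.bis_ne
    ((univ.filter fun g => c.pt g = c.pt h ∧ c.nd g ∈ c.cls y k).erase h) fun g hg => by
      simp only [mem_erase, mem_filter, mem_univ, true_and] at hg ⊢
      have hb : c.bis g ≠ h := fun e => h3 (by rw [← e, c.bis_inv g]; exact hg.2.2)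
      have hs : ¬ c.Lg g := fun l => (c.lg_two hl l hg.2.1.symm).elim hg.1
        fun e => hb (by rw [e, c.bis_inv h])
      exact ⟨hb, by rw [c.pt_bis, hg.2.1], c.cls_mg (h2 g hs hg.2.1) hg.2.2⟩
  rw [← card_erase_add_one (a := h) (by simp [h1]), Nat.even_add_one] at e1
  exact e1 e2

lemma sig_lg {h : c.H} (hl : c.Lg h) : c.sig (c.top (c.pt h)) = c.sig h := by
  rcases hl with e | e
  · rw [← e]
  · rw [← c.sig_bis, ← e]

lemma cls_closed (y : ℝ) (k : Fin (n - 1)) : c.Closed (c.cls y k) y := by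
  intro h h1 h2
  rcases h2 with h2 | h2
  swap
  · rw [c.cls_univ h2]
    exact mem_univ _
  by_cases hl : c.Lg h
  · exact c.lg_cls hl h1 fun g hs e => (c.mg_of hs).2 (le_trans
      (Real.sin_le_sin_of_le_of_le_pi_div_two (by linarith [c.sig_pos g, Real.pi_pos]) h2.1
        (by rw [← c.sig_lg hl, ← e]; exact c.le_top g)) h2.2)
  · exact c.cls_mg ((c.mg_of hl).2 h2.2) h1

lemma card_in {C : Finset (Fin (n - 1))} {k : Fin (n - 1)} (hk : k ∈ C) {E : Finset c.H}
    (h1 : ∀ h ∈ E, ¬ c.Lg h ∧ c.nd h ∈ C ∧ c.bis h ∈ E) : E.card + 2 ≤ 2 * C.card := by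
  have hE : ∀ h ∈ (univ.filter fun h => ¬ c.Lg h) \ E,
      c.bis h ∈ (univ.filter fun h => ¬ c.Lg h) \ E :=
    fun h hh => mem_sdiff.2 ⟨by simpa [c.lg_bis] using (mem_sdiff.1 hh).1,
      fun e => (mem_sdiff.1 hh).2 (c.bis_inv h ▸ (h1 _ e).2.2)⟩
  have h2 := edges_ge (insert k Cᶜ) _
    (fun h => if c.nd h ∈ C then k else c.nd h) c.bis_inv hE k fun S h3 h2 => by
      have := c.conn c.Lg (fun _ _ => c.lg_two) {v | (if v ∈ C then k else v) ∈ S}
        ⟨k, by simp [hk, h3]⟩ fun h h4 h5 => by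
          by_cases h6 : h ∈ E
          · simp [(h1 _ (h1 h h6).2.2).2.1, h3]
          · exact h2 _ (hE h (mem_sdiff.2 ⟨by simpa using h4, h6⟩)) (by rw [c.bis_inv h]; exact h5)
      refine insert_subset h3 fun v hv => ?_
      have h6 : v ∈ {v | (if v ∈ C then k else v) ∈ S} := this ▸ Set.mem_univ v
      simpa [mem_compl.1 hv] using h6
  have h5 : E ⊆ univ.filter fun h => ¬ c.Lg h := fun h hh => by simpa using (h1 h hh).1
  rw [card_insert_of_notMem (by simp [hk]), card_compl, Fintype.card_fin,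
    card_sdiff_of_subset h5] at h2
  have h3 := c.card_sh
  have h6 := card_pos.2 ⟨k, hk⟩
  have h4 : C.card ≤ n - 1 := by simpa using card_le_univ C
  have := card_le_card h5
  omega

lemma bis_mem {y : ℝ} {k : Fin (n - 1)} {h : c.H}
    (hh : h ∈ (c.cells (c.cls y k)).filter (c.Mg y)) :
    c.bis h ∈ (c.cells (c.cls y k)).filter (c.Mg y) := by
  simp only [cells, mem_filter, mem_univ, true_and] at hh ⊢
  exact ⟨c.cls_mg hh.2 hh.1, c.mg_bis.2 hh.2⟩

lemma card_mg (y : ℝ) (k : Fin (n - 1)) :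
    ((c.cells (c.cls y k)).filter (c.Mg y)).card + 2 = 2 * (c.cls y k).card := by
  have hM : ∀ h, h ∈ (c.cells (c.cls y k)).filter (c.Mg y) ↔ c.nd h ∈ c.cls y k ∧ c.Mg y h := by
    simp [cells]
  have h1 := edges_ge (c.cls y k) ((c.cells (c.cls y k)).filter (c.Mg y)) c.nd c.bis_inv
    (fun h => c.bis_mem) k fun S h1 h2 =>
      (c.cls_min (S := S ∩ c.cls y k) (mem_inter.2 ⟨h1, c.mem_cls y k⟩) fun h h3 h4 => by
        have h5 := c.cls_mg h3 (mem_inter.1 h4).2
        exact mem_inter.2 ⟨h2 _ ((hM _).2 ⟨h5, c.mg_bis.2 h3⟩)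
          (by rw [c.bis_inv h]; exact (mem_inter.1 h4).1), h5⟩).trans inter_subset_left
  exact le_antisymm (c.card_in (c.mem_cls y k) fun h hh =>
    ⟨((hM h).1 hh).2.1, ((hM h).1 hh).1, c.bis_mem hh⟩) h1

lemma cov_mem {y : ℝ} {k : Fin (n - 1)} {h : c.H} (hl : c.Lg h) (h1 : c.nd h ∈ c.cls y k)
    (h2 : ∀ g, ¬ c.Lg g → c.pt g = c.pt h → c.Mg y g) {g : c.H} (hg : c.pt g = c.pt h) :
    c.nd g ∈ c.cls y k := by
  by_contra h3
  have h4 := c.card_in (E := univ.filter fun f => c.pt f = c.pt h ∧ c.nd f ∉ c.cls y k)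
    (mem_image_of_mem c.nd (s := univ.filter fun f => c.pt f = c.pt h ∧ c.nd f ∉ c.cls y k)
      (a := g) (by simp [hg, h3])) fun f hf => by
      have hf' := (mem_filter.1 hf).2
      have hs : ¬ c.Lg f := fun l => hf'.2 ((c.lg_two hl l hf'.1.symm).elim (fun e => e ▸ h1)
        fun e => e ▸ c.lg_cls hl h1 h2)
      exact ⟨hs, mem_image_of_mem _ hf, mem_filter.2 ⟨mem_univ _, by rw [c.pt_bis, hf'.1],
        fun e => hf'.2 (c.bis_inv f ▸ c.cls_mg (c.mg_bis.2 (h2 f hs hf'.1)) e)⟩⟩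
  have h5 := mul_card_image_le_card (f := c.nd)
    (univ.filter fun f => c.pt f = c.pt h ∧ c.nd f ∉ c.cls y k) 2 fun b hb => by
      obtain ⟨f, hf, rfl⟩ := mem_image.1 hb
      exact one_lt_card.2 ⟨f, by simpa using hf, c.rad f,
        by simpa [c.pt_rad, c.nd_rad] using hf, (c.rad_ne f).symm⟩
  omega

lemma card_open (y : ℝ) (k : Fin (n - 1)) :
    (univ.filter fun h => ¬ c.Lg h ∧ ¬ c.Mg y h).card + 2 * ((c.cls y k).card + 1) ≤ 2 * n := by
  have h2 := c.card_mg y k
  have h3 := c.card_sh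
  have h4 : (univ.filter fun h => ¬ c.Lg h ∧ ¬ c.Mg y h).card
      + ((c.cells (c.cls y k)).filter (c.Mg y)).card ≤ (univ.filter fun h => ¬ c.Lg h).card := by
    rw [← card_union_of_disjoint (by simp +contextual [disjoint_left])]
    exact card_le_card (union_subset (fun h e => by simpa using (mem_filter.1 e).2.1)
      fun h e => by simpa using (mem_filter.1 e).2.1)
  have := k.2
  omega

lemma open_sh (y : ℝ) (k : Fin (n - 1)) :
    (((c.cells (c.cls y k)).filter fun h => ¬ c.Mg y h).filter fun h => ¬ c.Lg h).card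
      + ((c.cls y k).card + 1) ≤ n := by
  set O := ((c.cells (c.cls y k)).filter fun h => ¬ c.Mg y h).filter fun h => ¬ c.Lg h with hO
  have h0 : ∀ h, h ∈ O ↔ (c.nd h ∈ c.cls y k ∧ ¬ c.Mg y h) ∧ ¬ c.Lg h := by simp [hO, cells]
  have h1 : Disjoint O (O.image c.bis) := disjoint_left.2 fun h e e' => by
    obtain ⟨g, hg, rfl⟩ := mem_image.1 e'
    have := c.card_in (c.mem_cls y k) (E := insert g (insert (c.bis g)
      ((c.cells (c.cls y k)).filter (c.Mg y)))) fun f hf => by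
        simp only [mem_insert] at hf ⊢
        rcases hf with rfl | rfl | hf
        · exact ⟨((h0 _).1 hg).2, ((h0 _).1 hg).1.1, Or.inr (Or.inl rfl)⟩
        · exact ⟨((h0 _).1 e).2, ((h0 _).1 e).1.1, Or.inl (c.bis_inv g)⟩
        · exact ⟨(mem_filter.1 hf).2.1, by simpa [cells] using (mem_filter.1 hf).1,
            Or.inr (Or.inr (c.bis_mem hf))⟩
    rw [card_insert_of_notMem (by simp [(c.bis_ne g).symm, ((h0 _).1 hg).1.2]),
      card_insert_of_notMem (by simp [((h0 _).1 e).1.2]), ← c.card_mg y k] at this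
    omega
  have h2 := card_le_card (s := O ∪ O.image c.bis)
    (t := univ.filter fun h => ¬ c.Lg h ∧ ¬ c.Mg y h) (union_subset
      (fun h e => by simp [((h0 h).1 e).1.2, ((h0 h).1 e).2]) fun h e => by
        obtain ⟨g, hg, rfl⟩ := mem_image.1 e
        simp [c.lg_bis, c.mg_bis, ((h0 g).1 hg).1.2, ((h0 g).1 hg).2])
  rw [card_union_of_disjoint h1, card_image_of_injective _ c.bis_inv.injective] at h2
  have := c.card_open y k
  omega

lemma open_lg (y : ℝ) (k : Fin (n - 1)) {W : Finset c.H}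
    (hW : ∀ h ∈ W, c.Lg h ∧ ∃ g, ¬ c.Lg g ∧ c.pt g = c.pt h ∧ ¬ c.Mg y g) :
    W.card + 2 * ((c.cls y k).card + 1) ≤ 2 * n := by
  have h1 := card_le_mul_card_image (f := c.pt) W 2 fun j _ => (card_le_card (t :=
    univ.filter fun h => c.Lg h ∧ c.pt h = j) fun h e => by
      simp [(hW h (mem_filter.1 e).1).1, (mem_filter.1 e).2]).trans (c.lg_fib j ▸ card_le_two)
  have h2 := mul_card_image_le_card (f := c.pt)
    (univ.filter fun h => ¬ c.Lg h ∧ ¬ c.Mg y h) 2 fun b hb => by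
      obtain ⟨f, hf, rfl⟩ := mem_image.1 hb
      exact one_lt_card.2 ⟨f, by simpa using hf, c.bis f,
        by simpa [c.pt_bis, c.lg_bis, c.mg_bis] using hf, (c.bis_ne f).symm⟩
  have h3 := card_le_card (s := W.image c.pt)
    (t := (univ.filter fun h => ¬ c.Lg h ∧ ¬ c.Mg y h).image c.pt) fun j hj => by
      obtain ⟨h, hh, rfl⟩ := mem_image.1 hj
      obtain ⟨g, e1, e2, e3⟩ := (hW h hh).2
      exact mem_image.2 ⟨g, by simp [e1, e3], e2⟩
  have := c.card_open y k
  omega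

lemma lg_mem (hn : 2 ≤ n) {h : c.H} (hl : c.Lg h) : c.sig h ∈ Set.Icc (π / (n - 1)) π := by
  have h1 := sum_le_card_nsmul (univ.filter fun g => ¬ c.Lg g ∧ c.pt g = c.pt h) c.sig (c.sig h)
    fun g hg => by rw [← c.sig_lg hl, ← (mem_filter.1 hg).2.2]; exact c.le_top g
  have h2 := card_le_card (s := univ.filter fun g => ¬ c.Lg g ∧ c.pt g = c.pt h)
    (t := univ.filter fun g => ¬ c.Lg g) fun g hg => by simpa using (mem_filter.1 hg).2.1
  have h3 := c.card_sh
  have h4 : ((univ.filter fun g => ¬ c.Lg g ∧ c.pt g = c.pt h).card : ℝ) + 4 ≤ 2 * n := by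
    exact_mod_cast (by omega)
  have n2 : (2 : ℝ) ≤ n := by exact_mod_cast hn
  rw [c.sum_sh, c.sig_lg hl, nsmul_eq_mul] at h1
  exact ⟨(div_le_iff₀ (by linarith)).2 (by nlinarith [c.sig_pos h]), c.sig_le h⟩

end Cmb

end Pool.Agent.Lib.MP_f225de_an.Sk
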