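import Pool.Agent.Lib.MP_f225de_an.N0
import Pool.Agent.Lib.MP_f225de_an.N2

set_option autoImplicit false

open Finset Real MeasureTheory

namespace Pool.Agent.Lib.MP_f225de_an.Sk

lemma lam_le_of {s y a b : ℝ} (ha : 0 ≤ a) (hb : 0 ≤ b)
    (h : Arc s (exp y) ⊆ Set.Ioo 0 a ∪ Set.Ioo (π - b) π) : lam s y ≤ (a + b) / (2 * π) := by
  refine div_le_div_of_nonneg_right (ENNReal.toReal_le_of_le_ofReal (by positivity) ?_)
    (by positivity)
  refine (measure_mono h).trans ((measure_union_le _ _).trans ?_)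
  simp [ENNReal.ofReal_add ha hb]

lemma lam_half (s y : ℝ) : lam s y ≤ 1 / 2 := by
  refine (lam_le_of pi_pos.le le_rfl fun ψ h => Or.inl h.1).trans_eq ?_
  field_simp
  ring

lemma arc_sub {s r ψ : ℝ} (hr : 0 < r) (h0 : 0 ≤ sin s) (h : sin s ≤ r) (hψ : ψ ∈ Arc s r) :
    ψ < s + arcsin (sin s / r) ∨ π + s - arcsin (sin s / r) < ψ := by
  by_contra h1
  push Not at h1
  have h2 : 0 ≤ sin s / r := by positivity
  have h3 := arcsin_nonneg.2 h2
  have h4 : sin (arcsin (sin s / r)) ≤ sin (ψ - s) := by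
    rcases le_total (ψ - s) (π / 2) with h5 | h5
    · exact sin_le_sin_of_le_of_le_pi_div_two (by linarith [pi_pos]) h5 (by linarith)
    · rw [← sin_pi_sub (ψ - s)]
      exact sin_le_sin_of_le_of_le_pi_div_two (by linarith [pi_pos]) (by linarith) (by linarith)
  rw [sin_arcsin (by linarith) ((div_le_one hr).2 h), div_le_iff₀ hr] at h4
  linarith [hψ.2]

lemma cor_nonneg {s : ℝ} (hs : s ∈ Set.Ioc 0 π) (y : ℝ) : 0 ≤ cor s y :=
  mul_nonneg (by positivity) (arcsin_nonneg.2
    (div_nonneg (sin_nonneg_of_nonneg_of_le_pi hs.1.le hs.2) (exp_pos y).le))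

lemma cor_le (s y : ℝ) : cor s y ≤ 1 := by
  refine (mul_le_mul_of_nonneg_left (arcsin_le_pi_div_two _) (by positivity)).trans_eq ?_
  field_simp

lemma cor_cont (s : ℝ) : Continuous (cor s) :=
  continuous_const.mul (continuous_arcsin.comp
    (continuous_const.div continuous_exp fun y => (exp_pos y).ne'))

lemma lam_in {s y : ℝ} (hs : s ∈ Set.Ioc 0 (π / 2)) (hy : y ≤ 0) (h : sin s ≤ exp y) :
    lam s y ≤ cor s y / 2 := by
  have h0 := sin_nonneg_of_nonneg_of_le_pi hs.1.le (by linarith [hs.2, pi_pos])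
  have h1 : s ≤ arcsin (sin s / exp y) := by
    refine (arcsin_sin (by linarith [hs.1, pi_pos]) hs.2).ge.trans (arcsin_le_arcsin ?_)
    exact le_div_self h0 (exp_pos y) (exp_le_one_iff.2 hy)
  refine (lam_le_of (a := s + arcsin (sin s / exp y)) (b := arcsin (sin s / exp y) - s)
    (by linarith [hs.1]) (by linarith) fun ψ hψ => (arc_sub (exp_pos y) h0 h hψ).imp
      (fun e => ⟨hψ.1.1, e⟩) fun e => ⟨by linarith, hψ.1.2⟩).trans_eq ?_
  unfold cor
  field_simp
  ring

lemma lam_out {s y : ℝ} (hs : s ∈ Set.Ioc 0 π) (hy : 0 ≤ y) :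
    lam s y ≤ s / (2 * π) + cor s y / 4 := by
  have h0 := sin_nonneg_of_nonneg_of_le_pi hs.1.le hs.2
  have h1 : arcsin (sin s / exp y) ≤ s := by
    rcases le_total s (π / 2) with h | h
    · refine (arcsin_le_arcsin (div_le_self h0 (one_le_exp hy))).trans_eq ?_
      exact arcsin_sin (by linarith [hs.1, pi_pos]) h
    · exact (arcsin_le_pi_div_two _).trans h
  have h2 := arcsin_nonneg.2 (div_nonneg h0 (exp_pos y).le)
  refine (lam_le_of (a := s + arcsin (sin s / exp y)) (b := 0) (by linarith [hs.1]) le_rfl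
    fun ψ hψ => Or.inl ⟨hψ.1.1, (arc_sub (exp_pos y) h0 ((sin_le_one s).trans (one_le_exp hy))
      hψ).resolve_right (by linarith [hψ.1.2])⟩).trans_eq ?_
  unfold cor
  field_simp
  ring

lemma cor_add {x z y : ℝ} (hx : 0 ≤ sin x) (hz : 0 ≤ sin z) (hy : 0 ≤ y) :
    cor (x + z) y ≤ cor x y + cor z y := by
  have hr := one_le_exp hy
  have r0 := exp_pos y
  have key : ∀ t, 0 ≤ sin t → sin (arcsin (sin t / exp y)) = sin t / exp y ∧
      cos t ≤ cos (arcsin (sin t / exp y)) := fun t ht => by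
    have h1 : 0 ≤ sin t / exp y := by positivity
    have h2 : sin t / exp y ≤ sin t := div_le_self ht hr
    refine ⟨sin_arcsin (by linarith) (h2.trans (sin_le_one t)), ?_⟩
    rw [cos_arcsin]
    exact le_sqrt_of_sq_le (by nlinarith [sin_sq_add_cos_sq t])
  unfold cor
  rw [← mul_add]
  refine mul_le_mul_of_nonneg_left ?_ (by positivity)
  rcases le_total (π / 2) (arcsin (sin x / exp y) + arcsin (sin z / exp y)) with h | h
  · exact (arcsin_le_pi_div_two _).trans h
  have h1 := arcsin_nonneg.2 (div_nonneg hx r0.le)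
  have h2 := arcsin_nonneg.2 (div_nonneg hz r0.le)
  refine (arcsin_le_arcsin ?_).trans_eq (arcsin_sin (by linarith [pi_pos]) h)
  rw [sin_add, sin_add, (key x hx).1, (key z hz).1, add_div, mul_div_right_comm, mul_div_assoc]
  exact add_le_add (mul_le_mul_of_nonneg_left (key z hz).2 (by positivity))
    (mul_le_mul_of_nonneg_right (key x hx).2 (by positivity))

namespace Cmb

variable {n : ℕ} (c : Cmb n)

lemma sig_mem (h : c.H) : c.sig h ∈ Set.Ioc 0 π := ⟨c.sig_pos h, c.sig_le h⟩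

lemma cor_top (j : Fin n) {y : ℝ} (hy : 0 ≤ y) :
    2 * cor (c.sig (c.top j)) y ≤ ∑ h with ¬ c.Lg h ∧ c.pt h = j, cor (c.sig h) y := by
  have := inv_ind c.bis_inv c.bis_ne (p := fun s => (∑ h ∈ s, c.sig h) / 2 ≤ π →
      2 * cor ((∑ h ∈ s, c.sig h) / 2) y ≤ ∑ h ∈ s, cor (c.sig h) y) (by simp [cor])
    (fun s x h1 h2 h3 => by
      have hx : x ∉ insert (c.bis x) s := by simp [h1, (c.bis_ne x).symm]
      rw [sum_insert hx, sum_insert h2, sum_insert hx, sum_insert h2, c.sig_bis]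
      intro h4
      have h5 : 0 ≤ ∑ h ∈ s, c.sig h := sum_nonneg fun h _ => (c.sig_pos h).le
      have h6 : (∑ h ∈ s, c.sig h) / 2 ≤ π := by linarith [c.sig_pos x]
      have := cor_add (sin_nonneg_of_nonneg_of_le_pi (c.sig_pos x).le (c.sig_le x))
        (sin_nonneg_of_nonneg_of_le_pi (by positivity) h6) hy
      rw [show (c.sig x + (c.sig x + ∑ h ∈ s, c.sig h)) / 2 = c.sig x + (∑ h ∈ s, c.sig h) / 2 by
        ring]
      linarith [h3 h6])
    (univ.filter fun h => ¬ c.Lg h ∧ c.pt h = j) (by simp [c.lg_bis, c.pt_bis])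
  rw [c.sum_sh, mul_div_cancel_left₀ _ two_ne_zero] at this
  simpa [cor] using this (by linarith [c.sig_pos (c.top j)])

lemma sum_sh_fib (f : c.H → ℝ) :
    ∑ h with ¬ c.Lg h, f h = ∑ j, ∑ h with ¬ c.Lg h ∧ c.pt h = j, f h := by
  rw [← sum_fiberwise (s := univ.filter fun h => ¬ c.Lg h) (g := c.pt)]
  simp only [filter_filter]

lemma mg_univ {y : ℝ} {k : Fin (n - 1)} (hn : 2 ≤ n) (h : (c.cls y k).card + 1 = n) :
    (c.cells (c.cls y k)).filter (c.Mg y) = univ.filter fun h => ¬ c.Lg h := by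
  refine eq_of_subset_of_card_le (fun g hg => by simpa using (mem_filter.1 hg).2.1) ?_
  have := c.card_mg y k
  have := c.card_sh
  omega

lemma lamC_le (hn : 2 ≤ n) (y : ℝ) (k : Fin (n - 1)) :
    c.lamC (c.cls y k) y ≤ (c.cls y k).card + 1 +
      ∑ h ∈ (c.cells (c.cls y k)).filter (c.Mg y), cor (c.sig h) y / 2 := by
  unfold lamC
  rcases le_total y 0 with hy | hy
  · rw [← sum_filter_add_sum_filter_not _ (c.Mg y), add_comm]
    refine add_le_add ((sum_le_card_nsmul _ _ _ fun h _ => lam_half _ _).trans_eq ?_)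
      (sum_le_sum fun h hh => lam_in (c.sh_le (mem_filter.1 hh).2.1) hy
        ((c.mg_of (mem_filter.1 hh).2.1).1 (mem_filter.1 hh).2))
    have h1 := card_filter_add_card_filter_not (s := c.cells (c.cls y k)) (c.Mg y)
    have h2 := c.card_mg y k
    rw [c.card_cells] at h1
    rw [show ((c.cells (c.cls y k)).filter fun h => ¬ c.Mg y h).card
      = 2 * ((c.cls y k).card + 1) by omega, nsmul_eq_mul]
    push_cast
    ring
  · have e : (c.cls y k).card + 1 = n := by
      rw [c.cls_univ hy, card_univ, Fintype.card_fin]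
      omega
    rw [c.mg_univ hn e, show ((c.cls y k).card : ℝ) + 1 = n by exact_mod_cast e, c.cls_univ hy]
    refine (sum_le_sum fun h _ => lam_out (c.sig_mem h) hy).trans ?_
    have h1 : ∑ h, c.sig h = n * (2 * π) := by
      rw [← sum_fiberwise (s := univ) (g := c.pt)]
      simp [c.sum_sig]
    have h2 : ∑ h with c.Lg h, cor (c.sig h) y ≤ ∑ h with ¬ c.Lg h, cor (c.sig h) y := by
      rw [c.sum_lg fun s => cor s y, c.sum_sh_fib]
      exact sum_le_sum fun j _ => c.cor_top j hy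
    have h3 := sum_filter_add_sum_filter_not univ c.Lg fun h => cor (c.sig h) y
    simp only [cells, mem_univ, filter_true]
    rw [sum_add_distrib, ← sum_div, ← sum_div, ← sum_div, h1,
      mul_div_cancel_right₀ _ (by positivity)]
    linarith

end Cmb

end Pool.Agent.Lib.MP_f225de_an.Sk
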