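import Pool.Agent.Lib.MP_f225de_an.N1
import Pool.Agent.Lib.MP_f225de_an.N3

set_option autoImplicit false

open Finset Real

namespace Pool.Agent.Lib.MP_f225de_an.Sk

lemma fin_ind (Z : Finset ℝ) {p : ℝ → Prop}
    (hs : ∀ a b, a ≤ b → (∀ z ∈ Z, z ∉ Set.Ioo a b) → p a → p b) {a b : ℝ} (h : a ≤ b) :
    p a → p b := by
  have : ∀ Y : Finset ℝ, ∀ a b, a ≤ b → (∀ z ∈ Z, z ∈ Set.Ioo a b → z ∈ Y) → p a → p b := by
    intro Y
    induction Y using Finset.induction_on with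
    | empty => exact fun a b h1 h2 => hs a b h1 fun z hz e => by simpa using h2 z hz e
    | insert x Y _ ih =>
      intro a b h1 h2 h3
      by_cases hx : x ∈ Set.Ioo a b
      · exact ih x b hx.2.le (fun z hz e => (mem_insert.1 (h2 z hz ⟨hx.1.trans e.1, e.2⟩)).resolve_left
          e.1.ne') (ih a x hx.1.le (fun z hz e =>
            (mem_insert.1 (h2 z hz ⟨e.1, e.2.trans hx.2⟩)).resolve_left e.2.ne) h3)
      · exact ih a b h1 (fun z hz e => (mem_insert.1 (h2 z hz e)).resolve_left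
          fun e' => hx (e' ▸ e)) h3
  exact this Z a b h fun _ hz _ => hz

lemma step_alg {n d F F1 p K c t SB SU Φ Ex V e : ℝ} (hn : 4 ≤ n) (hp : 0 < p) (hK : 0 < K)
    (hdc : 0 < d + c)
    (h : n * K / p * d ≤ F1 * (n - d) / (n - 2) + n * K / p / n * (n * SB / p - n * SU / p)
      + (2 - n * K / p) * Φ + ((d - 1) * F + (d - 2) * t - n * SB / p + n * SU / p)
        * ((2 - n * K / p) / (d + c) + (2 * (n * K / p) - 2) / n))
    (hV : K * Ex + K * c + (2 * p / n - K) * Φ ≤ V) (he : e ≤ K ^ 2 * (d + c + Ex)) :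
    e ≤ n * K / p * (((2 * p * K * F + p ^ 2 * F1) * (d - 1) / n ^ 2
      + (K / n * ((d - 2) * t * p / n - SB + SU)
      + p / n * ((d - 2) * (-((n - 1) * F1) / (n - 2) * p + t * K) / n + V)))
      + ((2 - n * K / p) / (d + c) - 2 / n)
        * (p ^ 2 * F * (d - 1) / n ^ 2 + p / n * ((d - 2) * t * p / n - SB + SU))) := by
  have n0 : 0 < n := by linarith
  have n2 : 0 < n - 2 := by linarith
  have h1 := mul_nonneg (by positivity : 0 ≤ K * p / n) (sub_nonneg.2 h)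
  have h2 := mul_nonneg hK.le (sub_nonneg.2 hV)
  refine he.trans (sub_nonneg.1 ((add_nonneg h1 h2).trans_eq ?_))
  field_simp
  ring

namespace Cmb

variable {n : ℕ} (c : Cmb n)

lemma part {S : Finset (Fin (n - 1)) → ℝ → ℝ → Prop}
    (hS : ∀ C D y q q', Disjoint C D → S C y q → S D y q' → S (C ∪ D) y (q + q'))
    {a y : ℝ} {f : c.H → ℝ}
    (h : ∀ k, S (c.cls a k) y (∑ g ∈ c.cells (c.cls a k), f g)) (C : Finset (Fin (n - 1))) :
    C.Nonempty → (∀ k ∈ C, c.cls a k ⊆ C) → S C y (∑ g ∈ c.cells C, f g) := by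
  induction C using Finset.strongInduction with
  | H C ih =>
    rintro ⟨k, hk⟩ h1
    rcases (C \ c.cls a k).eq_empty_or_nonempty with e | e
    · rw [Subset.antisymm (sdiff_eq_empty_iff_subset.1 e) (h1 k hk)]
      exact h k
    have := hS _ _ _ _ _ disjoint_sdiff (h k) (ih _ (sdiff_ssubset (h1 k hk) ⟨k, c.mem_cls a k⟩)
      e fun l hl m hm => mem_sdiff.2 ⟨h1 l (mem_sdiff.1 hl).1 hm, fun e => (mem_sdiff.1 hl).2 (by
        rw [← c.cls_eq e, c.cls_eq hm]; exact c.mem_cls a l)⟩)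
    rw [union_sdiff_of_subset (h1 k hk), ← sum_union] at this
    · convert this using 2
      ext g
      simp only [cells, mem_filter, mem_univ, true_and, mem_union, mem_sdiff]
      exact ⟨fun e => (em _).imp_right fun e' => ⟨e, e'⟩, fun e => e.elim (fun e => h1 k hk e) And.left⟩
    · simp only [cells, disjoint_filter, mem_sdiff]
      exact fun _ _ e e' => e'.2 e

variable (D : Base n)

/-- potential of an open half sector -/
noncomputable def op (h : c.H) (y : ℝ) : ℝ := if c.Lg h then D.L (c.sig h) y else D.A (c.sig h) y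

/-- potential of a half sector when the arcs of level `a` are merged -/
noncomputable def pot (a : ℝ) (h : c.H) (y : ℝ) : ℝ :=
  D.P y ^ 2 * D.F y / (4 * n ^ 2) + D.P y / n *
    if c.Mg a h then T0 n (D.F y) * D.P y / (2 * n) - D.B (c.sig h) y else c.op D h y

lemma sum_pot (hn : 4 ≤ n) (y z : ℝ) (k : Fin (n - 1)) :
    ∑ h ∈ c.cells (c.cls y k), c.pot D y h z =
      D.P z ^ 2 * D.F z * (((c.cls y k).card + 1 : ℝ) - 1) / n ^ 2 + D.P z / n *
        ((((c.cls y k).card + 1 : ℝ) - 2) * T0 n (D.F z) * D.P z / n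
          - ∑ h ∈ (c.cells (c.cls y k)).filter (c.Mg y), D.B (c.sig h) z
          + ∑ h ∈ (c.cells (c.cls y k)).filter (fun h => ¬ c.Mg y h), c.op D h z) := by
  have n0 : (0 : ℝ) < n := by exact_mod_cast (by omega : 0 < n)
  have h1 : (((c.cells (c.cls y k)).filter (c.Mg y)).card : ℝ) + 2 = 2 * (c.cls y k).card := by
    exact_mod_cast c.card_mg y k
  simp only [pot, sum_add_distrib, ← mul_sum, sum_ite, sum_sub_distrib, sum_const, nsmul_eq_mul,
    c.card_cells]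
  rw [eq_sub_of_add_eq h1]
  push_cast
  field_simp
  ring

lemma op_bd (hn : 4 ≤ n) {y : ℝ} (hy : y < 0) {h : c.H} (hh : ¬ c.Mg y h) : 0 ≤ c.op D h y ∧
    n * c.op D h y ≤ (if c.Lg h then D.l0 else D.a0) * D.P y := by
  unfold op
  split_ifs with e
  · exact (D.L_bd _ (c.lg_mem (by omega) e) y).1 hy
  · exact D.A_bd _ (c.sh_le e) y (not_le.1 fun e' => hh ⟨e, e'⟩).le

lemma sh_top (j : Fin n) (y : ℝ) :
    2 * D.Sh (π - c.sig (c.top j)) y ≤ ∑ h with ¬ c.Lg h ∧ c.pt h = j, D.Sh (c.sig h) y := by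
  have := inv_ind c.bis_inv c.bis_ne (p := fun s => (∑ h ∈ s, c.sig h) / 2 < π →
      2 * D.Sh ((∑ h ∈ s, c.sig h) / 2) y ≤ ∑ h ∈ s, D.Sh (c.sig h) y) (by simpa using fun _ => by linarith [D.Sh_zero y])
    (fun s x h1 h2 h3 => by
      have hx : x ∉ insert (c.bis x) s := by simp [h1, (c.bis_ne x).symm]
      rw [sum_insert hx, sum_insert h2, sum_insert hx, sum_insert h2, c.sig_bis]
      intro h4
      have h5 : 0 ≤ ∑ h ∈ s, c.sig h := sum_nonneg fun h _ => (c.sig_pos h).le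
      have := D.Sh_add (c.sig x) ((∑ h ∈ s, c.sig h) / 2) y (c.sig_pos x) (by positivity)
        (by linarith)
      rw [show (c.sig x + (c.sig x + ∑ h ∈ s, c.sig h)) / 2 = c.sig x + (∑ h ∈ s, c.sig h) / 2 by
        ring]
      linarith [h3 (by linarith [c.sig_pos x])])
    (univ.filter fun h => ¬ c.Lg h ∧ c.pt h = j) (by simp [c.lg_bis, c.pt_bis])
  rw [c.sum_sh, mul_div_cancel_left₀ _ two_ne_zero] at this
  exact this (by linarith [c.sig_pos (c.top j)])

lemma op_top (hn : 4 ≤ n) {y : ℝ} {k : Fin (n - 1)} (e : (c.cls y k).card + 1 = n) :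
    ∑ h ∈ (c.cells (c.cls y k)).filter (fun h => ¬ c.Mg y h), c.op D h y ≤
      ∑ h ∈ (c.cells (c.cls y k)).filter (c.Mg y), D.Sh (c.sig h) y := by
  have h1 := c.mg_univ (by omega) e
  have h0 : c.cls y k = univ := (card_eq_iff_eq_univ _).1 (by rw [Fintype.card_fin]; omega)
  have h2 : (c.cells (c.cls y k)).filter (fun h => ¬ c.Mg y h) = univ.filter c.Lg := by
    ext h
    simpa [h0, cells] using not_congr (Finset.ext_iff.1 h1 h)
  rw [h1, h2, c.sum_sh_fib]
  refine (sum_le_sum (g := fun h => D.Sh (π - c.sig h) y) fun h hh => ?_).trans ?_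
  · rw [op, if_pos (mem_filter.1 hh).2]
    exact (D.L_bd _ (c.lg_mem (by omega) (mem_filter.1 hh).2) y).2
  · rw [c.sum_lg fun s => D.Sh (π - s) y]
    exact sum_le_sum fun j _ => c.sh_top D j y

/-- long arcs of the petals all of whose short arcs are merged -/
def Cov (y : ℝ) (h : c.H) : Prop := c.Lg h ∧ ∀ g, ¬ c.Lg g → c.pt g = c.pt h → c.Mg y g

noncomputable instance (y : ℝ) : DecidablePred (c.Cov y) := fun _ => Classical.dec _

lemma cov_le (hn : 4 ≤ n) {y : ℝ} (hy : y < 0) (k : Fin (n - 1)) :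
    ∑ h ∈ ((c.cells (c.cls y k)).filter fun h => ¬ c.Mg y h).filter (c.Cov y), c.op D h y ≤
      ∑ h ∈ (c.cells (c.cls y k)).filter (c.Mg y), D.Sh (c.sig h) y := by
  rw [← sum_fiberwise (g := c.pt), ← sum_fiberwise (g := c.pt) (f := fun h => D.Sh (c.sig h) y)]
  refine sum_le_sum fun j _ => ?_
  rcases ((((c.cells (c.cls y k)).filter fun h => ¬ c.Mg y h).filter (c.Cov y)).filter
    fun h => c.pt h = j).eq_empty_or_nonempty with e | ⟨h, hh⟩
  · rw [e, sum_empty]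
    exact sum_nonneg fun g hg => (D.B_bd _ (c.sh_le (mem_filter.1 (mem_filter.1 hg).1).2.1) y
      (mem_filter.1 (mem_filter.1 hg).1).2.2).2.2.2.2 hy
  simp only [cells, mem_filter, mem_univ, true_and] at hh
  obtain ⟨⟨⟨h1, -⟩, h2, h3⟩, rfl⟩ := hh
  have h4 : c.Lg (c.top (c.pt h)) := Or.inl (by rw [c.pt_top])
  have h5 := (D.L_bd _ (c.lg_mem (by omega) h4) y).2
  refine (sum_le_sum_of_subset_of_nonneg (t := univ.filter fun g => c.Lg g ∧ c.pt g = c.pt h)
    (fun g hg => by simp [(mem_filter.1 hg).2, (mem_filter.1 (mem_filter.1 hg).1).2.1])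
    fun g hg _ => (c.op_bd D hn hy fun l => l.1 (mem_filter.1 hg).2.1).1).trans ?_
  rw [c.lg_fib, sum_pair (c.bis_ne _).symm, op, op, if_pos h4, if_pos (c.lg_bis.2 h4), c.sig_bis]
  refine le_trans (by linarith) ((c.sh_top D (c.pt h) y).trans_eq (sum_congr ?_ fun _ _ => rfl))
  ext g
  simp only [cells, mem_filter, mem_univ, true_and]
  exact ⟨fun e => ⟨⟨c.cov_mem h2 h1 h3 e.2, h3 g e.1 e.2⟩, e.2⟩, fun e => ⟨e.1.2.1, e.2⟩⟩

lemma op_le (hn : 4 ≤ n) {y : ℝ} (hy : y < 0) (k : Fin (n - 1)) :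
    n * (∑ h ∈ ((c.cells (c.cls y k)).filter fun h => ¬ c.Mg y h).filter (fun h => ¬ c.Cov y h),
      c.op D h y) / D.P y ≤ (n - ((c.cls y k).card + 1 : ℝ)) * (D.a0 + 2 * D.l0) := by
  have hp := D.P_pos y
  rw [div_le_iff₀ hp, mul_sum]
  refine (sum_le_sum fun h hh => (c.op_bd D hn hy (mem_filter.1 (mem_filter.1 hh).1).2).2).trans ?_
  set O := ((c.cells (c.cls y k)).filter fun h => ¬ c.Mg y h).filter fun h => ¬ c.Cov y h
  have h1 : ((O.filter c.Lg).card : ℝ) + 2 * ((c.cls y k).card + 1) ≤ 2 * n := by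
    exact_mod_cast c.open_lg y k fun h hh => ⟨(mem_filter.1 hh).2, by
      simpa [Cov, (mem_filter.1 hh).2] using (mem_filter.1 (mem_filter.1 hh).1).2⟩
  have h2 : ((O.filter fun h => ¬ c.Lg h).card : ℝ) + ((c.cls y k).card + 1) ≤ n := by
    exact_mod_cast (Nat.add_le_add_right (card_le_card (filter_subset_filter _
      (filter_subset _ _))) _).trans (c.open_sh y k)
  rw [← sum_mul, sum_ite, sum_const, sum_const, nsmul_eq_mul, nsmul_eq_mul]
  exact mul_le_mul_of_nonneg_right (by nlinarith [D.a0_l0.1, D.a0_l0.2.1]) hp.le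

/-- the exceptional levels -/
noncomputable def lev : Finset ℝ :=
  D.X 0 ∪ univ.biUnion fun h => insert (log (sin (c.sig h))) (D.X (c.sig h))

lemma mem_lev (h : c.H) : log (sin (c.sig h)) ∈ c.lev D :=
  mem_union_right _ (mem_biUnion.2 ⟨h, mem_univ _, mem_insert_self _ _⟩)

lemma P_cont : Continuous D.P := continuous_iff_continuousAt.2 fun y => (D.P_der y).continuousAt

lemma pot_cont (hn : 4 ≤ n) (a : ℝ) (h : c.H) {I : Set ℝ}
    (h1 : c.Mg a h → I ⊆ Set.Ici (log (sin (c.sig h))))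
    (h2 : a < log (sin (c.sig h)) → I ⊆ Set.Iic (log (sin (c.sig h)))) :
    ContinuousOn (c.pot D a h) I := by
  have hP := P_cont D
  have hF := D.F_cont
  refine (Continuous.continuousOn (by fun_prop)).add ((hP.div_const _).continuousOn.mul ?_)
  unfold op T0
  split_ifs with e e'
  · exact (Continuous.continuousOn (by fun_prop)).sub ((D.B_cont _ (c.sh_le e.1)).mono (h1 e))
  · exact (D.L_cont _ (c.lg_mem (by omega) e')).continuousOn
  · exact (D.A_cont _ (c.sh_le e')).mono (h2 (not_le.1 fun l => e ⟨e', l⟩))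

lemma pot_le (hn : 4 ≤ n) {a b : ℝ} (hab : a ≤ b) (hz : ∀ z ∈ c.lev D, z ∉ Set.Ioo a b) (h : c.H) :
    c.pot D a h b ≤ c.pot D b h b := by
  have n0 : (0 : ℝ) < n := by exact_mod_cast (by omega : 0 < n)
  refine add_le_add_right (mul_le_mul_of_nonneg_left ?_ (div_pos (D.P_pos b) n0).le) _
  split_ifs with e1 e2 e2
  · rfl
  · exact absurd ⟨e1.1, e1.2.trans hab⟩ e2
  · have := D.AB _ (c.sh_le e2.1) b (le_antisymm (not_lt.1 fun l =>
      hz _ (c.mem_lev D h) ⟨not_le.1 fun l => e1 ⟨e2.1, l⟩, l⟩) e2.2)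
    rw [op, if_neg e2.1, le_sub_iff_add_le, le_div_iff₀ (by positivity)]
    linarith
  · rfl

/-- the induction over the levels for an arbitrary step rule -/
theorem levels (hn : 4 ≤ n) {St : Finset (Fin (n - 1)) → ℝ → ℝ → ℝ → ℝ → Prop}
    {S : Finset (Fin (n - 1)) → ℝ → ℝ → Prop}
    (mono : ∀ C y q q', q ≤ q' → S C y q → S C y q')
    (union : ∀ C D y q q', Disjoint C D → S C y q → S D y q' → S (C ∪ D) y (q + q'))
    (step : ∀ C (a b : ℝ) (Q Q1 W W1 : ℝ → ℝ), a ≤ b → ContinuousOn Q (Set.Icc a b) →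
      ContinuousOn W (Set.Icc a b) → (∀ y ∈ Set.Ioo a b, HasDerivAt Q (Q1 y) y ∧
        HasDerivAt W (W1 y) y ∧ St C y (Q y) (Q1 y) (W1 y)) → S C a (Q a) → S C b (Q b))
    (start : ∀ C (b : ℝ) (Q Q1 W W1 : ℝ → ℝ), ContinuousOn Q (Set.Iic b) →
      ContinuousOn W (Set.Iic b) → (∀ y < b, 0 ≤ Q y ∧ HasDerivAt Q (Q1 y) y ∧
        HasDerivAt W (W1 y) y ∧ St C y (Q y) (Q1 y) (W1 y)) → S C b (Q b))
    {w : Finset c.H → Finset (Fin (n - 1)) → ℝ → ℝ}
    (hW : ∀ (M : Finset c.H) m, (∀ h ∈ M, ¬ c.Lg h) → (Continuous fun z => ∫ t in (0 : ℝ)..z, w M m t) ∧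
      ∀ y ∉ c.lev D, HasDerivAt (fun z => ∫ t in (0 : ℝ)..z, w M m t) (w M m y) y)
    (hs : ∀ y ∉ c.lev D, ∀ k, ∃ q1,
      HasDerivAt (fun z => ∑ h ∈ c.cells (c.cls y k), c.pot D y h z) q1 y ∧
      St (c.cls y k) y (∑ h ∈ c.cells (c.cls y k), c.pot D y h y) q1
        (w ((c.cells (c.cls y k)).filter (c.Mg y)) (c.cls y k) y))
    {y : ℝ} (hy : 0 ≤ y) : S univ y 1 := by
  have n4 : (4 : ℝ) ≤ n := by exact_mod_cast hn
  have n0 : (0 : ℝ) < n := by linarith
  have hW' := fun a k => hW ((c.cells (c.cls a k)).filter (c.Mg a)) (c.cls a k)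
    fun h hh => (mem_filter.1 hh).2.1
  have hs' : ∀ a, ∀ y ∉ c.lev D, (∀ h, c.Mg a h ↔ c.Mg y h) → ∀ k,
      HasDerivAt (fun z => ∑ h ∈ c.cells (c.cls a k), c.pot D a h z)
        (deriv (fun z => ∑ h ∈ c.cells (c.cls a k), c.pot D a h z) y) y ∧ _ ∧
      St (c.cls a k) y (∑ h ∈ c.cells (c.cls a k), c.pot D a h y)
        (deriv (fun z => ∑ h ∈ c.cells (c.cls a k), c.pot D a h z) y)
        (w ((c.cells (c.cls a k)).filter (c.Mg a)) (c.cls a k) y) := fun a y hy e k => by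
    obtain ⟨q, h1, h2⟩ := hs y hy k
    have e1 : c.cls a k = c.cls y k :=
      (c.cls_mono (fun g => (e g).1) k).antisymm (c.cls_mono (fun g => (e g).2) k)
    have e2 : c.pot D a = c.pot D y := by
      funext h z
      simp only [pot, e]
    rw [← e1, ← e2, ← filter_congr fun h _ => e h] at h2
    rw [← e1, ← e2] at h1
    rw [h1.deriv]
    exact ⟨h1, (hW' a k).2 y hy, h2⟩
  obtain ⟨a, ha⟩ := (insert 0 (c.lev D)).bddBelow
  have ha0 : a ≤ 0 := ha (mem_coe.2 (mem_insert_self _ _))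
  have ha' : ∀ z ∈ c.lev D, a - 1 < z := fun z hz => by
    linarith [ha (mem_coe.2 (mem_insert_of_mem hz))]
  have key := fin_ind (c.lev D) (p := fun y => ∀ k,
      S (c.cls y k) y (∑ h ∈ c.cells (c.cls y k), c.pot D y h y)) (fun a b hab hz h k => by
    refine mono _ _ _ _ (sum_le_sum fun h _ => c.pot_le D hn hab hz h)
      (c.part union (a := a) (fun k => step _ a b _ _ _ _ hab (continuousOn_finsetSum _ fun h _ =>
        c.pot_cont D hn a h (fun e z hz => e.2.trans hz.1) fun e z hz' => hz'.2.trans (not_lt.1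
          fun l => hz _ (c.mem_lev D h) ⟨e, l⟩)) (hW' a k).1.continuousOn (fun y hy =>
        hs' a y (fun l => hz y l hy) (fun h => ⟨fun e => ⟨e.1, e.2.trans hy.1.le⟩,
          fun e => ⟨e.1, not_lt.1 fun l => hz _ (c.mem_lev D h) ⟨l, e.2.trans_lt hy.2⟩⟩⟩) k) (h k))
        _ ⟨k, c.mem_cls b k⟩ fun l hl => c.cls_eq hl ▸
          c.cls_mono (fun g e => ⟨e.1, e.2.trans hab⟩) l))
    (a := a - 1) (b := y) (by linarith) (fun k => by
    have e : ∀ y ≤ a - 1, ∀ h, ¬ c.Mg y h := fun y hy h l =>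
      (ha' _ (c.mem_lev D h)).not_ge (l.2.trans hy)
    refine start _ _ _ _ _ _ (continuousOn_finsetSum _ fun h _ => c.pot_cont D hn _ h
      (fun l => (e _ le_rfl h l).elim) fun l z hz => hz.trans l.le) (hW' (a - 1) k).1.continuousOn
      fun y hy => ⟨sum_nonneg fun h _ => ?_, hs' _ y (fun l => (ha' y l).not_gt hy)
        (fun h => iff_of_false (e _ le_rfl h) (e y hy.le h)) k⟩
    have := D.F_pos y
    have := (c.op_bd D hn (by linarith) (e y hy.le h)).1
    have := D.P_pos y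
    rw [Cmb.pot, if_neg (e _ le_rfl h)]
    positivity) ⟨0, by omega⟩
  have e : (c.cls y ⟨0, by omega⟩).card + 1 = n := by
    rw [c.cls_univ hy, card_univ, Fintype.card_fin]
    omega
  have h1 := c.op_top D hn e
  have h2 : ∑ h ∈ (c.cells (c.cls y ⟨0, by omega⟩)).filter (c.Mg y), D.Sh (c.sig h) y ≤
      ∑ h ∈ (c.cells (c.cls y ⟨0, by omega⟩)).filter (c.Mg y), D.B (c.sig h) y :=
    sum_le_sum fun h hh => by
      have := D.B_bd _ (c.sh_le (mem_filter.1 hh).2.1) y (mem_filter.1 hh).2.2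
      linarith [this.1, this.2.1]
  rw [c.sum_pot D hn, show ((c.cls y ⟨0, by omega⟩).card : ℝ) + 1 = n by exact_mod_cast e] at key
  rw [← c.cls_univ hy ⟨0, by omega⟩]
  refine mono _ _ _ _ ?_ key
  have hp := D.P_pos y
  have h3 : D.P y ^ 2 * D.F y * (n - 1) / n ^ 2 + D.P y / n * ((n - 2) * T0 n (D.F y) * D.P y / n)
      = D.P y ^ 2 := by
    have : (n : ℝ) - 2 ≠ 0 := by linarith
    unfold T0
    field_simp
    ring
  nlinarith [mul_nonneg (div_pos hp n0).le (sub_nonneg.2 (h1.trans h2)), D.P_le y]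

end Cmb

end Pool.Agent.Lib.MP_f225de_an.Sk
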