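import Pool.Agent.Lib.MP_f225de_an.N4

set_option autoImplicit false

open Finset Real

namespace Pool.Agent.Lib.MP_f225de_an.Sk.Cmb

variable {n : ℕ} (c : Cmb n) (D : Base n)

lemma pot_der (hn : 4 ≤ n) {y : ℝ} (hy : y ∉ D.X 0) (k : Fin (n - 1)) {o1 : c.H → ℝ}
    (hB : ∀ h ∈ (c.cells (c.cls y k)).filter (c.Mg y),
      HasDerivAt (D.B (c.sig h)) (D.B1 (c.sig h) y) y)
    (hO : ∀ h ∈ (c.cells (c.cls y k)).filter (fun h => ¬ c.Mg y h),
      HasDerivAt (c.op D h) (o1 h) y) :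
    HasDerivAt (fun z => ∑ h ∈ c.cells (c.cls y k), c.pot D y h z)
      ((2 * D.P y * D.K y * D.F y + D.P y ^ 2 * D.F1 y) * (((c.cls y k).card + 1 : ℝ) - 1) / n ^ 2
      + (D.K y / n * ((((c.cls y k).card + 1 : ℝ) - 2) * T0 n (D.F y) * D.P y / n
          - ∑ h ∈ (c.cells (c.cls y k)).filter (c.Mg y), D.B (c.sig h) y
          + ∑ h ∈ (c.cells (c.cls y k)).filter (fun h => ¬ c.Mg y h), c.op D h y)
      + D.P y / n * ((((c.cls y k).card + 1 : ℝ) - 2) * (-((n - 1) * D.F1 y) / (n - 2) * D.P y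
        + T0 n (D.F y) * D.K y) / n +
        (∑ h ∈ (c.cells (c.cls y k)).filter (fun h => ¬ c.Mg y h), o1 h
          - ∑ h ∈ (c.cells (c.cls y k)).filter (c.Mg y), D.B1 (c.sig h) y)))) y := by
  simp only [c.sum_pot D hn]
  have hP := D.P_der y
  have hF := (D.F_der y hy).1
  have hT : HasDerivAt (fun z => T0 n (D.F z)) (-((n - 1) * D.F1 y) / (n - 2)) y :=
    ((hF.const_mul ((n : ℝ) - 1)).const_sub ((n : ℝ) ^ 2)).div_const ((n : ℝ) - 2)
  refine (((((hP.fun_pow 2).fun_mul hF).mul_const (((c.cls y k).card + 1 : ℝ) - 1)).div_const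
    ((n : ℝ) ^ 2)).fun_add ((hP.div_const n).fun_mul
      (((((hT.const_mul (((c.cls y k).card + 1 : ℝ) - 2)).fun_mul hP).div_const n).fun_sub
      (HasDerivAt.fun_sum hB)).fun_add (HasDerivAt.fun_sum hO)))).congr_deriv ?_
  push_cast
  ring

lemma neg_of {y : ℝ} {k : Fin (n - 1)} (e : (c.cls y k).card + 1 ≠ n) : y < 0 :=
  not_le.1 fun l => e (by
    rw [c.cls_univ l, card_univ, Fintype.card_fin]
    have := k.2
    omega)

lemma cls_V (hn : 4 ≤ n) (y : ℝ) (k : Fin (n - 1)) {T U : ℝ}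
    (hT : T = n * (∑ h ∈ (c.cells (c.cls y k)).filter (c.Mg y), D.B (c.sig h) y) / D.P y)
    (hU : U = n * (∑ h ∈ (c.cells (c.cls y k)).filter (fun h => ¬ c.Mg y h), c.op D h y) / D.P y) :
    ∃ V : ℝ, T - V ≤ (((c.cls y k).card + 1 : ℝ) - 2) * T0 n (D.F y) ∧
      ((c.cls y k).card + 1 ≠ n → 0 ≤ U - V ∧
        U - V ≤ (n - ((c.cls y k).card + 1 : ℝ)) * (D.a0 + 2 * D.l0) ∧
        n * (∑ h ∈ (c.cells (c.cls y k)).filter (fun h => ¬ c.Mg y h),
          if c.Lg h then 0 else D.A (c.sig h) y) / D.P y ≤ U - V) ∧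
      ∀ h ∈ (c.cells (c.cls y k)).filter (c.Mg y), 2 * n * D.G (c.sig h) y / D.P y ≤
        if (c.cls y k).card + 1 = n then T - U else T - V := by
  have n0 : (0 : ℝ) < n := by exact_mod_cast (by omega)
  have hp := D.P_pos y
  have hneg := c.neg_of (y := y) (k := k)
  have hG := fun h (hh : h ∈ (c.cells (c.cls y k)).filter (c.Mg y)) =>
    D.B_bd _ (c.sh_le (mem_filter.1 hh).2.1) y (mem_filter.1 hh).2.2
  have hM2 : (((c.cells (c.cls y k)).filter (c.Mg y)).card : ℝ) + 2 = 2 * (c.cls y k).card := by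
    exact_mod_cast c.card_mg y k
  have h0 := fun e h (hh : h ∈ (c.cells (c.cls y k)).filter fun h => ¬ c.Mg y h) =>
    (c.op_bd D hn (hneg e) (mem_filter.1 hh).2).1
  obtain ⟨V, hV⟩ : ∃ V, V = if (c.cls y k).card + 1 = n then 0 else n * (∑ h ∈ ((c.cells
    (c.cls y k)).filter fun h => ¬ c.Mg y h).filter (c.Cov y), c.op D h y) / D.P y := ⟨_, rfl⟩
  refine ⟨V, (sub_le_self _ ?_).trans ?_, fun e => ?_, fun h hh => ?_⟩
  · rw [hV]
    split_ifs with e
    exacts [le_rfl, div_nonneg (mul_nonneg n0.le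
      (sum_nonneg fun h hh => h0 e h (mem_filter.1 hh).1)) hp.le]
  · rw [hT, div_le_iff₀ hp, mul_sum]
    refine (sum_le_card_nsmul _ _ (T0 n (D.F y) * D.P y / 2) fun h hh => by
      linarith [(hG h hh).2.2.1]).trans_eq ?_
    rw [nsmul_eq_mul, eq_sub_of_add_eq hM2]
    ring
  · rw [show U - V = n * (∑ h ∈ ((c.cells (c.cls y k)).filter fun h => ¬ c.Mg y h).filter
        (fun h => ¬ c.Cov y h), c.op D h y) / D.P y by
      rw [hU, hV, if_neg e, ← sum_filter_add_sum_filter_not _ (c.Cov y)]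
      ring]
    refine ⟨div_nonneg (mul_nonneg n0.le (sum_nonneg fun h hh => h0 e h (mem_filter.1 hh).1)) hp.le,
      c.op_le D hn (hneg e) k, ?_⟩
    rw [sum_filter (fun h => ¬ c.Cov y h)]
    refine div_le_div_of_nonneg_right (mul_le_mul_of_nonneg_left (sum_le_sum fun h hh => ?_)
      n0.le) hp.le
    split_ifs with l l' l'
    exacts [le_rfl, h0 e h hh, (l l'.1).elim, (if_neg l).ge]
  · have h3 := c.pair_le (f := fun h => D.G (c.sig h) y) hh (c.bis_mem hh) fun g hg => (hG g hg).1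
    have h4 := sum_le_sum fun g hg => (hG g hg).2.1
    rw [sum_add_distrib] at h4
    simp only [c.sig_bis] at h3
    split_ifs with e
    · rw [hT, hU, ← sub_div, ← mul_sub]
      exact div_le_div_of_nonneg_right (by nlinarith [c.op_top D hn e]) hp.le
    · rw [hT, hV, if_neg e, ← sub_div, ← mul_sub]
      exact div_le_div_of_nonneg_right (by nlinarith [c.cov_le D hn (hneg e) k]) hp.le

lemma cls_at (hn : 4 ≤ n) (y : ℝ) (k : Fin (n - 1)) {cc : ℝ → ℝ} {T U : ℝ}
    (hc : ∀ h ∈ (c.cells (c.cls y k)).filter (c.Mg y), 0 ≤ cc (c.sig h) ∧ cc (c.sig h) ≤ 1)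
    (hT : T = n * (∑ h ∈ (c.cells (c.cls y k)).filter (c.Mg y), D.B (c.sig h) y) / D.P y)
    (hU : U = n * (∑ h ∈ (c.cells (c.cls y k)).filter (fun h => ¬ c.Mg y h), c.op D h y) / D.P y) :
    ∃ S V : ℝ, ∑ h ∈ (c.cells (c.cls y k)).filter (c.Mg y), cc (c.sig h) / 2
        ≤ ((c.cls y k).card + 1 : ℝ) - 2 ∧
      T - V ≤ (((c.cls y k).card + 1 : ℝ) - 2) * T0 n (D.F y) ∧
      (((c.cls y k).card + 1 : ℝ) + 1 ≤ n → 0 ≤ U - V ∧
        (n = (4 : ℝ) ∨ U - V ≤ (n - ((c.cls y k).card + 1 : ℝ)) * (n - 1)) ∧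
        S ≤ T - V ∧ S ≤ T0 n (D.F y)) ∧
      (((c.cls y k).card + 1 : ℝ) = n → S ≤ T - V - (U - V)) ∧
      (n ^ 2 - S) * (∑ h ∈ (c.cells (c.cls y k)).filter (c.Mg y), cc (c.sig h) / 2) /
        (n * (n + ∑ h ∈ (c.cells (c.cls y k)).filter (c.Mg y), cc (c.sig h) / 2)) ≤
      ∑ h ∈ (c.cells (c.cls y k)).filter (c.Mg y), (n ^ 2 - 2 * n * D.G (c.sig h) y / D.P y)
        * cc (c.sig h) / (2 * n * (n + cc (c.sig h))) ∧
      ((c.cls y k).card + 1 ≠ n → n * (∑ h ∈ (c.cells (c.cls y k)).filter (fun h => ¬ c.Mg y h),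
        if c.Lg h then 0 else D.A (c.sig h) y) / D.P y ≤ U - V) := by
  have n4 : (4 : ℝ) ≤ n := by exact_mod_cast hn
  have n0 : (0 : ℝ) < n := by linarith
  have hp := D.P_pos y
  have hG := fun h (hh : h ∈ (c.cells (c.cls y k)).filter (c.Mg y)) =>
    D.B_bd _ (c.sh_le (mem_filter.1 hh).2.1) y (mem_filter.1 hh).2.2
  have hM2 : (((c.cells (c.cls y k)).filter (c.Mg y)).card : ℝ) + 2 = 2 * (c.cls y k).card := by
    exact_mod_cast c.card_mg y k
  obtain ⟨V, v1, v2, v3⟩ := c.cls_V D hn y k hT hU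
  refine ⟨if (c.cls y k).card + 1 = n then min (T - U) (n ^ 2) else min (T - V) (T0 n (D.F y)), V,
    ?_, v1, fun e => ?_, fun e => ((if_pos (by exact_mod_cast e)).trans_le (min_le_left _ _)).trans_eq
      (by ring), ?_, fun e => (v2 e).2.2⟩
  · refine (sum_le_card_nsmul _ _ (1 / 2) fun h hh => by linarith [(hc h hh).2]).trans ?_
    rw [nsmul_eq_mul]
    linarith
  · have e' : (c.cls y k).card + 1 ≠ n := fun l => by
      have : ((c.cls y k).card + 1 : ℝ) = n := by exact_mod_cast l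
      linarith
    rw [if_neg e']
    exact ⟨(v2 e').1, D.a0_l0.2.2.imp (fun l => by exact_mod_cast l) fun l => (v2 e').2.1.trans
      (mul_le_mul_of_nonneg_left l (by linarith)), min_le_left _ _, min_le_right _ _⟩
  · have hS : (if (c.cls y k).card + 1 = n then min (T - U) (n ^ 2)
        else min (T - V) (T0 n (D.F y))) ≤ n ^ 2 := by
      split_ifs
      · exact min_le_right _ _
      refine (min_le_right _ _).trans ?_
      rw [T0, div_le_iff₀ (by linarith)]
      nlinarith [mul_nonneg (by linarith : (0 : ℝ) ≤ n - 1) (D.F_pos y)]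
    rw [mul_sum, sum_div]
    refine sum_le_sum fun h hh => ?_
    have h1 := c.pair_le (f := fun h => cc (c.sig h) / 2) hh (c.bis_mem hh)
      fun g hg => div_nonneg (hc g hg).1 two_pos.le
    have h2 : 2 * n * D.G (c.sig h) y / D.P y ≤ if (c.cls y k).card + 1 = n
        then min (T - U) (n ^ 2) else min (T - V) (T0 n (D.F y)) := by
      have := v3 h hh
      split_ifs at this ⊢ with e
      · exact le_min this ((div_le_iff₀ hp).2 (by nlinarith [(hG h hh).2.2.2.1]))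
      · exact le_min this ((div_le_iff₀ hp).2 (le_trans
          (by nlinarith [(hG h hh).2.1, (hG h hh).2.2.2.2 (c.neg_of e)]) (hG h hh).2.2.1))
    simp only [c.sig_bis, add_halves] at h1
    have := (hc h hh).1
    rw [← mul_div_assoc, div_div, ← mul_assoc]
    exact div_le_div₀ (mul_nonneg (by linarith) this)
      (mul_le_mul_of_nonneg_right (by linarith) this) (by positivity) (by gcongr)

end Pool.Agent.Lib.MP_f225de_an.Sk.Cmb
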