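import Pool.Agent.Lib.MP_f225de_an.N5

set_option autoImplicit false

open Finset Real

namespace Pool.Agent.Lib.MP_f225de_an.Sk

/-- the numerical statement on merge trees follows from the one dimensional data -/
theorem nst {n : ℕ} {η : ℝ → ℝ → ℝ} (hn : 4 ≤ n) (D : Data n η) : NSt n η := by
  intro c S hS y hy
  refine c.levels D.toBase hn hS.mono hS.union hS.step hS.start (w := fun M m y =>
    (2 - n * D.K y / D.P y) / (m.card + 1 + ∑ h ∈ M, cor (c.sig h) y / 2) - 2 / n) (fun M m _ => ?_)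
    (fun y hy k => ?_) hy
  · have : Continuous fun y =>
        (2 - n * D.K y / D.P y) / (m.card + 1 + ∑ h ∈ M, cor (c.sig h) y / 2) - 2 / n := by
      refine (Continuous.div (continuous_const.sub ((continuous_const.mul D.K_cont).div
        (Cmb.P_cont D.toBase) fun y => (D.P_pos y).ne')) (continuous_const.add
        (continuous_finsetSum _ fun h _ => (cor_cont _).div_const _))
        fun y => ne_of_gt ?_).sub continuous_const
      exact add_pos_of_pos_of_nonneg (by positivity)
        (sum_nonneg fun h _ => div_nonneg (cor_nonneg (c.sig_mem h) y) two_pos.le)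
    have := fun y => (this.integral_hasStrictDerivAt 0 y).hasDerivAt
    exact ⟨continuous_iff_continuousAt.2 fun y => (this y).continuousAt, fun y _ => this y⟩
  simp only [Cmb.lev, mem_union, mem_biUnion, mem_univ, true_and, mem_insert, not_or,
    not_exists] at hy
  have n4 : (4 : ℝ) ≤ n := by exact_mod_cast hn
  have n0 : (0 : ℝ) < n := by linarith
  have hp := D.P_pos y
  have hK := D.K_pos y
  have hk1 : 0 < (c.cls y k).card := card_pos.2 ⟨k, c.mem_cls y k⟩
  have hk2 : (c.cls y k).card ≤ n - 1 := by simpa using card_le_univ (c.cls y k)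
  have hlam := c.lamC_le (by omega) y k
  have hM : ∀ h ∈ (c.cells (c.cls y k)).filter (c.Mg y), c.sig h ∈ Set.Ioc 0 (π / 2) ∧
      log (sin (c.sig h)) < y := fun h hh =>
    ⟨c.sh_le (mem_filter.1 hh).2.1, lt_of_le_of_ne (mem_filter.1 hh).2.2 (Ne.symm (hy.2 h).1)⟩
  have hO : ∀ h ∈ (c.cells (c.cls y k)).filter (fun h => ¬ c.Mg y h),
      HasDerivAt (c.op D.toBase h) (if c.Lg h then D.L1 (c.sig h) y else D.A1 (c.sig h) y) y ∧
      D.ex (c.sig h) y * D.K y ≤ if c.Lg h then D.L1 (c.sig h) y else D.A1 (c.sig h) y := by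
    intro h hh
    unfold Cmb.op
    split_ifs with e
    · exact D.L_der _ (c.lg_mem (by omega) e) y (hy.2 h).2
    · exact D.A_der _ (c.sh_le e) y (not_le.1 fun e' => (mem_filter.1 hh).2 ⟨e, e'⟩) (hy.2 h).2
  have hB := fun h hh => D.B_der _ (hM h hh).1 y (hM h hh).2 (hy.2 h).2
  have hc := fun h : c.H => cor_nonneg (c.sig_mem h) y
  have hc0 : 0 ≤ ∑ h ∈ (c.cells (c.cls y k)).filter (c.Mg y), cor (c.sig h) y / 2 :=
    sum_nonneg fun h _ => div_nonneg (hc h) two_pos.le
  have ha : n * D.K y / D.P y ≤ 2 := (div_le_iff₀ hp).2 (D.K_le y)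
  obtain ⟨S, V, s1, s2, s3, s4, s5, -⟩ := c.cls_at D.toBase hn y k (cc := fun s => cor s y)
    (fun h _ => ⟨hc h, cor_le _ _⟩) rfl rfl
  refine ⟨_, c.pot_der D.toBase hn hy.1 k (fun h hh => (hB h hh).1) fun h hh => (hO h hh).1, ?_⟩
  simp only [c.sum_pot D.toBase hn, Cmb.Step, Cmb.etaC]
  refine ⟨c.cls_closed y k, ?_, n * D.K y / D.P y, by positivity, ?_, step_alg
    (Ex := ∑ h ∈ c.cells (c.cls y k), D.ex (c.sig h) y) n4 hp hK (by positivity)
    (cls_ineq n4 (by exact_mod_cast (by omega)) (by exact_mod_cast (by omega)) ha (D.F_pos y)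
      (D.F_le y) (D.F_der y hy.1).2 hc0 s1 rfl s2 s3 s4 s5) ?_ ?_⟩
  · rw [sub_add_cancel]
    exact div_nonneg (by linarith) (by positivity)
  · rw [sub_add_cancel, div_mul_eq_mul_div, div_le_iff₀ (by positivity)]
    exact mul_le_mul_of_nonneg_left hlam (by linarith)
  · rw [← sum_filter_add_sum_filter_not _ (c.Mg y), mul_add, mul_sum, mul_sum, mul_sum, mul_sum]
    have h1 := sum_le_sum fun h hh => (hO h hh).2
    have h2 : ∑ h ∈ (c.cells (c.cls y k)).filter (c.Mg y), (D.K y * D.ex (c.sig h) y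
        + D.K y * (cor (c.sig h) y / 2) + (2 * D.P y / n - D.K y) * ((n ^ 2 - 2 * n *
        D.G (c.sig h) y / D.P y) * cor (c.sig h) y / (2 * n * (n + cor (c.sig h) y)))) ≤
        ∑ h ∈ (c.cells (c.cls y k)).filter (c.Mg y), -D.B1 (c.sig h) y :=
      sum_le_sum fun h hh => le_of_eq_of_le (by have := hc h; field_simp; ring) (hB h hh).2
    rw [sum_add_distrib, sum_add_distrib, sum_neg_distrib] at h2
    simp only [mul_comm _ (D.K y)] at h1
    linarith
  · refine (sum_le_sum fun h _ => D.eta _ (c.sig_mem h) y).trans ?_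
    rw [← mul_sum, sum_add_distrib]
    exact mul_le_mul_of_nonneg_left (add_le_add_left hlam _) (by positivity)

end Pool.Agent.Lib.MP_f225de_an.Sk
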