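import Pool.Agent.Lib.MP_f225de_an.NU0

set_option autoImplicit false

open MeasureTheory Set
open scoped Real

namespace Pool.Agent.Lib.MP_f225de_an.Nu

open MA Sk

/-- level of the bisector point seen from the node under the angle `a` with the bisector -/
noncomputable def rt (σ a : ℝ) : ℝ := Real.sin σ / Real.sin a

/-- largest such angle on the outer branch -/
noncomputable def a0 (σ : ℝ) : ℝ := min (π / 2) (π - σ)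

/-- the coordinate `tl σ / r` -/
noncomputable def xt (σ a : ℝ) : ℝ := Real.sin a / Real.sin (a0 σ)

/-- slope in the coordinate `xt` of the interpolant of `V` on the cell `j` -/
noncomputable def slp (σ : ℝ) (τ V : ℕ → ℝ) (j : ℕ) : ℝ :=
  (V j - V (j + 1)) / (xt σ (τ j) - xt σ (τ (j + 1)))

/-- the interpolant itself -/
noncomputable def itp (σ : ℝ) (τ V : ℕ → ℝ) (j : ℕ) (a : ℝ) : ℝ :=
  V (j + 1) + slp σ τ V j * (xt σ a - xt σ (τ (j + 1)))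

/-- bounds for one ray ending at level `r` with direction cosine `c` -/
def RayOK (n : ℕ) (r c b v u : ℝ) : Prop :=
  beta n r c ≤ b * Kf n r ∧ Kf n r * ph n b r c ≤ v ∧ (n = 4 → b + b ^ 2 / (4 * mm r c) ≤ u)

/-- the gain conditions at the angle `a` -/
def GainOK (n : ℕ) (σ a c1 c2 g1 g2 : ℝ) : Prop :=
  0 ≤ rt σ a + 2 * Real.cos (σ + a) ∧
  beta n (rt σ a) (Real.cos (σ + a)) * Real.sin a + Kf n (rt σ a) *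
    (c1 * Real.sin (σ + a) + c2 * (1 - Real.cos (σ + a))) * Real.cos a ≤ 0 ∧
  (∀ ψ ∈ Icc 0 (σ + a), -1 ≤ XX c1 c2 ψ) ∧
  2 * π * g1 ≤ -G1 c1 c2 (σ + a) ∧ 2 * G1 c1 c2 (σ + a) + G2 c1 c2 (σ + a) ≤ 2 * π * g2

/-- `α` at radius `r` -/
noncomputable def ar (n : ℕ) (r : ℝ) : ℝ := n * Kf n r / Pf n r

/-- the conditions on the potential of a merged arc at the angle `a`; `t` is its value and `m`
its slope -/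
def TOK (n : ℕ) (F Tb : ℝ → ℝ) (Sh : ℝ → ℝ → ℝ) (σ a C S0 g1 g2 tg t m : ℝ) : Prop :=
  ar n (rt σ a) / n * t + RB n (ar n (rt σ a)) (2 / π * a) (cor (π / 2) (Real.log (rt σ a)))
    (Tb (Real.log (rt σ a))) tg g1 g2 ≤ m * Real.sin a ∧
  2 * n * Sh σ (Real.log (rt σ a)) + Pf n (rt σ a) * tg ≤ Pf n (rt σ a) * t + 2 * n * S0 ∧
  2 * n * (C + S0) + Pf n (rt σ a) * t ≤ T0 n (F (Real.log (rt σ a))) * Pf n (rt σ a) ∧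
  (n = 4 → 2 * n * (C + S0) + Pf n (rt σ a) * t ≤ Tb (Real.log (rt σ a)) * Pf n (rt σ a))

/-- the conditions on the potential of a long half sector at the angle `a` -/
def LOK (n : ℕ) (Tb : ℝ → ℝ) (Sh : ℝ → ℝ → ℝ) (σ a C g1 g2 l m : ℝ) : Prop :=
  Kf n (rt σ a) * RL n (ar n (rt σ a)) (cor (π / 2) (Real.log (rt σ a)))
    (Tb (Real.log (rt σ a))) g1 g2 ≤ -(m * xt σ a) ∧
  0 ≤ C + l ∧ C + l ≤ Sh (π - σ) (Real.log (rt σ a))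

/-- cell data for one angle `σ`: outer cells `τ (j+1) ≤ a ≤ τ j` (`j ≤ N`, rays for `j < j0`,
gain for `j0 ≤ j`), inner cells `η (i+1) ≤ a ≤ η i` (`i < M`) -/
structure Cell (n : ℕ) (F Tb : ℝ → ℝ) (Sh : ℝ → ℝ → ℝ) (σ : ℝ) where
  N : ℕ
  M : ℕ
  j0 : ℕ
  j1 : ℕ
  τ : ℕ → ℝ
  η : ℕ → ℝ
  bo : ℕ → ℝ
  vo : ℕ → ℝ
  uo : ℕ → ℝ
  bi : ℕ → ℝ
  vi : ℕ → ℝ
  ui : ℕ → ℝ
  c1 : ℕ → ℝ
  c2 : ℕ → ℝ
  g1 : ℕ → ℝ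
  g2 : ℕ → ℝ
  T : ℕ → ℝ
  TG : ℕ → ℝ
  L : ℕ → ℝ
  C : ℝ
  S0 : ℝ
  τ_zero : τ 0 = a0 σ
  τ_anti : ∀ j ≤ N, τ (j + 1) < τ j
  τ_end : τ (N + 1) = 0
  η_zero : η 0 = π / 2
  η_anti : ∀ i < M, η (i + 1) ≤ η i
  η_end : η M ≤ σ
  j_le : 0 < j0 ∧ j0 ≤ j1 ∧ j0 ≤ N ∧ j1 ≤ N + 1
  out : ∀ j < j0, 0 ≤ bo j ∧ 0 ≤ vo j ∧ 0 ≤ uo j ∧ g1 j = 0 ∧ g2 j = 0 ∧
    ∀ a ∈ Icc (τ (j + 1)) (τ j), σ + a < π →
      RayOK n (rt σ a) (Real.cos (σ + a)) (bo j) (vo j) (uo j)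
  inn : ∀ i < M, 0 ≤ bi i ∧ 0 ≤ vi i ∧ 0 ≤ ui i ∧
    ∀ a ∈ Icc (η (i + 1)) (η i), σ < a →
      RayOK n (rt σ a) (-Real.cos (a - σ)) (bi i) (vi i) (ui i)
  cost : ∑ j ∈ Finset.range j0, (τ j - τ (j + 1)) * vo j +
    ∑ i ∈ Finset.range M, (η i - η (i + 1)) * vi i ≤ 2 * π * C
  sup : n = 4 → ∑ j ∈ Finset.range j0, (τ j - τ (j + 1)) * uo j +
    ∑ i ∈ Finset.range M, (η i - η (i + 1)) * ui i ≤ π / 2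
  gain : ∀ j, j0 ≤ j → j ≤ N → 0 ≤ c1 j ∧ 0 ≤ c2 j ∧ 0 ≤ g1 j ∧ g1 j ≤ 1 / 4 ∧ g2 j ≤ 0 ∧
    ∀ a ∈ Icc (τ (j + 1)) (τ j), 0 < a → σ + a < π → GainOK n σ a (c1 j) (c2 j) (g1 j) (g2 j)
  cap : (if n = 4 then 12 else 3 / 4 * (n : ℝ)) * C ≤ Pf n (tl σ)
  T_ok : σ ≤ π / 2 → ∀ j ≤ N, 0 ≤ TG j ∧ TG j ≤ n ^ 2 ∧ ∀ a ∈ Icc (τ (j + 1)) (τ j), 0 < a →
    TOK n F Tb Sh σ a C S0 (g1 j) (g2 j) (TG j) (itp σ τ T j a) (slp σ τ T j)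
  L_ok : π / (n - 1) ≤ σ → (n = 4 → 1 ≤ rt σ (τ j0)) ∧ (j1 ≤ N → 1 ≤ rt σ (τ j1)) ∧
    (∀ j ≤ j1, L j = 0) ∧ (∀ y, (j1 ≤ N → Real.exp y ≤ rt σ (τ j1)) → C ≤ Sh (π - σ) y) ∧
    ∀ j, j1 ≤ j → j ≤ N → ∀ a ∈ Icc (τ (j + 1)) (τ j), 0 < a →
      LOK n Tb Sh σ a C (g1 j) (g2 j) (itp σ τ L j a) (slp σ τ L j)

/-- statement (C): cell data give the potentials -/
def CellSt (n : ℕ) : Prop := ∀ F Tb Sh, (∀ y, Tb y ≤ 2) → ∀ σ ∈ Ioo 0 π,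
  Cell n F Tb Sh σ → Nonempty (Sec n F Tb Sh σ)

end Pool.Agent.Lib.MP_f225de_an.Nu
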