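import Pool.Agent.Lib.MP_f225de_an.NG1
import Pool.Agent.Lib.MP_f225de_an.NU1

set_option autoImplicit false

open MeasureTheory Set Filter Topology
open scoped Real

namespace Pool.Agent.Lib.MP_f225de_an.Nu

open MA Sk

/-- a partition in cells `[τ (i+1), τ i]` of the range of the angle `t` with `r sin t = sin σ` -/
structure Part (σ : ℝ) where
  N : ℕ
  τ : ℕ → ℝ
  N_pos : 0 < N
  τ_zero : τ 0 = min (π / 2) (π - σ)
  τ_N : τ N = 0
  anti : ∀ i < N, τ (i + 1) < τ i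

/-- index of the cell of `w` for the nodes `W 1, .., W k` -/
noncomputable def idx (W : ℕ → ℝ) : ℕ → ℝ → ℕ
  | 0, _ => 0
  | k + 1, w => if W (k + 1) ≤ w then idx W k w else k + 1

variable {W : ℕ → ℝ} {w : ℝ}

lemma idx_spec (W : ℕ → ℝ) (w : ℝ) : ∀ k, idx W k w ≤ k ∧ (idx W k w = 0 ∨ w < W (idx W k w)) ∧
    (idx W k w = k ∨ W (idx W k w + 1) ≤ w)
  | 0 => by simp [idx]
  | k + 1 => by
    obtain ⟨a, b, c⟩ := idx_spec W w k
    rw [idx]
    split_ifs with h
    · exact ⟨by omega, b, .inr (c.elim (fun e => e.symm ▸ h) id)⟩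
    · exact ⟨le_rfl, .inr (not_le.1 h), .inl rfl⟩

lemma idx_meas (W : ℕ → ℝ) : ∀ k, Measurable (idx W k)
  | 0 => measurable_const
  | k + 1 => Measurable.ite measurableSet_Ici (idx_meas W k) measurable_const

lemma idx_ev : ∀ k, (∀ i ≤ k, w ≠ W i) → ∀ᶠ v in 𝓝 w, idx W k v = idx W k w
  | 0, _ => .of_forall fun _ => rfl
  | k + 1, h => by
    rcases lt_or_gt_of_ne (h _ le_rfl) with e | e
    · exact mem_of_superset (Iio_mem_nhds e) fun v hv => by
        simp only [mem_ofPred_eq, idx, if_neg (not_le.2 (mem_Iio.1 hv)), if_neg (not_le.2 e)]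
    · filter_upwards [Ioi_mem_nhds e, idx_ev k fun i hi => h i (by omega)] with v a b
      rw [idx, idx, if_pos a.le, if_pos e.le, b]

/-- linear interpolation on the cell `i` -/
noncomputable def lin (W T : ℕ → ℝ) (i : ℕ) (w : ℝ) : ℝ :=
  T (i + 1) + (T i - T (i + 1)) * ((w - W (i + 1)) / (W i - W (i + 1)))

lemma lin_cont (T : ℕ → ℝ) : ∀ k, (∀ i ≤ k, W (i + 1) < W i) →
    (Continuous fun w => lin W T (idx W k w) w) ∧ lin W T (idx W k (W (k + 1))) (W (k + 1)) = T (k + 1)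
  | 0, _ => ⟨by unfold lin idx; fun_prop, by simp [lin, idx]⟩
  | k + 1, h => by
    obtain ⟨a, b⟩ := lin_cont T k fun i hi => h i (by omega)
    refine ⟨?_, by simp [idx, (h _ le_rfl).not_ge, lin]⟩
    refine (Continuous.if_le (g' := lin W T (k + 1)) (f := fun _ => W (k + 1)) a
      (by unfold lin; fun_prop) continuous_const continuous_id ?_).congr fun w => by
        simp only [idx, id]; split_ifs <;> rfl
    rintro _ rfl
    rw [b, lin, div_self (sub_pos.2 (h _ le_rfl)).ne']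
    ring

lemma lin_mem (T : ℕ → ℝ) {i : ℕ} (h : W (i + 1) < W i) (hw : w ∈ Icc (W (i + 1)) (W i)) :
    lin W T i w ∈ uIcc (T i) (T (i + 1)) := by
  have a := div_nonneg (sub_nonneg.2 hw.1) (sub_pos.2 h).le
  have b := (div_le_one (sub_pos.2 h)).2 (sub_le_sub_right hw.2 _)
  rw [lin, mem_uIcc]
  rcases le_total (T i) (T (i + 1)) with e | e
  · left; constructor <;> nlinarith
  · right; constructor <;> nlinarith

lemma lin_der (T : ℕ → ℝ) {k : ℕ} {s y : ℝ} (h : ∀ i ≤ k, s / Real.exp y ≠ W i) :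
    HasDerivAt (fun y => lin W T (idx W k (s / Real.exp y)) (s / Real.exp y))
      (-((T (idx W k (s / Real.exp y)) - T (idx W k (s / Real.exp y) + 1)) * (s / Real.exp y) /
        (W (idx W k (s / Real.exp y)) - W (idx W k (s / Real.exp y) + 1)))) y := by
  have d : HasDerivAt (fun y => s / Real.exp y) (-(s / Real.exp y)) y :=
    ((hasDerivAt_const y s).div (Real.hasDerivAt_exp y) (Real.exp_pos y).ne').congr_deriv
      (by field_simp; simp)
  refine HasDerivAt.congr_of_eventuallyEq (f := fun t => lin W T (idx W k (s / Real.exp y))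
    (s / Real.exp t)) (((((d.sub_const _).div_const _).const_mul _).const_add _).congr_deriv ?_)
    ((d.continuousAt.eventually (idx_ev k h)).mono fun t ht => by simp only [ht])
  ring

lemma lint_sum {N : ℕ} {l h d a : ℕ → ℝ} (ha : ∀ i < N, 0 ≤ d i ∧ 0 ≤ a i) (e : ∀ i, h i - l i = d i) :
    (Measurable fun ψ => ∑ i ∈ Finset.range N,
      (Icc (l i) (h i)).indicator (fun _ => ENNReal.ofReal (a i)) ψ) ∧
    0 ≤ ∑ i ∈ Finset.range N, d i * a i ∧ ∫⁻ ψ, ∑ i ∈ Finset.range N,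
      (Icc (l i) (h i)).indicator (fun _ => ENNReal.ofReal (a i)) ψ =
      ENNReal.ofReal (∑ i ∈ Finset.range N, d i * a i) := by
  have p : ∀ i ∈ Finset.range N, 0 ≤ d i * a i := fun i hi =>
    mul_nonneg (ha i (Finset.mem_range.1 hi)).1 (ha i (Finset.mem_range.1 hi)).2
  refine ⟨Finset.measurable_sum _ fun i _ => measurable_const.indicator measurableSet_Icc,
    Finset.sum_nonneg p, ?_⟩
  rw [lintegral_finsetSum _ fun i _ => measurable_const.indicator measurableSet_Icc,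
    ENNReal.ofReal_sum_of_nonneg p]
  refine Finset.sum_congr rfl fun i hi => ?_
  rw [lintegral_indicator_const measurableSet_Icc, Real.volume_Icc, e,
    ← ENNReal.ofReal_mul (ha i (Finset.mem_range.1 hi)).2, mul_comm]

lemma lint_cells {σ : ℝ} {N M : ℕ} {τ η a b : ℕ → ℝ} {u : ℝ → ℝ}
    (ha : ∀ i < N, τ (i + 1) ≤ τ i ∧ 0 ≤ a i) (hb : ∀ i < M, η (i + 1) ≤ η i ∧ 0 ≤ b i)
    (h : ∀ ψ ∈ Ioo σ π, u ψ ≤ 0 ∨ (∃ i < N, ψ - σ ∈ Icc (τ (i + 1)) (τ i) ∧ u ψ ≤ a i) ∨
      ∃ i < M, σ + π - ψ ∈ Icc (η (i + 1)) (η i) ∧ u ψ ≤ b i) :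
    ∫⁻ ψ in Ioo σ π, ENNReal.ofReal (u ψ) ≤
      ENNReal.ofReal (∑ i ∈ Finset.range N, (τ i - τ (i + 1)) * a i +
        ∑ i ∈ Finset.range M, (η i - η (i + 1)) * b i) := by
  obtain ⟨a1, a2, a3⟩ := lint_sum (l := fun i => σ + τ (i + 1)) (h := fun i => σ + τ i)
    (fun i hi => ⟨sub_nonneg.2 (ha i hi).1, (ha i hi).2⟩) fun i => by ring
  obtain ⟨-, b2, b3⟩ := lint_sum (l := fun i => σ + π - η i) (h := fun i => σ + π - η (i + 1))
    (fun i hi => ⟨sub_nonneg.2 (hb i hi).1, (hb i hi).2⟩) fun i => by ring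
  rw [ENNReal.ofReal_add a2 b2, ← a3, ← b3, ← lintegral_add_left a1]
  refine (setLIntegral_mono' measurableSet_Ioo fun ψ hψ => ?_).trans (setLIntegral_le_lintegral _ _)
  rcases h ψ hψ with d | ⟨i, hi, c, d⟩ | ⟨i, hi, c, d⟩
  · exact (ENNReal.ofReal_of_nonpos d).trans_le zero_le
  · refine le_trans (le_trans ?_ (Finset.single_le_sum (fun _ _ => zero_le)
      (Finset.mem_range.2 hi))) le_self_add
    rw [indicator_of_mem (show ψ ∈ Icc _ _ from ⟨by linarith [c.1], by linarith [c.2]⟩)]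
    exact ENNReal.ofReal_le_ofReal d
  · refine le_trans (le_trans ?_ (Finset.single_le_sum (fun _ _ => zero_le)
      (Finset.mem_range.2 hi))) le_add_self
    rw [indicator_of_mem (show ψ ∈ Icc _ _ from ⟨by linarith [c.2], by linarith [c.1]⟩)]
    exact ENNReal.ofReal_le_ofReal d

end Pool.Agent.Lib.MP_f225de_an.Nu
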