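import Pool.Agent.Lib.MP_f225de_an.NR3

set_option autoImplicit false

open MeasureTheory Set Filter Topology
open scoped Real

namespace Pool.Agent.Lib.MP_f225de_an.Nu

open MA Sk

variable {n : ℕ}

open Classical in
/-- extension by a default value -/
noncomputable def ext {β : Type} [Inhabited β] (f : ∀ σ ∈ Ioc 0 π, β) (σ : ℝ) : β :=
  if h : σ ∈ Ioc 0 π then f σ h else default

lemma ext_eq {β : Type} [Inhabited β] (f : ∀ σ ∈ Ioc 0 π, β) {σ : ℝ} (h : σ ∈ Ioc 0 π) :
    ext f σ = f σ h := dif_pos h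

lemma al_bd (hn : 4 ≤ n) (y : ℝ) : 0 < ay n y ∧ ay n y ≤ 11 / 10 ∧
    Kf n (Real.exp y) = ay n y * Py n y / n := by
  have p := P_pos (by omega : 2 ≤ n) (Real.exp_pos y)
  have k := K_pos (by omega : 2 ≤ n) (Real.exp_pos y)
  have : (0 : ℝ) < n := by positivity
  exact ⟨by unfold ay; positivity, (div_le_iff₀ p).2 (al_le hn (Real.exp_pos y)),
    by unfold ay Py; field_simp⟩

/-- the cut off exponential -/
noncomputable def mu1 (σ y : ℝ) : ℝ := min 1 (Real.exp (2 / 3 * (y - Real.log (tl σ))))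

lemma mu1_bd (σ y : ℝ) : 0 < mu1 σ y ∧ mu1 σ y ≤ 1 :=
  ⟨lt_min one_pos (Real.exp_pos _), min_le_left _ _⟩

lemma mu1_der (σ : ℝ) {y : ℝ} (h : y ≠ Real.log (tl σ)) : ∃ d ≥ 0, HasDerivAt (mu1 σ) d y := by
  have d := ((((hasDerivAt_id' y).sub_const (Real.log (tl σ))).const_mul (2 / 3)).exp)
  rcases lt_or_gt_of_ne h with e | e
  · exact ⟨_, by positivity, d.congr_of_eventuallyEq (mem_of_superset (Iio_mem_nhds e) fun t ht =>
      min_eq_right (Real.exp_le_one_iff.2 (by linarith [mem_Iio.1 ht])))⟩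
  · exact ⟨0, le_rfl, (hasDerivAt_const y (1 : ℝ)).congr_of_eventuallyEq (mem_of_superset (Ioi_mem_nhds e)
      fun t ht => min_eq_left (Real.one_le_exp (by linarith [mem_Ioi.1 ht])))⟩

lemma P_mu1 (hn : 4 ≤ n) {σ : ℝ} (h : 0 < tl σ) (y : ℝ) : Pf n (tl σ) * mu1 σ y ≤ Py n y := by
  have h2 : 2 ≤ n := by omega
  have p := P_pos h2 h
  rcases le_total y (Real.log (tl σ)) with e | e
  · have := antitone_of_hasDerivAt_nonpos (fun y => (P_der h2 y).mul
      ((hasDerivAt_id' y).const_mul (-(2 / 3))).exp) (fun y => ?_) e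
    · simp only [Pi.mul_apply, Real.exp_log h] at this
      refine (mul_le_mul_of_nonneg_left (min_le_right _ _) p.le).trans
        (le_of_mul_le_mul_right (le_of_eq_of_le ?_ this) (Real.exp_pos _))
      rw [mul_assoc, ← Real.exp_add]
      ring_nf
    · have := al_le hn (Real.exp_pos y)
      have n4 : (4 : ℝ) ≤ n := by exact_mod_cast hn
      have := mul_le_mul_of_nonneg_right n4 (K_pos h2 (Real.exp_pos y)).le
      have := P_pos h2 (Real.exp_pos y)
      simp only [Pi.zero_apply]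
      nlinarith [Real.exp_pos (-(2 / 3) * y)]
  · exact (mul_le_of_le_one_right p.le (min_le_left _ _)).trans
      (P_mono h2 h ((Real.log_le_iff_le_exp h).1 e))

lemma tl_pos {σ : ℝ} (h : σ ∈ Ioc 0 π) : 0 < tl σ ∧ tl σ ≤ 1 := by
  unfold tl
  split_ifs with e
  · exact ⟨Real.sin_pos_of_pos_of_lt_pi h.1 (by linarith [Real.pi_pos]), Real.sin_le_one σ⟩
  · simp

lemma half {s : ℝ} (h : s ∈ Ioc 0 (π / 2)) : s ∈ Ioc 0 π := ⟨h.1, by linarith [h.2, Real.pi_pos]⟩

lemma long (hn : 4 ≤ n) {s : ℝ} (h : s ∈ Icc (π / (n - 1)) π) : s ∈ Ioc 0 π :=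
  have : (4 : ℝ) ≤ n := by exact_mod_cast hn
  ⟨(div_pos Real.pi_pos (by linarith)).trans_le h.1, h.2⟩

lemma all_sec (hn : 4 ≤ n) (hR : RaySt n) (G : Glob n) : ∀ σ ∈ Ioc 0 π,
    ∃ S : Sec n G.F G.Tb G.Sh σ, ∃ R : Ray n σ S.C S.r1 S.g1 S.g2,
      σ = π → ∀ y ψ, Kf n (Real.exp y) ≤ R.k y ψ := by
  intro σ hσ
  have h2 : 2 ≤ n := by omega
  have hπ := Real.pi_pos
  rcases hσ.2.lt_or_eq with e | rfl
  · obtain ⟨S⟩ := G.sec σ ⟨hσ.1, e⟩
    obtain ⟨F⟩ := S.fld
    obtain ⟨R⟩ := hR σ ⟨hσ.1, e⟩ _ _ _ _ S.C_pos (fun r => (S.g_bd r).1) F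
    exact ⟨S, R, fun h => (e.ne h).elim⟩
  have no : ¬π ≤ π / 2 := by linarith
  have v0 : ∀ y (c : ℝ), ∫ _ in Arc π (Real.exp y), c = 2 * π * lam π y * c := fun y c => by
    rw [setIntegral_const, lam, mul_div_cancel₀ _ (by positivity), smul_eq_mul, Measure.real]
  refine ⟨⟨0, 2, 0, 0, 0, 0, 0, 0, 0, 0, ∅, le_rfl, ⟨⟨0, 0, 0, 0, measurable_zero, measurable_zero,
    measurable_zero, by simp, (tl_pos hσ).2.trans one_le_two, by simp, by simp, by simp,
    fun r hr => ?_, by simp, by simp⟩⟩, measurable_zero, fun _ _ => continuousAt_const, by simp,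
    by simpa using (P_pos h2 (tl_pos hσ).1).le, (no · |>.elim), (no · |>.elim), (no · |>.elim),
    fun _ => continuous_zero, fun _ y _ => ⟨hasDerivAt_const y _, by simp [RL]⟩,
    fun _ => ⟨fun _ => one_le_two, fun y => by simp [G.Sh_zero]⟩⟩,
    ⟨fun y _ => Kf n (Real.exp y), 0, 0, 0, 0, 0, ⟨fun r _ => Kf n r, ⟨⟨0, 0, 0, 0, 0, fun _ => ∅,
      fun _ => ∅, measurable_zero, measurable_zero, measurable_zero, measurable_zero,
      (Kf_meas h2).comp measurable_fst, fun _ => countable_empty, fun _ => countable_empty,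
      by simp, by simp, by simp, by simp, by simp, fun _ _ => ⟨rfl, continuousOn_const⟩, by simp,
      fun r _ ψ _ _ => hasDerivAt_const ψ _, by simp, fun r hr ψ hψ v w => ?_⟩⟩,
      fun _ _ _ => le_rfl⟩, fun _ => measurable_const, fun y _ => (K_pos h2 (Real.exp_pos y)).le,
      fun y => integrableOn_const (Arc_fin _ _), fun y => (v0 y _).trans_le (by simp; linarith),
      fun y => (v0 y _).trans_le (by simp; linarith), fun _ => continuous_zero, by simp, by simp,
      by simp, (no · |>.elim), fun y => ⟨hasDerivAt_const y _, by simp [rho]⟩, by simp, by simp⟩,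
    fun _ _ _ => le_rfl⟩
  · simp [ao, XX, G1, G2, M1, M2, hr.le]
  · have := (mul_pos (K_pos h2 hr) (sub_pos.2 (cc_lt hr hψ.1))).le.trans (Psi_ge h2 hr hψ.1)
    simpa using by positivity

variable (hn : 4 ≤ n) (G : Glob n) (S : ∀ σ ∈ Ioc 0 π, Sec n G.F G.Tb G.Sh σ)
  (R : ∀ σ h, Ray n σ (S σ h).C (S σ h).r1 (S σ h).g1 (S σ h).g2)

lemma R_le {σ C r1 : ℝ} {g1 g2 : ℝ → ℝ} (R : Ray n σ C r1 g1 g2) (y : ℝ) :
    R.R y ≤ R.Rt * mu1 σ y ∧ R.R y ≤ R.Rt :=
  ⟨(R.R_bd y).2.1, (R.R_bd y).2.1.trans (mul_le_of_le_one_right R.Rt_bd.1 (min_le_left _ _))⟩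

include hn in
lemma cap_le {σ : ℝ} (h : σ ∈ Ioc 0 π) (y : ℝ) :
    n * ((S σ h).C * mu1 σ y) ≤ (if n = 4 then 1 / 3 else 4 / 3) * Py n y := by
  have := (mul_le_mul_of_nonneg_right (S σ h).cap (mu1_bd σ y).1.le).trans (P_mu1 hn (tl_pos h).1 y)
  split_ifs at this ⊢ with e
  · subst e
    push_cast
    linarith
  · linarith

/-- the potentials built from the numerical input -/
noncomputable def baseOf : Base n where
  P := Py n
  K y := Kf n (Real.exp y)
  F := G.F
  F1 := G.F1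
  A := ext fun σ h => (R σ h).R
  A1 := ext fun σ h => (R σ h).R1
  B := ext fun σ h y => (R σ h).Rt - (R σ h).R y + Py n y * (S σ h).T y / (2 * n) + (S σ h).S0
  B1 := ext fun σ h y => -(R σ h).R1 y +
    (Kf n (Real.exp y) * (S σ h).T y + Py n y * (S σ h).T1 y) / (2 * n)
  G := ext fun σ h y => Py n y * (S σ h).TG y / (2 * n)
  L := ext fun σ h y => (R σ h).R y + ((S σ h).C - (R σ h).Rt) * mu1 σ y + (S σ h).Lg y
  L1 := ext fun σ h y => (R σ h).R1 y + ((S σ h).C - (R σ h).Rt) * deriv (mu1 σ) y + (S σ h).Lg1 y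
  Sh := G.Sh
  X s := G.X ∪ ext (fun σ h => insert (Real.log (tl σ)) (S σ h).X) s
  a0 := if n = 4 then 1 / 3 else 4 / 3
  l0 := if n = 4 then 1 / 3 else 4 / 3
  a0_l0 := by
    split_ifs with e
    · exact ⟨by norm_num, by norm_num, .inl e⟩
    · have : (5 : ℝ) ≤ n := by exact_mod_cast (by omega : 5 ≤ n)
      exact ⟨by norm_num, by norm_num, .inr (by linarith)⟩
  P_pos y := P_pos (by omega) (Real.exp_pos y)
  P_le y := P_le (by omega) (Real.exp_pos y)
  P_der := P_der (by omega)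
  K_cont := K_cont (by omega)
  K_pos y := K_pos (by omega) (Real.exp_pos y)
  F_cont := G.F_cont
  F_pos y := by linarith [(G.F_bd y).1]
  F_le y := (G.F_bd y).2.1
  F_der y hy := G.F_der y fun h => hy (Finset.mem_union_left _ h)
  A_cont s hs := by
    rw [ext_eq _ (half hs)]
    exact fun y _ => ((R s _).R_der y).1.continuousAt.continuousWithinAt
  A_bd s hs y _ := by
    rw [ext_eq _ (half hs)]
    exact ⟨((R s _).R_bd y).1, (mul_le_mul_of_nonneg_left ((R_le _ y).1.trans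
      (mul_le_mul_of_nonneg_right (R s _).Rt_bd.2 (mu1_bd s y).1.le)) n.cast_nonneg).trans
      (cap_le hn G S (half hs) y)⟩
  B_cont s hs := by
    rw [ext_eq _ (half hs)]
    exact ((continuousOn_const.sub fun y _ =>
      ((R s _).R_der y).1.continuousAt.continuousWithinAt).add (((P_cont (by omega)).continuousOn.mul
      ((S s _).T_cont hs.2)).div_const _)).add continuousOn_const
  B_bd s hs y hy := by
    simp only [ext_eq _ (half hs)]
    obtain ⟨a, b, c, d, -⟩ := (S s (half hs)).T_bd hs.2 y hy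
    have n0 : (0 : ℝ) < n := by positivity
    have p : 0 < Py n y := P_pos (by omega) (Real.exp_pos y)
    have r1 := mul_le_mul_of_nonneg_left (R_le (R s (half hs)) y).2 n0.le
    have r2 := mul_le_mul_of_nonneg_left (R s (half hs)).Rt_bd.2 n0.le
    have r3 := mul_nonneg n0.le ((R s (half hs)).R_bd y).1
    refine ⟨by positivity, ?_, ?_, ?_, fun _ => G.Sh_pos s hs.1.le y⟩
    · field_simp
      linarith
    · field_simp
      linarith
    · field_simp
      linarith
  AB s hs y hy := by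
    simp only [ext_eq _ (half hs)]
    have d := ((S s (half hs)).T_bd hs.2 y hy.ge).2.2.2.1
    have n0 : (0 : ℝ) < n := by positivity
    have r2 := mul_le_mul_of_nonneg_left (R s (half hs)).Rt_bd.2 n0.le
    field_simp
    linarith
  Sh_zero y := (G.Sh_zero y).le
  Sh_add a b y ha hb _ := G.Sh_add a ha.le b hb y
  L_cont s hs := by
    rw [ext_eq _ (long hn hs)]
    exact ((continuous_iff_continuousAt.2 fun y => ((R s _).R_der y).1.continuousAt).add
      (continuous_const.mul (by unfold mu1; fun_prop))).add ((S s _).L_cont hs.1)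
  L_bd s hs y := by
    simp only [ext_eq _ (long hn hs)]
    obtain ⟨a, -, c⟩ := ((S s (long hn hs)).L_bd hs.1).2 y
    have r1 := (R_le (R s (long hn hs)) y).1
    have m := mu1_bd s y
    refine ⟨fun hy => ?_, by nlinarith [(S s (long hn hs)).C_pos]⟩
    rw [a ((Real.exp_le_one_iff.2 hy.le).trans (le_max_right _ _)), add_zero]
    exact ⟨add_nonneg ((R s _).R_bd y).1 (mul_nonneg (sub_nonneg.2 (R s _).Rt_bd.2) m.1.le),
      (mul_le_mul_of_nonneg_left (by linarith) n.cast_nonneg).trans (cap_le hn G S (long hn hs) y)⟩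

end Pool.Agent.Lib.MP_f225de_an.Nu
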