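import Pool.Agent.Lib.MP_f225de_an.NG1
import Pool.Agent.Lib.MP_f225de_an.Fin0

set_option autoImplicit false

open MeasureTheory Set Filter Topology
open scoped Real

namespace Pool.Agent.Lib.MP_f225de_an.Nu

open MA Sk

section
variable {n : ℕ} (hn : 4 ≤ n) (G : Glob n) (S : ∀ σ ∈ Ioc 0 π, Sec n G.F G.Tb G.Sh σ)
  (R : ∀ σ h, Ray n σ (S σ h).C (S σ h).r1 (S σ h).g1 (S σ h).g2)

/-- first moment excess -/
noncomputable def z1 : ℝ → ℝ → ℝ := ext fun σ h y => (R σ h).p y - (S σ h).g1 (Real.exp y)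

/-- second moment excess -/
noncomputable def z2 : ℝ → ℝ → ℝ :=
  ext fun σ h y => 2 * (R σ h).p y + (R σ h).Z y + (S σ h).g2 (Real.exp y)

lemma g_low {σ : ℝ} {F Tb : ℝ → ℝ} {Sh : ℝ → ℝ → ℝ} (S : Sec n F Tb Sh σ) {r : ℝ} (h : r ≤ S.r1) :
    S.g1 r = 0 ∧ S.g2 r = 0 := by
  obtain ⟨F⟩ := S.fld
  exact (F.low r h).2.2

lemma g_low' {σ : ℝ} {F Tb : ℝ → ℝ} {Sh : ℝ → ℝ → ℝ} (S : Sec n F Tb Sh σ) (hs : σ ∈ Ioc 0 (π / 2))
    {y : ℝ} (h : y < Real.log (Real.sin σ)) : S.g1 (Real.exp y) = 0 ∧ S.g2 (Real.exp y) = 0 := by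
  obtain ⟨F⟩ := S.fld
  exact g_low S (((Real.lt_log_iff_exp_lt (Real.sin_pos_of_pos_of_lt_pi hs.1
    (by linarith [hs.2, Real.pi_pos]))).1 h).le.trans ((tl_ge σ).trans F.r1_ge))

lemma X_not {s y : ℝ} (h : s ∈ Ioc 0 π) (hy : y ∉ (baseOf hn G S R).X s) :
    y ≠ Real.log (tl s) ∧ y ∉ (S s h).X := by
  simp only [baseOf, ext_eq _ h, Finset.mem_union, Finset.mem_insert, not_or] at hy
  exact hy.2

lemma dArc {s : ℝ} (h : s ∈ Ioc 0 π) (y : ℝ) :
    HasDerivAt ((baseOf hn G S R).A s) ((baseOf hn G S R).A1 s y) y ∧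
    rho n (R s h).p (R s h).Z y ≤ (baseOf hn G S R).A1 s y := by
  simp only [baseOf, ext_eq _ h]
  exact (R s h).R_der y

lemma dB {s y : ℝ} (hs : s ∈ Ioc 0 (π / 2)) (hy : Real.log (Real.sin s) < y)
    (hX : y ∉ (baseOf hn G S R).X s) :
    HasDerivAt ((baseOf hn G S R).B s) ((baseOf hn G S R).B1 s y) y ∧
    rho n (R s (half hs)).p (R s (half hs)).Z y + Py n y / (2 * n) * RB n (ay n y) (cor s y)
      (cor (π / 2) y) (G.Tb y) ((S s (half hs)).TG y) ((S s (half hs)).g1 (Real.exp y))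
      ((S s (half hs)).g2 (Real.exp y)) ≤ -(baseOf hn G S R).B1 s y := by
  obtain ⟨a, b⟩ := (S s (half hs)).T_der hs.2 y hy (X_not hn G S R _ hX).2
  simp only [baseOf, ext_eq _ (half hs)]
  refine ⟨(((((R s _).R_der y).1.const_sub _).add (((P_der (by omega) y).mul a).div_const
    _)).add_const _), ?_⟩
  have p : 0 < Py n y := P_pos (by omega) (Real.exp_pos y)
  have := mul_le_mul_of_nonneg_left b (by positivity : 0 ≤ Py n y / (2 * n))
  have := ((R s (half hs)).R_der y).2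
  rw [(al_bd hn y).2.2]
  ring_nf at *
  linarith

lemma dL {s y : ℝ} (hs : s ∈ Icc (π / (n - 1)) π) (hX : y ∉ (baseOf hn G S R).X s) :
    HasDerivAt ((baseOf hn G S R).L s) ((baseOf hn G S R).L1 s y) y ∧
    rho n (R s (long hn hs)).p (R s (long hn hs)).Z y + Kf n (Real.exp y) * RL n (ay n y)
      (cor (π / 2) y) (G.Tb y) ((S s (long hn hs)).g1 (Real.exp y))
      ((S s (long hn hs)).g2 (Real.exp y)) ≤ (baseOf hn G S R).L1 s y := by
  obtain ⟨x1, x2⟩ := X_not hn G S R (long hn hs) hX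
  obtain ⟨a, b⟩ := (S s _).L_der hs.1 y x2
  obtain ⟨d, d0, hd⟩ := mu1_der s x1
  simp only [baseOf, ext_eq _ (long hn hs), hd.deriv]
  exact ⟨(((R s _).R_der y).1.add (hd.const_mul _)).add a, by
    linarith [((R s (long hn hs)).R_der y).2,
      mul_nonneg (sub_nonneg.2 (R s (long hn hs)).Rt_bd.2) d0]⟩

/-- the data for degree at least five -/
noncomputable def dataW (h5 : n ≠ 4) : DataW n
    (fun s y => Kf n (Real.exp y) * (lam s y + z1 G S R s y))
    (fun s y => Kf n (Real.exp y) ^ 2 * (lam s y + z2 G S R s y)) where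
  toBase := baseOf hn G S R
  al := ay n
  x1 := ext fun σ h y => (R σ h).p y - min ((S σ h).g1 (Real.exp y)) (cor σ y / 2)
  x2 := z2 G S R
  z1 := z1 G S R
  z2 := z2 G S R
  xa := ext fun σ h y => -min ((S σ h).g1 (Real.exp y)) (cor σ y / 2)
  sq := ext fun σ h y => (R σ h).Z y / 2
  dm := 0
  al_eq _ := rfl
  al_lt y := (al_bd hn y).2.1.trans_lt (by norm_num)
  x_bd s hs y := by
    simp only [z1, ext_eq _ (half hs)]
    have := min_le_left ((S s (half hs)).g1 (Real.exp y)) (cor s y / 2)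
    exact ⟨mul_le_mul_of_nonneg_left (by linarith) (K_pos (by omega) (Real.exp_pos y)).le, le_rfl,
      by linarith [((R s (half hs)).pos y).1, ((S s (half hs)).g_bd (Real.exp y)).2.1]⟩
  z_bd s hs y := by
    refine ⟨le_rfl, le_rfl, ?_⟩
    simp only [z1, ext_eq _ (long hn hs)]
    linarith [((R s (long hn hs)).pos y).1, ((S s (long hn hs)).g_bd (Real.exp y)).2.1]
  xa_meas s hs := by
    rw [ext_eq _ (half hs)]
    exact (((S s _).g_meas.comp Real.measurable_exp).min ((cor_cont s).measurable.div_const _)).neg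
  xa_bd s hs y := by
    simp only [ext_eq _ (half hs)]
    exact ⟨by linarith [min_le_right ((S s (half hs)).g1 (Real.exp y)) (cor s y / 2)],
      neg_nonpos.2 (le_min ((S s _).g_bd _).1 (by linarith [cor_nonneg (half hs) y]))⟩
  xa_cont s hs y hy := by
    rw [ext_eq _ (half hs)]
    exact (((S s _).g_cont y (X_not hn G S R _ hy).2).min
      ((cor_cont s).continuousAt.div_const _)).neg
  sq_bd s hs y hy := by
    simp only [ext_eq _ (half hs)]
    exact ⟨by linarith [((R s (half hs)).pos y).2], by linarith [(R s (half hs)).cs2 hs.2 y hy]⟩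
  dm_bd := .inl rfl
  A_der s hs y hy _ := by
    refine ⟨(dArc hn G S R (half hs) y).1, le_trans ?_ (dArc hn G S R (half hs) y).2⟩
    obtain ⟨a, b⟩ := g_low' (S s (half hs)) hs hy
    have c := min_eq_left (by linarith [cor_nonneg (half hs) y] : 0 ≤ cor s y / 2)
    simp only [z2, ext_eq _ (half hs), a, b, c, rho, w1, Nu.w2, if_neg h5, mul_zero, zero_mul,
      sub_zero]
    refine mul_le_mul_of_nonneg_left ?_ (K_pos (by omega) (Real.exp_pos y)).le
    nlinarith [(R s (half hs)).cs y, (al_bd hn y).2.1]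
  B_der s hs y hy hX := by
    refine ⟨(dB hn G S R hs hy hX).1, le_of_eq_of_le ?_ (dB hn G S R hs hy hX).2⟩
    have n0 : (n : ℝ) ≠ 0 := by positivity
    simp only [baseOf, z2, ext_eq _ (half hs), rho, w1, Nu.w2, RB, if_neg h5, (al_bd hn y).2.2,
      mul_neg, ← sub_eq_add_neg]
    generalize (n + (cor s y - ay n y * min _ _) : ℝ) = D
    rcases eq_or_ne D 0 with rfl | hD
    · simp only [mul_zero, div_zero]
      field_simp
      ring
    · field_simp
      ring
  L_der s hs y hX := by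
    refine ⟨(dL hn G S R hs hX).1, le_trans ?_ (dL hn G S R hs hX).2⟩
    simp only [z1, z2, ext_eq _ (long hn hs), rho, w1, Nu.w2, RL, if_neg h5, ← mul_add]
    refine mul_le_mul_of_nonneg_left ?_ (K_pos (by omega) (Real.exp_pos y)).le
    nlinarith [(R s (long hn hs)).cs y, (al_bd hn y).2.1, mul_nonneg ((R s (long hn hs)).pos y).1
      ((S s (long hn hs)).g_bd (Real.exp y)).1]

end

lemma long4 {s : ℝ} (h : s ∈ Icc (π / 3) π) : s ∈ Icc (π / (((4 : ℕ) : ℝ) - 1)) π := by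
  norm_num [h.1, h.2]

/-- the data for degree four -/
noncomputable def data4 (G : Glob 4) (S : ∀ σ ∈ Ioc 0 π, Sec 4 G.F G.Tb G.Sh σ)
    (R : ∀ σ h, Ray 4 σ (S σ h).C (S σ h).r1 (S σ h).g1 (S σ h).g2) : Data4
    (fun s y => Kf 4 (Real.exp y) * (lam s y + z1 G S R s y))
    (fun s y => Kf 4 (Real.exp y) ^ 2 * (lam s y + z2 G S R s y)) where
  toBase := baseOf le_rfl G S R
  al := ay 4
  Tb := G.Tb
  x1 := z1 G S R
  x2 := z2 G S R
  z1 := z1 G S R
  z2 := z2 G S R
  al_eq _ := rfl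
  al_le y := (al_bd le_rfl y).2.1
  cap := by norm_num [baseOf]
  F_bd y _ := ⟨(G.F_bd y).1, (G.F_bd y).2.2 rfl⟩
  Tb_bd := G.Tb_bd
  B_le s hs y hy := by
    have := ((S s (half hs)).T_bd hs.2 y hy.le).2.2.2.2 rfl
    simp only [baseOf, ext_eq _ (half hs), Nat.cast_ofNat] at this ⊢
    linarith [(R s (half hs)).Rt_bd.2, ((R s (half hs)).R_bd y).1]
  L_pos s hs y := by
    have h := long le_rfl (long4 hs)
    obtain ⟨a, b, -⟩ := ((S s h).L_bd (long4 hs).1).2 y
    simp only [baseOf, ext_eq _ h]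
    rcases le_total (Real.exp y) (max (S s h).r1 1) with e | e
    · rw [a e, add_zero]
      exact add_nonneg ((R s h).R_bd y).1
        (mul_nonneg (sub_nonneg.2 (R s h).Rt_bd.2) (mu1_bd s y).1.le)
    · rw [((R s h).R_bd y).2.2 e, show mu1 s y = 1 from min_eq_left (Real.one_le_exp (by
        linarith [Real.log_nonpos (tl_pos h).1.le (tl_pos h).2,
          Real.one_le_exp_iff.1 ((le_max_right _ _).trans e)]))]
      linarith
  x_bd s hs y := by
    refine ⟨le_rfl, le_rfl, ?_⟩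
    simp only [z1, ext_eq _ (half hs)]
    have := ((R s (half hs)).pos y).1
    have := (R s (half hs)).p_le rfl y
    have := (S s (half hs)).g_bd (Real.exp y)
    exact ⟨by linarith [this.2.1], fun _ => by linarith [this.1], fun h => by
      rw [(g_low' (S s _) hs h).1]; constructor <;> linarith⟩
  z_bd s hs y := by
    have h := long le_rfl (long4 hs)
    refine ⟨le_rfl, le_rfl, ?_⟩
    simp only [z1, ext_eq _ h]
    have := ((R s h).pos y).1
    have := (R s h).p_le rfl y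
    exact ⟨by linarith [((S s h).g_bd (Real.exp y)).2.1], fun e => by
      rw [(g_low (S s h) ((Real.exp_le_one_iff.2 e.le).trans
        (((S s h).L_bd (long4 hs).1).1 rfl))).1]; constructor <;> linarith⟩
  x_meas s hs := by
    rw [z1, ext_eq _ (half hs)]
    exact ⟨((R s _).p_cont rfl).measurable.sub ((S s _).g_meas.comp Real.measurable_exp),
      fun y hy => ((R s _).p_cont rfl).continuousAt.sub
        ((S s _).g_cont y (X_not le_rfl G S R _ hy).2)⟩
  z_meas s hs := by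
    rw [z1, ext_eq _ (long le_rfl (long4 hs))]
    exact ⟨((R s _).p_cont rfl).measurable.sub ((S s _).g_meas.comp Real.measurable_exp),
      fun y hy => ((R s _).p_cont rfl).continuousAt.sub
        ((S s _).g_cont y (X_not le_rfl G S R _ hy).2)⟩
  A_der s hs y hy _ := by
    refine ⟨(dArc le_rfl G S R (half hs) y).1, le_trans ?_ (dArc le_rfl G S R (half hs) y).2⟩
    obtain ⟨a, b⟩ := g_low' (S s (half hs)) hs hy
    simp only [z1, z2, ext_eq _ (half hs), a, b, rho, w1, Nu.w2, if_true, mul_div_assoc]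
    refine mul_le_mul_of_nonneg_left ?_ (K_pos (by omega) (Real.exp_pos y)).le
    nlinarith [((R s (half hs)).pos y).1, ((R s (half hs)).pos y).2, (al_bd le_rfl y).2.1,
      (al_bd le_rfl y).1]
  B_der s hs y hy hX := by
    refine ⟨(dB le_rfl G S R hs hy hX).1, le_trans ?_ (dB le_rfl G S R hs hy hX).2⟩
    obtain ⟨a0, a1, e⟩ := al_bd le_rfl y
    obtain ⟨p0, z0⟩ := (R s (half hs)).pos y
    have g0 := ((S s (half hs)).g_bd (Real.exp y)).1
    have c0 := cor_nonneg (half hs) y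
    have c1 := cor_le s y
    have b0 := cor_nonneg (half ⟨by positivity, le_rfl⟩) y
    have P0 : 0 < Py 4 y := P_pos (by omega) (Real.exp_pos y)
    obtain ⟨t0, t1⟩ := G.Tb_bd y
    simp only [baseOf, z1, z2, ext_eq _ (half hs), rho, w1, Nu.w2, RB, if_true, e, Nat.cast_ofNat]
    generalize (R s (half hs)).p y = p at *
    generalize (R s (half hs)).Z y = Z at *
    generalize (S s (half hs)).g1 (Real.exp y) = g at *
    have d0 : 0 ≤ 2 * cor s y / (4 + cor s y) := by positivity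
    have d1 : 2 * cor s y / (4 + cor s y) ≤ 2 / 5 := by rw [div_le_iff₀ (by positivity)]; linarith
    have m1 : max (207 / 100 * (p - g)) ((2 - G.Tb y / 8) * (p - g)) ≤
        207 / 100 * p - (2 - G.Tb y / 8) * g := max_le (by nlinarith) (by nlinarith)
    have m2 := mul_le_mul_of_nonneg_left (max_le_max (le_refl 0) (show -(ay 4 y * (p - g)) - 3 / 7 *
      cor s y ≤ ay 4 y * g - 3 / 7 * cor s y by nlinarith)) (by positivity : 0 ≤ 2 * Py 4 y *
      cor (π / 2) y / ((4 + cor s y) * (4 + cor s y + cor (π / 2) y)))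
    have m3 := mul_le_mul_of_nonneg_left (mul_le_mul_of_nonneg_left m1
      (by linarith : 0 ≤ 2 - ay 4 y - 2 * cor s y / (4 + cor s y))) (mul_pos a0 P0).le
    have m4 := mul_nonneg (mul_pos a0 P0).le (add_nonneg (add_nonneg (mul_nonneg
      (mul_nonneg d0 p0) (by norm_num : (0 : ℝ) ≤ 207 / 100)) (mul_nonneg (mul_nonneg a0.le p0)
      (by norm_num : (0 : ℝ) ≤ 7 / 100))) (mul_nonneg (sub_nonneg.2 a1) z0))
    have e2 : ∀ t : ℝ, (16 - t) * cor s y / (2 * (4 + cor s y)) =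
      (16 - t) / 2 * cor s y / (4 + cor s y) := fun t => by field_simp
    rw [e2]
    simp only [mul_div_assoc] at *
    linarith
  L_der s hs y hX := by
    refine ⟨(dL le_rfl G S R (long4 hs) hX).1, le_trans ?_ (dL le_rfl G S R (long4 hs) hX).2⟩
    have h := long le_rfl (long4 hs)
    obtain ⟨a0, a1, -⟩ := al_bd le_rfl y
    obtain ⟨p0, z0⟩ := (R s h).pos y
    have g0 := ((S s h).g_bd (Real.exp y)).1
    have b0 := cor_nonneg (half ⟨by positivity, le_rfl⟩) y
    have b1 := cor_le (π / 2) y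
    obtain ⟨t0, t1⟩ := G.Tb_bd y
    simp only [z1, z2, ext_eq _ h, rho, w1, Nu.w2, RL, if_true, ← mul_add, mul_div_assoc _ _ (2 : ℝ)]
    refine mul_le_mul_of_nonneg_left ?_ (K_pos (by omega) (Real.exp_pos y)).le
    have d0 : 0 ≤ 4 * cor (π / 2) y / (4 + 2 * cor (π / 2) y) := by positivity
    have d1 : 4 * cor (π / 2) y / (4 + 2 * cor (π / 2) y) ≤ 2 / 3 := by
      rw [div_le_iff₀ (by positivity)]; linarith
    generalize 4 * cor (π / 2) y / (4 + 2 * cor (π / 2) y) = d at *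
    have d2 : (2 - ay 4 y - d) * (2 - G.Tb y / 8) ≤ (2 - ay 4 y) * (207 / 100) :=
      mul_le_mul (by linarith) (by linarith) (by linarith) (by linarith)
    have m1 := max_le (show (2 - ay 4 y) * (207 / 100) * ((R s h).p y - (S s h).g1 (Real.exp y)) ≤
      (2 - ay 4 y) * (207 / 100) * (R s h).p y - (2 - ay 4 y - d) * (2 - G.Tb y / 8) *
      (S s h).g1 (Real.exp y) by nlinarith) (show (2 - ay 4 y - d) * (2 - G.Tb y / 8) *
      ((R s h).p y - (S s h).g1 (Real.exp y)) ≤ _ by nlinarith)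
    nlinarith

theorem core_of_glob {n : ℕ} (h4 : ∀ k1 k2, Data4 k1 k2 → NStW 4 k1 k2) (hn : 4 ≤ n) (G : Glob n) :
    E.Core n := by
  choose S R h using all_sec hn (raySt hn) G
  have hπ : π ∈ Ioc 0 π := ⟨Real.pi_pos, le_rfl⟩
  refine core_ofW (k := ext fun σ h => (R σ h).k) (by omega) (certW (by omega)
    ⟨fun y ψ _ => ?_, fun σ hσ => ?_⟩) (κ₁ := fun s y => Kf n (Real.exp y) * (lam s y + z1 G S R s y))
    (κ₂ := fun s y => Kf n (Real.exp y) ^ 2 * (lam s y + z2 G S R s y))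
    ⟨fun s hs => ?_, fun s hs => ?_, fun s hs => ?_, fun s hs => ?_, fun s hs => ?_⟩ ?_
  · rw [ext_eq _ hπ]; exact h π hπ rfl y ψ
  · rw [ext_eq _ (Ioo_subset_Ioc_self hσ)]; exact (R σ _).flux
  · rw [ext_eq _ hs]; exact (R s hs).meas
  · rw [ext_eq _ hs]; exact (R s hs).nonneg
  · rw [ext_eq _ hs]; exact (R s hs).sq
  · simpa only [z1, ext_eq _ hs] using (R s hs).one
  · simpa only [z2, ext_eq _ hs] using (R s hs).two
  · rcases eq_or_ne n 4 with rfl | e
    exacts [h4 _ _ (data4 G S R), nstW hn (dataW hn G S R e)]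

theorem final_of_glob (h4 : ∀ k1 k2, Data4 k1 k2 → NStW 4 k1 k2)
    (h : ∀ n, 4 ≤ n → Nonempty (Glob n)) : ∀ n : ℕ, 1 ≤ n → ∀ p : Polynomial ℂ, p.Monic →
    p.natDegree = n → Measure.hausdorffMeasure (1 : ℝ) {z : ℂ | ‖p.eval z‖ = 1} ≤
      Measure.hausdorffMeasure (1 : ℝ) {z : ℂ | ‖z ^ n - 1‖ = 1} :=
  E.assemble EH.red fun n hn => (h n hn).elim (core_of_glob h4 hn)

end Pool.Agent.Lib.MP_f225de_an.Nu
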