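import Pool.Agent.Lib.MP_f225de_an.MD1
import Pool.Agent.Lib.MP_f225de_an.SkD
import Pool.Agent.Lib.MP_f225de_an.D4

set_option autoImplicit false

open MeasureTheory Set
open scoped Real

namespace Pool.Agent.Lib.MP_f225de_an.Nu

open MA Sk

/-- `∫₀¹ u^p max(1, (t/u)^(q/3)) du/u` -/
noncomputable def II (p : ℕ) (q t : ℝ) : ℝ := 1 / p + t ^ p * (1 / (p - q / 3) - 1 / p)

/-- exponent in the lower bound of `1 - cc` along a ray -/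
noncomputable def th (c : ℝ) : ℕ := if c < -2 / 5 then 1 else 0

/-- constant in the lower bound `mm rb c * (r/rb)^(th c) ≤ 1 - cc r c` -/
noncomputable def mm (r c : ℝ) : ℝ := if c < -2 / 5 then min (1 - c) (1 + c + r) else 1 - |c|

/-- weight of the first moment of the ray part -/
noncomputable def w1 (n : ℕ) : ℝ := if n = 4 then 207 / 100 else 2

/-- weight of the second moment of the ray part -/
noncomputable def w2 (n : ℕ) : ℝ := if n = 4 then 11 / 20 else 1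

/-- total cost of one ray in units of `K rb` -/
noncomputable def ph (n : ℕ) (b r c : ℝ) : ℝ :=
  w1 n * (b + b ^ 2 * II (2 - th c) 1 (min 1 (3 / (5 * r))) / (4 * mm r c)) +
    w2 n * (b ^ 2 * II 2 1 (min 1 (3 / (5 * r))) +
      b ^ 3 * II (3 - th c) 2 (min 1 (3 / (5 * r))) / (2 * mm r c) +
      b ^ 4 * II (4 - 2 * th c) 3 (min 1 (3 / (5 * r))) / (16 * mm r c ^ 2))

/-- relative change of the density on the outer arc -/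
noncomputable def XX (a b ψ : ℝ) : ℝ := -(a * Real.cos ψ + b * Real.sin ψ) +
  (a ^ 2 * (1 + Real.cos ψ) + 2 * a * b * Real.sin ψ + b ^ 2 * (1 - Real.cos ψ)) / 4

/-- `∫₀^φ (u + v cos + w sin)` -/
noncomputable def M1 (u v w φ : ℝ) : ℝ := u * φ + v * Real.sin φ + w * (1 - Real.cos φ)

/-- `∫₀^φ (u + v cos + w sin)^2` -/
noncomputable def M2 (u v w φ : ℝ) : ℝ := u ^ 2 * φ + v ^ 2 * (φ + Real.sin φ * Real.cos φ) / 2 +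
  w ^ 2 * (φ - Real.sin φ * Real.cos φ) / 2 + 2 * u * v * Real.sin φ +
  2 * u * w * (1 - Real.cos φ) + v * w * Real.sin φ ^ 2

/-- `∫₀^φ XX a b` -/
noncomputable def G1 (a b φ : ℝ) : ℝ :=
  M1 ((a ^ 2 + b ^ 2) / 4) ((a ^ 2 - b ^ 2) / 4 - a) (a * b / 2 - b) φ

/-- `∫₀^φ (XX a b)^2` -/
noncomputable def G2 (a b φ : ℝ) : ℝ :=
  M2 ((a ^ 2 + b ^ 2) / 4) ((a ^ 2 - b ^ 2) / 4 - a) (a * b / 2 - b) φ

/-- the correcting field on the half sector of angle `σ`: rays `M ψ = b ψ * K rb`, and the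
tangential field `-K (c1 sin ψ + c2 (1 - cos ψ))` on the outer arc of the levels `r > r1` -/
structure Fld (n : ℕ) (σ C r1 : ℝ) (g1 g2 : ℝ → ℝ) where
  b : ℝ → ℝ
  c1 : ℝ → ℝ
  c2 : ℝ → ℝ
  Bd : ℝ
  b_meas : Measurable b
  c1_meas : Measurable c1
  c2_meas : Measurable c2
  bd : ∀ x, 0 ≤ b x ∧ b x ≤ Bd ∧ 0 ≤ c1 x ∧ c1 x ≤ Bd ∧ 0 ≤ c2 x ∧ c2 x ≤ Bd
  r1_ge : tl σ ≤ r1
  ray : ∀ ψ ∈ Ioo σ π, σ + π / 2 ≤ ψ ∨ rb σ ψ ≤ r1 →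
    beta n (rb σ ψ) (Real.cos ψ) ≤ b ψ * Kf n (rb σ ψ)
  b_zero : ∀ ψ ∈ Ioo σ π, ψ < σ + π / 2 → r1 < rb σ ψ → b ψ = 0
  low : ∀ r ≤ r1, c1 r = 0 ∧ c2 r = 0 ∧ g1 r = 0 ∧ g2 r = 0
  gain : ∀ r > r1, 0 ≤ r + 2 * Real.cos (ao σ r) ∧
    beta n r (Real.cos (ao σ r)) * Real.sin (ao σ r - σ) + Kf n r *
      (c1 r * Real.sin (ao σ r) + c2 r * (1 - Real.cos (ao σ r))) * Real.cos (ao σ r - σ) ≤ 0 ∧
    (∀ ψ ∈ Icc 0 (ao σ r), -1 ≤ XX (c1 r) (c2 r) ψ) ∧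
    2 * π * g1 r ≤ -G1 (c1 r) (c2 r) (ao σ r) ∧
    2 * G1 (c1 r) (c2 r) (ao σ r) + G2 (c1 r) (c2 r) (ao σ r) ≤ 2 * π * g2 r
  cost : ∫⁻ ψ in Ioo σ π, ENNReal.ofReal
    (Kf n (rb σ ψ) * ph n (b ψ) (rb σ ψ) (Real.cos ψ)) ≤ ENNReal.ofReal (2 * π * C)
  sup : n = 4 → ∫⁻ ψ in Ioo σ π, ENNReal.ofReal
    (b ψ + b ψ ^ 2 / (4 * mm (rb σ ψ) (Real.cos ψ))) ≤ ENNReal.ofReal (2 * π * (1 / 4))

/-- source of the ray part at level `y` -/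
noncomputable def rho (n : ℕ) (p Z : ℝ → ℝ) (y : ℝ) : ℝ :=
  Kf n (Real.exp y) * (w1 n * p y + w2 n * Z y)

/-- what the field gives on the level arcs -/
structure Ray (n : ℕ) (σ C r1 : ℝ) (g1 g2 : ℝ → ℝ) where
  k : ℝ → ℝ → ℝ
  p : ℝ → ℝ
  Z : ℝ → ℝ
  R : ℝ → ℝ
  R1 : ℝ → ℝ
  Rt : ℝ
  flux : ∃ k', Nonempty (Flux n σ k') ∧
    ∀ y, ∀ ψ ∈ Arc σ (Real.exp y), k' (Real.exp y) ψ ≤ k y ψ
  meas : ∀ y, Measurable (k y)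
  nonneg : ∀ y ψ, 0 ≤ k y ψ
  sq : ∀ y, IntegrableOn (fun ψ => k y ψ ^ 2) (Arc σ (Real.exp y))
  one : ∀ y, ell σ y (k y) ≤ 2 * π * (Kf n (Real.exp y) * (lam σ y + (p y - g1 (Real.exp y))))
  two : ∀ y, sq2 σ y (k y) ≤
    2 * π * (Kf n (Real.exp y) ^ 2 * (lam σ y + (2 * p y + Z y + g2 (Real.exp y))))
  p_cont : n = 4 → Continuous p
  pos : ∀ y, 0 ≤ p y ∧ 0 ≤ Z y
  p_le : n = 4 → ∀ y, p y ≤ 1 / 4
  cs : ∀ y, p y ^ 2 ≤ Z y / 2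
  cs2 : σ ≤ π / 2 → ∀ y > Real.log (Real.sin σ),
    p y ^ 2 ≤ (cor σ y - 2 * min (g1 (Real.exp y)) (cor σ y / 2)) * (Z y / 2)
  R_der : ∀ y, HasDerivAt R (R1 y) y ∧ rho n p Z y ≤ R1 y
  R_bd : ∀ y, 0 ≤ R y ∧ R y ≤ Rt * min 1 (Real.exp (2 / 3 * (y - Real.log (tl σ)))) ∧
    (max r1 1 ≤ Real.exp y → R y = Rt)
  Rt_bd : 0 ≤ Rt ∧ Rt ≤ C

/-- rate of a merged arc in units of `P/(2n)`, rays excluded -/
noncomputable def RB (n : ℕ) (al c cb tb tg g1 g2 : ℝ) : ℝ :=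
  if n = 4 then (16 - tg) * c / (2 * (4 + c)) + al ^ 2 * g2 -
      (2 - al - 2 * c / (4 + c)) * (2 - tb / 8) * al * g1 +
      16 * cb / ((4 + c) * (4 + c + cb)) * max 0 (al * g1 - 3 / 7 * c)
  else al * (c + al * g2 - (2 - al) * min g1 (c / 2)) + (2 - al) * (n ^ 2 - tg) *
      (c - al * min g1 (c / 2)) / (n * (n + (c - al * min g1 (c / 2))))

/-- rate of a long half sector in units of `K`, rays excluded -/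
noncomputable def RL (n : ℕ) (al cb tb g1 g2 : ℝ) : ℝ :=
  if n = 4 then (al * g2 - (2 - al - 4 * cb / (4 + 2 * cb)) * (2 - tb / 8) * g1) / 2
  else al * g2 / 2 + (2 - al) * (g1 ^ 2 - g1)

/-- `P` at level `y` -/
noncomputable def Py (n : ℕ) (y : ℝ) : ℝ := Pf n (Real.exp y)

/-- `α` at level `y` -/
noncomputable def ay (n : ℕ) (y : ℝ) : ℝ := n * Kf n (Real.exp y) / Pf n (Real.exp y)

/-- the potentials of one angle `σ` -/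
structure Sec (n : ℕ) (F Tb : ℝ → ℝ) (Sh : ℝ → ℝ → ℝ) (σ : ℝ) where
  C : ℝ
  r1 : ℝ
  S0 : ℝ
  g1 : ℝ → ℝ
  g2 : ℝ → ℝ
  T : ℝ → ℝ
  T1 : ℝ → ℝ
  TG : ℝ → ℝ
  Lg : ℝ → ℝ
  Lg1 : ℝ → ℝ
  X : Finset ℝ
  C_pos : 0 ≤ C
  fld : Nonempty (Fld n σ C r1 g1 g2)
  g_meas : Measurable g1
  g_cont : ∀ y, y ∉ X → ContinuousAt (fun y => g1 (Real.exp y)) y
  g_bd : ∀ r, 0 ≤ g1 r ∧ g1 r ≤ 1 / 4 ∧ g2 r ≤ 0
  cap : (if n = 4 then 12 else 3 / 4 * (n : ℝ)) * C ≤ Pf n (tl σ)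
  T_cont : σ ≤ π / 2 → ContinuousOn T (Ici (Real.log (Real.sin σ)))
  T_der : σ ≤ π / 2 → ∀ y > Real.log (Real.sin σ), y ∉ X → HasDerivAt T (T1 y) y ∧
    ay n y / n * T y + RB n (ay n y) (cor σ y) (cor (π / 2) y) (Tb y) (TG y)
      (g1 (Real.exp y)) (g2 (Real.exp y)) ≤ -T1 y
  T_bd : σ ≤ π / 2 → ∀ y ≥ Real.log (Real.sin σ), 0 ≤ TG y ∧ TG y ≤ n ^ 2 ∧
    2 * n * Sh σ y + Py n y * TG y ≤ Py n y * T y + 2 * n * S0 ∧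
    2 * n * (C + S0) + Py n y * T y ≤ T0 n (F y) * Py n y ∧
    (n = 4 → 2 * n * (C + S0) + Py n y * T y ≤ Tb y * Py n y)
  L_cont : π / (n - 1) ≤ σ → Continuous Lg
  L_der : π / (n - 1) ≤ σ → ∀ y, y ∉ X → HasDerivAt Lg (Lg1 y) y ∧ Kf n (Real.exp y) *
    RL n (ay n y) (cor (π / 2) y) (Tb y) (g1 (Real.exp y)) (g2 (Real.exp y)) ≤ Lg1 y
  L_bd : π / (n - 1) ≤ σ → (n = 4 → 1 ≤ r1) ∧ ∀ y, (Real.exp y ≤ max r1 1 → Lg y = 0) ∧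
    0 ≤ C + Lg y ∧ C + Lg y ≤ Sh (π - σ) y

/-- the complete numerical input in degree `n` -/
structure Glob (n : ℕ) where
  F : ℝ → ℝ
  F1 : ℝ → ℝ
  Tb : ℝ → ℝ
  Sh : ℝ → ℝ → ℝ
  X : Finset ℝ
  F_cont : Continuous F
  F_bd : ∀ y, 19 / 5 ≤ F y ∧ ((n : ℝ) - 1) * (F y - 4) ≤ n - 2 ∧ (n = 4 → F y ≤ 107 / 25)
  F_der : ∀ y, y ∉ X → HasDerivAt F (F1 y) y ∧
    2 * ay n y ≤ F1 y + ((2 - ay n y) / 2 + (2 * ay n y - 2) / n) * F y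
  Tb_bd : ∀ y, 0 ≤ Tb y ∧ Tb y ≤ 2
  Sh_zero : ∀ y, Sh 0 y = 0
  Sh_pos : ∀ s ≥ 0, ∀ y, 0 ≤ Sh s y
  Sh_add : ∀ a ≥ 0, ∀ b ≥ 0, ∀ y, Sh (a + b) y ≤ Sh a y + Sh b y
  sec : ∀ σ ∈ Ioo 0 π, Nonempty (Sec n F Tb Sh σ)

/-- statement (R): the field gives the level data -/
def RaySt (n : ℕ) : Prop := ∀ σ ∈ Ioo 0 π, ∀ C r1 g1 g2, 0 ≤ C → (∀ r, 0 ≤ g1 r) →
  Fld n σ C r1 g1 g2 → Nonempty (Ray n σ C r1 g1 g2)

end Pool.Agent.Lib.MP_f225de_an.Nu
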