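import Pool.Agent.Lib.MP_f225de_an.MD6
import Pool.Agent.Lib.MP_f225de_an.NU0

set_option autoImplicit false

open MeasureTheory Set Filter Topology
open scoped Real

namespace Pool.Agent.Lib.MP_f225de_an.Nu

open MA Sk

variable {σ r y C a x : ℝ} {p q : ℕ}

lemma glue {h h' : ℝ → ℝ} (d : ∀ u, HasDerivAt h (h' u) u) (h0 : h' a = 0) (x : ℝ) :
    HasDerivAt (fun x => h (min x a)) (h' (min x a)) x := by
  have l : ∀ x ≤ a, HasDerivWithinAt (fun x => h (min x a)) (h' (min x a)) (Iic a) x := fun x hx =>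
    (min_eq_left hx).symm ▸ (d x).hasDerivWithinAt.congr (fun t ht => by rw [min_eq_left ht])
      (by rw [min_eq_left hx])
  have g : ∀ x ≥ a, HasDerivWithinAt (fun x => h (min x a)) (h' (min x a)) (Ici a) x := fun x hx => by
    rw [min_eq_right hx, h0]
    exact (hasDerivWithinAt_const x _ (h a)).congr (fun t ht => by rw [min_eq_right ht])
      (by rw [min_eq_right hx])
  rcases lt_trichotomy x a with e | rfl | e
  · exact (l x e.le).hasDerivAt (Iic_mem_nhds e)
  · exact hasDerivWithinAt_univ.1 (Iic_union_Ici (a := x) ▸ (l x le_rfl).union (g x le_rfl))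
  · exact (g x e.le).hasDerivAt (Ici_mem_nhds e)

/-- monomial with the plateau factor, in logarithmic variables -/
noncomputable def ff (p q : ℕ) (a x : ℝ) : ℝ := Real.exp (p * x + q / 3 * max 0 (a - x))

/-- its primitive -/
noncomputable def JJ (p q : ℕ) (a x : ℝ) : ℝ := Real.exp (p * x) / p +
  (Real.exp (p * min x a + q / 3 * (a - min x a)) / (p - q / 3) - Real.exp (p * min x a) / p)

lemma ff_eq (p q : ℕ) (a x : ℝ) : ff p q a x = Real.exp x ^ p * Real.exp (max 0 (a - x) / 3) ^ q := by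
  rw [ff, Real.exp_add, Real.exp_nat_mul, ← Real.exp_nat_mul _ q]
  congr 2
  ring

lemma ff_bd (h : q ≤ 3 * p) (ha : a ≤ 0) (hx : x ≤ 0) : 0 < ff p q a x ∧ ff p q a x ≤ 1 := by
  have : (q : ℝ) ≤ 3 * p := by exact_mod_cast h
  have q0 : (0 : ℝ) ≤ q := q.cast_nonneg
  refine ⟨Real.exp_pos _, Real.exp_le_one_iff.2 ?_⟩
  nlinarith [mul_le_mul_of_nonneg_left (max_le (neg_nonneg.2 hx) (by linarith : a - x ≤ -x)) q0]

lemma JJ_der (h : 2 + q ≤ 3 * p) (a x : ℝ) : HasDerivAt (JJ p q a) (ff p q a x) x := by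
  have : (2 : ℝ) + q ≤ 3 * p := by exact_mod_cast h
  have q0 : (0 : ℝ) ≤ q := q.cast_nonneg
  have p0 : (p : ℝ) ≠ 0 := by linarith
  have p1 : (p : ℝ) - q / 3 ≠ 0 := by linarith
  have e : ∀ u, HasDerivAt (fun u => Real.exp (p * u) / p) (Real.exp (p * u)) u := fun u =>
    (((hasDerivAt_id' u).const_mul _).exp.div_const _).congr_deriv (by field_simp)
  refine ((e x).add (glue (h := fun u => Real.exp (p * u + q / 3 * (a - u)) / (p - q / 3) -
    Real.exp (p * u) / p) (h' := fun u => Real.exp (p * u + q / 3 * (a - u)) - Real.exp (p * u))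
    (fun u => (((((hasDerivAt_id' u).const_mul _).add (((hasDerivAt_id' u).const_sub a).const_mul
      _)).exp.div_const _).congr_deriv ?_).sub (e u)) (by simp) x)).congr_deriv ?_
  · rw [div_eq_iff p1]
    simp only [Pi.add_apply]
    ring
  · rcases le_total x a with c | c
    · rw [ff, min_eq_left c, max_eq_right (by linarith)]; ring
    · rw [ff, min_eq_right c, max_eq_left (by linarith)]; simp

lemma JJ_bd (h : 2 + q ≤ 3 * p) (a x : ℝ) : 0 ≤ JJ p q a x ∧ 2 / 3 * JJ p q a x ≤ ff p q a x := by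
  have : (2 : ℝ) + q ≤ 3 * p := by exact_mod_cast h
  have q0 : (0 : ℝ) ≤ q := q.cast_nonneg
  have p0 : (0 : ℝ) < p := by linarith
  have p1 : (0 : ℝ) < p - q / 3 := by linarith
  have h1 : 1 / (p : ℝ) ≤ 1 / (p - q / 3) := one_div_le_one_div_of_le p1 (by linarith)
  have h2 : 1 / (p - q / 3 : ℝ) ≤ 3 / 2 := by rw [div_le_iff₀ p1]; linarith
  have h3 : 0 < 1 / (p : ℝ) := by positivity
  rw [JJ, ff, div_eq_mul_one_div _ (p : ℝ), div_eq_mul_one_div (Real.exp _) (p : ℝ),
    div_eq_mul_one_div (Real.exp _) (p - q / 3 : ℝ)]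
  rcases le_total x a with c | c
  · rw [min_eq_left c, max_eq_right (by linarith)]
    constructor <;> nlinarith [Real.exp_pos (p * x + q / 3 * (a - x))]
  · rw [min_eq_right c, max_eq_left (by linarith), sub_self, mul_zero, add_zero, add_zero]
    have := Real.exp_le_exp.2 (mul_le_mul_of_nonneg_left c p0.le)
    constructor <;> nlinarith [Real.exp_pos (p * x), Real.exp_pos (p * a)]

lemma JJ_le (h : 2 + q ≤ 3 * p) (a : ℝ) (hx : x ≤ 0) :
    JJ p q a x ≤ JJ p q a 0 * Real.exp (2 / 3 * x) := by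
  have := monotone_of_hasDerivAt_nonneg (fun x => (JJ_der h a x).mul
    ((hasDerivAt_id' x).const_mul (-(2 / 3))).exp) (fun x => by
      simp only [Pi.zero_apply]
      nlinarith [Real.exp_pos (-(2 / 3) * x), (JJ_bd h a x).2]) hx
  simp only [Pi.mul_apply, mul_zero, Real.exp_zero, mul_one, neg_mul, Real.exp_neg, inv_one] at this
  rwa [← div_eq_mul_inv, div_le_iff₀ (Real.exp_pos _)] at this

lemma JJ_zero (p q : ℕ) (ha : a ≤ 0) : JJ p q a 0 = II p q (Real.exp a) := by
  rw [JJ, II, min_eq_right ha, ← Real.exp_nat_mul]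
  simp only [mul_zero, Real.exp_zero, sub_self, add_zero]
  ring

/-- logarithmic distance to the bisector -/
noncomputable def lx (σ y ψ : ℝ) : ℝ := y - Real.log (rb σ ψ)

lemma lx_exp (hσ : σ ∈ Ioo 0 π) {ψ : ℝ} (hψ : ψ ∈ Ioo σ π) :
    Real.exp (lx σ y ψ) = ur σ (Real.exp y) ψ := by
  rw [lx, Real.exp_sub, Real.exp_log (rb_pos hσ hψ), ur_rb]

lemma lx_neg (hσ : σ ∈ Ioo 0 π) {ψ : ℝ} (hψ : ψ ∈ Ioo σ π) :
    lx σ y ψ < 0 ↔ ψ ∈ Arc σ (Real.exp y) := by
  rw [← ur_lt hσ hψ, ← lx_exp hσ hψ, Real.exp_lt_one_iff]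

lemma lx_ae (hσ : σ ∈ Ioo 0 π) (y : ℝ) :
    ∀ᵐ ψ ∂volume.restrict (Ioo σ π), ψ ∈ Ioo σ π ∧ lx σ y ψ ≠ 0 := by
  filter_upwards [ae_restrict_mem measurableSet_Ioo,
    ae_restrict_of_ae (ur_ae hσ (Real.exp_pos y))] with ψ hψ h
  exact ⟨hψ, fun e => h hψ (by rw [← lx_exp hσ hψ, e, Real.exp_zero])⟩

lemma lx_meas (σ y : ℝ) : Measurable (lx σ y) := by unfold lx rb; fun_prop

/-- integral over the rays that are alive at the level `y` -/
noncomputable def IR (σ : ℝ) (f : ℝ → ℝ → ℝ) (y : ℝ) : ℝ :=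
  ∫ ψ in Ioo σ π, if lx σ y ψ < 0 then f ψ (lx σ y ψ) else 0

lemma IR_meas {f : ℝ → ℝ → ℝ} (hf : Measurable (Function.uncurry f)) (y : ℝ) :
    Measurable fun ψ => if lx σ y ψ < 0 then f ψ (lx σ y ψ) else 0 :=
  Measurable.ite (lx_meas σ y measurableSet_Iio) (hf.comp (measurable_id.prodMk (lx_meas σ y)))
    measurable_const

lemma IR_int {f : ℝ → ℝ → ℝ} (hf : Measurable (Function.uncurry f))
    (hC : ∀ ψ ∈ Ioo σ π, ∀ x ≤ 0, |f ψ x| ≤ C) (y : ℝ) :
    IntegrableOn (fun ψ => if lx σ y ψ < 0 then f ψ (lx σ y ψ) else 0) (Ioo σ π) :=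
  bd_int (C := C) (IR_meas hf y) fun ψ hψ => by
    split_ifs with h
    exacts [hC ψ hψ _ h.le, abs_zero.trans_le ((abs_nonneg _).trans (hC ψ hψ 0 le_rfl))]

theorem IR_cont (hσ : σ ∈ Ioo 0 π) {f : ℝ → ℝ → ℝ} (hf : Measurable (Function.uncurry f))
    (hC : ∀ ψ ∈ Ioo σ π, ∀ x ≤ 0, |f ψ x| ≤ C) (hc : ∀ ψ, Continuous (f ψ)) :
    Continuous (IR σ f) := by
  refine continuous_iff_continuousAt.2 fun y => continuousAt_of_dominated (bound := fun _ => C)
    (.of_forall fun y => (IR_meas hf y).aestronglyMeasurable) (.of_forall fun y =>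
      (ae_restrict_mem measurableSet_Ioo).mono fun ψ hψ => ?_) (integrableOn_const (by simp))
    ((lx_ae hσ y).mono fun ψ h => ?_)
  · split_ifs with h
    exacts [hC ψ hψ _ h.le, norm_zero.trans_le ((abs_nonneg _).trans (hC ψ hψ 0 le_rfl))]
  · have c : ContinuousAt (fun y => lx σ y ψ) y := by unfold lx; fun_prop
    rcases lt_or_gt_of_ne h.2 with e | e
    · exact ((hc ψ).continuousAt.comp c).congr
        ((c.eventually_lt continuousAt_const e).mono fun t ht => (if_pos ht).symm)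
    · exact continuousAt_const.congr
        ((continuousAt_const.eventually_lt c e).mono fun t ht => (if_neg ht.not_gt).symm)

theorem ray_der (hσ : σ ∈ Ioo 0 π) {f J : ℝ → ℝ → ℝ} (hf : Measurable (Function.uncurry f))
    (hJ : Measurable (Function.uncurry J)) (hC : ∀ ψ ∈ Ioo σ π, ∀ x ≤ 0, |f ψ x| ≤ C)
    (hC' : ∀ ψ ∈ Ioo σ π, ∀ x ≤ 0, |J ψ x| ≤ C) (hd : ∀ ψ x, HasDerivAt (J ψ) (f ψ x) x) (y : ℝ) :
    HasDerivAt (fun y => ∫ ψ in Ioo σ π, J ψ (min 0 (lx σ y ψ))) (IR σ f y) y := by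
  have m : ∀ y, Measurable fun ψ => J ψ (min 0 (lx σ y ψ)) := fun y =>
    hJ.comp (measurable_id.prodMk (measurable_const.min (lx_meas σ y)))
  refine (hasDerivAt_integral_of_dominated_loc_of_lip (bound := fun _ => C) univ_mem
    (.of_forall fun y => (m y).aestronglyMeasurable)
    (bd_int (m y) fun ψ hψ => hC' ψ hψ _ (min_le_left _ _)) (IR_meas hf y).aestronglyMeasurable
    ((ae_restrict_mem measurableSet_Ioo).mono fun ψ hψ => ?_) (integrableOn_const (by simp))
    ((lx_ae hσ y).mono fun ψ h => ?_)).2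
  · refine LipschitzOnWith.of_dist_le_mul fun s _ t _ => ?_
    have c0 := (abs_nonneg _).trans (hC ψ hψ 0 le_rfl)
    refine ((convex_Iic (0 : ℝ)).norm_image_sub_le_of_norm_hasDerivWithin_le
      (fun x _ => (hd ψ x).hasDerivWithinAt) (hC ψ hψ) (mem_Iic.2 (min_le_left 0 (lx σ t ψ)))
      (mem_Iic.2 (min_le_left 0 (lx σ s ψ)))).trans ?_
    rw [Real.coe_nnabs, abs_of_nonneg c0]
    refine mul_le_mul_of_nonneg_left ((abs_min_sub_min_le_max _ _ _ _).trans ?_) c0
    simp [lx, Real.dist_eq]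
  · have c : HasDerivAt (fun y => lx σ y ψ) 1 y := (hasDerivAt_id' y).sub_const _
    rcases lt_or_gt_of_ne h.2 with e | e
    · rw [if_pos e]
      exact (((hd ψ _).comp y c).congr_deriv (mul_one _)).congr_of_eventuallyEq
        ((c.continuousAt.eventually_lt continuousAt_const e).mono fun t ht => by
          simp only [min_eq_right ht.le, Function.comp])
    · rw [if_neg e.not_gt]
      exact (hasDerivAt_const y (J ψ 0)).congr_of_eventuallyEq
        ((continuousAt_const.eventually_lt c.continuousAt e).mono fun t ht => by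
          simp only [min_eq_left ht.le])

lemma cauchy {f : ℝ → ℝ} {S T : Set ℝ} (hT : MeasurableSet T) (hS : MeasurableSet S) {V : ℝ}
    (hV : volume T ≤ ENNReal.ofReal V) (V0 : 0 ≤ V) (i1 : IntegrableOn f S)
    (i2 : IntegrableOn (fun ψ => f ψ ^ 2) S) (h : ∀ ψ ∈ S, ψ ∉ T → f ψ = 0) :
    (∫ ψ in S, f ψ) ^ 2 ≤ V * ∫ ψ in S, f ψ ^ 2 := by
  have i3 : Integrable (T.indicator fun _ => (1 : ℝ)) := (integrable_indicator_iff hT).2
    (integrableOn_const (hV.trans_lt ENNReal.ofReal_lt_top).ne)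
  have h3 : ∫ ψ in S, T.indicator (fun _ => (1 : ℝ)) ψ ≤ V := (setIntegral_le_integral i3
    (.of_forall fun _ => indicator_nonneg (fun _ _ => zero_le_one) _)).trans (by
      rw [integral_indicator hT]
      simpa [Measure.real] using ENNReal.toReal_le_of_le_ofReal V0 hV)
  have := discrim_le_zero (a := V) (b := -2 * ∫ ψ in S, f ψ) (c := ∫ ψ in S, f ψ ^ 2) fun l => by
    have := setIntegral_mono_on (i1.const_mul (2 * l))
      (i2.add (i3.integrableOn.const_mul (l * l))) hS fun ψ hψ => by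
        by_cases e : ψ ∈ T
        · simp only [Pi.add_apply, indicator_of_mem e]
          nlinarith [sq_nonneg (f ψ - l)]
        · simp [indicator_of_notMem e, h ψ hψ e]
    simp only [Pi.add_apply] at this
    rw [integral_add i2 (i3.integrableOn.const_mul _), integral_const_mul, integral_const_mul] at this
    nlinarith [mul_le_mul_of_nonneg_left h3 (mul_self_nonneg l)]
  rw [discrim] at this
  linarith

lemma G_int (a b φ : ℝ) : ∫ ψ in (0 : ℝ)..φ, XX a b ψ = G1 a b φ ∧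
    ∫ ψ in (0 : ℝ)..φ, XX a b ψ ^ 2 = G2 a b φ := by
  have s := Real.hasDerivAt_sin
  have c := Real.hasDerivAt_cos
  have i := hasDerivAt_id' (𝕜 := ℝ)
  constructor
  · rw [intervalIntegral.integral_eq_sub_of_hasDerivAt (f := G1 a b) (fun x _ => ?_)
      (Continuous.intervalIntegrable (by unfold XX; fun_prop) _ _)]
    · simp [G1, M1]
    · exact ((((i x).const_mul _).add ((s x).const_mul _)).add
        (((c x).const_sub 1).const_mul _)).congr_deriv (by unfold XX; ring)
  · rw [intervalIntegral.integral_eq_sub_of_hasDerivAt (f := G2 a b) (fun x _ => ?_)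
      (Continuous.intervalIntegrable (by unfold XX; fun_prop) _ _)]
    · simp [G2, M2]
    · refine (((((((i x).const_mul _).add ((((i x).add ((s x).mul (c x))).const_mul _).div_const
        2)).add ((((i x).sub ((s x).mul (c x))).const_mul _).div_const 2)).add
        ((s x).const_mul _)).add (((c x).const_sub 1).const_mul _)).add
        (((s x).pow 2).const_mul _)).congr_deriv ?_
      unfold XX
      simp only [Nat.cast_ofNat, Nat.add_one_sub_one, pow_one]
      linear_combination ((a * b / 2 - b) ^ 2 + ((a ^ 2 - b ^ 2) / 4 - a) ^ 2) / 2 *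
        -Real.sin_sq_add_cos_sq x

end Pool.Agent.Lib.MP_f225de_an.Nu
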