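import Pool.Agent.Lib.MP_f225de_an.NR1
import Pool.Agent.Lib.MP_f225de_an.PF3
import Pool.Agent.Lib.MP_f225de_an.N3

set_option autoImplicit false

open MeasureTheory Set Filter Topology
open scoped Real

namespace Pool.Agent.Lib.MP_f225de_an.Nu

open MA Sk

variable {n : ℕ} {σ r y C r1 ψ b m c : ℝ} {g1 g2 : ℝ → ℝ} {g g' : ℕ → ℕ → ℝ} {θ : ℕ}

/-- first moment of a ray -/
noncomputable def E1 (g : ℕ → ℕ → ℝ) (b m : ℝ) (θ : ℕ) : ℝ :=
  b * g 1 0 + b ^ 2 * g (2 - θ) 1 / (4 * m)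

/-- second moment of a ray -/
noncomputable def E2 (g : ℕ → ℕ → ℝ) (b m : ℝ) (θ : ℕ) : ℝ :=
  b ^ 2 * g 2 1 + b ^ 3 * g (3 - θ) 2 / (2 * m) + b ^ 4 * g (4 - 2 * θ) 3 / (16 * m ^ 2)

lemma E_mono {b' m' : ℝ} (hθ : θ ≤ 1) (b0 : 0 ≤ b) (hb : b ≤ b') (m0 : 0 < m') (hm : m' ≤ m)
    (h : ∀ p q, 2 + q ≤ 3 * p → 0 ≤ g p q ∧ g p q ≤ g' p q) :
    (0 ≤ E1 g b m θ ∧ E1 g b m θ ≤ E1 g' b' m' θ) ∧ 0 ≤ E2 g b m θ ∧ E2 g b m θ ≤ E2 g' b' m' θ := by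
  obtain ⟨a1, a2⟩ := h 1 0 (by omega)
  obtain ⟨a3, a4⟩ := h (2 - θ) 1 (by omega)
  obtain ⟨a5, a6⟩ := h 2 1 (by omega)
  obtain ⟨a7, a8⟩ := h (3 - θ) 2 (by omega)
  obtain ⟨a9, a0⟩ := h (4 - 2 * θ) 3 (by omega)
  have := m0.trans_le hm
  have := b0.trans hb
  have := a3.trans a4
  have := a7.trans a8
  have := a9.trans a0
  unfold E1 E2
  exact ⟨⟨by positivity, by gcongr⟩, by positivity, by gcongr⟩

lemma th_le1 (c : ℝ) : th c ≤ 1 := by unfold th; split_ifs <;> simp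

lemma w_pos (n : ℕ) : 0 ≤ w1 n ∧ 0 ≤ Nu.w2 n := by
  unfold w1 Nu.w2; split_ifs <;> norm_num

lemma rb_ge (hσ : σ ∈ Ioo 0 π) (hψ : ψ ∈ Ioo σ π) : tl σ ≤ rb σ ψ := by
  rw [rb, le_div_iff₀ (sinb hσ hψ), tl]
  split_ifs with h
  · exact mul_le_of_le_one_right (Real.sin_pos_of_pos_of_lt_pi hσ.1 hσ.2).le (Real.sin_le_one _)
  · rw [one_mul, ← Real.sin_pi_sub σ]
    exact Real.sin_le_sin_of_le_of_le_pi_div_two (by linarith [hψ.1, Real.pi_pos]) (by linarith)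
      (by linarith [hψ.2])

lemma rb_le (hσ : σ ∈ Ioo 0 π) (hψ : ψ ∈ Ioo σ π) (h : σ + π / 2 ≤ ψ) : rb σ ψ ≤ 1 := by
  rw [rb, div_le_one (sinb hσ hψ), ← Real.sin_pi_sub (ψ - σ)]
  exact Real.sin_le_sin_of_le_of_le_pi_div_two (by linarith [hσ.1, Real.pi_pos]) (by linarith)
    (by linarith [hψ.2])

lemma mm_ge (hσ : σ ∈ Ioo 0 π) : ∃ m0 > 0, ∀ ψ ∈ Ioo σ π, m0 ≤ mm (rb σ ψ) (Real.cos ψ) := by
  have s0 := Real.sin_pos_of_pos_of_lt_pi hσ.1 hσ.2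
  have c1 := (abs_lt.1 ((sq_lt_one_iff_abs_lt_one _).1 (cos_sq_lt hσ))).2
  refine ⟨min (min (1 - Real.cos σ) (3 / 5)) (Real.sin σ), by
    have := sub_pos.2 c1; positivity, fun ψ hψ => ?_⟩
  unfold mm
  split_ifs with h
  · refine (min_le_right _ _).trans (le_min (by linarith [Real.sin_le_one σ]) ?_)
    linarith [Real.neg_one_le_cos ψ, tl_ge σ, rb_ge hσ hψ]
  · have := Real.cos_le_cos_of_nonneg_of_le_pi hσ.1.le hψ.2.le hψ.1.le
    refine (min_le_left _ _).trans ?_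
    rcases abs_cases (Real.cos ψ) with e | e
    · linarith [min_le_left (1 - Real.cos σ) (3 / 5)]
    · linarith [min_le_right (1 - Real.cos σ) (3 / 5)]

lemma mm_le {R t : ℝ} (R0 : 0 ≤ R) (t0 : 0 ≤ t) (t1 : t ≤ 1) (c0 : -1 ≤ c) :
    mm R c * t ^ th c ≤ 1 - cc (R * t) c := by
  unfold mm th cc
  rw [le_sub_comm, max_le_iff]
  split_ifs with h
  · have := mul_le_mul_of_nonneg_right (min_le_left (1 - c) (1 + c + R)) t0
    have := mul_le_mul_of_nonneg_right (min_le_right (1 - c) (1 + c + R)) t0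
    rw [pow_one]
    constructor <;> nlinarith
  · rw [pow_zero, mul_one]
    constructor <;> linarith [le_abs_self c, neg_abs_le c, mul_nonneg R0 t0]

/-- logarithm of the plateau point -/
noncomputable def la (σ ψ : ℝ) : ℝ := Real.log (min 1 (3 / (5 * rb σ ψ)))

lemma la_le (hσ : σ ∈ Ioo 0 π) (hψ : ψ ∈ Ioo σ π) :
    la σ ψ ≤ 0 ∧ Real.exp (la σ ψ) = min 1 (3 / (5 * rb σ ψ)) :=
  have : 0 < min 1 (3 / (5 * rb σ ψ)) := by have := rb_pos hσ hψ; positivity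
  ⟨Real.log_nonpos this.le (min_le_left _ _), Real.exp_log this⟩

lemma Kb_le (hn : 4 ≤ n) (hσ : σ ∈ Ioo 0 π) (hψ : ψ ∈ Ioo σ π) (h : lx σ y ψ < 0) :
    Kf n (rb σ ψ) ≤ Kf n (Real.exp y) * Real.exp (max 0 (la σ ψ - lx σ y ψ) / 3) := by
  have r0 := rb_pos hσ hψ
  refine (K_ratio hn (Real.exp_pos y) ((Real.le_log_iff_exp_le r0).1 (sub_neg.1 h).le)).trans_eq ?_
  rw [div_eq_mul_one_div (max _ _), Real.exp_mul, Real.exp_monotone.map_max, Real.exp_zero,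
    Real.exp_sub, (la_le hσ hψ).2, lx, Real.exp_sub, Real.exp_log r0,
    Real.rpow_max zero_le_one (by positivity) (by norm_num), Real.one_rpow, div_div_eq_mul_div,
    min_mul_of_nonneg _ _ r0.le, one_mul]
  congr 5
  field_simp

lemma meas_th {H : ℕ → ℝ × ℝ → ℝ} (h : ∀ θ, Measurable (H θ)) :
    Measurable fun w : ℝ × ℝ => H (th (Real.cos w.1)) w := by
  have : (fun w : ℝ × ℝ => H (th (Real.cos w.1)) w) =
      fun w => if Real.cos w.1 < -2 / 5 then H 1 w else H 0 w := by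
    funext w; unfold th; split_ifs <;> rfl
  rw [this]
  exact Measurable.ite (measurableSet_lt (by fun_prop) measurable_const) (h 1) (h 0)

lemma mm_meas (σ : ℝ) : Measurable fun ψ => mm (rb σ ψ) (Real.cos ψ) :=
  Measurable.ite (measurableSet_lt (by fun_prop) measurable_const) (by unfold rb; fun_prop)
    (by fun_prop)

/-- weighted moments of the ray `ψ` for a family `G` of radial profiles -/
noncomputable def SS (n : ℕ) (σ : ℝ) (b : ℝ → ℝ) (u v : ℝ) (G : ℕ → ℕ → ℝ → ℝ → ℝ) (ψ x : ℝ) : ℝ :=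
  Kf n (rb σ ψ) * (u * E1 (G · · (la σ ψ) x) (b ψ) (mm (rb σ ψ) (Real.cos ψ)) (th (Real.cos ψ)) +
    v * E2 (G · · (la σ ψ) x) (b ψ) (mm (rb σ ψ) (Real.cos ψ)) (th (Real.cos ψ)))

lemma SS_meas (hn : 2 ≤ n) {b : ℝ → ℝ} (hb : Measurable b) (u v : ℝ) {G : ℕ → ℕ → ℝ → ℝ → ℝ}
    (hG : ∀ p q, Measurable (Function.uncurry (G p q))) :
    Measurable (Function.uncurry (SS n σ b u v G)) := by
  have h1 : Measurable fun w : ℝ × ℝ => mm (rb σ w.1) (Real.cos w.1) := (mm_meas σ).comp measurable_fst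
  have h2 : Measurable fun w : ℝ × ℝ => Kf n (rb σ w.1) := (Kf_meas hn).comp (by unfold rb; fun_prop)
  have h4 : Measurable (la σ) := by unfold la rb; fun_prop
  have h3 : ∀ p q, Measurable fun w : ℝ × ℝ => G p q (la σ w.1) w.2 := fun p q =>
    (hG p q).comp ((h4.comp measurable_fst).prodMk measurable_snd)
  have h5 : ∀ k : ℕ, Measurable fun w : ℝ × ℝ => b w.1 ^ k := fun k => by fun_prop
  exact meas_th (H := fun θ w => Kf n (rb σ w.1) * (u * E1 (G · · (la σ w.1) w.2) (b w.1)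
    (mm (rb σ w.1) (Real.cos w.1)) θ + v * E2 (G · · (la σ w.1) w.2) (b w.1)
    (mm (rb σ w.1) (Real.cos w.1)) θ)) fun θ => h2.mul (((((hb.comp measurable_fst).mul
      (h3 _ _)).add (((h5 2).mul (h3 _ _)).div (h1.const_mul _))).const_mul u).add
      (((((h5 2).mul (h3 _ _)).add (((h5 3).mul (h3 _ _)).div (h1.const_mul _))).add
      (((h5 4).mul (h3 _ _)).div ((h1.pow_const 2).const_mul _))).const_mul v))

lemma ff_meas (p q : ℕ) : Measurable (Function.uncurry (ff p q)) := by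
  unfold Function.uncurry ff; fun_prop

lemma JJ_meas (p q : ℕ) : Measurable (Function.uncurry (JJ p q)) := by
  unfold Function.uncurry JJ; fun_prop

lemma SS_bd (hn : 2 ≤ n) (hσ : σ ∈ Ioo 0 π) {b : ℝ → ℝ} {B u v : ℝ} (hb : ∀ x, 0 ≤ b x ∧ b x ≤ B)
    (hu : 0 ≤ u) (hv : 0 ≤ v) {G : ℕ → ℕ → ℝ → ℝ → ℝ}
    (hG : ∀ p q, 2 + q ≤ 3 * p → ∀ a ≤ 0, ∀ x ≤ 0, 0 ≤ G p q a x ∧ G p q a x ≤ 2) :
    ∃ C, ∀ ψ ∈ Ioo σ π, ∀ x ≤ 0, 0 ≤ SS n σ b u v G ψ x ∧ |SS n σ b u v G ψ x| ≤ C := by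
  obtain ⟨m0, m1, hm⟩ := mm_ge hσ
  refine ⟨u * E1 (fun _ _ => 2) B m0 0 + v * E2 (fun _ _ => 2) B m0 0, fun ψ hψ x hx => ?_⟩
  obtain ⟨⟨a1, a2⟩, a3, a4⟩ := E_mono (g' := fun _ _ => 2) (th_le1 (Real.cos ψ)) (hb ψ).1 (hb ψ).2
    m1 (hm ψ hψ) fun p q h => hG p q h _ (la_le hσ hψ).1 x hx
  have r0 := rb_pos hσ hψ
  have k0 := K_pos hn r0
  have k1 : Kf n (rb σ ψ) ≤ 1 := by nlinarith [K_le hn r0]
  have : 0 ≤ SS n σ b u v G ψ x := by unfold SS; positivity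
  refine ⟨this, (abs_of_nonneg this).trans_le ((mul_le_of_le_one_left (by positivity) k1).trans ?_)⟩
  exact add_le_add (mul_le_mul_of_nonneg_left a2 hu) (mul_le_mul_of_nonneg_left a4 hv)

lemma SS_der (n : ℕ) (σ : ℝ) (b : ℝ → ℝ) (u v ψ x : ℝ) :
    HasDerivAt (SS n σ b u v JJ ψ) (SS n σ b u v ff ψ x) x := by
  have := th_le1 (Real.cos ψ)
  exact (((((JJ_der (by omega) _ x).const_mul _).add (((JJ_der (by omega) _ x).const_mul
    _).div_const _)).const_mul u).add (((((JJ_der (by omega) _ x).const_mul _).add (((JJ_der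
    (by omega) _ x).const_mul _).div_const _)).add (((JJ_der (by omega) _ x).const_mul
    _).div_const _)).const_mul v)).const_mul _

lemma SS_zero (hσ : σ ∈ Ioo 0 π) (hψ : ψ ∈ Ioo σ π) (b : ℝ → ℝ) : SS n σ b (w1 n) (Nu.w2 n) JJ ψ 0 =
    Kf n (rb σ ψ) * ph n (b ψ) (rb σ ψ) (Real.cos ψ) := by
  simp only [SS, E1, E2, ph, JJ_zero _ _ (la_le hσ hψ).1, (la_le hσ hψ).2]
  simp [II]

lemma E_sq (hθ : θ ≤ 1) (a x : ℝ) : E2 (ff · · a x) b m θ =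
    Real.exp (max 0 (a - x) / 3) * E1 (ff · · a x) b m θ ^ 2 := by
  obtain rfl | rfl : θ = 0 ∨ θ = 1 := by omega
  all_goals simp only [E1, E2, ff_eq]; ring

end Pool.Agent.Lib.MP_f225de_an.Nu
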