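import Pool.Agent.Lib.MP_f225de_an.NR2

set_option autoImplicit false

open MeasureTheory Set Filter Topology
open scoped Real

namespace Pool.Agent.Lib.MP_f225de_an.Nu

open MA Sk

variable {n : ℕ} {σ r y C r1 ψ : ℝ} {g1 g2 : ℝ → ℝ} {f : ℝ → ℝ → ℝ}

/-- the ray part of the density on the level `y` -/
noncomputable def xi (σ : ℝ) (f : ℝ → ℝ → ℝ) (y : ℝ) : ℝ → ℝ :=
  (Ioo σ π).indicator fun ψ => if lx σ y ψ < 0 then f ψ (lx σ y ψ) else 0

lemma xi_sq (σ : ℝ) (f : ℝ → ℝ → ℝ) (y ψ : ℝ) :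
    xi σ f y ψ ^ 2 = xi σ (fun ψ x => f ψ x ^ 2) y ψ := by
  unfold xi indicator
  split_ifs <;> simp_all

lemma xi_zero (h : ψ ∈ Ioo σ π → lx σ y ψ < 0 → f ψ (lx σ y ψ) = 0) : xi σ f y ψ = 0 := by
  unfold xi indicator
  split_ifs <;> simp_all

lemma xi_IR (hσ : σ ∈ Ioo 0 π) (f : ℝ → ℝ → ℝ) (y : ℝ) :
    ∫ ψ in Arc σ (Real.exp y), xi σ f y ψ = IR σ f y := by
  rw [setIntegral_eq_integral_of_forall_compl_eq_zero fun ψ h => xi_zero fun a b =>
    (h ((lx_neg hσ a).1 b)).elim, xi, integral_indicator measurableSet_Ioo, IR]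

lemma IR_nonneg (h : ∀ ψ ∈ Ioo σ π, ∀ x ≤ 0, 0 ≤ f ψ x) (y : ℝ) : 0 ≤ IR σ f y :=
  setIntegral_nonneg measurableSet_Ioo fun ψ hψ => by
    split_ifs with e
    exacts [h ψ hψ _ e.le, le_rfl]

lemma int_le {u v : ℝ → ℝ} {A : ℝ} (hu : Measurable u) (h : ∀ ψ ∈ Ioo σ π, 0 ≤ u ψ ∧ u ψ ≤ v ψ)
    (hA : 0 ≤ A) (hv : ∫⁻ ψ in Ioo σ π, ENNReal.ofReal (v ψ) ≤ ENNReal.ofReal A) :
    ∫ ψ in Ioo σ π, u ψ ≤ A := by
  rw [integral_eq_lintegral_of_nonneg_ae ((ae_restrict_mem measurableSet_Ioo).mono fun ψ hψ =>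
    (h ψ hψ).1) hu.aestronglyMeasurable]
  exact ENNReal.toReal_le_of_le_ofReal hA ((setLIntegral_mono' measurableSet_Ioo fun ψ hψ =>
    ENNReal.ofReal_le_ofReal (h ψ hψ).2).trans hv)

lemma meas_at (hf : Measurable (Function.uncurry f)) {u : ℝ → ℝ} (hu : Measurable u) :
    Measurable fun ψ => f ψ (u ψ) := hf.comp (measurable_id.prodMk hu)

variable (F : Fld n σ C r1 g1 g2)

/-- the gain part of the density on the level `r` -/
noncomputable def xo (r : ℝ) : ℝ → ℝ := (Ioo 0 (ao σ r)).indicator (XX (F.c1 r) (F.c2 r))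

lemma xo_low (h : r ≤ r1) (ψ : ℝ) : xo F r ψ = 0 := by
  obtain ⟨a, b, -⟩ := F.low r h
  simp [xo, a, b, XX, indicator]

lemma SS_b (hψ : ψ ∈ Ioo σ π) (h1 : ψ < σ + π / 2) (h2 : r1 < rb σ ψ) (u v : ℝ)
    (G : ℕ → ℕ → ℝ → ℝ → ℝ) (x : ℝ) : SS n σ F.b u v G ψ x = 0 := by
  simp [SS, E1, E2, F.b_zero ψ hψ h1 h2]

lemma lx_rb (hσ : σ ∈ Ioo 0 π) (hψ : ψ ∈ Ioo σ π) : lx σ y ψ < 0 ↔ Real.exp y < rb σ ψ :=
  sub_neg.trans (Real.lt_log_iff_exp_lt (rb_pos hσ hψ))

lemma xo_int (hσ : σ ∈ Ioo 0 π) (r : ℝ) : Integrable (xo F r) ∧ Integrable (xo F r · ^ 2) ∧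
    (∀ ψ, -1 ≤ xo F r ψ) ∧ ∫ ψ in Arc σ r, xo F r ψ ≤ -(2 * π * g1 r) ∧
    2 * (∫ ψ in Arc σ r, xo F r ψ) + ∫ ψ in Arc σ r, xo F r ψ ^ 2 ≤ 2 * π * g2 r ∧
    (r1 < r → 2 * π * g1 r ≤ ao σ r) := by
  rcases le_or_gt r r1 with h | h
  · obtain ⟨-, -, a, b⟩ := F.low r h
    simp [funext (xo_low F h), a, b, h]
  obtain ⟨-, -, a, b, c⟩ := F.gain r h
  have hr := F.r1_ge.trans_lt h
  have A := ao_mem hσ hr
  have A0 := hσ.1.trans A.1
  have x : Continuous (XX (F.c1 r) (F.c2 r)) := by unfold XX; fun_prop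
  have e : (xo F r · ^ 2) = (Ioo 0 (ao σ r)).indicator (XX (F.c1 r) (F.c2 r) · ^ 2) := by
    funext ψ; unfold xo indicator; split_ifs <;> simp
  have I : ∀ u : ℝ → ℝ, ∫ ψ in Arc σ r, (Ioo 0 (ao σ r)).indicator u ψ = ∫ ψ in (0 : ℝ)..ao σ r, u ψ :=
    fun u => by
      rw [setIntegral_eq_integral_of_forall_compl_eq_zero fun ψ h => indicator_of_notMem
        (fun b => h (show ψ ∈ Arc σ r from
          ⟨⟨b.1, b.2.trans (lt_min_iff.1 A.2).1⟩, (ao_arc hσ hr b.1.le).2.1 b.2⟩)) _,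
        integral_indicator measurableSet_Ioo, intervalIntegral.integral_of_le A0.le,
        integral_Ioc_eq_integral_Ioo]
  have J : ∀ u : ℝ → ℝ, Continuous u → Integrable ((Ioo 0 (ao σ r)).indicator u) := fun u hu =>
    (hu.integrableOn_Icc.mono_set Ioo_subset_Icc_self).integrable_indicator measurableSet_Ioo
  rw [e, xo, I, I, (G_int _ _ _).1, (G_int _ _ _).2]
  refine ⟨J _ x, J _ (x.pow 2), fun ψ => ?_, by linarith, c, fun _ => ?_⟩
  · unfold indicator
    split_ifs with h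
    exacts [a ψ (Ioo_subset_Icc_self h), by norm_num]
  · have := intervalIntegral.integral_mono_on A0.le (intervalIntegrable_const (μ := volume))
      (x.intervalIntegrable _ _) a
    rw [(G_int _ _ _).1] at this
    simp only [intervalIntegral.integral_const, sub_zero, smul_eq_mul] at this
    linarith

lemma xi_xo (hσ : σ ∈ Ioo 0 π) (y ψ : ℝ) :
    xi σ (SS n σ F.b 1 0 ff) y ψ * xo F (Real.exp y) ψ = 0 := by
  rcases le_or_gt (Real.exp y) r1 with h | h
  · rw [xo_low F h, mul_zero]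
  by_cases e : ψ ∈ Ioo 0 (ao σ (Real.exp y))
  · rw [xi_zero fun a b => SS_b F a (e.2.trans (lt_min_iff.1 (ao_mem hσ (F.r1_ge.trans_lt h)).2).2)
      (h.trans ((lx_rb hσ a).1 b)) _ _ _ _, zero_mul]
  · rw [xo, indicator_of_notMem e, mul_zero]

lemma fld_flux (hn : 4 ≤ n) (hσ : σ ∈ Ioo 0 π) : ∃ k', Nonempty (Flux n σ k') ∧
    ∀ y, ∀ ψ ∈ Arc σ (Real.exp y), k' (Real.exp y) ψ ≤ Kf n (Real.exp y) +
      xi σ (SS n σ F.b 1 0 ff) y ψ + Kf n (Real.exp y) * xo F (Real.exp y) ψ := by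
  have h2 : 2 ≤ n := by omega
  have mK := Kf_meas h2
  have s0 := (Real.sin_pos_of_pos_of_lt_pi hσ.1 hσ.2).trans_le (tl_ge σ)
  refine ⟨_, flux_of2 h2 hσ (Y := fun _ => 1) (Y1 := fun _ => 0)
    (M := fun ψ => F.b ψ * Kf n (rb σ ψ)) (g1 := fun r => Kf n r * F.c1 r)
    (g2 := fun r => Kf n r * F.c2 r) measurable_const measurable_const
    (F.b_meas.mul (mK.comp (by unfold rb; fun_prop))) (mK.mul F.c1_meas) (mK.mul F.c2_meas) 1
    (fun r _ => (hasDerivAt_const r _).congr_deriv (zero_div r).symm) (C := 2 * F.Bd)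
    (fun ψ hψ r hr => ?_) (fun r hr => ?_) (fun ψ hψ h => ?_)
    fun ψ hψ h => (F.ray ψ hψ (.inl h)).trans_eq (one_mul _).symm, fun y ψ hψ => ?_⟩
  · have k0 := K_pos h2 (rb_pos hσ hψ)
    obtain ⟨b0, b1, -⟩ := F.bd ψ
    rw [abs_one, abs_zero, add_zero, mul_one, abs_of_nonneg (by positivity)]
    nlinarith [mul_le_mul_of_nonneg_left (K_le h2 (rb_pos hσ hψ)) b0,
      mul_le_mul_of_nonneg_right hr.2 (mul_nonneg b0 k0.le)]
  · have k0 := K_pos h2 (s0.trans hr)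
    obtain ⟨-, -, a0, a1, b0, b1⟩ := F.bd r
    rw [abs_of_nonneg (by positivity), abs_of_nonneg (by positivity)]
    nlinarith [mul_le_mul_of_nonneg_left (K_le h2 (s0.trans hr)) (add_nonneg a0 b0)]
  · rcases le_or_gt (rb σ ψ) r1 with e | e
    · obtain ⟨a, b, -⟩ := F.low _ e
      rw [a, b]
      linarith [mul_le_mul_of_nonneg_right (F.ray ψ hψ (.inr e)) (sinb hσ hψ).le]
    · have := (F.gain _ e).2.1
      rw [ao_rb hσ ⟨hψ.1, lt_min hψ.2 h⟩] at this
      rw [F.b_zero ψ hψ h e]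
      linarith
  have r0 := Real.exp_pos y
  have k0 := K_pos h2 r0
  have c0 := sub_pos.2 (cc_lt r0 hψ.1)
  rw [k2, add_div, Nat.cast_one, one_mul, add_zero, one_mul]
  have A : ∀ h, h = hy σ (fun ψ => F.b ψ * Kf n (rb σ ψ)) 1 (Real.exp y) ψ → h + h ^ 2 /
      (4 * (Kf n (Real.exp y) * (1 - cc (Real.exp y) (Real.cos ψ)))) ≤
      xi σ (SS n σ F.b 1 0 ff) y ψ := by
    rintro _ rfl
    unfold hy
    split_ifs with h
    · have a : ψ ∈ Ioo σ π := ⟨h, hψ.1.2⟩
      have l := (lx_neg hσ a).2 hψ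
      have R0 := rb_pos hσ a
      obtain ⟨m0, m1, hm⟩ := mm_ge hσ
      have m2 := m1.trans_le (hm ψ a)
      have t0 := Real.exp_pos (lx σ y ψ)
      have h1 := mm_le R0.le t0.le (Real.exp_le_one_iff.2 l.le) (Real.neg_one_le_cos ψ)
      rw [show rb σ ψ * Real.exp (lx σ y ψ) = Real.exp y by
        rw [lx_exp hσ a, ur_rb, mul_div_cancel₀ _ R0.ne']] at h1
      rw [xi, indicator_of_mem a, if_pos l, ← ur, ← lx_exp hσ a]
      simp only [SS, E1, ff_eq, pow_one, pow_zero, one_mul, zero_mul, mul_one, add_zero]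
      have e : Real.exp (lx σ y ψ) ^ 2 = Real.exp (lx σ y ψ) ^ (2 - th (Real.cos ψ)) *
          Real.exp (lx σ y ψ) ^ th (Real.cos ψ) := by
        rw [← pow_add, Nat.sub_add_cancel ((th_le1 _).trans one_le_two)]
      rw [mul_add, mul_pow, e, ← mul_div_assoc]
      refine add_le_add (le_of_eq (by ring)) ?_
      rw [div_le_div_iff₀ (by positivity) (by positivity)]
      have := K_pos h2 R0
      have := mul_le_mul_of_nonneg_left (mul_le_mul (Kb_le hn hσ a l) h1 (by positivity)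
        (by positivity)) (by positivity : 0 ≤ 4 * Kf n (rb σ ψ) * F.b ψ ^ 2 *
          Real.exp (lx σ y ψ) ^ (2 - th (Real.cos ψ)))
      linarith
    · rw [xi_zero fun a => (h a.1).elim]
      simp
  have B := A _ rfl
  rcases le_or_gt (Real.exp y) r1 with h | h
  · obtain ⟨a, b, -⟩ := F.low _ h
    simp only [xo_low F h, ga, a, b, mul_zero, ite_self, zero_mul, add_zero, zero_pow two_ne_zero,
      zero_div]
    linarith
  have hr := F.r1_ge.trans_lt h
  have A := ao_mem hσ hr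
  rcases lt_or_ge ψ (σ + π / 2) with e | e
  · have a := (ao_arc hσ hr hψ.1.1.le).2.2 e hψ.2
    have := Real.cos_le_cos_of_nonneg_of_le_pi hψ.1.1.le (lt_min_iff.1 A.2).1.le a.le
    have c : cc (Real.exp y) (Real.cos ψ) = Real.cos ψ :=
      max_eq_left (by linarith [(F.gain _ h).1])
    rw [c] at c0
    have : (Kf n (Real.exp y) * F.c1 (Real.exp y) * Real.sin ψ + Kf n (Real.exp y) *
        F.c2 (Real.exp y) * (1 - Real.cos ψ)) ^ 2 / (4 * (Kf n (Real.exp y) * (1 - Real.cos ψ))) =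
        Kf n (Real.exp y) * (XX (F.c1 (Real.exp y)) (F.c2 (Real.exp y)) ψ + (F.c1 (Real.exp y) *
          Real.cos ψ + F.c2 (Real.exp y) * Real.sin ψ)) := by
      rw [div_eq_iff (by positivity), XX]
      linear_combination (Kf n (Real.exp y) * F.c1 (Real.exp y)) ^ 2 * Real.sin_sq_add_cos_sq ψ
    rw [ga, ga, if_pos ⟨hr, e⟩, if_pos ⟨hr, e⟩, xo, indicator_of_mem (show ψ ∈ Ioo _ _ from
      ⟨hψ.1.1, a⟩)]
    rw [c] at B ⊢
    linarith
  · rw [ga, ga, if_neg fun a => a.2.not_ge e, if_neg fun a => a.2.not_ge e, xo,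
      indicator_of_notMem fun a => (a.2.trans (lt_min_iff.1 A.2).2).not_ge e]
    simp only [zero_mul, add_zero, zero_pow two_ne_zero, zero_div]
    linarith

theorem raySt (hn : 4 ≤ n) : RaySt n := by
  intro σ hσ C r1 g1 g2 hC hg F
  have h2 : 2 ≤ n := by omega
  have hπ := Real.pi_pos
  have hb : ∀ x, 0 ≤ F.b x ∧ F.b x ≤ F.Bd := fun x => ⟨(F.bd x).1, (F.bd x).2.1⟩
  have bf : ∀ p q, 2 + q ≤ 3 * p → ∀ a ≤ 0, ∀ x ≤ 0, 0 ≤ ff p q a x ∧ ff p q a x ≤ 2 :=
    fun p q h a ha x hx => ⟨(ff_bd (by omega) ha hx).1.le, (ff_bd (by omega) ha hx).2.trans one_le_two⟩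
  have bJ : ∀ p q, 2 + q ≤ 3 * p → ∀ a ≤ 0, ∀ x ≤ 0, 0 ≤ JJ p q a x ∧ JJ p q a x ≤ 2 :=
    fun p q h a ha x hx => ⟨(JJ_bd h a x).1, by
      linarith [(JJ_bd h a x).2, (ff_bd (by omega : q ≤ 3 * p) ha hx).2]⟩
  obtain ⟨w1p, w2p⟩ := w_pos n
  obtain ⟨Ce, hCe⟩ := SS_bd h2 hσ hb zero_le_one le_rfl bf
  obtain ⟨Cf, hCf⟩ := SS_bd h2 hσ hb w1p w2p bf
  obtain ⟨CJ, hCJ⟩ := SS_bd h2 hσ hb w1p w2p bJ
  obtain ⟨m0, m1, hm⟩ := mm_ge hσ
  have me := SS_meas (σ := σ) h2 F.b_meas 1 0 ff_meas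
  have mf := SS_meas (σ := σ) h2 F.b_meas (w1 n) (Nu.w2 n) ff_meas
  have mJ := SS_meas (σ := σ) h2 F.b_meas (w1 n) (Nu.w2 n) JJ_meas
  have fl := fld_flux F hn hσ
  have xx := xi_xo F hσ
  have sb := fun ψ a b c => SS_b (ψ := ψ) F a b c 1 0 ff
  have ed : ∀ ψ x, SS n σ F.b 1 0 ff ψ x = Kf n (rb σ ψ) * E1 (ff · · (la σ ψ) x) (F.b ψ)
    (mm (rb σ ψ) (Real.cos ψ)) (th (Real.cos ψ)) := fun ψ x => by simp [SS]
  have ce : ∀ ψ, Continuous (SS n σ F.b 1 0 ff ψ) := fun ψ => by unfold SS E1 E2 ff; fun_prop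
  generalize SS n σ F.b 1 0 ff = e at *
  have k0 : ∀ y, 0 < Kf n (Real.exp y) := fun y => K_pos h2 (Real.exp_pos y)
  have j1 := fun y => IR_int me (fun ψ a x b => (hCe ψ a x b).2) y
  have j2 := fun y => IR_int (f := fun ψ x => e ψ x ^ 2) (C := Ce ^ 2) (me.pow_const 2)
    (fun ψ a x b => by rw [abs_pow]; exact pow_le_pow_left₀ (abs_nonneg _) (hCe ψ a x b).2 2) y
  have i1 : ∀ y, Integrable (xi σ e y) := fun y => (j1 y).integrable_indicator measurableSet_Ioo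
  have i2 : ∀ y, Integrable (xi σ e y · ^ 2) := fun y => by
    simp only [xi_sq]
    exact (j2 y).integrable_indicator measurableSet_Ioo
  have i0 : ∀ y (c : ℝ), IntegrableOn (fun _ => c) (Arc σ (Real.exp y)) := fun y c =>
    integrableOn_const (Arc_fin _ _)
  have v0 : ∀ y (c : ℝ), ∫ _ in Arc σ (Real.exp y), c = 2 * π * lam σ y * c := fun y c => by
    rw [setIntegral_const, lam, mul_div_cancel₀ _ (by positivity), smul_eq_mul, Measure.real]
  have sqe : ∀ y ψ, (Kf n (Real.exp y) + xi σ e y ψ + Kf n (Real.exp y) * xo F (Real.exp y) ψ) ^ 2 =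
      Kf n (Real.exp y) ^ 2 + (2 * Kf n (Real.exp y) * xi σ e y ψ + xi σ e y ψ ^ 2) +
      Kf n (Real.exp y) ^ 2 * (2 * xo F (Real.exp y) ψ + xo F (Real.exp y) ψ ^ 2) := fun y ψ => by
    linear_combination 2 * Kf n (Real.exp y) * xx y ψ
  have cs : ∀ y W (T : Set ℝ), MeasurableSet T → 0 ≤ W → volume T ≤ ENNReal.ofReal (π * W) →
      (∀ ψ ∈ Arc σ (Real.exp y), ψ ∉ T → xi σ e y ψ = 0) →
      (IR σ e y / (2 * π * Kf n (Real.exp y))) ^ 2 ≤ W * (IR σ (fun ψ x => e ψ x ^ 2) y /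
        (2 * π * Kf n (Real.exp y) ^ 2) / 2) := fun y W T a b c d => by
    have := cauchy a (Arc_meas _ _) c (by positivity) (i1 y).integrableOn (i2 y).integrableOn d
    simp only [xi_sq, xi_IR hσ] at this
    have := k0 y
    rw [div_pow, div_le_iff₀ (by positivity)]
    field_simp
    linarith
  refine ⟨⟨fun y ψ => Kf n (Real.exp y) + xi σ e y ψ + Kf n (Real.exp y) * xo F (Real.exp y) ψ,
    fun y => IR σ e y / (2 * π * Kf n (Real.exp y)),
    fun y => IR σ (fun ψ x => e ψ x ^ 2) y / (2 * π * Kf n (Real.exp y) ^ 2),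
    fun y => (∫ ψ in Ioo σ π, SS n σ F.b (w1 n) (Nu.w2 n) JJ ψ (min 0 (lx σ y ψ))) / (2 * π),
    fun y => IR σ (SS n σ F.b (w1 n) (Nu.w2 n) ff) y / (2 * π),
    (∫ ψ in Ioo σ π, SS n σ F.b (w1 n) (Nu.w2 n) JJ ψ 0) / (2 * π), fl, fun y => ?_, fun y ψ => ?_,
    fun y => ?_, fun y => ?_, fun y => ?_, fun _ => ?_, fun y => ?_, fun h4 y => ?_, fun y => ?_,
    fun hs y hy => ?_, fun y => ⟨?_, ?_⟩, fun y => ⟨?_, ?_, fun h => ?_⟩, ?_, ?_⟩⟩
  · exact (((IR_meas me y).indicator measurableSet_Ioo).const_add _).add (Measurable.const_mul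
      (Measurable.indicator (by unfold XX; fun_prop) measurableSet_Ioo) _)
  · have : 0 ≤ xi σ e y ψ := indicator_nonneg (fun ψ a => by
      split_ifs with b
      exacts [(hCe ψ a _ b.le).1, le_rfl]) _
    nlinarith [k0 y, (xo_int F hσ (Real.exp y)).2.2.1 ψ]
  · obtain ⟨a, b, -⟩ := xo_int F hσ (Real.exp y)
    simp only [sqe]
    exact ((i0 y _).add (((i1 y).const_mul _).add (i2 y)).integrableOn).add
      (((a.const_mul _).add b).const_mul _).integrableOn
  · obtain ⟨a, -, -, c, -⟩ := xo_int F hσ (Real.exp y)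
    rw [ell, integral_add (by exact (i0 y _).add (i1 y).integrableOn) (a.const_mul _).integrableOn,
      integral_add (i0 y _) (i1 y).integrableOn, integral_const_mul, v0, xi_IR hσ]
    have := mul_le_mul_of_nonneg_left c (k0 y).le
    have := k0 y
    field_simp
    linarith
  · obtain ⟨a, b, -, -, c, -⟩ := xo_int F hσ (Real.exp y)
    simp only [sq2, sqe]
    rw [integral_add (by exact (i0 y _).add (((i1 y).const_mul _).add (i2 y)).integrableOn)
      (by exact (((a.const_mul _).add b).const_mul _).integrableOn), integral_add (i0 y _)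
      (by exact (((i1 y).const_mul _).add (i2 y)).integrableOn),
      integral_add ((i1 y).const_mul _).integrableOn (i2 y).integrableOn, integral_const_mul,
      integral_const_mul, integral_add (a.const_mul _).integrableOn b.integrableOn,
      integral_const_mul, v0]
    simp only [xi_sq, xi_IR hσ]
    have := mul_le_mul_of_nonneg_left c (sq_nonneg (Kf n (Real.exp y)))
    have := k0 y
    field_simp
    linarith
  · exact (IR_cont hσ me (fun ψ a x b => (hCe ψ a x b).2) ce).div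
      (continuous_const.mul (K_cont h2)) fun y => by have := k0 y; positivity
  · have := k0 y
    exact ⟨div_nonneg (IR_nonneg (fun ψ a x b => (hCe ψ a x b).1) y) (by positivity),
      div_nonneg (IR_nonneg (fun ψ _ x _ => sq_nonneg _) y) (by positivity)⟩
  · have k := k0 y
    rw [mul_comm, ← div_div, div_le_iff₀' (by positivity), IR, ← integral_div]
    refine int_le ((IR_meas me y).div_const _) (fun ψ a => ?_) (by positivity) (F.sup h4)
    have := m1.trans_le (hm ψ a)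
    have := (hb ψ).1
    split_ifs with l
    · refine ⟨div_nonneg (hCe ψ a _ l.le).1 k.le, ?_⟩
      have t := th_le1 (Real.cos ψ)
      have f1 := (ff_bd (p := 1) (q := 1) (by omega) (la_le hσ a).1 l.le).2
      have f2 := (ff_bd (p := 2 - th (Real.cos ψ)) (q := 2) (by omega) (la_le hσ a).1 l.le).2
      rw [div_le_iff₀' k, ed]
      refine (mul_le_mul_of_nonneg_right (Kb_le hn hσ a l) (by
        unfold E1 ff; positivity)).trans ?_
      rw [mul_assoc]
      refine mul_le_mul_of_nonneg_left ?_ k.le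
      simp only [E1, ff_eq] at f1 f2 ⊢
      have := mul_le_mul_of_nonneg_left f2
        (by positivity : 0 ≤ F.b ψ ^ 2 / (4 * mm (rb σ ψ) (Real.cos ψ)))
      refine le_of_eq_of_le ?_ ((add_le_add (mul_le_mul_of_nonneg_left f1 (hb ψ).1) this).trans_eq
        (by ring))
      ring
    · exact ⟨(zero_div _).ge, by rw [zero_div]; positivity⟩
  · simpa using cs y 1 (Ioo 0 π) measurableSet_Ioo zero_le_one (by simp) fun ψ a b => (b a.1).elim
  · have s0 := Real.sin_pos_of_pos_of_lt_pi hσ.1 hσ.2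
    have s1 := ((Real.log_lt_iff_lt_exp s0).1 hy).le
    have c0 := cor_nonneg ⟨hσ.1, hσ.2.le⟩ y
    have c1 : π * cor σ y = 2 * Real.arcsin (Real.sin σ / Real.exp y) := by rw [cor]; field_simp
    have as := fun ψ => arc_sub (ψ := ψ) (Real.exp_pos y) s0.le s1
    have a2 := Real.arcsin_le_pi_div_two (Real.sin σ / Real.exp y)
    rcases le_or_gt (Real.exp y) r1 with h | h
    · rw [(F.low _ h).2.2.1, min_eq_left (by positivity), mul_zero, sub_zero]
      refine cs y _ (Ioo σ (σ + Real.arcsin (Real.sin σ / Real.exp y)) ∪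
        Ioo (π + σ - Real.arcsin (Real.sin σ / Real.exp y)) π)
        (measurableSet_Ioo.union measurableSet_Ioo) c0 ((measure_union_le _ _).trans ?_)
        fun ψ a b => xi_zero fun c _ => (b ((as ψ a).imp (⟨c.1, ·⟩) (⟨·, c.2⟩))).elim
      have t0 : 0 ≤ Real.arcsin (Real.sin σ / Real.exp y) := by nlinarith
      rw [Real.volume_Ioo, Real.volume_Ioo, c1, two_mul, ENNReal.ofReal_add t0 t0]
      gcongr <;> linarith [hσ.1]
    · refine cs y _ (Ioo (π + σ - Real.arcsin (Real.sin σ / Real.exp y)) π) measurableSet_Ioo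
        (by linarith [min_le_right (g1 (Real.exp y)) (cor σ y / 2)]) ?_ fun ψ a b =>
        xi_zero fun c d => (as ψ a).elim (fun t => sb ψ c (by linarith)
          (h.trans ((lx_rb hσ c).1 d)) _) fun t => (b ⟨t, c.2⟩).elim
      have := (xo_int F hσ (Real.exp y)).2.2.2.2.2 h
      rw [Real.volume_Ioo, ao] at *
      refine ENNReal.ofReal_le_ofReal ?_
      nlinarith [min_le_left (g1 (Real.exp y)) (cor σ y / 2)]
  · exact (ray_der hσ mf mJ (fun ψ a x b => (hCf ψ a x b).2.trans (le_max_left _ CJ))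
      (fun ψ a x b => (hCJ ψ a x b).2.trans (le_max_right Cf _)) (SS_der n σ F.b _ _) y).div_const _
  · have k := k0 y
    rw [rho, le_div_iff₀ (by positivity)]
    refine le_of_eq_of_le (b := w1 n * IR σ e y + Nu.w2 n / Kf n (Real.exp y) *
      IR σ (fun ψ x => e ψ x ^ 2) y) (by field_simp) ?_
    rw [IR, IR, ← integral_const_mul, ← integral_const_mul,
      ← integral_add ((j1 y).const_mul _) ((j2 y).const_mul _)]
    refine setIntegral_mono_on (((j1 y).const_mul _).add ((j2 y).const_mul _))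
      (IR_int mf (fun ψ a x b => (hCf ψ a x b).2) y) measurableSet_Ioo fun ψ a => ?_
    split_ifs with l
    · rw [SS, ed, E_sq (th_le1 _), mul_add, mul_left_comm]
      refine add_le_add le_rfl ?_
      rw [div_mul_eq_mul_div, div_le_iff₀ k]
      have := K_pos h2 (rb_pos hσ a)
      nlinarith [mul_le_mul_of_nonneg_left (Kb_le hn hσ a l) (by positivity : 0 ≤ Nu.w2 n *
        Kf n (rb σ ψ) * E1 (ff · · (la σ ψ) (lx σ y ψ)) (F.b ψ) (mm (rb σ ψ) (Real.cos ψ))
          (th (Real.cos ψ)) ^ 2)]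
    · simp
  · exact div_nonneg (setIntegral_nonneg measurableSet_Ioo fun ψ a =>
      (hCJ ψ a _ (min_le_left _ _)).1) (by positivity)
  · rw [div_mul_eq_mul_div, ← integral_mul_const]
    refine div_le_div_of_nonneg_right (setIntegral_mono_on (bd_int (meas_at mJ
      (measurable_const.min (lx_meas σ y))) fun ψ a => (hCJ ψ a _ (min_le_left _ _)).2)
      ((bd_int (meas_at mJ measurable_const) fun ψ a =>
        (hCJ ψ a 0 le_rfl).2).mul_const _) measurableSet_Ioo fun ψ a => ?_) (by positivity)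
    obtain ⟨t, ht⟩ : ∃ t, t = min 1 (Real.exp (2 / 3 * (y - Real.log (tl σ)))) := ⟨_, rfl⟩
    have t1 : Real.exp (2 / 3 * min 0 (lx σ y ψ)) ≤ t := ht ▸ le_min (Real.exp_le_one_iff.2
      (by linarith [min_le_left 0 (lx σ y ψ)])) (Real.exp_le_exp.2 (by
        have := Real.log_le_log ((Real.sin_pos_of_pos_of_lt_pi hσ.1 hσ.2).trans_le (tl_ge σ))
          (rb_ge hσ a)
        have := min_le_right 0 (lx σ y ψ)
        unfold lx at *
        linarith))
    obtain ⟨⟨-, a2⟩, -, a4⟩ := E_mono (g := (JJ · · (la σ ψ) (min 0 (lx σ y ψ))))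
      (g' := fun p q => JJ p q (la σ ψ) 0 * t) (th_le1 (Real.cos ψ)) (hb ψ).1 le_rfl
      (m1.trans_le (hm ψ a)) le_rfl fun p q h => ⟨(JJ_bd h _ _).1, (JJ_le h _ (min_le_left _ _)).trans
        (mul_le_mul_of_nonneg_left t1 (JJ_bd h _ _).1)⟩
    rw [← ht, SS, SS, mul_assoc]
    refine mul_le_mul_of_nonneg_left ((add_le_add (mul_le_mul_of_nonneg_left a2 w1p)
      (mul_le_mul_of_nonneg_left a4 w2p)).trans_eq ?_) (K_pos h2 (rb_pos hσ a)).le
    unfold E1 E2
    ring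
  · refine congrArg (· / (2 * π)) (setIntegral_congr_fun measurableSet_Ioo fun ψ a => ?_)
    rcases lt_or_ge (lx σ y ψ) 0 with l | l
    · have b := (max_le_iff.1 h).imp (·.trans_lt ((lx_rb hσ a).1 l)) (·.trans_lt ((lx_rb hσ a).1 l))
      simp only [SS_b F a (lt_of_not_ge fun c => b.2.not_ge (rb_le hσ a c)) b.1]
    · simp only [min_eq_left l]
  · exact div_nonneg (setIntegral_nonneg measurableSet_Ioo fun ψ a => (hCJ ψ a 0 le_rfl).1)
      (by positivity)
  · rw [div_le_iff₀' (by positivity)]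
    exact int_le (meas_at mJ measurable_const)
      (fun ψ a => ⟨(hCJ ψ a 0 le_rfl).1, (SS_zero hσ a _).le⟩) (by positivity) F.cost

end Pool.Agent.Lib.MP_f225de_an.Nu
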