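import Pool.Agent.Lib.MP_f225de_an.PF1

set_option autoImplicit false

open MeasureTheory Set Filter Topology
open scoped Real

namespace Pool.Agent.Lib.MP_f225de_an.MA

variable {n : ℕ} {r : ℝ}

/-- lower sum of the series of `P` at `r = p / q` -/
def plo (n p q : ℕ) : ℕ → ℕ → ℕ → ℕ → ℕ
  | 0, _, v, a => a + v
  | f + 1, k, v, a => bif v.beq 0 then a else
      plo n p q f (k + 1) (v * ((2 * n * k + n - 1) * q) / ((2 * n * k + n + 1) * (p + q))) (a + v)

/-- upper sum of the series of `P` at `r = p / q` -/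
def phi (n p q : ℕ) : ℕ → ℕ → ℕ → ℕ → ℕ
  | 0, _, v, a => a + v * (p + q) / p + 1
  | f + 1, k, v, a => bif v.beq 0 then a else
      phi n p q f (k + 1) (v * ((2 * n * k + n - 1) * q) / ((2 * n * k + n + 1) * (p + q)) + 1) (a + v)

lemma xm_nonneg (k : ℕ) : 0 ≤ xm n k :=
  integral_nonneg_of_ae ((mu_ae n).mono fun _ hs => pow_nonneg (sub_pos.mpr hs.2).le k)

lemma xm_succ (hn : 2 ≤ n) (k : ℕ) :
    xm n (k + 1) = xm n k * ((2 * n * k + n - 1 : ℕ) / (2 * n * k + n + 1 : ℕ)) := by
  have h := xm_rec hn k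
  have : (0 : ℝ) < n := by positivity
  rw [Nat.cast_sub (by omega)]
  push_cast
  field_simp at h ⊢
  linear_combination h

lemma plo_le (hn : 2 ≤ n) {p q : ℕ} (hp : 0 < p) (hq : 0 < q) (f : ℕ) : ∀ (k v a : ℕ) (c : ℝ),
    0 ≤ c → v ≤ c * xm n k → plo n p q f k v a ≤ a + c * (mx n k 1 (p / q) * ((p + q) / p)) := by
  have hr : (0 : ℝ) < p / q := by positivity
  have b : ∀ k, xm n k ≤ mx n k 1 (p / q) * ((p + q) / p) := fun k => by
    have := (mx_bd hn hr k).1
    rw [← div_le_iff₀ (by positivity)]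
    refine le_of_eq_of_le ?_ this
    field_simp
    ring
  induction f with
  | zero =>
    intro k v a c hc hv
    simpa [plo] using hv.trans (mul_le_mul_of_nonneg_left (b k) hc)
  | succ f ih =>
    intro k v a c hc hv
    rw [plo]
    cases v.beq 0
    · refine (ih _ _ _ (c * (q / (p + q))) (by positivity) (Nat.cast_div_le.trans ?_)).trans ?_
      · rw [xm_succ hn, Nat.cast_mul v, mul_div_assoc]
        refine (mul_le_mul_of_nonneg_right hv (by positivity)).trans_eq ?_
        simp only [Nat.cast_mul _ q, Nat.cast_mul _ (p + q), Nat.cast_add p]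
        field_simp
      · have := mx_step hn hr k
        have e : mx n k 1 (p / q) * ((p + q) / p) =
            xm n k + q / (p + q) * (mx n (k + 1) 1 (p / q) * ((p + q) / p)) := by
          field_simp at this ⊢
          linear_combination this
        rw [e]
        push_cast
        linarith
    · simpa using mul_nonneg hc ((xm_nonneg k).trans (b k))

lemma le_phi (hn : 2 ≤ n) {p q : ℕ} (hp : 0 < p) (hq : 0 < q) (f : ℕ) : ∀ (k v a : ℕ) (c : ℝ),
    0 ≤ c → c * xm n k ≤ v → a + c * (mx n k 1 (p / q) * ((p + q) / p)) ≤ phi n p q f k v a := by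
  have hr : (0 : ℝ) < p / q := by positivity
  have b : ∀ (k v : ℕ) (c : ℝ), 0 ≤ c → c * xm n k ≤ v →
      c * (mx n k 1 (p / q) * ((p + q) / p)) ≤ v * ((p + q) / p) := fun k v c hc hv => by
    rw [← mul_assoc]
    exact mul_le_mul_of_nonneg_right ((mul_le_mul_of_nonneg_left (mx_bd hn hr k).2 hc).trans hv)
      (by positivity)
  have d : ∀ x y : ℕ, 0 < y → (x : ℝ) / y ≤ (x / y + 1 : ℕ) := fun x y hy => by
    rw [div_le_iff₀ (by positivity)]
    exact_mod_cast (Nat.lt_div_mul_add hy).le.trans_eq (Nat.succ_mul _ _).symm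
  induction f with
  | zero =>
    intro k v a c hc hv
    have := d (v * (p + q)) p hp
    rw [phi, add_assoc, Nat.cast_add a]
    rw [Nat.cast_mul, Nat.cast_add p, mul_div_assoc] at this
    linarith [b k v c hc hv]
  | succ f ih =>
    intro k v a c hc hv
    rw [phi]
    cases h : v.beq 0
    · refine le_trans ?_ (ih _ _ _ (c * (q / (p + q))) (by positivity)
        (le_trans ?_ (d _ _ (by positivity))))
      · have := mx_step hn hr k
        have e : mx n k 1 (p / q) * ((p + q) / p) =
            xm n k + q / (p + q) * (mx n (k + 1) 1 (p / q) * ((p + q) / p)) := by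
          field_simp at this ⊢
          linear_combination this
        rw [e]
        push_cast
        linarith
      · rw [xm_succ hn, Nat.cast_mul v, mul_div_assoc]
        refine le_of_eq_of_le ?_ (mul_le_mul_of_nonneg_right hv (by positivity))
        simp only [Nat.cast_mul _ q, Nat.cast_mul _ (p + q), Nat.cast_add p]
        field_simp
    · simpa [Nat.eq_of_beq_eq_true h] using b k v c hc hv

/-- kernel checkable lower bound of `P (p / q)` -/
theorem P_lo (hn : 2 ≤ n) {p q : ℕ} (hp : 0 < p) (hq : 0 < q) (f S : ℕ) :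
    (plo n p q f 0 S 0 * p : ℝ) ≤ S * (p + q) * Pf n (p / q) := by
  have := plo_le hn hp hq f 0 S 0 S S.cast_nonneg (by rw [xm_zero hn, mul_one])
  rw [mx_P, ← le_div_iff₀ (by positivity)] at *
  refine this.trans_eq ?_
  push_cast
  ring

/-- kernel checkable upper bound of `P (p / q)` -/
theorem P_hi (hn : 2 ≤ n) {p q : ℕ} (hp : 0 < p) (hq : 0 < q) (f S : ℕ) :
    (S * (p + q) * Pf n (p / q) : ℝ) ≤ phi n p q f 0 S 0 * p := by
  have := le_phi hn hp hq f 0 S 0 S S.cast_nonneg (by rw [xm_zero hn, mul_one])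
  rw [mx_P, ← div_le_iff₀ (by positivity)] at *
  refine le_of_eq_of_le ?_ this
  push_cast
  ring

/-- `n K / P ≤ a` everywhere as soon as it holds at one special point -/
theorem al_max (hn : 2 ≤ n) {a t : ℝ} (ha : 1 < a) (ht : 0 < t)
    (e : a * (a + (n - 1) / 2) * t = (a - 1) * (n - a))
    (h : (n - 1) / 2 * t ≤ (a - 1 + (a + (n - 1) / 2) * t) * Pf n t) (hr : 0 < r) :
    n * Kf n r ≤ a * Pf n r := by
  have n2 : (2 : ℝ) ≤ n := by exact_mod_cast hn
  obtain ⟨d, hd⟩ : ∃ d : ℝ, (n - 1) / 2 = d := ⟨_, rfl⟩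
  have d0 : 0 < d := by linarith
  rw [hd] at e h
  have A : ∀ y, 0 < a - 1 + (a + d) * Real.exp y := fun y => by
    have := sub_pos.mpr ha
    positivity
  let ψ : ℝ → ℝ := fun y => Real.exp (-(1 / n) * y + (1 + 1 / n) / 2 * Real.log (1 + Real.exp y))
  let H : ℝ → ℝ := fun y =>
    (Pf n (Real.exp y) - d * Real.exp y / (a - 1 + (a + d) * Real.exp y)) * ψ y
  have D : ∀ y, HasDerivAt H (ψ y * (d / n * Real.exp y * (a * (a + d) * (Real.exp y - t)) /
      (a - 1 + (a + d) * Real.exp y) ^ 2)) y := fun y => by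
    have E := Real.hasDerivAt_exp y
    refine (((P_der hn y).sub ((E.const_mul d).div ((E.const_mul _).const_add _) (A y).ne')).mul
      (((hasDerivAt_id' y).const_mul _).add
        (((E.const_add 1).log (by positivity)).const_mul _)).exp).congr_deriv ?_
    have := (A y).ne'
    rw [K_eq hn (Real.exp_pos y), mul_sub (a * _), e, show (n : ℝ) = 2 * d + 1 by linarith]
    simp only [Pi.sub_apply, Pi.div_apply, Pi.add_apply, ψ, show (n : ℝ) = 2 * d + 1 by linarith]
    generalize hB : a - 1 + (a + d) * Real.exp y = B at this ⊢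
    field_simp
    subst hB
    ring
  have c : Continuous H := continuous_iff_continuousAt.mpr fun y => (D y).continuousAt
  have m : H (Real.log t) ≤ H (Real.log r) := by
    rcases le_total (Real.log t) (Real.log r) with b | b
    · refine monotoneOn_of_hasDerivWithinAt_nonneg (convex_Ici _) c.continuousOn
        (fun y _ => (D y).hasDerivWithinAt) (fun y hy => ?_) self_mem_Ici b b
      have := sub_nonneg.mpr ((Real.log_le_iff_le_exp ht).mp (interior_subset hy))
      positivity
    · refine antitoneOn_of_hasDerivWithinAt_nonpos (convex_Iic _) c.continuousOn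
        (fun y _ => (D y).hasDerivWithinAt) (fun y hy => ?_) b self_mem_Iic b
      have := sub_nonpos.mpr ((Real.le_log_iff_exp_le ht).mp (mem_Iic.mp (interior_subset hy)))
      exact mul_nonpos_of_nonneg_of_nonpos (Real.exp_pos _).le (div_nonpos_of_nonpos_of_nonneg
        (mul_nonpos_of_nonneg_of_nonpos (by positivity)
          (mul_nonpos_of_nonneg_of_nonpos (by positivity) this)) (sq_nonneg _))
  have a1 := A (Real.log t)
  have a2 := A (Real.log r)
  simp only [H, Real.exp_log ht, Real.exp_log hr] at m a1 a2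
  have := nonneg_of_mul_nonneg_left (le_trans (mul_nonneg
    (sub_nonneg.mpr ((div_le_iff₀' a1).mpr h)) (Real.exp_pos _).le) m) (Real.exp_pos _)
  rw [sub_nonneg, div_le_iff₀' a2] at this
  have k := K_ode hn hr
  refine le_of_mul_le_mul_left (a := 1 + r) ?_ (by positivity)
  rw [mul_left_comm, k]
  field_simp
  rw [show (n : ℝ) - 1 = 2 * d by linarith]
  linarith

theorem al_four (hr : 0 < r) : 4 * Kf 4 r ≤ 271 / 250 * Pf 4 r := by
  have := P_lo (n := 4) (p := 15309) (q := 175066) (by norm_num) (by norm_num) (by norm_num) 200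
    1000000
  have h : (5265000 : ℝ) ≤ plo 4 15309 175066 200 0 1000000 0 := by
    exact_mod_cast (by decide +kernel : 5265000 ≤ plo 4 15309 175066 200 0 1000000 0)
  exact_mod_cast al_max (n := 4) (t := 15309 / 175066) (by norm_num) (by norm_num) (by norm_num)
    (by norm_num) (by push_cast at this ⊢; linarith) hr

theorem al_five (hr : 0 < r) : 5 * Kf 5 r ≤ 13 / 12 * Pf 5 r := by
  have := P_lo (n := 5) (p := 47) (q := 481) (by norm_num) (by norm_num) (by norm_num) 200 1000000
  have h : (5720000 : ℝ) ≤ plo 5 47 481 200 0 1000000 0 := by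
    exact_mod_cast (by decide +kernel : 5720000 ≤ plo 5 47 481 200 0 1000000 0)
  exact_mod_cast al_max (n := 5) (t := 47 / 481) (by norm_num) (by norm_num) (by norm_num)
    (by norm_num) (by push_cast at this ⊢; linarith) hr

lemma sm_succ (hn : 2 ≤ n) (k : ℕ) :
    sm n (k + 1) = sm n k * ((2 * k * n + 2) / ((2 * k + 1) * n + 1)) := by
  have h := sm_rec hn k
  have : (0 : ℝ) < n := by positivity
  field_simp at h ⊢
  linear_combination h

lemma Q_eq (hn : 2 ≤ n) (hr : 0 < r) : 1 - Pf n r = ∫ s, s / (r + s) ∂mu n := by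
  have := mu_prob hn
  rw [← mu_const hn 1, Pf, ← integral_sub (integrable_const _) (P_int hn hr)]
  refine mu_congr fun s hs => ?_
  have := (add_pos hr hs.1).ne'
  field_simp
  ring

/-- Radau type bound with the nodes `0, a, b` -/
lemma Q_le (hn : 2 ≤ n) (hr : 0 < r) (a b : ℝ) :
    (1 - Pf n r) * (r * ((r + a) * (r + b)) ^ 2) ≤ ((r + a) * (r + b)) ^ 2 * sm n 1 -
      (r ^ 3 + 2 * (a + b) * r ^ 2 + ((a + b) ^ 2 + 2 * a * b) * r + 2 * a * b * (a + b)) * sm n 2 +
      (r ^ 2 + 2 * (a + b) * r + ((a + b) ^ 2 + 2 * a * b)) * sm n 3 -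
      (r + 2 * (a + b)) * sm n 4 + sm n 5 := by
  have i : ∀ (c : ℝ) (k : ℕ), Integrable (fun s => c * s ^ k) (mu n) := fun c k =>
    int_cont hn (by fun_prop)
  rw [Q_eq hn hr]
  simp only [sm, ← integral_const_mul, ← integral_mul_const]
  rw [← integral_sub (i _ _) (i _ _), ← integral_add (int_cont hn (by fun_prop)) (i _ _),
    ← integral_sub (int_cont hn (by fun_prop)) (i _ _),
    ← integral_add (int_cont hn (by fun_prop)) (int_cont hn (by fun_prop))]
  refine mu_mono hn (ContinuousOn.mul (ContinuousOn.div (by fun_prop) (by fun_prop)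
    fun s hs => (add_pos_of_pos_of_nonneg hr hs.1).ne') (by fun_prop)) (by fun_prop) fun s hs => ?_
  rw [div_mul_eq_mul_div, div_le_iff₀ (add_pos hr hs.1)]
  linarith [sq_nonneg (s * ((s - a) * (s - b)))]

theorem al_le (hn : 4 ≤ n) (hr : 0 < r) : n * Kf n r ≤ 11 / 10 * Pf n r := by
  have h2 : 2 ≤ n := by omega
  have p := P_pos h2 hr
  obtain rfl | rfl | h : n = 4 ∨ n = 5 ∨ 6 ≤ n := by omega
  · exact_mod_cast (al_four hr).trans (by linarith)
  · exact_mod_cast (al_five hr).trans (by linarith)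
  obtain ⟨m, m0, hm⟩ : ∃ m : ℝ, 0 ≤ m ∧ (n : ℝ) = m + 6 :=
    ⟨n - 6, sub_nonneg.mpr (by exact_mod_cast h), by ring⟩
  obtain ⟨t, ht⟩ : ∃ t : ℝ, t = (10 * m + 49) / (55 * m + 396) := ⟨_, rfl⟩
  have t0 : 0 < t := by rw [ht]; positivity
  refine al_max h2 (t := t) (by norm_num) t0 (by rw [hm, ht]; field_simp; ring) ?_ hr
  have q := Q_le h2 t0 (1 / 2) (9 / 10)
  simp only [sm_succ h2, sm_zero h2] at q
  rw [← le_div_iff₀ (by positivity), sub_le_comm] at q
  refine le_trans ?_ (mul_le_mul_of_nonneg_left q (by rw [hm]; nlinarith [mul_nonneg m0 t0.le]))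
  rw [hm, ht, ← sub_nonneg]
  push_cast
  field_simp
  ring_nf
  positivity

end Pool.Agent.Lib.MP_f225de_an.MA
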