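import Pool.Agent.Lib.MP_f225de_an.NU3
import Pool.Agent.Lib.MP_f225de_an.PF2

set_option autoImplicit false

open MeasureTheory Set
open scoped Real

namespace Pool.Agent.Lib.MP_f225de_an.Nu

open MA Sk Iv

variable {n : ℕ} {x y r : ℝ} {I J : Iv}

/-- code of the lower end -/
def lw (I : Iv) : ℕ := Nat.sub (nat_lit 158456325028528675187087900672) I.l

lemma val_le {a b : ℕ} : val a ≤ val b ↔ a ≤ b := by
  rw [val, val, div_le_div_iff_of_pos_right (by positivity), sub_le_sub_iff_right, Nat.cast_le]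

lemma val_ble {a b : ℕ} (h : Nat.ble a b = true) : val a ≤ val b :=
  val_le.2 (Nat.le_of_ble_eq_true h)

lemma val_B0 : val (nat_lit 79228162514264337593543950336) = 0 := by rw [val, B_eq]; simp

lemma val_mn (a b : ℕ) : val (mn a b) = min (val a) (val b) := by
  rw [mn_eq]
  exact Monotone.map_min fun _ _ h => val_le.2 h

lemma mn_l (a b : ℕ) : val (mn a b) ≤ val a := val_mn a b ▸ min_le_left _ _

lemma mn_r (a b : ℕ) : val (mn a b) ≤ val b := val_mn a b ▸ min_le_right _ _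

lemma lw_le (h : mem x I) (h0 : 0 ≤ val (lw I)) : val (lw I) ≤ x := by
  have h1 : _ ≤ _ := h.1
  rcases le_total I.l (nat_lit 158456325028528675187087900672) with e | e
  · rw [val, lw, show Nat.sub _ I.l = _ - I.l from rfl, Nat.cast_sub e, div_le_iff₀ (by positivity)]
    norm_num at *
    linarith
  · rw [lw, show Nat.sub _ I.l = 0 from Nat.sub_eq_zero_of_le e] at h0
    norm_num [val] at h0

lemma hi_ge (h : mem x I) : x ≤ val I.h := (mem_iff.1 h).2

/-- the lower end as a point -/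
def lp (I : Iv) : Iv := neg (pt I.l)

lemma mem_lp (I : Iv) : mem (-val I.l) (lp I) := (mem_pt _).neg

lemma lp_le (h : mem x I) : -val I.l ≤ x := (mem_iff.1 h).1

/-- raise the lower end to one -/
def ge1 (I : Iv) : Iv := raise (nat_lit 18446744073709551616) I

lemma mem_ge1 (h : mem x I) (e : 1 ≤ x) : mem x (ge1 I) := h.raise (by rw [S_eq]; linarith)

lemma pos_ge1 (I : Iv) : pos (ge1 I) = true := pos_raise (by norm_num) I

lemma mem_N (k : ℕ) (e : (k : ℝ) = x) : mem x (ofN k) := (mem_ofN k).congr e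

/-- enclosure of a profile -/
def Pr.ev (p : Pr) (r : Iv) : Iv :=
  imin (pt p.a) (add (pt p.b) (divP (pt p.d) (raise (nat_lit 1) (add r (pt p.h)))))

theorem Pr.mem_ev {p : Pr} (hp : p.ok) (hr : 0 ≤ r) (h : mem r I) : mem (p.f r) (p.ev I) := by
  refine (mem_pt _).imin ((mem_pt _).add ((mem_pt _).divP hp.2.2.1
    ((h.add (mem_pt _)).raise ?_) (pos_raise Nat.one_pos _)))
  have h1 : nat_lit 79228162514264337593543950336 < p.h :=
    lt_of_not_ge fun e => (val_le.2 e).not_gt (val_B0 ▸ hp.2.2.2)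
  have h2 := (Nat.cast_le (α := ℝ)).2 (Nat.succ_le_of_lt h1)
  rw [succ_eq, B_eq] at h2
  have h3 : 2 ^ 64 * val p.h = p.h - 2 ^ 96 := by rw [val]; field_simp
  have : ((nat_lit 1 : ℕ) : ℝ) = 1 := Nat.cast_one
  nlinarith

lemma Pr.inf_le {p : Pr} (hp : p.ok) (hr : 0 ≤ r) : val (mn p.a p.b) ≤ p.f r := by
  obtain ⟨a, b, c, d⟩ := hp
  rw [val_mn]
  exact min_le_min_left _ (le_add_of_nonneg_right (by positivity))

lemma ar_bd (hn : 4 ≤ n) (hr : 0 < r) : 0 < ar n r ∧ ar n r ≤ 11 / 10 := by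
  have p := P_pos (by omega : 2 ≤ n) hr
  have k := K_pos (by omega : 2 ≤ n) hr
  have : (0 : ℝ) < n := by positivity
  exact ⟨by unfold ar; positivity, (div_le_iff₀ p).2 (al_le hn hr)⟩

lemma cb_bd (y : ℝ) : 0 ≤ cor (π / 2) y ∧ cor (π / 2) y ≤ 1 := by
  refine ⟨mul_nonneg (by positivity) (Real.arcsin_nonneg.2 (div_nonneg (by simp)
    (Real.exp_pos y).le)), (mul_le_mul_of_nonneg_left (Real.arcsin_le_pi_div_two _)
    (by positivity)).trans_eq ?_⟩
  field_simp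

lemma tl_pos1 {σ : ℝ} (h : σ ∈ Ioc 0 π) : 0 < tl σ ∧ tl σ ≤ 1 := by
  unfold tl
  split_ifs with e
  · exact ⟨Real.sin_pos_of_pos_of_lt_pi h.1 (by linarith [Real.pi_pos]), Real.sin_le_one σ⟩
  · simp

lemma RL_le1 {al cb tb g1 g2 : ℝ} (a0 : 0 ≤ al) (a1 : al ≤ 11 / 10) (c0 : 0 ≤ cb)
    (c1 : cb ≤ 1) (t : tb ≤ 2) (h0 : 0 ≤ g1) (h1 : g1 ≤ 1 / 4) (h2 : g2 ≤ 0) :
    RL n al cb tb g1 g2 ≤ 0 := by
  have := mul_nonpos_of_nonneg_of_nonpos a0 h2
  unfold RL
  split_ifs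
  · have d : 4 * cb / (4 + 2 * cb) ≤ 2 / 3 := by rw [div_le_iff₀ (by positivity)]; linarith
    have := mul_nonneg (mul_nonneg (by linarith : 0 ≤ 2 - al - 4 * cb / (4 + 2 * cb))
      (by linarith : 0 ≤ 2 - tb / 8)) h0
    linarith
  · nlinarith [mul_nonneg (by linarith : 0 ≤ 2 - al) (mul_nonneg h0 (by linarith : 0 ≤ 1 - g1))]

lemma Pr.nonneg1 {p : Pr} (h : p.ok) (hr : 0 ≤ r) : 0 ≤ p.f r := by
  obtain ⟨a, b, c, d⟩ := h
  exact le_min a (by positivity)

lemma Pr.anti1 {p : Pr} (h : p.ok) {t : ℝ} (hr : 0 ≤ r) (e : r ≤ t) : p.f t ≤ p.f r :=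
  min_le_min_left _ (add_le_add_right (div_le_div_of_nonneg_left h.2.2.1
    (add_pos_of_nonneg_of_pos hr h.2.2.2) (by linarith)) _)

lemma Run.ok.four_le {R : Run} (h : R.ok n) : 4 ≤ n := h.2.1.trans h.2.2.1

lemma Run.ok.cond {R : Run} (h : R.ok n) {α : Type} {a b : α} (P : α → Prop) (h4 : n = 4 → P a)
    (h5 : n ≠ 4 → P b) : P (cond R.four a b) := by
  cases e : R.four
  · exact h5 fun f => by simpa [e] using h.1.2 f
  · exact h4 (h.1.1 e)

lemma xt_rt {σ a : ℝ} (h0 : 0 < σ) (h1 : σ < π) (ha : 0 < a) (hb : a ≤ a0 σ) :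
    xt σ a * rt σ a = tl σ := by
  have s := (Real.sin_pos_of_pos_of_lt_pi ha
    (by linarith [hb.trans (min_le_left _ _), Real.pi_pos])).ne'
  rw [xt, rt, div_mul_div_comm, mul_comm (Real.sin a), mul_div_mul_right _ _ s, a0, tl]
  split_ifs with e
  · rw [min_eq_left (by linarith), Real.sin_pi_div_two, div_one]
  · rw [min_eq_right (by linarith), Real.sin_pi_sub,
      div_self (Real.sin_pos_of_pos_of_lt_pi h0 h1).ne']

/-- lower bound of the gain rate of the long potential for `n = 4` -/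
def rl4 (al cb tb : Iv) (g1 g2 : ℕ) : Iv :=
  force (lp (mulP (sub (ofN (nat_lit 2)) (mulQ (nat_lit 1) (nat_lit 8) tb)) (pt g1))) fun u =>
    mulQ (nat_lit 1) (nat_lit 2) (add (div (mulN (nat_lit 4) u) (ge1 (add (ofN (nat_lit 2)) cb)))
      (mulL al (neg (add (pt g2) u))))

/-- the same for `n ≠ 4` -/
def rlN (lam al : Iv) (g1 g2 : ℕ) : Iv :=
  force (lp (sub (pt g1) (mulP lam (sqP (pt g1))))) fun w =>
    add (mulN (nat_lit 2) w) (mulL al (neg (add (mulQ (nat_lit 1) (nat_lit 2) (pt g2)) w)))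

variable {al cb tb l : ℝ} {A B C L : Iv} {g1 g2 : ℕ}

lemma rl4_ok (hn : n = 4) (hA : mem al A) (hB : mem cb B) (hC : mem tb C) (a0 : 0 ≤ al) (a1 : al ≤ 11 / 10)
    (b0 : 0 ≤ cb) (b1 : cb ≤ 1) (t : tb ≤ 2) (h1 : 0 ≤ val g1) (hl : 0 ≤ l) :
    ∃ z, mem z (rl4 A B C g1 g2) ∧ RL n al cb tb (l * val g1) (l * val g2) ≤ -(l * z) := by
  have m := ((mem_N (nat_lit 2) (x := 2) rfl).sub (hC.mulQ (nat_lit 1)
    (q := nat_lit 8) (by norm_num))).mulP (by norm_num; linarith) h1 (mem_pt g1)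
  have e := lp_le m
  have k := mem_lp (mulP (sub (ofN (nat_lit 2)) (mulQ (nat_lit 1) (nat_lit 8) C)) (pt g1))
  rw [rl4, force_eq]
  generalize -val _ = u at e k
  refine ⟨_, (((k.mulN _).div (mem_ge1 ((mem_N (nat_lit 2) (x := 2) rfl).add hB) (by linarith))
    (pos_ge1 _)).add (hA.mulL a0 ((mem_pt g2).add k).neg)).mulQ (nat_lit 1) (by norm_num), ?_⟩
  have d : 4 * cb / (4 + 2 * cb) = 2 - 4 / (2 + cb) := by field_simp; ring
  have f : 4 / 3 ≤ 4 / (2 + cb) := div_le_div_of_nonneg_left (by norm_num) (by linarith) (by linarith)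
  have := mul_le_mul_of_nonneg_left (mul_le_mul_of_nonneg_left e
    (by linarith : 0 ≤ 4 / (2 + cb) - al)) hl
  rw [RL, if_pos hn, d]
  norm_num at this ⊢
  rw [mul_div_right_comm]
  linarith

lemma rlN_ok (hn : n ≠ 4) (hL : mem l L) (hA : mem al A) (a0 : 0 ≤ al) (a1 : al ≤ 11 / 10)
    (h1 : 0 ≤ val g1) (hl : 0 ≤ l) :
    ∃ z, mem z (rlN L A g1 g2) ∧ RL n al cb tb (l * val g1) (l * val g2) ≤ -(l * z) := by
  have m := (mem_pt g1).sub (hL.mulP hl (sq_nonneg _) ((mem_pt g1).sqP h1))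
  have e := lp_le m
  have k := mem_lp (sub (pt g1) (mulP L (sqP (pt g1))))
  rw [rlN, force_eq]
  generalize -val _ = u at e k
  refine ⟨_, (k.mulN _).add (hA.mulL a0 (((mem_pt g2).mulQ (nat_lit 1) (by norm_num)).add k).neg), ?_⟩
  have := mul_le_mul_of_nonneg_left (mul_le_mul_of_nonneg_left e (by linarith : 0 ≤ 2 - al)) hl
  rw [RL, if_neg hn]
  norm_num at this ⊢
  linarith

/-- step of the capacity -/
def lcEv (R : Run) (t p q : Pr) (K : CtL) (V : Lv) (dx : Iv) (g1 g2 H1 : ℕ) : Res :=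
  forceN (mn (mn (lw (mulP K.om (p.ev V.r))) (lw (mulP K.il (q.ev V.r))))
    (lw (add (pt H1) (imax zero (mulL (mulP V.lk.k dx)
      (cond R.four (rl4 V.al V.lk.cb (t.ev V.r) g1 g2) (rlN K.lam V.al g1 g2))))))) fun H0 =>
    ⟨Nat.ble H1 H0, H0⟩

/-- capacity at infinity -/
def llEv (p q : Pr) (K : CtL) : Res :=
  forceN (mn (lw (mulP K.om (pt (mn p.a p.b)))) (lw (mulP K.il (pt (mn q.a q.b))))) fun H =>
    ⟨Nat.ble (nat_lit 79228162514264337593543950336) H, H⟩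

lemma capL_le {K : CtL} {σ u v u' v' : ℝ} {H : ℕ} (hK : K.ok σ l) (hu : mem u I) (hv : mem v J)
    (u0 : 0 ≤ u) (v0 : 0 ≤ v) (u1 : u ≤ u') (v1 : v ≤ v') (h0 : 0 ≤ val H)
    (h : val H ≤ val (mn (lw (mulP K.om I)) (lw (mulP K.il J)))) :
    l * val H / n ≤ min ((π - σ) * u') v' / n := by
  obtain ⟨-, s, l0, -, ⟨i, hi, i0, i1⟩, ho⟩ := hK
  have s0 := sub_pos.2 s
  rw [val_mn, le_min_iff] at h
  have a := h.1.trans (lw_le (ho.mulP (by positivity) u0 hu) (h0.trans h.1))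
  have b := h.2.trans (lw_le (hi.mulP i0 v0 hv) (h0.trans h.2))
  refine div_le_div_of_nonneg_right (le_min ?_ ?_) n.cast_nonneg
  · rw [div_mul_eq_mul_div, le_div_iff₀' l0] at a
    exact a.trans (mul_le_mul_of_nonneg_left u1 s0.le)
  · nlinarith [mul_le_mul_of_nonneg_left b l0.le, mul_le_mul_of_nonneg_right i1 v0]

theorem llSpec {p q : Pr} (hp : p.ok) (hq : q.ok) : LLSpec n p q (llEv p q) := by
  intro K h
  rw [llEv, forceN_eq] at h ⊢
  have h0 := val_B0 ▸ val_ble h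
  exact ⟨h0, fun σ l y hK => capL_le hK (mem_pt _) (mem_pt _)
    (val_mn _ _ ▸ le_min hp.1 hp.2.1) (val_mn _ _ ▸ le_min hq.1 hq.2.1)
    (Pr.inf_le hp (Real.exp_pos y).le) (Pr.inf_le hq (Real.exp_pos y).le) h0 le_rfl⟩

theorem lSpec {R : Run} {F : ℝ → ℝ} {t p q : Pr} (hR : R.ok n) (ht : t.ok) (ht2 : val t.a ≤ 2)
    (hp : p.ok) (hq : q.ok) : LSpec n F t p q (lcEv R t p q) := by
  intro K V dx g1 g2 H1 h H0 h1 h2
  rw [lcEv, forceN_eq] at h ⊢
  have hH := val_ble h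
  refine ⟨hH, fun σ l c a X0 X1 hK c0 gl a0 a1 hV hd x1 x0 hX => ?_⟩
  obtain ⟨r0, hr, hal, -, hk, hcb, -⟩ := hV
  have n4 := hR.four_le
  have n0 : (0 : ℝ) < n := by positivity
  have l0 := hK.2.2.1
  have hx := xt_rt hK.1 hK.2.1 a0 a1
  have t0 := (tl_pos1 ⟨hK.1, hK.2.1.le⟩).1
  have k0 := K_pos (by omega : 2 ≤ n) r0
  obtain ⟨b0, b1⟩ := ar_bd n4 r0
  obtain ⟨e0, e1⟩ := cb_bd (Real.log (rt σ a))
  have tb : t.f (rt σ a) ≤ 2 := (min_le_left _ _).trans ht2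
  have dX := sub_pos.2 hX
  obtain ⟨z, hz, hz'⟩ := hR.cond (fun I => ∃ z, mem z I ∧ RL n (ar n (rt σ a))
      (cor (π / 2) (Real.log (rt σ a))) (t.f (rt σ a)) (l * val g1) (l * val g2) ≤ -(l * z))
    (fun e => rl4_ok (g2 := g2) e hal hcb (Pr.mem_ev ht r0.le hr) b0.le b1 e0 e1 tb h1 l0.le)
    fun e => rlN_ok e hK.2.2.2.1 hal b0.le b1 h1 l0.le
  have z0 := RL_le1 (n := n) b0.le b1 e0 e1 tb (mul_nonneg l0.le h1) gl
    (mul_nonpos_of_nonneg_of_nonpos l0.le h2)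
  have m := (mem_pt H1).add (mem_zero.imax ((hk.mulP (by positivity) (by positivity) hd).mulL
    (by positivity) hz))
  have o1 := Pr.nonneg1 hp r0.le
  have o2 := Pr.nonneg1 hq r0.le
  have u1 := capL_le (n := n) hK (Pr.mem_ev hp r0.le hr) (Pr.mem_ev hq r0.le hr) o1 o2 le_rfl le_rfl
    (H0.trans hH) (mn_l _ _)
  have u2 := (mn_r (mn (lw (mulP K.om (p.ev V.r))) (lw (mulP K.il (q.ev V.r)))) _).trans
    (lw_le m ((H0.trans hH).trans (mn_r _ _)))
  change LOK _ _ _ _ _ _ _ _ (_ + (lv _ _ _ (val (mn _ _)) - _) / _ * _)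
    ((lv _ _ _ (val (mn _ _)) - _) / _)
  generalize val (mn (mn _ _) _) = H at hH u1 u2 ⊢
  clear h m
  generalize val H1 = G at *
  have w0 : lv n l c G ≤ lv n l c H := by unfold lv; gcongr
  have w1 : lv n l c H - lv n l c G ≤ l * (H - G) / n := by
    unfold lv
    rw [← sub_div, ← mul_sub]
    refine div_le_div_of_nonneg_right (mul_le_mul_of_nonneg_left ?_ l0.le) n0.le
    rcases le_total c G with f | f
    · rw [min_eq_left f, min_eq_left (f.trans hH)]; linarith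
    · rw [min_eq_right f]; linarith [min_le_right c H]
  have w2 : 0 ≤ (lv n l c H - lv n l c G) / (X0 - X1) := div_nonneg (sub_nonneg.2 w0) dX.le
  refine ⟨?_, ?_, ?_⟩
  · rw [TbF, Real.exp_log r0]
    generalize RL _ _ _ _ _ _ = ρ at *
    have x2 : xt σ a = tl σ / rt σ a := eq_div_of_mul_eq r0.ne' hx
    have w3 : l * (H - G) ≤ n * rt σ a * Kf n (rt σ a) * ((X0 - X1) / tl σ) * -ρ := by
      have q0 : 0 ≤ n * rt σ a * Kf n (rt σ a) * ((X0 - X1) / tl σ) := by positivity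
      rcases max_choice 0 (n * rt σ a * Kf n (rt σ a) * ((X0 - X1) / tl σ) * z) with f | f <;>
        rw [f] at u2
      · nlinarith [mul_nonneg q0 (neg_nonneg.2 z0)]
      · nlinarith [mul_le_mul_of_nonneg_left hz' q0]
    have w4 : (lv n l c H - lv n l c G) / (X0 - X1) * (tl σ / rt σ a) ≤ Kf n (rt σ a) * -ρ := by
      refine (mul_le_mul_of_nonneg_right (div_le_div_of_nonneg_right (w1.trans
        (div_le_div_of_nonneg_right w3 n0.le)) dX.le) (by positivity)).trans_eq ?_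
      field_simp
    rw [x2]
    linarith
  · have : 0 ≤ l * c / n + lv n l c G := by
      have := le_min c0 H0
      rw [lv, ← add_div, ← mul_add, add_sub_cancel]
      positivity
    nlinarith [mul_nonneg w2 (sub_nonneg.2 x1)]
  · have f : l * c / n + lv n l c H ≤ l * H / n := by
      rw [lv, ← add_div, ← mul_add, add_sub_cancel]
      gcongr
      exact min_le_right _ _
    have f2 := mul_le_mul_of_nonneg_left (sub_le_sub_right x0 X1) w2
    rw [div_mul_cancel₀ _ dX.ne'] at f2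
    rw [ShF, Real.exp_log r0]
    linarith

end Pool.Agent.Lib.MP_f225de_an.Nu
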