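import Pool.Agent.Lib.MP_f225de_an.NT1

set_option autoImplicit false

open MeasureTheory Set
open scoped Real

namespace Pool.Agent.Lib.MP_f225de_an.Nu

open MA Sk Iv

variable {n : ℕ} {x y r : ℝ} {I J : Iv}

/-- the part of `RB` proportional to `c`, for `n = 4`; `ic` encloses `1 / (4 + c)` -/
def ra4 (ic : Iv) (tg : ℕ) : Iv :=
  mulP (sub (ofN (nat_lit 8)) (mulQ (nat_lit 1) (nat_lit 2) (pt tg))) ic

/-- the transfer term -/
def rt4 (al c cb c4 ic : Iv) (g1 : ℕ) : Iv :=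
  force (sub (mulP al (pt g1)) (mulQ (nat_lit 3) (nat_lit 7) c)) fun z =>
    cond (nonpos z) zero
      (mulP (mulN (nat_lit 16) (divP (mulP cb ic) (ge1 (add c4 cb)))) (imax zero z))

/-- the rest of `RB`, for `n = 4` -/
def rd4 (al c cb tb c4 ic : Iv) (g1 g2 : ℕ) : Iv :=
  force (lp (mulN (nat_lit 4) ic)) fun h =>
    add (add (mulL (sqP al) (pt g2))
      (mulL (mulP (sub (ofN (nat_lit 2)) (mulQ (nat_lit 1) (nat_lit 8) tb)) (pt g1))
        (sub (sq (sub al h)) (sq h)))) (rt4 al c cb c4 ic g1)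

/-- both parts for `n = 4` -/
def rb4 (al c cb tb : Iv) (tg g1 g2 : ℕ) : Iv × Iv :=
  force (ge1 (add (ofN (nat_lit 4)) c)) fun c4 => force (inv c4) fun ic =>
    (ra4 ic tg, rd4 al c cb tb c4 ic g1 g2)

/-- both parts for `n ≠ 4` -/
def rbN (g al c : Iv) (tg g1 g2 : ℕ) : Iv × Iv :=
  force (imin (pt g1) (mulQ (nat_lit 1) (nat_lit 2) c)) fun gp =>
    force (divP (sub one (mulP (sqP g) (pt tg)))
      (ge1 (add one (mulP g (sub c (mulP al gp)))))) fun ka =>
      (add (mulN (nat_lit 2) (pt ka.h)) (mulL al (sub one (pt ka.h))),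
        add (mulL (sqP al) (pt g2)) (mulL (mulP gp (add one ka)) (sub (sq (sub al one)) one)))

variable {al c cb tb : ℝ} {A B C D : Iv} {tg g1 g2 : ℕ}

lemma rt4_ok {E G : Iv} (hA : mem al A) (hC : mem c C) (hB : mem cb B) (hE : mem (4 + c) E)
    (hG : mem (4 + c)⁻¹ G) (a0 : 0 ≤ al) (c0 : 0 ≤ c) (b0 : 0 ≤ cb) (h1 : 0 ≤ val g1) :
    mem (16 * cb / ((4 + c) * (4 + c + cb)) * max 0 (al * val g1 - 3 / 7 * c))
      (rt4 A C B E G g1) := by
  have z := ((hA.mulP a0 h1 (mem_pt g1)).sub (hC.mulQ (nat_lit 3) (q := nat_lit 7)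
    (by norm_num))).congr (y := al * val g1 - 3 / 7 * c) (by norm_num)
  rw [rt4, force_eq]
  generalize sub _ _ = Z at z
  cases e : nonpos Z
  · rw [Bool.cond_false]
    refine ((((hB.mulP b0 (by positivity) hG).divP (by positivity) (mem_ge1 (hE.add hB)
      (by linarith)) (pos_ge1 _)).mulN _).mulP (by positivity) (le_max_left _ _)
      (mem_zero.imax z)).congr ?_
    congr 1
    norm_num
    field_simp
  · rw [Bool.cond_true, max_eq_left (z.nonpos e), mul_zero]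
    exact mem_zero

/-- `Z` bounds `ρ` -/
def Bd (Z : Iv × Iv) (c ρ : ℝ) : Prop := ∃ u w, mem u Z.1 ∧ mem w Z.2 ∧ ρ ≤ c * u + w

lemma Bd.mk' {U W : Iv} {u w ρ : ℝ} (h : mem u U) (k : mem w W) (e : ρ ≤ c * u + w) :
    Bd (U, W) c ρ := ⟨u, w, h, k, e⟩

lemma rb4_ok (hn : n = 4) (hA : mem al A) (hC : mem c C) (hB : mem cb B) (hD : mem tb D)
    (a0 : 0 ≤ al) (c0 : 0 ≤ c) (b0 : 0 ≤ cb) (t : tb ≤ 2) (h1 : 0 ≤ val g1) (ht : val tg ≤ n ^ 2) :
    Bd (rb4 A C B D tg g1 g2) c (RB n al c cb tb (val tg) (val g1) (val g2)) := by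
  have hE := mem_ge1 ((mem_N (nat_lit 4) (x := 4) rfl).add hC) (by linarith)
  have hG := hE.inv (pos_ge1 _)
  rw [rb4, force_eq, force_eq, rd4, force_eq]
  generalize ge1 _ = E at *
  generalize inv E = G at *
  have e := lp_le (hG.mulN (nat_lit 4))
  have k := mem_lp (mulN (nat_lit 4) G)
  generalize -val _ = h at e k
  have ht' : val tg ≤ 16 := by rw [hn] at ht; norm_num at ht; exact ht
  have u0 : 0 ≤ 2 - ((nat_lit 1 : ℕ) : ℝ) / (nat_lit 8 : ℕ) * tb := by norm_num; linarith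
  refine Bd.mk' (((mem_N (nat_lit 8) (x := 8) rfl).sub ((mem_pt tg).mulQ (nat_lit 1)
    (by norm_num))).mulP (by norm_num; linarith) (by positivity) hG)
    ((((hA.sqP a0).mulL (sq_nonneg _) (mem_pt g2)).add ((((mem_N (nat_lit 2) (x := 2) rfl).sub
      (hD.mulQ (nat_lit 1) (by norm_num))).mulP u0 h1 (mem_pt g1)).mulL (mul_nonneg u0 h1)
      ((hA.sub k).sq.sub k.sq))).add (rt4_ok hA hC hB hE hG a0 c0 b0 h1)) ?_
  have := mul_le_mul_of_nonneg_left (mul_le_mul_of_nonneg_left e a0) (mul_nonneg u0 h1)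
  have d1 : 2 * c / (4 + c) = 2 - 8 * (4 + c)⁻¹ := by field_simp; ring
  have d2 : (16 - val tg) * c / (2 * (4 + c)) = c * ((8 - 1 / 2 * val tg) * (4 + c)⁻¹) := by
    field_simp; ring
  rw [RB, if_pos hn, d1, d2]
  norm_num at this ⊢
  linarith

lemma rbN_ok {G : Iv} (hn : n ≠ 4) (n0 : 0 < n) (hG : mem (1 / n) G) (hA : mem al A) (hC : mem c C)
    (a0 : 0 ≤ al) (a1 : al ≤ 11 / 10) (c0 : 0 ≤ c) (h1 : 0 ≤ val g1) (t0 : 0 ≤ val tg)
    (ht : val tg ≤ n ^ 2) :
    Bd (rbN G A C tg g1 g2) c (RB n al c cb tb (val tg) (val g1) (val g2)) := by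
  have m : (0 : ℝ) < n := by positivity
  have hp := ((mem_pt g1).imin (hC.mulQ (nat_lit 1) (q := nat_lit 2) (by norm_num))).congr
    (y := min (val g1) (c / 2)) (by norm_num; ring_nf)
  have p0 : 0 ≤ min (val g1) (c / 2) := le_min h1 (by positivity)
  have p1 := min_le_right (val g1) (c / 2)
  rw [rbN, force_eq, force_eq, RB, if_neg hn]
  generalize imin _ _ = P at *
  generalize min (val g1) (c / 2) = gp at *
  have X0 : 0 ≤ c - al * gp := by nlinarith
  have q0 : 0 ≤ 1 - (1 / n : ℝ) ^ 2 * val tg := by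
    rw [div_pow, one_pow, one_div_mul_eq_div, sub_nonneg]
    exact div_le_one_of_le₀ ht (by positivity)
  have hk := (mem_one.sub ((hG.sqP (by positivity)).mulP (by positivity) t0 (mem_pt tg))).divP q0
    (mem_ge1 (mem_one.add (hG.mulP (by positivity) X0 (hC.sub (hA.mulP a0 p0 hp))))
      (le_add_of_nonneg_right (by positivity))) (pos_ge1 _)
  have d : (2 - al) * (n ^ 2 - val tg) * (c - al * gp) / (n * (n + (c - al * gp))) = (2 - al) *
      ((1 - (1 / n : ℝ) ^ 2 * val tg) / (1 + 1 / n * (c - al * gp))) * (c - al * gp) := by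
    field_simp
  have k0 : 0 ≤ (1 - (1 / n : ℝ) ^ 2 * val tg) / (1 + 1 / n * (c - al * gp)) := by positivity
  rw [d]
  generalize divP _ _ = K at *
  generalize (1 - (1 / n : ℝ) ^ 2 * val tg) / _ = ka at *
  refine Bd.mk' (((mem_pt K.h).mulN _).add (hA.mulL a0 (mem_one.sub (mem_pt K.h))))
    (((hA.sqP a0).mulL (sq_nonneg _) (mem_pt g2)).add ((hp.mulP p0 (by positivity)
      (mem_one.add hk)).mulL (by positivity) ((hA.sub mem_one).sq.sub mem_one))) ?_
  have := mul_le_mul_of_nonneg_left (mul_le_mul_of_nonneg_left (hi_ge hk)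
    (by linarith : 0 ≤ 2 - al)) c0
  norm_num
  linarith

/-- enclosure of the excess of the share over `S0`; `d` encloses `o1 - p1` -/
def exI (K : CtA) (d o2 : Iv) : Iv :=
  sub (imin (mulL K.sg d) (sub o2 (mulL K.sg (pt K.p1)))) (pt K.p2)

/-- exact test for no excess -/
def exZ (K : CtA) (d : Iv) : Bool := nonpos d && nonneg (pt K.p2)

/-- code of the part of `T` above the obstacle -/
def tgE (K : CtA) (o1 o2 P : Iv) (T1 : ℕ) : ℕ :=
  force (sub o1 (pt K.p1)) fun d => cond (exZ K d) T1 (forceN (exI K d o2).h fun e =>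
    cond (nonpos (pt e)) T1
      (cond (pos P) (lw (sub (pt T1) (div (mulN (nat_lit 2) (pt e)) P))) (nat_lit 0)))

variable {K : CtA} {σ o1 o2 P : ℝ} {T1 : ℕ}

lemma exI_ok (s0 : 0 ≤ σ) (hs : mem σ K.sg) (h1 : mem (o1 - val K.p1) I) (h2 : mem o2 J) :
    mem (min (σ * o1) o2 - (σ * val K.p1 + val K.p2)) (exI K I J) :=
  (((hs.mulL s0 h1).imin (h2.sub (hs.mulL s0 (mem_pt _)))).sub (mem_pt _)).congr
    (by rw [mul_sub, min_sub_sub_right, sub_sub])

lemma exZ_ok (s0 : 0 ≤ σ) (h1 : mem (o1 - val K.p1) I) (e : exZ K I = true) :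
    min (σ * o1) o2 - (σ * val K.p1 + val K.p2) ≤ 0 := by
  rw [exZ, Bool.and_eq_true] at e
  nlinarith [min_le_left (σ * o1) o2, (mem_pt _).nonneg e.2,
    mul_nonneg s0 (neg_nonneg.2 (h1.nonpos e.1))]

lemma tgE_ok (s0 : 0 ≤ σ) (hs : mem σ K.sg) (h1 : mem o1 I) (h2 : mem o2 J) (hP : mem P A)
    (P0 : 0 < P) (h : 0 ≤ val (tgE K I J A T1)) :
    2 * (min (σ * o1) o2 - (σ * val K.p1 + val K.p2)) + P * val (tgE K I J A T1) ≤ P * val T1 := by
  have hd := h1.sub (mem_pt K.p1)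
  rw [tgE, force_eq] at h ⊢
  generalize sub I _ = D at *
  cases e : exZ K D
  · rw [e] at h
    rw [Bool.cond_false, forceN_eq] at h ⊢
    have a := hi_ge (exI_ok s0 hs hd h2)
    generalize (exI K D J).h = z at *
    cases f : nonpos (pt z)
    · rw [f] at h
      rw [Bool.cond_false] at h ⊢
      cases g : pos A
      · rw [g, Bool.cond_false] at h
        norm_num [val] at h
      · rw [g] at h
        rw [Bool.cond_true] at h ⊢
        have := mul_le_mul_of_nonneg_left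
          (lw_le ((mem_pt T1).sub (((mem_pt z).mulN (nat_lit 2)).div hP g)) h) P0.le
        rw [mul_sub, mul_div_cancel₀ _ P0.ne'] at this
        norm_num at this
        linarith
    · rw [Bool.cond_true]
      linarith [(mem_pt z).nonpos f]
  · rw [Bool.cond_true]
    linarith [exZ_ok (o2 := o2) s0 hd e]

/-- enclosure of a bound of the ratio of two values of `P` -/
def rhoI (Ps P : Iv) : Iv := cond (pos P) (imin one (divP Ps P)) one

lemma rhoI_ok (h1 : mem x I) (h2 : mem y J) (x0 : 0 ≤ x) (e : x ≤ y) :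
    ∃ ρ, 0 ≤ ρ ∧ mem ρ (rhoI I J) ∧ x ≤ ρ * y := by
  rw [rhoI]
  cases f : pos J
  · rw [Bool.cond_false]
    exact ⟨1, zero_le_one, mem_one, by linarith⟩
  · rw [Bool.cond_true]
    have := h2.pos f
    exact ⟨_, le_min zero_le_one (by positivity), mem_one.imin (h1.divP x0 h2 f), by
      rw [min_mul_of_nonneg _ _ this.le, one_mul, div_mul_cancel₀ _ this.ne']
      exact le_min e le_rfl⟩

/-- enclosure of a lower bound of `T0` -/
def t0I (R : Run) (F : Iv) : Iv :=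
  add (sub (ofN (Nat.add R.n0 (nat_lit 2))) (pt F.h)) (mulL
    (divP R.g (raise (nat_lit 1) (sub one (mulN (nat_lit 2) R.g)))) (sub (ofN (nat_lit 4)) (pt F.h)))

lemma t0I_ok {R : Run} (hR : R.ok n) (h : mem x I) : ∃ z, mem z (t0I R I) ∧ z ≤ T0 n x := by
  have n4 : (4 : ℝ) ≤ n := by exact_mod_cast hR.four_le
  have n1 : (R.n0 : ℝ) ≤ n := by exact_mod_cast hR.2.2.1
  have g := hR.2.2.2
  have g1 : (1 / n : ℝ) ≤ 1 / 4 := one_div_le_one_div_of_le (by norm_num) n4
  have q : (0 : ℝ) < 1 - (nat_lit 2 : ℕ) * (1 / n) := by norm_num at g1 ⊢; linarith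
  refine ⟨_, ((mem_ofN _).sub (mem_pt I.h)).add ((g.divP (by positivity) ((mem_one.sub
    (g.mulN _)).raise (by norm_num at g1 ⊢; linarith)) (pos_raise Nat.one_pos _)).mulL
    (by positivity) ((mem_N (nat_lit 4) (x := 4) rfl).sub (mem_pt I.h))), ?_⟩
  have e := hi_ge h
  generalize val I.h = f at *
  have d : (1 / n : ℝ) / (1 - (nat_lit 2 : ℕ) * (1 / n)) = 1 / (n - 2) := by
    have : (n : ℝ) - 2 ≠ 0 := by linarith
    norm_num
    field_simp
  rw [d, add_eq, T0, le_div_iff₀ (by linarith), add_mul, mul_right_comm,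
    one_div_mul_cancel (by linarith)]
  norm_num
  nlinarith

end Pool.Agent.Lib.MP_f225de_an.Nu
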