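import Pool.Agent.Lib.MP_f225de_an.NU2

set_option autoImplicit false

open MeasureTheory Set
open scoped Real

namespace Pool.Agent.Lib.MP_f225de_an.Nu

open MA Sk Iv

/-- data of a cell of short angles used by the potential `T`: enclosures of `σ` and of
`P (sin σ)`, the code of a bound of `2 n (C + S0) / P (sin σ)`, and the codes defining `S0` -/
structure CtA where
  sg : Iv
  Ps : Iv
  H : ℕ
  p1 : ℕ
  p2 : ℕ

/-- the constant `S0` -/
noncomputable def CtA.S0 (K : CtA) (n : ℕ) (σ : ℝ) : ℝ := (σ * val K.p1 + val K.p2) / n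

/-- the angle `σ` and the cost `C` fit the data -/
def CtA.ok (K : CtA) (n : ℕ) (σ C : ℝ) : Prop := 0 < σ ∧ σ ≤ π / 2 ∧ mem σ K.sg ∧
  mem (Pf n (Real.sin σ)) K.Ps ∧ 2 * n * (C + K.S0 n σ) ≤ val K.H * Pf n (Real.sin σ) ∧ 0 ≤ val K.H

/-- enclosures on a level cell -/
structure Lv where
  r : Iv
  al : Iv
  lk : Lk

/-- the radius `r` lies in the level cell -/
def Lv.ok (V : Lv) (n : ℕ) (F : ℝ → ℝ) (r : ℝ) : Prop := 0 < r ∧ mem r V.r ∧ mem (ar n r) V.al ∧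
  mem (Pf n r) V.lk.P ∧ mem (n * r * Kf n r) V.lk.k ∧ mem (cor (π / 2) (Real.log r)) V.lk.cb ∧
  mem (F (Real.log r)) V.lk.F

/-- result of a step of `T` (codes) -/
structure TR where
  ok : Bool
  T : ℕ
  tg : ℕ

/-- step of `T`; arguments `K V c cx x0 x1 g1 g2 T1` -/
def TSpec (n : ℕ) (F : ℝ → ℝ) (t p q : Pr)
    (ev : CtA → Lv → Iv → Iv → Iv → Iv → ℕ → ℕ → ℕ → TR) : Prop :=
  ∀ K V c cx x0 x1 g1 g2 T1, (ev K V c cx x0 x1 g1 g2 T1).ok = true → 0 ≤ val T1 → 0 ≤ val g1 →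
    val T1 ≤ val (ev K V c cx x0 x1 g1 g2 T1).T ∧ 0 ≤ val (ev K V c cx x0 x1 g1 g2 T1).tg ∧
    val (ev K V c cx x0 x1 g1 g2 T1).tg ≤ n ^ 2 ∧
    ∀ σ C a X0 X1, K.ok n σ C → 0 < a → a ≤ π / 2 → V.ok n F (rt σ a) → mem (2 / π * a) c →
      mem (2 / π * a / Real.sin a) cx → mem X0 x0 → mem X1 x1 → 0 ≤ X1 → X1 ≤ Real.sin a →
      Real.sin a ≤ X0 → X1 < X0 →
      TOK n F (TbF t) (ShF n p q) σ a C (K.S0 n σ) (val g1) (val g2)
        (val (ev K V c cx x0 x1 g1 g2 T1).tg)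
        (val T1 + (val (ev K V c cx x0 x1 g1 g2 T1).T - val T1) / (X0 - X1) * (Real.sin a - X1))
        ((val (ev K V c cx x0 x1 g1 g2 T1).T - val T1) / (X0 - X1))

/-- first step of `T` (the unbounded cell `0 < a ≤ b`); arguments `K V cx x0`, `V` encloses the
level of `b` only -/
def TLSpec (n : ℕ) (F : ℝ → ℝ) (t p q : Pr) (ev : CtA → Lv → Iv → Iv → Res) : Prop :=
  ∀ K V cx x0, (ev K V cx x0).ok = true → 0 ≤ val (ev K V cx x0).v ∧
    ∀ σ C a b, K.ok n σ C → 0 < a → a ≤ b → b ≤ π / 2 → V.ok n F (rt σ b) →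
      mem (2 / π * a / Real.sin a) cx → mem (Real.sin b) x0 →
      TOK n F (TbF t) (ShF n p q) σ a C (K.S0 n σ) 0 0 0
        (val (ev K V cx x0).v / Real.sin b * Real.sin a) (val (ev K V cx x0).v / Real.sin b)

/-- data of a cell of long angles: enclosures of the scale `l`, of a number `i` with `l i ≤ 1`
and of `(π - σ) / l` -/
structure CtL where
  lam : Iv
  il : Iv
  om : Iv

/-- the angle `σ` and the scale `l` fit the data -/
def CtL.ok (K : CtL) (σ l : ℝ) : Prop := 0 < σ ∧ σ < π ∧ 0 < l ∧ mem l K.lam ∧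
  (∃ i, mem i K.il ∧ 0 ≤ i ∧ l * i ≤ 1) ∧ mem ((π - σ) / l) K.om

/-- node value of the long potential for the cost `l c / n` and the capacity `h` -/
noncomputable def lv (n : ℕ) (l c h : ℝ) : ℝ := l * (min c h - c) / n

/-- step of the capacity; arguments `K V dx g1 g2 H1` -/
def LSpec (n : ℕ) (F : ℝ → ℝ) (t p q : Pr) (ev : CtL → Lv → Iv → ℕ → ℕ → ℕ → Res) : Prop :=
  ∀ K V dx g1 g2 H1, (ev K V dx g1 g2 H1).ok = true → 0 ≤ val H1 → 0 ≤ val g1 → val g2 ≤ 0 →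
    val H1 ≤ val (ev K V dx g1 g2 H1).v ∧
    ∀ σ l c a X0 X1, K.ok σ l → 0 ≤ c → l * val g1 ≤ 1 / 4 → 0 < a → a ≤ a0 σ →
      V.ok n F (rt σ a) → mem ((X0 - X1) / tl σ) dx → X1 ≤ xt σ a → xt σ a ≤ X0 → X1 < X0 →
      LOK n (TbF t) (ShF n p q) σ a (l * c / n) (l * val g1) (l * val g2)
        (lv n l c (val H1) + (lv n l c (val (ev K V dx g1 g2 H1).v) - lv n l c (val H1)) /
          (X0 - X1) * (xt σ a - X1))
        ((lv n l c (val (ev K V dx g1 g2 H1).v) - lv n l c (val H1)) / (X0 - X1))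

/-- capacity at infinity -/
def LLSpec (n : ℕ) (p q : Pr) (ev : CtL → Res) : Prop := ∀ K, (ev K).ok = true →
  0 ≤ val (ev K).v ∧ ∀ σ l y, K.ok σ l → l * val (ev K).v / n ≤ ShF n p q (π - σ) y

/-- all evaluators of a run; `th j / 2^64` are the nodes in the angle seen from the node -/
structure Ev where
  R : Run
  t : Pr
  p : Pr
  q : Pr
  th : ℕ → ℕ
  look : Iv → Lk
  al : Iv → Iv → Iv
  ray : Iv → Iv → Res
  out : Iv → Iv → Res
  ph : Iv → Iv → Iv → PhR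
  gain : Geo → ℕ → GnR
  tc : CtA → Lv → Iv → Iv → Iv → Iv → ℕ → ℕ → ℕ → TR
  tl : CtA → Lv → Iv → Iv → Res
  lc : CtL → Lv → Iv → ℕ → ℕ → ℕ → Res
  ll : CtL → Res

/-- the evaluators are correct in degree `n` -/
structure Ev.ok (E : Ev) (n : ℕ) (F : ℝ → ℝ) : Prop where
  R : E.R.ok n
  p : E.p.ok
  q : E.q.ok
  th : E.th 0 = 2 ^ 64
  look : LkOK n F E.look
  al : AlSpec n E.al
  ray : RaySpec n E.ray
  out : OutSpec n E.out
  ph : PhSpec n E.ph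
  gain : GainSpec n E.gain
  tc : TSpec n F E.t E.p E.q E.tc
  tl : TLSpec n F E.t E.p E.q E.tl
  lc : LSpec n F E.t E.p E.q E.lc
  ll : LLSpec n E.p E.q E.ll

end Pool.Agent.Lib.MP_f225de_an.Nu
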