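import Pool.Agent.Lib.MP_f225de_an.NU2

set_option autoImplicit false

open Set
open scoped Real

namespace Pool.Agent.Lib.MP_f225de_an.Nu

open MA Sk Iv

/-- the number `1/2` -/
def qH : Iv := ⟨nat_lit 79228162505040965556689174528, nat_lit 79228162523487709630398726144⟩

/-- the number `1/4` -/
def qQ : Iv := ⟨nat_lit 79228162509652651575116562432, nat_lit 79228162518876023611971338240⟩

/-- the number `1/3` -/
def qT : Iv := ⟨nat_lit 79228162508115422902307433131, nat_lit 79228162520413252284780467542⟩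

/-- the number `3/5` -/
def q35 : Iv := ⟨nat_lit 79228162503196291149318219367, nat_lit 79228162525332384037769681306⟩

/-- the number `-2/5` -/
def qN : Iv := ⟨nat_lit 79228162521643035223027770983, nat_lit 79228162506885639964060129690⟩

lemma mem_qH : mem (1 / 2) qH := by norm_num [mem, U, qH]

lemma mem_qQ : mem (1 / 4) qQ := by norm_num [mem, U, qQ]

lemma mem_qT : mem (1 / 3) qT := by norm_num [mem, U, qT]

lemma mem_q35 : mem (3 / 5) q35 := by norm_num [mem, U, q35]

lemma mem_qN : mem (-2 / 5) qN := by norm_num [mem, U, qN]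

/-- share `x` without evaluating it -/
def shr {α β : Type} (x : α) (f : α → β) : β := f x

lemma shr_eq {α β : Type} (x : α) (f : α → β) : shr x f = f x := rfl

/-- the cost polynomial -/
noncomputable def phr (n : ℕ) (b z i1 i2 i3 i4 : ℝ) : ℝ :=
  w1 n * (b * (1 + z * i1)) + w2 n * (b * b * (i2 + z * (i3 + z * i4)))

/-- weights -/
def wSum (four : Bool) (A B : Iv) : Iv :=
  cond four (add (mulQ (nat_lit 207) (nat_lit 100) A) (mulQ (nat_lit 11) (nat_lit 20) B))
    (add (add A A) B)

lemma mem_wSum {n : ℕ} {four : Bool} (hf : four = true ↔ n = 4) {a b : ℝ} {A B : Iv}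
    (ha : mem a A) (hb : mem b B) : mem (w1 n * a + w2 n * b) (wSum four A B) := by
  cases four
  · have : n ≠ 4 := fun e => by simpa using hf.2 e
    exact ((ha.add ha).add hb).congr (by rw [w1, w2, if_neg this, if_neg this]; ring)
  · have := hf.1 rfl
    exact ((ha.mulQ 207 (q := 100) (by norm_num)).add
      (hb.mulQ 11 (q := 20) (by norm_num))).congr
      (by rw [w1, w2, if_pos this, if_pos this]; norm_num)

/-- enclosure of the cost polynomial -/
def phI (four : Bool) (B Z I1 I2 I3 I4 : Iv) : Iv :=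
  wSum four (mulP B (add one (mulP Z I1)))
    (mulP (mulP B B) (add I2 (mulP Z (add I3 (mulP Z I4)))))

lemma mem_phI {n : ℕ} {four : Bool} (hf : four = true ↔ n = 4) {b z i1 i2 i3 i4 : ℝ}
    {B Z I1 I2 I3 I4 : Iv} (b0 : 0 ≤ b) (z0 : 0 ≤ z) (p1 : 0 ≤ i1) (p2 : 0 ≤ i2) (p3 : 0 ≤ i3)
    (p4 : 0 ≤ i4) (hb : mem b B) (hz : mem z Z) (h1 : mem i1 I1) (h2 : mem i2 I2)
    (h3 : mem i3 I3) (h4 : mem i4 I4) :
    mem (phr n b z i1 i2 i3 i4) (phI four B Z I1 I2 I3 I4) :=
  mem_wSum hf (hb.mulP b0 (by positivity) (mem_one.add (hz.mulP z0 p1 h1)))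
    ((hb.mulP b0 b0 hb).mulP (by positivity) (by positivity)
      (h2.add (hz.mulP z0 (by positivity) (h3.add (hz.mulP z0 p4 h4)))))

/-- `1/2 + t^2/10` -/
def iTwo (T2 : Iv) : Iv := add qH (mulQ (nat_lit 1) (nat_lit 10) T2)

/-- result from the constant `M`, the ratio `Z` and the value `V` -/
def phOut (B M Z V : Iv) : PhR := ⟨pos M, V, mulP B (add one Z)⟩

/-- ratio `b / (4 m)` -/
def phZ (B M : Iv) : Iv := divP (mulP qQ B) M

/-- the case `c < -2/5` -/
def phA2 (four : Bool) (B T T2 M Z : Iv) : PhR :=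
  phOut B M Z (phI four B Z (add one (mulP qH T)) (iTwo T2) (add one (mulP qH T2))
    (mulP qH (add one T2)))

/-- the case `-2/5 ≤ c` -/
def phB2 (four : Bool) (B T T2 M Z : Iv) : PhR :=
  phOut B M Z (phI four B Z (iTwo T2) (iTwo T2)
    (add (add qT qT) (mulQ (nat_lit 4) (nat_lit 21) (mulP T T2)))
    (add qQ (mulQ (nat_lit 1) (nat_lit 12) (mulP T2 T2))))

/-- the case `c < -2/5` -/
def phA (four : Bool) (B I J T T2 : Iv) : PhR :=
  shr (imin (sub one J) (add (add one J) I)) fun M => shr (phZ B M) fun Z =>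
    phA2 four B T T2 M Z

/-- the case `-2/5 ≤ c` -/
def phB (four : Bool) (B J T T2 : Iv) : PhR :=
  shr (sub one (abs J)) fun M => shr (phZ B M) fun Z => phB2 four B T T2 M Z

/-- union of two results -/
def phU (P Q : PhR) : PhR := ⟨P.ok && Q.ok, hull P.v Q.v, hull P.u Q.u⟩

/-- the cost evaluator -/
def phEv (four : Bool) (B I J : Iv) : PhR :=
  shr (divP q35 (imax I q35)) fun T => shr (mulP T T) fun T2 =>
    cond (lt J qN) (phA four B I J T T2) (cond (le qN J) (phB four B J T T2)
      (phU (phA four B I (span J qN) T T2) (phB four B (span qN J) T T2)))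

section

variable {n : ℕ} {four : Bool} {B I J T T2 : Iv} {b r c : ℝ}

lemma phA_ok (hf : four = true ↔ n = 4) (b0 : 0 ≤ b) (r0 : 0 < r) (hc : c < -2 / 5)
    (hb : mem b B) (hr : mem r I) (hJ : mem c J) (hT : mem (min 1 (3 / (5 * r))) T)
    (hT2 : mem (min 1 (3 / (5 * r)) * min 1 (3 / (5 * r))) T2)
    (ok : (phA four B I J T T2).ok = true) : mem (ph n b r c) (phA four B I J T T2).v ∧
      mem (b + b ^ 2 / (4 * mm r c)) (phA four B I J T T2).u := by
  have t0 : 0 ≤ min 1 (3 / (5 * r)) := by positivity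
  have hM : mem (mm r c) (imin (sub one J) (add (add one J) I)) := by
    rw [mm, if_pos hc]
    exact (mem_one.sub hJ).imin ((mem_one.add hJ).add hr)
  rw [phA, shr_eq, shr_eq] at *
  have m0 := hM.pos ok
  have hZ := (mem_qQ.mulP (by norm_num) b0 hb).divP (by positivity) hM ok
  refine ⟨(mem_phI hf b0 (by positivity) (by positivity) (by positivity) (by positivity)
    (by positivity) hb hZ (mem_one.add (mem_qH.mulP (by norm_num) t0 hT))
    (mem_qH.add (hT2.mulQ 1 (q := 10) (by norm_num)))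
    (mem_one.add (mem_qH.mulP (by norm_num) (by positivity) hT2))
    (mem_qH.mulP (by norm_num) (by positivity) (mem_one.add hT2))).congr ?_,
    (hb.mulP b0 (by positivity) (mem_one.add hZ)).congr (by field_simp)⟩
  rw [ph, phr, th, if_pos hc]
  generalize min 1 (3 / (5 * r)) = t
  simp only [II]
  norm_num
  field_simp
  ring

lemma phB_ok (hf : four = true ↔ n = 4) (b0 : 0 ≤ b) (r0 : 0 < r) (hc : -2 / 5 ≤ c)
    (hb : mem b B) (hJ : mem c J) (hT : mem (min 1 (3 / (5 * r))) T)
    (hT2 : mem (min 1 (3 / (5 * r)) * min 1 (3 / (5 * r))) T2)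
    (ok : (phB four B J T T2).ok = true) : mem (ph n b r c) (phB four B J T T2).v ∧
      mem (b + b ^ 2 / (4 * mm r c)) (phB four B J T T2).u := by
  have t0 : 0 ≤ min 1 (3 / (5 * r)) := by positivity
  have hM : mem (mm r c) (sub one (abs J)) := by
    rw [mm, if_neg hc.not_gt]
    exact mem_one.sub hJ.abs
  rw [phB, shr_eq, shr_eq] at *
  have m0 := hM.pos ok
  have hZ := (mem_qQ.mulP (by norm_num) b0 hb).divP (by positivity) hM ok
  have h2 := mem_qH.add (hT2.mulQ 1 (q := 10) (by norm_num))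
  refine ⟨(mem_phI hf b0 (by positivity) (by positivity) (by positivity) (by positivity)
    (by positivity) hb hZ h2 h2 ((mem_qT.add mem_qT).add
      ((hT.mulP t0 (by positivity) hT2).mulQ 4 (q := 21) (by norm_num)))
    (mem_qQ.add ((hT2.mulP (by positivity) (by positivity) hT2).mulQ 1 (q := 12)
      (by norm_num)))).congr ?_,
    (hb.mulP b0 (by positivity) (mem_one.add hZ)).congr (by field_simp)⟩
  rw [ph, phr, th, if_neg hc.not_gt]
  generalize min 1 (3 / (5 * r)) = t
  simp only [II]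
  norm_num
  field_simp
  ring

end

lemma pos_imax (I : Iv) {J : Iv} (h : pos J = true) : pos (imax I J) = true :=
  Nat.ble_eq_true_of_le (((mn_eq I.l J.l).trans_le (min_le_right _ _)).trans
    (Nat.le_of_ble_eq_true h))

lemma cond_ind {α : Type} {P : α → Prop} {b : Bool} {x y : α} (h1 : b = true → P x)
    (h2 : b = false → P y) : P (cond b x y) := by
  cases b
  exacts [h2 rfl, h1 rfl]

lemma phU_ok {P Q : PhR} {x y : ℝ} (h : (P.ok = true → mem x P.v ∧ mem y P.u) ∨
    (Q.ok = true → mem x Q.v ∧ mem y Q.u)) (ok : (phU P Q).ok = true) :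
    mem x (phU P Q).v ∧ mem y (phU P Q).u := by
  have ok' := Bool.and_eq_true_iff.1 ok
  rcases h with h | h
  exacts [⟨(h ok'.1).1.hull_left _, (h ok'.1).2.hull_left _⟩,
    ⟨(h ok'.2).1.hull_right _, (h ok'.2).2.hull_right _⟩]

/-- the cost evaluator is correct -/
theorem phSpec {n : ℕ} {four : Bool} (hf : four = true ↔ n = 4) : PhSpec n (phEv four) := by
  intro B I J b r c b0 r0 _ _ hb hr hJ
  have hT : mem (min 1 (3 / (5 * r))) (divP q35 (imax I q35)) := by
    refine (mem_q35.divP (by norm_num) (hr.imax mem_q35) (pos_imax I (by decide))).congr ?_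
    rcases le_total r (3 / 5) with e | e
    · rw [max_eq_right e, min_eq_left (by rw [le_div_iff₀ (by positivity)]; linarith)]
      norm_num
    · rw [max_eq_left e, min_eq_right (by rw [div_le_iff₀ (by positivity)]; linarith)]
      field_simp
  have t0 : 0 ≤ min 1 (3 / (5 * r)) := by positivity
  have hT2 := hT.mulP t0 t0 hT
  suffices h : (phEv four B I J).ok = true → mem (ph n b r c) (phEv four B I J).v ∧
      mem (b + b ^ 2 / (4 * mm r c)) (phEv four B I J).u from
    fun ok => ⟨(mem_iff.1 (h ok).1).2, (mem_iff.1 (h ok).2).2⟩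
  rw [phEv, shr_eq, shr_eq]
  generalize mulP (divP q35 (imax I q35)) (divP q35 (imax I q35)) = T2 at hT2 ⊢
  generalize divP q35 (imax I q35) = T at hT ⊢
  generalize hx : ph n b r c = x
  generalize hy : b + b ^ 2 / (4 * mm r c) = y
  refine cond_ind (P := fun R : PhR => R.ok = true → mem x R.v ∧ mem y R.u)
    (fun e => hx ▸ hy ▸ phA_ok hf b0 r0 (hJ.lt mem_qN e) hb hr hJ hT hT2) fun _ => ?_
  refine cond_ind (P := fun R : PhR => R.ok = true → mem x R.v ∧ mem y R.u)
    (fun e => hx ▸ hy ▸ phB_ok hf b0 r0 (mem_qN.le hJ e) hb hJ hT hT2) fun _ => phU_ok ?_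
  subst hx hy
  rcases lt_or_ge c (-2 / 5) with e | e
  · exact .inl (phA_ok hf b0 r0 e hb hr (hJ.span mem_qN le_rfl e.le) hT hT2)
  · exact .inr (phB_ok hf b0 r0 e hb (mem_qN.span hJ e le_rfl) hT hT2)

end Pool.Agent.Lib.MP_f225de_an.Nu
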