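import Pool.Agent.Lib.MP_f225de_an.MD1

set_option autoImplicit false

open MeasureTheory Set Filter Topology
open scoped Real

namespace Pool.Agent.Lib.MP_f225de_an.MA

variable {n : ℕ} {r : ℝ}

/-- mixed moments `E[(1-s)^j (r/(r+s))^k]` -/
noncomputable def mx (n j k : ℕ) (r : ℝ) : ℝ := ∫ s, (1 - s) ^ j * (r / (r + s)) ^ k ∂mu n

/-- moments of `r/(r+s)` -/
noncomputable def mo (n k : ℕ) (r : ℝ) : ℝ := ∫ s, (r / (r + s)) ^ k ∂mu n

/-- moments of `1 - s` -/
noncomputable def xm (n k : ℕ) : ℝ := ∫ s, (1 - s) ^ k ∂mu n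

/-- moments of `s` -/
noncomputable def sm (n k : ℕ) : ℝ := ∫ s, s ^ k ∂mu n

lemma a_cont (hr : 0 < r) : ContinuousOn (fun s => r / (r + s)) (Icc 0 1) :=
  ContinuousOn.div (by fun_prop) (by fun_prop) fun _ hs => (add_pos_of_pos_of_nonneg hr hs.1).ne'

lemma mo_int (hn : 2 ≤ n) (hr : 0 < r) (k : ℕ) : Integrable (fun s => (r / (r + s)) ^ k) (mu n) :=
  int_cont hn ((a_cont hr).pow k)

lemma mx_int (hn : 2 ≤ n) (hr : 0 < r) (j k : ℕ) :
    Integrable (fun s => (1 - s) ^ j * (r / (r + s)) ^ k) (mu n) :=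
  int_cont hn (ContinuousOn.mul (by fun_prop) ((a_cont hr).pow k))

lemma P_int (hn : 2 ≤ n) (hr : 0 < r) : Integrable (fun s => r / (r + s)) (mu n) :=
  int_cont hn (a_cont hr)

lemma mu_congr {f g : ℝ → ℝ} (h : ∀ s ∈ Ioo (0 : ℝ) 1, f s = g s) :
    ∫ s, f s ∂mu n = ∫ s, g s ∂mu n := integral_congr_ae ((mu_ae n).mono h)

lemma mu_mono (hn : 2 ≤ n) {f g : ℝ → ℝ} (hf : ContinuousOn f (Icc 0 1))
    (hg : ContinuousOn g (Icc 0 1)) (h : ∀ s ∈ Ioo (0 : ℝ) 1, f s ≤ g s) :
    ∫ s, f s ∂mu n ≤ ∫ s, g s ∂mu n :=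
  integral_mono_ae (int_cont hn hf) (int_cont hn hg) ((mu_ae n).mono h)

lemma mu_const (hn : 2 ≤ n) (c : ℝ) : ∫ _, c ∂mu n = c := by
  have := mu_prob hn
  simp

lemma mo_zero (hn : 2 ≤ n) (r : ℝ) : mo n 0 r = 1 := by simpa [mo] using mu_const hn 1

lemma mo_one (r : ℝ) : mo n 1 r = Pf n r := by simp [mo, Pf]

lemma xm_zero (hn : 2 ≤ n) : xm n 0 = 1 := by simpa [xm] using mu_const hn 1

lemma sm_zero (hn : 2 ≤ n) : sm n 0 = 1 := by simpa [sm] using mu_const hn 1

lemma Kf_mo (hn : 2 ≤ n) (hr : 0 < r) : Kf n r = mo n 1 r - mo n 2 r := by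
  rw [mo, mo, ← integral_sub (mo_int hn hr 1) (mo_int hn hr 2)]
  refine mu_congr fun s hs => ?_
  have := (add_pos hr hs.1).ne'
  field_simp
  ring

theorem mo_rec (hn : 2 ≤ n) (hr : 0 < r) (k : ℕ) : (k + 1) * (1 + r) * mo n (k + 2) r =
    ((k + 1) * (1 + 2 * r) - 1 / n - (1 + 1 / n) / 2 * r) * mo n (k + 1) r -
      (k + 1 - (1 + 1 / n) / 2) * r * mo n k r := by
  have h := null hn ((a_cont hr).pow (k + 1))
    (g' := fun s => -((k + 1) / r) * (r / (r + s)) ^ (k + 2))
    (continuousOn_const.mul ((a_cont hr).pow _)) fun s hs =>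
      ((((hasDerivAt_id' s).const_add r).inv (add_pos hr hs.1).ne').const_mul r).pow (k + 1)
        |>.congr_deriv (by
          have := (add_pos hr hs.1).ne'
          simp only [Pi.inv_apply, add_tsub_cancel_right, div_eq_mul_inv r, pow_succ]
          push_cast
          field_simp)
  rw [← sub_eq_zero, ← h]
  simp only [mo, ← integral_const_mul]
  rw [← integral_sub ((mo_int hn hr _).const_mul _) ((mo_int hn hr _).const_mul _),
    ← integral_sub ((mo_int hn hr _).const_mul _)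
      (by exact ((mo_int hn hr _).const_mul _).sub ((mo_int hn hr _).const_mul _))]
  refine mu_congr fun s hs => ?_
  have := (add_pos hr hs.1).ne'
  simp only [Pi.pow_apply, pow_succ]
  generalize (r / (r + s)) ^ k = w
  field_simp
  ring

theorem K_ode (hn : 2 ≤ n) (hr : 0 < r) :
    (1 + r) * Kf n r = 1 / n * Pf n r + (1 - 1 / n) / 2 * r * (1 - Pf n r) := by
  have := mo_rec hn hr 0
  rw [mo_zero hn] at this
  rw [Kf_mo hn hr, ← mo_one]
  simp only [Nat.cast_zero, zero_add] at this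
  linear_combination -this

theorem xm_rec (hn : 2 ≤ n) (k : ℕ) :
    (k + (1 + 1 / n) / 2) * xm n (k + 1) = (k + (1 - 1 / n) / 2) * xm n k := by
  have h := null hn (g := fun s => (1 - s) ^ k) (g' := fun s => -(k * (1 - s) ^ (k - 1)))
    (by fun_prop) (by fun_prop) fun s _ => (((hasDerivAt_id' s).const_sub 1).pow k).congr_deriv (by ring)
  rw [← sub_eq_zero, ← h]
  simp only [xm, ← integral_const_mul]
  rw [← integral_sub (int_cont hn (by fun_prop)) (int_cont hn (by fun_prop))]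
  refine mu_congr fun s _ => ?_
  cases k <;> simp <;> ring

theorem sm_rec (hn : 2 ≤ n) (k : ℕ) :
    (k + (1 + 1 / n) / 2) * sm n (k + 1) = (k + 1 / n) * sm n k := by
  have h := null hn (g := fun s => s ^ k) (g' := fun s => k * s ^ (k - 1))
    (by fun_prop) (by fun_prop) fun s _ => hasDerivAt_pow k s
  rw [← sub_eq_zero, ← neg_eq_zero, ← h]
  simp only [sm, ← integral_const_mul]
  rw [← integral_sub (int_cont hn (by fun_prop)) (int_cont hn (by fun_prop)), ← integral_neg]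
  refine mu_congr fun s _ => ?_
  cases k
  · simp
  · simp only [add_tsub_cancel_right]
    ring

lemma P_ge (hn : 2 ≤ n) (hr : 0 < r) : r / (1 + r) ≤ Pf n r :=
  (mu_const hn _).symm.trans_le (mu_mono hn continuousOn_const (a_cont hr) fun s hs =>
    div_le_div_of_nonneg_left hr.le (add_pos hr hs.1) (by linarith [hs.2]))

lemma P_pos (hn : 2 ≤ n) (hr : 0 < r) : 0 < Pf n r := lt_of_lt_of_le (by positivity) (P_ge hn hr)

lemma P_le (hn : 2 ≤ n) (hr : 0 < r) : Pf n r ≤ 1 :=
  (mu_mono hn (a_cont hr) continuousOn_const fun s hs =>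
    div_le_one_of_le₀ (by linarith [hs.1]) (add_pos hr hs.1).le).trans_eq (mu_const hn _)

lemma K_pos (hn : 2 ≤ n) (hr : 0 < r) : 0 < Kf n r := by
  have := gam_bd hn
  refine pos_of_mul_pos_right (a := 1 + r) (K_ode hn hr ▸ ?_) (by positivity)
  exact add_pos_of_pos_of_nonneg (mul_pos this.1 (P_pos hn hr))
    (mul_nonneg (mul_nonneg (by linarith) hr.le) (sub_nonneg.mpr (P_le hn hr)))

lemma P_mono (hn : 2 ≤ n) (hr : 0 < r) {t : ℝ} (h : r ≤ t) : Pf n r ≤ Pf n t :=
  mu_mono hn (a_cont hr) (a_cont (hr.trans_le h)) fun s hs => by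
    rw [div_le_div_iff₀ (add_pos hr hs.1) (add_pos (hr.trans_le h) hs.1)]
    nlinarith [hs.1]

lemma P_div_anti (hn : 2 ≤ n) (hr : 0 < r) {t : ℝ} (h : r ≤ t) : r * Pf n t ≤ t * Pf n r := by
  have ht := hr.trans_le h
  rw [Pf, Pf, ← integral_const_mul, ← integral_const_mul]
  refine mu_mono hn (continuousOn_const.mul (a_cont ht)) (continuousOn_const.mul (a_cont hr))
    fun s hs => ?_
  rw [← mul_div_assoc, ← mul_div_assoc, mul_comm]
  exact div_le_div_of_nonneg_left (by positivity) (add_pos hr hs.1) (by linarith)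

theorem P_der (hn : 2 ≤ n) (y : ℝ) :
    HasDerivAt (fun y => Pf n (Real.exp y)) (Kf n (Real.exp y)) y := by
  have := mu_prob hn
  refine (hasDerivAt_integral_of_dominated_loc_of_deriv_le (bound := fun _ => 1) univ_mem
    (.of_forall fun y => (P_int hn (Real.exp_pos y)).aestronglyMeasurable)
    (P_int hn (Real.exp_pos y)) (F' := fun y s => s * Real.exp y / (Real.exp y + s) ^ 2)
    (K_int hn (Real.exp_pos y)).aestronglyMeasurable ((mu_ae n).mono fun s hs x _ => ?_)
    (integrable_const 1) ((mu_ae n).mono fun s hs x _ => ?_)).2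
  · have := hs.1
    rw [Real.norm_of_nonneg (by positivity)]
    exact div_le_one_of_le₀ (by nlinarith [Real.exp_pos x]) (sq_nonneg _)
  · exact ((Real.hasDerivAt_exp x).div ((Real.hasDerivAt_exp x).add_const s)
      (add_pos (Real.exp_pos x) hs.1).ne').congr_deriv (by ring)

lemma P_cont (hn : 2 ≤ n) : Continuous fun y => Pf n (Real.exp y) :=
  continuous_iff_continuousAt.mpr fun y => (P_der hn y).continuousAt

lemma K_eq (hn : 2 ≤ n) (hr : 0 < r) :
    Kf n r = (1 / n * Pf n r + (1 - 1 / n) / 2 * r * (1 - Pf n r)) / (1 + r) := by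
  rw [← K_ode hn hr, mul_div_cancel_left₀ _ (by positivity)]

lemma K_cont (hn : 2 ≤ n) : Continuous fun y => Kf n (Real.exp y) := by
  have := P_cont hn
  simp only [K_eq hn (Real.exp_pos _)]
  exact Continuous.div (by fun_prop) (by fun_prop) fun y => by positivity

lemma mx_P (r : ℝ) : mx n 0 1 r = Pf n r := by simp [mx, Pf]

/-- one step of the expansion of `P` in powers of `(1-s)/(1+r)` -/
lemma mx_step (hn : 2 ≤ n) (hr : 0 < r) (j : ℕ) :
    (1 + r) * mx n j 1 r = r * xm n j + mx n (j + 1) 1 r := by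
  simp only [mx, xm, ← integral_const_mul]
  rw [← integral_add (int_cont hn (by fun_prop)) (mx_int hn hr _ _)]
  refine mu_congr fun s hs => ?_
  have := (add_pos hr hs.1).ne'
  field_simp
  ring

lemma mx_bd (hn : 2 ≤ n) (hr : 0 < r) (j : ℕ) :
    r / (1 + r) * xm n j ≤ mx n j 1 r ∧ mx n j 1 r ≤ xm n j := by
  have c : ContinuousOn (fun s => (1 - s) ^ j * (r / (r + s)) ^ 1) (Icc 0 1) :=
    ContinuousOn.mul (by fun_prop) ((a_cont hr).pow 1)
  rw [xm, ← integral_const_mul]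
  refine ⟨mu_mono hn (by fun_prop) c fun s hs => ?_, mu_mono hn c (by fun_prop) fun s hs => ?_⟩
  all_goals have := pow_nonneg (sub_pos.mpr hs.2).le j; rw [pow_one]
  · rw [mul_comm]
    exact mul_le_mul_of_nonneg_left
      (div_le_div_of_nonneg_left hr.le (add_pos hr hs.1) (by linarith [hs.2])) this
  · exact mul_le_of_le_one_right this (div_le_one_of_le₀ (by linarith [hs.1]) (add_pos hr hs.1).le)

end Pool.Agent.Lib.MP_f225de_an.MA
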