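import Pool.Agent.Lib.MP_f225de_an.PF3

set_option autoImplicit false

open MeasureTheory Set Filter Topology
open scoped Real

namespace Pool.Agent.Lib.MP_f225de_an.MA

variable {n : ℕ} {r : ℝ}

/-- backward recursion certifying `U ≤ u / S` -/
def uhi (a b D p q u S : ℕ) : ℕ → ℕ → Bool
  | 0, _ => true
  | k + 1, Y =>
    bif (S * (2 * D) / ((2 * k + 1) * D + a) + 1).ble
      (u + Y * (((2 * k + 1) * D - b) * q) / (((2 * k + 1) * D + b) * (p + q))) then
      uhi a b D p q u S k (u + Y * (((2 * k + 1) * D - b) * q) / (((2 * k + 1) * D + b) * (p + q)) -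
        (S * (2 * D) / ((2 * k + 1) * D + a) + 1))
    else false

/-- backward recursion certifying `u / S ≤ U` -/
def ulo (a b D p q u S : ℕ) : ℕ → ℕ → Bool
  | 0, Y => Y.beq 0
  | k + 1, Y =>
    bif Y.beq 0 then ulo a b D p q u S k (u - S * (2 * D) / ((2 * k + 1) * D + b))
    else ulo a b D p q u S k (u + (Y * (((2 * k + 1) * D - a) * q) /
      (((2 * k + 1) * D + a) * (p + q)) + 1) - S * (2 * D) / ((2 * k + 1) * D + b))

/-- check of an upper bound with `N` terms -/
def Uhi (a b D p q u S N : ℕ) : Bool :=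
  (S * (2 * D)).ble (u * ((2 * N + 1) * D + a)) && uhi a b D p q u S N 0

/-- check of a lower bound with `N` terms -/
def Ulo (a b D p q u S N : ℕ) : Bool := ulo a b D p q u S N (u * (p + q) / p + 1)

/-- the tail quantity -/
noncomputable def Zt (n : ℕ) (r u S : ℝ) (k : ℕ) : ℝ :=
  (u * mx n k 1 r - S * (n * (mx n k 1 r - mx n (k + 1) 1 r))) * ((1 + r) / r)

lemma xm_step (hn : 2 ≤ n) (k : ℕ) :
    xm n (k + 1) = xm n k * ((2 * k + 1 - 1 / n) / (2 * k + 1 + 1 / n)) := by
  have h := xm_rec hn k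
  have : (0 : ℝ) < n := by positivity
  field_simp at h ⊢
  linear_combination h

lemma Zt_step (hn : 2 ≤ n) (hr : 0 < r) (u S : ℝ) (k : ℕ) : Zt n r u S k =
    (u - S * (2 / (2 * k + 1 + 1 / n))) * xm n k + Zt n r u S (k + 1) / (1 + r) := by
  have a := mx_step hn hr k
  have b := mx_step hn hr (k + 1)
  rw [xm_step hn, mul_comm, ← eq_div_iff (by positivity)] at b
  rw [mul_comm, ← eq_div_iff (by positivity)] at a
  have : (0 : ℝ) < n := by positivity
  rw [Zt, Zt, a, b]
  field_simp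
  ring

lemma nat_div_le (x y : ℕ) (hy : 0 < y) : (x : ℝ) / y ≤ (x / y + 1 : ℕ) := by
  rw [div_le_iff₀ (by positivity)]
  exact_mod_cast (Nat.lt_div_mul_add hy).le.trans_eq (Nat.succ_mul _ _).symm

section
variable {a b D p q u S : ℕ} (hn : 2 ≤ n) (hp : 0 < p) (hq : 0 < q) (hD : 0 < D)
  (ha : a * n ≤ D) (hb : D ≤ b * n) (hb' : b ≤ D)
include hn hD

lemma g_lo (ha : a * n ≤ D) : (a : ℝ) / D ≤ 1 / n := by
  rw [div_le_div_iff₀ (by positivity) (by positivity), one_mul]
  exact_mod_cast ha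

lemma g_hi (hb : D ≤ b * n) : (1 : ℝ) / n ≤ b / D := by
  rw [div_le_div_iff₀ (by positivity) (by positivity), one_mul]
  exact_mod_cast hb

omit hn in
lemma c_eq (c k : ℕ) : ((S * (2 * D) : ℕ) : ℝ) / ((2 * k + 1) * D + c : ℕ) =
    S * (2 / (2 * k + 1 + c / D)) := by
  push_cast
  field_simp

omit hn in
lemma f_eq (hp : 0 < p) (hq : 0 < q) {c : ℕ} (hc : c ≤ D) (Y k : ℕ) :
    ((Y * (((2 * k + 1) * D - c) * q) : ℕ) : ℝ) / (((2 * k + 1) * D + c) * (p + q) : ℕ) =
      Y * ((2 * k + 1 - c / D) / (2 * k + 1 + c / D)) / (1 + p / q) := by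
  rw [Nat.cast_mul, Nat.cast_mul, Nat.cast_sub (by nlinarith)]
  push_cast
  field_simp
  ring

include hp hq ha hb hb'

lemma uhi_ok (k : ℕ) : ∀ Y : ℕ, Y * xm n k ≤ Zt n (p / q) u S k → uhi a b D p q u S k Y = true →
    0 ≤ Zt n (p / q) u S 0 := by
  induction k with
  | zero => exact fun Y h _ => (mul_nonneg Y.cast_nonneg (xm_nonneg 0)).trans h
  | succ k ih =>
    intro Y h e
    rw [uhi, Bool.cond_eq_ite, Bool.if_false_right, Bool.and_eq_true, decide_eq_true_eq,
      Nat.ble_eq] at e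
    refine ih _ ?_ e.2
    have x := xm_nonneg (n := n) k
    have c := nat_div_le (S * (2 * D)) ((2 * k + 1) * D + a) (by positivity)
    have f := Nat.cast_div_le (α := ℝ) (m := Y * (((2 * k + 1) * D - b) * q))
      (n := ((2 * k + 1) * D + b) * (p + q))
    rw [c_eq hD] at c
    rw [f_eq hD hp hq hb'] at f
    have g1 := g_lo hn hD ha
    have g2 := g_hi hn hD hb
    have g3 : (b : ℝ) / D ≤ 1 := div_le_one_of_le₀ (by exact_mod_cast hb') D.cast_nonneg
    have g4 : (0 : ℝ) ≤ 2 * k + 1 - 1 / n := by linarith [k.cast_nonneg (α := ℝ)]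
    replace c : S * (2 / (2 * k + 1 + 1 / n : ℝ)) ≤ _ := le_trans (by gcongr) c
    replace f : _ ≤ Y * ((2 * k + 1 - 1 / n) / (2 * k + 1 + 1 / n : ℝ)) / (1 + p / q) :=
      f.trans (by gcongr)
    rw [xm_step hn] at h
    rw [Nat.cast_sub e.1, Nat.cast_add u, Zt_step hn (by positivity)]
    refine (mul_le_mul_of_nonneg_right (sub_le_sub (add_le_add_right f _) c) x).trans ?_
    have := div_le_div_of_nonneg_right h (show (0 : ℝ) ≤ 1 + p / q by positivity)
    refine le_trans (le_of_eq ?_) (add_le_add_right this _)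
    ring

omit hb' in
lemma ulo_ok (k : ℕ) : ∀ Y : ℕ, Zt n (p / q) u S k ≤ Y * xm n k → ulo a b D p q u S k Y = true →
    Zt n (p / q) u S 0 ≤ 0 := by
  induction k with
  | zero => exact fun Y h e => by simpa [Nat.eq_of_beq_eq_true e] using h
  | succ k ih =>
    intro Y h e
    have x := xm_nonneg (n := n) k
    have c := Nat.cast_div_le (α := ℝ) (m := S * (2 * D)) (n := (2 * k + 1) * D + b)
    have a' : a ≤ D := (Nat.le_mul_of_pos_right a (by omega)).trans ha
    have f := nat_div_le (Y * (((2 * k + 1) * D - a) * q)) (((2 * k + 1) * D + a) * (p + q))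
      (by positivity)
    rw [c_eq hD] at c
    rw [f_eq hD hp hq a'] at f
    have g1 := g_lo hn hD ha
    have g2 := g_hi hn hD hb
    have g3 : (a : ℝ) / D ≤ 1 := div_le_one_of_le₀ (by exact_mod_cast a') D.cast_nonneg
    have g4 : (0 : ℝ) ≤ 2 * k + 1 - a / D := by linarith [k.cast_nonneg (α := ℝ)]
    replace c : _ ≤ S * (2 / (2 * k + 1 + 1 / n : ℝ)) := c.trans (by gcongr)
    replace f : Y * ((2 * k + 1 - 1 / n) / (2 * k + 1 + 1 / n : ℝ)) / (1 + p / q) ≤ _ :=
      le_trans (by gcongr) f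
    rw [xm_step hn] at h
    have h1 := div_le_div_of_nonneg_right h (show (0 : ℝ) ≤ 1 + p / q by positivity)
    have key : ∀ w v : ℕ, Y * ((2 * k + 1 - 1 / n) / (2 * k + 1 + 1 / n : ℝ)) / (1 + p / q) ≤ w →
        v = u + w → Zt n (p / q) u S k ≤ (v - S * (2 * D) / ((2 * k + 1) * D + b) : ℕ) * xm n k := by
      rintro w _ hw rfl
      rw [Zt_step hn (by positivity)]
      refine le_trans ?_ (mul_le_mul_of_nonneg_right ((sub_le_sub
        (add_le_add_right hw (u : ℝ)) c).trans (by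
          rw [sub_le_iff_le_add]; exact_mod_cast le_tsub_add)) x)
      refine (add_le_add_right h1 _).trans_eq ?_
      ring
    rw [ulo] at e
    cases hY : Y.beq 0 <;> rw [hY] at e
    · exact ih _ (key _ _ f rfl) e
    · exact ih _ (key 0 _ (by simp [Nat.eq_of_beq_eq_true hY]) rfl) e

theorem Uhi_ok {N : ℕ} (h : Uhi a b D p q u S N = true) : S * Uf n (p / q) ≤ u := by
  have hr : (0 : ℝ) < p / q := by positivity
  rw [Uhi, Bool.and_eq_true, Nat.ble_eq] at h
  have := uhi_ok hn hp hq hD ha hb hb' N 0 ?_ h.2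
  · rw [Zt, ← U_mx hn hr, mx_P, ← mul_assoc, ← sub_mul] at this
    exact sub_nonneg.mp (nonneg_of_mul_nonneg_left (nonneg_of_mul_nonneg_left this (by positivity))
      (P_pos hn hr))
  rw [Nat.cast_zero, zero_mul]
  refine mul_nonneg (sub_nonneg.mpr ((mul_le_mul_of_nonneg_left (mx_cheb hn hr N)
    S.cast_nonneg).trans ?_)) (by positivity)
  have c : ((S * (2 * D) : ℕ) : ℝ) / ((2 * N + 1) * D + a : ℕ) ≤ u := by
    rw [div_le_iff₀ (by positivity)]
    exact_mod_cast h.1
  have g1 := g_lo hn hD ha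
  rw [c_eq hD] at c
  replace c : S * (2 / (2 * N + 1 + 1 / n : ℝ)) ≤ _ := le_trans (by gcongr) c
  refine le_of_eq_of_le ?_ (mul_le_mul_of_nonneg_right c
    ((mul_nonneg (by positivity) (xm_nonneg N)).trans (mx_bd hn hr N).1))
  field_simp
  ring

omit hb' in
theorem Ulo_ok {N : ℕ} (h : Ulo a b D p q u S N = true) : u ≤ S * Uf n (p / q) := by
  have hr : (0 : ℝ) < p / q := by positivity
  have := ulo_ok hn hp hq hD ha hb N _ ?_ h
  · rw [Zt, ← U_mx hn hr, mx_P, ← mul_assoc, ← sub_mul] at this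
    exact sub_nonpos.mp (nonpos_of_mul_nonpos_left (nonpos_of_mul_nonpos_left this (by positivity))
      (P_pos hn hr))
  have m : mx n (N + 1) 1 (p / q) ≤ mx n N 1 (p / q) :=
    integral_mono_ae (mx_int hn hr _ _) (mx_int hn hr _ _) ((mu_ae n).mono fun s hs =>
      mul_le_mul_of_nonneg_right (pow_le_pow_of_le_one (sub_pos.mpr hs.2).le (by linarith [hs.1])
        N.le_succ) (by have := hs.1; positivity))
  refine le_trans ?_ (mul_le_mul_of_nonneg_right (nat_div_le _ _ hp) (xm_nonneg N))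
  have := sub_nonneg.mpr m
  refine (mul_le_mul_of_nonneg_right ((sub_le_self _ (by positivity)).trans
    (mul_le_mul_of_nonneg_left (mx_bd hn hr N).2 u.cast_nonneg)) (by positivity)).trans_eq ?_
  push_cast
  field_simp
  ring

end

lemma grid {n₀ m : ℕ} (h0 : 0 < n₀) (hn : n₀ ≤ n) (hm : 0 < m) :
    ∃ a < m, a * n ≤ n₀ * m ∧ n₀ * m ≤ (a + 1) * n := by
  rcases lt_or_ge (n₀ * m / n) m with h | h
  · exact ⟨_, h, Nat.div_mul_le_self _ _, by
      rw [Nat.succ_mul]; exact (Nat.lt_div_mul_add (by omega)).le⟩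
  · refine ⟨m - 1, by omega, (Nat.mul_le_mul_right n ((Nat.sub_le _ _).trans h)).trans
      (Nat.div_mul_le_self _ _), ?_⟩
    rw [Nat.sub_add_cancel hm, mul_comm]
    exact Nat.mul_le_mul_left m hn

/-- enclosure check in the fixed degree `n` -/
def Ufix (n p q l u S N : ℕ) : Bool := Ulo 1 1 n p q l S N && Uhi 1 1 n p q u S N

/-- enclosure check for all degrees `≥ n₀`, the range of `1 / n` being cut in `m` pieces -/
def Uall (n₀ m p q l u S N : ℕ) : Bool :=
  (List.range m).all fun a => Ulo a (a + 1) (n₀ * m) p q l S N && Uhi a (a + 1) (n₀ * m) p q u S N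

theorem Ufix_ok (hn : 2 ≤ n) {p q l u S N : ℕ} (hp : 0 < p) (hq : 0 < q)
    (h : Ufix n p q l u S N = true) : l ≤ S * Uf n (p / q) ∧ S * Uf n (p / q) ≤ u := by
  rw [Ufix, Bool.and_eq_true] at h
  exact ⟨Ulo_ok hn hp hq (by omega) (by omega) (by omega) h.1,
    Uhi_ok hn hp hq (by omega) (by omega) (by omega) (by omega) h.2⟩

theorem Uall_ok {n₀ m p q l u S N : ℕ} (h0 : 2 ≤ n₀) (hn : n₀ ≤ n) (hm : 0 < m) (hp : 0 < p)
    (hq : 0 < q) (h : Uall n₀ m p q l u S N = true) :
    l ≤ S * Uf n (p / q) ∧ S * Uf n (p / q) ≤ u := by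
  obtain ⟨a, h1, h2, h3⟩ := grid (by omega) hn hm
  have := List.all_eq_true.mp h a (List.mem_range.mpr h1)
  rw [Bool.and_eq_true] at this
  exact ⟨Ulo_ok (by omega) hp hq (by positivity) h2 h3 this.1,
    Uhi_ok (by omega) hp hq (by positivity) h2 h3 (by nlinarith) this.2⟩

end Pool.Agent.Lib.MP_f225de_an.MA
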