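import Pool.Agent.Lib.MP_f225de_an.RE10

set_option autoImplicit false

namespace Pool.Agent.Lib.MP_f225de_an.Nu

open Tb

theorem c10_0 : CovA (ev10 gr10_0) (nat_lit 0) (nat_lit 36893488147419104) :=
  runA_ok (N := nat_lit 34) (j0 := nat_lit 7) (j1 := nat_lit 35)
    (ch := nat_lit 79228162518691440760677204072) (p1 := nat_lit 79228162524851488252481701889)
    (p2 := nat_lit 79228162514264337593543950336) (ul := false) (lf := true) (by decide +kernel)

theorem c10_1 : CovA (ev10 gr10_0) (nat_lit 36893488147419104) (nat_lit 46116860184273880) :=
  runA_ok (N := nat_lit 46) (j0 := nat_lit 7) (j1 := nat_lit 47)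
    (ch := nat_lit 79228162518501082756621360518) (p1 := nat_lit 79228162524851488252481701889)
    (p2 := nat_lit 79228162514264337593543950336) (ul := false) (lf := false) (by decide +kernel)

theorem c10_2 : CovA (ev10 gr10_0) (nat_lit 46116860184273880) (nat_lit 57646075230342352) :=
  runA_ok (N := nat_lit 44) (j0 := nat_lit 7) (j1 := nat_lit 45)
    (ch := nat_lit 79228162518519347719842994684) (p1 := nat_lit 79228162524851488252481701889)
    (p2 := nat_lit 79228162514264337593543950336) (ul := false) (lf := false) (by decide +kernel)

theorem c10_3 : CovA (ev10 gr10_0) (nat_lit 57646075230342352) (nat_lit 72057594037927936) :=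
  runA_ok (N := nat_lit 43) (j0 := nat_lit 7) (j1 := nat_lit 44)
    (ch := nat_lit 79228162518542715908845672436) (p1 := nat_lit 79228162524851488252481701889)
    (p2 := nat_lit 79228162514264337593543950336) (ul := false) (lf := false) (by decide +kernel)

theorem c10_4 : CovA (ev10 gr10_0) (nat_lit 72057594037927936) (nat_lit 90071992547409920) :=
  runA_ok (N := nat_lit 42) (j0 := nat_lit 7) (j1 := nat_lit 43)
    (ch := nat_lit 79228162518553222055848848577) (p1 := nat_lit 79228162524851488252481701889)
    (p2 := nat_lit 79228162514264337593543950336) (ul := false) (lf := false) (by decide +kernel)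

theorem c10_5 : CovA (ev10 gr10_0) (nat_lit 90071992547409920) (nat_lit 112589990684262400) :=
  runA_ok (N := nat_lit 41) (j0 := nat_lit 7) (j1 := nat_lit 42)
    (ch := nat_lit 79228162518596176916508347476) (p1 := nat_lit 79228162524851488252481701889)
    (p2 := nat_lit 79228162514264337593543950336) (ul := false) (lf := false) (by decide +kernel)

theorem c10_6 : CovA (ev10 gr10_0) (nat_lit 112589990684262400) (nat_lit 140737488355328000) :=
  runA_ok (N := nat_lit 40) (j0 := nat_lit 7) (j1 := nat_lit 41)
    (ch := nat_lit 79228162518608319551802747834) (p1 := nat_lit 79228162524851488252481701889)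
    (p2 := nat_lit 79228162514264337593543950336) (ul := false) (lf := false) (by decide +kernel)

theorem c10_7 : CovA (ev10 gr10_0) (nat_lit 140737488355328000) (nat_lit 175921860444160000) :=
  runA_ok (N := nat_lit 38) (j0 := nat_lit 7) (j1 := nat_lit 39)
    (ch := nat_lit 79228162518657334664729677267) (p1 := nat_lit 79228162524851488252481701889)
    (p2 := nat_lit 79228162514264337593543950336) (ul := false) (lf := false) (by decide +kernel)

theorem c10_8 : CovA (ev10 gr10_0) (nat_lit 175921860444160000) (nat_lit 219902325555200000) :=
  runA_ok (N := nat_lit 38) (j0 := nat_lit 7) (j1 := nat_lit 39)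
    (ch := nat_lit 79228162518724077473812122510) (p1 := nat_lit 79228162524851488252481701889)
    (p2 := nat_lit 79228162514264337593543950336) (ul := false) (lf := false) (by decide +kernel)

theorem c10_9 : CovA (ev10 gr10_0) (nat_lit 219902325555200000) (nat_lit 274877906944000000) :=
  runA_ok (N := nat_lit 38) (j0 := nat_lit 7) (j1 := nat_lit 39)
    (ch := nat_lit 79228162518726129049978267737) (p1 := nat_lit 79228162524851488252481701889)
    (p2 := nat_lit 79228162514264337593543950336) (ul := false) (lf := false) (by decide +kernel)

theorem c10_10 : CovA (ev10 gr10_0) (nat_lit 274877906944000000) (nat_lit 343597383680000000) :=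
  runA_ok (N := nat_lit 38) (j0 := nat_lit 7) (j1 := nat_lit 39)
    (ch := nat_lit 79228162518796156599196136546) (p1 := nat_lit 79228162524851488252481701889)
    (p2 := nat_lit 79228162514264337593543950336) (ul := false) (lf := false) (by decide +kernel)

theorem c10_11 : CovA (ev10 gr10_0) (nat_lit 343597383680000000) (nat_lit 429496729600000000) :=
  runA_ok (N := nat_lit 38) (j0 := nat_lit 7) (j1 := nat_lit 39)
    (ch := nat_lit 79228162518802093577491224961) (p1 := nat_lit 79228162524851488252481701889)
    (p2 := nat_lit 79228162514264337593543950336) (ul := false) (lf := false) (by decide +kernel)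

theorem c10_12 : CovA (ev10 gr10_0) (nat_lit 429496729600000000) (nat_lit 536870912000000000) :=
  runA_ok (N := nat_lit 38) (j0 := nat_lit 7) (j1 := nat_lit 39)
    (ch := nat_lit 79228162518895399186989076463) (p1 := nat_lit 79228162524851488252481701889)
    (p2 := nat_lit 79228162514264337593543950336) (ul := false) (lf := false) (by decide +kernel)

theorem c10_13 : CovA (ev10 gr10_0) (nat_lit 536870912000000000) (nat_lit 671088640000000000) :=
  runA_ok (N := nat_lit 38) (j0 := nat_lit 7) (j1 := nat_lit 39)
    (ch := nat_lit 79228162519045817631954908912) (p1 := nat_lit 79228162524851488252481701889)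
    (p2 := nat_lit 79228162514264337593543950336) (ul := false) (lf := false) (by decide +kernel)

theorem c10_14 : CovA (ev10 gr10_0) (nat_lit 671088640000000000) (nat_lit 838860800000000000) :=
  runA_ok (N := nat_lit 38) (j0 := nat_lit 7) (j1 := nat_lit 39)
    (ch := nat_lit 79228162519216455830790397145) (p1 := nat_lit 79228162524851488252481701889)
    (p2 := nat_lit 79228162514264337593543950336) (ul := false) (lf := false) (by decide +kernel)

theorem covA10_0 : CovA (ev10 gr10_0) (nat_lit 0) (nat_lit 838860800000000000) :=
  ((((((((((((((c10_0.trans c10_1).trans c10_2).trans c10_3).trans c10_4).trans c10_5).trans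
    c10_6).trans c10_7).trans c10_8).trans c10_9).trans c10_10).trans c10_11).trans c10_12).trans
    c10_13).trans c10_14)

end Pool.Agent.Lib.MP_f225de_an.Nu
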