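import Pool.Agent.Lib.MP_f225de_an.RE10

set_option autoImplicit false

namespace Pool.Agent.Lib.MP_f225de_an.Nu

open Tb

theorem c10_15 : CovA (ev10 gr10_0) (nat_lit 838860800000000000) (nat_lit 1048576000000000000) :=
  runA_ok (N := nat_lit 38) (j0 := nat_lit 7) (j1 := nat_lit 39)
    (ch := nat_lit 79228162519415687610174562504) (p1 := nat_lit 79228162524851488252481701889)
    (p2 := nat_lit 79228162514264337593543950336) (ul := false) (lf := false) (by decide +kernel)

theorem c10_16 : CovA (ev10 gr10_0) (nat_lit 1048576000000000000) (nat_lit 1468006400000000000) :=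
  runA_ok (N := nat_lit 38) (j0 := nat_lit 8) (j1 := nat_lit 39)
    (ch := nat_lit 79228162520018958642449445542) (p1 := nat_lit 79228162524691233530593483969)
    (p2 := nat_lit 79228162514264337593543950336) (ul := false) (lf := false) (by decide +kernel)

theorem c10_17 : CovA (ev10 gr10_0) (nat_lit 1468006400000000000) (nat_lit 2055208959999999744) :=
  runA_ok (N := nat_lit 38) (j0 := nat_lit 8) (j1 := nat_lit 39)
    (ch := nat_lit 79228162520775865099948205769) (p1 := nat_lit 79228162524463775215655368213)
    (p2 := nat_lit 79228162514264337593543950336) (ul := false) (lf := false) (by decide +kernel)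

theorem c10_18 : CovA (ev10 gr10_0) (nat_lit 2055208959999999744) (nat_lit 2877292543999999488) :=
  runA_ok (N := nat_lit 38) (j0 := nat_lit 8) (j1 := nat_lit 39)
    (ch := nat_lit 79228162521604246140677819317) (p1 := nat_lit 79228162524298350986609465845)
    (p2 := nat_lit 79228162514264337593543950336) (ul := false) (lf := false) (by decide +kernel)

theorem c10_19 : CovA (ev10 gr10_0) (nat_lit 2877292543999999488) (nat_lit 4028209561599998976) :=
  runA_ok (N := nat_lit 38) (j0 := nat_lit 9) (j1 := nat_lit 39)
    (ch := nat_lit 79228162523397941252523633422) (p1 := nat_lit 79228162524153604786194301273)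
    (p2 := nat_lit 79228162514264337593543950336) (ul := false) (lf := false) (by decide +kernel)

theorem c10_20 : CovA (ev10 gr10_0) (nat_lit 4028209561599998976) (nat_lit 5503949087496763392) :=
  runA_ok (N := nat_lit 38) (j0 := nat_lit 9) (j1 := nat_lit 21)
    (ch := nat_lit 79228162525513768256683889037) (p1 := nat_lit 79228162524029536614409874497)
    (p2 := nat_lit 79228162514264337593543950336) (ul := true) (lf := false) (by decide +kernel)

theorem c10_21 : CovA (ev10 gr10_0) (nat_lit 5503949087496763392) (nat_lit 6979688613393527808) :=
  runA_ok (N := nat_lit 38) (j0 := nat_lit 10) (j1 := nat_lit 20)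
    (ch := nat_lit 79228162526722464377265769926) (p1 := nat_lit 79228162523946824499886923313)
    (p2 := nat_lit 79228162514264337593543950336) (ul := true) (lf := false) (by decide +kernel)

theorem c10_22 : CovA (ev10 gr10_0) (nat_lit 6979688613393527808) (nat_lit 8455428139290292224) :=
  runA_ok (N := nat_lit 38) (j0 := nat_lit 10) (j1 := nat_lit 19)
    (ch := nat_lit 79228162527872250997863831497) (p1 := nat_lit 79228162523905468442625447721)
    (p2 := nat_lit 79228162514264337593543950336) (ul := true) (lf := false) (by decide +kernel)

theorem c10_23 : CovA (ev10 gr10_0) (nat_lit 8455428139290292224) (nat_lit 9931167665187055616) :=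
  runA_ok (N := nat_lit 38) (j0 := nat_lit 11) (j1 := nat_lit 17)
    (ch := nat_lit 79228162528542244979770076994) (p1 := nat_lit 79228162523884790413994709925)
    (p2 := nat_lit 79228162514264337593543950336) (ul := true) (lf := false) (by decide +kernel)

theorem c10_24 : CovA (ev10 gr10_0) (nat_lit 9931167665187055616) (nat_lit 11406907191083819008) :=
  runA_ok (N := nat_lit 38) (j0 := nat_lit 12) (j1 := nat_lit 16)
    (ch := nat_lit 79228162529429676072708533008) (p1 := nat_lit 79228162523864112385363972129)
    (p2 := nat_lit 79228162514264337593543950336) (ul := true) (lf := false) (by decide +kernel)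

theorem c10_25 : CovA (ev10 gr10_0) (nat_lit 11406907191083819008) (nat_lit 12882646716980582400) :=
  runA_ok (N := nat_lit 38) (j0 := nat_lit 12) (j1 := nat_lit 15)
    (ch := nat_lit 79228162530231561506289295382) (p1 := nat_lit 79228162523843434356733234333)
    (p2 := nat_lit 79228162514264337593543950336) (ul := true) (lf := false) (by decide +kernel)

theorem c10_26 : CovA (ev10 gr10_0) (nat_lit 12882646716980582400) (nat_lit 14358386242877345792) :=
  runA_ok (N := nat_lit 38) (j0 := nat_lit 13) (j1 := nat_lit 14)
    (ch := nat_lit 79228162530722500997399088807) (p1 := nat_lit 79228162523822756328102496537)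
    (p2 := nat_lit 79228162514264337593543950336) (ul := true) (lf := false) (by decide +kernel)

theorem c10_27 : CovA (ev10 gr10_0) (nat_lit 14358386242877345792) (nat_lit 15834125768774109184) :=
  runA_ok (N := nat_lit 38) (j0 := nat_lit 13) (j1 := nat_lit 13)
    (ch := nat_lit 79228162531198996761792927989) (p1 := nat_lit 79228162523822756328102496537)
    (p2 := nat_lit 79228162514264337593543950336) (ul := true) (lf := false) (by decide +kernel)

theorem c10_28 : CovA (ev10 gr10_0) (nat_lit 15834125768774109184) (nat_lit 17309865294670872576) :=
  runA_ok (N := nat_lit 38) (j0 := nat_lit 14) (j1 := nat_lit 14)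
    (ch := nat_lit 79228162531127695005993828135) (p1 := nat_lit 79228162523822756328102496537)
    (p2 := nat_lit 79228162514264337593543950336) (ul := true) (lf := false) (by decide +kernel)

theorem c10_29 : CovA (ev10 gr10_0) (nat_lit 17309865294670872576) (nat_lit 18785604820567638016) :=
  runA_ok (N := nat_lit 38) (j0 := nat_lit 14) (j1 := nat_lit 14)
    (ch := nat_lit 79228162531421163815948440404) (p1 := nat_lit 79228162523802078299471758741)
    (p2 := nat_lit 79228162514264337593543950336) (ul := true) (lf := false) (by decide +kernel)

theorem covA10_1 : CovA (ev10 gr10_0) (nat_lit 838860800000000000) (nat_lit 18785604820567638016) :=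
  ((((((((((((((c10_15.trans c10_16).trans c10_17).trans c10_18).trans c10_19).trans c10_20).trans
    c10_21).trans c10_22).trans c10_23).trans c10_24).trans c10_25).trans c10_26).trans
    c10_27).trans c10_28).trans c10_29)

end Pool.Agent.Lib.MP_f225de_an.Nu
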