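import Pool.Agent.Lib.MP_f225de_an.RE10

set_option autoImplicit false

namespace Pool.Agent.Lib.MP_f225de_an.Nu

open Tb

theorem c10_30 : CovA (ev10 gr10_0) (nat_lit 18785604820567638016) (nat_lit 20261344346464403456) :=
  runA_ok (N := nat_lit 38) (j0 := nat_lit 14) (j1 := nat_lit 14)
    (ch := nat_lit 79228162531555290668629585118) (p1 := nat_lit 79228162523822756328102496537)
    (p2 := nat_lit 79228162514264337593543950336) (ul := true) (lf := false) (by decide +kernel)

theorem c10_31 : CovA (ev10 gr10_0) (nat_lit 20261344346464403456) (nat_lit 21737083872361168896) :=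
  runA_ok (N := nat_lit 38) (j0 := nat_lit 15) (j1 := nat_lit 15)
    (ch := nat_lit 79228162531363624137016353532) (p1 := nat_lit 79228162523843434356733234333)
    (p2 := nat_lit 79228162514264337593543950336) (ul := true) (lf := false) (by decide +kernel)

theorem c10_32 : CovA (ev10 gr10_0) (nat_lit 21737083872361168896) (nat_lit 23212823398257934336) :=
  runA_ok (N := nat_lit 38) (j0 := nat_lit 15) (j1 := nat_lit 15)
    (ch := nat_lit 79228162530296561902680095684) (p1 := nat_lit 79228162514264337593543950336)
    (p2 := nat_lit 79228162526362321407499643590) (ul := true) (lf := false) (by decide +kernel)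

theorem c10_33 : CovA (ev10 gr10_0) (nat_lit 23212823398257934336) (nat_lit 24688562924154699776) :=
  runA_ok (N := nat_lit 38) (j0 := nat_lit 16) (j1 := nat_lit 16)
    (ch := nat_lit 79228162529845631683823652134) (p1 := nat_lit 79228162514264337593543950336)
    (p2 := nat_lit 79228162527152145837287083702) (ul := true) (lf := false) (by decide +kernel)

theorem c10_34 : CovA (ev10 gr10_0) (nat_lit 24688562924154699776) (nat_lit 26164302450051465216) :=
  runA_ok (N := nat_lit 38) (j0 := nat_lit 16) (j1 := nat_lit 16)
    (ch := nat_lit 79228162529458931038904996547) (p1 := nat_lit 79228162514264337593543950336)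
    (p2 := nat_lit 79228162527790080953653862254) (ul := true) (lf := false) (by decide +kernel)

theorem c10_35 : CovA (ev10 gr10_0) (nat_lit 26164302450051465216) (nat_lit 27640041975948230656) :=
  runA_ok (N := nat_lit 38) (j0 := nat_lit 17) (j1 := nat_lit 17)
    (ch := nat_lit 79228162529151515814345985457) (p1 := nat_lit 79228162514264337593543950336)
    (p2 := nat_lit 79228162527850836679022126878) (ul := true) (lf := false) (by decide +kernel)

theorem c10_36 : CovA (ev10 gr10_0) (nat_lit 27640041975948230656) (nat_lit 28976077832308491370) :=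
  runA_ok (N := nat_lit 38) (j0 := nat_lit 17) (j1 := nat_lit 17)
    (ch := nat_lit 79228162528671887558124143534) (p1 := nat_lit 79228162514264337593543950336)
    (p2 := nat_lit 79228162527850836679022126878) (ul := true) (lf := false) (by decide +kernel)

theorem c10_37 : CovB (ev10 gr10_0) (nat_lit 0) (nat_lit 2213609288845146112) :=
  runB_ok (N := nat_lit 38) (j0 := nat_lit 18) (ch := nat_lit 79228162524692750427040012431)
    (by decide +kernel)

theorem c10_38 : CovB (ev10 gr10_0) (nat_lit 2213609288845146112) (nat_lit 4427218577690292224) :=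
  runB_ok (N := nat_lit 38) (j0 := nat_lit 18) (ch := nat_lit 79228162524743778161105630368)
    (by decide +kernel)

theorem c10_39 : CovB (ev10 gr10_0) (nat_lit 4427218577690292224) (nat_lit 6640827866535438336) :=
  runB_ok (N := nat_lit 38) (j0 := nat_lit 18) (ch := nat_lit 79228162524784816409886810074)
    (by decide +kernel)

theorem c10_40 : CovB (ev10 gr10_0) (nat_lit 6640827866535438336) (nat_lit 8854437155380584448) :=
  runB_ok (N := nat_lit 38) (j0 := nat_lit 18) (ch := nat_lit 79228162524851303785040965950)
    (by decide +kernel)

theorem c10_41 : CovB (ev10 gr10_0) (nat_lit 8854437155380584448) (nat_lit 11068046444225730560) :=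
  runB_ok (N := nat_lit 38) (j0 := nat_lit 18) (ch := nat_lit 79228162524723636814309683731)
    (by decide +kernel)

theorem c10_42 : CovB (ev10 gr10_0) (nat_lit 11068046444225730560) (nat_lit 13281655733070876672) :=
  runB_ok (N := nat_lit 38) (j0 := nat_lit 18) (ch := nat_lit 79228162524591541482051242432)
    (by decide +kernel)

theorem c10_43 : CovB (ev10 gr10_0) (nat_lit 13281655733070876672) (nat_lit 15495265021916022784) :=
  runB_ok (N := nat_lit 38) (j0 := nat_lit 18) (ch := nat_lit 79228162524393678658802595886)
    (by decide +kernel)

theorem c10_44 : CovB (ev10 gr10_0) (nat_lit 15495265021916022784) (nat_lit 17708874310761168896) :=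
  runB_ok (N := nat_lit 38) (j0 := nat_lit 18) (ch := nat_lit 79228162524193227731325199546)
    (by decide +kernel)

theorem c10_45 : CovB (ev10 gr10_0) (nat_lit 17708874310761168896) (nat_lit 19922483599606315008) :=
  runB_ok (N := nat_lit 38) (j0 := nat_lit 18) (ch := nat_lit 79228162523936906162150396452)
    (by decide +kernel)

theorem c10_46 : CovB (ev10 gr10_0) (nat_lit 19922483599606315008) (nat_lit 22136092888451461120) :=
  runB_ok (N := nat_lit 38) (j0 := nat_lit 18) (ch := nat_lit 79228162523654475278731353545)
    (by decide +kernel)

theorem c10_47 : CovB (ev10 gr10_0) (nat_lit 22136092888451461120) (nat_lit 24349702177296607232) :=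
  runB_ok (N := nat_lit 38) (j0 := nat_lit 18) (ch := nat_lit 79228162523368830039190089908)
    (by decide +kernel)

theorem c10_48 : CovB (ev10 gr10_0) (nat_lit 24349702177296607232) (nat_lit 26563311466141753344) :=
  runB_ok (N := nat_lit 38) (j0 := nat_lit 18) (ch := nat_lit 79228162523044268953178661146)
    (by decide +kernel)

theorem c10_49 : CovB (ev10 gr10_0) (nat_lit 26563311466141753344) (nat_lit 28776920754986899456) :=
  runB_ok (N := nat_lit 38) (j0 := nat_lit 17) (ch := nat_lit 79228162522734265243321692844)
    (by decide +kernel)

theorem c10_50 : CovB (ev10 gr10_0) (nat_lit 28776920754986899456) (nat_lit 28976077832308491370) :=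
  runB_ok (N := nat_lit 38) (j0 := nat_lit 17) (ch := nat_lit 79228162521659917770718905976)
    (by decide +kernel)

theorem covA10_2 : CovA (ev10 gr10_0) (nat_lit 18785604820567638016) (nat_lit 28976077832308491370) :=
  ((((((c10_30.trans c10_31).trans c10_32).trans c10_33).trans c10_34).trans c10_35).trans c10_36)

theorem covB10_2 : CovB (ev10 gr10_0) (nat_lit 0) (nat_lit 28976077832308491370) :=
  (((((((((((((c10_37.trans c10_38).trans c10_39).trans c10_40).trans c10_41).trans c10_42).trans
    c10_43).trans c10_44).trans c10_45).trans c10_46).trans c10_47).trans c10_48).trans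
    c10_49).trans c10_50)

end Pool.Agent.Lib.MP_f225de_an.Nu
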