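import Pool.Agent.Lib.MP_f225de_an.RE13

set_option autoImplicit false

namespace Pool.Agent.Lib.MP_f225de_an.Nu

open Tb

theorem c13_0 : CovA (ev13 gr13_0) (nat_lit 0) (nat_lit 36893488147419104) :=
  runA_ok (N := nat_lit 34) (j0 := nat_lit 8) (j1 := nat_lit 35)
    (ch := nat_lit 79228162519248922017192849095) (p1 := nat_lit 79228162526374053196989822977)
    (p2 := nat_lit 79228162514264337593543950336) (ul := false) (lf := true) (by decide +kernel)

theorem c13_1 : CovA (ev13 gr13_0) (nat_lit 36893488147419104) (nat_lit 46116860184273880) :=
  runA_ok (N := nat_lit 46) (j0 := nat_lit 8) (j1 := nat_lit 47)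
    (ch := nat_lit 79228162519051298857320050022) (p1 := nat_lit 79228162526374053196989822977)
    (p2 := nat_lit 79228162514264337593543950336) (ul := false) (lf := false) (by decide +kernel)

theorem c13_2 : CovA (ev13 gr13_0) (nat_lit 46116860184273880) (nat_lit 57646075230342352) :=
  runA_ok (N := nat_lit 44) (j0 := nat_lit 8) (j1 := nat_lit 45)
    (ch := nat_lit 79228162519072023882214315624) (p1 := nat_lit 79228162526374053196989822977)
    (p2 := nat_lit 79228162514264337593543950336) (ul := false) (lf := false) (by decide +kernel)

theorem c13_3 : CovA (ev13 gr13_0) (nat_lit 57646075230342352) (nat_lit 72057594037927936) :=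
  runA_ok (N := nat_lit 43) (j0 := nat_lit 8) (j1 := nat_lit 44)
    (ch := nat_lit 79228162519102399161806967932) (p1 := nat_lit 79228162526374053196989822977)
    (p2 := nat_lit 79228162514264337593543950336) (ul := false) (lf := false) (by decide +kernel)

theorem c13_4 : CovA (ev13 gr13_0) (nat_lit 72057594037927936) (nat_lit 90071992547409920) :=
  runA_ok (N := nat_lit 42) (j0 := nat_lit 8) (j1 := nat_lit 43)
    (ch := nat_lit 79228162519114140997227475831) (p1 := nat_lit 79228162526374053196989822977)
    (p2 := nat_lit 79228162514264337593543950336) (ul := false) (lf := false) (by decide +kernel)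

theorem c13_5 : CovA (ev13 gr13_0) (nat_lit 90071992547409920) (nat_lit 112589990684262400) :=
  runA_ok (N := nat_lit 41) (j0 := nat_lit 8) (j1 := nat_lit 42)
    (ch := nat_lit 79228162519162958899618340059) (p1 := nat_lit 79228162526374053196989822977)
    (p2 := nat_lit 79228162514264337593543950336) (ul := false) (lf := false) (by decide +kernel)

theorem c13_6 : CovA (ev13 gr13_0) (nat_lit 112589990684262400) (nat_lit 140737488355328000) :=
  runA_ok (N := nat_lit 40) (j0 := nat_lit 8) (j1 := nat_lit 41)
    (ch := nat_lit 79228162519182702379966963511) (p1 := nat_lit 79228162526374053196989822977)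
    (p2 := nat_lit 79228162514264337593543950336) (ul := false) (lf := false) (by decide +kernel)

theorem c13_7 : CovA (ev13 gr13_0) (nat_lit 140737488355328000) (nat_lit 175921860444160000) :=
  runA_ok (N := nat_lit 38) (j0 := nat_lit 8) (j1 := nat_lit 39)
    (ch := nat_lit 79228162519239675640192872521) (p1 := nat_lit 79228162526374053196989822977)
    (p2 := nat_lit 79228162514264337593543950336) (ul := false) (lf := false) (by decide +kernel)

theorem c13_8 : CovA (ev13 gr13_0) (nat_lit 175921860444160000) (nat_lit 219902325555200000) :=
  runA_ok (N := nat_lit 38) (j0 := nat_lit 8) (j1 := nat_lit 39)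
    (ch := nat_lit 79228162519315966183026445115) (p1 := nat_lit 79228162526374053196989822977)
    (p2 := nat_lit 79228162514264337593543950336) (ul := false) (lf := false) (by decide +kernel)

theorem c13_9 : CovA (ev13 gr13_0) (nat_lit 219902325555200000) (nat_lit 274877906944000000) :=
  runA_ok (N := nat_lit 38) (j0 := nat_lit 8) (j1 := nat_lit 39)
    (ch := nat_lit 79228162519323399798041979309) (p1 := nat_lit 79228162526374053196989822977)
    (p2 := nat_lit 79228162514264337593543950336) (ul := false) (lf := false) (by decide +kernel)

theorem c13_10 : CovA (ev13 gr13_0) (nat_lit 274877906944000000) (nat_lit 343597383680000000) :=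
  runA_ok (N := nat_lit 38) (j0 := nat_lit 8) (j1 := nat_lit 39)
    (ch := nat_lit 79228162519401783732122936906) (p1 := nat_lit 79228162526374053196989822977)
    (p2 := nat_lit 79228162514264337593543950336) (ul := false) (lf := false) (by decide +kernel)

theorem c13_11 : CovA (ev13 gr13_0) (nat_lit 343597383680000000) (nat_lit 429496729600000000) :=
  runA_ok (N := nat_lit 38) (j0 := nat_lit 8) (j1 := nat_lit 39)
    (ch := nat_lit 79228162519420860963011439231) (p1 := nat_lit 79228162526374053196989822977)
    (p2 := nat_lit 79228162514264337593543950336) (ul := false) (lf := false) (by decide +kernel)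

theorem c13_12 : CovA (ev13 gr13_0) (nat_lit 429496729600000000) (nat_lit 536870912000000000) :=
  runA_ok (N := nat_lit 38) (j0 := nat_lit 8) (j1 := nat_lit 39)
    (ch := nat_lit 79228162519529862710387503116) (p1 := nat_lit 79228162526374053196989822977)
    (p2 := nat_lit 79228162514264337593543950336) (ul := false) (lf := false) (by decide +kernel)

theorem c13_13 : CovA (ev13 gr13_0) (nat_lit 536870912000000000) (nat_lit 671088640000000000) :=
  runA_ok (N := nat_lit 38) (j0 := nat_lit 8) (j1 := nat_lit 39)
    (ch := nat_lit 79228162519705072849906232991) (p1 := nat_lit 79228162526374053196989822977)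
    (p2 := nat_lit 79228162514264337593543950336) (ul := false) (lf := false) (by decide +kernel)

theorem c13_14 : CovA (ev13 gr13_0) (nat_lit 671088640000000000) (nat_lit 838860800000000000) :=
  runA_ok (N := nat_lit 38) (j0 := nat_lit 8) (j1 := nat_lit 39)
    (ch := nat_lit 79228162519903830828398647744) (p1 := nat_lit 79228162526374053196989822977)
    (p2 := nat_lit 79228162514264337593543950336) (ul := false) (lf := false) (by decide +kernel)

theorem covA13_0 : CovA (ev13 gr13_0) (nat_lit 0) (nat_lit 838860800000000000) :=
  ((((((((((((((c13_0.trans c13_1).trans c13_2).trans c13_3).trans c13_4).trans c13_5).trans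
    c13_6).trans c13_7).trans c13_8).trans c13_9).trans c13_10).trans c13_11).trans c13_12).trans
    c13_13).trans c13_14)

end Pool.Agent.Lib.MP_f225de_an.Nu
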