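import Pool.Agent.Lib.MP_f225de_an.RE13

set_option autoImplicit false

namespace Pool.Agent.Lib.MP_f225de_an.Nu

open Tb

theorem c13_15 : CovA (ev13 gr13_0) (nat_lit 838860800000000000) (nat_lit 1048576000000000000) :=
  runA_ok (N := nat_lit 38) (j0 := nat_lit 8) (j1 := nat_lit 39)
    (ch := nat_lit 79228162520137276723908864095) (p1 := nat_lit 79228162526374053196989822977)
    (p2 := nat_lit 79228162514264337593543950336) (ul := false) (lf := false) (by decide +kernel)

theorem c13_16 : CovA (ev13 gr13_0) (nat_lit 1048576000000000000) (nat_lit 1468006400000000000) :=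
  runA_ok (N := nat_lit 38) (j0 := nat_lit 8) (j1 := nat_lit 39)
    (ch := nat_lit 79228162520849101827684613149) (p1 := nat_lit 79228162526238055414333936711)
    (p2 := nat_lit 79228162514264337593543950336) (ul := false) (lf := false) (by decide +kernel)

theorem c13_17 : CovA (ev13 gr13_0) (nat_lit 1468006400000000000) (nat_lit 2055208959999999744) :=
  runA_ok (N := nat_lit 38) (j0 := nat_lit 8) (j1 := nat_lit 39)
    (ch := nat_lit 79228162521716878336815129349) (p1 := nat_lit 79228162526001537531454134511)
    (p2 := nat_lit 79228162514264337593543950336) (ul := false) (lf := false) (by decide +kernel)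

theorem c13_18 : CovA (ev13 gr13_0) (nat_lit 2055208959999999744) (nat_lit 2877292543999999488) :=
  runA_ok (N := nat_lit 38) (j0 := nat_lit 9) (j1 := nat_lit 39)
    (ch := nat_lit 79228162522698944480633482135) (p1 := nat_lit 79228162525835975013438272971)
    (p2 := nat_lit 79228162514264337593543950336) (ul := false) (lf := false) (by decide +kernel)

theorem c13_19 : CovA (ev13 gr13_0) (nat_lit 2877292543999999488) (nat_lit 4028209561599998976) :=
  runA_ok (N := nat_lit 38) (j0 := nat_lit 9) (j1 := nat_lit 23)
    (ch := nat_lit 79228162524844319010160634710) (p1 := nat_lit 79228162525670412495422411431)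
    (p2 := nat_lit 79228162514264337593543950336) (ul := true) (lf := false) (by decide +kernel)

theorem c13_20 : CovA (ev13 gr13_0) (nat_lit 4028209561599998976) (nat_lit 5503949087496763392) :=
  runA_ok (N := nat_lit 38) (j0 := nat_lit 10) (j1 := nat_lit 21)
    (ch := nat_lit 79228162527281321099062675652) (p1 := nat_lit 79228162525575805342270490551)
    (p2 := nat_lit 79228162514264337593543950336) (ul := true) (lf := false) (by decide +kernel)

theorem c13_21 : CovA (ev13 gr13_0) (nat_lit 5503949087496763392) (nat_lit 6979688613393527808) :=
  runA_ok (N := nat_lit 38) (j0 := nat_lit 10) (j1 := nat_lit 20)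
    (ch := nat_lit 79228162528639550373026352414) (p1 := nat_lit 79228162525481198189118569671)
    (p2 := nat_lit 79228162514264337593543950336) (ul := true) (lf := false) (by decide +kernel)

theorem c13_22 : CovA (ev13 gr13_0) (nat_lit 6979688613393527808) (nat_lit 8455428139290292224) :=
  runA_ok (N := nat_lit 38) (j0 := nat_lit 11) (j1 := nat_lit 19)
    (ch := nat_lit 79228162529967877866044893865) (p1 := nat_lit 79228162525433894612542609231)
    (p2 := nat_lit 79228162514264337593543950336) (ul := true) (lf := false) (by decide +kernel)

theorem c13_23 : CovA (ev13 gr13_0) (nat_lit 8455428139290292224) (nat_lit 9931167665187055616) :=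
  runA_ok (N := nat_lit 38) (j0 := nat_lit 11) (j1 := nat_lit 17)
    (ch := nat_lit 79228162530766041954351416249) (p1 := nat_lit 79228162525410242824254629011)
    (p2 := nat_lit 79228162514264337593543950336) (ul := true) (lf := false) (by decide +kernel)

theorem c13_24 : CovA (ev13 gr13_0) (nat_lit 9931167665187055616) (nat_lit 11406907191083819008) :=
  runA_ok (N := nat_lit 38) (j0 := nat_lit 12) (j1 := nat_lit 16)
    (ch := nat_lit 79228162531815945764348446622) (p1 := nat_lit 79228162525386591035966648791)
    (p2 := nat_lit 79228162514264337593543950336) (ul := true) (lf := false) (by decide +kernel)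

theorem c13_25 : CovA (ev13 gr13_0) (nat_lit 11406907191083819008) (nat_lit 12882646716980582400) :=
  runA_ok (N := nat_lit 38) (j0 := nat_lit 12) (j1 := nat_lit 15)
    (ch := nat_lit 79228162532729725938046052383) (p1 := nat_lit 79228162525362939247678668571)
    (p2 := nat_lit 79228162514264337593543950336) (ul := true) (lf := false) (by decide +kernel)

theorem c13_26 : CovA (ev13 gr13_0) (nat_lit 12882646716980582400) (nat_lit 14358386242877345792) :=
  runA_ok (N := nat_lit 38) (j0 := nat_lit 13) (j1 := nat_lit 14)
    (ch := nat_lit 79228162533333560079400335792) (p1 := nat_lit 79228162525362939247678668571)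
    (p2 := nat_lit 79228162514264337593543950336) (ul := true) (lf := false) (by decide +kernel)

theorem c13_27 : CovA (ev13 gr13_0) (nat_lit 14358386242877345792) (nat_lit 15834125768774109184) :=
  runA_ok (N := nat_lit 38) (j0 := nat_lit 13) (j1 := nat_lit 13)
    (ch := nat_lit 79228162533913623597210054487) (p1 := nat_lit 79228162525339287459390688351)
    (p2 := nat_lit 79228162514264337593543950336) (ul := true) (lf := false) (by decide +kernel)

theorem c13_28 : CovA (ev13 gr13_0) (nat_lit 15834125768774109184) (nat_lit 17309865294670872576) :=
  runA_ok (N := nat_lit 38) (j0 := nat_lit 14) (j1 := nat_lit 14)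
    (ch := nat_lit 79228162533824677200877638136) (p1 := nat_lit 79228162525339287459390688351)
    (p2 := nat_lit 79228162514264337593543950336) (ul := true) (lf := false) (by decide +kernel)

theorem c13_29 : CovA (ev13 gr13_0) (nat_lit 17309865294670872576) (nat_lit 18785604820567638016) :=
  runA_ok (N := nat_lit 38) (j0 := nat_lit 14) (j1 := nat_lit 14)
    (ch := nat_lit 79228162534188889833275023261) (p1 := nat_lit 79228162525339287459390688351)
    (p2 := nat_lit 79228162514264337593543950336) (ul := true) (lf := false) (by decide +kernel)

theorem covA13_1 : CovA (ev13 gr13_0) (nat_lit 838860800000000000) (nat_lit 18785604820567638016) :=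
  ((((((((((((((c13_15.trans c13_16).trans c13_17).trans c13_18).trans c13_19).trans c13_20).trans
    c13_21).trans c13_22).trans c13_23).trans c13_24).trans c13_25).trans c13_26).trans
    c13_27).trans c13_28).trans c13_29)

end Pool.Agent.Lib.MP_f225de_an.Nu
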