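import Pool.Agent.Lib.MP_f225de_an.RE13

set_option autoImplicit false

namespace Pool.Agent.Lib.MP_f225de_an.Nu

open Tb

theorem c13_30 : CovA (ev13 gr13_0) (nat_lit 18785604820567638016) (nat_lit 20261344346464403456) :=
  runA_ok (N := nat_lit 38) (j0 := nat_lit 15) (j1 := nat_lit 15)
    (ch := nat_lit 79228162534324425062959650435) (p1 := nat_lit 79228162525362939247678668571)
    (p2 := nat_lit 79228162514264337593543950336) (ul := true) (lf := false) (by decide +kernel)

theorem c13_31 : CovA (ev13 gr13_0) (nat_lit 20261344346464403456) (nat_lit 21737083872361168896) :=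
  runA_ok (N := nat_lit 38) (j0 := nat_lit 15) (j1 := nat_lit 15)
    (ch := nat_lit 79228162534121200532758839030) (p1 := nat_lit 79228162525386591035966648791)
    (p2 := nat_lit 79228162514264337593543950336) (ul := true) (lf := false) (by decide +kernel)

theorem c13_32 : CovA (ev13 gr13_0) (nat_lit 21737083872361168896) (nat_lit 23212823398257934336) :=
  runA_ok (N := nat_lit 38) (j0 := nat_lit 16) (j1 := nat_lit 16)
    (ch := nat_lit 79228162532653813547133130831) (p1 := nat_lit 79228162514264337593543950336)
    (p2 := nat_lit 79228162528311405332673078496) (ul := true) (lf := false) (by decide +kernel)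

theorem c13_33 : CovA (ev13 gr13_0) (nat_lit 23212823398257934336) (nat_lit 24688562924154699776) :=
  runA_ok (N := nat_lit 38) (j0 := nat_lit 16) (j1 := nat_lit 16)
    (ch := nat_lit 79228162532023624089933048967) (p1 := nat_lit 79228162514264337593543950336)
    (p2 := nat_lit 79228162529222960669410854496) (ul := true) (lf := false) (by decide +kernel)

theorem c13_34 : CovA (ev13 gr13_0) (nat_lit 24688562924154699776) (nat_lit 26164302450051465216) :=
  runA_ok (N := nat_lit 38) (j0 := nat_lit 16) (j1 := nat_lit 16)
    (ch := nat_lit 79228162531485385936196320019) (p1 := nat_lit 79228162514264337593543950336)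
    (p2 := nat_lit 79228162530170978219618141536) (ul := true) (lf := false) (by decide +kernel)

theorem c13_35 : CovA (ev13 gr13_0) (nat_lit 26164302450051465216) (nat_lit 27640041975948230656) :=
  runA_ok (N := nat_lit 38) (j0 := nat_lit 17) (j1 := nat_lit 17)
    (ch := nat_lit 79228162531072460866240997175) (p1 := nat_lit 79228162514264337593543950336)
    (p2 := nat_lit 79228162530827298062069340256) (ul := true) (lf := false) (by decide +kernel)

theorem c13_36 : CovA (ev13 gr13_0) (nat_lit 27640041975948230656) (nat_lit 28976077832308491370) :=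
  runA_ok (N := nat_lit 38) (j0 := nat_lit 17) (j1 := nat_lit 17)
    (ch := nat_lit 79228162530466497611485577840) (p1 := nat_lit 79228162514264337593543950336)
    (p2 := nat_lit 79228162530973146915947384416) (ul := true) (lf := false) (by decide +kernel)

theorem c13_37 : CovB (ev13 gr13_0) (nat_lit 0) (nat_lit 2213609288845146112) :=
  runB_ok (N := nat_lit 38) (j0 := nat_lit 18) (ch := nat_lit 79228162526191996903464346508)
    (by decide +kernel)

theorem c13_38 : CovB (ev13 gr13_0) (nat_lit 2213609288845146112) (nat_lit 4427218577690292224) :=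
  runB_ok (N := nat_lit 38) (j0 := nat_lit 18) (ch := nat_lit 79228162526251062337993713821)
    (by decide +kernel)

theorem c13_39 : CovB (ev13 gr13_0) (nat_lit 4427218577690292224) (nat_lit 6640827866535438336) :=
  runB_ok (N := nat_lit 38) (j0 := nat_lit 18) (ch := nat_lit 79228162526297591205309589576)
    (by decide +kernel)

theorem c13_40 : CovB (ev13 gr13_0) (nat_lit 6640827866535438336) (nat_lit 8854437155380584448) :=
  runB_ok (N := nat_lit 38) (j0 := nat_lit 18) (ch := nat_lit 79228162526373868729549087251)
    (by decide +kernel)

theorem c13_41 : CovB (ev13 gr13_0) (nat_lit 8854437155380584448) (nat_lit 11068046444225730560) :=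
  runB_ok (N := nat_lit 38) (j0 := nat_lit 18) (ch := nat_lit 79228162526230823714174640827)
    (by decide +kernel)

theorem c13_42 : CovB (ev13 gr13_0) (nat_lit 11068046444225730560) (nat_lit 13281655733070876672) :=
  runB_ok (N := nat_lit 38) (j0 := nat_lit 18) (ch := nat_lit 79228162526083763304545719029)
    (by decide +kernel)

theorem c13_43 : CovB (ev13 gr13_0) (nat_lit 13281655733070876672) (nat_lit 15495265021916022784) :=
  runB_ok (N := nat_lit 38) (j0 := nat_lit 18) (ch := nat_lit 79228162525862844166257036835)
    (by decide +kernel)

theorem c13_44 : CovB (ev13 gr13_0) (nat_lit 15495265021916022784) (nat_lit 17708874310761168896) :=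
  runB_ok (N := nat_lit 38) (j0 := nat_lit 18) (ch := nat_lit 79228162525639434987775473517)
    (by decide +kernel)

theorem c13_45 : CovB (ev13 gr13_0) (nat_lit 17708874310761168896) (nat_lit 19922483599606315008) :=
  runB_ok (N := nat_lit 38) (j0 := nat_lit 18) (ch := nat_lit 79228162525354726030346553027)
    (by decide +kernel)

theorem c13_46 : CovB (ev13 gr13_0) (nat_lit 19922483599606315008) (nat_lit 22136092888451461120) :=
  runB_ok (N := nat_lit 38) (j0 := nat_lit 18) (ch := nat_lit 79228162525040090125843442733)
    (by decide +kernel)

theorem c13_47 : CovB (ev13 gr13_0) (nat_lit 22136092888451461120) (nat_lit 24349702177296607232) :=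
  runB_ok (N := nat_lit 38) (j0 := nat_lit 18) (ch := nat_lit 79228162524723358311317811886)
    (by decide +kernel)

theorem c13_48 : CovB (ev13 gr13_0) (nat_lit 24349702177296607232) (nat_lit 26563311466141753344) :=
  runB_ok (N := nat_lit 38) (j0 := nat_lit 18) (ch := nat_lit 79228162524362267645445213056)
    (by decide +kernel)

theorem c13_49 : CovB (ev13 gr13_0) (nat_lit 26563311466141753344) (nat_lit 28776920754986899456) :=
  runB_ok (N := nat_lit 38) (j0 := nat_lit 18) (ch := nat_lit 79228162524017519805637491331)
    (by decide +kernel)

theorem c13_50 : CovB (ev13 gr13_0) (nat_lit 28776920754986899456) (nat_lit 28976077832308491370) :=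
  runB_ok (N := nat_lit 38) (j0 := nat_lit 17) (ch := nat_lit 79228162522792572132733504784)
    (by decide +kernel)

theorem covA13_2 : CovA (ev13 gr13_0) (nat_lit 18785604820567638016) (nat_lit 28976077832308491370) :=
  ((((((c13_30.trans c13_31).trans c13_32).trans c13_33).trans c13_34).trans c13_35).trans c13_36)

theorem covB13_2 : CovB (ev13 gr13_0) (nat_lit 0) (nat_lit 28976077832308491370) :=
  (((((((((((((c13_37.trans c13_38).trans c13_39).trans c13_40).trans c13_41).trans c13_42).trans
    c13_43).trans c13_44).trans c13_45).trans c13_46).trans c13_47).trans c13_48).trans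
    c13_49).trans c13_50)

end Pool.Agent.Lib.MP_f225de_an.Nu
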