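import Pool.Agent.Lib.MP_f225de_an.RE19

set_option autoImplicit false

namespace Pool.Agent.Lib.MP_f225de_an.Nu

open Tb

theorem c19_0 : CovA (ev19 gr19_0) (nat_lit 0) (nat_lit 36893488147419104) :=
  runA_ok (N := nat_lit 43) (j0 := nat_lit 10) (j1 := nat_lit 44)
    (ch := nat_lit 79228162519520334696154432550) (p1 := nat_lit 79228162527068643253882791937)
    (p2 := nat_lit 79228162514264337593543950336) (ul := false) (lf := true) (by decide +kernel)

theorem c19_1 : CovA (ev19 gr19_0) (nat_lit 36893488147419104) (nat_lit 46116860184273880) :=
  runA_ok (N := nat_lit 55) (j0 := nat_lit 10) (j1 := nat_lit 56)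
    (ch := nat_lit 79228162519330602866232169746) (p1 := nat_lit 79228162527068643253882791937)
    (p2 := nat_lit 79228162514264337593543950336) (ul := false) (lf := false) (by decide +kernel)

theorem c19_2 : CovA (ev19 gr19_0) (nat_lit 46116860184273880) (nat_lit 57646075230342352) :=
  runA_ok (N := nat_lit 53) (j0 := nat_lit 10) (j1 := nat_lit 54)
    (ch := nat_lit 79228162519351676048346268234) (p1 := nat_lit 79228162527068643253882791937)
    (p2 := nat_lit 79228162514264337593543950336) (ul := false) (lf := false) (by decide +kernel)

theorem c19_3 : CovA (ev19 gr19_0) (nat_lit 57646075230342352) (nat_lit 72057594037927936) :=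
  runA_ok (N := nat_lit 52) (j0 := nat_lit 10) (j1 := nat_lit 53)
    (ch := nat_lit 79228162519382070899023413766) (p1 := nat_lit 79228162527068643253882791937)
    (p2 := nat_lit 79228162514264337593543950336) (ul := false) (lf := false) (by decide +kernel)

theorem c19_4 : CovA (ev19 gr19_0) (nat_lit 72057594037927936) (nat_lit 90071992547409920) :=
  runA_ok (N := nat_lit 51) (j0 := nat_lit 10) (j1 := nat_lit 52)
    (ch := nat_lit 79228162519394286575182522514) (p1 := nat_lit 79228162527068643253882791937)
    (p2 := nat_lit 79228162514264337593543950336) (ul := false) (lf := false) (by decide +kernel)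

theorem c19_5 : CovA (ev19 gr19_0) (nat_lit 90071992547409920) (nat_lit 112589990684262400) :=
  runA_ok (N := nat_lit 50) (j0 := nat_lit 10) (j1 := nat_lit 51)
    (ch := nat_lit 79228162519443609284502705781) (p1 := nat_lit 79228162527068643253882791937)
    (p2 := nat_lit 79228162514264337593543950336) (ul := false) (lf := false) (by decide +kernel)

theorem c19_6 : CovA (ev19 gr19_0) (nat_lit 112589990684262400) (nat_lit 140737488355328000) :=
  runA_ok (N := nat_lit 49) (j0 := nat_lit 10) (j1 := nat_lit 50)
    (ch := nat_lit 79228162519464162436882702795) (p1 := nat_lit 79228162527068643253882791937)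
    (p2 := nat_lit 79228162514264337593543950336) (ul := false) (lf := false) (by decide +kernel)

theorem c19_7 : CovA (ev19 gr19_0) (nat_lit 140737488355328000) (nat_lit 175921860444160000) :=
  runA_ok (N := nat_lit 47) (j0 := nat_lit 10) (j1 := nat_lit 48)
    (ch := nat_lit 79228162519521637071341884158) (p1 := nat_lit 79228162527068643253882791937)
    (p2 := nat_lit 79228162514264337593543950336) (ul := false) (lf := false) (by decide +kernel)

theorem c19_8 : CovA (ev19 gr19_0) (nat_lit 175921860444160000) (nat_lit 219902325555200000) :=
  runA_ok (N := nat_lit 47) (j0 := nat_lit 10) (j1 := nat_lit 48)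
    (ch := nat_lit 79228162519600527240692602971) (p1 := nat_lit 79228162527068643253882791937)
    (p2 := nat_lit 79228162514264337593543950336) (ul := false) (lf := false) (by decide +kernel)

theorem c19_9 : CovA (ev19 gr19_0) (nat_lit 219902325555200000) (nat_lit 274877906944000000) :=
  runA_ok (N := nat_lit 47) (j0 := nat_lit 10) (j1 := nat_lit 48)
    (ch := nat_lit 79228162519612480788963224174) (p1 := nat_lit 79228162527068643253882791937)
    (p2 := nat_lit 79228162514264337593543950336) (ul := false) (lf := false) (by decide +kernel)

theorem c19_10 : CovA (ev19 gr19_0) (nat_lit 274877906944000000) (nat_lit 343597383680000000) :=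
  runA_ok (N := nat_lit 47) (j0 := nat_lit 10) (j1 := nat_lit 48)
    (ch := nat_lit 79228162519696641998786362176) (p1 := nat_lit 79228162527068643253882791937)
    (p2 := nat_lit 79228162514264337593543950336) (ul := false) (lf := false) (by decide +kernel)

theorem c19_11 : CovA (ev19 gr19_0) (nat_lit 343597383680000000) (nat_lit 429496729600000000) :=
  runA_ok (N := nat_lit 47) (j0 := nat_lit 10) (j1 := nat_lit 48)
    (ch := nat_lit 79228162519721356112940797800) (p1 := nat_lit 79228162527068643253882791937)
    (p2 := nat_lit 79228162514264337593543950336) (ul := false) (lf := false) (by decide +kernel)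

theorem c19_12 : CovA (ev19 gr19_0) (nat_lit 429496729600000000) (nat_lit 536870912000000000) :=
  runA_ok (N := nat_lit 47) (j0 := nat_lit 10) (j1 := nat_lit 48)
    (ch := nat_lit 79228162519833792395704876525) (p1 := nat_lit 79228162527068643253882791937)
    (p2 := nat_lit 79228162514264337593543950336) (ul := false) (lf := false) (by decide +kernel)

theorem c19_13 : CovA (ev19 gr19_0) (nat_lit 536870912000000000) (nat_lit 671088640000000000) :=
  runA_ok (N := nat_lit 47) (j0 := nat_lit 10) (j1 := nat_lit 48)
    (ch := nat_lit 79228162520011899072470871256) (p1 := nat_lit 79228162527068643253882791937)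
    (p2 := nat_lit 79228162514264337593543950336) (ul := false) (lf := false) (by decide +kernel)

theorem c19_14 : CovA (ev19 gr19_0) (nat_lit 671088640000000000) (nat_lit 838860800000000000) :=
  runA_ok (N := nat_lit 47) (j0 := nat_lit 10) (j1 := nat_lit 48)
    (ch := nat_lit 79228162520199629794683244034) (p1 := nat_lit 79228162527068643253882791937)
    (p2 := nat_lit 79228162514264337593543950336) (ul := false) (lf := false) (by decide +kernel)

theorem c19_15 : CovA (ev19 gr19_0) (nat_lit 838860800000000000) (nat_lit 1048576000000000000) :=
  runA_ok (N := nat_lit 47) (j0 := nat_lit 11) (j1 := nat_lit 48)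
    (ch := nat_lit 79228162520439743043526855068) (p1 := nat_lit 79228162527049886946763154961)
    (p2 := nat_lit 79228162514264337593543950336) (ul := false) (lf := false) (by decide +kernel)

theorem c19_16 : CovA (ev19 gr19_0) (nat_lit 1048576000000000000) (nat_lit 1363148800000000000) :=
  runA_ok (N := nat_lit 47) (j0 := nat_lit 11) (j1 := nat_lit 48)
    (ch := nat_lit 79228162520929613062794911341) (p1 := nat_lit 79228162526874828080313209861)
    (p2 := nat_lit 79228162514264337593543950336) (ul := false) (lf := false) (by decide +kernel)

theorem c19_17 : CovA (ev19 gr19_0) (nat_lit 1363148800000000000) (nat_lit 1772093440000000000) :=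
  runA_ok (N := nat_lit 47) (j0 := nat_lit 11) (j1 := nat_lit 48)
    (ch := nat_lit 79228162521476312707031829893) (p1 := nat_lit 79228162526699769213863264761)
    (p2 := nat_lit 79228162514264337593543950336) (ul := false) (lf := false) (by decide +kernel)

theorem covA19_0 : CovA (ev19 gr19_0) (nat_lit 0) (nat_lit 1772093440000000000) :=
  (((((((((((((((((c19_0.trans c19_1).trans c19_2).trans c19_3).trans c19_4).trans c19_5).trans
    c19_6).trans c19_7).trans c19_8).trans c19_9).trans c19_10).trans c19_11).trans c19_12).trans
    c19_13).trans c19_14).trans c19_15).trans c19_16).trans c19_17)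

end Pool.Agent.Lib.MP_f225de_an.Nu
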