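import Pool.Agent.Lib.MP_f225de_an.RE19

set_option autoImplicit false

namespace Pool.Agent.Lib.MP_f225de_an.Nu

open Tb

theorem c19_18 : CovA (ev19 gr19_0) (nat_lit 1772093440000000000) (nat_lit 2303721472000000000) :=
  runA_ok (N := nat_lit 47) (j0 := nat_lit 11) (j1 := nat_lit 33)
    (ch := nat_lit 79228162522103331527055826660) (p1 := nat_lit 79228162526549718756906168961)
    (p2 := nat_lit 79228162514264337593543950336) (ul := true) (lf := false) (by decide +kernel)

theorem c19_19 : CovA (ev19 gr19_0) (nat_lit 2303721472000000000) (nat_lit 2994837913600000000) :=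
  runA_ok (N := nat_lit 47) (j0 := nat_lit 12) (j1 := nat_lit 31)
    (ch := nat_lit 79228162522888746406034447630) (p1 := nat_lit 79228162526424676709441922461)
    (p2 := nat_lit 79228162514264337593543950336) (ul := true) (lf := false) (by decide +kernel)

theorem c19_20 : CovA (ev19 gr19_0) (nat_lit 2994837913600000000) (nat_lit 3893289287680000000) :=
  runA_ok (N := nat_lit 47) (j0 := nat_lit 12) (j1 := nat_lit 30)
    (ch := nat_lit 79228162524502218515497977944) (p1 := nat_lit 79228162526324643071470525261)
    (p2 := nat_lit 79228162514264337593543950336) (ul := true) (lf := false) (by decide +kernel)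

theorem c19_21 : CovA (ev19 gr19_0) (nat_lit 3893289287680000000) (nat_lit 5000093932102573056) :=
  runA_ok (N := nat_lit 47) (j0 := nat_lit 13) (j1 := nat_lit 28)
    (ch := nat_lit 79228162526315904638650045110) (p1 := nat_lit 79228162526224609433499128061)
    (p2 := nat_lit 79228162514264337593543950336) (ul := true) (lf := false) (by decide +kernel)

theorem c19_22 : CovA (ev19 gr19_0) (nat_lit 5000093932102573056) (nat_lit 6106898576525146112) :=
  runA_ok (N := nat_lit 47) (j0 := nat_lit 13) (j1 := nat_lit 27)
    (ch := nat_lit 79228162527672302997715555676) (p1 := nat_lit 79228162526149584205020580161)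
    (p2 := nat_lit 79228162514264337593543950336) (ul := true) (lf := false) (by decide +kernel)

theorem c19_23 : CovA (ev19 gr19_0) (nat_lit 6106898576525146112) (nat_lit 7213703220947719168) :=
  runA_ok (N := nat_lit 47) (j0 := nat_lit 14) (j1 := nat_lit 26)
    (ch := nat_lit 79228162528724802598785068963) (p1 := nat_lit 79228162526124575795527730861)
    (p2 := nat_lit 79228162514264337593543950336) (ul := true) (lf := false) (by decide +kernel)

theorem c19_24 : CovA (ev19 gr19_0) (nat_lit 7213703220947719168) (nat_lit 8320507865370292224) :=
  runA_ok (N := nat_lit 47) (j0 := nat_lit 14) (j1 := nat_lit 25)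
    (ch := nat_lit 79228162529723565513791637787) (p1 := nat_lit 79228162526074558976542032261)
    (p2 := nat_lit 79228162514264337593543950336) (ul := true) (lf := false) (by decide +kernel)

theorem c19_25 : CovA (ev19 gr19_0) (nat_lit 8320507865370292224) (nat_lit 9427312509792866304) :=
  runA_ok (N := nat_lit 47) (j0 := nat_lit 15) (j1 := nat_lit 23)
    (ch := nat_lit 79228162530266631317260356227) (p1 := nat_lit 79228162526049550567049182961)
    (p2 := nat_lit 79228162514264337593543950336) (ul := true) (lf := false) (by decide +kernel)

theorem c19_26 : CovA (ev19 gr19_0) (nat_lit 9427312509792866304) (nat_lit 10534117154215440384) :=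
  runA_ok (N := nat_lit 47) (j0 := nat_lit 15) (j1 := nat_lit 22)
    (ch := nat_lit 79228162531430219051532017392) (p1 := nat_lit 79228162526049550567049182961)
    (p2 := nat_lit 79228162514264337593543950336) (ul := true) (lf := false) (by decide +kernel)

theorem c19_27 : CovA (ev19 gr19_0) (nat_lit 10534117154215440384) (nat_lit 11640921798638014464) :=
  runA_ok (N := nat_lit 47) (j0 := nat_lit 16) (j1 := nat_lit 21)
    (ch := nat_lit 79228162532267293522355194543) (p1 := nat_lit 79228162526024542157556333661)
    (p2 := nat_lit 79228162514264337593543950336) (ul := true) (lf := false) (by decide +kernel)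

theorem c19_28 : CovA (ev19 gr19_0) (nat_lit 11640921798638014464) (nat_lit 12747726443060588544) :=
  runA_ok (N := nat_lit 47) (j0 := nat_lit 16) (j1 := nat_lit 20)
    (ch := nat_lit 79228162533069567354360809506) (p1 := nat_lit 79228162526024542157556333661)
    (p2 := nat_lit 79228162514264337593543950336) (ul := true) (lf := false) (by decide +kernel)

theorem c19_29 : CovA (ev19 gr19_0) (nat_lit 12747726443060588544) (nat_lit 13854531087483162624) :=
  runA_ok (N := nat_lit 47) (j0 := nat_lit 17) (j1 := nat_lit 18)
    (ch := nat_lit 79228162533052609487627364027) (p1 := nat_lit 79228162525999533748063484361)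
    (p2 := nat_lit 79228162514264337593543950336) (ul := true) (lf := false) (by decide +kernel)

theorem c19_30 : CovA (ev19 gr19_0) (nat_lit 13854531087483162624) (nat_lit 14961335731905736704) :=
  runA_ok (N := nat_lit 47) (j0 := nat_lit 17) (j1 := nat_lit 17)
    (ch := nat_lit 79228162533546970471746093655) (p1 := nat_lit 79228162525999533748063484361)
    (p2 := nat_lit 79228162514264337593543950336) (ul := true) (lf := false) (by decide +kernel)

theorem c19_31 : CovA (ev19 gr19_0) (nat_lit 14961335731905736704) (nat_lit 16068140376328310784) :=
  runA_ok (N := nat_lit 47) (j0 := nat_lit 18) (j1 := nat_lit 18)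
    (ch := nat_lit 79228162534100983888267044536) (p1 := nat_lit 79228162525999533748063484361)
    (p2 := nat_lit 79228162514264337593543950336) (ul := true) (lf := false) (by decide +kernel)

theorem c19_32 : CovA (ev19 gr19_0) (nat_lit 16068140376328310784) (nat_lit 17174945020750884864) :=
  runA_ok (N := nat_lit 47) (j0 := nat_lit 18) (j1 := nat_lit 18)
    (ch := nat_lit 79228162534412848187980320495) (p1 := nat_lit 79228162525999533748063484361)
    (p2 := nat_lit 79228162514264337593543950336) (ul := true) (lf := false) (by decide +kernel)

theorem c19_33 : CovA (ev19 gr19_0) (nat_lit 17174945020750884864) (nat_lit 18281749665173458944) :=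
  runA_ok (N := nat_lit 47) (j0 := nat_lit 19) (j1 := nat_lit 19)
    (ch := nat_lit 79228162534815031203553337608) (p1 := nat_lit 79228162525974525338570635061)
    (p2 := nat_lit 79228162514264337593543950336) (ul := true) (lf := false) (by decide +kernel)

theorem c19_34 : CovA (ev19 gr19_0) (nat_lit 18281749665173458944) (nat_lit 19388554309596033024) :=
  runA_ok (N := nat_lit 47) (j0 := nat_lit 19) (j1 := nat_lit 19)
    (ch := nat_lit 79228162534689499013713518573) (p1 := nat_lit 79228162525974525338570635061)
    (p2 := nat_lit 79228162514264337593543950336) (ul := true) (lf := false) (by decide +kernel)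

theorem c19_35 : CovA (ev19 gr19_0) (nat_lit 19388554309596033024) (nat_lit 20495358954018607104) :=
  runA_ok (N := nat_lit 47) (j0 := nat_lit 20) (j1 := nat_lit 20)
    (ch := nat_lit 79228162534563985785020362087) (p1 := nat_lit 79228162525974525338570635061)
    (p2 := nat_lit 79228162514264337593543950336) (ul := true) (lf := false) (by decide +kernel)

theorem c19_36 : CovA (ev19 gr19_0) (nat_lit 20495358954018607104) (nat_lit 21602163598441181184) :=
  runA_ok (N := nat_lit 47) (j0 := nat_lit 20) (j1 := nat_lit 20)
    (ch := nat_lit 79228162534246205905868995269) (p1 := nat_lit 79228162514264337593543950336)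
    (p2 := nat_lit 79228162528006922169770879342) (ul := true) (lf := false) (by decide +kernel)

theorem covA19_1 : CovA (ev19 gr19_0) (nat_lit 1772093440000000000) (nat_lit 21602163598441181184) :=
  ((((((((((((((((((c19_18.trans c19_19).trans c19_20).trans c19_21).trans c19_22).trans
    c19_23).trans c19_24).trans c19_25).trans c19_26).trans c19_27).trans c19_28).trans
    c19_29).trans c19_30).trans c19_31).trans c19_32).trans c19_33).trans c19_34).trans
    c19_35).trans c19_36)

end Pool.Agent.Lib.MP_f225de_an.Nu
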