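import Pool.Agent.Lib.MP_f225de_an.RE19

set_option autoImplicit false

namespace Pool.Agent.Lib.MP_f225de_an.Nu

open Tb

theorem c19_37 : CovA (ev19 gr19_0) (nat_lit 21602163598441181184) (nat_lit 22708968242863755264) :=
  runA_ok (N := nat_lit 47) (j0 := nat_lit 21) (j1 := nat_lit 21)
    (ch := nat_lit 79228162533776377340156765171) (p1 := nat_lit 79228162525999533748063484361)
    (p2 := nat_lit 79228162514264337593543950336) (ul := true) (lf := false) (by decide +kernel)

theorem c19_38 : CovA (ev19 gr19_0) (nat_lit 22708968242863755264) (nat_lit 23815772887286329344) :=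
  runA_ok (N := nat_lit 47) (j0 := nat_lit 21) (j1 := nat_lit 21)
    (ch := nat_lit 79228162532739345632421012938) (p1 := nat_lit 79228162514264337593543950336)
    (p2 := nat_lit 79228162529430226940436789414) (ul := true) (lf := false) (by decide +kernel)

theorem c19_39 : CovA (ev19 gr19_0) (nat_lit 23815772887286329344) (nat_lit 24922577531708903424) :=
  runA_ok (N := nat_lit 47) (j0 := nat_lit 21) (j1 := nat_lit 21)
    (ch := nat_lit 79228162532385593592689382058) (p1 := nat_lit 79228162514264337593543950336)
    (p2 := nat_lit 79228162530161113174021986478) (ul := true) (lf := false) (by decide +kernel)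

theorem c19_40 : CovA (ev19 gr19_0) (nat_lit 24922577531708903424) (nat_lit 26029382176131477504) :=
  runA_ok (N := nat_lit 47) (j0 := nat_lit 22) (j1 := nat_lit 22)
    (ch := nat_lit 79228162532021211822163486942) (p1 := nat_lit 79228162514264337593543950336)
    (p2 := nat_lit 79228162530930467104111667598) (ul := true) (lf := false) (by decide +kernel)

theorem c19_41 : CovA (ev19 gr19_0) (nat_lit 26029382176131477504) (nat_lit 27136186820554051584) :=
  runA_ok (N := nat_lit 47) (j0 := nat_lit 22) (j1 := nat_lit 22)
    (ch := nat_lit 79228162531643540311710264183) (p1 := nat_lit 79228162514264337593543950336)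
    (p2 := nat_lit 79228162531545950248183412494) (ul := true) (lf := false) (by decide +kernel)

theorem c19_42 : CovA (ev19 gr19_0) (nat_lit 27136186820554051584) (nat_lit 28242991464976625664) :=
  runA_ok (N := nat_lit 47) (j0 := nat_lit 23) (j1 := nat_lit 23)
    (ch := nat_lit 79228162531347777926709341265) (p1 := nat_lit 79228162514264337593543950336)
    (p2 := nat_lit 79228162531738288730705832774) (ul := true) (lf := false) (by decide +kernel)

theorem c19_43 : CovA (ev19 gr19_0) (nat_lit 28242991464976625664) (nat_lit 28976077832308491370) :=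
  runA_ok (N := nat_lit 47) (j0 := nat_lit 23) (j1 := nat_lit 23)
    (ch := nat_lit 79228162530173569804882969259) (p1 := nat_lit 79228162514264337593543950336)
    (p2 := nat_lit 79228162531738288730705832774) (ul := true) (lf := false) (by decide +kernel)

theorem c19_44 : CovB (ev19 gr19_0) (nat_lit 0) (nat_lit 1660206966633859584) :=
  runB_ok (N := nat_lit 47) (j0 := nat_lit 24) (ch := nat_lit 79228162526963273906957665674)
    (by decide +kernel)

theorem c19_45 : CovB (ev19 gr19_0) (nat_lit 1660206966633859584) (nat_lit 3320413933267719168) :=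
  runB_ok (N := nat_lit 47) (j0 := nat_lit 24) (ch := nat_lit 79228162527037130214194587335)
    (by decide +kernel)

theorem c19_46 : CovB (ev19 gr19_0) (nat_lit 3320413933267719168) (nat_lit 4980620899901578752) :=
  runB_ok (N := nat_lit 47) (j0 := nat_lit 24) (ch := nat_lit 79228162527049884365317880057)
    (by decide +kernel)

theorem c19_47 : CovB (ev19 gr19_0) (nat_lit 4980620899901578752) (nat_lit 6640827866535438336) :=
  runB_ok (N := nat_lit 47) (j0 := nat_lit 24) (ch := nat_lit 79228162527058336024013763139)
    (by decide +kernel)

theorem c19_48 : CovB (ev19 gr19_0) (nat_lit 6640827866535438336) (nat_lit 8301034833169297920) :=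
  runB_ok (N := nat_lit 47) (j0 := nat_lit 24) (ch := nat_lit 79228162527068458786442055630)
    (by decide +kernel)

theorem c19_49 : CovB (ev19 gr19_0) (nat_lit 8301034833169297920) (nat_lit 9961241799803157504) :=
  runB_ok (N := nat_lit 47) (j0 := nat_lit 24) (ch := nat_lit 79228162526977266947066902781)
    (by decide +kernel)

theorem c19_50 : CovB (ev19 gr19_0) (nat_lit 9961241799803157504) (nat_lit 11621448766437017088) :=
  runB_ok (N := nat_lit 47) (j0 := nat_lit 24) (ch := nat_lit 79228162526881158917147867947)
    (by decide +kernel)

theorem c19_51 : CovB (ev19 gr19_0) (nat_lit 11621448766437017088) (nat_lit 13281655733070876672) :=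
  runB_ok (N := nat_lit 47) (j0 := nat_lit 24) (ch := nat_lit 79228162526701179100361721353)
    (by decide +kernel)

theorem c19_52 : CovB (ev19 gr19_0) (nat_lit 13281655733070876672) (nat_lit 14941862699704736256) :=
  runB_ok (N := nat_lit 47) (j0 := nat_lit 24) (ch := nat_lit 79228162526529789549287123697)
    (by decide +kernel)

theorem c19_53 : CovB (ev19 gr19_0) (nat_lit 14941862699704736256) (nat_lit 16602069666338595840) :=
  runB_ok (N := nat_lit 47) (j0 := nat_lit 24) (ch := nat_lit 79228162526355086722451410180)
    (by decide +kernel)

theorem c19_54 : CovB (ev19 gr19_0) (nat_lit 16602069666338595840) (nat_lit 18262276632972455424) :=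
  runB_ok (N := nat_lit 47) (j0 := nat_lit 24) (ch := nat_lit 79228162526132839496500399145)
    (by decide +kernel)

theorem c19_55 : CovB (ev19 gr19_0) (nat_lit 18262276632972455424) (nat_lit 19922483599606315008) :=
  runB_ok (N := nat_lit 47) (j0 := nat_lit 24) (ch := nat_lit 79228162525887272347963160474)
    (by decide +kernel)

theorem c19_56 : CovB (ev19 gr19_0) (nat_lit 19922483599606315008) (nat_lit 21582690566240174592) :=
  runB_ok (N := nat_lit 47) (j0 := nat_lit 24) (ch := nat_lit 79228162525674967922216589564)
    (by decide +kernel)

theorem c19_57 : CovB (ev19 gr19_0) (nat_lit 21582690566240174592) (nat_lit 23242897532874034176) :=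
  runB_ok (N := nat_lit 47) (j0 := nat_lit 24) (ch := nat_lit 79228162525393495894749003325)
    (by decide +kernel)

theorem c19_58 : CovB (ev19 gr19_0) (nat_lit 23242897532874034176) (nat_lit 24903104499507893760) :=
  runB_ok (N := nat_lit 47) (j0 := nat_lit 23) (ch := nat_lit 79228162525134468575796298918)
    (by decide +kernel)

theorem c19_59 : CovB (ev19 gr19_0) (nat_lit 24903104499507893760) (nat_lit 26563311466141753344) :=
  runB_ok (N := nat_lit 47) (j0 := nat_lit 23) (ch := nat_lit 79228162524897782358113285312)
    (by decide +kernel)

theorem c19_60 : CovB (ev19 gr19_0) (nat_lit 26563311466141753344) (nat_lit 28223518432775612928) :=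
  runB_ok (N := nat_lit 47) (j0 := nat_lit 23) (ch := nat_lit 79228162524582329964608596745)
    (by decide +kernel)

theorem c19_61 : CovB (ev19 gr19_0) (nat_lit 28223518432775612928) (nat_lit 28976077832308491370) :=
  runB_ok (N := nat_lit 47) (j0 := nat_lit 23) (ch := nat_lit 79228162523887261334432181973)
    (by decide +kernel)

theorem covA19_2 : CovA (ev19 gr19_0) (nat_lit 21602163598441181184) (nat_lit 28976077832308491370) :=
  ((((((c19_37.trans c19_38).trans c19_39).trans c19_40).trans c19_41).trans c19_42).trans c19_43)

theorem covB19_2 : CovB (ev19 gr19_0) (nat_lit 0) (nat_lit 28976077832308491370) :=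
  (((((((((((((((((c19_44.trans c19_45).trans c19_46).trans c19_47).trans c19_48).trans
    c19_49).trans c19_50).trans c19_51).trans c19_52).trans c19_53).trans c19_54).trans
    c19_55).trans c19_56).trans c19_57).trans c19_58).trans c19_59).trans c19_60).trans c19_61)

end Pool.Agent.Lib.MP_f225de_an.Nu
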