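import Pool.Agent.Lib.MP_f225de_an.RE33

set_option autoImplicit false

namespace Pool.Agent.Lib.MP_f225de_an.Nu

open Tb

theorem c33_0 : CovA (ev33 gr33_0) (nat_lit 0) (nat_lit 36893488147419104) :=
  runA_ok (N := nat_lit 52) (j0 := nat_lit 13) (j1 := nat_lit 53)
    (ch := nat_lit 79228162520072338105322724918) (p1 := nat_lit 79228162528657512182518382593)
    (p2 := nat_lit 79228162514264337593543950336) (ul := true) (lf := true) (by decide +kernel)

theorem c33_1 : CovA (ev33 gr33_0) (nat_lit 36893488147419104) (nat_lit 46116860184273880) :=
  runA_ok (N := nat_lit 63) (j0 := nat_lit 13) (j1 := nat_lit 64)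
    (ch := nat_lit 79228162519866161289206067511) (p1 := nat_lit 79228162528657512182518382593)
    (p2 := nat_lit 79228162514264337593543950336) (ul := true) (lf := false) (by decide +kernel)

theorem c33_2 : CovA (ev33 gr33_0) (nat_lit 46116860184273880) (nat_lit 57646075230342352) :=
  runA_ok (N := nat_lit 62) (j0 := nat_lit 13) (j1 := nat_lit 63)
    (ch := nat_lit 79228162519895381451884396533) (p1 := nat_lit 79228162528657512182518382593)
    (p2 := nat_lit 79228162514264337593543950336) (ul := true) (lf := false) (by decide +kernel)

theorem c33_3 : CovA (ev33 gr33_0) (nat_lit 57646075230342352) (nat_lit 72057594037927936) :=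
  runA_ok (N := nat_lit 61) (j0 := nat_lit 13) (j1 := nat_lit 62)
    (ch := nat_lit 79228162519936683107678746493) (p1 := nat_lit 79228162528657512182518382593)
    (p2 := nat_lit 79228162514264337593543950336) (ul := true) (lf := false) (by decide +kernel)

theorem c33_4 : CovA (ev33 gr33_0) (nat_lit 72057594037927936) (nat_lit 90071992547409920) :=
  runA_ok (N := nat_lit 60) (j0 := nat_lit 13) (j1 := nat_lit 61)
    (ch := nat_lit 79228162519951164411414118947) (p1 := nat_lit 79228162528657512182518382593)
    (p2 := nat_lit 79228162514264337593543950336) (ul := true) (lf := false) (by decide +kernel)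

theorem c33_5 : CovA (ev33 gr33_0) (nat_lit 90071992547409920) (nat_lit 112589990684262400) :=
  runA_ok (N := nat_lit 58) (j0 := nat_lit 13) (j1 := nat_lit 59)
    (ch := nat_lit 79228162519993913412330334032) (p1 := nat_lit 79228162528657512182518382593)
    (p2 := nat_lit 79228162514264337593543950336) (ul := true) (lf := false) (by decide +kernel)

theorem c33_6 : CovA (ev33 gr33_0) (nat_lit 112589990684262400) (nat_lit 140737488355328000) :=
  runA_ok (N := nat_lit 57) (j0 := nat_lit 13) (j1 := nat_lit 58)
    (ch := nat_lit 79228162520025371115176794600) (p1 := nat_lit 79228162528657512182518382593)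
    (p2 := nat_lit 79228162514264337593543950336) (ul := true) (lf := false) (by decide +kernel)

theorem c33_7 : CovA (ev33 gr33_0) (nat_lit 140737488355328000) (nat_lit 175921860444160000) :=
  runA_ok (N := nat_lit 56) (j0 := nat_lit 13) (j1 := nat_lit 57)
    (ch := nat_lit 79228162520110317738979793624) (p1 := nat_lit 79228162528657512182518382593)
    (p2 := nat_lit 79228162514264337593543950336) (ul := true) (lf := false) (by decide +kernel)

theorem c33_8 : CovA (ev33 gr33_0) (nat_lit 175921860444160000) (nat_lit 219902325555200000) :=
  runA_ok (N := nat_lit 56) (j0 := nat_lit 13) (j1 := nat_lit 55)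
    (ch := nat_lit 79228162520203019818278825756) (p1 := nat_lit 79228162528657512182518382593)
    (p2 := nat_lit 79228162514264337593543950336) (ul := true) (lf := false) (by decide +kernel)

theorem c33_9 : CovA (ev33 gr33_0) (nat_lit 219902325555200000) (nat_lit 274877906944000000) :=
  runA_ok (N := nat_lit 56) (j0 := nat_lit 13) (j1 := nat_lit 53)
    (ch := nat_lit 79228162520197304384741487859) (p1 := nat_lit 79228162528657512182518382593)
    (p2 := nat_lit 79228162514264337593543950336) (ul := true) (lf := false) (by decide +kernel)

theorem c33_10 : CovA (ev33 gr33_0) (nat_lit 274877906944000000) (nat_lit 343597383680000000) :=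
  runA_ok (N := nat_lit 56) (j0 := nat_lit 13) (j1 := nat_lit 52)
    (ch := nat_lit 79228162520285983900646148945) (p1 := nat_lit 79228162528657512182518382593)
    (p2 := nat_lit 79228162514264337593543950336) (ul := true) (lf := false) (by decide +kernel)

theorem c33_11 : CovA (ev33 gr33_0) (nat_lit 343597383680000000) (nat_lit 429496729600000000) :=
  runA_ok (N := nat_lit 56) (j0 := nat_lit 13) (j1 := nat_lit 51)
    (ch := nat_lit 79228162520363648124233414224) (p1 := nat_lit 79228162528657512182518382593)
    (p2 := nat_lit 79228162514264337593543950336) (ul := true) (lf := false) (by decide +kernel)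

theorem c33_12 : CovA (ev33 gr33_0) (nat_lit 429496729600000000) (nat_lit 536870912000000000) :=
  runA_ok (N := nat_lit 56) (j0 := nat_lit 13) (j1 := nat_lit 50)
    (ch := nat_lit 79228162520509760672500292797) (p1 := nat_lit 79228162528657512182518382593)
    (p2 := nat_lit 79228162514264337593543950336) (ul := true) (lf := false) (by decide +kernel)

theorem c33_13 : CovA (ev33 gr33_0) (nat_lit 536870912000000000) (nat_lit 671088640000000000) :=
  runA_ok (N := nat_lit 56) (j0 := nat_lit 13) (j1 := nat_lit 49)
    (ch := nat_lit 79228162520702525828736482778) (p1 := nat_lit 79228162528657512182518382593)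
    (p2 := nat_lit 79228162514264337593543950336) (ul := true) (lf := false) (by decide +kernel)

theorem c33_14 : CovA (ev33 gr33_0) (nat_lit 671088640000000000) (nat_lit 838860800000000000) :=
  runA_ok (N := nat_lit 56) (j0 := nat_lit 13) (j1 := nat_lit 47)
    (ch := nat_lit 79228162520850078399214122460) (p1 := nat_lit 79228162528657512182518382593)
    (p2 := nat_lit 79228162514264337593543950336) (ul := true) (lf := false) (by decide +kernel)

theorem c33_15 : CovA (ev33 gr33_0) (nat_lit 838860800000000000) (nat_lit 1048576000000000000) :=
  runA_ok (N := nat_lit 56) (j0 := nat_lit 14) (j1 := nat_lit 46)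
    (ch := nat_lit 79228162521140443239068751679) (p1 := nat_lit 79228162528552093423321792512)
    (p2 := nat_lit 79228162514264337593543950336) (ul := true) (lf := false) (by decide +kernel)

theorem covA33_0 : CovA (ev33 gr33_0) (nat_lit 0) (nat_lit 1048576000000000000) :=
  (((((((((((((((c33_0.trans c33_1).trans c33_2).trans c33_3).trans c33_4).trans c33_5).trans
    c33_6).trans c33_7).trans c33_8).trans c33_9).trans c33_10).trans c33_11).trans c33_12).trans
    c33_13).trans c33_14).trans c33_15)

end Pool.Agent.Lib.MP_f225de_an.Nu
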