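import Pool.Agent.Lib.MP_f225de_an.RE33

set_option autoImplicit false

namespace Pool.Agent.Lib.MP_f225de_an.Nu

open Tb

theorem c33_16 : CovA (ev33 gr33_0) (nat_lit 1048576000000000000) (nat_lit 1310720000000000000) :=
  runA_ok (N := nat_lit 56) (j0 := nat_lit 14) (j1 := nat_lit 44)
    (ch := nat_lit 79228162521530342069217581318) (p1 := nat_lit 79228162528383423408607248384)
    (p2 := nat_lit 79228162514264337593543950336) (ul := true) (lf := false) (by decide +kernel)

theorem c33_17 : CovA (ev33 gr33_0) (nat_lit 1310720000000000000) (nat_lit 1638400000000000000) :=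
  runA_ok (N := nat_lit 56) (j0 := nat_lit 14) (j1 := nat_lit 43)
    (ch := nat_lit 79228162522002738180001000941) (p1 := nat_lit 79228162528242865063011794944)
    (p2 := nat_lit 79228162514264337593543950336) (ul := true) (lf := false) (by decide +kernel)

theorem c33_18 : CovA (ev33 gr33_0) (nat_lit 1638400000000000000) (nat_lit 2048000000000000000) :=
  runA_ok (N := nat_lit 56) (j0 := nat_lit 14) (j1 := nat_lit 41)
    (ch := nat_lit 79228162522560349325982265026) (p1 := nat_lit 79228162528130418386535432192)
    (p2 := nat_lit 79228162514264337593543950336) (ul := true) (lf := false) (by decide +kernel)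

theorem c33_19 : CovA (ev33 gr33_0) (nat_lit 2048000000000000000) (nat_lit 2560000000000000000) :=
  runA_ok (N := nat_lit 56) (j0 := nat_lit 14) (j1 := nat_lit 40)
    (ch := nat_lit 79228162523320993645681098884) (p1 := nat_lit 79228162528017971710059069440)
    (p2 := nat_lit 79228162514264337593543950336) (ul := true) (lf := false) (by decide +kernel)

theorem c33_20 : CovA (ev33 gr33_0) (nat_lit 2560000000000000000) (nat_lit 3200000000000000000) :=
  runA_ok (N := nat_lit 56) (j0 := nat_lit 15) (j1 := nat_lit 38)
    (ch := nat_lit 79228162524219748622555292946) (p1 := nat_lit 79228162527905525033582706688)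
    (p2 := nat_lit 79228162514264337593543950336) (ul := true) (lf := false) (by decide +kernel)

theorem c33_21 : CovA (ev33 gr33_0) (nat_lit 3200000000000000000) (nat_lit 4000000000000000000) :=
  runA_ok (N := nat_lit 56) (j0 := nat_lit 15) (j1 := nat_lit 36)
    (ch := nat_lit 79228162525643672863227576053) (p1 := nat_lit 79228162527821190026225434624)
    (p2 := nat_lit 79228162514264337593543950336) (ul := true) (lf := false) (by decide +kernel)

theorem c33_22 : CovA (ev33 gr33_0) (nat_lit 4000000000000000000) (nat_lit 4922337203685477376) :=
  runA_ok (N := nat_lit 56) (j0 := nat_lit 16) (j1 := nat_lit 35)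
    (ch := nat_lit 79228162527484966123330759911) (p1 := nat_lit 79228162527764966687987253248)
    (p2 := nat_lit 79228162514264337593543950336) (ul := true) (lf := false) (by decide +kernel)

theorem c33_23 : CovA (ev33 gr33_0) (nat_lit 4922337203685477376) (nat_lit 5844674407370954752) :=
  runA_ok (N := nat_lit 56) (j0 := nat_lit 17) (j1 := nat_lit 33)
    (ch := nat_lit 79228162528353564618018607515) (p1 := nat_lit 79228162527708743349749071872)
    (p2 := nat_lit 79228162514264337593543950336) (ul := true) (lf := false) (by decide +kernel)

theorem c33_24 : CovA (ev33 gr33_0) (nat_lit 5844674407370954752) (nat_lit 6767011611056432128) :=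
  runA_ok (N := nat_lit 56) (j0 := nat_lit 17) (j1 := nat_lit 32)
    (ch := nat_lit 79228162529389651548444345620) (p1 := nat_lit 79228162527680631680629981184)
    (p2 := nat_lit 79228162514264337593543950336) (ul := true) (lf := false) (by decide +kernel)

theorem c33_25 : CovA (ev33 gr33_0) (nat_lit 6767011611056432128) (nat_lit 7689348814741909504) :=
  runA_ok (N := nat_lit 56) (j0 := nat_lit 18) (j1 := nat_lit 31)
    (ch := nat_lit 79228162530496071309651750295) (p1 := nat_lit 79228162527652520011510890496)
    (p2 := nat_lit 79228162514264337593543950336) (ul := true) (lf := false) (by decide +kernel)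

theorem c33_26 : CovA (ev33 gr33_0) (nat_lit 7689348814741909504) (nat_lit 8611686018427386880) :=
  runA_ok (N := nat_lit 56) (j0 := nat_lit 18) (j1 := nat_lit 30)
    (ch := nat_lit 79228162531354915608676038149) (p1 := nat_lit 79228162527624408342391799808)
    (p2 := nat_lit 79228162514264337593543950336) (ul := true) (lf := false) (by decide +kernel)

theorem c33_27 : CovA (ev33 gr33_0) (nat_lit 8611686018427386880) (nat_lit 9534023222112864256) :=
  runA_ok (N := nat_lit 56) (j0 := nat_lit 19) (j1 := nat_lit 29)
    (ch := nat_lit 79228162532548464060955631011) (p1 := nat_lit 79228162527596296673272709120)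
    (p2 := nat_lit 79228162514264337593543950336) (ul := true) (lf := false) (by decide +kernel)

theorem c33_28 : CovA (ev33 gr33_0) (nat_lit 9534023222112864256) (nat_lit 10456360425798342656) :=
  runA_ok (N := nat_lit 56) (j0 := nat_lit 19) (j1 := nat_lit 27)
    (ch := nat_lit 79228162533358062337205318362) (p1 := nat_lit 79228162527596296673272709120)
    (p2 := nat_lit 79228162514264337593543950336) (ul := true) (lf := false) (by decide +kernel)

theorem c33_29 : CovA (ev33 gr33_0) (nat_lit 10456360425798342656) (nat_lit 11378697629483821056) :=
  runA_ok (N := nat_lit 56) (j0 := nat_lit 20) (j1 := nat_lit 26)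
    (ch := nat_lit 79228162534270940450819035309) (p1 := nat_lit 79228162527568185004153618432)
    (p2 := nat_lit 79228162514264337593543950336) (ul := true) (lf := false) (by decide +kernel)

theorem c33_30 : CovA (ev33 gr33_0) (nat_lit 11378697629483821056) (nat_lit 12301034833169299456) :=
  runA_ok (N := nat_lit 56) (j0 := nat_lit 20) (j1 := nat_lit 25)
    (ch := nat_lit 79228162535042637208665070012) (p1 := nat_lit 79228162527568185004153618432)
    (p2 := nat_lit 79228162514264337593543950336) (ul := true) (lf := false) (by decide +kernel)

theorem covA33_1 : CovA (ev33 gr33_0) (nat_lit 1048576000000000000) (nat_lit 12301034833169299456) :=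
  ((((((((((((((c33_16.trans c33_17).trans c33_18).trans c33_19).trans c33_20).trans c33_21).trans
    c33_22).trans c33_23).trans c33_24).trans c33_25).trans c33_26).trans c33_27).trans
    c33_28).trans c33_29).trans c33_30)

end Pool.Agent.Lib.MP_f225de_an.Nu
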