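import Pool.Agent.Lib.MP_f225de_an.RE33

set_option autoImplicit false

namespace Pool.Agent.Lib.MP_f225de_an.Nu

open Tb

theorem c33_31 : CovA (ev33 gr33_0) (nat_lit 12301034833169299456) (nat_lit 13223372036854777856) :=
  runA_ok (N := nat_lit 56) (j0 := nat_lit 21) (j1 := nat_lit 24)
    (ch := nat_lit 79228162535787003775372474508) (p1 := nat_lit 79228162527568185004153618432)
    (p2 := nat_lit 79228162514264337593543950336) (ul := true) (lf := false) (by decide +kernel)

theorem c33_32 : CovA (ev33 gr33_0) (nat_lit 13223372036854777856) (nat_lit 14145709240540256256) :=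
  runA_ok (N := nat_lit 56) (j0 := nat_lit 21) (j1 := nat_lit 22)
    (ch := nat_lit 79228162535873767230080503002) (p1 := nat_lit 79228162527540073335034527744)
    (p2 := nat_lit 79228162514264337593543950336) (ul := true) (lf := false) (by decide +kernel)

theorem c33_33 : CovA (ev33 gr33_0) (nat_lit 14145709240540256256) (nat_lit 15068046444225734656) :=
  runA_ok (N := nat_lit 56) (j0 := nat_lit 22) (j1 := nat_lit 22)
    (ch := nat_lit 79228162536296018425373856236) (p1 := nat_lit 79228162527540073335034527744)
    (p2 := nat_lit 79228162514264337593543950336) (ul := true) (lf := false) (by decide +kernel)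

theorem c33_34 : CovA (ev33 gr33_0) (nat_lit 15068046444225734656) (nat_lit 15990383647911213056) :=
  runA_ok (N := nat_lit 56) (j0 := nat_lit 22) (j1 := nat_lit 22)
    (ch := nat_lit 79228162536994835483083199577) (p1 := nat_lit 79228162527540073335034527744)
    (p2 := nat_lit 79228162514264337593543950336) (ul := true) (lf := false) (by decide +kernel)

theorem c33_35 : CovA (ev33 gr33_0) (nat_lit 15990383647911213056) (nat_lit 16912720851596691456) :=
  runA_ok (N := nat_lit 56) (j0 := nat_lit 23) (j1 := nat_lit 23)
    (ch := nat_lit 79228162536965996441964616618) (p1 := nat_lit 79228162527540073335034527744)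
    (p2 := nat_lit 79228162514264337593543950336) (ul := true) (lf := false) (by decide +kernel)

theorem c33_36 : CovA (ev33 gr33_0) (nat_lit 16912720851596691456) (nat_lit 17835058055282169856) :=
  runA_ok (N := nat_lit 56) (j0 := nat_lit 23) (j1 := nat_lit 23)
    (ch := nat_lit 79228162537507599260399307993) (p1 := nat_lit 79228162527540073335034527744)
    (p2 := nat_lit 79228162514264337593543950336) (ul := true) (lf := false) (by decide +kernel)

theorem c33_37 : CovA (ev33 gr33_0) (nat_lit 17835058055282169856) (nat_lit 18757395258967646208) :=
  runA_ok (N := nat_lit 56) (j0 := nat_lit 24) (j1 := nat_lit 24)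
    (ch := nat_lit 79228162537845271010734573144) (p1 := nat_lit 79228162527540073335034527744)
    (p2 := nat_lit 79228162514264337593543950336) (ul := true) (lf := false) (by decide +kernel)

theorem c33_38 : CovA (ev33 gr33_0) (nat_lit 18757395258967646208) (nat_lit 19679732462653124608) :=
  runA_ok (N := nat_lit 56) (j0 := nat_lit 24) (j1 := nat_lit 24)
    (ch := nat_lit 79228162538369364974442371643) (p1 := nat_lit 79228162527540073335034527744)
    (p2 := nat_lit 79228162514264337593543950336) (ul := true) (lf := false) (by decide +kernel)

theorem c33_39 : CovA (ev33 gr33_0) (nat_lit 19679732462653124608) (nat_lit 20602069666338603008) :=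
  runA_ok (N := nat_lit 56) (j0 := nat_lit 25) (j1 := nat_lit 25)
    (ch := nat_lit 79228162537835945511999442358) (p1 := nat_lit 79228162527540073335034527744)
    (p2 := nat_lit 79228162514264337593543950336) (ul := true) (lf := false) (by decide +kernel)

theorem c33_40 : CovA (ev33 gr33_0) (nat_lit 20602069666338603008) (nat_lit 21524406870024081408) :=
  runA_ok (N := nat_lit 56) (j0 := nat_lit 25) (j1 := nat_lit 25)
    (ch := nat_lit 79228162537113463763024327043) (p1 := nat_lit 79228162514264337593543950336)
    (p2 := nat_lit 79228162529765589549440821984) (ul := true) (lf := false) (by decide +kernel)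

theorem c33_41 : CovA (ev33 gr33_0) (nat_lit 21524406870024081408) (nat_lit 22446744073709559808) :=
  runA_ok (N := nat_lit 56) (j0 := nat_lit 26) (j1 := nat_lit 26)
    (ch := nat_lit 79228162536503383275582788703) (p1 := nat_lit 79228162527568185004153618432)
    (p2 := nat_lit 79228162514264337593543950336) (ul := true) (lf := false) (by decide +kernel)

theorem c33_42 : CovA (ev33 gr33_0) (nat_lit 22446744073709559808) (nat_lit 23369081277395038208) :=
  runA_ok (N := nat_lit 56) (j0 := nat_lit 26) (j1 := nat_lit 26)
    (ch := nat_lit 79228162535881201041968035999) (p1 := nat_lit 79228162514264337593543950336)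
    (p2 := nat_lit 79228162531130923814348974688) (ul := true) (lf := false) (by decide +kernel)

theorem c33_43 : CovA (ev33 gr33_0) (nat_lit 23369081277395038208) (nat_lit 24291418481080516608) :=
  runA_ok (N := nat_lit 56) (j0 := nat_lit 27) (j1 := nat_lit 27)
    (ch := nat_lit 79228162534804778167059474202) (p1 := nat_lit 79228162514264337593543950336)
    (p2 := nat_lit 79228162531837131192749743328) (ul := true) (lf := false) (by decide +kernel)

theorem c33_44 : CovA (ev33 gr33_0) (nat_lit 24291418481080516608) (nat_lit 25213755684765995008) :=
  runA_ok (N := nat_lit 56) (j0 := nat_lit 27) (j1 := nat_lit 27)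
    (ch := nat_lit 79228162534396608010567022279) (p1 := nat_lit 79228162514264337593543950336)
    (p2 := nat_lit 79228162532496258079257127392) (ul := true) (lf := false) (by decide +kernel)

theorem c33_45 : CovA (ev33 gr33_0) (nat_lit 25213755684765995008) (nat_lit 26136092888451473408) :=
  runA_ok (N := nat_lit 56) (j0 := nat_lit 28) (j1 := nat_lit 28)
    (ch := nat_lit 79228162533993537702986737331) (p1 := nat_lit 79228162514264337593543950336)
    (p2 := nat_lit 79228162533202465457657896032) (ul := true) (lf := false) (by decide +kernel)

theorem c33_46 : CovA (ev33 gr33_0) (nat_lit 26136092888451473408) (nat_lit 27058430092136951808) :=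
  runA_ok (N := nat_lit 56) (j0 := nat_lit 28) (j1 := nat_lit 28)
    (ch := nat_lit 79228162533130241522310451750) (p1 := nat_lit 79228162514264337593543950336)
    (p2 := nat_lit 79228162533908672836058664672) (ul := true) (lf := false) (by decide +kernel)

theorem covA33_2 : CovA (ev33 gr33_0) (nat_lit 12301034833169299456) (nat_lit 27058430092136951808) :=
  (((((((((((((((c33_31.trans c33_32).trans c33_33).trans c33_34).trans c33_35).trans
    c33_36).trans c33_37).trans c33_38).trans c33_39).trans c33_40).trans c33_41).trans
    c33_42).trans c33_43).trans c33_44).trans c33_45).trans c33_46)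

end Pool.Agent.Lib.MP_f225de_an.Nu
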