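import Pool.Agent.Lib.MP_f225de_an.RE33

set_option autoImplicit false

namespace Pool.Agent.Lib.MP_f225de_an.Nu

open Tb

theorem c33_47 : CovA (ev33 gr33_0) (nat_lit 27058430092136951808) (nat_lit 27980767295822430208) :=
  runA_ok (N := nat_lit 56) (j0 := nat_lit 28) (j1 := nat_lit 28)
    (ch := nat_lit 79228162532718881916220917280) (p1 := nat_lit 79228162514264337593543950336)
    (p2 := nat_lit 79228162534614880214459433312) (ul := true) (lf := false) (by decide +kernel)

theorem c33_48 : CovA (ev33 gr33_0) (nat_lit 27980767295822430208) (nat_lit 28903104499507908608) :=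
  runA_ok (N := nat_lit 56) (j0 := nat_lit 29) (j1 := nat_lit 29)
    (ch := nat_lit 79228162532362425963317073562) (p1 := nat_lit 79228162514264337593543950336)
    (p2 := nat_lit 79228162535274007100966817376) (ul := true) (lf := false) (by decide +kernel)

theorem c33_49 : CovA (ev33 gr33_0) (nat_lit 28903104499507908608) (nat_lit 28976077832308491370) :=
  runA_ok (N := nat_lit 56) (j0 := nat_lit 29) (j1 := nat_lit 29)
    (ch := nat_lit 79228162531246953773560248484) (p1 := nat_lit 79228162527680631680629981184)
    (p2 := nat_lit 79228162514264337593543950336) (ul := true) (lf := false) (by decide +kernel)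

theorem c33_50 : CovB (ev33 gr33_0) (nat_lit 0) (nat_lit 1383505805528216576) :=
  runB_ok (N := nat_lit 56) (j0 := nat_lit 30) (ch := nat_lit 79228162528613734024747427603)
    (by decide +kernel)

theorem c33_51 : CovB (ev33 gr33_0) (nat_lit 1383505805528216576) (nat_lit 2767011611056433152) :=
  runB_ok (N := nat_lit 56) (j0 := nat_lit 30) (ch := nat_lit 79228162528646576167902244764)
    (by decide +kernel)

theorem c33_52 : CovB (ev33 gr33_0) (nat_lit 2767011611056433152) (nat_lit 4150517416584649728) :=
  runB_ok (N := nat_lit 56) (j0 := nat_lit 30) (ch := nat_lit 79228162528656648189897763396)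
    (by decide +kernel)

theorem c33_53 : CovB (ev33 gr33_0) (nat_lit 4150517416584649728) (nat_lit 5534023222112866304) :=
  runB_ok (N := nat_lit 56) (j0 := nat_lit 30) (ch := nat_lit 79228162528606241997248816598)
    (by decide +kernel)

theorem c33_54 : CovB (ev33 gr33_0) (nat_lit 5534023222112866304) (nat_lit 6917529027641082880) :=
  runB_ok (N := nat_lit 56) (j0 := nat_lit 30) (ch := nat_lit 79228162528657327715077646737)
    (by decide +kernel)

theorem c33_55 : CovB (ev33 gr33_0) (nat_lit 6917529027641082880) (nat_lit 8301034833169299456) :=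
  runB_ok (N := nat_lit 56) (j0 := nat_lit 30) (ch := nat_lit 79228162528633281642379781731)
    (by decide +kernel)

theorem c33_56 : CovB (ev33 gr33_0) (nat_lit 8301034833169299456) (nat_lit 9684540638697516032) :=
  runB_ok (N := nat_lit 56) (j0 := nat_lit 30) (ch := nat_lit 79228162528497542405820840535)
    (by decide +kernel)

theorem c33_57 : CovB (ev33 gr33_0) (nat_lit 9684540638697516032) (nat_lit 11068046444225732608) :=
  runB_ok (N := nat_lit 56) (j0 := nat_lit 30) (ch := nat_lit 79228162528417150497250143262)
    (by decide +kernel)

theorem c33_58 : CovB (ev33 gr33_0) (nat_lit 11068046444225732608) (nat_lit 12451552249753949184) :=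
  runB_ok (N := nat_lit 56) (j0 := nat_lit 30) (ch := nat_lit 79228162528283832364350043601)
    (by decide +kernel)

theorem c33_59 : CovB (ev33 gr33_0) (nat_lit 12451552249753949184) (nat_lit 13835058055282165760) :=
  runB_ok (N := nat_lit 56) (j0 := nat_lit 30) (ch := nat_lit 79228162528097399921290230523)
    (by decide +kernel)

theorem c33_60 : CovB (ev33 gr33_0) (nat_lit 13835058055282165760) (nat_lit 15218563860810382336) :=
  runB_ok (N := nat_lit 56) (j0 := nat_lit 30) (ch := nat_lit 79228162527937839074861523485)
    (by decide +kernel)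

theorem c33_61 : CovB (ev33 gr33_0) (nat_lit 15218563860810382336) (nat_lit 16602069666338598912) :=
  runB_ok (N := nat_lit 56) (j0 := nat_lit 30) (ch := nat_lit 79228162527771969419448296153)
    (by decide +kernel)

theorem c33_62 : CovB (ev33 gr33_0) (nat_lit 16602069666338598912) (nat_lit 17985575471866815488) :=
  runB_ok (N := nat_lit 56) (j0 := nat_lit 30) (ch := nat_lit 79228162527583743689265470105)
    (by decide +kernel)

theorem c33_63 : CovB (ev33 gr33_0) (nat_lit 17985575471866815488) (nat_lit 19369081277395032064) :=
  runB_ok (N := nat_lit 56) (j0 := nat_lit 30) (ch := nat_lit 79228162527352344518243324334)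
    (by decide +kernel)

theorem c33_64 : CovB (ev33 gr33_0) (nat_lit 19369081277395032064) (nat_lit 20752587082923248640) :=
  runB_ok (N := nat_lit 56) (j0 := nat_lit 30) (ch := nat_lit 79228162527128587534098933684)
    (by decide +kernel)

theorem c33_65 : CovB (ev33 gr33_0) (nat_lit 20752587082923248640) (nat_lit 22136092888451465216) :=
  runB_ok (N := nat_lit 56) (j0 := nat_lit 30) (ch := nat_lit 79228162526933838413508287106)
    (by decide +kernel)

theorem c33_66 : CovB (ev33 gr33_0) (nat_lit 22136092888451465216) (nat_lit 23519598693979681792) :=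
  runB_ok (N := nat_lit 56) (j0 := nat_lit 30) (ch := nat_lit 79228162526677722073522062709)
    (by decide +kernel)

theorem c33_67 : CovB (ev33 gr33_0) (nat_lit 23519598693979681792) (nat_lit 24903104499507898368) :=
  runB_ok (N := nat_lit 56) (j0 := nat_lit 29) (ch := nat_lit 79228162526429808673261163776)
    (by decide +kernel)

theorem c33_68 : CovB (ev33 gr33_0) (nat_lit 24903104499507898368) (nat_lit 26286610305036114944) :=
  runB_ok (N := nat_lit 56) (j0 := nat_lit 29) (ch := nat_lit 79228162526206781326139713326)
    (by decide +kernel)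

theorem c33_69 : CovB (ev33 gr33_0) (nat_lit 26286610305036114944) (nat_lit 27670116110564331520) :=
  runB_ok (N := nat_lit 56) (j0 := nat_lit 29) (ch := nat_lit 79228162525911749557238313640)
    (by decide +kernel)

theorem c33_70 : CovB (ev33 gr33_0) (nat_lit 27670116110564331520) (nat_lit 28976077832308491370) :=
  runB_ok (N := nat_lit 56) (j0 := nat_lit 29) (ch := nat_lit 79228162525640858732656398491)
    (by decide +kernel)

theorem covA33_3 : CovA (ev33 gr33_0) (nat_lit 27058430092136951808) (nat_lit 28976077832308491370) :=
  ((c33_47.trans c33_48).trans c33_49)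

theorem covB33_3 : CovB (ev33 gr33_0) (nat_lit 0) (nat_lit 28976077832308491370) :=
  ((((((((((((((((((((c33_50.trans c33_51).trans c33_52).trans c33_53).trans c33_54).trans
    c33_55).trans c33_56).trans c33_57).trans c33_58).trans c33_59).trans c33_60).trans
    c33_61).trans c33_62).trans c33_63).trans c33_64).trans c33_65).trans c33_66).trans
    c33_67).trans c33_68).trans c33_69).trans c33_70)

end Pool.Agent.Lib.MP_f225de_an.Nu
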