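import Pool.Agent.Lib.MP_f225de_an.RE4

set_option autoImplicit false

namespace Pool.Agent.Lib.MP_f225de_an.Nu

open Tb

theorem c4_0 : CovA (ev4 gr4_0) (nat_lit 0) (nat_lit 36893488147419104) :=
  runA_ok (N := nat_lit 82) (j0 := nat_lit 14) (j1 := nat_lit 83) (ch := nat_lit
    79228162515781847165394219708) (p1 := nat_lit 79228162517487489021564095489) (p2 := nat_lit
    79228162514264337593543950336) (ul := false) (lf := true) (by decide +kernel)

theorem c4_1 : CovA (ev4 gr4_0) (nat_lit 36893488147419104) (nat_lit 46116860184273880) :=
  runA_ok (N := nat_lit 94) (j0 := nat_lit 14) (j1 := nat_lit 95) (ch := nat_lit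
    79228162515651549197866059349) (p1 := nat_lit 79228162517487489021564095489) (p2 := nat_lit
    79228162514264337593543950336) (ul := false) (lf := false) (by decide +kernel)

theorem c4_2 : CovA (ev4 gr4_0) (nat_lit 46116860184273880) (nat_lit 57646075230342352) :=
  runA_ok (N := nat_lit 92) (j0 := nat_lit 14) (j1 := nat_lit 93) (ch := nat_lit
    79228162515646973389055626389) (p1 := nat_lit 79228162517487489021564095489) (p2 := nat_lit
    79228162514264337593543950336) (ul := false) (lf := false) (by decide +kernel)

theorem c4_3 : CovA (ev4 gr4_0) (nat_lit 57646075230342352) (nat_lit 72057594037927936) :=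
  runA_ok (N := nat_lit 91) (j0 := nat_lit 14) (j1 := nat_lit 92) (ch := nat_lit
    79228162515652945229767475115) (p1 := nat_lit 79228162517487489021564095489) (p2 := nat_lit
    79228162514264337593543950336) (ul := false) (lf := false) (by decide +kernel)

theorem c4_4 : CovA (ev4 gr4_0) (nat_lit 72057594037927936) (nat_lit 90071992547409920) :=
  runA_ok (N := nat_lit 90) (j0 := nat_lit 14) (j1 := nat_lit 91) (ch := nat_lit
    79228162515655182183693626941) (p1 := nat_lit 79228162517487489021564095489) (p2 := nat_lit
    79228162514264337593543950336) (ul := false) (lf := false) (by decide +kernel)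

theorem c4_5 : CovA (ev4 gr4_0) (nat_lit 90071992547409920) (nat_lit 112589990684262400) :=
  runA_ok (N := nat_lit 89) (j0 := nat_lit 14) (j1 := nat_lit 90) (ch := nat_lit
    79228162515659138677016295585) (p1 := nat_lit 79228162517487489021564095489) (p2 := nat_lit
    79228162514264337593543950336) (ul := false) (lf := false) (by decide +kernel)

theorem c4_6 : CovA (ev4 gr4_0) (nat_lit 112589990684262400) (nat_lit 140737488355328000) :=
  runA_ok (N := nat_lit 88) (j0 := nat_lit 14) (j1 := nat_lit 89) (ch := nat_lit
    79228162515662177315562562710) (p1 := nat_lit 79228162517487489021564095489) (p2 := nat_lit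
    79228162514264337593543950336) (ul := false) (lf := false) (by decide +kernel)

theorem c4_7 : CovA (ev4 gr4_0) (nat_lit 140737488355328000) (nat_lit 175921860444160000) :=
  runA_ok (N := nat_lit 86) (j0 := nat_lit 14) (j1 := nat_lit 87) (ch := nat_lit
    79228162515662258594573033285) (p1 := nat_lit 79228162517487489021564095489) (p2 := nat_lit
    79228162514264337593543950336) (ul := false) (lf := false) (by decide +kernel)

theorem c4_8 : CovA (ev4 gr4_0) (nat_lit 175921860444160000) (nat_lit 219902325555200000) :=
  runA_ok (N := nat_lit 86) (j0 := nat_lit 14) (j1 := nat_lit 87) (ch := nat_lit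
    79228162515679202591150430107) (p1 := nat_lit 79228162517487489021564095489) (p2 := nat_lit
    79228162514264337593543950336) (ul := false) (lf := false) (by decide +kernel)

theorem c4_9 : CovA (ev4 gr4_0) (nat_lit 219902325555200000) (nat_lit 274877906944000000) :=
  runA_ok (N := nat_lit 86) (j0 := nat_lit 14) (j1 := nat_lit 87) (ch := nat_lit
    79228162515677808053333102371) (p1 := nat_lit 79228162517487489021564095489) (p2 := nat_lit
    79228162514264337593543950336) (ul := false) (lf := false) (by decide +kernel)

theorem covA4_0 : CovA (ev4 gr4_0) (nat_lit 0) (nat_lit 274877906944000000) :=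
  (((((((((c4_0.trans c4_1).trans c4_2).trans c4_3).trans c4_4).trans c4_5).trans c4_6).trans
    c4_7).trans c4_8).trans c4_9)

end Pool.Agent.Lib.MP_f225de_an.Nu
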