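import Pool.Agent.Lib.MP_f225de_an.RE4

set_option autoImplicit false

namespace Pool.Agent.Lib.MP_f225de_an.Nu

open Tb

theorem c4_10 : CovA (ev4 gr4_0) (nat_lit 274877906944000000) (nat_lit 343597383680000000) :=
  runA_ok (N := nat_lit 86) (j0 := nat_lit 14) (j1 := nat_lit 87) (ch := nat_lit
    79228162515695694891239656735) (p1 := nat_lit 79228162517487489021564095489) (p2 := nat_lit
    79228162514264337593543950336) (ul := false) (lf := false) (by decide +kernel)

theorem c4_11 : CovA (ev4 gr4_0) (nat_lit 343597383680000000) (nat_lit 429496729600000000) :=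
  runA_ok (N := nat_lit 86) (j0 := nat_lit 14) (j1 := nat_lit 87) (ch := nat_lit
    79228162515680429728800175343) (p1 := nat_lit 79228162517487489021564095489) (p2 := nat_lit
    79228162514264337593543950336) (ul := false) (lf := false) (by decide +kernel)

theorem c4_12 : CovA (ev4 gr4_0) (nat_lit 429496729600000000) (nat_lit 536870912000000000) :=
  runA_ok (N := nat_lit 86) (j0 := nat_lit 14) (j1 := nat_lit 87) (ch := nat_lit
    79228162515701112057915758800) (p1 := nat_lit 79228162517487489021564095489) (p2 := nat_lit
    79228162514264337593543950336) (ul := false) (lf := false) (by decide +kernel)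

theorem c4_13 : CovA (ev4 gr4_0) (nat_lit 536870912000000000) (nat_lit 671088640000000000) :=
  runA_ok (N := nat_lit 86) (j0 := nat_lit 14) (j1 := nat_lit 87) (ch := nat_lit
    79228162515726048706948079408) (p1 := nat_lit 79228162517487489021564095489) (p2 := nat_lit
    79228162514264337593543950336) (ul := false) (lf := false) (by decide +kernel)

theorem c4_14 : CovA (ev4 gr4_0) (nat_lit 671088640000000000) (nat_lit 838860800000000000) :=
  runA_ok (N := nat_lit 86) (j0 := nat_lit 14) (j1 := nat_lit 87) (ch := nat_lit
    79228162515752310276481147378) (p1 := nat_lit 79228162517426110649643789989) (p2 := nat_lit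
    79228162514264337593543950336) (ul := false) (lf := false) (by decide +kernel)

theorem c4_15 : CovA (ev4 gr4_0) (nat_lit 838860800000000000) (nat_lit 1048576000000000000) :=
  runA_ok (N := nat_lit 86) (j0 := nat_lit 14) (j1 := nat_lit 87) (ch := nat_lit
    79228162515787619414049698374) (p1 := nat_lit 79228162517237254120658234609) (p2 := nat_lit
    79228162514264337593543950336) (ul := false) (lf := false) (by decide +kernel)

theorem c4_16 : CovA (ev4 gr4_0) (nat_lit 1048576000000000000) (nat_lit 1205862400000000000) :=
  runA_ok (N := nat_lit 86) (j0 := nat_lit 14) (j1 := nat_lit 87) (ch := nat_lit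
    79228162515722636633431687115) (p1 := nat_lit 79228162517073578462204086613) (p2 := nat_lit
    79228162514264337593543950336) (ul := false) (lf := false) (by decide +kernel)

theorem c4_17 : CovA (ev4 gr4_0) (nat_lit 1205862400000000000) (nat_lit 1386741760000000000) :=
  runA_ok (N := nat_lit 86) (j0 := nat_lit 14) (j1 := nat_lit 87) (ch := nat_lit
    79228162515737628653416013685) (p1 := nat_lit 79228162516985445415344160769) (p2 := nat_lit
    79228162514264337593543950336) (ul := false) (lf := false) (by decide +kernel)

theorem c4_18 : CovA (ev4 gr4_0) (nat_lit 1386741760000000000) (nat_lit 1594753024000000000) :=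
  runA_ok (N := nat_lit 86) (j0 := nat_lit 14) (j1 := nat_lit 87) (ch := nat_lit
    79228162515783766302549382752) (p1 := nat_lit 79228162516897312368484234925) (p2 := nat_lit
    79228162514264337593543950336) (ul := false) (lf := false) (by decide +kernel)

theorem c4_19 : CovA (ev4 gr4_0) (nat_lit 1594753024000000000) (nat_lit 1833965977599999744) :=
  runA_ok (N := nat_lit 86) (j0 := nat_lit 15) (j1 := nat_lit 87) (ch := nat_lit
    79228162515809044244842105691) (p1 := nat_lit 79228162516821769756890012773) (p2 := nat_lit
    79228162514264337593543950336) (ul := false) (lf := false) (by decide +kernel)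

theorem covA4_1 : CovA (ev4 gr4_0) (nat_lit 274877906944000000) (nat_lit 1833965977599999744) :=
  (((((((((c4_10.trans c4_11).trans c4_12).trans c4_13).trans c4_14).trans c4_15).trans
    c4_16).trans c4_17).trans c4_18).trans c4_19)

end Pool.Agent.Lib.MP_f225de_an.Nu
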