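import Pool.Agent.Lib.MP_f225de_an.RE4

set_option autoImplicit false

namespace Pool.Agent.Lib.MP_f225de_an.Nu

open Tb

theorem c4_20 : CovA (ev4 gr4_0) (nat_lit 1833965977599999744) (nat_lit 2109060874239999488) :=
  runA_ok (N := nat_lit 86) (j0 := nat_lit 15) (j1 := nat_lit 87) (ch := nat_lit
    79228162515843450805152967476) (p1 := nat_lit 79228162516752522362928642467) (p2 := nat_lit
    79228162514264337593543950336) (ul := false) (lf := false) (by decide +kernel)

theorem c4_21 : CovA (ev4 gr4_0) (nat_lit 2109060874239999488) (nat_lit 2425420005375998976) :=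
  runA_ok (N := nat_lit 86) (j0 := nat_lit 15) (j1 := nat_lit 87) (ch := nat_lit
    79228162515923168399245597788) (p1 := nat_lit 79228162516689570186600124007) (p2 := nat_lit
    79228162514264337593543950336) (ul := false) (lf := false) (by decide +kernel)

theorem c4_22 : CovA (ev4 gr4_0) (nat_lit 2425420005375998976) (nat_lit 2789233006182398464) :=
  runA_ok (N := nat_lit 86) (j0 := nat_lit 15) (j1 := nat_lit 87) (ch := nat_lit
    79228162515981219745119332722) (p1 := nat_lit 79228162516632913227904457393) (p2 := nat_lit
    79228162514264337593543950336) (ul := false) (lf := false) (by decide +kernel)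

theorem c4_23 : CovA (ev4 gr4_0) (nat_lit 2789233006182398464) (nat_lit 3207617957109757952) :=
  runA_ok (N := nat_lit 86) (j0 := nat_lit 16) (j1 := nat_lit 87) (ch := nat_lit
    79228162516101915271229391368) (p1 := nat_lit 79228162516582551486841642625) (p2 := nat_lit
    79228162514264337593543950336) (ul := false) (lf := false) (by decide +kernel)

theorem c4_24 : CovA (ev4 gr4_0) (nat_lit 3207617957109757952) (nat_lit 3688760650676221440) :=
  runA_ok (N := nat_lit 86) (j0 := nat_lit 17) (j1 := nat_lit 87) (ch := nat_lit
    79228162516192812717783239946) (p1 := nat_lit 79228162516538484963411679703) (p2 := nat_lit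
    79228162514264337593543950336) (ul := false) (lf := false) (by decide +kernel)

theorem c4_25 : CovA (ev4 gr4_0) (nat_lit 3688760650676221440) (nat_lit 4242074748277654528) :=
  runA_ok (N := nat_lit 86) (j0 := nat_lit 17) (j1 := nat_lit 87) (ch := nat_lit
    79228162516303722437578800475) (p1 := nat_lit 79228162516500713657614568627) (p2 := nat_lit
    79228162514264337593543950336) (ul := false) (lf := false) (by decide +kernel)

theorem c4_26 : CovA (ev4 gr4_0) (nat_lit 4242074748277654528) (nat_lit 4795477070488940544) :=
  runA_ok (N := nat_lit 86) (j0 := nat_lit 18) (j1 := nat_lit 87) (ch := nat_lit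
    79228162516434803086610298486) (p1 := nat_lit 79228162516462942351817457551) (p2 := nat_lit
    79228162514264337593543950336) (ul := false) (lf := false) (by decide +kernel)

theorem c4_27 : CovA (ev4 gr4_0) (nat_lit 4795477070488940544) (nat_lit 5348879392700227584) :=
  runA_ok (N := nat_lit 86) (j0 := nat_lit 19) (j1 := nat_lit 87) (ch := nat_lit
    79228162516494348951722612897) (p1 := nat_lit 79228162516437761481286050167) (p2 := nat_lit
    79228162514264337593543950336) (ul := false) (lf := false) (by decide +kernel)

theorem c4_28 : CovA (ev4 gr4_0) (nat_lit 5348879392700227584) (nat_lit 5902281714911514624) :=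
  runA_ok (N := nat_lit 86) (j0 := nat_lit 19) (j1 := nat_lit 87) (ch := nat_lit
    79228162516616307156815565807) (p1 := nat_lit 79228162516412580610754642783) (p2 := nat_lit
    79228162514264337593543950336) (ul := false) (lf := false) (by decide +kernel)

theorem c4_29 : CovA (ev4 gr4_0) (nat_lit 5902281714911514624) (nat_lit 6455684037122801664) :=
  runA_ok (N := nat_lit 86) (j0 := nat_lit 20) (j1 := nat_lit 87) (ch := nat_lit
    79228162516736900357844730171) (p1 := nat_lit 79228162516393694957856087245) (p2 := nat_lit
    79228162514264337593543950336) (ul := false) (lf := false) (by decide +kernel)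

theorem c4_30 : CovA (ev4 gr4_0) (nat_lit 6455684037122801664) (nat_lit 7009086359334088704) :=
  runA_ok (N := nat_lit 86) (j0 := nat_lit 20) (j1 := nat_lit 87) (ch := nat_lit
    79228162516855585182066923234) (p1 := nat_lit 79228162516381104522590383553) (p2 := nat_lit
    79228162514264337593543950336) (ul := false) (lf := false) (by decide +kernel)

theorem covA4_2 : CovA (ev4 gr4_0) (nat_lit 1833965977599999744) (nat_lit 7009086359334088704) :=
  ((((((((((c4_20.trans c4_21).trans c4_22).trans c4_23).trans c4_24).trans c4_25).trans
    c4_26).trans c4_27).trans c4_28).trans c4_29).trans c4_30)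

end Pool.Agent.Lib.MP_f225de_an.Nu
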