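import Pool.Agent.Lib.MP_f225de_an.RE4

set_option autoImplicit false

namespace Pool.Agent.Lib.MP_f225de_an.Nu

open Tb

theorem c4_31 : CovA (ev4 gr4_0) (nat_lit 7009086359334088704) (nat_lit 7562488681545375744) :=
  runA_ok (N := nat_lit 86) (j0 := nat_lit 21) (j1 := nat_lit 87) (ch := nat_lit
    79228162516985576025690274981) (p1 := nat_lit 79228162516368514087324679861) (p2 := nat_lit
    79228162514264337593543950336) (ul := false) (lf := false) (by decide +kernel)

theorem c4_32 : CovA (ev4 gr4_0) (nat_lit 7562488681545375744) (nat_lit 8115891003756662784) :=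
  runA_ok (N := nat_lit 86) (j0 := nat_lit 22) (j1 := nat_lit 87) (ch := nat_lit
    79228162517137130105829012009) (p1 := nat_lit 79228162516355923652058976169) (p2 := nat_lit
    79228162514264337593543950336) (ul := false) (lf := false) (by decide +kernel)

theorem c4_33 : CovA (ev4 gr4_0) (nat_lit 8115891003756662784) (nat_lit 8669293325967949824) :=
  runA_ok (N := nat_lit 86) (j0 := nat_lit 22) (j1 := nat_lit 87) (ch := nat_lit
    79228162517257064248123796365) (p1 := nat_lit 79228162516349628434426124323) (p2 := nat_lit
    79228162514264337593543950336) (ul := false) (lf := false) (by decide +kernel)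

theorem c4_34 : CovA (ev4 gr4_0) (nat_lit 8669293325967949824) (nat_lit 9222695648179236864) :=
  runA_ok (N := nat_lit 86) (j0 := nat_lit 23) (j1 := nat_lit 87) (ch := nat_lit
    79228162517433827801537231073) (p1 := nat_lit 79228162516343333216793272477) (p2 := nat_lit
    79228162514264337593543950336) (ul := false) (lf := false) (by decide +kernel)

theorem c4_35 : CovA (ev4 gr4_0) (nat_lit 9222695648179236864) (nat_lit 9776097970390523904) :=
  runA_ok (N := nat_lit 86) (j0 := nat_lit 24) (j1 := nat_lit 87) (ch := nat_lit
    79228162517626946414653706238) (p1 := nat_lit 79228162516330742781527568785) (p2 := nat_lit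
    79228162514264337593543950336) (ul := false) (lf := false) (by decide +kernel)

theorem c4_36 : CovA (ev4 gr4_0) (nat_lit 9776097970390523904) (nat_lit 10329500292601810944) :=
  runA_ok (N := nat_lit 86) (j0 := nat_lit 24) (j1 := nat_lit 87) (ch := nat_lit
    79228162517788395339538465055) (p1 := nat_lit 79228162516324447563894716939) (p2 := nat_lit
    79228162514264337593543950336) (ul := false) (lf := false) (by decide +kernel)

theorem c4_37 : CovA (ev4 gr4_0) (nat_lit 10329500292601810944) (nat_lit 10882902614813097984) :=
  runA_ok (N := nat_lit 86) (j0 := nat_lit 25) (j1 := nat_lit 87) (ch := nat_lit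
    79228162517875338772481958579) (p1 := nat_lit 79228162516324447563894716939) (p2 := nat_lit
    79228162514264337593543950336) (ul := false) (lf := false) (by decide +kernel)

theorem c4_38 : CovA (ev4 gr4_0) (nat_lit 10882902614813097984) (nat_lit 11436304937024385024) :=
  runA_ok (N := nat_lit 86) (j0 := nat_lit 26) (j1 := nat_lit 87) (ch := nat_lit
    79228162518022869580438831045) (p1 := nat_lit 79228162516318152346261865093) (p2 := nat_lit
    79228162514264337593543950336) (ul := false) (lf := false) (by decide +kernel)

theorem c4_39 : CovA (ev4 gr4_0) (nat_lit 11436304937024385024) (nat_lit 11989707259235672064) :=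
  runA_ok (N := nat_lit 86) (j0 := nat_lit 26) (j1 := nat_lit 87) (ch := nat_lit
    79228162518160438592549779118) (p1 := nat_lit 79228162516311857128629013247) (p2 := nat_lit
    79228162514264337593543950336) (ul := false) (lf := false) (by decide +kernel)

theorem c4_40 : CovA (ev4 gr4_0) (nat_lit 11989707259235672064) (nat_lit 12543109581446959104) :=
  runA_ok (N := nat_lit 86) (j0 := nat_lit 27) (j1 := nat_lit 87) (ch := nat_lit
    79228162518220550910373333580) (p1 := nat_lit 79228162516305561910996161401) (p2 := nat_lit
    79228162514264337593543950336) (ul := false) (lf := false) (by decide +kernel)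

theorem covA4_3 : CovA (ev4 gr4_0) (nat_lit 7009086359334088704) (nat_lit 12543109581446959104) :=
  (((((((((c4_31.trans c4_32).trans c4_33).trans c4_34).trans c4_35).trans c4_36).trans
    c4_37).trans c4_38).trans c4_39).trans c4_40)

end Pool.Agent.Lib.MP_f225de_an.Nu
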