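import Pool.Agent.Lib.MP_f225de_an.RE4

set_option autoImplicit false

namespace Pool.Agent.Lib.MP_f225de_an.Nu

open Tb

theorem c4_41 : CovA (ev4 gr4_0) (nat_lit 12543109581446959104) (nat_lit 13096511903658246144) :=
  runA_ok (N := nat_lit 86) (j0 := nat_lit 28) (j1 := nat_lit 87) (ch := nat_lit
    79228162518338024758937060777) (p1 := nat_lit 79228162516305561910996161401) (p2 := nat_lit
    79228162514264337593543950336) (ul := false) (lf := false) (by decide +kernel)

theorem c4_42 : CovA (ev4 gr4_0) (nat_lit 13096511903658246144) (nat_lit 13649914225869533184) :=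
  runA_ok (N := nat_lit 86) (j0 := nat_lit 28) (j1 := nat_lit 87) (ch := nat_lit
    79228162518443746534039653358) (p1 := nat_lit 79228162516318152346261865093) (p2 := nat_lit
    79228162514264337593543950336) (ul := false) (lf := false) (by decide +kernel)

theorem c4_43 : CovA (ev4 gr4_0) (nat_lit 13649914225869533184) (nat_lit 14203316548080820224) :=
  runA_ok (N := nat_lit 86) (j0 := nat_lit 29) (j1 := nat_lit 87) (ch := nat_lit
    79228162518482253349332604217) (p1 := nat_lit 79228162516330742781527568785) (p2 := nat_lit
    79228162514264337593543950336) (ul := false) (lf := false) (by decide +kernel)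

theorem c4_44 : CovA (ev4 gr4_0) (nat_lit 14203316548080820224) (nat_lit 14756718870292107264) :=
  runA_ok (N := nat_lit 86) (j0 := nat_lit 29) (j1 := nat_lit 87) (ch := nat_lit
    79228162518578916684984677311) (p1 := nat_lit 79228162516343333216793272477) (p2 := nat_lit
    79228162514264337593543950336) (ul := false) (lf := false) (by decide +kernel)

theorem c4_45 : CovA (ev4 gr4_0) (nat_lit 14756718870292107264) (nat_lit 15310121192503394304) :=
  runA_ok (N := nat_lit 86) (j0 := nat_lit 30) (j1 := nat_lit 87) (ch := nat_lit
    79228162518673176530054565730) (p1 := nat_lit 79228162516355923652058976169) (p2 := nat_lit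
    79228162514264337593543950336) (ul := false) (lf := false) (by decide +kernel)

theorem c4_46 : CovA (ev4 gr4_0) (nat_lit 15310121192503394304) (nat_lit 15863523514714681344) :=
  runA_ok (N := nat_lit 86) (j0 := nat_lit 31) (j1 := nat_lit 87) (ch := nat_lit
    79228162518763154677515204041) (p1 := nat_lit 79228162516368514087324679861) (p2 := nat_lit
    79228162514264337593543950336) (ul := false) (lf := false) (by decide +kernel)

theorem c4_47 : CovA (ev4 gr4_0) (nat_lit 15863523514714681344) (nat_lit 16416925836925968384) :=
  runA_ok (N := nat_lit 86) (j0 := nat_lit 31) (j1 := nat_lit 87) (ch := nat_lit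
    79228162518779431081561014900) (p1 := nat_lit 79228162516381104522590383553) (p2 := nat_lit
    79228162514264337593543950336) (ul := false) (lf := false) (by decide +kernel)

theorem c4_48 : CovA (ev4 gr4_0) (nat_lit 16416925836925968384) (nat_lit 16970328159137255424) :=
  runA_ok (N := nat_lit 86) (j0 := nat_lit 32) (j1 := nat_lit 87) (ch := nat_lit
    79228162518854640512147282767) (p1 := nat_lit 79228162516393694957856087245) (p2 := nat_lit
    79228162514264337593543950336) (ul := false) (lf := false) (by decide +kernel)

theorem c4_49 : CovA (ev4 gr4_0) (nat_lit 16970328159137255424) (nat_lit 17523730481348542464) :=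
  runA_ok (N := nat_lit 86) (j0 := nat_lit 33) (j1 := nat_lit 87) (ch := nat_lit
    79228162518932254843591562127) (p1 := nat_lit 79228162516406285393121790937) (p2 := nat_lit
    79228162514264337593543950336) (ul := false) (lf := false) (by decide +kernel)

theorem c4_50 : CovA (ev4 gr4_0) (nat_lit 17523730481348542464) (nat_lit 18077132803559829504) :=
  runA_ok (N := nat_lit 86) (j0 := nat_lit 33) (j1 := nat_lit 87) (ch := nat_lit
    79228162518937882284536041672) (p1 := nat_lit 79228162516425171046020346475) (p2 := nat_lit
    79228162514264337593543950336) (ul := false) (lf := false) (by decide +kernel)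

theorem covA4_4 : CovA (ev4 gr4_0) (nat_lit 12543109581446959104) (nat_lit 18077132803559829504) :=
  (((((((((c4_41.trans c4_42).trans c4_43).trans c4_44).trans c4_45).trans c4_46).trans
    c4_47).trans c4_48).trans c4_49).trans c4_50)

end Pool.Agent.Lib.MP_f225de_an.Nu
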