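import Pool.Agent.Lib.MP_f225de_an.RE4

set_option autoImplicit false

namespace Pool.Agent.Lib.MP_f225de_an.Nu

open Tb

theorem c4_51 : CovA (ev4 gr4_0) (nat_lit 18077132803559829504) (nat_lit 18630535125771116544) :=
  runA_ok (N := nat_lit 86) (j0 := nat_lit 34) (j1 := nat_lit 87) (ch := nat_lit
    79228162518999006629561718490) (p1 := nat_lit 79228162514264337593543950336) (p2 := nat_lit
    79228162516432414750034022347) (ul := false) (lf := false) (by decide +kernel)

theorem c4_52 : CovA (ev4 gr4_0) (nat_lit 18630535125771116544) (nat_lit 19183937447982403584) :=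
  runA_ok (N := nat_lit 86) (j0 := nat_lit 34) (j1 := nat_lit 87) (ch := nat_lit
    79228162519054240294118809281) (p1 := nat_lit 79228162514264337593543950336) (p2 := nat_lit
    79228162516425145421764147839) (ul := false) (lf := false) (by decide +kernel)

theorem c4_53 : CovA (ev4 gr4_0) (nat_lit 19183937447982403584) (nat_lit 19737339770193690624) :=
  runA_ok (N := nat_lit 86) (j0 := nat_lit 35) (j1 := nat_lit 35) (ch := nat_lit
    79228162519046258113915852639) (p1 := nat_lit 79228162514264337593543950336) (p2 := nat_lit
    79228162516410606765224398823) (ul := true) (lf := false) (by decide +kernel)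

theorem c4_54 : CovA (ev4 gr4_0) (nat_lit 19737339770193690624) (nat_lit 20290742092404977664) :=
  runA_ok (N := nat_lit 86) (j0 := nat_lit 36) (j1 := nat_lit 36) (ch := nat_lit
    79228162519084239057139051294) (p1 := nat_lit 79228162514264337593543950336) (p2 := nat_lit
    79228162516403337436954524315) (ul := true) (lf := false) (by decide +kernel)

theorem c4_55 : CovA (ev4 gr4_0) (nat_lit 20290742092404977664) (nat_lit 20844144414616264704) :=
  runA_ok (N := nat_lit 86) (j0 := nat_lit 36) (j1 := nat_lit 36) (ch := nat_lit
    79228162519113478006883251791) (p1 := nat_lit 79228162514264337593543950336) (p2 := nat_lit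
    79228162516403337436954524315) (ul := true) (lf := false) (by decide +kernel)

theorem c4_56 : CovA (ev4 gr4_0) (nat_lit 20844144414616264704) (nat_lit 21397546736827551744) :=
  runA_ok (N := nat_lit 86) (j0 := nat_lit 37) (j1 := nat_lit 37) (ch := nat_lit
    79228162519140510421134186141) (p1 := nat_lit 79228162514264337593543950336) (p2 := nat_lit
    79228162516396068108684649807) (ul := true) (lf := false) (by decide +kernel)

theorem c4_57 : CovA (ev4 gr4_0) (nat_lit 21397546736827551744) (nat_lit 21950949059038838784) :=
  runA_ok (N := nat_lit 86) (j0 := nat_lit 37) (j1 := nat_lit 37) (ch := nat_lit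
    79228162519113617568302238124) (p1 := nat_lit 79228162514264337593543950336) (p2 := nat_lit
    79228162516388798780414775299) (ul := true) (lf := false) (by decide +kernel)

theorem c4_58 : CovA (ev4 gr4_0) (nat_lit 21950949059038838784) (nat_lit 22504351381250125824) :=
  runA_ok (N := nat_lit 86) (j0 := nat_lit 38) (j1 := nat_lit 38) (ch := nat_lit
    79228162519138809136808989969) (p1 := nat_lit 79228162514264337593543950336) (p2 := nat_lit
    79228162516388798780414775299) (ul := true) (lf := false) (by decide +kernel)

theorem c4_59 : CovA (ev4 gr4_0) (nat_lit 22504351381250125824) (nat_lit 23057753703461412864) :=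
  runA_ok (N := nat_lit 86) (j0 := nat_lit 38) (j1 := nat_lit 38) (ch := nat_lit
    79228162519155146972225820679) (p1 := nat_lit 79228162514264337593543950336) (p2 := nat_lit
    79228162516381529452144900791) (ul := true) (lf := false) (by decide +kernel)

theorem c4_60 : CovA (ev4 gr4_0) (nat_lit 23057753703461412864) (nat_lit 23611156025672699904) :=
  runA_ok (N := nat_lit 86) (j0 := nat_lit 39) (j1 := nat_lit 39) (ch := nat_lit
    79228162519115665406182161203) (p1 := nat_lit 79228162514264337593543950336) (p2 := nat_lit
    79228162516381529452144900791) (ul := true) (lf := false) (by decide +kernel)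

theorem c4_61 : CovA (ev4 gr4_0) (nat_lit 23611156025672699904) (nat_lit 24164558347883986944) :=
  runA_ok (N := nat_lit 86) (j0 := nat_lit 40) (j1 := nat_lit 40) (ch := nat_lit
    79228162519126860447372091480) (p1 := nat_lit 79228162514264337593543950336) (p2 := nat_lit
    79228162516381529452144900791) (ul := true) (lf := false) (by decide +kernel)

theorem covA4_5 : CovA (ev4 gr4_0) (nat_lit 18077132803559829504) (nat_lit 24164558347883986944) :=
  ((((((((((c4_51.trans c4_52).trans c4_53).trans c4_54).trans c4_55).trans c4_56).trans
    c4_57).trans c4_58).trans c4_59).trans c4_60).trans c4_61)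

end Pool.Agent.Lib.MP_f225de_an.Nu
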