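import Pool.Agent.Lib.MP_f225de_an.RE4

set_option autoImplicit false

namespace Pool.Agent.Lib.MP_f225de_an.Nu

open Tb

theorem c4_62 : CovA (ev4 gr4_0) (nat_lit 24164558347883986944) (nat_lit 24717960670095273984) :=
  runA_ok (N := nat_lit 86) (j0 := nat_lit 40) (j1 := nat_lit 40) (ch := nat_lit
    79228162519131781014577871262) (p1 := nat_lit 79228162514264337593543950336) (p2 := nat_lit
    79228162516374260123875026283) (ul := true) (lf := false) (by decide +kernel)

theorem c4_63 : CovA (ev4 gr4_0) (nat_lit 24717960670095273984) (nat_lit 25271362992306561024) :=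
  runA_ok (N := nat_lit 86) (j0 := nat_lit 41) (j1 := nat_lit 41) (ch := nat_lit
    79228162519087827155583404948) (p1 := nat_lit 79228162514264337593543950336) (p2 := nat_lit
    79228162516374260123875026283) (ul := true) (lf := false) (by decide +kernel)

theorem c4_64 : CovA (ev4 gr4_0) (nat_lit 25271362992306561024) (nat_lit 25824765314517848064) :=
  runA_ok (N := nat_lit 86) (j0 := nat_lit 41) (j1 := nat_lit 41) (ch := nat_lit
    79228162519095925948733272440) (p1 := nat_lit 79228162514264337593543950336) (p2 := nat_lit
    79228162516366990795605151775) (ul := true) (lf := false) (by decide +kernel)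

theorem c4_65 : CovA (ev4 gr4_0) (nat_lit 25824765314517848064) (nat_lit 26378167636729135104) :=
  runA_ok (N := nat_lit 86) (j0 := nat_lit 42) (j1 := nat_lit 42) (ch := nat_lit
    79228162519099151588877486096) (p1 := nat_lit 79228162514264337593543950336) (p2 := nat_lit
    79228162516366990795605151775) (ul := true) (lf := false) (by decide +kernel)

theorem c4_66 : CovA (ev4 gr4_0) (nat_lit 26378167636729135104) (nat_lit 26931569958940422144) :=
  runA_ok (N := nat_lit 86) (j0 := nat_lit 42) (j1 := nat_lit 42) (ch := nat_lit
    79228162519106397822217449422) (p1 := nat_lit 79228162514264337593543950336) (p2 := nat_lit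
    79228162516366990795605151775) (ul := true) (lf := false) (by decide +kernel)

theorem c4_67 : CovA (ev4 gr4_0) (nat_lit 26931569958940422144) (nat_lit 27484972281151709184) :=
  runA_ok (N := nat_lit 86) (j0 := nat_lit 43) (j1 := nat_lit 43) (ch := nat_lit
    79228162519047714134931983840) (p1 := nat_lit 79228162514264337593543950336) (p2 := nat_lit
    79228162516359721467335277267) (ul := true) (lf := false) (by decide +kernel)

theorem c4_68 : CovA (ev4 gr4_0) (nat_lit 27484972281151709184) (nat_lit 28038374603362996224) :=
  runA_ok (N := nat_lit 86) (j0 := nat_lit 43) (j1 := nat_lit 43) (ch := nat_lit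
    79228162519036960161978695728) (p1 := nat_lit 79228162514264337593543950336) (p2 := nat_lit
    79228162516359721467335277267) (ul := true) (lf := false) (by decide +kernel)

theorem c4_69 : CovA (ev4 gr4_0) (nat_lit 28038374603362996224) (nat_lit 28591776925574283264) :=
  runA_ok (N := nat_lit 86) (j0 := nat_lit 44) (j1 := nat_lit 44) (ch := nat_lit
    79228162519034487227460726274) (p1 := nat_lit 79228162514264337593543950336) (p2 := nat_lit
    79228162516359721467335277267) (ul := true) (lf := false) (by decide +kernel)

theorem c4_70 : CovA (ev4 gr4_0) (nat_lit 28591776925574283264) (nat_lit 28976077832308491370) :=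
  runA_ok (N := nat_lit 86) (j0 := nat_lit 44) (j1 := nat_lit 44) (ch := nat_lit
    79228162518920653094837014181) (p1 := nat_lit 79228162514264337593543950336) (p2 := nat_lit
    79228162516366990795605151775) (ul := true) (lf := false) (by decide +kernel)

theorem c4_71 : CovB (ev4 gr4_0) (nat_lit 0) (nat_lit 830103483316929792) :=
  runB_ok (N := nat_lit 86) (j0 := nat_lit 46) (ch := nat_lit 79228162517482569404232488916) (by
    decide +kernel)

theorem c4_72 : CovB (ev4 gr4_0) (nat_lit 830103483316929792) (nat_lit 1660206966633859584) :=
  runB_ok (N := nat_lit 86) (j0 := nat_lit 46) (ch := nat_lit 79228162517486733980256807895) (by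
    decide +kernel)

theorem covA4_6 : CovA (ev4 gr4_0) (nat_lit 24164558347883986944) (nat_lit 28976077832308491370) :=
  ((((((((c4_62.trans c4_63).trans c4_64).trans c4_65).trans c4_66).trans c4_67).trans
    c4_68).trans c4_69).trans c4_70)

theorem covB4_6 : CovB (ev4 gr4_0) (nat_lit 0) (nat_lit 1660206966633859584) :=
  (c4_71.trans c4_72)

end Pool.Agent.Lib.MP_f225de_an.Nu
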