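import Pool.Agent.Lib.MP_f225de_an.RE4

set_option autoImplicit false

namespace Pool.Agent.Lib.MP_f225de_an.Nu

open Tb

theorem c4_73 : CovB (ev4 gr4_0) (nat_lit 1660206966633859584) (nat_lit 2490310449950789376) :=
  runB_ok (N := nat_lit 86) (j0 := nat_lit 46) (ch := nat_lit 79228162517487304554123358043) (by
    decide +kernel)

theorem c4_74 : CovB (ev4 gr4_0) (nat_lit 2490310449950789376) (nat_lit 3320413933267719168) :=
  runB_ok (N := nat_lit 86) (j0 := nat_lit 46) (ch := nat_lit 79228162517484901872092663101) (by
    decide +kernel)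

theorem c4_75 : CovB (ev4 gr4_0) (nat_lit 3320413933267719168) (nat_lit 4150517416584648960) :=
  runB_ok (N := nat_lit 86) (j0 := nat_lit 46) (ch := nat_lit 79228162517476945051491104391) (by
    decide +kernel)

theorem c4_76 : CovB (ev4 gr4_0) (nat_lit 4150517416584648960) (nat_lit 4980620899901578752) :=
  runB_ok (N := nat_lit 86) (j0 := nat_lit 46) (ch := nat_lit 79228162517468959170959028869) (by
    decide +kernel)

theorem c4_77 : CovB (ev4 gr4_0) (nat_lit 4980620899901578752) (nat_lit 5810724383218508544) :=
  runB_ok (N := nat_lit 86) (j0 := nat_lit 46) (ch := nat_lit 79228162517460665401161890037) (by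
    decide +kernel)

theorem c4_78 : CovB (ev4 gr4_0) (nat_lit 5810724383218508544) (nat_lit 6640827866535438336) :=
  runB_ok (N := nat_lit 86) (j0 := nat_lit 46) (ch := nat_lit 79228162517463259984209392442) (by
    decide +kernel)

theorem c4_79 : CovB (ev4 gr4_0) (nat_lit 6640827866535438336) (nat_lit 7470931349852368128) :=
  runB_ok (N := nat_lit 86) (j0 := nat_lit 46) (ch := nat_lit 79228162517456092885129206012) (by
    decide +kernel)

theorem c4_80 : CovB (ev4 gr4_0) (nat_lit 7470931349852368128) (nat_lit 8301034833169297920) :=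
  runB_ok (N := nat_lit 86) (j0 := nat_lit 46) (ch := nat_lit 79228162517448140654347979289) (by
    decide +kernel)

theorem c4_81 : CovB (ev4 gr4_0) (nat_lit 8301034833169297920) (nat_lit 9131138316486227712) :=
  runB_ok (N := nat_lit 86) (j0 := nat_lit 46) (ch := nat_lit 79228162517435194992396057670) (by
    decide +kernel)

theorem c4_82 : CovB (ev4 gr4_0) (nat_lit 9131138316486227712) (nat_lit 9961241799803157504) :=
  runB_ok (N := nat_lit 86) (j0 := nat_lit 46) (ch := nat_lit 79228162517416871183477581574) (by
    decide +kernel)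

theorem c4_83 : CovB (ev4 gr4_0) (nat_lit 9961241799803157504) (nat_lit 10791345283120087296) :=
  runB_ok (N := nat_lit 86) (j0 := nat_lit 46) (ch := nat_lit 79228162517385854248613669318) (by
    decide +kernel)

theorem c4_84 : CovB (ev4 gr4_0) (nat_lit 10791345283120087296) (nat_lit 11621448766437017088) :=
  runB_ok (N := nat_lit 86) (j0 := nat_lit 46) (ch := nat_lit 79228162517370428438626853424) (by
    decide +kernel)

theorem c4_85 : CovB (ev4 gr4_0) (nat_lit 11621448766437017088) (nat_lit 12451552249753946880) :=
  runB_ok (N := nat_lit 86) (j0 := nat_lit 46) (ch := nat_lit 79228162517347700052750830944) (by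
    decide +kernel)

theorem c4_86 : CovB (ev4 gr4_0) (nat_lit 12451552249753946880) (nat_lit 13281655733070876672) :=
  runB_ok (N := nat_lit 86) (j0 := nat_lit 46) (ch := nat_lit 79228162517321324931755051793) (by
    decide +kernel)

theorem c4_87 : CovB (ev4 gr4_0) (nat_lit 13281655733070876672) (nat_lit 14111759216387806464) :=
  runB_ok (N := nat_lit 86) (j0 := nat_lit 46) (ch := nat_lit 79228162517298779213359864225) (by
    decide +kernel)

theorem c4_88 : CovB (ev4 gr4_0) (nat_lit 14111759216387806464) (nat_lit 14941862699704736256) :=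
  runB_ok (N := nat_lit 86) (j0 := nat_lit 46) (ch := nat_lit 79228162517273082613386636146) (by
    decide +kernel)

theorem covB4_7 : CovB (ev4 gr4_0) (nat_lit 1660206966633859584) (nat_lit 14941862699704736256) :=
  (((((((((((((((c4_73.trans c4_74).trans c4_75).trans c4_76).trans c4_77).trans c4_78).trans
    c4_79).trans c4_80).trans c4_81).trans c4_82).trans c4_83).trans c4_84).trans c4_85).trans
    c4_86).trans c4_87).trans c4_88)

end Pool.Agent.Lib.MP_f225de_an.Nu
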