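import Pool.Agent.Lib.MP_f225de_an.RE4

set_option autoImplicit false

namespace Pool.Agent.Lib.MP_f225de_an.Nu

open Tb

theorem c4_89 : CovB (ev4 gr4_0) (nat_lit 14941862699704736256) (nat_lit 15771966183021666048) :=
  runB_ok (N := nat_lit 86) (j0 := nat_lit 46) (ch := nat_lit 79228162517244005763424209770) (by
    decide +kernel)

theorem c4_90 : CovB (ev4 gr4_0) (nat_lit 15771966183021666048) (nat_lit 16602069666338595840) :=
  runB_ok (N := nat_lit 86) (j0 := nat_lit 45) (ch := nat_lit 79228162517211360593925839343) (by
    decide +kernel)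

theorem c4_91 : CovB (ev4 gr4_0) (nat_lit 16602069666338595840) (nat_lit 17432173149655525632) :=
  runB_ok (N := nat_lit 86) (j0 := nat_lit 45) (ch := nat_lit 79228162517186251101997397375) (by
    decide +kernel)

theorem c4_92 : CovB (ev4 gr4_0) (nat_lit 17432173149655525632) (nat_lit 18262276632972455424) :=
  runB_ok (N := nat_lit 86) (j0 := nat_lit 45) (ch := nat_lit 79228162517147313567633299051) (by
    decide +kernel)

theorem c4_93 : CovB (ev4 gr4_0) (nat_lit 18262276632972455424) (nat_lit 19092380116289385216) :=
  runB_ok (N := nat_lit 86) (j0 := nat_lit 45) (ch := nat_lit 79228162517114998781784404729) (by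
    decide +kernel)

theorem c4_94 : CovB (ev4 gr4_0) (nat_lit 19092380116289385216) (nat_lit 19922483599606315008) :=
  runB_ok (N := nat_lit 86) (j0 := nat_lit 45) (ch := nat_lit 79228162517078927107884707977) (by
    decide +kernel)

theorem c4_95 : CovB (ev4 gr4_0) (nat_lit 19922483599606315008) (nat_lit 20752587082923244800) :=
  runB_ok (N := nat_lit 86) (j0 := nat_lit 45) (ch := nat_lit 79228162517044660770332688462) (by
    decide +kernel)

theorem c4_96 : CovB (ev4 gr4_0) (nat_lit 20752587082923244800) (nat_lit 21582690566240174592) :=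
  runB_ok (N := nat_lit 86) (j0 := nat_lit 45) (ch := nat_lit 79228162517008930543889443330) (by
    decide +kernel)

theorem c4_97 : CovB (ev4 gr4_0) (nat_lit 21582690566240174592) (nat_lit 22412794049557104384) :=
  runB_ok (N := nat_lit 86) (j0 := nat_lit 45) (ch := nat_lit 79228162516965887202296909252) (by
    decide +kernel)

theorem c4_98 : CovB (ev4 gr4_0) (nat_lit 22412794049557104384) (nat_lit 23242897532874034176) :=
  runB_ok (N := nat_lit 86) (j0 := nat_lit 45) (ch := nat_lit 79228162516926097568432083409) (by
    decide +kernel)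

theorem c4_99 : CovB (ev4 gr4_0) (nat_lit 23242897532874034176) (nat_lit 24073001016190963968) :=
  runB_ok (N := nat_lit 86) (j0 := nat_lit 45) (ch := nat_lit 79228162516884438246986793220) (by
    decide +kernel)

theorem c4_100 : CovB (ev4 gr4_0) (nat_lit 24073001016190963968) (nat_lit 24903104499507893760) :=
  runB_ok (N := nat_lit 86) (j0 := nat_lit 45) (ch := nat_lit 79228162516842124010823115044) (by
    decide +kernel)

theorem c4_101 : CovB (ev4 gr4_0) (nat_lit 24903104499507893760) (nat_lit 25733207982824823552) :=
  runB_ok (N := nat_lit 86) (j0 := nat_lit 45) (ch := nat_lit 79228162516801853479119979416) (by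
    decide +kernel)

theorem c4_102 : CovB (ev4 gr4_0) (nat_lit 25733207982824823552) (nat_lit 26563311466141753344) :=
  runB_ok (N := nat_lit 86) (j0 := nat_lit 45) (ch := nat_lit 79228162516757540798324246239) (by
    decide +kernel)

theorem c4_103 : CovB (ev4 gr4_0) (nat_lit 26563311466141753344) (nat_lit 27393414949458683136) :=
  runB_ok (N := nat_lit 86) (j0 := nat_lit 45) (ch := nat_lit 79228162516710456130532590771) (by
    decide +kernel)

theorem c4_104 : CovB (ev4 gr4_0) (nat_lit 27393414949458683136) (nat_lit 28223518432775612928) :=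
  runB_ok (N := nat_lit 86) (j0 := nat_lit 45) (ch := nat_lit 79228162516666495096031700756) (by
    decide +kernel)

theorem c4_105 : CovB (ev4 gr4_0) (nat_lit 28223518432775612928) (nat_lit 28976077832308491370) :=
  runB_ok (N := nat_lit 86) (j0 := nat_lit 45) (ch := nat_lit 79228162516610400259461135057) (by
    decide +kernel)

theorem covB4_8 : CovB (ev4 gr4_0) (nat_lit 14941862699704736256) (nat_lit 28976077832308491370) :=
  ((((((((((((((((c4_89.trans c4_90).trans c4_91).trans c4_92).trans c4_93).trans c4_94).trans
    c4_95).trans c4_96).trans c4_97).trans c4_98).trans c4_99).trans c4_100).trans c4_101).trans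
    c4_102).trans c4_103).trans c4_104).trans c4_105)

end Pool.Agent.Lib.MP_f225de_an.Nu
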