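import Pool.Agent.Lib.MP_f225de_an.RE5

set_option autoImplicit false

namespace Pool.Agent.Lib.MP_f225de_an.Nu

open Tb

theorem c5_0 : CovA (ev5 gr5_0) (nat_lit 0) (nat_lit 36893488147419104) :=
  runA_ok (N := nat_lit 52) (j0 := nat_lit 10) (j1 := nat_lit 53)
    (ch := nat_lit 79228162516530236752507393514) (p1 := nat_lit 79228162519486330653401177089)
    (p2 := nat_lit 79228162514264337593543950336) (ul := false) (lf := true) (by decide +kernel)

theorem c5_1 : CovA (ev5 gr5_0) (nat_lit 36893488147419104) (nat_lit 46116860184273880) :=
  runA_ok (N := nat_lit 63) (j0 := nat_lit 10) (j1 := nat_lit 64)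
    (ch := nat_lit 79228162516373830482557989992) (p1 := nat_lit 79228162519486330653401177089)
    (p2 := nat_lit 79228162514264337593543950336) (ul := false) (lf := false) (by decide +kernel)

theorem c5_2 : CovA (ev5 gr5_0) (nat_lit 46116860184273880) (nat_lit 57646075230342352) :=
  runA_ok (N := nat_lit 62) (j0 := nat_lit 10) (j1 := nat_lit 63)
    (ch := nat_lit 79228162516389217634949650471) (p1 := nat_lit 79228162519486330653401177089)
    (p2 := nat_lit 79228162514264337593543950336) (ul := false) (lf := false) (by decide +kernel)

theorem c5_3 : CovA (ev5 gr5_0) (nat_lit 57646075230342352) (nat_lit 72057594037927936) :=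
  runA_ok (N := nat_lit 61) (j0 := nat_lit 10) (j1 := nat_lit 62)
    (ch := nat_lit 79228162516395641389199346383) (p1 := nat_lit 79228162519486330653401177089)
    (p2 := nat_lit 79228162514264337593543950336) (ul := false) (lf := false) (by decide +kernel)

theorem c5_4 : CovA (ev5 gr5_0) (nat_lit 72057594037927936) (nat_lit 90071992547409920) :=
  runA_ok (N := nat_lit 60) (j0 := nat_lit 10) (j1 := nat_lit 61)
    (ch := nat_lit 79228162516395154429981102132) (p1 := nat_lit 79228162519486330653401177089)
    (p2 := nat_lit 79228162514264337593543950336) (ul := false) (lf := false) (by decide +kernel)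

theorem c5_5 : CovA (ev5 gr5_0) (nat_lit 90071992547409920) (nat_lit 112589990684262400) :=
  runA_ok (N := nat_lit 58) (j0 := nat_lit 10) (j1 := nat_lit 59)
    (ch := nat_lit 79228162516411036802268902776) (p1 := nat_lit 79228162519486330653401177089)
    (p2 := nat_lit 79228162514264337593543950336) (ul := false) (lf := false) (by decide +kernel)

theorem c5_6 : CovA (ev5 gr5_0) (nat_lit 112589990684262400) (nat_lit 140737488355328000) :=
  runA_ok (N := nat_lit 57) (j0 := nat_lit 9) (j1 := nat_lit 58)
    (ch := nat_lit 79228162516404926330865606948) (p1 := nat_lit 79228162519486330653401177089)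
    (p2 := nat_lit 79228162514264337593543950336) (ul := false) (lf := false) (by decide +kernel)

theorem c5_7 : CovA (ev5 gr5_0) (nat_lit 140737488355328000) (nat_lit 175921860444160000) :=
  runA_ok (N := nat_lit 56) (j0 := nat_lit 9) (j1 := nat_lit 57)
    (ch := nat_lit 79228162516436995547232668038) (p1 := nat_lit 79228162519486330653401177089)
    (p2 := nat_lit 79228162514264337593543950336) (ul := false) (lf := false) (by decide +kernel)

theorem c5_8 : CovA (ev5 gr5_0) (nat_lit 175921860444160000) (nat_lit 219902325555200000) :=
  runA_ok (N := nat_lit 56) (j0 := nat_lit 10) (j1 := nat_lit 57)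
    (ch := nat_lit 79228162516470200488454144787) (p1 := nat_lit 79228162519486330653401177089)
    (p2 := nat_lit 79228162514264337593543950336) (ul := false) (lf := false) (by decide +kernel)

theorem c5_9 : CovA (ev5 gr5_0) (nat_lit 219902325555200000) (nat_lit 274877906944000000) :=
  runA_ok (N := nat_lit 56) (j0 := nat_lit 9) (j1 := nat_lit 57)
    (ch := nat_lit 79228162516439833235459926269) (p1 := nat_lit 79228162519486330653401177089)
    (p2 := nat_lit 79228162514264337593543950336) (ul := false) (lf := false) (by decide +kernel)

theorem c5_10 : CovA (ev5 gr5_0) (nat_lit 274877906944000000) (nat_lit 343597383680000000) :=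
  runA_ok (N := nat_lit 56) (j0 := nat_lit 9) (j1 := nat_lit 57)
    (ch := nat_lit 79228162516476584611289724093) (p1 := nat_lit 79228162519486330653401177089)
    (p2 := nat_lit 79228162514264337593543950336) (ul := false) (lf := false) (by decide +kernel)

theorem c5_11 : CovA (ev5 gr5_0) (nat_lit 343597383680000000) (nat_lit 429496729600000000) :=
  runA_ok (N := nat_lit 56) (j0 := nat_lit 9) (j1 := nat_lit 57)
    (ch := nat_lit 79228162516479455338267506867) (p1 := nat_lit 79228162519486330653401177089)
    (p2 := nat_lit 79228162514264337593543950336) (ul := false) (lf := false) (by decide +kernel)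

theorem c5_12 : CovA (ev5 gr5_0) (nat_lit 429496729600000000) (nat_lit 536870912000000000) :=
  runA_ok (N := nat_lit 56) (j0 := nat_lit 9) (j1 := nat_lit 57)
    (ch := nat_lit 79228162516516046918872180353) (p1 := nat_lit 79228162519486330653401177089)
    (p2 := nat_lit 79228162514264337593543950336) (ul := false) (lf := false) (by decide +kernel)

theorem c5_13 : CovA (ev5 gr5_0) (nat_lit 536870912000000000) (nat_lit 671088640000000000) :=
  runA_ok (N := nat_lit 56) (j0 := nat_lit 10) (j1 := nat_lit 57)
    (ch := nat_lit 79228162516567294785785160112) (p1 := nat_lit 79228162519486330653401177089)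
    (p2 := nat_lit 79228162514264337593543950336) (ul := false) (lf := false) (by decide +kernel)

theorem c5_14 : CovA (ev5 gr5_0) (nat_lit 671088640000000000) (nat_lit 838860800000000000) :=
  runA_ok (N := nat_lit 56) (j0 := nat_lit 10) (j1 := nat_lit 57)
    (ch := nat_lit 79228162516585743541498936046) (p1 := nat_lit 79228162519427685223529733623)
    (p2 := nat_lit 79228162514264337593543950336) (ul := false) (lf := false) (by decide +kernel)

theorem c5_15 : CovA (ev5 gr5_0) (nat_lit 838860800000000000) (nat_lit 1048576000000000000) :=
  runA_ok (N := nat_lit 56) (j0 := nat_lit 10) (j1 := nat_lit 57)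
    (ch := nat_lit 79228162516664400423519094201) (p1 := nat_lit 79228162519244099530019127995)
    (p2 := nat_lit 79228162514264337593543950336) (ul := false) (lf := false) (by decide +kernel)

theorem covA5_0 : CovA (ev5 gr5_0) (nat_lit 0) (nat_lit 1048576000000000000) :=
  (((((((((((((((c5_0.trans c5_1).trans c5_2).trans c5_3).trans c5_4).trans c5_5).trans
    c5_6).trans c5_7).trans c5_8).trans c5_9).trans c5_10).trans c5_11).trans c5_12).trans
    c5_13).trans c5_14).trans c5_15)

end Pool.Agent.Lib.MP_f225de_an.Nu
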