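import Pool.Agent.Lib.MP_f225de_an.RE5

set_option autoImplicit false

namespace Pool.Agent.Lib.MP_f225de_an.Nu

open Tb

theorem c5_16 : CovA (ev5 gr5_0) (nat_lit 1048576000000000000) (nat_lit 1310720000000000000) :=
  runA_ok (N := nat_lit 56) (j0 := nat_lit 10) (j1 := nat_lit 57)
    (ch := nat_lit 79228162516764186927288016513) (p1 := nat_lit 79228162519070713041703556013)
    (p2 := nat_lit 79228162514264337593543950336) (ul := false) (lf := false) (by decide +kernel)

theorem c5_17 : CovA (ev5 gr5_0) (nat_lit 1310720000000000000) (nat_lit 1638400000000000000) :=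
  runA_ok (N := nat_lit 56) (j0 := nat_lit 10) (j1 := nat_lit 57)
    (ch := nat_lit 79228162516900771771603975677) (p1 := nat_lit 79228162518927924168973084969)
    (p2 := nat_lit 79228162514264337593543950336) (ul := false) (lf := false) (by decide +kernel)

theorem c5_18 : CovA (ev5 gr5_0) (nat_lit 1638400000000000000) (nat_lit 2048000000000000000) :=
  runA_ok (N := nat_lit 56) (j0 := nat_lit 10) (j1 := nat_lit 57)
    (ch := nat_lit 79228162517033906180963892801) (p1 := nat_lit 79228162518805533706632681217)
    (p2 := nat_lit 79228162514264337593543950336) (ul := false) (lf := false) (by decide +kernel)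

theorem c5_19 : CovA (ev5 gr5_0) (nat_lit 2048000000000000000) (nat_lit 2560000000000000000) :=
  runA_ok (N := nat_lit 56) (j0 := nat_lit 11) (j1 := nat_lit 57)
    (ch := nat_lit 79228162517259239560105282615) (p1 := nat_lit 79228162518703541654682344757)
    (p2 := nat_lit 79228162514264337593543950336) (ul := false) (lf := false) (by decide +kernel)

theorem c5_20 : CovA (ev5 gr5_0) (nat_lit 2560000000000000000) (nat_lit 3200000000000000000) :=
  runA_ok (N := nat_lit 56) (j0 := nat_lit 11) (j1 := nat_lit 57)
    (ch := nat_lit 79228162517497695783701274290) (p1 := nat_lit 79228162518611748807927041943)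
    (p2 := nat_lit 79228162514264337593543950336) (ul := false) (lf := false) (by decide +kernel)

theorem c5_21 : CovA (ev5 gr5_0) (nat_lit 3200000000000000000) (nat_lit 4000000000000000000) :=
  runA_ok (N := nat_lit 56) (j0 := nat_lit 12) (j1 := nat_lit 57)
    (ch := nat_lit 79228162517825189175433379114) (p1 := nat_lit 79228162518540354371561806421)
    (p2 := nat_lit 79228162514264337593543950336) (ul := false) (lf := false) (by decide +kernel)

theorem c5_22 : CovA (ev5 gr5_0) (nat_lit 4000000000000000000) (nat_lit 4922337203685477376) :=
  runA_ok (N := nat_lit 56) (j0 := nat_lit 12) (j1 := nat_lit 57)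
    (ch := nat_lit 79228162518326571118300909829) (p1 := nat_lit 79228162518479159140391604545)
    (p2 := nat_lit 79228162514264337593543950336) (ul := false) (lf := false) (by decide +kernel)

theorem c5_23 : CovA (ev5 gr5_0) (nat_lit 4922337203685477376) (nat_lit 5844674407370954752) :=
  runA_ok (N := nat_lit 56) (j0 := nat_lit 13) (j1 := nat_lit 57)
    (ch := nat_lit 79228162518552301707007478068) (p1 := nat_lit 79228162518438362319611469961)
    (p2 := nat_lit 79228162514264337593543950336) (ul := false) (lf := false) (by decide +kernel)

theorem c5_24 : CovA (ev5 gr5_0) (nat_lit 5844674407370954752) (nat_lit 6767011611056432128) :=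
  runA_ok (N := nat_lit 56) (j0 := nat_lit 13) (j1 := nat_lit 57)
    (ch := nat_lit 79228162518970453425348606013) (p1 := nat_lit 79228162518407764704026369023)
    (p2 := nat_lit 79228162514264337593543950336) (ul := false) (lf := false) (by decide +kernel)

theorem c5_25 : CovA (ev5 gr5_0) (nat_lit 6767011611056432128) (nat_lit 7689348814741909504) :=
  runA_ok (N := nat_lit 56) (j0 := nat_lit 14) (j1 := nat_lit 57)
    (ch := nat_lit 79228162519400601090516303319) (p1 := nat_lit 79228162518377167088441268085)
    (p2 := nat_lit 79228162514264337593543950336) (ul := false) (lf := false) (by decide +kernel)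

theorem c5_26 : CovA (ev5 gr5_0) (nat_lit 7689348814741909504) (nat_lit 8611686018427386880) :=
  runA_ok (N := nat_lit 56) (j0 := nat_lit 15) (j1 := nat_lit 57)
    (ch := nat_lit 79228162519747256083126786284) (p1 := nat_lit 79228162518356768678051200793)
    (p2 := nat_lit 79228162514264337593543950336) (ul := false) (lf := false) (by decide +kernel)

theorem c5_27 : CovA (ev5 gr5_0) (nat_lit 8611686018427386880) (nat_lit 9534023222112864256) :=
  runA_ok (N := nat_lit 56) (j0 := nat_lit 15) (j1 := nat_lit 57)
    (ch := nat_lit 79228162520172706824825065103) (p1 := nat_lit 79228162518346569472856167147)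
    (p2 := nat_lit 79228162514264337593543950336) (ul := false) (lf := false) (by decide +kernel)

theorem c5_28 : CovA (ev5 gr5_0) (nat_lit 9534023222112864256) (nat_lit 10456360425798342656) :=
  runA_ok (N := nat_lit 56) (j0 := nat_lit 16) (j1 := nat_lit 57)
    (ch := nat_lit 79228162520423441007854556327) (p1 := nat_lit 79228162518336370267661133501)
    (p2 := nat_lit 79228162514264337593543950336) (ul := false) (lf := false) (by decide +kernel)

theorem c5_29 : CovA (ev5 gr5_0) (nat_lit 10456360425798342656) (nat_lit 11378697629483821056) :=
  runA_ok (N := nat_lit 56) (j0 := nat_lit 16) (j1 := nat_lit 57)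
    (ch := nat_lit 79228162520743908629698668570) (p1 := nat_lit 79228162518326171062466099855)
    (p2 := nat_lit 79228162514264337593543950336) (ul := false) (lf := false) (by decide +kernel)

theorem c5_30 : CovA (ev5 gr5_0) (nat_lit 11378697629483821056) (nat_lit 12301034833169299456) :=
  runA_ok (N := nat_lit 56) (j0 := nat_lit 17) (j1 := nat_lit 57)
    (ch := nat_lit 79228162521045546553988929471) (p1 := nat_lit 79228162518315971857271066209)
    (p2 := nat_lit 79228162514264337593543950336) (ul := false) (lf := false) (by decide +kernel)

theorem covA5_1 : CovA (ev5 gr5_0) (nat_lit 1048576000000000000) (nat_lit 12301034833169299456) :=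
  ((((((((((((((c5_16.trans c5_17).trans c5_18).trans c5_19).trans c5_20).trans c5_21).trans
    c5_22).trans c5_23).trans c5_24).trans c5_25).trans c5_26).trans c5_27).trans c5_28).trans
    c5_29).trans c5_30)

end Pool.Agent.Lib.MP_f225de_an.Nu
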