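import Pool.Agent.Lib.MP_f225de_an.RE5

set_option autoImplicit false

namespace Pool.Agent.Lib.MP_f225de_an.Nu

open Tb

theorem c5_31 : CovA (ev5 gr5_0) (nat_lit 12301034833169299456) (nat_lit 13223372036854777856) :=
  runA_ok (N := nat_lit 56) (j0 := nat_lit 18) (j1 := nat_lit 57)
    (ch := nat_lit 79228162521288916477975984811) (p1 := nat_lit 79228162518315971857271066209)
    (p2 := nat_lit 79228162514264337593543950336) (ul := false) (lf := false) (by decide +kernel)

theorem c5_32 : CovA (ev5 gr5_0) (nat_lit 13223372036854777856) (nat_lit 14145709240540256256) :=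
  runA_ok (N := nat_lit 56) (j0 := nat_lit 18) (j1 := nat_lit 57)
    (ch := nat_lit 79228162521331336890465630443) (p1 := nat_lit 79228162518305772652076032563)
    (p2 := nat_lit 79228162514264337593543950336) (ul := false) (lf := false) (by decide +kernel)

theorem c5_33 : CovA (ev5 gr5_0) (nat_lit 14145709240540256256) (nat_lit 15068046444225734656) :=
  runA_ok (N := nat_lit 56) (j0 := nat_lit 19) (j1 := nat_lit 21)
    (ch := nat_lit 79228162521527313786148826832) (p1 := nat_lit 79228162518305772652076032563)
    (p2 := nat_lit 79228162514264337593543950336) (ul := true) (lf := false) (by decide +kernel)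

theorem c5_34 : CovA (ev5 gr5_0) (nat_lit 15068046444225734656) (nat_lit 15990383647911213056) :=
  runA_ok (N := nat_lit 56) (j0 := nat_lit 19) (j1 := nat_lit 20)
    (ch := nat_lit 79228162521720482121610447719) (p1 := nat_lit 79228162518295573446880998917)
    (p2 := nat_lit 79228162514264337593543950336) (ul := true) (lf := false) (by decide +kernel)

theorem c5_35 : CovA (ev5 gr5_0) (nat_lit 15990383647911213056) (nat_lit 16912720851596691456) :=
  runA_ok (N := nat_lit 56) (j0 := nat_lit 20) (j1 := nat_lit 20)
    (ch := nat_lit 79228162521720106836402601047) (p1 := nat_lit 79228162518295573446880998917)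
    (p2 := nat_lit 79228162514264337593543950336) (ul := true) (lf := false) (by decide +kernel)

theorem c5_36 : CovA (ev5 gr5_0) (nat_lit 16912720851596691456) (nat_lit 17835058055282169856) :=
  runA_ok (N := nat_lit 56) (j0 := nat_lit 21) (j1 := nat_lit 21)
    (ch := nat_lit 79228162521897264097144703836) (p1 := nat_lit 79228162518295573446880998917)
    (p2 := nat_lit 79228162514264337593543950336) (ul := true) (lf := false) (by decide +kernel)

theorem c5_37 : CovA (ev5 gr5_0) (nat_lit 17835058055282169856) (nat_lit 18757395258967646208) :=
  runA_ok (N := nat_lit 56) (j0 := nat_lit 21) (j1 := nat_lit 21)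
    (ch := nat_lit 79228162521995676463920922952) (p1 := nat_lit 79228162518285374241685965271)
    (p2 := nat_lit 79228162514264337593543950336) (ul := true) (lf := false) (by decide +kernel)

theorem c5_38 : CovA (ev5 gr5_0) (nat_lit 18757395258967646208) (nat_lit 19679732462653124608) :=
  runA_ok (N := nat_lit 56) (j0 := nat_lit 22) (j1 := nat_lit 22)
    (ch := nat_lit 79228162522113110719413473704) (p1 := nat_lit 79228162518285374241685965271)
    (p2 := nat_lit 79228162514264337593543950336) (ul := true) (lf := false) (by decide +kernel)

theorem c5_39 : CovA (ev5 gr5_0) (nat_lit 19679732462653124608) (nat_lit 20602069666338603008) :=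
  runA_ok (N := nat_lit 56) (j0 := nat_lit 22) (j1 := nat_lit 22)
    (ch := nat_lit 79228162522022164970908510130) (p1 := nat_lit 79228162518285374241685965271)
    (p2 := nat_lit 79228162514264337593543950336) (ul := true) (lf := false) (by decide +kernel)

theorem c5_40 : CovA (ev5 gr5_0) (nat_lit 20602069666338603008) (nat_lit 21524406870024081408) :=
  runA_ok (N := nat_lit 56) (j0 := nat_lit 23) (j1 := nat_lit 23)
    (ch := nat_lit 79228162522055719105376115832) (p1 := nat_lit 79228162514264337593543950336)
    (p2 := nat_lit 79228162518797975894170771597) (ul := true) (lf := false) (by decide +kernel)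

theorem c5_41 : CovA (ev5 gr5_0) (nat_lit 21524406870024081408) (nat_lit 22446744073709559808) :=
  runA_ok (N := nat_lit 56) (j0 := nat_lit 23) (j1 := nat_lit 23)
    (ch := nat_lit 79228162522067857865309349049) (p1 := nat_lit 79228162514264337593543950336)
    (p2 := nat_lit 79228162518797975894170771597) (ul := true) (lf := false) (by decide +kernel)

theorem c5_42 : CovA (ev5 gr5_0) (nat_lit 22446744073709559808) (nat_lit 23369081277395038208) :=
  runA_ok (N := nat_lit 56) (j0 := nat_lit 24) (j1 := nat_lit 24)
    (ch := nat_lit 79228162522058176506475517588) (p1 := nat_lit 79228162514264337593543950336)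
    (p2 := nat_lit 79228162518797975894170771597) (ul := true) (lf := false) (by decide +kernel)

theorem c5_43 : CovA (ev5 gr5_0) (nat_lit 23369081277395038208) (nat_lit 24291418481080516608) :=
  runA_ok (N := nat_lit 56) (j0 := nat_lit 24) (j1 := nat_lit 24)
    (ch := nat_lit 79228162521917346575927017688) (p1 := nat_lit 79228162514264337593543950336)
    (p2 := nat_lit 79228162518797975894170771597) (ul := true) (lf := false) (by decide +kernel)

theorem c5_44 : CovA (ev5 gr5_0) (nat_lit 24291418481080516608) (nat_lit 25213755684765995008) :=
  runA_ok (N := nat_lit 56) (j0 := nat_lit 25) (j1 := nat_lit 25)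
    (ch := nat_lit 79228162521923885238705134255) (p1 := nat_lit 79228162514264337593543950336)
    (p2 := nat_lit 79228162518797975894170771597) (ul := true) (lf := false) (by decide +kernel)

theorem c5_45 : CovA (ev5 gr5_0) (nat_lit 25213755684765995008) (nat_lit 26136092888451473408) :=
  runA_ok (N := nat_lit 56) (j0 := nat_lit 25) (j1 := nat_lit 25)
    (ch := nat_lit 79228162521896260212441149729) (p1 := nat_lit 79228162514264337593543950336)
    (p2 := nat_lit 79228162518797975894170771597) (ul := true) (lf := false) (by decide +kernel)

theorem c5_46 : CovA (ev5 gr5_0) (nat_lit 26136092888451473408) (nat_lit 27058430092136951808) :=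
  runA_ok (N := nat_lit 56) (j0 := nat_lit 26) (j1 := nat_lit 26)
    (ch := nat_lit 79228162521759879521666977488) (p1 := nat_lit 79228162514264337593543950336)
    (p2 := nat_lit 79228162518785796879259752601) (ul := true) (lf := false) (by decide +kernel)

theorem covA5_2 : CovA (ev5 gr5_0) (nat_lit 12301034833169299456) (nat_lit 27058430092136951808) :=
  (((((((((((((((c5_31.trans c5_32).trans c5_33).trans c5_34).trans c5_35).trans c5_36).trans
    c5_37).trans c5_38).trans c5_39).trans c5_40).trans c5_41).trans c5_42).trans c5_43).trans
    c5_44).trans c5_45).trans c5_46)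

end Pool.Agent.Lib.MP_f225de_an.Nu
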