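import Pool.Agent.Lib.MP_f225de_an.RE5

set_option autoImplicit false

namespace Pool.Agent.Lib.MP_f225de_an.Nu

open Tb

theorem c5_47 : CovA (ev5 gr5_0) (nat_lit 27058430092136951808) (nat_lit 27980767295822430208) :=
  runA_ok (N := nat_lit 56) (j0 := nat_lit 26) (j1 := nat_lit 26)
    (ch := nat_lit 79228162521706830584727437869) (p1 := nat_lit 79228162514264337593543950336)
    (p2 := nat_lit 79228162518785796879259752601) (ul := true) (lf := false) (by decide +kernel)

theorem c5_48 : CovA (ev5 gr5_0) (nat_lit 27980767295822430208) (nat_lit 28903104499507908608) :=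
  runA_ok (N := nat_lit 56) (j0 := nat_lit 27) (j1 := nat_lit 27)
    (ch := nat_lit 79228162521661388762868388295) (p1 := nat_lit 79228162514264337593543950336)
    (p2 := nat_lit 79228162518785796879259752601) (ul := true) (lf := false) (by decide +kernel)

theorem c5_49 : CovA (ev5 gr5_0) (nat_lit 28903104499507908608) (nat_lit 28976077832308491370) :=
  runA_ok (N := nat_lit 56) (j0 := nat_lit 27) (j1 := nat_lit 27)
    (ch := nat_lit 79228162521264982219755891921) (p1 := nat_lit 79228162514264337593543950336)
    (p2 := nat_lit 79228162518785796879259752601) (ul := true) (lf := false) (by decide +kernel)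

theorem c5_50 : CovB (ev5 gr5_0) (nat_lit 0) (nat_lit 1383505805528216576) :=
  runB_ok (N := nat_lit 56) (j0 := nat_lit 28) (ch := nat_lit 79228162519473012684099085736)
    (by decide +kernel)

theorem c5_51 : CovB (ev5 gr5_0) (nat_lit 1383505805528216576) (nat_lit 2767011611056433152) :=
  runB_ok (N := nat_lit 56) (j0 := nat_lit 28) (ch := nat_lit 79228162519483384483087103242)
    (by decide +kernel)

theorem c5_52 : CovB (ev5 gr5_0) (nat_lit 2767011611056433152) (nat_lit 4150517416584649728) :=
  runB_ok (N := nat_lit 56) (j0 := nat_lit 28) (ch := nat_lit 79228162519486146185960439807)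
    (by decide +kernel)

theorem c5_53 : CovB (ev5 gr5_0) (nat_lit 4150517416584649728) (nat_lit 5534023222112866304) :=
  runB_ok (N := nat_lit 56) (j0 := nat_lit 28) (ch := nat_lit 79228162519463204976703864564)
    (by decide +kernel)

theorem c5_54 : CovB (ev5 gr5_0) (nat_lit 5534023222112866304) (nat_lit 6917529027641082880) :=
  runB_ok (N := nat_lit 56) (j0 := nat_lit 28) (ch := nat_lit 79228162519483403831960321211)
    (by decide +kernel)

theorem c5_55 : CovB (ev5 gr5_0) (nat_lit 6917529027641082880) (nat_lit 8301034833169299456) :=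
  runB_ok (N := nat_lit 56) (j0 := nat_lit 28) (ch := nat_lit 79228162519469892988838863260)
    (by decide +kernel)

theorem c5_56 : CovB (ev5 gr5_0) (nat_lit 8301034833169299456) (nat_lit 9684540638697516032) :=
  runB_ok (N := nat_lit 56) (j0 := nat_lit 28) (ch := nat_lit 79228162519413251679355401274)
    (by decide +kernel)

theorem c5_57 : CovB (ev5 gr5_0) (nat_lit 9684540638697516032) (nat_lit 11068046444225732608) :=
  runB_ok (N := nat_lit 56) (j0 := nat_lit 28) (ch := nat_lit 79228162519377577175277729112)
    (by decide +kernel)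

theorem c5_58 : CovB (ev5 gr5_0) (nat_lit 11068046444225732608) (nat_lit 12451552249753949184) :=
  runB_ok (N := nat_lit 56) (j0 := nat_lit 28) (ch := nat_lit 79228162519321586337786049167)
    (by decide +kernel)

theorem c5_59 : CovB (ev5 gr5_0) (nat_lit 12451552249753949184) (nat_lit 13835058055282165760) :=
  runB_ok (N := nat_lit 56) (j0 := nat_lit 28) (ch := nat_lit 79228162519238691121091810304)
    (by decide +kernel)

theorem c5_60 : CovB (ev5 gr5_0) (nat_lit 13835058055282165760) (nat_lit 15218563860810382336) :=
  runB_ok (N := nat_lit 56) (j0 := nat_lit 28) (ch := nat_lit 79228162519169035183493631396)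
    (by decide +kernel)

theorem c5_61 : CovB (ev5 gr5_0) (nat_lit 15218563860810382336) (nat_lit 16602069666338598912) :=
  runB_ok (N := nat_lit 56) (j0 := nat_lit 28) (ch := nat_lit 79228162519098902265232021265)
    (by decide +kernel)

theorem c5_62 : CovB (ev5 gr5_0) (nat_lit 16602069666338598912) (nat_lit 17985575471866815488) :=
  runB_ok (N := nat_lit 56) (j0 := nat_lit 28) (ch := nat_lit 79228162519015611927540731106)
    (by decide +kernel)

theorem c5_63 : CovB (ev5 gr5_0) (nat_lit 17985575471866815488) (nat_lit 19369081277395032064) :=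
  runB_ok (N := nat_lit 56) (j0 := nat_lit 28) (ch := nat_lit 79228162518911661900353478346)
    (by decide +kernel)

theorem c5_64 : CovB (ev5 gr5_0) (nat_lit 19369081277395032064) (nat_lit 20752587082923248640) :=
  runB_ok (N := nat_lit 56) (j0 := nat_lit 28) (ch := nat_lit 79228162518816724656797946267)
    (by decide +kernel)

theorem c5_65 : CovB (ev5 gr5_0) (nat_lit 20752587082923248640) (nat_lit 22136092888451465216) :=
  runB_ok (N := nat_lit 56) (j0 := nat_lit 28) (ch := nat_lit 79228162518728595185158149616)
    (by decide +kernel)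

theorem c5_66 : CovB (ev5 gr5_0) (nat_lit 22136092888451465216) (nat_lit 23519598693979681792) :=
  runB_ok (N := nat_lit 56) (j0 := nat_lit 27) (ch := nat_lit 79228162518614980405726329724)
    (by decide +kernel)

theorem c5_67 : CovB (ev5 gr5_0) (nat_lit 23519598693979681792) (nat_lit 24903104499507898368) :=
  runB_ok (N := nat_lit 56) (j0 := nat_lit 27) (ch := nat_lit 79228162518503587548488202180)
    (by decide +kernel)

theorem c5_68 : CovB (ev5 gr5_0) (nat_lit 24903104499507898368) (nat_lit 26286610305036114944) :=
  runB_ok (N := nat_lit 56) (j0 := nat_lit 27) (ch := nat_lit 79228162518400632716453015138)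
    (by decide +kernel)

theorem c5_69 : CovB (ev5 gr5_0) (nat_lit 26286610305036114944) (nat_lit 27670116110564331520) :=
  runB_ok (N := nat_lit 56) (j0 := nat_lit 27) (ch := nat_lit 79228162518268240038288673995)
    (by decide +kernel)

theorem c5_70 : CovB (ev5 gr5_0) (nat_lit 27670116110564331520) (nat_lit 28976077832308491370) :=
  runB_ok (N := nat_lit 56) (j0 := nat_lit 27) (ch := nat_lit 79228162518146032894505913895)
    (by decide +kernel)

theorem covA5_3 : CovA (ev5 gr5_0) (nat_lit 27058430092136951808) (nat_lit 28976077832308491370) :=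
  ((c5_47.trans c5_48).trans c5_49)

theorem covB5_3 : CovB (ev5 gr5_0) (nat_lit 0) (nat_lit 28976077832308491370) :=
  ((((((((((((((((((((c5_50.trans c5_51).trans c5_52).trans c5_53).trans c5_54).trans c5_55).trans
    c5_56).trans c5_57).trans c5_58).trans c5_59).trans c5_60).trans c5_61).trans c5_62).trans
    c5_63).trans c5_64).trans c5_65).trans c5_66).trans c5_67).trans c5_68).trans c5_69).trans
    c5_70)

end Pool.Agent.Lib.MP_f225de_an.Nu
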