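import Pool.Agent.Lib.MP_f225de_an.RE6

set_option autoImplicit false

namespace Pool.Agent.Lib.MP_f225de_an.Nu

open Tb

theorem c6_0 : CovA (ev6 gr6_0) (nat_lit 0) (nat_lit 36893488147419104) :=
  runA_ok (N := nat_lit 43) (j0 := nat_lit 9) (j1 := nat_lit 44)
    (ch := nat_lit 79228162517567921630994033350) (p1 := nat_lit 79228162521717442799280491521)
    (p2 := nat_lit 79228162514264337593543950336) (ul := false) (lf := true) (by decide +kernel)

theorem c6_1 : CovA (ev6 gr6_0) (nat_lit 36893488147419104) (nat_lit 46116860184273880) :=
  runA_ok (N := nat_lit 55) (j0 := nat_lit 9) (j1 := nat_lit 56)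
    (ch := nat_lit 79228162517345617553017451663) (p1 := nat_lit 79228162521717442799280491521)
    (p2 := nat_lit 79228162514264337593543950336) (ul := false) (lf := false) (by decide +kernel)

theorem c6_2 : CovA (ev6 gr6_0) (nat_lit 46116860184273880) (nat_lit 57646075230342352) :=
  runA_ok (N := nat_lit 53) (j0 := nat_lit 9) (j1 := nat_lit 54)
    (ch := nat_lit 79228162517360218174146449716) (p1 := nat_lit 79228162521717442799280491521)
    (p2 := nat_lit 79228162514264337593543950336) (ul := false) (lf := false) (by decide +kernel)

theorem c6_3 : CovA (ev6 gr6_0) (nat_lit 57646075230342352) (nat_lit 72057594037927936) :=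
  runA_ok (N := nat_lit 52) (j0 := nat_lit 9) (j1 := nat_lit 53)
    (ch := nat_lit 79228162517386306181646577028) (p1 := nat_lit 79228162521717442799280491521)
    (p2 := nat_lit 79228162514264337593543950336) (ul := false) (lf := false) (by decide +kernel)

theorem c6_4 : CovA (ev6 gr6_0) (nat_lit 72057594037927936) (nat_lit 90071992547409920) :=
  runA_ok (N := nat_lit 51) (j0 := nat_lit 9) (j1 := nat_lit 52)
    (ch := nat_lit 79228162517397801901056098992) (p1 := nat_lit 79228162521717442799280491521)
    (p2 := nat_lit 79228162514264337593543950336) (ul := false) (lf := false) (by decide +kernel)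

theorem c6_5 : CovA (ev6 gr6_0) (nat_lit 90071992547409920) (nat_lit 112589990684262400) :=
  runA_ok (N := nat_lit 50) (j0 := nat_lit 9) (j1 := nat_lit 51)
    (ch := nat_lit 79228162517437868820236712693) (p1 := nat_lit 79228162521717442799280491521)
    (p2 := nat_lit 79228162514264337593543950336) (ul := false) (lf := false) (by decide +kernel)

theorem c6_6 : CovA (ev6 gr6_0) (nat_lit 112589990684262400) (nat_lit 140737488355328000) :=
  runA_ok (N := nat_lit 49) (j0 := nat_lit 9) (j1 := nat_lit 50)
    (ch := nat_lit 79228162517448565101452023796) (p1 := nat_lit 79228162521717442799280491521)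
    (p2 := nat_lit 79228162514264337593543950336) (ul := false) (lf := false) (by decide +kernel)

theorem c6_7 : CovA (ev6 gr6_0) (nat_lit 140737488355328000) (nat_lit 175921860444160000) :=
  runA_ok (N := nat_lit 47) (j0 := nat_lit 9) (j1 := nat_lit 48)
    (ch := nat_lit 79228162517496722013926654628) (p1 := nat_lit 79228162521717442799280491521)
    (p2 := nat_lit 79228162514264337593543950336) (ul := false) (lf := false) (by decide +kernel)

theorem c6_8 : CovA (ev6 gr6_0) (nat_lit 175921860444160000) (nat_lit 219902325555200000) :=
  runA_ok (N := nat_lit 47) (j0 := nat_lit 9) (j1 := nat_lit 48)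
    (ch := nat_lit 79228162517554291403216233069) (p1 := nat_lit 79228162521717442799280491521)
    (p2 := nat_lit 79228162514264337593543950336) (ul := false) (lf := false) (by decide +kernel)

theorem c6_9 : CovA (ev6 gr6_0) (nat_lit 219902325555200000) (nat_lit 274877906944000000) :=
  runA_ok (N := nat_lit 47) (j0 := nat_lit 9) (j1 := nat_lit 48)
    (ch := nat_lit 79228162517554054748826326829) (p1 := nat_lit 79228162521717442799280491521)
    (p2 := nat_lit 79228162514264337593543950336) (ul := false) (lf := false) (by decide +kernel)

theorem c6_10 : CovA (ev6 gr6_0) (nat_lit 274877906944000000) (nat_lit 343597383680000000) :=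
  runA_ok (N := nat_lit 47) (j0 := nat_lit 9) (j1 := nat_lit 48)
    (ch := nat_lit 79228162517614291437493430264) (p1 := nat_lit 79228162521717442799280491521)
    (p2 := nat_lit 79228162514264337593543950336) (ul := false) (lf := false) (by decide +kernel)

theorem c6_11 : CovA (ev6 gr6_0) (nat_lit 343597383680000000) (nat_lit 429496729600000000) :=
  runA_ok (N := nat_lit 47) (j0 := nat_lit 9) (j1 := nat_lit 48)
    (ch := nat_lit 79228162517579539029891730699) (p1 := nat_lit 79228162521717442799280491521)
    (p2 := nat_lit 79228162514264337593543950336) (ul := false) (lf := false) (by decide +kernel)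

theorem c6_12 : CovA (ev6 gr6_0) (nat_lit 429496729600000000) (nat_lit 536870912000000000) :=
  runA_ok (N := nat_lit 47) (j0 := nat_lit 9) (j1 := nat_lit 48)
    (ch := nat_lit 79228162517649096108469572382) (p1 := nat_lit 79228162521717442799280491521)
    (p2 := nat_lit 79228162514264337593543950336) (ul := false) (lf := false) (by decide +kernel)

theorem c6_13 : CovA (ev6 gr6_0) (nat_lit 536870912000000000) (nat_lit 671088640000000000) :=
  runA_ok (N := nat_lit 47) (j0 := nat_lit 9) (j1 := nat_lit 48)
    (ch := nat_lit 79228162517774130282947933677) (p1 := nat_lit 79228162521717442799280491521)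
    (p2 := nat_lit 79228162514264337593543950336) (ul := false) (lf := false) (by decide +kernel)

theorem c6_14 : CovA (ev6 gr6_0) (nat_lit 671088640000000000) (nat_lit 838860800000000000) :=
  runA_ok (N := nat_lit 47) (j0 := nat_lit 9) (j1 := nat_lit 48)
    (ch := nat_lit 79228162517890489353291012620) (p1 := nat_lit 79228162521717442799280491521)
    (p2 := nat_lit 79228162514264337593543950336) (ul := false) (lf := false) (by decide +kernel)

theorem c6_15 : CovA (ev6 gr6_0) (nat_lit 838860800000000000) (nat_lit 1048576000000000000) :=
  runA_ok (N := nat_lit 47) (j0 := nat_lit 9) (j1 := nat_lit 48)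
    (ch := nat_lit 79228162518038360724726921802) (p1 := nat_lit 79228162521619184088072050791)
    (p2 := nat_lit 79228162514264337593543950336) (ul := false) (lf := false) (by decide +kernel)

theorem c6_16 : CovA (ev6 gr6_0) (nat_lit 1048576000000000000) (nat_lit 1363148800000000000) :=
  runA_ok (N := nat_lit 47) (j0 := nat_lit 9) (j1 := nat_lit 48)
    (ch := nat_lit 79228162518341057543061523489) (p1 := nat_lit 79228162521444501934812600607)
    (p2 := nat_lit 79228162514264337593543950336) (ul := false) (lf := false) (by decide +kernel)

theorem c6_17 : CovA (ev6 gr6_0) (nat_lit 1363148800000000000) (nat_lit 1772093440000000000) :=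
  runA_ok (N := nat_lit 47) (j0 := nat_lit 9) (j1 := nat_lit 48)
    (ch := nat_lit 79228162518657049677263114911) (p1 := nat_lit 79228162521284376627658104605)
    (p2 := nat_lit 79228162514264337593543950336) (ul := false) (lf := false) (by decide +kernel)

theorem covA6_0 : CovA (ev6 gr6_0) (nat_lit 0) (nat_lit 1772093440000000000) :=
  (((((((((((((((((c6_0.trans c6_1).trans c6_2).trans c6_3).trans c6_4).trans c6_5).trans
    c6_6).trans c6_7).trans c6_8).trans c6_9).trans c6_10).trans c6_11).trans c6_12).trans
    c6_13).trans c6_14).trans c6_15).trans c6_16).trans c6_17)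

end Pool.Agent.Lib.MP_f225de_an.Nu
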