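import Pool.Agent.Lib.MP_f225de_an.RE6

set_option autoImplicit false

namespace Pool.Agent.Lib.MP_f225de_an.Nu

open Tb

theorem c6_18 : CovA (ev6 gr6_0) (nat_lit 1772093440000000000) (nat_lit 2303721472000000000) :=
  runA_ok (N := nat_lit 47) (j0 := nat_lit 10) (j1 := nat_lit 48)
    (ch := nat_lit 79228162518983683686047149654) (p1 := nat_lit 79228162521138808166608562785)
    (p2 := nat_lit 79228162514264337593543950336) (ul := false) (lf := false) (by decide +kernel)

theorem c6_19 : CovA (ev6 gr6_0) (nat_lit 2303721472000000000) (nat_lit 2994837913600000000) :=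
  runA_ok (N := nat_lit 47) (j0 := nat_lit 10) (j1 := nat_lit 48)
    (ch := nat_lit 79228162519399836689118502491) (p1 := nat_lit 79228162521007796551663975147)
    (p2 := nat_lit 79228162514264337593543950336) (ul := false) (lf := false) (by decide +kernel)

theorem c6_20 : CovA (ev6 gr6_0) (nat_lit 2994837913600000000) (nat_lit 3893289287680000000) :=
  runA_ok (N := nat_lit 47) (j0 := nat_lit 10) (j1 := nat_lit 48)
    (ch := nat_lit 79228162520313778731456733190) (p1 := nat_lit 79228162520920455475034250055)
    (p2 := nat_lit 79228162514264337593543950336) (ul := false) (lf := false) (by decide +kernel)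

theorem c6_21 : CovA (ev6 gr6_0) (nat_lit 3893289287680000000) (nat_lit 5000093932102573056) :=
  runA_ok (N := nat_lit 47) (j0 := nat_lit 11) (j1 := nat_lit 48)
    (ch := nat_lit 79228162521333739894792040578) (p1 := nat_lit 79228162520833114398404524963)
    (p2 := nat_lit 79228162514264337593543950336) (ul := false) (lf := false) (by decide +kernel)

theorem c6_22 : CovA (ev6 gr6_0) (nat_lit 5000093932102573056) (nat_lit 6106898576525146112) :=
  runA_ok (N := nat_lit 47) (j0 := nat_lit 12) (j1 := nat_lit 48)
    (ch := nat_lit 79228162522254745577091696019) (p1 := nat_lit 79228162520774887013984708235)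
    (p2 := nat_lit 79228162514264337593543950336) (ul := false) (lf := false) (by decide +kernel)

theorem c6_23 : CovA (ev6 gr6_0) (nat_lit 6106898576525146112) (nat_lit 7213703220947719168) :=
  runA_ok (N := nat_lit 47) (j0 := nat_lit 12) (j1 := nat_lit 48)
    (ch := nat_lit 79228162522961440101670712637) (p1 := nat_lit 79228162520731216475669845689)
    (p2 := nat_lit 79228162514264337593543950336) (ul := false) (lf := false) (by decide +kernel)

theorem c6_24 : CovA (ev6 gr6_0) (nat_lit 7213703220947719168) (nat_lit 8320507865370292224) :=
  runA_ok (N := nat_lit 47) (j0 := nat_lit 13) (j1 := nat_lit 48)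
    (ch := nat_lit 79228162523610225137749843900) (p1 := nat_lit 79228162520702102783459937325)
    (p2 := nat_lit 79228162514264337593543950336) (ul := false) (lf := false) (by decide +kernel)

theorem c6_25 : CovA (ev6 gr6_0) (nat_lit 8320507865370292224) (nat_lit 9427312509792866304) :=
  runA_ok (N := nat_lit 47) (j0 := nat_lit 13) (j1 := nat_lit 48)
    (ch := nat_lit 79228162523958674830048577625) (p1 := nat_lit 79228162520687545937354983143)
    (p2 := nat_lit 79228162514264337593543950336) (ul := false) (lf := false) (by decide +kernel)

theorem c6_26 : CovA (ev6 gr6_0) (nat_lit 9427312509792866304) (nat_lit 10534117154215440384) :=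
  runA_ok (N := nat_lit 47) (j0 := nat_lit 14) (j1 := nat_lit 22)
    (ch := nat_lit 79228162524830832000656131886) (p1 := nat_lit 79228162520672989091250028961)
    (p2 := nat_lit 79228162514264337593543950336) (ul := true) (lf := false) (by decide +kernel)

theorem c6_27 : CovA (ev6 gr6_0) (nat_lit 10534117154215440384) (nat_lit 11640921798638014464) :=
  runA_ok (N := nat_lit 47) (j0 := nat_lit 14) (j1 := nat_lit 21)
    (ch := nat_lit 79228162525384361634136727749) (p1 := nat_lit 79228162520658432245145074779)
    (p2 := nat_lit 79228162514264337593543950336) (ul := true) (lf := false) (by decide +kernel)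

theorem c6_28 : CovA (ev6 gr6_0) (nat_lit 11640921798638014464) (nat_lit 12747726443060588544) :=
  runA_ok (N := nat_lit 47) (j0 := nat_lit 15) (j1 := nat_lit 20)
    (ch := nat_lit 79228162525979325686584816094) (p1 := nat_lit 79228162520643875399040120597)
    (p2 := nat_lit 79228162514264337593543950336) (ul := true) (lf := false) (by decide +kernel)

theorem c6_29 : CovA (ev6 gr6_0) (nat_lit 12747726443060588544) (nat_lit 13854531087483162624) :=
  runA_ok (N := nat_lit 47) (j0 := nat_lit 15) (j1 := nat_lit 18)
    (ch := nat_lit 79228162526033110961532456951) (p1 := nat_lit 79228162520629318552935166415)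
    (p2 := nat_lit 79228162514264337593543950336) (ul := true) (lf := false) (by decide +kernel)

theorem c6_30 : CovA (ev6 gr6_0) (nat_lit 13854531087483162624) (nat_lit 14961335731905736704) :=
  runA_ok (N := nat_lit 47) (j0 := nat_lit 16) (j1 := nat_lit 17)
    (ch := nat_lit 79228162526393029974848119958) (p1 := nat_lit 79228162520629318552935166415)
    (p2 := nat_lit 79228162514264337593543950336) (ul := true) (lf := false) (by decide +kernel)

theorem c6_31 : CovA (ev6 gr6_0) (nat_lit 14961335731905736704) (nat_lit 16068140376328310784) :=
  runA_ok (N := nat_lit 47) (j0 := nat_lit 17) (j1 := nat_lit 17)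
    (ch := nat_lit 79228162526870300291047444383) (p1 := nat_lit 79228162520629318552935166415)
    (p2 := nat_lit 79228162514264337593543950336) (ul := true) (lf := false) (by decide +kernel)

theorem c6_32 : CovA (ev6 gr6_0) (nat_lit 16068140376328310784) (nat_lit 17174945020750884864) :=
  runA_ok (N := nat_lit 47) (j0 := nat_lit 17) (j1 := nat_lit 17)
    (ch := nat_lit 79228162527162684777717561170) (p1 := nat_lit 79228162520614761706830212233)
    (p2 := nat_lit 79228162514264337593543950336) (ul := true) (lf := false) (by decide +kernel)

theorem c6_33 : CovA (ev6 gr6_0) (nat_lit 17174945020750884864) (nat_lit 18281749665173458944) :=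
  runA_ok (N := nat_lit 47) (j0 := nat_lit 18) (j1 := nat_lit 18)
    (ch := nat_lit 79228162527469976505104588389) (p1 := nat_lit 79228162520614761706830212233)
    (p2 := nat_lit 79228162514264337593543950336) (ul := true) (lf := false) (by decide +kernel)

theorem c6_34 : CovA (ev6 gr6_0) (nat_lit 18281749665173458944) (nat_lit 19388554309596033024) :=
  runA_ok (N := nat_lit 47) (j0 := nat_lit 18) (j1 := nat_lit 18)
    (ch := nat_lit 79228162527502992524906662427) (p1 := nat_lit 79228162520614761706830212233)
    (p2 := nat_lit 79228162514264337593543950336) (ul := true) (lf := false) (by decide +kernel)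

theorem c6_35 : CovA (ev6 gr6_0) (nat_lit 19388554309596033024) (nat_lit 20495358954018607104) :=
  runA_ok (N := nat_lit 47) (j0 := nat_lit 19) (j1 := nat_lit 19)
    (ch := nat_lit 79228162527472061842211959459) (p1 := nat_lit 79228162520614761706830212233)
    (p2 := nat_lit 79228162514264337593543950336) (ul := true) (lf := false) (by decide +kernel)

theorem c6_36 : CovA (ev6 gr6_0) (nat_lit 20495358954018607104) (nat_lit 21602163598441181184) :=
  runA_ok (N := nat_lit 47) (j0 := nat_lit 19) (j1 := nat_lit 19)
    (ch := nat_lit 79228162527256631603109611995) (p1 := nat_lit 79228162520600204860725258051)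
    (p2 := nat_lit 79228162514264337593543950336) (ul := true) (lf := false) (by decide +kernel)

theorem covA6_1 : CovA (ev6 gr6_0) (nat_lit 1772093440000000000) (nat_lit 21602163598441181184) :=
  ((((((((((((((((((c6_18.trans c6_19).trans c6_20).trans c6_21).trans c6_22).trans c6_23).trans
    c6_24).trans c6_25).trans c6_26).trans c6_27).trans c6_28).trans c6_29).trans c6_30).trans
    c6_31).trans c6_32).trans c6_33).trans c6_34).trans c6_35).trans c6_36)

end Pool.Agent.Lib.MP_f225de_an.Nu
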