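import Pool.Agent.Lib.MP_f225de_an.RE6

set_option autoImplicit false

namespace Pool.Agent.Lib.MP_f225de_an.Nu

open Tb

theorem c6_37 : CovA (ev6 gr6_0) (nat_lit 21602163598441181184) (nat_lit 22708968242863755264) :=
  runA_ok (N := nat_lit 47) (j0 := nat_lit 20) (j1 := nat_lit 20)
    (ch := nat_lit 79228162526875802138835220236) (p1 := nat_lit 79228162520600204860725258051)
    (p2 := nat_lit 79228162514264337593543950336) (ul := true) (lf := false) (by decide +kernel)

theorem c6_38 : CovA (ev6 gr6_0) (nat_lit 22708968242863755264) (nat_lit 23815772887286329344) :=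
  runA_ok (N := nat_lit 47) (j0 := nat_lit 20) (j1 := nat_lit 20)
    (ch := nat_lit 79228162526092471253139306392) (p1 := nat_lit 79228162520600204860725258051)
    (p2 := nat_lit 79228162514264337593543950336) (ul := true) (lf := false) (by decide +kernel)

theorem c6_39 : CovA (ev6 gr6_0) (nat_lit 23815772887286329344) (nat_lit 24922577531708903424) :=
  runA_ok (N := nat_lit 47) (j0 := nat_lit 20) (j1 := nat_lit 20)
    (ch := nat_lit 79228162525841640882979332427) (p1 := nat_lit 79228162514264337593543950336)
    (p2 := nat_lit 79228162522842677629148136193) (ul := true) (lf := false) (by decide +kernel)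

theorem c6_40 : CovA (ev6 gr6_0) (nat_lit 24922577531708903424) (nat_lit 26029382176131477504) :=
  runA_ok (N := nat_lit 47) (j0 := nat_lit 21) (j1 := nat_lit 21)
    (ch := nat_lit 79228162525603392150699497792) (p1 := nat_lit 79228162514264337593543950336)
    (p2 := nat_lit 79228162523211638490894552789) (ul := true) (lf := false) (by decide +kernel)

theorem c6_41 : CovA (ev6 gr6_0) (nat_lit 26029382176131477504) (nat_lit 27136186820554051584) :=
  runA_ok (N := nat_lit 47) (j0 := nat_lit 21) (j1 := nat_lit 21)
    (ch := nat_lit 79228162525344242341790545215) (p1 := nat_lit 79228162514264337593543950336)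
    (p2 := nat_lit 79228162523320156391408204729) (ul := true) (lf := false) (by decide +kernel)

theorem c6_42 : CovA (ev6 gr6_0) (nat_lit 27136186820554051584) (nat_lit 28242991464976625664) :=
  runA_ok (N := nat_lit 47) (j0 := nat_lit 22) (j1 := nat_lit 22)
    (ch := nat_lit 79228162525154383159080674799) (p1 := nat_lit 79228162514264337593543950336)
    (p2 := nat_lit 79228162523320156391408204729) (ul := true) (lf := false) (by decide +kernel)

theorem c6_43 : CovA (ev6 gr6_0) (nat_lit 28242991464976625664) (nat_lit 28976077832308491370) :=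
  runA_ok (N := nat_lit 47) (j0 := nat_lit 22) (j1 := nat_lit 22)
    (ch := nat_lit 79228162524369408478504648290) (p1 := nat_lit 79228162514264337593543950336)
    (p2 := nat_lit 79228162523320156391408204729) (ul := true) (lf := false) (by decide +kernel)

theorem c6_44 : CovB (ev6 gr6_0) (nat_lit 0) (nat_lit 1660206966633859584) :=
  runB_ok (N := nat_lit 47) (j0 := nat_lit 23) (ch := nat_lit 79228162521657486658254490703)
    (by decide +kernel)

theorem c6_45 : CovB (ev6 gr6_0) (nat_lit 1660206966633859584) (nat_lit 3320413933267719168) :=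
  runB_ok (N := nat_lit 47) (j0 := nat_lit 23) (ch := nat_lit 79228162521700903789046634106)
    (by decide +kernel)

theorem c6_46 : CovB (ev6 gr6_0) (nat_lit 3320413933267719168) (nat_lit 4980620899901578752) :=
  runB_ok (N := nat_lit 47) (j0 := nat_lit 23) (ch := nat_lit 79228162521706838408875582163)
    (by decide +kernel)

theorem c6_47 : CovB (ev6 gr6_0) (nat_lit 4980620899901578752) (nat_lit 6640827866535438336) :=
  runB_ok (N := nat_lit 47) (j0 := nat_lit 23) (ch := nat_lit 79228162521711329266831310616)
    (by decide +kernel)

theorem c6_48 : CovB (ev6 gr6_0) (nat_lit 6640827866535438336) (nat_lit 8301034833169297920) :=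
  runB_ok (N := nat_lit 47) (j0 := nat_lit 23) (ch := nat_lit 79228162521717258331839754071)
    (by decide +kernel)

theorem c6_49 : CovB (ev6 gr6_0) (nat_lit 8301034833169297920) (nat_lit 9961241799803157504) :=
  runB_ok (N := nat_lit 47) (j0 := nat_lit 23) (ch := nat_lit 79228162521656303480658220546)
    (by decide +kernel)

theorem c6_50 : CovB (ev6 gr6_0) (nat_lit 9961241799803157504) (nat_lit 11621448766437017088) :=
  runB_ok (N := nat_lit 47) (j0 := nat_lit 23) (ch := nat_lit 79228162521593472959033829873)
    (by decide +kernel)

theorem c6_51 : CovB (ev6 gr6_0) (nat_lit 11621448766437017088) (nat_lit 13281655733070876672) :=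
  runB_ok (N := nat_lit 47) (j0 := nat_lit 23) (ch := nat_lit 79228162521477348384876560324)
    (by decide +kernel)

theorem c6_52 : CovB (ev6 gr6_0) (nat_lit 13281655733070876672) (nat_lit 14941862699704736256) :=
  runB_ok (N := nat_lit 47) (j0 := nat_lit 23) (ch := nat_lit 79228162521366173182732800526)
    (by decide +kernel)

theorem c6_53 : CovB (ev6 gr6_0) (nat_lit 14941862699704736256) (nat_lit 16602069666338595840) :=
  runB_ok (N := nat_lit 47) (j0 := nat_lit 23) (ch := nat_lit 79228162521252743711594758696)
    (by decide +kernel)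

theorem c6_54 : CovB (ev6 gr6_0) (nat_lit 16602069666338595840) (nat_lit 18262276632972455424) :=
  runB_ok (N := nat_lit 47) (j0 := nat_lit 23) (ch := nat_lit 79228162521110850708784001544)
    (by decide +kernel)

theorem c6_55 : CovB (ev6 gr6_0) (nat_lit 18262276632972455424) (nat_lit 19922483599606315008) :=
  runB_ok (N := nat_lit 47) (j0 := nat_lit 23) (ch := nat_lit 79228162520952806300141896768)
    (by decide +kernel)

theorem c6_56 : CovB (ev6 gr6_0) (nat_lit 19922483599606315008) (nat_lit 21582690566240174592) :=
  runB_ok (N := nat_lit 47) (j0 := nat_lit 23) (ch := nat_lit 79228162520812260225924742159)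
    (by decide +kernel)

theorem c6_57 : CovB (ev6 gr6_0) (nat_lit 21582690566240174592) (nat_lit 23242897532874034176) :=
  runB_ok (N := nat_lit 47) (j0 := nat_lit 23) (ch := nat_lit 79228162520631701902206007561)
    (by decide +kernel)

theorem c6_58 : CovB (ev6 gr6_0) (nat_lit 23242897532874034176) (nat_lit 24903104499507893760) :=
  runB_ok (N := nat_lit 47) (j0 := nat_lit 23) (ch := nat_lit 79228162520457613371640213426)
    (by decide +kernel)

theorem c6_59 : CovB (ev6 gr6_0) (nat_lit 24903104499507893760) (nat_lit 26563311466141753344) :=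
  runB_ok (N := nat_lit 47) (j0 := nat_lit 23) (ch := nat_lit 79228162520301486767854894426)
    (by decide +kernel)

theorem c6_60 : CovB (ev6 gr6_0) (nat_lit 26563311466141753344) (nat_lit 28223518432775612928) :=
  runB_ok (N := nat_lit 47) (j0 := nat_lit 23) (ch := nat_lit 79228162520091779811865611513)
    (by decide +kernel)

theorem c6_61 : CovB (ev6 gr6_0) (nat_lit 28223518432775612928) (nat_lit 28976077832308491370) :=
  runB_ok (N := nat_lit 47) (j0 := nat_lit 22) (ch := nat_lit 79228162519671604699172747272)
    (by decide +kernel)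

theorem covA6_2 : CovA (ev6 gr6_0) (nat_lit 21602163598441181184) (nat_lit 28976077832308491370) :=
  ((((((c6_37.trans c6_38).trans c6_39).trans c6_40).trans c6_41).trans c6_42).trans c6_43)

theorem covB6_2 : CovB (ev6 gr6_0) (nat_lit 0) (nat_lit 28976077832308491370) :=
  (((((((((((((((((c6_44.trans c6_45).trans c6_46).trans c6_47).trans c6_48).trans c6_49).trans
    c6_50).trans c6_51).trans c6_52).trans c6_53).trans c6_54).trans c6_55).trans c6_56).trans
    c6_57).trans c6_58).trans c6_59).trans c6_60).trans c6_61)

end Pool.Agent.Lib.MP_f225de_an.Nu
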