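import Pool.Agent.Lib.MP_f225de_an.RE8a

set_option autoImplicit false

namespace Pool.Agent.Lib.MP_f225de_an.Nu

open Tb

theorem c8a_0 : CovA (ev8a gr8a_0) (nat_lit 0) (nat_lit 36893488147419104) :=
  runA_ok (N := nat_lit 34) (j0 := nat_lit 7) (j1 := nat_lit 35)
    (ch := nat_lit 79228162518181157965997732059) (p1 := nat_lit 79228162523487912495768608769)
    (p2 := nat_lit 79228162514264337593543950336) (ul := false) (lf := true) (by decide +kernel)

theorem c8a_1 : CovA (ev8a gr8a_0) (nat_lit 36893488147419104) (nat_lit 46116860184273880) :=
  runA_ok (N := nat_lit 46) (j0 := nat_lit 7) (j1 := nat_lit 47)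
    (ch := nat_lit 79228162517993112110774976026) (p1 := nat_lit 79228162523487912495768608769)
    (p2 := nat_lit 79228162514264337593543950336) (ul := false) (lf := false) (by decide +kernel)

theorem c8a_2 : CovA (ev8a gr8a_0) (nat_lit 46116860184273880) (nat_lit 57646075230342352) :=
  runA_ok (N := nat_lit 44) (j0 := nat_lit 7) (j1 := nat_lit 45)
    (ch := nat_lit 79228162518009308397631084083) (p1 := nat_lit 79228162523487912495768608769)
    (p2 := nat_lit 79228162514264337593543950336) (ul := false) (lf := false) (by decide +kernel)

theorem c8a_3 : CovA (ev8a gr8a_0) (nat_lit 57646075230342352) (nat_lit 72057594037927936) :=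
  runA_ok (N := nat_lit 43) (j0 := nat_lit 7) (j1 := nat_lit 44)
    (ch := nat_lit 79228162518028767984847903758) (p1 := nat_lit 79228162523487912495768608769)
    (p2 := nat_lit 79228162514264337593543950336) (ul := false) (lf := false) (by decide +kernel)

theorem c8a_4 : CovA (ev8a gr8a_0) (nat_lit 72057594037927936) (nat_lit 90071992547409920) :=
  runA_ok (N := nat_lit 42) (j0 := nat_lit 7) (j1 := nat_lit 43)
    (ch := nat_lit 79228162518038109229794519284) (p1 := nat_lit 79228162523487912495768608769)
    (p2 := nat_lit 79228162514264337593543950336) (ul := false) (lf := false) (by decide +kernel)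

theorem c8a_5 : CovA (ev8a gr8a_0) (nat_lit 90071992547409920) (nat_lit 112589990684262400) :=
  runA_ok (N := nat_lit 41) (j0 := nat_lit 7) (j1 := nat_lit 42)
    (ch := nat_lit 79228162518077850181277307499) (p1 := nat_lit 79228162523487912495768608769)
    (p2 := nat_lit 79228162514264337593543950336) (ul := false) (lf := false) (by decide +kernel)

theorem c8a_6 : CovA (ev8a gr8a_0) (nat_lit 112589990684262400) (nat_lit 140737488355328000) :=
  runA_ok (N := nat_lit 40) (j0 := nat_lit 7) (j1 := nat_lit 41)
    (ch := nat_lit 79228162518085280564360371110) (p1 := nat_lit 79228162523487912495768608769)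
    (p2 := nat_lit 79228162514264337593543950336) (ul := false) (lf := false) (by decide +kernel)

theorem c8a_7 : CovA (ev8a gr8a_0) (nat_lit 140737488355328000) (nat_lit 175921860444160000) :=
  runA_ok (N := nat_lit 38) (j0 := nat_lit 7) (j1 := nat_lit 39)
    (ch := nat_lit 79228162518128847514237043327) (p1 := nat_lit 79228162523487912495768608769)
    (p2 := nat_lit 79228162514264337593543950336) (ul := false) (lf := false) (by decide +kernel)

theorem c8a_8 : CovA (ev8a gr8a_0) (nat_lit 175921860444160000) (nat_lit 219902325555200000) :=
  runA_ok (N := nat_lit 38) (j0 := nat_lit 7) (j1 := nat_lit 39)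
    (ch := nat_lit 79228162518188361405106327991) (p1 := nat_lit 79228162523487912495768608769)
    (p2 := nat_lit 79228162514264337593543950336) (ul := false) (lf := false) (by decide +kernel)

theorem c8a_9 : CovA (ev8a gr8a_0) (nat_lit 219902325555200000) (nat_lit 274877906944000000) :=
  runA_ok (N := nat_lit 38) (j0 := nat_lit 7) (j1 := nat_lit 39)
    (ch := nat_lit 79228162518185638769612880087) (p1 := nat_lit 79228162523487912495768608769)
    (p2 := nat_lit 79228162514264337593543950336) (ul := false) (lf := false) (by decide +kernel)

theorem c8a_10 : CovA (ev8a gr8a_0) (nat_lit 274877906944000000) (nat_lit 343597383680000000) :=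
  runA_ok (N := nat_lit 38) (j0 := nat_lit 7) (j1 := nat_lit 39)
    (ch := nat_lit 79228162518246883650808011176) (p1 := nat_lit 79228162523487912495768608769)
    (p2 := nat_lit 79228162514264337593543950336) (ul := false) (lf := false) (by decide +kernel)

theorem c8a_11 : CovA (ev8a gr8a_0) (nat_lit 343597383680000000) (nat_lit 429496729600000000) :=
  runA_ok (N := nat_lit 38) (j0 := nat_lit 7) (j1 := nat_lit 39)
    (ch := nat_lit 79228162518238124164574187135) (p1 := nat_lit 79228162523487912495768608769)
    (p2 := nat_lit 79228162514264337593543950336) (ul := false) (lf := false) (by decide +kernel)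

theorem c8a_12 : CovA (ev8a gr8a_0) (nat_lit 429496729600000000) (nat_lit 536870912000000000) :=
  runA_ok (N := nat_lit 38) (j0 := nat_lit 7) (j1 := nat_lit 39)
    (ch := nat_lit 79228162518314652899011369806) (p1 := nat_lit 79228162523487912495768608769)
    (p2 := nat_lit 79228162514264337593543950336) (ul := false) (lf := false) (by decide +kernel)

theorem c8a_13 : CovA (ev8a gr8a_0) (nat_lit 536870912000000000) (nat_lit 671088640000000000) :=
  runA_ok (N := nat_lit 38) (j0 := nat_lit 7) (j1 := nat_lit 39)
    (ch := nat_lit 79228162518443962060671191388) (p1 := nat_lit 79228162523487912495768608769)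
    (p2 := nat_lit 79228162514264337593543950336) (ul := false) (lf := false) (by decide +kernel)

theorem c8a_14 : CovA (ev8a gr8a_0) (nat_lit 671088640000000000) (nat_lit 838860800000000000) :=
  runA_ok (N := nat_lit 38) (j0 := nat_lit 7) (j1 := nat_lit 39)
    (ch := nat_lit 79228162518591295181756238709) (p1 := nat_lit 79228162523487912495768608769)
    (p2 := nat_lit 79228162514264337593543950336) (ul := false) (lf := false) (by decide +kernel)

theorem covA8a_0 : CovA (ev8a gr8a_0) (nat_lit 0) (nat_lit 838860800000000000) :=
  ((((((((((((((c8a_0.trans c8a_1).trans c8a_2).trans c8a_3).trans c8a_4).trans c8a_5).trans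
    c8a_6).trans c8a_7).trans c8a_8).trans c8a_9).trans c8a_10).trans c8a_11).trans c8a_12).trans
    c8a_13).trans c8a_14)

end Pool.Agent.Lib.MP_f225de_an.Nu
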