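import Pool.Agent.Lib.MP_f225de_an.RE8a

set_option autoImplicit false

namespace Pool.Agent.Lib.MP_f225de_an.Nu

open Tb

theorem c8a_15 : CovA (ev8a gr8a_0) (nat_lit 838860800000000000) (nat_lit 1048576000000000000) :=
  runA_ok (N := nat_lit 38) (j0 := nat_lit 7) (j1 := nat_lit 39)
    (ch := nat_lit 79228162518764967603978919994) (p1 := nat_lit 79228162523474401399720428116)
    (p2 := nat_lit 79228162514264337593543950336) (ul := false) (lf := false) (by decide +kernel)

theorem c8a_16 : CovA (ev8a gr8a_0) (nat_lit 1048576000000000000) (nat_lit 1468006400000000000) :=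
  runA_ok (N := nat_lit 38) (j0 := nat_lit 7) (j1 := nat_lit 39)
    (ch := nat_lit 79228162519285295631296840512) (p1 := nat_lit 79228162523312268247142260292)
    (p2 := nat_lit 79228162514264337593543950336) (ul := false) (lf := false) (by decide +kernel)

theorem c8a_17 : CovA (ev8a gr8a_0) (nat_lit 1468006400000000000) (nat_lit 2055208959999999744) :=
  runA_ok (N := nat_lit 38) (j0 := nat_lit 8) (j1 := nat_lit 39)
    (ch := nat_lit 79228162519922387224237516803) (p1 := nat_lit 79228162523096090710371369860)
    (p2 := nat_lit 79228162514264337593543950336) (ul := false) (lf := false) (by decide +kernel)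

theorem c8a_18 : CovA (ev8a gr8a_0) (nat_lit 2055208959999999744) (nat_lit 2877292543999999488) :=
  runA_ok (N := nat_lit 38) (j0 := nat_lit 8) (j1 := nat_lit 39)
    (ch := nat_lit 79228162520619688091417102922) (p1 := nat_lit 79228162522915942763062294500)
    (p2 := nat_lit 79228162514264337593543950336) (ul := false) (lf := false) (by decide +kernel)

theorem c8a_19 : CovA (ev8a gr8a_0) (nat_lit 2877292543999999488) (nat_lit 4028209561599998976) :=
  runA_ok (N := nat_lit 38) (j0 := nat_lit 8) (j1 := nat_lit 39)
    (ch := nat_lit 79228162522123260846871546265) (p1 := nat_lit 79228162522771824405215034212)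
    (p2 := nat_lit 79228162514264337593543950336) (ul := false) (lf := false) (by decide +kernel)

theorem c8a_20 : CovA (ev8a gr8a_0) (nat_lit 4028209561599998976) (nat_lit 5503949087496763392) :=
  runA_ok (N := nat_lit 38) (j0 := nat_lit 9) (j1 := nat_lit 39)
    (ch := nat_lit 79228162523960528596532702963) (p1 := nat_lit 79228162522663735636829588996)
    (p2 := nat_lit 79228162514264337593543950336) (ul := false) (lf := false) (by decide +kernel)

theorem c8a_21 : CovA (ev8a gr8a_0) (nat_lit 5503949087496763392) (nat_lit 6979688613393527808) :=
  runA_ok (N := nat_lit 38) (j0 := nat_lit 10) (j1 := nat_lit 39)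
    (ch := nat_lit 79228162525028525638740297038) (p1 := nat_lit 79228162522591676457905958852)
    (p2 := nat_lit 79228162514264337593543950336) (ul := false) (lf := false) (by decide +kernel)

theorem c8a_22 : CovA (ev8a gr8a_0) (nat_lit 6979688613393527808) (nat_lit 8455428139290292224) :=
  runA_ok (N := nat_lit 38) (j0 := nat_lit 10) (j1 := nat_lit 19)
    (ch := nat_lit 79228162526052311541554304858) (p1 := nat_lit 79228162522537632073713236244)
    (p2 := nat_lit 79228162514264337593543950336) (ul := true) (lf := false) (by decide +kernel)

theorem c8a_23 : CovA (ev8a gr8a_0) (nat_lit 8455428139290292224) (nat_lit 9931167665187055616) :=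
  runA_ok (N := nat_lit 38) (j0 := nat_lit 11) (j1 := nat_lit 17)
    (ch := nat_lit 79228162526621630026809015893) (p1 := nat_lit 79228162522519617278982328708)
    (p2 := nat_lit 79228162514264337593543950336) (ul := true) (lf := false) (by decide +kernel)

theorem c8a_24 : CovA (ev8a gr8a_0) (nat_lit 9931167665187055616) (nat_lit 11406907191083819008) :=
  runA_ok (N := nat_lit 38) (j0 := nat_lit 11) (j1 := nat_lit 16)
    (ch := nat_lit 79228162527414489387063359812) (p1 := nat_lit 79228162522501602484251421172)
    (p2 := nat_lit 79228162514264337593543950336) (ul := true) (lf := false) (by decide +kernel)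

theorem c8a_25 : CovA (ev8a gr8a_0) (nat_lit 11406907191083819008) (nat_lit 12882646716980582400) :=
  runA_ok (N := nat_lit 38) (j0 := nat_lit 12) (j1 := nat_lit 15)
    (ch := nat_lit 79228162528105922044473888049) (p1 := nat_lit 79228162522483587689520513636)
    (p2 := nat_lit 79228162514264337593543950336) (ul := true) (lf := false) (by decide +kernel)

theorem c8a_26 : CovA (ev8a gr8a_0) (nat_lit 12882646716980582400) (nat_lit 14358386242877345792) :=
  runA_ok (N := nat_lit 38) (j0 := nat_lit 12) (j1 := nat_lit 14)
    (ch := nat_lit 79228162528543974179792475914) (p1 := nat_lit 79228162522465572894789606100)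
    (p2 := nat_lit 79228162514264337593543950336) (ul := true) (lf := false) (by decide +kernel)

theorem c8a_27 : CovA (ev8a gr8a_0) (nat_lit 14358386242877345792) (nat_lit 15834125768774109184) :=
  runA_ok (N := nat_lit 38) (j0 := nat_lit 13) (j1 := nat_lit 13)
    (ch := nat_lit 79228162528947068572014350903) (p1 := nat_lit 79228162522465572894789606100)
    (p2 := nat_lit 79228162514264337593543950336) (ul := true) (lf := false) (by decide +kernel)

theorem c8a_28 : CovA (ev8a gr8a_0) (nat_lit 15834125768774109184) (nat_lit 17309865294670872576) :=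
  runA_ok (N := nat_lit 38) (j0 := nat_lit 13) (j1 := nat_lit 13)
    (ch := nat_lit 79228162528907700207418493600) (p1 := nat_lit 79228162522447558100058698564)
    (p2 := nat_lit 79228162514264337593543950336) (ul := true) (lf := false) (by decide +kernel)

theorem c8a_29 : CovA (ev8a gr8a_0) (nat_lit 17309865294670872576) (nat_lit 18785604820567638016) :=
  runA_ok (N := nat_lit 38) (j0 := nat_lit 14) (j1 := nat_lit 14)
    (ch := nat_lit 79228162529158377612635228483) (p1 := nat_lit 79228162522447558100058698564)
    (p2 := nat_lit 79228162514264337593543950336) (ul := true) (lf := false) (by decide +kernel)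

theorem covA8a_1 : CovA (ev8a gr8a_0) (nat_lit 838860800000000000) (nat_lit 18785604820567638016) :=
  ((((((((((((((c8a_15.trans c8a_16).trans c8a_17).trans c8a_18).trans c8a_19).trans c8a_20).trans
    c8a_21).trans c8a_22).trans c8a_23).trans c8a_24).trans c8a_25).trans c8a_26).trans
    c8a_27).trans c8a_28).trans c8a_29)

end Pool.Agent.Lib.MP_f225de_an.Nu
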