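import Pool.Agent.Lib.MP_f225de_an.RE8a

set_option autoImplicit false

namespace Pool.Agent.Lib.MP_f225de_an.Nu

open Tb

theorem c8a_30 : CovA (ev8a gr8a_0) (nat_lit 18785604820567638016) (nat_lit 20261344346464403456) :=
  runA_ok (N := nat_lit 38) (j0 := nat_lit 14) (j1 := nat_lit 14)
    (ch := nat_lit 79228162529310058623481248017) (p1 := nat_lit 79228162522447558100058698564)
    (p2 := nat_lit 79228162514264337593543950336) (ul := true) (lf := false) (by decide +kernel)

theorem c8a_31 : CovA (ev8a gr8a_0) (nat_lit 20261344346464403456) (nat_lit 21737083872361168896) :=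
  runA_ok (N := nat_lit 38) (j0 := nat_lit 15) (j1 := nat_lit 15)
    (ch := nat_lit 79228162529130602013190440747) (p1 := nat_lit 79228162522465572894789606100)
    (p2 := nat_lit 79228162514264337593543950336) (ul := true) (lf := false) (by decide +kernel)

theorem c8a_32 : CovA (ev8a gr8a_0) (nat_lit 21737083872361168896) (nat_lit 23212823398257934336) :=
  runA_ok (N := nat_lit 38) (j0 := nat_lit 15) (j1 := nat_lit 15)
    (ch := nat_lit 79228162528309218976979647671) (p1 := nat_lit 79228162514264337593543950336)
    (p2 := nat_lit 79228162524605275340551494859) (ul := true) (lf := false) (by decide +kernel)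

theorem c8a_33 : CovA (ev8a gr8a_0) (nat_lit 23212823398257934336) (nat_lit 24688562924154699776) :=
  runA_ok (N := nat_lit 38) (j0 := nat_lit 16) (j1 := nat_lit 16)
    (ch := nat_lit 79228162527957626769500090208) (p1 := nat_lit 79228162514264337593543950336)
    (p2 := nat_lit 79228162525219208564863631083) (ul := true) (lf := false) (by decide +kernel)

theorem c8a_34 : CovA (ev8a gr8a_0) (nat_lit 24688562924154699776) (nat_lit 26164302450051465216) :=
  runA_ok (N := nat_lit 38) (j0 := nat_lit 16) (j1 := nat_lit 16)
    (ch := nat_lit 79228162527669828863372860780) (p1 := nat_lit 79228162514264337593543950336)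
    (p2 := nat_lit 79228162525398272421954670815) (ul := true) (lf := false) (by decide +kernel)

theorem c8a_35 : CovA (ev8a gr8a_0) (nat_lit 26164302450051465216) (nat_lit 27640041975948230656) :=
  runA_ok (N := nat_lit 38) (j0 := nat_lit 16) (j1 := nat_lit 16)
    (ch := nat_lit 79228162527427998748031445286) (p1 := nat_lit 79228162514264337593543950336)
    (p2 := nat_lit 79228162525398272421954670815) (ul := true) (lf := false) (by decide +kernel)

theorem c8a_36 : CovA (ev8a gr8a_0) (nat_lit 27640041975948230656) (nat_lit 28976077832308491370) :=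
  runA_ok (N := nat_lit 38) (j0 := nat_lit 17) (j1 := nat_lit 17)
    (ch := nat_lit 79228162527037916254419507237) (p1 := nat_lit 79228162514264337593543950336)
    (p2 := nat_lit 79228162525398272421954670815) (ul := true) (lf := false) (by decide +kernel)

theorem c8a_37 : CovB (ev8a gr8a_0) (nat_lit 0) (nat_lit 2213609288845146112) :=
  runB_ok (N := nat_lit 38) (j0 := nat_lit 17) (ch := nat_lit 79228162523352689910196622554)
    (by decide +kernel)

theorem c8a_38 : CovB (ev8a gr8a_0) (nat_lit 2213609288845146112) (nat_lit 4427218577690292224) :=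
  runB_ok (N := nat_lit 38) (j0 := nat_lit 17) (ch := nat_lit 79228162523395333891816418514)
    (by decide +kernel)

theorem c8a_39 : CovB (ev8a gr8a_0) (nat_lit 4427218577690292224) (nat_lit 6640827866535438336) :=
  runB_ok (N := nat_lit 38) (j0 := nat_lit 17) (ch := nat_lit 79228162523430174005236751760)
    (by decide +kernel)

theorem c8a_40 : CovB (ev8a gr8a_0) (nat_lit 6640827866535438336) (nat_lit 8854437155380584448) :=
  runB_ok (N := nat_lit 38) (j0 := nat_lit 18) (ch := nat_lit 79228162523487728028327871927)
    (by decide +kernel)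

theorem c8a_41 : CovB (ev8a gr8a_0) (nat_lit 8854437155380584448) (nat_lit 11068046444225730560) :=
  runB_ok (N := nat_lit 38) (j0 := nat_lit 18) (ch := nat_lit 79228162523373620340417735802)
    (by decide +kernel)

theorem c8a_42 : CovB (ev8a gr8a_0) (nat_lit 11068046444225730560) (nat_lit 13281655733070876672) :=
  runB_ok (N := nat_lit 38) (j0 := nat_lit 18) (ch := nat_lit 79228162523255149543412541610)
    (by decide +kernel)

theorem c8a_43 : CovB (ev8a gr8a_0) (nat_lit 13281655733070876672) (nat_lit 15495265021916022784) :=
  runB_ok (N := nat_lit 38) (j0 := nat_lit 17) (ch := nat_lit 79228162523078100942541253835)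
    (by decide +kernel)

theorem c8a_44 : CovB (ev8a gr8a_0) (nat_lit 15495265021916022784) (nat_lit 17708874310761168896) :=
  runB_ok (N := nat_lit 38) (j0 := nat_lit 17) (ch := nat_lit 79228162522899473275728196335)
    (by decide +kernel)

theorem c8a_45 : CovB (ev8a gr8a_0) (nat_lit 17708874310761168896) (nat_lit 19922483599606315008) :=
  runB_ok (N := nat_lit 38) (j0 := nat_lit 17) (ch := nat_lit 79228162522670318122778753866)
    (by decide +kernel)

theorem c8a_46 : CovB (ev8a gr8a_0) (nat_lit 19922483599606315008) (nat_lit 22136092888451461120) :=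
  runB_ok (N := nat_lit 38) (j0 := nat_lit 17) (ch := nat_lit 79228162522419196406231408534)
    (by decide +kernel)

theorem c8a_47 : CovB (ev8a gr8a_0) (nat_lit 22136092888451461120) (nat_lit 24349702177296607232) :=
  runB_ok (N := nat_lit 38) (j0 := nat_lit 17) (ch := nat_lit 79228162522164858044281973440)
    (by decide +kernel)

theorem c8a_48 : CovB (ev8a gr8a_0) (nat_lit 24349702177296607232) (nat_lit 26563311466141753344) :=
  runB_ok (N := nat_lit 38) (j0 := nat_lit 17) (ch := nat_lit 79228162521876104887036615981)
    (by decide +kernel)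

theorem c8a_49 : CovB (ev8a gr8a_0) (nat_lit 26563311466141753344) (nat_lit 28776920754986899456) :=
  runB_ok (N := nat_lit 38) (j0 := nat_lit 17) (ch := nat_lit 79228162521596139484476169992)
    (by decide +kernel)

theorem c8a_50 : CovB (ev8a gr8a_0) (nat_lit 28776920754986899456) (nat_lit 28976077832308491370) :=
  runB_ok (N := nat_lit 38) (j0 := nat_lit 17) (ch := nat_lit 79228162520648963358633977723)
    (by decide +kernel)

theorem covA8a_2 : CovA (ev8a gr8a_0) (nat_lit 18785604820567638016) (nat_lit 28976077832308491370) :=
  ((((((c8a_30.trans c8a_31).trans c8a_32).trans c8a_33).trans c8a_34).trans c8a_35).trans c8a_36)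

theorem covB8a_2 : CovB (ev8a gr8a_0) (nat_lit 0) (nat_lit 28976077832308491370) :=
  (((((((((((((c8a_37.trans c8a_38).trans c8a_39).trans c8a_40).trans c8a_41).trans c8a_42).trans
    c8a_43).trans c8a_44).trans c8a_45).trans c8a_46).trans c8a_47).trans c8a_48).trans
    c8a_49).trans c8a_50)

end Pool.Agent.Lib.MP_f225de_an.Nu
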