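import Pool.Agent.Lib.MP_f225de_an.EV
import Pool.Agent.Lib.MP_f225de_an.TD13
import Pool.Agent.Lib.MP_f225de_an.BD13

set_option autoImplicit false

namespace Pool.Agent.Lib.MP_f225de_an.Nu

open Tb

/-- constants of a profile -/
def pfT13 : Pr := ⟨nat_lit 79228162551157825740963053568, nat_lit 79228162526623656122929350657, nat_lit 79228162538798507211577655297, nat_lit 79228162514282784337617659889⟩

/-- constants of a profile -/
def pfP13 : Pr := ⟨nat_lit 79228162526374053196989822977, nat_lit 79228162525228247022850437121, nat_lit 79228162524445906976593010689, nat_lit 79228162560399644521891536897⟩

/-- constants of a profile -/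
def pfQ13 : Pr := ⟨nat_lit 79228162532932990888859860993, nat_lit 79228162530881536289989466113, nat_lit 79228162521318183056626571265, nat_lit 79228162532729528411327209473⟩

/-- the evaluators of the run -/
noncomputable def ev13 (pk : ℕ) : Ev := mkE run13 tab13 (Bx.evRay Bx.tr13) (Bx.evOut Bx.tr13)
  pfT13 pfP13 pfQ13 pk

/-- packed nodes -/
@[irreducible] def gr13_0 : ℕ := nat_lit 1097293126801805505982916923213951577292981818063778748430227825863522916667678967787993253007324018629606148092225702084640756987605116028573860048265350450916555276032769868752229928380854207658140947464819039088625122488033018706385808672201852246365316090094212591089101666064335559723740423980526910377395954520807116594779544048719045801041576787481920428050637228741349724450798449395897505224075851346632703187418833678155176114525062559496715789926400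

theorem gr13_0_ok : thP gr13_0 0 = 2 ^ 64 := by decide +kernel

end Pool.Agent.Lib.MP_f225de_an.Nu
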