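import Pool.Agent.Lib.MP_f225de_an.EV
import Pool.Agent.Lib.MP_f225de_an.TD33
import Pool.Agent.Lib.MP_f225de_an.BD33

set_option autoImplicit false

namespace Pool.Agent.Lib.MP_f225de_an.Nu

open Tb

/-- constants of a profile -/
def pfT33 : Pr := ⟨nat_lit 79228162551157825740963053568, nat_lit 79228162526623656122929350657, nat_lit 79228162538798507211577655297, nat_lit 79228162514282784337617659889⟩

/-- constants of a profile -/
def pfP33 : Pr := ⟨nat_lit 79228162528657512182518382593, nat_lit 79228162527415978290021898241, nat_lit 79228162525630967418950948865, nat_lit 79228162578846388595601088513⟩

/-- constants of a profile -/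
def pfQ33 : Pr := ⟨nat_lit 79228162538369549441883111425, nat_lit 79228162536037419751903113217, nat_lit 79228162521540310878022892545, nat_lit 79228162532729528411327209473⟩

/-- the evaluators of the run -/
noncomputable def ev33 (pk : ℕ) : Ev := mkE run33 tab33 (Bx.evRay Bx.tr33) (Bx.evOut Bx.tr33)
  pfT33 pfP33 pfQ33 pk

/-- packed nodes -/
@[irreducible] def gr33_0 : ℕ := nat_lit 249259436367054022238043251597631572629952746889929453994889704858064648200505344089924590142796985923944307774417958653688204719757977923838927930746467880121762820656069088538980974799168954851320825845422858211345089432598898997800170962621772456043711033680717553154507114916264846803606382390632612115840548288676452027979796964488489613197512525903244255197823934296476000825594474029868764385030378018208340422077381486501621411385476466301508229989602325304055695171845655634896838097694671716859315645011880429966488926084246121982532148254177104076787996454956406606082589841842086903658928270390185126563597929668226842624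

theorem gr33_0_ok : thP gr33_0 0 = 2 ^ 64 := by decide +kernel

end Pool.Agent.Lib.MP_f225de_an.Nu
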