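import Pool.Agent.Lib.MP_f225de_an.EV
import Pool.Agent.Lib.MP_f225de_an.TD4
import Pool.Agent.Lib.MP_f225de_an.BD4

set_option autoImplicit false

namespace Pool.Agent.Lib.MP_f225de_an.Nu

open Tb

/-- constants of a profile -/
def pfT4 : Pr := ⟨nat_lit 79228162551157825740963053568, nat_lit 79228162526419549429055375361, nat_lit 79228162538617150954191753217, nat_lit 79228162514282784337617659889⟩

/-- constants of a profile -/
def pfP4 : Pr := ⟨nat_lit 79228162517487489021564095489, nat_lit 79228162516203385353333276161, nat_lit 79228162522709639800847994881, nat_lit 79228162551176272485036761089⟩

/-- constants of a profile -/
def pfQ4 : Pr := ⟨nat_lit 79228162517986233666645956609, nat_lit 79228162516268304668173684993, nat_lit 79228162522238992488364310529, nat_lit 79228162551176272485036761089⟩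

/-- the evaluators of the run -/
noncomputable def ev4 (pk : ℕ) : Ev := mkE run4 tab4 (Bx.evRay Bx.tr4) (Bx.evOut Bx.tr4)
  pfT4 pfP4 pfQ4 pk

/-- packed nodes -/
@[irreducible] def gr4_0 : ℕ := nat_lit 2636031064494579541845235234956090462139544124402709173680505956104560344659218880512898297493737380718459203882683582982273956099082206795081304744240546705818550312352500423305648812423750085257884020772422331024947930392481183529162711209403853695057863083733520442562277724895750326196909113147998518820098607577257057619293626293834393793337966810702762982401477126287344126823616701643748145752744345783571691208374089622069166260740075430199439044887736415792937323942421222954865518785247086650195282350677535989741053076982570960041915086053105724527404661308058228898571741083280460346322312793785983142588380025318227749342159849426371544339675583642476573203075027812742971988908882720967370565536343032788726359240935762879298316685325292748230171106255329806024815060202918244247687004268238245445951955116520589968469374184626755664604985685085241156670472179289766611597207809459799787992809440268647399424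

theorem gr4_0_ok : thP gr4_0 0 = 2 ^ 64 := by decide +kernel

end Pool.Agent.Lib.MP_f225de_an.Nu
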