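import Pool.Agent.Lib.MP_f225de_an.EV
import Pool.Agent.Lib.MP_f225de_an.TD5
import Pool.Agent.Lib.MP_f225de_an.BD5

set_option autoImplicit false

namespace Pool.Agent.Lib.MP_f225de_an.Nu

open Tb

/-- constants of a profile -/
def pfT5 : Pr := ⟨nat_lit 79228162551157825740963053568, nat_lit 79228162526623656122929350657, nat_lit 79228162538798507211577655297, nat_lit 79228162514282784337617659889⟩

/-- constants of a profile -/
def pfP5 : Pr := ⟨nat_lit 79228162519486330653401177089, nat_lit 79228162518210086468816196609, nat_lit 79228162523159431082267657217, nat_lit 79228162551176272485036761089⟩

/-- constants of a profile -/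
def pfQ5 : Pr := ⟨nat_lit 79228162520499993226911934465, nat_lit 79228162518731390946767212033, nat_lit 79228162521813161454860482561, nat_lit 79228162541952900448181985281⟩

/-- the evaluators of the run -/
noncomputable def ev5 (pk : ℕ) : Ev := mkE run5 tab5 (Bx.evRay Bx.tr5) (Bx.evOut Bx.tr5)
  pfT5 pfP5 pfQ5 pk

/-- packed nodes -/
@[irreducible] def gr5_0 : ℕ := nat_lit 249259436367054022238043251597631572629952746889929453994889704858064648200505344089924590142796985923944307774417958653688204719757977923838927930746467880121762820656069088538980974799168954851320825845422858211345089432598898997800170962621772456043711033680717553154507114916264846803606382390632612115840548288676452027979796964488489613197512525903244255197823934296476000825594474029868764385030378018208340422077381486501621411385476466301508229989602325304055695171845655634896838097694671716859315645011880429966488926084246121982532148254177104076787996454956406606082589841842086903658928270390185126563597929668226842624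

theorem gr5_0_ok : thP gr5_0 0 = 2 ^ 64 := by decide +kernel

end Pool.Agent.Lib.MP_f225de_an.Nu
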