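import Pool.Agent.Lib.MP_f225de_an.EV
import Pool.Agent.Lib.MP_f225de_an.TD6
import Pool.Agent.Lib.MP_f225de_an.BD6

set_option autoImplicit false

namespace Pool.Agent.Lib.MP_f225de_an.Nu

open Tb

/-- constants of a profile -/
def pfT6 : Pr := ⟨nat_lit 79228162551157825740963053568, nat_lit 79228162526623656122929350657, nat_lit 79228162538798507211577655297, nat_lit 79228162514282784337617659889⟩

/-- constants of a profile -/
def pfP6 : Pr := ⟨nat_lit 79228162521717442799280491521, nat_lit 79228162520520037213401887745, nat_lit 79228162523648087462498615297, nat_lit 79228162560399644521891536897⟩

/-- constants of a profile -/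
def pfQ6 : Pr := ⟨nat_lit 79228162525376570605068167169, nat_lit 79228162523247050550011718657, nat_lit 79228162520850316134661326849, nat_lit 79228162532729528411327209473⟩

/-- the evaluators of the run -/
noncomputable def ev6 (pk : ℕ) : Ev := mkE run6 tab6 (Bx.evRay Bx.tr6) (Bx.evOut Bx.tr6)
  pfT6 pfP6 pfQ6 pk

/-- packed nodes -/
@[irreducible] def gr6_0 : ℕ := nat_lit 545396224395954329792113689005306971307740891497358404262299819607187061376100305887833053345120026598006772807395827805781451417071404602168000813910665426636575364700972212625806274087677462153548611611170035343225007938064315939260194692562787450504552556007064639521321763834258477764195309427318102567179312404841787144146707963473695064275255546722832982906388000677767004696263132637724795837613097619329407194790693927841644593400722860249169058749108112404163218616015368284081675545297523675955123008995310747878258031315481317513101312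

theorem gr6_0_ok : thP gr6_0 0 = 2 ^ 64 := by decide +kernel

end Pool.Agent.Lib.MP_f225de_an.Nu
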