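import Pool.Agent.Lib.MP_f225de_an.EVG
import Pool.Agent.Lib.MP_f225de_an.R10a
import Pool.Agent.Lib.MP_f225de_an.R10b
import Pool.Agent.Lib.MP_f225de_an.R10c

set_option autoImplicit false

namespace Pool.Agent.Lib.MP_f225de_an.Nu

open Tb

theorem glob10 {n : ℕ} (h : run10.ok n) : Nonempty (Glob n) :=
  glob_mk (pk := gr10_0) ((covA10_0.trans covA10_1).trans covA10_2) covB10_2 (by decide +kernel) h
    (tab10_ok h) (Bx.ray10 h) (Bx.out10 h)

end Pool.Agent.Lib.MP_f225de_an.Nu
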