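import Pool.Agent.Lib.MP_f225de_an.EVG
import Pool.Agent.Lib.MP_f225de_an.R13a
import Pool.Agent.Lib.MP_f225de_an.R13b
import Pool.Agent.Lib.MP_f225de_an.R13c

set_option autoImplicit false

namespace Pool.Agent.Lib.MP_f225de_an.Nu

open Tb

theorem glob13 {n : ℕ} (h : run13.ok n) : Nonempty (Glob n) :=
  glob_mk (pk := gr13_0) ((covA13_0.trans covA13_1).trans covA13_2) covB13_2 (by decide +kernel) h
    (tab13_ok h) (Bx.ray13 h) (Bx.out13 h)

end Pool.Agent.Lib.MP_f225de_an.Nu
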