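import Pool.Agent.Lib.MP_f225de_an.EVG
import Pool.Agent.Lib.MP_f225de_an.R19a
import Pool.Agent.Lib.MP_f225de_an.R19b
import Pool.Agent.Lib.MP_f225de_an.R19c

set_option autoImplicit false

namespace Pool.Agent.Lib.MP_f225de_an.Nu

open Tb

theorem glob19 {n : ℕ} (h : run19.ok n) : Nonempty (Glob n) :=
  glob_mk (pk := gr19_0) ((covA19_0.trans covA19_1).trans covA19_2) covB19_2 (by decide +kernel) h
    (tab19_ok h) (Bx.ray19 h) (Bx.out19 h)

end Pool.Agent.Lib.MP_f225de_an.Nu
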