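import Pool.Agent.Lib.MP_f225de_an.EVG
import Pool.Agent.Lib.MP_f225de_an.R33a
import Pool.Agent.Lib.MP_f225de_an.R33b
import Pool.Agent.Lib.MP_f225de_an.R33c
import Pool.Agent.Lib.MP_f225de_an.R33d

set_option autoImplicit false

namespace Pool.Agent.Lib.MP_f225de_an.Nu

open Tb

theorem glob33 {n : ℕ} (h : run33.ok n) : Nonempty (Glob n) :=
  glob_mk (pk := gr33_0) (((covA33_0.trans covA33_1).trans covA33_2).trans covA33_3) covB33_3
    (by decide +kernel) h (tab33_ok h) (Bx.ray33 h) (Bx.out33 h)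

end Pool.Agent.Lib.MP_f225de_an.Nu
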