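import Pool.Agent.Lib.MP_f225de_an.EVG
import Pool.Agent.Lib.MP_f225de_an.R4a
import Pool.Agent.Lib.MP_f225de_an.R4b
import Pool.Agent.Lib.MP_f225de_an.R4c
import Pool.Agent.Lib.MP_f225de_an.R4d
import Pool.Agent.Lib.MP_f225de_an.R4e
import Pool.Agent.Lib.MP_f225de_an.R4f
import Pool.Agent.Lib.MP_f225de_an.R4g
import Pool.Agent.Lib.MP_f225de_an.R4h
import Pool.Agent.Lib.MP_f225de_an.R4i

set_option autoImplicit false

namespace Pool.Agent.Lib.MP_f225de_an.Nu

open Tb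

theorem glob4 {n : ℕ} (h : run4.ok n) : Nonempty (Glob n) :=
  glob_mk (pk := gr4_0) ((((((covA4_0.trans covA4_1).trans covA4_2).trans covA4_3).trans
    covA4_4).trans covA4_5).trans covA4_6) ((covB4_6.trans covB4_7).trans covB4_8)
    (by decide +kernel) h (tab4_ok h) (Bx.ray4 h) (Bx.out4 h)

end Pool.Agent.Lib.MP_f225de_an.Nu
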