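import Pool.Agent.Lib.MP_f225de_an.EVG
import Pool.Agent.Lib.MP_f225de_an.R5a
import Pool.Agent.Lib.MP_f225de_an.R5b
import Pool.Agent.Lib.MP_f225de_an.R5c
import Pool.Agent.Lib.MP_f225de_an.R5d

set_option autoImplicit false

namespace Pool.Agent.Lib.MP_f225de_an.Nu

open Tb

theorem glob5 {n : ℕ} (h : run5.ok n) : Nonempty (Glob n) :=
  glob_mk (pk := gr5_0) (((covA5_0.trans covA5_1).trans covA5_2).trans covA5_3) covB5_3
    (by decide +kernel) h (tab5_ok h) (Bx.ray5 h) (Bx.out5 h)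

end Pool.Agent.Lib.MP_f225de_an.Nu
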