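import Pool.Agent.Lib.MP_f225de_an.EVG
import Pool.Agent.Lib.MP_f225de_an.R6a
import Pool.Agent.Lib.MP_f225de_an.R6b
import Pool.Agent.Lib.MP_f225de_an.R6c

set_option autoImplicit false

namespace Pool.Agent.Lib.MP_f225de_an.Nu

open Tb

theorem glob6 {n : ℕ} (h : run6.ok n) : Nonempty (Glob n) :=
  glob_mk (pk := gr6_0) ((covA6_0.trans covA6_1).trans covA6_2) covB6_2 (by decide +kernel) h
    (tab6_ok h) (Bx.ray6 h) (Bx.out6 h)

end Pool.Agent.Lib.MP_f225de_an.Nu
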