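import Pool.Agent.Lib.MP_f225de_an.EVG
import Pool.Agent.Lib.MP_f225de_an.R8aa
import Pool.Agent.Lib.MP_f225de_an.R8ab
import Pool.Agent.Lib.MP_f225de_an.R8ac

set_option autoImplicit false

namespace Pool.Agent.Lib.MP_f225de_an.Nu

open Tb

theorem glob8a {n : ℕ} (h : run8a.ok n) : Nonempty (Glob n) :=
  glob_mk (pk := gr8a_0) ((covA8a_0.trans covA8a_1).trans covA8a_2) covB8a_2 (by decide +kernel) h
    (tab8a_ok h) (Bx.ray8a h) (Bx.out8a h)

end Pool.Agent.Lib.MP_f225de_an.Nu
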