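import Pool.Agent.Lib.MP_f225de_an.Sk0

set_option autoImplicit false

open MeasureTheory Set Filter Topology
open scoped ENNReal NNReal Real

namespace Pool.Agent.Lib.MP_f225de_an.Sk

lemma der_Iic {f : ℝ → ℝ} (hc : Continuous f) (hi : ∀ y, IntegrableOn f (Iic y)) (y : ℝ) :
    HasDerivAt (fun x => ∫ t in Iic x, f t) (f y) y := by
  have h1 : (fun x => ∫ t in Iic x, f t) = fun x => (∫ t in (0 : ℝ)..x, f t) + ∫ t in Iic 0, f t := by
    funext x
    rw [← intervalIntegral.integral_Iic_sub_Iic (hi 0) (hi x)]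
    ring
  rw [h1]
  exact (hc.integral_hasStrictDerivAt 0 y).hasDerivAt.add_const _

lemma lint_le {G G1 : ℝ → ℝ} {a b : ℝ} (hab : a ≤ b) (hc : ContinuousOn G (Icc a b))
    (hd : ∀ y ∈ Ioo a b, HasDerivAt G (G1 y) y) (h0 : ∀ y ∈ Ioo a b, 0 ≤ G1 y) :
    G a ≤ G b ∧ ∫⁻ y in Ioc a b, ENNReal.ofReal (G1 y) ≤ ENNReal.ofReal (G b - G a) := by
  have hi : IntegrableOn G1 (Ioc a b) := intervalIntegral.integrableOn_deriv_of_nonneg hc hd h0
  have he : ∫ y in a..b, G1 y = G b - G a :=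
    intervalIntegral.integral_eq_sub_of_hasDerivAt_of_le hab hc hd
      ((intervalIntegrable_iff_integrableOn_Ioc_of_le hab).mpr hi)
  have hn : 0 ≤ᵐ[volume.restrict (Ioc a b)] G1 := by
    rw [← Measure.restrict_congr_set Ioo_ae_eq_Ioc]
    exact (ae_restrict_iff' measurableSet_Ioo).mpr (Eventually.of_forall h0)
  rw [intervalIntegral.integral_of_le hab] at he
  refine ⟨by linarith [integral_nonneg_of_ae hn], ?_⟩
  rw [← he, ofReal_integral_eq_lintegral_ofReal hi hn]

lemma amgm {e a t m E : ℝ} (he : 0 ≤ e) (ha : 0 ≤ a) (ht : 0 < t) (hm : 0 < m) (hE : 0 < E) :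
    E * Real.sqrt (2 * π * e * a) ≤ π * t * e / m + E ^ 2 * a * m / (2 * t) := by
  have hp := Real.pi_pos
  have h1 : 0 ≤ π * t * e / m := by positivity
  have h2 : 0 ≤ E ^ 2 * a * m / (2 * t) := by positivity
  have h3 : (E * Real.sqrt (2 * π * e * a)) ^ 2 =
      4 * (π * t * e / m) * (E ^ 2 * a * m / (2 * t)) := by
    rw [mul_pow, Real.sq_sqrt (by positivity)]
    field_simp
    ring
  refine (abs_le_of_sq_le_sq' ?_ (by positivity)).2
  rw [h3]
  nlinarith [sq_nonneg (π * t * e / m - E ^ 2 * a * m / (2 * t))]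

variable {n : ℕ}

/-- area of a cluster below a level -/
noncomputable def AC (c : Cmb n) (a : c.H → ℝ → ℝ) (C : Finset (Fin (n - 1))) (y : ℝ) : ℝ :=
  ∑ h ∈ c.cells C, ∫ t in Iic y, a h t

/-- cost of a cluster on a set of levels -/
noncomputable def IC (c : Cmb n) (η : ℝ → ℝ → ℝ) (a : c.H → ℝ → ℝ) (C : Finset (Fin (n - 1)))
    (s : Set ℝ) : ℝ≥0∞ :=
  ∑ h ∈ c.cells C, ∫⁻ t in s, cost n (η (c.sig h) t) (a h t) t

/-- the bound with multiplier `t` -/
noncomputable def GG (c : Cmb n) (a : c.H → ℝ → ℝ) (C : Finset (Fin (n - 1))) (y q t : ℝ) : ℝ :=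
  π * t * q + AC c a C y * Real.exp (-2 * y / n) / t

/-- the value statement -/
def SS (c : Cmb n) (η : ℝ → ℝ → ℝ) (a : c.H → ℝ → ℝ) (C : Finset (Fin (n - 1))) (y q : ℝ) : Prop :=
  ∀ t, 0 < t → 0 ≤ GG c a C y q t ∧ IC c η a C (Iic y) ≤ ENNReal.ofReal (GG c a C y q t)

lemma AC_nonneg {c : Cmb n} {a : c.H → ℝ → ℝ} (ha : Area c a) (C : Finset (Fin (n - 1))) (y : ℝ) :
    0 ≤ AC c a C y :=
  Finset.sum_nonneg fun h _ => integral_nonneg fun t => ha.nonneg h t

lemma AC_der {c : Cmb n} {a : c.H → ℝ → ℝ} (ha : Area c a) (C : Finset (Fin (n - 1))) (y : ℝ) :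
    HasDerivAt (AC c a C) (∑ h ∈ c.cells C, a h y) y :=
  HasDerivAt.fun_sum fun h _ => der_Iic (ha.cont h) (ha.int h) y

lemma cost_meas {c : Cmb n} {η : ℝ → ℝ → ℝ} (hm : ∀ s, Measurable (η s)) {a : c.H → ℝ → ℝ}
    (ha : Area c a) (h : c.H) : Measurable fun t => cost n (η (c.sig h) t) (a h t) t := by
  have h1 := hm (c.sig h)
  have h2 := (ha.cont h).measurable
  unfold cost
  fun_prop

lemma prop {c : Cmb n} {η : ℝ → ℝ → ℝ} (hη : ∀ s y, 0 ≤ η s y) (hm : ∀ s, Measurable (η s))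
    {a : c.H → ℝ → ℝ} (ha : Area c a) (C : Finset (Fin (n - 1))) {u v : ℝ} {Q Q1 W W1 : ℝ → ℝ}
    (huv : u ≤ v) (hQ : ContinuousOn Q (Icc u v)) (hW : ContinuousOn W (Icc u v))
    (hs : ∀ y ∈ Ioo u v, HasDerivAt Q (Q1 y) y ∧ HasDerivAt W (W1 y) y ∧
      c.Step η C y (Q y) (Q1 y) (W1 y)) {t : ℝ} (ht : 0 < t) :
    GG c a C u (Q u) (t * Real.exp (W u - W v)) ≤ GG c a C v (Q v) t ∧
      IC c η a C (Ioc u v) ≤
        ENNReal.ofReal (GG c a C v (Q v) t - GG c a C u (Q u) (t * Real.exp (W u - W v))) := by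
  set T : ℝ → ℝ := fun y => t * Real.exp (W y - W v) with hT
  have hT0 : ∀ y, 0 < T y := fun y => by positivity
  set G1 : ℝ → ℝ := fun y => π * T y * (Q1 y + W1 y * Q y) + Real.exp (-2 * y / n) / T y *
    ((∑ h ∈ c.cells C, a h y) - (W1 y + 2 / n) * AC c a C y) with hG1
  have hAc : Continuous (AC c a C) :=
    continuous_iff_continuousAt.mpr fun y => (AC_der ha C y).continuousAt
  have hTc : ContinuousOn T (Icc u v) := by
    simp only [hT]
    fun_prop
  have hc : ContinuousOn (fun y => GG c a C y (Q y) (T y)) (Icc u v) := by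
    unfold GG
    refine ContinuousOn.add (by fun_prop) (ContinuousOn.div (by fun_prop) hTc fun y _ => (hT0 y).ne')
  have hd : ∀ y ∈ Ioo u v, HasDerivAt (fun y => GG c a C y (Q y) (T y)) (G1 y) y := by
    intro y hy
    obtain ⟨h1, h2, -⟩ := hs y hy
    have h3 : HasDerivAt T (T y * W1 y) y := by
      have := ((h2.sub_const (W v)).exp).const_mul t
      exact this.congr_deriv (by simp only [hT]; ring)
    have h4 : HasDerivAt (fun y : ℝ => Real.exp (-2 * y / n))
        (Real.exp (-2 * y / n) * (-2 / n)) y := by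
      have := (((hasDerivAt_id y).const_mul (-2)).div_const (n : ℝ)).exp
      simpa using this
    have h5 := ((h3.const_mul π).mul h1).add (((AC_der ha C y).mul h4).div h3 (hT0 y).ne')
    refine h5.congr_deriv ?_
    have := (hT0 y).ne'
    simp only [hG1, Pi.mul_apply]
    field_simp
    ring
  have hb : ∀ y ∈ Ioo u v, ∑ h ∈ c.cells C,
      Real.exp (-y / n) * Real.sqrt (2 * π * η (c.sig h) y * a h y) ≤ G1 y := by
    intro y hy
    obtain ⟨-, -, h1, h2, m, hm0, h3, h4⟩ := hs y hy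
    have h5 := ha.iso C y h1
    have h6 : 0 ≤ ∑ h ∈ c.cells C, a h y := Finset.sum_nonneg fun h _ => ha.nonneg h y
    have hE : Real.exp (-y / n) ^ 2 = Real.exp (-2 * y / n) := by
      rw [← Real.exp_nat_mul]
      congr 1
      push_cast
      ring
    calc _ ≤ ∑ h ∈ c.cells C, (π * T y * η (c.sig h) y / m +
          Real.exp (-y / n) ^ 2 * a h y * m / (2 * T y)) :=
          Finset.sum_le_sum fun h _ => amgm (hη _ _) (ha.nonneg h y) (hT0 y) hm0 (Real.exp_pos _)
      _ = π * T y * (c.etaC η C y / m) + Real.exp (-2 * y / n) / T y *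
          ((∑ h ∈ c.cells C, a h y) * m / 2) := by
          rw [Finset.sum_add_distrib, hE, Cmb.etaC, Finset.sum_div, Finset.mul_sum, Finset.sum_mul,
            Finset.sum_div, Finset.mul_sum]
          congr 1 <;> refine Finset.sum_congr rfl fun h _ => ?_ <;> ring
      _ ≤ G1 y := by
          have hp := Real.pi_pos
          have h7 := hT0 y
          apply add_le_add
          · gcongr
            rwa [div_le_iff₀' hm0]
          · gcongr
            have h8 : (W1 y + 2 / n) * (2 * AC c a C y) ≤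
                (W1 y + 2 / n) * (c.lamC C y * ∑ h ∈ c.cells C, a h y) :=
              mul_le_mul_of_nonneg_left h5 h2
            nlinarith [mul_le_mul_of_nonneg_right h3 h6]
  have h0 : ∀ y ∈ Ioo u v, 0 ≤ G1 y := fun y hy =>
    (Finset.sum_nonneg fun h _ => by positivity).trans (hb y hy)
  obtain ⟨k1, k2⟩ := lint_le huv hc hd h0
  have hTv : T v = t := by simp [hT]
  rw [hTv] at k1 k2
  refine ⟨k1, le_trans ?_ k2⟩
  unfold IC
  rw [← lintegral_finsetSum _ fun h _ => cost_meas hm ha h,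
    ← Measure.restrict_congr_set Ioo_ae_eq_Ioc]
  refine setLIntegral_mono' measurableSet_Ioo fun y hy => ?_
  unfold cost
  rw [← ENNReal.ofReal_sum_of_nonneg fun h _ => by positivity]
  exact ENNReal.ofReal_le_ofReal (hb y hy)

lemma IC_sup {c : Cmb n} {η : ℝ → ℝ → ℝ} (hm : ∀ s, Measurable (η s)) {a : c.H → ℝ → ℝ}
    (ha : Area c a) (C : Finset (Fin (n - 1))) {s : ℕ → Set ℝ} (hs : Monotone s) {B : ℝ≥0∞}
    (hB : ∀ k, IC c η a C (s k) ≤ B) : IC c η a C (⋃ k, s k) ≤ B := by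
  unfold IC at hB ⊢
  simp only [← lintegral_finsetSum _ fun h _ => cost_meas hm ha h] at hB ⊢
  rw [setLIntegral_iUnion_of_directed _ hs.directed_le]
  exact iSup_le hB

lemma sys {c : Cmb n} {η : ℝ → ℝ → ℝ} (hη : ∀ s y, 0 ≤ η s y) (hm : ∀ s, Measurable (η s))
    {a : c.H → ℝ → ℝ} (ha : Area c a) : Sys c η (SS c η a) := by
  have hp := Real.pi_pos
  refine ⟨fun C y q q' hq h t ht => ?_, fun C D y q q' hCD h h' t ht => ?_,
    fun C u v Q Q1 W W1 huv hQ hW hs h t ht => ?_, fun C v Q Q1 W W1 hQ hW hs t ht => ?_⟩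
  · have : GG c a C y q t ≤ GG c a C y q' t := by
      unfold GG
      gcongr
    exact ⟨(h t ht).1.trans this, (h t ht).2.trans (ENNReal.ofReal_le_ofReal this)⟩
  · have e : c.cells (C ∪ D) = c.cells C ∪ c.cells D := by
      ext x
      simp [Cmb.cells]
    have hd : Disjoint (c.cells C) (c.cells D) := by
      rw [Finset.disjoint_left] at hCD ⊢
      intro x h1 h2
      simp only [Cmb.cells, Finset.mem_filter] at h1 h2
      exact hCD h1.2 h2.2
    have e1 : GG c a (C ∪ D) y (q + q') t = GG c a C y q t + GG c a D y q' t := by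
      unfold GG AC
      rw [e, Finset.sum_union hd]
      ring
    have e2 : IC c η a (C ∪ D) (Iic y) = IC c η a C (Iic y) + IC c η a D (Iic y) := by
      unfold IC
      rw [e, Finset.sum_union hd]
    rw [e1, e2, ENNReal.ofReal_add (h t ht).1 (h' t ht).1]
    exact ⟨add_nonneg (h t ht).1 (h' t ht).1, add_le_add (h t ht).2 (h' t ht).2⟩
  · obtain ⟨k1, k2⟩ := prop hη hm ha C huv hQ hW hs ht
    obtain ⟨k3, k4⟩ := h (t * Real.exp (W u - W v)) (by positivity)
    refine ⟨k3.trans k1, ?_⟩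
    have e : IC c η a C (Iic v) = IC c η a C (Iic u) + IC c η a C (Ioc u v) := by
      unfold IC
      rw [← Finset.sum_add_distrib]
      refine Finset.sum_congr rfl fun h _ => ?_
      rw [← lintegral_union measurableSet_Ioc (Iic_disjoint_Ioc le_rfl), Iic_union_Ioc_eq_Iic huv]
    rw [e]
    refine (add_le_add k4 k2).trans_eq ?_
    rw [← ENNReal.ofReal_add k3 (sub_nonneg.mpr k1)]
    congr 1
    ring
  · have key : ∀ u < v, 0 ≤ GG c a C v (Q v) t ∧
        IC c η a C (Ioc u v) ≤ ENNReal.ofReal (GG c a C v (Q v) t) := by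
      intro u hu
      obtain ⟨k1, k2⟩ := prop hη hm ha C hu.le (hQ.mono Icc_subset_Iic_self)
        (hW.mono Icc_subset_Iic_self) (fun y hy => (hs y hy.2).2) ht
      have k3 : 0 ≤ GG c a C u (Q u) (t * Real.exp (W u - W v)) := by
        have := (hs u hu).1
        have := AC_nonneg ha C u
        unfold GG
        positivity
      exact ⟨k3.trans k1, k2.trans (ENNReal.ofReal_le_ofReal (by linarith))⟩
    refine ⟨(key (v - 1) (by linarith)).1, ?_⟩
    have e : Iic v = ⋃ k : ℕ, Ioc (v - (k + 1)) v := by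
      ext x
      simp only [mem_Iic, mem_iUnion, mem_Ioc]
      refine ⟨fun hx => ?_, fun ⟨_, h⟩ => h.2⟩
      obtain ⟨k, hk⟩ := exists_nat_gt (v - x)
      exact ⟨k, by linarith, hx⟩
    rw [e]
    refine IC_sup hm ha C (fun i j hij => Ioc_subset_Ioc_left ?_) fun k => (key _ ?_).2
    · have : (i : ℝ) ≤ j := by exact_mod_cast hij
      linarith
    · have : (0 : ℝ) ≤ k := k.cast_nonneg
      linarith

theorem bell (c : Cmb n) (η : ℝ → ℝ → ℝ) (hη : ∀ s y, 0 ≤ η s y)
    (hm : ∀ s, Measurable (η s)) (hN : NSt n η) (a : c.H → ℝ → ℝ) (ha : Area c a) :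
    ∑ h, ∫⁻ y, cost n (η (c.sig h) y) (a h y) y ≤ ENNReal.ofReal (2 * π) := by
  have hp := Real.pi_pos
  have hS := hN c _ (sys hη hm ha)
  have hc : c.cells Finset.univ = Finset.univ := by simp [Cmb.cells]
  have key : ∀ ε > 0, IC c η a Finset.univ univ ≤ ENNReal.ofReal (2 * π + ε) := by
    intro ε hε
    have e : (univ : Set ℝ) = ⋃ k : ℕ, Iic (k : ℝ) := by
      ext x
      simpa using exists_nat_ge x
    rw [e]
    refine IC_sup hm ha _ (fun i j hij => Iic_subset_Iic.mpr (by exact_mod_cast hij)) fun k => ?_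
    obtain ⟨y, hy, hy0, hyk⟩ := ((ha.fin (ε / π) (by positivity)).and
      ((eventually_ge_atTop 0).and (eventually_ge_atTop (k : ℝ)))).exists
    refine le_trans ?_ (((hS y hy0 1 one_pos).2).trans (ENNReal.ofReal_le_ofReal ?_))
    · exact Finset.sum_le_sum fun h _ => lintegral_mono_set (Iic_subset_Iic.mpr hyk)
    · unfold GG AC
      rw [hc]
      have h1 : Real.exp (2 * y / n) * Real.exp (-2 * y / n) = 1 := by
        rw [← Real.exp_add]
        simp [neg_div]
      have h2 := mul_le_mul_of_nonneg_right hy (Real.exp_pos (-2 * y / n)).le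
      rw [mul_assoc, h1] at h2
      have h3 : π * (1 + ε / π) = π + ε := by field_simp
      linarith
  have e : IC c η a Finset.univ univ = ∑ h, ∫⁻ y, cost n (η (c.sig h) y) (a h y) y := by
    simp [IC, hc]
  rw [← e]
  refine ENNReal.le_of_forall_pos_le_add fun ε hε _ => (key ε hε).trans_eq ?_
  rw [ENNReal.ofReal_add (by positivity) ε.coe_nonneg, ENNReal.ofReal_coe_nnreal]

end Pool.Agent.Lib.MP_f225de_an.Sk
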