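import Pool.Agent.Lib.MP_f225de_an.NU2
import Pool.Agent.Lib.MP_f225de_an.PF4

set_option autoImplicit false

open MeasureTheory Set
open scoped Real

namespace Pool.Agent.Lib.MP_f225de_an.Tb

open MA Sk Nu

variable {n N : ℕ} {r t m : ℝ}

lemma wt_mul_int (hn : 2 ≤ n) {f : ℝ → ℝ} (hf : ContinuousOn f (Icc 0 1)) (c : ℝ) :
    IntegrableOn (fun s => wt n s / c * f s) (Ioo 0 1) := by
  have := ((((integrableOn_Icc_iff_integrableOn_Ioo).2 (wt_int hn)).mul_continuousOn hf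
    isCompact_Icc).mono_set Ioo_subset_Icc_self).div_const c
  simp only [div_mul_eq_mul_div]
  exact this

/-- monotone likelihood ratio in the degree -/
lemma lr (hn : 2 ≤ n) (h : n ≤ N) {f : ℝ → ℝ} (hf : ContinuousOn f (Icc 0 1)) (hm : m ∈ Ioo 0 1)
    (hs : ∀ s ∈ Ioo (0 : ℝ) 1, (s ≤ m → f s ≤ 0) ∧ (m ≤ s → 0 ≤ f s)) (h0 : 0 ≤ ∫ s, f s ∂mu N) :
    0 ≤ ∫ s, f s ∂mu n := by
  have hN : 2 ≤ N := hn.trans h
  obtain ⟨d, hd⟩ : ∃ d : ℝ, d = 1 / n - 1 / N := ⟨_, rfl⟩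
  have d0 : 0 ≤ d := hd ▸ sub_nonneg.2 (one_div_le_one_div_of_le (by positivity) (Nat.cast_le.2 h))
  have mono : ∀ a ∈ Ioo (0 : ℝ) 1, ∀ b ∈ Ioo (0 : ℝ) 1, a ≤ b →
      a ^ d * (1 - a) ^ (-(d / 2)) ≤ b ^ d * (1 - b) ^ (-(d / 2)) := fun a ha b hb e =>
    mul_le_mul (Real.rpow_le_rpow ha.1.le e d0) (Real.rpow_le_rpow_of_nonpos (sub_pos.2 hb.2)
      (by linarith) (by linarith)) (Real.rpow_nonneg (sub_pos.2 ha.2).le _)
      (Real.rpow_nonneg hb.1.le _)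
  have e : ∀ s ∈ Ioo (0 : ℝ) 1, wt n s = wt N s * (s ^ d * (1 - s) ^ (-(d / 2))) := fun s hs => by
    rw [wt, wt, mul_mul_mul_comm, ← Real.rpow_add hs.1, ← Real.rpow_add (sub_pos.2 hs.2), hd]
    congr 2 <;> ring
  have p := m0_pos hn
  have q := m0_pos hN
  have c0 : 0 ≤ m ^ d * (1 - m) ^ (-(d / 2)) * (m0 N / m0 n) :=
    mul_nonneg (mul_nonneg (Real.rpow_nonneg hm.1.le _) (Real.rpow_nonneg (sub_pos.2 hm.2).le _))
      (by positivity)
  refine (mul_nonneg c0 h0).trans ?_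
  rw [int_mu hn, int_mu hN, ← integral_const_mul]
  refine setIntegral_mono_on ((wt_mul_int hN hf _).const_mul _) (wt_mul_int hn hf _)
    measurableSet_Ioo fun s h1 => ?_
  have w := div_pos (wt_pos (n := N) h1) p
  have : 0 ≤ (s ^ d * (1 - s) ^ (-(d / 2)) - m ^ d * (1 - m) ^ (-(d / 2))) * f s := by
    rcases le_total s m with a | a
    · exact mul_nonneg_of_nonpos_of_nonpos (sub_nonpos.2 (mono s h1 m hm a)) ((hs s h1).1 a)
    · exact mul_nonneg (sub_nonneg.2 (mono m hm s h1 a)) ((hs s h1).2 a)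
  rw [e s h1, ← sub_nonneg]
  refine (mul_nonneg w.le this).trans_eq ?_
  field_simp

lemma mean_bd (hn : 2 ≤ n) {W : ℝ → ℝ} (hW : ContinuousOn W (Icc 0 1))
    (h0 : ∀ s ∈ Ioo (0 : ℝ) 1, 0 ≤ W s) :
    0 ≤ ∫ s, s * W s ∂mu n ∧ ∫ s, s * W s ∂mu n ≤ ∫ s, W s ∂mu n :=
  ⟨integral_nonneg_of_ae ((mu_ae n).mono fun s hs => mul_nonneg hs.1.le (h0 s hs)),
    mu_mono hn (by fun_prop) hW fun s hs => mul_le_of_le_one_left (h0 s hs) hs.2.le⟩

lemma mean_sub (hn : 2 ≤ n) {W : ℝ → ℝ} (hW : ContinuousOn W (Icc 0 1)) (m : ℝ) :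
    ∫ s, (s - m) * W s ∂mu n = ∫ s, s * W s ∂mu n - m * ∫ s, W s ∂mu n :=
  (mu_congr fun s _ => by ring).trans
    ((mu_lin hn (f := fun s => s * W s) (by fun_prop) hW 1 (-m)).trans (by ring))

/-- weighted means of `s` decrease with the degree -/
lemma mean_anti (hn : 2 ≤ n) (h : n ≤ N) {W : ℝ → ℝ} (hW : ContinuousOn W (Icc 0 1))
    (h0 : ∀ s ∈ Ioo (0 : ℝ) 1, 0 ≤ W s) (p : 0 < ∫ s, W s ∂mu n) (q : 0 < ∫ s, W s ∂mu N) :
    (∫ s, s * W s ∂mu N) / ∫ s, W s ∂mu N ≤ (∫ s, s * W s ∂mu n) / ∫ s, W s ∂mu n := by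
  refine le_of_forall_lt_imp_le_of_dense fun m hm => le_of_not_gt fun hm' => ?_
  have a := div_nonneg (mean_bd hn hW h0).1 p.le
  have b := (div_le_one q).2 (mean_bd (hn.trans h) hW h0).2
  have := lr hn h (f := fun s => (s - m) * W s) (by fun_prop) ⟨a.trans_lt hm', hm.trans_le b⟩
    (fun s hs => ⟨fun e => mul_nonpos_of_nonpos_of_nonneg (sub_nonpos.2 e) (h0 s hs),
      fun e => mul_nonneg (sub_nonneg.2 e) (h0 s hs)⟩)
    (by rw [mean_sub (hn.trans h) hW, sub_nonneg]; exact ((lt_div_iff₀ q).1 hm).le)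
  rw [mean_sub hn hW, sub_nonneg, ← le_div_iff₀ p] at this
  exact this.not_gt hm'

/-- the mean of `s` for the weight of `Kf` -/
noncomputable def sb (n : ℕ) (r : ℝ) : ℝ := Ms n r / Kf n r

theorem sb_bd (hn : 2 ≤ n) (hr : 0 < r) : 0 ≤ sb n r ∧ sb n r ≤ 1 :=
  have := mean_bd hn (W_cont hr) fun _ hs => (W_pos hr hs.1).le
  ⟨div_nonneg this.1 (K_pos hn hr).le, (div_le_one (K_pos hn hr)).2 this.2⟩

theorem sb_anti (hn : 2 ≤ n) (h : n ≤ N) (hr : 0 < r) : sb N r ≤ sb n r :=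
  mean_anti hn h (W_cont hr) (fun _ hs => (W_pos hr hs.1).le) (K_pos hn hr) (K_pos (hn.trans h) hr)

theorem P_deg (hn : 2 ≤ n) (h : n ≤ N) (hr : 0 < r) : Pf n r ≤ Pf N r := by
  have p := P_pos hn hr
  have q := P_pos (hn.trans h) hr
  have := mean_anti hn h (a_cont hr) (fun _ hs => (div_pos hr (add_pos hr hs.1)).le) p q
  have a := mean_s hn hr 0
  have b := mean_s (hn.trans h) hr 0
  simp only [sub_zero, zero_mul] at a b
  rw [a, b, ← Pf, ← Pf, div_le_div_iff₀ q p] at this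
  nlinarith

theorem sb_mono (hn : 2 ≤ n) (hr : 0 < r) (h : r ≤ t) : sb n r ≤ sb n t := by
  have ht := hr.trans_le h
  have m0 := (sb_bd hn hr).1
  have := mu_mono hn (f := fun s => t * (r + sb n r) ^ 2 / (r * (t + sb n r) ^ 2) *
      ((s - sb n r) * Wf r s)) (g := fun s => (s - sb n r) * Wf t s)
    (by have := W_cont hr; fun_prop) (by have := W_cont ht; fun_prop) fun s hs => by
      have := hs.1
      have := sub_nonneg.2 h
      generalize sb n r = m at *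
      rw [← sub_nonneg]
      refine le_of_le_of_eq (by positivity : 0 ≤ s * t * (t - r) * (s - m) ^ 2 *
        ((r + s) * (t + m) + (r + m) * (t + s)) / ((t + s) ^ 2 * (r + s) ^ 2 * (t + m) ^ 2)) ?_
      unfold Wf
      field_simp
      ring
  rw [integral_const_mul, mean_sub hn (W_cont hr), mean_sub hn (W_cont ht)] at this
  change _ * (Ms n r - _ * Kf n r) ≤ Ms n t - _ * Kf n t at this
  rwa [sb, div_mul_cancel₀ _ (K_pos hn hr).ne', sub_self, mul_zero, sub_nonneg,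
    ← le_div_iff₀ (K_pos hn ht)] at this

lemma ar_U (hn : 2 ≤ n) (hr : 0 < r) : ar n r = (1 + (1 - 1 / n) / 2 * Uf n r) / (1 + r) := by
  have := P_pos hn hr
  rw [ar, K_U hn hr, v1]
  field_simp
  ring

theorem sb_U (hn : 2 ≤ n) (hr : 0 < r) : sb n r = (1 + (1 + 1 / n) / 2 * r -
    (1 + r) / (1 + (1 - 1 / n) / 2 * Uf n r)) / ((1 - 1 / n) / 2) := by
  have p := P_pos hn hr
  have u := U_nonneg hn hr
  have hg := gam_bd hn
  have n0 : (0 : ℝ) < n := by positivity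
  rw [sb, ← mul_div_mul_left _ _ n0.ne', (M_U hn hr).1, K_U hn hr, v1]
  generalize (1 : ℝ) / n = g at *
  have : 0 < 1 - g := by linarith
  have : 0 < 2 + (1 - g) * Uf n r := by positivity
  have e : 1 - r / (1 + r) = 1 / (1 + r) := by field_simp; ring
  rw [e]
  field_simp
  ring

theorem ar_sb (hn : 2 ≤ n) (hr : 0 < r) :
    ar n r = (1 + (1 + 1 / n) / 2 * r - (1 - 1 / n) / 2 * sb n r)⁻¹ := by
  have g := gam_bd hn
  rw [sb_U hn hr, mul_div_cancel₀ _ (by linarith), sub_sub_cancel, inv_div, ar_U hn hr]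

theorem ar_pos (hn : 2 ≤ n) (hr : 0 < r) : 0 < ar n r :=
  div_pos (mul_pos (by positivity) (K_pos hn hr)) (P_pos hn hr)

theorem ar_le (hn : 4 ≤ n) (hr : 0 < r) : ar n r ≤ 11 / 10 ∧ (n = 4 → ar n r ≤ 271 / 250) :=
  ⟨(div_le_iff₀ (P_pos (by omega) hr)).2 (al_le hn hr), by
    rintro rfl
    exact (div_le_iff₀ (P_pos (by omega) hr)).2 (al_four hr)⟩

theorem rK_eq (hn : 2 ≤ n) (hr : 0 < r) : n * r * Kf n r = r * ar n r * Pf n r := by
  have := P_pos hn hr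
  rw [ar]
  field_simp

theorem rK_le (hn : 2 ≤ n) (hr : 0 < r) : n * r * Kf n r ≤ 2 := by
  have g := gam_bd hn
  have u := U_le hn hr
  rw [le_div_iff₀ (by linarith)] at u
  have a : r * ar n r ≤ 2 := by
    rw [ar_U hn hr, ← mul_div_assoc, div_le_iff₀ (by linarith)]
    nlinarith [U_nonneg hn hr, mul_nonneg g.1.le (U_nonneg hn hr)]
  rw [rK_eq hn hr]
  exact (mul_le_of_le_one_right (mul_pos hr (ar_pos hn hr)).le (P_le hn hr)).trans a

theorem U_two (hn : 2 ≤ n) (hr : 0 < r) : Uf n r ≤ 2 := by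
  have g := gam_bd hn
  refine (U_le hn hr).trans ?_
  rw [div_le_iff₀ (by linarith)]
  linarith

theorem cor_le (hr : 0 < r) :
    0 ≤ cor (π / 2) (Real.log r) ∧ cor (π / 2) (Real.log r) ≤ (max 1 r)⁻¹ := by
  rw [cor, Real.exp_log hr, Real.sin_pi_div_two]
  have p := Real.pi_pos
  refine ⟨mul_nonneg (by positivity) (Real.arcsin_nonneg.2 (by positivity)), ?_⟩
  rw [div_mul_eq_mul_div, div_le_iff₀ p]
  rcases le_total r 1 with e | e
  · rw [max_eq_left e]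
    linarith [Real.arcsin_le_pi_div_two (1 / r)]
  · have a : (1 : ℝ) / r ≤ 1 := div_le_one_of_le₀ e hr.le
    have b : (0 : ℝ) ≤ 1 / r := by positivity
    have := (Real.arcsin_le_arcsin (Real.le_sin_mul b a)).trans_eq
      (Real.arcsin_sin (le_trans (by linarith) (by positivity : 0 ≤ π / 2 * (1 / r)))
        (mul_le_of_le_one_right (by positivity) a))
    rw [max_eq_right e, inv_eq_one_div]
    linarith

end Pool.Agent.Lib.MP_f225de_an.Tb
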