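import Pool.Agent.Lib.MP_f225de_an.TB1

set_option autoImplicit false

open Set Filter Topology
open scoped Real

namespace Pool.Agent.Lib.MP_f225de_an.Tb

open MA Sk Nu Iv

variable {n : ℕ} {g r s u : ℝ} {G I J : Iv} {R : Run}

/-- enclosure of `(1 + g) / 2` -/
def eI (G : Iv) : Iv := mulQ (nat_lit 1) (nat_lit 2) (add one G)

/-- enclosure of `(1 - g) / 2` -/
def dI (G : Iv) : Iv := mulQ (nat_lit 1) (nat_lit 2) (sub one G)

lemma mem_eI (h : mem g G) : mem ((1 + g) / 2) (eI G) :=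
  ((mem_one.add h).mulQ 1 two_pos).congr (by push_cast; ring)

lemma mem_dI (h : mem g G) : mem ((1 - g) / 2) (dI G) :=
  ((mem_one.sub h).mulQ 1 two_pos).congr (by push_cast; ring)

/-- enclosure of `1 / (1 + e r - d s)` -/
def al0 (G r s : Iv) : Iv :=
  inv (raise (nat_lit 9223372036854775808) (sub (add one (mulP (eI G) r)) (mulL (dI G) s)))

lemma mem_al0 (hg : mem g G) (g0 : 0 ≤ g) (g1 : g ≤ 1) (hr : mem r I) (r0 : 0 ≤ r) (hs : mem s J)
    (s1 : s ≤ 1) : mem (1 + (1 + g) / 2 * r - (1 - g) / 2 * s)⁻¹ (al0 G I J) :=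
  (((mem_one.add ((mem_eI hg).mulP (by positivity) r0 hr)).sub ((mem_dI hg).mulL (by linarith)
    hs)).raise (by
      have : ((nat_lit 9223372036854775808 : ℕ) : ℝ) = 2 ^ 64 * (1 / 2) := by norm_num
      rw [this]
      nlinarith [mul_nonneg g0 r0])).inv (pos_raise (by norm_num) _)

/-- global upper bound of `α` -/
def abar (R : Run) : ℕ :=
  cond R.four (ofQ (nat_lit 271) (nat_lit 250)).h (ofQ (nat_lit 11) (nat_lit 10)).h

lemma four_le (h : R.ok n) : 4 ≤ n := h.2.1.trans h.2.2.1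

lemma U_abar (h : R.ok n) (hr : 0 < r) : U (ar n r) (abar R) := by
  have := ar_le (four_le h) hr
  unfold abar
  cases e : R.four
  · exact (mem_ofQ 11 (by norm_num)).2.mono (by exact_mod_cast this.1) le_rfl
  · exact (mem_ofQ 271 (by norm_num)).2.mono (by exact_mod_cast this.2 (h.1.1 e)) le_rfl

/-- cut an enclosure of `α` at the global bound -/
def cutA (R : Run) (A : Iv) : Iv := ⟨A.l, mn A.h (abar R)⟩

/-- enclosure of `α` from enclosures of `r` and of `Ms / K` -/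
def alI (R : Run) (r s : Iv) : Iv := cutA R (al0 R.g r s)

theorem mem_alI (h : R.ok n) (r0 : 0 < r) (hr : mem r I) (hs : mem (Ms n r / Kf n r) J) :
    mem (ar n r) (alI R I J) := by
  have h2 : 2 ≤ n := (four_le h).trans' (by norm_num)
  have := (mem_al0 h.2.2.2 (gam_bd h2).1.le ((gam_bd h2).2.trans (by norm_num)) hr r0.le hs
    (sb_bd h2 r0).2).congr (ar_sb h2 r0).symm
  exact ⟨this.1, this.2.min (U_abar h r0)⟩

theorem alSpec (h : R.ok n) : AlSpec n (alI R) := fun _ _ _ r0 hr hs => mem_alI h r0 hr hs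

/-- enclosure of `Ms / K` from an enclosure of `U` -/
def sbI (G r u : Iv) : Iv := div (sub (add one (mulP (eI G) r)) (divP (add one r)
  (raise (nat_lit 18446744073709551616) (add one (mulP (dI G) u))))) (raise (nat_lit 4611686018427387904) (dI G))

lemma mem_sbI (hn : 2 ≤ n) (r0 : 0 < r) (hg : mem (1 / n) G) (hr : mem r I) (hu : mem (Uf n r) J) :
    mem (sb n r) (sbI G I J) := by
  have g := gam_bd hn
  have u := U_nonneg hn r0
  have d : (0 : ℝ) ≤ (1 - 1 / n) / 2 := by linarith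
  refine (((mem_one.add ((mem_eI hg).mulP (by positivity) r0.le hr)).sub ((mem_one.add hr).divP
    (by positivity) ((mem_one.add ((mem_dI hg).mulP d u hu)).raise ?_)
    (pos_raise (by norm_num) _))).div ((mem_dI hg).raise ?_)
    (pos_raise (by norm_num) _)).congr (sb_U hn r0).symm
  · rw [S_eq]
    linarith [mul_nonneg d u]
  · rw [show ((nat_lit 4611686018427387904 : ℕ) : ℝ) = 2 ^ 64 * (1 / 4) by norm_num]
    linarith

/-- enclosure of `P` at the point `k / 2^64` from an enclosure of `U` -/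
def pI (G : Iv) (k : ℕ) (u : Iv) : Iv := divP (ofS k k) (raise k (add (ofS k k) (mulP G u)))

lemma mem_key (k : ℕ) : mem (k / 2 ^ 64) (ofS k k) := mem_ofS (by linarith) (by linarith)

lemma mem_pI (hn : 2 ≤ n) {k : ℕ} (k0 : 0 < k) (hg : mem (1 / n) G)
    (hu : mem (Uf n (k / 2 ^ 64)) J) : mem (Pf n (k / 2 ^ 64)) (pI G k J) := by
  have r0 : (0 : ℝ) < k / 2 ^ 64 := by positivity
  have g := (gam_bd hn).1.le
  have u := U_nonneg hn r0
  exact ((mem_key k).divP r0.le (((mem_key k).add (hg.mulP g u hu)).raise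
    (by linarith [mul_nonneg g u])) (pos_raise k0 _)).congr (P_U hn r0).symm

/-- data of one node of the table -/
structure Nd where
  sl : ℕ
  pl : ℕ
  kl : ℕ
  fr : ℕ
  sh : ℕ
  ph : ℕ
  fl : ℕ
  f : ℕ
  ul : ℕ
  uh : ℕ
  N : ℕ

/-- search trees of nodes; the key `k` stands for the radius `k / 2^64` -/
inductive Tr
  | leaf
  | node (l : Tr) (k : ℕ) (d : Nd) (r : Tr)

/-- a table -/
structure Tab where
  n1 : ℕ
  a : ℕ
  fm : ℕ
  T : Tr

/-- enclosure of the inverse of the upper reference degree -/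
def g1I (n1 a : ℕ) : Iv := span (ofQ a n1) (ofQ (nat_lit 1) n1)

/-- check of one node -/
def ndOK (R : Run) (n1 a k : ℕ) (d : Nd) : Bool :=
  Nat.ble (nat_lit 1) k &&
  Uhi (nat_lit 1) (nat_lit 1) R.n0 k (nat_lit 18446744073709551616) d.uh (nat_lit 18446744073709551616) d.N &&
  Ulo a (nat_lit 1) n1 k (nat_lit 18446744073709551616) d.ul (nat_lit 18446744073709551616) d.N &&
  Nat.ble (sbI (ofQ (nat_lit 1) R.n0) (ofS k k) (ofS (nat_lit 0) d.uh)).h d.sh &&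
  Nat.ble (pI (ofQ (nat_lit 1) R.n0) k (ofS (nat_lit 0) d.uh)).l d.pl &&
  Nat.ble (sbI (g1I n1 a) (ofS k k) (ofS d.ul (nat_lit 36893488147419103232))).l d.sl &&
  Nat.ble (pI (g1I n1 a) k (ofS d.ul (nat_lit 36893488147419103232))).h d.ph &&
  Nat.ble (mulP (mulP (ofS k k) (alI R (ofS k k) ⟨d.sl, one.h⟩)) ⟨d.pl, one.h⟩).l d.kl

/-- check of the upper reference degree -/
def refOK (R : Run) (n1 a : ℕ) : Bool :=
  Nat.ble (nat_lit 2) n1 &&
    (Nat.beq a (nat_lit 0) || Nat.beq a (nat_lit 1) && lt (ofQ (nat_lit 1) (Nat.succ n1)) R.g)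

/-- what a node says on the right of its key -/
def Lo (n : ℕ) (d : Nd) (r : ℝ) : Prop :=
  U (-sb n r) d.sl ∧ U (-Pf n r) d.pl ∧ U (-(n * r * Kf n r)) d.kl

/-- what a node says on the left of its key -/
def Hi (n : ℕ) (d : Nd) (r : ℝ) : Prop := U (sb n r) d.sh ∧ U (Pf n r) d.ph

lemma ref_ok (h : R.ok n) {n1 a : ℕ} (e : refOK R n1 a = true) :
    ∃ N, n ≤ N ∧ a * N ≤ n1 ∧ n1 ≤ 1 * N ∧ 0 < n1 := by
  have h4 := four_le h
  simp only [refOK, Bool.and_eq_true, Bool.or_eq_true, Nat.ble_eq, Nat.beq_eq] at e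
  obtain ⟨e1, rfl | ⟨rfl, e2⟩⟩ := e
  · exact ⟨max n n1, le_max_left _ _, by simp, by simp, by omega⟩
  · have := (mem_ofQ 1 n1.succ_pos).lt h.2.2.2 e2
    rw [Nat.cast_one, one_div_lt_one_div (by positivity) (by positivity), Nat.cast_lt] at this
    exact ⟨n1, by omega, by omega, by omega, by omega⟩

theorem nd_ok (h : R.ok n) {n1 a k : ℕ} {d : Nd} (e0 : refOK R n1 a = true)
    (e : ndOK R n1 a k d = true) : 0 < k ∧ (∀ r, (k : ℝ) / 2 ^ 64 ≤ r → Lo n d r) ∧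
      ∀ r, 0 < r → r ≤ (k : ℝ) / 2 ^ 64 → Hi n d r := by
  obtain ⟨N, h1, h2, h3, h4⟩ := ref_ok h e0
  have hn : 2 ≤ n := (four_le h).trans' (by norm_num)
  have h0 : 2 ≤ R.n0 := h.2.1.trans' (by norm_num)
  simp only [ndOK, Bool.and_eq_true, Nat.ble_eq] at e
  obtain ⟨⟨⟨⟨⟨⟨⟨k0, e1⟩, e2⟩, e3⟩, e4⟩, e5⟩, e6⟩, e7⟩ := e
  have r0 : (0 : ℝ) < k / 2 ^ 64 := by positivity
  have u1 := Uhi_ok h0 k0 (by norm_num) (by omega) (by omega) (by omega) (by omega) e1
  have u2 := Ulo_ok (hn.trans h1) k0 (by norm_num) h4 h2 h3 e2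
  rw [show ((18446744073709551616 : ℕ) : ℝ) = 2 ^ 64 by norm_num] at u1 u2
  have m1 : mem (Uf R.n0 (k / 2 ^ 64)) (ofS 0 d.uh) :=
    mem_ofS (by rw [Nat.cast_zero]; have := U_nonneg h0 r0; positivity) u1
  have m2 : mem (Uf N (k / 2 ^ 64)) (ofS d.ul 36893488147419103232) :=
    mem_ofS u2 (by have := U_two (hn.trans h1) r0; push_cast; linarith)
  have g0 : mem (1 / R.n0) (ofQ 1 R.n0) := (mem_ofQ 1 (by omega)).congr (by rw [Nat.cast_one])
  have g1 : mem (1 / N) (g1I n1 a) := (mem_ofQ a h4).span (mem_ofQ 1 h4)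
    (g_lo (hn.trans h1) h4 h2) (g_hi (hn.trans h1) h4 h3)
  have a1 := (mem_sbI (hn.trans h1) r0 g1 (mem_key k) m2).1.mono
    (neg_le_neg (sb_anti hn h1 r0)) e5
  have a2 := (mem_pI h0 k0 g0 m1).1.mono (neg_le_neg (P_deg h0 h.2.2.1 r0)) e4
  have a3 := ((mem_key k).mulP r0.le (ar_pos hn r0).le (mem_alI h r0 (mem_key k) (J := ⟨d.sl, one.h⟩)
    ⟨a1, mem_one.2.mono (sb_bd hn r0).2 le_rfl⟩)).mulP (mul_pos r0 (ar_pos hn r0)).le
    (P_pos hn r0).le (J := ⟨d.pl, one.h⟩) ⟨a2, mem_one.2.mono (P_le hn r0) le_rfl⟩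
  refine ⟨k0, fun r hr => ⟨a1.mono (neg_le_neg (sb_mono hn r0 hr)) le_rfl,
    a2.mono (neg_le_neg (P_mono hn r0 hr)) le_rfl, a3.1.mono (neg_le_neg ?_) e7⟩, fun r a hr =>
    ⟨(mem_sbI h0 r0 g0 (mem_key k) m1).2.mono
      ((sb_mono hn a hr).trans (sb_anti h0 h.2.2.1 r0)) e3,
    (mem_pI (hn.trans h1) k0 g1 m2).2.mono ((P_mono hn a hr).trans (P_deg hn h1 r0)) e6⟩⟩
  rw [← rK_eq hn r0, mul_assoc, mul_assoc]
  exact mul_le_mul_of_nonneg_left (rK_mono hn r0 hr) n.cast_nonneg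

end Pool.Agent.Lib.MP_f225de_an.Tb
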