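import Pool.Agent.Lib.MP_f225de_an.TB2

set_option autoImplicit false

open Set Filter Topology
open scoped Real

namespace Pool.Agent.Lib.MP_f225de_an.Tb

open MA Sk Nu Iv

variable {n k c : ℕ} {r F D : ℝ} {I : Iv} {R : Run}

lemma val_mono {a b : ℕ} (h : a ≤ b) : val a ≤ val b :=
  U_iff.1 ((U_iff.2 le_rfl).mono le_rfl h)

/-- upper bound of `α` on the right of `k / 2^64`, `c` being a bound of `Ms / K` -/
def au (R : Run) (k c : ℕ) : ℕ := mn (al0 R.g (ofS k k) ⟨zero.l, c⟩).h (abar R)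

lemma U_au (h : R.ok n) (r0 : 0 < r) (hk : (k : ℝ) / 2 ^ 64 ≤ r) (hc : U (sb n r) c) :
    U (ar n r) (au R k c) := by
  have h2 : 2 ≤ n := (four_le h).trans' (by norm_num)
  have g := gam_bd h2
  have s := sb_bd h2 r0
  have k0 : (0 : ℝ) ≤ k / 2 ^ 64 := by positivity
  refine ((mem_al0 h.2.2.2 g.1.le (g.2.trans (by norm_num)) (mem_key k) k0 (J := ⟨zero.l, c⟩)
    ⟨mem_zero.1.mono (by linarith) le_rfl, hc⟩ s.2).2.mono ?_ le_rfl).min (U_abar h r0)
  rw [ar_sb h2 r0]
  exact inv_anti₀ (by nlinarith [mul_nonneg g.1.le k0]) (by nlinarith)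

/-- the differential inequality for `F` -/
def Sup (n : ℕ) (r F D : ℝ) : Prop :=
  2 * ar n r ≤ D + ((2 - ar n r) / 2 + (2 * ar n r - 2) / n) * F

/-- the coefficient of `F` -/
def cf (G A : Iv) : Iv := add (mulQ (nat_lit 1) (nat_lit 2) (sub (ofN (nat_lit 2)) A))
  (mulL G (sub (mulN (nat_lit 2) A) (ofN (nat_lit 2))))

/-- check of the differential inequality -/
def supOK (R : Run) (a : ℕ) (I : Iv) (f : ℕ) : Bool :=
  nonneg (cf R.g (pt a)) && le (mulN (nat_lit 2) (pt a)) (add I (mulP (cf R.g (pt a)) (pt f)))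

lemma sup_ok (h : R.ok n) {a f : ℕ} (ha : U (ar n r) a) (hD : mem D I) (f0 : 0 ≤ val f)
    (hF : val f ≤ F) (e : supOK R a I f = true) : Sup n r F D := by
  have h4 : (4 : ℝ) ≤ n := by exact_mod_cast four_le h
  have g0 : (0 : ℝ) ≤ 1 / n := by positivity
  have g1 : (1 : ℝ) / n ≤ 1 / 4 := one_div_le_one_div_of_le (by norm_num) h4
  rw [supOK, Bool.and_eq_true] at e
  have m : mem _ (cf R.g (pt a)) := (((mem_ofN 2).sub (mem_pt a)).mulQ 1 two_pos).add
    (h.2.2.2.mulL g0 (((mem_pt a).mulN 2).sub (mem_ofN 2)))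
  have e1 := m.nonneg e.1
  have e2 := ((mem_pt a).mulN 2).le (hD.add (m.mulP e1 f0 (mem_pt f))) e.2
  have e3 := U_iff.1 ha
  rw [Sup, div_eq_mul_one_div _ (n : ℝ)]
  push_cast at e1 e2
  generalize (1 : ℝ) / n = g at *
  nlinarith [mul_le_mul_of_nonneg_left hF e1, mul_nonneg (f0.trans hF)
    (mul_nonneg (sub_nonneg.2 e3) (sub_nonneg.2 g1))]

/-- radius of a node -/
noncomputable def kr (a : ℕ × Nd) : ℝ := a.1 / 2 ^ 64

/-- slope of `F` between two nodes -/
noncomputable def slo (a b : ℕ × Nd) : ℝ := (val b.2.f - val a.2.f) / (kr b - kr a)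

/-- piecewise linear interpolation -/
noncomputable def Fl : List (ℕ × Nd) → ℕ × Nd → ℝ → ℝ
  | [], a, _ => val a.2.f
  | b :: t, a, r => if r ≤ kr b then val a.2.f + slo a b * (max r (kr a) - kr a) else Fl t b r

/-- code of `19 / 5` -/
def f0 : ℕ := (ofQ (nat_lit 19) (nat_lit 5)).h

lemma f0_le {f : ℕ} (h : f0 ≤ f) : 19 / 5 ≤ val f :=
  U_iff.1 ((mem_ofQ 19 (by norm_num : 0 < 5)).2.mono (by norm_num) h)

/-- check of the cell between two nodes -/
def cell (R : Run) (a b : ℕ × Nd) : Bool :=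
  pos (ofS (Nat.sub b.1 a.1) (Nat.sub b.1 a.1)) && Nat.ble f0 b.2.f && Nat.ble a.2.fl b.2.fl &&
  Nat.ble b.2.f b.2.fl && Nat.ble b.2.fr a.2.fr && Nat.ble a.2.f a.2.fr &&
  supOK R (au R a.1 b.2.sh) (mulL (ofS a.1 b.1) (div (sub (pt b.2.f) (pt a.2.f))
    (ofS (Nat.sub b.1 a.1) (Nat.sub b.1 a.1)))) (mn a.2.f b.2.f)

/-- check of all cells on the right of a node -/
def chk (R : Run) (L : List (ℕ × Nd)) : ℕ × Nd → Bool :=
  List.rec (fun a => Nat.ble a.2.f a.2.fr && supOK R (au R a.1 one.h) zero a.2.f)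
    (fun b _ f a => cell R a b && f b) L

lemma chk_ok (h : R.ok n) (L : List (ℕ × Nd)) : ∀ a : ℕ × Nd, chk R L a = true →
    19 / 5 ≤ val a.2.f → a.2.f ≤ a.2.fl →
    (∀ d ∈ L, ∀ r, 0 < r → r ≤ kr d → U (sb n r) d.2.sh) →
    Continuous (Fl L a) ∧ (∀ r ≤ kr a, Fl L a r = val a.2.f) ∧
    (∀ r, 19 / 5 ≤ Fl L a r ∧ Fl L a r ≤ val a.2.fr) ∧
    (∀ r, kr a < r → (∀ d ∈ L, r ≠ kr d) →
      ∃ D, HasDerivAt (Fl L a) D r ∧ Sup n r (Fl L a r) (D * r)) ∧
    ∀ d ∈ L, kr a < kr d ∧ a.2.fl ≤ d.2.fl ∧ (∀ r, kr d ≤ r → Fl L a r ≤ val d.2.fr) ∧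
      ∀ r ≤ kr d, Fl L a r ≤ val d.2.fl := by
  have h2 : 2 ≤ n := (four_le h).trans' (by norm_num)
  have k0 : ∀ a, 0 ≤ kr a := fun a => by unfold kr; positivity
  induction L with
  | nil =>
    intro a e a1 _ _
    replace e : (Nat.ble a.2.f a.2.fr && supOK R (au R a.1 one.h) zero a.2.f) = true := e
    rw [Bool.and_eq_true, Nat.ble_eq] at e
    refine ⟨continuous_const, fun _ _ => rfl, fun _ => ⟨a1, val_mono e.1⟩, fun r hr _ =>
      ⟨0, hasDerivAt_const r _, ?_⟩, by simp⟩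
    have r0 := (k0 a).trans_lt hr
    exact sup_ok h (U_au h r0 hr.le (mem_one.2.mono (sb_bd h2 r0).2 le_rfl))
      (mem_zero.congr (zero_mul r).symm) (by linarith) le_rfl e.2
  | cons b t ih =>
    intro a e a1 a2 H
    replace e : (cell R a b && chk R t b) = true := e
    simp only [cell, Bool.and_eq_true, Nat.ble_eq] at e
    obtain ⟨⟨⟨⟨⟨⟨⟨e1, e2⟩, e3⟩, e4⟩, e5⟩, e6⟩, e7⟩, e8⟩ := e
    have b1 := f0_le e2
    obtain ⟨c1, c2, c3, c4, c5⟩ := ih b e8 b1 e4 fun d hd => H d (List.mem_cons_of_mem _ hd)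
    have ab : a.1 < b.1 := by
      have := (mem_key _).pos e1
      exact Nat.lt_of_sub_pos (by exact_mod_cast (div_pos_iff_of_pos_right (by positivity)).1 this)
    have md : mem (kr b - kr a) (ofS (Nat.sub b.1 a.1) (Nat.sub b.1 a.1)) := (mem_key _).congr
      (by rw [show Nat.sub b.1 a.1 = b.1 - a.1 from rfl, Nat.cast_sub ab.le, sub_div]; rfl)
    have d0 := md.pos e1
    have eb : val a.2.f + slo a b * (max (kr b) (kr a) - kr a) = val b.2.f := by
      rw [max_eq_left (by linarith), slo, div_mul_cancel₀ _ d0.ne', add_sub_cancel]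
    have bd : ∀ r ≤ kr b, min (val a.2.f) (val b.2.f) ≤ Fl (b :: t) a r ∧
        Fl (b :: t) a r ≤ max (val a.2.f) (val b.2.f) := fun r hr => by
      have u0 : 0 ≤ max r (kr a) - kr a := sub_nonneg.2 (le_max_right _ _)
      have u1 : max r (kr a) ≤ max (kr b) (kr a) := max_le_max_right _ hr
      rw [Fl, if_pos hr]
      rcases le_total 0 (slo a b) with s | s
      · exact ⟨(min_le_left _ _).trans (by nlinarith), le_trans (by nlinarith) (le_max_right _ _)⟩
      · exact ⟨(min_le_right _ _).trans (by nlinarith), le_trans (by nlinarith) (le_max_left _ _)⟩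
    have rt : ∀ r, kr b ≤ r → Fl (b :: t) a r = Fl t b r := fun r hr => by
      rw [Fl]
      split_ifs with e
      · rw [le_antisymm e hr, eb, c2 _ le_rfl]
      · rfl
    have b2 : val b.2.f ≤ val b.2.fr := (c2 _ le_rfl).ge.trans (c3 _).2
    refine ⟨Continuous.if_le (by fun_prop) c1 continuous_id continuous_const ?_, fun r hr => ?_,
      fun r => ?_, fun r hr hd => ?_, fun d hd => ?_⟩
    · rintro _ rfl
      exact eb.trans (c2 _ le_rfl).symm
    · rw [Fl, if_pos (by linarith), max_eq_right hr, sub_self, mul_zero, add_zero]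
    · rcases le_total r (kr b) with e | e
      · exact ⟨(le_min a1 b1).trans (bd r e).1,
          (bd r e).2.trans (max_le (val_mono e6) (b2.trans (val_mono e5)))⟩
      · rw [rt r e]
        exact ⟨(c3 r).1, (c3 r).2.trans (val_mono e5)⟩
    · have r0 := (k0 a).trans_lt hr
      rcases lt_or_gt_of_ne (hd b List.mem_cons_self) with e | e
      · refine ⟨slo a b, HasDerivAt.congr_of_eventuallyEq (f := fun r => val a.2.f + slo a b *
          (r - kr a)) (((((hasDerivAt_id' r).sub_const _).const_mul _).const_add _).congr_deriv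
          (mul_one _)) (mem_of_superset (Ioo_mem_nhds hr e) fun u hu => ?_), ?_⟩
        · simp only [mem_ofPred_eq, Fl, if_pos hu.2.le, max_eq_left hu.1.le]
        have hm : val (mn a.2.f b.2.f) = min (val a.2.f) (val b.2.f) := by
          rw [mn_eq]
          exact Monotone.map_min fun _ _ => val_mono
        exact sup_ok h (U_au h r0 hr.le (H b List.mem_cons_self r r0 e.le))
          ((((mem_key _).span (mem_key _) hr.le e.le).mulL r0.le
            (((mem_pt _).sub (mem_pt _)).div md e1)).congr (mul_comm _ _))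
          (hm ▸ le_min (by linarith) (by linarith)) (hm ▸ (bd r e.le).1) e7
      · obtain ⟨D, d1, d2⟩ := c4 r e fun d hd' => hd d (List.mem_cons_of_mem _ hd')
        exact ⟨D, d1.congr_of_eventuallyEq (mem_of_superset (Ioi_mem_nhds e) fun u hu =>
          rt u (le_of_lt hu)), rt r e.le ▸ d2⟩
    · have l1 : ∀ r ≤ kr b, Fl (b :: t) a r ≤ val b.2.fl := fun r hr =>
        (bd r hr).2.trans (max_le (val_mono (a2.trans e3)) (val_mono e4))
      rcases List.mem_cons.1 hd with rfl | hd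
      · exact ⟨by linarith, e3, fun r hr => rt r hr ▸ (c3 r).2, l1⟩
      · obtain ⟨d1, d2, d3, d4⟩ := c5 d hd
        refine ⟨by linarith, e3.trans d2, fun r hr => rt r (d1.le.trans hr) ▸ d3 r hr,
          fun r hr => ?_⟩
        rcases le_total r (kr b) with e | e
        · exact (l1 r e).trans (val_mono d2)
        · exact rt r e ▸ d4 r hr

/-- list of the nodes in front of a given list -/
noncomputable def Tr.toL (T : Tr) : List (ℕ × Nd) → List (ℕ × Nd) :=
  Tr.rec (fun L => L) (fun _ k d _ f g L => f ((k, d) :: g L)) T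

/-- test on all nodes -/
noncomputable def Tr.all (p : ℕ → Nd → Bool) (T : Tr) : Bool :=
  Tr.rec true (fun _ k d _ f g => f && p k d && g) T

/-- the node with the largest key `≤ x` -/
noncomputable def Tr.low (x : ℕ) (T : Tr) : Nd → Nd :=
  Tr.rec (fun a => a) (fun _ k d _ f g a => Bool.rec (f a) (g d) (Nat.ble k x)) T

/-- the node with the smallest key `≥ x` -/
noncomputable def Tr.up (x : ℕ) (T : Tr) : Nd → Nd :=
  Tr.rec (fun a => a) (fun _ k d _ f g a => Bool.rec (g a) (f d) (Nat.ble x k)) T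

theorem Tr.all_node {p : ℕ → Nd → Bool} {l r : Tr} {d : Nd} (h1 : l.all p = true)
    (h2 : p k d = true) (h3 : r.all p = true) : (Tr.node l k d r).all p = true := by
  change (l.all p && p k d && r.all p) = true
  rw [h1, h2, h3]
  rfl

lemma Tr.mem_toL (T : Tr) (x : ℕ × Nd) : ∀ L, x ∈ T.toL L ↔ x ∈ T.toL [] ∨ x ∈ L := by
  induction T with
  | leaf => exact fun L => (or_iff_right List.not_mem_nil).symm
  | node l k d r a b =>
    intro L
    change x ∈ l.toL ((k, d) :: r.toL L) ↔ x ∈ l.toL ((k, d) :: r.toL []) ∨ _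
    rw [a, a (_ :: _), List.mem_cons, List.mem_cons, b L, or_assoc, or_assoc]

lemma Tr.mem_node {l r : Tr} {d : Nd} {x : ℕ × Nd} : x ∈ (Tr.node l k d r).toL [] ↔
    x ∈ l.toL [] ∨ x = (k, d) ∨ x ∈ r.toL [] :=
  (l.mem_toL x _).trans (or_congr_right List.mem_cons)

lemma Tr.all_ok {p : ℕ → Nd → Bool} (T : Tr) (h : T.all p = true) :
    ∀ x ∈ T.toL [], p x.1 x.2 = true := by
  induction T with
  | leaf => exact fun x hx => absurd hx List.not_mem_nil
  | node l k d r a b =>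
    replace h : (l.all p && p k d && r.all p) = true := h
    rw [Bool.and_eq_true, Bool.and_eq_true] at h
    intro x hx
    rcases Tr.mem_node.1 hx with e | rfl | e
    exacts [a h.1.1 x e, h.1.2, b h.2 x e]

lemma Tr.low_ok {Q : Nd → Prop} (T : Tr) (h : ∀ x ∈ T.toL [], x.1 ≤ c → Q x.2) :
    ∀ a, Q a → Q (T.low c a) := by
  induction T with
  | leaf => exact fun _ h => h
  | node l k d r a b =>
    intro u hu
    change Q (Bool.rec (l.low c u) (r.low c d) (Nat.ble k c))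
    cases e : Nat.ble k c
    · exact a (fun x hx => h x (Tr.mem_node.2 (.inl hx))) u hu
    · exact b (fun x hx => h x (Tr.mem_node.2 (.inr (.inr hx)))) d
        (h (k, d) (Tr.mem_node.2 (.inr (.inl rfl))) (Nat.le_of_ble_eq_true e))

lemma Tr.up_ok {Q : Nd → Prop} (T : Tr) (h : ∀ x ∈ T.toL [], c ≤ x.1 → Q x.2) :
    ∀ a, Q a → Q (T.up c a) := by
  induction T with
  | leaf => exact fun _ h => h
  | node l k d r a b =>
    intro u hu
    change Q (Bool.rec (r.up c u) (l.up c d) (Nat.ble c k))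
    cases e : Nat.ble c k
    · exact b (fun x hx => h x (Tr.mem_node.2 (.inr (.inr hx)))) u hu
    · exact a (fun x hx => h x (Tr.mem_node.2 (.inl hx))) d
        (h (k, d) (Tr.mem_node.2 (.inr (.inl rfl))) (Nat.le_of_ble_eq_true e))

/-- the trivial node -/
def dflt (f : ℕ) : Nd := ⟨zero.l, zero.l, zero.l, f, one.h, one.h, f, f, 0, 0, 0⟩

/-- the record given by a node on the left and a node on the right -/
def mkLk (a b : Nd) (I : Iv) : Lk := ⟨⟨a.sl, b.sh⟩, ⟨a.pl, b.ph⟩, ⟨a.kl, nat_lit 79228162551157825740963053568⟩,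
  span zero (inv (raise (nat_lit 18446744073709551616) (imax one I))),
  ⟨(ofQ (nat_lit 19) (nat_lit 5)).l, mn a.fr b.fl⟩⟩

/-- lookup in the table -/
noncomputable def look (D : Tab) (I : Iv) : Lk :=
  mkLk (D.T.low (nm I.l) (dflt D.fm)) (D.T.up (pp I.h) (dflt D.fm)) I

/-- the function `F` of a table -/
noncomputable def Ft (D : Tab) (y : ℝ) : ℝ :=
  List.casesOn (D.T.toL []) 4 fun a L => Fl L a (Real.exp y)

/-- check of the column `F` -/
noncomputable def fOK (R : Run) (D : Tab) : Bool := List.casesOn (D.T.toL []) false fun a L =>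
  refOK R D.n1 D.a && Nat.ble f0 a.2.f && Nat.ble a.2.f a.2.fl && Nat.ble a.2.fr D.fm &&
  le (pt D.fm) (cond R.four (ofQ (nat_lit 107) (nat_lit 25)) (ofQ (nat_lit 14) (nat_lit 3))) &&
  supOK R (au R (nat_lit 0) a.2.sh) zero a.2.f && chk R L a

theorem tab_ok {D : Tab} (h1 : D.T.all (ndOK R D.n1 D.a) = true) (h2 : fOK R D = true)
    (h : R.ok n) : LkOK n (Ft D) (look D) ∧ FOK n (Ft D) := by
  have hn : 2 ≤ n := (four_le h).trans' (by norm_num)
  have H := D.T.all_ok h1
  have lo := fun c Q => D.T.low_ok (c := c) (Q := Q)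
  have hi := fun c Q => D.T.up_ok (c := c) (Q := Q)
  unfold fOK at h2
  unfold Ft
  generalize D.T.toL [] = L at *
  obtain - | ⟨a, L⟩ := L
  · exact absurd h2 Bool.false_ne_true
  simp only [Bool.and_eq_true, Nat.ble_eq] at h2
  obtain ⟨⟨⟨⟨⟨⟨e0, e1⟩, e2⟩, e3⟩, e4⟩, e5⟩, e6⟩ := h2
  replace H := fun x hx => nd_ok h e0 (H x hx)
  obtain ⟨c1, c2, c3, c4, c5⟩ := chk_ok h L a e6 (f0_le e1) e2 fun d hd r r0 hr =>
    ((H d (List.mem_cons_of_mem _ hd)).2.2 r r0 hr).1
  have fm : ∀ r, Fl L a r ≤ val D.fm := fun r => (c3 r).2.trans (val_mono e3)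
  refine ⟨fun I r r0 hr => ?_, c1.comp Real.continuous_exp, fun y => ⟨(c3 _).1, ?_⟩,
    fun y => deriv (Fl L a) (Real.exp y) * Real.exp y,
    ((a :: L).map fun d => Real.log (kr d)).toFinset, fun y hy => ?_⟩
  · have a1 := lo (nm I.l) (fun d => Lo n d r ∧ U (Fl L a r) d.fr) (fun x hx e => by
      have : (x.1 : ℝ) / 2 ^ 64 ≤ r := by linarith [hr.1.nm_le r0.le, (Nat.cast_le (α := ℝ)).2 e]
      refine ⟨(H x hx).2.1 r this, U_iff.2 ?_⟩
      rcases List.mem_cons.1 hx with rfl | hx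
      exacts [(c3 r).2, (c5 x hx).2.2.1 r this]) (dflt D.fm)
      ⟨⟨U_zero (neg_nonpos.2 (sb_bd hn r0).1), U_zero (neg_nonpos.2 (P_pos hn r0).le),
        U_zero (neg_nonpos.2 (by have := K_pos hn r0; positivity))⟩, U_iff.2 (fm r)⟩
    have a2 := hi (pp I.h) (fun d => Hi n d r ∧ U (Fl L a r) d.fl) (fun x hx e => by
      have : r ≤ (x.1 : ℝ) / 2 ^ 64 := by linarith [hr.2.le_pp, (Nat.cast_le (α := ℝ)).2 e]
      refine ⟨(H x hx).2.2 r r0 this, U_iff.2 ?_⟩
      rcases List.mem_cons.1 hx with rfl | hx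
      exacts [(c2 r this).trans_le (val_mono e2), (c5 x hx).2.2.2 r this]) (dflt D.fm)
      ⟨⟨mem_one.2.mono (sb_bd hn r0).2 le_rfl, mem_one.2.mono (P_le hn r0) le_rfl⟩,
        U_iff.2 (fm r)⟩
    simp only [Real.exp_log r0]
    refine ⟨⟨a1.1.1, a2.1.1⟩, ⟨a1.1.2.1, a2.1.2⟩, ⟨a1.1.2.2, ?_⟩, mem_zero.span
      (((mem_one.imax hr).raise ?_).inv (pos_raise (by norm_num) _)) (cor_le r0).1 (cor_le r0).2,
      (mem_ofQ 19 (by norm_num : 0 < 5)).1.mono (neg_le_neg ?_) le_rfl, a1.2.min a2.2⟩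
    · have := rK_le hn r0
      change _ ≤ ((nat_lit 79228162551157825740963053568 : ℕ) : ℝ)
      rw [show ((nat_lit 79228162551157825740963053568 : ℕ) : ℝ) = 2 ^ 96 + 2 ^ 64 * 2 by norm_num]
      linarith
    · rw [S_eq]
      linarith [le_max_left 1 r]
    · exact_mod_cast (c3 r).1
  · have h4 : (4 : ℝ) ≤ n := by exact_mod_cast four_le h
    have b1 := fm (Real.exp y)
    cases e : R.four <;> rw [e] at e4
    · have := (mem_pt _).le (mem_ofQ 14 (by norm_num : 0 < 3)) e4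
      push_cast at this
      exact ⟨by nlinarith, fun e' => absurd (h.1.2 e') (by simp [e])⟩
    · have := (mem_pt _).le (mem_ofQ 107 (by norm_num : 0 < 25)) e4
      push_cast at this
      exact ⟨by nlinarith, fun _ => by linarith⟩
  · have r0 := Real.exp_pos y
    have ne : ∀ d ∈ a :: L, Real.exp y ≠ kr d := fun d hd e => hy (List.mem_toFinset.2
      (List.mem_map.2 ⟨d, hd, by rw [← e, Real.log_exp]⟩))
    have : ∃ D, HasDerivAt (Fl L a) D (Real.exp y) ∧
        Sup n (Real.exp y) (Fl L a (Real.exp y)) (D * Real.exp y) := by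
      rcases lt_or_gt_of_ne (ne a List.mem_cons_self) with e | e
      · refine ⟨0, (hasDerivAt_const _ (val a.2.f)).congr_of_eventuallyEq
          (mem_of_superset (Iio_mem_nhds e) fun u hu => c2 u (le_of_lt hu)), ?_⟩
        exact sup_ok h (U_au h r0 (by simpa using r0.le)
          ((H a List.mem_cons_self).2.2 _ r0 e.le).1) (mem_zero.congr (zero_mul _).symm)
          (by linarith [f0_le e1]) (c2 _ e.le).ge e5
      · exact c4 _ e fun d hd => ne d (List.mem_cons_of_mem _ hd)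
    obtain ⟨D, d1, d2⟩ := this
    simp only [d1.deriv]
    exact ⟨d1.comp y (Real.hasDerivAt_exp y), d2⟩

end Pool.Agent.Lib.MP_f225de_an.Tb
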