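import Pool.Agent.Lib.MP_f225de_an.SkW0

set_option autoImplicit false

open MeasureTheory Set Filter Topology
open scoped ENNReal NNReal Real

namespace Pool.Agent.Lib.MP_f225de_an.Sk

variable {n : ℕ}

variable {c : Cmb n} {a : c.H → ℝ → ℝ} {cs : c.H → ℝ → ℝ≥0∞}
  {St : Finset (Fin (n - 1)) → ℝ → ℝ → ℝ → ℝ → Prop}

/-- the level inequality for the cost `cs` -/
def Lv (c : Cmb n) (a : c.H → ℝ → ℝ) (cs : c.H → ℝ → ℝ≥0∞)
    (St : Finset (Fin (n - 1)) → ℝ → ℝ → ℝ → ℝ → Prop) : Prop :=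
  ∀ C y q q1 w1 t, 0 < t → St C y q q1 w1 → ∃ x, 0 ≤ x ∧ ∑ h ∈ c.cells C, cs h y = ENNReal.ofReal x ∧
    x ≤ π * t * (q1 + w1 * q) + Real.exp (-2 * y / n) / t *
      ((∑ h ∈ c.cells C, a h y) - (w1 + 2 / n) * AC c a C y)

lemma sum_lint {ι : Type} (s : Finset ι) (f : ι → ℝ → ℝ≥0∞) (μ : Measure ℝ) :
    ∑ i ∈ s, ∫⁻ x, f i x ∂μ ≤ ∫⁻ x, ∑ i ∈ s, f i x ∂μ := by
  induction s using Finset.cons_induction with
  | empty => simp
  | cons i s hi ih =>
    simp only [Finset.sum_cons]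
    exact (add_le_add_right ih _).trans (le_lintegral_add _ _)

lemma propG (ha : Area c a) (hL : Lv c a cs St) (C : Finset (Fin (n - 1))) {u v : ℝ}
    {Q Q1 W W1 : ℝ → ℝ} (huv : u ≤ v) (hQ : ContinuousOn Q (Icc u v))
    (hW : ContinuousOn W (Icc u v)) (hs : ∀ y ∈ Ioo u v, HasDerivAt Q (Q1 y) y ∧
      HasDerivAt W (W1 y) y ∧ St C y (Q y) (Q1 y) (W1 y)) {t : ℝ} (ht : 0 < t) :
    GG c a C u (Q u) (t * Real.exp (W u - W v)) ≤ GG c a C v (Q v) t ∧
      ∑ h ∈ c.cells C, ∫⁻ y in Ioc u v, cs h y ≤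
        ENNReal.ofReal (GG c a C v (Q v) t - GG c a C u (Q u) (t * Real.exp (W u - W v))) := by
  set T : ℝ → ℝ := fun y => t * Real.exp (W y - W v) with hT
  have hT0 : ∀ y, 0 < T y := fun y => by positivity
  have hAc : Continuous (AC c a C) :=
    continuous_iff_continuousAt.mpr fun y => (AC_der ha C y).continuousAt
  have hTc : ContinuousOn T (Icc u v) := by
    simp only [hT]
    fun_prop
  choose! x x0 x1 x2 using fun y (hy : y ∈ Ioo u v) => hL C y _ _ _ _ (hT0 y) (hs y hy).2.2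
  have := lint_le (G := fun y => GG c a C y (Q y) (T y)) huv
    (ContinuousOn.add (by fun_prop) (ContinuousOn.div (by fun_prop) hTc fun y _ => (hT0 y).ne'))
    (fun y hy => ?_) fun y hy => (x0 y hy).trans (x2 y hy)
  · rw [show T v = t by simp [hT]] at this
    refine ⟨this.1, (sum_lint _ _ _).trans (le_trans ?_ this.2)⟩
    rw [← Measure.restrict_congr_set Ioo_ae_eq_Ioc]
    exact setLIntegral_mono' measurableSet_Ioo fun y hy =>
      (x1 y hy).trans_le (ENNReal.ofReal_le_ofReal (x2 y hy))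
  obtain ⟨h1, h2, -⟩ := hs y hy
  have h3 : HasDerivAt T (T y * W1 y) y :=
    (((h2.sub_const (W v)).exp).const_mul t).congr_deriv (by simp only [hT]; ring)
  have h4 : HasDerivAt (fun y : ℝ => Real.exp (-2 * y / n))
      (Real.exp (-2 * y / n) * (-2 / n)) y := by
    simpa using (((hasDerivAt_id y).const_mul (-2)).div_const (n : ℝ)).exp
  refine (((h3.const_mul π).mul h1).add (((AC_der ha C y).mul h4).div h3 (hT0 y).ne')).congr_deriv ?_
  have := (hT0 y).ne'
  simp only [Pi.mul_apply]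
  field_simp
  ring

lemma lint_sup {ι : Type} {S : Finset ι} {f : ι → ℝ → ℝ≥0∞} {s : ℕ → Set ℝ} (hs : Monotone s)
    {B : ℝ≥0∞} (hB : ∀ k, ∑ i ∈ S, ∫⁻ y in s k, f i y ≤ B) :
    ∑ i ∈ S, ∫⁻ y in ⋃ k, s k, f i y ≤ B := by
  simp only [setLIntegral_iUnion_of_directed _ hs.directed_le]
  rw [ENNReal.finsetSum_iSup_of_monotone fun i a b h => lintegral_mono_set (hs h)]
  exact iSup_le hB

lemma sysG (ha : Area c a) (hL : Lv c a cs St) :
    SysG St fun C y q => ∀ t, 0 < t → 0 ≤ GG c a C y q t ∧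
      ∑ h ∈ c.cells C, ∫⁻ x in Iic y, cs h x ≤ ENNReal.ofReal (GG c a C y q t) := by
  have hp := Real.pi_pos
  refine ⟨fun C y q q' hq h t ht => ?_, fun C D y q q' hCD h h' t ht => ?_,
    fun C u v Q Q1 W W1 huv hQ hW hs h t ht => ?_, fun C v Q Q1 W W1 hQ hW hs t ht => ?_⟩
  · have : GG c a C y q t ≤ GG c a C y q' t := by
      unfold GG
      gcongr
    exact ⟨(h t ht).1.trans this, (h t ht).2.trans (ENNReal.ofReal_le_ofReal this)⟩
  · have e : c.cells (C ∪ D) = c.cells C ∪ c.cells D := by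
      ext x
      simp [Cmb.cells]
    have hd : Disjoint (c.cells C) (c.cells D) := by
      rw [Finset.disjoint_left] at hCD ⊢
      intro x h1 h2
      simp only [Cmb.cells, Finset.mem_filter] at h1 h2
      exact hCD h1.2 h2.2
    have e1 : GG c a (C ∪ D) y (q + q') t = GG c a C y q t + GG c a D y q' t := by
      unfold GG AC
      rw [e, Finset.sum_union hd]
      ring
    rw [e1, e, Finset.sum_union hd, ENNReal.ofReal_add (h t ht).1 (h' t ht).1]
    exact ⟨add_nonneg (h t ht).1 (h' t ht).1, add_le_add (h t ht).2 (h' t ht).2⟩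
  · obtain ⟨k1, k2⟩ := propG ha hL C huv hQ hW hs ht
    obtain ⟨k3, k4⟩ := h (t * Real.exp (W u - W v)) (by positivity)
    refine ⟨k3.trans k1, ?_⟩
    simp only [← Iic_union_Ioc_eq_Iic huv, Finset.sum_add_distrib,
      lintegral_union measurableSet_Ioc (Iic_disjoint_Ioc le_rfl)]
    refine (add_le_add k4 k2).trans_eq ?_
    rw [← ENNReal.ofReal_add k3 (sub_nonneg.mpr k1), add_sub_cancel]
  · have key : ∀ u < v, 0 ≤ GG c a C v (Q v) t ∧
        ∑ h ∈ c.cells C, ∫⁻ y in Ioc u v, cs h y ≤ ENNReal.ofReal (GG c a C v (Q v) t) := by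
      intro u hu
      obtain ⟨k1, k2⟩ := propG ha hL C hu.le (hQ.mono Icc_subset_Iic_self)
        (hW.mono Icc_subset_Iic_self) (fun y hy => (hs y hy.2).2) ht
      have k3 : 0 ≤ GG c a C u (Q u) (t * Real.exp (W u - W v)) := by
        have := (hs u hu).1
        have := AC_nonneg ha C u
        unfold GG
        positivity
      exact ⟨k3.trans k1, k2.trans (ENNReal.ofReal_le_ofReal (by linarith))⟩
    refine ⟨(key (v - 1) (by linarith)).1, ?_⟩
    have e : Iic v = ⋃ k : ℕ, Ioc (v - (k + 1)) v := by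
      ext x
      simp only [mem_Iic, mem_iUnion, mem_Ioc]
      refine ⟨fun hx => ?_, fun ⟨_, h⟩ => h.2⟩
      obtain ⟨k, hk⟩ := exists_nat_gt (v - x)
      exact ⟨k, by linarith, hx⟩
    rw [e]
    refine lint_sup (fun i j hij => Ioc_subset_Ioc_left ?_) fun k => (key _ ?_).2
    · have : (i : ℝ) ≤ j := by exact_mod_cast hij
      linarith
    · have : (0 : ℝ) ≤ k := k.cast_nonneg
      linarith

theorem bellG (ha : Area c a) (hL : Lv c a cs St)
    (hN : ∀ S, SysG St S → ∀ y, 0 ≤ y → S Finset.univ y 1) :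
    ∑ h, ∫⁻ y, cs h y ≤ ENNReal.ofReal (2 * π) := by
  have hp := Real.pi_pos
  have hS := hN _ (sysG ha hL)
  have hc : c.cells Finset.univ = Finset.univ := by simp [Cmb.cells]
  rw [← Measure.restrict_univ (μ := volume), show (univ : Set ℝ) = ⋃ k : ℕ, Iic (k : ℝ) by
      ext x; simpa using exists_nat_ge x]
  refine ENNReal.le_of_forall_pos_le_add fun ε hε _ => lint_sup
    (fun i j hij => Iic_subset_Iic.mpr (by exact_mod_cast hij)) fun k => ?_
  obtain ⟨y, hy, hy0, hyk⟩ := ((ha.fin (ε / π) (by positivity)).and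
    ((eventually_ge_atTop 0).and (eventually_ge_atTop (k : ℝ)))).exists
  have := (hS y hy0 1 one_pos).2
  rw [GG, AC, hc] at this
  rw [← ENNReal.ofReal_coe_nnreal, ← ENNReal.ofReal_add (by positivity) ε.coe_nonneg]
  refine (Finset.sum_le_sum fun h _ => lintegral_mono_set (Iic_subset_Iic.mpr hyk)).trans
    (this.trans (ENNReal.ofReal_le_ofReal ?_))
  have h1 : Real.exp (2 * y / n) * Real.exp (-2 * y / n) = 1 := by
    rw [← Real.exp_add]
    simp [neg_div]
  have h2 := mul_le_mul_of_nonneg_right hy (Real.exp_pos (-2 * y / n)).le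
  rw [mul_assoc, h1] at h2
  have h3 : π * (1 + ε / π) = π + ε := by field_simp
  linarith

end Pool.Agent.Lib.MP_f225de_an.Sk
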