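import Pool.Agent.Lib.MP_f225de_an.AR5
import Pool.Agent.Lib.MP_f225de_an.Iso2
import Pool.Agent.Lib.MP_f225de_an.W1

set_option autoImplicit false

open MeasureTheory Set Filter Topology Polynomial Complex
open scoped ENNReal NNReal Real ComplexConjugate

namespace Pool.Agent.Lib.MP_f225de_an.AR

open E

lemma piece_arcW {σ r a b l : ℝ} (h0 : 0 < σ) (hr : 0 < r) (hl : 0 < l) (hab : a ≤ b)
    (h : Ioo a b ⊆ Sk.Arc σ r) {Z : ℂ → ℂ} (hZ : ∀ u ∈ Sec σ, u ≠ 1 → AnalyticAt ℂ Z u) (c : Bool)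
    {ρ : ℝ → ℝ} (cρ : Continuous ρ) (hρ : ∀ x, 0 < ρ x) :
    E.Arc l (kp c (Z (1 + r * exp ((if c then a else b : ℝ) * I))),
      kp c (Z (1 + r * exp ((if c then b else a : ℝ) * I))), ∫ ψ in a..b, ρ ψ,
      l * (∫ ψ in a..b, az Z (1 + r * exp (ψ * I)) / ρ ψ) -
        ∫ ψ in a..b, bz Z (1 + r * exp (ψ * I))) := by
  have c1 := (piece_cont h0 hr hab h fun u hu e => az_cont (hZ u hu e)).div₀ cρ.continuousOn
    fun x _ => (hρ x).ne'
  have c2 := piece_cont h0 hr hab h fun u hu e => bz_cont (hZ u hu e)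
  have e : (fun ψ : ℝ => l * (‖deriv Z (1 + r * exp (ψ * I)) * (r * (exp (ψ * I) * I))‖ ^ 2 / ρ ψ) -
      (conj (Z (1 + r * exp (ψ * I))) * (deriv Z (1 + r * exp (ψ * I)) * (r * (exp (ψ * I) * I)))).im) =
      fun ψ : ℝ => l * (az Z (1 + r * exp (ψ * I)) / ρ ψ) - bz Z (1 + r * exp (ψ * I)) := by
    ext ψ
    simp only [az, bz, add_sub_cancel_left, ← mul_assoc, mul_I_im, norm_mul, norm_I]
    ring_nf
  have d := fun x => (cρ.integral_hasStrictDerivAt a x).hasDerivAt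
  have := arc_ofw hl hab (γ := fun ψ => Z (1 + r * exp (ψ * I)))
    (γ' := fun ψ => deriv Z (1 + r * exp (ψ * I)) * (r * (exp (ψ * I) * I)))
    (piece_cont h0 hr hab h fun u hu e => (hZ u hu e).continuousAt) (fun ψ hψ => ?_)
    (fun x _ => (d x).continuousAt.continuousWithinAt) (fun x _ => d x) (fun x _ => hρ x)
    (e ▸ ((continuousOn_const.mul c1).sub c2).integrableOn_Icc)
  · rw [e, intervalIntegral.integral_sub ((c1.intervalIntegrable_of_Icc hab).const_mul l)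
      (c2.intervalIntegrable_of_Icc hab), intervalIntegral.integral_const_mul,
      intervalIntegral.integral_same, sub_zero] at this
    cases c
    · exact mirror hl this
    · exact this
  · have a := arc_sec h0 hr (Ioo_subset_Icc_self (h hψ).1) (h hψ).2.le
    have b : HasDerivAt (fun z : ℂ => 1 + r * exp (z * I)) (r * (exp (ψ * I) * I)) ψ := by
      simpa using (((hasDerivAt_id (ψ : ℂ)).mul_const I).cexp.const_mul (r : ℂ)).const_add 1
    exact ((hZ _ a.1 a.2).differentiableAt.hasDerivAt.comp (ψ : ℂ) b).comp_ofReal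

lemma arc_split {σ r : ℝ} (h0 : 0 < σ) (h1 : σ ≤ π) (hr : 0 < r) {g : ℝ → ℝ}
    (hg : IntegrableOn g (Sk.Arc σ r)) :
    ∫ ψ in Sk.Arc σ r, g ψ = (∫ ψ in (0 : ℝ)..f1 σ r, g ψ) + ∫ ψ in f2 σ r..π, g ψ := by
  obtain ⟨a, b, c⟩ := f_ord h0 h1 hr
  rw [setIntegral_congr_set (arc_ae h0 h1 hr), setIntegral_union
    (Ioo_disjoint_Ioo.mpr ((min_le_left _ _).trans (b.trans (le_max_right _ _)))) measurableSet_Ioo
    (hg.mono_set fun _ h => arc_in h0 h1 hr (.inl h))
    (hg.mono_set fun _ h => arc_in h0 h1 hr (.inr h)), intervalIntegral.integral_of_le a,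
    intervalIntegral.integral_of_le c, integral_Ioc_eq_integral_Ioo, integral_Ioc_eq_integral_Ioo]

lemma div_intg {s : Set ℝ} (hs : MeasurableSet s) {f ρ : ℝ → ℝ} {v : ℝ} (hv : 0 < v)
    (hf : IntegrableOn f s) (h1 : IntegrableOn ρ s) (h2 : ∀ x ∈ s, v ≤ ρ x) :
    IntegrableOn (fun x => f x / ρ x) s :=
  (hf.norm.div_const v).mono' (hf.aemeasurable.div h1.aemeasurable).aestronglyMeasurable
    ((ae_restrict_mem hs).mono fun x hx => by
      rw [norm_div, Real.norm_of_nonneg (hv.le.trans (h2 x hx))]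
      exact div_le_div_of_nonneg_left (norm_nonneg _) hv (h2 x hx))

variable {n : ℕ} {p : ℂ[X]} (G : Geo n p)

lemma az_intg (h : G.H) {r : ℝ} (hr : 0 < r) :
    IntegrableOn (fun ψ : ℝ => az (G.Z h) (1 + r * exp (ψ * I))) (Sk.Arc (G.σ h) r) :=
  arc_intg (G.σ_pos h) (G.σ_le h) hr fun u hu e => az_cont (G.an h u hu e)

lemma levelC {s : Finset G.H} {y v : ℝ} (hC : Cl G s y) (hv : 0 < v) {ρ : G.H → ℝ → ℝ}
    (cρ : ∀ h, Continuous (ρ h)) (hρ : ∀ h x, v ≤ ρ h x) :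
    2 * π * ∑ h ∈ s, bb G h y ≤ (∑ h ∈ s, ∫ ψ in Sk.Arc (G.σ h) (Real.exp y), ρ h ψ) *
      ∑ h ∈ s, ∫ ψ in Sk.Arc (G.σ h) (Real.exp y),
        az (G.Z h) (1 + Real.exp y * exp (ψ * I)) / ρ h ψ := by
  obtain ⟨r, hr⟩ : ∃ r, Real.exp y = r := ⟨_, rfl⟩
  have r0 : 0 < r := hr ▸ Real.exp_pos y
  let a : G.H × Bool → ℝ := fun i => if i.2 then 0 else f2 (G.σ i.1) r
  let b : G.H × Bool → ℝ := fun i => if i.2 then f1 (G.σ i.1) r else π
  have o := fun h => f_ord (G.σ_pos h) (G.σ_le h) r0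
  have hab : ∀ i, a i ≤ b i := fun ⟨h, c⟩ => by
    cases c
    exacts [(o h).2.2, (o h).1]
  have i1 : ∀ h, IntegrableOn (ρ h) (Sk.Arc (G.σ h) r) := fun h =>
    (cρ h).integrableOn_Icc.mono_set fun _ a => Ioo_subset_Icc_self a.1
  have := wirt (s ×ˢ Finset.univ) _ _ _ _ _
    (fun l hl i _ => piece_arcW (G.σ_pos i.1) r0 hl (hab i) (fun ψ hψ => arc_in (G.σ_pos _)
      (G.σ_le _) r0 (by obtain ⟨h, _ | _⟩ := i; exacts [.inr hψ, .inl hψ])) (G.an _) (G.sg i.1)
      (cρ i.1) fun x => hv.trans_le (hρ _ x))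
    (Finset.sum_nonneg fun i _ => intervalIntegral.integral_nonneg (hab i) fun _ _ =>
      div_nonneg (sq_nonneg _) (hv.le.trans (hρ _ _))) fun f => ?_
  · simp only [Finset.sum_product, Fintype.sum_bool, a, b, if_true, Bool.false_eq_true, if_false,
      ← arc_split (G.σ_pos _) (G.σ_le _) r0 (i1 _), ← arc_split (G.σ_pos _) (G.σ_le _) r0
        (div_intg (arc_meas _ _) hv (az_intg G _ r0) (i1 _) fun x _ => hρ _ x),
      ← arc_int (G.σ_pos _) (G.σ_le _) r0 fun u hu e => bz_cont (G.an _ u hu e)] at this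
    simpa only [bb, hr] using this
  rw [Finset.sum_product, ← bd_sum G hC hr f fun _ _ => rfl]
  refine Finset.sum_congr rfl fun h _ => ?_
  simp only [Fintype.sum_bool, a, b]
  cases G.sg h <;> simp <;> ring

theorem levelW {s : Finset G.H} {y v : ℝ} (hC : Cl G s y) (hv : 0 < v) {ρ : G.H → ℝ → ℝ}
    (iρ : ∀ h, IntegrableOn (ρ h) (Sk.Arc (G.σ h) (Real.exp y)))
    (hρ : ∀ h, ∀ x ∈ Sk.Arc (G.σ h) (Real.exp y), v ≤ ρ h x) :
    2 * π * ∑ h ∈ s, bb G h y ≤ (∑ h ∈ s, ∫ ψ in Sk.Arc (G.σ h) (Real.exp y), ρ h ψ) *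
      ∑ h ∈ s, ∫ ψ in Sk.Arc (G.σ h) (Real.exp y),
        az (G.Z h) (1 + Real.exp y * exp (ψ * I)) / ρ h ψ := by
  choose M hM using fun h => box_bd (G.σ_pos h) (fun u hu e => az_cont (G.an h u hu e)) y y
  refine ge_of_tendsto (f := fun ε : ℝ =>
    (∑ h ∈ s, ((∫ ψ in Sk.Arc (G.σ h) (Real.exp y), ρ h ψ) + ε)) *
      ∑ h ∈ s, ((∫ ψ in Sk.Arc (G.σ h) (Real.exp y),
        az (G.Z h) (1 + Real.exp y * exp (ψ * I)) / ρ h ψ) + |M h| / v ^ 2 * ε)) (x := 𝓝[>] 0)
    ((Continuous.tendsto' (by fun_prop) 0 _ (by simp)).mono_left nhdsWithin_le_nhds)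
    (eventually_mem_nhdsWithin.mono fun ε (hε : 0 < ε) => ?_)
  choose g g1 g2 using fun h => (iρ h).integrable.exists_boundedContinuous_integral_sub_le hε
  have m := fun h => arc_meas (G.σ h) (Real.exp y)
  have i1 : ∀ h, IntegrableOn (fun x => max (g h x) v) (Sk.Arc (G.σ h) (Real.exp y)) := fun h =>
    (Continuous.integrableOn_Icc (by fun_prop)).mono_set fun _ a => Ioo_subset_Icc_self a.1
  have i2 : ∀ h, IntegrableOn (fun x => ‖ρ h x - g h x‖) (Sk.Arc (G.σ h) (Real.exp y)) :=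
    fun h => ((iρ h).sub (g2 h)).norm
  have k : ∀ h, ∀ x ∈ Sk.Arc (G.σ h) (Real.exp y), |max (g h x) v - ρ h x| ≤ ‖ρ h x - g h x‖ :=
    fun h x hx => by
      rw [Real.norm_eq_abs, abs_sub_comm (ρ h x)]
      nth_rw 1 [← max_eq_left (hρ h x hx)]
      exact abs_max_sub_max_le_abs _ _ _
  refine (levelC G hC hv (ρ := fun h x => max (g h x) v) (fun h => by fun_prop)
    fun h x => le_max_right _ _).trans (mul_le_mul (Finset.sum_le_sum fun h _ => ?_)
      (Finset.sum_le_sum fun h _ => ?_) (Finset.sum_nonneg fun h _ => integral_nonneg fun _ =>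
        div_nonneg (sq_nonneg _) (hv.le.trans (le_max_right _ _))) (Finset.sum_nonneg fun h _ => add_nonneg (setIntegral_nonneg (m h)
          fun x hx => hv.le.trans (hρ h x hx)) hε.le))
  · refine le_trans ?_ (add_le_add_right (g1 h) _)
    rw [← integral_add (iρ h) (i2 h)]
    exact setIntegral_mono_on (i1 h) ((iρ h).add (i2 h)) (m h) fun x hx => by
      linarith [(abs_le.mp (k h x hx)).2]
  · have i3 := div_intg (m h) hv (az_intg G h (Real.exp_pos y)) (iρ h) (hρ h)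
    refine le_trans ?_ (add_le_add_right (mul_le_mul_of_nonneg_left (g1 h) (by positivity)) _)
    rw [← integral_const_mul, ← integral_add i3 ((i2 h).const_mul _)]
    refine setIntegral_mono_on (div_intg (m h) hv (az_intg G h (Real.exp_pos y)) (i1 h)
      fun _ _ => le_max_right _ _) (i3.add ((i2 h).const_mul _)) (m h) fun x hx => ?_
    have a := hρ h x hx
    have b := le_max_right (g h x) v
    have c := (le_abs_self _).trans ((hM h y (by simp) x hx).trans (le_abs_self _))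
    have d : 0 ≤ az (G.Z h) (1 + Real.exp y * exp (x * I)) := sq_nonneg _
    have e := (abs_le.mp (k h x hx)).1
    rw [← sub_le_iff_le_add', div_sub_div _ _ (by linarith) (by linarith), mul_comm (max _ _),
      ← mul_sub, div_mul_eq_mul_div, sq]
    exact div_le_div₀ (by positivity) ((mul_le_mul_of_nonneg_left (by linarith) d).trans
      (mul_le_mul_of_nonneg_right c (norm_nonneg _))) (by positivity)
      (mul_le_mul b a hv.le (by linarith))

end Pool.Agent.Lib.MP_f225de_an.AR
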