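import Pool.Agent.Lib.MP_f225de_an.W2

set_option autoImplicit false

open MeasureTheory Set Filter Topology Polynomial Complex
open scoped ENNReal NNReal Real ComplexConjugate

namespace Pool.Agent.Lib.MP_f225de_an.Sk

open E AR

variable {n : ℕ} {p : ℂ[X]}

lemma bb_eq (G : Geo n p) (hn : 2 ≤ n) {S : Finset G.H} {t : ℝ} (hC : Cl G S t) :
    2 * ∑ h ∈ S, ∫ y in Iic t, aa G h y = ∑ h ∈ S, bb G h t := by
  refine tendsto_nhds_unique_of_eventuallyEq ((tendsto_finsetSum S fun h _ =>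
      intervalIntegral_tendsto_integral_Iic t (aa_int G hn h t) tendsto_id).const_mul 2)
    (f := fun s => 2 * ∑ h ∈ S, ∫ y in s..t, aa G h y) (l := atBot)
    (by simpa using (tendsto_finsetSum S fun h _ => bb_bot G hn h).const_sub (∑ h ∈ S, bb G h t))
    ((eventually_lt_atBot t).mono fun s hs => ?_)
  rw [green G hs hC, intervalIntegral.integral_finsetSum fun h _ =>
    (aa_cont G h).intervalIntegrable _ _]

lemma amw {E k g t v : ℝ} (hk : 0 ≤ k) (ht : 0 < t) (hv : 0 < v) :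
    E * (k * g) ≤ t / 4 * (k ^ 2 + v * k) + E ^ 2 / t * (g ^ 2 - v * (g ^ 2 / (k + v))) := by
  rw [← sub_nonneg]
  have : 0 ≤ k * (t * (k + v) - 2 * E * g) ^ 2 / (4 * t * (k + v)) := by positivity
  convert this using 1
  field_simp
  ring

lemma levK (G : Geo n p) (hn : 2 ≤ n) {k : ℝ → ℝ → ℝ → ℝ} {κ₁ κ₂ : ℝ → ℝ → ℝ} (hK : Ker k κ₁ κ₂)
    {s : Finset G.H} {y t v μ : ℝ} (hC : Cl G s y) (ht : 0 < t) (hv : 0 < v) (hμ : 0 ≤ μ)
    (h1 : μ * (∑ h ∈ s, κ₁ (G.σ h) y + v * ∑ h ∈ s, lam (G.σ h) y) ≤ 2 * v) :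
    ∃ x, 0 ≤ x ∧ ∑ h ∈ s, costW n (G.σ h) y (k (G.σ h) y) (uu G h y) = ENNReal.ofReal x ∧
      x ≤ π * t * ((∑ h ∈ s, κ₂ (G.σ h) y + v * ∑ h ∈ s, κ₁ (G.σ h) y) / 2) +
        Real.exp (-2 * y / n) / t * (∑ h ∈ s, aa G h y - μ * ∑ h ∈ s, ∫ x in Iic y, aa G h x) := by
  have hπ := Real.pi_pos
  have K : ∀ h, G.σ h ∈ Ioc 0 π := fun h => ⟨G.σ_pos h, G.σ_le h⟩
  have m := fun h => arc_meas (G.σ h) (Real.exp y)
  have fin : ∀ h, IsFiniteMeasure (volume.restrict (Arc (G.σ h) (Real.exp y))) := fun h =>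
    isFiniteMeasure_restrict.mpr ((measure_mono fun _ h => h.1).trans_lt measure_Ioo_lt_top).ne
  have mk : ∀ h, Measurable (k (G.σ h) y) := fun h => hK.meas _ (K h) y
  have i1 : ∀ h, IntegrableOn (k (G.σ h) y) (Arc (G.σ h) (Real.exp y)) := fun h =>
    ((memLp_two_iff_integrable_sq (mk h).aestronglyMeasurable).mpr (hK.sq _ (K h) y)).integrable
      one_le_two
  have i2 : ∀ h, IntegrableOn (fun ψ => k (G.σ h) y ψ + v) (Arc (G.σ h) (Real.exp y)) :=
    fun h => (i1 h).add (integrable_const v)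
  have p2 : ∀ h, ∀ ψ ∈ Arc (G.σ h) (Real.exp y), v ≤ k (G.σ h) y ψ + v := fun h ψ a =>
    le_add_of_nonneg_left (hK.nonneg _ (K h) y ψ)
  have i3 := fun h => az_intg G h (Real.exp_pos y)
  have i4 := fun h => div_intg (m h) hv (i3 h) (i2 h) (p2 h)
  have L := levelW G hC hv i2 p2
  let f : G.H → ℝ → ℝ := fun h ψ => Real.exp (-y / n) * (k (G.σ h) y ψ *
    ‖(Real.exp y : ℂ) * deriv (G.Z h) (1 + Real.exp y * exp (ψ * I))‖)
  have f0 : ∀ h, ∀ ψ ∈ Arc (G.σ h) (Real.exp y), 0 ≤ f h ψ := fun h ψ a => by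
    have := hK.nonneg _ (K h) y ψ
    positivity
  have i5 := fun h => ((((hK.sq _ (K h) y).add ((i1 h).const_mul v)).const_mul (t / 4)).add
    (((i3 h).sub ((i4 h).const_mul v)).const_mul (Real.exp (-y / n) ^ 2 / t)))
  have f1 : ∀ h, ∀ ψ ∈ Arc (G.σ h) (Real.exp y), f h ψ ≤ _ := fun h ψ a =>
    (amw (hK.nonneg _ (K h) y ψ) ht hv).trans_eq (by
      rw [show ‖(Real.exp y : ℂ) * deriv (G.Z h) (1 + Real.exp y * exp (ψ * I))‖ ^ 2 =
        az (G.Z h) (1 + Real.exp y * exp (ψ * I)) by simp [az, -ofReal_exp]])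
  have i6 : ∀ h, IntegrableOn (f h) (Arc (G.σ h) (Real.exp y)) := fun h =>
    (i5 h).mono' (Measurable.aestronglyMeasurable (((mk h).mul (((measurable_deriv _).comp
      (by fun_prop)).const_mul _).norm).const_mul _)) ((ae_restrict_mem (m h)).mono fun ψ a =>
        (Real.norm_of_nonneg (f0 h ψ a)).trans_le (f1 h ψ a))
  refine ⟨∑ h ∈ s, ∫ ψ in Arc (G.σ h) (Real.exp y), f h ψ,
    Finset.sum_nonneg fun h _ => setIntegral_nonneg (m h) (f0 h), ?_, ?_⟩
  · rw [ENNReal.ofReal_sum_of_nonneg fun h _ => setIntegral_nonneg (m h) (f0 h)]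
    refine Finset.sum_congr rfl fun h _ => Eq.trans ?_ (ofReal_integral_eq_lintegral_ofReal (i6 h)
      ((ae_restrict_mem (m h)).mono (f0 h))).symm
    simp only [costW, uu, f, mul_assoc]
  have hE : Real.exp (-y / n) ^ 2 = Real.exp (-2 * y / n) := by
    rw [← Real.exp_nat_mul]
    congr 1
    push_cast
    ring
  have L1 : ∑ h ∈ s, ∫ ψ in Arc (G.σ h) (Real.exp y), (k (G.σ h) y ψ + v) ≤
      2 * π * (∑ h ∈ s, κ₁ (G.σ h) y + v * ∑ h ∈ s, lam (G.σ h) y) := by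
    simp only [mul_add, Finset.mul_sum, ← Finset.sum_add_distrib]
    refine Finset.sum_le_sum fun h _ => ?_
    rw [integral_add (i1 h) (integrable_const v), setIntegral_const, lam, smul_eq_mul, Measure.real]
    exact add_le_add (hK.one _ (K h) y) (le_of_eq (by field_simp))
  have L0 : 0 ≤ ∑ h ∈ s, ∫ ψ in Arc (G.σ h) (Real.exp y),
      az (G.Z h) (1 + Real.exp y * exp (ψ * I)) / (k (G.σ h) y ψ + v) :=
    Finset.sum_nonneg fun h _ => setIntegral_nonneg (m h) fun ψ a =>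
      div_nonneg (sq_nonneg _) (hv.le.trans (p2 h ψ a))
  rw [← bb_eq G hn hC] at L
  refine (Finset.sum_le_sum fun h _ => (setIntegral_mono_on (i6 h) (i5 h) (m h) (f1 h)).trans
    (b := _) (c := π * t * ((κ₂ (G.σ h) y + v * κ₁ (G.σ h) y) / 2) + Real.exp (-2 * y / n) / t *
      (aa G h y - v * ∫ ψ in Arc (G.σ h) (Real.exp y), az (G.Z h) (1 + Real.exp y * exp (ψ * I)) /
        (k (G.σ h) y ψ + v))) ?_).trans ?_
  · rw [integral_add' (((hK.sq _ (K h) y).add ((i1 h).const_mul v)).const_mul _)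
      (((i3 h).sub ((i4 h).const_mul v)).const_mul _), integral_const_mul, integral_const_mul,
      integral_add' (hK.sq _ (K h) y) ((i1 h).const_mul v), integral_sub' (i3 h) ((i4 h).const_mul v),
      integral_const_mul, integral_const_mul, hE, aa_eq]
    have a := hK.two _ (K h) y
    have b := mul_le_mul_of_nonneg_left (hK.one _ (K h) y) hv.le
    rw [sq2] at a
    rw [ell] at b
    nlinarith
  · simp only [Finset.sum_add_distrib, ← Finset.mul_sum, ← Finset.sum_div, Finset.sum_sub_distrib]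
    refine add_le_add_right (mul_le_mul_of_nonneg_left (sub_le_sub_left ?_ _) (by positivity)) _
    have a := mul_le_mul_of_nonneg_left (L.trans (mul_le_mul_of_nonneg_right L1 L0)) hμ
    have b := mul_le_mul_of_nonneg_right h1 (mul_nonneg Real.two_pi_pos.le L0)
    exact le_of_mul_le_mul_left (by linarith) (mul_pos Real.two_pi_pos two_pos)

theorem core_ofW (hn : 2 ≤ n) {k : ℝ → ℝ → ℝ → ℝ} {κ₁ κ₂ : ℝ → ℝ → ℝ} (hC : CertW n k)
    (hK : Ker k κ₁ κ₂) (hN : NStW n κ₁ κ₂) : Core n := by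
  intro p hp hd a h1 h2 h3
  obtain ⟨G⟩ := geoSt hn p hp hd a h1 h2 h3
  have hL : Lv (cmb G) (aa G) (fun h y => costW n (G.σ h) y (k (G.σ h) y) (uu G h y))
      ((cmb G).StepW κ₁ κ₂) := by
    intro D y q q1 w1 t ht ⟨a, b, v, c, d, e⟩
    have m : ∀ h, h ∈ (cmb G).cells D ↔ G.nd h ∈ D :=
      fun h => Finset.mem_filter.trans (and_iff_right (Finset.mem_univ _))
    obtain ⟨x, x0, x1, x2⟩ := levK G hn hK (s := (cmb G).cells D) (fun h hh =>
      ⟨(m _).mpr (by rw [G.nd_rad]; exact (m h).mp hh), (m _).mpr (by rw [G.nd_slit]; exact (m h).mp hh),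
        fun b => (m _).mpr (a h ((m h).mp hh) b)⟩) ht c b (by
          have := mul_le_mul_of_nonneg_left d c.le
          rw [mul_left_comm, mul_add v, mul_div_cancel₀ _ c.ne', add_comm (v * _), mul_comm v 2] at this
          exact this)
    refine ⟨x, x0, x1, x2.trans (add_le_add_left (mul_le_mul_of_nonneg_left ?_ (by positivity)) _)⟩
    exact (div_le_iff₀' two_pos).mpr e
  have h4 := (hC p G).trans (mul_le_mul_right (bellG (c := cmb G) (area hn p G)
    hL (hN (cmb G))) _)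
  rw [mul_comm (BB n)] at h4
  have hp := Real.pi_pos
  exact (ENNReal.mul_le_mul_iff_right (by simp [hp]) ENNReal.ofReal_ne_top).mp h4

end Pool.Agent.Lib.MP_f225de_an.Sk
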